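import Mathlib

open MeasureTheory
open scoped ENNReal ContDiff

namespace Pool.Agent.Lib.MP_ae5e3b_mp

/-- `g` is the weak (distributional) derivative of `u` in the direction `v`. -/
def IsWeakDeriv {E : Type} [NormedAddCommGroup E] [NormedSpace ℝ E] [MeasureSpace E]
    (u g : E → ℂ) (v : E) : Prop :=
  ∀ φ : E → ℝ, ContDiff ℝ ∞ φ → HasCompactSupport φ →
    ∫ x, u x * ((fderiv ℝ φ x v : ℝ) : ℂ) = -∫ x, g x * ((φ x : ℝ) : ℂ)

/-- The Dirichlet energy: the sum over the directions `e i` of the squared `L^2` norms of the weak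
derivatives of `u`, and `⊤` if some weak derivative does not exist in `L^2`. -/
noncomputable def dirichlet {E ι : Type} [NormedAddCommGroup E] [NormedSpace ℝ E] [MeasureSpace E]
    [Fintype ι] (e : ι → E) (u : E → ℂ) : ℝ≥0∞ :=
  ⨅ (g : ι → E → ℂ) (_ : ∀ i, MemLp (g i) 2 volume ∧ IsWeakDeriv u (g i) (e i)),
    ∑ i, ∫⁻ x, ‖g i x‖ₑ ^ 2

/-- Normalised antisymmetric wave functions of `N = n + 1` particles in `ℝ^d`. -/
def IsState {d n : ℕ} (Ψ : (Fin (n + 1) → Fin d → ℝ) → ℂ) : Prop :=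
  MemLp Ψ 2 volume ∧ ∫ x, ‖Ψ x‖ ^ 2 = 1 ∧
    ∀ i j : Fin (n + 1), i ≠ j → ∀ᵐ x : Fin (n + 1) → Fin d → ℝ, Ψ (x ∘ Equiv.swap i j) = -Ψ x

/-- The one-body density. -/
noncomputable def density {d n : ℕ} (Ψ : (Fin (n + 1) → Fin d → ℝ) → ℂ) (x : Fin d → ℝ) : ℝ :=
  ((n : ℝ) + 1) * ∫ y : Fin n → Fin d → ℝ, ‖Ψ (Fin.cons x y)‖ ^ 2

/-- The kinetic energy: the integral of the squared gradient in all `(n + 1) d` coordinates. -/
noncomputable def kinetic {d n : ℕ} (Ψ : (Fin (n + 1) → Fin d → ℝ) → ℂ) : ℝ≥0∞ :=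
  dirichlet (fun p : Fin (n + 1) × Fin d => Pi.single p.1 (Pi.single p.2 (1 : ℝ))) Ψ

/-- The integral of the squared gradient of the square root of `f`. -/
noncomputable def weiz {d : ℕ} (f : (Fin d → ℝ) → ℝ) : ℝ≥0∞ :=
  dirichlet (fun r : Fin d => Pi.single r (1 : ℝ)) (fun x => ((√(f x) : ℝ) : ℂ))

/-- Admissible densities. -/
def Admissible {d : ℕ} (f : (Fin d → ℝ) → ℝ) : Prop :=
  (∀ x, 0 ≤ f x) ∧ weiz f < ⊤ ∧ ∫ x, f x = 1

/-- The functional `K_N(f)` with `N = n + 1`. -/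
noncomputable def KN {d : ℕ} (n : ℕ) (f : (Fin d → ℝ) → ℝ) : ℝ≥0∞ :=
  ⨅ (Ψ : (Fin (n + 1) → Fin d → ℝ) → ℂ)
    (_ : IsState Ψ ∧ ∀ᵐ x, density Ψ x = ((n : ℝ) + 1) * f x),
    ENNReal.ofReal (((n : ℝ) + 1) ^ (-1 - 2 / (d : ℝ))) * kinetic Ψ

/-- The semiclassical constant. -/
noncomputable def Kcl (d : ℕ) : ℝ :=
  4 * Real.pi ^ 2 * d / (d + 2) *
    (volume.real (Metric.ball (0 : EuclideanSpace ℝ (Fin d)) 1)) ^ (-2 / (d : ℝ))

end Pool.Agent.Lib.MP_ae5e3b_mp
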