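import Mathlib

open MeasureTheory Filter Topology
open scoped Pointwise

namespace Pool.Agent.Lib.MP_ae5e3b_mp

noncomputable def omega (d : ℕ) : ℝ := volume.real (Metric.ball (0 : EuclideanSpace ℝ (Fin d)) 1)

lemma omega_pos (d : ℕ) : 0 < omega d :=
  ENNReal.toReal_pos (Metric.measure_ball_pos _ _ one_pos).ne' measure_ball_lt_top.ne

def eball (d : ℕ) (p : ℝ) : Set (Fin d → ℝ) := {x | ∑ r, x r ^ 2 < p ^ 2}

lemma eball_eq {d : ℕ} {p : ℝ} (hp : 0 < p) :
    eball d p = (WithLp.toLp 2) ⁻¹' Metric.ball (0 : EuclideanSpace ℝ (Fin d)) p := by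
  ext x
  simp only [eball, Set.mem_ofPred_eq, Set.mem_preimage, mem_ball_zero_iff,
    EuclideanSpace.norm_eq, Real.norm_eq_abs, sq_abs]
  rw [Real.sqrt_lt' hp]

lemma integral_eball {d : ℕ} (hd : 0 < d) {p : ℝ} (hp : 0 < p) (m : ℕ) :
    ∫ x in eball d p, (∑ r, x r ^ 2) ^ m = d * omega d * (p ^ (d + 2 * m) / (d + 2 * m)) := by
  have : Nonempty (Fin d) := ⟨⟨0, hd⟩⟩
  have hemb : MeasurableEmbedding (WithLp.toLp 2 : (Fin d → ℝ) → EuclideanSpace ℝ (Fin d)) :=
    (MeasurableEquiv.toLp 2 (Fin d → ℝ)).measurableEmbedding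
  have h1 := (PiLp.volume_preserving_toLp (Fin d)).setIntegral_preimage_emb hemb
    (fun x : EuclideanSpace ℝ (Fin d) => ‖x‖ ^ (2 * m)) (Metric.ball 0 p)
  have h2 := integral_fun_norm_addHaar (volume : Measure (EuclideanSpace ℝ (Fin d)))
    (Set.indicator (Set.Iio p) fun y : ℝ => y ^ (2 * m))
  have h3 : ∫ x : EuclideanSpace ℝ (Fin d), Set.indicator (Set.Iio p) (fun y : ℝ => y ^ (2 * m)) ‖x‖
      = ∫ x in Metric.ball (0 : EuclideanSpace ℝ (Fin d)) p, ‖x‖ ^ (2 * m) := by
    rw [← integral_indicator measurableSet_ball]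
    congr 1; ext x
    by_cases hx : ‖x‖ < p <;> simp [Set.indicator, hx]
  have h4 : ∫ y in Set.Ioi (0 : ℝ), y ^ (d - 1) •
      Set.indicator (Set.Iio p) (fun y : ℝ => y ^ (2 * m)) y = p ^ (d + 2 * m) / (d + 2 * m) := by
    have : ∀ y : ℝ, y ^ (d - 1) • Set.indicator (Set.Iio p) (fun y : ℝ => y ^ (2 * m)) y =
        Set.indicator (Set.Iio p) (fun y : ℝ => y ^ (d - 1 + 2 * m)) y := by
      intro y
      by_cases hy : y < p <;> simp [Set.indicator, hy, pow_add]
    simp_rw [this]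
    rw [integral_indicator measurableSet_Iio, Measure.restrict_restrict measurableSet_Iio,
      Set.Iio_inter_Ioi, ← integral_Ioc_eq_integral_Ioo, ← intervalIntegral.integral_of_le hp.le,
      integral_pow]
    have e : d - 1 + 2 * m + 1 = d + 2 * m := by omega
    have e' : ((d - 1 + 2 * m : ℕ) : ℝ) + 1 = d + 2 * m := by exact_mod_cast e
    rw [e, e', zero_pow (by omega), sub_zero]
  rw [h3, ← h1, finrank_euclideanSpace_fin, h4, ← eball_eq hp] at h2
  simp only [nsmul_eq_mul, smul_eq_mul] at h2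
  rw [mul_assoc]
  refine Eq.trans ?_ h2
  congr 1; ext x
  rw [pow_mul, EuclideanSpace.norm_sq_eq]; simp

open Classical in
noncomputable def kset (d : ℕ) (p : ℝ) (L : ℕ) : Finset (Fin d → ℤ) :=
  (Fintype.piFinset fun _ => Finset.Icc (-⌈p * L⌉) ⌈p * L⌉).filter
    fun k => (fun r => (k r : ℝ) / L) ∈ eball d p

lemma tendsto_kset {d : ℕ} {p : ℝ} (hp : 0 < p) (F : (Fin d → ℝ) → ℝ) (hF : Continuous F) :
    Tendsto (fun L : ℕ => (∑ k ∈ kset d p L, F fun r => (k r : ℝ) / L) / (L : ℝ) ^ d) atTop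
      (𝓝 (∫ x in eball d p, F x)) := by
  have hsub : ∀ x ∈ eball d p, ∀ r, |x r| < p := by
    intro x hx r
    have : x r ^ 2 ≤ ∑ r, x r ^ 2 :=
      Finset.single_le_sum (f := fun r => x r ^ 2) (fun _ _ => sq_nonneg _) (Finset.mem_univ r)
    exact abs_lt_of_sq_lt_sq (this.trans_lt hx) hp.le
  have hb : Bornology.IsBounded (eball d p) := by
    refine (Metric.isBounded_closedBall (x := (0 : Fin d → ℝ)) (r := p)).subset fun x hx => ?_
    rw [mem_closedBall_zero_iff, pi_norm_le_iff_of_nonneg hp.le]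
    exact fun r => (hsub x hx r).le
  have hm : MeasurableSet (eball d p) := measurableSet_lt (by fun_prop) measurable_const
  have hc : Convex ℝ (eball d p) := by
    rw [eball_eq hp]
    exact (convex_ball _ _).linear_preimage (WithLp.linearEquiv 2 ℝ (Fin d → ℝ)).symm.toLinearMap
  have key := tendsto_tsum_div_pow_atTop_integral (eball d p) F hF hb hm (hc.addHaar_frontier _)
  refine key.congr' ?_
  filter_upwards [eventually_gt_atTop 0] with L hL
  have hL' : (L : ℝ) ≠ 0 := by positivity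
  have hL0 : (0 : ℝ) < L := by positivity
  rw [Fintype.card_fin]
  congr 1
  let g : (Fin d → ℤ) → Fin d → ℝ := fun k r => (k r : ℝ) / L
  have ginj : Function.Injective g := by
    intro k k' h
    ext r
    have := congrFun h r
    simp only [g] at this
    field_simp at this
    exact_mod_cast this
  have hset : eball d p ∩ (L : ℝ)⁻¹ • (Submodule.span ℤ (Set.range (Pi.basisFun ℝ (Fin d))) :
      Set (Fin d → ℝ)) = g '' (kset d p L : Set (Fin d → ℤ)) := by
    ext x
    simp only [Set.mem_inter_iff, Set.mem_image, Finset.mem_coe]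
    rw [Set.mem_inv_smul_set_iff₀ hL', SetLike.mem_coe, Module.Basis.mem_span_iff_repr_mem]
    simp only [Pi.basisFun_repr, Pi.smul_apply, smul_eq_mul, Set.mem_range, algebraMap_int_eq,
      eq_intCast]
    constructor
    · rintro ⟨h1, h2⟩
      choose k hk using h2
      have hx : g k = x := by
        ext r; simp only [g]; rw [hk]; field_simp
      refine ⟨k, ?_, hx⟩
      simp only [kset, Finset.mem_filter, Fintype.mem_piFinset, Finset.mem_Icc]
      refine ⟨fun r => ?_, by change g k ∈ _; rwa [hx]⟩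
      have h3 := hsub x h1 r
      have h4 : |(k r : ℝ)| ≤ ⌈p * L⌉ := by
        rw [hk, abs_mul, abs_of_pos hL0]
        refine le_trans ?_ (Int.le_ceil _)
        nlinarith
      have h5 : |k r| ≤ ⌈p * L⌉ := by exact_mod_cast h4
      exact abs_le.1 h5
    · rintro ⟨k, hk, rfl⟩
      simp only [kset, Finset.mem_filter] at hk
      refine ⟨hk.2, fun r => ⟨k r, ?_⟩⟩
      simp only [g]; field_simp
  rw [hset, tsum_image F ginj.injOn, Finset.tsum_subtype' (kset d p L) fun k => F (g k)]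

theorem fermi_ball {d : ℕ} (hd : 0 < d) {p q : ℝ} (hp : 0 < p) (hq : 1 < q) :
    ∀ᶠ L : ℕ in atTop, ∃ K : Finset (Fin d → ℤ),
      omega d * p ^ d * (L : ℝ) ^ d ≤ q * K.card ∧
      ∑ k ∈ K, ∑ r, ((k r : ℝ) / L) ^ 2 ≤ q * (d / (d + 2) * p ^ 2) * K.card := by
  have t0 := tendsto_kset (d := d) hp (fun x => (∑ r, x r ^ 2) ^ 0) (by fun_prop)
  have t1 := tendsto_kset (d := d) hp (fun x => (∑ r, x r ^ 2) ^ 1) (by fun_prop)
  rw [integral_eball hd hp] at t0 t1
  have hd' : (0 : ℝ) < d := by positivity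
  have ho := omega_pos d
  simp only [pow_zero, Finset.sum_const, nsmul_eq_mul, mul_one, pow_one, Nat.cast_zero,
    mul_zero, add_zero, Nat.cast_one] at t0 t1
  have e0 : d * omega d * (p ^ d / d) = omega d * p ^ d := by field_simp
  rw [e0] at t0
  have a0 := (t0.const_mul q).eventually (lt_mem_nhds (show omega d * p ^ d < q * (omega d * p ^ d)
    by have : 0 < omega d * p ^ d := by positivity
       nlinarith))
  have a1 := ((t0.const_mul (q * (d / (d + 2) * p ^ 2))).sub t1).eventually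
    (lt_mem_nhds (show 0 < q * (d / (d + 2) * p ^ 2) * (omega d * p ^ d) -
      d * omega d * (p ^ (d + 2) / (d + 2)) by
      have : q * (d / (d + 2) * p ^ 2) * (omega d * p ^ d) -
        d * omega d * (p ^ (d + 2) / (d + 2)) =
        (q - 1) * (d * omega d * (p ^ (d + 2) / (d + 2))) := by
        rw [pow_add]; field_simp
      rw [this]
      have : 0 < q - 1 := by linarith
      positivity))
  filter_upwards [a0, a1, eventually_gt_atTop 0] with L h0 h1 hL
  have hL0 : (0 : ℝ) < (L : ℝ) ^ d := by positivity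
  refine ⟨kset d p L, ?_, ?_⟩
  · rw [← mul_div_assoc, lt_div_iff₀ hL0] at h0
    exact h0.le
  · rw [← mul_div_assoc, ← sub_div, lt_div_iff₀ hL0] at h1
    linarith

end Pool.Agent.Lib.MP_ae5e3b_mp
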