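import Pool.Agent.Lib.MP_ae5e3b_mp.SDefs

-- part Pool.Agent.Lib.MP_ae5e3b_mp.SMa
section

open MeasureTheory Matrix Real
open scoped ComplexConjugate ComplexOrder

set_option linter.unusedSectionVars false

namespace Pool.Agent.Lib.MP_ae5e3b_mp.Sh

variable {n : Type} [Fintype n] [DecidableEq n]

lemma SMa_vn_eq (y : n → ℂ) : vn y = ‖(WithLp.toLp 2 y : EuclideanSpace ℂ n)‖ := by
  rw [EuclideanSpace.norm_eq]; rfl

lemma SMa_hs_eq (M : Matrix n n ℂ) : hs M = vn fun p : n × n => M p.1 p.2 := by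
  simp only [hs, vn, Fintype.sum_prod_type]

lemma SMa_le_of_sq {x y : ℝ} (hy : 0 ≤ y) (h : x ^ 2 ≤ y ^ 2) : x ≤ y :=
  (abs_le_of_sq_le_sq' h hy).2

lemma SMa_vn_neg (y : n → ℂ) : vn (-y) = vn y := by simp [vn]

lemma SMa_psd {P : Matrix n n ℂ} (hP : P.PosSemidef) : ∃ Q : Matrix n n ℂ, P = Qᴴ * Q := by
  open scoped MatrixOrder in
  exact CStarAlgebra.nonneg_iff_eq_star_mul_self.1 hP.nonneg

lemma vn_nonneg (y : n → ℂ) : 0 ≤ vn y := Real.sqrt_nonneg _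
lemma vn_sq (y : n → ℂ) : vn y ^ 2 = ∑ i, ‖y i‖ ^ 2 := Real.sq_sqrt (Finset.sum_nonneg fun _ _ => sq_nonneg _)
lemma vn_add_le (y z : n → ℂ) : vn (y + z) ≤ vn y + vn z := by
  simp only [SMa_vn_eq, WithLp.toLp_add]; exact norm_add_le _ _
lemma vn_sub_le (y z : n → ℂ) : vn (y - z) ≤ vn y + vn z := by
  simp only [SMa_vn_eq, WithLp.toLp_sub]; exact norm_sub_le _ _
lemma vn_smul (c : ℂ) (y : n → ℂ) : vn (c • y) = ‖c‖ * vn y := by
  simp only [SMa_vn_eq, WithLp.toLp_smul]; exact norm_smul _ _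
lemma vn_single (i : n) : vn (Pi.single i (1 : ℂ)) = 1 := by
  have : ∑ j, ‖(Pi.single i (1 : ℂ) : n → ℂ) j‖ ^ 2 = 1 := by
    rw [Finset.sum_eq_single i] <;> simp +contextual
  rw [vn, this, Real.sqrt_one]
lemma dot_self (y : n → ℂ) : star y ⬝ᵥ y = ((vn y ^ 2 : ℝ) : ℂ) := by
  rw [vn_sq]
  simp [dotProduct, Complex.conj_mul']
lemma dot_le (y z : n → ℂ) : ‖star y ⬝ᵥ z‖ ≤ vn y * vn z := by
  have := norm_inner_le_norm (𝕜 := ℂ) (WithLp.toLp 2 y : EuclideanSpace ℂ n) (WithLp.toLp 2 z)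
  rw [EuclideanSpace.inner_eq_star_dotProduct, dotProduct_comm] at this
  simpa only [SMa_vn_eq] using this

lemma hs_nonneg (M : Matrix n n ℂ) : 0 ≤ hs M := Real.sqrt_nonneg _
lemma hs_sq (M : Matrix n n ℂ) : hs M ^ 2 = ∑ i, ∑ j, ‖M i j‖ ^ 2 :=
  Real.sq_sqrt (Finset.sum_nonneg fun _ _ => Finset.sum_nonneg fun _ _ => sq_nonneg _)
lemma hs_sq_col (M : Matrix n n ℂ) : hs M ^ 2 = ∑ j, vn (fun i => M i j) ^ 2 := by
  rw [hs_sq, Finset.sum_comm]; simp only [vn_sq]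
lemma hs_sq_rtr (M : Matrix n n ℂ) : hs M ^ 2 = rtr (Mᴴ * M) := by
  rw [hs_sq, Finset.sum_comm]
  simp [rtr, trace, mul_apply, Complex.conj_mul', ← Complex.ofReal_pow]
lemma hs_sq_rtr' (M : Matrix n n ℂ) : hs M ^ 2 = rtr (M * Mᴴ) := by
  rw [hs_sq]
  simp [rtr, trace, mul_apply, Complex.mul_conj', ← Complex.ofReal_pow]
lemma hs_zero : hs (0 : Matrix n n ℂ) = 0 := by simp [hs]
lemma hs_add_le (A B : Matrix n n ℂ) : hs (A + B) ≤ hs A + hs B := by
  simp only [SMa_hs_eq]; exact vn_add_le _ _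
lemma hs_sub_le (A B : Matrix n n ℂ) : hs (A - B) ≤ hs A + hs B := by
  simp only [SMa_hs_eq]; exact vn_sub_le _ _
lemma hs_neg (A : Matrix n n ℂ) : hs (-A) = hs A := by simp [hs]
lemma hs_sub_comm (A B : Matrix n n ℂ) : hs (A - B) = hs (B - A) := by
  rw [← hs_neg, neg_sub]
lemma hs_smul (c : ℂ) (A : Matrix n n ℂ) : hs (c • A) = ‖c‖ * hs A := by
  simp only [SMa_hs_eq]; exact vn_smul c _
lemma hs_conjT (A : Matrix n n ℂ) : hs Aᴴ = hs A := by
  simp only [hs, conjTranspose_apply, norm_star]; rw [Finset.sum_comm]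
lemma hs_sum_le {ι : Type} (s : Finset ι) (A : ι → Matrix n n ℂ) :
    hs (∑ a ∈ s, A a) ≤ ∑ a ∈ s, hs (A a) := by
  classical
  induction s using Finset.induction_on with
  | empty => simp [hs_zero]
  | insert a s ha ih =>
    rw [Finset.sum_insert ha, Finset.sum_insert ha]
    exact (hs_add_le _ _).trans (by linarith)
lemma hs_mono {A B : Matrix n n ℂ} {c : ℝ} (hc : 0 ≤ c) (h : ∀ i j, ‖A i j‖ ≤ c * ‖B i j‖) :
    hs A ≤ c * hs B := by
  refine SMa_le_of_sq (mul_nonneg hc (hs_nonneg _)) ?_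
  rw [mul_pow, hs_sq, hs_sq, Finset.mul_sum]
  refine Finset.sum_le_sum fun i _ => ?_
  rw [Finset.mul_sum]
  refine Finset.sum_le_sum fun j _ => ?_
  rw [← mul_pow]
  exact pow_le_pow_left₀ (norm_nonneg _) (h i j) 2
lemma hs_unitary {U W : Matrix n n ℂ} (hU : Uᴴ * U = 1) (hW : W * Wᴴ = 1) (M : Matrix n n ℂ) :
    hs (U * M * W) = hs M := by
  have h : hs (U * M * W) ^ 2 = hs M ^ 2 := by
    rw [hs_sq_rtr, hs_sq_rtr]
    have e : (U * M * W)ᴴ * (U * M * W) = Wᴴ * (Mᴴ * (Uᴴ * U) * M * W) := by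
      simp only [conjTranspose_mul, Matrix.mul_assoc]
    rw [e, hU, Matrix.mul_one, rtr, trace_mul_comm, Matrix.mul_assoc, hW, Matrix.mul_one, rtr]
  exact (pow_left_inj₀ (hs_nonneg _) (hs_nonneg _) two_ne_zero).1 h
lemma trace_mul_le (A B : Matrix n n ℂ) : ‖trace (A * B)‖ ≤ hs A * hs B := by
  have h := dot_le (fun p : n × n => Aᴴ p.1 p.2) (fun p : n × n => B p.1 p.2)
  rw [← SMa_hs_eq, ← SMa_hs_eq, hs_conjT] at h
  have e : trace (A * B) =
      star (fun p : n × n => Aᴴ p.1 p.2) ⬝ᵥ fun p : n × n => B p.1 p.2 := by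
    simp only [trace, diag_apply, mul_apply, dotProduct, Fintype.sum_prod_type, Pi.star_apply,
      conjTranspose_apply, star_star]
    rw [Finset.sum_comm]
  rwa [e]
lemma abs_rtr_le (A : Matrix n n ℂ) : |rtr A| ≤ ‖trace A‖ := Complex.abs_re_le_norm _
lemma rtr_add (A B : Matrix n n ℂ) : rtr (A + B) = rtr A + rtr B := by simp [rtr]
lemma rtr_sub (A B : Matrix n n ℂ) : rtr (A - B) = rtr A - rtr B := by simp [rtr]
lemma rtr_neg (A : Matrix n n ℂ) : rtr (-A) = -rtr A := by simp [rtr]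
lemma rtr_smul (c : ℝ) (A : Matrix n n ℂ) : rtr ((c : ℂ) • A) = c * rtr A := by simp [rtr]
lemma rtr_comm (A B : Matrix n n ℂ) : rtr (A * B) = rtr (B * A) := by
  rw [rtr, trace_mul_comm, rtr]
lemma rtr_conjT (A : Matrix n n ℂ) : rtr Aᴴ = rtr A := by
  simp [rtr, trace_conjTranspose]
lemma rtr_sum {ι : Type} (s : Finset ι) (A : ι → Matrix n n ℂ) :
    rtr (∑ a ∈ s, A a) = ∑ a ∈ s, rtr (A a) := by
  simp [rtr, trace_sum]

lemma SMa_le_vn (y : n → ℂ) (i : n) : ‖y i‖ ≤ vn y := by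
  refine SMa_le_of_sq (vn_nonneg _) ?_
  rw [vn_sq]
  exact Finset.single_le_sum (f := fun j => ‖y j‖ ^ 2) (fun _ _ => sq_nonneg _) (Finset.mem_univ i)

lemma SMa_col {A : Matrix n n ℂ} {a : ℝ} (hA : OpB A a) (j : n) : vn (fun i => A i j) ≤ a := by
  have h := hA.2 (Pi.single j 1)
  rw [vn_single, mul_one, mulVec_single_one] at h
  exact h

lemma SMa_of_form {A : Matrix n n ℂ} {a : ℝ} (ha : 0 ≤ a)
    (h : ∀ y z, ‖star y ⬝ᵥ (A *ᵥ z)‖ ≤ a * vn y * vn z) : OpB A a := by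
  refine ⟨ha, fun z => ?_⟩
  have h1 := h (A *ᵥ z) z
  rw [dot_self, Complex.norm_real, Real.norm_eq_abs, abs_of_nonneg (sq_nonneg _)] at h1
  rcases (vn_nonneg (A *ᵥ z)).eq_or_lt with h0 | h0
  · rw [← h0]; exact mul_nonneg ha (vn_nonneg _)
  · refine le_of_mul_le_mul_left ?_ h0
    nlinarith

namespace OpB
variable {A B : Matrix n n ℂ} {a b : ℝ}
lemma nonneg (h : OpB A a) : 0 ≤ a := h.1
lemma mono (h : OpB A a) (hab : a ≤ b) : OpB A b :=
  ⟨h.1.trans hab, fun y => (h.2 y).trans (mul_le_mul_of_nonneg_right hab (vn_nonneg _))⟩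
lemma add (hA : OpB A a) (hB : OpB B b) : OpB (A + B) (a + b) :=
  ⟨add_nonneg hA.1 hB.1, fun y => by
    rw [add_mulVec, add_mul]; exact (vn_add_le _ _).trans (add_le_add (hA.2 y) (hB.2 y))⟩
lemma sub (hA : OpB A a) (hB : OpB B b) : OpB (A - B) (a + b) :=
  ⟨add_nonneg hA.1 hB.1, fun y => by
    rw [sub_mulVec, add_mul]; exact (vn_sub_le _ _).trans (add_le_add (hA.2 y) (hB.2 y))⟩
lemma neg (hA : OpB A a) : OpB (-A) a :=
  ⟨hA.1, fun y => by rw [neg_mulVec, SMa_vn_neg]; exact hA.2 y⟩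
lemma smul (hA : OpB A a) (c : ℂ) : OpB (c • A) (‖c‖ * a) :=
  ⟨mul_nonneg (norm_nonneg _) hA.1, fun y => by
    rw [smul_mulVec, vn_smul, mul_assoc]
    exact mul_le_mul_of_nonneg_left (hA.2 y) (norm_nonneg _)⟩
lemma mul (hA : OpB A a) (hB : OpB B b) : OpB (A * B) (a * b) :=
  ⟨mul_nonneg hA.1 hB.1, fun y => by
    rw [← mulVec_mulVec, mul_assoc]
    exact (hA.2 _).trans (mul_le_mul_of_nonneg_left (hB.2 y) hA.1)⟩
lemma conjT (hA : OpB A a) : OpB Aᴴ a := by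
  refine SMa_of_form hA.1 fun y z => ?_
  rw [dotProduct_mulVec, ← star_mulVec]
  exact (dot_le _ _).trans (mul_le_mul_of_nonneg_right (hA.2 y) (vn_nonneg _))
lemma cm (hA : OpB A a) (hB : OpB B b) : OpB (cm A B) (2 * a * b) :=
  ((hA.mul hB).sub (hB.mul hA)).mono (le_of_eq (by ring))
lemma sum {ι : Type} (s : Finset ι) {A : ι → Matrix n n ℂ} {a : ι → ℝ}
    (h : ∀ i ∈ s, OpB (A i) (a i)) : OpB (∑ i ∈ s, A i) (∑ i ∈ s, a i) := by
  classical
  induction s using Finset.induction_on with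
  | empty => exact ⟨by simp, fun y => by simp [vn]⟩
  | insert i s hi ih =>
    rw [Finset.sum_insert hi, Finset.sum_insert hi]
    exact (h i (Finset.mem_insert_self _ _)).add
      (ih fun j hj => h j (Finset.mem_insert_of_mem hj))
lemma form (hA : OpB A a) (y z : n → ℂ) : ‖star y ⬝ᵥ (A *ᵥ z)‖ ≤ a * vn y * vn z := by
  refine (dot_le _ _).trans ?_
  have := mul_le_mul_of_nonneg_left (hA.2 z) (vn_nonneg y)
  linarith
lemma hs_le (hA : OpB A a) : hs A ≤ a * √(Fintype.card n) := by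
  refine SMa_le_of_sq (mul_nonneg hA.1 (Real.sqrt_nonneg _)) ?_
  rw [mul_pow, Real.sq_sqrt (Nat.cast_nonneg _), hs_sq_col]
  refine (Finset.sum_le_card_nsmul _ _ (a ^ 2) fun j _ => ?_).trans (le_of_eq ?_)
  · exact pow_le_pow_left₀ (vn_nonneg _) (SMa_col hA j) 2
  · simp [mul_comm]
lemma trace_le (hA : OpB A a) : ‖trace A‖ ≤ a * Fintype.card n := by
  refine (norm_sum_le _ _).trans ?_
  refine (Finset.sum_le_card_nsmul _ _ a fun j _ => ?_).trans (le_of_eq ?_)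
  · exact (SMa_le_vn (fun i => A i j) j).trans (SMa_col hA j)
  · simp [mul_comm]
lemma hs_mul_left (hA : OpB A a) (M : Matrix n n ℂ) : hs (A * M) ≤ a * hs M := by
  refine SMa_le_of_sq (mul_nonneg hA.1 (hs_nonneg _)) ?_
  rw [mul_pow, hs_sq_col, hs_sq_col, Finset.mul_sum]
  refine Finset.sum_le_sum fun j _ => ?_
  rw [← mul_pow]
  exact pow_le_pow_left₀ (vn_nonneg _) (hA.2 fun i => M i j) 2
lemma hs_mul_right (hA : OpB A a) (M : Matrix n n ℂ) : hs (M * A) ≤ a * hs M := by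
  rw [← hs_conjT, conjTranspose_mul, ← hs_conjT M]
  exact hA.conjT.hs_mul_left _
lemma hs_cm_left (hA : OpB A a) (M : Matrix n n ℂ) : hs (Sh.cm A M) ≤ 2 * a * hs M := by
  have h1 := hA.hs_mul_left M
  have h2 := hA.hs_mul_right M
  have h3 := hs_sub_le (A * M) (M * A)
  unfold Sh.cm
  linarith
lemma hs_cm_right (hA : OpB A a) (M : Matrix n n ℂ) : hs (Sh.cm M A) ≤ 2 * a * hs M := by
  have h1 := hA.hs_mul_left M
  have h2 := hA.hs_mul_right M
  have h3 := hs_sub_le (M * A) (A * M)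
  unfold Sh.cm
  linarith
lemma lb (hA : OpB A a) : LB A (-a) := fun y => by
  have h1 := hA.form y y
  have h2 := (abs_le.1 (Complex.abs_re_le_norm (star y ⬝ᵥ (A *ᵥ y)))).1
  nlinarith
/-- the trace against a positive matrix -/
lemma trace_psd (hA : OpB A a) {P : Matrix n n ℂ} (hP : P.PosSemidef) :
    ‖trace (A * P)‖ ≤ a * rtr P := by
  obtain ⟨Q, rfl⟩ := SMa_psd hP
  rw [← Matrix.mul_assoc, ← hs_sq_rtr]
  refine (trace_mul_le _ _).trans ?_
  have h1 := hA.hs_mul_left Qᴴ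
  rw [hs_conjT] at h1
  have := mul_le_mul_of_nonneg_right h1 (hs_nonneg Q)
  nlinarith
/-- a positive matrix of norm at most `a` has squared Hilbert-Schmidt norm at most `a` times its trace -/
lemma hs_sq_psd (hA : OpB A a) (hP : A.PosSemidef) : hs A ^ 2 ≤ a * rtr A := by
  rw [hs_sq_rtr, hP.isHermitian.eq]
  exact ((le_abs_self _).trans (abs_rtr_le _)).trans (hA.trace_psd hP)
end OpB

lemma opB_zero : OpB (0 : Matrix n n ℂ) 0 := ⟨le_rfl, fun y => by simp [vn]⟩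
lemma opB_one : OpB (1 : Matrix n n ℂ) 1 := ⟨zero_le_one, fun y => by simp⟩
lemma opB_hs (A : Matrix n n ℂ) : OpB A (hs A) := by
  refine ⟨hs_nonneg _, fun y => SMa_le_of_sq (mul_nonneg (hs_nonneg _) (vn_nonneg _)) ?_⟩
  rw [mul_pow, vn_sq, hs_sq, Finset.sum_mul]
  refine Finset.sum_le_sum fun i _ => ?_
  have h := dot_le (star (A i)) y
  rw [star_star] at h
  have e : vn (star (A i)) ^ 2 = ∑ j, ‖A i j‖ ^ 2 := by simp [vn_sq]
  rw [← e, ← mul_pow]
  exact pow_le_pow_left₀ (norm_nonneg _) h 2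
lemma opB_of_form {A : Matrix n n ℂ} {a : ℝ} (ha : 0 ≤ a)
    (h : ∀ y z, ‖star y ⬝ᵥ (A *ᵥ z)‖ ≤ a * vn y * vn z) : OpB A a := SMa_of_form ha h
lemma opB_unitary {U : Matrix n n ℂ} (hU : Uᴴ * U = 1) : OpB U 1 := by
  refine ⟨zero_le_one, fun y => SMa_le_of_sq (by simpa using vn_nonneg y) (le_of_eq ?_)⟩
  have h : star (U *ᵥ y) ⬝ᵥ (U *ᵥ y) = star y ⬝ᵥ y := by
    rw [star_mulVec, ← dotProduct_mulVec, mulVec_mulVec, hU, one_mulVec]
  rw [dot_self, dot_self] at h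
  rw [one_mul]
  exact_mod_cast h
lemma opB_dg {m : n → ℝ} {c : ℝ} (hc : 0 ≤ c) (h : ∀ i, |m i| ≤ c) : OpB (dg m) c := by
  refine ⟨hc, fun y => SMa_le_of_sq (mul_nonneg hc (vn_nonneg _)) ?_⟩
  rw [mul_pow, vn_sq, vn_sq, Finset.mul_sum]
  refine Finset.sum_le_sum fun i _ => ?_
  rw [← mul_pow, dg, mulVec_diagonal, norm_mul, Complex.norm_real, Real.norm_eq_abs]
  exact pow_le_pow_left₀ (by positivity) (mul_le_mul_of_nonneg_right (h i) (norm_nonneg _)) 2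
lemma rtr_psd_nonneg {P Q : Matrix n n ℂ} (hP : P.PosSemidef) (hQ : Q.PosSemidef) :
    0 ≤ rtr (P * Q) := by
  obtain ⟨S, rfl⟩ := SMa_psd hP
  rw [Matrix.mul_assoc, rtr_comm]
  exact (Complex.nonneg_iff.1 (hQ.mul_mul_conjTranspose_same S).trace_nonneg).1

lemma LB.add {A B : Matrix n n ℂ} {a b : ℝ} (hA : LB A a) (hB : LB B b) : LB (A + B) (a + b) :=
  fun y => by
    have h1 := hA y
    have h2 := hB y
    rw [add_mulVec, dotProduct_add, Complex.add_re]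
    linarith
lemma LB.mono {A : Matrix n n ℂ} {a b : ℝ} (hA : LB A a) (h : b ≤ a) : LB A b :=
  fun y => (mul_le_mul_of_nonneg_right h (sq_nonneg _)).trans (hA y)
lemma lb_dg {m : n → ℝ} {a : ℝ} (h : ∀ i, a ≤ m i) : LB (dg m) a := fun y => by
  rw [vn_sq, Finset.mul_sum, dotProduct, Complex.re_sum]
  refine Finset.sum_le_sum fun i _ => ?_
  have e : star y i * (dg m *ᵥ y) i = ((m i * ‖y i‖ ^ 2 : ℝ) : ℂ) := by
    rw [dg, mulVec_diagonal, Pi.star_apply, mul_left_comm, Complex.star_def, Complex.conj_mul']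
    push_cast; rfl
  rw [e, Complex.ofReal_re]
  exact mul_le_mul_of_nonneg_right (h i) (sq_nonneg _)

lemma dg_herm (m : n → ℝ) : (dg m).IsHermitian := by
  simp [dg, IsHermitian, diagonal_conjTranspose, Pi.star_def]
lemma dg_conjT (m : n → ℝ) : (dg m)ᴴ = dg m := (dg_herm m).eq
lemma dg_mul (m m' : n → ℝ) : dg m * dg m' = dg fun i => m i * m' i := by
  simp [dg, diagonal_mul_diagonal]
lemma dg_add (m m' : n → ℝ) : dg m + dg m' = dg fun i => m i + m' i := by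
  simp [dg, diagonal_add]
lemma dg_sub (m m' : n → ℝ) : dg m - dg m' = dg fun i => m i - m' i := by
  simp [dg, diagonal_sub]
lemma dg_smul (c : ℝ) (m : n → ℝ) : (c : ℂ) • dg m = dg fun i => c * m i := by
  ext i j; by_cases h : i = j <;> simp [dg, h]
lemma dg_one : dg (fun _ : n => (1 : ℝ)) = 1 := by simp [dg]
lemma dg_const (c : ℝ) : dg (fun _ : n => c) = (c : ℂ) • (1 : Matrix n n ℂ) := by
  ext i j; by_cases h : i = j <;> simp [dg, h]
lemma dg_sum {ι : Type} (s : Finset ι) (m : ι → n → ℝ) :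
    ∑ a ∈ s, dg (m a) = dg fun i => ∑ a ∈ s, m a i := by
  ext i j; by_cases h : i = j <;> simp [dg, Matrix.sum_apply, h]
lemma dg_mul_apply (m : n → ℝ) (M : Matrix n n ℂ) (i j : n) : (dg m * M) i j = m i * M i j := by
  simp [dg]
lemma mul_dg_apply (m : n → ℝ) (M : Matrix n n ℂ) (i j : n) : (M * dg m) i j = M i j * m j := by
  simp [dg]
lemma dg_mulVec (m : n → ℝ) (y : n → ℂ) (i : n) : (dg m *ᵥ y) i = m i * y i := by
  simp [dg, mulVec_diagonal]

lemma cm_swap (A B : Matrix n n ℂ) : cm A B = -cm B A := by simp [cm]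
lemma hs_cm_swap (A B : Matrix n n ℂ) : hs (cm A B) = hs (cm B A) := hs_sub_comm _ _
lemma cm_add_left (A B C : Matrix n n ℂ) : cm (A + B) C = cm A C + cm B C := by
  unfold cm; noncomm_ring
lemma cm_add_right (A B C : Matrix n n ℂ) : cm A (B + C) = cm A B + cm A C := by
  unfold cm; noncomm_ring
lemma cm_sub_left (A B C : Matrix n n ℂ) : cm (A - B) C = cm A C - cm B C := by
  unfold cm; noncomm_ring
lemma cm_sub_right (A B C : Matrix n n ℂ) : cm A (B - C) = cm A B - cm A C := by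
  unfold cm; noncomm_ring
lemma cm_smul_left (c : ℂ) (A B : Matrix n n ℂ) : cm (c • A) B = c • cm A B := by
  simp [cm, smul_sub]
lemma cm_smul_right (c : ℂ) (A B : Matrix n n ℂ) : cm A (c • B) = c • cm A B := by
  simp [cm, smul_sub]
lemma cm_mul_left (A B C : Matrix n n ℂ) : cm (A * B) C = A * cm B C + cm A C * B := by
  unfold cm; noncomm_ring
lemma cm_mul_right (A B C : Matrix n n ℂ) : cm A (B * C) = cm A B * C + B * cm A C := by
  unfold cm; noncomm_ring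
lemma cm_dg_dg (m m' : n → ℝ) : cm (dg m) (dg m') = 0 := by
  simp [cm, dg_mul, mul_comm]
lemma cm_one (A : Matrix n n ℂ) : cm A 1 = 0 := by simp [cm]
lemma cm_conjT (A B : Matrix n n ℂ) : (cm A B)ᴴ = cm Bᴴ Aᴴ := by simp [cm]
lemma cm_dg_apply (m : n → ℝ) (M : Matrix n n ℂ) (i j : n) :
    cm (dg m) M i j = ((m i - m j : ℝ) : ℂ) * M i j := by
  simp only [cm, Matrix.sub_apply, dg_mul_apply, mul_dg_apply]; push_cast; ring
lemma trace_mul_cm (A B C : Matrix n n ℂ) : trace (A * cm B C) = trace (cm A B * C) := by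
  simp only [cm, Matrix.mul_sub, Matrix.sub_mul, trace_sub, Matrix.mul_assoc]
  rw [trace_mul_comm B (A * C), Matrix.mul_assoc]
/-- commutator with a product: Hilbert-Schmidt bound -/
lemma hs_cm_mul {R A B : Matrix n n ℂ} {a b : ℝ} (hA : OpB A a) (hB : OpB B b) :
    hs (cm R (A * B)) ≤ b * hs (cm R A) + a * hs (cm R B) := by
  rw [cm_mul_right]
  exact (hs_add_le _ _).trans (add_le_add (hB.hs_mul_right _) (hA.hs_mul_left _))

/-- The sandwich bound: `Y = E Y E`, and `R = R R'` is adjacent to `Y`. -/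
lemma sandwich {Y E R R' M : Matrix n n ℂ} {c m : ℝ} (hY : OpB Y c) (h1 : E * Y = Y)
    (h2 : Y * E = Y) (hE : OpB E 1) (hR : R * R' = R) (hM : OpB M m) :
    ‖trace (Y * R * M)‖ ≤ c * hs (E * R) * (hs (cm R' M) + m * hs (R' * E)) := by
  have e : trace (Y * R * M) = trace (Y * (E * R) * (R' * M * E)) := by
    calc trace (Y * R * M) = trace (E * (Y * E * (R * R') * M)) := by
          rw [h2, hR]; simp only [← Matrix.mul_assoc, h1]
      _ = _ := by rw [trace_mul_comm]; simp only [Matrix.mul_assoc]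
  have e2 : R' * M * E = cm R' M * E + M * (R' * E) := by unfold cm; noncomm_ring
  have h3 : hs (R' * M * E) ≤ hs (cm R' M) + m * hs (R' * E) := by
    rw [e2]
    refine (hs_add_le _ _).trans (add_le_add ?_ (hM.hs_mul_left _))
    simpa using hE.hs_mul_right (cm R' M)
  rw [e]
  exact (trace_mul_le _ _).trans (mul_le_mul (hY.hs_mul_left _) h3 (hs_nonneg _)
    (mul_nonneg hY.1 (hs_nonneg _)))
/-- The mirror image of the sandwich bound. -/
lemma sandwich' {Y E R R' M : Matrix n n ℂ} {c m : ℝ} (hY : OpB Y c) (h1 : E * Y = Y)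
    (h2 : Y * E = Y) (hE : OpB E 1) (hR : R' * R = R) (hM : OpB M m) :
    ‖trace (Y * M * R)‖ ≤ c * hs (R * E) * (hs (cm R' M) + m * hs (E * R')) := by
  have e : trace (Y * M * R) = trace (R * E * Y * (E * M * R')) := by
    calc trace (Y * M * R) = trace (E * Y * (E * M * R') * R) := by
          rw [h1]; simp only [← Matrix.mul_assoc, h2]; rw [Matrix.mul_assoc _ R', hR]
      _ = _ := by rw [trace_mul_comm]; simp only [Matrix.mul_assoc]
  have e2 : E * M * R' = E * R' * M - E * cm R' M := by unfold cm; noncomm_ring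
  have h3 : hs (E * M * R') ≤ hs (cm R' M) + m * hs (E * R') := by
    rw [e2, add_comm]
    refine (hs_sub_le _ _).trans (add_le_add (hM.hs_mul_right _) ?_)
    simpa using hE.hs_mul_left (cm R' M)
  rw [e]
  exact (trace_mul_le _ _).trans (mul_le_mul (hY.hs_mul_right _) h3 (hs_nonneg _)
    (mul_nonneg hY.1 (hs_nonneg _)))

end Pool.Agent.Lib.MP_ae5e3b_mp.Sh
end

-- part Pool.Agent.Lib.MP_ae5e3b_mp.SMb
section

open MeasureTheory Matrix Real
open scoped ComplexConjugate ComplexOrder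

set_option linter.unusedSectionVars false

namespace Pool.Agent.Lib.MP_ae5e3b_mp.Sh

variable {n : Type} [Fintype n] [DecidableEq n]

variable {A B H : Matrix n n ℂ}

lemma SMb_vn {U : Matrix n n ℂ} (h1 : Uᴴ * U = 1) (h2 : U * Uᴴ = 1) (w : n → ℂ) :
    vn (U *ᵥ w) = vn w := by
  refine le_antisymm (by simpa using (opB_unitary h1).2 w) ?_
  have := (opB_unitary (U := Uᴴ) (by rwa [conjTranspose_conjTranspose])).2 (U *ᵥ w)
  rwa [mulVec_mulVec, h1, one_mulVec, one_mul] at this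

lemma SMb_dgform (m : n → ℝ) (z : n → ℂ) : (star z ⬝ᵥ (dg m *ᵥ z)).re = ∑ i, m i * ‖z i‖ ^ 2 := by
  rw [dotProduct, Complex.re_sum]
  refine Finset.sum_congr rfl fun i _ => ?_
  rw [dg_mulVec, Pi.star_apply, mul_left_comm, Complex.re_ofReal_mul, Complex.star_def,
    Complex.conj_mul', ← Complex.ofReal_pow, Complex.ofReal_re]

lemma SMb_form (U : Matrix n n ℂ) (m : n → ℝ) (y : n → ℂ) :
    (star y ⬝ᵥ ((U * dg m * Uᴴ) *ᵥ y)).re = ∑ i, m i * ‖(Uᴴ *ᵥ y) i‖ ^ 2 := by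
  rw [← SMb_dgform, ← mulVec_mulVec, ← mulVec_mulVec, dotProduct_mulVec, star_mulVec,
    conjTranspose_conjTranspose]

lemma SMb_lb {U : Matrix n n ℂ} (h1 : Uᴴ * U = 1) (h2 : U * Uᴴ = 1) {m : n → ℝ} {a : ℝ}
    (h : LB (U * dg m * Uᴴ) a) (i : n) : a ≤ m i := by
  have := h (U *ᵥ Pi.single i 1)
  rw [SMb_form, SMb_vn h1 h2, vn_single, mulVec_mulVec, h1, one_mulVec,
    Finset.sum_eq_single i (fun j _ hj => by simp [hj]) (by simp)] at this
  simpa using this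

lemma SMb_conj {U V : Matrix n n ℂ} (hU : Uᴴ * U = 1) (hV : Vᴴ * V = 1) (a b : n → ℝ)
    (Z : Matrix n n ℂ) (i j : n) :
    (Uᴴ * (U * dg a * Uᴴ * Z - Z * (V * dg b * Vᴴ)) * V) i j =
      ((a i - b j : ℝ) : ℂ) * (Uᴴ * Z * V) i j := by
  have : Uᴴ * (U * dg a * Uᴴ * Z - Z * (V * dg b * Vᴴ)) * V =
      dg a * (Uᴴ * Z * V) - (Uᴴ * Z * V) * dg b := by
    calc _ = (Uᴴ * U) * dg a * (Uᴴ * Z * V) - (Uᴴ * Z * V) * dg b * (Vᴴ * V) := by
          simp only [Matrix.mul_sub, Matrix.sub_mul, Matrix.mul_assoc]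
      _ = _ := by rw [hU, hV, Matrix.one_mul, Matrix.mul_one]
  rw [this, Matrix.sub_apply, dg_mul_apply, mul_dg_apply]; push_cast; ring

lemma SMb_hs {U V : Matrix n n ℂ} (hU : U * Uᴴ = 1) (hV : V * Vᴴ = 1) (M : Matrix n n ℂ) :
    hs (Uᴴ * M * V) = hs M := hs_unitary (by rwa [conjTranspose_conjTranspose]) hV M

/-- Spectral representation of the functional calculus. -/
lemma fc_spec (hH : H.IsHermitian) : ∃ (U : Matrix n n ℂ) (lam : n → ℝ), Uᴴ * U = 1 ∧ U * Uᴴ = 1 ∧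
    H = U * dg lam * Uᴴ ∧ (∀ f : ℝ → ℝ, fc f H = U * dg (fun i => f (lam i)) * Uᴴ) ∧
    (∀ a, LB H a → ∀ i, a ≤ lam i) ∧ ∀ c, OpB H c → ∀ i, |lam i| ≤ c := by
  have h1 : (hH.eigenvectorUnitary : Matrix n n ℂ)ᴴ * hH.eigenvectorUnitary = 1 :=
    Unitary.coe_star_mul_self _
  have h2 : (hH.eigenvectorUnitary : Matrix n n ℂ) * (hH.eigenvectorUnitary : Matrix n n ℂ)ᴴ = 1 :=
    Unitary.coe_mul_star_self _
  have h3 : H = hH.eigenvectorUnitary * dg hH.eigenvalues * (hH.eigenvectorUnitary : Matrix n n ℂ)ᴴ :=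
    hH.spectral_theorem
  refine ⟨_, _, h1, h2, h3, fun f => hH.cfc_eq f, fun a ha => SMb_lb h1 h2 (h3 ▸ ha), fun c hc i => ?_⟩
  have a := SMb_lb h1 h2 (h3 ▸ hc.lb) i
  have b := SMb_lb h1 h2 (m := fun i => -1 * hH.eigenvalues i) (a := -c) (by
    rw [← dg_smul, Matrix.mul_smul, Matrix.smul_mul, ← h3]; simpa using hc.neg.lb) i
  exact abs_le.2 ⟨a, by linarith⟩

lemma SMb_uniq {V : Matrix n n ℂ} (h1 : Vᴴ * V = 1) (h2 : V * Vᴴ = 1) (m : n → ℝ) (f : ℝ → ℝ) :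
    fc f (V * dg m * Vᴴ) = V * dg (fun i => f (m i)) * Vᴴ := by
  obtain ⟨U, l, u1, u2, e, hf, -⟩ := fc_spec (isHermitian_mul_mul_conjTranspose V (dg_herm m))
  have : Uᴴ * (U * dg (fun i => f (l i)) * Uᴴ * 1 - 1 * (V * dg (fun i => f (m i)) * Vᴴ)) * V = 0 := by
    ext i j
    have := SMb_conj u1 h1 l m 1 i j
    rw [← e, Matrix.mul_one, Matrix.one_mul, sub_self, Matrix.mul_zero, Matrix.zero_mul] at this
    rw [SMb_conj u1 h1]
    rcases mul_eq_zero.1 this.symm with h | h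
    · rw [sub_eq_zero.1 (Complex.ofReal_eq_zero.1 h)]; simp
    · rw [h]; simp
  have h3 := congrArg (fun M => U * M * Vᴴ) this
  simp only [Matrix.mul_zero, Matrix.zero_mul, Matrix.mul_one, Matrix.one_mul] at h3
  rw [Matrix.mul_assoc, Matrix.mul_assoc, h2, Matrix.mul_one, ← Matrix.mul_assoc, u2, Matrix.one_mul] at h3
  rw [hf, sub_eq_zero.1 h3]
lemma fc_herm (f : ℝ → ℝ) (H : Matrix n n ℂ) : (fc f H).IsHermitian := (cfc_predicate f H).isHermitian
lemma fc_conjT (f : ℝ → ℝ) (H : Matrix n n ℂ) : (fc f H)ᴴ = fc f H := fc_herm f H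
lemma fc_mul (hH : H.IsHermitian) (f g : ℝ → ℝ) :
    fc f H * fc g H = fc (fun t => f t * g t) H := by
  obtain ⟨U, l, u1, -, -, hf, -⟩ := fc_spec hH
  rw [hf, hf, hf, ← dg_mul]
  calc _ = U * (dg (fun i => f (l i)) * (Uᴴ * U) * dg fun i => g (l i)) * Uᴴ := by
        simp only [Matrix.mul_assoc]
    _ = _ := by rw [u1, Matrix.mul_one]
lemma fc_add (hH : H.IsHermitian) (f g : ℝ → ℝ) :
    fc (fun t => f t + g t) H = fc f H + fc g H := by
  obtain ⟨U, l, -, -, -, hf, -⟩ := fc_spec hH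
  rw [hf, hf, hf, ← dg_add, Matrix.mul_add, Matrix.add_mul]
lemma fc_sub (hH : H.IsHermitian) (f g : ℝ → ℝ) :
    fc (fun t => f t - g t) H = fc f H - fc g H := by
  obtain ⟨U, l, -, -, -, hf, -⟩ := fc_spec hH
  rw [hf, hf, hf, ← dg_sub, Matrix.mul_sub, Matrix.sub_mul]
lemma fc_smul (hH : H.IsHermitian) (c : ℝ) (f : ℝ → ℝ) :
    fc (fun t => c * f t) H = (c : ℂ) • fc f H := by
  obtain ⟨U, l, -, -, -, hf, -⟩ := fc_spec hH
  rw [hf, hf, ← dg_smul, Matrix.mul_smul, Matrix.smul_mul]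
lemma fc_const (hH : H.IsHermitian) (c : ℝ) :
    fc (fun _ => c) H = (c : ℂ) • (1 : Matrix n n ℂ) := by
  obtain ⟨U, l, -, u2, -, hf, -⟩ := fc_spec hH
  rw [hf, dg_const, Matrix.mul_smul, Matrix.smul_mul, Matrix.mul_one, u2]
lemma fc_zero (H : Matrix n n ℂ) : fc (fun _ => 0) H = 0 := cfc_const_zero ℝ H
lemma fc_id (hH : H.IsHermitian) : fc (fun t => t) H = H := by
  obtain ⟨U, l, -, -, e, hf, -⟩ := fc_spec hH
  rw [hf, ← e]
lemma fc_mul_self (hH : H.IsHermitian) (f : ℝ → ℝ) : fc f H * H = fc (fun t => t * f t) H := by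
  have := fc_mul hH f fun t => t
  rw [fc_id hH] at this
  simp only [this, mul_comm]
lemma self_mul_fc (hH : H.IsHermitian) (f : ℝ → ℝ) : H * fc f H = fc (fun t => t * f t) H := by
  have := fc_mul hH (fun t => t) f
  rwa [fc_id hH] at this
lemma fc_dg (m : n → ℝ) (f : ℝ → ℝ) : fc f (dg m) = dg fun i => f (m i) := by
  simpa using SMb_uniq (V := 1) (by simp) (by simp) m f
lemma fc_congr (hH : H.IsHermitian) {a : ℝ} (ha : LB H a) {f g : ℝ → ℝ}
    (h : ∀ t, a ≤ t → f t = g t) : fc f H = fc g H := by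
  obtain ⟨U, l, -, -, -, hf, hl, -⟩ := fc_spec hH
  rw [hf, hf]
  simp only [fun i => h _ (hl a ha i)]
lemma fc_opB (hH : H.IsHermitian) {a c : ℝ} (ha : LB H a) {f : ℝ → ℝ} (hc : 0 ≤ c)
    (h : ∀ t, a ≤ t → |f t| ≤ c) : OpB (fc f H) c := by
  obtain ⟨U, l, u1, u2, -, hf, hl, -⟩ := fc_spec hH
  rw [hf]
  simpa using ((opB_unitary u1).mul (opB_dg hc fun i => h _ (hl a ha i))).mul (opB_unitary u1).conjT
lemma fc_opB' (hH : H.IsHermitian) {c : ℝ} {f : ℝ → ℝ} (hc : 0 ≤ c) (h : ∀ t, |f t| ≤ c) :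
    OpB (fc f H) c := fc_opB hH (opB_hs H).lb hc fun t _ => h t
lemma fc_psd (hH : H.IsHermitian) {a : ℝ} (ha : LB H a) {f : ℝ → ℝ}
    (h : ∀ t, a ≤ t → 0 ≤ f t) : (fc f H).PosSemidef := by
  obtain ⟨U, l, -, -, -, hf, hl, -⟩ := fc_spec hH
  rw [hf]
  exact (PosSemidef.diagonal fun i =>
    Complex.zero_le_real.2 (h _ (hl a ha i))).mul_mul_conjTranspose_same U
lemma fc_psd' (hH : H.IsHermitian) {f : ℝ → ℝ} (h : ∀ t, 0 ≤ f t) : (fc f H).PosSemidef :=   fc_psd hH (opB_hs H).lb fun t _ => h t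
lemma fc_submatrix (hH : H.IsHermitian) (e : n ≃ n) (f : ℝ → ℝ) :
    fc f (H.submatrix e e) = (fc f H).submatrix e e := by
  obtain ⟨U, l, u1, u2, e1, hf, -⟩ := fc_spec hH
  have k : ∀ m : n → ℝ, (U * dg m * Uᴴ).submatrix e e =
      U.submatrix e e * dg (fun i => m (e i)) * (U.submatrix e e)ᴴ := fun m => by
    rw [← submatrix_mul_equiv _ _ _ e, ← submatrix_mul_equiv _ _ _ e, conjTranspose_submatrix, dg,
      submatrix_diagonal_equiv]
    rfl
  rw [hf, k, e1, k, SMb_uniq]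
  · rw [conjTranspose_submatrix, submatrix_mul_equiv, u1, submatrix_one_equiv]
  · rw [conjTranspose_submatrix, submatrix_mul_equiv, u2, submatrix_one_equiv]
/-- Lipschitz functions are operator Lipschitz in the Hilbert-Schmidt norm. -/
lemma hs_fc_lip (hA : A.IsHermitian) (hB : B.IsHermitian) {f : ℝ → ℝ} {l : ℝ} (hl : 0 ≤ l)
    (hf : ∀ s t, |f s - f t| ≤ l * |s - t|) (Z : Matrix n n ℂ) :
    hs (fc f A * Z - Z * fc f B) ≤ l * hs (A * Z - Z * B) := by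
  obtain ⟨U, a, u1, u2, e1, hf1, -⟩ := fc_spec hA
  obtain ⟨V, b, v1, v2, e2, hf2, -⟩ := fc_spec hB
  rw [hf1, hf2, ← SMb_hs u2 v2, ← SMb_hs u2 v2 (A * Z - _), e1, e2]
  refine hs_mono hl fun i j => ?_
  rw [SMb_conj u1 v1, SMb_conj u1 v1, norm_mul, norm_mul, ← mul_assoc, Complex.norm_real,
    Complex.norm_real]
  exact mul_le_mul_of_nonneg_right (hf _ _) (norm_nonneg _)
lemma hs_fc_sub (hA : A.IsHermitian) (hB : B.IsHermitian) {f : ℝ → ℝ} {l : ℝ} (hl : 0 ≤ l)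
    (hf : ∀ s t, |f s - f t| ≤ l * |s - t|) : hs (fc f A - fc f B) ≤ l * hs (A - B) := by
  simpa using hs_fc_lip hA hB hl hf 1
lemma hs_cm_fc (hH : H.IsHermitian) {f : ℝ → ℝ} {l : ℝ} (hl : 0 ≤ l)
    (hf : ∀ s t, |f s - f t| ≤ l * |s - t|) (Z : Matrix n n ℂ) :
    hs (cm Z (fc f H)) ≤ l * hs (cm Z H) := by
  rw [hs_cm_swap, hs_cm_swap Z]
  exact hs_fc_lip hH hH hl hf Z
/-- Monotonicity of the trace pairing. -/
lemma mono_tr (hA : A.IsHermitian) (hB : B.IsHermitian) {f : ℝ → ℝ} (hf : Antitone f) :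
    rtr ((fc f A - fc f B) * (A - B)) ≤ 0 := by
  obtain ⟨U, a, u1, u2, e1, hf1, -⟩ := fc_spec hA
  obtain ⟨V, b, v1, v2, e2, hf2, -⟩ := fc_spec hB
  have h1 : rtr ((fc f A - fc f B) * (A - B)) =
      rtr ((Uᴴ * (fc f A * 1 - 1 * fc f B) * V) * (Uᴴ * (A * 1 - 1 * B) * V)ᴴ) := by
    simp only [Matrix.mul_one, Matrix.one_mul, conjTranspose_mul, conjTranspose_conjTranspose,
      (hA.sub hB).eq]
    rw [show Uᴴ * (fc f A - fc f B) * V * (Vᴴ * ((A - B) * U)) =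
      Uᴴ * ((fc f A - fc f B) * (V * Vᴴ) * (A - B) * U) by simp only [Matrix.mul_assoc], v2,
      rtr_comm Uᴴ, Matrix.mul_assoc _ U, u2, Matrix.mul_one, Matrix.mul_one]
  rw [h1, hf1, hf2, e1, e2, rtr, trace, Complex.re_sum]
  refine Finset.sum_nonpos fun i _ => ?_
  rw [diag_apply, Matrix.mul_apply, Complex.re_sum]
  refine Finset.sum_nonpos fun j _ => ?_
  rw [conjTranspose_apply, SMb_conj u1 v1, SMb_conj u1 v1, star_mul', Complex.star_def,
    Complex.conj_ofReal, mul_mul_mul_comm, Complex.mul_conj, ← Complex.ofReal_mul, ← Complex.ofReal_mul,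
    Complex.ofReal_re]
  refine mul_nonpos_of_nonpos_of_nonneg ?_ (Complex.normSq_nonneg _)
  rcases le_total (a i) (b j) with h | h
  · exact mul_nonpos_of_nonneg_of_nonpos (sub_nonneg.2 (hf h)) (sub_nonpos.2 h)
  · exact mul_nonpos_of_nonpos_of_nonneg (sub_nonpos.2 (hf h)) (sub_nonneg.2 h)

lemma Ep_herm (H : Matrix n n ℂ) : (Ep H)ᴴ = Ep H := fc_conjT _ H
lemma Ep_opB (hH : H.IsHermitian) : OpB (Ep H) 1 :=   fc_opB' hH zero_le_one fun t => by split_ifs <;> simp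
lemma Ep_mul_fc (hH : H.IsHermitian) {g : ℝ → ℝ} (hg : ∀ t, 1 / 2 ≤ t → g t = 0) :
    Ep H * fc g H = fc g H := by
  rw [Ep, fc_mul hH]
  congr 1; ext t
  split_ifs with h
  exacts [one_mul _, by rw [hg t (not_lt.1 h), mul_zero]]
lemma fc_mul_Ep (hH : H.IsHermitian) {g : ℝ → ℝ} (hg : ∀ t, 1 / 2 ≤ t → g t = 0) :
    fc g H * Ep H = fc g H := by
  rw [Ep, fc_mul hH]
  congr 1; ext t
  split_ifs with h
  exacts [mul_one _, by rw [hg t (not_lt.1 h), mul_zero]]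

lemma SMb_res {U : Matrix n n ℂ} (h1 : Uᴴ * U = 1) (h2 : U * Uᴴ = 1) (l : n → ℝ) (E : ℝ) (y : n → ℂ) :
    vn ((U * dg l * Uᴴ) *ᵥ y - (E : ℂ) • y) ^ 2 = ∑ i, (l i - E) ^ 2 * ‖(Uᴴ *ᵥ y) i‖ ^ 2 := by
  have : (U * dg l * Uᴴ) *ᵥ y - (E : ℂ) • y = U *ᵥ (dg (fun i => l i - E) *ᵥ (Uᴴ *ᵥ y)) := by
    rw [← dg_sub, dg_const, sub_mulVec, mulVec_sub, smul_mulVec, one_mulVec, mulVec_smul,
      mulVec_mulVec y U, h2, one_mulVec, mulVec_mulVec, mulVec_mulVec]
  rw [this, SMb_vn h1 h2, vn_sq]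
  refine Finset.sum_congr rfl fun i _ => ?_
  rw [dg_mulVec, norm_mul, mul_pow, Complex.norm_real, Real.norm_eq_abs, sq_abs]

/-- Chebyshev bound for a quasi-mode above the Fermi level. -/
lemma cheb_up (hH : H.IsHermitian) {f : ℝ → ℝ} {β E : ℝ} (h1 : ∀ t, f t ≤ 1)
    (h0 : ∀ t, β ≤ t → f t ≤ 0) (hE : β < E) (y : n → ℂ) :
    (star y ⬝ᵥ (fc f H *ᵥ y)).re ≤ vn (H *ᵥ y - (E : ℂ) • y) ^ 2 / (E - β) ^ 2 := by
  obtain ⟨U, l, u1, u2, e, hf, -⟩ := fc_spec hH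
  rw [hf, SMb_form, e, SMb_res u1 u2, Finset.sum_div]
  refine Finset.sum_le_sum fun i _ => ?_
  rw [mul_div_right_comm]
  refine mul_le_mul_of_nonneg_right ?_ (sq_nonneg _)
  rcases le_total β (l i) with h | h
  · exact (h0 _ h).trans (by positivity)
  · exact (h1 _).trans ((one_le_div (pow_pos (sub_pos.2 hE) 2)).2 (by nlinarith))
/-- Chebyshev bound for a quasi-mode below the Fermi level. -/
lemma cheb_low (hH : H.IsHermitian) {f : ℝ → ℝ} {β E : ℝ} (h0 : ∀ t, 0 ≤ f t)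
    (h1 : ∀ t, t ≤ β → 1 ≤ f t) (hE : E < β) (y : n → ℂ) :
    vn y ^ 2 - vn (H *ᵥ y - (E : ℂ) • y) ^ 2 / (β - E) ^ 2 ≤ (star y ⬝ᵥ (fc f H *ᵥ y)).re := by
  obtain ⟨U, l, u1, u2, e, hf, -⟩ := fc_spec hH
  rw [hf, SMb_form, e, SMb_res u1 u2, Finset.sum_div,
    ← SMb_vn (U := Uᴴ) (by rwa [conjTranspose_conjTranspose]) (by rwa [conjTranspose_conjTranspose]) y,
    vn_sq, ← Finset.sum_sub_distrib]
  refine Finset.sum_le_sum fun i _ => ?_
  rw [mul_div_right_comm, ← one_sub_mul]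
  refine mul_le_mul_of_nonneg_right ?_ (sq_nonneg _)
  rcases le_total (l i) β with h | h
  · exact (sub_le_self _ (by positivity)).trans (h1 _ h)
  · exact (sub_nonpos.2 ((one_le_div (pow_pos (sub_pos.2 hE) 2)).2 (by nlinarith))).trans (h0 _)

/-- Low lying states have little weight on the modes of high energy. -/
lemma hiE_gen {k r : n → ℝ} {W : Matrix n n ℂ} (hW : W.IsHermitian) (hb : OpB W (1 / 4))
    (hr : ∀ i, r i ≠ 0 → 5 / 4 ≤ k i) :
    hs (dg r * Ep (dg k + W)) ≤ 2 * hs (cm W (dg r)) := by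
  obtain ⟨U, l, u1, u2, e, hf, -⟩ := fc_spec ((dg_herm k).add hW)
  have e1 : (dg k + W) * (dg r * U) - dg r * U * dg l = cm W (dg r) * U := by
    have : (dg k + W) * U = U * dg l := by rw [e, Matrix.mul_assoc, u1, Matrix.mul_one]
    have h2 : dg k * dg r = dg r * dg k := sub_eq_zero.1 (cm_dg_dg k r)
    rw [Matrix.mul_assoc (dg r), ← this, cm]
    simp only [Matrix.add_mul, Matrix.mul_add, Matrix.sub_mul, ← Matrix.mul_assoc, h2]
    abel
  have h1 : ∀ M : Matrix n n ℂ, hs (M * Uᴴ) = hs M := fun M => by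
    simpa using hs_unitary (U := 1) (W := Uᴴ) (by simp) (by rwa [conjTranspose_conjTranspose]) M
  have h2 : hs (cm W (dg r) * U) = hs (cm W (dg r)) := by
    simpa using hs_unitary (U := 1) (by simp) u2 (cm W (dg r))
  rw [Ep, hf, ← Matrix.mul_assoc, h1, ← Matrix.mul_assoc, ← h2, ← e1,
    ← sq_le_sq₀ (hs_nonneg _) (mul_nonneg zero_le_two (hs_nonneg _)), mul_pow, hs_sq_col, hs_sq_col,
    Finset.mul_sum]
  refine Finset.sum_le_sum fun a _ => ?_
  rw [← mul_pow, sq_le_sq₀ (vn_nonneg _) (mul_nonneg zero_le_two (vn_nonneg _))]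
  simp only [mul_dg_apply _ _ _ a]
  split_ifs with ha
  · set y : n → ℂ := fun i => (dg r * U) i a with hy
    have e2 : (fun i => ((dg k + W) * (dg r * U) - dg r * U * dg l) i a) =
        dg k *ᵥ y + W *ᵥ y - (l a : ℂ) • y := by
      ext i
      rw [← add_mulVec, Matrix.sub_apply, mul_dg_apply, mul_comm]
      rfl
    have a1 : 5 / 4 * vn y ^ 2 ≤ (star y ⬝ᵥ (dg k *ᵥ y)).re := by
      rw [SMb_dgform, vn_sq, Finset.mul_sum]
      refine Finset.sum_le_sum fun i _ => ?_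
      by_cases h : r i = 0
      · simp [hy, dg_mul_apply, h]
      · exact mul_le_mul_of_nonneg_right (hr i h) (sq_nonneg _)
    have a2 := hb.lb y
    have a3 := (Complex.re_le_norm _).trans (dot_le y (dg k *ᵥ y + W *ᵥ y - (l a : ℂ) • y))
    rw [dotProduct_sub, dotProduct_add, dotProduct_smul, dot_self, smul_eq_mul, ← Complex.ofReal_mul,
      Complex.sub_re, Complex.add_re, Complex.ofReal_re] at a3
    simp only [Complex.ofReal_one, mul_one, e2]
    have a4 := vn_nonneg (dg k *ᵥ y + W *ᵥ y - (l a : ℂ) • y)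
    by_contra h
    nlinarith [mul_le_mul_of_nonneg_right ha.le (sq_nonneg (vn y))]
  · refine le_trans (le_of_eq ?_) (mul_nonneg zero_le_two (vn_nonneg _))
    simp [vn]

/-- Davis-Kahan bound in operator norm: `P` cuts `A ≥ t`, `Q` cuts `B ≤ s`. -/
lemma davis_kahan (hA : A.IsHermitian) (hB : B.IsHermitian) {s t δ : ℝ} (hst : s < t)
    (hδ : OpB (A - B) δ) :
    OpB (fc (fun x => if t ≤ x then 1 else 0) A * fc (fun x => if x ≤ s then 1 else 0) B)
      (δ / (t - s)) := by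
  set P := fc (fun x => if t ≤ x then 1 else 0) A with hP
  set Q := fc (fun x => if x ≤ s then 1 else 0) B with hQ
  obtain ⟨c, hc, hcB⟩ : ∃ c, c ≤ s ∧ LB B c := ⟨_, min_le_left _ _, (opB_hs B).lb.mono (min_le_right _ _)⟩
  have tc : 0 < t - c := by linarith
  set R := fc (fun x => if t ≤ x then 1 / (x - c) else 0) A with hR
  set T := fc (fun x => if x ≤ s then x - c else 0) B with hT
  have r1 : R * A - (c : ℂ) • R = P := by
    rw [hR, fc_mul_self hA, ← fc_smul hA, ← fc_sub hA]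
    congr 1; ext x
    split_ifs with h
    · have : x - c ≠ 0 := by linarith
      field_simp
    · simp
  have r2 : R * P = R := by
    rw [hR, fc_mul hA]
    congr 1; ext x
    split_ifs <;> simp
  have r3 : B * Q - (c : ℂ) • Q = T := by
    rw [hQ, self_mul_fc hB, ← fc_smul hB, ← fc_sub hB]
    congr 1; ext x
    split_ifs <;> simp
  have r4 : Q * T = T := by
    rw [hT, fc_mul hB]
    congr 1; ext x
    split_ifs <;> simp
  have e : P * Q = R * (A - B) * Q + R * (P * Q) * T := by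
    rw [← Matrix.mul_assoc R, r2, Matrix.mul_assoc R Q, r4, ← r3, ← r1]
    simp only [Matrix.mul_sub, Matrix.sub_mul, Matrix.mul_smul, Matrix.smul_mul, Matrix.mul_assoc]
    abel
  have bR : OpB R (1 / (t - c)) := fc_opB' hA (by positivity) fun x => by
    split_ifs with h
    · rw [abs_of_pos (one_div_pos.2 (by linarith))]
      exact one_div_le_one_div_of_le tc (by linarith)
    · rw [abs_zero]; positivity
  have bT : OpB T (s - c) := fc_opB hB hcB (by linarith) fun x hx => by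
    split_ifs with h
    · rw [abs_of_nonneg (by linarith)]; linarith
    · rw [abs_zero]; linarith
  have bQ : OpB Q 1 := fc_opB' hB zero_le_one fun x => by split_ifs <;> simp
  have ne : {m | OpB (P * Q) m}.Nonempty := ⟨_, opB_hs _⟩
  have hm : OpB (P * Q) (sInf {m | OpB (P * Q) m}) := by
    refine ⟨le_csInf ne fun m hm => hm.1, fun y => ?_⟩
    rcases (vn_nonneg y).eq_or_lt with h | h
    · simpa [← h] using (opB_hs (P * Q)).2 y
    · exact (div_le_iff₀ h).1 (le_csInf ne fun m hm => (div_le_iff₀ h).2 (hm.2 y))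
  have h1 := ((bR.mul hδ).mul bQ).add ((bR.mul hm).mul bT)
  rw [← e] at h1
  have h2 := csInf_le (s := {m | OpB (P * Q) m}) ⟨0, fun m hm => hm.1⟩ h1
  refine hm.mono ?_
  generalize sInf {m | OpB (P * Q) m} = m at h2
  rw [le_div_iff₀ (sub_pos.2 hst)]
  rw [mul_one, mul_assoc, ← mul_add, one_div_mul_eq_div, le_div_iff₀ tc] at h2
  linarith

end Pool.Agent.Lib.MP_ae5e3b_mp.Sh
end

-- part Pool.Agent.Lib.MP_ae5e3b_mp.SMc
section

open MeasureTheory Matrix Real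
open scoped ComplexConjugate ComplexOrder

set_option linter.unusedSectionVars false
set_option linter.unusedVariables false

namespace Pool.Agent.Lib.MP_ae5e3b_mp.Sh

variable {n : Type} [Fintype n] [DecidableEq n]

variable {A H : Matrix n n ℂ} {f : ℝ → ℝ}

lemma SMc_cs (w x y : n → n → ℝ) (hw : ∀ j i, 0 ≤ w j i) :
    ∑ j, ∑ i, w j i * (x j i * y j i) ≤
      √(∑ j, ∑ i, w j i * x j i ^ 2) * √(∑ j, ∑ i, w j i * y j i ^ 2) := by
  have h := Real.sum_mul_le_sqrt_mul_sqrt (Finset.univ : Finset (n × n))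
    (fun p => √(w p.1 p.2) * x p.1 p.2) (fun p => √(w p.1 p.2) * y p.1 p.2)
  simp only [Fintype.sum_prod_type, mul_pow, Real.sq_sqrt (hw _ _)] at h
  refine le_trans (le_of_eq ?_) h
  refine Finset.sum_congr rfl fun j _ => Finset.sum_congr rfl fun i _ => ?_
  rw [mul_mul_mul_comm, Real.mul_self_sqrt (hw _ _)]

lemma SMc_tr1 {U V : Matrix n n ℂ} (v2 : V * Vᴴ = 1) (p : n → ℝ) (Y W : Matrix n n ℂ) :
    trace (U * dg p * Uᴴ * Yᴴ * W) =
      ∑ j, ∑ i, (p i : ℂ) * (conj ((Vᴴ * Y * U) j i) * (Vᴴ * W * U) j i) := by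
  have e : trace (U * dg p * Uᴴ * Yᴴ * W) = trace (dg p * ((Vᴴ * Y * U)ᴴ * (Vᴴ * W * U))) := by
    simp only [conjTranspose_mul, conjTranspose_conjTranspose]
    rw [show dg p * (Uᴴ * (Yᴴ * V) * (Vᴴ * W * U)) = (dg p * Uᴴ * Yᴴ * (V * Vᴴ) * W) * U by
      simp only [Matrix.mul_assoc], v2, trace_mul_comm _ U]
    simp only [Matrix.mul_assoc, Matrix.one_mul]
  rw [e, trace, Finset.sum_comm]
  refine Finset.sum_congr rfl fun i _ => ?_
  rw [diag_apply, dg_mul_apply, Matrix.mul_apply, Finset.mul_sum]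
  rfl

lemma SMc_tr2 {U V : Matrix n n ℂ} (u2 : U * Uᴴ = 1) (q : n → ℝ) (Y W : Matrix n n ℂ) :
    trace (V * dg q * Vᴴ * W * Yᴴ) =
      ∑ j, ∑ i, (q j : ℂ) * (conj ((Vᴴ * Y * U) j i) * (Vᴴ * W * U) j i) := by
  have e : trace (V * dg q * Vᴴ * W * Yᴴ) = trace (dg q * ((Vᴴ * W * U) * (Vᴴ * Y * U)ᴴ)) := by
    simp only [conjTranspose_mul, conjTranspose_conjTranspose]
    rw [show dg q * (Vᴴ * W * U * (Uᴴ * (Yᴴ * V))) = (dg q * Vᴴ * W * (U * Uᴴ) * Yᴴ) * V by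
      simp only [Matrix.mul_assoc], u2, trace_mul_comm _ V]
    simp only [Matrix.mul_assoc, Matrix.one_mul]
  rw [e, trace]
  refine Finset.sum_congr rfl fun j _ => ?_
  rw [diag_apply, dg_mul_apply, Matrix.mul_apply, Finset.mul_sum]
  refine Finset.sum_congr rfl fun i _ => ?_
  rw [conjTranspose_apply, mul_comm ((Vᴴ * W * U) j i)]
  rfl

lemma SMc_ex {U V : Matrix n n ℂ} (u1 : Uᴴ * U = 1) (u2 : U * Uᴴ = 1) (v1 : Vᴴ * V = 1)
    (v2 : V * Vᴴ = 1) (a b : n → ℝ) (f : ℝ → ℝ) (Z : Matrix n n ℂ) :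
    exS f (U * dg a * Uᴴ) (V * dg b * Vᴴ) Z =
      ∑ j, ∑ i, (f (a i) - f (b j)) * (b j - a i) * ‖(Vᴴ * Z * U) j i‖ ^ 2 := by
  have e : U * dg a * Uᴴ * Zᴴ - Zᴴ * (V * dg b * Vᴴ) =
      -(V * dg b * Vᴴ * Z - Z * (U * dg a * Uᴴ))ᴴ := by
    simp only [conjTranspose_sub, conjTranspose_mul, conjTranspose_conjTranspose, dg_conjT,
      Matrix.mul_assoc, neg_sub]
  rw [exS, SMb_uniq u1 u2, SMb_uniq v1 v2, e, Matrix.mul_neg, rtr_neg, rtr, rtr, SMc_tr1 v2,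
    SMc_tr2 u2, ← Complex.neg_re, ← Complex.add_re, ← sub_eq_add_neg, ← Finset.sum_sub_distrib,
    Complex.re_sum]
  refine Finset.sum_congr rfl fun j _ => ?_
  rw [← Finset.sum_sub_distrib, Complex.re_sum]
  refine Finset.sum_congr rfl fun i _ => ?_
  rw [SMb_conj v1 u1, map_mul, Complex.conj_ofReal, mul_left_comm (conj _), mul_assoc ((b j - a i : ℝ) : ℂ),
    Complex.conj_mul', ← sub_mul, ← Complex.ofReal_pow, ← Complex.ofReal_mul, ← Complex.ofReal_sub,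
    ← Complex.ofReal_mul, Complex.ofReal_re, mul_assoc (f (a i) - _)]

lemma SMc_w (hf : Antitone f) (a b : ℝ) : 0 ≤ (f a - f b) * (b - a) := by
  rcases le_total a b with h | h
  · exact mul_nonneg (sub_nonneg.2 (hf h)) (sub_nonneg.2 h)
  · exact mul_nonneg_of_nonpos_of_nonpos (sub_nonpos.2 (hf h)) (sub_nonpos.2 h)

lemma SMc_scalar0 (hf : Antitone f) {Φ g g' : ℝ → ℝ} {M : ℝ}
    (hM : 0 ≤ M) (hΦ : ∀ t, HasDerivAt Φ (g t) t) (hg : ∀ t, HasDerivAt g (g' t) t)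
    (osc : ∀ s t, |g' s - g' t| ≤ M * (|s - t| + |f s - f t|)) {a b : ℝ} (hab : a ≤ b) :
    |Φ b - Φ a - (b - a) * (g a + g b) / 2| ≤ M * ((b - a) ^ 2 * (|b - a| + |f a - f b|)) := by
  obtain ⟨w, hw⟩ : ∃ w, w = M * (|b - a| + |f a - f b|) := ⟨_, rfl⟩
  have w0 : 0 ≤ w := by rw [hw]; positivity
  have h1 : ∀ s ∈ Set.Icc a b, ∀ t ∈ Set.Icc a b, |g' s - g' t| ≤ w := fun s hs t ht => by
    refine (osc s t).trans (hw ▸ mul_le_mul_of_nonneg_left (add_le_add ?_ ?_) hM)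
    · rw [abs_of_nonneg (sub_nonneg.2 hab)]
      exact abs_le.2 ⟨by linarith [hs.1, ht.2], by linarith [hs.2, ht.1]⟩
    · rw [abs_of_nonneg (sub_nonneg.2 (hf hab))]
      exact abs_le.2 ⟨by linarith [hf hs.2, hf ht.1], by linarith [hf hs.1, hf ht.2]⟩
  have h2 : ∀ t ∈ Set.Icc a b, |g t - g a - (t - a) * g' t| ≤ w * (b - a) := fun t ht => by
    have := (convex_Icc a b).norm_image_sub_le_of_norm_hasDerivWithin_le
      (f := fun s => g s - s * g' t) (f' := fun s => g' s - g' t) (C := w)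
      (fun s _ => ((hg s).fun_sub (hasDerivAt_mul_const (g' t))).hasDerivWithinAt)
      (fun s hs => h1 s hs t ht) (Set.left_mem_Icc.2 hab) ht
    rw [Real.norm_eq_abs, Real.norm_eq_abs, abs_of_nonneg (sub_nonneg.2 ht.1)] at this
    rw [show g t - g a - (t - a) * g' t = g t - t * g' t - (g a - a * g' t) by ring]
    exact this.trans (mul_le_mul_of_nonneg_left (by linarith [ht.2]) w0)
  have h3 := (convex_Icc a b).norm_image_sub_le_of_norm_hasDerivWithin_le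
    (f := fun t => Φ t - (t - a) * (g a + g t) / 2)
    (f' := fun t => (g t - g a - (t - a) * g' t) / 2) (C := w * (b - a))
    (fun t _ => by
      have := (hΦ t).fun_sub
        ((((hasDerivAt_id' t).sub_const a).fun_mul ((hg t).const_add (g a))).div_const 2)
      exact (this.congr_deriv (by ring)).hasDerivWithinAt)
    (fun t ht => by
      rw [Real.norm_eq_abs, abs_div, abs_two]
      linarith [h2 t ht, abs_nonneg (g t - g a - (t - a) * g' t)])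
    (Set.left_mem_Icc.2 hab) (Set.right_mem_Icc.2 hab)
  rw [Real.norm_eq_abs, Real.norm_eq_abs, abs_of_nonneg (sub_nonneg.2 hab)] at h3
  rw [show Φ b - Φ a - (b - a) * (g a + g b) / 2 =
    Φ b - (b - a) * (g a + g b) / 2 - (Φ a - (a - a) * (g a + g a) / 2) by ring]
  refine h3.trans (le_of_eq ?_)
  rw [hw]; ring

lemma SMc_scalar (hf : Antitone f) {Φ g g' : ℝ → ℝ} {M : ℝ}
    (hM : 0 ≤ M) (hΦ : ∀ t, HasDerivAt Φ (g t) t) (hg : ∀ t, HasDerivAt g (g' t) t)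
    (osc : ∀ s t, |g' s - g' t| ≤ M * (|s - t| + |f s - f t|)) (a b : ℝ) :
    |Φ a - Φ b - (a - b) * (g a + g b) / 2| ≤ M * ((b - a) ^ 2 * (|b - a| + |f a - f b|)) := by
  rcases le_total a b with h | h
  · rw [← abs_neg, show -(Φ a - Φ b - (a - b) * (g a + g b) / 2) =
      Φ b - Φ a - (b - a) * (g a + g b) / 2 by ring]
    exact SMc_scalar0 hf hM hΦ hg osc h
  · have := SMc_scalar0 hf hM hΦ hg osc h
    rwa [add_comm (g b), abs_sub_comm a b, abs_sub_comm (f b), show (a - b) ^ 2 = (b - a) ^ 2 by ring]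
      at this

lemma exS_nonneg (hA : A.IsHermitian) (hH : H.IsHermitian) (hf : Antitone f) (Z : Matrix n n ℂ) :
    0 ≤ exS f A H Z := by
  obtain ⟨U, a, u1, u2, rfl, -⟩ := fc_spec hA
  obtain ⟨V, b, v1, v2, rfl, -⟩ := fc_spec hH
  rw [SMc_ex u1 u2 v1 v2]
  exact Finset.sum_nonneg fun j _ => Finset.sum_nonneg fun i _ =>
    mul_nonneg (SMc_w hf _ _) (sq_nonneg _)
lemma exS_add_le (hA : A.IsHermitian) (hH : H.IsHermitian) (hf : Antitone f) (Z Z' : Matrix n n ℂ) :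
    exS f A H (Z + Z') ≤ 2 * exS f A H Z + 2 * exS f A H Z' := by
  obtain ⟨U, a, u1, u2, rfl, -⟩ := fc_spec hA
  obtain ⟨V, b, v1, v2, rfl, -⟩ := fc_spec hH
  simp only [SMc_ex u1 u2 v1 v2, Finset.mul_sum, ← Finset.sum_add_distrib]
  refine Finset.sum_le_sum fun j _ => Finset.sum_le_sum fun i _ => ?_
  rw [Matrix.mul_add, Matrix.add_mul, Matrix.add_apply]
  have h := norm_add_le ((Vᴴ * Z * U) j i) ((Vᴴ * Z' * U) j i)
  have h2 : ‖(Vᴴ * Z * U) j i + (Vᴴ * Z' * U) j i‖ ^ 2 ≤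
      2 * ‖(Vᴴ * Z * U) j i‖ ^ 2 + 2 * ‖(Vᴴ * Z' * U) j i‖ ^ 2 :=
    (pow_le_pow_left₀ (norm_nonneg _) h 2).trans
      (by nlinarith [sq_nonneg (‖(Vᴴ * Z * U) j i‖ - ‖(Vᴴ * Z' * U) j i‖)])
  have := mul_le_mul_of_nonneg_left h2 (SMc_w hf (a i) (b j))
  linarith
lemma exS_smul (c : ℂ) (Z : Matrix n n ℂ) : exS f A H (c • Z) = ‖c‖ ^ 2 * exS f A H Z := by
  have e : ((‖c‖ ^ 2 : ℝ) : ℂ) = star c * c := by
    rw [Complex.star_def, Complex.conj_mul']; push_cast; rfl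
  rw [exS, exS, mul_add, ← rtr_smul, ← rtr_smul, e]
  simp only [conjTranspose_smul, Matrix.mul_smul, Matrix.smul_mul, ← smul_sub, smul_smul, mul_comm c]
lemma exS_zero (A H Z : Matrix n n ℂ) : exS (fun _ => 0) A H Z = 0 := by
  simp [exS, fc_zero, rtr]
/-- The crude bound. -/
lemma exS_crude (hA : A.IsHermitian) (hH : H.IsHermitian) {l c : ℝ} (hf : FOK f l)
    (bA : OpB A c) (bH : OpB H c) (Z : Matrix n n ℂ) :
    exS f A H Z ≤ 2 * c * (hs (Z * Ep A) ^ 2 + hs (Ep H * Z) ^ 2) := by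
  obtain ⟨U, a, u1, u2, e1, h1, -, ha⟩ := fc_spec hA
  obtain ⟨V, b, v1, v2, e2, h2, -, hb⟩ := fc_spec hH
  have ha := ha c bA
  have hb := hb c bH
  have k1 : Vᴴ * (Z * Ep A) * U = Vᴴ * Z * U * dg fun i => if a i < 1 / 2 then 1 else 0 := by
    rw [Ep, h1]
    simp only [Matrix.mul_assoc, u1, Matrix.mul_one]
  have k2 : Vᴴ * (Ep H * Z) * U = dg (fun j => if b j < 1 / 2 then 1 else 0) * (Vᴴ * Z * U) := by
    rw [Ep, h2]
    simp only [← Matrix.mul_assoc, v1, Matrix.one_mul]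
  rw [← SMb_hs v2 u2 (Z * Ep A), ← SMb_hs v2 u2 (Ep H * Z), k1, k2, hs_sq, hs_sq, e1, e2,
    SMc_ex u1 u2 v1 v2]
  simp only [Finset.mul_sum, ← Finset.sum_add_distrib]
  refine Finset.sum_le_sum fun j _ => Finset.sum_le_sum fun i _ => ?_
  rw [mul_dg_apply, dg_mul_apply, norm_mul, norm_mul, mul_pow, mul_pow, mul_comm (_ ^ 2) (_ ^ 2),
    ← add_mul, ← mul_assoc]
  refine mul_le_mul_of_nonneg_right ?_ (sq_nonneg _)
  have h3 : (f (a i) - f (b j)) * (b j - a i) ≤ 2 * c := by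
    have a1 := abs_le.1 (ha i)
    have b1 := abs_le.1 (hb j)
    refine (le_abs_self _).trans ?_
    rw [abs_mul, ← one_mul (2 * c)]
    exact mul_le_mul (abs_le.2 ⟨by linarith [hf.nonneg (a i), hf.le_one (b j)],
      by linarith [hf.nonneg (b j), hf.le_one (a i)]⟩) (abs_le.2 ⟨by linarith, by linarith⟩)
      (abs_nonneg _) zero_le_one
  have c0 := bA.1
  split_ifs with p q q
  · simp only [Complex.ofReal_one, norm_one]; linarith
  · simp only [Complex.ofReal_one, Complex.ofReal_zero, norm_one, norm_zero]; linarith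
  · simp only [Complex.ofReal_one, Complex.ofReal_zero, norm_one, norm_zero]; linarith
  · rw [hf.zero _ (not_lt.1 p), hf.zero _ (not_lt.1 q)]; simp
/-- Reduction to a single Hamiltonian. -/
lemma exS_single (hA : A.IsHermitian) (hH : H.IsHermitian) {l c δ : ℝ} (hf : FOK f l)
    (hδ : OpB (A - H) δ) {Z : Matrix n n ℂ} (hZ : OpB Z c) :
    exS f A H Z ≤ 2 * rtr (fc f H * Zᴴ * cm H Z) + 2 * hs (Zᴴ - Z) * hs (cm H Z) +
      2 * c ^ 2 * δ * Fintype.card n + 2 * l * δ * √(Fintype.card n) * c * hs (cm H Z) := by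
  have l0 : 0 ≤ l := zero_le_one.trans hf.one_le
  have b1 : ∀ {B : Matrix n n ℂ}, B.IsHermitian → OpB (fc f B) 1 := fun hB =>
    fc_opB' hB zero_le_one fun t => abs_le.2 ⟨by linarith [hf.nonneg t], hf.le_one t⟩
  have hc : fc f H * H = H * fc f H := by rw [fc_mul_self hH, self_mul_fc hH]
  have e1 : fc f A * Zᴴ * (H * Z - Z * A) = fc f H * Zᴴ * cm H Z +
      (fc f A - fc f H) * Zᴴ * cm H Z - fc f A * Zᴴ * Z * (A - H) := by
    simp only [cm, Matrix.mul_sub, Matrix.sub_mul, Matrix.mul_assoc]; abel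
  have e2 : fc f H * Z * (A * Zᴴ - Zᴴ * H) = fc f H * Zᴴ * cm H Z + fc f H * Zᴴ * cm H (Zᴴ - Z) -
      fc f H * (Zᴴ - Z) * cm H Zᴴ + fc f H * Z * (A - H) * Zᴴ := by
    simp only [cm, Matrix.mul_sub, Matrix.sub_mul, Matrix.mul_assoc]; abel
  have e3 : hs (cm H Zᴴ) = hs (cm H Z) := by
    rw [← hs_conjT, cm_conjT, conjTranspose_conjTranspose, hH.eq, hs_cm_swap]
  have e4 : cm (fc f H * Zᴴ) H = fc f H * cm Zᴴ H := by
    rw [cm_mul_left, cm.eq_1 (fc f H), hc, sub_self, Matrix.zero_mul, add_zero]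
  have t1 : |rtr ((fc f A - fc f H) * Zᴴ * cm H Z)| ≤
      l * δ * √(Fintype.card n) * c * hs (cm H Z) := by
    refine (abs_rtr_le _).trans ((trace_mul_le _ _).trans
      (mul_le_mul_of_nonneg_right ?_ (hs_nonneg _)))
    refine (hZ.conjT.hs_mul_right _).trans ?_
    rw [mul_comm _ c, mul_assoc l]
    exact mul_le_mul_of_nonneg_left ((hs_fc_sub hA hH l0 hf.lip).trans
      (mul_le_mul_of_nonneg_left hδ.hs_le l0)) hZ.1
  have t2 := (abs_rtr_le _).trans ((((b1 hA).mul hZ.conjT).mul hZ).mul hδ).trace_le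
  have t3 := (abs_rtr_le _).trans ((((b1 hH).mul hZ).mul hδ).mul hZ.conjT).trace_le
  have t4 : |rtr (fc f H * Zᴴ * cm H (Zᴴ - Z))| ≤ hs (Zᴴ - Z) * hs (cm H Z) := by
    refine (abs_rtr_le _).trans ?_
    rw [trace_mul_cm, e4, mul_comm]
    refine (trace_mul_le _ _).trans (mul_le_mul_of_nonneg_right ?_ (hs_nonneg _))
    rw [← e3, hs_cm_swap H]
    simpa using (b1 hH).hs_mul_left (cm Zᴴ H)
  have t5 : |rtr (fc f H * (Zᴴ - Z) * cm H Zᴴ)| ≤ hs (Zᴴ - Z) * hs (cm H Z) := by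
    refine (abs_rtr_le _).trans ((trace_mul_le _ _).trans ?_)
    rw [e3]
    refine mul_le_mul_of_nonneg_right ?_ (hs_nonneg _)
    simpa using (b1 hH).hs_mul_left (Zᴴ - Z)
  have t0 := (abs_nonneg _).trans t1
  rw [exS, e1, e2]
  simp only [rtr_add, rtr_sub]
  linarith [abs_le.1 t1, abs_le.1 t2, abs_le.1 t3, abs_le.1 t4, abs_le.1 t5]
lemma exS_self (hH : H.IsHermitian) {P : Matrix n n ℂ} (hP : P.IsHermitian) :
    exS f H H P = rtr (fc f H * cm P (cm H P)) := by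
  have e : rtr (fc f H * (cm H P * P)) = -rtr (fc f H * P * cm H P) := by
    rw [← rtr_conjT, conjTranspose_mul, conjTranspose_mul, cm_conjT, hH.eq, hP.eq, fc_conjT,
      rtr_comm, cm_swap, Matrix.mul_neg, Matrix.mul_neg, rtr_neg, Matrix.mul_assoc]
  rw [exS, hP.eq, cm, Matrix.mul_sub (fc f H), rtr_sub, e, ← Matrix.mul_assoc, sub_neg_eq_add]
  rfl
/-- Cauchy-Schwarz for the double commutator form. -/
lemma exS_cs (hH : H.IsHermitian) (hf : Antitone f) {P : Matrix n n ℂ} (hP : P.IsHermitian)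
    (Z : Matrix n n ℂ) :
    ‖trace (fc f H * cm Z (cm H P))‖ ≤ √(exS f H H P) * √(exS f H H Z) := by
  have e0 : exS f H H Z = exS f H H Zᴴ := by
    rw [exS, exS, conjTranspose_conjTranspose, add_comm]
  obtain ⟨U, a, u1, u2, rfl, -⟩ := fc_spec hH
  rw [e0, SMc_ex u1 u2 u1 u2, SMc_ex u1 u2 u1 u2, SMb_uniq u1 u2, cm, Matrix.mul_sub, trace_sub,
    ← Matrix.mul_assoc, ← Matrix.mul_assoc _ _ Z]
  have e1 := SMc_tr1 (U := U) u2 (fun i => f (a i)) Zᴴ (cm (U * dg a * Uᴴ) P)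
  have e2 := SMc_tr2 (V := U) u2 (fun i => f (a i)) Zᴴ (cm (U * dg a * Uᴴ) P)
  rw [conjTranspose_conjTranspose] at e1 e2
  rw [e1, e2, ← Finset.sum_sub_distrib]
  refine le_trans ?_ (SMc_cs _ _ _ fun j i => SMc_w hf (a i) (a j))
  refine (norm_sum_le _ _).trans (Finset.sum_le_sum fun j _ => ?_)
  rw [← Finset.sum_sub_distrib]
  refine (norm_sum_le _ _).trans (Finset.sum_le_sum fun i _ => le_of_eq ?_)
  rw [← sub_mul, cm, SMb_conj u1 u1, mul_left_comm (conj _), ← mul_assoc, ← Complex.ofReal_sub,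
    ← Complex.ofReal_mul, norm_mul, norm_mul, Complex.norm_real, Complex.norm_conj,
    Real.norm_of_nonneg (SMc_w hf _ _), mul_comm ‖_‖]
/-- The trapezoid rule for the difference of two functions of matrices. -/
lemma trap (hA : A.IsHermitian) (hH : H.IsHermitian) (hf : Antitone f) {Φ g g' : ℝ → ℝ} {M : ℝ}
    (hM : 0 ≤ M) (hΦ : ∀ t, HasDerivAt Φ (g t) t) (hg : ∀ t, HasDerivAt g (g' t) t)
    (osc : ∀ s t, |g' s - g' t| ≤ M * (|s - t| + |f s - f t|)) (X : Matrix n n ℂ) :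
    ‖trace (X * (fc Φ A - fc Φ H)) - (1 / 2 : ℂ) * trace (fc g A * (A - H) * X) -
        (1 / 2 : ℂ) * trace (fc g H * X * (A - H))‖ ≤
      M * (hs (X * A - H * X) * hs (A * (A - H) - (A - H) * H) +
        √(exS f A H X) * √(exS f A H (A - H))) := by
  have hD := (hA.sub hH).eq
  have k2 : hs (A * (A - H) - (A - H) * H) = hs (H * (A - H) - (A - H) * A) := by
    rw [← hs_conjT, conjTranspose_sub, conjTranspose_mul, conjTranspose_mul, hD, hA.eq, hH.eq,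
      hs_sub_comm]
  rw [k2, hs_sub_comm (X * A)]
  obtain ⟨U, a, u1, u2, rfl, -⟩ := fc_spec hA
  obtain ⟨V, b, v1, v2, rfl, -⟩ := fc_spec hH
  have eD : ∀ j i, (Vᴴ * (U * dg a * Uᴴ - V * dg b * Vᴴ) * U) j i =
      ((a i - b j : ℝ) : ℂ) * (Vᴴ * (1 : Matrix n n ℂ) * U) j i := fun j i => by
    have := SMb_conj v1 u1 b a 1 j i
    rw [Matrix.mul_one (V * _ * _), Matrix.one_mul, ← neg_sub, Matrix.mul_neg, Matrix.neg_mul,
      Matrix.neg_apply, neg_eq_iff_eq_neg] at this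
    rw [this]; push_cast; ring
  have e1 := SMc_tr1 (U := U) v2 (fun i => Φ (a i)) 1 X
  have e2 := SMc_tr2 (V := V) u2 (fun i => Φ (b i)) 1 X
  have e3 := SMc_tr1 (U := U) v2 (fun i => g (a i)) (U * dg a * Uᴴ - V * dg b * Vᴴ) X
  have e4 := SMc_tr2 (V := V) u2 (fun i => g (b i)) (U * dg a * Uᴴ - V * dg b * Vᴴ) X
  rw [conjTranspose_one, Matrix.mul_one (_ * _ * Uᴴ)] at e1
  rw [conjTranspose_one, Matrix.mul_one (_ * X)] at e2
  rw [hD] at e3 e4
  rw [SMc_ex u1 u2 v1 v2, SMc_ex u1 u2 v1 v2, SMb_uniq u1 u2, SMb_uniq v1 v2, SMb_uniq u1 u2,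
    SMb_uniq v1 v2, trace_mul_comm, Matrix.sub_mul, trace_sub, e1, e2, e3, e4,
    ← SMb_hs v2 u2 (_ * X - _), ← SMb_hs v2 u2 (_ * (_ - _) - _), hs, hs]
  have c1 := SMc_cs (fun _ _ => 1)
    (fun j i => ‖(Vᴴ * (V * dg b * Vᴴ * X - X * (U * dg a * Uᴴ)) * U) j i‖)
    (fun j i => ‖(Vᴴ * (V * dg b * Vᴴ * (U * dg a * Uᴴ - V * dg b * Vᴴ) -
      (U * dg a * Uᴴ - V * dg b * Vᴴ) * (U * dg a * Uᴴ)) * U) j i‖) fun _ _ => zero_le_one
  simp only [one_mul] at c1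
  have c2 := SMc_cs (fun j i => (f (a i) - f (b j)) * (b j - a i)) (fun j i => ‖(Vᴴ * X * U) j i‖)
    (fun j i => ‖(Vᴴ * (U * dg a * Uᴴ - V * dg b * Vᴴ) * U) j i‖) fun j i => SMc_w hf _ _
  refine le_trans ?_ (mul_le_mul_of_nonneg_left (add_le_add c1 c2) hM)
  simp only [Finset.mul_sum, ← Finset.sum_sub_distrib, ← Finset.sum_add_distrib]
  refine (norm_sum_le _ _).trans (Finset.sum_le_sum fun j _ => ?_)
  refine (norm_sum_le _ _).trans (Finset.sum_le_sum fun i _ => ?_)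
  rw [SMb_conj v1 u1, SMb_conj v1 u1, eD]
  generalize (Vᴴ * (1 : Matrix n n ℂ) * U) j i = s
  generalize (Vᴴ * X * U) j i = x
  have e5 : (Φ (a i) : ℂ) * (conj s * x) - (Φ (b j) : ℂ) * (conj s * x) -
      1 / 2 * ((g (a i) : ℂ) * (conj (((a i - b j : ℝ) : ℂ) * s) * x)) -
      1 / 2 * ((g (b j) : ℂ) * (conj (((a i - b j : ℝ) : ℂ) * s) * x)) =
      ((Φ (a i) - Φ (b j) - (a i - b j) * (g (a i) + g (b j)) / 2 : ℝ) : ℂ) * (conj s * x) := by
    rw [map_mul, Complex.conj_ofReal]; push_cast; ring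
  rw [e5, ← abs_of_nonneg (SMc_w hf (a i) (b j))]
  simp only [norm_mul, Complex.norm_real, Complex.norm_conj, Real.norm_eq_abs, abs_mul]
  refine (mul_le_mul_of_nonneg_right (SMc_scalar hf hM hΦ hg osc (a i) (b j))
    (mul_nonneg (norm_nonneg _) (norm_nonneg _))).trans (le_of_eq ?_)
  rw [abs_sub_comm (a i), ← sq_abs (b j - a i)]
  ring

end Pool.Agent.Lib.MP_ae5e3b_mp.Sh
end
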