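import Pool.Agent.Lib.MP_ae5e3b_mp.SDefs
import Pool.Agent.Lib.MP_ae5e3b_mp.SMc

-- part Pool.Agent.Lib.MP_ae5e3b_mp.STa
section

open MeasureTheory Matrix Real
open scoped ComplexConjugate ComplexOrder

set_option linter.unusedSectionVars false

namespace Pool.Agent.Lib.MP_ae5e3b_mp.Sh

variable {d : ℕ} {L : ℝ}

instance STa_circle_prob : IsProbabilityMeasure (volume : Measure UnitAddCircle) :=
  ⟨by simp⟩

instance tor_prob : IsProbabilityMeasure (volume : Measure (Tor d)) := by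
  rw [volume_pi]; infer_instance

lemma kap_pos (hL : 0 < L) : 0 < kap L := by unfold kap; positivity
lemma Big.pos (hL : Big L) : 0 < L := lt_of_lt_of_le (by positivity) hL
lemma Big.kap_le (hL : Big L) : kap L ≤ 1 / 2 := by
  have h := hL.pos
  unfold Big at hL
  unfold kap
  rw [div_le_iff₀ h]; linarith
/-- `kap L` is small for large `L`. -/
lemma exists_kap_le {ε : ℝ} (hε : 0 < ε) :
    ∃ L₀ : ℝ, 0 < L₀ ∧ ∀ L, L₀ ≤ L → Big L ∧ kap L ≤ ε := by
  refine ⟨max (4 * π) (2 * π / ε), lt_max_of_lt_left (by positivity), fun L hL => ?_⟩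
  have h1 : Big L := (le_max_left _ _).trans hL
  refine ⟨h1, ?_⟩
  have h2 := (le_max_right _ _).trans hL
  rw [div_le_iff₀ hε] at h2
  unfold kap
  rw [div_le_iff₀ h1.pos]; linarith

lemma mv_zero (r : Fin d) (x : Tor d) : mv L r x 0 = x := by simp [mv]
lemma mv_add (r : Fin d) (x : Tor d) (s t : ℝ) : mv L r (mv L r x s) t = mv L r x (s + t) := by
  unfold mv
  rw [add_assoc, ← Pi.single_add, ← AddCircle.coe_add, add_div]
lemma continuous_mv (r : Fin d) : Continuous fun p : Tor d × ℝ => mv L r p.1 p.2 := by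
  unfold mv
  refine continuous_fst.add ((continuous_single r).comp ?_)
  exact (AddCircle.continuous_mk' 1).comp (continuous_snd.div_const L)

lemma ch_zero (x : Tor d) : ch 0 x = 1 := by simp [ch, UnitAddTorus.mFourier_zero]
lemma ch_add (k l : Fin d → ℤ) (x : Tor d) : ch (k + l) x = ch k x * ch l x :=
  UnitAddTorus.mFourier_add
lemma ch_neg (k : Fin d → ℤ) (x : Tor d) : ch (-k) x = conj (ch k x) :=
  UnitAddTorus.mFourier_neg
lemma ch_sub (k l : Fin d → ℤ) (x : Tor d) : ch (k - l) x = ch k x * conj (ch l x) := by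
  rw [sub_eq_add_neg, ch_add, ch_neg]
lemma STa_ch_eq (k : Fin d → ℤ) (x : Tor d) : ch k x = ∏ i, fourier (k i) (x i) := rfl
lemma ch_add_right (k : Fin d → ℤ) (x y : Tor d) : ch k (x + y) = ch k x * ch k y := by
  simp only [STa_ch_eq, Pi.add_apply, fourier_apply, smul_add, AddCircle.toCircle_add,
    Circle.coe_mul, Finset.prod_mul_distrib]
lemma STa_ch_neg_right (k : Fin d → ℤ) (x : Tor d) : ch k (-x) = conj (ch k x) := by
  rw [← ch_neg]
  simp only [STa_ch_eq, Pi.neg_apply, fourier_apply, smul_neg, neg_smul]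
lemma ch_sub_right (k : Fin d → ℤ) (x y : Tor d) : ch k (x - y) = ch k x * conj (ch k y) := by
  rw [sub_eq_add_neg, ch_add_right, STa_ch_neg_right]
lemma norm_ch (k : Fin d → ℤ) (x : Tor d) : ‖ch k x‖ = 1 := by
  simp only [STa_ch_eq, fourier_apply, norm_prod, Circle.norm_coe, Finset.prod_const_one]
lemma continuous_ch (k : Fin d → ℤ) : Continuous (ch k) :=
  (UnitAddTorus.mFourier k).continuous
lemma ch_mv (k : Fin d → ℤ) (r : Fin d) (x : Tor d) (t : ℝ) :
    ch k (mv L r x t) = ch k x * ex (kap L * k r * t) := by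
  rw [mv, ch_add_right]
  congr 1
  rw [STa_ch_eq, Finset.prod_eq_single r]
  · rw [Pi.single_eq_same, fourier_coe_apply, ex, kap]
    congr 1
    push_cast
    ring
  · intro b _ hb
    rw [Pi.single_eq_of_ne hb, fourier_eval_zero]
  · simp
lemma integral_ch (k : Fin d → ℤ) : ∫ x, ch k x = if k = 0 then 1 else 0 := by
  split_ifs with hk
  · simp [hk, ch_zero]
  · obtain ⟨r, hr⟩ := Function.ne_iff.1 hk
    have hr' : (k r : ℝ) ≠ 0 := by exact_mod_cast hr
    have h1 := integral_add_right_eq_self (μ := (volume : Measure (Tor d))) (ch k)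
      (Pi.single r (((1 / (2 * k r)) / 1 : ℝ) : UnitAddCircle))
    have h2 : ∀ x : Tor d, ch k (x + Pi.single r (((1 / (2 * k r)) / 1 : ℝ) : UnitAddCircle)) =
        -ch k x := fun x => by
      have := ch_mv (L := 1) k r x (1 / (2 * k r))
      rw [mv] at this
      rw [this, show kap 1 * k r * (1 / (2 * k r)) = π by unfold kap; field_simp, ex,
        Complex.exp_pi_mul_I]
      ring
    simp only [h2, integral_neg] at h1
    exact CharZero.neg_eq_self_iff.1 h1
lemma integral_conj_ch_mul (k l : Fin d → ℤ) :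
    ∫ x, conj (ch k x) * ch l x = if k = l then 1 else 0 := by
  have : ∀ x : Tor d, conj (ch k x) * ch l x = ch (l - k) x := fun x => by rw [ch_sub, mul_comm]
  simp only [this, integral_ch, sub_eq_zero, eq_comm]

section Gen
variable {E : Type} [NormedAddCommGroup E] [NormedSpace ℝ E] {g h : Tor d → E}

lemma cont_int {E : Type} [NormedAddCommGroup E] {g : Tor d → E} (hg : Continuous g) :
    Integrable g :=
  hg.integrable_of_hasCompactSupport (HasCompactSupport.of_compactSpace g)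
lemma cont_memLp {E : Type} [NormedAddCommGroup E] {g : Tor d → E} (hg : Continuous g) :
    MemLp g 2 volume :=
  hg.memLp_of_hasCompactSupport (HasCompactSupport.of_compactSpace g)
lemma STa_der (hg : C1 L g) (r : Fin d) (x : Tor d) :
    HasDerivAt (fun s => g (mv L r x s)) (pd L r g x) 0 := (hg.diff r x).hasDerivAt
lemma C1.hasDerivAt (hg : C1 L g) (r : Fin d) (x : Tor d) (t : ℝ) :
    HasDerivAt (fun s => g (mv L r x s)) (pd L r g (mv L r x t)) t := by
  have h1 := STa_der hg r (mv L r x t)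
  have h2 : HasDerivAt (fun s => g (mv L r (mv L r x t) s)) (pd L r g (mv L r x t)) (t - t) := by
    rwa [sub_self]
  have h3 := h2.comp_sub_const t t
  simpa only [mv_add, add_sub_cancel] using h3
/-- The basic way to prove `C1` and compute `pd`. -/
lemma C1.of_hasDerivAt (hc : Continuous g) {g' : Fin d → Tor d → E} (hc' : ∀ r, Continuous (g' r))
    (hd : ∀ r x, HasDerivAt (fun s => g (mv L r x s)) (g' r x) 0) :
    C1 L g ∧ ∀ r, pd L r g = g' r := by
  have e : ∀ r, pd L r g = g' r := fun r => funext fun x => (hd r x).deriv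
  exact ⟨⟨hc, fun r x => (hd r x).differentiableAt, fun r => e r ▸ hc' r⟩, e⟩
lemma C1.const (c : E) : C1 L (fun _ : Tor d => c) :=
  (C1.of_hasDerivAt continuous_const (g' := fun _ _ => 0) (fun _ => continuous_const)
    fun _ _ => hasDerivAt_const _ _).1
lemma pd_const (c : E) (r : Fin d) (x : Tor d) : pd L r (fun _ : Tor d => c) x = 0 := by
  simp [pd]
lemma C1.add (hg : C1 L g) (hh : C1 L h) : C1 L fun x => g x + h x :=
  (C1.of_hasDerivAt (hg.cont.add hh.cont) (fun r => (hg.cpd r).add (hh.cpd r))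
    fun r x => (STa_der hg r x).add (STa_der hh r x)).1
lemma pd_add (hg : C1 L g) (hh : C1 L h) (r : Fin d) (x : Tor d) :
    pd L r (fun x => g x + h x) x = pd L r g x + pd L r h x :=
  ((STa_der hg r x).add (STa_der hh r x)).deriv
lemma C1.sub (hg : C1 L g) (hh : C1 L h) : C1 L fun x => g x - h x :=
  (C1.of_hasDerivAt (hg.cont.sub hh.cont) (fun r => (hg.cpd r).sub (hh.cpd r))
    fun r x => (STa_der hg r x).sub (STa_der hh r x)).1
lemma pd_sub (hg : C1 L g) (hh : C1 L h) (r : Fin d) (x : Tor d) :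
    pd L r (fun x => g x - h x) x = pd L r g x - pd L r h x :=
  ((STa_der hg r x).sub (STa_der hh r x)).deriv
lemma C1.neg (hg : C1 L g) : C1 L fun x => -g x :=
  (C1.of_hasDerivAt hg.cont.neg (fun r => (hg.cpd r).neg) fun r x => (STa_der hg r x).neg).1
lemma pd_neg (r : Fin d) (x : Tor d) : pd L r (fun x => -g x) x = -pd L r g x :=
  deriv.fun_neg
lemma C1.sum {ι : Type} (s : Finset ι) {g : ι → Tor d → E} (hg : ∀ a ∈ s, C1 L (g a)) :
    C1 L fun x => ∑ a ∈ s, g a x :=
  (C1.of_hasDerivAt (continuous_finsetSum s fun a ha => (hg a ha).cont)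
    (g' := fun r x => ∑ a ∈ s, pd L r (g a) x)
    (fun r => continuous_finsetSum s fun a ha => (hg a ha).cpd r)
    fun r x => HasDerivAt.fun_sum fun a ha => STa_der (hg a ha) r x).1
lemma pd_sum {ι : Type} (s : Finset ι) {g : ι → Tor d → E} (hg : ∀ a ∈ s, C1 L (g a)) (r : Fin d)
    (x : Tor d) : pd L r (fun x => ∑ a ∈ s, g a x) x = ∑ a ∈ s, pd L r (g a) x :=
  (HasDerivAt.fun_sum fun a ha => STa_der (hg a ha) r x).deriv
lemma STa_cont_mv (r : Fin d) (t : ℝ) : Continuous fun x : Tor d => mv L r x t :=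
  continuous_id.add continuous_const
lemma integral_pd [CompleteSpace E] (hg : C1 L g) (r : Fin d) : ∫ x, pd L r g x = 0 := by
  obtain ⟨M, hM⟩ := isCompact_univ.exists_bound_of_continuousOn (hg.cpd r).continuousOn
  have h := (hasDerivAt_integral_of_dominated_loc_of_deriv_le (μ := (volume : Measure (Tor d)))
    (F := fun t x => g (mv L r x t)) (F' := fun t x => pd L r g (mv L r x t)) (x₀ := (0 : ℝ))
    (bound := fun _ => M) (s := Set.univ) Filter.univ_mem
    (Filter.Eventually.of_forall fun t => (hg.cont.comp (STa_cont_mv r t)).aestronglyMeasurable)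
    (cont_int (hg.cont.comp (STa_cont_mv r 0)))
    ((hg.cpd r).comp (STa_cont_mv r 0)).aestronglyMeasurable
    (Filter.Eventually.of_forall fun x t _ => hM _ (Set.mem_univ _)) (integrable_const M)
    (Filter.Eventually.of_forall fun x t _ => hg.hasDerivAt r x t)).2
  have e : (fun t => ∫ x, g (mv L r x t)) = fun _ => ∫ x, g x :=
    funext fun t => integral_add_right_eq_self g _
  rw [e] at h
  simpa only [mv_zero] using h.unique (hasDerivAt_const _ _)
lemma C1.lip (hg : C1 L g) {r : Fin d} {M : ℝ} (hM : ∀ x, ‖pd L r g x‖ ≤ M) (x : Tor d) (t : ℝ) :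
    ‖g (mv L r x t) - g x‖ ≤ M * |t| := by
  have := convex_univ.norm_image_sub_le_of_norm_hasDerivWithin_le
    (f := fun s => g (mv L r x s)) (f' := fun s => pd L r g (mv L r x s)) (C := M) (x := 0) (y := t)
    (fun s _ => (hg.hasDerivAt r x s).hasDerivWithinAt) (fun s _ => hM _) (Set.mem_univ _)
    (Set.mem_univ _)
  simpa only [mv_zero, sub_zero, Real.norm_eq_abs] using this
lemma STa_rep (hL : 0 < L) (a : UnitAddCircle) :
    ∃ t : ℝ, ((t / L : ℝ) : UnitAddCircle) = a ∧ |t| = L * ‖a‖ := by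
  obtain ⟨u, rfl⟩ := QuotientAddGroup.mk_surjective a
  refine ⟨L * (u - round u), ?_, ?_⟩
  · rw [mul_div_cancel_left₀ _ hL.ne', AddCircle.coe_sub]
    have : ((round u : ℝ) : UnitAddCircle) = 0 := by
      rw [AddCircle.coe_eq_zero_iff]; exact ⟨round u, by simp⟩
    rw [this, sub_zero]
  · rw [abs_mul, abs_of_pos hL, UnitAddCircle.norm_eq]
/-- Lipschitz bound between two points of the torus. -/
lemma C1.lip_dist (hL : 0 < L) (hg : C1 L g) {M : ℝ} (hM : ∀ r x, ‖pd L r g x‖ ≤ M) (x y : Tor d) :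
    ‖g y - g x‖ ≤ M * ∑ r, L * ‖y r - x r‖ := by
  have key : ∀ s : Finset (Fin d), ‖g (x + ∑ r ∈ s, Pi.single r (y r - x r)) - g x‖ ≤
      M * ∑ r ∈ s, L * ‖y r - x r‖ := by
    intro s
    induction s using Finset.induction_on with
    | empty => simp
    | insert a s ha ih =>
      obtain ⟨t, ht1, ht2⟩ := STa_rep hL (y a - x a)
      have h1 := hg.lip (hM a) (x + ∑ r ∈ s, Pi.single r (y r - x r)) t
      rw [mv, ht1, ht2] at h1
      rw [Finset.sum_insert ha, Finset.sum_insert ha, mul_add, add_comm (Pi.single a _),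
        ← add_assoc]
      exact (norm_sub_le_norm_sub_add_norm_sub _ _ _).trans (add_le_add h1 ih)
  have := key Finset.univ
  rwa [Finset.univ_sum_single (fun r => y r - x r), show (x + fun r => y r - x r) = y by
    ext r; simp] at this
lemma STa_der_scale {k : ℝ} (hg : C1 L g) (r : Fin d) (x : Tor d) :
    HasDerivAt (fun s => g (mv (k * L) r x s)) (k⁻¹ • pd L r g x) 0 := by
  have h1 : HasDerivAt (fun s : ℝ => k⁻¹ * s) k⁻¹ 0 := by
    simpa using (hasDerivAt_id (0 : ℝ)).const_mul k⁻¹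
  have h2 : HasDerivAt (fun s => g (mv L r x s)) (pd L r g x) (k⁻¹ * 0) := by
    rw [mul_zero]; exact STa_der hg r x
  have h3 := h2.scomp (0 : ℝ) h1
  have e : ∀ s : ℝ, mv (k * L) r x s = mv L r x (k⁻¹ * s) := fun s => by
    unfold mv
    rw [show s / (k * L) = k⁻¹ * s / L by ring]
  simp only [e]
  exact h3
lemma C1.scale {k : ℝ} (hk : 0 < k) (hg : C1 L g) : C1 (k * L) g :=
  (C1.of_hasDerivAt hg.cont (g' := fun r x => k⁻¹ • pd L r g x)
    (fun r => (hg.cpd r).const_smul _) fun r x => STa_der_scale hg r x).1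
lemma pd_scale {k : ℝ} (hk : 0 < k) (hg : C1 L g) (r : Fin d) (x : Tor d) :
    pd (k * L) r g x = k⁻¹ • pd L r g x := (STa_der_scale hg r x).deriv
lemma STa_mv_shift (r : Fin d) (x y : Tor d) (t : ℝ) : mv L r x t + y = mv L r (x + y) t := by
  unfold mv; abel
lemma C1.shift (hg : C1 L g) (y : Tor d) : C1 L fun x => g (x + y) :=
  (C1.of_hasDerivAt (g := fun x => g (x + y)) (hg.cont.comp (continuous_id.add continuous_const))
    (g' := fun r x => pd L r g (x + y))
    (fun r => (hg.cpd r).comp (continuous_id.add continuous_const))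
    fun r x => by simpa only [STa_mv_shift] using STa_der hg r (x + y)).1
lemma pd_shift (y : Tor d) (r : Fin d) (x : Tor d) :
    pd L r (fun x => g (x + y)) x = pd L r g (x + y) := by
  simp only [pd, STa_mv_shift]
end Gen

section Alg
variable {𝕜 : Type} [RCLike 𝕜] {g h : Tor d → 𝕜}
lemma STa_der_mul (hg : C1 L g) (hh : C1 L h) (r : Fin d) (x : Tor d) :
    HasDerivAt (fun s => g (mv L r x s) * h (mv L r x s))
      (pd L r g x * h x + g x * pd L r h x) 0 := by
  simpa only [mv_zero] using (STa_der hg r x).fun_mul (STa_der hh r x)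
lemma C1.mul (hg : C1 L g) (hh : C1 L h) : C1 L fun x => g x * h x :=
  (C1.of_hasDerivAt (hg.cont.mul hh.cont) (g' := fun r x => pd L r g x * h x + g x * pd L r h x)
    (fun r => ((hg.cpd r).mul hh.cont).add (hg.cont.mul (hh.cpd r)))
    fun r x => STa_der_mul hg hh r x).1
lemma pd_mul (hg : C1 L g) (hh : C1 L h) (r : Fin d) (x : Tor d) :
    pd L r (fun x => g x * h x) x = pd L r g x * h x + g x * pd L r h x :=
  (STa_der_mul hg hh r x).deriv
lemma C1.const_mul (c : 𝕜) (hg : C1 L g) : C1 L fun x => c * g x :=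
  (C1.const c).mul hg
lemma pd_const_mul (c : 𝕜) (hg : C1 L g) (r : Fin d) (x : Tor d) :
    pd L r (fun x => c * g x) x = c * pd L r g x :=
  ((STa_der hg r x).const_mul c).deriv
lemma by_parts (hg : C1 L g) (hh : C1 L h) (r : Fin d) :
    ∫ x, pd L r g x * h x = -∫ x, g x * pd L r h x := by
  have h1 := integral_pd (hg.mul hh) r
  simp only [pd_mul hg hh] at h1
  exact eq_neg_of_add_eq_zero_left ((integral_add (cont_int ((hg.cpd r).mul hh.cont))
    (cont_int (hg.cont.mul (hh.cpd r)))).symm.trans h1)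
end Alg

section RC
variable {g : Tor d → ℝ} {v w : Tor d → ℂ}
lemma STa_der_ch (k : Fin d → ℤ) (r : Fin d) (x : Tor d) :
    HasDerivAt (fun s => ch k (mv L r x s))
      (Complex.I * ((kap L * k r : ℝ) : ℂ) * ch k x) 0 := by
  simp only [ch_mv, ex]
  generalize kap L * k r = a
  have h1 : HasDerivAt (fun s : ℝ => ((a * s : ℝ) : ℂ)) (a : ℂ) 0 := by
    have := ((hasDerivAt_id (0 : ℝ)).const_mul a).ofReal_comp
    simpa using this
  have h2 := ((h1.mul_const Complex.I).cexp).const_mul (ch k x)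
  refine h2.congr_deriv ?_
  simp only [mul_zero, Complex.ofReal_zero, zero_mul, Complex.exp_zero]
  ring
lemma C1.ch (k : Fin d → ℤ) : C1 L (ch k) :=
  (C1.of_hasDerivAt (continuous_ch k)
    (g' := fun r x => Complex.I * ((kap L * k r : ℝ) : ℂ) * Sh.ch k x)
    (fun _ => continuous_const.mul (continuous_ch k)) fun r x => STa_der_ch k r x).1
lemma pd_ch (k : Fin d → ℤ) (r : Fin d) (x : Tor d) :
    pd L r (ch k) x = Complex.I * ((kap L * k r : ℝ) : ℂ) * ch k x := (STa_der_ch k r x).deriv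
lemma continuous_cx (hg : Continuous g) : Continuous (cx g) :=
  Complex.continuous_ofReal.comp hg
lemma STa_clm {E F : Type} [NormedAddCommGroup E] [NormedSpace ℝ E] [NormedAddCommGroup F]
    [NormedSpace ℝ F] (T : E →L[ℝ] F) {g : Tor d → E} (hg : C1 L g) :
    C1 L (fun x => T (g x)) ∧ ∀ r, pd L r (fun x => T (g x)) = fun x => T (pd L r g x) :=
  C1.of_hasDerivAt (T.continuous.comp hg.cont) (fun r => T.continuous.comp (hg.cpd r))
    fun r x => T.hasFDerivAt.comp_hasDerivAt 0 (STa_der hg r x)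
lemma C1.cx (hg : C1 L g) : C1 L (cx g) := (STa_clm Complex.ofRealCLM hg).1
lemma C1.of_cx (hg : C1 L (Sh.cx g)) : C1 L g := (STa_clm Complex.reCLM hg).1
lemma pd_cx (hg : C1 L g) (r : Fin d) : pd L r (cx g) = cx (pd L r g) :=
  (STa_clm Complex.ofRealCLM hg).2 r
lemma C1.re (hv : C1 L v) : C1 L fun x => (v x).re := (STa_clm Complex.reCLM hv).1
lemma pd_re (hv : C1 L v) (r : Fin d) (x : Tor d) :
    pd L r (fun x => (v x).re) x = (pd L r v x).re :=
  congrFun ((STa_clm Complex.reCLM hv).2 r) x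
lemma C1.cj (hv : C1 L v) : C1 L fun x => conj (v x) :=
  (STa_clm (Complex.conjCLE : ℂ →L[ℝ] ℂ) hv).1
lemma pd_conj (hv : C1 L v) (r : Fin d) (x : Tor d) :
    pd L r (fun x => conj (v x)) x = conj (pd L r v x) :=
  congrFun ((STa_clm (Complex.conjCLE : ℂ →L[ℝ] ℂ) hv).2 r) x
lemma STa_normsq (v : Tor d → ℂ) : (fun x => ‖v x‖ ^ 2) = fun x => (conj (v x) * v x).re := by
  funext x
  rw [Complex.conj_mul', ← Complex.ofReal_pow, Complex.ofReal_re]
lemma C1.normsq (hv : C1 L v) : C1 L fun x => ‖v x‖ ^ 2 := by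
  rw [STa_normsq]; exact (hv.cj.mul hv).re
lemma pd_normsq (hv : C1 L v) (r : Fin d) (x : Tor d) :
    pd L r (fun x => ‖v x‖ ^ 2) x = 2 * (conj (v x) * pd L r v x).re := by
  rw [STa_normsq, pd_re (hv.cj.mul hv), pd_mul hv.cj hv, pd_conj hv]
  simp only [Complex.add_re, Complex.mul_re, Complex.conj_re, Complex.conj_im]
  ring
/-- Composition with a function that is continuously differentiable on an open set. -/
lemma C1.comp (hg : C1 L g) {F F' : ℝ → ℝ} {s : Set ℝ} (hs : IsOpen s) (hgs : ∀ x, g x ∈ s)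
    (hF : ∀ t ∈ s, HasDerivAt F (F' t) t) (hF' : ContinuousOn F' s) :
    C1 L (fun x => F (g x)) ∧ ∀ r x, pd L r (fun x => F (g x)) x = F' (g x) * pd L r g x := by
  have hFc : ContinuousOn F s := fun t ht => (hF t ht).continuousAt.continuousWithinAt
  have h := C1.of_hasDerivAt (L := L) (g := fun x => F (g x))
    (g' := fun r x => F' (g x) * pd L r g x) (hFc.comp_continuous hg.cont hgs)
    (fun r => (hF'.comp_continuous hg.cont hgs).mul (hg.cpd r)) fun r x => by
      have h1 : HasDerivAt F (F' (g x)) (g (mv L r x 0)) := by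
        rw [mv_zero]; exact hF _ (hgs x)
      exact h1.comp (0 : ℝ) (STa_der hg r x)
  exact ⟨h.1, fun r x => congrFun (h.2 r) x⟩
lemma C1.inv (hg : C1 L g) (h0 : ∀ x, g x ≠ 0) :
    C1 L (fun x => (g x)⁻¹) ∧ ∀ r x, pd L r (fun x => (g x)⁻¹) x = -pd L r g x / g x ^ 2 := by
  have h := hg.comp (F := fun t => t⁻¹) (F' := fun t => -(t ^ 2)⁻¹) (s := {0}ᶜ) isOpen_compl_singleton
    h0 (fun t ht => hasDerivAt_inv ht)
    ((continuousOn_pow 2).inv₀ fun t ht => pow_ne_zero 2 ht).neg
  refine ⟨h.1, fun r x => ?_⟩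
  rw [h.2 r x]; ring
end RC

end Pool.Agent.Lib.MP_ae5e3b_mp.Sh
end

-- part Pool.Agent.Lib.MP_ae5e3b_mp.STb
section

open MeasureTheory Matrix Real
open scoped ComplexConjugate ComplexOrder

set_option linter.unusedSectionVars false

namespace Pool.Agent.Lib.MP_ae5e3b_mp.Sh

variable {d : ℕ} {L : ℝ}

lemma STb_vol : (volume : Measure (Tor d)) =
    Measure.pi fun _ : Fin d => (AddCircle.haarAddCircle : Measure UnitAddCircle) := by
  rw [volume_pi]
  congr 1
  funext _
  rw [AddCircle.volume_eq_smul_haarAddCircle]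
  simp

lemma STb_int {g : Tor d → ℂ} (hg : Continuous g) (k : Fin d → ℤ) :
    Integrable fun x => conj (ch k x) * g x :=
  cont_int ((Complex.continuous_conj.comp (continuous_ch k)).mul hg)

lemma STb_parseval {g h : Tor d → ℂ} (hg : MemLp g 2 volume) (hh : MemLp h 2 volume) :
    HasSum (fun k => conj (coef g k) * coef h k) (∫ x, conj (g x) * h x) := by
  unfold coef
  rw [STb_vol] at hg hh ⊢
  have H := UnitAddTorus.hasSum_prod_mFourierCoeff (d := Fin d) (hg.toLp g) (hh.toLp h)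
  have e : ∀ (f : Tor d → ℂ) (hf : MemLp f 2
      (Measure.pi fun _ : Fin d => (AddCircle.haarAddCircle : Measure UnitAddCircle)))
      (k : Fin d → ℤ), UnitAddTorus.mFourierCoeff (hf.toLp f) k =
        ∫ x, conj (ch k x) * f x
          ∂(Measure.pi fun _ : Fin d => (AddCircle.haarAddCircle : Measure UnitAddCircle)) := by
    intro f hf k
    refine integral_congr_ae ?_
    filter_upwards [hf.coeFn_toLp] with x hx
    rw [hx, UnitAddTorus.mFourier_neg, smul_eq_mul]
    rfl
  have e2 : ∫ t, conj ((hg.toLp g) t) * (hh.toLp h) t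
      ∂(Measure.pi fun _ : Fin d => (AddCircle.haarAddCircle : Measure UnitAddCircle)) =
      ∫ x, conj (g x) * h x
        ∂(Measure.pi fun _ : Fin d => (AddCircle.haarAddCircle : Measure UnitAddCircle)) := by
    refine integral_congr_ae ?_
    filter_upwards [hg.coeFn_toLp, hh.coeFn_toLp] with x hx hy
    rw [hx, hy]
  simp only [e] at H
  rw [← e2]
  exact H

lemma STb_conj_mul (z : ℂ) : conj z * z = ((‖z‖ ^ 2 : ℝ) : ℂ) := by
  rw [Complex.conj_mul']
  push_cast
  rfl

lemma STb_parseval_sq {g : Tor d → ℂ} (hg : MemLp g 2 volume) :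
    HasSum (fun k => ‖coef g k‖ ^ 2) (∫ x, ‖g x‖ ^ 2) := by
  have H := STb_parseval hg hg
  simp only [STb_conj_mul] at H
  rw [integral_complex_ofReal] at H
  exact_mod_cast H

section Coef
variable {g h : Tor d → ℂ}
lemma coef_ch (k l : Fin d → ℤ) : coef (ch l) k = if k = l then 1 else 0 :=
  integral_conj_ch_mul k l
lemma coef_add (hg : Continuous g) (hh : Continuous h) (k : Fin d → ℤ) :
    coef (fun x => g x + h x) k = coef g k + coef h k := by
  unfold coef
  rw [← integral_add (STb_int hg k) (STb_int hh k)]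
  simp only [mul_add]
lemma coef_sub (hg : Continuous g) (hh : Continuous h) (k : Fin d → ℤ) :
    coef (fun x => g x - h x) k = coef g k - coef h k := by
  unfold coef
  rw [← integral_sub (STb_int hg k) (STb_int hh k)]
  simp only [mul_sub]
lemma coef_const_mul (c : ℂ) (g : Tor d → ℂ) (k : Fin d → ℤ) :
    coef (fun x => c * g x) k = c * coef g k := by
  unfold coef
  rw [← integral_const_mul]
  simp only [mul_left_comm]
lemma coef_sum {ι : Type} (s : Finset ι) {g : ι → Tor d → ℂ} (hg : ∀ a ∈ s, Continuous (g a))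
    (k : Fin d → ℤ) : coef (fun x => ∑ a ∈ s, g a x) k = ∑ a ∈ s, coef (g a) k := by
  unfold coef
  rw [← integral_finsetSum s fun a ha => STb_int (hg a ha) k]
  simp only [Finset.mul_sum]
lemma coef_conj (g : Tor d → ℂ) (k : Fin d → ℤ) :
    coef (fun x => conj (g x)) k = conj (coef g (-k)) := by
  unfold coef
  rw [← integral_conj]
  simp only [ch_neg, map_mul, Complex.conj_conj]
lemma coef_cx_neg (g : Tor d → ℝ) (k : Fin d → ℤ) :
    coef (cx g) (-k) = conj (coef (cx g) k) := by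
  have h := coef_conj (cx g) (-k)
  rw [neg_neg] at h
  rw [← h]
  congr 1
  funext x
  simp [cx]
lemma coef_mul_ch (g : Tor d → ℂ) (k l : Fin d → ℤ) :
    coef (fun x => g x * ch l x) k = coef g (k - l) := by
  unfold coef
  congr 1
  funext x
  rw [ch_sub, map_mul, Complex.conj_conj]
  ring
lemma coef_zero_eq (g : Tor d → ℂ) : coef g 0 = ∫ x, g x := by
  unfold coef
  simp only [ch_zero, map_one, one_mul]
lemma coef_pd (hg : C1 L g) (r : Fin d) (k : Fin d → ℤ) :
    coef (pd L r g) k = Complex.I * ((kap L * k r : ℝ) : ℂ) * coef g k := by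
  have h := by_parts (C1.ch (L := L) (-k)) hg r
  have e1 : ∫ x, ch (-k) x * pd L r g x = coef (pd L r g) k := by
    unfold coef
    simp only [ch_neg]
  have e2 : ∫ x, pd L r (ch (-k)) x * g x =
      -(Complex.I * ((kap L * k r : ℝ) : ℂ) * coef g k) := by
    unfold coef
    rw [← integral_const_mul, ← integral_neg]
    congr 1
    funext x
    rw [pd_ch, ch_neg]
    simp only [Pi.neg_apply]
    push_cast
    ring
  rw [e1, e2] at h
  exact (neg_injective h).symm
/-- Parseval. -/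
lemma parseval (hg : Continuous g) (hh : Continuous h) :
    HasSum (fun k => conj (coef g k) * coef h k) (∫ x, conj (g x) * h x) :=
  STb_parseval (cont_memLp hg) (cont_memLp hh)
lemma parseval_sq (hg : Continuous g) :
    HasSum (fun k => ‖coef g k‖ ^ 2) (∫ x, ‖g x‖ ^ 2) :=
  STb_parseval_sq (cont_memLp hg)
lemma parseval_real {g h : Tor d → ℝ} (hg : Continuous g) (hh : Continuous h) :
    HasSum (fun k => (conj (coef (cx g) k) * coef (cx h) k).re) (∫ x, g x * h x) := by
  have H := Complex.hasSum_re (parseval (continuous_cx hg) (continuous_cx hh))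
  have e : ∫ x, conj (cx g x) * cx h x = ((∫ x, g x * h x : ℝ) : ℂ) := by
    rw [← integral_complex_ofReal]
    congr 1
    funext x
    simp [cx]
  rw [e, Complex.ofReal_re] at H
  exact H
/-- Bessel's inequality for a square integrable function. -/
lemma bessel (hg : MemLp g 2 volume) (s : Finset (Fin d → ℤ)) :
    ∑ k ∈ s, ‖coef g k‖ ^ 2 ≤ ∫ x, ‖g x‖ ^ 2 :=
  sum_le_hasSum s (fun _ _ => by positivity) (STb_parseval_sq hg)
lemma eq_of_coef (hg : Continuous g) (hh : Continuous h) (e : ∀ k, coef g k = coef h k) :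
    g = h := by
  have hc : Continuous fun x => g x - h x := hg.sub hh
  have H := parseval_sq hc
  simp only [coef_sub hg hh, e, sub_self, norm_zero] at H
  have h0 : ∫ x, ‖g x - h x‖ ^ 2 = 0 := by
    refine H.unique ?_
    simp
  have hc2 : Continuous fun x => ‖g x - h x‖ ^ 2 := hc.norm.pow 2
  rw [integral_eq_zero_iff_of_nonneg (fun x => by positivity) (cont_int hc2)] at h0
  have h1 := (hc2.ae_eq_iff_eq volume continuous_const).1 h0
  funext x
  have h2 := congrFun h1 x
  exact sub_eq_zero.1 (norm_eq_zero.1 (pow_eq_zero_iff two_ne_zero |>.1 h2))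
end Coef

/-- Finite combinations of characters in a band, with an arbitrary index set. -/
lemma STb_tp {Q : ℝ} {ι : Type} (s : Finset ι) (κ : ι → Fin d → ℤ) (c : ι → ℂ)
    (hκ : ∀ a ∈ s, ∀ r, |kap L * κ a r| ≤ Q) :
    TP L Q fun x => ∑ a ∈ s, c a * ch (κ a) x := by
  classical
  refine ⟨s.image κ, fun k => ∑ a ∈ s.filter (fun a => κ a = k), c a, ?_, ?_⟩
  · intro k hk r
    obtain ⟨a, ha, rfl⟩ := Finset.mem_image.1 hk
    exact hκ a ha r
  · intro x
    beta_reduce
    rw [← Finset.sum_fiberwise_of_maps_to (s := s) (t := s.image κ) (g := κ)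
      (fun a ha => Finset.mem_image_of_mem κ ha)]
    refine Finset.sum_congr rfl fun k _ => ?_
    rw [Finset.sum_mul]
    refine Finset.sum_congr rfl fun a ha => ?_
    rw [(Finset.mem_filter.1 ha).2]

lemma STb_coef_sum (s : Finset (Fin d → ℤ)) (c : (Fin d → ℤ) → ℂ) (k : Fin d → ℤ) :
    coef (fun x => ∑ l ∈ s, c l * ch l x) k = if k ∈ s then c k else 0 := by
  classical
  rw [coef_sum s (g := fun l x => c l * ch l x)
    (fun l _ => continuous_const.mul (continuous_ch l))]
  simp only [coef_const_mul, coef_ch, mul_ite, mul_one, mul_zero]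
  rw [Finset.sum_ite_eq]

/-- A finite set containing a band. -/
lemma exists_band (hL : 0 < L) (Q : ℝ) : ∃ s : Finset (Fin d → ℤ),
    ∀ k : Fin d → ℤ, k ∈ s ↔ ∀ r, |kap L * k r| ≤ Q := by
  classical
  have hk := kap_pos hL
  obtain ⟨N, hN⟩ := exists_nat_ge (Q / kap L)
  refine ⟨(bx d N).filter fun k => ∀ r, |kap L * k r| ≤ Q, fun k => ?_⟩
  rw [Finset.mem_filter]
  refine ⟨fun h => h.2, fun h => ⟨?_, h⟩⟩
  unfold bx
  rw [Fintype.mem_piFinset]
  intro r
  have h1 := h r
  rw [abs_mul, abs_of_pos hk] at h1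
  have h2 : |(k r : ℝ)| ≤ N := by
    refine le_trans ?_ hN
    rw [le_div_iff₀ hk, mul_comm]
    exact h1
  have h3 : |k r| ≤ (N : ℤ) := by exact_mod_cast h2
  exact Finset.mem_Icc.2 (abs_le.1 h3)

namespace TP
variable {g h : Tor d → ℂ} {Q Q' : ℝ}
lemma mono (hg : TP L Q g) (hQ : Q ≤ Q') : TP L Q' g := by
  obtain ⟨s, c, hs, e⟩ := hg
  exact ⟨s, c, fun k hk r => (hs k hk r).trans hQ, e⟩
lemma c1 (hg : TP L Q g) : C1 L g := by
  obtain ⟨s, c, -, e⟩ := hg
  rw [show g = fun x => ∑ k ∈ s, c k * Sh.ch k x from funext e]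
  exact C1.sum s (g := fun k x => c k * Sh.ch k x) fun k _ => (C1.ch k).const_mul (c k)
lemma cont (hg : TP L Q g) : Continuous g := hg.c1.cont
lemma c1_real {g : Tor d → ℝ} (hg : TP L Q (cx g)) : C1 L g := C1.of_cx hg.c1
lemma zero : TP L Q (fun _ : Tor d => (0 : ℂ)) :=
  ⟨∅, fun _ => 0, by simp, by simp⟩
lemma const (hQ : 0 ≤ Q) (c : ℂ) : TP L Q (fun _ : Tor d => c) :=
  ⟨{0}, fun _ => c, by simpa using fun _ => hQ, by simp [ch_zero]⟩
lemma ch {k : Fin d → ℤ} (hk : ∀ r, |kap L * k r| ≤ Q) : TP L Q (ch k) :=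
  ⟨{k}, fun _ => 1, by simpa using hk, by simp⟩
lemma add (hg : TP L Q g) (hh : TP L Q h) : TP L Q fun x => g x + h x := by
  obtain ⟨s, c, hs, e⟩ := hg
  obtain ⟨t, b, ht, e'⟩ := hh
  have H := STb_tp (L := L) (Q := Q) (s.disjSum t) (Sum.elim id id) (Sum.elim c b) (by
    rintro (k | k) hk
    · exact hs k (by simpa using hk)
    · exact ht k (by simpa using hk))
  convert H using 2 with x
  rw [Finset.sum_disjSum, e, e']
  rfl
lemma const_mul (c : ℂ) (hg : TP L Q g) : TP L Q fun x => c * g x := by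
  obtain ⟨s, b, hs, e⟩ := hg
  refine ⟨s, fun k => c * b k, hs, fun x => ?_⟩
  simp only [e, Finset.mul_sum, mul_assoc]
lemma sub (hg : TP L Q g) (hh : TP L Q h) : TP L Q fun x => g x - h x := by
  convert hg.add (hh.const_mul (-1)) using 2 with x
  ring
lemma sum {ι : Type} (s : Finset ι) {g : ι → Tor d → ℂ} (hg : ∀ a ∈ s, TP L Q (g a)) :
    TP L Q fun x => ∑ a ∈ s, g a x := by
  classical
  induction s using Finset.induction_on with
  | empty => simpa using zero
  | insert a s ha ih =>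
    simp only [Finset.sum_insert ha]
    exact (hg a (Finset.mem_insert_self a s)).add
      (ih fun b hb => hg b (Finset.mem_insert_of_mem hb))
lemma mul (hg : TP L Q g) (hh : TP L Q' h) : TP L (Q + Q') fun x => g x * h x := by
  obtain ⟨s, c, hs, e⟩ := hg
  obtain ⟨t, b, ht, e'⟩ := hh
  have H := STb_tp (L := L) (Q := Q + Q') (s ×ˢ t) (fun p => p.1 + p.2)
    (fun p => c p.1 * b p.2) (by
      rintro ⟨k, l⟩ hp r
      obtain ⟨hk, hl⟩ := Finset.mem_product.1 hp
      have h1 := hs k hk r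
      have h2 := ht l hl r
      simp only [Pi.add_apply, Int.cast_add, mul_add]
      exact (abs_add_le _ _).trans (add_le_add h1 h2))
  convert H using 2 with x
  rw [Finset.sum_product, e, e', Finset.sum_mul_sum]
  refine Finset.sum_congr rfl fun k _ => Finset.sum_congr rfl fun l _ => ?_
  rw [ch_add]
  ring
lemma cj (hg : TP L Q g) : TP L Q fun x => conj (g x) := by
  obtain ⟨s, c, hs, e⟩ := hg
  have H := STb_tp (L := L) (Q := Q) s (fun k => -k) (fun k => conj (c k)) (by
    intro k hk r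
    simpa using hs k hk r)
  convert H using 2 with x
  rw [e, map_sum]
  simp only [map_mul, ch_neg]
lemma re (hg : TP L Q g) : TP L Q (cx fun x => (g x).re) := by
  convert (hg.add hg.cj).const_mul (1 / 2) using 1
  funext x
  simp only [cx]
  rw [Complex.add_conj]
  push_cast
  ring
lemma pd (hg : TP L Q g) (r : Fin d) : TP L Q (pd L r g) := by
  obtain ⟨s, c, hs, e⟩ := hg
  rw [show g = fun x => ∑ k ∈ s, c k * Sh.ch k x from funext e]
  refine ⟨s, fun k => c k * (Complex.I * ((kap L * k r : ℝ) : ℂ)), hs, fun x => ?_⟩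
  rw [pd_sum s (g := fun k x => c k * Sh.ch k x) (fun k _ => (C1.ch k).const_mul (c k))]
  refine Finset.sum_congr rfl fun k _ => ?_
  rw [pd_const_mul _ (C1.ch k), pd_ch]
  ring
lemma pd_real {g : Tor d → ℝ} (hg : TP L Q (cx g)) (r : Fin d) :
    TP L Q (cx (Sh.pd L r g)) := by
  rw [← pd_cx hg.c1_real]
  exact hg.pd r
lemma add_real {g h : Tor d → ℝ} (hg : TP L Q (cx g)) (hh : TP L Q (cx h)) :
    TP L Q (cx fun x => g x + h x) := by
  convert hg.add hh using 1
  funext x
  simp [cx]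
lemma sub_real {g h : Tor d → ℝ} (hg : TP L Q (cx g)) (hh : TP L Q (cx h)) :
    TP L Q (cx fun x => g x - h x) := by
  convert hg.sub hh using 1
  funext x
  simp [cx]
lemma const_mul_real {g : Tor d → ℝ} (c : ℝ) (hg : TP L Q (cx g)) :
    TP L Q (cx fun x => c * g x) := by
  convert hg.const_mul (c : ℂ) using 1
  funext x
  simp [cx]
lemma mul_real {g h : Tor d → ℝ} (hg : TP L Q (cx g)) (hh : TP L Q' (cx h)) :
    TP L (Q + Q') (cx fun x => g x * h x) := by
  convert hg.mul hh using 1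
  funext x
  simp [cx]
lemma coef_eq_zero (hg : TP L Q g) {k : Fin d → ℤ} {r : Fin d} (hk : Q < |kap L * k r|) :
    coef g k = 0 := by
  obtain ⟨s, c, hs, e⟩ := hg
  rw [show g = fun x => ∑ k ∈ s, c k * Sh.ch k x from funext e, STb_coef_sum, if_neg]
  exact fun h => absurd (hs k h r) (not_le.2 hk)
/-- Representation by the coefficients on any set containing the band. -/
lemma repr (hg : TP L Q g) {s : Finset (Fin d → ℤ)}
    (hs : ∀ k : Fin d → ℤ, (∀ r, |kap L * k r| ≤ Q) → k ∈ s) (x : Tor d) :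
    g x = ∑ k ∈ s, coef g k * Sh.ch k x := by
  have hc : Continuous fun x => ∑ k ∈ s, coef g k * Sh.ch k x :=
    continuous_finsetSum s fun k _ => continuous_const.mul (continuous_ch k)
  refine congrFun (eq_of_coef hg.cont hc fun k => ?_) x
  rw [STb_coef_sum]
  split_ifs with h
  · rfl
  · by_contra h0
    refine h (hs k fun r => ?_)
    by_contra h1
    exact h0 (hg.coef_eq_zero (not_le.1 h1))
lemma of_coef (hL : 0 < L) (hg : Continuous g)
    (h0 : ∀ k : Fin d → ℤ, (∃ r, Q < |kap L * k r|) → coef g k = 0) : TP L Q g := by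
  obtain ⟨s, hs⟩ := exists_band (d := d) hL Q
  refine ⟨s, coef g, fun k hk => (hs k).1 hk, fun x => ?_⟩
  have hc : Continuous fun x => ∑ k ∈ s, coef g k * Sh.ch k x :=
    continuous_finsetSum s fun k _ => continuous_const.mul (continuous_ch k)
  refine congrFun (eq_of_coef hg hc fun k => ?_) x
  rw [STb_coef_sum]
  split_ifs with h
  · rfl
  · refine h0 k ?_
    by_contra h1
    refine h ((hs k).2 fun r => ?_)
    by_contra h2
    exact h1 ⟨r, not_le.1 h2⟩
/-- Bernstein's inequality in `L^2`. -/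
lemma pd_l2 (hg : TP L Q g) (r : Fin d) :
    ∫ x, ‖Sh.pd L r g x‖ ^ 2 ≤ Q ^ 2 * ∫ x, ‖g x‖ ^ 2 := by
  refine hasSum_le (fun k => ?_) (parseval_sq (hg.c1.cpd r))
    ((parseval_sq hg.cont).mul_left (Q ^ 2))
  rw [coef_pd hg.c1]
  by_cases h : Q < |kap L * k r|
  · simp [hg.coef_eq_zero h]
  · rw [norm_mul, norm_mul, Complex.norm_I, one_mul, Complex.norm_real, Real.norm_eq_abs, mul_pow]
    exact mul_le_mul_of_nonneg_right
      (pow_le_pow_left₀ (abs_nonneg _) (not_lt.1 h) 2) (by positivity)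
end TP

end Pool.Agent.Lib.MP_ae5e3b_mp.Sh
end

-- part Pool.Agent.Lib.MP_ae5e3b_mp.STc
section

open MeasureTheory Matrix Real
open scoped ComplexConjugate ComplexOrder

set_option linter.unusedSectionVars false

namespace Pool.Agent.Lib.MP_ae5e3b_mp.Sh

variable {d : ℕ} {L : ℝ}

section CS
lemma STc_cs {ι : Type} [Fintype ι] {p q : ι → Tor d → ℝ} (hp : ∀ a, Continuous (p a))
    (hq : ∀ a, Continuous (q a)) :
    |∑ a, ∫ x, p a x * q a x| ≤ √(∑ a, ∫ x, p a x ^ 2) * √(∑ a, ∫ x, q a x ^ 2) := by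
  have hA : 0 ≤ ∑ a, ∫ x, p a x ^ 2 :=
    Finset.sum_nonneg fun a _ => integral_nonneg fun x => sq_nonneg _
  rw [← Real.sqrt_mul hA]
  apply Real.abs_le_sqrt
  have h : ∀ t : ℝ, 0 ≤ (∑ a, ∫ x, p a x ^ 2) * (t * t) + (2 * ∑ a, ∫ x, p a x * q a x) * t +
      ∑ a, ∫ x, q a x ^ 2 := by
    intro t
    have h1 : ∀ a, ∫ x, (t * p a x + q a x) ^ 2 =
        (∫ x, p a x ^ 2) * (t * t) + (2 * ∫ x, p a x * q a x) * t + ∫ x, q a x ^ 2 := by
      intro a
      have i1 : Integrable fun x => p a x ^ 2 * (t * t) :=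
        (cont_int ((hp a).pow 2)).mul_const _
      have i2 : Integrable fun x => 2 * (p a x * q a x) * t :=
        ((cont_int ((hp a).mul (hq a))).const_mul _).mul_const _
      have i3 : Integrable fun x => q a x ^ 2 := cont_int ((hq a).pow 2)
      have i4 : Integrable fun x => p a x ^ 2 * (t * t) + 2 * (p a x * q a x) * t := i1.add i2
      rw [← integral_mul_const, ← integral_const_mul, ← integral_mul_const, ← integral_add i1 i2,
        ← integral_add i4 i3]
      congr 1
      funext x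
      ring
    have h2 : 0 ≤ ∑ a, ∫ x, (t * p a x + q a x) ^ 2 :=
      Finset.sum_nonneg fun a _ => integral_nonneg fun x => sq_nonneg _
    simp only [h1, Finset.sum_add_distrib, ← Finset.sum_mul, ← Finset.mul_sum] at h2
    exact h2
  have h3 := discrim_le_zero h
  unfold discrim at h3
  nlinarith

lemma cs_real {g h : Tor d → ℝ} (hg : Continuous g) (hh : Continuous h) :
    |∫ x, g x * h x| ≤ √(∫ x, g x ^ 2) * √(∫ x, h x ^ 2) := by
  simpa using STc_cs (ι := Unit) (p := fun _ => g) (q := fun _ => h) (fun _ => hg) fun _ => hh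
/-- Cauchy-Schwarz for finite families of functions. -/
lemma cs_fam {ι : Type} [Fintype ι] {g h : ι → Tor d → ℂ} (hg : ∀ a, Continuous (g a))
    (hh : ∀ a, Continuous (h a)) :
    ∑ a, ∫ x, ‖g a x‖ * ‖h a x‖ ≤ √(∑ a, ∫ x, ‖g a x‖ ^ 2) * √(∑ a, ∫ x, ‖h a x‖ ^ 2) :=
  (le_abs_self _).trans (STc_cs (p := fun a x => ‖g a x‖) (q := fun a x => ‖h a x‖)
    (fun a => (hg a).norm) fun a => (hh a).norm)
lemma abs_integral_le {g : Tor d → ℝ} {a : ℝ} (h : ∀ x, |g x| ≤ a) : |∫ x, g x| ≤ a := by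
  have h1 := norm_integral_le_of_norm_le_const (μ := (volume : Measure (Tor d))) (f := g) (C := a)
    (Filter.Eventually.of_forall h)
  simpa using h1
end CS

section Gr
variable {E : Type} [NormedAddCommGroup E] [NormedSpace ℝ E]

lemma STc_int {g : Tor d → E} (hg : C1 L g) (r : Fin d) :
    Integrable fun x => ‖pd L r g x‖ ^ 2 := cont_int ((hg.cpd r).norm.pow 2)

/-- Pointwise domination by a combination of two squared gradients. -/
lemma STc_dom {E₁ E₂ : Type} [NormedAddCommGroup E₁] [NormedSpace ℝ E₁] [NormedAddCommGroup E₂]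
    [NormedSpace ℝ E₂] {f : Tor d → E} {g : Tor d → E₁} {h : Tor d → E₂} (hg : C1 L g)
    (hh : C1 L h) {a b : ℝ}
    (H : ∀ r x, ‖pd L r f x‖ ^ 2 ≤ a * ‖pd L r g x‖ ^ 2 + b * ‖pd L r h x‖ ^ 2) :
    Gr L f ≤ a * Gr L g + b * Gr L h := by
  unfold Gr
  rw [Finset.mul_sum, Finset.mul_sum, ← Finset.sum_add_distrib]
  refine Finset.sum_le_sum fun r _ => ?_
  have i1 := (STc_int hg r).const_mul a
  have i2 := (STc_int hh r).const_mul b
  rw [← integral_const_mul, ← integral_const_mul, ← integral_add i1 i2]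
  exact integral_mono_of_nonneg (Filter.Eventually.of_forall fun x => sq_nonneg _) (i1.add i2)
    (Filter.Eventually.of_forall (H r))

lemma Gr_nonneg (g : Tor d → E) : 0 ≤ Gr L g :=
  Finset.sum_nonneg fun _ _ => integral_nonneg fun _ => sq_nonneg _
lemma Gr_const (c : E) : Gr L (fun _ : Tor d => c) = 0 := by
  simp [Gr, pd_const]
lemma Gr_single_le {g : Tor d → E} (r : Fin d) : ∫ x, ‖pd L r g x‖ ^ 2 ≤ Gr L g :=
  Finset.single_le_sum (f := fun r => ∫ x, ‖pd L r g x‖ ^ 2)
    (fun _ _ => integral_nonneg fun _ => sq_nonneg _) (Finset.mem_univ r)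
lemma Gr_add_le {g h : Tor d → E} (hg : C1 L g) (hh : C1 L h) :
    Gr L (fun x => g x + h x) ≤ 2 * Gr L g + 2 * Gr L h := by
  refine STc_dom hg hh fun r x => ?_
  rw [pd_add hg hh]
  have h1 := pow_le_pow_left₀ (norm_nonneg _) (norm_add_le (pd L r g x) (pd L r h x)) 2
  nlinarith [sq_nonneg (‖pd L r g x‖ - ‖pd L r h x‖)]
lemma Gr_sub_le {g h : Tor d → E} (hg : C1 L g) (hh : C1 L h) :
    Gr L (fun x => g x - h x) ≤ 2 * Gr L g + 2 * Gr L h := by
  refine STc_dom hg hh fun r x => ?_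
  rw [pd_sub hg hh]
  have h1 := pow_le_pow_left₀ (norm_nonneg _) (norm_sub_le (pd L r g x) (pd L r h x)) 2
  nlinarith [sq_nonneg (‖pd L r g x‖ - ‖pd L r h x‖)]
lemma sqrt_Gr_add_le {g h : Tor d → E} (hg : C1 L g) (hh : C1 L h) :
    √(Gr L fun x => g x + h x) ≤ √(Gr L g) + √(Gr L h) := by
  have h1 : Gr L (fun x => g x + h x) ≤
      Gr L g + 2 * (∑ r, ∫ x, ‖pd L r g x‖ * ‖pd L r h x‖) + Gr L h := by
    unfold Gr
    rw [Finset.mul_sum, ← Finset.sum_add_distrib, ← Finset.sum_add_distrib]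
    refine Finset.sum_le_sum fun r _ => ?_
    have i1 := STc_int hg r
    have i2 : Integrable fun x => 2 * (‖pd L r g x‖ * ‖pd L r h x‖) :=
      (cont_int ((hg.cpd r).norm.mul (hh.cpd r).norm)).const_mul 2
    have i3 := STc_int hh r
    have i4 : Integrable fun x => ‖pd L r g x‖ ^ 2 + 2 * (‖pd L r g x‖ * ‖pd L r h x‖) :=
      i1.add i2
    rw [← integral_const_mul, ← integral_add i1 i2, ← integral_add i4 i3]
    refine integral_mono_of_nonneg (Filter.Eventually.of_forall fun x => sq_nonneg _)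
      (i4.add i3) (Filter.Eventually.of_forall fun x => ?_)
    have h1 := pow_le_pow_left₀ (norm_nonneg _) (norm_add_le (pd L r g x) (pd L r h x)) 2
    simp only [pd_add hg hh]
    nlinarith
  have h2 : ∑ r, ∫ x, ‖pd L r g x‖ * ‖pd L r h x‖ ≤ √(Gr L g) * √(Gr L h) :=
    (le_abs_self _).trans (STc_cs (p := fun r x => ‖pd L r g x‖) (q := fun r x => ‖pd L r h x‖)
      (fun r => (hg.cpd r).norm) fun r => (hh.cpd r).norm)
  have h3 := Real.sq_sqrt (Gr_nonneg (L := L) g)
  have h4 := Real.sq_sqrt (Gr_nonneg (L := L) h)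
  refine Real.sqrt_le_iff.2 ⟨by positivity, ?_⟩
  nlinarith
lemma Gr_neg (g : Tor d → E) : Gr L (fun x => -g x) = Gr L g := by
  simp only [Gr, pd_neg, norm_neg]
lemma Gr_add_const {g : Tor d → E} (hg : C1 L g) (c : E) :
    Gr L (fun x => g x + c) = Gr L g := by
  simp only [Gr, pd_add hg (C1.const c), pd_const, add_zero]
lemma Gr_scale {k : ℝ} (hk : 0 < k) {g : Tor d → E} (hg : C1 L g) :
    Gr (k * L) g = Gr L g / k ^ 2 := by
  unfold Gr
  rw [Finset.sum_div]
  refine Finset.sum_congr rfl fun r _ => ?_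
  rw [← integral_div]
  congr 1
  funext x
  rw [pd_scale hk hg, norm_smul, Real.norm_eq_abs, mul_pow, sq_abs]
  field_simp
lemma Gr_const_mul {𝕜 : Type} [RCLike 𝕜] (c : 𝕜) {g : Tor d → 𝕜} (hg : C1 L g) :
    Gr L (fun x => c * g x) = ‖c‖ ^ 2 * Gr L g := by
  simp only [Gr, pd_const_mul c hg, norm_mul, mul_pow, integral_const_mul, Finset.mul_sum]
lemma Gr_mul_le {𝕜 : Type} [RCLike 𝕜] {g h : Tor d → 𝕜} (hg : C1 L g) (hh : C1 L h) {a b : ℝ}
    (ha : ∀ x, ‖g x‖ ≤ a) (hb : ∀ x, ‖h x‖ ≤ b) :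
    Gr L (fun x => g x * h x) ≤ 2 * a ^ 2 * Gr L h + 2 * b ^ 2 * Gr L g := by
  refine STc_dom hh hg fun r x => ?_
  rw [pd_mul hg hh]
  have h1 : ‖pd L r g x * h x + g x * pd L r h x‖ ≤ ‖pd L r g x‖ * b + a * ‖pd L r h x‖ := by
    refine (norm_add_le _ _).trans ?_
    rw [norm_mul, norm_mul]
    exact add_le_add (mul_le_mul_of_nonneg_left (hb x) (norm_nonneg _))
      (mul_le_mul_of_nonneg_right (ha x) (norm_nonneg _))
  have h2 := pow_le_pow_left₀ (norm_nonneg _) h1 2
  nlinarith [sq_nonneg (‖pd L r g x‖ * b - a * ‖pd L r h x‖)]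
lemma Gr_real (g : Tor d → ℝ) : Gr L g = ∑ r, ∫ x, pd L r g x ^ 2 := by
  simp only [Gr, Real.norm_eq_abs, sq_abs]
lemma Gr_cx {g : Tor d → ℝ} (hg : C1 L g) : Gr L (cx g) = Gr L g := by
  simp only [Gr, pd_cx hg, cx, Complex.norm_real]
/-- pointwise domination of the gradients -/
lemma Gr_le_of_pd {g h : Tor d → ℝ} (hg : C1 L g) (hh : C1 L h) {c : ℝ}
    (hc : ∀ r x, |pd L r g x| ≤ c * |pd L r h x|) : Gr L g ≤ c ^ 2 * Gr L h := by
  have h1 := STc_dom (f := g) (a := c ^ 2) (b := 0) hh hg fun r x => by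
    have h2 := pow_le_pow_left₀ (abs_nonneg _) (hc r x) 2
    simp only [Real.norm_eq_abs]
    nlinarith
  simpa using h1
lemma Gr_parseval {g : Tor d → ℂ} (hg : C1 L g) :
    HasSum (fun k : Fin d → ℤ => (∑ r, (kap L * k r) ^ 2) * ‖coef g k‖ ^ 2) (Gr L g) := by
  have h := hasSum_sum (s := Finset.univ) fun (r : Fin d) _ => parseval_sq (hg.cpd r)
  unfold Gr
  convert h using 1
  funext k
  rw [Finset.sum_mul]
  refine Finset.sum_congr rfl fun r _ => ?_
  rw [coef_pd hg, norm_mul, norm_mul, Complex.norm_I, one_mul, Complex.norm_real,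
    Real.norm_eq_abs, mul_pow |_|, sq_abs]
variable {g h k : Tor d → ℝ}
lemma STc_int2 (hg : C1 L g) (hh : C1 L h) (r : Fin d) :
    Integrable fun x => pd L r g x * pd L r h x := cont_int ((hg.cpd r).mul (hh.cpd r))
lemma GG_self (g : Tor d → ℝ) : GG L g g = Gr L g := by
  simp only [Gr_real, GG, sq]
lemma GG_comm (g h : Tor d → ℝ) : GG L g h = GG L h g := by
  simp only [GG, mul_comm]
lemma GG_add_left (hg : C1 L g) (hh : C1 L h) (hk : C1 L k) :
    GG L (fun x => g x + h x) k = GG L g k + GG L h k := by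
  simp only [GG, pd_add hg hh, add_mul, integral_add (STc_int2 hg hk _) (STc_int2 hh hk _),
    Finset.sum_add_distrib]
lemma GG_add_right (hg : C1 L g) (hh : C1 L h) (hk : C1 L k) :
    GG L k (fun x => g x + h x) = GG L k g + GG L k h := by
  rw [GG_comm, GG_add_left hg hh hk, GG_comm g, GG_comm h]
lemma GG_sub_left (hg : C1 L g) (hh : C1 L h) (hk : C1 L k) :
    GG L (fun x => g x - h x) k = GG L g k - GG L h k := by
  simp only [GG, pd_sub hg hh, sub_mul, integral_sub (STc_int2 hg hk _) (STc_int2 hh hk _),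
    Finset.sum_sub_distrib]
lemma GG_sub_right (hg : C1 L g) (hh : C1 L h) (hk : C1 L k) :
    GG L k (fun x => g x - h x) = GG L k g - GG L k h := by
  rw [GG_comm, GG_sub_left hg hh hk, GG_comm g, GG_comm h]
lemma GG_mul_left (c : ℝ) (hg : C1 L g) (h : Tor d → ℝ) :
    GG L (fun x => c * g x) h = c * GG L g h := by
  simp only [GG, pd_const_mul c hg, mul_assoc, integral_const_mul, Finset.mul_sum]
lemma GG_mul_right (c : ℝ) (g : Tor d → ℝ) (hh : C1 L h) :
    GG L g (fun x => c * h x) = c * GG L g h := by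
  rw [GG_comm, GG_mul_left c hh, GG_comm]
lemma abs_GG_le (hg : C1 L g) (hh : C1 L h) : |GG L g h| ≤ √(Gr L g) * √(Gr L h) := by
  rw [Gr_real, Gr_real]
  exact STc_cs hg.cpd hh.cpd
/-- weighted Cauchy-Schwarz -/
lemma abs_wGG_le (hg : C1 L g) (hh : C1 L h) {b : Tor d → ℝ} (hb : Continuous b) {a : ℝ}
    (ha : ∀ x, |b x| ≤ a) :
    ∑ r, |∫ x, b x * (pd L r g x * pd L r h x)| ≤ a * (√(Gr L g) * √(Gr L h)) := by
  have _hb := hb
  have ha0 : 0 ≤ a := (abs_nonneg _).trans (ha 0)
  have h2 : ∑ r, ∫ x, ‖pd L r g x‖ * ‖pd L r h x‖ ≤ √(Gr L g) * √(Gr L h) :=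
    (le_abs_self _).trans (STc_cs (p := fun r x => ‖pd L r g x‖) (q := fun r x => ‖pd L r h x‖)
      (fun r => (hg.cpd r).norm) fun r => (hh.cpd r).norm)
  refine le_trans ?_ (mul_le_mul_of_nonneg_left h2 ha0)
  rw [Finset.mul_sum]
  refine Finset.sum_le_sum fun r _ => ?_
  rw [← integral_const_mul, ← Real.norm_eq_abs]
  refine norm_integral_le_of_norm_le
    ((cont_int ((hg.cpd r).norm.mul (hh.cpd r).norm)).const_mul a)
    (Filter.Eventually.of_forall fun x => ?_)
  rw [norm_mul, norm_mul]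
  exact mul_le_mul_of_nonneg_right (ha x) (by positivity)
lemma Gr_lin (hg : C1 L g) (hh : C1 L h) (a b : ℝ) :
    Gr L (fun x => a * g x + b * h x) =
      a ^ 2 * Gr L g + 2 * a * b * GG L g h + b ^ 2 * Gr L h := by
  have h1 := hg.const_mul a
  have h2 := hh.const_mul b
  rw [← GG_self, GG_add_left h1 h2 (h1.add h2), GG_add_right h1 h2 h1, GG_add_right h1 h2 h2,
    GG_mul_left a hg, GG_mul_left a hg, GG_mul_left b hh, GG_mul_left b hh, GG_mul_right a g hg,
    GG_mul_right b g hh, GG_mul_right a h hg, GG_mul_right b h hh, GG_self, GG_self, GG_comm h g]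
  ring
lemma GG_parseval (hg : C1 L g) (hh : C1 L h) :
    HasSum (fun k : Fin d → ℤ => (∑ r, (kap L * k r) ^ 2) *
      (conj (coef (cx g) k) * coef (cx h) k).re) (GG L g h) := by
  have H := hasSum_sum (s := Finset.univ) fun (r : Fin d) _ =>
    parseval_real (hg.cpd r) (hh.cpd r)
  unfold GG
  convert H using 1
  funext k
  rw [Finset.sum_mul]
  refine Finset.sum_congr rfl fun r _ => ?_
  rw [← pd_cx hg, ← pd_cx hh, coef_pd hg.cx, coef_pd hh.cx]
  have e : conj (Complex.I * ((kap L * k r : ℝ) : ℂ) * coef (cx g) k) *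
      (Complex.I * ((kap L * k r : ℝ) : ℂ) * coef (cx h) k) =
      (((kap L * k r) ^ 2 : ℝ) : ℂ) * (conj (coef (cx g) k) * coef (cx h) k) := by
    simp only [map_mul, Complex.conj_I, Complex.conj_ofReal]
    push_cast
    linear_combination (-(((kap L : ℂ) * (k r : ℂ)) ^ 2 * (conj (coef (cx g) k) * coef (cx h) k))) *
      Complex.I_mul_I
  rw [e, Complex.re_ofReal_mul]
end Gr

end Pool.Agent.Lib.MP_ae5e3b_mp.Sh
end

-- part Pool.Agent.Lib.MP_ae5e3b_mp.SL0
section

open MeasureTheory Matrix Real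
open scoped ComplexConjugate ComplexOrder

set_option linter.unusedSectionVars false

namespace Pool.Agent.Lib.MP_ae5e3b_mp.Sh

variable {d : ℕ} {L : ℝ}

lemma SL0_omega_le (d : ℕ) : omega d ≤ 2 ^ d := by
  have h1 : volume (eball d 1) = volume (Metric.ball (0 : EuclideanSpace ℝ (Fin d)) 1) := by
    rw [eball_eq one_pos]
    exact (PiLp.volume_preserving_toLp (Fin d)).measure_preimage
      measurableSet_ball.nullMeasurableSet
  have h2 : eball d 1 ⊆ Set.pi Set.univ fun _ : Fin d => Set.Icc (-1 : ℝ) 1 := by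
    intro x hx r _
    have h : x r ^ 2 ≤ ∑ r, x r ^ 2 :=
      Finset.single_le_sum (f := fun r => x r ^ 2) (fun _ _ => sq_nonneg _) (Finset.mem_univ r)
    have h' : |x r| < 1 := abs_lt_of_sq_lt_sq (h.trans_lt hx) zero_le_one
    exact ⟨(abs_lt.1 h').1.le, (abs_lt.1 h').2.le⟩
  have h3 : volume (Set.pi Set.univ fun _ : Fin d => Set.Icc (-1 : ℝ) 1) =
      ENNReal.ofReal (2 ^ d) := by
    rw [volume_pi_pi]
    simp only [Real.volume_Icc, Finset.prod_const, Finset.card_univ, Fintype.card_fin]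
    rw [ENNReal.ofReal_pow (by norm_num)]
    norm_num
  have h4 := measure_mono (μ := (volume : Measure (Fin d → ℝ))) h2
  rw [h1, h3] at h4
  unfold omega
  exact ENNReal.toReal_le_of_le_ofReal (by positivity) h4

lemma SL0_sig0_le (d : ℕ) : sig0 d ≤ (1 / π) ^ d := by
  unfold sig0
  rw [div_le_iff₀ (by positivity), ← mul_pow]
  have : 1 / π * (2 * π) = 2 := by field_simp
  rw [this]
  exact SL0_omega_le d

lemma sig0_pos (d : ℕ) : 0 < sig0 d := by
  unfold sig0
  have := omega_pos d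
  positivity

lemma sig0_le (d : ℕ) : sig0 d ≤ 1 := by
  refine (SL0_sig0_le d).trans (pow_le_one₀ (by positivity) ?_)
  rw [div_le_one pi_pos]
  linarith [pi_gt_three]

lemma SL0_card : (Fintype.card (Ix d L) : ℝ) = (2 * (Rad L : ℝ) + 1) ^ d := by
  simp [Ix]

lemma SL0_rad_ge (hL : Big L) : 15 ≤ kap L * Rad L := by
  have hk := kap_pos hL.pos
  have h : 15 / kap L ≤ Rad L := Nat.le_ceil _
  rw [div_le_iff₀ hk] at h
  linarith

lemma SL0_rad_le (hL : Big L) : kap L * Rad L ≤ 15 + kap L := by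
  have hk := kap_pos hL.pos
  have h : (Rad L : ℝ) < 15 / kap L + 1 := Nat.ceil_lt_add_one (by positivity)
  have h2 : kap L * (15 / kap L + 1) = 15 + kap L := by field_simp
  rw [← h2]
  exact mul_le_mul_of_nonneg_left h.le hk.le

lemma card_le (hL : Big L) : (Fintype.card (Ix d L) : ℝ) ≤ 6 ^ d * L ^ d := by
  rw [SL0_card, ← mul_pow]
  refine pow_le_pow_left₀ (by positivity) ?_ d
  have h1 := SL0_rad_le hL
  have h2 := hL.kap_le
  have hp := hL.pos
  have h3 : kap L * L = 2 * π := by unfold kap; field_simp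
  have hk := kap_pos hp
  have h4 : kap L * (2 * (Rad L : ℝ) + 1) ≤ kap L * (6 * L) := by
    nlinarith [pi_gt_three]
  exact le_of_mul_le_mul_left h4 hk

lemma sqrt_card_le (hL : Big L) : √(Fintype.card (Ix d L) : ℝ) ≤ 3 ^ d * √(L ^ d) := by
  have hp := hL.pos
  have h1 : (6 : ℝ) ^ d ≤ (3 ^ d) ^ 2 := by
    rw [← pow_mul, mul_comm, pow_mul]
    exact pow_le_pow_left₀ (by norm_num) (by norm_num) d
  rw [Real.sqrt_le_iff]
  refine ⟨by positivity, ?_⟩
  rw [mul_pow, Real.sq_sqrt (by positivity)]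
  exact (card_le hL).trans (mul_le_mul_of_nonneg_right h1 (by positivity))

lemma le_card (hd : 0 < d) (hL : Big L) : 2 * sig0 d * L ^ d ≤ Fintype.card (Ix d L) := by
  have hp := hL.pos
  have hk := kap_pos hp
  have h3 : kap L * L = 2 * π := by unfold kap; field_simp
  have h1 := SL0_rad_ge hL
  have h4 : 2 * (1 / π * L) ≤ 2 * (Rad L : ℝ) + 1 := by
    have h5 : kap L * (2 * (1 / π * L)) = 4 := by
      have : kap L * (2 * (1 / π * L)) = 2 * (kap L * L) / π := by ring
      rw [this, h3]; field_simp; norm_num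
    have h6 : kap L * (2 * (1 / π * L)) ≤ kap L * (2 * (Rad L : ℝ) + 1) := by
      rw [h5]; nlinarith
    exact le_of_mul_le_mul_left h6 hk
  have h7 : (2 : ℝ) ≤ 2 ^ d := le_self_pow₀ (by norm_num) hd.ne'
  calc 2 * sig0 d * L ^ d ≤ 2 ^ d * (1 / π) ^ d * L ^ d := by
        have := SL0_sig0_le d
        have := sig0_pos d
        gcongr
    _ = (2 * (1 / π * L)) ^ d := by rw [mul_pow, mul_pow, mul_assoc]
    _ ≤ _ := by
        rw [SL0_card]
        exact pow_le_pow_left₀ (by positivity) h4 d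

lemma SL0_abs_nu (i : Ix d L) (r : Fin d) : |((nu i r : ℤ) : ℝ)| ≤ Rad L := by
  have h : (i r : ℕ) < 2 * Rad L + 1 := (i r).2
  have h' : |nu i r| ≤ (Rad L : ℤ) := by
    unfold nu
    rw [abs_le]
    constructor <;> omega
  exact_mod_cast h'

lemma abs_mom_le (hL : Big L) (i : Ix d L) (r : Fin d) : |mom i r| ≤ 16 := by
  have hk := kap_pos hL.pos
  have h1 := SL0_rad_le hL
  have h2 := hL.kap_le
  unfold mom
  rw [abs_mul, abs_of_pos hk]
  have := mul_le_mul_of_nonneg_left (SL0_abs_nu i r) hk.le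
  linarith

lemma norm_mom_le (hL : Big L) (i : Ix d L) : ‖mom i‖ ≤ 16 := by
  rw [pi_norm_le_iff_of_nonneg (by norm_num)]
  exact fun r => abs_mom_le hL i r

lemma nu_inj : Function.Injective (nu : Ix d L → Fin d → ℤ) := by
  intro i j h
  funext r
  have := congrFun h r
  unfold nu at this
  apply Fin.ext
  omega

lemma exists_ix (hL : Big L) {k : Fin d → ℤ} (hk : ∀ r, |kap L * k r| ≤ 15) :
    ∃ i : Ix d L, nu i = k := by
  have hκ := kap_pos hL.pos
  have h1 : ∀ r, |k r| ≤ (Rad L : ℤ) := by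
    intro r
    have h := hk r
    rw [abs_mul, abs_of_pos hκ] at h
    have h2 : |(k r : ℝ)| ≤ Rad L := le_of_mul_le_mul_left (h.trans (SL0_rad_ge hL)) hκ
    exact_mod_cast h2
  refine ⟨fun r => ⟨(k r + Rad L).toNat, ?_⟩, ?_⟩
  · have := abs_le.1 (h1 r)
    omega
  · funext r
    have := abs_le.1 (h1 r)
    simp only [nu]
    omega

lemma mom_sub (i j : Ix d L) (r : Fin d) :
    mom i r - mom j r = kap L * ((nu i - nu j) r : ℤ) := by
  simp only [mom, Pi.sub_apply, Int.cast_sub]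
  ring

lemma Pm_herm (r : Fin d) : (Pm L r)ᴴ = Pm L r := dg_conjT _

lemma Pm_opB (hL : Big L) (r : Fin d) : OpB (Pm L r) 16 :=
  opB_dg (by norm_num) fun i => abs_mom_le hL i r

section Fn
variable {y z : Ix d L → ℂ}

lemma SL0_fn_eq (y : Ix d L → ℂ) : fn y = fun x => ∑ i, y i * ch (nu i) x := rfl

lemma fn_add (y z : Ix d L → ℂ) (x : Tor d) : fn (y + z) x = fn y x + fn z x := by
  simp only [fn, Pi.add_apply, add_mul, Finset.sum_add_distrib]

lemma fn_sub (y z : Ix d L → ℂ) (x : Tor d) : fn (y - z) x = fn y x - fn z x := by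
  simp only [fn, Pi.sub_apply, sub_mul, Finset.sum_sub_distrib]

lemma fn_smul (c : ℂ) (y : Ix d L → ℂ) (x : Tor d) : fn (c • y) x = c * fn y x := by
  simp only [fn, Pi.smul_apply, smul_eq_mul, Finset.mul_sum, mul_assoc]

lemma fn_single (i : Ix d L) (x : Tor d) : fn (Pi.single i (1 : ℂ)) x = ch (nu i) x := by
  unfold fn
  rw [Finset.sum_eq_single i]
  · simp
  · intro j _ hj
    simp [Pi.single_eq_of_ne hj]
  · simp

lemma fn_TP {t : ℝ} (h : ∀ i, y i ≠ 0 → ‖mom i‖ ≤ t) : TP L t (fn y) := by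
  rw [SL0_fn_eq]
  refine TP.sum (g := fun i x => y i * ch (nu i) x) _ fun i _ => ?_
  by_cases hi : y i = 0
  · simp only [hi, zero_mul]
    exact TP.zero
  · refine TP.const_mul _ (TP.ch fun r => ?_)
    exact (norm_le_pi_norm (mom i) r).trans (h i hi)

lemma fn_C1 (y : Ix d L → ℂ) : C1 L (fn y) := by
  rw [SL0_fn_eq]
  exact C1.sum (g := fun i x => y i * ch (nu i) x) _ fun i _ => C1.const_mul _ (C1.ch _)

lemma fn_cont (y : Ix d L → ℂ) : Continuous (fn y) := (fn_C1 y).cont

lemma pd_fn (y : Ix d L → ℂ) (r : Fin d) : pd L r (fn y) = fn (Complex.I • (Pm L r *ᵥ y)) := by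
  funext x
  rw [SL0_fn_eq y, pd_sum (g := fun i x => y i * ch (nu i) x) _
    (fun i _ => C1.const_mul _ (C1.ch _))]
  unfold fn
  refine Finset.sum_congr rfl fun i _ => ?_
  rw [pd_const_mul _ (C1.ch _), pd_ch]
  simp only [Pi.smul_apply, smul_eq_mul, Pm, dg_mulVec, mom]
  ring

lemma coef_fn (y : Ix d L → ℂ) (i : Ix d L) : coef (fn y) (nu i) = y i := by
  rw [SL0_fn_eq, coef_sum (g := fun i x => y i * ch (nu i) x) _
    (fun j _ => continuous_const.mul (continuous_ch _))]
  rw [Finset.sum_eq_single i]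
  · rw [coef_const_mul, coef_ch, if_pos rfl, mul_one]
  · intro j _ hj
    rw [coef_const_mul, coef_ch, if_neg (fun e => hj (nu_inj e).symm), mul_zero]
  · simp

/-- pairing of a band limited function with any function -/
lemma fn_pair (y : Ix d L → ℂ) {g : Tor d → ℂ} (hg : Continuous g) :
    ∫ x, conj (fn y x) * g x = star y ⬝ᵥ fun i => coef g (nu i) := by
  have h : ∀ x, conj (fn y x) * g x = ∑ i, conj (y i) * (conj (ch (nu i) x) * g x) := by
    intro x
    simp only [fn, map_sum, map_mul, Finset.sum_mul, mul_assoc]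
  simp only [h]
  rw [integral_finsetSum]
  · unfold dotProduct coef
    refine Finset.sum_congr rfl fun i _ => ?_
    rw [integral_const_mul]
    rfl
  · intro i _
    exact cont_int (continuous_const.mul
      ((Complex.continuous_conj.comp (continuous_ch _)).mul hg))

lemma fn_inner (y z : Ix d L → ℂ) : ∫ x, conj (fn y x) * fn z x = star y ⬝ᵥ z := by
  rw [fn_pair y (fn_cont z)]
  congr 1
  funext i
  exact coef_fn z i

lemma fn_l2 (y : Ix d L → ℂ) : ∫ x, ‖fn y x‖ ^ 2 = vn y ^ 2 := by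
  have h := fn_inner y y
  rw [dot_self] at h
  have h2 : ∀ x, conj (fn y x) * fn y x = ((‖fn y x‖ ^ 2 : ℝ) : ℂ) := by
    intro x
    rw [Complex.conj_mul']
    push_cast
    rfl
  simp only [h2] at h
  rw [integral_complex_ofReal] at h
  exact_mod_cast h

lemma norm_fn_le (y : Ix d L → ℂ) (x : Tor d) :
    ‖fn y x‖ ≤ √(Fintype.card (Ix d L) : ℝ) * vn y := by
  have h1 : fn y x = star (fun i : Ix d L => conj (ch (nu i) x)) ⬝ᵥ y := by
    unfold fn dotProduct
    refine Finset.sum_congr rfl fun i _ => ?_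
    simp [mul_comm]
  have h2 : vn (fun i : Ix d L => conj (ch (nu i) x)) = √(Fintype.card (Ix d L) : ℝ) := by
    unfold vn
    simp only [Complex.norm_conj, norm_ch, one_pow, Finset.sum_const, Finset.card_univ,
      nsmul_eq_mul, mul_one]
  rw [h1, ← h2]
  exact dot_le _ _

lemma TP.eq_fn (hL : Big L) {g : Tor d → ℂ} (hg : TP L 15 g) :
    g = fn fun i : Ix d L => coef g (nu i) := by
  classical
  funext x
  rw [hg.repr (s := Finset.univ.image (nu : Ix d L → Fin d → ℤ)) (fun k hk => by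
    obtain ⟨i, hi⟩ := exists_ix hL hk
    exact Finset.mem_image.2 ⟨i, Finset.mem_univ _, hi⟩) x]
  rw [Finset.sum_image fun i _ j _ e => nu_inj e]
  rfl
end Fn

end Pool.Agent.Lib.MP_ae5e3b_mp.Sh
end

-- part Pool.Agent.Lib.MP_ae5e3b_mp.SCa
section

open MeasureTheory Matrix Real
open scoped ComplexConjugate ComplexOrder

set_option linter.unusedSectionVars false

namespace Pool.Agent.Lib.MP_ae5e3b_mp.Sh

variable {d : ℕ}

lemma FOK.cont {f : ℝ → ℝ} {l : ℝ} (hf : FOK f l) : Continuous f :=   (LipschitzWith.of_dist_le' (K := l) fun s t => hf.lip s t).continuous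
lemma fok_zero : FOK (fun _ => 0) 1 :=   ⟨antitone_const, fun _ => le_rfl, fun _ => zero_le_one, fun _ _ => rfl, le_rfl, fun _ _ => by simp⟩
namespace XF
variable {f g g' : ℝ → ℝ} {M M' : ℝ}
lemma nonneg (h : XF f M g g') : 0 ≤ M := (abs_nonneg _).trans (h.bd 0)
lemma mono (h : XF f M g g') (hM : M ≤ M') : XF f M' g g' :=   ⟨h.der, h.zero, h.aff, fun t => (h.bd t).trans hM, fun s t =>
    (h.osc s t).trans (mul_le_mul_of_nonneg_right hM (by positivity))⟩
lemma cont' (h : XF f M g g') (hf : Continuous f) : Continuous g' := by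
  refine continuous_iff_continuousAt.2 fun t => tendsto_iff_norm_sub_tendsto_zero.2
    (squeeze_zero (fun _ => norm_nonneg _) (fun s => h.osc s t) ?_)
  have : Continuous fun s => M * (|s - t| + |f s - f t|) := by fun_prop
  simpa using this.tendsto t
lemma lip (h : XF f M g g') (s t : ℝ) : |g s - g t| ≤ M * |s - t| :=   convex_univ.norm_image_sub_le_of_norm_hasDerivWithin_le (fun x _ => (h.der x).hasDerivWithinAt)
    (fun x _ => h.bd x) (Set.mem_univ t) (Set.mem_univ s)
lemma abs_le (h : XF f M g g') {t : ℝ} (ht : -2 ≤ t) : |g t| ≤ 3 * M := by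
  have h0 := h.nonneg
  rcases le_total (1 / 2) t with h1 | h1
  · rw [h.zero t h1, abs_zero]; positivity
  · have := h.lip t (1 / 2)
    rw [h.zero _ le_rfl, sub_zero, abs_of_nonpos (sub_nonpos.2 h1)] at this
    nlinarith
end XF
lemma SCa_int {g : ℝ → ℝ} (hg : Continuous g) (v : ℝ) :
    IntervalIntegrable (fun t => g (t ^ 2 - 1 + v) * t ^ (d - 1)) volume 0 2 :=
  Continuous.intervalIntegrable (by fun_prop) _ _
lemma Cl_add {g h : ℝ → ℝ} (hg : Continuous g) (hh : Continuous h) (v : ℝ) :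
    Cl d (fun t => g t + h t) v = Cl d g v + Cl d h v := by
  simp only [Cl, add_mul]
  rw [intervalIntegral.integral_add (SCa_int hg v) (SCa_int hh v), mul_add]
lemma Cl_const_mul (c : ℝ) (g : ℝ → ℝ) (v : ℝ) : Cl d (fun t => c * g t) v = c * Cl d g v := by
  simp only [Cl, mul_assoc c]
  rw [intervalIntegral.integral_const_mul, mul_left_comm]
lemma Cl_cont {g : ℝ → ℝ} (hg : Continuous g) : Continuous (Cl d g) :=   continuous_const.mul (intervalIntegral.continuous_parametric_intervalIntegral_of_continuous'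
    (f := fun v t => g (t ^ 2 - 1 + v) * t ^ (d - 1)) (by unfold Function.uncurry; fun_prop) 0 2)
lemma Cl_deriv {g g' : ℝ → ℝ} (hg : ∀ t, HasDerivAt g (g' t) t) (hc : Continuous g') (v : ℝ) :
    HasDerivAt (Cl d g) (Cl d g' v) v := by
  have c : Continuous g := continuous_iff_continuousAt.2 fun t => (hg t).continuousAt
  obtain ⟨C, hC⟩ := ((isCompact_closedBall v 1).prod (isCompact_uIcc (a := (0 : ℝ)) (b := 2))).exists_bound_of_continuousOn
    (f := fun p : ℝ × ℝ => g' (p.2 ^ 2 - 1 + p.1) * p.2 ^ (d - 1)) (by fun_prop)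
  refine (intervalIntegral.hasDerivAt_integral_of_dominated_loc_of_deriv_le (μ := volume)
    (F := fun v t => g (t ^ 2 - 1 + v) * t ^ (d - 1)) (F' := fun v t => g' (t ^ 2 - 1 + v) * t ^ (d - 1))
    (bound := fun _ => C) (Metric.closedBall_mem_nhds v one_pos)
    (Filter.Eventually.of_forall fun x => Continuous.aestronglyMeasurable (by fun_prop)) (SCa_int c v)
    (Continuous.aestronglyMeasurable (by fun_prop))
    (ae_of_all _ fun t ht x hx => hC (x, t) ⟨hx, Set.uIoc_subset_uIcc ht⟩) intervalIntegrable_const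
    (ae_of_all _ fun t _ x _ => ?_)).2.const_mul _
  exact ((hg _).comp_const_add _ x).mul_const _
lemma abs_Cl_le {g : ℝ → ℝ} {M v : ℝ} (hv : |v| ≤ 1) (hM : ∀ t, -2 ≤ t → |g t| ≤ M) :
    |Cl d g v| ≤ 2 ^ d * M := by
  have h0 : 0 ≤ M := (abs_nonneg _).trans (hM 0 (by norm_num))
  rcases Nat.eq_zero_or_pos d with rfl | hd
  · simpa [Cl] using h0
  obtain ⟨k, rfl⟩ : ∃ k, d = k + 1 := ⟨d - 1, by omega⟩
  have h1 := intervalIntegral.norm_integral_le_of_norm_le (μ := volume) (a := 0) (b := 2)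
    (f := fun t => g (t ^ 2 - 1 + v) * t ^ k) (g := fun t => M * t ^ k) zero_le_two
    (ae_of_all _ fun t ht => by
      rw [norm_mul, Real.norm_of_nonneg (pow_nonneg ht.1.le k)]
      exact mul_le_mul_of_nonneg_right (hM _ (by linarith [sq_nonneg t, (_root_.abs_le.1 hv).1]))
        (pow_nonneg ht.1.le k)) (Continuous.intervalIntegrable (by fun_prop) _ _)
  rw [intervalIntegral.integral_const_mul, integral_pow, zero_pow k.succ_ne_zero, sub_zero] at h1
  have h2 := sig0_pos (k + 1)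
  rw [Cl, abs_mul, Nat.add_sub_cancel, abs_of_nonneg (by positivity)]
  calc _ ≤ ((k + 1 : ℕ) : ℝ) * 1 * (M * (2 ^ (k + 1) / (k + 1))) := by gcongr; exacts [sig0_le _, h1]
    _ = _ := by push_cast; field_simp
lemma abs_Cl_le' {g : ℝ → ℝ} {M : ℝ} (hM : ∀ t, |g t| ≤ M) (v : ℝ) : |Cl d g v| ≤ 2 ^ d * M := by
  simpa [Cl] using abs_Cl_le (d := d) (g := fun t => g (t + v)) (v := 0) (by simp) fun t _ => hM _
lemma Cl_taylor {g g' : ℝ → ℝ} {M : ℝ} (hg : ∀ t, HasDerivAt g (g' t) t)
    (hl : ∀ s t, |g' s - g' t| ≤ M * |s - t|) (v w : ℝ) :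
    |Cl d g w - Cl d g v - (w - v) * Cl d g' v| ≤ 2 ^ d * M * (w - v) ^ 2 := by
  have c : Continuous g := continuous_iff_continuousAt.2 fun t => (hg t).continuousAt
  have c' : Continuous g' := (LipschitzWith.of_dist_le' (K := M) hl).continuous
  have h0 : 0 ≤ M := by simpa using (abs_nonneg _).trans (hl 1 0)
  have e : Cl d g w - Cl d g v - (w - v) * Cl d g' v =
      Cl d (fun s => g (s + (w - v)) + (-1 * g s + -(w - v) * g' s)) v := by
    rw [Cl_add (by fun_prop) (by fun_prop), Cl_add (by fun_prop) (by fun_prop), Cl_const_mul,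
      Cl_const_mul]
    simp only [Cl, add_assoc, add_sub_cancel]
    ring
  rw [e, mul_assoc]
  refine abs_Cl_le' (fun s => ?_) v
  have := (convex_closedBall s |w - v|).norm_image_sub_le_of_norm_hasDerivWithin_le
    (f := fun x => g x - x * g' s) (C := M * |w - v|)
    (fun x _ => ((hg x).sub (hasDerivAt_mul_const (g' s))).hasDerivWithinAt)
    (fun x hx => (hl x s).trans (mul_le_mul_of_nonneg_left hx h0))
    (Metric.mem_closedBall_self (abs_nonneg _)) (y := s + (w - v)) (Metric.mem_closedBall.2 (by simp))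
  rw [add_sub_cancel_left, Real.norm_eq_abs, Real.norm_eq_abs, mul_assoc, abs_mul_abs_self, ← sq] at this
  convert this using 2
  ring
/-- The classical counterpart of the momentum shift identity. -/
lemma Cl_ode (hd : 0 < d) {Φ g : ℝ → ℝ} (hΦ : ∀ t, HasDerivAt Φ (g t) t) (hg : Continuous g)
    (h0 : ∀ t, 1 / 2 ≤ t → Φ t = 0) {v : ℝ} (hv : |v| ≤ 1) :
    d * Cl d Φ v + 2 * Cl d (fun t => (t + 1) * g t) v - 2 * v * Cl d g v = 0 := by
  have c : Continuous Φ := continuous_iff_continuousAt.2 fun t => (hΦ t).continuousAt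
  obtain ⟨k, rfl⟩ : ∃ k, d = k + 1 := ⟨d - 1, by omega⟩
  rw [sub_eq_add_neg, ← neg_mul, ← Cl_const_mul, ← Cl_const_mul, ← Cl_const_mul,
    ← Cl_add (by fun_prop) (by fun_prop), ← Cl_add (by fun_prop) (by fun_prop), Cl,
    intervalIntegral.integral_eq_sub_of_hasDerivAt (f := fun t => Φ (t ^ 2 - 1 + v) * t ^ (k + 1))
      (fun t _ => (((hΦ _).comp t (((hasDerivAt_pow 2 t).sub_const 1).add_const v)).mul
        (hasDerivAt_pow (k + 1) t)).congr_deriv ?_) (Continuous.intervalIntegrable (by fun_prop) _ _),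
    h0 _ (by linarith [(_root_.abs_le.1 hv).1])]
  · simp
  · simp only [Nat.add_sub_cancel, Function.comp_apply]; push_cast; ring

end Pool.Agent.Lib.MP_ae5e3b_mp.Sh
end
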