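import Pool.Agent.Lib.MP_ae5e3b_mp.SCa

-- part Pool.Agent.Lib.MP_ae5e3b_mp.SJ0
section

open MeasureTheory Matrix Real
open scoped ComplexConjugate ComplexOrder

set_option linter.unusedSectionVars false

namespace Pool.Agent.Lib.MP_ae5e3b_mp.Sh

variable {d : ℕ} {L q : ℝ} {g h : Tor d → ℝ}

lemma SJ0_nonneg (M : ℕ) (j : ℤ) : 0 ≤ tent M j := le_max_left _ _
lemma SJ0_neg (M : ℕ) (j : ℤ) : tent M (-j) = tent M j := by simp [tent]
lemma SJ0_zero {M : ℕ} {j : ℤ} (hj : (M : ℤ) ≤ |j|) : tent M j = 0 := by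
  have : (M : ℝ) ≤ |(j : ℝ)| := by exact_mod_cast hj
  exact max_eq_left (by linarith)
lemma SJ0_in {M : ℕ} {j : ℤ} (hj : j ∈ Finset.Icc (-(M : ℤ)) M) : tent M j = M - |(j : ℝ)| := by
  have h1 : |j| ≤ (M : ℤ) := abs_le.2 (Finset.mem_Icc.1 hj)
  have : |(j : ℝ)| ≤ (M : ℝ) := by exact_mod_cast h1
  exact max_eq_right (by linarith)

lemma SJ0_sum_le {M : ℕ} {F : ℤ → ℝ} (h0 : ∀ j, 0 ≤ F j) (h1 : ∀ j, (M : ℤ) ≤ |j| → F j = 0)
    (s : Finset ℤ) : ∑ j ∈ s, F j ≤ ∑ j ∈ Finset.Icc (-(M : ℤ)) M, F j := by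
  calc _ ≤ ∑ j ∈ s ∪ Finset.Icc (-(M : ℤ)) M, F j :=
        Finset.sum_le_sum_of_subset_of_nonneg Finset.subset_union_left fun j _ _ => h0 j
    _ = _ := by
      refine (Finset.sum_subset Finset.subset_union_right fun j _ hj => h1 j ?_).symm
      by_contra hc
      exact hj (Finset.mem_Icc.2 (abs_le.1 (not_le.1 hc).le))

lemma SJ0_succ (N : ℕ) (F : ℤ → ℝ) :
    ∑ j ∈ Finset.Icc (-((N + 1 : ℕ) : ℤ)) ((N + 1 : ℕ) : ℤ), F j =
      F (-((N : ℤ) + 1)) + (F ((N : ℤ) + 1) + ∑ j ∈ Finset.Icc (-(N : ℤ)) N, F j) := by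
  have : Finset.Icc (-((N + 1 : ℕ) : ℤ)) ((N + 1 : ℕ) : ℤ) =
      insert (-((N : ℤ) + 1)) (insert ((N : ℤ) + 1) (Finset.Icc (-(N : ℤ)) N)) := by
    ext j
    simp only [Finset.mem_Icc, Finset.mem_insert]
    omega
  rw [this, Finset.sum_insert, Finset.sum_insert]
  · simp only [Finset.mem_Icc]
    omega
  · simp only [Finset.mem_Icc, Finset.mem_insert]
    omega

lemma SJ0_sum1 (c : ℝ) (N : ℕ) : ∑ j ∈ Finset.Icc (-(N : ℤ)) N, (c - |(j : ℝ)|) =
    (2 * N + 1) * c - N * (N + 1) := by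
  induction N with
  | zero => simp
  | succ N ih =>
    have : |(N : ℝ) + 1| = N + 1 := abs_of_nonneg (by positivity)
    rw [SJ0_succ, ih]
    push_cast
    rw [abs_neg, this]
    ring

lemma SJ0_sum2 (c : ℝ) (N : ℕ) : ∑ j ∈ Finset.Icc (-(N : ℤ)) N, (c - |(j : ℝ)|) ^ 2 =
    (2 * N + 1) * c ^ 2 - 2 * c * (N * (N + 1)) + N * (N + 1) * (2 * N + 1) / 3 := by
  induction N with
  | zero => simp
  | succ N ih =>
    have : |(N : ℝ) + 1| = N + 1 := abs_of_nonneg (by positivity)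
    rw [SJ0_succ, ih]
    push_cast
    rw [abs_neg, this]
    ring

lemma SJ0_tent_sum (M : ℕ) : ∑ j ∈ Finset.Icc (-(M : ℤ)) M, tent M j = (M : ℝ) ^ 2 := by
  rw [Finset.sum_congr rfl fun j hj => SJ0_in hj, SJ0_sum1]
  ring

lemma SJ0_tent_sq (M : ℕ) :
    ∑ j ∈ Finset.Icc (-(M : ℤ)) M, tent M j ^ 2 = (2 * (M : ℝ) ^ 3 + M) / 3 := by
  rw [Finset.sum_congr rfl fun j hj => by rw [SJ0_in hj], SJ0_sum2]
  ring

lemma SJ0_pos {M : ℕ} (hM : 0 < M) : 0 < ∑ j ∈ Finset.Icc (-(M : ℤ)) M, tent M j ^ 2 := by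
  have : (0 : ℝ) < M := Nat.cast_pos.2 hM
  rw [SJ0_tent_sq]
  positivity

lemma SJ0_corr_neg (M : ℕ) (k : ℤ) :
    ∑ j ∈ Finset.Icc (-(M : ℤ)) M, tent M j * tent M (j - -k) =
      ∑ j ∈ Finset.Icc (-(M : ℤ)) M, tent M j * tent M (j - k) := by
  refine Finset.sum_nbij' (fun j => -j) (fun j => -j) ?_ ?_ ?_ ?_ ?_
  · intro j hj
    simp only [Finset.mem_Icc] at hj ⊢
    omega
  · intro j hj
    simp only [Finset.mem_Icc] at hj ⊢
    omega
  · intro j _
    exact neg_neg j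
  · intro j _
    exact neg_neg j
  · intro j _
    rw [SJ0_neg, ← SJ0_neg M (j - -k)]
    congr 2
    ring

lemma mult1_nonneg (M : ℕ) (k : ℤ) : 0 ≤ mult1 M k :=
  div_nonneg (Finset.sum_nonneg fun _ _ => mul_nonneg (SJ0_nonneg _ _) (SJ0_nonneg _ _))
    (Finset.sum_nonneg fun _ _ => sq_nonneg _)
lemma mult1_le_one {M : ℕ} (hM : 0 < M) (k : ℤ) : mult1 M k ≤ 1 := by
  refine (div_le_one (SJ0_pos hM)).2 ?_
  have h1 : ∑ j ∈ Finset.Icc (-(M : ℤ)) M, tent M (j - k) ^ 2 ≤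
      ∑ j ∈ Finset.Icc (-(M : ℤ)) M, tent M j ^ 2 := by
    have := SJ0_sum_le (M := M) (F := fun j => tent M j ^ 2) (fun _ => sq_nonneg _)
      (fun j hj => by simp [SJ0_zero hj])
      ((Finset.Icc (-(M : ℤ)) M).map (Equiv.subRight k).toEmbedding)
    rwa [Finset.sum_map] at this
  have h2 : ∑ j ∈ Finset.Icc (-(M : ℤ)) M, 2 * (tent M j * tent M (j - k)) ≤
      ∑ j ∈ Finset.Icc (-(M : ℤ)) M, (tent M j ^ 2 + tent M (j - k) ^ 2) :=
    Finset.sum_le_sum fun j _ => by nlinarith [sq_nonneg (tent M j - tent M (j - k))]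
  rw [← Finset.mul_sum, Finset.sum_add_distrib] at h2
  linarith
lemma mult1_neg (M : ℕ) (k : ℤ) : mult1 M (-k) = mult1 M k := by
  rw [mult1, SJ0_corr_neg, mult1]
lemma mult1_zero {M : ℕ} (hM : 0 < M) : mult1 M 0 = 1 := by
  have := (SJ0_pos hM).ne'
  simp only [mult1, sub_zero, ← sq]
  exact div_self this
lemma mult1_eq_zero {M : ℕ} {k : ℤ} (hk : 2 * (M : ℤ) ≤ |k|) : mult1 M k = 0 := by
  rw [mult1, Finset.sum_eq_zero, zero_div]
  intro j _
  rcases le_or_gt (M : ℤ) |j| with hj | hj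
  · rw [SJ0_zero hj, zero_mul]
  · have := abs_sub j (j - k)
    rw [sub_sub_cancel] at this
    rw [SJ0_zero (j := j - k) (by linarith), mul_zero]
lemma one_sub_mult1 {M : ℕ} (hM : 0 < M) (k : ℤ) :
    1 - mult1 M k ≤ 3 / 2 * (k : ℝ) ^ 2 / (M : ℝ) ^ 2 := by
  have hM' : (0 : ℝ) < M := Nat.cast_pos.2 hM
  have hk : ((k.natAbs : ℕ) : ℝ) = |(k : ℝ)| := by
    rw [← Int.cast_natCast, Int.natCast_natAbs, Int.cast_abs]
  have h1 : ∑ j ∈ Finset.Icc (-(M : ℤ)) M, tent k.natAbs j ≤ (k : ℝ) ^ 2 := by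
    rw [← sq_abs (k : ℝ), ← hk, ← SJ0_tent_sum]
    exact SJ0_sum_le (SJ0_nonneg _) (fun j hj => SJ0_zero hj) _
  have h2 : ∑ j ∈ Finset.Icc (-(M : ℤ)) M, 2 * tent M j ^ 2 ≤
      ∑ j ∈ Finset.Icc (-(M : ℤ)) M, (tent M j * tent M (j - k) + tent M j * tent M (j - -k) +
        2 * M * tent k.natAbs j) := by
    refine Finset.sum_le_sum fun j hj => ?_
    have a1 : (M : ℝ) - |(j : ℝ) - k| ≤ tent M (j - k) := by
      unfold tent
      push_cast
      exact le_max_right _ _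
    have a2 : (M : ℝ) - |(j : ℝ) + k| ≤ tent M (j - -k) := by
      unfold tent
      push_cast
      rw [sub_neg_eq_add]
      exact le_max_right _ _
    have a3 : |(k : ℝ)| - |(j : ℝ)| ≤ tent k.natAbs j := by
      unfold tent
      rw [hk]
      exact le_max_right _ _
    have a4 := SJ0_nonneg k.natAbs j
    have a5 := SJ0_in hj
    have a6 := SJ0_nonneg M j
    have a7 : tent M j ≤ M := by rw [a5]; linarith [abs_nonneg (j : ℝ)]
    have a8 : |(j : ℝ) - k| + |(j : ℝ) + k| ≤ 2 * |(j : ℝ)| + 2 * tent k.natAbs j := by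
      rcases abs_cases ((j : ℝ) - k) with b | b <;> rcases abs_cases ((j : ℝ) + k) with c | c <;>
        linarith [le_abs_self (j : ℝ), neg_abs_le (j : ℝ), le_abs_self (k : ℝ), neg_abs_le (k : ℝ)]
    have a9 : 2 * tent M j ≤ tent M (j - k) + tent M (j - -k) + 2 * tent k.natAbs j := by linarith
    nlinarith [mul_le_mul_of_nonneg_left a9 a6, mul_le_mul_of_nonneg_right a7 a4]
  rw [Finset.sum_add_distrib, Finset.sum_add_distrib, SJ0_corr_neg, ← Finset.mul_sum,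
    ← Finset.mul_sum] at h2
  have h3 := SJ0_pos hM
  have h4 := SJ0_tent_sq M
  rw [mult1]
  generalize ∑ j ∈ Finset.Icc (-(M : ℤ)) M, tent M j ^ 2 = S at *
  generalize ∑ j ∈ Finset.Icc (-(M : ℤ)) M, tent M j * tent M (j - k) = A at *
  have h5 : S - A ≤ M * (k : ℝ) ^ 2 := by nlinarith [mul_le_mul_of_nonneg_left h1 hM'.le]
  rw [one_sub_div h3.ne', div_le_div_iff₀ h3 (by positivity)]
  have h6 : (M : ℝ) ^ 3 ≤ 3 / 2 * S := by rw [h4]; linarith
  nlinarith [mul_le_mul_of_nonneg_right h5 (sq_nonneg (M : ℝ)),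
    mul_le_mul_of_nonneg_left h6 (sq_nonneg (k : ℝ))]
lemma mult_nonneg (M : ℕ) (k : Fin d → ℤ) : 0 ≤ mult M k :=
  Finset.prod_nonneg fun _ _ => mult1_nonneg _ _
lemma mult_le_one {M : ℕ} (hM : 0 < M) (k : Fin d → ℤ) : mult M k ≤ 1 :=
  Finset.prod_le_one (fun _ _ => mult1_nonneg _ _) fun _ _ => mult1_le_one hM _
lemma mult_neg (M : ℕ) (k : Fin d → ℤ) : mult M (-k) = mult M k :=
  Finset.prod_congr rfl fun _ _ => mult1_neg _ _
lemma mult_zero {M : ℕ} (hM : 0 < M) : mult M (0 : Fin d → ℤ) = 1 :=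
  Finset.prod_eq_one fun _ _ => mult1_zero hM

lemma SJ0_one_le (hL : 0 < L) (hq : 2 * kap L ≤ q) : 1 ≤ q / (2 * kap L) :=
  (one_le_div (mul_pos two_pos (kap_pos hL))).2 hq
lemma Mq_pos (hL : 0 < L) (hq : 2 * kap L ≤ q) : 0 < Mq L q :=
  Nat.floor_pos.2 (SJ0_one_le hL hq)
lemma Mq_le (hL : 0 < L) (hq : 2 * kap L ≤ q) : 2 * Mq L q * kap L ≤ q := by
  have := (le_div_iff₀ (mul_pos two_pos (kap_pos hL))).1
    (Nat.floor_le (zero_le_one.trans (SJ0_one_le hL hq)))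
  unfold Mq
  linarith
lemma le_Mq (hL : 0 < L) (hq : 2 * kap L ≤ q) : q ≤ 4 * Mq L q * kap L := by
  have h1 := (div_lt_iff₀ (mul_pos two_pos (kap_pos hL))).1 (Nat.lt_floor_add_one (q / (2 * kap L)))
  have h2 : (1 : ℝ) ≤ Mq L q := by exact_mod_cast Mq_pos hL hq
  have h3 := mul_le_mul_of_nonneg_right h2 (kap_pos hL).le
  unfold Mq at *
  linarith
lemma mult_band (hL : 0 < L) (hq : 2 * kap L ≤ q) {k : Fin d → ℤ} {r : Fin d}
    (hk : q ≤ |kap L * k r|) : mult (Mq L q) k = 0 := by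
  refine Finset.prod_eq_zero (Finset.mem_univ r) (mult1_eq_zero ?_)
  rw [abs_mul, abs_of_pos (kap_pos hL), mul_comm] at hk
  have := le_of_mul_le_mul_right ((Mq_le hL hq).trans hk) (kap_pos hL)
  exact_mod_cast this

lemma SJ0_prod {ι : Type} (s : Finset ι) {m : ι → ℝ} (h0 : ∀ i, 0 ≤ m i) (h1 : ∀ i, m i ≤ 1) :
    1 - ∏ i ∈ s, m i ≤ ∑ i ∈ s, (1 - m i) := by
  classical
  induction s using Finset.induction_on with
  | empty => simp
  | insert a s ha ih =>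
    rw [Finset.prod_insert ha, Finset.sum_insert ha]
    have : ∏ i ∈ s, m i ≤ 1 := Finset.prod_le_one (fun i _ => h0 i) fun i _ => h1 i
    nlinarith [h1 a]

lemma one_sub_mult (hL : 0 < L) (hq : 2 * kap L ≤ q) (k : Fin d → ℤ) :
    1 - mult (Mq L q) k ≤ 24 / q ^ 2 * ∑ r, (kap L * k r) ^ 2 := by
  have hM := Mq_pos hL hq
  have hM' : (0 : ℝ) < Mq L q := Nat.cast_pos.2 hM
  have hq0 : 0 < q := (mul_pos two_pos (kap_pos hL)).trans_le hq
  refine (SJ0_prod _ (fun r => mult1_nonneg _ (k r)) fun r => mult1_le_one hM (k r)).trans ?_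
  rw [Finset.mul_sum]
  refine Finset.sum_le_sum fun r _ => (one_sub_mult1 hM (k r)).trans ?_
  have h1 : q ^ 2 ≤ (4 * Mq L q * kap L) ^ 2 := pow_le_pow_left₀ hq0.le (le_Mq hL hq) 2
  rw [div_mul_eq_mul_div 24, div_le_div_iff₀ (by positivity) (by positivity)]
  nlinarith [mul_le_mul_of_nonneg_left h1 (sq_nonneg (k r : ℝ))]

lemma SJ0_mem_bx {M : ℕ} {k : Fin d → ℤ} : k ∈ bx d M ↔ ∀ r, |k r| ≤ M := by
  simp only [bx, Fintype.mem_piFinset, Finset.mem_Icc, abs_le]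

lemma SJ0_cx (L q : ℝ) (g : Tor d → ℝ) : cx (Jr L q g) =
    fun x => ∑ k ∈ bx d (2 * Mq L q), (mult (Mq L q) k : ℂ) * coef (cx g) k * ch k x := by
  funext x
  refine Complex.conj_eq_iff_re.1 ?_
  rw [map_sum]
  refine Finset.sum_nbij' (fun k => -k) (fun k => -k) ?_ ?_ ?_ ?_ ?_
  · intro k hk
    rw [SJ0_mem_bx] at hk ⊢
    simpa using hk
  · intro k hk
    rw [SJ0_mem_bx] at hk ⊢
    simpa using hk
  · intro k _
    exact neg_neg k
  · intro k _
    exact neg_neg k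
  · intro k _
    rw [mult_neg, coef_cx_neg, ch_neg, map_mul, map_mul, Complex.conj_ofReal]

lemma Jr_TP (hL : 0 < L) (hq : 2 * kap L ≤ q) (g : Tor d → ℝ) : TP L q (cx (Jr L q g)) := by
  rw [SJ0_cx]
  refine ⟨_, fun k => (mult (Mq L q) k : ℂ) * coef (cx g) k, fun k hk r => ?_, fun _ => rfl⟩
  have h1 : |(k r : ℝ)| ≤ 2 * Mq L q := by exact_mod_cast SJ0_mem_bx.1 hk r
  rw [abs_mul, abs_of_pos (kap_pos hL), mul_comm]
  exact (mul_le_mul_of_nonneg_right h1 (kap_pos hL).le).trans (Mq_le hL hq)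
lemma Jr_C1 (hL : 0 < L) (hq : 2 * kap L ≤ q) (g : Tor d → ℝ) : C1 L (Jr L q g) :=
  (Jr_TP hL hq g).c1_real
lemma coef_Jr (hL : 0 < L) (hq : 2 * kap L ≤ q) (g : Tor d → ℝ) (k : Fin d → ℤ) :
    coef (cx (Jr L q g)) k = (mult (Mq L q) k : ℂ) * coef (cx g) k := by
  have _ := hL
  have _ := hq
  rw [SJ0_cx, coef_sum _ (g := fun l x => (mult (Mq L q) l : ℂ) * coef (cx g) l * ch l x)
    fun l _ => continuous_const.mul (continuous_ch l)]
  simp only [coef_const_mul, coef_ch, mul_ite, mul_one, mul_zero, Finset.sum_ite_eq]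
  split_ifs with hk
  · rfl
  · rw [SJ0_mem_bx, not_forall] at hk
    obtain ⟨r, hr⟩ := hk
    have : mult (Mq L q) k = 0 :=
      Finset.prod_eq_zero (Finset.mem_univ r) (mult1_eq_zero (by push_cast at hr; omega))
    rw [this]
    simp
lemma Jr_add (hg : Continuous g) (hh : Continuous h) (x : Tor d) :
    Jr L q (fun x => g x + h x) x = Jr L q g x + Jr L q h x := by
  have : cx (fun x => g x + h x) = fun x => cx g x + cx h x := by
    funext x
    simp [cx]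
  simp only [Jr, this, coef_add (continuous_cx hg) (continuous_cx hh), mul_add, add_mul,
    Finset.sum_add_distrib, Complex.add_re]
lemma Jr_sub (hg : Continuous g) (hh : Continuous h) (x : Tor d) :
    Jr L q (fun x => g x - h x) x = Jr L q g x - Jr L q h x := by
  have : cx (fun x => g x - h x) = fun x => cx g x - cx h x := by
    funext x
    simp [cx]
  simp only [Jr, this, coef_sub (continuous_cx hg) (continuous_cx hh), mul_sub, sub_mul,
    Finset.sum_sub_distrib, Complex.sub_re]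
lemma Jr_const_mul (c : ℝ) (g : Tor d → ℝ) (x : Tor d) :
    Jr L q (fun x => c * g x) x = c * Jr L q g x := by
  have : cx (fun x => c * g x) = fun x => (c : ℂ) * cx g x := by
    funext x
    simp [cx]
  simp only [Jr, this, coef_const_mul]
  rw [← Complex.re_ofReal_mul, Finset.mul_sum]
  congr 1
  exact Finset.sum_congr rfl fun k _ => by ring

lemma SJ0_ext (hg : Continuous g) (hh : Continuous h) (e : ∀ k, coef (cx g) k = coef (cx h) k) :
    g = h := by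
  funext x
  exact Complex.ofReal_injective (congrFun (eq_of_coef (continuous_cx hg) (continuous_cx hh) e) x)

lemma Jr_const (hL : 0 < L) (hq : 2 * kap L ≤ q) (c : ℝ) (x : Tor d) :
    Jr L q (fun _ => c) x = c := by
  refine congrFun (SJ0_ext (h := fun _ => c) (Jr_C1 hL hq _).cont continuous_const fun k => ?_) x
  have : cx (fun _ : Tor d => c) = fun x => (c : ℂ) * ch 0 x := by
    funext x
    simp [cx, ch_zero]
  rw [coef_Jr hL hq, this, coef_const_mul, coef_ch]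
  split_ifs with hk
  · rw [hk, mult_zero (Mq_pos hL hq)]
    simp
  · simp
lemma pd_Jr (hL : 0 < L) (hq : 2 * kap L ≤ q) (hg : C1 L g) (r : Fin d) :
    pd L r (Jr L q g) = Jr L q (pd L r g) := by
  refine SJ0_ext ((Jr_C1 hL hq g).cpd r) (Jr_C1 hL hq _).cont fun k => ?_
  rw [← pd_cx (Jr_C1 hL hq g), coef_pd (Jr_C1 hL hq g).cx, coef_Jr hL hq, coef_Jr hL hq,
    ← pd_cx hg, coef_pd hg.cx]
  ring
lemma Jr_comm {q' : ℝ} (hL : 0 < L) (hq : 2 * kap L ≤ q) (hq' : 2 * kap L ≤ q') (g : Tor d → ℝ) :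
    Jr L q (Jr L q' g) = Jr L q' (Jr L q g) := by
  refine SJ0_ext (Jr_C1 hL hq _).cont (Jr_C1 hL hq' _).cont fun k => ?_
  rw [coef_Jr hL hq, coef_Jr hL hq', coef_Jr hL hq', coef_Jr hL hq]
  ring

end Pool.Agent.Lib.MP_ae5e3b_mp.Sh
end

-- part Pool.Agent.Lib.MP_ae5e3b_mp.SJa
section

open MeasureTheory Matrix Real
open scoped ComplexConjugate ComplexOrder

set_option linter.unusedSectionVars false

namespace Pool.Agent.Lib.MP_ae5e3b_mp.Sh

variable {d : ℕ} {L q : ℝ} {g h : Tor d → ℝ}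

/-- the product of tents -/
noncomputable def SJa_T (M : ℕ) (j : Fin d → ℤ) : ℝ := ∏ r, tent M (j r)

/-- the normalisation -/
noncomputable def SJa_S (M : ℕ) : ℝ := ∑ j ∈ Finset.Icc (-(M : ℤ)) M, tent M j ^ 2

/-- the square root of the kernel -/
noncomputable def SJa_D (M : ℕ) (y : Tor d) : ℂ :=
  ∑ j ∈ bx d M, (((√(SJa_S M ^ d))⁻¹ * SJa_T M j : ℝ) : ℂ) * ch j y

lemma SJa_mem_bx {M : ℕ} {j : Fin d → ℤ} : j ∈ bx d M ↔ ∀ r, |j r| ≤ M := by
  simp [bx, Fintype.mem_piFinset, abs_le]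

lemma SJa_S_pos {M : ℕ} (hM : 0 < M) : 0 < SJa_S M := by
  refine Finset.sum_pos' (fun j _ => sq_nonneg _) ⟨0, by simp, ?_⟩
  have : (0 : ℝ) < M := by exact_mod_cast hM
  simp only [tent, Int.cast_zero, abs_zero, sub_zero, max_eq_right this.le]
  positivity

lemma SJa_T_zero {M : ℕ} {j : Fin d → ℤ} (hj : j ∉ bx d M) : SJa_T M j = 0 := by
  rw [SJa_mem_bx] at hj
  push Not at hj
  obtain ⟨r, hr⟩ := hj
  refine Finset.prod_eq_zero (Finset.mem_univ r) ?_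
  have : (M : ℝ) < |(j r : ℝ)| := by exact_mod_cast hr
  exact max_eq_left (by linarith)

lemma SJa_auto {M : ℕ} (k : Fin d → ℤ) :
    ∑ j ∈ bx d M, SJa_T M j * SJa_T M (j - k) = SJa_S M ^ d * mult M k * 1 ∨ SJa_S M = 0 := by
  by_cases h0 : SJa_S M = 0
  · exact Or.inr h0
  left
  have e : ∑ j ∈ bx d M, SJa_T M j * SJa_T M (j - k) =
      ∏ r, ∑ j ∈ Finset.Icc (-(M : ℤ)) M, tent M j * tent M (j - k r) := by
    rw [Finset.prod_univ_sum]
    refine Finset.sum_congr rfl fun j _ => ?_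
    rw [SJa_T, SJa_T, ← Finset.prod_mul_distrib]
    rfl
  rw [e, mul_one, mult, ← Fin.prod_const, ← Finset.prod_mul_distrib]
  refine Finset.prod_congr rfl fun r _ => ?_
  rw [mult1, ← SJa_S, mul_div_cancel₀ _ h0]

lemma SJa_cm (c : ℂ) (k : Fin d → ℤ) : Continuous fun y : Tor d => c * ch k y :=
  continuous_const.mul (continuous_ch k)

lemma SJa_cont (M : ℕ) : Continuous (SJa_D (d := d) M) :=
  continuous_finsetSum _ fun j _ => continuous_const.mul (continuous_ch j)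

lemma SJa_coef {M : ℕ} (hM : 0 < M) (k : Fin d → ℤ) :
    coef (cx fun y => ‖SJa_D M y‖ ^ 2) k = mult M k := by
  have hS : 0 < SJa_S M ^ d := pow_pos (SJa_S_pos hM) d
  set c : ℝ := (√(SJa_S M ^ d))⁻¹ with hc
  have hc2 : c * c * SJa_S M ^ d = 1 := by
    rw [hc, ← mul_inv, Real.mul_self_sqrt hS.le, inv_mul_cancel₀ hS.ne']
  have e : (cx fun y => ‖SJa_D M y‖ ^ 2) = fun y : Tor d => ∑ j ∈ bx d M, ∑ l ∈ bx d M,
      ((c * c * (SJa_T M j * SJa_T M l) : ℝ) : ℂ) * ch (j - l) y := by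
    funext y
    rw [cx, Complex.ofReal_pow, ← Complex.mul_conj', SJa_D, map_sum, Finset.sum_mul_sum]
    refine Finset.sum_congr rfl fun j _ => Finset.sum_congr rfl fun l _ => ?_
    rw [map_mul, Complex.conj_ofReal, ch_sub, ← hc]
    push_cast
    ring
  rw [e, coef_sum _ fun j _ => continuous_finsetSum _ fun l _ => SJa_cm _ _]
  have e2 : ∀ j ∈ bx d M, coef (fun y : Tor d => ∑ l ∈ bx d M,
      ((c * c * (SJa_T M j * SJa_T M l) : ℝ) : ℂ) * ch (j - l) y) k =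
      ((c * c * (SJa_T M j * SJa_T M (j - k)) : ℝ) : ℂ) := by
    intro j _
    rw [coef_sum _ fun l _ => SJa_cm _ _]
    simp only [coef_const_mul, coef_ch]
    rw [Finset.sum_eq_single (j - k)]
    · rw [if_pos (by abel), mul_one]
    · intro l _ hl
      rw [if_neg, mul_zero]
      rintro rfl
      exact hl (by abel)
    · intro hl
      rw [SJa_T_zero hl]
      simp
  rw [Finset.sum_congr rfl e2, ← Complex.ofReal_sum, ← Finset.mul_sum,
    (SJa_auto k).resolve_right (SJa_S_pos hM).ne', mul_one, ← mul_assoc, hc2, one_mul]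

lemma SJa_kernel {M : ℕ} (hM : 0 < M) (z : Tor d) :
    ((‖SJa_D M z‖ ^ 2 : ℝ) : ℂ) = ∑ k ∈ bx d (2 * M), (mult M k : ℂ) * conj (ch k z) := by
  have e : (cx fun y => ‖SJa_D M y‖ ^ 2) =
      fun y : Tor d => ∑ k ∈ bx d (2 * M), (mult M k : ℂ) * ch k y := by
    refine eq_of_coef (continuous_cx ((SJa_cont M).norm.pow 2))
      (continuous_finsetSum _ fun l _ => continuous_const.mul (continuous_ch _)) fun k => ?_
    rw [SJa_coef hM, coef_sum _ fun l _ => SJa_cm _ _]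
    simp only [coef_const_mul, coef_ch]
    rw [Finset.sum_eq_single k]
    · rw [if_pos rfl, mul_one]
    · intro l _ hl
      rw [if_neg hl.symm, mul_zero]
    · intro hk
      rw [SJa_mem_bx] at hk
      push Not at hk
      obtain ⟨r, hr⟩ := hk
      have : mult M k = 0 :=
        Finset.prod_eq_zero (Finset.mem_univ r) (mult1_eq_zero (by push_cast at hr; exact hr.le))
      rw [this]
      simp
  have e1 := congrArg conj (congrFun e z)
  rw [cx, Complex.conj_ofReal, map_sum] at e1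
  rw [e1]
  refine Finset.sum_congr rfl fun k _ => ?_
  rw [map_mul, Complex.conj_ofReal]

/-- pairing with a real function given by an expansion -/
lemma SJa_pair {w : Tor d → ℝ} {s : Finset (Fin d → ℤ)} {a : (Fin d → ℤ) → ℂ}
    (hw : ∀ y, (w y : ℂ) = ∑ k ∈ s, a k * conj (ch k y)) (hg : Continuous g) :
    ∫ y, w y * g y = (∑ k ∈ s, a k * coef (cx g) k).re := by
  have e : ((∫ y, w y * g y : ℝ) : ℂ) = ∑ k ∈ s, a k * coef (cx g) k := by
    rw [← integral_complex_ofReal]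
    simp only [Complex.ofReal_mul, hw, Finset.sum_mul]
    rw [integral_finsetSum]
    · refine Finset.sum_congr rfl fun k _ => ?_
      rw [coef, ← integral_const_mul]
      simp only [mul_assoc, cx]
    · intro k _
      exact cont_int ((continuous_const.mul (Complex.continuous_conj.comp (continuous_ch k))).mul
        (Complex.continuous_ofReal.comp hg))
  rw [← e, Complex.ofReal_re]

lemma SJa_norm_sq (z : Tor d) (r : Fin d) :
    ‖z r‖ ^ 2 ≤ (1 - (conj (ch (Pi.single r 1) z)).re) / 8 := by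
  have e : ch (Pi.single r 1) z = fourier 1 (z r) := by
    change ∏ i, fourier ((Pi.single r 1 : Fin d → ℤ) i) (z i) = _
    rw [Finset.prod_eq_single r]
    · rw [Pi.single_eq_same]
    · intro i _ hi
      rw [Pi.single_eq_of_ne hi, fourier_zero]
    · simp
  rw [e, Complex.conj_re]
  obtain ⟨t, ht⟩ := QuotientAddGroup.mk_surjective (z r)
  rw [← ht, UnitAddCircle.norm_eq, fourier_coe_apply]
  have e2 : (2 * π * Complex.I * ((1 : ℤ) : ℂ) * (t : ℂ) / ((1 : ℝ) : ℂ)) =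
      ((2 * π * t : ℝ) : ℂ) * Complex.I := by
    push_cast
    ring
  rw [e2, Complex.exp_ofReal_mul_I_re]
  have e3 : Real.cos (2 * π * t) = Real.cos (2 * π * (t - round t)) := by
    rw [← Real.cos_sub_int_mul_two_pi (2 * π * t) (round t)]
    congr 1
    ring
  have h1 : |t - round t| ≤ 1 / 2 := abs_sub_round t
  have hpi := Real.pi_pos
  have h2 := Real.cos_le_one_sub_mul_cos_sq (x := 2 * π * (t - round t)) (by
    rw [abs_mul, abs_of_pos (by positivity : 0 < 2 * π)]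
    nlinarith)
  have e4 : 2 / π ^ 2 * (2 * π * (t - round t)) ^ 2 = 8 * (t - round t) ^ 2 := by
    field_simp
    ring
  rw [e3, sq_abs]
  linarith

lemma SJa_moment (hL : 0 < L) (hq : 2 * kap L ≤ q) (r : Fin d) :
    ∫ z : Tor d, ‖SJa_D (Mq L q) z‖ ^ 2 * (L * ‖z r‖) ^ 2 ≤ 120 / q ^ 2 := by
  have hM := Mq_pos hL hq
  have hq0 : 0 < q := lt_of_lt_of_le (mul_pos two_pos (kap_pos hL)) hq
  have hc : Continuous fun z : Tor d => ‖SJa_D (Mq L q) z‖ ^ 2 := (SJa_cont _).norm.pow 2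
  have hc2 : ∀ k : Fin d → ℤ, Continuous fun z : Tor d =>
      conj (ch k z) * cx (fun z : Tor d => ‖SJa_D (Mq L q) z‖ ^ 2) z := fun k =>
    (Complex.continuous_conj.comp (continuous_ch k)).mul (continuous_cx hc)
  have h0 : ∀ k : Fin d → ℤ, ∫ z : Tor d, ‖SJa_D (Mq L q) z‖ ^ 2 * (conj (ch k z)).re =
      mult (Mq L q) k := by
    intro k
    have e := congrArg Complex.re (SJa_coef hM k)
    rw [coef, Complex.ofReal_re] at e
    have e2 := integral_re (𝕜 := ℂ) (cont_int (hc2 k))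
    simp only [RCLike.re_to_complex] at e2
    rw [← e, ← e2]
    refine integral_congr_ae (Filter.Eventually.of_forall fun z => ?_)
    simp only [cx, Complex.re_mul_ofReal]
    ring
  have h1 : ∫ z : Tor d, ‖SJa_D (Mq L q) z‖ ^ 2 = 1 := by
    have := h0 0
    simpa only [ch_zero, map_one, Complex.one_re, mul_one, mult_zero hM] using this
  have hc3 : Continuous fun z : Tor d =>
      ‖SJa_D (Mq L q) z‖ ^ 2 * (conj (ch (Pi.single r 1) z)).re :=
    hc.mul (Complex.continuous_re.comp (Complex.continuous_conj.comp (continuous_ch _)))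
  have h2 : ∫ z : Tor d, ‖SJa_D (Mq L q) z‖ ^ 2 * (L * ‖z r‖) ^ 2 ≤
      ∫ z : Tor d, L ^ 2 / 8 * (‖SJa_D (Mq L q) z‖ ^ 2 -
        ‖SJa_D (Mq L q) z‖ ^ 2 * (conj (ch (Pi.single r 1) z)).re) := by
    refine integral_mono (cont_int (hc.mul (by fun_prop)))
      (cont_int (continuous_const.mul (hc.sub hc3))) fun z => ?_
    have := mul_le_mul_of_nonneg_left (SJa_norm_sq z r)
      (mul_nonneg (sq_nonneg L) (sq_nonneg ‖SJa_D (Mq L q) z‖))
    dsimp only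
    nlinarith
  rw [integral_const_mul, integral_sub (cont_int hc) (cont_int hc3), h1, h0] at h2
  have h3 := one_sub_mult hL hq (Pi.single r (1 : ℤ))
  rw [Finset.sum_eq_single r (fun i _ hi => by rw [Pi.single_eq_of_ne hi]; simp) (by simp),
    Pi.single_eq_same] at h3
  have h4 : L ^ 2 / 8 * (24 / q ^ 2 * (kap L * ((1 : ℤ) : ℝ)) ^ 2) = 12 * π ^ 2 / q ^ 2 := by
    rw [kap]
    field_simp
    push_cast
    ring
  have h5 : π ^ 2 ≤ 10 := by
    have := Real.pi_lt_d2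
    have := Real.pi_pos
    nlinarith
  calc _ ≤ _ := h2
    _ ≤ L ^ 2 / 8 * (24 / q ^ 2 * (kap L * ((1 : ℤ) : ℝ)) ^ 2) := by gcongr
    _ = 12 * π ^ 2 / q ^ 2 := h4
    _ ≤ 120 / q ^ 2 := by gcongr; linarith

/-- The kernel is the square of a trigonometric polynomial, with a second moment bound. -/
lemma exists_D (hL : 0 < L) (hq : 2 * kap L ≤ q) (x : Tor d) : ∃ D : Tor d → ℂ,
    TP L (q / 2) D ∧ ∫ y, ‖D y‖ ^ 2 = 1 ∧
    (∀ g : Tor d → ℝ, Continuous g → Jr L q g x = ∫ y, ‖D y‖ ^ 2 * g y) ∧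
    (∀ g : Tor d → ℝ, Continuous g → ∀ r,
      pd L r (Jr L q g) x = -∫ y, pd L r (fun y => ‖D y‖ ^ 2) y * g y) ∧
    ∀ (v : Tor d → ℝ) (M : ℝ), C1 L v → (∀ r y, |pd L r v y| ≤ M) →
      ∫ y, ‖D y‖ ^ 2 * (v y - v x) ^ 2 ≤ 120 * d ^ 2 * M ^ 2 / q ^ 2 := by
  have hM := Mq_pos hL hq
  have hκ := kap_pos hL
  have hTP : TP L (q / 2) fun y => SJa_D (Mq L q) (y - x) := by
    refine ⟨bx d (Mq L q), fun j => (((√(SJa_S (Mq L q) ^ d))⁻¹ * SJa_T (Mq L q) j : ℝ) : ℂ) *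
      conj (ch j x), fun k hk r => ?_, fun y => ?_⟩
    · have h1 : |(k r : ℝ)| ≤ Mq L q := by exact_mod_cast SJa_mem_bx.1 hk r
      have h2 := Mq_le hL hq
      rw [abs_mul, abs_of_pos hκ]
      nlinarith
    · refine Finset.sum_congr rfl fun j _ => ?_
      rw [ch_sub_right]
      ring
  have hK : ∀ y, ((‖SJa_D (Mq L q) (y - x)‖ ^ 2 : ℝ) : ℂ) =
      ∑ k ∈ bx d (2 * Mq L q), ((mult (Mq L q) k : ℂ) * ch k x) * conj (ch k y) := by
    intro y
    rw [SJa_kernel hM]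
    refine Finset.sum_congr rfl fun k _ => ?_
    rw [ch_sub_right, map_mul, Complex.conj_conj]
    ring
  have hJ : ∀ g : Tor d → ℝ, Continuous g →
      Jr L q g x = ∫ y, ‖SJa_D (Mq L q) (y - x)‖ ^ 2 * g y := by
    intro g hg
    rw [SJa_pair hK hg, Jr]
    congr 1
    exact Finset.sum_congr rfl fun k _ => by ring
  refine ⟨fun y => SJa_D (Mq L q) (y - x), hTP, ?_, hJ, ?_, ?_⟩
  · have := hJ (fun _ => 1) continuous_const
    rw [Jr_const hL hq] at this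
    simpa only [mul_one] using this.symm
  · intro g hg r
    have hK' : ∀ y, ((pd L r (fun y => ‖SJa_D (Mq L q) (y - x)‖ ^ 2) y : ℝ) : ℂ) =
        ∑ k ∈ bx d (2 * Mq L q), (- ((mult (Mq L q) k : ℂ) * ch k x *
          (Complex.I * ((kap L * k r : ℝ) : ℂ)))) * conj (ch k y) := by
      intro y
      have e := congrFun (pd_cx hTP.c1.normsq r) y
      have e2 : (cx fun y => ‖SJa_D (Mq L q) (y - x)‖ ^ 2) = fun y =>
          ∑ k ∈ bx d (2 * Mq L q), ((mult (Mq L q) k : ℂ) * ch k x) * conj (ch k y) :=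
        funext hK
      rw [e2, pd_sum _ fun k _ => (C1.ch k).cj.const_mul _] at e
      refine e.symm.trans (Finset.sum_congr rfl fun k _ => ?_)
      rw [pd_const_mul _ (C1.ch k).cj, pd_conj (C1.ch k), pd_ch, map_mul, map_mul, Complex.conj_I,
        Complex.conj_ofReal]
      ring
    rw [SJa_pair hK' hg]
    have e3 : Jr L q g = fun x => (∑ k ∈ bx d (2 * Mq L q),
        (mult (Mq L q) k : ℂ) * coef (cx g) k * ch k x).re := rfl
    rw [e3, pd_re (C1.sum _ fun k _ => (C1.ch k).const_mul _),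
      pd_sum _ fun k _ => (C1.ch k).const_mul _, ← Complex.neg_re, ← Finset.sum_neg_distrib]
    congr 1
    refine Finset.sum_congr rfl fun k _ => ?_
    rw [pd_const_mul _ (C1.ch k), pd_ch]
    ring
  · intro v M hv hvM
    have hc : Continuous fun y : Tor d => ‖SJa_D (Mq L q) (y - x)‖ ^ 2 := hTP.cont.norm.pow 2
    have hc2 : ∀ r, Continuous fun y : Tor d =>
        ‖SJa_D (Mq L q) (y - x)‖ ^ 2 * (L * ‖(y - x) r‖) ^ 2 := fun r => hc.mul (by fun_prop)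
    have h1 : ∫ y, ‖SJa_D (Mq L q) (y - x)‖ ^ 2 * (v y - v x) ^ 2 ≤
        ∫ y, M ^ 2 * d * ∑ r, ‖SJa_D (Mq L q) (y - x)‖ ^ 2 * (L * ‖(y - x) r‖) ^ 2 := by
      refine integral_mono (cont_int (hc.mul ((hv.cont.sub continuous_const).pow 2)))
        (cont_int (continuous_const.mul (continuous_finsetSum _ fun r _ => hc2 r))) fun y => ?_
      have a1 := hv.lip_dist hL (M := M) (fun r y => hvM r y) x y
      have a2 : (v y - v x) ^ 2 ≤ (M * ∑ r, L * ‖y r - x r‖) ^ 2 := by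
        rw [← sq_abs (v y - v x)]
        exact pow_le_pow_left₀ (abs_nonneg _) a1 2
      have a3 := sq_sum_le_card_mul_sum_sq (s := Finset.univ) (f := fun r => L * ‖y r - x r‖)
      rw [Finset.card_univ, Fintype.card_fin] at a3
      have a4 : (v y - v x) ^ 2 ≤ M ^ 2 * (d * ∑ r, (L * ‖y r - x r‖) ^ 2) := by
        rw [mul_pow] at a2
        exact a2.trans (mul_le_mul_of_nonneg_left a3 (sq_nonneg M))
      dsimp only
      rw [← Finset.mul_sum]
      simp only [Pi.sub_apply]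
      have := mul_le_mul_of_nonneg_left a4 (sq_nonneg ‖SJa_D (Mq L q) (y - x)‖)
      linarith
    rw [integral_const_mul, integral_finsetSum _ fun r _ => cont_int (hc2 r)] at h1
    have h2 : ∀ r, ∫ y, ‖SJa_D (Mq L q) (y - x)‖ ^ 2 * (L * ‖(y - x) r‖) ^ 2 ≤ 120 / q ^ 2 := by
      intro r
      rw [integral_sub_right_eq_self
        (fun z : Tor d => ‖SJa_D (Mq L q) z‖ ^ 2 * (L * ‖z r‖) ^ 2) x]
      exact SJa_moment hL hq r
    have h3 := Finset.sum_le_sum fun r (_ : r ∈ Finset.univ) => h2 r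
    rw [Finset.sum_const, Finset.card_univ, Fintype.card_fin, nsmul_eq_mul] at h3
    calc _ ≤ _ := h1
      _ ≤ M ^ 2 * d * (d * (120 / q ^ 2)) := by gcongr
      _ = _ := by ring

lemma Jr_le (hL : 0 < L) (hq : 2 * kap L ≤ q) (hg : Continuous g) {a : ℝ} (ha : ∀ y, g y ≤ a)
    (x : Tor d) : Jr L q g x ≤ a := by
  obtain ⟨D, hD, h1, h2, -, -⟩ := exists_D hL hq x
  have hc : Continuous fun y => ‖D y‖ ^ 2 := hD.cont.norm.pow 2
  rw [h2 g hg]
  calc _ ≤ ∫ y, ‖D y‖ ^ 2 * a := integral_mono (cont_int (hc.mul hg))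
        (cont_int (hc.mul continuous_const)) fun y => mul_le_mul_of_nonneg_left (ha y) (sq_nonneg _)
    _ = a := by rw [integral_mul_const, h1, one_mul]

lemma le_Jr (hL : 0 < L) (hq : 2 * kap L ≤ q) (hg : Continuous g) {a : ℝ} (ha : ∀ y, a ≤ g y)
    (x : Tor d) : a ≤ Jr L q g x := by
  obtain ⟨D, hD, h1, h2, -, -⟩ := exists_D hL hq x
  have hc : Continuous fun y => ‖D y‖ ^ 2 := hD.cont.norm.pow 2
  rw [h2 g hg]
  calc a = ∫ y, ‖D y‖ ^ 2 * a := by rw [integral_mul_const, h1, one_mul]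
    _ ≤ _ := integral_mono (cont_int (hc.mul continuous_const))
        (cont_int (hc.mul hg)) fun y => mul_le_mul_of_nonneg_left (ha y) (sq_nonneg _)

lemma abs_Jr_sub_le (hL : 0 < L) (hq : 2 * kap L ≤ q) (hg : Continuous g) {a c : ℝ}
    (ha : ∀ y, |g y - c| ≤ a) (x : Tor d) : |Jr L q g x - c| ≤ a := by
  have h1 := Jr_le hL hq hg (a := c + a) (fun y => by linarith [(abs_le.1 (ha y)).2]) x
  have h2 := le_Jr hL hq hg (a := c - a) (fun y => by linarith [(abs_le.1 (ha y)).1]) x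
  exact abs_le.2 ⟨by linarith, by linarith⟩

lemma abs_Jr_le (hL : 0 < L) (hq : 2 * kap L ≤ q) (hg : Continuous g) {a : ℝ}
    (ha : ∀ y, |g y| ≤ a) (x : Tor d) : |Jr L q g x| ≤ a := by
  simpa using abs_Jr_sub_le hL hq hg (c := 0) (by simpa using ha) x

lemma abs_pd_Jr_le (hL : 0 < L) (hq : 2 * kap L ≤ q) (hg : Continuous g) {a c : ℝ}
    (ha : ∀ y, |g y - c| ≤ a) (r : Fin d) (x : Tor d) : |pd L r (Jr L q g) x| ≤ q * a := by
  obtain ⟨D, hD, h1, -, h3, -⟩ := exists_D hL hq x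
  have hq0 : 0 < q := lt_of_lt_of_le (mul_pos two_pos (kap_pos hL)) hq
  have ha0 : 0 ≤ a := (abs_nonneg _).trans (ha x)
  have hc := hD.c1.normsq.cpd r
  have e : ∫ y, pd L r (fun y => ‖D y‖ ^ 2) y * g y =
      ∫ y, pd L r (fun y => ‖D y‖ ^ 2) y * (g y - c) := by
    simp only [mul_sub]
    rw [integral_sub (cont_int (hc.fun_mul hg)) (cont_int (hc.fun_mul continuous_const)),
      integral_mul_const, integral_pd hD.c1.normsq, zero_mul, sub_zero]
  have hc2 : Continuous fun y => ‖D y‖ * ‖pd L r D y‖ := hD.cont.norm.mul (hD.c1.cpd r).norm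
  have b1 : |∫ y, pd L r (fun y => ‖D y‖ ^ 2) y * (g y - c)| ≤
      ∫ y, 2 * a * (‖D y‖ * ‖pd L r D y‖) := by
    rw [← Real.norm_eq_abs]
    refine norm_integral_le_of_norm_le (cont_int (continuous_const.mul hc2))
      (Filter.Eventually.of_forall fun y => ?_)
    rw [Real.norm_eq_abs, abs_mul, pd_normsq hD.c1, abs_mul, abs_two]
    have c1 := Complex.abs_re_le_norm (conj (D y) * pd L r D y)
    rw [norm_mul, Complex.norm_conj] at c1
    calc _ ≤ 2 * (‖D y‖ * ‖pd L r D y‖) * a := by gcongr; exact ha y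
      _ = _ := by ring
  have b2 := cs_real hD.cont.norm (hD.c1.cpd r).norm
  have b3 := hD.pd_l2 r
  rw [h1, mul_one] at b3
  have b4 : √(∫ y, ‖pd L r D y‖ ^ 2) ≤ q / 2 := Real.sqrt_le_iff.2 ⟨by positivity, b3⟩
  rw [h1, Real.sqrt_one, one_mul] at b2
  rw [integral_const_mul] at b1
  rw [h3 g hg r, abs_neg, e]
  have b5 := (le_abs_self _).trans (b2.trans b4)
  calc _ ≤ _ := b1
    _ ≤ 2 * a * (q / 2) := by gcongr
    _ = q * a := by ring

lemma abs_Jr_sub_self (hL : 0 < L) (hq : 2 * kap L ≤ q) (hg : C1 L g) {M : ℝ}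
    (hM : ∀ r y, |pd L r g y| ≤ M) (hM0 : 0 ≤ M) (x : Tor d) :
    |Jr L q g x - g x| ≤ 11 * d * M / q := by
  obtain ⟨D, hD, h1, h2, -, h4⟩ := exists_D hL hq x
  have hq0 : 0 < q := lt_of_lt_of_le (mul_pos two_pos (kap_pos hL)) hq
  have hc : Continuous fun y => ‖D y‖ ^ 2 := hD.cont.norm.pow 2
  have e : Jr L q g x - g x = ∫ y, ‖D y‖ * (‖D y‖ * (g y - g x)) := by
    simp only [← mul_assoc, ← sq, mul_sub]
    rw [integral_sub (cont_int (hc.fun_mul hg.cont)) (cont_int (hc.fun_mul continuous_const)),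
      integral_mul_const, h1, one_mul, h2 g hg.cont]
  have b2 := cs_real hD.cont.norm (hD.cont.norm.mul (hg.cont.sub (continuous_const (y := g x))))
  rw [h1, Real.sqrt_one, one_mul] at b2
  rw [e]
  refine b2.trans (Real.sqrt_le_iff.2 ⟨by positivity, ?_⟩)
  simp only [Pi.mul_apply, Pi.sub_apply, mul_pow]
  refine (h4 g M hg hM).trans ?_
  rw [div_pow, mul_pow, mul_pow]
  gcongr
  norm_num

end Pool.Agent.Lib.MP_ae5e3b_mp.Sh
end

-- part Pool.Agent.Lib.MP_ae5e3b_mp.SJb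
section

open MeasureTheory Matrix Real
open scoped ComplexConjugate ComplexOrder

set_option linter.unusedSectionVars false

namespace Pool.Agent.Lib.MP_ae5e3b_mp.Sh

variable {d : ℕ} {L q : ℝ} {g h : Tor d → ℝ}

/-- The real part of the product of two coefficients. -/
noncomputable def SJb_P (g h : Tor d → ℝ) (k : Fin d → ℤ) : ℝ :=
  (conj (coef (cx g) k) * coef (cx h) k).re

/-- The squared physical frequency. -/
noncomputable def SJb_xi (L : ℝ) (k : Fin d → ℤ) : ℝ := ∑ r, (kap L * k r) ^ 2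

/-- `g'` is obtained from `g` by the multiplier `μ`. -/
def SJb_M (g' g : Tor d → ℝ) (μ : (Fin d → ℤ) → ℝ) : Prop :=
  ∀ k, coef (cx g') k = (μ k : ℂ) * coef (cx g) k

lemma SJb_xi_nonneg (L : ℝ) (k : Fin d → ℤ) : 0 ≤ SJb_xi L k :=
  Finset.sum_nonneg fun _ _ => sq_nonneg _

lemma SJb_P_self (g : Tor d → ℝ) (k : Fin d → ℤ) : SJb_P g g k = ‖coef (cx g) k‖ ^ 2 := by
  unfold SJb_P
  rw [Complex.conj_mul']
  norm_cast

lemma SJb_P_nonneg (g : Tor d → ℝ) (k : Fin d → ℤ) : 0 ≤ SJb_P g g k := by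
  rw [SJb_P_self]; exact sq_nonneg _

lemma SJb_P_sq (g h : Tor d → ℝ) (k : Fin d → ℤ) :
    SJb_P g h k ^ 2 ≤ SJb_P g g k * SJb_P h h k := by
  rw [SJb_P_self, SJb_P_self, ← mul_pow, sq_le_sq, abs_of_nonneg (a := _ * _) (by positivity)]
  refine (Complex.abs_re_le_norm _).trans (le_of_eq ?_)
  rw [norm_mul, RCLike.norm_conj]

lemma SJb_M_self (g : Tor d → ℝ) : SJb_M g g fun _ => 1 := fun k => by simp

lemma SJb_M_J (hL : 0 < L) (hq : 2 * kap L ≤ q) (g : Tor d → ℝ) :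
    SJb_M (Jr L q g) g (mult (Mq L q)) := fun k => coef_Jr hL hq g k

lemma SJb_M_sub (hL : 0 < L) (hq : 2 * kap L ≤ q) (hg : Continuous g) :
    SJb_M (fun x => g x - Jr L q g x) g fun k => 1 - mult (Mq L q) k := fun k => by
  have e : cx (fun x => g x - Jr L q g x) = fun x => cx g x - cx (Jr L q g) x := by
    funext x; simp [cx]
  rw [e, coef_sub (continuous_cx hg) (continuous_cx (Jr_C1 hL hq g).cont), coef_Jr hL hq]
  push_cast
  ring

lemma SJb_P_mul {g' h' : Tor d → ℝ} {μ ν : (Fin d → ℤ) → ℝ} (h1 : SJb_M g' g μ)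
    (h2 : SJb_M h' h ν) (k : Fin d → ℤ) : SJb_P g' h' k = μ k * ν k * SJb_P g h k := by
  unfold SJb_P
  rw [h1, h2]
  have : conj ((μ k : ℂ) * coef (cx g) k) * ((ν k : ℂ) * coef (cx h) k) =
      ((μ k * ν k : ℝ) : ℂ) * (conj (coef (cx g) k) * coef (cx h) k) := by
    rw [map_mul, Complex.conj_ofReal]
    push_cast
    ring
  rw [this, Complex.re_ofReal_mul]

lemma SJb_hsL {g' h' : Tor d → ℝ} {μ ν : (Fin d → ℤ) → ℝ} (hg : Continuous g')
    (hh : Continuous h') (h1 : SJb_M g' g μ) (h2 : SJb_M h' h ν) :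
    HasSum (fun k => μ k * ν k * SJb_P g h k) (∫ x, g' x * h' x) := by
  have := parseval_real hg hh
  simp only [← SJb_P_mul h1 h2]
  exact this

lemma SJb_hsG {g' h' : Tor d → ℝ} {μ ν : (Fin d → ℤ) → ℝ} (hg : C1 L g')
    (hh : C1 L h') (h1 : SJb_M g' g μ) (h2 : SJb_M h' h ν) :
    HasSum (fun k => μ k * ν k * (SJb_xi L k * SJb_P g h k)) (GG L g' h') := by
  have := GG_parseval hg hh
  have e : ∀ k, μ k * ν k * (SJb_xi L k * SJb_P g h k) = SJb_xi L k * SJb_P g' h' k := by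
    intro k
    rw [SJb_P_mul h1 h2]
    ring
  simp only [e]
  exact this

lemma SJb_hsGr (hg : C1 L g) : HasSum (fun k => SJb_xi L k * SJb_P g g k) (Gr L g) := by
  have := SJb_hsG hg hg (SJb_M_self g) (SJb_M_self g)
  simp only [one_mul] at this
  rwa [GG_self] at this

lemma SJb_xP (L : ℝ) (g : Tor d → ℝ) (k : Fin d → ℤ) : 0 ≤ SJb_xi L k * SJb_P g g k :=
  mul_nonneg (SJb_xi_nonneg L k) (SJb_P_nonneg g k)

/-- Cauchy-Schwarz for infinite sums. -/
lemma SJb_cs {ι : Type} {f A B : ι → ℝ} {s a b : ℝ} (hf : HasSum f s) (hA : HasSum A a)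
    (hB : HasSum B b) (A0 : ∀ k, 0 ≤ A k) (B0 : ∀ k, 0 ≤ B k) (h : ∀ k, f k ^ 2 ≤ A k * B k) :
    |s| ≤ √a * √b := by
  have key : ∀ t : ℝ, 0 ≤ a * (t * t) + 2 * s * t + b := by
    intro t
    refine HasSum.nonneg (g := fun k => A k * (t * t) + 2 * f k * t + B k) (fun k => ?_)
      (((hA.mul_right _).add ((hf.mul_left 2).mul_right t)).add hB)
    rcases (A0 k).eq_or_lt with z | z
    · have : f k ^ 2 ≤ 0 := by have := h k; rwa [← z, zero_mul] at this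
      have f0 : f k = 0 := pow_eq_zero_iff two_ne_zero |>.1 (le_antisymm this (sq_nonneg _))
      rw [← z, f0]
      simpa using B0 k
    · have : 0 ≤ A k * (A k * (t * t) + 2 * f k * t + B k) := by
        nlinarith [sq_nonneg (A k * t + f k), h k]
      exact (mul_nonneg_iff_of_pos_left z).1 this
  have hd := discrim_le_zero key
  unfold discrim at hd
  rw [← Real.sqrt_mul (hA.nonneg A0)]
  exact Real.abs_le_sqrt (by nlinarith)

lemma SJb_m1 (hL : 0 < L) (hq : 2 * kap L ≤ q) (k : Fin d → ℤ) : mult (Mq L q) k ≤ 1 :=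
  mult_le_one (Mq_pos hL hq) k

lemma SJb_subC1 (hL : 0 < L) (hq : 2 * kap L ≤ q) (hg : C1 L g) :
    C1 L fun x => g x - Jr L q g x := hg.sub (Jr_C1 hL hq g)

lemma SJb_low (hL : 0 < L) (hq : 2 * kap L ≤ q) {q₀ : ℝ} {k : Fin d → ℤ}
    (hk : ∀ r, |kap L * k r| ≤ q₀) : 1 - mult (Mq L q) k ≤ 24 * d * q₀ ^ 2 / q ^ 2 := by
  refine (one_sub_mult hL hq k).trans ?_
  have : ∑ r, (kap L * k r) ^ 2 ≤ d * q₀ ^ 2 := by
    calc ∑ r, (kap L * k r) ^ 2 ≤ ∑ _r : Fin d, q₀ ^ 2 := Finset.sum_le_sum fun r _ => by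
          rw [← sq_abs]; exact pow_le_pow_left₀ (abs_nonneg _) (hk r) 2
      _ = d * q₀ ^ 2 := by simp
  calc 24 / q ^ 2 * ∑ r, (kap L * k r) ^ 2 ≤ 24 / q ^ 2 * (d * q₀ ^ 2) :=
        mul_le_mul_of_nonneg_left this (by positivity)
    _ = 24 * d * q₀ ^ 2 / q ^ 2 := by ring

lemma Jr_sa (hL : 0 < L) (hq : 2 * kap L ≤ q) (hg : Continuous g) (hh : Continuous h) :
    ∫ x, Jr L q g x * h x = ∫ x, g x * Jr L q h x := by
  refine (SJb_hsL (Jr_C1 hL hq g).cont hh (SJb_M_J hL hq g) (SJb_M_self h)).unique ?_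
  have := SJb_hsL hg (Jr_C1 hL hq h).cont (SJb_M_self g) (SJb_M_J hL hq h)
  simpa only [one_mul, mul_one] using this

lemma l2_Jr_le (hL : 0 < L) (hq : 2 * kap L ≤ q) (hg : Continuous g) :
    ∫ x, Jr L q g x ^ 2 ≤ ∫ x, g x ^ 2 := by
  simp only [sq]
  refine hasSum_le (fun k => ?_)
    (SJb_hsL (Jr_C1 hL hq g).cont (Jr_C1 hL hq g).cont (SJb_M_J hL hq g) (SJb_M_J hL hq g))
    (SJb_hsL hg hg (SJb_M_self g) (SJb_M_self g))
  exact mul_le_mul_of_nonneg_right (mul_le_mul (SJb_m1 hL hq k) (SJb_m1 hL hq k)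
    (mult_nonneg _ k) zero_le_one) (SJb_P_nonneg g k)

lemma sub_Jr_pos (hL : 0 < L) (hq : 2 * kap L ≤ q) (hg : Continuous g) :
    0 ≤ ∫ x, (g x - Jr L q g x) * g x := by
  refine HasSum.nonneg (fun k => ?_)
    (SJb_hsL (hg.sub (Jr_C1 hL hq g).cont) hg (SJb_M_sub hL hq hg) (SJb_M_self g))
  exact mul_nonneg (mul_nonneg (sub_nonneg.2 (SJb_m1 hL hq k)) zero_le_one) (SJb_P_nonneg g k)

lemma l2_sub_Jr (hL : 0 < L) (hq : 2 * kap L ≤ q) (hg : C1 L g) :
    ∫ x, (g x - Jr L q g x) ^ 2 ≤ 24 / q ^ 2 * Gr L g := by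
  have e : ∀ x, (g x - Jr L q g x) ^ 2 = (g x - Jr L q g x) * (g x - Jr L q g x) := fun x => sq _
  simp only [e]
  refine hasSum_le (fun k => ?_)
    (SJb_hsL (SJb_subC1 hL hq hg).cont (SJb_subC1 hL hq hg).cont (SJb_M_sub hL hq hg.cont)
      (SJb_M_sub hL hq hg.cont)) ((SJb_hsGr hg).mul_left (24 / q ^ 2))
  rw [← mul_assoc]
  refine mul_le_mul_of_nonneg_right ?_ (SJb_P_nonneg g k)
  have a1 := SJb_m1 hL hq k
  have a0 := mult_nonneg (Mq L q) k
  have a2 : 1 - mult (Mq L q) k ≤ 24 / q ^ 2 * SJb_xi L k := one_sub_mult hL hq k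
  nlinarith

lemma pair_sub_Jr (hL : 0 < L) (hq : 2 * kap L ≤ q) (hg : C1 L g) (hh : C1 L h) :
    |∫ x, (g x - Jr L q g x) * h x| ≤ 24 / q ^ 2 * (√(Gr L g) * √(Gr L h)) := by
  have c0 : (0 : ℝ) ≤ 24 / q ^ 2 := by positivity
  have := SJb_cs (SJb_hsL (SJb_subC1 hL hq hg).cont hh.cont (SJb_M_sub hL hq hg.cont)
    (SJb_M_self h)) ((SJb_hsGr hg).mul_left (24 / q ^ 2)) ((SJb_hsGr hh).mul_left (24 / q ^ 2))
    (fun k => mul_nonneg c0 (SJb_xP L g k)) (fun k => mul_nonneg c0 (SJb_xP L h k)) fun k => by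
      have a1 := sub_nonneg.2 (SJb_m1 hL hq k)
      have a2 : 1 - mult (Mq L q) k ≤ 24 / q ^ 2 * SJb_xi L k := one_sub_mult hL hq k
      calc ((1 - mult (Mq L q) k) * 1 * SJb_P g h k) ^ 2
          = (1 - mult (Mq L q) k) ^ 2 * SJb_P g h k ^ 2 := by ring
        _ ≤ (24 / q ^ 2 * SJb_xi L k) ^ 2 * (SJb_P g g k * SJb_P h h k) :=
            mul_le_mul (pow_le_pow_left₀ a1 a2 2) (SJb_P_sq g h k) (sq_nonneg _) (sq_nonneg _)
        _ = _ := by ring
  refine this.trans (le_of_eq ?_)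
  rw [Real.sqrt_mul c0, Real.sqrt_mul c0, mul_mul_mul_comm, Real.mul_self_sqrt c0]

lemma GG_Jr_sa (hL : 0 < L) (hq : 2 * kap L ≤ q) (hg : C1 L g) (hh : C1 L h) :
    GG L (Jr L q g) h = GG L g (Jr L q h) := by
  refine (SJb_hsG (Jr_C1 hL hq g) hh (SJb_M_J hL hq g) (SJb_M_self h)).unique ?_
  have := SJb_hsG hg (Jr_C1 hL hq h) (SJb_M_self g) (SJb_M_J hL hq h)
  simpa only [one_mul, mul_one] using this

lemma GG_sub_Jr_sa (hL : 0 < L) (hq : 2 * kap L ≤ q) (hg : C1 L g) (hh : C1 L h) :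
    GG L (fun x => g x - Jr L q g x) h = GG L g fun x => h x - Jr L q h x := by
  refine (SJb_hsG (SJb_subC1 hL hq hg) hh (SJb_M_sub hL hq hg.cont) (SJb_M_self h)).unique ?_
  have := SJb_hsG hg (SJb_subC1 hL hq hh) (SJb_M_self g) (SJb_M_sub hL hq hh.cont)
  simpa only [one_mul, mul_one] using this

lemma Gr_Jr_le_GG (hL : 0 < L) (hq : 2 * kap L ≤ q) (hg : C1 L g) :
    Gr L (Jr L q g) ≤ GG L (Jr L q g) g := by
  rw [← GG_self]
  refine hasSum_le (fun k => ?_)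
    (SJb_hsG (Jr_C1 hL hq g) (Jr_C1 hL hq g) (SJb_M_J hL hq g) (SJb_M_J hL hq g))
    (SJb_hsG (Jr_C1 hL hq g) hg (SJb_M_J hL hq g) (SJb_M_self g))
  exact mul_le_mul_of_nonneg_right
    (mul_le_mul_of_nonneg_left (SJb_m1 hL hq k) (mult_nonneg _ k)) (SJb_xP L g k)

lemma GG_Jr_le (hL : 0 < L) (hq : 2 * kap L ≤ q) (hg : C1 L g) :
    GG L (Jr L q g) g ≤ Gr L g := by
  refine hasSum_le (fun k => ?_)
    (SJb_hsG (Jr_C1 hL hq g) hg (SJb_M_J hL hq g) (SJb_M_self g)) (SJb_hsGr hg)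
  rw [mul_one]
  exact mul_le_of_le_one_left (SJb_xP L g k) (SJb_m1 hL hq k)

lemma Gr_Jr_le (hL : 0 < L) (hq : 2 * kap L ≤ q) (hg : C1 L g) : Gr L (Jr L q g) ≤ Gr L g :=
  (Gr_Jr_le_GG hL hq hg).trans (GG_Jr_le hL hq hg)

lemma Gr_sub_Jr_le_GG (hL : 0 < L) (hq : 2 * kap L ≤ q) (hg : C1 L g) :
    Gr L (fun x => g x - Jr L q g x) ≤ GG L (fun x => g x - Jr L q g x) g := by
  rw [← GG_self]
  refine hasSum_le (fun k => ?_)
    (SJb_hsG (SJb_subC1 hL hq hg) (SJb_subC1 hL hq hg) (SJb_M_sub hL hq hg.cont)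
      (SJb_M_sub hL hq hg.cont))
    (SJb_hsG (SJb_subC1 hL hq hg) hg (SJb_M_sub hL hq hg.cont) (SJb_M_self g))
  exact mul_le_mul_of_nonneg_right (mul_le_mul_of_nonneg_left
    (sub_le_self _ (mult_nonneg _ k)) (sub_nonneg.2 (SJb_m1 hL hq k))) (SJb_xP L g k)

lemma GG_sub_Jr_le (hL : 0 < L) (hq : 2 * kap L ≤ q) (hg : C1 L g) :
    GG L (fun x => g x - Jr L q g x) g ≤ Gr L g := by
  refine hasSum_le (fun k => ?_)
    (SJb_hsG (SJb_subC1 hL hq hg) hg (SJb_M_sub hL hq hg.cont) (SJb_M_self g)) (SJb_hsGr hg)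
  rw [mul_one]
  exact mul_le_of_le_one_left (SJb_xP L g k) (sub_le_self _ (mult_nonneg _ k))

lemma GG_sub_Jr_nonneg (hL : 0 < L) (hq : 2 * kap L ≤ q) (hg : C1 L g) :
    0 ≤ GG L (fun x => g x - Jr L q g x) g := by
  refine HasSum.nonneg (fun k => ?_)
    (SJb_hsG (SJb_subC1 hL hq hg) hg (SJb_M_sub hL hq hg.cont) (SJb_M_self g))
  exact mul_nonneg (mul_nonneg (sub_nonneg.2 (SJb_m1 hL hq k)) zero_le_one) (SJb_xP L g k)

/-- Cauchy-Schwarz for the form of `1 - J`. -/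
lemma GG_sub_Jr_cs (hL : 0 < L) (hq : 2 * kap L ≤ q) (hg : C1 L g) (hh : C1 L h) :
    |GG L (fun x => g x - Jr L q g x) h| ≤
      √(GG L (fun x => g x - Jr L q g x) g) * √(GG L (fun x => h x - Jr L q h x) h) := by
  refine SJb_cs (SJb_hsG (SJb_subC1 hL hq hg) hh (SJb_M_sub hL hq hg.cont) (SJb_M_self h))
    (SJb_hsG (SJb_subC1 hL hq hg) hg (SJb_M_sub hL hq hg.cont) (SJb_M_self g))
    (SJb_hsG (SJb_subC1 hL hq hh) hh (SJb_M_sub hL hq hh.cont) (SJb_M_self h))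
    (fun k => mul_nonneg (mul_nonneg (sub_nonneg.2 (SJb_m1 hL hq k)) zero_le_one) (SJb_xP L g k))
    (fun k => mul_nonneg (mul_nonneg (sub_nonneg.2 (SJb_m1 hL hq k)) zero_le_one) (SJb_xP L h k))
    fun k => ?_
  calc ((1 - mult (Mq L q) k) * 1 * (SJb_xi L k * SJb_P g h k)) ^ 2
      = ((1 - mult (Mq L q) k) * SJb_xi L k) ^ 2 * SJb_P g h k ^ 2 := by ring
    _ ≤ ((1 - mult (Mq L q) k) * SJb_xi L k) ^ 2 * (SJb_P g g k * SJb_P h h k) :=
        mul_le_mul_of_nonneg_left (SJb_P_sq g h k) (sq_nonneg _)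
    _ = _ := by ring

lemma GG_sub_Jr_low (hL : 0 < L) (hq : 2 * kap L ≤ q) {q₀ : ℝ} (hg : TP L q₀ (cx g)) :
    GG L (fun x => g x - Jr L q g x) g ≤ 24 * d * q₀ ^ 2 / q ^ 2 * Gr L g := by
  have hc := hg.c1_real
  refine hasSum_le (fun k => ?_)
    (SJb_hsG (SJb_subC1 hL hq hc) hc (SJb_M_sub hL hq hc.cont) (SJb_M_self g))
    ((SJb_hsGr hc).mul_left _)
  by_cases hk : ∀ r, |kap L * k r| ≤ q₀
  · rw [mul_one]
    exact mul_le_mul_of_nonneg_right (SJb_low hL hq hk) (SJb_xP L g k)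
  · push Not at hk
    obtain ⟨r, hr⟩ := hk
    rw [SJb_P_self, hg.coef_eq_zero hr]
    simp

/-- Comparison of two bands. -/
lemma GG_sub_Jr_cmp (hL : 0 < L) (hq : 2 * kap L ≤ q) {q₀ : ℝ} (hq₀ : 2 * kap L ≤ q₀)
    (hg : C1 L g) :
    GG L (fun x => g x - Jr L q g x) g ≤
      GG L (fun x => g x - Jr L q₀ g x) g + 24 * d * q₀ ^ 2 / q ^ 2 * Gr L g := by
  refine hasSum_le (fun k => ?_)
    (SJb_hsG (SJb_subC1 hL hq hg) hg (SJb_M_sub hL hq hg.cont) (SJb_M_self g))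
    ((SJb_hsG (SJb_subC1 hL hq₀ hg) hg (SJb_M_sub hL hq₀ hg.cont) (SJb_M_self g)).add
      ((SJb_hsGr hg).mul_left _))
  rw [← add_mul, mul_one, mul_one]
  refine mul_le_mul_of_nonneg_right ?_ (SJb_xP L g k)
  by_cases hk : ∀ r, |kap L * k r| ≤ q₀
  · linarith [SJb_low hL hq hk, SJb_m1 hL hq₀ k]
  · push Not at hk
    obtain ⟨r, hr⟩ := hk
    have : (0 : ℝ) ≤ 24 * d * q₀ ^ 2 / q ^ 2 := by positivity
    rw [mult_band hL hq₀ hr.le]
    linarith [mult_nonneg (Mq L q) k]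

/-- Approximation in the Dirichlet norm. -/
lemma Jr_approx (hL : 0 < L) (hg : C1 L g) {ε : ℝ} (hε : 0 < ε) :
    ∃ T, 2 * kap L ≤ T ∧ Gr L (fun x => g x - Jr L T g x) ≤ ε := by
  have ev : ∀ᶠ T in Filter.atTop, 2 * kap L ≤ T := Filter.eventually_ge_atTop _
  have key : Filter.Tendsto
      (fun T : ℝ => ∑' k, (1 - mult (Mq L T) k) * 1 * (SJb_xi L k * SJb_P g g k)) Filter.atTop
      (nhds (∑' _k : Fin d → ℤ, (0 : ℝ))) := by
    refine tendsto_tsum_of_dominated_convergence (SJb_hsGr hg).summable (fun k => ?_) ?_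
    · have t0 : Filter.Tendsto (fun T : ℝ => 24 / T ^ 2 * (SJb_xi L k * (SJb_xi L k * SJb_P g g k)))
          Filter.atTop (nhds (0 * (SJb_xi L k * (SJb_xi L k * SJb_P g g k)))) :=
        (tendsto_const_nhds.div_atTop (Filter.tendsto_pow_atTop two_ne_zero)).mul_const _
      rw [zero_mul] at t0
      refine squeeze_zero' ?_ ?_ t0
      · filter_upwards [ev] with T hT
        exact mul_nonneg (mul_nonneg (sub_nonneg.2 (SJb_m1 hL hT k)) zero_le_one) (SJb_xP L g k)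
      · filter_upwards [ev] with T hT
        rw [mul_one, ← mul_assoc (24 / T ^ 2)]
        exact mul_le_mul_of_nonneg_right (one_sub_mult hL hT k) (SJb_xP L g k)
    · filter_upwards [ev] with T hT k
      rw [mul_one, Real.norm_of_nonneg (mul_nonneg (sub_nonneg.2 (SJb_m1 hL hT k)) (SJb_xP L g k))]
      exact mul_le_of_le_one_left (SJb_xP L g k) (sub_le_self _ (mult_nonneg _ k))
  rw [tsum_zero] at key
  obtain ⟨T, hT, h2⟩ := (ev.and (key.eventually (Iic_mem_nhds hε))).exists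
  refine ⟨T, hT, (Gr_sub_Jr_le_GG hL hT hg).trans ?_⟩
  rw [← (SJb_hsG (SJb_subC1 hL hT hg) hg (SJb_M_sub hL hT hg.cont) (SJb_M_self g)).tsum_eq]
  exact h2

end Pool.Agent.Lib.MP_ae5e3b_mp.Sh
end
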