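import Pool.Agent.Lib.MP_ae5e3b_mp.SCa

-- part Pool.Agent.Lib.MP_ae5e3b_mp.SLa
section

open MeasureTheory Matrix Real
open scoped ComplexConjugate ComplexOrder

set_option linter.unusedSectionVars false

namespace Pool.Agent.Lib.MP_ae5e3b_mp.Sh

variable {d : ℕ} {L : ℝ}

section MulM
variable {g h b : Tor d → ℂ}
lemma mulM_mulVec (hg : Continuous g) (y : Ix d L → ℂ) (i : Ix d L) :
    (mulM L g *ᵥ y) i = coef (fun x => g x * fn y x) (nu i) := by
  have e : (fun x => g x * fn y x) = fun x => ∑ j, y j * (g x * ch (nu j) x) := by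
    funext x
    unfold fn
    rw [Finset.mul_sum]
    exact Finset.sum_congr rfl fun j _ => by ring
  rw [e, coef_sum Finset.univ (g := fun j x => y j * (g x * ch (nu j) x))
    (fun j _ => continuous_const.mul (hg.mul (continuous_ch _)))]
  simp only [mulVec, dotProduct]
  refine Finset.sum_congr rfl fun j _ => ?_
  rw [coef_const_mul (y j) (fun x => g x * ch (nu j) x), coef_mul_ch, mul_comm]
  rfl
lemma mulM_form (hg : Continuous g) (y z : Ix d L → ℂ) :
    star y ⬝ᵥ (mulM L g *ᵥ z) = ∫ x, conj (fn y x) * (g x * fn z x) := by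
  rw [fn_pair y (g := fun x => g x * fn z x) (hg.mul (fn_cont z))]
  congr 1
  funext i
  exact mulM_mulVec hg z i
lemma vn_mulM_le (hg : Continuous g) (y : Ix d L → ℂ) :
    vn (mulM L g *ᵥ y) ^ 2 ≤ ∫ x, ‖g x * fn y x‖ ^ 2 := by
  have hc : Continuous fun x => g x * fn y x := hg.mul (fn_cont y)
  have h1 := bessel (cont_memLp hc) (Finset.univ.image (nu : Ix d L → Fin d → ℤ))
  rw [Finset.sum_image (fun i _ j _ e => nu_inj e)] at h1
  rw [vn_sq]
  refine le_trans (le_of_eq ?_) h1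
  exact Finset.sum_congr rfl fun i _ => by rw [mulM_mulVec hg]
lemma mulM_opB (hg : Continuous g) {a : ℝ} (ha : ∀ x, ‖g x‖ ≤ a) : OpB (mulM L g) a := by
  have ha0 : 0 ≤ a := le_trans (norm_nonneg _) (ha 0)
  refine ⟨ha0, fun y => ?_⟩
  have h1 := vn_mulM_le hg y
  have h2 : ∫ x, ‖g x * fn y x‖ ^ 2 ≤ ∫ x, a ^ 2 * ‖fn y x‖ ^ 2 := by
    refine integral_mono (cont_int ((hg.mul (fn_cont y)).norm.pow 2))
      (cont_int (continuous_const.mul ((fn_cont y).norm.pow 2))) fun x => ?_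
    simp only [norm_mul, mul_pow]
    exact mul_le_mul_of_nonneg_right (pow_le_pow_left₀ (norm_nonneg _) (ha x) 2) (by positivity)
  rw [integral_const_mul, fn_l2] at h2
  have h3 : vn (mulM L g *ᵥ y) ^ 2 ≤ (a * vn y) ^ 2 := by rw [mul_pow]; exact h1.trans h2
  exact (pow_le_pow_iff_left₀ (vn_nonneg _) (mul_nonneg ha0 (vn_nonneg _)) two_ne_zero).1 h3
lemma mulM_opB_real {g : Tor d → ℝ} (hg : Continuous g) {a : ℝ} (ha : ∀ x, |g x| ≤ a) :
    OpB (mulM L (cx g)) a :=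
  mulM_opB (continuous_cx hg) fun x => by
    simp only [cx, Complex.norm_real, Real.norm_eq_abs]; exact ha x
lemma mulM_conjT (g : Tor d → ℂ) : (mulM L g)ᴴ = mulM L fun x => conj (g x) := by
  ext i j
  rw [conjTranspose_apply]
  unfold mulM
  rw [coef_conj, neg_sub]
  rfl
lemma mulM_cx_conjT (g : Tor d → ℝ) : (mulM L (cx g))ᴴ = mulM L (cx g) := by
  rw [mulM_conjT]
  congr 1
  funext x
  simp only [cx, Complex.conj_ofReal]
lemma mulM_add (hg : Continuous g) (hh : Continuous h) :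
    mulM L (fun x => g x + h x) = mulM L g + mulM L h := by
  ext i j
  exact coef_add hg hh _
lemma mulM_sub (hg : Continuous g) (hh : Continuous h) :
    mulM L (fun x => g x - h x) = mulM L g - mulM L h := by
  ext i j
  exact coef_sub hg hh _
lemma mulM_const_mul (c : ℂ) (g : Tor d → ℂ) : mulM L (fun x => c * g x) = c • mulM L g := by
  ext i j
  exact coef_const_mul c g _
lemma mulM_const (c : ℂ) : mulM L (fun _ : Tor d => c) = c • (1 : Mat d L) := by
  ext i j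
  have e : (fun _ : Tor d => c) = fun x => c * ch 0 x := by
    funext x; rw [ch_zero, mul_one]
  show coef (fun _ : Tor d => c) (nu i - nu j) = _
  rw [e, coef_const_mul, coef_ch, Matrix.smul_apply, Matrix.one_apply, smul_eq_mul]
  congr 1
  by_cases hij : i = j
  · simp [hij]
  · rw [if_neg hij, if_neg]
    intro e
    exact hij (nu_inj (sub_eq_zero.1 e))
lemma mulM_cx_add {g h : Tor d → ℝ} (hg : Continuous g) (hh : Continuous h) :
    mulM L (cx fun x => g x + h x) = mulM L (cx g) + mulM L (cx h) := by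
  rw [← mulM_add (continuous_cx hg) (continuous_cx hh)]
  congr 1
  funext x
  simp only [cx, Complex.ofReal_add]
lemma mulM_cx_sub {g h : Tor d → ℝ} (hg : Continuous g) (hh : Continuous h) :
    mulM L (cx fun x => g x - h x) = mulM L (cx g) - mulM L (cx h) := by
  rw [← mulM_sub (continuous_cx hg) (continuous_cx hh)]
  congr 1
  funext x
  simp only [cx, Complex.ofReal_sub]
lemma mulM_cx_const_mul (c : ℝ) (g : Tor d → ℝ) :
    mulM L (cx fun x => c * g x) = (c : ℂ) • mulM L (cx g) := by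
  rw [← mulM_const_mul]
  congr 1
  funext x
  simp only [cx, Complex.ofReal_mul]
lemma mulM_psd {g : Tor d → ℝ} (hg : Continuous g) (h0 : ∀ x, 0 ≤ g x) :
    (mulM L (cx g)).PosSemidef := by
  refine PosSemidef.of_dotProduct_mulVec_nonneg (mulM_cx_conjT g) fun y => ?_
  rw [mulM_form (continuous_cx hg)]
  have e : (fun x => conj (fn y x) * (cx g x * fn y x)) =
      fun x => ((g x * ‖fn y x‖ ^ 2 : ℝ) : ℂ) := by
    funext x
    have := Complex.conj_mul' (fn y x)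
    simp only [cx]
    push_cast
    rw [← this]
    ring
  rw [e, integral_complex_ofReal]
  exact Complex.zero_le_real.2 (integral_nonneg fun x => mul_nonneg (h0 x) (by positivity))
lemma mulM_diag (g : Tor d → ℂ) (i : Ix d L) : mulM L g i i = ∫ x, g x := by
  unfold mulM
  rw [sub_self, coef_zero_eq]
lemma mulM_band {Q : ℝ} (hQ : 0 ≤ Q) (hg : TP L Q g) {i j : Ix d L} (h : Q < ‖mom i - mom j‖) :
    mulM L g i j = 0 := by
  have : ¬ ∀ r, ‖(mom i - mom j) r‖ ≤ Q := fun hh =>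
    absurd ((pi_norm_le_iff_of_nonneg hQ).2 hh) (not_le.2 h)
  push Not at this
  obtain ⟨r, hr⟩ := this
  refine hg.coef_eq_zero (r := r) ?_
  rw [← mom_sub]
  simpa using hr
lemma dg_mulM_dg {Q : ℝ} (hQ : 0 ≤ Q) (hg : TP L Q g) {m m' : Ix d L → ℝ}
    (h : ∀ i j, ‖mom i - mom j‖ ≤ Q → m i * m' j = m i) :
    dg m * mulM L g * dg m' = dg m * mulM L g := by
  ext i j
  rw [mul_dg_apply, dg_mul_apply]
  by_cases hij : ‖mom i - mom j‖ ≤ Q
  · have := h i j hij
    calc (m i : ℂ) * mulM L g i j * m' j = ((m i * m' j : ℝ) : ℂ) * mulM L g i j := by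
          push_cast; ring
      _ = _ := by rw [this]
  · rw [mulM_band hQ hg (not_le.1 hij)]; simp
lemma dg_mulM_dg' {Q : ℝ} (hQ : 0 ≤ Q) (hg : TP L Q g) {m m' : Ix d L → ℝ}
    (h : ∀ i j, ‖mom i - mom j‖ ≤ Q → m' i * m j = m j) :
    dg m' * mulM L g * dg m = mulM L g * dg m := by
  ext i j
  rw [mul_dg_apply, dg_mul_apply, mul_dg_apply]
  by_cases hij : ‖mom i - mom j‖ ≤ Q
  · have := h i j hij
    calc (m' i : ℂ) * mulM L g i j * m j = mulM L g i j * ((m' i * m j : ℝ) : ℂ) := by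
          push_cast; ring
      _ = _ := by rw [this]
  · rw [mulM_band hQ hg (not_le.1 hij)]; simp
lemma SLa_ch_TP (i : Ix d L) : TP L ‖mom i‖ (ch (nu i)) :=
  TP.ch fun r => by
    have := norm_le_pi_norm (mom i) r
    simpa [mom] using this
lemma SLa_mul_apply (hL : Big L) {Q : ℝ} (hb : TP L Q b) (hg : Continuous g) {i : Ix d L}
    (hi : ‖mom i‖ + Q ≤ 15) (j : Ix d L) :
    (mulM L b * mulM L g) i j = mulM L (fun x => b x * g x) i j := by
  have hF : TP L 15 fun x => conj (b x) * ch (nu i) x :=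
    (hb.cj.mul (SLa_ch_TP i)).mono (by linarith)
  have e := TP.eq_fn hL hF
  have hp := fn_pair (fun k : Ix d L => coef (fun x => conj (b x) * ch (nu i) x) (nu k))
    (g := fun x => g x * ch (nu j) x) (hg.mul (continuous_ch _))
  rw [← e] at hp
  have e2 : mulM L (fun x => b x * g x) i j =
      ∫ x, conj (conj (b x) * ch (nu i) x) * (g x * ch (nu j) x) := by
    unfold mulM
    rw [← coef_mul_ch]
    unfold coef
    congr 1
    funext x
    rw [map_mul, Complex.conj_conj]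
    ring
  rw [e2, hp, mul_apply]
  simp only [dotProduct]
  refine Finset.sum_congr rfl fun k _ => ?_
  rw [Pi.star_apply, coef_mul_ch, coef_mul_ch, coef_conj, neg_sub]
  simp only [RCLike.star_def, Complex.conj_conj]
  rfl
lemma mulM_mul_left (hL : Big L) {Q : ℝ} (hb : TP L Q b) (hg : Continuous g) {m : Ix d L → ℝ}
    (hm : ∀ i, m i ≠ 0 → ‖mom i‖ + Q ≤ 15) :
    dg m * mulM L b * mulM L g = dg m * mulM L fun x => b x * g x := by
  ext i j
  rw [Matrix.mul_assoc, dg_mul_apply, dg_mul_apply]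
  by_cases h0 : m i = 0
  · simp [h0]
  · rw [SLa_mul_apply hL hb hg (hm i h0)]
lemma mulM_mul_right (hL : Big L) {Q : ℝ} (hb : TP L Q b) (hg : Continuous g) {m : Ix d L → ℝ}
    (hm : ∀ i, m i ≠ 0 → ‖mom i‖ + Q ≤ 15) :
    mulM L g * mulM L b * dg m = mulM L (fun x => g x * b x) * dg m := by
  have h1 := mulM_mul_left hL hb.cj (g := fun x => conj (g x))
    (Complex.continuous_conj.comp hg) hm
  have h2 := congrArg conjTranspose h1
  rw [conjTranspose_mul, conjTranspose_mul, conjTranspose_mul, dg_conjT, mulM_conjT, mulM_conjT,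
    mulM_conjT] at h2
  simp only [Complex.conj_conj, map_mul] at h2
  rw [Matrix.mul_assoc, h2]
  congr 2
  funext x
  ring
lemma fn_mulM (hL : Big L) {Q : ℝ} (hb : TP L Q b) {y : Ix d L → ℂ}
    (hy : ∀ i, y i ≠ 0 → ‖mom i‖ + Q ≤ 15) (x : Tor d) :
    fn (mulM L b *ᵥ y) x = b x * fn y x := by
  have h1 : TP L (15 - Q) (fn y) := fn_TP fun i hi => by linarith [hy i hi]
  have h2 : TP L 15 fun x => b x * fn y x := (hb.mul h1).mono (by linarith)
  have e := congrFun (TP.eq_fn hL h2) x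
  rw [e]
  congr 1
  funext i
  exact mulM_mulVec hb.cont y i
lemma SLa_hs_le (hL : Big L) {M : Mat d L} {F : (Fin d → ℤ) → ℝ} {S c : ℝ} (hc : 0 ≤ c)
    (hF : ∀ k, 0 ≤ F k) (hS : HasSum F S) (hM : ∀ i j, ‖M i j‖ ^ 2 ≤ c ^ 2 * F (nu i - nu j)) :
    hs M ≤ 3 ^ d * c * √(L ^ d * S) := by
  have hS0 : 0 ≤ S := hS.nonneg hF
  have h1 : ∀ i : Ix d L, ∑ j : Ix d L, F (nu i - nu j) ≤ S := by
    intro i
    have hinj : Function.Injective fun j : Ix d L => nu i - nu j := fun j k e =>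
      nu_inj (sub_right_injective e)
    have := sum_le_hasSum (Finset.univ.image fun j : Ix d L => nu i - nu j) (fun k _ => hF k) hS
    rwa [Finset.sum_image (fun j _ k _ e => hinj e)] at this
  have h2 : hs M ^ 2 ≤ (Fintype.card (Ix d L) : ℝ) * (c ^ 2 * S) := by
    rw [hs_sq]
    calc ∑ i, ∑ j, ‖M i j‖ ^ 2 ≤ ∑ _i : Ix d L, c ^ 2 * S := by
          refine Finset.sum_le_sum fun i _ => ?_
          calc ∑ j, ‖M i j‖ ^ 2 ≤ ∑ j, c ^ 2 * F (nu i - nu j) :=
                Finset.sum_le_sum fun j _ => hM i j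
            _ = c ^ 2 * ∑ j, F (nu i - nu j) := by rw [Finset.mul_sum]
            _ ≤ c ^ 2 * S := mul_le_mul_of_nonneg_left (h1 i) (by positivity)
      _ = _ := by rw [Finset.sum_const, Finset.card_univ, nsmul_eq_mul]
  have hLd : 0 ≤ L ^ d := pow_nonneg hL.pos.le d
  have h3 : hs M ≤ √(Fintype.card (Ix d L) : ℝ) * (c * √S) := by
    refine (pow_le_pow_iff_left₀ (hs_nonneg _) (by positivity) two_ne_zero).1 ?_
    rw [mul_pow, mul_pow, Real.sq_sqrt (by positivity), Real.sq_sqrt hS0]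
    exact h2
  calc hs M ≤ √(Fintype.card (Ix d L) : ℝ) * (c * √S) := h3
    _ ≤ 3 ^ d * √(L ^ d) * (c * √S) :=
        mul_le_mul_of_nonneg_right (sqrt_card_le hL) (by positivity)
    _ = _ := by rw [Real.sqrt_mul hLd]; ring
lemma SLa_norm_sq_le (i j : Ix d L) :
    ‖mom i - mom j‖ ^ 2 ≤ ∑ r, (kap L * ((nu i - nu j) r : ℤ)) ^ 2 := by
  have h0 : 0 ≤ ∑ r, (kap L * ((nu i - nu j) r : ℤ)) ^ 2 :=
    Finset.sum_nonneg fun r _ => sq_nonneg _
  have h1 : ‖mom i - mom j‖ ≤ √(∑ r, (kap L * ((nu i - nu j) r : ℤ)) ^ 2) := by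
    refine (pi_norm_le_iff_of_nonneg (Real.sqrt_nonneg _)).2 fun r => ?_
    rw [Pi.sub_apply, mom_sub, Real.norm_eq_abs]
    refine Real.abs_le_sqrt ?_
    exact Finset.single_le_sum (f := fun r => (kap L * ((nu i - nu j) r : ℤ)) ^ 2)
      (fun r _ => sq_nonneg _) (Finset.mem_univ r)
  calc ‖mom i - mom j‖ ^ 2 ≤ √(∑ r, (kap L * ((nu i - nu j) r : ℤ)) ^ 2) ^ 2 :=
        pow_le_pow_left₀ (norm_nonneg _) h1 2
    _ = _ := Real.sq_sqrt h0
lemma SLa_hs_grad (hL : Big L) (hg : C1 L g) {M : Mat d L} {c : ℝ} (hc : 0 ≤ c)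
    (hM : ∀ i j, ‖M i j‖ ≤ c * ‖mom i - mom j‖ * ‖mulM L g i j‖) :
    hs M ≤ 3 ^ d * c * √(L ^ d * Gr L g) := by
  refine SLa_hs_le hL hc (fun k => ?_) (Gr_parseval hg) fun i j => ?_
  · exact mul_nonneg (Finset.sum_nonneg fun r _ => sq_nonneg _) (sq_nonneg _)
  · calc ‖M i j‖ ^ 2 ≤ (c * ‖mom i - mom j‖ * ‖mulM L g i j‖) ^ 2 :=
          pow_le_pow_left₀ (norm_nonneg _) (hM i j) 2
      _ = c ^ 2 * (‖mom i - mom j‖ ^ 2 * ‖coef g (nu i - nu j)‖ ^ 2) := by
          unfold mulM; ring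
      _ ≤ _ := mul_le_mul_of_nonneg_left
          (mul_le_mul_of_nonneg_right (SLa_norm_sq_le i j) (sq_nonneg _)) (sq_nonneg _)
lemma hs_mulM (hL : Big L) (hg : Continuous g) :
    hs (mulM L g) ≤ 3 ^ d * √(L ^ d * ∫ x, ‖g x‖ ^ 2) := by
  have := SLa_hs_le hL (M := mulM L g) zero_le_one (fun k => sq_nonneg _) (parseval_sq hg)
    fun i j => by rw [one_pow, one_mul]; rfl
  rwa [mul_one] at this
lemma hs_cm_sy (hL : Big L) (hg : C1 L g) {m : Ix d L → ℝ} {c : ℝ} (hm : Sy m c) :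
    hs (cm (dg m) (mulM L g)) ≤ 3 ^ d * c * √(L ^ d * Gr L g) := by
  refine SLa_hs_grad hL hg hm.1 fun i j => ?_
  rw [cm_dg_apply, norm_mul, Complex.norm_real, Real.norm_eq_abs]
  exact mul_le_mul_of_nonneg_right (hm.2.2 i j) (norm_nonneg _)
lemma hs_cm_sy_real (hL : Big L) {g : Tor d → ℝ} (hg : C1 L g) {m : Ix d L → ℝ} {c : ℝ}
    (hm : Sy m c) : hs (cm (dg m) (mulM L (cx g))) ≤ 3 ^ d * c * √(L ^ d * Gr L g) := by
  rw [← Gr_cx hg]
  exact hs_cm_sy hL hg.cx hm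
lemma hs_off (hL : Big L) (hg : C1 L g) {m m' : Ix d L → ℝ} (h1 : ∀ i, |m i| ≤ 1)
    (h2 : ∀ i, |m' i| ≤ 1) {δ : ℝ} (hδ : 0 < δ)
    (h : ∀ i j, m i ≠ 0 → m' j ≠ 0 → δ ≤ ‖mom i - mom j‖) :
    hs (dg m * mulM L g * dg m') ≤ 3 ^ d / δ * √(L ^ d * Gr L g) := by
  rw [div_eq_mul_inv]
  refine SLa_hs_grad hL hg (inv_nonneg.2 hδ.le) fun i j => ?_
  rw [mul_dg_apply, dg_mul_apply]
  by_cases hi : m i = 0
  · rw [hi]; simp only [Complex.ofReal_zero, zero_mul, norm_zero]; positivity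
  by_cases hj : m' j = 0
  · rw [hj]; simp only [Complex.ofReal_zero, mul_zero, norm_zero]; positivity
  have h3 : 1 ≤ δ⁻¹ * ‖mom i - mom j‖ := by
    rw [inv_mul_eq_div, le_div_iff₀ hδ, one_mul]; exact h i j hi hj
  rw [norm_mul, norm_mul, Complex.norm_real, Complex.norm_real, Real.norm_eq_abs,
    Real.norm_eq_abs]
  have h4 := norm_nonneg (mulM L g i j)
  calc |m i| * ‖mulM L g i j‖ * |m' j| ≤ 1 * ‖mulM L g i j‖ * 1 :=
        mul_le_mul (mul_le_mul_of_nonneg_right (h1 i) h4) (h2 j) (abs_nonneg _) (by positivity)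
    _ = 1 * ‖mulM L g i j‖ := mul_one _
    _ ≤ _ := mul_le_mul_of_nonneg_right h3 h4
lemma cm_mulM_Pm (hg : C1 L g) (r : Fin d) :
    cm (mulM L g) (Pm L r) = Complex.I • mulM L (pd L r g) := by
  rw [cm_swap]
  ext i j
  unfold Pm
  rw [Matrix.neg_apply, cm_dg_apply, mom_sub, Matrix.smul_apply, smul_eq_mul]
  unfold mulM
  rw [coef_pd hg, ← mul_assoc, ← mul_assoc, Complex.I_mul_I]
  ring
end MulM

end Pool.Agent.Lib.MP_ae5e3b_mp.Sh
end

-- part Pool.Agent.Lib.MP_ae5e3b_mp.SLb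
section

open MeasureTheory Matrix Real
open scoped ComplexConjugate ComplexOrder

set_option linter.unusedSectionVars false

namespace Pool.Agent.Lib.MP_ae5e3b_mp.Sh

variable {d : ℕ} {L : ℝ}

/-- The complex kernel on the diagonal. -/
noncomputable def SLb_F (Y : Mat d L) (x : Tor d) : ℂ := ∑ i, ∑ j, Y i j * ch (nu i - nu j) x

lemma SLb_dens (Y : Mat d L) (x : Tor d) : dens Y x = (L ^ d)⁻¹ * (SLb_F Y x).re := by
  simp only [dens, SLb_F, ch_sub, mul_assoc]

lemma SLb_dens' (Y : Mat d L) : dens Y = fun x => (L ^ d)⁻¹ * (SLb_F Y x).re :=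
  funext (SLb_dens Y)

lemma SLb_F_C1 (Y : Mat d L) : C1 L (SLb_F Y) :=
  C1.sum _ fun _ _ => C1.sum _ fun _ _ => C1.const_mul _ (C1.ch _)

lemma SLb_pd_F (Y : Mat d L) (r : Fin d) (x : Tor d) :
    pd L r (SLb_F Y) x = SLb_F (Complex.I • cm (Pm L r) Y) x := by
  have e : SLb_F Y = fun x => ∑ i, ∑ j, Y i j * ch (nu i - nu j) x := rfl
  rw [e, pd_sum (g := fun i x => ∑ j, Y i j * ch (nu i - nu j) x) _
    (fun _ _ => C1.sum _ fun _ _ => C1.const_mul _ (C1.ch _))]
  refine Finset.sum_congr rfl fun i _ => ?_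
  rw [pd_sum (g := fun j x => Y i j * ch (nu i - nu j) x) _ (fun _ _ => C1.const_mul _ (C1.ch _))]
  refine Finset.sum_congr rfl fun j _ => ?_
  rw [pd_const_mul _ (C1.ch _), pd_ch, Matrix.smul_apply, Pm, cm_dg_apply, mom_sub, smul_eq_mul]
  ring

lemma SLb_conj_mul (k : Fin d → ℤ) (x : Tor d) : ch k x * conj (ch k x) = 1 := by
  rw [← ch_sub, sub_self, ch_zero]

lemma SLb_vn_e (x : Tor d) :
    vn (fun i : Ix d L => conj (ch (nu i) x)) ^ 2 = Fintype.card (Ix d L) := by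
  rw [vn_sq]
  simp only [RCLike.norm_conj, norm_ch, one_pow, Finset.sum_const, Finset.card_univ, nsmul_eq_mul,
    mul_one]

lemma SLb_card (hL : Big L) : (L ^ d)⁻¹ * (Fintype.card (Ix d L) : ℝ) ≤ 6 ^ d := by
  have h := card_le (d := d) hL
  have hp : 0 < L ^ d := pow_pos hL.pos d
  rw [inv_mul_le_iff₀ hp]; linarith [mul_comm (6 ^ d : ℝ) (L ^ d)]

lemma SLb_s_sq (hL : 0 < L) : ((√(L ^ d))⁻¹ : ℝ) ^ 2 = (L ^ d)⁻¹ := by
  rw [inv_pow, Real.sq_sqrt (pow_pos hL d).le]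

section Dens
variable {Y Z : Mat d L}
lemma dens_add (Y Z : Mat d L) (x : Tor d) : dens (Y + Z) x = dens Y x + dens Z x := by
  simp only [SLb_dens, SLb_F, Matrix.add_apply, add_mul, Finset.sum_add_distrib, Complex.add_re,
    mul_add]
lemma dens_sub (Y Z : Mat d L) (x : Tor d) : dens (Y - Z) x = dens Y x - dens Z x := by
  simp only [SLb_dens, SLb_F, Matrix.sub_apply, sub_mul, Finset.sum_sub_distrib, Complex.sub_re,
    mul_sub]
lemma dens_smul (c : ℝ) (Y : Mat d L) (x : Tor d) : dens ((c : ℂ) • Y) x = c * dens Y x := by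
  have : SLb_F ((c : ℂ) • Y) x = c * SLb_F Y x := by
    simp only [SLb_F, Matrix.smul_apply, smul_eq_mul, Finset.mul_sum, mul_assoc]
  rw [SLb_dens, SLb_dens, this, Complex.re_ofReal_mul]; ring
lemma dens_zero (x : Tor d) : dens (0 : Mat d L) x = 0 := by
  simp [dens]
lemma dens_conjT (Y : Mat d L) : dens Yᴴ = dens Y := by
  funext x
  have : SLb_F Yᴴ x = conj (SLb_F Y x) := by
    simp only [SLb_F, map_sum, map_mul, Matrix.conjTranspose_apply]
    rw [Finset.sum_comm]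
    refine Finset.sum_congr rfl fun i _ => Finset.sum_congr rfl fun j _ => ?_
    rw [← ch_neg, neg_sub]; rfl
  rw [SLb_dens, SLb_dens, this, Complex.conj_re]
lemma dens_sum {ι : Type} (s : Finset ι) (Y : ι → Mat d L) (x : Tor d) :
    dens (∑ a ∈ s, Y a) x = ∑ a ∈ s, dens (Y a) x := by
  classical
  induction s using Finset.induction_on with
  | empty => simp [dens_zero]
  | insert a s ha ih => rw [Finset.sum_insert ha, Finset.sum_insert ha, dens_add, ih]
/-- The density as a quadratic form in the point evaluation vector. -/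
lemma dens_eq_form (Y : Mat d L) (x : Tor d) :
    dens Y x = (L ^ d)⁻¹ * (star (fun i => conj (ch (nu i) x)) ⬝ᵥ
      (Y *ᵥ fun i => conj (ch (nu i) x))).re := by
  unfold dens
  congr 2
  simp only [dotProduct, mulVec, Pi.star_apply, Finset.mul_sum, RCLike.star_def,
    Complex.conj_conj]
  refine Finset.sum_congr rfl fun i _ => Finset.sum_congr rfl fun j _ => ?_
  ring
lemma dens_dg (m : Ix d L → ℝ) (x : Tor d) : dens (dg m) x = (L ^ d)⁻¹ * ∑ i, m i := by
  have : SLb_F (dg m) x = ((∑ i, m i : ℝ) : ℂ) := by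
    simp only [SLb_F, dg, Complex.ofReal_sum]
    refine Finset.sum_congr rfl fun i _ => ?_
    rw [Finset.sum_eq_single i]
    · simp [ch_zero]
    · intro j _ hj; rw [Matrix.diagonal_apply_ne _ hj.symm, zero_mul]
    · simp
  rw [SLb_dens, this, Complex.ofReal_re]
lemma dens_TP (hL : Big L) (Y : Mat d L) : TP L 32 (cx (dens Y)) := by
  rw [SLb_dens']
  refine TP.const_mul_real _ (TP.re ?_)
  refine TP.sum _ fun i _ => TP.sum _ fun j _ => TP.const_mul _ (TP.ch fun r => ?_)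
  rw [← mom_sub]
  have h1 := abs_mom_le hL i r
  have h2 := abs_mom_le hL j r
  have := abs_sub (mom i r) (mom j r)
  linarith
lemma dens_C1 (Y : Mat d L) : C1 L (dens Y) := by
  rw [SLb_dens']
  exact C1.const_mul _ (SLb_F_C1 Y).re
lemma pd_dens (Y : Mat d L) (r : Fin d) :
    pd L r (dens Y) = dens (Complex.I • cm (Pm L r) Y) := by
  funext x
  rw [SLb_dens', pd_const_mul _ (SLb_F_C1 Y).re, pd_re (SLb_F_C1 Y), SLb_pd_F, SLb_dens]
/-- The trace formula. -/
lemma dens_pair (Y : Mat d L) {b : Tor d → ℝ} (hb : Continuous b) :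
    ∫ x, b x * dens Y x = (L ^ d)⁻¹ * rtr (mulM L (cx b) * Y) := by
  have hc : ∀ i j : Ix d L, Continuous fun x => Y i j * (conj (ch (nu j - nu i) x) * cx b x) :=
    fun i j => continuous_const.mul
      ((Complex.continuous_conj.comp (continuous_ch _)).mul (continuous_cx hb))
  have e1 : ∀ x, b x * dens Y x =
      (L ^ d)⁻¹ * (∑ i, ∑ j, Y i j * (conj (ch (nu j - nu i) x) * cx b x)).re := by
    intro x
    have : ∑ i, ∑ j, Y i j * (conj (ch (nu j - nu i) x) * cx b x) = (b x : ℂ) * SLb_F Y x := by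
      simp only [SLb_F, Finset.mul_sum, cx]
      refine Finset.sum_congr rfl fun i _ => Finset.sum_congr rfl fun j _ => ?_
      rw [← ch_neg, neg_sub]; ring
    rw [this, Complex.re_ofReal_mul, SLb_dens]; ring
  simp only [e1]
  rw [integral_const_mul]
  congr 1
  have hi : Integrable fun x => ∑ i, ∑ j, Y i j * (conj (ch (nu j - nu i) x) * cx b x) :=
    cont_int (continuous_finsetSum _ fun i _ => continuous_finsetSum _ fun j _ => hc i j)
  have := integral_re hi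
  simp only [RCLike.re_to_complex] at this
  rw [this, rtr]
  congr 1
  rw [integral_finsetSum _ fun i _ =>
    cont_int (continuous_finsetSum _ fun j _ => hc i j)]
  simp only [Matrix.trace, Matrix.diag_apply, Matrix.mul_apply]
  rw [Finset.sum_comm]
  refine Finset.sum_congr rfl fun i _ => ?_
  rw [integral_finsetSum _ fun j _ => cont_int (hc i j)]
  refine Finset.sum_congr rfl fun j _ => ?_
  rw [integral_const_mul, mul_comm]; rfl
lemma dens_l2 (hL : Big L) (Y : Mat d L) :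
    ∫ x, dens Y x ^ 2 ≤ 6 ^ d * (L ^ d)⁻¹ * hs Y ^ 2 := by
  have hp : 0 < (L ^ d)⁻¹ := inv_pos.2 (pow_pos hL.pos d)
  let y : Ix d L → Ix d L → ℂ := fun i j => conj (Y i j)
  have h1 : ∀ x, dens Y x ^ 2 ≤
      ((L ^ d)⁻¹) ^ 2 * Fintype.card (Ix d L) * ∑ i, ‖fn (y i) x‖ ^ 2 := by
    intro x
    have e : SLb_F Y x = star (fun i => fn (y i) x) ⬝ᵥ fun i => ch (nu i) x := by
      simp only [SLb_F, dotProduct, Pi.star_apply, RCLike.star_def, fn, map_sum, map_mul, y,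
        Complex.conj_conj, Finset.sum_mul, ch_sub]
      refine Finset.sum_congr rfl fun i _ => Finset.sum_congr rfl fun j _ => ?_
      ring
    have h2 := dot_le (fun i => fn (y i) x) (fun i : Ix d L => ch (nu i) x)
    have h3 : vn (fun i : Ix d L => ch (nu i) x) ^ 2 = Fintype.card (Ix d L) := by
      rw [vn_sq]
      simp only [norm_ch, one_pow, Finset.sum_const, Finset.card_univ, nsmul_eq_mul, mul_one]
    rw [← e] at h2
    have h4 : (SLb_F Y x).re ^ 2 ≤ ‖SLb_F Y x‖ ^ 2 := by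
      rw [← sq_abs]; gcongr; exact Complex.abs_re_le_norm _
    rw [SLb_dens, mul_pow, mul_assoc, ← vn_sq, ← h3]
    refine mul_le_mul_of_nonneg_left (h4.trans ?_) (sq_nonneg _)
    rw [← mul_pow, mul_comm]
    gcongr
  have hc : ∀ i, Continuous fun x => ‖fn (y i) x‖ ^ 2 := fun i => (fn_cont _).norm.pow 2
  calc ∫ x, dens Y x ^ 2
      ≤ ∫ x, ((L ^ d)⁻¹) ^ 2 * Fintype.card (Ix d L) * ∑ i, ‖fn (y i) x‖ ^ 2 :=
        integral_mono (cont_int ((dens_C1 Y).cont.pow 2))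
          (cont_int (continuous_const.mul (continuous_finsetSum _ fun i _ => hc i))) h1
    _ = ((L ^ d)⁻¹ * Fintype.card (Ix d L)) * (L ^ d)⁻¹ * hs Y ^ 2 := by
        rw [integral_const_mul, integral_finsetSum _ fun i _ => cont_int (hc i), hs_sq]
        simp only [fn_l2, vn_sq, y, RCLike.norm_conj]
        ring
    _ ≤ _ := by gcongr; exact SLb_card hL
lemma Gr_dens (hL : Big L) (Y : Mat d L) :
    Gr L (dens Y) ≤ 6 ^ d * (L ^ d)⁻¹ * ∑ r, hs (cm (Pm L r) Y) ^ 2 := by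
  rw [Gr_real, Finset.mul_sum]
  refine Finset.sum_le_sum fun r _ => ?_
  rw [pd_dens]
  refine (dens_l2 hL _).trans (le_of_eq ?_)
  rw [hs_smul, Complex.norm_I, one_mul]
lemma Gr_dens_crude (hL : Big L) (Y : Mat d L) :
    Gr L (dens Y) ≤ 1024 * d * 6 ^ d * (L ^ d)⁻¹ * hs Y ^ 2 := by
  have hp : 0 < (L ^ d)⁻¹ := inv_pos.2 (pow_pos hL.pos d)
  refine (Gr_dens hL Y).trans ?_
  have h1 : ∑ r : Fin d, hs (cm (Pm L r) Y) ^ 2 ≤ ∑ _r : Fin d, (2 * 16 * hs Y) ^ 2 := by
    refine Finset.sum_le_sum fun r _ => ?_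
    have := (Pm_opB hL r).hs_cm_left Y
    have := hs_nonneg (cm (Pm L r) Y)
    gcongr
  rw [Finset.sum_const, Finset.card_univ, Fintype.card_fin, nsmul_eq_mul] at h1
  calc _ ≤ 6 ^ d * (L ^ d)⁻¹ * (d * (2 * 16 * hs Y) ^ 2) := by gcongr
    _ = _ := by ring
lemma abs_dens_le (hL : Big L) {c : ℝ} (hY : OpB Y c) (x : Tor d) : |dens Y x| ≤ 6 ^ d * c := by
  have hp : 0 < (L ^ d)⁻¹ := inv_pos.2 (pow_pos hL.pos d)
  have h1 := hY.form (fun i => conj (ch (nu i) x)) (fun i => conj (ch (nu i) x))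
  rw [mul_assoc, ← sq, SLb_vn_e] at h1
  rw [dens_eq_form, abs_mul, abs_of_pos hp]
  calc _ ≤ (L ^ d)⁻¹ * (c * Fintype.card (Ix d L)) := by
        gcongr; exact (Complex.abs_re_le_norm _).trans h1
    _ = ((L ^ d)⁻¹ * Fintype.card (Ix d L)) * c := by ring
    _ ≤ _ := mul_le_mul_of_nonneg_right (SLb_card hL) hY.nonneg
lemma abs_pd_dens_le (hL : Big L) {c : ℝ} (hY : OpB Y c) (r : Fin d) (x : Tor d) :
    |pd L r (dens Y) x| ≤ 32 * 6 ^ d * c := by
  rw [pd_dens]
  refine (abs_dens_le hL (((Pm_opB hL r).cm hY).smul Complex.I) x).trans (le_of_eq ?_)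
  rw [Complex.norm_I]; ring
lemma dens_nonneg (hL : 0 < L) (hY : Y.PosSemidef) (x : Tor d) : 0 ≤ dens Y x := by
  rw [dens_eq_form]
  refine mul_nonneg (inv_pos.2 (pow_pos hL d)).le ?_
  exact (Complex.nonneg_iff.1 (hY.dotProduct_mulVec_nonneg _)).1
end Dens

section Orb
variable {Y Z : Mat d L}
lemma orb_add (Y Z : Mat d L) (a : Ix d L) (x : Tor d) :
    orb (Y + Z) a x = orb Y a x + orb Z a x := by
  simp only [orb, fn, Matrix.add_apply, add_mul, Finset.sum_add_distrib, mul_add]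
lemma orb_sub (Y Z : Mat d L) (a : Ix d L) (x : Tor d) :
    orb (Y - Z) a x = orb Y a x - orb Z a x := by
  simp only [orb, fn, Matrix.sub_apply, sub_mul, Finset.sum_sub_distrib, mul_sub]
lemma orb_smul (c : ℂ) (Y : Mat d L) (a : Ix d L) (x : Tor d) :
    orb (c • Y) a x = c * orb Y a x := by
  simp only [orb, fn, Matrix.smul_apply, smul_eq_mul, Finset.mul_sum]
  refine Finset.sum_congr rfl fun i _ => ?_
  ring
lemma orb_mul (Y Z : Mat d L) (a : Ix d L) (x : Tor d) :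
    orb (Y * Z) a x = ∑ b, orb Y b x * Z b a := by
  simp only [orb, fn, Matrix.mul_apply, Finset.mul_sum, Finset.sum_mul]
  rw [Finset.sum_comm]
  refine Finset.sum_congr rfl fun i _ => Finset.sum_congr rfl fun j _ => ?_
  ring
lemma orb_C1 (Y : Mat d L) (a : Ix d L) : C1 L (orb Y a) := C1.const_mul _ (fn_C1 _)
lemma orb_TP {t : ℝ} {m : Ix d L → ℝ} (hm : ∀ i, m i ≠ 0 → ‖mom i‖ ≤ t) (Y : Mat d L) (a : Ix d L) :
    TP L t (orb (dg m * Y) a) := by
  refine TP.const_mul _ (fn_TP fun i hi => hm i fun h0 => hi ?_)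
  simp [dg_mul_apply, h0]
lemma pd_orb (Y : Mat d L) (a : Ix d L) (r : Fin d) :
    pd L r (orb Y a) = orb (Complex.I • (Pm L r * Y)) a := by
  funext x
  have e : orb Y a = fun x => (((√(L ^ d))⁻¹ : ℝ) : ℂ) * fn (fun i => Y i a) x := rfl
  rw [e, pd_const_mul _ (fn_C1 _), pd_fn]
  rfl
lemma orb_dens (hL : 0 < L) (Y Z : Mat d L) (x : Tor d) :
    ∑ a, (conj (orb Y a x) * orb Z a x).re = dens (Z * Yᴴ) x := by
  rw [← Complex.re_sum, dens, ← SLb_s_sq hL, ← Complex.re_ofReal_mul]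
  congr 1
  simp only [orb, fn, map_mul, map_sum, Complex.conj_ofReal, Matrix.mul_apply,
    Matrix.conjTranspose_apply, RCLike.star_def, Finset.mul_sum, Finset.sum_mul]
  rw [Finset.sum_comm]
  refine Finset.sum_congr rfl fun i _ => ?_
  rw [Finset.sum_comm]
  refine Finset.sum_congr rfl fun j _ => Finset.sum_congr rfl fun a _ => ?_
  push_cast; ring
lemma orb_normsq (hL : 0 < L) (Y : Mat d L) (x : Tor d) :
    ∑ a, ‖orb Y a x‖ ^ 2 = dens (Y * Yᴴ) x := by
  rw [← orb_dens hL]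
  refine Finset.sum_congr rfl fun a _ => ?_
  rw [Complex.conj_mul', ← Complex.ofReal_pow, Complex.ofReal_re]
lemma orb_normsq_le (hL : Big L) {c : ℝ} (hY : OpB Y c) (x : Tor d) :
    ∑ a, ‖orb Y a x‖ ^ 2 ≤ 6 ^ d * c ^ 2 := by
  rw [orb_normsq hL.pos, sq]
  exact (le_abs_self _).trans (abs_dens_le hL (hY.mul hY.conjT) x)
lemma SLb_norm_s (hL : 0 < L) (z : ℂ) :
    ‖(((√(L ^ d))⁻¹ : ℝ) : ℂ) * z‖ ^ 2 = (L ^ d)⁻¹ * ‖z‖ ^ 2 := by
  rw [norm_mul, mul_pow, Complex.norm_real, Real.norm_eq_abs, sq_abs, SLb_s_sq hL]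
lemma orb_l2 (hL : 0 < L) (Y : Mat d L) :
    ∑ a, ∫ x, ‖orb Y a x‖ ^ 2 = (L ^ d)⁻¹ * hs Y ^ 2 := by
  rw [hs_sq_col, Finset.mul_sum]
  refine Finset.sum_congr rfl fun a _ => ?_
  simp only [orb, SLb_norm_s hL]
  rw [integral_const_mul, fn_l2]
lemma orb_pair (hL : 0 < L) (Y Z : Mat d L) {g : Tor d → ℂ} (hg : Continuous g) :
    ∑ a, ∫ x, conj (orb Y a x) * (g x * orb Z a x) =
      (((L ^ d)⁻¹ : ℝ) : ℂ) * trace (Yᴴ * mulM L g * Z) := by
  rw [Matrix.trace, Finset.mul_sum]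
  refine Finset.sum_congr rfl fun a _ => ?_
  have e : (Yᴴ * mulM L g * Z).diag a =
      star (fun i => Y i a) ⬝ᵥ (mulM L g *ᵥ fun i => Z i a) := by
    rw [Matrix.mul_assoc]; rfl
  rw [e, mulM_form hg, ← integral_const_mul, ← SLb_s_sq hL]
  congr 1; ext x
  simp only [orb, map_mul, Complex.conj_ofReal]
  push_cast; ring
lemma orb_comb (hL : 0 < L) (Y : Mat d L) (c : Ix d L → ℂ) :
    L ^ d * ∫ x, ‖∑ a, c a * orb Y a x‖ ^ 2 = vn (Y *ᵥ c) ^ 2 := by
  have e : ∀ x, ∑ a, c a * orb Y a x = (((√(L ^ d))⁻¹ : ℝ) : ℂ) * fn (Y *ᵥ c) x := by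
    intro x
    simp only [orb, fn, mulVec, dotProduct, Finset.mul_sum, Finset.sum_mul]
    rw [Finset.sum_comm]
    refine Finset.sum_congr rfl fun i _ => Finset.sum_congr rfl fun j _ => ?_
    ring
  simp only [e, SLb_norm_s hL]
  rw [integral_const_mul, fn_l2, ← mul_assoc, mul_inv_cancel₀ (pow_pos hL d).ne', one_mul]
lemma orb_Bes (hL : 0 < L) (hY : OpB Y 1) : Bes L (orb Y) := by
  intro c
  rw [orb_comb hL, ← vn_sq]
  have h1 := hY.2 c
  rw [one_mul] at h1
  have := vn_nonneg (Y *ᵥ c)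
  gcongr

lemma SLb_coef_fn (y : Ix d L → ℂ) {k : Fin d → ℤ} (hk : ∀ i : Ix d L, nu i ≠ k) :
    coef (fn y) k = 0 := by
  have e : fn y = fun x => ∑ i, y i * ch (nu i) x := rfl
  rw [e, coef_sum (g := fun i x => y i * ch (nu i) x) _
    fun i _ => continuous_const.mul (continuous_ch _)]
  refine Finset.sum_eq_zero fun i _ => ?_
  rw [coef_const_mul, coef_ch, if_neg (hk i).symm, mul_zero]

lemma SLb_coef_mul {g : Tor d → ℂ} (hg : Continuous g) (y : Ix d L → ℂ) (k : Fin d → ℤ) :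
    coef (fun x => g x * fn y x) k = ∑ i, y i * coef g (k - nu i) := by
  have e : (fun x => g x * fn y x) = fun x => ∑ i, y i * (g x * ch (nu i) x) := by
    funext x
    simp only [fn, Finset.mul_sum]
    refine Finset.sum_congr rfl fun i _ => ?_
    ring
  rw [e, coef_sum (g := fun i x => y i * (g x * ch (nu i) x)) _
    fun i _ => continuous_const.mul (hg.mul (continuous_ch _))]
  refine Finset.sum_congr rfl fun i _ => ?_
  rw [coef_const_mul, coef_mul_ch]

/-- The part of a product that leaves the box of modes. -/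
lemma out_box (hL : Big L) {g : Tor d → ℂ} (hg : C1 L g) {m : Ix d L → ℝ} (h1 : ∀ i, |m i| ≤ 1)
    (hm : ∀ i, m i ≠ 0 → ‖mom i‖ ≤ 14) {c : ℝ} (hY : OpB Y c) :
    ∑ a, ∫ x, ‖g x * orb (dg m * Y) a x - orb (mulM L g * (dg m * Y)) a x‖ ^ 2 ≤
      6 ^ d * c ^ 2 * Gr L g := by
  have hp : 0 < (L ^ d)⁻¹ := inv_pos.2 (pow_pos hL.pos d)
  let y : Ix d L → Ix d L → ℂ := fun a i => (dg m * Y) i a
  let R : Ix d L → Tor d → ℂ := fun a x => g x * fn (y a) x - fn (mulM L g *ᵥ y a) x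
  have Rc : ∀ a, Continuous (R a) := fun a => (hg.cont.mul (fn_cont _)).sub (fn_cont _)
  have e1 : ∀ a x, g x * orb (dg m * Y) a x - orb (mulM L g * (dg m * Y)) a x =
      (((√(L ^ d))⁻¹ : ℝ) : ℂ) * R a x := by
    intro a x
    have : (fun i => (mulM L g * (dg m * Y)) i a) = mulM L g *ᵥ y a := rfl
    simp only [orb, R, this, y]; ring
  simp only [e1, SLb_norm_s hL.pos, integral_const_mul]
  rw [← Finset.mul_sum]
  let W : (Fin d → ℤ) → ℝ := fun k => (∑ r, (kap L * k r) ^ 2) * ‖coef g k‖ ^ 2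
  have W0 : ∀ k, 0 ≤ W k := fun k => by positivity
  have s1 : HasSum (fun k => ∑ a, ‖coef (R a) k‖ ^ 2) (∑ a, ∫ x, ‖R a x‖ ^ 2) :=
    hasSum_sum fun a _ => parseval_sq (Rc a)
  have s2 : HasSum (fun k => c ^ 2 * ∑ i : Ix d L, W (k - nu i))
      (c ^ 2 * ∑ _i : Ix d L, Gr L g) := by
    refine HasSum.mul_left _ (hasSum_sum fun i _ => ?_)
    exact (Equiv.subRight (nu i)).hasSum_iff.2 (Gr_parseval hg)
  have key : ∀ k, ∑ a, ‖coef (R a) k‖ ^ 2 ≤ c ^ 2 * ∑ i : Ix d L, W (k - nu i) := by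
    intro k
    have eR : ∀ a, coef (R a) k =
        coef (fun x => g x * fn (y a) x) k - coef (fn (mulM L g *ᵥ y a)) k :=
      fun a => coef_sub (hg.cont.mul (fn_cont _)) (fn_cont _) k
    by_cases hk : ∃ i : Ix d L, nu i = k
    · obtain ⟨i, rfl⟩ := hk
      have : ∀ a, coef (R a) (nu i) = 0 := fun a => by
        rw [eR, coef_fn, mulM_mulVec hg.cont, sub_self]
      simp only [this, norm_zero, ne_eq, OfNat.ofNat_ne_zero, not_false_eq_true, zero_pow,
        Finset.sum_const_zero]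
      exact mul_nonneg (sq_nonneg _) (Finset.sum_nonneg fun i _ => W0 _)
    · have hk' : ∀ i : Ix d L, nu i ≠ k := fun i h => hk ⟨i, h⟩
      obtain ⟨r, hr⟩ : ∃ r, 15 < |kap L * k r| := by
        by_contra hcon
        exact hk (exists_ix hL fun r => not_lt.1 fun h => hcon ⟨r, h⟩)
      let z : Ix d L → ℂ := fun i => conj ((m i : ℂ) * coef g (k - nu i))
      have e2 : ∀ a, coef (R a) k = conj ((Yᴴ *ᵥ z) a) := by
        intro a
        rw [eR, SLb_coef_fn _ hk', sub_zero, SLb_coef_mul hg.cont]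
        simp only [mulVec, dotProduct, map_sum, map_mul, Matrix.conjTranspose_apply,
          RCLike.star_def, Complex.conj_conj, z, y, dg_mul_apply]
        refine Finset.sum_congr rfl fun i _ => ?_
        ring
      simp only [e2, RCLike.norm_conj]
      rw [← vn_sq]
      have h2 := hY.conjT.2 z
      have h3 : vn z ^ 2 ≤ ∑ i : Ix d L, W (k - nu i) := by
        rw [vn_sq]
        refine Finset.sum_le_sum fun i _ => ?_
        simp only [z, RCLike.norm_conj, norm_mul, mul_pow, Complex.norm_real, Real.norm_eq_abs, W]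
        by_cases h0 : m i = 0
        · rw [h0]; simp only [abs_zero, ne_eq, OfNat.ofNat_ne_zero, not_false_eq_true, zero_pow,
            zero_mul]; positivity
        · gcongr
          have a1 : |mom i r| ≤ 14 := by
            rw [← Real.norm_eq_abs]; exact (norm_le_pi_norm _ r).trans (hm i h0)
          have a2 : 1 ≤ |kap L * ((k - nu i) r : ℤ)| := by
            have : kap L * ((k - nu i) r : ℤ) = kap L * k r - mom i r := by
              simp only [mom, Pi.sub_apply]; push_cast; ring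
            rw [this]
            have := abs_sub_abs_le_abs_sub (kap L * k r) (mom i r)
            linarith
          have a3 : |m i| ^ 2 ≤ 1 := pow_le_one₀ (abs_nonneg _) (h1 i)
          have a4 : 1 ≤ (kap L * ((k - nu i) r : ℤ)) ^ 2 := by
            rw [← sq_abs]; exact one_le_pow₀ a2
          refine a3.trans (a4.trans ?_)
          simp only [← mul_pow]
          exact Finset.single_le_sum (f := fun r => (kap L * ((k - nu i) r : ℤ)) ^ 2)
            (fun r _ => sq_nonneg _) (Finset.mem_univ r)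
      have := vn_nonneg (Yᴴ *ᵥ z)
      calc _ ≤ (c * vn z) ^ 2 := by gcongr
        _ = c ^ 2 * vn z ^ 2 := mul_pow _ _ _
        _ ≤ _ := by gcongr
  have h5 := hasSum_le key s1 s2
  rw [Finset.sum_const, Finset.card_univ, nsmul_eq_mul] at h5
  have G0 := Gr_nonneg (L := L) g
  calc _ ≤ (L ^ d)⁻¹ * (c ^ 2 * (Fintype.card (Ix d L) * Gr L g)) := by gcongr
    _ = ((L ^ d)⁻¹ * Fintype.card (Ix d L)) * (c ^ 2 * Gr L g) := by ring
    _ ≤ 6 ^ d * (c ^ 2 * Gr L g) := by gcongr; exact SLb_card hL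
    _ = _ := by ring
end Orb

end Pool.Agent.Lib.MP_ae5e3b_mp.Sh
end

-- part Pool.Agent.Lib.MP_ae5e3b_mp.SSy
section

open MeasureTheory Matrix Real
open scoped ComplexConjugate ComplexOrder

set_option linter.unusedSectionVars false

namespace Pool.Agent.Lib.MP_ae5e3b_mp.Sh

variable {d : ℕ} {L : ℝ}

lemma cut_nonneg (a t : ℝ) : 0 ≤ cut a t :=
  mul_nonneg (smoothTransition.nonneg _) (smoothTransition.nonneg _)
lemma cut_le_one (a t : ℝ) : cut a t ≤ 1 :=
  mul_le_one₀ (smoothTransition.le_one _) (smoothTransition.nonneg _) (smoothTransition.le_one _)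
lemma cut_eq_one {a t : ℝ} (h : |t| ≤ a) : cut a t = 1 := by
  obtain ⟨h1, h2⟩ := abs_le.1 h
  rw [cut, smoothTransition.one_of_one_le (by linarith),
    smoothTransition.one_of_one_le (by linarith), mul_one]
lemma cut_eq_zero {a t : ℝ} (h : a + 1 ≤ |t|) : cut a t = 0 := by
  rcases le_abs.1 h with h1 | h1
  · rw [cut, smoothTransition.zero_of_nonpos (x := a + 1 - t) (by linarith), zero_mul]
  · rw [cut, smoothTransition.zero_of_nonpos (x := a + 1 + t) (by linarith), mul_zero]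

section P
variable {p : Fin d → ℝ}
lemma SSy_abs_le (p : Fin d → ℝ) (r : Fin d) : |p r| ≤ ‖p‖ := norm_le_pi_norm p r
lemma SSy_exists {t : ℝ} (ht : 0 < t) (h : t ≤ ‖p‖) : ∃ r, t ≤ |p r| := by
  by_contra hc
  push Not at hc
  exact absurd ((pi_norm_lt_iff ht).2 hc) (not_lt.2 h)
lemma SSy_term_nonneg (t : ℝ) : 0 ≤ t ^ 2 * cut 12 t + 169 * (1 - cut 12 t) :=
  add_nonneg (mul_nonneg (sq_nonneg _) (cut_nonneg _ _))
    (mul_nonneg (by norm_num) (sub_nonneg.2 (cut_le_one _ _)))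
lemma SSy_term_le (t : ℝ) : t ^ 2 * cut 12 t + 169 * (1 - cut 12 t) ≤ 169 := by
  by_cases h : 12 + 1 ≤ |t|
  · rw [cut_eq_zero h]
    norm_num
  · have h1 : t ^ 2 ≤ 169 := by
      rw [← sq_abs]
      nlinarith [abs_nonneg t]
    nlinarith [cut_nonneg 12 t]
lemma phiS_nonneg (p : Fin d → ℝ) : 0 ≤ phiS p := Finset.prod_nonneg fun _ _ => cut_nonneg _ _
lemma phiS_le_one (p : Fin d → ℝ) : phiS p ≤ 1 :=
  Finset.prod_le_one (fun _ _ => cut_nonneg _ _) fun _ _ => cut_le_one _ _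
lemma abs_phiS_le (p : Fin d → ℝ) : |phiS p| ≤ 1 := by
  rw [abs_of_nonneg (phiS_nonneg p)]
  exact phiS_le_one p
lemma phiS_eq_one (h : ‖p‖ ≤ 10) : phiS p = 1 :=
  Finset.prod_eq_one fun r _ => cut_eq_one ((SSy_abs_le p r).trans h)
lemma phiS_eq_zero (h : 11 ≤ ‖p‖) : phiS p = 0 := by
  obtain ⟨r, hr⟩ := SSy_exists (by norm_num) h
  exact Finset.prod_eq_zero (Finset.mem_univ r) (cut_eq_zero (by linarith))
lemma epsS_nonneg (p : Fin d → ℝ) : 0 ≤ epsS p := Finset.sum_nonneg fun _ _ => SSy_term_nonneg _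
lemma epsS_le (p : Fin d → ℝ) : epsS p ≤ 169 * d := by
  have := Finset.sum_le_sum (s := Finset.univ) fun r _ => SSy_term_le (p r)
  rw [Finset.sum_const, Finset.card_univ, Fintype.card_fin, nsmul_eq_mul, mul_comm] at this
  exact this
lemma epsS_eq (h : ‖p‖ ≤ 12) : epsS p = ∑ r, p r ^ 2 :=
  Finset.sum_congr rfl fun r _ => by
    rw [cut_eq_one ((SSy_abs_le p r).trans h)]
    ring
lemma le_epsS {t : ℝ} (h0 : 0 ≤ t) (h1 : t ≤ 12) (h : t ≤ ‖p‖) : t ^ 2 ≤ epsS p := by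
  rcases h0.eq_or_lt with e | e
  · rw [← e]
    simpa using epsS_nonneg p
  · obtain ⟨r, hr⟩ := SSy_exists e h
    refine le_trans ?_ (Finset.single_le_sum (fun r _ => SSy_term_nonneg (p r)) (Finset.mem_univ r))
    have h2 : t ^ 2 ≤ p r ^ 2 := by
      rw [← sq_abs (p r)]
      exact pow_le_pow_left₀ h0 hr 2
    have h3 : t ^ 2 ≤ 169 := by nlinarith
    nlinarith [mul_le_mul_of_nonneg_right h2 (cut_nonneg 12 (p r)),
      mul_le_mul_of_nonneg_right h3 (sub_nonneg.2 (cut_le_one 12 (p r)))]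
lemma piS_eq (j : Fin d) (h : ‖p‖ ≤ 11) : piS j p = p j := by
  rw [piS, Finset.prod_eq_one fun r _ => cut_eq_one ((SSy_abs_le p r).trans h), mul_one]
lemma piS_eq_zero (j : Fin d) (h : 12 ≤ ‖p‖) : piS j p = 0 := by
  obtain ⟨r, hr⟩ := SSy_exists (by norm_num) h
  rw [piS, Finset.prod_eq_zero (Finset.mem_univ r) (cut_eq_zero (by linarith)), mul_zero]
lemma norm_sq_le_sum (p : Fin d → ℝ) : ‖p‖ ^ 2 ≤ ∑ r, p r ^ 2 := by
  rcases (norm_nonneg p).eq_or_lt with e | e
  · rw [← e]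
    simpa using Finset.sum_nonneg fun r _ => sq_nonneg (p r)
  · obtain ⟨r, hr⟩ := SSy_exists e le_rfl
    refine le_trans ?_ (Finset.single_le_sum (fun r _ => sq_nonneg (p r)) (Finset.mem_univ r))
    rw [← sq_abs (p r)]
    exact pow_le_pow_left₀ e.le hr 2
end P

lemma SSy_pos (hL : Big L) : 0 < L := lt_of_lt_of_le (by positivity) hL
lemma SSy_kap_pos (hL : 0 < L) : 0 < kap L := by
  unfold kap
  positivity
lemma SSy_kap_le (hL : Big L) : kap L ≤ 1 / 2 := by
  rw [kap, div_le_iff₀ (SSy_pos hL)]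
  unfold Big at hL
  linarith

lemma norm_momS_sub (hL : 0 < L) (j : Fin d) (i : Ix d L) : ‖momS j i - mom i‖ ≤ kap L := by
  rw [momS, add_sub_cancel_left, Pi.norm_single, Real.norm_of_nonneg (SSy_kap_pos hL).le]
lemma norm_momS_le (hL : Big L) (j : Fin d) (i : Ix d L) : ‖momS j i‖ ≤ ‖mom i‖ + 1 / 2 := by
  have h1 := norm_momS_sub (SSy_pos hL) j i
  have h2 := norm_sub_norm_le (momS j i) (mom i)
  linarith [SSy_kap_le hL]
lemma le_norm_momS (hL : Big L) (j : Fin d) (i : Ix d L) : ‖mom i‖ - 1 / 2 ≤ ‖momS j i‖ := by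
  have h1 := norm_momS_sub (SSy_pos hL) j i
  have h2 := norm_sub_norm_le (mom i) (momS j i)
  rw [norm_sub_rev] at h2
  linarith [SSy_kap_le hL]
lemma epsS_shift (hL : Big L) (j : Fin d) {i : Ix d L} (h : ‖mom i‖ ≤ 11) :
    (epsS (momS j i) - epsS (mom i)) / kap L = 2 * mom i j + kap L := by
  have h1 := norm_momS_le hL j i
  rw [epsS_eq (p := momS j i) (by linarith), epsS_eq (p := mom i) (by linarith),
    ← Finset.sum_sub_distrib, Finset.sum_eq_single j, div_eq_iff (SSy_kap_pos (SSy_pos hL)).ne']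
  · simp only [momS, Pi.add_apply, Pi.single_eq_same]
    ring
  · intro r _ hr
    simp [momS, Pi.single_eq_of_ne hr]
  · simp
lemma piS_shift (hL : Big L) (j : Fin d) {i : Ix d L} (h : ‖mom i‖ ≤ 10) :
    piS j (momS j i) = mom i j + kap L := by
  have h1 := norm_momS_le hL j i
  rw [piS_eq j (by linarith)]
  simp [momS]

lemma lo_of_le {t : ℝ} {i : Ix d L} (h : ‖mom i‖ ≤ t) : lo L t i = 1 := if_pos h
lemma lo_of_lt {t : ℝ} {i : Ix d L} (h : t < ‖mom i‖) : lo L t i = 0 := if_neg (not_le.2 h)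
lemma hi_of_le {t : ℝ} {i : Ix d L} (h : ‖mom i‖ ≤ t) : hi L t i = 0 := by
  rw [hi, lo_of_le h, sub_self]
lemma hi_of_lt {t : ℝ} {i : Ix d L} (h : t < ‖mom i‖) : hi L t i = 1 := by
  rw [hi, lo_of_lt h, sub_zero]
lemma abs_lo_le (t : ℝ) (i : Ix d L) : |lo L t i| ≤ 1 := by
  rcases le_or_gt ‖mom i‖ t with h | h
  · simp [lo_of_le h]
  · simp [lo_of_lt h]
lemma abs_hi_le (t : ℝ) (i : Ix d L) : |hi L t i| ≤ 1 := by
  rcases le_or_gt ‖mom i‖ t with h | h
  · simp [hi_of_le h]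
  · simp [hi_of_lt h]
lemma lo_ne {t : ℝ} {i : Ix d L} (h : lo L t i ≠ 0) : ‖mom i‖ ≤ t :=
  not_lt.1 fun h' => h (lo_of_lt h')
lemma hi_ne {t : ℝ} {i : Ix d L} (h : hi L t i ≠ 0) : t < ‖mom i‖ :=
  not_le.1 fun h' => h (hi_of_le h')
lemma sc_of_le {t : ℝ} {i : Ix d L} (h : ‖mom i‖ ≤ t) : sc L t i = 0 :=
  max_eq_left ((min_le_right _ _).trans (sub_nonpos.2 h))
lemma sc_of_ge {t : ℝ} {i : Ix d L} (h : t + 1 ≤ ‖mom i‖) : sc L t i = 1 := by
  rw [sc, min_eq_left (by linarith), max_eq_right zero_le_one]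
lemma sc_nonneg (t : ℝ) (i : Ix d L) : 0 ≤ sc L t i := le_max_left _ _
lemma sc_le_one (t : ℝ) (i : Ix d L) : sc L t i ≤ 1 := max_le zero_le_one (min_le_left _ _)
lemma sc_ne {t : ℝ} {i : Ix d L} (h : sc L t i ≠ 0) : t < ‖mom i‖ :=
  not_le.1 fun h' => h (sc_of_le h')
lemma SSy_sc_lip (t : ℝ) (i j : Ix d L) : |sc L t i - sc L t j| ≤ ‖mom i - mom j‖ := by
  have h1 := abs_max_sub_max_le_max 0 (min 1 (‖mom i‖ - t)) 0 (min 1 (‖mom j‖ - t))
  have h2 := abs_min_sub_min_le_max 1 (‖mom i‖ - t) 1 (‖mom j‖ - t)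
  have h3 := abs_norm_sub_norm_le (mom i) (mom j)
  rw [sub_self, abs_zero] at h1 h2
  rw [sub_sub_sub_cancel_right] at h2
  exact h1.trans (max_le (norm_nonneg _) (h2.trans (max_le (norm_nonneg _) h3)))
lemma sy_sc (t : ℝ) : Sy (sc L t : Ix d L → ℝ) 1 :=
  ⟨zero_le_one, fun i => by rw [abs_of_nonneg (sc_nonneg t i)]; exact sc_le_one t i,
    fun i j => by rw [one_mul]; exact SSy_sc_lip t i j⟩
lemma sy_one_sub_sc (t : ℝ) : Sy (fun i : Ix d L => 1 - sc L t i) 1 := by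
  refine ⟨zero_le_one, fun i => ?_, fun i j => ?_⟩
  · rw [abs_of_nonneg (sub_nonneg.2 (sc_le_one t i))]
    linarith [sc_nonneg t i]
  · rw [one_mul, sub_sub_sub_cancel_left, abs_sub_comm]
    exact SSy_sc_lip t i j
lemma P6_conjT : (P6 d L)ᴴ = P6 d L := dg_conjT _
lemma P6_opB : OpB (P6 d L) 1 := opB_dg zero_le_one (abs_lo_le 6)
lemma P6_mul : P6 d L * P6 d L = P6 d L := by
  rw [P6, dg_mul]
  congr 1
  funext i
  rcases le_or_gt ‖mom i‖ 6 with h | h
  · simp [lo_of_le h]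
  · simp [lo_of_lt h]
lemma Ph_conjT : (Ph d L)ᴴ = Ph d L := dg_conjT _
lemma Ph_opB : OpB (Ph d L) 1 := opB_dg zero_le_one fun _ => abs_phiS_le _

namespace Sy
variable {m m' : Ix d L → ℝ} {c c' : ℝ}
lemma mono (h : Sy m c) (hc : c ≤ c') : Sy m c' :=
  ⟨h.1.trans hc, fun i => (h.2.1 i).trans hc,
    fun i j => (h.2.2 i j).trans (mul_le_mul_of_nonneg_right hc (norm_nonneg _))⟩
lemma opB (h : Sy m c) : OpB (dg m) c := opB_dg h.1 h.2.1
lemma add (h : Sy m c) (h' : Sy m' c') : Sy (fun i => m i + m' i) (c + c') := by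
  refine ⟨add_nonneg h.1 h'.1, fun i => (abs_add_le _ _).trans (add_le_add (h.2.1 i) (h'.2.1 i)),
    fun i j => ?_⟩
  rw [add_sub_add_comm, add_mul]
  exact (abs_add_le _ _).trans (add_le_add (h.2.2 i j) (h'.2.2 i j))
lemma sub (h : Sy m c) (h' : Sy m' c') : Sy (fun i => m i - m' i) (c + c') := by
  refine ⟨add_nonneg h.1 h'.1, fun i => (abs_sub _ _).trans (add_le_add (h.2.1 i) (h'.2.1 i)),
    fun i j => ?_⟩
  rw [sub_sub_sub_comm, add_mul]
  exact (abs_sub _ _).trans (add_le_add (h.2.2 i j) (h'.2.2 i j))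
lemma mul (h : Sy m c) (h' : Sy m' c') : Sy (fun i => m i * m' i) (2 * c * c') := by
  have h0 := mul_nonneg h.1 h'.1
  refine ⟨by linarith, fun i => ?_, fun i j => ?_⟩
  · rw [abs_mul]
    have := mul_le_mul (h.2.1 i) (h'.2.1 i) (abs_nonneg _) h.1
    linarith
  · have e : m i * m' i - m j * m' j = m i * (m' i - m' j) + (m i - m j) * m' j := by ring
    rw [e]
    refine (abs_add_le _ _).trans ?_
    rw [abs_mul, abs_mul]
    have h1 := mul_le_mul (h.2.1 i) (h'.2.2 i j) (abs_nonneg _) h.1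
    have h2 := mul_le_mul (h.2.2 i j) (h'.2.1 j) (abs_nonneg _)
      (mul_nonneg h.1 (norm_nonneg _))
    linarith
lemma const_mul (a : ℝ) (h : Sy m c) : Sy (fun i => a * m i) (|a| * c) := by
  refine ⟨mul_nonneg (abs_nonneg a) h.1, fun i => ?_, fun i j => ?_⟩
  · rw [abs_mul]
    exact mul_le_mul_of_nonneg_left (h.2.1 i) (abs_nonneg a)
  · rw [← mul_sub, abs_mul, mul_assoc]
    exact mul_le_mul_of_nonneg_left (h.2.2 i j) (abs_nonneg a)
lemma const (a : ℝ) : Sy (fun _ : Ix d L => a) |a| :=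
  ⟨abs_nonneg a, fun _ => le_rfl, fun i j => by
    rw [sub_self, abs_zero]
    positivity⟩
end Sy
lemma sy_mom (hL : Big L) (r : Fin d) : Sy (fun i : Ix d L => mom i r) 16 := by
  refine ⟨by norm_num, fun i => abs_mom_le hL i r, fun i j => ?_⟩
  have h1 : |mom i r - mom j r| ≤ ‖mom i - mom j‖ := SSy_abs_le (mom i - mom j) r
  linarith [norm_nonneg (mom i - mom j)]

end Pool.Agent.Lib.MP_ae5e3b_mp.Sh
end

-- part Pool.Agent.Lib.MP_ae5e3b_mp.SSz
section

open MeasureTheory Matrix Real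
open scoped ComplexConjugate ComplexOrder

set_option linter.unusedSectionVars false

namespace Pool.Agent.Lib.MP_ae5e3b_mp.Sh

variable {d : ℕ} {L : ℝ}

/-- Bounded functions with bounded first and second differences. -/
def SSz_T {E : Type} [NormedAddCommGroup E] (F : E → ℝ) (c : ℝ) : Prop :=
  0 ≤ c ∧ (∀ p, |F p| ≤ c) ∧ (∀ p q, |F p - F q| ≤ c * ‖p - q‖) ∧
    ∀ p q v, |F (p + v) - F p - (F (q + v) - F q)| ≤ c * ‖v‖ * ‖p - q‖

lemma SSz_mono {E : Type} [NormedAddCommGroup E] {F : E → ℝ} {c c' : ℝ} (h : SSz_T F c)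
    (hc : c ≤ c') : SSz_T F c' :=
  ⟨h.1.trans hc, fun p => (h.2.1 p).trans hc, fun p q => (h.2.2.1 p q).trans (by gcongr),
    fun p q v => (h.2.2.2 p q v).trans (by gcongr)⟩

lemma SSz_add {E : Type} [NormedAddCommGroup E] {F G : E → ℝ} {c c' : ℝ} (h : SSz_T F c)
    (h' : SSz_T G c') : SSz_T (fun p => F p + G p) (c + c') := by
  refine ⟨add_nonneg h.1 h'.1, fun p => (abs_add_le _ _).trans (add_le_add (h.2.1 p) (h'.2.1 p)),
    fun p q => ?_, fun p q v => ?_⟩
  · have e : F p + G p - (F q + G q) = (F p - F q) + (G p - G q) := by ring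
    rw [e, add_mul]
    exact (abs_add_le _ _).trans (add_le_add (h.2.2.1 p q) (h'.2.2.1 p q))
  · have e : F (p + v) + G (p + v) - (F p + G p) - (F (q + v) + G (q + v) - (F q + G q)) =
        (F (p + v) - F p - (F (q + v) - F q)) + (G (p + v) - G p - (G (q + v) - G q)) := by ring
    rw [e, add_mul, add_mul]
    exact (abs_add_le _ _).trans (add_le_add (h.2.2.2 p q v) (h'.2.2.2 p q v))

lemma SSz_const {E : Type} [NormedAddCommGroup E] (a : ℝ) : SSz_T (fun _ : E => a) |a| :=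
  ⟨abs_nonneg a, fun _ => le_rfl, fun p q => by simp; positivity,
    fun p q v => by simp; positivity⟩

lemma SSz_sum {E ι : Type} [NormedAddCommGroup E] (s : Finset ι) {F : ι → E → ℝ} {c : ℝ}
    (h : ∀ i, SSz_T (F i) c) : SSz_T (fun p => ∑ i ∈ s, F i p) (s.card * c) := by
  classical
  induction s using Finset.induction_on with
  | empty => simpa using SSz_const (E := E) 0
  | insert a s ha ih =>
    simp only [Finset.sum_insert ha, Finset.card_insert_of_notMem ha]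
    refine SSz_mono (SSz_add (h a) ih) (le_of_eq ?_)
    push_cast
    ring

lemma SSz_coord {h : ℝ → ℝ} {c : ℝ} (hh : SSz_T h c) (r : Fin d) :
    SSz_T (fun p : Fin d → ℝ => h (p r)) c := by
  have h0 := hh.1
  refine ⟨hh.1, fun p => hh.2.1 _, fun p q => (hh.2.2.1 _ _).trans ?_,
    fun p q v => (hh.2.2.2 _ _ _).trans ?_⟩
  · have := norm_le_pi_norm (p - q) r
    rw [Pi.sub_apply] at this
    gcongr
  · have h1 := norm_le_pi_norm (p - q) r
    have h2 := norm_le_pi_norm v r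
    rw [Pi.sub_apply] at h1
    gcongr

lemma SSz_of_smooth {E : Type} [NormedAddCommGroup E] [NormedSpace ℝ E] {F : E → ℝ}
    (hF : ContDiff ℝ 2 F) (hs : HasCompactSupport F) : ∃ c, SSz_T F c := by
  obtain ⟨c0, h0⟩ := hF.continuous.bounded_above_of_compact_support hs
  obtain ⟨c1, h1⟩ := ContDiff.lipschitzWith_of_hasCompactSupport hs hF (by norm_num)
  have hD : ContDiff ℝ 1 (fderiv ℝ F) := hF.fderiv_right (by norm_num)
  obtain ⟨c2, h2⟩ := ContDiff.lipschitzWith_of_hasCompactSupport (hs.fderiv ℝ) hD (by norm_num)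
  have hd : Differentiable ℝ F := hF.differentiable (by norm_num)
  have hc0 : 0 ≤ c0 := (norm_nonneg _).trans (h0 0)
  refine ⟨c0 + c1 + c2, by positivity, fun p => ?_, fun p q => ?_, fun p q v => ?_⟩
  · have := h0 p
    rw [Real.norm_eq_abs] at this
    have : (0 : ℝ) ≤ c1 := c1.2
    have : (0 : ℝ) ≤ c2 := c2.2
    linarith
  · have := h1.dist_le_mul p q
    rw [Real.dist_eq, dist_eq_norm] at this
    refine this.trans (mul_le_mul_of_nonneg_right ?_ (norm_nonneg _))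
    have : (0 : ℝ) ≤ c2 := c2.2
    linarith
  · have hg : ∀ x, HasFDerivAt (fun x => F (x + v) - F x)
        (fderiv ℝ F (x + v) - fderiv ℝ F x) x := fun x =>
      ((hasFDerivAt_comp_add_right v).2 (hd (x + v)).hasFDerivAt).sub (hd x).hasFDerivAt
    have hb : ∀ x ∈ (Set.univ : Set E), ‖fderiv ℝ F (x + v) - fderiv ℝ F x‖ ≤ c2 * ‖v‖ := by
      intro x _
      have := h2.dist_le_mul (x + v) x
      rwa [dist_eq_norm, dist_eq_norm, add_sub_cancel_left] at this
    have := Convex.norm_image_sub_le_of_norm_hasFDerivWithin_le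
      (fun x _ => (hg x).hasFDerivWithinAt) hb convex_univ (Set.mem_univ q) (Set.mem_univ p)
    rw [Real.norm_eq_abs] at this
    refine this.trans (mul_le_mul_of_nonneg_right
      (mul_le_mul_of_nonneg_right ?_ (norm_nonneg _)) (norm_nonneg _))
    have : (0 : ℝ) ≤ c1 := c1.2
    linarith

lemma SSz_cut (a : ℝ) : ContDiff ℝ 2 (cut a) := by
  unfold cut
  exact (smoothTransition.contDiff.comp (by fun_prop)).mul
    (smoothTransition.contDiff.comp (by fun_prop))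

lemma SSz_phi (d : ℕ) : ∃ c, SSz_T (phiS : (Fin d → ℝ) → ℝ) c := by
  refine SSz_of_smooth ?_ (HasCompactSupport.intro (isCompact_closedBall 0 11) fun x hx => ?_)
  · unfold phiS
    exact contDiff_prod fun r _ => (SSz_cut 10).comp (contDiff_apply ℝ ℝ r)
  · rw [mem_closedBall_zero_iff, not_le] at hx
    exact phiS_eq_zero hx.le

lemma SSz_pi (j : Fin d) : ∃ c, SSz_T (piS j : (Fin d → ℝ) → ℝ) c := by
  refine SSz_of_smooth ?_ (HasCompactSupport.intro (isCompact_closedBall 0 12) fun x hx => ?_)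
  · unfold piS
    exact (contDiff_apply ℝ ℝ j).mul
      (contDiff_prod fun r _ => (SSz_cut 11).comp (contDiff_apply ℝ ℝ r))
  · rw [mem_closedBall_zero_iff, not_le] at hx
    exact piS_eq_zero j hx.le

lemma SSz_eps (d : ℕ) : ∃ c, SSz_T (fun p : Fin d → ℝ => epsS p - 1) c := by
  obtain ⟨c, hc⟩ : ∃ c, SSz_T (fun t : ℝ => (t ^ 2 - 169) * cut 12 t) c := by
    refine SSz_of_smooth ((by fun_prop : ContDiff ℝ 2 fun t : ℝ => t ^ 2 - 169).mul (SSz_cut 12))
      (HasCompactSupport.intro (isCompact_closedBall 0 13) fun x hx => ?_)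
    rw [mem_closedBall_zero_iff, not_le, Real.norm_eq_abs] at hx
    rw [cut_eq_zero (by linarith), mul_zero]
  have h := SSz_add (SSz_sum Finset.univ fun r : Fin d => SSz_coord hc r)
    (SSz_const (E := Fin d → ℝ) (169 * d - 1))
  refine ⟨_, by
    convert h using 2 with p
    unfold epsS
    have e : ∀ r, p r ^ 2 * cut 12 (p r) + 169 * (1 - cut 12 (p r)) =
        (p r ^ 2 - 169) * cut 12 (p r) + 169 := fun r => by ring
    simp only [e, Finset.sum_add_distrib, Finset.sum_const, Finset.card_univ, Fintype.card_fin,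
      nsmul_eq_mul]
    ring⟩

lemma SSz_sy {F : (Fin d → ℝ) → ℝ} {c : ℝ} (h : SSz_T F c) (hL : Big L) (j : Fin d) :
    Sy (fun i : Ix d L => F (momS j i)) c ∧
      Sy (fun i : Ix d L => (F (momS j i) - F (mom i)) / kap L) c := by
  have hL0 : 0 < L := lt_of_lt_of_le (by positivity) hL
  have hk : 0 < kap L := by unfold kap; positivity
  have hn : ‖(Pi.single j (kap L) : Fin d → ℝ)‖ = kap L := by
    rw [Pi.norm_single, Real.norm_eq_abs, abs_of_pos hk]
  refine ⟨⟨h.1, fun i => h.2.1 _, fun i i' => ?_⟩, h.1, fun i => ?_, fun i i' => ?_⟩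
  · have := h.2.2.1 (momS j i) (momS j i')
    rwa [momS, momS, add_sub_add_right_eq_sub] at this
  · have := h.2.2.1 (momS j i) (mom i)
    rw [momS, add_sub_cancel_left, hn] at this
    rw [abs_div, abs_of_pos hk, div_le_iff₀ hk]
    exact this
  · have := h.2.2.2 (mom i) (mom i') (Pi.single j (kap L))
    rw [hn] at this
    rw [← sub_div, abs_div, abs_of_pos hk, div_le_iff₀ hk]
    exact this.trans (le_of_eq (by ring))

lemma SSz_sy0 {F : (Fin d → ℝ) → ℝ} {c : ℝ} (h : SSz_T F c) :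
    Sy (fun i : Ix d L => F (mom i)) c :=
  ⟨h.1, fun _ => h.2.1 _, fun _ _ => h.2.2.1 _ _⟩

/-- All the symbols and their difference quotients are bounded and Lipschitz. -/
theorem sy_all (d : ℕ) : ∃ C : ℝ, 1 ≤ C ∧ ∀ L : ℝ, Big L →
    Sy (fun i : Ix d L => phiS (mom i)) C ∧ Sy (fun i : Ix d L => epsS (mom i) - 1) C ∧
    ∀ j : Fin d, Sy (fun i : Ix d L => piS j (mom i)) C ∧
      Sy (fun i : Ix d L => phiS (momS j i)) C ∧ Sy (fun i : Ix d L => epsS (momS j i) - 1) C ∧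
      Sy (fun i : Ix d L => piS j (momS j i)) C ∧
      Sy (fun i : Ix d L => (phiS (momS j i) - phiS (mom i)) / kap L) C ∧
      Sy (fun i : Ix d L => (epsS (momS j i) - epsS (mom i)) / kap L) C ∧
      Sy (fun i : Ix d L => (piS j (momS j i) - piS j (mom i)) / kap L) C := by
  obtain ⟨c1, h1⟩ := SSz_phi d
  obtain ⟨c2, h2⟩ := SSz_eps d
  choose c3 h3 using fun j : Fin d => SSz_pi j
  have s3 : 0 ≤ ∑ j, c3 j := Finset.sum_nonneg fun j _ => (h3 j).1
  have l3 : ∀ j, c3 j ≤ ∑ j, c3 j := fun j =>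
    Finset.single_le_sum (fun j _ => (h3 j).1) (Finset.mem_univ j)
  have p1 := h1.1
  have p2 := h2.1
  have g1 := SSz_mono h1 (show c1 ≤ 1 + c1 + c2 + ∑ j, c3 j by linarith)
  have g2 := SSz_mono h2 (show c2 ≤ 1 + c1 + c2 + ∑ j, c3 j by linarith)
  have g3 := fun j => SSz_mono (h3 j) (show c3 j ≤ 1 + c1 + c2 + ∑ j, c3 j by linarith [l3 j])
  refine ⟨1 + c1 + c2 + ∑ j, c3 j, by linarith, fun L hL => ⟨SSz_sy0 g1, SSz_sy0 g2, fun j =>
    ⟨SSz_sy0 (g3 j), (SSz_sy g1 hL j).1, (SSz_sy g2 hL j).1, (SSz_sy (g3 j) hL j).1,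
      (SSz_sy g1 hL j).2, ?_, (SSz_sy (g3 j) hL j).2⟩⟩⟩
  simpa only [sub_sub_sub_cancel_right] using (SSz_sy g2 hL j).2

end Pool.Agent.Lib.MP_ae5e3b_mp.Sh
end
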