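import Pool.Agent.Lib.MP_ae5e3b_mp.SMc
import Pool.Agent.Lib.MP_ae5e3b_mp.SSz
import Pool.Agent.Lib.MP_ae5e3b_mp.SJb
import Pool.Agent.Lib.MP_ae5e3b_mp.SCa

-- part Pool.Agent.Lib.MP_ae5e3b_mp.SHa
section

open MeasureTheory Matrix Real
open scoped ComplexConjugate ComplexOrder

set_option linter.unusedSectionVars false

namespace Pool.Agent.Lib.MP_ae5e3b_mp.Sh

variable {d : ℕ} {L : ℝ} {u v : Tor d → ℝ}

lemma SHa_dg_comm {n : Type} [Fintype n] [DecidableEq n] (m m' : n → ℝ) :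
    dg m * dg m' = dg m' * dg m := by
  rw [dg_mul, dg_mul]
  congr 1
  funext i
  ring

/-- A commutator with a diagonal matrix passes through diagonal cutoffs. -/
lemma SHa_cm_sand {n : Type} [Fintype n] [DecidableEq n] (m p : n → ℝ) (U : Matrix n n ℂ) :
    cm (dg m) (dg p * U * dg p) = dg p * cm (dg m) U * dg p := by
  rw [cm_mul_right, cm_mul_right, cm_dg_dg]
  simp

lemma SHa_hs_sand {n : Type} [Fintype n] [DecidableEq n] {p : n → ℝ} (hp : ∀ i, |p i| ≤ 1)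
    (U : Matrix n n ℂ) : hs (dg p * U * dg p) ≤ hs U := by
  have h := opB_dg zero_le_one hp
  have h1 := h.hs_mul_right (dg p * U)
  have h2 := h.hs_mul_left U
  linarith

lemma SHa_opB_sand {n : Type} [Fintype n] [DecidableEq n] {p : n → ℝ} (hp : ∀ i, |p i| ≤ 1)
    {U : Matrix n n ℂ} {a : ℝ} (hU : OpB U a) : OpB (dg p * U * dg p) a := by
  have h := opB_dg zero_le_one hp
  simpa using (h.mul hU).mul h

lemma SHa_herm_sand {n : Type} [Fintype n] [DecidableEq n] (p : n → ℝ) {U : Matrix n n ℂ}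
    (hU : Uᴴ = U) : (dg p * U * dg p)ᴴ = dg p * U * dg p := by
  simp only [conjTranspose_mul, dg_conjT, hU, Matrix.mul_assoc]

lemma Van.nonneg {g : ℝ → ℝ} {c : ℝ} (h : Van g c) : 0 ≤ c := (abs_nonneg _).trans (h.bd 0 (by norm_num))
lemma FOK.van {f : ℝ → ℝ} {l : ℝ} (h : FOK f l) : Van f 1 := ⟨h.zero, fun t _ => abs_le.2 ⟨by linarith [h.nonneg t], h.le_one t⟩⟩
lemma Wop_conjT (u : Tor d → ℝ) : (Wop L u)ᴴ = Wop L u := SHa_herm_sand _ (mulM_cx_conjT u)
lemma Wop_opB (hu : Continuous u) {a : ℝ} (ha : ∀ x, |u x| ≤ a) : OpB (Wop L u) a :=   SHa_opB_sand (fun _ => abs_phiS_le _) (mulM_opB_real hu ha)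
lemma Wop_add (hu : Continuous u) (hv : Continuous v) :
    Wop L (fun x => u x + v x) = Wop L u + Wop L v := by
  rw [Wop, Wop, Wop, mulM_cx_add hu hv, Matrix.mul_add, Matrix.add_mul]
lemma Wop_sub (hu : Continuous u) (hv : Continuous v) :
    Wop L (fun x => u x - v x) = Wop L u - Wop L v := by
  rw [Wop, Wop, Wop, mulM_cx_sub hu hv, Matrix.mul_sub, Matrix.sub_mul]
lemma Wop_const_mul (c : ℝ) (u : Tor d → ℝ) :
    Wop L (fun x => c * u x) = (c : ℂ) • Wop L u := by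
  rw [Wop, Wop, mulM_cx_const_mul, Matrix.mul_smul, Matrix.smul_mul]
lemma hs_Wop (hL : Big L) (hu : Continuous u) :
    hs (Wop L u) ≤ 3 ^ d * √(L ^ d * ∫ x, u x ^ 2) := by
  have h1 : hs (Wop L u) ≤ hs (mulM L (cx u)) := SHa_hs_sand (fun _ => abs_phiS_le _) _
  have h2 := hs_mulM hL (continuous_cx hu)
  simp only [cx, Complex.norm_real, Real.norm_eq_abs, sq_abs] at h2
  exact h1.trans h2
lemma ham_herm (L : ℝ) (u : Tor d → ℝ) : (ham L u).IsHermitian :=   (dg_herm _).add (Wop_conjT u)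
lemma hamS_herm (L : ℝ) (j : Fin d) (u : Tor d → ℝ) : (hamS L j u).IsHermitian :=   (dg_herm _).add (SHa_herm_sand _ (mulM_cx_conjT u))
lemma ham_sub (hu : Continuous u) (hv : Continuous v) :
    ham L u - ham L v = Wop L fun x => u x - v x := by
  rw [Wop_sub hu hv, ham, ham]
  abel
lemma ham_zero : ham L (fun _ : Tor d => 0) = dg fun i => epsS (mom i) - 1 := by
  have h : mulM L (cx fun _ : Tor d => (0 : ℝ)) = 0 := by
    have := mulM_const (d := d) (L := L) 0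
    rw [zero_smul] at this
    rw [← this]
    congr 1
  rw [ham, Wop, h, Matrix.mul_zero, Matrix.zero_mul, add_zero]
lemma Pot.lb (h : Pot L u) : LB (ham L u) (-2) := by
  have h1 : LB (dg fun i : Ix d L => epsS (mom i) - 1) (-1) :=
    lb_dg fun i => by linarith [epsS_nonneg (mom i)]
  exact (h1.add (Wop_opB h.c1.cont h.bd).lb).mono (by norm_num)
lemma Pot.lbS (h : Pot L u) (j : Fin d) : LB (hamS L j u) (-2) := by
  have h1 : LB (dg fun i : Ix d L => epsS (momS j i) - 1) (-1) :=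
    lb_dg fun i => by linarith [epsS_nonneg (momS j i)]
  have h2 := SHa_opB_sand (p := fun i : Ix d L => phiS (momS j i)) (fun _ => abs_phiS_le _)
    (mulM_opB_real h.c1.cont h.bd)
  exact (h1.add h2.lb).mono (by norm_num)
lemma Pot.fc_opB (h : Pot L u) {g : ℝ → ℝ} {c : ℝ} (hg : Van g c) : OpB (fc g (ham L u)) c :=   Sh.fc_opB (ham_herm L u) h.lb hg.nonneg hg.bd
/-- The pairing of the conjugate density with a potential. -/
lemma rhoF_pair (u : Tor d → ℝ) (f : ℝ → ℝ) (hv : Continuous v) :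
    ∫ x, v x * rhoF L u f x = (L ^ d)⁻¹ * rtr (fc f (ham L u) * Wop L v) := by
  rw [rhoF, dens_pair _ hv, Wop, rtr_comm, Matrix.mul_assoc, Matrix.mul_assoc, rtr_comm]
  simp only [Matrix.mul_assoc]
lemma rhoF_bd (hL : Big L) (u : Tor d → ℝ) {f : ℝ → ℝ} (h0 : ∀ t, 0 ≤ f t) (h1 : ∀ t, f t ≤ 1)
    (x : Tor d) : 0 ≤ rhoF L u f x ∧ rhoF L u f x ≤ 6 ^ d := by
  have hH := ham_herm L u
  constructor
  · refine dens_nonneg hL.pos ?_ x
    have := (fc_psd' hH h0).conjTranspose_mul_mul_same (Ph d L)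
    rwa [Ph_conjT] at this
  · have h2 : OpB (fc f (ham L u)) 1 :=
      fc_opB' hH zero_le_one fun t => abs_le.2 ⟨by linarith [h0 t], h1 t⟩
    have h3 := abs_dens_le hL (SHa_opB_sand (p := fun i : Ix d L => phiS (mom i))
      (fun _ => abs_phiS_le _) h2) x
    rw [mul_one] at h3
    exact (le_abs_self _).trans h3
lemma rhoF_zero (u : Tor d → ℝ) : rhoF L u (fun _ => 0) = fun _ => 0 := by
  funext x
  rw [rhoF, fc_zero, Matrix.mul_zero, Matrix.zero_mul, dens_zero]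
lemma Yf_opB (u : Tor d → ℝ) {f : ℝ → ℝ} {l : ℝ} (hf : FOK f l) : OpB (Yf L u f) 1 := by
  have h2 : OpB (fc (fun t => √(f t)) (ham L u)) 1 :=
    fc_opB' (ham_herm L u) zero_le_one fun t => by
      rw [abs_of_nonneg (Real.sqrt_nonneg _)]
      exact Real.sqrt_le_one.2 (hf.le_one t)
  simpa [Yf] using P6_opB.mul h2
lemma Yf_mul (u : Tor d → ℝ) {f : ℝ → ℝ} {l : ℝ} (hf : FOK f l) :
    Yf L u f * (Yf L u f)ᴴ = P6 d L * fc f (ham L u) * P6 d L := by
  rw [Yf, conjTranspose_mul, fc_conjT, P6_conjT, ← Matrix.mul_assoc, Matrix.mul_assoc (P6 d L),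
    fc_mul (ham_herm L u)]
  simp only [Real.mul_self_sqrt (hf.nonneg _)]
lemma Yf_mul_Zf (u : Tor d → ℝ) {f : ℝ → ℝ} {l : ℝ} (hf : FOK f l) :
    Yf L u f * (Zf L u f)ᴴ = P6 d L * fc (fun t => t * f t) (ham L u) * P6 d L := by
  rw [Yf, Zf, conjTranspose_mul, fc_conjT, P6_conjT, ← Matrix.mul_assoc, Matrix.mul_assoc (P6 d L),
    fc_mul (ham_herm L u)]
  simp only [mul_left_comm (√(f _)), Real.mul_self_sqrt (hf.nonneg _)]
/-- The shift of the Hamiltonian, divided by the lattice spacing. -/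
lemma hamS_sub (hL : 0 < L) (j : Fin d) (u : Tor d → ℝ) :
    hamS L j u - ham L u = ((kap L : ℝ) : ℂ) •
      (dg (fun i => (epsS (momS j i) - epsS (mom i)) / kap L) +
        dg (fun i => (phiS (momS j i) - phiS (mom i)) / kap L) * mulM L (cx u) *
          dg (fun i => phiS (momS j i)) +
        Ph d L * mulM L (cx u) * dg fun i => (phiS (momS j i) - phiS (mom i)) / kap L) := by
  have hk : ((kap L : ℝ) : ℂ) ≠ 0 := by exact_mod_cast (kap_pos hL).ne'
  ext i k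
  simp only [hamS, ham, Wop, Ph, Matrix.sub_apply, Matrix.add_apply, Matrix.smul_apply,
    mul_dg_apply, dg_mul_apply, smul_eq_mul]
  by_cases h : i = k
  · subst h
    simp only [dg, diagonal_apply_eq]
    push_cast
    field_simp
    ring
  · simp only [dg, diagonal_apply_ne _ h]
    push_cast
    field_simp
    ring
theorem ham_opB (d : ℕ) : ∃ C : ℝ, 1 ≤ C ∧ ∀ (L : ℝ) (u : Tor d → ℝ), Pot L u →
    OpB (ham L u) C ∧ ∀ j, OpB (hamS L j u) C ∧ OpB (hamS L j u - ham L u) (C * kap L) := by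
  obtain ⟨C, hC, h⟩ := sy_all d
  refine ⟨2 * C, by linarith, fun L u hp => ?_⟩
  obtain ⟨-, s2, s3⟩ := h L hp.big
  have hU := mulM_opB_real (L := L) hp.c1.cont hp.bd
  refine ⟨(s2.opB.add (Wop_opB hp.c1.cont hp.bd)).mono (by linarith), fun j => ?_⟩
  obtain ⟨-, -, t2, -, t4, t5, -⟩ := s3 j
  have hS : OpB (dg fun i : Ix d L => phiS (momS j i)) 1 :=
    opB_dg zero_le_one fun _ => abs_phiS_le _
  refine ⟨(t2.opB.add (SHa_opB_sand (fun _ => abs_phiS_le _) hU)).mono (by linarith), ?_⟩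
  rw [hamS_sub hp.big.pos]
  have hκ := kap_pos hp.big.pos
  refine (((t5.opB.add ((t4.opB.mul hU).mul hS)).add ((Ph_opB.mul hU).mul t4.opB)).smul _).mono ?_
  rw [Complex.norm_real, Real.norm_eq_abs, abs_of_pos hκ]
  nlinarith
lemma hs_cm_Wop (hL : Big L) (hv : C1 L v) {m : Ix d L → ℝ} {c : ℝ} (hm : Sy m c) :
    hs (cm (dg m) (Wop L v)) ≤ 3 ^ d * c * √(L ^ d * Gr L v) := by
  rw [Wop, Ph, SHa_cm_sand]
  exact (SHa_hs_sand (fun _ => abs_phiS_le _) _).trans (hs_cm_sy_real hL hv hm)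
lemma hs_cm_ham (hL : Big L) (hu : C1 L u) {m : Ix d L → ℝ} {c : ℝ} (hm : Sy m c) :
    hs (cm (dg m) (ham L u)) ≤ 3 ^ d * c * √(L ^ d * Gr L u) := by
  rw [ham, cm_add_right, cm_dg_dg, zero_add]
  exact hs_cm_Wop hL hu hm
lemma hs_cm_Pm_ham (hL : Big L) (hu : C1 L u) (r : Fin d) :
    hs (cm (Pm L r) (ham L u)) ≤ 3 ^ d * 16 * √(L ^ d * Gr L u) :=   hs_cm_ham hL hu (sy_mom hL r)
lemma cm_ham_Pm (hu : C1 L u) (r : Fin d) :
    cm (ham L u) (Pm L r) = Complex.I • Wop L (pd L r u) := by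
  have h := cm_mulM_Pm hu.cx r
  rw [pd_cx hu, cm_swap, Pm] at h
  rw [cm_swap, ham, Pm, cm_add_right, cm_dg_dg, zero_add, Wop, Wop, Ph, SHa_cm_sand,
    ← Matrix.neg_mul, ← Matrix.mul_neg, h, Matrix.mul_smul, Matrix.smul_mul]
/-- Band limited multiplication operators almost commute with the Hamiltonian. -/
theorem hs_cm_ham_mulM (d : ℕ) : ∃ C : ℝ, 1 ≤ C ∧ ∀ (L : ℝ) (u b : Tor d → ℝ), Big L →
    Continuous u → (∀ x, |u x| ≤ 1) → TP L 3 (cx b) →
    hs (cm (Wop L u) (mulM L (cx b))) ≤ C * √(L ^ d * Gr L b) ∧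
    hs (cm (ham L u) (mulM L (cx b))) ≤ C * √(L ^ d * Gr L b) := by
  obtain ⟨C, hC, h⟩ := sy_all d
  have h3 : (1 : ℝ) ≤ 3 ^ d := one_le_pow₀ (by norm_num)
  refine ⟨3 * (3 ^ d * C), by nlinarith, fun L u b hL hu hu1 hb => ?_⟩
  obtain ⟨s1, s2, -⟩ := h L hL
  have a1 := hs_cm_sy_real hL hb.c1_real s1
  have a2 := hs_cm_sy_real hL hb.c1_real s2
  have hU := mulM_opB_real (L := L) hu hu1
  have hs11 : ∀ i : Ix d L, phiS (mom i) ≠ 0 → ‖mom i‖ + 3 ≤ 15 := fun i hi => by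
    by_contra hc
    exact hi (phiS_eq_zero (by linarith [not_le.1 hc]))
  have e1 := mulM_mul_left hL hb (continuous_cx hu) hs11
  have e2 := mulM_mul_right hL hb (continuous_cx hu) hs11
  simp only [mul_comm (cx u _) (cx b _)] at e2
  have hP : OpB (Ph d L) 1 := Ph_opB
  have hW : hs (cm (Wop L u) (mulM L (cx b))) ≤ 2 * (3 ^ d * C * √(L ^ d * Gr L b)) := by
    change hs (cm (Ph d L) _) ≤ _ at a1
    change Ph d L * _ * _ = Ph d L * _ at e1
    change _ * Ph d L = _ * Ph d L at e2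
    rw [Wop]
    generalize mulM L (fun x => cx b x * cx u x) = M at e1 e2
    generalize mulM L (cx b) = B at a1 e1 e2 ⊢
    generalize mulM L (cx u) = U at hU e1 e2 ⊢
    generalize Ph d L = P at hP a1 e1 e2 ⊢
    have e3 : P * U * B * P = P * B * U * P := by
      rw [e1, Matrix.mul_assoc P U B, Matrix.mul_assoc P (U * B) P, e2, Matrix.mul_assoc]
    have e4 : cm (P * U * P) B = P * U * cm P B + cm P B * (U * P) + (P * U * B * P - P * B * U * P) := by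
      simp only [cm, Matrix.mul_sub, Matrix.sub_mul, Matrix.mul_assoc]
      abel
    rw [e4, e3, sub_self, add_zero]
    have b1 := (hP.mul hU).hs_mul_left (cm P B)
    have b2 := (hU.mul hP).hs_mul_right (cm P B)
    have b3 := hs_add_le (P * U * cm P B) (cm P B * (U * P))
    linarith
  have h0 : 0 ≤ 3 ^ d * C * √(L ^ d * Gr L b) := (hs_nonneg _).trans a1
  refine ⟨by linarith, ?_⟩
  rw [ham, cm_add_left]
  have b4 := hs_add_le (cm (dg fun i : Ix d L => epsS (mom i) - 1) (mulM L (cx b)))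
    (cm (Wop L u) (mulM L (cx b)))
  linarith
lemma SHa_hiE (hp : Pot L u) (p : Ix d L → Fin d → ℝ)
    (h : ∀ i, 2 < ‖mom i‖ → 3 / 2 ≤ ‖p i‖) :
    hs (dg (sc L 2) * Ep (dg (fun i => epsS (p i) - 1) +
      dg (fun i => phiS (p i)) * mulM L (cx u) * dg fun i => phiS (p i))) ≤
      2 * (3 ^ d * √(L ^ d * Gr L u)) := by
  have hU := mulM_opB_real (L := L) hp.c1.cont hp.bd
  have h1 := hiE_gen (k := fun i => epsS (p i) - 1) (r := sc L 2)
    (SHa_herm_sand (fun i => phiS (p i)) (mulM_cx_conjT u))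
    (SHa_opB_sand (fun _ => abs_phiS_le _) hU) fun i hi => by
      have := le_epsS (t := 3 / 2) (by norm_num) (by norm_num) (h i (sc_ne hi))
      linarith
  rw [hs_cm_swap, SHa_cm_sand] at h1
  have h2 := SHa_hs_sand (p := fun i => phiS (p i)) (fun _ => abs_phiS_le _)
    (cm (dg (sc L 2)) (mulM L (cx u)))
  have h3 := hs_cm_sy_real hp.big hp.c1 (sy_sc 2)
  linarith

lemma SHa_num {x y z a c cR s m C : ℝ} (hC : 1 ≤ C) (hc : 0 ≤ c) (hR : 0 ≤ cR) (hs : 0 ≤ s)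
    (hm : 0 ≤ m) (ha : 0 ≤ a) (hz0 : 0 ≤ z) (hy : y ≤ C * cR * s)
    (hz : z ≤ C * 1 * s) (hx : x ≤ c * y * (a + m * z)) :
    x ≤ C * C * c * cR * s * (a + m * s) := by
  have h1 : a ≤ C * a := le_mul_of_one_le_left ha hC
  have hC0 : 0 ≤ C := by linarith
  calc x ≤ c * y * (a + m * z) := hx
    _ ≤ c * (C * cR * s) * (C * a + m * (C * 1 * s)) := by gcongr
    _ = _ := by ring

/-- Low lying states have little weight on high momenta. -/
theorem hiE (d : ℕ) : ∃ C : ℝ, 1 ≤ C ∧ ∀ (L : ℝ) (u : Tor d → ℝ), Pot L u →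
    ∀ (A : Mat d L), (A = ham L u ∨ ∃ j, A = hamS L j u) → ∀ (m : Ix d L → ℝ) (c : ℝ), 0 ≤ c →
    (∀ i, |m i| ≤ c) → (∀ i, m i ≠ 0 → 3 ≤ ‖mom i‖) →
    hs (dg m * Ep A) ≤ C * c * √(L ^ d * Gr L u) ∧
    hs (Ep A * dg m) ≤ C * c * √(L ^ d * Gr L u) := by
  have h3 : (1 : ℝ) ≤ 3 ^ d := one_le_pow₀ (by norm_num)
  refine ⟨2 * 3 ^ d, by linarith, fun L u hp A hA m c hc hm hm3 => ?_⟩
  have key : hs (dg (sc L 2) * Ep A) ≤ 2 * (3 ^ d * √(L ^ d * Gr L u)) := by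
    rcases hA with rfl | ⟨j, rfl⟩
    · exact SHa_hiE hp (fun i => mom i) fun i hi => by linarith
    · exact SHa_hiE hp (fun i => momS j i) fun i hi => by linarith [le_norm_momS hp.big j i]
  have e : dg m = dg m * dg (sc L 2) := by
    rw [dg_mul]
    congr 1
    funext i
    by_cases h0 : m i = 0
    · simp [h0]
    · rw [sc_of_ge (by linarith [hm3 i h0]), mul_one]
  have h1 : hs (dg m * Ep A) ≤ 2 * 3 ^ d * c * √(L ^ d * Gr L u) := by
    have := (opB_dg hc hm).hs_mul_left (dg (sc L 2) * Ep A)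
    rw [← Matrix.mul_assoc, ← e] at this
    calc _ ≤ _ := this
      _ ≤ c * (2 * (3 ^ d * √(L ^ d * Gr L u))) := mul_le_mul_of_nonneg_left key hc
      _ = _ := by ring
  refine ⟨h1, ?_⟩
  rwa [← hs_conjT, conjTranspose_mul, dg_conjT, Ep_herm]
/-- The sandwich bound for functions of the Hamiltonian. -/
theorem sand (d : ℕ) : ∃ C : ℝ, 1 ≤ C ∧ ∀ (L : ℝ) (u : Tor d → ℝ), Pot L u →
    ∀ (g : ℝ → ℝ) (c : ℝ), Van g c → ∀ (R : Ix d L → ℝ) (cR : ℝ), 0 ≤ cR → (∀ i, |R i| ≤ cR) →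
    (∀ i, R i ≠ 0 → 4 ≤ ‖mom i‖) → ∀ (M : Mat d L) (m : ℝ), OpB M m →
    ‖trace (fc g (ham L u) * dg R * M)‖ ≤ C * c * cR * √(L ^ d * Gr L u) *
        (hs (cm (dg (sc L 3)) M) + m * √(L ^ d * Gr L u)) ∧
    ‖trace (fc g (ham L u) * M * dg R)‖ ≤ C * c * cR * √(L ^ d * Gr L u) *
        (hs (cm (dg (sc L 3)) M) + m * √(L ^ d * Gr L u)) := by
  obtain ⟨C, hC, hE⟩ := hiE d
  refine ⟨C * C, by nlinarith, fun L u hp g c hg R cR hR0 hR hR4 M m hM => ?_⟩
  have hH := ham_herm L u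
  have hY := hp.fc_opB hg
  have a1 := hE L u hp _ (Or.inl rfl) R cR hR0 hR fun i hi => by linarith [hR4 i hi]
  have a2 := hE L u hp _ (Or.inl rfl) (sc L 3) 1 zero_le_one (sy_sc 3).2.1 fun i hi =>
    (sc_ne hi).le
  have e : dg R * dg (sc L 3) = dg R := by
    rw [dg_mul]
    congr 1
    funext i
    by_cases h0 : R i = 0
    · simp [h0]
    · rw [sc_of_ge (by linarith [hR4 i h0]), mul_one]
  have e' : dg (sc L 3) * dg R = dg R := by rw [SHa_dg_comm, e]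
  have b1 := sandwich hY (Ep_mul_fc hH hg.zero) (fc_mul_Ep hH hg.zero) (Ep_opB hH) e hM
  have b2 := sandwich' hY (Ep_mul_fc hH hg.zero) (fc_mul_Ep hH hg.zero) (Ep_opB hH) e' hM
  exact ⟨SHa_num hC hg.nonneg hR0 (Real.sqrt_nonneg _) hM.nonneg (hs_nonneg _)
      (hs_nonneg _) a1.2 a2.1 b1,
    SHa_num hC hg.nonneg hR0 (Real.sqrt_nonneg _) hM.nonneg (hs_nonneg _)
      (hs_nonneg _) a1.1 a2.2 b2⟩

end Pool.Agent.Lib.MP_ae5e3b_mp.Sh
end

-- part Pool.Agent.Lib.MP_ae5e3b_mp.SHb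
section

open MeasureTheory Matrix Real
open scoped ComplexConjugate ComplexOrder

set_option linter.unusedSectionVars false

namespace Pool.Agent.Lib.MP_ae5e3b_mp.Sh

variable {d : ℕ} {L : ℝ} {u v : Tor d → ℝ}

section Gen
variable {n : Type} [Fintype n] [DecidableEq n]

/-- A trace with two factors that are small on `E`. -/
lemma SHb_two {G E R R' M : Matrix n n ℂ} {c a : ℝ} (hG : OpB G c) (h1 : E * G = G)
    (h2 : G * E = G) (hM : OpB M a) :
    ‖trace (G * R * M * R')‖ ≤ c * hs (E * R) * (a * hs (R' * E)) := by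
  have e : trace (G * R * M * R') = trace (G * (E * R) * (M * (R' * E))) := by
    calc trace (G * R * M * R') = trace (E * (G * R * M * R')) := by
          simp only [← Matrix.mul_assoc, h1]
      _ = trace (G * R * M * R' * E) := trace_mul_comm _ _
      _ = _ := by simp only [← Matrix.mul_assoc, h2]
  rw [e]
  exact (trace_mul_le _ _).trans (mul_le_mul (hG.hs_mul_left _) (hM.hs_mul_left _) (hs_nonneg _)
    (mul_nonneg hG.nonneg (hs_nonneg _)))

lemma SHb_cm_dg (m m' : n → ℝ) : hs (cm (dg m) (dg m')) = 0 := by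
  rw [cm_dg_dg, hs_zero]

lemma SHb_sqrt {x y c : ℝ} (hx : 0 ≤ x) (hy : 0 ≤ y) (hc : 0 ≤ c) :
    √x * √(c ^ 2 * y) ≤ c * (x + y) := by
  rw [sqrt_mul (sq_nonneg c), sqrt_sq hc]
  have h1 := sq_sqrt hx
  have h2 := sq_sqrt hy
  have h3 : √x * √y ≤ x + y := by nlinarith [sq_nonneg (√x - √y)]
  calc √x * (c * √y) = c * (√x * √y) := by ring
    _ ≤ c * (x + y) := mul_le_mul_of_nonneg_left h3 hc

lemma SHb_ar1 {D x y gx gy gxy : ℝ} (hD : 0 ≤ D) (hx : 0 ≤ x) (hy : 0 ≤ y) (ex : x ^ 2 = D * gx)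
    (ey : y ^ 2 = D * gy) (h : gxy ≤ 2 * 1 ^ 2 * gy + 2 * 1 ^ 2 * gx) :
    √(D * gxy) ≤ 2 * (x + y) := by
  have g2 := mul_le_mul_of_nonneg_left h hD
  refine sqrt_le_iff.2 ⟨by positivity, ?_⟩
  nlinarith [mul_nonneg hx hy, sq_nonneg x, sq_nonneg y]

lemma SHb_ar2 {C c k x y z : ℝ} (hC : 0 ≤ C) (hc : 0 ≤ c) (hk : 1 ≤ k) :
    C * c * 1 * x * (3 * (k * (z + y)) + (1 * 1 + 1) * x) +
      C * c * 1 * x * (k * (z + y) + 1 * 1 * x) +
      C * c * 1 * x * (k * (z + y) + 1 * 1 * 1 * 1 * x) ≤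
      10 * (C * k) * c * (z ^ 2 + y ^ 2 + x ^ 2) := by
  have hCc : 0 ≤ C * c := by positivity
  have f1 : 5 * (x * (z + y)) ≤ 5 * (z ^ 2 + y ^ 2 + x ^ 2) := by
    nlinarith [sq_nonneg (x - y), sq_nonneg (x - z), sq_nonneg y, sq_nonneg z]
  have f2 := mul_le_mul_of_nonneg_left f1 (by linarith : (0 : ℝ) ≤ k)
  have f3 : 4 * x ^ 2 ≤ k * (5 * (z ^ 2 + y ^ 2 + x ^ 2)) := by
    have := mul_le_mul_of_nonneg_right hk (by positivity : (0 : ℝ) ≤ 5 * (z ^ 2 + y ^ 2 + x ^ 2))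
    nlinarith [sq_nonneg x, sq_nonneg y, sq_nonneg z]
  have f4 := mul_le_mul_of_nonneg_left (add_le_add f2 f3) hCc
  linarith

end Gen

theorem Gr_fc (d : ℕ) : ∃ C : ℝ, 1 ≤ C ∧ ∀ (L : ℝ) (u : Tor d → ℝ), Big L → C1 L u →
    ∀ (g : ℝ → ℝ) (l : ℝ), 0 ≤ l → (∀ s t, |g s - g t| ≤ l * |s - t|) →
    ∀ m : Ix d L → ℝ, (∀ i, |m i| ≤ 1) →
    Gr L (dens (dg m * fc g (ham L u) * dg m)) ≤ C * l ^ 2 * Gr L u := by
  have k0 : (0 : ℝ) ≤ 6 ^ d * (d * (3 ^ d * 16) ^ 2) := by positivity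
  refine ⟨1 + 6 ^ d * (d * (3 ^ d * 16) ^ 2), by linarith, fun L u hL hu g l hl hg m hm => ?_⟩
  have hDp : 0 < L ^ d := pow_pos hL.pos d
  have hG := Gr_nonneg (L := L) u
  have hm1 : OpB (dg m) 1 := opB_dg zero_le_one hm
  have h1 : ∀ r, hs (cm (Pm L r) (dg m * fc g (ham L u) * dg m)) ^ 2 ≤
      l ^ 2 * (3 ^ d * 16) ^ 2 * (L ^ d * Gr L u) := by
    intro r
    have e0 : cm (Pm L r) (dg m) = 0 := cm_dg_dg _ _
    have e : cm (Pm L r) (dg m * fc g (ham L u) * dg m) =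
        dg m * cm (Pm L r) (fc g (ham L u)) * dg m := by
      rw [cm_mul_right, cm_mul_right, e0]
      simp
    have a1 := hm1.hs_mul_right (dg m * cm (Pm L r) (fc g (ham L u)))
    have a2 := hm1.hs_mul_left (cm (Pm L r) (fc g (ham L u)))
    have a3 := hs_cm_fc (ham_herm L u) hl hg (Pm L r)
    have a4 := mul_le_mul_of_nonneg_left (hs_cm_Pm_ham hL hu r) hl
    have a5 : hs (cm (Pm L r) (dg m * fc g (ham L u) * dg m)) ≤
        l * (3 ^ d * 16 * √(L ^ d * Gr L u)) := by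
      rw [e]
      linarith
    refine (pow_le_pow_left₀ (hs_nonneg _) a5 2).trans_eq ?_
    rw [mul_pow, mul_pow, sq_sqrt (by positivity)]
    ring
  have h2 : ∑ r, hs (cm (Pm L r) (dg m * fc g (ham L u) * dg m)) ^ 2 ≤
      d * (l ^ 2 * (3 ^ d * 16) ^ 2 * (L ^ d * Gr L u)) := by
    refine (Finset.sum_le_sum fun r _ => h1 r).trans_eq ?_
    simp
  refine (Gr_dens hL _).trans ?_
  refine (mul_le_mul_of_nonneg_left h2 (by positivity)).trans ?_
  have e : 6 ^ d * (L ^ d)⁻¹ * (d * (l ^ 2 * (3 ^ d * 16) ^ 2 * (L ^ d * Gr L u))) =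
      6 ^ d * (d * (3 ^ d * 16) ^ 2) * (l ^ 2 * Gr L u) := by
    field_simp
  rw [e]
  have : 0 ≤ l ^ 2 * Gr L u := by positivity
  nlinarith

lemma SHb_near {i j : Ix d L} {Q s t : ℝ} (h : ‖mom i - mom j‖ ≤ Q) (hj : t < ‖mom j‖)
    (hs : s + Q ≤ t) : s < ‖mom i‖ := by
  have := norm_sub_norm_le (mom j) (mom i)
  rw [norm_sub_rev] at this
  linarith

/-- A band matrix next to a symbol of high momenta, left version. -/
lemma SHb_band_left {b : Tor d → ℂ} {Q s t : ℝ} (hQ : 0 ≤ Q) (hb : TP L Q b) {w : Ix d L → ℝ}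
    (hw : ∀ i, w i ≠ 0 → t < ‖mom i‖) (hs : s + Q ≤ t) :
    dg (hi L s) * mulM L b * dg w = mulM L b * dg w := by
  refine dg_mulM_dg' hQ hb fun i j h => ?_
  by_cases h0 : w j = 0
  · simp [h0]
  · rw [hi_of_lt (SHb_near h (hw j h0) hs), one_mul]

/-- A band matrix next to a symbol of high momenta, right version. -/
lemma SHb_band_right {b : Tor d → ℂ} {Q s t : ℝ} (hQ : 0 ≤ Q) (hb : TP L Q b) {w : Ix d L → ℝ}
    (hw : ∀ i, w i ≠ 0 → t < ‖mom i‖) (hs : s + Q ≤ t) :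
    dg w * mulM L b * dg (hi L s) = dg w * mulM L b := by
  refine dg_mulM_dg hQ hb fun i j h => ?_
  by_cases h0 : w i = 0
  · simp [h0]
  · rw [norm_sub_rev] at h
    rw [hi_of_lt (SHb_near h (hw i h0) hs), mul_one]

/-- The matrix estimates behind the change of the cutoff. -/
lemma SHb_loc (d : ℕ) : ∃ C : ℝ, 1 ≤ C ∧ ∀ (L : ℝ) (u : Tor d → ℝ), Pot L u →
    ∀ (g : ℝ → ℝ) (c : ℝ), Van g c → ∀ m m' : Ix d L → ℝ, (∀ i, |m i| ≤ 1) → (∀ i, |m' i| ≤ 1) →
    (∀ i, ‖mom i‖ ≤ 5 → m i = 1) → (∀ i, ‖mom i‖ ≤ 5 → m' i = 1) → ∀ N : Mat d L,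
    N = dg m * fc g (ham L u) * dg m - dg m' * fc g (ham L u) * dg m' →
    hs N ^ 2 ≤ C * c ^ 2 * (L ^ d * Gr L u) ∧
    ∀ (b : Tor d → ℝ) (a : ℝ), TP L 2 (cx b) → (∀ x, |b x| ≤ a) →
      |rtr (mulM L (cx b) * N)| ≤ C * c * a * (L ^ d * Gr L u) := by
  obtain ⟨C, hC, hhi⟩ := hiE d
  have k1 : 1 ≤ C ^ 2 := one_le_pow₀ hC
  refine ⟨16 * C ^ 2, by linarith, fun L u hu g c hg m m' hm hm' h5 h5' N hN => ?_⟩
  have hDp : 0 < L ^ d := pow_pos hu.big.pos d
  have hGr := Gr_nonneg (L := L) u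
  have hc := hg.nonneg
  have hH := ham_herm L u
  have hG := hu.fc_opB hg
  have hE1 := Ep_mul_fc hH hg.zero
  have hE2 := fc_mul_Ep hH hg.zero
  have hm1 : OpB (dg m) 1 := opB_dg zero_le_one hm
  have hm2 : OpB (dg m') 1 := opB_dg zero_le_one hm'
  have hsq : √(L ^ d * Gr L u) ^ 2 = L ^ d * Gr L u := sq_sqrt (by positivity)
  have hs0 : 0 ≤ √(L ^ d * Gr L u) := sqrt_nonneg _
  obtain ⟨w, hw⟩ : ∃ w : Ix d L → ℝ, w = fun i => m i - m' i := ⟨_, rfl⟩
  have hw5 : ∀ i, w i ≠ 0 → 5 < ‖mom i‖ := by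
    intro i h
    by_contra h'
    apply h
    rw [hw]
    simp only [h5 i (not_lt.1 h'), h5' i (not_lt.1 h'), sub_self]
  have hw2 : ∀ i, |w i| ≤ 2 := by
    intro i
    rw [hw]
    have := abs_sub (m i) (m' i)
    linarith [hm i, hm' i]
  have eN : N = dg w * fc g (ham L u) * dg m + dg m' * fc g (ham L u) * dg w := by
    rw [hN, hw, ← dg_sub]
    simp only [Matrix.sub_mul, Matrix.mul_sub]
    abel
  obtain ⟨w1, w2⟩ := hhi L u hu _ (Or.inl rfl) w 2 (by norm_num) hw2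
    fun i h => by linarith [hw5 i h]
  constructor
  · have a1 : hs (dg w * fc g (ham L u) * dg m) ≤ c * (C * 2 * √(L ^ d * Gr L u)) := by
      have b1 := hm1.hs_mul_right (dg w * fc g (ham L u))
      have b2 := hG.hs_mul_right (dg w * Ep (ham L u))
      rw [Matrix.mul_assoc, hE1] at b2
      have b3 := mul_le_mul_of_nonneg_left w1 hc
      linarith
    have a2 : hs (dg m' * fc g (ham L u) * dg w) ≤ c * (C * 2 * √(L ^ d * Gr L u)) := by
      have b1 := hm2.hs_mul_left (fc g (ham L u) * dg w)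
      have b2 := hG.hs_mul_left (Ep (ham L u) * dg w)
      rw [← Matrix.mul_assoc, hE2] at b2
      have b3 := mul_le_mul_of_nonneg_left w2 hc
      rw [Matrix.mul_assoc]
      linarith
    have a3 : hs N ≤ 4 * C * c * √(L ^ d * Gr L u) := by
      rw [eN]
      linarith [hs_add_le (dg w * fc g (ham L u) * dg m) (dg m' * fc g (ham L u) * dg w)]
    refine (pow_le_pow_left₀ (hs_nonneg _) a3 2).trans_eq ?_
    rw [mul_pow, hsq]
    ring
  · intro b a hb hba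
    have ha : 0 ≤ a := (abs_nonneg _).trans (hba 0)
    have hB : OpB (mulM L (cx b)) a := mulM_opB_real hb.c1_real.cont hba
    have hsupp : ∀ (k : Ix d L → ℝ) (i : Ix d L), k i * hi L 3 i ≠ 0 → 3 ≤ ‖mom i‖ :=
      fun k i h => (hi_ne (right_ne_zero_of_mul h)).le
    have hbd : ∀ k : Ix d L → ℝ, (∀ i, |k i| ≤ 1) → ∀ i, |k i * hi L 3 i| ≤ 1 := by
      intro k hk i
      rw [abs_mul]
      exact mul_le_one₀ (hk i) (abs_nonneg _) (abs_hi_le 3 i)
    obtain ⟨-, x2⟩ := hhi L u hu _ (Or.inl rfl) _ 1 zero_le_one (hbd m hm) (hsupp m)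
    obtain ⟨y1, -⟩ := hhi L u hu _ (Or.inl rfl) _ 1 zero_le_one (hbd m' hm') (hsupp m')
    have e1 : trace (mulM L (cx b) * (dg w * fc g (ham L u) * dg m)) =
        trace (fc g (ham L u) * dg (fun i => m i * hi L 3 i) * mulM L (cx b) * dg w) := by
      rw [← dg_mul, Matrix.mul_assoc (dg w), ← Matrix.mul_assoc, trace_mul_comm,
        ← SHb_band_left (s := 3) (by norm_num) hb hw5 (by norm_num)]
      simp only [Matrix.mul_assoc]
    have e2 : trace (mulM L (cx b) * (dg m' * fc g (ham L u) * dg w)) =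
        trace (fc g (ham L u) * dg w * mulM L (cx b) * dg (fun i => m' i * hi L 3 i)) := by
      have e3 : dg (fun i => m' i * hi L 3 i) = dg (hi L 3) * dg m' := by
        rw [dg_mul]
        simp only [mul_comm]
      rw [e3, Matrix.mul_assoc (dg m'), ← Matrix.mul_assoc, trace_mul_comm,
        Matrix.mul_assoc (fc g (ham L u)) (dg w), ← Matrix.mul_assoc (dg w),
        ← SHb_band_right (s := 3) (by norm_num) hb hw5 (by norm_num)]
      simp only [Matrix.mul_assoc]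
    have a1 := SHb_two (R := dg fun i => m i * hi L 3 i) (R' := dg w) hG hE1 hE2 hB
    have a2 := SHb_two (R := dg w) (R' := dg fun i => m' i * hi L 3 i) hG hE1 hE2 hB
    have hC0 : 0 ≤ C := by linarith
    have b1 := mul_le_mul (mul_le_mul_of_nonneg_left x2 hc) (mul_le_mul_of_nonneg_left w1 ha)
      (mul_nonneg ha (hs_nonneg _)) (by positivity)
    have b2 := mul_le_mul (mul_le_mul_of_nonneg_left w2 hc) (mul_le_mul_of_nonneg_left y1 ha)
      (mul_nonneg ha (hs_nonneg _)) (by positivity)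
    have b3 : 0 ≤ C ^ 2 * c * a * √(L ^ d * Gr L u) ^ 2 := by positivity
    refine (abs_rtr_le _).trans ?_
    rw [eN, Matrix.mul_add, trace_add, e1, e2]
    refine (norm_add_le _ _).trans ?_
    refine (add_le_add (a1.trans b1) (a2.trans b2)).trans ?_
    rw [← hsq]
    generalize √(L ^ d * Gr L u) = s at *
    rw [sqrt_sq hs0]
    linarith

/-- Changing the momentum cutoff of a density. -/
theorem loc (d : ℕ) : ∃ C : ℝ, 1 ≤ C ∧ ∀ (L : ℝ) (u : Tor d → ℝ), Pot L u →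
    ∀ (g : ℝ → ℝ) (c : ℝ), Van g c → ∀ m m' : Ix d L → ℝ, (∀ i, |m i| ≤ 1) → (∀ i, |m' i| ≤ 1) →
    (∀ i, ‖mom i‖ ≤ 5 → m i = 1) → (∀ i, ‖mom i‖ ≤ 5 → m' i = 1) → ∀ n : Tor d → ℝ,
    (n = fun x => dens (dg m * fc g (ham L u) * dg m) x - dens (dg m' * fc g (ham L u) * dg m') x) →
    ∫ x, n x ^ 2 ≤ C * c ^ 2 * Gr L u ∧ Gr L n ≤ C * c ^ 2 * Gr L u ∧
    (∀ (b : Tor d → ℝ) (a : ℝ), TP L 2 (cx b) → (∀ x, |b x| ≤ a) →
      |∫ x, b x * n x| ≤ C * c * a * Gr L u) ∧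
    ∀ b : Tor d → ℝ, C1 L b → (∀ x, |b x| ≤ 1) →
      |∫ x, b x * n x| ≤ C * c * (Gr L b + Gr L u) := by
  obtain ⟨K, hK, hloc⟩ := SHb_loc d
  have h6 : (1 : ℝ) ≤ 6 ^ d := one_le_pow₀ (by norm_num)
  have k1 : K ≤ 6 ^ d * K := by nlinarith
  have k2 : 0 ≤ 1024 * d * 6 ^ d * K := by positivity
  refine ⟨24 + 2 * (6 ^ d * K) + 1024 * d * 6 ^ d * K, by linarith,
    fun L u hu g c hg m m' hm hm' h5 h5' n hn => ?_⟩
  obtain ⟨N, hN⟩ : ∃ N : Mat d L,
      N = dg m * fc g (ham L u) * dg m - dg m' * fc g (ham L u) * dg m' := ⟨_, rfl⟩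
  obtain ⟨h1, h2⟩ := hloc L u hu g c hg m m' hm hm' h5 h5' N hN
  have en : n = dens N := by
    rw [hn, hN]
    funext x
    rw [dens_sub]
  have hL := hu.big
  have hDp : 0 < L ^ d := pow_pos hL.pos d
  have hGr := Gr_nonneg (L := L) u
  have hc := hg.nonneg
  have p1 : 0 ≤ c ^ 2 * Gr L u := by positivity
  have a1 : ∫ x, n x ^ 2 ≤ c ^ 2 * (6 ^ d * K * Gr L u) := by
    rw [en]
    refine (dens_l2 hL N).trans ((mul_le_mul_of_nonneg_left h1 (by positivity)).trans_eq ?_)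
    field_simp
  have a2 : Gr L n ≤ 1024 * d * 6 ^ d * K * (c ^ 2 * Gr L u) := by
    rw [en]
    refine (Gr_dens_crude hL N).trans ((mul_le_mul_of_nonneg_left h1 (by positivity)).trans_eq ?_)
    field_simp
  have a3 : ∀ (b : Tor d → ℝ) (a : ℝ), TP L 2 (cx b) → (∀ x, |b x| ≤ a) →
      |∫ x, b x * n x| ≤ K * (c * a * Gr L u) := by
    intro b a hb hba
    rw [en, dens_pair N hb.c1_real.cont, abs_mul, abs_of_pos (inv_pos.2 hDp)]
    refine (mul_le_mul_of_nonneg_left (h2 b a hb hba) (by positivity)).trans_eq ?_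
    field_simp
  refine ⟨?_, ?_, fun b a hb hba => ?_, fun b hb hb1 => ?_⟩
  · have := mul_nonneg k2 p1
    have := mul_nonneg (by linarith : 0 ≤ 6 ^ d * K) p1
    linarith
  · have := mul_nonneg (by linarith : 0 ≤ 6 ^ d * K) p1
    linarith
  · have ha : 0 ≤ a := (abs_nonneg _).trans (hba 0)
    have p2 : 0 ≤ c * a * Gr L u := by positivity
    have := mul_le_mul_of_nonneg_right
      (by linarith : K ≤ 24 + 2 * (6 ^ d * K) + 1024 * d * 6 ^ d * K) p2
    linarith [a3 b a hb hba]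
  · have hq : 2 * kap L ≤ 1 := by linarith [hL.kap_le]
    have hGb := Gr_nonneg (L := L) b
    have hnc : Continuous n := by
      rw [en]
      exact (dens_C1 N).cont
    have hJc := (Jr_C1 hL.pos hq b).cont
    have b1 := a3 (Jr L 1 b) 1 ((Jr_TP hL.pos hq b).mono (by norm_num))
      (abs_Jr_le hL.pos hq hb.cont hb1)
    have b2 := cs_real (hb.cont.sub hJc) hnc
    have b3 := l2_sub_Jr hL.pos hq hb
    have b4 := SHb_sqrt (x := 24 * Gr L b) (y := 6 ^ d * K * Gr L u) (by positivity)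
      (by positivity) hc
    have b5 : |∫ x, (b x - Jr L 1 b x) * n x| ≤ c * (24 * Gr L b + 6 ^ d * K * Gr L u) := by
      refine b2.trans (le_trans ?_ b4)
      refine mul_le_mul (sqrt_le_sqrt ?_) (sqrt_le_sqrt a1) (sqrt_nonneg _) (sqrt_nonneg _)
      simpa using b3
    have e : ∫ x, b x * n x = (∫ x, Jr L 1 b x * n x) + ∫ x, (b x - Jr L 1 b x) * n x := by
      have i1 : Integrable fun x => Jr L 1 b x * n x := cont_int (hJc.mul hnc)
      have i2 : Integrable fun x => (b x - Jr L 1 b x) * n x :=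
        cont_int ((hb.cont.sub hJc).mul hnc)
      rw [← integral_add i1 i2]
      congr 1
      funext x
      ring
    have q1 : 0 ≤ c * Gr L b := by positivity
    have q2 : 0 ≤ c * Gr L u := by positivity
    have r1 := mul_le_mul_of_nonneg_right k1 q2
    have r2 := mul_nonneg k2 q1
    have r3 := mul_nonneg k2 q2
    have r4 := mul_nonneg (by linarith : 0 ≤ 6 ^ d * K) q1
    rw [e]
    refine (abs_add_le _ _).trans ?_
    linarith

/-- Removing the cutoffs of the potential in a weighted trace. -/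
theorem bw (d : ℕ) : ∃ C : ℝ, 1 ≤ C ∧ ∀ (L : ℝ) (u v b : Tor d → ℝ), Pot L u → C1 L v →
    (∀ x, |v x| ≤ 1) → TP L 1 (cx b) → (∀ x, |b x| ≤ 1) → ∀ (g : ℝ → ℝ) (c : ℝ), Van g c →
    |(L ^ d)⁻¹ * rtr (mulM L (cx b) * Wop L v * fc g (ham L u)) - wtr L u (fun x => b x * v x) g| ≤
      C * c * (Gr L b + Gr L v + Gr L u) := by
  obtain ⟨C, hC, hsand⟩ := sand d
  have h3 : (1 : ℝ) ≤ 3 ^ d := one_le_pow₀ (by norm_num)
  have k1 : 1 ≤ C * 3 ^ d := one_le_mul_of_one_le_of_one_le hC h3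
  refine ⟨10 * (C * 3 ^ d), by linarith, fun L u v b hu hv hv1 hb hb1 g c hg => ?_⟩
  have hL := hu.big
  have hDp : 0 < L ^ d := pow_pos hL.pos d
  have hGu := Gr_nonneg (L := L) u
  have hGv := Gr_nonneg (L := L) v
  have hGb := Gr_nonneg (L := L) b
  have hc := hg.nonneg
  have hbc := hb.c1_real
  have hB : OpB (mulM L (cx b)) 1 := mulM_opB_real hbc.cont hb1
  have hV : OpB (mulM L (cx v)) 1 := mulM_opB_real hv.cont hv1
  have hbv1 : ∀ x, |b x * v x| ≤ 1 := fun x => by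
    rw [abs_mul]
    exact mul_le_one₀ (hb1 x) (abs_nonneg _) (hv1 x)
  have hbv : C1 L fun x => b x * v x := hbc.mul hv
  have hM : OpB (mulM L (cx fun x => b x * v x)) 1 := mulM_opB_real hbv.cont hbv1
  obtain ⟨R, hR⟩ : ∃ R : Ix d L → ℝ, R = fun i => 1 - phiS (mom i) := ⟨_, rfl⟩
  have hR1 : ∀ i, |R i| ≤ 1 := fun i => by
    rw [hR, abs_le]
    constructor <;> linarith [phiS_nonneg (mom i), phiS_le_one (mom i)]
  have hR10 : ∀ i, R i ≠ 0 → 10 < ‖mom i‖ := by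
    intro i h
    by_contra h'
    apply h
    rw [hR]
    simp only [phiS_eq_one (not_lt.1 h'), sub_self]
  have hRo : OpB (dg R) 1 := opB_dg zero_le_one hR1
  have hP : OpB (Ph d L) 1 := Ph_opB
  have eR : dg R = 1 - Ph d L := by
    rw [hR, ← dg_sub, dg_one]
    rfl
  have ehi : dg (hi L 14) = 1 - dg (lo L 14 : Ix d L → ℝ) := by
    rw [← dg_one, dg_sub]
    rfl
  have elo : dg (lo L 14) * mulM L (cx b) * mulM L (cx v) =
      dg (lo L 14) * mulM L (cx fun x => b x * v x) := by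
    rw [mulM_mul_left hL hb (continuous_cx hv.cont) fun i h => by linarith [lo_ne h]]
    congr 2
    funext x
    simp [cx]
  have e1 : mulM L (cx b) * Wop L v - mulM L (cx fun x => b x * v x) =
      dg (hi L 14) * (mulM L (cx b) * mulM L (cx v) - mulM L (cx fun x => b x * v x)) -
        mulM L (cx b) * mulM L (cx v) * dg R -
        dg (hi L 8) * (mulM L (cx b) * dg R * mulM L (cx v) * Ph d L) := by
    have e2 : dg (hi L 8) * (mulM L (cx b) * dg R * mulM L (cx v) * Ph d L) =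
        mulM L (cx b) * dg R * mulM L (cx v) * Ph d L := by
      simp only [← Matrix.mul_assoc]
      rw [SHb_band_left (s := 8) zero_le_one hb hR10 (by norm_num)]
    rw [e2, ehi, Matrix.sub_mul, Matrix.mul_sub (dg (lo L 14)), ← Matrix.mul_assoc, elo, eR]
    simp only [Wop, Matrix.mul_sub, Matrix.sub_mul, Matrix.mul_one, Matrix.one_mul,
      Matrix.mul_assoc]
    abel
  have c1 := hs_cm_sy_real hL hbc (sy_sc (d := d) (L := L) 3)
  have c2 := hs_cm_sy_real hL hv (sy_sc (d := d) (L := L) 3)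
  have c3 := hs_cm_sy_real hL hbv (sy_sc (d := d) (L := L) 3)
  have su : √(L ^ d * Gr L u) ^ 2 = L ^ d * Gr L u := sq_sqrt (by positivity)
  have sv : √(L ^ d * Gr L v) ^ 2 = L ^ d * Gr L v := sq_sqrt (by positivity)
  have sb : √(L ^ d * Gr L b) ^ 2 = L ^ d * Gr L b := sq_sqrt (by positivity)
  have pu : 0 ≤ √(L ^ d * Gr L u) := sqrt_nonneg _
  have pv : 0 ≤ √(L ^ d * Gr L v) := sqrt_nonneg _
  have pb : 0 ≤ √(L ^ d * Gr L b) := sqrt_nonneg _
  have c4 : √(L ^ d * Gr L fun x => b x * v x) ≤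
      2 * (√(L ^ d * Gr L b) + √(L ^ d * Gr L v)) := by
    exact SHb_ar1 hDp.le pb pv sb sv (Gr_mul_le hbc hv (a := 1) (b := 1) hb1 hv1)
  have c5 := mul_le_mul_of_nonneg_left c4 (by positivity : (0 : ℝ) ≤ 3 ^ d * 1)
  have d1 := hs_cm_mul (R := dg (sc L 3)) hB hV
  have d2 := hs_cm_mul (R := dg (sc L 3)) hB hRo
  have d3 := hs_cm_mul (R := dg (sc L 3)) (hB.mul hRo) hV
  have d4 := hs_cm_mul (R := dg (sc L 3)) ((hB.mul hRo).mul hV) hP
  have d5 : hs (cm (dg (sc L 3)) (Ph d L)) = 0 := SHb_cm_dg _ _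
  rw [SHb_cm_dg] at d2
  rw [d5] at d4
  have d6 : hs (cm (dg (sc L 3))
      (mulM L (cx b) * mulM L (cx v) - mulM L (cx fun x => b x * v x))) ≤
      3 * (3 ^ d * (√(L ^ d * Gr L b) + √(L ^ d * Gr L v))) := by
    rw [cm_sub_right]
    refine (hs_sub_le _ _).trans ?_
    linarith
  have d7 : hs (cm (dg (sc L 3)) (mulM L (cx b) * mulM L (cx v))) ≤
      3 ^ d * (√(L ^ d * Gr L b) + √(L ^ d * Gr L v)) := by linarith
  have d8 : hs (cm (dg (sc L 3)) (mulM L (cx b) * dg R * mulM L (cx v) * Ph d L)) ≤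
      3 ^ d * (√(L ^ d * Gr L b) + √(L ^ d * Gr L v)) := by linarith
  have t1 := (hsand L u hu g c hg (hi L 14) 1 zero_le_one (abs_hi_le 14)
    (fun i h => by linarith [hi_ne h]) _ _ ((hB.mul hV).sub hM)).1
  have t2 := (hsand L u hu g c hg R 1 zero_le_one hR1
    (fun i h => by linarith [hR10 i h]) _ _ (hB.mul hV)).2
  have t3 := (hsand L u hu g c hg (hi L 8) 1 zero_le_one (abs_hi_le 8)
    (fun i h => by linarith [hi_ne h]) _ _ (((hB.mul hRo).mul hV).mul hP)).1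
  have hw : 0 ≤ C * c * 1 * √(L ^ d * Gr L u) := by positivity
  have t1' := t1.trans (mul_le_mul_of_nonneg_left (add_le_add d6 le_rfl) hw)
  have t2' := t2.trans (mul_le_mul_of_nonneg_left (add_le_add d7 le_rfl) hw)
  have t3' := t3.trans (mul_le_mul_of_nonneg_left (add_le_add d8 le_rfl) hw)
  have e3 : trace ((mulM L (cx b) * Wop L v - mulM L (cx fun x => b x * v x)) * fc g (ham L u)) =
      trace (fc g (ham L u) * dg (hi L 14) *
        (mulM L (cx b) * mulM L (cx v) - mulM L (cx fun x => b x * v x))) -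
      trace (fc g (ham L u) * (mulM L (cx b) * mulM L (cx v)) * dg R) -
      trace (fc g (ham L u) * dg (hi L 8) * (mulM L (cx b) * dg R * mulM L (cx v) * Ph d L)) := by
    rw [trace_mul_comm, e1, Matrix.mul_sub, Matrix.mul_sub, trace_sub, trace_sub]
    simp only [Matrix.mul_assoc]
  have t4 : |rtr ((mulM L (cx b) * Wop L v - mulM L (cx fun x => b x * v x)) * fc g (ham L u))| ≤
      10 * (C * 3 ^ d) * c * (L ^ d * (Gr L b + Gr L v + Gr L u)) := by
    refine (abs_rtr_le _).trans ?_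
    rw [e3]
    refine (norm_sub_le _ _).trans ?_
    refine (add_le_add (norm_sub_le _ _) le_rfl).trans ?_
    refine (add_le_add (add_le_add t1' t2') t3').trans ?_
    refine (SHb_ar2 (by linarith) hc h3).trans_eq ?_
    rw [su, sv, sb]
    ring
  unfold wtr
  rw [← mul_sub, ← rtr_sub, ← Matrix.sub_mul, abs_mul, abs_of_pos (inv_pos.2 hDp)]
  refine (mul_le_mul_of_nonneg_left t4 (by positivity)).trans_eq ?_
  field_simp

end Pool.Agent.Lib.MP_ae5e3b_mp.Sh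
end

-- part Pool.Agent.Lib.MP_ae5e3b_mp.SId2
section

open MeasureTheory Matrix Real
open scoped ComplexConjugate ComplexOrder

set_option linter.unusedSectionVars false

namespace Pool.Agent.Lib.MP_ae5e3b_mp.Sh

variable {d : ℕ} {L : ℝ}

/-- Bounded matrices that almost commute with the cutoff `sc 3`. -/
def SId2_Adm (S : ℝ) (M : Mat d L) (m : ℝ) : Prop :=
  OpB M m ∧ hs (cm (dg (sc L 3)) M) ≤ m * S

lemma SId2_Adm.mul {S a b : ℝ} {A B : Mat d L} (hA : SId2_Adm S A a) (hB : SId2_Adm S B b) :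
    SId2_Adm S (A * B) (2 * a * b) := by
  have ha := hA.1.nonneg
  have hb := hB.1.nonneg
  refine ⟨(hA.1.mul hB.1).mono (by linarith [mul_nonneg ha hb]), ?_⟩
  have h1 := hs_cm_mul (R := dg (sc L 3)) hA.1 hB.1
  have h2 := mul_le_mul_of_nonneg_left hA.2 hb
  have h3 := mul_le_mul_of_nonneg_left hB.2 ha
  linarith

lemma SId2_adm_dg {S c : ℝ} (hS : 0 ≤ S) {m : Ix d L → ℝ} (hc : 0 ≤ c) (h : ∀ i, |m i| ≤ c) :
    SId2_Adm S (dg m) c :=
  ⟨opB_dg hc h, by rw [cm_dg_dg, hs_zero]; positivity⟩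

lemma SId2_adm_mulM (hL : Big L) {S : ℝ} {g : Tor d → ℝ} (hg : C1 L g) (h : ∀ x, |g x| ≤ 1)
    (hS : √(L ^ d * Gr L g) ≤ S) : SId2_Adm S (mulM L (cx g)) (3 ^ d) := by
  refine ⟨(mulM_opB_real hg.cont h).mono (one_le_pow₀ (by norm_num)), ?_⟩
  have := hs_cm_sy_real hL hg (sy_sc (L := L) (d := d) 3)
  rw [mul_one] at this
  exact this.trans (mul_le_mul_of_nonneg_left hS (by positivity))

/-- The scale of the errors. -/
noncomputable def SId2_S (L : ℝ) (u b : Tor d → ℝ) : ℝ := √(L ^ d * Gr L b) + √(L ^ d * Gr L u)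

lemma SId2_S_nonneg (u b : Tor d → ℝ) : 0 ≤ SId2_S L u b := by
  unfold SId2_S; positivity

lemma SId2_S_sq (hL : Big L) (u b : Tor d → ℝ) :
    SId2_S L u b ^ 2 ≤ 2 * (L ^ d * (Gr L b + Gr L u)) := by
  have hD : 0 < L ^ d := pow_pos hL.pos d
  have h1 := Real.sq_sqrt (mul_nonneg hD.le (Gr_nonneg (L := L) b))
  have h2 := Real.sq_sqrt (mul_nonneg hD.le (Gr_nonneg (L := L) u))
  unfold SId2_S
  linarith [sq_nonneg (√(L ^ d * Gr L b) - √(L ^ d * Gr L u))]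

/-- The sandwich estimate for admissible matrices. -/
theorem SId2_sand (d : ℕ) : ∃ C : ℝ, 1 ≤ C ∧ ∀ (L : ℝ) (u b : Tor d → ℝ), Pot L u →
    ∀ (g : ℝ → ℝ) (c : ℝ), Van g c → ∀ (R : Ix d L → ℝ) (cR : ℝ), 0 ≤ cR → (∀ i, |R i| ≤ cR) →
    (∀ i, R i ≠ 0 → 4 ≤ ‖mom i‖) → ∀ (M : Mat d L) (m : ℝ), SId2_Adm (SId2_S L u b) M m →
    |rtr (fc g (ham L u) * dg R * M)| ≤ C * (cR * m) * (c * (L ^ d * (Gr L b + Gr L u))) ∧
    |rtr (fc g (ham L u) * M * dg R)| ≤ C * (cR * m) * (c * (L ^ d * (Gr L b + Gr L u))) := by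
  obtain ⟨C, hC, h⟩ := sand d
  refine ⟨4 * C, by linarith, fun L u b hu g c hg R cR h0 h1 h2 M m hM => ?_⟩
  obtain ⟨a1, a2⟩ := h L u hu g c hg R cR h0 h1 h2 M m hM.1
  have hc := hg.nonneg
  have hm := hM.1.nonneg
  have hS := SId2_S_sq hu.big u b
  have hS0 := SId2_S_nonneg (L := L) u b
  have hs1 : √(L ^ d * Gr L u) ≤ SId2_S L u b := le_add_of_nonneg_left (Real.sqrt_nonneg _)
  have key : C * c * cR * √(L ^ d * Gr L u) * (hs (cm (dg (sc L 3)) M) + m * √(L ^ d * Gr L u)) ≤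
      4 * C * (cR * m) * (c * (L ^ d * (Gr L b + Gr L u))) := by
    have hC0 : 0 ≤ C := by linarith
    calc _ ≤ C * c * cR * SId2_S L u b * (m * SId2_S L u b + m * SId2_S L u b) := by
          have := hs_nonneg (cm (dg (sc L 3)) M)
          gcongr
          exact hM.2
      _ = 2 * (C * c * cR * m) * SId2_S L u b ^ 2 := by ring
      _ ≤ 2 * (C * c * cR * m) * (2 * (L ^ d * (Gr L b + Gr L u))) := by gcongr
      _ = _ := by ring
  exact ⟨(abs_rtr_le _).trans (a1.trans key), (abs_rtr_le _).trans (a2.trans key)⟩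

theorem id2a (d : ℕ) : ∃ C : ℝ, 1 ≤ C ∧ ∀ (L : ℝ) (u b : Tor d → ℝ), Pot L u →
    TP L 1 (cx b) → (∀ x, |b x| ≤ 1) → ∀ (Φ : ℝ → ℝ) (M : ℝ), Van Φ M → ∀ j : Fin d,
    |rtr (dg (fun i => piS j (momS j i) - piS j (mom i)) * mulM L (cx b) * fc Φ (ham L u)) -
        kap L * rtr (mulM L (cx b) * fc Φ (ham L u))| ≤
      C * M * kap L * L ^ d * (Gr L b + Gr L u) := by
  obtain ⟨C, hC, h⟩ := SId2_sand d
  obtain ⟨K, hK, hs⟩ := sy_all d
  have h3 : (1 : ℝ) ≤ 3 ^ d := one_le_pow₀ (by norm_num)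
  refine ⟨C * ((K + 1) * 3 ^ d), one_le_mul_of_one_le_of_one_le hC
    (one_le_mul_of_one_le_of_one_le (by linarith) h3), fun L u b hu hb hb1 Φ M hΦ j => ?_⟩
  have hL := hu.big
  have hk := kap_pos hL.pos
  obtain ⟨-, -, -, -, -, -, hq⟩ := (hs L hL).2.2 j
  have a1 := (h L u b hu Φ M hΦ (fun i => (piS j (momS j i) - piS j (mom i)) / kap L - 1) (K + 1)
    (by linarith) (fun i => (abs_sub _ _).trans (by rw [abs_one]; linarith [hq.2.1 i]))
    (fun i hi => by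
      by_contra h4
      have h5 : ‖mom i‖ ≤ 10 := by linarith [not_le.1 h4]
      refine hi ?_
      simp only [piS_shift hL j h5, piS_eq j (p := mom i) (by linarith)]
      field_simp; ring)
    _ _ (SId2_adm_mulM hL hb.c1_real hb1 (le_add_of_nonneg_right (Real.sqrt_nonneg _)))).1
  have e : dg (fun i : Ix d L => piS j (momS j i) - piS j (mom i)) =
      ((kap L : ℝ) : ℂ) • (dg (fun i => (piS j (momS j i) - piS j (mom i)) / kap L - 1) + 1) := by
    rw [← dg_one, dg_add, dg_smul]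
    refine congrArg dg (funext fun i => ?_); field_simp; ring
  rw [e, smul_mul_assoc, smul_mul_assoc, rtr_smul, add_mul, add_mul, rtr_add, one_mul, ← mul_sub,
    add_sub_cancel_right, rtr_comm, ← mul_assoc, abs_mul, abs_of_pos hk]
  calc _ ≤ kap L * (C * ((K + 1) * 3 ^ d) * (M * (L ^ d * (Gr L b + Gr L u)))) := by gcongr
    _ = _ := by ring

lemma SId2_band_left {b : Tor d → ℝ} (hb : TP L 1 (cx b)) {R : Ix d L → ℝ}
    (hR : ∀ i, R i ≠ 0 → 9 ≤ ‖mom i‖) :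
    dg R * mulM L (cx b) * dg (hi L 7) = dg R * mulM L (cx b) := by
  refine dg_mulM_dg zero_le_one hb fun i j h => ?_
  by_cases h0 : R i = 0
  · simp [h0]
  · have h1 := hR i h0
    have h2 := norm_sub_norm_le (mom i) (mom j)
    rw [hi_of_lt (by linarith), mul_one]

lemma SId2_band_right {b : Tor d → ℝ} (hb : TP L 1 (cx b)) {R : Ix d L → ℝ}
    (hR : ∀ i, R i ≠ 0 → 9 ≤ ‖mom i‖) :
    dg (hi L 7) * mulM L (cx b) * dg R = mulM L (cx b) * dg R := by
  refine dg_mulM_dg' zero_le_one hb fun i j h => ?_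
  by_cases h0 : R j = 0
  · simp [h0]
  · have h1 := hR j h0
    have h2 := norm_sub_norm_le (mom j) (mom i)
    rw [norm_sub_rev] at h2
    rw [hi_of_lt (by linarith), one_mul]

lemma SId2_dg_comm {n : Type} [Fintype n] [DecidableEq n] (m m' : n → ℝ) :
    dg m * dg m' = dg m' * dg m := by
  rw [dg_mul, dg_mul]; exact congrArg dg (funext fun i => mul_comm _ _)

/-- The terms that come from the cutoff of the potential. -/
theorem SId2_cut (d : ℕ) (K : ℝ) (hK : 1 ≤ K) : ∃ C : ℝ, 1 ≤ C ∧ ∀ (L : ℝ) (u b : Tor d → ℝ),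
    Pot L u → TP L 1 (cx b) → (∀ x, |b x| ≤ 1) → ∀ (g : ℝ → ℝ) (M : ℝ), Van g M →
    ∀ r φ φ' p : Ix d L → ℝ, (∀ i, |r i| ≤ K) → (∀ i, |φ i| ≤ K) → (∀ i, |φ' i| ≤ K) →
    (∀ i, |p i| ≤ K) → (∀ i, r i ≠ 0 → 9 ≤ ‖mom i‖) →
    |rtr (fc g (ham L u) * (dg r * mulM L (cx u) * dg φ' + dg φ * mulM L (cx u) * dg r) *
        (dg p * mulM L (cx b))) +
      rtr (fc g (ham L u) * (dg p * mulM L (cx b)) *
        (dg r * mulM L (cx u) * dg φ' + dg φ * mulM L (cx u) * dg r))| ≤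
      C * (M * (L ^ d * (Gr L b + Gr L u))) := by
  obtain ⟨C, hC, h⟩ := SId2_sand d
  have h3 : (1 : ℝ) ≤ 3 ^ d := one_le_pow₀ (by norm_num)
  obtain ⟨T, hT, e3⟩ : ∃ T : ℝ, 1 ≤ T ∧ 3 ^ d = T := ⟨_, h3, rfl⟩
  have hK0 : 0 ≤ K := by linarith
  have h1 : 1 ≤ K ^ 3 * T ^ 2 := one_le_mul_of_one_le_of_one_le (one_le_pow₀ hK) (one_le_pow₀ hT)
  refine ⟨C * (48 * (K ^ 3 * T ^ 2)), one_le_mul_of_one_le_of_one_le hC (by linarith),
    fun L u b hu hb hb1 g M hg r φ φ' p hr hφ hφ' hp h9 => ?_⟩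
  have hL := hu.big
  have hS := SId2_S_nonneg (L := L) u b
  have aB : SId2_Adm (SId2_S L u b) (mulM L (cx b)) T :=
    e3 ▸ SId2_adm_mulM hL hb.c1_real hb1 (le_add_of_nonneg_right (Real.sqrt_nonneg _))
  have aU : SId2_Adm (SId2_S L u b) (mulM L (cx u)) T :=
    e3 ▸ SId2_adm_mulM hL hu.c1 (fun x => (hu.bd x).trans (by norm_num))
      (le_add_of_nonneg_left (Real.sqrt_nonneg _))
  have ar := SId2_adm_dg hS hK0 hr
  have aφ := SId2_adm_dg hS hK0 hφ
  have aφ' := SId2_adm_dg hS hK0 hφ'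
  have aX := (SId2_adm_dg hS hK0 hp).mul aB
  have h4 : ∀ i, r i ≠ 0 → 4 ≤ ‖mom i‖ := fun i hi => by linarith [h9 i hi]
  have h7 : ∀ i : Ix d L, hi L 7 i ≠ 0 → 4 ≤ ‖mom i‖ := fun i hi => by linarith [hi_ne hi]
  have b1 := (h L u b hu g M hg r K hK0 hr h4 _ _ ((aU.mul aφ').mul aX)).1
  have b2 := (h L u b hu g M hg _ 1 zero_le_one (abs_hi_le 7) h7 _ _
    (((aφ.mul aU).mul ar).mul aX)).2
  have b3 := (h L u b hu g M hg _ 1 zero_le_one (abs_hi_le 7) h7 _ _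
    (aX.mul ((ar.mul aU).mul aφ'))).1
  have b4 := (h L u b hu g M hg r K hK0 hr h4 _ _ (aX.mul (aφ.mul aU))).2
  have e1 : dg r * (dg p * mulM L (cx b)) * dg (hi L 7) = dg r * (dg p * mulM L (cx b)) := by
    rw [← mul_assoc, dg_mul]
    exact SId2_band_left hb fun i hi => h9 i (left_ne_zero_of_mul hi)
  have e2 : dg (hi L 7) * (dg p * mulM L (cx b)) * dg r = dg p * mulM L (cx b) * dg r := by
    rw [← mul_assoc, SId2_dg_comm, mul_assoc (dg p), mul_assoc (dg p), SId2_band_right hb h9,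
      mul_assoc]
  obtain ⟨G, eG⟩ : ∃ G, fc g (ham L u) = G := ⟨_, rfl⟩
  obtain ⟨X, eX⟩ : ∃ X, dg p * mulM L (cx b) = X := ⟨_, rfl⟩
  obtain ⟨U, eU⟩ : ∃ U, mulM L (cx u) = U := ⟨_, rfl⟩
  simp only [eG, eX, eU] at b1 b2 b3 b4 e1 e2 ⊢
  have c1 : G * (dg r * U * dg φ') * X = G * dg r * (U * dg φ' * X) := by simp only [mul_assoc]
  have c2 : G * (dg φ * U * dg r) * X = G * (dg φ * U * dg r * X) * dg (hi L 7) := by
    simp only [mul_assoc] at e1 ⊢; rw [e1]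
  have c3 : G * X * (dg r * U * dg φ') = G * dg (hi L 7) * (X * (dg r * U * dg φ')) := by
    have : dg (hi L 7) * X * dg r * (U * dg φ') = X * dg r * (U * dg φ') := by rw [e2]
    simp only [mul_assoc] at this ⊢; rw [this]
  have c4 : G * X * (dg φ * U * dg r) = G * (X * (dg φ * U)) * dg r := by simp only [mul_assoc]
  rw [mul_add, add_mul, mul_add, rtr_add, rtr_add, c1, c2, c3, c4]
  generalize M * (L ^ d * (Gr L b + Gr L u)) = E at b1 b2 b3 b4 ⊢
  refine (abs_add_le _ _).trans ((add_le_add ((abs_add_le _ _).trans (add_le_add b1 b2))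
    ((abs_add_le _ _).trans (add_le_add b3 b4))).trans (le_of_eq (by ring)))

lemma SId2_main {n : Type} [Fintype n] [DecidableEq n] {G P B : Matrix n n ℂ} (hG : Gᴴ = G)
    (hP : Pᴴ = P) (hB : Bᴴ = B) :
    |2 * rtr (G * (P * P * B)) + 2 * rtr (G * (P * B * P)) - 4 * rtr (B * P * P * G)| ≤
      hs (cm P G) * hs (cm P B) := by
  have e1 : rtr (G * (P * P * B)) = rtr (B * P * P * G) := by
    rw [← rtr_conjT]; simp only [conjTranspose_mul, hG, hP, hB, mul_assoc]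
  have e2 : rtr (G * (B * P * P)) = rtr (B * P * P * G) := rtr_comm _ _
  have e3 : G * cm P (cm P B) = G * (P * P * B) + G * (B * P * P) - G * (P * B * P) - G * (P * B * P) := by
    simp only [cm, mul_sub, sub_mul, mul_assoc]; abel
  have e4 := congrArg rtr e3
  rw [rtr_sub, rtr_sub, rtr_add, e1, e2] at e4
  have e5 : |rtr (G * cm P (cm P B))| ≤ hs (cm P G) * hs (cm P B) := by
    refine (abs_rtr_le _).trans ?_
    rw [trace_mul_cm, hs_cm_swap P G]
    exact trace_mul_le _ _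
  rw [e1, show 2 * rtr (B * P * P * G) + 2 * rtr (G * (P * B * P)) - 4 * rtr (B * P * P * G) =
    -rtr (G * cm P (cm P B)) by linarith, abs_neg]
  exact e5

/-- The kinetic terms. -/
theorem SId2_kin (d : ℕ) (K : ℝ) (hK : 1 ≤ K) : ∃ C : ℝ, 1 ≤ C ∧ ∀ (L : ℝ) (u b : Tor d → ℝ),
    Pot L u → TP L 1 (cx b) → (∀ x, |b x| ≤ 1) → ∀ (g : ℝ → ℝ) (M : ℝ), Van g M →
    (∀ s t, |g s - g t| ≤ M * |s - t|) → ∀ (j : Fin d) (e p : Ix d L → ℝ), (∀ i, |e i| ≤ K) →
    (∀ i, |p i| ≤ K) → (∀ i, ‖mom i‖ ≤ 10 → e i = 2 * mom i j + kap L) →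
    (∀ i, ‖mom i‖ ≤ 10 → p i = mom i j + kap L) →
    |rtr (fc g (ham L u) * dg e * (dg p * mulM L (cx b))) +
      rtr (fc g (ham L u) * (dg p * mulM L (cx b)) * dg e) -
      4 * rtr (mulM L (cx b) * Pm L j * Pm L j * fc g (ham L u))| ≤
      C * (M * (L ^ d * (Gr L b + Gr L u + kap L))) := by
  obtain ⟨C, hC, h⟩ := SId2_sand d
  have h3 : (1 : ℝ) ≤ 3 ^ d := one_le_pow₀ (by norm_num)
  have h6 : (1 : ℝ) ≤ 6 ^ d := one_le_pow₀ (by norm_num)
  obtain ⟨T, hT, e3⟩ : ∃ T : ℝ, 1 ≤ T ∧ 3 ^ d = T := ⟨_, h3, rfl⟩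
  obtain ⟨T', hT', e6⟩ : ∃ T : ℝ, 1 ≤ T ∧ 6 ^ d = T := ⟨_, h6, rfl⟩
  have hK0 : 0 ≤ K := by linarith
  have hC0 : 0 ≤ C := by linarith
  have hT0 : 0 ≤ T := by linarith
  refine ⟨C * ((K + 33) * (2 * K * T) + (K + 17) * (2 * 33 * T) + (K + 17) * (2 * T * K) +
      (K + 33) * (2 * 17 * T)) + 256 * T ^ 2 + 98 * T', by
        have : 0 ≤ C * ((K + 33) * (2 * K * T) + (K + 17) * (2 * 33 * T) + (K + 17) * (2 * T * K) +
          (K + 33) * (2 * 17 * T)) + 256 * T ^ 2 := by positivity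
        linarith,
    fun L u b hu hb hb1 g M hg hl j e p he hp he' hp' => ?_⟩
  have hL := hu.big
  have hk := kap_pos hL.pos
  have hk' := hL.kap_le
  have hM := hg.nonneg
  have hD : 0 < L ^ d := pow_pos hL.pos d
  have hS := SId2_S_nonneg (L := L) u b
  have aB : SId2_Adm (SId2_S L u b) (mulM L (cx b)) T :=
    e3 ▸ SId2_adm_mulM hL hb.c1_real hb1 (le_add_of_nonneg_right (Real.sqrt_nonneg _))
  have m1 : ∀ i : Ix d L, |2 * mom i j + kap L| ≤ 33 := fun i => by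
    have := abs_le.1 (abs_mom_le hL i j); rw [abs_le]; constructor <;> linarith
  have m2 : ∀ i : Ix d L, |mom i j + kap L| ≤ 17 := fun i => by
    have := abs_le.1 (abs_mom_le hL i j); rw [abs_le]; constructor <;> linarith
  have r1 : ∀ i, |e i - (2 * mom i j + kap L)| ≤ K + 33 := fun i =>
    (abs_sub _ _).trans (add_le_add (he i) (m1 i))
  have r2 : ∀ i, |p i - (mom i j + kap L)| ≤ K + 17 := fun i =>
    (abs_sub _ _).trans (add_le_add (hp i) (m2 i))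
  have s1 : ∀ i, e i - (2 * mom i j + kap L) ≠ 0 → 4 ≤ ‖mom i‖ := fun i hi => by
    by_contra h4
    exact hi (by rw [he' i (by linarith [not_le.1 h4]), sub_self])
  have s2 : ∀ i, p i - (mom i j + kap L) ≠ 0 → 4 ≤ ‖mom i‖ := fun i hi => by
    by_contra h4
    exact hi (by rw [hp' i (by linarith [not_le.1 h4]), sub_self])
  have b1 := (h L u b hu g M hg _ _ (by linarith) r1 s1 _ _
    ((SId2_adm_dg hS hK0 hp).mul aB)).1
  have b2 := (h L u b hu g M hg _ _ (by linarith) r2 s2 _ _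
    ((SId2_adm_dg hS (by norm_num) m1).mul aB)).1
  have b3 := (h L u b hu g M hg _ _ (by linarith) r2 s2 _ _
    (aB.mul (SId2_adm_dg hS hK0 he))).1
  have b4 := (h L u b hu g M hg _ _ (by linarith) r1 s1 _ _
    ((SId2_adm_dg hS (by norm_num) m2).mul aB)).2
  have b5 := SId2_main (fc_conjT g (ham L u)) (Pm_herm (L := L) j) (mulM_cx_conjT (L := L) b)
  have b6 : hs (cm (Pm L j) (fc g (ham L u))) * hs (cm (Pm L j) (mulM L (cx b))) ≤
      256 * T ^ 2 * (M * (L ^ d * (Gr L b + Gr L u))) := by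
    have c1 := (hs_cm_fc (ham_herm L u) hM hl (Pm L j)).trans
      (mul_le_mul_of_nonneg_left (hs_cm_Pm_ham hL hu.c1 j) hM)
    have c2 : hs (cm (Pm L j) (mulM L (cx b))) ≤ _ := hs_cm_sy_real hL hb.c1_real (sy_mom hL j)
    rw [e3] at c1 c2
    have c3 := Real.sq_sqrt (mul_nonneg hD.le (Gr_nonneg (L := L) b))
    have c4 := Real.sq_sqrt (mul_nonneg hD.le (Gr_nonneg (L := L) u))
    have c5 : √(L ^ d * Gr L u) * √(L ^ d * Gr L b) ≤ L ^ d * (Gr L b + Gr L u) := by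
      linarith [sq_nonneg (√(L ^ d * Gr L b) - √(L ^ d * Gr L u)), sq_nonneg √(L ^ d * Gr L b),
        sq_nonneg √(L ^ d * Gr L u)]
    calc _ ≤ M * (T * 16 * √(L ^ d * Gr L u)) * (T * 16 * √(L ^ d * Gr L b)) :=
          mul_le_mul c1 c2 (hs_nonneg _) (by positivity)
      _ = 256 * T ^ 2 * (M * (√(L ^ d * Gr L u) * √(L ^ d * Gr L b))) := by ring
      _ ≤ _ := by gcongr
  have oG := hu.fc_opB hg
  have oB := mulM_opB_real (L := L) hb.c1_real.cont hb1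
  have oP := Pm_opB hL j
  have tr : ∀ {N : Mat d L} {c : ℝ}, OpB N c → |rtr (fc g (ham L u) * N)| ≤ c * T' * (M * L ^ d) :=
    fun {N c} hN => by
      refine (abs_rtr_le _).trans ((oG.mul hN).trace_le.trans ?_)
      have c1 := card_le (d := d) hL
      rw [e6] at c1
      have := hN.nonneg
      calc _ ≤ M * c * (T' * L ^ d) := by gcongr
        _ = _ := by ring
  have b7 := tr (oP.mul oB)
  have b8 := tr (oB.mul oP)
  have b9 := tr oB
  have e1 : dg e = dg (fun i => e i - (2 * mom i j + kap L)) + dg fun i => 2 * mom i j + kap L := by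
    rw [dg_add]; exact congrArg dg (funext fun i => by ring)
  have e2 : dg p = dg (fun i => p i - (mom i j + kap L)) + dg fun i => mom i j + kap L := by
    rw [dg_add]; exact congrArg dg (funext fun i => by ring)
  have e4 : (dg fun i : Ix d L => 2 * mom i j + kap L) =
      ((2 : ℝ) : ℂ) • Pm L j + ((kap L : ℝ) : ℂ) • 1 := by
    rw [Pm, dg_smul, ← dg_const, dg_add]
  have e5 : (dg fun i : Ix d L => mom i j + kap L) = Pm L j + ((kap L : ℝ) : ℂ) • 1 := by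
    rw [Pm, ← dg_const, dg_add]
  have e7 := SId2_dg_comm (fun i : Ix d L => 2 * mom i j + kap L) fun i => p i - (mom i j + kap L)
  obtain ⟨G, eG⟩ : ∃ G, fc g (ham L u) = G := ⟨_, rfl⟩
  obtain ⟨B, eB⟩ : ∃ X, mulM L (cx b) = X := ⟨_, rfl⟩
  obtain ⟨R1, f1⟩ : ∃ X, (dg fun i => e i - (2 * mom i j + kap L)) = X := ⟨_, rfl⟩
  obtain ⟨R2, f2⟩ : ∃ X, (dg fun i => p i - (mom i j + kap L)) = X := ⟨_, rfl⟩
  obtain ⟨Q1, f3⟩ : ∃ X, (dg fun i : Ix d L => 2 * mom i j + kap L) = X := ⟨_, rfl⟩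
  obtain ⟨Q2, f4⟩ : ∃ X, (dg fun i : Ix d L => mom i j + kap L) = X := ⟨_, rfl⟩
  obtain ⟨P, eP⟩ : ∃ X, Pm L j = X := ⟨_, rfl⟩
  simp only [eG, eB, f1, f2, f3, f4, eP] at b1 b2 b3 b4 b5 b6 b7 b8 b9 e1 e2 e4 e5 e7 ⊢
  have c1 : G * dg e * (dg p * B) = G * R1 * (dg p * B) + G * R2 * (Q1 * B) + G * (Q1 * Q2 * B) := by
    have : G * Q1 * (R2 * B) = G * R2 * (Q1 * B) := by
      rw [mul_assoc, ← mul_assoc Q1, e7]; simp only [mul_assoc]
    rw [← this]
    conv_lhs => rw [e1, mul_add, add_mul]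
    rw [add_assoc]; refine congrArg₂ (· + ·) rfl ?_
    rw [e2]; simp only [mul_add, add_mul, mul_assoc]
  have c2 : G * (dg p * B) * dg e = G * R2 * (B * dg e) + G * (Q2 * B) * R1 + G * (Q2 * B * Q1) := by
    conv_lhs => rw [e2, add_mul, mul_add, add_mul]
    rw [add_assoc]; refine congrArg₂ (· + ·) ?_ ?_
    · simp only [mul_assoc]
    · rw [e1]; simp only [mul_add, mul_assoc]
  have c3 : rtr (G * (Q1 * Q2 * B)) = 2 * rtr (G * (P * P * B)) + 3 * kap L * rtr (G * (P * B)) +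
      kap L * kap L * rtr (G * B) := by
    rw [← rtr_smul, ← rtr_smul, ← rtr_smul, ← rtr_add, ← rtr_add, e4, e5]
    refine congrArg rtr ?_
    simp only [mul_add, add_mul, smul_mul_assoc, mul_smul_comm, mul_one, one_mul]
    push_cast
    module
  have c4 : rtr (G * (Q2 * B * Q1)) = 2 * rtr (G * (P * B * P)) + kap L * rtr (G * (P * B)) +
      2 * kap L * rtr (G * (B * P)) + kap L * kap L * rtr (G * B) := by
    rw [← rtr_smul, ← rtr_smul, ← rtr_smul, ← rtr_smul, ← rtr_add, ← rtr_add, ← rtr_add, e4, e5]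
    refine congrArg rtr ?_
    simp only [mul_add, add_mul, smul_mul_assoc, mul_smul_comm, mul_one, one_mul]
    push_cast
    module
  rw [c1, c2, rtr_add, rtr_add, rtr_add, rtr_add, c3, c4]
  have hE : 0 ≤ M * (L ^ d * (Gr L b + Gr L u)) := by
    have := Gr_nonneg (L := L) b; have := Gr_nonneg (L := L) u; positivity
  have eE : M * (L ^ d * (Gr L b + Gr L u + kap L)) =
      M * (L ^ d * (Gr L b + Gr L u)) + kap L * (M * L ^ d) := by ring
  rw [eE]
  obtain ⟨E, eE'⟩ : ∃ E, M * (L ^ d * (Gr L b + Gr L u)) = E := ⟨_, rfl⟩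
  have hF : 0 ≤ M * L ^ d := by positivity
  obtain ⟨F, eF⟩ : ∃ E, M * L ^ d = E := ⟨_, rfl⟩
  rw [eE'] at b1 b2 b3 b4 b6 hE ⊢
  rw [eF] at b7 b8 b9 hF ⊢
  have d1 : |4 * kap L * rtr (G * (P * B)) + 2 * kap L * rtr (G * (B * P)) +
      2 * (kap L * kap L) * rtr (G * B)| ≤ 98 * T' * (kap L * F) := by
    have x1 : |4 * kap L * rtr (G * (P * B))| ≤ 4 * kap L * (16 * 1 * T' * F) := by
      rw [abs_mul, abs_of_pos (by positivity)]; gcongr
    have x2 : |2 * kap L * rtr (G * (B * P))| ≤ 2 * kap L * (1 * 16 * T' * F) := by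
      rw [abs_mul, abs_of_pos (by positivity)]; gcongr
    have x3 : |2 * (kap L * kap L) * rtr (G * B)| ≤ 2 * (kap L * 1) * (1 * T' * F) := by
      rw [abs_mul, abs_of_pos (by positivity)]; gcongr; linarith
    linarith [abs_add_three (4 * kap L * rtr (G * (P * B))) (2 * kap L * rtr (G * (B * P)))
      (2 * (kap L * kap L) * rtr (G * B))]
  have d2 : 0 ≤ 98 * T' * E := by positivity
  have d3 : 0 ≤ (C * ((K + 33) * (2 * K * T) + (K + 17) * (2 * 33 * T) + (K + 17) * (2 * T * K) +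
      (K + 33) * (2 * 17 * T)) + 256 * T ^ 2) * (kap L * F) := by positivity
  have b10 := abs_le.1 (b5.trans b6)
  have d4 := abs_le.1 d1
  rw [abs_le] at b1 b2 b3 b4 ⊢
  constructor <;> linarith [b1.1, b1.2, b2.1, b2.2, b3.1, b3.2, b4.1, b4.2, b10.1, b10.2, d4.1, d4.2]

theorem id2b (d : ℕ) : ∃ C : ℝ, 1 ≤ C ∧ ∀ (L : ℝ) (u b : Tor d → ℝ), Pot L u →
    TP L 1 (cx b) → (∀ x, |b x| ≤ 1) → ∀ (g : ℝ → ℝ) (M : ℝ), Van g M →
    (∀ s t, |g s - g t| ≤ M * |s - t|) → ∀ j : Fin d,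
    |1 / 2 * rtr (fc g (hamS L j u) * (hamS L j u - ham L u) * Xs L j b) +
        1 / 2 * rtr (fc g (ham L u) * Xs L j b * (hamS L j u - ham L u)) -
        2 * kap L * rtr (mulM L (cx b) * Pm L j * Pm L j * fc g (ham L u))| ≤
      C * M * kap L * L ^ d * (Gr L b + Gr L u + kap L) := by
  obtain ⟨K, hK, hs⟩ := sy_all d
  obtain ⟨C₁, hC₁, h₁⟩ := SId2_cut d K hK
  obtain ⟨C₂, hC₂, h₂⟩ := SId2_kin d K hK
  obtain ⟨C₃, hC₃, h₃⟩ := ham_opB d
  have hK0 : 0 ≤ K := by linarith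
  have hC0 : 0 ≤ C₃ := by linarith
  refine ⟨C₁ + C₂ + C₃ ^ 2 * K * 6 ^ d, by
    have : 0 ≤ C₃ ^ 2 * K * 6 ^ d := by positivity
    linarith, fun L u b hu hb hb1 g M hg hl j => ?_⟩
  have hL := hu.big
  have hk := kap_pos hL.pos
  have hk' := hL.kap_le
  have hM := hg.nonneg
  have hD : 0 < L ^ d := pow_pos hL.pos d
  obtain ⟨q0, -, hq⟩ := hs L hL
  obtain ⟨-, q1, -, q2, q3, q4, -⟩ := hq j
  have a1 := h₁ L u b hu hb hb1 g M hg _ _ _ _ q3.2.1 q0.2.1 q1.2.1 q2.2.1 fun i hi => by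
    by_contra h4
    have h5 := not_le.1 h4
    refine hi ?_
    rw [phiS_eq_one (p := mom i) (by linarith),
      phiS_eq_one (p := momS j i) (by linarith [norm_momS_le hL j i]), sub_self, zero_div]
  have a2 := h₂ L u b hu hb hb1 g M hg hl j _ _ q4.2.1 q2.2.1
    (fun i hi => epsS_shift hL j (by linarith)) fun i hi => piS_shift hL j hi
  have oD := ((h₃ L u hu).2 j).2
  have oX : OpB (Xs L j b) (K * 1) := q2.opB.mul (mulM_opB_real hb.c1_real.cont hb1)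
  have a3 : |rtr ((fc g (hamS L j u) - fc g (ham L u)) * ((hamS L j u - ham L u) * Xs L j b))| ≤
      C₃ ^ 2 * K * 6 ^ d * (kap L * (M * (L ^ d * kap L))) := by
    refine (abs_rtr_le _).trans ((trace_mul_le _ _).trans ?_)
    have c1 := (hs_fc_sub (hamS_herm L j u) (ham_herm L u) hM hl).trans
      (mul_le_mul_of_nonneg_left oD.hs_le hM)
    have c2 := (oD.mul oX).hs_le
    have c3 := Real.mul_self_sqrt (Nat.cast_nonneg (α := ℝ) (Fintype.card (Ix d L)))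
    calc _ ≤ M * (C₃ * kap L * √(Fintype.card (Ix d L))) *
          (C₃ * kap L * (K * 1) * √(Fintype.card (Ix d L))) :=
          mul_le_mul c1 c2 (hs_nonneg _) (by positivity)
      _ = C₃ ^ 2 * K * kap L ^ 2 * M * (√(Fintype.card (Ix d L)) * √(Fintype.card (Ix d L))) := by
          ring
      _ ≤ C₃ ^ 2 * K * kap L ^ 2 * M * (6 ^ d * L ^ d) := by
          rw [c3]; gcongr; exact card_le hL
      _ = _ := by ring
  have e1 : rtr (fc g (hamS L j u) * (hamS L j u - ham L u) * Xs L j b) =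
      rtr ((fc g (hamS L j u) - fc g (ham L u)) * ((hamS L j u - ham L u) * Xs L j b)) +
        rtr (fc g (ham L u) * (hamS L j u - ham L u) * Xs L j b) := by
    rw [← rtr_add]; refine congrArg rtr ?_
    simp only [sub_mul (fc g (hamS L j u)), mul_assoc, sub_add_cancel]
  rw [e1]
  obtain ⟨w, ew⟩ : ∃ w, rtr ((fc g (hamS L j u) - fc g (ham L u)) *
    ((hamS L j u - ham L u) * Xs L j b)) = w := ⟨_, rfl⟩
  rw [ew] at a3 ⊢
  rw [hamS_sub hL.pos, add_assoc (dg _), mul_smul_comm, smul_mul_assoc, mul_smul_comm, rtr_smul,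
    rtr_smul, mul_add (fc g (ham L u)), add_mul (fc g (ham L u) * _),
    mul_add (fc g (ham L u) * Xs L j b), rtr_add, rtr_add, Xs, Ph]
  have hE : 0 ≤ M * (L ^ d * (Gr L b + Gr L u)) := by
    have := Gr_nonneg (L := L) b; have := Gr_nonneg (L := L) u; positivity
  have hF : 0 ≤ M * (L ^ d * kap L) := by positivity
  have eE : M * (L ^ d * (Gr L b + Gr L u + kap L)) =
      M * (L ^ d * (Gr L b + Gr L u)) + M * (L ^ d * kap L) := by ring
  have eR : (C₁ + C₂ + C₃ ^ 2 * K * 6 ^ d) * M * kap L * L ^ d * (Gr L b + Gr L u + kap L) =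
      kap L * ((C₁ + C₂ + C₃ ^ 2 * K * 6 ^ d) *
        (M * (L ^ d * (Gr L b + Gr L u)) + M * (L ^ d * kap L))) := by ring
  rw [eE] at a2
  rw [eR]
  generalize M * (L ^ d * (Gr L b + Gr L u)) = E at *
  generalize M * (L ^ d * kap L) = F at *
  have hT : 0 ≤ C₃ ^ 2 * K * 6 ^ d := by positivity
  generalize C₃ ^ 2 * K * 6 ^ d = T at *
  have ab : ∀ {x y : ℝ}, |x| ≤ y → |kap L * x| ≤ kap L * y := fun h => by
    rw [abs_mul, abs_of_pos hk]; exact mul_le_mul_of_nonneg_left h hk.le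
  have b1 := abs_le.1 (ab a1)
  have b2 := abs_le.1 (ab a2)
  have b3 := abs_le.1 a3
  have p1 : 0 ≤ kap L * (C₁ * E) := by positivity
  have p2 : 0 ≤ kap L * (C₁ * F) := by positivity
  have p3 : 0 ≤ kap L * (C₂ * E) := by positivity
  have p4 : 0 ≤ kap L * (C₂ * F) := by positivity
  have p5 : 0 ≤ kap L * (T * E) := by positivity
  have p6 : 0 ≤ kap L * (T * F) := by positivity
  rw [abs_le]
  constructor <;> linarith [b1.1, b1.2, b2.1, b2.2, b3.1, b3.2]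

end Pool.Agent.Lib.MP_ae5e3b_mp.Sh
end

-- part Pool.Agent.Lib.MP_ae5e3b_mp.SHc
section

open MeasureTheory Matrix Real
open scoped ComplexConjugate ComplexOrder

set_option linter.unusedSectionVars false

namespace Pool.Agent.Lib.MP_ae5e3b_mp.Sh

variable {d : ℕ} {L : ℝ} {u v : Tor d → ℝ}

variable {b b' : Tor d → ℝ} {g h : ℝ → ℝ}
lemma wtr_eq (u : Tor d → ℝ) (hb : Continuous b) (g : ℝ → ℝ) :
    wtr L u b g = ∫ x, b x * dens (fc g (ham L u)) x :=
  (dens_pair _ hb).symm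
lemma wtr_add (u b : Tor d → ℝ) (g h : ℝ → ℝ) :
    wtr L u b (fun t => g t + h t) = wtr L u b g + wtr L u b h := by
  rw [wtr, wtr, wtr, fc_add (ham_herm L u), Matrix.mul_add, rtr_add, mul_add]
lemma wtr_const_mul (u b : Tor d → ℝ) (c : ℝ) (g : ℝ → ℝ) :
    wtr L u b (fun t => c * g t) = c * wtr L u b g := by
  rw [wtr, wtr, fc_smul (ham_herm L u), Matrix.mul_smul, rtr_smul, mul_left_comm]
lemma abs_wtr_le (hp : Pot L u) (hb : Continuous b) (h1 : ∀ x, |b x| ≤ 1) {c : ℝ}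
    (hg : ∀ t, -2 ≤ t → |g t| ≤ c) : |wtr L u b g| ≤ 6 ^ d * c := by
  have hc : 0 ≤ c := (abs_nonneg _).trans (hg 0 (by norm_num))
  rw [wtr_eq u hb]
  refine abs_integral_le fun x => ?_
  rw [abs_mul]
  exact (mul_le_of_le_one_left (abs_nonneg _) (h1 x)).trans
    (abs_dens_le hp.big (fc_opB (ham_herm L u) hp.lb hc hg) x)
/-- one sided bound for a nonnegative weight -/
lemma wtr_le (hp : Pot L u) (hb : Continuous b) (h0 : ∀ x, 0 ≤ b x) (h1 : ∀ x, b x ≤ 1) {c : ℝ}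
    (hc : 0 ≤ c) (hg : ∀ t, g t ≤ c) : wtr L u b g ≤ 6 ^ d * c := by
  have h2 : ∀ x, dens (fc g (ham L u)) x ≤ 6 ^ d * c := fun x => by
    have e1 := dens_nonneg hp.big.pos
      (fc_psd' (ham_herm L u) (f := fun t => c - g t) fun t => sub_nonneg.2 (hg t)) x
    rw [fc_sub (ham_herm L u), dens_sub] at e1
    have e2 := abs_dens_le hp.big
      (fc_opB' (ham_herm L u) (f := fun _ => c) hc fun _ => (abs_of_nonneg hc).le) x
    linarith [le_abs_self (dens (fc (fun _ => c) (ham L u)) x)]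
  have h3 : (0 : ℝ) ≤ 6 ^ d * c := by positivity
  rw [wtr_eq u hb]
  calc ∫ x, b x * dens (fc g (ham L u)) x ≤ ∫ _ : Tor d, 6 ^ d * c :=
        integral_mono (cont_int (hb.mul (dens_C1 _).cont)) (integrable_const _) fun x =>
          (mul_le_mul_of_nonneg_left (h2 x) (h0 x)).trans (mul_le_of_le_one_left h3 (h1 x))
    _ = 6 ^ d * c := by simp
lemma Dv_eq (hu : Continuous u) (hb : Continuous b) (hg : Continuous g) :
    Dv L u b g = ∫ x, b x * (dens (fc g (ham L u)) x - Cl d g (u x)) := by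
  rw [Dv, wtr_eq u hb]
  simp only [mul_sub]
  exact (integral_sub (cont_int (hb.mul (dens_C1 _).cont))
    (cont_int (hb.mul ((Cl_cont hg).comp hu)))).symm
lemma Dv_weight_mul (c : ℝ) (u b : Tor d → ℝ) (g : ℝ → ℝ) :
    Dv L u (fun x => c * b x) g = c * Dv L u b g := by
  rw [Dv, Dv, wtr, wtr, mulM_cx_const_mul, Matrix.smul_mul, rtr_smul, mul_sub, ← integral_const_mul]
  simp only [mul_assoc]
  ring
lemma abs_Dv_le (hp : Pot L u) (hb : Continuous b) (h1 : ∀ x, |b x| ≤ 1) {c : ℝ}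
    (hg : ∀ t, -2 ≤ t → |g t| ≤ c) : |Dv L u b g| ≤ 2 * 6 ^ d * c := by
  have hc : 0 ≤ c := (abs_nonneg _).trans (hg 0 (by norm_num))
  have h2 : |∫ x, b x * Cl d g (u x)| ≤ 6 ^ d * c := by
    refine abs_integral_le fun x => ?_
    rw [abs_mul]
    refine (mul_le_of_le_one_left (abs_nonneg _) (h1 x)).trans
      ((abs_Cl_le ((hp.bd x).trans (by norm_num)) hg).trans ?_)
    exact mul_le_mul_of_nonneg_right (pow_le_pow_left₀ (by norm_num) (by norm_num) d) hc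
  have h3 := abs_wtr_le hp hb h1 hg
  rw [Dv]
  linarith [abs_sub (wtr L u b g) (∫ x, b x * Cl d g (u x))]
/-- Smoothing the weight. -/
theorem Dv_J (d : ℕ) : ∃ C : ℝ, 1 ≤ C ∧ ∀ (L : ℝ) (u b : Tor d → ℝ), Big L → C1 L u → C1 L b →
    ∀ (g g' : ℝ → ℝ) (M : ℝ), (∀ t, HasDerivAt g (g' t) t) → Continuous g' → (∀ t, |g' t| ≤ M) →
    |Dv L u b g - Dv L u (Jr L 1 b) g| ≤ C * M * (√(Gr L b) * √(Gr L u)) := by
  obtain ⟨C, hC, H⟩ := Gr_fc d
  have h4 : (1 : ℝ) ≤ 2 ^ d := one_le_pow₀ (by norm_num)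
  refine ⟨24 * (2 * C + 2 * 2 ^ d), by nlinarith, fun L u b hL hu hb g g' M hg hc hM => ?_⟩
  have hM0 : 0 ≤ M := (abs_nonneg _).trans (hM 0)
  have hq : 2 * kap L ≤ 1 := by linarith [hL.kap_le]
  have hgc : Continuous g := continuous_iff_continuousAt.2 fun t => (hg t).continuousAt
  have hlip : ∀ s t, |g s - g t| ≤ M * |s - t| := fun s t =>
    convex_univ.norm_image_sub_le_of_norm_hasDerivWithin_le (f := g) (f' := g')
      (fun x _ => (hg x).hasDerivWithinAt) (fun x _ => hM x) (Set.mem_univ t) (Set.mem_univ s)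
  obtain ⟨c1, c2⟩ := hu.comp (F := Cl d g) (F' := Cl d g') isOpen_univ (fun _ => Set.mem_univ _)
    (fun t _ => Cl_deriv hg hc t) (Cl_cont hc).continuousOn
  have g1 := H L u hL hu g M hM0 hlip (fun _ => 1) (fun _ => by simp)
  rw [dg_one, Matrix.one_mul, Matrix.mul_one] at g1
  have g2 : Gr L (fun x => Cl d g (u x)) ≤ (2 ^ d * M) ^ 2 * Gr L u :=
    Gr_le_of_pd c1 hu fun r x => by
      rw [c2, abs_mul]
      exact mul_le_mul_of_nonneg_right (abs_Cl_le' hM _) (abs_nonneg _)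
  have cR := (dens_C1 (fc g (ham L u))).sub c1
  have g3 := Gr_sub_le (dens_C1 (fc g (ham L u))) c1
  have hG := Gr_nonneg (L := L) u
  have g4 : √(Gr L fun x => dens (fc g (ham L u)) x - Cl d g (u x)) ≤
      (2 * C + 2 * 2 ^ d) * M * √(Gr L u) := by
    rw [Real.sqrt_le_iff]
    refine ⟨by positivity, ?_⟩
    rw [mul_pow, Real.sq_sqrt hG]
    have e : 2 * C + 2 * (2 ^ d) ^ 2 ≤ (2 * C + 2 * 2 ^ d) ^ 2 := by nlinarith
    have := mul_le_mul_of_nonneg_right e (mul_nonneg (sq_nonneg M) hG)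
    nlinarith
  have hJ := Jr_C1 hL.pos hq b
  have e1 : Dv L u b g - Dv L u (Jr L 1 b) g =
      ∫ x, (b x - Jr L 1 b x) * (dens (fc g (ham L u)) x - Cl d g (u x)) := by
    rw [Dv_eq hu.cont hb.cont hgc, Dv_eq hu.cont hJ.cont hgc]
    simp only [sub_mul]
    exact (integral_sub (cont_int (hb.cont.mul cR.cont)) (cont_int (hJ.cont.mul cR.cont))).symm
  rw [e1]
  refine (pair_sub_Jr hL.pos hq hb cR).trans ?_
  have := mul_le_mul_of_nonneg_left g4 (Real.sqrt_nonneg (Gr L b))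
  nlinarith
/-- The new weight of the recursion. -/
lemma Wt.next (hL : Big L) {Γ A : ℝ} (hA : 0 < A) (hb : Wt L Γ b) (hu : C1 L u)
    (ha : ∀ x, |u x| ≤ A) (hG : Gr L u ≤ A ^ 2 * Γ) :
    Wt L Γ fun x => (2 * A)⁻¹ * Jr L 1 (fun y => b y * u y) x := by
  have hq : 2 * kap L ≤ 1 := by linarith [hL.kap_le]
  have cb : C1 L b := hb.tp.c1_real
  have cm := cb.mul hu
  refine ⟨(Jr_TP hL.pos hq _).const_mul_real _, fun x => ?_, ?_⟩
  · have h1 : |Jr L 1 (fun y => b y * u y) x| ≤ A :=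
      abs_Jr_le hL.pos hq cm.cont (fun y => by
        rw [abs_mul]
        exact (mul_le_of_le_one_left (abs_nonneg _) (hb.bd y)).trans (ha y)) x
    rw [abs_mul, abs_of_pos (by positivity : 0 < (2 * A)⁻¹), inv_mul_le_iff₀ (by positivity)]
    linarith
  · have h1 := Gr_mul_le cb hu (a := 1) (b := A) hb.bd ha
    have h2 := Gr_Jr_le hL.pos hq cm
    have h3 := mul_le_mul_of_nonneg_left hb.gr (sq_nonneg A)
    rw [Gr_const_mul _ (Jr_C1 hL.pos hq _), Real.norm_eq_abs, sq_abs, inv_pow,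
      inv_mul_le_iff₀ (by positivity)]
    nlinarith

end Pool.Agent.Lib.MP_ae5e3b_mp.Sh
end
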