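import Pool.Agent.Lib.MP_ae5e3b_mp.SSz

-- part Pool.Agent.Lib.MP_ae5e3b_mp.SRie
section

open MeasureTheory Matrix Real
open scoped ComplexConjugate ComplexOrder

set_option linter.unusedSectionVars false

namespace Pool.Agent.Lib.MP_ae5e3b_mp.Sh

variable {d : ℕ}

lemma SRie_cont {F : ℝ → ℝ} {l : ℝ} (hl : 0 ≤ l) (hF : ∀ s t, |F s - F t| ≤ l * |s - t|) :
    Continuous F :=
  (LipschitzWith.of_dist_le_mul (K := ⟨l, hl⟩) fun s t => hF s t).continuous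

/-- The radial integral. -/
lemma SRie_radial (hd : 0 < d) {F : ℝ → ℝ} (h0 : ∀ t, 1 / 2 ≤ t → F t = 0) :
    ∫ p : Fin d → ℝ, F (∑ r, p r ^ 2 - 1) = (2 * π) ^ d * Cl d F 0 := by
  have : Nonempty (Fin d) := ⟨⟨0, hd⟩⟩
  have hemb : MeasurableEmbedding (WithLp.toLp 2 : (Fin d → ℝ) → EuclideanSpace ℝ (Fin d)) :=
    (MeasurableEquiv.toLp 2 (Fin d → ℝ)).measurableEmbedding
  have h1 := (PiLp.volume_preserving_toLp (Fin d)).integral_comp hemb
    (fun x : EuclideanSpace ℝ (Fin d) => F (‖x‖ ^ 2 - 1))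
  have h2 := integral_fun_norm_addHaar (volume : Measure (EuclideanSpace ℝ (Fin d)))
    (fun y : ℝ => F (y ^ 2 - 1))
  have h3 : ∫ y in Set.Ioi (0 : ℝ), y ^ (d - 1) • F (y ^ 2 - 1) =
      ∫ t in (0 : ℝ)..2, F (t ^ 2 - 1 + 0) * t ^ (d - 1) := by
    rw [intervalIntegral.integral_of_le (by norm_num),
      setIntegral_eq_of_subset_of_forall_sdiff_eq_zero measurableSet_Ioi
        (show Set.Ioc (0 : ℝ) 2 ⊆ Set.Ioi 0 from Set.Ioc_subset_Ioi_self)]
    · congr 1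
      funext t
      rw [add_zero, smul_eq_mul, mul_comm]
    · intro t ht
      have h4 : 2 < t := by
        by_contra h
        exact ht.2 ⟨ht.1, not_lt.1 h⟩
      rw [h0 _ (by nlinarith), smul_zero]
  rw [← h1, finrank_euclideanSpace_fin, h3] at h2
  simp only [nsmul_eq_mul, smul_eq_mul] at h2
  have h5 : ∫ p : Fin d → ℝ, F (∑ r, p r ^ 2 - 1) =
      ∫ p : Fin d → ℝ, F (‖(WithLp.toLp 2 p : EuclideanSpace ℝ (Fin d))‖ ^ 2 - 1) := by
    congr 1
    funext p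
    rw [EuclideanSpace.norm_sq_eq]
    simp
  rw [h5, h2]
  unfold Cl sig0 omega
  have hp : (2 * π) ^ d ≠ 0 := by positivity
  field_simp

/-- The cell of a mode. -/
def SRie_Q {L : ℝ} (i : Ix d L) : Set (Fin d → ℝ) :=
  Set.univ.pi fun r => Set.Ico (mom i r) (mom i r + kap L)

lemma SRie_mem {L : ℝ} (hL : 0 < L) (i : Ix d L) (p : Fin d → ℝ) :
    p ∈ SRie_Q i ↔ nu i = fun r => ⌊p r / kap L⌋ := by
  have hk := kap_pos hL
  simp only [SRie_Q, Set.mem_pi, Set.mem_univ, true_imp_iff, Set.mem_Ico, funext_iff, mom]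
  refine forall_congr' fun r => ?_
  rw [eq_comm, Int.floor_eq_iff, le_div_iff₀ hk, div_lt_iff₀ hk, add_mul, one_mul,
    mul_comm (kap L)]

lemma SRie_split {L : ℝ} (hL : Big L) {G : (Fin d → ℝ) → ℝ} (hG : Continuous G)
    (h0 : ∀ p, 2 ≤ ‖p‖ → G p = 0) :
    (∀ i : Ix d L, IntegrableOn G (SRie_Q i)) ∧ ∫ p, G p = ∑ i : Ix d L, ∫ p in SRie_Q i, G p := by
  have hk := kap_pos hL.pos
  have hk' := hL.kap_le
  have hm : ∀ i : Ix d L, MeasurableSet (SRie_Q i) := fun i =>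
    MeasurableSet.univ_pi fun _ => measurableSet_Ico
  have hi : ∀ i : Ix d L, IntegrableOn G (SRie_Q i) := by
    intro i
    refine (hG.continuousOn.integrableOn_compact
      (isCompact_Icc (a := mom i) (b := fun r => mom i r + kap L))).mono_set fun p hp => ?_
    exact ⟨fun r => (hp r trivial).1, fun r => (hp r trivial).2.le⟩
  refine ⟨hi, ?_⟩
  simp only [← integral_indicator (hm _)]
  rw [← integral_finsetSum _ fun i _ => (integrable_indicator_iff (hm i)).2 (hi i)]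
  congr 1
  funext p
  by_cases hp : 2 ≤ ‖p‖
  · rw [h0 p hp, eq_comm]
    refine Finset.sum_eq_zero fun i _ => ?_
    simp [Set.indicator, h0 p hp]
  · push Not at hp
    obtain ⟨i, hi⟩ := exists_ix (d := d) hL (k := fun r => ⌊p r / kap L⌋) fun r => by
      have h1 : |p r| < 2 := (norm_le_pi_norm p r).trans_lt hp
      have h2 := Int.floor_le (p r / kap L)
      have h3 := Int.lt_floor_add_one (p r / kap L)
      rw [le_div_iff₀ hk] at h2
      rw [div_lt_iff₀ hk] at h3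
      rw [abs_lt] at h1
      rw [abs_le]
      constructor <;> nlinarith [h1.1, h1.2]
    rw [Finset.sum_eq_single i]
    · rw [Set.indicator_of_mem ((SRie_mem hL.pos i p).2 hi)]
    · intro j _ hj
      refine Set.indicator_of_notMem (fun h => hj (nu_inj ?_)) _
      rw [(SRie_mem hL.pos j p).1 h, hi]
    · intro h
      exact absurd (Finset.mem_univ i) h

lemma SRie_vol {L : ℝ} (hL : 0 < L) (i : Ix d L) : volume.real (SRie_Q i) = kap L ^ d := by
  have hk := kap_pos hL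
  unfold SRie_Q Measure.real
  rw [Real.volume_pi_Ico_toReal fun r => by simp [hk.le]]
  simp

/-- Riemann sums over the momentum lattice. -/
theorem RS (hd : 0 < d) : ∃ C : ℝ, 0 < C ∧ ∀ L : ℝ, Big L → ∀ (F : ℝ → ℝ) (l : ℝ), 0 ≤ l →
    (∀ s t, |F s - F t| ≤ l * |s - t|) → (∀ t, 1 / 2 ≤ t → F t = 0) →
    |(L ^ d)⁻¹ * ∑ i : Ix d L, F (epsS (mom i) - 1) - Cl d F 0| ≤ C * l * kap L := by
  have hd' : (0 : ℝ) < d := by exact_mod_cast hd
  refine ⟨6 ^ d * (33 * d), by positivity, fun L hL F l hl hF h0 => ?_⟩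
  have hk := kap_pos hL.pos
  have hk' := hL.kap_le
  have hLp := hL.pos
  have hFc := SRie_cont hl hF
  set G : (Fin d → ℝ) → ℝ := fun p => F (∑ r, p r ^ 2 - 1) with hGd
  have hG : Continuous G := hFc.comp (by fun_prop)
  have hG0 : ∀ p, 2 ≤ ‖p‖ → G p = 0 := by
    intro p hp
    have := norm_sq_le_sum p
    exact h0 _ (by nlinarith)
  have he : ∀ i : Ix d L, F (epsS (mom i) - 1) = G (mom i) := by
    intro i
    by_cases h : ‖mom i‖ ≤ 12
    · rw [epsS_eq h]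
    · push Not at h
      have h1 := le_epsS (p := mom i) (t := 2) (by norm_num) (by norm_num) (by linarith)
      rw [hG0 _ (by linarith), h0 _ (by linarith)]
  obtain ⟨hi, hs⟩ := SRie_split hL hG hG0
  have hr := SRie_radial hd h0
  have hkL : (2 * π) ^ d = L ^ d * kap L ^ d := by
    rw [← mul_pow, kap]
    congr 1
    field_simp
  have hC : Cl d F 0 = (L ^ d)⁻¹ * ∑ i : Ix d L, (kap L ^ d)⁻¹ * ∫ p in SRie_Q i, G p := by
    rw [← Finset.mul_sum, ← hs, hr, hkL]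
    field_simp
  have hcell : ∀ i : Ix d L,
      |G (mom i) - (kap L ^ d)⁻¹ * ∫ p in SRie_Q i, G p| ≤ 33 * d * l * kap L := by
    intro i
    have hv := SRie_vol hLp i
    have hkd : 0 < kap L ^ d := by positivity
    have hfin : volume (SRie_Q i) < ⊤ := by
      by_contra h
      rw [not_lt, top_le_iff] at h
      rw [Measure.real, h] at hv
      simp at hv
      exact hkd.ne hv
    have h1 : ‖∫ p in SRie_Q i, (G (mom i) - G p)‖ ≤ 33 * d * l * kap L * volume.real (SRie_Q i) := by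
      refine norm_setIntegral_le_of_norm_le_const hfin fun p hp => ?_
      refine (hF _ _).trans ?_
      have h2 : |∑ r, mom i r ^ 2 - 1 - (∑ r, p r ^ 2 - 1)| ≤ ∑ _r : Fin d, 33 * kap L := by
        rw [sub_sub_sub_cancel_right, ← Finset.sum_sub_distrib]
        refine (Finset.abs_sum_le_sum_abs _ _).trans (Finset.sum_le_sum fun r _ => ?_)
        have h3 := hp r trivial
        have h4 := abs_le.1 (abs_mom_le hL i r)
        rw [abs_le]
        constructor <;> nlinarith [h3.1, h3.2, h4.1, h4.2]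
      rw [Finset.sum_const, Finset.card_univ, Fintype.card_fin, nsmul_eq_mul] at h2
      calc _ ≤ l * (d * (33 * kap L)) := mul_le_mul_of_nonneg_left h2 hl
        _ = _ := by ring
    have ic : Integrable (fun _ => G (mom i)) (volume.restrict (SRie_Q i)) :=
      integrableOn_const hfin.ne
    rw [integral_sub ic (hi i), setIntegral_const, hv, smul_eq_mul,
      Real.norm_eq_abs] at h1
    have h5 : G (mom i) - (kap L ^ d)⁻¹ * ∫ p in SRie_Q i, G p =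
        (kap L ^ d)⁻¹ * (kap L ^ d * G (mom i) - ∫ p in SRie_Q i, G p) := by
      field_simp
    rw [h5, abs_mul, abs_of_pos (inv_pos.2 hkd), inv_mul_le_iff₀ hkd]
    exact h1.trans_eq (mul_comm _ _)
  have hLd : 0 < L ^ d := by positivity
  simp only [he]
  rw [hC, ← mul_sub, ← Finset.sum_sub_distrib, abs_mul, abs_of_pos (inv_pos.2 hLd),
    inv_mul_le_iff₀ hLd]
  refine (Finset.abs_sum_le_sum_abs _ _).trans ((Finset.sum_le_sum fun i _ => hcell i).trans ?_)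
  rw [Finset.sum_const, Finset.card_univ, nsmul_eq_mul]
  calc _ ≤ 6 ^ d * L ^ d * (33 * d * l * kap L) :=
        mul_le_mul_of_nonneg_right (card_le hL) (by positivity)
    _ = _ := by ring

lemma SRie_pow (hd : 0 < d) (a : ℝ) : d * ∫ t in (0 : ℝ)..a, t ^ (d - 1) = a ^ d := by
  have e : d - 1 + 1 = d := by omega
  have e' : ((d - 1 : ℕ) : ℝ) + 1 = d := by exact_mod_cast e
  have hd' : (0 : ℝ) < d := by exact_mod_cast hd
  rw [integral_pow, e, e', zero_pow hd.ne']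
  field_simp
  ring

lemma SRie_up (hd : 0 < d) {F : ℝ → ℝ} (hF : Continuous F) (h1 : ∀ t, F t ≤ 1) {A : ℝ}
    (hA : 0 ≤ A) (hA' : A ≤ 4) (h0 : ∀ t, A - 1 ≤ t → F t = 0) :
    Cl d F 0 ≤ sig0 d * A ^ ((d : ℝ) / 2) := by
  have hd' : (0 : ℝ) < d := by exact_mod_cast hd
  have ha : 0 ≤ √A := Real.sqrt_nonneg A
  have ha2 : √A ≤ 2 := Real.sqrt_le_iff.2 ⟨by norm_num, by linarith⟩
  have hc : Continuous fun t : ℝ => F (t ^ 2 - 1 + 0) * t ^ (d - 1) := by fun_prop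
  have e1 : A ^ ((d : ℝ) / 2) = √A ^ d := by
    rw [Real.sqrt_eq_rpow, ← Real.rpow_natCast, ← Real.rpow_mul hA]
    congr 1
    ring
  have e2 : ∫ t in √A..2, F (t ^ 2 - 1 + 0) * t ^ (d - 1) = 0 := by
    rw [intervalIntegral.integral_congr (g := fun _ => 0), intervalIntegral.integral_zero]
    intro t ht
    rw [Set.uIcc_of_le ha2] at ht
    have h2 := pow_le_pow_left₀ ha ht.1 2
    rw [Real.sq_sqrt hA] at h2
    simp only
    rw [h0 _ (by linarith), zero_mul]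
  have e3 : ∫ t in (0 : ℝ)..√A, F (t ^ 2 - 1 + 0) * t ^ (d - 1) ≤
      ∫ t in (0 : ℝ)..√A, t ^ (d - 1) := by
    refine intervalIntegral.integral_mono_on ha (hc.intervalIntegrable _ _)
      ((continuous_pow _).intervalIntegrable _ _) fun t ht => ?_
    exact mul_le_of_le_one_left (pow_nonneg ht.1 _) (h1 _)
  unfold Cl
  rw [← intervalIntegral.integral_add_adjacent_intervals (hc.intervalIntegrable 0 √A)
    (hc.intervalIntegrable √A 2), e2, add_zero, e1, ← SRie_pow hd √A, mul_comm (d : ℝ) (sig0 d),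
    mul_assoc]
  exact mul_le_mul_of_nonneg_left (mul_le_mul_of_nonneg_left e3 hd'.le) (sig0_pos d).le

lemma SRie_low (hd : 0 < d) {F : ℝ → ℝ} (hF : Continuous F) (h0 : ∀ t, 0 ≤ F t) {A : ℝ}
    (hA : 0 ≤ A) (hA' : A ≤ 4) (h1 : ∀ t, t ≤ A - 1 → F t = 1) :
    sig0 d * A ^ ((d : ℝ) / 2) ≤ Cl d F 0 := by
  have hd' : (0 : ℝ) < d := by exact_mod_cast hd
  have ha : 0 ≤ √A := Real.sqrt_nonneg A
  have ha2 : √A ≤ 2 := Real.sqrt_le_iff.2 ⟨by norm_num, by linarith⟩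
  have hc : Continuous fun t : ℝ => F (t ^ 2 - 1 + 0) * t ^ (d - 1) := by fun_prop
  have e1 : A ^ ((d : ℝ) / 2) = √A ^ d := by
    rw [Real.sqrt_eq_rpow, ← Real.rpow_natCast, ← Real.rpow_mul hA]
    congr 1
    ring
  have e2 : 0 ≤ ∫ t in √A..2, F (t ^ 2 - 1 + 0) * t ^ (d - 1) :=
    intervalIntegral.integral_nonneg ha2 fun t ht =>
      mul_nonneg (h0 _) (pow_nonneg (ha.trans ht.1) _)
  have e3 : ∫ t in (0 : ℝ)..√A, F (t ^ 2 - 1 + 0) * t ^ (d - 1) =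
      ∫ t in (0 : ℝ)..√A, t ^ (d - 1) := by
    refine intervalIntegral.integral_congr fun t ht => ?_
    rw [Set.uIcc_of_le ha] at ht
    have h2 := pow_le_pow_left₀ ht.1 ht.2 2
    rw [Real.sq_sqrt hA] at h2
    rw [h1 _ (by linarith), one_mul]
  unfold Cl
  rw [← intervalIntegral.integral_add_adjacent_intervals (hc.intervalIntegrable 0 √A)
    (hc.intervalIntegrable √A 2), e3, e1, ← SRie_pow hd √A, mul_comm (d : ℝ) (sig0 d),
    mul_assoc]
  exact mul_le_mul_of_nonneg_left (mul_le_mul_of_nonneg_left (by linarith) hd'.le) (sig0_pos d).le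

/-- A clamp of slope `1 / δ`. -/
noncomputable def SRie_cl (b δ t : ℝ) : ℝ := max 0 (min 1 ((b - t) / δ))

lemma SRie_cl_lip (b : ℝ) {δ : ℝ} (hδ : 0 < δ) (s t : ℝ) :
    |SRie_cl b δ s - SRie_cl b δ t| ≤ δ⁻¹ * |s - t| := by
  unfold SRie_cl
  refine (abs_max_sub_max_le_max _ _ _ _).trans (max_le (by simp; positivity) ?_)
  refine (abs_min_sub_min_le_max _ _ _ _).trans (max_le (by simp; positivity) ?_)
  rw [← sub_div, abs_div, abs_of_pos hδ, sub_sub_sub_cancel_left, abs_sub_comm, div_eq_inv_mul]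

lemma SRie_cl_zero {b δ t : ℝ} (hδ : 0 < δ) (h : b ≤ t) : SRie_cl b δ t = 0 :=
  max_eq_left (min_le_of_right_le (div_nonpos_of_nonpos_of_nonneg (by linarith) hδ.le))

lemma SRie_cl_one {b δ t : ℝ} (hδ : 0 < δ) (h : t ≤ b - δ) : SRie_cl b δ t = 1 := by
  unfold SRie_cl
  rw [min_eq_left ((one_le_div hδ).2 (by linarith)), max_eq_right zero_le_one]

lemma SRie_cl_nonneg (b δ t : ℝ) : 0 ≤ SRie_cl b δ t := le_max_left _ _

lemma SRie_cl_le (b δ t : ℝ) : SRie_cl b δ t ≤ 1 := max_le zero_le_one (min_le_left _ _)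

/-- Counting the modes in a ball. -/
theorem CNT (hd : 0 < d) {ε : ℝ} (hε : 0 < ε) : ∃ L₀ : ℝ, 0 < L₀ ∧ ∀ L : ℝ, L₀ ≤ L → Big L ∧
    ∀ R : ℝ, 1 / 2 ≤ R → R ≤ 5 / 4 →
    |(L ^ d)⁻¹ * ∑ i : Ix d L, (if epsS (mom i) ≤ R then (1 : ℝ) else 0) -
      sig0 d * R ^ ((d : ℝ) / 2)| ≤ ε := by
  obtain ⟨C, hC, hRS⟩ := RS hd
  have hc : Continuous fun x : ℝ => sig0 d * x ^ ((d : ℝ) / 2) :=
    continuous_const.mul (Real.continuous_rpow_const (by positivity))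
  obtain ⟨η, hη, hu⟩ := Metric.uniformContinuousOn_iff_le.1
    ((isCompact_Icc (a := (0 : ℝ)) (b := 2)).uniformContinuousOn_of_continuous hc.continuousOn)
    (ε / 2) (by positivity)
  obtain ⟨δ, hδ, hδ1, hδ2⟩ : ∃ δ : ℝ, 0 < δ ∧ δ ≤ η ∧ δ ≤ 1 / 4 :=
    ⟨min η (1 / 4), lt_min hη (by norm_num), min_le_left _ _, min_le_right _ _⟩
  obtain ⟨L₀, hL₀, hL⟩ := exists_kap_le (ε := ε / 2 * δ / C) (by positivity)
  refine ⟨L₀, hL₀, fun L h => ⟨(hL L h).1, fun R hR hR' => ?_⟩⟩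
  obtain ⟨hB, hk⟩ := hL L h
  have hLp := hB.pos
  have hLd : 0 ≤ (L ^ d)⁻¹ := by positivity
  have herr : C * δ⁻¹ * kap L ≤ ε / 2 := by
    calc _ ≤ C * δ⁻¹ * (ε / 2 * δ / C) := mul_le_mul_of_nonneg_left hk (by positivity)
      _ = _ := by field_simp
  have a1 := abs_le.1 ((hRS L hB (SRie_cl (R + δ - 1) δ) δ⁻¹ (by positivity) (SRie_cl_lip _ hδ)
    fun t ht => SRie_cl_zero hδ (by linarith)).trans herr)
  have a2 := abs_le.1 ((hRS L hB (SRie_cl (R - 1) δ) δ⁻¹ (by positivity) (SRie_cl_lip _ hδ)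
    fun t ht => SRie_cl_zero hδ (by linarith)).trans herr)
  have b1 := SRie_up hd (SRie_cont (by positivity) (SRie_cl_lip (R + δ - 1) hδ)) (SRie_cl_le _ _)
    (A := R + δ) (by linarith) (by linarith) fun t ht => SRie_cl_zero hδ ht
  have b2 := SRie_low hd (SRie_cont (by positivity) (SRie_cl_lip (R - 1) hδ)) (SRie_cl_nonneg _ _)
    (A := R - δ) (by linarith) (by linarith) fun t ht => SRie_cl_one hδ (by linarith)
  have c1 := abs_le.1 (hu (R + δ) ⟨by linarith, by linarith⟩ R ⟨by linarith, by linarith⟩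
    (by rw [Real.dist_eq, add_sub_cancel_left, abs_of_pos hδ]; exact hδ1))
  have c2 := abs_le.1 (hu R ⟨by linarith, by linarith⟩ (R - δ) ⟨by linarith, by linarith⟩
    (by rw [Real.dist_eq, sub_sub_cancel, abs_of_pos hδ]; exact hδ1))
  have d1 : ∑ i : Ix d L, (if epsS (mom i) ≤ R then (1 : ℝ) else 0) ≤
      ∑ i : Ix d L, SRie_cl (R + δ - 1) δ (epsS (mom i) - 1) := by
    refine Finset.sum_le_sum fun i _ => ?_
    split_ifs with h
    · rw [SRie_cl_one hδ (by linarith)]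
    · exact SRie_cl_nonneg _ _ _
  have d2 : ∑ i : Ix d L, SRie_cl (R - 1) δ (epsS (mom i) - 1) ≤
      ∑ i : Ix d L, (if epsS (mom i) ≤ R then (1 : ℝ) else 0) := by
    refine Finset.sum_le_sum fun i _ => ?_
    split_ifs with h
    · exact SRie_cl_le _ _ _
    · rw [SRie_cl_zero hδ (by linarith)]
  have d3 := mul_le_mul_of_nonneg_left d1 hLd
  have d4 := mul_le_mul_of_nonneg_left d2 hLd
  rw [abs_le]
  constructor <;> linarith [a1.1, a1.2, a2.1, a2.2, c1.1, c1.2, c2.1, c2.2]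

end Pool.Agent.Lib.MP_ae5e3b_mp.Sh
end

-- part Pool.Agent.Lib.MP_ae5e3b_mp.SOa
section

open MeasureTheory Matrix Real
open scoped ComplexConjugate ComplexOrder

set_option linter.unusedSectionVars false

namespace Pool.Agent.Lib.MP_ae5e3b_mp.Sh


variable {d : ℕ} {L ϖ : ℝ} {ξ : Fin d → Tor d → ℝ}

lemma Gx_nonneg (ξ : Fin d → Tor d → ℝ) : 0 ≤ Gx L ξ :=
  add_nonneg (add_nonneg (Finset.sum_nonneg fun _ _ =>
    add_nonneg (integral_nonneg fun _ => sq_nonneg _) (Gr_nonneg _))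
    (integral_nonneg fun _ => sq_nonneg _)) (Gr_nonneg _)
lemma l2_le_Gx (ξ : Fin d → Tor d → ℝ) :
    ∑ r, (∫ x, ξ r x ^ 2) + ∫ x, dv L ξ x ^ 2 ≤ Gx L ξ := by
  have h1 : ∑ r, (∫ x, ξ r x ^ 2) ≤ ∑ r, ((∫ x, ξ r x ^ 2) + Gr L (ξ r)) :=
    Finset.sum_le_sum fun r _ => le_add_of_nonneg_right (Gr_nonneg _)
  have h2 := Gr_nonneg (L := L) (dv L ξ)
  unfold Gx
  linarith
lemma VF.nonneg (h : VF L ϖ ξ) : 0 ≤ ϖ := (abs_nonneg _).trans (h.bdd 0)
lemma dv_mul (h : VF L ϖ ξ) {n : Tor d → ℝ} (hn : C1 L n) (x : Tor d) :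
    dv L (fun r y => ξ r y * n y) x = dv L ξ x * n x + ∑ r, ξ r x * pd L r n x := by
  unfold dv
  rw [Finset.sum_mul, ← Finset.sum_add_distrib]
  exact Finset.sum_congr rfl fun r _ => pd_mul (h.c1 r) hn r x
/-- integration by parts for a divergence -/
lemma integral_mul_dv (h : VF L ϖ ξ) {n b : Tor d → ℝ} (hn : C1 L n) (hb : C1 L b) :
    ∫ x, b x * dv L (fun r y => ξ r y * n y) x = -∑ r, ∫ x, pd L r b x * (ξ r x * n x) := by
  unfold dv
  have i1 : ∀ r, Integrable fun x => b x * pd L r (fun y => ξ r y * n y) x := fun r =>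
    cont_int (hb.cont.mul (((h.c1 r).mul hn).cpd r))
  simp only [Finset.mul_sum]
  rw [integral_finsetSum _ fun r _ => i1 r, ← Finset.sum_neg_distrib]
  refine Finset.sum_congr rfl fun r _ => ?_
  rw [by_parts hb ((h.c1 r).mul hn) r, neg_neg]

lemma SOa_half (h : VF L ϖ ξ) : C1 L fun x => dv L ξ x / 2 := by
  simpa only [div_eq_inv_mul] using h.c1d.const_mul (2⁻¹ : ℝ)

lemma SOa_pd_half (h : VF L ϖ ξ) (s : Fin d) (x : Tor d) :
    pd L s (fun x => dv L ξ x / 2) x = pd L s (dv L ξ) x / 2 := by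
  simpa only [div_eq_inv_mul] using pd_const_mul (2⁻¹ : ℝ) h.c1d s x

lemma SOa_Sop_eq (ξ : Fin d → Tor d → ℝ) (y : Tor d → ℂ) : Sop L ξ y = fun x =>
    ∑ r, cx (ξ r) x * pd L r y x + cx (fun x => dv L ξ x / 2) x * y x := rfl

lemma SOa_C1 (h : VF L ϖ ξ) {y : Tor d → ℂ} (hy : C1 L y) (hy' : ∀ r, C1 L (pd L r y)) :
    C1 L (Sop L ξ y) := by
  rw [SOa_Sop_eq]
  exact (C1.sum _ fun r _ => (h.c1 r).cx.mul (hy' r)).add ((SOa_half h).cx.mul hy)

lemma SOa_cont (h : VF L ϖ ξ) {y : Tor d → ℂ} (hy : C1 L y) : Continuous (Sop L ξ y) := by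
  rw [SOa_Sop_eq]
  exact (continuous_finsetSum _ fun r _ => (h.c1 r).cx.cont.mul (hy.cpd r)).add
    ((SOa_half h).cx.cont.mul hy.cont)

lemma SOa_pd (h : VF L ϖ ξ) {y : Tor d → ℂ} (hy : C1 L y) (hy' : ∀ r, C1 L (pd L r y))
    (s : Fin d) (x : Tor d) : pd L s (Sop L ξ y) x =
      ∑ r, ((pd L s (ξ r) x : ℝ) * pd L r y x + (ξ r x : ℂ) * pd L s (pd L r y) x) +
        (((pd L s (dv L ξ) x / 2 : ℝ) : ℂ) * y x + ((dv L ξ x / 2 : ℝ) : ℂ) * pd L s y x) := by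
  rw [SOa_Sop_eq, pd_add (C1.sum _ fun r _ => (h.c1 r).cx.mul (hy' r)) ((SOa_half h).cx.mul hy),
    pd_sum _ (fun r _ => (h.c1 r).cx.mul (hy' r)), pd_mul (SOa_half h).cx hy,
    pd_cx (SOa_half h)]
  congr 1
  · refine Finset.sum_congr rfl fun r _ => ?_
    rw [pd_mul (h.c1 r).cx (hy' r), pd_cx (h.c1 r)]
    rfl
  · simp only [cx, SOa_pd_half h]

lemma SOa_orb_C1' (Y : Mat d L) (a : Ix d L) (r : Fin d) : C1 L (pd L r (orb Y a)) := by
  rw [pd_orb]; exact orb_C1 _ _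

lemma SOa_Sop_orb (ξ : Fin d → Tor d → ℝ) (Y : Mat d L) (a : Ix d L) (x : Tor d) :
    Sop L ξ (orb Y a) x = ∑ r, (ξ r x : ℂ) * orb (Complex.I • (Pm L r * Y)) a x +
      ((dv L ξ x / 2 : ℝ) : ℂ) * orb Y a x := by
  simp only [Sop, pd_orb]

lemma SOa_orb_sum {κ : Type} (s : Finset κ) (Y : κ → Mat d L) (a : Ix d L) (x : Tor d) :
    orb (∑ k ∈ s, Y k) a x = ∑ k ∈ s, orb (Y k) a x := by
  classical
  induction s using Finset.induction_on with
  | empty => simp [orb, fn]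
  | insert k s hk ih => rw [Finset.sum_insert hk, Finset.sum_insert hk, orb_add, ih]

lemma Sop_orb_C1 (h : VF L ϖ ξ) (Y : Mat d L) (a : Ix d L) : C1 L (Sop L ξ (orb Y a)) :=
  SOa_C1 h (orb_C1 Y a) (SOa_orb_C1' Y a)
lemma Sop_orb_mul (ξ : Fin d → Tor d → ℝ) (Y Z : Mat d L) (a : Ix d L) (x : Tor d) :
    Sop L ξ (orb (Y * Z) a) x = ∑ b, Sop L ξ (orb Y b) x * Z b a := by
  have e : ∀ r, Complex.I • (Pm L r * (Y * Z)) = (Complex.I • (Pm L r * Y)) * Z := fun r => by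
    rw [Matrix.smul_mul, Matrix.mul_assoc]
  simp only [SOa_Sop_orb, e, orb_mul _ Z, add_mul, Finset.sum_add_distrib, Finset.sum_mul,
    Finset.mul_sum, mul_assoc]
  rw [Finset.sum_comm]
lemma Sop_orb_sub (ξ : Fin d → Tor d → ℝ) (Y Z : Mat d L) (a : Ix d L) (x : Tor d) :
    Sop L ξ (orb (Y - Z) a) x = Sop L ξ (orb Y a) x - Sop L ξ (orb Z a) x := by
  simp only [SOa_Sop_orb, smul_sub, orb_sub, mul_sub, Finset.sum_sub_distrib]
  ring
/-- The operator moves densities by a divergence. -/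
lemma Sop_dens (hL : 0 < L) (h : VF L ϖ ξ) {Y Z : Mat d L} (hYZ : (Y * Zᴴ).IsHermitian) (x : Tor d) :
    2 * ∑ a, (conj (orb Z a x) * Sop L ξ (orb Y a) x).re =
      dv L (fun r y => ξ r y * dens (Y * Zᴴ) y) x := by
  have e1 : ∀ r, pd L r (dens (Y * Zᴴ)) x = 2 * dens ((Complex.I • (Pm L r * Y)) * Zᴴ) x := by
    intro r
    have e : Complex.I • cm (Pm L r) (Y * Zᴴ) =
        (Complex.I • (Pm L r * Y)) * Zᴴ + ((Complex.I • (Pm L r * Y)) * Zᴴ)ᴴ := by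
      rw [Matrix.smul_mul, Matrix.mul_assoc, conjTranspose_smul, conjTranspose_mul (Pm L r),
        hYZ.eq, Pm_herm, cm, smul_sub]
      simp [sub_eq_add_neg]
    rw [pd_dens, e, dens_add, dens_conjT]
    ring
  have e2 : ∀ a, (conj (orb Z a x) * Sop L ξ (orb Y a) x).re =
      ∑ r, ξ r x * (conj (orb Z a x) * orb (Complex.I • (Pm L r * Y)) a x).re +
        dv L ξ x / 2 * (conj (orb Z a x) * orb Y a x).re := by
    intro a
    rw [SOa_Sop_orb, mul_add, Finset.mul_sum, Complex.add_re, Complex.re_sum]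
    congr 1
    · refine Finset.sum_congr rfl fun r _ => ?_
      rw [mul_left_comm, Complex.re_ofReal_mul]
    · rw [mul_left_comm, Complex.re_ofReal_mul]
  rw [dv_mul h (dens_C1 _)]
  simp only [e1, e2, Finset.sum_add_distrib]
  rw [Finset.sum_comm]
  simp only [← Finset.mul_sum, orb_dens hL]
  rw [mul_add, Finset.mul_sum, add_comm]
  congr 1
  · ring
  · exact Finset.sum_congr rfl fun r _ => by ring
/-- The operator is antisymmetric. -/
lemma Sop_anti (h : VF L ϖ ξ) {y : Tor d → ℂ} (hy : C1 L y) :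
    ∫ x, (conj (y x) * Sop L ξ y x).re = 0 := by
  have e : ∀ x, (conj (y x) * Sop L ξ y x).re =
      2⁻¹ * (1 * dv L (fun r z => ξ r z * ‖y z‖ ^ 2) x) := by
    intro x
    rw [dv_mul h hy.normsq, Sop, mul_add, Finset.mul_sum, Complex.add_re, Complex.re_sum,
      mul_left_comm, Complex.re_ofReal_mul, Complex.conj_mul', ← Complex.ofReal_pow,
      Complex.ofReal_re, one_mul, mul_add, Finset.mul_sum, add_comm]
    congr 1
    · ring
    · refine Finset.sum_congr rfl fun r _ => ?_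
      rw [mul_left_comm, Complex.re_ofReal_mul, pd_normsq hy]
      ring
  simp only [e]
  rw [integral_const_mul, integral_mul_dv h hy.normsq (C1.const 1)]
  simp [pd_const]

lemma SOa_opB (hL : Big L) {c : ℝ} {Y : Mat d L} (hY : OpB Y c) (r : Fin d) :
    OpB (Complex.I • (Pm L r * Y)) (16 * c) := by
  simpa using ((Pm_opB hL r).mul hY).smul Complex.I

lemma SOa_opB_real {c : ℝ} {Y : Mat d L} (hY : OpB Y c) (t : ℝ) :
    OpB ((t : ℂ) • Y) (|t| * c) := by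
  simpa using hY.smul (t : ℂ)

lemma SOa_cs1 (t : Fin d → ℝ) (u : ℝ) :
    (∑ r, |t r| + |u|) ^ 2 ≤ (d + 1) * (∑ r, t r ^ 2 + u ^ 2) := by
  have := sq_sum_le_card_mul_sum_sq (s := (Finset.univ : Finset (Option (Fin d))))
    (f := fun o => |o.elim u t|)
  simp only [Fintype.sum_option, Option.elim, sq_abs, Finset.card_univ, Fintype.card_option,
    Fintype.card_fin] at this
  push_cast at this
  rw [add_comm (∑ r, |t r|), add_comm (∑ r, t r ^ 2)]
  exact this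

lemma SOa_b1 (hL : Big L) {c : ℝ} {Y : Mat d L} (hY : OpB Y c) (x : Tor d) :
    ∑ a, ‖Sop L ξ (orb Y a) x‖ ^ 2 ≤
      6 ^ d * 256 * (d + 1) * c ^ 2 * (∑ r, ξ r x ^ 2 + dv L ξ x ^ 2) := by
  have hc := hY.nonneg
  have e : ∀ a, Sop L ξ (orb Y a) x = orb (∑ r, (ξ r x : ℂ) • (Complex.I • (Pm L r * Y)) +
      ((dv L ξ x / 2 : ℝ) : ℂ) • Y) a x := fun a => by
    simp only [SOa_Sop_orb, orb_add, SOa_orb_sum, orb_smul]
  have h1 := ((OpB.sum Finset.univ fun r _ => SOa_opB_real (SOa_opB hL hY r) (ξ r x)).add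
    (SOa_opB_real hY (dv L ξ x / 2))).mono (b := 16 * c * (∑ r, |ξ r x| + |dv L ξ x|)) (by
      rw [← Finset.sum_mul, abs_div, abs_two]
      nlinarith [mul_nonneg hc (abs_nonneg (dv L ξ x))])
  simp only [e]
  refine (orb_normsq_le hL h1 x).trans ?_
  have h2 := SOa_cs1 (fun r => ξ r x) (dv L ξ x)
  calc (6 : ℝ) ^ d * (16 * c * (∑ r, |ξ r x| + |dv L ξ x|)) ^ 2
      = 6 ^ d * 256 * c ^ 2 * (∑ r, |ξ r x| + |dv L ξ x|) ^ 2 := by ring
    _ ≤ 6 ^ d * 256 * c ^ 2 * ((d + 1) * (∑ r, ξ r x ^ 2 + dv L ξ x ^ 2)) := by gcongr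
    _ = _ := by ring

lemma SOa_sq_le (h : VF L ϖ ξ) (x : Tor d) :
    ∑ r, ξ r x ^ 2 + dv L ξ x ^ 2 ≤ (d + 1) * ϖ ^ 2 := by
  have h1 : ∑ r, ξ r x ^ 2 ≤ ∑ _r : Fin d, ϖ ^ 2 := Finset.sum_le_sum fun r _ =>
    sq_le_sq' (abs_le.1 (h.bd r x)).1 (abs_le.1 (h.bd r x)).2
  have h2 : dv L ξ x ^ 2 ≤ ϖ ^ 2 := sq_le_sq' (abs_le.1 (h.bdd x)).1 (abs_le.1 (h.bdd x)).2
  simp only [Finset.sum_const, Finset.card_univ, Fintype.card_fin, nsmul_eq_mul] at h1
  linarith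

lemma SOa_b3 (hL : Big L) (h : VF L ϖ ξ) {c : ℝ} {Y : Mat d L} (hY : OpB Y c) (s : Fin d)
    (x : Tor d) : ∑ a, ‖pd L s (Sop L ξ (orb Y a)) x‖ ^ 2 ≤ 6 ^ d * 131072 * (d + 1) * c ^ 2 *
      (∑ r, (ξ r x ^ 2 + pd L s (ξ r) x ^ 2) + dv L ξ x ^ 2 + pd L s (dv L ξ) x ^ 2) := by
  have hc := hY.nonneg
  have e : ∀ a, pd L s (Sop L ξ (orb Y a)) x =
      orb (∑ r, (((pd L s (ξ r) x : ℝ) : ℂ) • (Complex.I • (Pm L r * Y)) +
        (ξ r x : ℂ) • (Complex.I • (Pm L s * (Complex.I • (Pm L r * Y))))) +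
        (((pd L s (dv L ξ) x / 2 : ℝ) : ℂ) • Y +
          ((dv L ξ x / 2 : ℝ) : ℂ) • (Complex.I • (Pm L s * Y)))) a x := fun a => by
    rw [SOa_pd h (orb_C1 Y a) (SOa_orb_C1' Y a)]
    simp only [pd_orb, orb_add, SOa_orb_sum, orb_smul]
  set A : ℝ := ∑ r, |ξ r x| + |dv L ξ x| with hA
  set B : ℝ := ∑ r, |pd L s (ξ r) x| + |pd L s (dv L ξ) x| with hB
  have h1 := ((OpB.sum Finset.univ fun r _ =>
    (SOa_opB_real (SOa_opB hL hY r) (pd L s (ξ r) x)).add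
      (SOa_opB_real (SOa_opB hL (SOa_opB hL hY r) s) (ξ r x))).add
    ((SOa_opB_real hY (pd L s (dv L ξ) x / 2)).add
      (SOa_opB_real (SOa_opB hL hY s) (dv L ξ x / 2)))).mono (b := 256 * c * (A + B)) (by
      rw [Finset.sum_add_distrib, ← Finset.sum_mul, ← Finset.sum_mul, abs_div, abs_div, abs_two,
        hA, hB]
      have p1 : 0 ≤ ∑ r, |pd L s (ξ r) x| := Finset.sum_nonneg fun _ _ => abs_nonneg _
      nlinarith [mul_nonneg hc (abs_nonneg (dv L ξ x)), mul_nonneg hc p1,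
        mul_nonneg hc (abs_nonneg (pd L s (dv L ξ) x))])
  simp only [e]
  refine (orb_normsq_le hL h1 x).trans ?_
  have h2 : A ^ 2 ≤ _ := SOa_cs1 (fun r => ξ r x) (dv L ξ x)
  have h3 : B ^ 2 ≤ _ := SOa_cs1 (fun r => pd L s (ξ r) x) (pd L s (dv L ξ) x)
  have h4 : (A + B) ^ 2 ≤ 2 * ((d + 1) * (∑ r, (ξ r x ^ 2 + pd L s (ξ r) x ^ 2) +
      dv L ξ x ^ 2 + pd L s (dv L ξ) x ^ 2)) := by
    rw [Finset.sum_add_distrib]
    nlinarith [sq_nonneg (A - B)]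
  calc (6 : ℝ) ^ d * (256 * c * (A + B)) ^ 2 = 6 ^ d * 65536 * c ^ 2 * (A + B) ^ 2 := by ring
    _ ≤ 6 ^ d * 65536 * c ^ 2 * (2 * ((d + 1) * (∑ r, (ξ r x ^ 2 + pd L s (ξ r) x ^ 2) +
      dv L ξ x ^ 2 + pd L s (dv L ξ) x ^ 2))) := by gcongr
    _ = _ := by ring

lemma SOa_b4 (hL : Big L) (h : VF L ϖ ξ) {c : ℝ} {Y : Mat d L} (hY : OpB Y c) :
    ∑ a, ∫ x, ‖Sop L ξ (orb Y a) x‖ ^ 2 ≤ 6 ^ d * 256 * (d + 1) * c ^ 2 * Gx L ξ := by
  have i1 : ∀ a, Integrable fun x => ‖Sop L ξ (orb Y a) x‖ ^ 2 := fun a =>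
    cont_int ((Sop_orb_C1 h Y a).cont.norm.pow 2)
  have i2 : ∀ r, Integrable fun x => ξ r x ^ 2 := fun r => cont_int ((h.c1 r).cont.pow 2)
  have i3 : Integrable fun x => dv L ξ x ^ 2 := cont_int (h.c1d.cont.pow 2)
  have i4 : Integrable fun x => ∑ r, ξ r x ^ 2 := integrable_finsetSum _ fun r _ => i2 r
  rw [← integral_finsetSum _ fun a _ => i1 a]
  refine (integral_mono (integrable_finsetSum _ fun a _ => i1 a) ((i4.add i3).const_mul _)
    fun x => SOa_b1 hL hY x).trans ?_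
  rw [integral_const_mul]
  simp only [Pi.add_apply]
  rw [integral_add i4 i3, integral_finsetSum _ fun r _ => i2 r]
  exact mul_le_mul_of_nonneg_left (l2_le_Gx ξ) (by positivity)

lemma SOa_b5 (hL : Big L) (h : VF L ϖ ξ) {c : ℝ} {Y : Mat d L} (hY : OpB Y c) (s : Fin d) :
    ∑ a, ∫ x, ‖pd L s (Sop L ξ (orb Y a)) x‖ ^ 2 ≤
      6 ^ d * 131072 * (d + 1) * c ^ 2 * Gx L ξ := by
  have i1 : ∀ a, Integrable fun x => ‖pd L s (Sop L ξ (orb Y a)) x‖ ^ 2 := fun a =>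
    STc_int (Sop_orb_C1 h Y a) s
  have i2 : ∀ r, Integrable fun x => ξ r x ^ 2 := fun r => cont_int ((h.c1 r).cont.pow 2)
  have i2' : ∀ r, Integrable fun x => pd L s (ξ r) x ^ 2 := fun r =>
    cont_int (((h.c1 r).cpd s).pow 2)
  have i3 : Integrable fun x => dv L ξ x ^ 2 := cont_int (h.c1d.cont.pow 2)
  have i3' : Integrable fun x => pd L s (dv L ξ) x ^ 2 := cont_int ((h.c1d.cpd s).pow 2)
  have i5 : ∀ r, Integrable fun x => ξ r x ^ 2 + pd L s (ξ r) x ^ 2 := fun r => (i2 r).add (i2' r)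
  have i4 : Integrable fun x => ∑ r, (ξ r x ^ 2 + pd L s (ξ r) x ^ 2) :=
    integrable_finsetSum _ fun r _ => i5 r
  have i6 : Integrable fun x => ∑ r, (ξ r x ^ 2 + pd L s (ξ r) x ^ 2) + dv L ξ x ^ 2 := i4.add i3
  have i7 : Integrable fun x => ∑ r, (ξ r x ^ 2 + pd L s (ξ r) x ^ 2) + dv L ξ x ^ 2 +
      pd L s (dv L ξ) x ^ 2 := i6.add i3'
  have g1 : ∀ g : Tor d → ℝ, ∫ x, pd L s g x ^ 2 ≤ Gr L g := fun g => by
    simpa only [Real.norm_eq_abs, sq_abs] using Gr_single_le (L := L) (g := g) s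
  rw [← integral_finsetSum _ fun a _ => i1 a]
  refine (integral_mono (integrable_finsetSum _ fun a _ => i1 a) (i7.const_mul _)
    fun x => SOa_b3 hL h hY s x).trans ?_
  rw [integral_const_mul, integral_add i6 i3', integral_add i4 i3,
    integral_finsetSum _ fun r _ => i5 r]
  refine mul_le_mul_of_nonneg_left ?_ (by positivity)
  refine add_le_add (add_le_add (Finset.sum_le_sum fun r _ => ?_) le_rfl) (g1 _)
  rw [integral_add (i2 r) (i2' r)]
  exact add_le_add le_rfl (g1 _)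

lemma SOa_b6 (hL : Big L) (h : VF L ϖ ξ) {c : ℝ} {Y : Mat d L} (hY : OpB Y c)
    (z : Ix d L → ℂ) : L ^ d * ∫ x, ‖∑ a, z a * Sop L ξ (orb Y a) x‖ ^ 2 ≤
      256 * (d + 1) ^ 2 * c ^ 2 * ϖ ^ 2 * vn z ^ 2 := by
  have hc := hY.nonneg
  have hϖ := h.nonneg
  have hD : 0 < L ^ d := pow_pos hL.pos d
  set F : Mat d L → Tor d → ℂ := fun M x => ∑ a, z a * orb M a x with hF
  have cF : ∀ M, Continuous (F M) := fun M =>
    continuous_finsetSum _ fun a _ => continuous_const.mul (orb_C1 M a).cont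
  have iF : ∀ M, Integrable fun x => ‖F M x‖ ^ 2 := fun M => cont_int ((cF M).norm.pow 2)
  have bF : ∀ M, OpB M (16 * c) → L ^ d * ∫ x, ‖F M x‖ ^ 2 ≤ 256 * c ^ 2 * vn z ^ 2 := by
    intro M hM
    rw [hF, orb_comb hL.pos]
    calc vn (M *ᵥ z) ^ 2 ≤ (16 * c * vn z) ^ 2 := pow_le_pow_left₀ (vn_nonneg _) (hM.2 z) 2
      _ = _ := by ring
  have e : ∀ x, ∑ a, z a * Sop L ξ (orb Y a) x =
      ∑ r, (ξ r x : ℂ) * F (Complex.I • (Pm L r * Y)) x + ((dv L ξ x / 2 : ℝ) : ℂ) * F Y x := by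
    intro x
    simp only [SOa_Sop_orb, hF, mul_add, Finset.sum_add_distrib, Finset.mul_sum]
    rw [Finset.sum_comm]
    congr 1
    · exact Finset.sum_congr rfl fun r _ => Finset.sum_congr rfl fun a _ => mul_left_comm _ _ _
    · exact Finset.sum_congr rfl fun a _ => mul_left_comm _ _ _
  have p : ∀ x, ‖∑ a, z a * Sop L ξ (orb Y a) x‖ ^ 2 ≤
      (d + 1) * ϖ ^ 2 * (∑ r, ‖F (Complex.I • (Pm L r * Y)) x‖ ^ 2 + ‖F Y x‖ ^ 2) := by
    intro x
    have p1 : ‖∑ a, z a * Sop L ξ (orb Y a) x‖ ≤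
        ϖ * (∑ r, |‖F (Complex.I • (Pm L r * Y)) x‖| + |‖F Y x‖|) := by
      rw [e, mul_add, Finset.mul_sum _ _ ϖ]
      refine (norm_add_le _ _).trans (add_le_add ((norm_sum_le _ _).trans
        (Finset.sum_le_sum fun r _ => ?_)) ?_)
      · rw [norm_mul, abs_norm, Complex.norm_real, Real.norm_eq_abs]
        exact mul_le_mul_of_nonneg_right (h.bd r x) (norm_nonneg _)
      · rw [norm_mul, abs_norm, Complex.norm_real, Real.norm_eq_abs, abs_div, abs_two]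
        exact mul_le_mul_of_nonneg_right (by linarith [h.bdd x]) (norm_nonneg _)
    have p2 := SOa_cs1 (fun r => ‖F (Complex.I • (Pm L r * Y)) x‖) ‖F Y x‖
    calc _ ≤ (ϖ * (∑ r, |‖F (Complex.I • (Pm L r * Y)) x‖| + |‖F Y x‖|)) ^ 2 :=
          pow_le_pow_left₀ (norm_nonneg _) p1 2
      _ = ϖ ^ 2 * (∑ r, |‖F (Complex.I • (Pm L r * Y)) x‖| + |‖F Y x‖|) ^ 2 := by ring
      _ ≤ ϖ ^ 2 * ((d + 1) * (∑ r, ‖F (Complex.I • (Pm L r * Y)) x‖ ^ 2 + ‖F Y x‖ ^ 2)) := by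
          gcongr
      _ = _ := by ring
  have i1 : Integrable fun x => ∑ r, ‖F (Complex.I • (Pm L r * Y)) x‖ ^ 2 :=
    integrable_finsetSum _ fun r _ => iF _
  have i2 : Integrable fun x => ∑ r, ‖F (Complex.I • (Pm L r * Y)) x‖ ^ 2 + ‖F Y x‖ ^ 2 :=
    i1.add (iF Y)
  have q := integral_mono (cont_int ((continuous_finsetSum _ fun a _ =>
    continuous_const.mul (Sop_orb_C1 h Y a).cont).norm.pow 2)) (i2.const_mul _) p
  rw [integral_const_mul, integral_add i1 (iF Y), integral_finsetSum _ fun r _ => iF _] at q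
  have q1 : L ^ d * (∑ r, (∫ x, ‖F (Complex.I • (Pm L r * Y)) x‖ ^ 2) + ∫ x, ‖F Y x‖ ^ 2) ≤
      (d + 1) * (256 * c ^ 2 * vn z ^ 2) := by
    rw [mul_add, Finset.mul_sum, add_mul, one_mul]
    refine add_le_add ((Finset.sum_le_sum fun r _ => bF _ (SOa_opB hL hY r)).trans_eq ?_)
      (bF _ (hY.mono (by linarith)))
    simp
  calc _ ≤ L ^ d * ((d + 1) * ϖ ^ 2 * (∑ r, (∫ x, ‖F (Complex.I • (Pm L r * Y)) x‖ ^ 2) +
        ∫ x, ‖F Y x‖ ^ 2)) := mul_le_mul_of_nonneg_left q hD.le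
    _ = (d + 1) * ϖ ^ 2 * (L ^ d * (∑ r, (∫ x, ‖F (Complex.I • (Pm L r * Y)) x‖ ^ 2) +
        ∫ x, ‖F Y x‖ ^ 2)) := by ring
    _ ≤ (d + 1) * ϖ ^ 2 * ((d + 1) * (256 * c ^ 2 * vn z ^ 2)) := by gcongr
    _ = _ := by ring

theorem Sop_bounds (d : ℕ) : ∃ C : ℝ, 1 ≤ C ∧ ∀ (L ϖ c : ℝ) (ξ : Fin d → Tor d → ℝ) (Y : Mat d L),
    Big L → VF L ϖ ξ → OpB Y c →
    (∀ x, ∑ a, ‖Sop L ξ (orb Y a) x‖ ^ 2 ≤ C * c ^ 2 * (∑ r, ξ r x ^ 2 + dv L ξ x ^ 2)) ∧
    (∀ x, ∑ a, ‖Sop L ξ (orb Y a) x‖ ^ 2 ≤ C * c ^ 2 * ϖ ^ 2) ∧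
    (∀ s x, ∑ a, ‖pd L s (Sop L ξ (orb Y a)) x‖ ^ 2 ≤ C * c ^ 2 *
      (∑ r, (ξ r x ^ 2 + pd L s (ξ r) x ^ 2) + dv L ξ x ^ 2 + pd L s (dv L ξ) x ^ 2)) ∧
    ∑ a, ∫ x, ‖Sop L ξ (orb Y a) x‖ ^ 2 ≤ C * c ^ 2 * Gx L ξ ∧
    ∑ a, Gr L (Sop L ξ (orb Y a)) ≤ C * c ^ 2 * Gx L ξ ∧
    ∀ z : Ix d L → ℂ,
      L ^ d * ∫ x, ‖∑ a, z a * Sop L ξ (orb Y a) x‖ ^ 2 ≤ C * c ^ 2 * ϖ ^ 2 * vn z ^ 2 := by
  have h6 : (1 : ℝ) ≤ 6 ^ d := one_le_pow₀ (by norm_num)
  have hd : (1 : ℝ) ≤ d + 1 := by have := Nat.cast_nonneg (α := ℝ) d; linarith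
  obtain ⟨C, hC⟩ : ∃ C : ℝ, C = 6 ^ d * 131072 * (d + 1) ^ 2 := ⟨_, rfl⟩
  have c3 : (6 : ℝ) ^ d * 131072 * (d + 1) ≤ C := by
    rw [hC]; exact mul_le_mul_of_nonneg_left (by nlinarith) (by positivity)
  have c1 : (6 : ℝ) ^ d * 256 * (d + 1) ≤ C := le_trans (by gcongr; norm_num) c3
  have c2 : (6 : ℝ) ^ d * 256 * (d + 1) ^ 2 ≤ C := by rw [hC]; gcongr; norm_num
  have c6 : (256 : ℝ) * (d + 1) ^ 2 ≤ C := le_trans (by nlinarith [sq_nonneg ((d : ℝ) + 1)]) c2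
  refine ⟨C, le_trans (by nlinarith) c6, fun L ϖ c ξ Y hL h hY => ⟨fun x => ?_, fun x => ?_,
    fun s x => ?_, ?_, ?_, fun z => ?_⟩⟩
  · refine (SOa_b1 hL hY x).trans ?_
    gcongr
  · refine (SOa_b1 hL hY x).trans ?_
    calc _ ≤ 6 ^ d * 256 * (d + 1) * c ^ 2 * ((d + 1) * ϖ ^ 2) :=
          mul_le_mul_of_nonneg_left (SOa_sq_le h x) (by positivity)
      _ = 6 ^ d * 256 * (d + 1) ^ 2 * c ^ 2 * ϖ ^ 2 := by ring
      _ ≤ _ := by gcongr
  · refine (SOa_b3 hL h hY s x).trans ?_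
    gcongr
  · refine (SOa_b4 hL h hY).trans ?_
    have := Gx_nonneg (L := L) ξ
    gcongr
  · have := Gx_nonneg (L := L) ξ
    unfold Gr
    rw [Finset.sum_comm]
    refine (Finset.sum_le_sum fun s _ => SOa_b5 hL h hY s).trans ?_
    simp only [Finset.sum_const, Finset.card_univ, Fintype.card_fin, nsmul_eq_mul]
    calc _ ≤ (d + 1) * (6 ^ d * 131072 * (d + 1) * c ^ 2 * Gx L ξ) := by gcongr; linarith
      _ = _ := by rw [hC]; ring
  · refine (SOa_b6 hL h hY z).trans ?_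
    gcongr
lemma sum_Gr_orb (hL : Big L) (Y : Mat d L) :
    ∑ a, Gr L (orb Y a) ≤ 256 * d * (L ^ d)⁻¹ * hs Y ^ 2 := by
  have hD : 0 < L ^ d := pow_pos hL.pos d
  unfold Gr
  rw [Finset.sum_comm]
  have h1 : ∀ r, ∑ a, ∫ x, ‖pd L r (orb Y a) x‖ ^ 2 ≤ (L ^ d)⁻¹ * (16 * hs Y) ^ 2 := by
    intro r
    simp only [pd_orb]
    rw [orb_l2 hL.pos, hs_smul, Complex.norm_I, one_mul]
    exact mul_le_mul_of_nonneg_left
      (pow_le_pow_left₀ (hs_nonneg _) ((Pm_opB hL r).hs_mul_left Y) 2) (by positivity)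
  refine (Finset.sum_le_sum fun r _ => h1 r).trans_eq ?_
  simp only [Finset.sum_const, Finset.card_univ, Fintype.card_fin, nsmul_eq_mul]
  ring

section Bf
variable {ι : Type} [Fintype ι] {b U : Tor d → ℝ} {y z z' : ι → Tor d → ℂ}
lemma SOa_re_comm (u v : ℂ) : (conj u * v).re = (conj v * u).re := by
  simp only [Complex.mul_re, Complex.conj_re, Complex.conj_im]; ring

lemma SOa_Bf (b U : Tor d → ℝ) (y z : ι → Tor d → ℂ) : Bf L b U y z = ∑ a, ∫ x,
    (∑ r, b x * (conj (pd L r (y a) x) * pd L r (z a) x).re +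
      b x * U x * (conj (y a x) * z a x).re) := by
  simp only [Bf, Complex.add_re, Complex.re_sum, Complex.re_ofReal_mul, mul_add, Finset.mul_sum,
    mul_assoc]

lemma SOa_cre {u v : Tor d → ℂ} (hu : Continuous u) (hv : Continuous v) :
    Continuous fun x => (conj (u x) * v x).re :=
  Complex.continuous_re.comp ((Complex.continuous_conj.comp hu).mul hv)

lemma SOa_int (hb : Continuous b) (hU : Continuous U) {u v : Tor d → ℂ} (hu : C1 L u)
    (hv : C1 L v) : Integrable fun x => ∑ r, b x * (conj (pd L r u x) * pd L r v x).re +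
      b x * U x * (conj (u x) * v x).re :=
  cont_int ((continuous_finsetSum _ fun r _ => hb.mul (SOa_cre (hu.cpd r) (hv.cpd r))).add
    ((hb.mul hU).mul (SOa_cre hu.cont hv.cont)))

lemma Bf_comm (b U : Tor d → ℝ) (y z : ι → Tor d → ℂ) : Bf L b U y z = Bf L b U z y := by
  rw [SOa_Bf, SOa_Bf]
  refine Finset.sum_congr rfl fun a _ => integral_congr_ae (ae_of_all _ fun x => ?_)
  simp only [SOa_re_comm (y a x), SOa_re_comm (pd L _ (y a) x)]
lemma Bf_add_right (hb : Continuous b) (hU : Continuous U) (hy : ∀ a, C1 L (y a))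
    (hz : ∀ a, C1 L (z a)) (hz' : ∀ a, C1 L (z' a)) :
    Bf L b U y (fun a x => z a x + z' a x) = Bf L b U y z + Bf L b U y z' := by
  rw [SOa_Bf, SOa_Bf, SOa_Bf, ← Finset.sum_add_distrib]
  refine Finset.sum_congr rfl fun a _ => ?_
  rw [← integral_add (SOa_int hb hU (hy a) (hz a)) (SOa_int hb hU (hy a) (hz' a))]
  refine integral_congr_ae (ae_of_all _ fun x => ?_)
  simp only [pd_add (hz a) (hz' a), mul_add, Complex.add_re, Finset.sum_add_distrib]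
  ring
lemma Bf_sub_right (hb : Continuous b) (hU : Continuous U) (hy : ∀ a, C1 L (y a))
    (hz : ∀ a, C1 L (z a)) (hz' : ∀ a, C1 L (z' a)) :
    Bf L b U y (fun a x => z a x - z' a x) = Bf L b U y z - Bf L b U y z' := by
  rw [SOa_Bf, SOa_Bf, SOa_Bf, ← Finset.sum_sub_distrib]
  refine Finset.sum_congr rfl fun a _ => ?_
  rw [← integral_sub (SOa_int hb hU (hy a) (hz a)) (SOa_int hb hU (hy a) (hz' a))]
  refine integral_congr_ae (ae_of_all _ fun x => ?_)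
  simp only [pd_sub (hz a) (hz' a), mul_sub, Complex.sub_re, Finset.sum_sub_distrib]
  ring

lemma SOa_abs_re (t c : ℝ) (ht : |t| ≤ c) (u v : ℂ) : |t * (conj u * v).re| ≤ c * (‖u‖ * ‖v‖) := by
  rw [abs_mul]
  refine mul_le_mul ht ((Complex.abs_re_le_norm _).trans_eq ?_) (abs_nonneg _)
    ((abs_nonneg _).trans ht)
  rw [norm_mul, Complex.norm_conj]

lemma abs_Bf_le (hb : Continuous b) (hU : Continuous U) (h1 : ∀ x, |b x| ≤ 1) (h2 : ∀ x, |U x| ≤ 2)
    (hy : ∀ a, C1 L (y a)) (hz : ∀ a, C1 L (z a)) :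
    |Bf L b U y z| ≤ √(∑ a, Gr L (y a)) * √(∑ a, Gr L (z a)) +
      2 * (√(∑ a, ∫ x, ‖y a x‖ ^ 2) * √(∑ a, ∫ x, ‖z a x‖ ^ 2)) := by
  have k1 := cs_fam (g := fun p : ι × Fin d => pd L p.2 (y p.1))
    (h := fun p : ι × Fin d => pd L p.2 (z p.1)) (fun p => (hy _).cpd _) fun p => (hz _).cpd _
  have k2 := cs_fam (g := y) (h := z) (fun a => (hy a).cont) fun a => (hz a).cont
  simp only [Fintype.sum_prod_type] at k1
  have k3 : ∀ a, |∫ x, (∑ r, b x * (conj (pd L r (y a) x) * pd L r (z a) x).re +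
      b x * U x * (conj (y a x) * z a x).re)| ≤
      ∑ r, (∫ x, ‖pd L r (y a) x‖ * ‖pd L r (z a) x‖) + 2 * ∫ x, ‖y a x‖ * ‖z a x‖ := by
    intro a
    have i1 : ∀ r, Integrable fun x => ‖pd L r (y a) x‖ * ‖pd L r (z a) x‖ := fun r =>
      cont_int (((hy a).cpd r).norm.mul ((hz a).cpd r).norm)
    have i2 : Integrable fun x => 2 * (‖y a x‖ * ‖z a x‖) :=
      (cont_int ((hy a).cont.norm.mul (hz a).cont.norm)).const_mul 2
    have i3 : Integrable fun x => ∑ r, ‖pd L r (y a) x‖ * ‖pd L r (z a) x‖ :=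
      integrable_finsetSum _ fun r _ => i1 r
    rw [← integral_finsetSum _ fun r _ => i1 r, ← integral_const_mul, ← integral_add i3 i2]
    refine abs_integral_le_integral_abs.trans
      (integral_mono (SOa_int hb hU (hy a) (hz a)).abs (i3.add i2) fun x => ?_)
    refine (abs_add_le _ _).trans (add_le_add ((Finset.abs_sum_le_sum_abs _ _).trans
      (Finset.sum_le_sum fun r _ => ?_)) (SOa_abs_re _ _ ?_ _ _))
    · simpa only [one_mul] using SOa_abs_re _ _ (h1 x) _ _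
    · rw [abs_mul]
      nlinarith [h1 x, h2 x, abs_nonneg (b x), abs_nonneg (U x)]
  rw [SOa_Bf]
  refine (Finset.abs_sum_le_sum_abs _ _).trans ((Finset.sum_le_sum fun a _ => k3 a).trans ?_)
  rw [Finset.sum_add_distrib, ← Finset.mul_sum]
  exact add_le_add k1 (by linarith)
/-- The form on orbitals of matrices, as a trace. -/
lemma Bf_orb (hL : 0 < L) (hb : Continuous b) (hU : Continuous U) (Y Z : Mat d L) :
    Bf L b U (orb Y) (orb Z) = (L ^ d)⁻¹ * rtr ((∑ r, Pm L r * mulM L (cx b) * Pm L r +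
      mulM L (cx fun x => b x * U x)) * (Z * Yᴴ)) := by
  rw [SOa_Bf, ← integral_finsetSum _ fun a _ => SOa_int hb hU (orb_C1 Y a) (orb_C1 Z a)]
  have e : ∀ r, (Complex.I • (Pm L r * Z)) * (Complex.I • (Pm L r * Y))ᴴ =
      Pm L r * (Z * Yᴴ) * Pm L r := fun r => by
    rw [conjTranspose_smul, conjTranspose_mul, Pm_herm, Matrix.smul_mul, Matrix.mul_smul,
      smul_smul]
    simp [Matrix.mul_assoc]
  have e1 : ∀ x, ∑ a, (∑ r, b x * (conj (pd L r (orb Y a) x) * pd L r (orb Z a) x).re +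
      b x * U x * (conj (orb Y a x) * orb Z a x).re) =
      ∑ r, b x * dens (Pm L r * (Z * Yᴴ) * Pm L r) x + b x * U x * dens (Z * Yᴴ) x := by
    intro x
    rw [Finset.sum_add_distrib, Finset.sum_comm]
    simp only [← Finset.mul_sum, pd_orb, orb_dens hL, e]
  have i1 : ∀ r, Integrable fun x => b x * dens (Pm L r * (Z * Yᴴ) * Pm L r) x := fun r =>
    cont_int (hb.mul (dens_C1 _).cont)
  have i2 : Integrable fun x => b x * U x * dens (Z * Yᴴ) x :=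
    cont_int ((hb.mul hU).mul (dens_C1 _).cont)
  simp only [e1]
  rw [integral_add (integrable_finsetSum _ fun r _ => i1 r) i2,
    integral_finsetSum _ fun r _ => i1 r,
    dens_pair _ (b := fun x => b x * U x) (hb.mul hU), Matrix.add_mul, rtr_add, Finset.sum_mul,
    rtr_sum, mul_add, Finset.mul_sum]
  congr 1
  refine Finset.sum_congr rfl fun r _ => ?_
  rw [dens_pair _ hb, ← Matrix.mul_assoc, rtr_comm]
  simp only [Matrix.mul_assoc]
/-- Integration by parts in the form. -/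
lemma Bf_parts (hb : C1 L b) (hU : Continuous U) (hy : ∀ a, C1 L (y a))
    (hy' : ∀ a r, C1 L (pd L r (y a))) (hz : ∀ a, C1 L (z a)) :
    Bf L b U y z = ∑ a, (∫ x, b x *
      (conj (-∑ r, pd L r (pd L r (y a)) x + (U x : ℂ) * y a x) * z a x).re) -
      ∑ a, ∑ r, ∫ x, pd L r b x * (conj (pd L r (y a) x) * z a x).re := by
  rw [SOa_Bf, ← Finset.sum_sub_distrib]
  refine Finset.sum_congr rfl fun a _ => ?_
  have c1 : ∀ r, C1 L fun x => (conj (pd L r (y a) x) * z a x).re := fun r =>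
    ((hy' a r).cj.mul (hz a)).re
  have k : ∀ r, ∫ x, pd L r b x * (conj (pd L r (y a) x) * z a x).re =
      -∫ x, (b x * (conj (pd L r (pd L r (y a)) x) * z a x).re +
        b x * (conj (pd L r (y a) x) * pd L r (z a) x).re) := fun r => by
    rw [by_parts hb (c1 r) r]
    simp only [pd_re ((hy' a r).cj.mul (hz a)), pd_mul (hy' a r).cj (hz a), pd_conj (hy' a r),
      Complex.add_re, mul_add]
  have i1 : ∀ r, Integrable fun x => b x * (conj (pd L r (pd L r (y a)) x) * z a x).re +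
      b x * (conj (pd L r (y a) x) * pd L r (z a) x).re := fun r =>
    cont_int ((hb.cont.mul (SOa_cre ((hy' a r).cpd r) (hz a).cont)).add
      (hb.cont.mul (SOa_cre ((hy a).cpd r) ((hz a).cpd r))))
  have i2 : Integrable fun x => b x *
      (conj (-∑ r, pd L r (pd L r (y a)) x + (U x : ℂ) * y a x) * z a x).re :=
    cont_int (hb.cont.mul (SOa_cre ((continuous_finsetSum _ fun r _ => (hy' a r).cpd r).neg.add
      ((continuous_cx hU).mul (hy a).cont)) (hz a).cont))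
  simp only [k, Finset.sum_neg_distrib, sub_neg_eq_add]
  rw [← integral_finsetSum _ fun r _ => i1 r,
    ← integral_add i2 (integrable_finsetSum _ fun r _ => i1 r)]
  refine integral_congr_ae (ae_of_all _ fun x => ?_)
  simp only [map_add, map_neg, map_sum, map_mul, Complex.conj_ofReal, add_mul, neg_mul,
    Finset.sum_mul, Complex.add_re, Complex.neg_re, Complex.re_sum, mul_assoc,
    Complex.re_ofReal_mul, mul_add, mul_neg, Finset.mul_sum, Finset.sum_add_distrib]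
  ring
end Bf

end Pool.Agent.Lib.MP_ae5e3b_mp.Sh
end
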