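import Pool.Agent.Lib.MP_ae5e3b_mp.SMc
import Pool.Agent.Lib.MP_ae5e3b_mp.SHc
import Pool.Agent.Lib.MP_ae5e3b_mp.SOa

-- part Pool.Agent.Lib.MP_ae5e3b_mp.SEx
section

open MeasureTheory Matrix Real
open scoped ComplexConjugate ComplexOrder

set_option linter.unusedSectionVars false

namespace Pool.Agent.Lib.MP_ae5e3b_mp.Sh

section Gen
variable {n : Type} [Fintype n] [DecidableEq n]

lemma SEx_smul_comm (z : ℂ) (A B : Matrix n n ℂ) : rtr (z • (A * B)) = rtr (z • (B * A)) := by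
  unfold rtr
  rw [trace_smul, trace_smul, trace_mul_comm]

lemma SEx_conj (A : Matrix n n ℂ) : rtr (Complex.I • A) = -rtr (Complex.I • Aᴴ) := by
  conv_lhs => rw [← rtr_conjT]
  rw [conjTranspose_smul, Complex.star_def, Complex.conj_I, neg_smul, rtr_neg]

lemma SEx_I {A B : Matrix n n ℂ} (hA : Aᴴ = A) (hB : Bᴴ = B) :
    rtr (Complex.I • (A * B)) = 0 := by
  have h1 := SEx_conj (A * B)
  rw [conjTranspose_mul, hA, hB, SEx_smul_comm _ B A] at h1
  linarith

lemma SEx_abs (A B : Matrix n n ℂ) : |rtr (A * B)| ≤ hs A * hs B :=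
  (abs_rtr_le _).trans (trace_mul_le A B)

lemma SEx_half {Y P M : Matrix n n ℂ} (hY : Yᴴ = Y) (hP : Pᴴ = P) (hM : Mᴴ = M) :
    rtr (Complex.I • (Y * P * M)) = -(1 / 2) * rtr (M * (Complex.I • cm P Y)) := by
  have h1 := SEx_conj (Y * P * M)
  rw [conjTranspose_mul, conjTranspose_mul, hY, hP, hM] at h1
  have h2 : M * (Complex.I • cm P Y) = Complex.I • (M * (P * Y)) - Complex.I • (M * (Y * P)) := by
    rw [Matrix.mul_smul, cm, Matrix.mul_sub, smul_sub]
  rw [h2, rtr_sub, SEx_smul_comm _ M (Y * P)]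
  linarith

lemma SEx_dg_comm (m m' : n → ℝ) : dg m * dg m' = dg m' * dg m := by
  rw [dg_mul, dg_mul]
  congr 1
  funext i
  ring

lemma SEx_dg_absorb {m m' : n → ℝ} (h : ∀ i, m i ≠ 0 → m' i = 1) : dg m' * dg m = dg m := by
  rw [dg_mul]
  congr 1
  funext i
  by_cases h0 : m i = 0
  · simp [h0]
  · simp [h i h0]

/-- The algebra of the localisation formula. -/
lemma SEx_ims {N B P R M : Matrix n n ℂ} (h1 : cm B P = Complex.I • R) (h2 : N * P = P * N)
    (h3 : N * B * R = N * M) :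
    N * B * cm (P * P) B * N = N * R * R * N - Complex.I • (N * (P * M + M * P) * N) := by
  have e1 : cm P B = -(Complex.I • R) := by rw [cm_swap, h1]
  have e2 : B * P = P * B + Complex.I • R := by rw [← h1, cm]; abel
  have e3 : N * B * (P * R) = P * (N * M) + Complex.I • (N * R * R) := by
    calc N * B * (P * R) = N * (B * P) * R := by simp only [Matrix.mul_assoc]
      _ = N * P * B * R + Complex.I • (N * R * R) := by
        rw [e2, Matrix.mul_add, Matrix.add_mul, Matrix.mul_smul, Matrix.smul_mul]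
        simp only [Matrix.mul_assoc]
      _ = P * (N * B * R) + Complex.I • (N * R * R) := by rw [h2]; simp only [Matrix.mul_assoc]
      _ = _ := by rw [h3]
  have e4 : N * B * (R * P) = N * M * P := by rw [← h3]; simp only [Matrix.mul_assoc]
  have e5 : N * B * cm (P * P) B = -(Complex.I • (N * B * (P * R) + N * B * (R * P))) := by
    rw [cm_mul_left, e1]
    simp only [Matrix.mul_add, Matrix.mul_neg, Matrix.neg_mul, Matrix.mul_smul, Matrix.smul_mul,
      smul_add, neg_add]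
  have e6 : N * (P * M + M * P) = P * (N * M) + N * M * P := by
    rw [Matrix.mul_add, ← Matrix.mul_assoc, h2]; simp only [Matrix.mul_assoc]
  rw [e5, e3, e4, e6]
  simp only [smul_add, smul_smul, Complex.I_mul_I, neg_smul, one_smul, Matrix.add_mul,
    Matrix.neg_mul, Matrix.smul_mul, neg_add, neg_neg]
  abel

end Gen

variable {d : ℕ} {L : ℝ} {u b : Tor d → ℝ}

lemma SEx_near {i j : Ix d L} {Q t : ℝ} (h : ‖mom i - mom j‖ ≤ Q) (hi : ‖mom i‖ ≤ t) :
    ‖mom j‖ ≤ t + Q := by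
  have := norm_sub_norm_le (mom j) (mom i)
  rw [norm_sub_rev] at this
  linarith

lemma SEx_cx_mul (g h : Tor d → ℝ) : (fun x => cx g x * cx h x) = cx fun x => g x * h x := by
  funext x
  simp [cx]

/-- The cutoff of the potential is invisible to the right of a localised band matrix. -/
lemma SEx_Ph_right {g : Tor d → ℂ} (hg : TP L 2 g) {m : Ix d L → ℝ}
    (hm : ∀ i, m i ≠ 0 → ‖mom i‖ ≤ 6) : dg m * mulM L g * Ph d L = dg m * mulM L g := by
  refine dg_mulM_dg (by norm_num) hg fun i j hij => ?_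
  by_cases h0 : m i = 0
  · simp [h0]
  · rw [phiS_eq_one ((SEx_near hij (hm i h0)).trans (by norm_num)), mul_one]

lemma SEx_Ph_left {g : Tor d → ℂ} (hg : TP L 2 g) {m : Ix d L → ℝ}
    (hm : ∀ i, m i ≠ 0 → ‖mom i‖ ≤ 6) : Ph d L * mulM L g * dg m = mulM L g * dg m := by
  refine dg_mulM_dg' (by norm_num) hg fun i j hij => ?_
  by_cases h0 : m j = 0
  · simp [h0]
  · rw [norm_sub_rev] at hij
    rw [phiS_eq_one ((SEx_near hij (hm j h0)).trans (by norm_num)), one_mul]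

lemma SEx_Ph_dg {m : Ix d L → ℝ} (hm : ∀ i, m i ≠ 0 → ‖mom i‖ ≤ 6) : Ph d L * dg m = dg m :=
  SEx_dg_absorb fun i h => phiS_eq_one ((hm i h).trans (by norm_num))

lemma SEx_BB (hL : Big L) (hb : TP L 1 (cx b)) {m : Ix d L → ℝ}
    (hm : ∀ i, m i ≠ 0 → ‖mom i‖ ≤ 6) :
    dg m * mulM L (cx b) * mulM L (cx b) = dg m * mulM L (cx fun x => b x * b x) := by
  rw [mulM_mul_left hL hb hb.cont fun i h => by linarith [hm i h], SEx_cx_mul]

lemma SEx_TP2 (hb : TP L 1 (cx b)) : TP L 2 (cx fun x => b x * b x) :=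
  (hb.mul_real hb).mono (by norm_num)

/-- The potential does not contribute to the localisation term. -/
lemma SEx_W0 (hL : Big L) (hu : Continuous u) (hb : TP L 1 (cx b)) {m : Ix d L → ℝ}
    (hm : ∀ i, m i ≠ 0 → ‖mom i‖ ≤ 6) :
    dg m * mulM L (cx b) * cm (Wop L u) (mulM L (cx b)) * dg m = 0 := by
  have hb2 : TP L 2 (cx b) := hb.mono (by norm_num)
  have hbc : Continuous b := hb.c1_real.cont
  have e1 : dg m * mulM L (cx b) * (Wop L u * mulM L (cx b)) * dg m =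
      dg m * mulM L (cx fun x => b x * u x * b x) * dg m := by
    calc dg m * mulM L (cx b) * (Wop L u * mulM L (cx b)) * dg m
        = (dg m * mulM L (cx b) * Ph d L) * mulM L (cx u) * (Ph d L * mulM L (cx b) * dg m) := by
          simp only [Wop, Matrix.mul_assoc]
      _ = (dg m * mulM L (cx b) * mulM L (cx u)) * (mulM L (cx b) * dg m) := by
          rw [SEx_Ph_right hb2 hm, SEx_Ph_left hb2 hm]
      _ = dg m * (mulM L (cx fun x => b x * u x) * mulM L (cx b) * dg m) := by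
          rw [mulM_mul_left hL hb (continuous_cx hu) fun i h => by linarith [hm i h], SEx_cx_mul]
          simp only [Matrix.mul_assoc]
      _ = _ := by
          have hbu : Continuous fun x => b x * u x := hbc.mul hu
          rw [mulM_mul_right hL hb (continuous_cx hbu) fun i h => by linarith [hm i h],
            SEx_cx_mul]
          simp only [Matrix.mul_assoc]
  have e2 : dg m * mulM L (cx b) * (mulM L (cx b) * Wop L u) * dg m =
      dg m * mulM L (cx fun x => b x * u x * b x) * dg m := by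
    calc dg m * mulM L (cx b) * (mulM L (cx b) * Wop L u) * dg m
        = (dg m * mulM L (cx b) * mulM L (cx b) * Ph d L) * mulM L (cx u) * (Ph d L * dg m) := by
          simp only [Wop, Matrix.mul_assoc]
      _ = (dg m * mulM L (cx fun x => b x * b x) * mulM L (cx u)) * dg m := by
          rw [SEx_BB hL hb hm, SEx_Ph_right (SEx_TP2 hb) hm, SEx_Ph_dg hm]
      _ = _ := by
          rw [mulM_mul_left hL (SEx_TP2 hb) (continuous_cx hu) fun i h => by linarith [hm i h],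
            SEx_cx_mul]
          simp only [mul_right_comm (b _) (b _) (u _)]
  rw [cm, Matrix.mul_sub, Matrix.sub_mul, e1, e2, sub_self]

/-- Under the cutoffs the kinetic symbol is the square of the momentum. -/
lemma SEx_K (hb : TP L 1 (cx b)) {m : Ix d L → ℝ} (hm : ∀ i, m i ≠ 0 → ‖mom i‖ ≤ 6) :
    cm (dg fun i => epsS (mom i) - 1) (mulM L (cx b)) * dg m =
      ∑ r, cm (Pm L r * Pm L r) (mulM L (cx b)) * dg m := by
  ext i k
  have e : ∀ r, Pm L r * Pm L r = dg fun i : Ix d L => mom i r * mom i r := fun r => dg_mul _ _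
  simp only [e, Matrix.sum_apply, mul_dg_apply, cm_dg_apply]
  by_cases h0 : m k = 0
  · simp [h0]
  by_cases h1 : 1 < ‖mom i - mom k‖
  · simp [mulM_band (by norm_num) hb h1]
  have hk := hm k h0
  have hi : ‖mom i‖ ≤ 6 + 1 := by
    rw [norm_sub_rev] at h1
    exact SEx_near (not_lt.1 h1) hk
  rw [epsS_eq (hi.trans (by norm_num)), epsS_eq (hk.trans (by norm_num)), ← Finset.sum_mul,
    ← Finset.sum_mul]
  congr 2
  push_cast
  rw [Finset.sum_sub_distrib]
  simp only [sq]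
  exact sub_sub_sub_cancel_right _ _ _

/-- The localisation term. -/
lemma SEx_T1 (hp : Pot L u) (hb : TP L 1 (cx b)) {m : Ix d L → ℝ} {c : ℝ} (hc : 0 ≤ c)
    (hmc : ∀ i, |m i| ≤ c) (hm : ∀ i, m i ≠ 0 → ‖mom i‖ ≤ 6) {G : Mat d L} (hG : Gᴴ = G)
    (hG1 : OpB G 1) :
    rtr (G * (dg m * mulM L (cx b) * cm (ham L u) (mulM L (cx b)) * dg m)) ≤
      c ^ 2 * 9 ^ d * (L ^ d * Gr L b) := by
  have hL := hp.big
  have hb1 : C1 L b := hb.c1_real
  have hD : 0 ≤ L ^ d := (pow_pos hL.pos d).le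
  have e0 : dg m * mulM L (cx b) * cm (ham L u) (mulM L (cx b)) * dg m =
      ∑ r, dg m * mulM L (cx b) * cm (Pm L r * Pm L r) (mulM L (cx b)) * dg m := by
    rw [ham, cm_add_left, Matrix.mul_add, Matrix.add_mul, SEx_W0 hL hp.c1.cont hb hm, add_zero,
      Matrix.mul_assoc, SEx_K hb hm, Matrix.mul_sum]
    simp only [Matrix.mul_assoc]
  rw [e0, Matrix.mul_sum, rtr_sum, Gr, Finset.mul_sum, Finset.mul_sum]
  refine Finset.sum_le_sum fun r _ => ?_
  have h1 : cm (mulM L (cx b)) (Pm L r) = Complex.I • mulM L (cx (pd L r b)) := by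
    rw [cm_mulM_Pm hb1.cx, pd_cx hb1]
  have h2 : dg m * Pm L r = Pm L r * dg m := SEx_dg_comm _ _
  have h3 : dg m * mulM L (cx b) * mulM L (cx (pd L r b)) =
      dg m * mulM L (cx fun x => b x * pd L r b x) := by
    rw [mulM_mul_left hL hb (continuous_cx (hb1.cpd r)) fun i h => by linarith [hm i h],
      SEx_cx_mul]
  rw [SEx_ims h1 h2 h3, Matrix.mul_sub, rtr_sub, Matrix.mul_smul, SEx_I hG, sub_zero]
  · set R := mulM L (cx (pd L r b)) with hR
    have hN : OpB (dg m) c := opB_dg hc hmc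
    have hsR : hs R ≤ 3 ^ d * √(L ^ d * ∫ x, ‖pd L r b x‖ ^ 2) := by
      have := hs_mulM hL (continuous_cx (hb1.cpd r))
      simpa [cx] using this
    have hI : 0 ≤ L ^ d * ∫ x, ‖pd L r b x‖ ^ 2 :=
      mul_nonneg hD (integral_nonneg fun x => by positivity)
    have a1 : hs (G * (dg m * R)) ≤ c * hs R := by
      have := hG1.hs_mul_left (dg m * R)
      have := hN.hs_mul_left R
      linarith
    have a2 : hs (R * dg m) ≤ c * hs R := hN.hs_mul_right R
    have a3 : G * (dg m * R * R * dg m) = G * (dg m * R) * (R * dg m) := by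
      simp only [Matrix.mul_assoc]
    have a4 : hs R ^ 2 ≤ 9 ^ d * (L ^ d * ∫ x, ‖pd L r b x‖ ^ 2) := by
      calc hs R ^ 2 ≤ (3 ^ d * √(L ^ d * ∫ x, ‖pd L r b x‖ ^ 2)) ^ 2 :=
            pow_le_pow_left₀ (hs_nonneg _) hsR 2
        _ = _ := by
            rw [mul_pow, Real.sq_sqrt hI, ← pow_mul, mul_comm d 2, pow_mul]; norm_num
    rw [a3]
    calc rtr (G * (dg m * R) * (R * dg m)) ≤ hs (G * (dg m * R)) * hs (R * dg m) :=
          (le_abs_self _).trans (SEx_abs _ _)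
      _ ≤ (c * hs R) * (c * hs R) :=
          mul_le_mul a1 a2 (hs_nonneg _) (mul_nonneg hc (hs_nonneg _))
      _ = c ^ 2 * hs R ^ 2 := by ring
      _ ≤ c ^ 2 * (9 ^ d * (L ^ d * ∫ x, ‖pd L r b x‖ ^ 2)) := by gcongr
      _ = _ := by ring
  · simp only [conjTranspose_mul, conjTranspose_add, dg_conjT, Pm_herm, mulM_cx_conjT]
    rw [add_comm (Pm L r * _)]
    simp only [Matrix.mul_assoc]

/-- The pairing of a momentum with the gradient of the potential. -/
lemma SEx_T2a (hp : Pot L u) (hb : TP L 1 (cx b)) (hb1 : ∀ x, |b x| ≤ 1) {Y : Mat d L}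
    (hY : Yᴴ = Y) (j : Fin d) :
    rtr (Complex.I • (Y * Pm L j * mulM L (cx fun x => b x * b x * pd L j u x))) ≤
      L ^ d * (√(Gr L u) * √(Gr L (dens Y))) := by
  have hL := hp.big
  have hD : 0 < L ^ d := pow_pos hL.pos d
  have hbc : Continuous b := hb.c1_real.cont
  have hw : Continuous fun x => b x * b x * pd L j u x := (hbc.mul hbc).mul (hp.c1.cpd j)
  have hbb : Continuous fun x => b x * b x := hbc.mul hbc
  rw [SEx_half hY (Pm_herm j) (mulM_cx_conjT _)]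
  have h1 := dens_pair (Complex.I • cm (Pm L j) Y) hw
  rw [← pd_dens] at h1
  have h2 : rtr (mulM L (cx fun x => b x * b x * pd L j u x) * Complex.I • cm (Pm L j) Y) =
      L ^ d * ∫ x, b x * b x * (pd L j u x * pd L j (dens Y) x) := by
    simp only [← mul_assoc]
    rw [h1, ← mul_assoc, mul_inv_cancel₀ hD.ne', one_mul]
  have h3 := abs_wGG_le hp.c1 (dens_C1 Y) hbb (a := 1) fun x => by
    rw [abs_mul]
    exact mul_le_one₀ (hb1 x) (abs_nonneg _) (hb1 x)
  have h4 : |∫ x, b x * b x * (pd L j u x * pd L j (dens Y) x)| ≤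
      ∑ r, |∫ x, b x * b x * (pd L r u x * pd L r (dens Y) x)| :=
    Finset.single_le_sum (f := fun r => |∫ x, b x * b x * (pd L r u x * pd L r (dens Y) x)|)
      (fun r _ => abs_nonneg _) (Finset.mem_univ j)
  rw [h2]
  have h5 := neg_abs_le (∫ x, b x * b x * (pd L j u x * pd L j (dens Y) x))
  have h6 : 0 ≤ √(Gr L u) * √(Gr L (dens Y)) :=
    mul_nonneg (Real.sqrt_nonneg _) (Real.sqrt_nonneg _)
  have h7 := h4.trans h3
  generalize (∫ x, b x * b x * (pd L j u x * pd L j (dens Y) x)) = I at h5 h7 ⊢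
  generalize √(Gr L u) * √(Gr L (dens Y)) = S at h6 h7 ⊢
  have h8 : -(1 / 2) * I ≤ S := by linarith
  calc -(1 / 2) * (L ^ d * I) = L ^ d * (-(1 / 2) * I) := by ring
    _ ≤ _ := mul_le_mul_of_nonneg_left h8 hD.le

/-- The commutator of the potential with the cutoff lives at high momenta. -/
lemma SEx_split (u : Tor d → ℝ) :
    cm (mulM L (cx u)) (dg fun i => 1 - sc L 5 i) =
      cm (mulM L (cx u)) (dg fun i => 1 - sc L 5 i) * dg (hi L 5) +
        dg (hi L 5) * cm (mulM L (cx u)) (dg fun i => 1 - sc L 5 i) * dg (lo L 5) := by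
  rw [cm_swap]
  ext i k
  simp only [Matrix.add_apply, Matrix.neg_apply, mul_dg_apply, dg_mul_apply, cm_dg_apply]
  by_cases hk : ‖mom k‖ ≤ 5
  · by_cases hi5 : ‖mom i‖ ≤ 5
    · simp [sc_of_le hk, sc_of_le hi5]
    · simp [hi_of_le hk, lo_of_le hk, hi_of_lt (not_le.1 hi5)]
  · simp [hi_of_lt (not_le.1 hk), lo_of_lt (not_le.1 hk)]

lemma SEx_T2b (hp : Pot L u) (hb : TP L 1 (cx b)) (hb1 : ∀ x, |b x| ≤ 1) {m q : Ix d L → ℝ}
    {c CE : ℝ} (hc : 0 ≤ c) (hmc : ∀ i, |m i| ≤ c) (hq : ∀ i, |q i| ≤ 17) {G E : Mat d L}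
    (hG1 : OpB G 1) (hEG : E * G = G) (hGE : G * E = G)
    (hE : ∀ (m : Ix d L → ℝ) (c : ℝ), 0 ≤ c → (∀ i, |m i| ≤ c) → (∀ i, m i ≠ 0 → 3 ≤ ‖mom i‖) →
      hs (dg m * E) ≤ CE * c * √(L ^ d * Gr L u) ∧ hs (E * dg m) ≤ CE * c * √(L ^ d * Gr L u)) :
    rtr (G * (dg m * mulM L (cx fun x => b x * b x) *
      (dg q * cm (mulM L (cx u)) (dg fun i => 1 - sc L 5 i) * Ph d L))) ≤
      34 * c * CE * 3 ^ d * (L ^ d * Gr L u) := by
  have hL := hp.big
  have hD : 0 ≤ L ^ d * Gr L u := mul_nonneg (pow_pos hL.pos d).le (Gr_nonneg u)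
  have hbc : Continuous b := hb.c1_real.cont
  have hbb : Continuous fun x => b x * b x := hbc.mul hbc
  have hV : hs (cm (mulM L (cx u)) (dg fun i => 1 - sc L 5 i)) ≤ 3 ^ d * √(L ^ d * Gr L u) := by
    rw [hs_cm_swap]
    simpa using hs_cm_sy_real hL hp.c1 (sy_one_sub_sc 5)
  have hsp := SEx_split (L := L) u
  have hBB : OpB (mulM L (cx fun x => b x * b x)) 1 := mulM_opB_real hbb fun x => by
    rw [abs_mul]
    exact mul_le_one₀ (hb1 x) (abs_nonneg _) (hb1 x)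
  have hband : dg (hi L 3) * mulM L (cx fun x => b x * b x) * dg (hi L 5) =
      mulM L (cx fun x => b x * b x) * dg (hi L 5) := by
    refine dg_mulM_dg' (by norm_num) (SEx_TP2 hb) fun i k hik => ?_
    by_cases hk : ‖mom k‖ ≤ 5
    · simp [hi_of_le hk]
    · have : 3 < ‖mom i‖ := by
        by_contra h3
        have := SEx_near hik (not_lt.1 h3)
        exact hk (by linarith)
      rw [hi_of_lt this, one_mul]
  have hE1 := (hE (fun i => hi L 5 i * phiS (mom i)) 1 zero_le_one (fun i => by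
    rw [abs_mul]
    exact mul_le_one₀ (abs_hi_le 5 i) (abs_nonneg _) (abs_phiS_le _)) fun i h => by
      have := hi_ne (left_ne_zero_of_mul h)
      linarith).1
  have hE2 := (hE (fun i => m i * hi L 3 i) c hc (fun i => by
    rw [abs_mul]
    exact (mul_le_of_le_one_right (abs_nonneg _) (abs_hi_le 3 i)).trans (hmc i)) fun i h =>
      (hi_ne (right_ne_zero_of_mul h)).le).2
  rw [← dg_mul] at hE1 hE2
  have hN : OpB (dg m) c := opB_dg hc hmc
  have hQ : OpB (dg q) 17 := opB_dg (by norm_num) hq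
  have hH : OpB (dg (hi L 5 : Ix d L → ℝ)) 1 := opB_dg zero_le_one (abs_hi_le 5)
  have hLo : OpB (dg (lo L 5 : Ix d L → ℝ)) 1 := opB_dg zero_le_one (abs_lo_le 5)
  have hcomm : dg q * dg (hi L 5) = dg (hi L 5) * dg q := SEx_dg_comm _ _
  change hs (dg (hi L 5) * Ph d L * E) ≤ _ at hE1
  have hPh : OpB (Ph d L) 1 := Ph_opB
  generalize cm (mulM L (cx u)) (dg fun i => 1 - sc L 5 i) = V at hV hsp ⊢
  generalize mulM L (cx fun x => b x * b x) = B2 at hBB hband ⊢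
  generalize dg (hi L 5) = H5 at hsp hband hE1 hH hcomm ⊢
  generalize dg (hi L 3) = H3 at hband hE2 ⊢
  generalize dg (lo L 5) = L5 at hsp hLo ⊢
  generalize dg m = N at hE2 hN ⊢
  generalize dg q = Q at hQ hcomm ⊢
  generalize Ph d L = P at hE1 hPh ⊢
  have hs0 : 0 ≤ √(L ^ d * Gr L u) := Real.sqrt_nonneg _
  have hss : √(L ^ d * Gr L u) * √(L ^ d * Gr L u) = L ^ d * Gr L u := Real.mul_self_sqrt hD
  rw [← hss]
  generalize √(L ^ d * Gr L u) = s at *
  have e1 : G * (N * B2 * (Q * V * P)) =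
      G * (N * B2 * Q * V) * (H5 * P) + G * (E * (N * H3)) * (B2 * H5 * Q * V * L5 * P) := by
    have t1 : G * (E * (N * H3)) * (B2 * H5 * Q * V * L5 * P) =
        G * E * N * (H3 * B2 * H5) * Q * V * L5 * P := by simp only [Matrix.mul_assoc]
    have t2 : G * N * (B2 * H5) * Q * V * L5 * P = G * N * B2 * (H5 * Q) * V * L5 * P := by
      simp only [Matrix.mul_assoc]
    rw [t1, hGE, hband, t2, ← hcomm]
    conv_lhs => rw [hsp]
    simp only [Matrix.mul_add, Matrix.add_mul, Matrix.mul_assoc]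
  have e2 : rtr (G * (N * B2 * Q * V) * (H5 * P)) = rtr (H5 * P * E * G * (N * B2 * Q * V)) := by
    rw [rtr_comm, Matrix.mul_assoc (H5 * P) E G, hEG]
    simp only [Matrix.mul_assoc]
  have hV0 := hs_nonneg V
  have a1 : hs (H5 * P * E * G) ≤ CE * s := by
    have := hG1.hs_mul_right (H5 * P * E)
    linarith
  have a2 : hs (N * B2 * Q * V) ≤ 17 * c * (3 ^ d * s) := by
    have := ((hN.mul hBB).mul hQ).hs_mul_left V
    calc hs (N * B2 * Q * V) ≤ c * 1 * 17 * hs V := this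
      _ ≤ c * 1 * 17 * (3 ^ d * s) := by gcongr
      _ = _ := by ring
  have a3 : hs (G * (E * (N * H3))) ≤ CE * c * s := by
    have := hG1.hs_mul_left (E * (N * H3))
    linarith
  have a4 : hs (B2 * H5 * Q * V * L5 * P) ≤ 17 * (3 ^ d * s) := by
    have t1 := ((hBB.mul hH).mul hQ).hs_mul_left V
    have t2 := hLo.hs_mul_right (B2 * H5 * Q * V)
    have t3 := hPh.hs_mul_right (B2 * H5 * Q * V * L5)
    linarith
  have b1 : rtr (H5 * P * E * G * (N * B2 * Q * V)) ≤ (CE * s) * (17 * c * (3 ^ d * s)) :=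
    ((le_abs_self _).trans (SEx_abs _ _)).trans
      (mul_le_mul a1 a2 (hs_nonneg _) ((hs_nonneg _).trans a1))
  have b2 : rtr (G * (E * (N * H3)) * (B2 * H5 * Q * V * L5 * P)) ≤
      (CE * c * s) * (17 * (3 ^ d * s)) :=
    ((le_abs_self _).trans (SEx_abs _ _)).trans
      (mul_le_mul a3 a4 (hs_nonneg _) ((hs_nonneg _).trans a3))
  rw [e1, rtr_add, e2]
  calc _ ≤ (CE * s) * (17 * c * (3 ^ d * s)) + (CE * c * s) * (17 * (3 ^ d * s)) := add_le_add b1 b2
    _ = _ := by ring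

/-- The algebraic form of the potential term. -/
lemma SEx_T2eq (hp : Pot L u) (hb : TP L 1 (cx b)) (j : Fin d) (θ : ℝ) {m : Ix d L → ℝ}
    (hm : ∀ i, m i = (mom i j + θ) * (1 - sc L 5 i)) {G : Mat d L} (hG : Gᴴ = G) :
    rtr (G * (dg m * mulM L (cx b) * (mulM L (cx b) * cm (ham L u) (dg m)))) =
      rtr (Complex.I • (dg (fun i => 1 - sc L 5 i) * G * dg (fun i => 1 - sc L 5 i) * Pm L j *
        mulM L (cx fun x => b x * b x * pd L j u x))) +
      rtr (G * (dg m * mulM L (cx fun x => b x * b x) *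
        (dg (fun i => mom i j + θ) * cm (mulM L (cx u)) (dg fun i => 1 - sc L 5 i) * Ph d L))) := by
  have hL := hp.big
  have hχ : ∀ i : Ix d L, 1 - sc L 5 i ≠ 0 → ‖mom i‖ ≤ 6 := fun i h => by
    by_contra h6
    exact h (by rw [sc_of_ge (by linarith [not_le.1 h6]), sub_self])
  have hm6 : ∀ i, m i ≠ 0 → ‖mom i‖ ≤ 6 := fun i h =>
    hχ i (right_ne_zero_of_mul (by rwa [hm i] at h))
  have hNQ : dg m = dg (fun i => mom i j + θ) * dg fun i => 1 - sc L 5 i := by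
    rw [dg_mul]; congr 1; funext i; exact hm i
  have hQ : (dg fun i : Ix d L => mom i j + θ) = Pm L j + (θ : ℂ) • (1 : Mat d L) := by
    rw [Pm, ← dg_const, dg_add]
  have hUQ : cm (mulM L (cx u)) (dg fun i => mom i j + θ) = Complex.I • mulM L (cx (pd L j u)) := by
    rw [hQ, cm_add_right, cm_smul_right, cm_one, smul_zero, add_zero, cm_mulM_Pm hp.c1.cx,
      pd_cx hp.c1]
  have hPN : Ph d L * dg m = dg m * Ph d L := SEx_dg_comm _ _
  have hH : cm (ham L u) (dg m) = Ph d L * cm (mulM L (cx u)) (dg m) * Ph d L := by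
    rw [ham, cm_add_left, cm_dg_dg, zero_add, Wop, cm, cm, Matrix.mul_sub, Matrix.sub_mul]
    refine congrArg₂ (fun x y => x - y) ?_ ?_
    · rw [Matrix.mul_assoc _ (Ph d L) (dg m), hPN]; simp only [Matrix.mul_assoc]
    · simp only [← Matrix.mul_assoc]; rw [hPN]
  have hUN : cm (mulM L (cx u)) (dg m) =
      Complex.I • (mulM L (cx (pd L j u)) * dg fun i => 1 - sc L 5 i) +
        dg (fun i => mom i j + θ) * cm (mulM L (cx u)) (dg fun i => 1 - sc L 5 i) := by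
    rw [hNQ, cm_mul_right, hUQ, Matrix.smul_mul]
  have hXP : (dg fun i : Ix d L => 1 - sc L 5 i) * Ph d L = dg fun i => 1 - sc L 5 i := by
    rw [← SEx_Ph_dg hχ]
    conv_rhs => rw [SEx_Ph_dg hχ, ← SEx_Ph_dg hχ]
    rw [SEx_Ph_dg hχ]
    exact (SEx_dg_comm _ _).trans (SEx_Ph_dg hχ)
  have hM : dg m * mulM L (cx fun x => b x * b x) * mulM L (cx (pd L j u)) =
      dg m * mulM L (cx fun x => b x * b x * pd L j u x) := by
    rw [mulM_mul_left hL (SEx_TP2 hb) (continuous_cx (hp.c1.cpd j))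
      fun i h => by linarith [hm6 i h], SEx_cx_mul]
  have hBB := SEx_BB hL hb hm6
  have hBP := SEx_Ph_right (SEx_TP2 hb) hm6
  have hXQ : dg m = (dg fun i => 1 - sc L 5 i) * (Pm L j + (θ : ℂ) • (1 : Mat d L)) := by
    rw [hNQ, SEx_dg_comm, hQ]
  have hMh : (mulM L (cx fun x => b x * b x * pd L j u x))ᴴ = _ := mulM_cx_conjT _
  have hXh : (dg fun i : Ix d L => 1 - sc L 5 i)ᴴ = _ := dg_conjT _
  rw [hH, hUN]
  generalize cm (mulM L (cx u)) (dg fun i => 1 - sc L 5 i) = V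
  generalize mulM L (cx fun x => b x * b x * pd L j u x) = M at hM hMh ⊢
  generalize mulM L (cx fun x => b x * b x) = B2 at hM hBB hBP ⊢
  generalize mulM L (cx (pd L j u)) = Uj at hM ⊢
  generalize (dg fun i : Ix d L => mom i j + θ) = Q
  generalize (dg fun i : Ix d L => 1 - sc L 5 i) = X at hXP hXQ hXh ⊢
  generalize dg m = N at hM hBB hBP hXQ ⊢
  generalize mulM L (cx b) = B at hBB ⊢
  generalize Ph d L = P at hXP hBP ⊢
  have e1 : N * B * (B * (P * (Complex.I • (Uj * X) + Q * V) * P)) =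
      Complex.I • (N * M * X) + N * B2 * (Q * V * P) := by
    calc N * B * (B * (P * (Complex.I • (Uj * X) + Q * V) * P))
        = (N * B * B * P) * ((Complex.I • (Uj * X) + Q * V) * P) := by
          simp only [Matrix.mul_assoc]
      _ = Complex.I • (N * B2 * Uj * (X * P)) + N * B2 * (Q * V * P) := by
          rw [hBB, hBP]
          simp only [Matrix.mul_add, Matrix.add_mul, Matrix.mul_smul, Matrix.smul_mul,
            Matrix.mul_assoc]
      _ = _ := by rw [hM, hXP]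
  rw [e1, Matrix.mul_add, rtr_add]
  refine congrArg₂ (fun x y => x + y) ?_ rfl
  have hY : (X * G * X)ᴴ = X * G * X := by
    simp only [conjTranspose_mul, hXh, hG, Matrix.mul_assoc]
  have e2 : X * (G * (N * M)) = X * G * X * Pm L j * M + (θ : ℂ) • (X * G * X * M) := by
    rw [hXQ]
    simp only [Matrix.mul_add, Matrix.add_mul, Matrix.mul_smul, Matrix.smul_mul,
      Matrix.mul_assoc, Matrix.mul_one]
  rw [Matrix.mul_smul, ← Matrix.mul_assoc G, SEx_smul_comm, e2, smul_add, rtr_add, smul_comm,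
    rtr_smul, SEx_I hY hMh, mul_zero, add_zero]

lemma SEx_sqrt {a b c C : ℝ} (hC : 1 ≤ C) (ha : 0 ≤ a) (h : √c ≤ √b + √(C * 1 ^ 2 * a)) :
    √a * √c ≤ √a * √b + C * a := by
  have h1 : √(C * 1 ^ 2 * a) ≤ C * √a := by
    rw [one_pow, mul_one, Real.sqrt_mul (by linarith)]
    refine mul_le_mul_of_nonneg_right ?_ (Real.sqrt_nonneg _)
    rw [Real.sqrt_le_left (by linarith)]
    nlinarith
  have h2 : √a * √a = a := Real.mul_self_sqrt ha
  have h3 := Real.sqrt_nonneg a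
  calc √a * √c ≤ √a * (√b + C * √a) := by gcongr; linarith
    _ = √a * √b + C * (√a * √a) := by ring
    _ = _ := by rw [h2]

/-- The main term. -/
theorem SEx_T (d : ℕ) (c : ℝ) : ∃ C : ℝ, 1 ≤ C ∧ ∀ (L : ℝ) (u b : Tor d → ℝ), Pot L u →
    TP L 1 (cx b) → (∀ x, |b x| ≤ 1) → ∀ (f : ℝ → ℝ) (l : ℝ), FOK f l →
    ∀ (m : Ix d L → ℝ) (j : Fin d) (θ : ℝ), 0 ≤ c → (∀ i, |m i| ≤ c) → |θ| ≤ 1 →
    (∀ i, m i = (mom i j + θ) * (1 - sc L 5 i)) →
    rtr (fc f (ham L u) * (mulM L (cx b) * dg m)ᴴ * cm (ham L u) (mulM L (cx b) * dg m)) ≤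
      C * L ^ d * Er L f u (Gr L b) := by
  obtain ⟨CE, hCE, hE⟩ := hiE d
  obtain ⟨CL, hCL, hloc⟩ := loc d
  refine ⟨1 + c ^ 2 * 9 ^ d + CL + 34 * |c| * CE * 3 ^ d, by
    have : 0 ≤ c ^ 2 * 9 ^ d + CL + 34 * |c| * CE * 3 ^ d := by positivity
    linarith, ?_⟩
  intro L u b hp hb hb1 f l hf m j θ hc hmc hθ hm
  have hL := hp.big
  have hD : 0 < L ^ d := pow_pos hL.pos d
  have hH := ham_herm L u
  have hχ : ∀ i : Ix d L, 1 - sc L 5 i ≠ 0 → ‖mom i‖ ≤ 6 := fun i h => by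
    by_contra h6
    exact h (by rw [sc_of_ge (by linarith [not_le.1 h6]), sub_self])
  have hm6 : ∀ i, m i ≠ 0 → ‖mom i‖ ≤ 6 := fun i h =>
    hχ i (right_ne_zero_of_mul (by rwa [hm i] at h))
  have hG : (fc f (ham L u))ᴴ = fc f (ham L u) := fc_conjT _ _
  have hG1 : OpB (fc f (ham L u)) 1 := hp.fc_opB hf.van
  have e0 : fc f (ham L u) * (mulM L (cx b) * dg m)ᴴ * cm (ham L u) (mulM L (cx b) * dg m) =
      fc f (ham L u) * (dg m * mulM L (cx b) * cm (ham L u) (mulM L (cx b)) * dg m) +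
      fc f (ham L u) * (dg m * mulM L (cx b) * (mulM L (cx b) * cm (ham L u) (dg m))) := by
    rw [conjTranspose_mul, dg_conjT, mulM_cx_conjT, cm_mul_right]
    simp only [Matrix.mul_add, Matrix.mul_assoc]
  have hXh : (dg fun i : Ix d L => 1 - sc L 5 i)ᴴ = _ := dg_conjT _
  have hY : ((dg fun i : Ix d L => 1 - sc L 5 i) * fc f (ham L u) * dg fun i => 1 - sc L 5 i)ᴴ =
      (dg fun i : Ix d L => 1 - sc L 5 i) * fc f (ham L u) * dg fun i => 1 - sc L 5 i := by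
    simp only [conjTranspose_mul, hXh, hG, Matrix.mul_assoc]
  have t1 := SEx_T1 hp hb hc hmc hm6 hG hG1
  have t2 := SEx_T2a hp hb hb1 hY j
  have t3 := SEx_T2b hp hb hb1 (q := fun i => mom i j + θ) hc hmc (fun i => by
    have := abs_mom_le hL i j
    have := abs_add_le (mom i j) θ
    linarith) hG1 (Ep_mul_fc hH hf.zero) (fc_mul_Ep hH hf.zero) (hE L u hp _ (Or.inl rfl))
  have t4 := (hloc L u hp f 1 hf.van (fun i => 1 - sc L 5 i) (fun i => phiS (mom i))
    (sy_one_sub_sc 5).2.1 (fun i => abs_phiS_le _) (fun i h => by rw [sc_of_le h, sub_zero])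
    (fun i h => phiS_eq_one (h.trans (by norm_num))) _ rfl).2.1
  rw [e0, rtr_add, SEx_T2eq hp hb j θ hm hG]
  generalize (dg fun i : Ix d L => 1 - sc L 5 i) * fc f (ham L u) * (dg fun i => 1 - sc L 5 i) =
    Y at t2 t4 ⊢
  change Gr L (fun x => dens Y x - rhoF L u f x) ≤ _ at t4
  have t5 : √(Gr L (dens Y)) ≤ √(Gr L (rhoF L u f)) + √(CL * 1 ^ 2 * Gr L u) := by
    have c1 : C1 L (rhoF L u f) := dens_C1 _
    have := sqrt_Gr_add_le c1 ((dens_C1 Y).sub c1)
    simp only [add_sub_cancel] at this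
    exact this.trans (by gcongr)
  have t6 := mul_le_mul_of_nonneg_left (SEx_sqrt hCL (Gr_nonneg u) t5) hD.le
  have g1 := mul_nonneg hD.le (Gr_nonneg (L := L) u)
  have g2 := mul_nonneg hD.le (Gr_nonneg (L := L) b)
  have g3 : 0 ≤ L ^ d * (√(Gr L u) * √(Gr L (rhoF L u f))) :=
    mul_nonneg hD.le (mul_nonneg (Real.sqrt_nonneg _) (Real.sqrt_nonneg _))
  rw [abs_of_nonneg hc, Er]
  have p1 : 0 ≤ c ^ 2 * 9 ^ d := by positivity
  have p2 : 0 ≤ 34 * c * CE * 3 ^ d := by positivity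
  generalize c ^ 2 * 9 ^ d = k1 at *
  generalize 34 * c * CE * 3 ^ d = k2 at *
  have e1 : (1 + k1 + CL + k2) * L ^ d * (Gr L b + Gr L u + √(Gr L u) * √(Gr L (rhoF L u f))) =
      (1 + k1 + CL + k2) * (L ^ d * Gr L b + L ^ d * Gr L u +
        L ^ d * (√(Gr L u) * √(Gr L (rhoF L u f)))) := by ring
  have e2 : L ^ d * (√(Gr L u) * √(Gr L (rhoF L u f)) + CL * Gr L u) =
      L ^ d * (√(Gr L u) * √(Gr L (rhoF L u f))) + CL * (L ^ d * Gr L u) := by ring
  rw [e1]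
  rw [e2] at t6
  generalize L ^ d * (√(Gr L u) * √(Gr L (rhoF L u f))) = x3 at *
  generalize L ^ d * Gr L u = x1 at *
  generalize L ^ d * Gr L b = x2 at *
  have hCL0 : 0 ≤ CL := by linarith
  linarith [mul_nonneg p1 g1, mul_nonneg p1 g3, mul_nonneg p2 g2, mul_nonneg p2 g3,
    mul_nonneg hCL0 g2, mul_nonneg hCL0 g3]

lemma SEx_amgm (x y : ℝ) : 2 * x * y ≤ x ^ 2 + y * y := by nlinarith [sq_nonneg (x - y)]

lemma SEx_num {x y s t k : ℝ} (hx0 : 0 ≤ x) (hy0 : 0 ≤ y) (hx : x ≤ k * (s + t))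
    (hy : y ≤ k * (s + t)) : x * y ≤ 2 * k ^ 2 * (s ^ 2 + t ^ 2) := by
  have h1 : x * y ≤ (k * (s + t)) * (k * (s + t)) := mul_le_mul hx hy hy0 (hx0.trans hx)
  have h2 : (s + t) ^ 2 ≤ 2 * (s ^ 2 + t ^ 2) := by nlinarith [sq_nonneg (s - t)]
  calc x * y ≤ k ^ 2 * (s + t) ^ 2 := by rw [← mul_pow, sq]; exact h1
    _ ≤ k ^ 2 * (2 * (s ^ 2 + t ^ 2)) := by gcongr
    _ = _ := by ring

/-- The common form of the two bounds. -/
theorem SEx_gen (d : ℕ) (c : ℝ) : ∃ C : ℝ, 1 ≤ C ∧ ∀ (L : ℝ) (u b : Tor d → ℝ), Pot L u →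
    TP L 1 (cx b) → (∀ x, |b x| ≤ 1) → ∀ (f : ℝ → ℝ) (l : ℝ), FOK f l →
    ∀ (m : Ix d L → ℝ) (j : Fin d) (θ : ℝ), Sy m c → |θ| ≤ 1 →
    (∀ i, ‖mom i‖ ≤ 10 → m i = mom i j + θ) →
    ∀ (A : Mat d L), (A = ham L u ∨ ∃ j, A = hamS L j u) → ∀ δ : ℝ, OpB (A - ham L u) δ →
    exS f A (ham L u) (mulM L (cx b) * dg m) ≤
      C * L ^ d * (Er L f u (Gr L b) + δ + (l * δ) ^ 2) := by
  obtain ⟨CE, hCE, hE⟩ := hiE d
  obtain ⟨CH, hCH, hHb⟩ := ham_opB d
  obtain ⟨CB, hCB, hcB⟩ := hs_cm_ham_mulM d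
  obtain ⟨CT, hCT, hT⟩ := SEx_T d c
  obtain ⟨k, hk1, hk2, hk3⟩ : ∃ k : ℝ, CE * |c| ≤ k ∧ |c| * CB ≤ k ∧ 3 ^ d * (2 * |c| * 1) ≤ k :=
    ⟨CE * |c| + |c| * CB + 3 ^ d * (2 * |c| * 1), by
      have : 0 ≤ CE * |c| := by positivity
      have : 0 ≤ |c| * CB := by positivity
      have : 0 ≤ 3 ^ d * (2 * |c| * 1) := by positivity
      refine ⟨?_, ?_, ?_⟩ <;> linarith⟩
  have hk0 : 0 ≤ k := le_trans (by positivity) hk3
  refine ⟨4 * CT + (12 * k ^ 2 + 16 * CH * k ^ 2) + 4 * c ^ 2 * 9 ^ d, by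
    have : 0 ≤ 12 * k ^ 2 + 16 * CH * k ^ 2 := by positivity
    have : 0 ≤ 4 * c ^ 2 * 9 ^ d := by positivity
    linarith, ?_⟩
  intro L u b hp hb hb1 f l hf m j θ hm hθ hm10 A hA δ hδ
  have hc := hm.1
  rw [abs_of_nonneg hc] at hk1 hk2 hk3
  have hL := hp.big
  have hD : 0 < L ^ d := pow_pos hL.pos d
  have hH := ham_herm L u
  have hAh : A.IsHermitian := by
    rcases hA with rfl | ⟨j', rfl⟩
    exacts [hH, hamS_herm L j' u]
  have hAb : OpB A CH := by
    rcases hA with rfl | ⟨j', rfl⟩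
    exacts [(hHb L u hp).1, ((hHb L u hp).2 j').1]
  have hbc := hb.c1_real
  have hB : OpB (mulM L (cx b)) 1 := mulM_opB_real hbc.cont hb1
  have g1 := mul_nonneg hD.le (Gr_nonneg (L := L) u)
  have g2 := mul_nonneg hD.le (Gr_nonneg (L := L) b)
  have q1 := Real.sq_sqrt g1
  have q2 := Real.sq_sqrt g2
  have r1 := Real.sqrt_nonneg (L ^ d * Gr L u)
  have r2 := Real.sqrt_nonneg (L ^ d * Gr L b)
  -- the splitting of the symbol
  have sy1 : Sy (fun i => m i * (1 - sc L 5 i)) (2 * c * 1) := hm.mul (sy_one_sub_sc 5)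
  have sy2 : Sy (fun i => m i * sc L 5 i) (2 * c * 1) := hm.mul (sy_sc 5)
  have bd1 : ∀ i, |m i * (1 - sc L 5 i)| ≤ c := fun i => by
    rw [abs_mul]
    exact (mul_le_of_le_one_right (abs_nonneg _) ((sy_one_sub_sc 5).2.1 i)).trans (hm.2.1 i)
  have bd2 : ∀ i, |m i * sc L 5 i| ≤ c := fun i => by
    rw [abs_mul]
    exact (mul_le_of_le_one_right (abs_nonneg _) ((sy_sc 5).2.1 i)).trans (hm.2.1 i)
  have su2 : ∀ i, m i * sc L 5 i ≠ 0 → 3 ≤ ‖mom i‖ := fun i h => by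
    have := sc_ne (right_ne_zero_of_mul h)
    linarith
  have eq1 : ∀ i, m i * (1 - sc L 5 i) = (mom i j + θ) * (1 - sc L 5 i) := fun i => by
    by_cases h : ‖mom i‖ ≤ 10
    · rw [hm10 i h]
    · rw [sc_of_ge (by linarith [not_le.1 h]), sub_self, mul_zero, mul_zero]
  have hsplit : mulM L (cx b) * dg m = mulM L (cx b) * dg (fun i => m i * (1 - sc L 5 i)) +
      mulM L (cx b) * dg fun i => m i * sc L 5 i := by
    have : m = fun i => m i * (1 - sc L 5 i) + m i * sc L 5 i := by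
      funext i
      ring
    rw [← Matrix.mul_add, dg_add, ← this]
  have tT := hT L u b hp hb hb1 f l hf _ j θ hc bd1 hθ eq1
  have a1 := (hE L u hp A hA _ c hc bd2 su2).1
  have a2 := (hE L u hp _ (Or.inl rfl) _ c hc bd2 su2).2
  have a3 := hs_cm_sy_real hL hbc sy2
  have a4 := hs_cm_sy_real hL hbc sy1
  have a5 := hs_cm_ham hL hp.c1 sy1
  have a6 := (hcB L u b hL hp.c1.cont (fun x => (hp.bd x).trans (by norm_num))
    (hb.mono (by norm_num))).2
  have hN : OpB (dg fun i => m i * (1 - sc L 5 i)) c := opB_dg hc bd1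
  have hNh : (dg fun i => m i * (1 - sc L 5 i))ᴴ = _ := dg_conjT _
  have hBh : (mulM L (cx b))ᴴ = _ := mulM_cx_conjT _
  have hcard := card_le (d := d) hL
  have hscard := sqrt_card_le (d := d) hL
  have hEr : L ^ d * Gr L u + L ^ d * Gr L b ≤ L ^ d * Er L f u (Gr L b) := by
    have : 0 ≤ L ^ d * (√(Gr L u) * √(Gr L (rhoF L u f))) :=
      mul_nonneg hD.le (mul_nonneg (Real.sqrt_nonneg _) (Real.sqrt_nonneg _))
    rw [Er, mul_add, mul_add]
    linarith
  have hHC := (hHb L u hp).1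
  rw [hsplit]
  generalize (dg fun i => m i * (1 - sc L 5 i)) = N at tT a4 a5 hN hNh ⊢
  generalize (dg fun i => m i * sc L 5 i) = R at a1 a2 a3 ⊢
  generalize mulM L (cx b) = B at tT a3 a4 a6 hB hBh ⊢
  generalize ham L u = H at tT a2 a5 a6 hH hδ hHC ⊢
  generalize √(L ^ d * Gr L u) = s at *
  generalize √(L ^ d * Gr L b) = t at *
  have ks : 0 ≤ k * s := mul_nonneg hk0 r1
  have kt : 0 ≤ k * t := mul_nonneg hk0 r2
  have m1 : CE * c * s ≤ k * s := mul_le_mul_of_nonneg_right hk1 r1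
  have m2 : c * CB * t ≤ k * t := mul_le_mul_of_nonneg_right hk2 r2
  have m3 : 3 ^ d * (2 * c * 1) * s ≤ k * s := mul_le_mul_of_nonneg_right hk3 r1
  have m4 : 3 ^ d * (2 * c * 1) * t ≤ k * t := mul_le_mul_of_nonneg_right hk3 r2
  have b1 : hs (B * R * Ep A) ≤ k * (s + t) := by
    have := hB.hs_mul_left (R * Ep A)
    rw [Matrix.mul_assoc, mul_add]
    linarith
  have b2 : hs (Ep H * (B * R)) ≤ k * (s + t) := by
    have e : Ep H * (B * R) = Ep H * R * B - Ep H * cm R B := by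
      rw [cm, Matrix.mul_sub, Matrix.mul_assoc]; abel
    have h1 := hs_sub_le (Ep H * R * B) (Ep H * cm R B)
    have h2 := hB.hs_mul_right (Ep H * R)
    have h3 := (Ep_opB hH).hs_mul_left (cm R B)
    rw [e, mul_add]
    linarith
  have b3 : hs ((B * N)ᴴ - B * N) ≤ k * (s + t) := by
    rw [conjTranspose_mul, hNh, hBh, mul_add]
    change hs (cm N B) ≤ _
    linarith
  have b4 : hs (cm H (B * N)) ≤ k * (s + t) := by
    have h1 := hs_cm_mul (R := H) hB hN
    rw [hs_cm_swap H N] at h1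
    have h2 : c * hs (cm H B) ≤ c * (CB * t) := mul_le_mul_of_nonneg_left a6 hc
    rw [mul_add]
    linarith
  have c1 := SEx_num (hs_nonneg _) (hs_nonneg _) b1 b1
  have c2 := SEx_num (hs_nonneg _) (hs_nonneg _) b2 b2
  have c3 := SEx_num (hs_nonneg _) (hs_nonneg _) b3 b4
  have c4 := SEx_num (hs_nonneg _) (hs_nonneg _) b4 b4
  rw [q1, q2] at c1 c2 c3 c4
  have d1 := exS_add_le hAh hH hf.anti (B * N) (B * R)
  have d2 := exS_crude hAh hH hf hAb hHC (B * R)
  have d3 := exS_single hAh hH hf hδ (hB.mul hN)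
  have hδ0 := hδ.nonneg
  have hl0 : 0 ≤ l := le_trans zero_le_one hf.one_le
  have hCH0 : 0 ≤ CH := by linarith
  have hE0 : 0 ≤ L ^ d * Er L f u (Gr L b) := by linarith
  have k2 : 0 ≤ k ^ 2 := sq_nonneg k
  have f1 : k ^ 2 * (L ^ d * Gr L u + L ^ d * Gr L b) ≤ k ^ 2 * (L ^ d * Er L f u (Gr L b)) :=
    mul_le_mul_of_nonneg_left hEr k2
  have f2 : 2 * CH * (hs (B * R * Ep A) ^ 2 + hs (Ep H * (B * R)) ^ 2) ≤
      2 * CH * (4 * (k ^ 2 * (L ^ d * Er L f u (Gr L b)))) := by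
    refine mul_le_mul_of_nonneg_left ?_ (by positivity)
    rw [sq, sq (hs _)]
    linarith
  have h69 : (6 : ℝ) ^ d ≤ 9 ^ d := pow_le_pow_left₀ (by norm_num) (by norm_num) d
  have f3 : 2 * (1 * c) ^ 2 * δ * (Fintype.card (Ix d L) : ℝ) ≤
      2 * (c ^ 2 * 9 ^ d * (L ^ d * δ)) := by
    calc _ ≤ 2 * (1 * c) ^ 2 * δ * (9 ^ d * L ^ d) := by
          refine mul_le_mul_of_nonneg_left (hcard.trans ?_) (by positivity)
          gcongr
      _ = _ := by ring
  have f4 : 2 * l * δ * √(Fintype.card (Ix d L) : ℝ) * (1 * c) * hs (cm H (B * N)) ≤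
      c ^ 2 * 9 ^ d * (L ^ d * (l * δ) ^ 2) + hs (cm H (B * N)) * hs (cm H (B * N)) := by
    have h0 := hs_nonneg (cm H (B * N))
    have h1 : 2 * l * δ * √(Fintype.card (Ix d L) : ℝ) * (1 * c) * hs (cm H (B * N)) ≤
        2 * l * δ * (3 ^ d * √(L ^ d)) * (1 * c) * hs (cm H (B * N)) := by gcongr
    have h2 : (l * δ * (3 ^ d * √(L ^ d)) * c) ^ 2 = c ^ 2 * 9 ^ d * (L ^ d * (l * δ) ^ 2) := by
      have h9 : ((3 : ℝ) ^ d) ^ 2 = 9 ^ d := by
        rw [← pow_mul, mul_comm d 2, pow_mul]; norm_num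
      rw [mul_pow, mul_pow, mul_pow (3 ^ d), Real.sq_sqrt hD.le, h9]
      ring
    rw [← h2]
    have h3 := SEx_amgm (l * δ * (3 ^ d * √(L ^ d)) * c) (hs (cm H (B * N)))
    refine h1.trans (le_of_eq_of_le ?_ h3)
    ring
  have x1 : 0 ≤ L ^ d * δ := by positivity
  have x2 : 0 ≤ L ^ d * (l * δ) ^ 2 := by positivity
  have p1 : 0 ≤ c ^ 2 * 9 ^ d := by positivity
  have p2 : 0 ≤ CH * k ^ 2 := by positivity
  have hCT0 : 0 ≤ CT := by linarith
  have e : (4 * CT + (12 * k ^ 2 + 16 * CH * k ^ 2) + 4 * c ^ 2 * 9 ^ d) * L ^ d *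
      (Er L f u (Gr L b) + δ + (l * δ) ^ 2) =
      (4 * CT + (12 * k ^ 2 + 16 * (CH * k ^ 2)) + 4 * (c ^ 2 * 9 ^ d)) *
      (L ^ d * Er L f u (Gr L b) + L ^ d * δ + L ^ d * (l * δ) ^ 2) := by ring
  rw [e]
  rw [mul_assoc CT] at tT
  generalize L ^ d * Er L f u (Gr L b) = y0 at *
  generalize L ^ d * δ = y1 at *
  generalize L ^ d * (l * δ) ^ 2 = y2 at *
  generalize c ^ 2 * 9 ^ d = k1 at *
  have z1 := mul_nonneg p1 hE0
  have z2 := mul_nonneg p1 x2
  have z3 := mul_nonneg p2 x1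
  have z4 := mul_nonneg p2 x2
  have z5 := mul_nonneg k2 x1
  have z6 := mul_nonneg k2 x2
  have z7 := mul_nonneg hCT0 x1
  have z8 := mul_nonneg hCT0 x2
  linarith

/-- The excitation sum of a weighted momentum, one Hamiltonian. -/
theorem exB0 (d : ℕ) (c : ℝ) : ∃ C : ℝ, 1 ≤ C ∧ ∀ (L : ℝ) (u b : Tor d → ℝ), Pot L u →
    TP L 1 (cx b) → (∀ x, |b x| ≤ 1) → ∀ (f : ℝ → ℝ) (l : ℝ), FOK f l →
    ∀ (m : Ix d L → ℝ) (j : Fin d) (θ : ℝ), Sy m c → |θ| ≤ 1 →
    (∀ i, ‖mom i‖ ≤ 10 → m i = mom i j + θ) →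
    exS f (ham L u) (ham L u) (mulM L (cx b) * dg m) ≤ C * L ^ d * Er L f u (Gr L b) := by
  obtain ⟨C, hC, h⟩ := SEx_gen d c
  refine ⟨C, hC, fun L u b hp hb hb1 f l hf m j θ hm hθ hm10 => ?_⟩
  have := h L u b hp hb hb1 f l hf m j θ hm hθ hm10 _ (Or.inl rfl) 0 (by
    rw [sub_self]; exact opB_zero)
  simpa using this

/-- The excitation sum of a weighted momentum, shifted Hamiltonian. -/
theorem exB1 (d : ℕ) (c : ℝ) : ∃ C : ℝ, 1 ≤ C ∧ ∀ (L : ℝ) (u b : Tor d → ℝ), Pot L u →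
    TP L 1 (cx b) → (∀ x, |b x| ≤ 1) → ∀ (f : ℝ → ℝ) (l : ℝ), FOK f l → l * kap L ≤ 1 →
    ∀ (m : Ix d L → ℝ) (j j' : Fin d) (θ : ℝ), Sy m c → |θ| ≤ 1 →
    (∀ i, ‖mom i‖ ≤ 10 → m i = mom i j + θ) →
    exS f (hamS L j' u) (ham L u) (mulM L (cx b) * dg m) ≤
      C * L ^ d * (Er L f u (Gr L b) + l * kap L) := by
  obtain ⟨C, hC, h⟩ := SEx_gen d c
  obtain ⟨CH, hCH, hHb⟩ := ham_opB d
  have hK : 1 ≤ CH + CH ^ 2 := by nlinarith
  refine ⟨C * (CH + CH ^ 2), by nlinarith, ?_⟩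
  intro L u b hp hb hb1 f l hf hl m j j' θ hm hθ hm10
  have h1 := h L u b hp hb hb1 f l hf m j θ hm hθ hm10 _ (Or.inr ⟨j', rfl⟩) _
    ((hHb L u hp).2 j').2
  have hD : 0 < L ^ d := pow_pos hp.big.pos d
  have hκ := kap_pos hp.big.pos
  have hl1 := hf.one_le
  have hE : 0 ≤ Er L f u (Gr L b) := by
    have := Gr_nonneg (L := L) u
    have := Gr_nonneg (L := L) b
    rw [Er]
    positivity
  have hlk : 0 ≤ l * kap L := by positivity
  have a1 : kap L ≤ l * kap L := le_mul_of_one_le_left hκ.le hl1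
  have a2 : (l * kap L) ^ 2 ≤ l * kap L := by nlinarith
  have a3 : CH * kap L ≤ CH * (l * kap L) := by gcongr
  have a4 : (l * (CH * kap L)) ^ 2 ≤ CH ^ 2 * (l * kap L) := by
    calc (l * (CH * kap L)) ^ 2 = CH ^ 2 * (l * kap L) ^ 2 := by ring
      _ ≤ _ := by gcongr
  have a5 : Er L f u (Gr L b) ≤ (CH + CH ^ 2) * Er L f u (Gr L b) := le_mul_of_one_le_left hE hK
  calc _ ≤ _ := h1
    _ ≤ C * L ^ d * ((CH + CH ^ 2) * (Er L f u (Gr L b) + l * kap L)) := by
        refine mul_le_mul_of_nonneg_left ?_ (by positivity)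
        linarith
    _ = _ := by ring

end Pool.Agent.Lib.MP_ae5e3b_mp.Sh
end

-- part Pool.Agent.Lib.MP_ae5e3b_mp.SRes
section

open MeasureTheory Matrix Real
open scoped ComplexConjugate ComplexOrder

set_option linter.unusedSectionVars false

namespace Pool.Agent.Lib.MP_ae5e3b_mp.Sh

section Aux
variable {d : ℕ} {L : ℝ} {u : Tor d → ℝ}

lemma SRes_orb_sum {ι : Type} (s : Finset ι) (Y : ι → Mat d L) (a : Ix d L) (x : Tor d) :
    orb (∑ r ∈ s, Y r) a x = ∑ r ∈ s, orb (Y r) a x := by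
  classical
  induction s using Finset.induction_on with
  | empty => simpa using orb_smul 0 (0 : Mat d L) a x
  | insert r s hr ih => rw [Finset.sum_insert hr, Finset.sum_insert hr, orb_add, ih]

lemma SRes_lap (Y : Mat d L) (a : Ix d L) (x : Tor d) :
    -∑ r, pd L r (pd L r (orb Y a)) x = orb (dg (fun i => ∑ r, mom i r * mom i r) * Y) a x := by
  rw [← dg_sum, Finset.sum_mul, SRes_orb_sum, ← Finset.sum_neg_distrib]
  refine Finset.sum_congr rfl fun r _ => ?_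
  rw [pd_orb, pd_orb, Matrix.mul_smul, smul_smul, orb_smul, Complex.I_mul_I, ← dg_mul, Matrix.mul_assoc]
  simp [Pm]

lemma SRes_P6_Ph : P6 d L * Ph d L = P6 d L := by
  rw [P6, Ph, dg_mul]
  congr 1; ext i
  by_cases h : lo L 6 i = 0
  · rw [h, zero_mul]
  · rw [phiS_eq_one ((lo_ne h).trans (by norm_num)), mul_one]

lemma SRes_kin : dg (fun i : Ix d L => ∑ r, mom i r * mom i r) * P6 d L - P6 d L =
    P6 d L * dg fun i => epsS (mom i) - 1 := by
  rw [P6, dg_mul, dg_mul, dg_sub]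
  congr 1; ext i
  by_cases h : lo L 6 i = 0
  · simp [h]
  · rw [epsS_eq ((lo_ne h).trans (by norm_num))]
    simp only [sq]; ring

lemma SRes_hi : dg (hi L 6) = 1 - P6 d L := by rw [P6, ← dg_one, dg_sub]; rfl

lemma SRes_hs (hp : Pot L u) {C : ℝ} (hE : ∀ m : Ix d L → ℝ, (∀ i, |m i| ≤ 1) →
    (∀ i, m i ≠ 0 → 3 ≤ ‖mom i‖) → hs (dg m * Ep (ham L u)) ≤ C * √(L ^ d * Gr L u)) :
    hs ((mulM L (cx u) * P6 d L - P6 d L * Wop L u) * Ep (ham L u)) ≤
      (3 ^ d + 2 * C) * √(L ^ d * Gr L u) := by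
  have bU : OpB (mulM L (cx u)) 1 := (mulM_opB_real hp.c1.cont hp.bd).mono (by norm_num)
  have k : ∀ m : Ix d L → ℝ, (∀ i, 0 ≤ m i) → (∀ i, m i ≤ 1) → (∀ i, ‖mom i‖ ≤ 4 → m i = 1) →
      hs ((dg m - dg fun i => 1 - sc L 4 i) * Ep (ham L u)) ≤ C * √(L ^ d * Gr L u) :=
    fun m h0 h1 h => by
    rw [dg_sub]
    refine hE _ (fun i => abs_le.2 ⟨?_, ?_⟩) fun i hi => ?_
    · linarith [h0 i, sc_nonneg (L := L) 4 i]
    · linarith [h1 i, sc_le_one (L := L) 4 i]
    · by_contra h2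
      have : ‖mom i‖ ≤ 4 := by linarith
      exact hi (by rw [h i this, sc_of_le this]; ring)
  have l0 : ∀ i : Ix d L, 0 ≤ lo L 6 i := fun i => by unfold lo; split_ifs <;> norm_num
  have a1 := bU.hs_mul_left ((P6 d L - dg fun i => 1 - sc L 4 i) * Ep (ham L u))
  have a2 := (P6_opB.mul bU).hs_mul_left ((Ph d L - dg fun i => 1 - sc L 4 i) * Ep (ham L u))
  have a3 := (Ep_opB (ham_herm L u)).hs_mul_right (dg (hi L 6) * mulM L (cx u) * dg fun i => 1 - sc L 4 i)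
  have b1 := k (lo L 6) l0 (fun i => (le_abs_self _).trans (abs_lo_le _ _))
    fun i h => lo_of_le (by linarith)
  have b2 := k (fun i => phiS (mom i)) (fun _ => phiS_nonneg _) (fun _ => phiS_le_one _)
    fun i h => phiS_eq_one (by linarith)
  have b3 := hs_off hp.big hp.c1.cx (abs_hi_le 6) (sy_one_sub_sc 4).2.1 one_pos fun i j h1 h2 => by
    have : ‖mom j‖ < 4 + 1 := not_le.1 fun h => h2 (by rw [sc_of_ge h, sub_self])
    linarith [hi_ne h1, norm_sub_norm_le (mom i) (mom j)]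
  rw [Gr_cx hp.c1, div_one] at b3
  rw [Wop, ← Matrix.mul_assoc, ← Matrix.mul_assoc, SRes_P6_Ph]
  rw [SRes_hi] at a3 b3
  change hs ((P6 d L - _) * _) ≤ _ at b1
  change hs ((Ph d L - _) * _) ≤ _ at b2
  generalize (dg fun i => 1 - sc L 4 i) = X at *
  have e : (mulM L (cx u) * P6 d L - P6 d L * mulM L (cx u) * Ph d L) * Ep (ham L u) =
      (1 - P6 d L) * mulM L (cx u) * X * Ep (ham L u) + mulM L (cx u) * ((P6 d L - X) * Ep (ham L u)) -
        P6 d L * mulM L (cx u) * ((Ph d L - X) * Ep (ham L u)) := by noncomm_ring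
  rw [e]
  refine (hs_sub_le _ _).trans ((add_le_add_left (hs_add_le _ _) _).trans ?_)
  linarith

lemma SRes_cm (hp : Pot L u) {b : Tor d → ℝ} (hb : C1 L b) (hb1 : ∀ x, |b x| ≤ 1)
    {m₁ m₂ m₃ : Ix d L → ℝ} (h1 : ∀ i, |m₁ i| ≤ 1) (h2 : ∀ i, |m₂ i| ≤ 1) (h3 : ∀ i, |m₃ i| ≤ 1) :
    OpB (dg m₁ * mulM L (cx u) * dg m₂ * mulM L (cx b) * dg m₃) 1 ∧
    hs (cm (dg (sc L 3)) (dg m₁ * mulM L (cx u) * dg m₂ * mulM L (cx b) * dg m₃)) ≤
      3 ^ d * (√(L ^ d * Gr L u) + √(L ^ d * Gr L b)) := by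
  have bU : OpB (mulM L (cx u)) 1 := (mulM_opB_real hp.c1.cont hp.bd).mono (by norm_num)
  have bB : OpB (mulM L (cx b)) 1 := mulM_opB_real hb.cont hb1
  have d1 := opB_dg zero_le_one h1
  have d2 := opB_dg zero_le_one h2
  have d3 := opB_dg zero_le_one h3
  have a1 := hs_cm_mul (R := dg (sc L 3)) d1 bU
  have a2 := hs_cm_mul (R := dg (sc L 3)) (d1.mul bU) d2
  have a3 := hs_cm_mul (R := dg (sc L 3)) ((d1.mul bU).mul d2) bB
  have a4 := hs_cm_mul (R := dg (sc L 3)) (((d1.mul bU).mul d2).mul bB) d3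
  have b1 := hs_cm_sy_real hp.big hp.c1 (sy_sc 3)
  have b2 := hs_cm_sy_real hp.big hb (sy_sc 3)
  simp only [cm_dg_dg, hs_zero, mul_one, one_mul, mul_zero, add_zero, zero_add] at a1 a2 a3 a4 b1 b2
  exact ⟨by simpa using (((d1.mul bU).mul d2).mul bB).mul d3, by linarith⟩

lemma SRes_split (hL : Big L) (hu : Continuous u) {b : Tor d → ℝ} (hb : TP L 1 (cx b)) :
    P6 d L * mulM L (fun x => cx u x * cx b x) * P6 d L - Wop L u * P6 d L * mulM L (cx b) * P6 d L =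
      dg (lo L 6) * mulM L (cx u) * dg (hi L 6) * mulM L (cx b) * dg (fun _ => 1) *
        dg (fun i => hi L 5 i * lo L 6 i) +
      dg (fun i => lo L 6 i - phiS (mom i)) *
        (dg (fun _ => 1) * mulM L (cx u) * dg (lo L 6) * mulM L (cx b) * dg (lo L 6)) := by
  have e1 := mulM_mul_right hL hb (continuous_cx hu) (m := lo L 6) fun i h => by linarith [lo_ne h]
  have e2 := dg_mulM_dg zero_le_one hb (m := hi L 6) (m' := hi L 5) fun i j h => by
    by_cases h1 : hi L 6 i = 0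
    · rw [h1, zero_mul]
    · rw [hi_of_lt (t := 5) (by linarith [hi_ne h1, norm_sub_norm_le (mom i) (mom j)]), mul_one]
  have e3 : Ph d L * P6 d L = P6 d L := by
    simpa only [conjTranspose_mul, P6_conjT, Ph_conjT] using congrArg conjTranspose SRes_P6_Ph
  rw [← dg_mul, ← dg_sub, dg_one, Matrix.mul_one, Matrix.one_mul, ← Matrix.mul_assoc _ (dg (hi L 5)),
    Matrix.mul_assoc _ (dg (hi L 6)), Matrix.mul_assoc _ _ (dg (hi L 5)), e2, SRes_hi, Wop,
    Matrix.mul_assoc _ (Ph d L), e3, Matrix.mul_assoc (P6 d L), P6, ← e1]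
  change _ = _ + (_ - Ph d L) * _
  noncomm_ring

lemma SRes_l2 {ι : Type} [Fintype ι] {p q : ι → Tor d → ℂ} (hp : ∀ a, Continuous (p a))
    (hq : ∀ a, Continuous (q a)) : ∑ a, ∫ x, ‖p a x + q a x‖ ^ 2 ≤
      2 * (∑ a, ∫ x, ‖p a x‖ ^ 2) + 2 * ∑ a, ∫ x, ‖q a x‖ ^ 2 := by
  rw [Finset.mul_sum, Finset.mul_sum, ← Finset.sum_add_distrib]
  refine Finset.sum_le_sum fun a _ => ?_
  have := hp a
  have := hq a
  rw [← integral_const_mul, ← integral_const_mul,
    ← integral_add (cont_int (by fun_prop)) (cont_int (by fun_prop))]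
  refine integral_mono (cont_int (by fun_prop)) (cont_int (by fun_prop)) fun x => ?_
  nlinarith [pow_le_pow_left₀ (norm_nonneg _) (norm_add_le (p a x) (q a x)) 2,
    sq_nonneg (‖p a x‖ - ‖q a x‖)]

lemma SRes_pair (hL : 0 < L) (hu : Continuous u) {b : Tor d → ℝ} (hb : Continuous b) (Y Z : Mat d L) :
    ∑ a, ∫ x, b x * (conj (u x * orb Y a x - orb Z a x) * orb Y a x).re = (L ^ d)⁻¹ *
      (trace (Yᴴ * mulM L (fun x => cx u x * cx b x) * Y) - trace (Zᴴ * mulM L (cx b) * Y)).re := by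
  have cu := continuous_cx hu
  have cb := continuous_cx hb
  have i1 : ∀ (Z : Mat d L) (g : Tor d → ℂ), Continuous g → ∀ a,
      Integrable fun x => conj (orb Z a x) * (g x * orb Y a x) := fun Z g hg a =>
    cont_int ((orb_C1 Z a).cj.cont.mul (hg.mul (orb_C1 Y a).cont))
  have c : Continuous fun x => cx u x * cx b x := cu.mul cb
  rw [← Complex.re_ofReal_mul, mul_sub, ← orb_pair hL Y Y c, ← orb_pair hL Z Y cb,
    ← Finset.sum_sub_distrib, Complex.re_sum]
  refine Finset.sum_congr rfl fun a _ => ?_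
  rw [← integral_sub (i1 _ _ c a) (i1 _ _ cb a)]
  refine Eq.trans ?_ (integral_re ((i1 Y _ c a).sub (i1 Z _ cb a)))
  refine integral_congr_ae (ae_of_all _ fun x => ?_)
  simp only [Pi.sub_apply, cx, RCLike.re_to_complex, ← Complex.re_ofReal_mul, map_sub, map_mul, Complex.conj_ofReal,
    ← Complex.sub_re]
  congr 1; ring

end Aux

/-- The orbitals solve the Schroedinger equation up to a small residual. -/
theorem res (d : ℕ) : ∃ C : ℝ, 1 ≤ C ∧ ∀ (L : ℝ) (u : Tor d → ℝ), Pot L u →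
    ∀ (f : ℝ → ℝ) (l : ℝ), FOK f l → ∃ R : Ix d L → Tor d → ℂ, (∀ a, Continuous (R a)) ∧
    (∀ a x, -∑ r, pd L r (pd L r (orb (Yf L u f) a)) x + ((u x - 1 : ℝ) : ℂ) * orb (Yf L u f) a x =
      orb (Zf L u f) a x + R a x) ∧
    ∑ a, ∫ x, ‖R a x‖ ^ 2 ≤ C * Gr L u ∧
    ∀ b : Tor d → ℝ, TP L 1 (cx b) → (∀ x, |b x| ≤ 1) →
      |∑ a, ∫ x, b x * (conj (R a x) * orb (Yf L u f) a x).re| ≤ C * (Gr L b + Gr L u) := by
  obtain ⟨C₁, hC₁, h1⟩ := hiE d
  obtain ⟨C₂, hC₂, h2⟩ := sand d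
  have p3 : (1 : ℝ) ≤ 3 ^ d := one_le_pow₀ (by norm_num)
  have p6 : (1 : ℝ) ≤ 6 ^ d := one_le_pow₀ (by norm_num)
  have q1 : 0 ≤ 2 * (3 ^ d + 2 * C₁) ^ 2 := by positivity
  have q2 : 0 ≤ 4 * C₂ * (3 ^ d + 1) := by positivity
  refine ⟨2 * 6 ^ d + 2 * (3 ^ d + 2 * C₁) ^ 2 + 4 * C₂ * (3 ^ d + 1), by linarith, fun L u hp f l hf =>
    ⟨fun a x => u x * orb (Yf L u f) a x - orb (P6 d L * Wop L u * fc (fun t => √(f t)) (ham L u)) a x,
      fun a => ((continuous_cx hp.c1.cont).mul (orb_C1 _ _).cont).sub (orb_C1 _ _).cont,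
      fun a x => ?_, ?_, fun b hb hb1 => ?_⟩⟩
  · have e : dg (fun i => ∑ r, mom i r * mom i r) * Yf L u f - Yf L u f =
        Zf L u f - P6 d L * Wop L u * fc (fun t => √(f t)) (ham L u) := by
      rw [Yf, Zf, ← self_mul_fc (ham_herm L u), ← Matrix.mul_assoc, ← Matrix.mul_assoc, ← Matrix.sub_mul,
        ← Matrix.sub_mul, SRes_kin, ← Matrix.mul_sub, ham, add_sub_cancel_right]
    have := congrArg (fun M => orb M a x) e
    simp only [orb_sub] at this
    rw [SRes_lap]; push_cast; linear_combination this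
  · have hL := hp.big.pos
    have D0 : 0 < L ^ d := pow_pos hL d
    have G0 := Gr_nonneg (L := L) u
    have bY : OpB (fc (fun t => √(f t)) (ham L u)) 1 := fc_opB' (ham_herm L u) zero_le_one fun t => by
      rw [abs_of_nonneg (sqrt_nonneg _)]; exact sqrt_le_one.2 (hf.le_one t)
    have a1 := out_box hp.big hp.c1.cx (abs_lo_le 6) (fun i h => (lo_ne h).trans (by norm_num)) bY
    have a2 := orb_l2 hL ((mulM L (cx u) * P6 d L - P6 d L * Wop L u) * fc (fun t => √(f t)) (ham L u))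
    have a3 := bY.hs_mul_right ((mulM L (cx u) * P6 d L - P6 d L * Wop L u) * Ep (ham L u))
    rw [Matrix.mul_assoc, Ep_mul_fc (ham_herm L u) fun t ht => by rw [hf.zero t ht, sqrt_zero],
      one_mul] at a3
    have a4 := pow_le_pow_left₀ (hs_nonneg _) (a3.trans (SRes_hs hp fun m hm hm' => by
      simpa using (h1 L u hp _ (Or.inl rfl) m 1 zero_le_one hm hm').1)) 2
    rw [mul_pow, sq_sqrt (mul_nonneg D0.le G0)] at a4
    rw [Gr_cx hp.c1, one_pow, mul_one] at a1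
    have a5 : (L ^ d)⁻¹ * hs ((mulM L (cx u) * P6 d L - P6 d L * Wop L u) *
        fc (fun t => √(f t)) (ham L u)) ^ 2 ≤ (3 ^ d + 2 * C₁) ^ 2 * Gr L u := by
      rw [inv_mul_le_iff₀ D0]; linarith
    rw [← a2] at a5
    have c1 : ∀ a, Continuous fun x => cx u x * orb (dg (lo L 6) * fc (fun t => √(f t)) (ham L u)) a x -
        orb (mulM L (cx u) * (dg (lo L 6) * fc (fun t => √(f t)) (ham L u))) a x := fun a =>
      ((continuous_cx hp.c1.cont).mul (orb_C1 _ _).cont).sub (orb_C1 _ _).cont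
    have c2 := fun a => (orb_C1 ((mulM L (cx u) * P6 d L - P6 d L * Wop L u) *
      fc (fun t => √(f t)) (ham L u)) a).cont
    have e : ∀ a x, u x * orb (Yf L u f) a x -
        orb (P6 d L * Wop L u * fc (fun t => √(f t)) (ham L u)) a x =
        (cx u x * orb (dg (lo L 6) * fc (fun t => √(f t)) (ham L u)) a x -
        orb (mulM L (cx u) * (dg (lo L 6) * fc (fun t => √(f t)) (ham L u))) a x) +
        orb ((mulM L (cx u) * P6 d L - P6 d L * Wop L u) * fc (fun t => √(f t)) (ham L u)) a x :=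
      fun a x => by rw [Matrix.sub_mul, orb_sub, Matrix.mul_assoc (mulM L (cx u)), Yf, P6, cx]; ring
    simp only [e]
    linarith [SRes_l2 c1 c2, mul_nonneg q2 G0]
  · have hL := hp.big.pos
    have D0 : 0 < L ^ d := pow_pos hL d
    have e : ∑ a, ∫ x, b x * (conj (u x * orb (Yf L u f) a x - orb (P6 d L * Wop L u *
        fc (fun t => √(f t)) (ham L u)) a x) * orb (Yf L u f) a x).re = (L ^ d)⁻¹ *
        (trace (fc f (ham L u) * (P6 d L * mulM L (fun x => cx u x * cx b x) * P6 d L -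
          Wop L u * P6 d L * mulM L (cx b) * P6 d L))).re := by
      have e2 : fc (fun t => √(f t)) (ham L u) * fc (fun t => √(f t)) (ham L u) = fc f (ham L u) := by
        rw [fc_mul (ham_herm L u)]
        simp only [mul_self_sqrt (hf.nonneg _)]
      have e3 : ∀ M : Mat d L, trace (fc f (ham L u) * (M * P6 d L)) =
          trace (fc (fun t => √(f t)) (ham L u) * M * Yf L u f) := fun M => by
        rw [← e2, Yf, Matrix.mul_assoc, trace_mul_comm]
        simp only [Matrix.mul_assoc]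
      have e4 : (Yf L u f)ᴴ = fc (fun t => √(f t)) (ham L u) * P6 d L := by
        rw [Yf, conjTranspose_mul, P6_conjT, fc_conjT]
      rw [Matrix.mul_sub, trace_sub, e3, e3, SRes_pair hL hp.c1.cont hb.c1_real.cont, e4,
        conjTranspose_mul, conjTranspose_mul, P6_conjT, fc_conjT, Wop_conjT]
      simp only [Matrix.mul_assoc]
    rw [e, SRes_split hp.big hp.c1.cont hb, Matrix.mul_add, trace_add, abs_mul, abs_of_pos (inv_pos.2 D0),
      inv_mul_le_iff₀ D0, ← Matrix.mul_assoc, ← Matrix.mul_assoc (fc f _) (dg _)]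
    have one : ∀ i : Ix d L, |(fun _ => (1 : ℝ)) i| ≤ 1 := fun _ => abs_one.le
    obtain ⟨m1, n1⟩ := SRes_cm hp hb.c1_real hb1 (abs_lo_le 6) (abs_hi_le 6) one
    obtain ⟨m2, n2⟩ := SRes_cm hp hb.c1_real hb1 one (abs_lo_le 6) (abs_lo_le 6)
    have s1 := (h2 L u hp f 1 hf.van (fun i => hi L 5 i * lo L 6 i) 1 zero_le_one (fun i => by
      rw [abs_mul]; exact mul_le_one₀ (abs_hi_le _ _) (abs_nonneg _) (abs_lo_le _ _))
      (fun i h => by linarith [hi_ne (left_ne_zero_of_mul h)]) _ 1 m1).2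
    have s2 := (h2 L u hp f 1 hf.van (fun i => lo L 6 i - phiS (mom i)) 1 zero_le_one (fun i => by
      have := phiS_nonneg (mom i)
      have := phiS_le_one (mom i)
      unfold lo
      split_ifs <;> exact abs_le.2 ⟨by linarith, by linarith⟩)
      (fun i h => by
        by_contra h'
        exact h (by rw [lo_of_le (by linarith), phiS_eq_one (by linarith), sub_self])) _ 1 m2).1
    have G0 := Gr_nonneg (L := L) u
    have G1 := Gr_nonneg (L := L) b
    have t0 := sq_sqrt (mul_nonneg D0.le G0)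
    have t1 := sq_sqrt (mul_nonneg D0.le G1)
    have t2 := sqrt_nonneg (L ^ d * Gr L u)
    have t3 := sqrt_nonneg (L ^ d * Gr L b)
    generalize √(L ^ d * Gr L u) = su at *
    generalize √(L ^ d * Gr L b) = sb at *
    have k : ∀ y : ℝ, y ≤ 3 ^ d * (su + sb) → C₂ * 1 * 1 * su * (y + 1 * su) ≤
        2 * C₂ * (3 ^ d + 1) * (sb ^ 2 + su ^ 2) := fun y hy => by
      have : su * (y + su) ≤ 2 * (3 ^ d + 1) * (sb ^ 2 + su ^ 2) := by
        nlinarith [mul_le_mul_of_nonneg_left hy t2, mul_nonneg (zero_le_one.trans p3) (sq_nonneg (su - sb)),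
          mul_nonneg (zero_le_one.trans p3) (sq_nonneg sb), mul_nonneg (zero_le_one.trans p3) (sq_nonneg su)]
      nlinarith [mul_le_mul_of_nonneg_left this (zero_le_one.trans hC₂)]
    refine ((Complex.abs_re_le_norm _).trans (norm_add_le_of_le (s1.trans (k _ n1)) (s2.trans (k _ n2)))).trans ?_
    rw [t0, t1]
    nlinarith [mul_nonneg (mul_nonneg D0.le (add_nonneg G1 G0)) (add_nonneg (zero_le_one.trans p6) q1),
      mul_nonneg (mul_nonneg D0.le (add_nonneg G1 G0)) (zero_le_one.trans p6)]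

end Pool.Agent.Lib.MP_ae5e3b_mp.Sh
end

-- part Pool.Agent.Lib.MP_ae5e3b_mp.SCr
section

open MeasureTheory Matrix Real
open scoped ComplexConjugate ComplexOrder

set_option linter.unusedSectionVars false

namespace Pool.Agent.Lib.MP_ae5e3b_mp.Sh

section Aux
variable {d : ℕ} {L : ℝ} {ι : Type} [Fintype ι]

lemma SCr_re_comm (g h : ℂ) : (conj g * h).re = (conj h * g).re := by
  simp [mul_comm]

lemma SCr_pt (β : ℝ) (g h : ℂ) : |β * (conj g * h).re| ≤ β ^ 2 * ‖g‖ ^ 2 + ‖h‖ ^ 2 := by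
  have h1 : |(conj g * h).re| ≤ ‖g‖ * ‖h‖ := by
    have := Complex.abs_re_le_norm (conj g * h)
    rwa [norm_mul, Complex.norm_conj] at this
  have h2 : |β * (conj g * h).re| ≤ |β| * (‖g‖ * ‖h‖) := by
    rw [abs_mul]
    exact mul_le_mul_of_nonneg_left h1 (abs_nonneg _)
  have h3 : 0 ≤ |β| * ‖g‖ * ‖h‖ := by positivity
  rw [← sq_abs β]
  nlinarith [sq_nonneg (|β| * ‖g‖ - ‖h‖)]

lemma SCr_cont {β : Tor d → ℝ} {g h : Tor d → ℂ} (hβ : Continuous β) (hg : Continuous g)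
    (hh : Continuous h) : Continuous fun x => β x * (conj (g x) * h x).re :=
  hβ.mul (Complex.continuous_re.comp ((Complex.continuous_conj.comp hg).mul hh))

lemma SCr_sum {β : Tor d → ℝ} {g h : ι → Tor d → ℂ} (hβ : Continuous β)
    (hg : ∀ a, Continuous (g a)) (hh : ∀ a, Continuous (h a)) :
    ∑ a, ∫ x, β x * (conj (g a x) * h a x).re =
      ∫ x, β x * ∑ a, (conj (g a x) * h a x).re := by
  rw [← integral_finsetSum _ fun a _ => cont_int (SCr_cont hβ (hg a) (hh a))]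
  simp only [Finset.mul_sum]

lemma SCr_base {β : Tor d → ℝ} {g h : ι → Tor d → ℂ} (hβ : Continuous β)
    (hg : ∀ a, Continuous (g a)) (hh : ∀ a, Continuous (h a)) :
    |∑ a, ∫ x, β x * (conj (g a x) * h a x).re| ≤
      (∑ a, ∫ x, β x ^ 2 * ‖g a x‖ ^ 2) + ∑ a, ∫ x, ‖h a x‖ ^ 2 := by
  rw [← Finset.sum_add_distrib]
  refine (Finset.abs_sum_le_sum_abs _ _).trans (Finset.sum_le_sum fun a _ => ?_)
  have c1 : Continuous fun x => β x ^ 2 * ‖g a x‖ ^ 2 := (hβ.pow 2).mul ((hg a).norm.pow 2)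
  have c2 : Continuous fun x => ‖h a x‖ ^ 2 := (hh a).norm.pow 2
  rw [← integral_add (cont_int c1) (cont_int c2)]
  refine abs_integral_le_integral_abs.trans ?_
  exact integral_mono (cont_int (SCr_cont hβ (hg a) (hh a)).abs) (cont_int (c1.add c2))
    fun x => SCr_pt _ _ _

/-- The first family is bounded pointwise. -/
lemma SCr_fam1 {β : Tor d → ℝ} {g h : ι → Tor d → ℂ} (hβ : Continuous β)
    (hg : ∀ a, Continuous (g a)) (hh : ∀ a, Continuous (h a)) {K : ℝ}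
    (hK : ∀ x, ∑ a, ‖g a x‖ ^ 2 ≤ K) :
    |∑ a, ∫ x, β x * (conj (g a x) * h a x).re| ≤
      K * (∫ x, β x ^ 2) + ∑ a, ∫ x, ‖h a x‖ ^ 2 := by
  refine (SCr_base hβ hg hh).trans (add_le_add ?_ le_rfl)
  have c1 : ∀ a, Continuous fun x => β x ^ 2 * ‖g a x‖ ^ 2 := fun a =>
    (hβ.pow 2).mul ((hg a).norm.pow 2)
  have c2 : Continuous fun x => K * β x ^ 2 := continuous_const.mul (hβ.pow 2)
  rw [← integral_finsetSum _ fun a _ => cont_int (c1 a), ← integral_const_mul]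
  refine integral_mono (cont_int (continuous_finsetSum _ fun a _ => c1 a)) (cont_int c2)
    fun x => ?_
  simp only [← Finset.mul_sum]
  rw [mul_comm K]
  exact mul_le_mul_of_nonneg_left (hK x) (sq_nonneg _)

/-- The weight is bounded pointwise. -/
lemma SCr_fam2 {β : Tor d → ℝ} {g h : ι → Tor d → ℂ} (hβ : Continuous β)
    (hg : ∀ a, Continuous (g a)) (hh : ∀ a, Continuous (h a)) (h1 : ∀ x, |β x| ≤ 1) :
    |∑ a, ∫ x, β x * (conj (g a x) * h a x).re| ≤
      (∑ a, ∫ x, ‖g a x‖ ^ 2) + ∑ a, ∫ x, ‖h a x‖ ^ 2 := by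
  refine (SCr_base hβ hg hh).trans (add_le_add (Finset.sum_le_sum fun a _ => ?_) le_rfl)
  have c2 : Continuous fun x => ‖g a x‖ ^ 2 := (hg a).norm.pow 2
  refine integral_mono (cont_int ((hβ.pow 2).mul c2)) (cont_int c2) fun x => ?_
  have : β x ^ 2 ≤ 1 := by
    rw [← sq_abs]
    exact pow_le_one₀ (abs_nonneg _) (h1 x)
  exact mul_le_of_le_one_left (sq_nonneg _) this

lemma SCr_split {β : Tor d → ℝ} {g g' h : ι → Tor d → ℂ} (hβ : Continuous β)
    (hg : ∀ a, Continuous (g a)) (hg' : ∀ a, Continuous (g' a)) (hh : ∀ a, Continuous (h a)) :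
    ∑ a, ∫ x, β x * (conj (g a x + g' a x) * h a x).re =
      (∑ a, ∫ x, β x * (conj (g a x) * h a x).re) +
        ∑ a, ∫ x, β x * (conj (g' a x) * h a x).re := by
  rw [← Finset.sum_add_distrib]
  refine Finset.sum_congr rfl fun a _ => ?_
  rw [← integral_add (cont_int (SCr_cont hβ (hg a) (hh a))) (cont_int (SCr_cont hβ (hg' a) (hh a)))]
  simp only [map_add, add_mul, Complex.add_re, mul_add]

lemma SCr_van {f : ℝ → ℝ} {l : ℝ} (hf : FOK f l) : Van (fun t => t * f t) 2 := by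
  refine ⟨fun t ht => by rw [hf.zero t ht, mul_zero], fun t ht => ?_⟩
  by_cases h : 1 / 2 ≤ t
  · simp [hf.zero t h]
  · have h1 : |t| ≤ 2 := abs_le.2 ⟨ht, by linarith [not_le.1 h]⟩
    have h2 : |f t| ≤ 1 := hf.van.bd t ht
    rw [abs_mul]
    exact (mul_le_of_le_one_right (abs_nonneg _) h2).trans h1

lemma SCr_pd_C1 (Y : Mat d L) (a : Ix d L) (r : Fin d) : C1 L (pd L r (orb Y a)) := by
  rw [pd_orb]
  exact orb_C1 _ _

lemma SCr_pd_le (hL : Big L) {Y : Mat d L} (hY : OpB Y 1) (r : Fin d) (x : Tor d) :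
    ∑ a, ‖pd L r (orb Y a) x‖ ^ 2 ≤ 6 ^ d * 256 := by
  have h := orb_normsq_le hL (((Pm_opB hL r).mul hY).smul Complex.I) x
  simp only [pd_orb]
  refine h.trans (le_of_eq ?_)
  rw [Complex.norm_I]
  norm_num

lemma SCr_trip {g h T : Tor d → ℝ} (hg : Continuous g) (hh : Continuous h) (hT : Continuous T)
    {K : ℝ} (hK : ∀ x, |T x| ≤ K) :
    |∫ x, g x * (h x * T x)| ≤ K * (∫ x, g x ^ 2) + K * ∫ x, h x ^ 2 := by
  have c1 : Continuous fun x => K * g x ^ 2 := continuous_const.mul (hg.pow 2)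
  have c2 : Continuous fun x => K * h x ^ 2 := continuous_const.mul (hh.pow 2)
  rw [← integral_const_mul, ← integral_const_mul, ← integral_add (cont_int c1) (cont_int c2)]
  refine abs_integral_le_integral_abs.trans ?_
  refine integral_mono (cont_int (hg.mul (hh.mul hT)).abs) (cont_int (c1.add c2)) fun x => ?_
  have h0 : 0 ≤ K := (abs_nonneg _).trans (hK x)
  have h1 : |g x| * |h x| ≤ g x ^ 2 + h x ^ 2 := by
    rw [← sq_abs (g x), ← sq_abs (h x)]
    nlinarith [sq_nonneg (|g x| - |h x|), mul_nonneg (abs_nonneg (g x)) (abs_nonneg (h x))]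
  change |g x * (h x * T x)| ≤ K * g x ^ 2 + K * h x ^ 2
  rw [← mul_assoc, abs_mul, abs_mul, ← mul_add, mul_comm K]
  exact mul_le_mul h1 (hK x) (abs_nonneg _) (by positivity)

end Aux

theorem cross (d : ℕ) : ∃ C : ℝ, 1 ≤ C ∧ ∀ (L ϖ : ℝ) (u b : Tor d → ℝ) (ξ : Fin d → Tor d → ℝ),
    Pot L u → C1 L b → (∀ x, |b x| ≤ 1) → VF L ϖ ξ → ∀ (f : ℝ → ℝ) (l : ℝ), FOK f l →
    |Bf L b (fun x => u x - 1) (orb (Yf L u f)) fun a => Sop L ξ (orb (Yf L u f) a)| ≤
      C * (Gr L b + Gr L u + Gx L ξ) := by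
  obtain ⟨CR, hCR, hres⟩ := res d
  obtain ⟨CS, hCS, hS⟩ := Sop_bounds d
  have h6 : (0 : ℝ) ≤ 6 ^ d := by positivity
  have hdS : 0 ≤ (d : ℝ) * CS := by positivity
  refine ⟨CR + CS + 6 ^ d * 258 + d * CS, by linarith, ?_⟩
  intro L ϖ u b ξ hp hb hb1 hξ f l hf
  have hL := hp.big
  obtain ⟨R, hRc, hReq, hR2, -⟩ := hres L u hp f l hf
  have hY := Yf_opB (L := L) u hf
  have hz2 := (hS L ϖ 1 ξ _ hL hξ hY).2.2.2.1
  rw [one_pow, mul_one] at hz2
  have hz : ∀ a, C1 L (Sop L ξ (orb (Yf L u f) a)) := fun a => Sop_orb_C1 hξ _ a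
  have hU : Continuous fun x => u x - 1 := hp.c1.cont.sub continuous_const
  rw [Bf_parts hb hU (orb_C1 _) (SCr_pd_C1 _) hz]
  simp only [hReq]
  rw [SCr_split hb.cont (fun a => (orb_C1 _ a).cont) hRc fun a => (hz a).cont]
  have tB := SCr_fam2 hb.cont hRc (fun a => (hz a).cont) hb1
  have tC : |∑ a, ∑ r, ∫ x, pd L r b x *
      (conj (pd L r (orb (Yf L u f) a) x) * Sop L ξ (orb (Yf L u f) a) x).re| ≤
      6 ^ d * 256 * Gr L b + d * (CS * Gx L ξ) := by
    rw [Finset.sum_comm]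
    refine (Finset.abs_sum_le_sum_abs _ _).trans ?_
    refine (Finset.sum_le_sum fun r _ => (SCr_fam1 (hb.cpd r)
      (fun a => (SCr_pd_C1 _ a r).cont) (fun a => (hz a).cont) (SCr_pd_le hL hY r)).trans
      (add_le_add le_rfl hz2)).trans (le_of_eq ?_)
    rw [Finset.sum_add_distrib, ← Finset.mul_sum, Gr_real]
    simp
  have hT : OpB (Yf L u f * (Zf L u f)ᴴ) 2 := by
    rw [Yf_mul_Zf u hf]
    simpa using (P6_opB.mul (hp.fc_opB (SCr_van hf))).mul P6_opB
  have hTh : (Yf L u f * (Zf L u f)ᴴ).IsHermitian := by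
    rw [Yf_mul_Zf u hf, Matrix.IsHermitian]
    simp only [conjTranspose_mul, P6_conjT, fc_conjT, Matrix.mul_assoc]
  have tA : |∑ a, ∫ x, b x *
      (conj (orb (Zf L u f) a x) * Sop L ξ (orb (Yf L u f) a) x).re| ≤
      6 ^ d * Gr L b + 6 ^ d * Gx L ξ := by
    rw [SCr_sum hb.cont (fun a => (orb_C1 _ a).cont) fun a => (hz a).cont]
    have e1 : ∀ x, b x * ∑ a, (conj (orb (Zf L u f) a x) * Sop L ξ (orb (Yf L u f) a) x).re =
        1 / 2 * (b x * dv L (fun r y => ξ r y * dens (Yf L u f * (Zf L u f)ᴴ) y) x) := fun x => by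
      rw [← Sop_dens hL.pos hξ hTh x]
      ring
    simp only [e1]
    rw [integral_const_mul, integral_mul_dv hξ (dens_C1 _) hb, abs_mul, abs_neg]
    have e2 : |∑ r, ∫ x, pd L r b x * (ξ r x * dens (Yf L u f * (Zf L u f)ᴴ) x)| ≤
        6 ^ d * 2 * Gr L b + 6 ^ d * 2 * ∑ r, ∫ x, ξ r x ^ 2 := by
      refine (Finset.abs_sum_le_sum_abs _ _).trans ?_
      refine (Finset.sum_le_sum fun r _ => SCr_trip (hb.cpd r) (hξ.c1 r).cont (dens_C1 _).cont
        (abs_dens_le hL hT)).trans (le_of_eq ?_)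
      rw [Finset.sum_add_distrib, ← Finset.mul_sum, ← Finset.mul_sum, Gr_real]
    have e3 : ∑ r, ∫ x, ξ r x ^ 2 ≤ Gx L ξ := by
      have := l2_le_Gx (L := L) ξ
      have h0 : 0 ≤ ∫ x, dv L ξ x ^ 2 := integral_nonneg fun x => sq_nonneg _
      linarith
    have e4 := mul_le_mul_of_nonneg_left e3 h6
    rw [abs_of_pos (by norm_num : (0 : ℝ) < 1 / 2)]
    linarith
  have g1 := Gr_nonneg (L := L) b
  have g2 := Gr_nonneg (L := L) u
  have g3 := Gx_nonneg (L := L) ξ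
  have hCR0 : 0 ≤ CR := by linarith
  have hCS0 : 0 ≤ CS := by linarith
  refine (abs_sub _ _).trans ((add_le_add (abs_add_le _ _) le_rfl).trans ?_)
  linarith [mul_nonneg hCR0 g1, mul_nonneg hCR0 g3, mul_nonneg hCS0 g1, mul_nonneg hCS0 g2,
    mul_nonneg h6 g1, mul_nonneg h6 g2, mul_nonneg h6 g3, mul_nonneg hdS g1, mul_nonneg hdS g2]

theorem ey (d : ℕ) : ∃ C : ℝ, 1 ≤ C ∧ ∀ (L : ℝ) (u b : Tor d → ℝ),
    Pot L u → C1 L b → (∀ x, |b x| ≤ 1) → ∀ (f : ℝ → ℝ) (l : ℝ), FOK f l →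
    Bf L b (fun x => u x - 1) (orb (Yf L u f)) (orb (Yf L u f)) ≤
      wtr L u b (fun t => t * f t) + C * (Gr L b + Gr L u + Gr L (rhoF L u f)) := by
  obtain ⟨CR, hCR, hres⟩ := res d
  obtain ⟨CL, hCL, hloc⟩ := loc d
  have h6 : (0 : ℝ) ≤ 6 ^ d := by positivity
  refine ⟨2 * CR + 3 * CL + 6 ^ d * 24, by linarith, ?_⟩
  intro L u b hp hb hb1 f l hf
  have hL := hp.big
  have hq : 2 * kap L ≤ 1 := by linarith [hL.kap_le]
  obtain ⟨R, hRc, hReq, hR2, hRb⟩ := hres L u hp f l hf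
  have hY := Yf_opB (L := L) u hf
  have hy : ∀ a, C1 L (orb (Yf L u f) a) := orb_C1 _
  have hU : Continuous fun x => u x - 1 := hp.c1.cont.sub continuous_const
  rw [Bf_parts hb hU hy (SCr_pd_C1 _) hy]
  simp only [hReq]
  rw [SCr_split hb.cont (fun a => (orb_C1 _ a).cont) hRc fun a => (hy a).cont]
  have l6 : ∀ i : Ix d L, ‖mom i‖ ≤ 5 → lo L 6 i = 1 := fun i h => lo_of_le (by linarith)
  have tA : ∑ a, ∫ x, b x * (conj (orb (Zf L u f) a x) * orb (Yf L u f) a x).re ≤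
      wtr L u b (fun t => t * f t) + CL * 2 * (Gr L b + Gr L u) := by
    have h1 := (hloc L u hp _ 2 (SCr_van hf) (lo L 6) (fun _ => 1) (abs_lo_le 6)
      (fun _ => by simp) l6 (fun _ _ => rfl) _ rfl).2.2.2 b hb hb1
    rw [dg_one, Matrix.one_mul, Matrix.mul_one] at h1
    simp only [mul_sub] at h1
    have ci : ∀ Y : Mat d L, Integrable fun x => b x * dens Y x := fun Y =>
      cont_int (hb.cont.mul (dens_C1 Y).cont)
    rw [integral_sub (ci _) (ci _)] at h1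
    rw [SCr_sum hb.cont (fun a => (orb_C1 _ a).cont) fun a => (hy a).cont]
    simp only [orb_dens hL.pos, Yf_mul_Zf u hf]
    rw [wtr, ← dens_pair _ hb.cont, P6]
    linarith [le_abs_self ((∫ x, b x * dens (dg (lo L 6) * fc (fun t => t * f t) (ham L u) *
      dg (lo L 6)) x) - ∫ x, b x * dens (fc (fun t => t * f t) (ham L u)) x)]
  have tB : ∑ a, ∫ x, b x * (conj (R a x) * orb (Yf L u f) a x).re ≤
      CR * (Gr L b + Gr L u) + (6 ^ d * (24 * Gr L b) + CR * Gr L u) := by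
    have hJ : C1 L (Jr L 1 b) := Jr_C1 hL.pos hq b
    have hβ : Continuous fun x => b x - Jr L 1 b x := hb.cont.sub hJ.cont
    have h1 := hRb (Jr L 1 b) (Jr_TP hL.pos hq b) (abs_Jr_le hL.pos hq hb.cont hb1)
    have h2 := SCr_fam1 hβ (fun a => (hy a).cont) hRc (orb_normsq_le hL hY)
    have h3 := l2_sub_Jr hL.pos hq hb
    have h4 := Gr_Jr_le hL.pos hq hb
    simp only [one_pow, mul_one, div_one] at h2 h3
    have e : ∑ a, ∫ x, b x * (conj (R a x) * orb (Yf L u f) a x).re =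
        (∑ a, ∫ x, Jr L 1 b x * (conj (R a x) * orb (Yf L u f) a x).re) +
        ∑ a, ∫ x, (b x - Jr L 1 b x) * (conj (orb (Yf L u f) a x) * R a x).re := by
      rw [← Finset.sum_add_distrib]
      refine Finset.sum_congr rfl fun a _ => ?_
      rw [← integral_add (cont_int (SCr_cont hJ.cont (hRc a) (hy a).cont))
        (cont_int (SCr_cont hβ (hy a).cont (hRc a)))]
      congr 1
      funext x
      rw [SCr_re_comm (orb (Yf L u f) a x)]
      ring
    have h5 := mul_le_mul_of_nonneg_left h3 h6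
    have h7 : CR * (Gr L (Jr L 1 b) + Gr L u) ≤ CR * (Gr L b + Gr L u) := by
      refine mul_le_mul_of_nonneg_left ?_ (by linarith)
      linarith
    rw [e]
    refine add_le_add (((le_abs_self _).trans h1).trans h7) (((le_abs_self _).trans h2).trans ?_)
    linarith
  have hρ : rhoP L u f = fun x => ∑ a, ‖orb (Yf L u f) a x‖ ^ 2 := by
    funext x
    rw [orb_normsq hL.pos, Yf_mul u hf, rhoP]
  have tC : ∑ a, ∑ r, ∫ x, pd L r b x *
      (conj (pd L r (orb (Yf L u f) a) x) * orb (Yf L u f) a x).re = 1 / 2 * GG L b (rhoP L u f) := by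
    rw [Finset.sum_comm, GG, Finset.mul_sum]
    refine Finset.sum_congr rfl fun r _ => ?_
    rw [SCr_sum (hb.cpd r) (fun a => (SCr_pd_C1 _ a r).cont) fun a => (hy a).cont,
      ← integral_const_mul]
    congr 1
    funext x
    rw [hρ, pd_sum _ fun a _ => (hy a).normsq]
    simp only [pd_normsq (hy _), ← Finset.mul_sum, SCr_re_comm (orb (Yf L u f) _ x)]
    ring
  have cP : C1 L (rhoP L u f) := dens_C1 _
  have cF : C1 L (rhoF L u f) := dens_C1 _
  have tD : Gr L (rhoP L u f) ≤ 2 * Gr L (rhoF L u f) + 2 * (CL * Gr L u) := by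
    have h1 := (hloc L u hp f 1 hf.van (lo L 6) (fun i => phiS (mom i)) (abs_lo_le 6)
      (fun i => abs_phiS_le _) l6 (fun i h => phiS_eq_one (h.trans (by norm_num))) _ rfl).2.1
    change Gr L (fun x => rhoP L u f x - rhoF L u f x) ≤ _ at h1
    have h2 := Gr_add_le cF (cP.sub cF)
    simp only [add_sub_cancel] at h2
    rw [one_pow, mul_one] at h1
    change Gr L (rhoP L u f) ≤ _ at h2
    linarith
  have g1 := Gr_nonneg (L := L) b
  have g2 := Gr_nonneg (L := L) u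
  have g3 := Gr_nonneg (L := L) (rhoF L u f)
  have g4 := Gr_nonneg (L := L) (rhoP L u f)
  have tE : -GG L b (rhoP L u f) ≤ Gr L b + Gr L (rhoP L u f) := by
    have h1 := abs_GG_le hb cP
    have h2 := neg_abs_le (GG L b (rhoP L u f))
    have h3 := Real.sq_sqrt g1
    have h4 := Real.sq_sqrt g4
    nlinarith [sq_nonneg (√(Gr L b) - √(Gr L (rhoP L u f)))]
  have hCR0 : 0 ≤ CR := by linarith
  have hCL0 : 0 ≤ CL := by linarith
  have k1 : Gr L b ≤ CL * Gr L b := le_mul_of_one_le_left g1 hCL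
  have k2 : Gr L (rhoF L u f) ≤ CL * Gr L (rhoF L u f) := le_mul_of_one_le_left g3 hCL
  rw [tC]
  linarith [mul_nonneg hCR0 g1, mul_nonneg hCR0 g3, mul_nonneg h6 g2, mul_nonneg h6 g3,
    mul_nonneg hCL0 g3, mul_nonneg hCL0 g1]

end Pool.Agent.Lib.MP_ae5e3b_mp.Sh
end
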