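import Pool.Agent.Lib.MP_ae5e3b_mp.SCa

-- part Pool.Agent.Lib.MP_ae5e3b_mp.SCo
section

open MeasureTheory Matrix Real
open scoped ComplexConjugate ComplexOrder

set_option linter.unusedSectionVars false

namespace Pool.Agent.Lib.MP_ae5e3b_mp.Sh

variable {d : ℕ}

lemma SCo_hi {h : ℝ → ℝ} {c a : ℝ} (hd : Differentiable ℝ h) (hc : ∀ t, a ≤ t → h t = c) (t : ℝ)
    (ht : a ≤ t) : deriv h t = 0 := by
  have h1 : HasDerivWithinAt h 0 (Set.Ici t) t :=
    (hasDerivWithinAt_const t (Set.Ici t) c).congr (fun y hy => hc y (ht.trans hy)) (hc t ht)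
  exact (uniqueDiffWithinAt_Ici t).eq_deriv _ (hd t).hasDerivAt.hasDerivWithinAt h1

lemma SCo_lo {h : ℝ → ℝ} {c a : ℝ} (hd : Differentiable ℝ h) (hc : ∀ t, t ≤ a → h t = c) (t : ℝ)
    (ht : t ≤ a) : deriv h t = 0 := by
  have h1 : HasDerivWithinAt h 0 (Set.Iic t) t :=
    (hasDerivWithinAt_const t (Set.Iic t) c).congr (fun y hy => hc y (le_trans hy ht)) (hc t ht)
  exact (uniqueDiffWithinAt_Iic t).eq_deriv _ (hd t).hasDerivAt.hasDerivWithinAt h1

lemma SCo_bd {h : ℝ → ℝ} {a b : ℝ} (hc : Continuous h) (h1 : ∀ t, b ≤ t → h t = 0)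
    (h2 : ∀ t, t ≤ a → h t = 0) : ∃ M, 0 ≤ M ∧ ∀ t, |h t| ≤ M := by
  obtain ⟨C, hC⟩ := (isCompact_Icc (a := a) (b := b)).exists_bound_of_continuousOn hc.continuousOn
  refine ⟨max C 0, le_max_right _ _, fun t => ?_⟩
  by_cases ha : t ≤ a
  · simp [h2 t ha]
  by_cases hb : b ≤ t
  · simp [h1 t hb]
  exact (hC t ⟨(not_le.1 ha).le, (not_le.1 hb).le⟩).trans (le_max_left _ _)

lemma SCo_lip {h h' : ℝ → ℝ} {M : ℝ} (hd : ∀ t, HasDerivAt h (h' t) t) (hb : ∀ t, |h' t| ≤ M)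
    (s t : ℝ) : |h s - h t| ≤ M * |s - t| := by
  have := convex_univ.norm_image_sub_le_of_norm_hasDerivWithin_le (f := h) (f' := h') (C := M)
    (fun x _ => (hd x).hasDerivWithinAt) (fun x _ => hb x) (Set.mem_univ t) (Set.mem_univ s)
  simpa using this

/-- The reference function. -/
theorem exists_psi (hd : 0 < d) : ∃ (ψ ψ' ψ'' : ℝ → ℝ) (M : ℝ), XF (fun _ => 0) M ψ ψ' ∧
    XF (fun _ => 0) M ψ' ψ'' ∧ Cl d ψ 0 ≠ 0 := by
  set ψ : ℝ → ℝ := fun t => smoothTransition (1 / 2 - t) with hψ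
  have c0 : ContDiff ℝ 3 ψ := smoothTransition.contDiff.comp (contDiff_const.sub contDiff_id)
  have c1 : ContDiff ℝ 2 (deriv ψ) := (contDiff_succ_iff_deriv (n := 2)).1 c0 |>.2.2
  have c2 : ContDiff ℝ 1 (deriv (deriv ψ)) := (contDiff_succ_iff_deriv (n := 1)).1 c1 |>.2.2
  have c3 : Continuous (deriv (deriv (deriv ψ))) := c2.continuous_deriv le_rfl
  have d0 : Differentiable ℝ ψ := c0.differentiable (by norm_num)
  have d1 : Differentiable ℝ (deriv ψ) := c1.differentiable (by norm_num)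
  have d2 : Differentiable ℝ (deriv (deriv ψ)) := c2.differentiable (by norm_num)
  have u0 : ∀ t, 1 / 2 ≤ t → ψ t = 0 := fun t ht =>
    smoothTransition.zero_of_nonpos (by linarith)
  have l0 : ∀ t, t ≤ -1 / 2 → ψ t = 1 := fun t ht =>
    smoothTransition.one_of_one_le (by linarith)
  have u1 := SCo_hi d0 u0
  have l1 := SCo_lo d0 l0
  have u2 := SCo_hi d1 u1
  have l2 := SCo_lo d1 l1
  have u3 := SCo_hi d2 u2
  have l3 := SCo_lo d2 l2
  obtain ⟨M1, p1, b1⟩ := SCo_bd d1.continuous u1 l1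
  obtain ⟨M2, p2, b2⟩ := SCo_bd d2.continuous u2 l2
  obtain ⟨M3, p3, b3⟩ := SCo_bd c3 u3 l3
  refine ⟨ψ, deriv ψ, deriv (deriv ψ), M1 + M2 + M3, ⟨fun t => (d0 t).hasDerivAt, u0,
    fun t ht => by rw [l1 t ht, l1 _ le_rfl], fun t => by linarith [b1 t], fun s t => ?_⟩,
    ⟨fun t => (d1 t).hasDerivAt, u1, fun t ht => by rw [l2 t ht, l2 _ le_rfl],
      fun t => by linarith [b2 t], fun s t => ?_⟩, ?_⟩
  · have := SCo_lip (fun t => (d1 t).hasDerivAt) b2 s t
    simp only [sub_self, abs_zero, add_zero]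
    nlinarith [abs_nonneg (s - t)]
  · have := SCo_lip (fun t => (d2 t).hasDerivAt) b3 s t
    simp only [sub_self, abs_zero, add_zero]
    nlinarith [abs_nonneg (s - t)]
  · have hp : 0 < ∫ t in (0 : ℝ)..2, ψ (t ^ 2 - 1 + 0) * t ^ (d - 1) := by
      refine intervalIntegral.integral_pos (by norm_num) ?_ (fun x hx => ?_) ⟨1 / 2, by norm_num, ?_⟩
      · exact ((d0.continuous.comp (by fun_prop)).mul (by fun_prop)).continuousOn
      · exact mul_nonneg (smoothTransition.nonneg _) (pow_nonneg hx.1.le _)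
      · rw [l0 _ (by norm_num)]; positivity
    have h1 := sig0_pos d
    have h2 : (0 : ℝ) < d := by exact_mod_cast hd
    unfold Cl
    positivity

section Sol
variable {f F F' : ℝ → ℝ} {M : ℝ}

/-- The solution of the equation. -/
noncomputable def SCoP (d : ℕ) (F : ℝ → ℝ) (x : ℝ) : ℝ :=
  ∫ t in (0 : ℝ)..1, F (t ^ 2 * (x + 1) - 1) * t ^ (d - 1)

/-- Its derivative. -/
noncomputable def SCoG (d : ℕ) (F' : ℝ → ℝ) (x : ℝ) : ℝ :=
  ∫ t in (0 : ℝ)..1, F' (t ^ 2 * (x + 1) - 1) * t ^ 2 * t ^ (d - 1)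

lemma SCo_term (hb : ∀ t, |F' t| ≤ M) (x t : ℝ) (ht : t ∈ Set.uIoc (0 : ℝ) 1) :
    ‖F' (t ^ 2 * (x + 1) - 1) * t ^ 2 * t ^ (d - 1)‖ ≤ M := by
  rw [Set.uIoc_of_le zero_le_one] at ht
  have h1 : t ^ 2 ≤ 1 := pow_le_one₀ ht.1.le ht.2
  have h2 : t ^ (d - 1) ≤ 1 := pow_le_one₀ ht.1.le ht.2
  have h3 : 0 ≤ t ^ (d - 1) := pow_nonneg ht.1.le _
  have h4 : t ^ 2 * t ^ (d - 1) ≤ 1 := mul_le_one₀ h1 h3 h2
  rw [Real.norm_eq_abs, mul_assoc, abs_mul, abs_of_nonneg (mul_nonneg (sq_nonneg t) h3)]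
  exact (mul_le_of_le_one_right (abs_nonneg _) h4).trans (hb _)

lemma SCo_der (hF : ∀ t, HasDerivAt F (F' t) t) (hc : Continuous F') (hb : ∀ t, |F' t| ≤ M)
    (x : ℝ) : HasDerivAt (SCoP d F) (SCoG d F' x) x := by
  have hcF : Continuous F := continuous_iff_continuousAt.2 fun t => (hF t).continuousAt
  refine (intervalIntegral.hasDerivAt_integral_of_dominated_loc_of_deriv_le
    (F := fun x t => F (t ^ 2 * (x + 1) - 1) * t ^ (d - 1))
    (F' := fun x t => F' (t ^ 2 * (x + 1) - 1) * t ^ 2 * t ^ (d - 1)) (bound := fun _ => M)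
    (s := Set.univ) Filter.univ_mem (Filter.Eventually.of_forall fun y => ?_) ?_ ?_
    (Filter.Eventually.of_forall fun t ht y _ => SCo_term hb y t ht) (by simp)
    (Filter.Eventually.of_forall fun t _ y _ => ?_)).2
  · exact Continuous.aestronglyMeasurable (by fun_prop)
  · exact Continuous.intervalIntegrable (by fun_prop) _ _
  · exact Continuous.aestronglyMeasurable (by fun_prop)
  · have h1 : HasDerivAt (fun x : ℝ => t ^ 2 * (x + 1) - 1) (t ^ 2) y := by
      simpa using (((hasDerivAt_id y).add_const 1).const_mul (t ^ 2)).sub_const 1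
    exact ((hF _).comp y h1).mul_const _

lemma SCoG_bd (hb : ∀ t, |F' t| ≤ M) (x : ℝ) : |SCoG d F' x| ≤ M := by
  have := intervalIntegral.norm_integral_le_of_norm_le_const (a := 0) (b := 1)
    (fun t ht => SCo_term (d := d) hb x t ht)
  simpa [SCoG] using this

lemma SCo_id (hd : 0 < d) (hF : ∀ t, HasDerivAt F (F' t) t) (hc : Continuous F') (x : ℝ) :
    F x = d * SCoP d F x + 2 * ((x + 1) * SCoG d F' x) := by
  have hcF : Continuous F := continuous_iff_continuousAt.2 fun t => (hF t).continuousAt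
  obtain ⟨e, rfl⟩ : ∃ e, d = e + 1 := ⟨d - 1, by omega⟩
  have key := intervalIntegral.integral_eq_sub_of_hasDerivAt (a := 0) (b := 1)
    (f := fun t => F (t ^ 2 * (x + 1) - 1) * t ^ (e + 1))
    (f' := fun t => ((e + 1 : ℕ) : ℝ) * (F (t ^ 2 * (x + 1) - 1) * t ^ e) +
      2 * (x + 1) * (F' (t ^ 2 * (x + 1) - 1) * t ^ 2 * t ^ e)) (fun t _ => ?_)
    (Continuous.intervalIntegrable (by fun_prop) _ _)
  · rw [intervalIntegral.integral_add (Continuous.intervalIntegrable (by fun_prop) _ _)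
      (Continuous.intervalIntegrable (by fun_prop) _ _), intervalIntegral.integral_const_mul,
      intervalIntegral.integral_const_mul] at key
    simp only [SCoP, SCoG, Nat.add_sub_cancel]
    simp only [one_pow, one_mul, add_sub_cancel_right, mul_one, ne_eq, Nat.add_eq_zero_iff,
      one_ne_zero, and_false, not_false_eq_true, zero_pow, mul_zero, sub_zero] at key
    linarith
  · have h1 : HasDerivAt (fun t : ℝ => t ^ 2 * (x + 1) - 1) (2 * t * (x + 1)) t := by
      simpa using ((hasDerivAt_pow 2 t).mul_const (x + 1)).sub_const 1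
    have h2 := ((hF _).comp t h1).mul (hasDerivAt_pow (e + 1) t)
    refine h2.congr_deriv ?_
    simp only [Function.comp, Nat.add_sub_cancel]
    ring

lemma SCoP_zero (hcF : Continuous F) (h0 : ∀ t, 1 / 2 ≤ t → F t = 0)
    (hI : ∫ t in (0 : ℝ)..2, F (t ^ 2 - 1 + 0) * t ^ (d - 1) = 0) (x : ℝ) (hx : 1 / 2 ≤ x) :
    SCoP d F x = 0 := by
  set a := √(x + 1) with ha
  have ha2 : a ^ 2 = x + 1 := Real.sq_sqrt (by linarith)
  have ha0 : 0 < a := Real.sqrt_pos.2 (by linarith)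
  set G : ℝ → ℝ := fun t => F (t ^ 2 - 1 + 0) * t ^ (d - 1) with hG
  have hGc : Continuous G := by fun_prop
  have h1 : ∫ t in (2 : ℝ)..a, G t = 0 := by
    rw [intervalIntegral.integral_congr (g := fun _ => 0) fun t ht => ?_]
    · simp
    · have h2 : min 2 a ≤ t := ht.1
      have h3 : 1 / 2 ≤ t ^ 2 - 1 + 0 := by
        rcases min_le_iff.1 h2 with h | h <;> nlinarith
      simp only [hG, h0 _ h3, zero_mul]
  have h2 : ∫ t in (0 : ℝ)..a, G t = 0 := by
    rw [← intervalIntegral.integral_add_adjacent_intervals (b := 2)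
      (hGc.intervalIntegrable _ _) (hGc.intervalIntegrable _ _), h1, hI, add_zero]
  have h3 : ∫ t in (0 : ℝ)..1, G (t * a) = 0 := by
    rw [intervalIntegral.integral_comp_mul_right _ ha0.ne', zero_mul, one_mul, h2, smul_zero]
  have h4 : a ^ (d - 1) * SCoP d F x = 0 := by
    rw [SCoP, ← intervalIntegral.integral_const_mul]
    refine (intervalIntegral.integral_congr fun t _ => ?_).trans h3
    simp only [hG, mul_pow, ha2, add_zero]
    ring
  exact (mul_eq_zero.1 h4).resolve_left (pow_pos ha0 _).ne'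

lemma SCoG_lo (hd : 0 < d) (ha : ∀ t, t ≤ -1 / 2 → F' t = F' (-1 / 2)) (x : ℝ) (hx : x ≤ -1 / 2) :
    SCoG d F' x = F' (-1 / 2) / (d + 2) := by
  obtain ⟨e, rfl⟩ : ∃ e, d = e + 1 := ⟨d - 1, by omega⟩
  rw [SCoG, intervalIntegral.integral_congr (g := fun t => F' (-1 / 2) * t ^ (e + 2)) fun t ht => ?_]
  · rw [intervalIntegral.integral_const_mul, integral_pow]
    push_cast
    have : (e : ℝ) + 2 + 1 = e + 1 + 2 := by ring
    simp [this, div_eq_mul_inv]
  · rw [Set.uIcc_of_le zero_le_one] at ht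
    have h1 : t ^ 2 ≤ 1 := pow_le_one₀ ht.1 ht.2
    have h2 : t ^ 2 * (x + 1) - 1 ≤ -1 / 2 := by nlinarith [sq_nonneg t]
    simp only [ha _ h2, Nat.add_sub_cancel]
    ring

/-- The second derivative. -/
noncomputable def SCoH (d : ℕ) (F' : ℝ → ℝ) (x : ℝ) : ℝ :=
  (F' x - (d + 2) * SCoG d F' x) * (2 * (x + 1))⁻¹

lemma SCoG_der_hi (hd : 0 < d) (hF : ∀ t, HasDerivAt F (F' t) t) (hc : Continuous F')
    (hb : ∀ t, |F' t| ≤ M) (x : ℝ) (hx : -1 < x) : HasDerivAt (SCoG d F') (SCoH d F' x) x := by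
  have hx0 : 2 * (x + 1) ≠ 0 := by
    have : 0 < x + 1 := by linarith
    positivity
  have h1 : HasDerivAt (fun y : ℝ => 2 * (y + 1)) 2 x := by
    simpa using ((hasDerivAt_id x).add_const 1).const_mul 2
  have h2 := ((hF x).sub ((SCo_der (d := d) hF hc hb x).const_mul (d : ℝ))).div h1 hx0
  have h3 : SCoG d F' =ᶠ[nhds x] fun y => (F y - d * SCoP d F y) / (2 * (y + 1)) := by
    filter_upwards [Ioi_mem_nhds hx] with y hy
    have hy0 : 0 < y + 1 := by linarith [Set.mem_Ioi.1 hy]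
    rw [eq_div_iff (by positivity), SCo_id hd hF hc y]
    ring
  refine (HasDerivAt.congr_of_eventuallyEq h2 h3).congr_deriv ?_
  have hx1 : x + 1 ≠ 0 := by
    have : 0 < x + 1 := by linarith
    positivity
  simp only [Pi.sub_apply, SCoH]
  rw [SCo_id hd hF hc x]
  field_simp
  ring

lemma SCoG_der (hd : 0 < d) (hF : ∀ t, HasDerivAt F (F' t) t) (hc : Continuous F')
    (hb : ∀ t, |F' t| ≤ M) (ha : ∀ t, t ≤ -1 / 2 → F' t = F' (-1 / 2)) (x : ℝ) :
    HasDerivAt (SCoG d F') (SCoH d F' (max x (-1 / 2))) x := by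
  rcases le_or_gt (-1 / 2) x with hx | hx
  · rw [max_eq_left hx]
    exact SCoG_der_hi hd hF hc hb x (by linarith)
  · rw [max_eq_right hx.le]
    have h0 : SCoH d F' (-1 / 2) = 0 := by
      have h2 : (d : ℝ) + 2 ≠ 0 := by positivity
      rw [SCoH, SCoG_lo hd ha _ le_rfl, mul_div_cancel₀ _ h2, sub_self, zero_mul]
    rw [h0]
    refine (hasDerivAt_const x (F' (-1 / 2) / (d + 2))).congr_of_eventuallyEq ?_
    filter_upwards [Iio_mem_nhds hx] with y hy
    exact SCoG_lo hd ha y (le_of_lt hy)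

lemma SCoN_bd (hb : ∀ t, |F' t| ≤ M) (x : ℝ) : |F' x - (d + 2) * SCoG d F' x| ≤ (d + 3) * M := by
  have h1 := abs_sub (F' x) ((d + 2) * SCoG d F' x)
  have h2 : (0 : ℝ) ≤ d + 2 := by positivity
  rw [abs_mul, abs_of_nonneg h2] at h1
  have h3 := mul_le_mul_of_nonneg_left (SCoG_bd (d := d) hb x) h2
  linarith [hb x]

lemma SCo_r {y : ℝ} (hy : -1 / 2 ≤ y) : |(2 * (y + 1))⁻¹| ≤ 1 := by
  have h : 1 ≤ 2 * (y + 1) := by linarith
  rw [abs_of_nonneg (by positivity)]
  exact inv_le_one_of_one_le₀ h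

lemma SCo_rr {y z : ℝ} (hy : -1 / 2 ≤ y) (hz : -1 / 2 ≤ z) :
    |(2 * (y + 1))⁻¹ - (2 * (z + 1))⁻¹| ≤ 2 * |y - z| := by
  have h1 : 0 < y + 1 := by linarith
  have h2 : 0 < z + 1 := by linarith
  have e : (2 * (y + 1))⁻¹ - (2 * (z + 1))⁻¹ =
      2 * (z - y) * ((2 * (y + 1))⁻¹ * (2 * (z + 1))⁻¹) := by
    field_simp
    ring
  rw [e, abs_mul, abs_mul, abs_mul, abs_sub_comm z y, abs_two]
  exact mul_le_of_le_one_right (by positivity) (mul_le_one₀ (SCo_r hy) (abs_nonneg _) (SCo_r hz))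

lemma SCoH_bd (hb : ∀ t, |F' t| ≤ M) {y : ℝ} (hy : -1 / 2 ≤ y) : |SCoH d F' y| ≤ (d + 3) * M := by
  rw [SCoH, abs_mul]
  exact (mul_le_of_le_one_right (abs_nonneg _) (SCo_r hy)).trans (SCoN_bd hb y)

lemma SCo_sol (hd : 0 < d) (hf : Antitone f) (hfc : Continuous f) (h : XF f M F F')
    (hI : ∫ t in (0 : ℝ)..2, F (t ^ 2 - 1 + 0) * t ^ (d - 1) = 0) :
    ∃ Φ g g' : ℝ → ℝ, (∀ t, HasDerivAt Φ (g t) t) ∧ (∀ t, 1 / 2 ≤ t → Φ t = 0) ∧
      XF f ((1 + (d + 4) * (d + 3)) * M) g g' ∧ ∀ t, F t = d * Φ t + 2 * ((t + 1) * g t) := by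
  have hc := h.cont' hfc
  have hM := h.nonneg
  have hcF : Continuous F := continuous_iff_continuousAt.2 fun t => (h.der t).continuousAt
  have hd0 : (0 : ℝ) ≤ d := by positivity
  have hP := SCoP_zero hcF h.zero hI
  have hg := SCoG_der hd h.der hc h.bd h.aff
  have hgb : ∀ x, |SCoH d F' (max x (-1 / 2))| ≤ (d + 3) * M := fun x =>
    SCoH_bd h.bd (le_max_right _ _)
  refine ⟨SCoP d F, SCoG d F', fun x => SCoH d F' (max x (-1 / 2)), SCo_der h.der hc h.bd, hP,
    ⟨hg, fun t ht => ?_, fun t ht => ?_, fun t => ?_, fun s t => ?_⟩, SCo_id hd h.der hc⟩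
  · have h1 := SCo_id hd h.der hc t
    rw [h.zero t ht, hP t ht] at h1
    have h2 : (t + 1) * SCoG d F' t = 0 := by linarith
    exact (mul_eq_zero.1 h2).resolve_left (by linarith)
  · rw [max_eq_right ht, max_self]
  · refine (hgb t).trans (mul_le_mul_of_nonneg_right ?_ hM)
    nlinarith
  · set y := max s (-1 / 2) with hy
    set z := max t (-1 / 2) with hz
    have y0 : -1 / 2 ≤ y := le_max_right _ _
    have z0 : -1 / 2 ≤ z := le_max_right _ _
    have a1 : |y - z| ≤ |s - t| := abs_max_sub_max_le_abs _ _ _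
    have a2 : |f y - f z| ≤ |f s - f t| := by
      rw [hy, hz, hf.map_max, hf.map_max]
      simpa using abs_min_sub_min_le_max (f s) (f (-1 / 2)) (f t) (f (-1 / 2))
    have b1 := h.osc y z
    have b2 := SCo_lip hg hgb y z
    have b3 := SCoN_bd (d := d) h.bd z
    have b4 := SCo_rr y0 z0
    have b5 := SCo_r y0
    have e : SCoH d F' y - SCoH d F' z =
        ((F' y - F' z) - (d + 2) * (SCoG d F' y - SCoG d F' z)) * (2 * (y + 1))⁻¹ +
          (F' z - (d + 2) * SCoG d F' z) * ((2 * (y + 1))⁻¹ - (2 * (z + 1))⁻¹) := by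
      simp only [SCoH]; ring
    have c1 : |((F' y - F' z) - (d + 2) * (SCoG d F' y - SCoG d F' z)) * (2 * (y + 1))⁻¹| ≤
        M * (|y - z| + |f y - f z|) + (d + 2) * ((d + 3) * M * |y - z|) := by
      rw [abs_mul]
      refine (mul_le_of_le_one_right (abs_nonneg _) b5).trans ((abs_sub _ _).trans ?_)
      rw [abs_mul, abs_of_nonneg (by positivity : (0 : ℝ) ≤ d + 2)]
      exact add_le_add b1 (mul_le_mul_of_nonneg_left b2 (by positivity))
    have c2 : |(F' z - (d + 2) * SCoG d F' z) * ((2 * (y + 1))⁻¹ - (2 * (z + 1))⁻¹)| ≤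
        (d + 3) * M * (2 * |y - z|) := by
      rw [abs_mul]
      exact mul_le_mul b3 b4 (abs_nonneg _) (by positivity)
    show |SCoH d F' y - SCoH d F' z| ≤ _
    rw [e]
    refine (abs_add_le _ _).trans ((add_le_add c1 c2).trans ?_)
    have k1 : M * (|y - z| + |f y - f z|) ≤ M * (|s - t| + |f s - f t|) :=
      mul_le_mul_of_nonneg_left (add_le_add a1 a2) hM
    have k2 : (d + 4) * (d + 3) * M * |y - z| ≤ (d + 4) * (d + 3) * M * (|s - t| + |f s - f t|) :=
      mul_le_mul_of_nonneg_left (a1.trans (le_add_of_nonneg_right (abs_nonneg _))) (by positivity)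
    nlinarith

end Sol

/-- Solving `d Φ + 2 (t + 1) Φ' = φ - c ψ` in the class of test functions. -/
theorem ode (hd : 0 < d) {ψ ψ' : ℝ → ℝ} {Mψ : ℝ} (hψ : XF (fun _ => 0) Mψ ψ ψ')
    (h0 : Cl d ψ 0 ≠ 0) : ∃ C : ℝ, 1 ≤ C ∧ ∀ (f : ℝ → ℝ) (l M : ℝ) (φ φ' : ℝ → ℝ), FOK f l →
    XF f M φ φ' → ∃ (c : ℝ) (Φ g g' : ℝ → ℝ), |c| ≤ C * M ∧ (∀ t, HasDerivAt Φ (g t) t) ∧
      (∀ t, 1 / 2 ≤ t → Φ t = 0) ∧ XF f (C * M) g g' ∧
      ∀ t, φ t = c * ψ t + d * Φ t + 2 * ((t + 1) * g t) := by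
  have hMψ := hψ.nonneg
  have hd0 : (0 : ℝ) < d := by exact_mod_cast hd
  obtain ⟨A, hA, hA0⟩ : ∃ A : ℝ, A = 2 ^ d * 3 / |Cl d ψ 0| ∧ 0 ≤ A := ⟨_, rfl, by positivity⟩
  obtain ⟨K, hK, hK1⟩ : ∃ K : ℝ, K = 1 + (d + 4) * (d + 3) ∧ 1 ≤ K :=
    ⟨_, rfl, le_add_of_nonneg_right (by positivity)⟩
  have hAM : 0 ≤ A * Mψ := mul_nonneg hA0 hMψ
  refine ⟨A + K * (1 + A * Mψ), by nlinarith, fun f l M φ φ' hf hφ => ?_⟩
  have hM := hφ.nonneg
  have cφ : Continuous φ := continuous_iff_continuousAt.2 fun t => (hφ.der t).continuousAt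
  have cψ : Continuous ψ := continuous_iff_continuousAt.2 fun t => (hψ.der t).continuousAt
  obtain ⟨c, hc⟩ : ∃ c : ℝ, c = Cl d φ 0 / Cl d ψ 0 := ⟨_, rfl⟩
  have hcA : |c| ≤ A * M := by
    have h1 := abs_Cl_le (d := d) (g := φ) (v := 0) (by norm_num) fun t ht => hφ.abs_le ht
    have h2 : 0 < |Cl d ψ 0| := abs_pos.2 h0
    rw [hc, abs_div, hA, div_mul_eq_mul_div]
    exact div_le_div_of_nonneg_right (by linarith) h2.le
  have hcM : |c| * Mψ ≤ A * Mψ * M := by nlinarith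
  have hX : XF f ((1 + A * Mψ) * M) (fun t => φ t + -c * ψ t) (fun t => φ' t + -c * ψ' t) := by
    refine ⟨fun t => (hφ.der t).add ((hψ.der t).const_mul (-c)),
      fun t ht => by rw [hφ.zero t ht, hψ.zero t ht]; ring,
      fun t ht => by rw [hφ.aff t ht, hψ.aff t ht], fun t => ?_, fun s t => ?_⟩
    · refine (abs_add_le _ _).trans ?_
      rw [abs_mul, abs_neg]
      have := mul_le_mul_of_nonneg_left (hψ.bd t) (abs_nonneg c)
      linarith [hφ.bd t]
    · have e : φ' s + -c * ψ' s - (φ' t + -c * ψ' t) = (φ' s - φ' t) + -c * (ψ' s - ψ' t) := by ring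
      rw [e]
      refine (abs_add_le _ _).trans ?_
      rw [abs_mul, abs_neg]
      have h1 := hψ.osc s t
      simp only [sub_self, abs_zero, add_zero] at h1
      have h2 := mul_le_mul_of_nonneg_left h1 (abs_nonneg c)
      have h3 := mul_le_mul_of_nonneg_right hcM (abs_nonneg (s - t))
      have h4 := hφ.osc s t
      have h5 : 0 ≤ A * Mψ * M * |f s - f t| := by positivity
      nlinarith
  have hI : Cl d (fun t => φ t + -c * ψ t) 0 = 0 := by
    rw [Cl_add cφ (by fun_prop), Cl_const_mul, hc]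
    field_simp
    ring
  have hI' : ∫ t in (0 : ℝ)..2, (fun t => φ t + -c * ψ t) (t ^ 2 - 1 + 0) * t ^ (d - 1) = 0 := by
    have h1 := sig0_pos d
    exact (mul_eq_zero.1 hI).resolve_left (by positivity)
  obtain ⟨Φ, g, g', h1, h2, h3, h4⟩ := SCo_sol hd hf.anti hf.cont hX hI'
  rw [← hK] at h3
  have hKM : 0 ≤ K * (1 + A * Mψ) * M := by positivity
  refine ⟨c, Φ, g, g', by nlinarith, h1, h2, h3.mono ?_, fun t => by linarith [h4 t]⟩
  nlinarith [mul_nonneg hA0 hM]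

end Pool.Agent.Lib.MP_ae5e3b_mp.Sh
end

-- part Pool.Agent.Lib.MP_ae5e3b_mp.SCb
section

open MeasureTheory Matrix Real
open scoped ComplexConjugate ComplexOrder

set_option linter.unusedSectionVars false

namespace Pool.Agent.Lib.MP_ae5e3b_mp.Sh

variable {d : ℕ}

lemma SCb_posSq (x : ℝ) : HasDerivAt (fun y : ℝ => max y 0 ^ 2) (2 * max x 0) x := by
  rw [hasDerivAt_iff_isLittleO]
  refine Asymptotics.IsBigO.trans_isLittleO (g := fun y => ‖y - x‖ ^ 2) ?_
    (Asymptotics.isLittleO_pow_sub_sub x one_lt_two)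
  refine Asymptotics.IsBigO.of_bound 1 (Filter.Eventually.of_forall fun y => ?_)
  simp only [Real.norm_eq_abs, abs_pow, sq_abs, one_mul, smul_eq_mul]
  rw [abs_le]
  rcases le_total x 0 with hx | hx <;> rcases le_total y 0 with hy | hy <;>
    simp only [max_eq_left, max_eq_right, hx, hy] <;> constructor <;> nlinarith

section FB
variable {β : ℝ}

lemma SCb_lip (h0 : 0 < β) (s t : ℝ) : |fb β s - fb β t| ≤ |s - t| / (2 * β) := by
  unfold fb
  have h1 := abs_max_sub_max_le_abs (min 1 ((β - s) / (2 * β))) (min 1 ((β - t) / (2 * β))) 0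
  have h2 := abs_min_sub_min_le_max 1 ((β - s) / (2 * β)) 1 ((β - t) / (2 * β))
  have h3 : |(β - s) / (2 * β) - (β - t) / (2 * β)| = |s - t| / (2 * β) := by
    rw [← sub_div, abs_div, abs_of_pos (by positivity : 0 < 2 * β), abs_sub_comm s t]
    congr 2
    ring
  rw [sub_self, abs_zero, h3, max_eq_right (by positivity)] at h2
  rw [max_comm 0, max_comm 0]
  exact h1.trans h2

lemma SCb_nonneg (t : ℝ) : 0 ≤ fb β t := le_max_left _ _

lemma SCb_le_one (t : ℝ) : fb β t ≤ 1 := max_le zero_le_one (min_le_left _ _)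

lemma fb_zero (h0 : 0 < β) {t : ℝ} (ht : β ≤ t) : fb β t = 0 :=
  max_eq_left ((min_le_right _ _).trans
    (div_nonpos_of_nonpos_of_nonneg (by linarith) (by positivity)))

lemma fb_one (h0 : 0 < β) {t : ℝ} (ht : t ≤ -β) : fb β t = 1 := by
  unfold fb
  rw [min_eq_left (by rw [le_div_iff₀ (by positivity)]; linarith), max_eq_right zero_le_one]

lemma SCb_mid (h0 : 0 < β) {t : ℝ} (h1 : -β ≤ t) (h2 : t ≤ β) : fb β t = (β - t) / (2 * β) := by
  unfold fb
  rw [min_eq_right (by rw [div_le_iff₀ (by positivity)]; linarith),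
    max_eq_right (div_nonneg (by linarith) (by positivity))]

lemma fb_fok (h0 : 0 < β) (h1 : β ≤ 1 / 4) : FOK (fb β) (1 / β) where
  anti := fun s t hst => max_le_max le_rfl (min_le_min le_rfl
    (div_le_div_of_nonneg_right (by linarith) (by positivity)))
  nonneg := SCb_nonneg
  le_one := SCb_le_one
  zero := fun t ht => fb_zero h0 (by linarith)
  one_le := by rw [le_div_iff₀ h0]; linarith
  lip := fun s t => (SCb_lip h0 s t).trans (by
    rw [div_mul_eq_mul_div, one_mul]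
    exact div_le_div_of_nonneg_left (abs_nonneg _) h0 (by linarith))

lemma SCb_phib (h0 : 0 < β) (t : ℝ) :
    phib β t = (max (β - t) 0 ^ 2 - max (-β - t) 0 ^ 2) / (4 * β) := by
  unfold phib
  split_ifs with a b
  · rw [max_eq_left (by linarith), max_eq_left (by linarith)]
    field_simp
    ring
  · rw [max_eq_left (by linarith), max_eq_right (by linarith)]
    simp
  · rw [max_eq_right (by linarith), max_eq_right (by linarith)]
    simp

lemma SCb_fb (h0 : 0 < β) (t : ℝ) :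
    fb β t = (max (β - t) 0 - max (-β - t) 0) / (2 * β) := by
  rcases le_total t (-β) with a | a
  · rw [fb_one h0 a, max_eq_left (by linarith), max_eq_left (by linarith)]
    field_simp
    ring
  · rcases le_total t β with b | b
    · rw [SCb_mid h0 a b, max_eq_left (by linarith), max_eq_right (by linarith), sub_zero]
    · rw [fb_zero h0 b, max_eq_right (by linarith), max_eq_right (by linarith)]
      simp

lemma SCb_der (h0 : 0 < β) (t : ℝ) : HasDerivAt (phib β) (-fb β t) t := by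
  have h1 : ∀ c : ℝ, HasDerivAt (fun y : ℝ => max (c - y) 0 ^ 2) (2 * max (c - t) 0 * (-1)) t :=
    fun c => (SCb_posSq (c - t)).comp t ((hasDerivAt_id t).const_sub c)
  have h2 := ((h1 β).fun_sub (h1 (-β))).div_const (4 * β)
  rw [funext (SCb_phib h0), SCb_fb h0]
  refine h2.congr_deriv ?_
  field_simp
  ring

lemma phib_xf (h0 : 0 < β) (h1 : β ≤ 1 / 4) : XF (fb β) 1 (phib β) fun t => -fb β t where
  der := SCb_der h0
  zero := fun t ht => by
    unfold phib
    rw [if_neg (by linarith), if_neg (by linarith)]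
  aff := fun t ht => by rw [fb_one h0 (by linarith), fb_one h0 (by linarith)]
  bd := fun t => by rw [abs_neg, abs_of_nonneg (SCb_nonneg t)]; exact SCb_le_one t
  osc := fun s t => by
    rw [neg_sub_neg, abs_sub_comm, one_mul]
    linarith [abs_nonneg (s - t)]

lemma le_phib (h0 : 0 < β) (t : ℝ) : max (-t) 0 ≤ phib β t := by
  unfold phib
  split_ifs with a b
  · exact max_le le_rfl (by linarith)
  · refine max_le ?_ (by positivity)
    rw [le_div_iff₀ (by positivity)]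
    nlinarith [sq_nonneg (β + t)]
  · exact max_le (by linarith) le_rfl

lemma mul_fb_add (h0 : 0 < β) (t : ℝ) : t * fb β t + phib β t ≤ β := by
  unfold phib
  split_ifs with a b
  · rw [fb_one h0 a]; linarith
  · rw [SCb_mid h0 (by linarith) b]
    have h1 : t * ((β - t) / (2 * β)) + (β - t) ^ 2 / (4 * β) = (β ^ 2 - t ^ 2) / (4 * β) := by
      field_simp
      ring
    rw [h1, div_le_iff₀ (by positivity)]
    nlinarith [sq_nonneg t, sq_nonneg β]
  · rw [fb_zero h0 (by linarith)]; linarith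

lemma SCb_lip_aux (h0 : 0 < β) (s t : ℝ) (ht : |t| ≤ 2 * β) :
    |s * fb β s - t * fb β t| ≤ 2 * |s - t| := by
  have h1 : s * fb β s - t * fb β t = (s - t) * fb β s + t * (fb β s - fb β t) := by ring
  have h2 : |(s - t) * fb β s| ≤ |s - t| := by
    rw [abs_mul, abs_of_nonneg (SCb_nonneg s)]
    exact mul_le_of_le_one_right (abs_nonneg _) (SCb_le_one s)
  have h3 : |t * (fb β s - fb β t)| ≤ |s - t| := by
    rw [abs_mul]
    refine (mul_le_mul ht (SCb_lip h0 s t) (abs_nonneg _) (by positivity)).trans_eq ?_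
    field_simp
  rw [h1]
  linarith [abs_add_le ((s - t) * fb β s) (t * (fb β s - fb β t))]

lemma mul_fb_lip (h0 : 0 < β) (s t : ℝ) : |s * fb β s - t * fb β t| ≤ 2 * |s - t| := by
  rcases le_or_gt |t| (2 * β) with ht | ht
  · exact SCb_lip_aux h0 s t ht
  rcases le_or_gt |s| (2 * β) with hs | hs
  · rw [abs_sub_comm, abs_sub_comm s t]
    exact SCb_lip_aux h0 t s hs
  have h1 := le_abs_self (s - t)
  have h2 := neg_abs_le (s - t)
  rcases lt_abs.1 ht with a | a <;> rcases lt_abs.1 hs with b | b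
  · rw [fb_zero h0 (by linarith), fb_zero h0 (by linarith), abs_le]
    constructor <;> linarith
  · rw [fb_one h0 (by linarith), fb_zero h0 (by linarith), abs_le]
    constructor <;> linarith
  · rw [fb_zero h0 (by linarith), fb_one h0 (by linarith), abs_le]
    constructor <;> linarith
  · rw [fb_one h0 (by linarith), fb_one h0 (by linarith), abs_le]
    constructor <;> linarith
end FB

lemma Cl_lower (hd : 0 < d) {β v s : ℝ} (h0 : 0 < β) (hs0 : 0 ≤ s) (hs : s ≤ 2 * sig0 d) :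
    (1 - v) * s - TF d s ≤ Cl d (phib β) v := by
  have hσ := sig0_pos d
  have hd' : (0 : ℝ) < d := Nat.cast_pos.2 hd
  have hx : 0 ≤ s / sig0 d := div_nonneg hs0 hσ.le
  obtain ⟨R, hR⟩ : ∃ R : ℝ, R = (s / sig0 d) ^ ((d : ℝ)⁻¹) := ⟨_, rfl⟩
  have hR0 : 0 ≤ R := hR ▸ Real.rpow_nonneg hx _
  have hRd : R ^ d = s / sig0 d := hR ▸ Real.rpow_inv_natCast_pow hx hd.ne'
  have hR2 : R ≤ 2 := by
    refine le_of_pow_le_pow_left₀ hd.ne' zero_le_two ?_
    rw [hRd, div_le_iff₀ hσ]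
    refine hs.trans (mul_le_mul_of_nonneg_right ?_ hσ.le)
    exact le_self_pow₀ one_le_two hd.ne'
  have hRd2 : R ^ (d + 2) = (s / sig0 d) ^ (1 + 2 / (d : ℝ)) := by
    rw [hR, ← Real.rpow_natCast, ← Real.rpow_mul hx]
    congr 1
    push_cast
    field_simp
  have hc : Continuous fun t : ℝ => phib β (t ^ 2 - 1 + v) * t ^ (d - 1) :=
    ((continuous_iff_continuousAt.2 fun t => (SCb_der h0 t).continuousAt).comp
      (by fun_prop)).mul (by fun_prop)
  have h1 : ∫ t in (0 : ℝ)..R, ((1 - v) * t ^ (d - 1) - t ^ (d + 1)) ≤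
      ∫ t in (0 : ℝ)..R, phib β (t ^ 2 - 1 + v) * t ^ (d - 1) := by
    refine intervalIntegral.integral_mono_on hR0 (Continuous.intervalIntegrable (by fun_prop) _ _)
      (hc.intervalIntegrable _ _) fun t ht => ?_
    have h2 := (le_max_left _ _).trans (le_phib h0 (t ^ 2 - 1 + v))
    have h3 : t ^ (d + 1) = t ^ 2 * t ^ (d - 1) := by
      rw [← pow_add]; congr 1; omega
    have h4 := mul_le_mul_of_nonneg_right h2 (pow_nonneg ht.1 (d - 1))
    rw [h3]
    linarith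
  have h2 : 0 ≤ ∫ t in R..2, phib β (t ^ 2 - 1 + v) * t ^ (d - 1) :=
    intervalIntegral.integral_nonneg hR2 fun t ht =>
      mul_nonneg ((le_max_right _ _).trans (le_phib h0 _)) (pow_nonneg (hR0.trans ht.1) _)
  have h3 := intervalIntegral.integral_add_adjacent_intervals (hc.intervalIntegrable (μ := volume) 0 R)
    (hc.intervalIntegrable R 2)
  have h4 : ∫ t in (0 : ℝ)..R, ((1 - v) * t ^ (d - 1) - t ^ (d + 1)) =
      (1 - v) * (R ^ d / d) - R ^ (d + 2) / (d + 2) := by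
    rw [intervalIntegral.integral_sub (Continuous.intervalIntegrable (by fun_prop) _ _)
      (Continuous.intervalIntegrable (by fun_prop) _ _), intervalIntegral.integral_const_mul,
      integral_pow, integral_pow, Nat.sub_add_cancel hd, zero_pow hd.ne', zero_pow (by omega),
      Nat.cast_pred hd]
    push_cast
    ring
  have h5 : (1 - v) * s - TF d s =
      d * sig0 d * ((1 - v) * (R ^ d / d) - R ^ (d + 2) / (d + 2)) := by
    unfold TF
    rw [hRd, hRd2]
    field_simp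
  unfold Cl
  rw [h5]
  refine mul_le_mul_of_nonneg_left ?_ (by positivity)
  linarith

lemma TF_eq (hd : 0 < d) {s : ℝ} (hs : 0 ≤ s) : TF d s = Kcl d * s ^ (1 + 2 / (d : ℝ)) := by
  have hσ := sig0_pos d
  have ho := omega_pos d
  have hd' : (0 : ℝ) < d := Nat.cast_pos.2 hd
  have h1 : sig0 d ^ (2 / (d : ℝ)) = omega d ^ (2 / (d : ℝ)) / (2 * π) ^ 2 := by
    unfold sig0
    rw [Real.div_rpow ho.le (by positivity), ← Real.rpow_natCast (2 * π) d,
      ← Real.rpow_mul (by positivity), mul_div_cancel₀ _ hd'.ne', Real.rpow_two]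
  have h2 : 0 < omega d ^ (2 / (d : ℝ)) := Real.rpow_pos_of_pos ho _
  unfold TF Kcl
  change _ = 4 * π ^ 2 * d / (d + 2) * omega d ^ (-2 / (d : ℝ)) * _
  rw [Real.div_rpow hs hσ.le, Real.rpow_add hσ, Real.rpow_one, h1, neg_div, Real.rpow_neg ho.le]
  have := Real.pi_pos
  field_simp
  ring

lemma TF_nonneg {s : ℝ} (hs : 0 ≤ s) : 0 ≤ TF d s := by
  have hσ := sig0_pos d
  unfold TF
  positivity

lemma TF_mono {s t : ℝ} (hs : 0 ≤ s) (hst : s ≤ t) : TF d s ≤ TF d t := by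
  have hσ := sig0_pos d
  unfold TF
  refine mul_le_mul_of_nonneg_left ?_ (by positivity)
  exact Real.rpow_le_rpow (by positivity) (div_le_div_of_nonneg_right hst hσ.le) (by positivity)

lemma TF_scale (hd : 0 < d) {k s : ℝ} (hk : 0 < k) (hs : 0 ≤ s) :
    TF d (k ^ d * s) = k ^ (d + 2) * TF d s := by
  have hσ := sig0_pos d
  have hd' : (0 : ℝ) < d := Nat.cast_pos.2 hd
  have h1 : (k ^ d) ^ (1 + 2 / (d : ℝ)) = k ^ (d + 2) := by
    rw [← Real.rpow_natCast k d, ← Real.rpow_mul hk.le, ← Real.rpow_natCast k (d + 2)]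
    congr 1
    push_cast
    field_simp
  unfold TF
  rw [mul_div_assoc, Real.mul_rpow (by positivity) (by positivity), h1]
  ring

lemma TF_cont : Continuous (TF d) :=
  continuous_const.mul ((Real.continuous_rpow_const (by positivity)).comp
    (continuous_id.div_const _))

lemma TFp_cont : Continuous (TFp d) :=
  (Real.continuous_rpow_const (by positivity)).comp (continuous_id.div_const _)

lemma TFp_sig0 : TFp d (sig0 d) = 1 := by
  unfold TFp
  rw [div_self (sig0_pos d).ne', Real.one_rpow]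

lemma SCb_TF_der (hd : 0 < d) {s : ℝ} (hs : 0 < s) : HasDerivAt (TF d) (TFp d s) s := by
  have hσ := sig0_pos d
  have hd' : (0 : ℝ) < d := Nat.cast_pos.2 hd
  have h1 := (((hasDerivAt_id s).div_const (sig0 d)).rpow_const (p := 1 + 2 / (d : ℝ))
    (Or.inl (by simp only [id]; positivity))).const_mul (sig0 d * (d / (d + 2)))
  refine h1.congr_deriv ?_
  unfold TFp
  simp only [id, add_sub_cancel_left]
  field_simp

/-- The second derivative of the Thomas-Fermi function. -/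
noncomputable def SCb_pp (d : ℕ) (s : ℝ) : ℝ :=
  1 / sig0 d * (2 / (d : ℝ)) * (s / sig0 d) ^ (2 / (d : ℝ) - 1)

lemma SCb_TFp_der {s : ℝ} (hs : 0 < s) : HasDerivAt (TFp d) (SCb_pp d s) s := by
  have hσ := sig0_pos d
  exact ((hasDerivAt_id s).div_const (sig0 d)).rpow_const (p := 2 / (d : ℝ))
    (Or.inl (by simp only [id]; positivity))

lemma SCb_pp_cont : ContinuousOn (SCb_pp d) (Set.Ioi 0) := by
  have hσ := sig0_pos d
  refine continuousOn_const.mul ((continuousOn_id.div_const _).rpow_const fun x hx => Or.inl ?_)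
  have : (0 : ℝ) < x := hx
  simp only [id]
  positivity

/-- Bounds on the interval from one half to twice the reference density. -/
theorem TF_bounds (hd : 0 < d) : ∃ C : ℝ, 1 ≤ C ∧
    (∀ s, sig0 d / 2 ≤ s → 1 ≤ C * TF d s) ∧
    (∀ s, sig0 d / 2 ≤ s → s ≤ 2 * sig0 d → 0 ≤ TFp d s ∧ TFp d s ≤ C ∧
      |1 - TFp d s| ≤ C * |s - sig0 d|) ∧
    (∀ s t, sig0 d / 2 ≤ s → s ≤ 2 * sig0 d → sig0 d / 2 ≤ t → t ≤ 2 * sig0 d →
      TF d t ≤ TF d s + TFp d s * (t - s) + C * (t - s) ^ 2) ∧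
    ∀ (L : ℝ) (σ : Tor d → ℝ), C1 L σ → (∀ x, sig0 d / 2 ≤ σ x) → (∀ x, σ x ≤ 2 * sig0 d) →
      C1 L (fun x => 1 - TFp d (σ x)) ∧ Gr L (fun x => 1 - TFp d (σ x)) ≤ C * Gr L σ := by
  have hσ := sig0_pos d
  have hd' : (0 : ℝ) < d := Nat.cast_pos.2 hd
  have hsub : Set.Icc (sig0 d / 2) (2 * sig0 d) ⊆ Set.Ioi 0 := fun x hx =>
    lt_of_lt_of_le (half_pos hσ) hx.1
  obtain ⟨K, hK⟩ := isCompact_Icc.exists_bound_of_continuousOn (SCb_pp_cont.mono hsub)
  obtain ⟨K', hK'⟩ := (isCompact_Icc (a := sig0 d / 2) (b := 2 * sig0 d)).exists_bound_of_continuousOn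
    (TFp_cont (d := d)).continuousOn
  have hm : sig0 d ∈ Set.Icc (sig0 d / 2) (2 * sig0 d) := ⟨by linarith, by linarith⟩
  have hK0 : 0 ≤ K := (norm_nonneg _).trans (hK _ hm)
  have hK0' : 0 ≤ K' := (norm_nonneg _).trans (hK' _ hm)
  have hT : 0 < TF d (sig0 d / 2) := by unfold TF; positivity
  have hlip : ∀ s ∈ Set.Icc (sig0 d / 2) (2 * sig0 d), ∀ t ∈ Set.Icc (sig0 d / 2) (2 * sig0 d),
      |TFp d t - TFp d s| ≤ K * |t - s| := fun s hs t ht =>
    (convex_Icc _ _).norm_image_sub_le_of_norm_hasDerivWithin_le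
      (fun x hx => (SCb_TFp_der (hsub hx)).hasDerivWithinAt) hK hs ht
  obtain ⟨a, ha⟩ : ∃ a : ℝ, a = (TF d (sig0 d / 2))⁻¹ := ⟨_, rfl⟩
  have ha0 : 0 ≤ a := ha ▸ (inv_pos.2 hT).le
  have ha1 : a * TF d (sig0 d / 2) = 1 := ha ▸ inv_mul_cancel₀ hT.ne'
  have hK2 := sq_nonneg K
  refine ⟨1 + a + K + K' + K ^ 2, by linarith, fun s hs => ?_, fun s h1 h2 => ⟨?_, ?_, ?_⟩,
    fun s t h1 h2 h3 h4 => ?_, fun L σ hc h1 h2 => ?_⟩
  · rw [← ha1]
    exact mul_le_mul (by linarith) (TF_mono (half_pos hσ).le hs) hT.le (by linarith)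
  · exact Real.rpow_nonneg (div_nonneg (by linarith) hσ.le) _
  · have := (le_abs_self _).trans (hK' s ⟨h1, h2⟩)
    linarith
  · have h3 := hlip _ hm s ⟨h1, h2⟩
    rw [TFp_sig0, abs_sub_comm] at h3
    exact h3.trans (mul_le_mul_of_nonneg_right (by linarith) (abs_nonneg _))
  · have hu : Set.uIcc s t ⊆ Set.Icc (sig0 d / 2) (2 * sig0 d) :=
      Set.uIcc_subset_Icc ⟨h1, h2⟩ ⟨h3, h4⟩
    have h5 := (convex_uIcc s t).norm_image_sub_le_of_norm_hasDerivWithin_le
      (f := fun x => TF d x - TFp d s * x) (f' := fun x => TFp d x - TFp d s * 1) (C := K * |t - s|)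
      (fun x hx => ((SCb_TF_der hd (hsub (hu hx))).fun_sub
        ((hasDerivAt_id x).const_mul _)).hasDerivWithinAt)
      (fun x hx => by
        rw [mul_one]
        exact (hlip s ⟨h1, h2⟩ x (hu hx)).trans
          (mul_le_mul_of_nonneg_left (Set.abs_sub_left_of_mem_uIcc hx) hK0))
      Set.left_mem_uIcc Set.right_mem_uIcc
    rw [Real.norm_eq_abs, Real.norm_eq_abs, mul_assoc, abs_mul_abs_self, ← sq] at h5
    have h6 := (le_abs_self _).trans h5
    have h7 := mul_le_mul_of_nonneg_right (show K ≤ 1 + a + K + K' + K ^ 2 by linarith)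
      (sq_nonneg (t - s))
    linarith
  · obtain ⟨h3, h4⟩ := hc.comp (F := fun t => 1 - TFp d t) (F' := fun t => -SCb_pp d t) isOpen_Ioi
      (fun x => hsub ⟨h1 x, h2 x⟩) (fun t ht => (SCb_TFp_der ht).const_sub 1) SCb_pp_cont.neg
    refine ⟨h3, (Gr_le_of_pd h3 hc (c := K) fun r x => ?_).trans
      (mul_le_mul_of_nonneg_right (by linarith) (Gr_nonneg σ))⟩
    rw [h4, abs_mul, abs_neg]
    exact mul_le_mul_of_nonneg_right (hK _ ⟨h1 x, h2 x⟩) (abs_nonneg _)

end Pool.Agent.Lib.MP_ae5e3b_mp.Sh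
end

-- part Pool.Agent.Lib.MP_ae5e3b_mp.SIb
section

open MeasureTheory Matrix Real
open scoped ComplexConjugate ComplexOrder

set_option linter.unusedSectionVars false

namespace Pool.Agent.Lib.MP_ae5e3b_mp.Sh


/-- A primitive of the smooth transition. -/
noncomputable def SIb_R (s : ℝ) : ℝ := ∫ x in (0 : ℝ)..s, smoothTransition x

lemma SIb_der (s : ℝ) : HasDerivAt SIb_R (smoothTransition s) s :=
  (smoothTransition.continuous.integral_hasStrictDerivAt 0 s).hasDerivAt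

lemma SIb_R_zero {s : ℝ} (h : s ≤ 0) : SIb_R s = 0 := by
  rw [SIb_R, intervalIntegral.integral_congr (g := fun _ => (0 : ℝ)), intervalIntegral.integral_zero]
  intro x hx
  rw [Set.uIcc_of_ge h] at hx
  exact smoothTransition.zero_of_nonpos hx.2

lemma SIb_R_nonneg (s : ℝ) : 0 ≤ SIb_R s := by
  rcases le_total s 0 with h | h
  · exact (SIb_R_zero h).ge
  · exact intervalIntegral.integral_nonneg h fun x _ => smoothTransition.nonneg x

lemma SIb_R_le {s : ℝ} (h : 0 ≤ s) : SIb_R s ≤ s := by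
  have := intervalIntegral.integral_mono_on (μ := volume) h
    (smoothTransition.continuous.intervalIntegrable 0 s)
    (continuous_const (y := (1 : ℝ)).intervalIntegrable 0 s) fun x _ => smoothTransition.le_one x
  simpa [SIb_R] using this

lemma SIb_R_ge {s : ℝ} (h : 1 ≤ s) : SIb_R s = SIb_R 1 + (s - 1) := by
  have h1 : ∫ x in (1 : ℝ)..s, smoothTransition x = s - 1 := by
    rw [intervalIntegral.integral_congr (g := fun _ => (1 : ℝ))]
    · simp
    · intro x hx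
      rw [Set.uIcc_of_le h] at hx
      exact smoothTransition.one_of_one_le hx.1
  rw [SIb_R, SIb_R, ← h1, intervalIntegral.integral_add_adjacent_intervals
    (smoothTransition.continuous.intervalIntegrable _ _)
    (smoothTransition.continuous.intervalIntegrable _ _)]

lemma SIb_le_R (s : ℝ) : s - 1 ≤ SIb_R s := by
  rcases le_total s 1 with h | h
  · linarith [SIb_R_nonneg s]
  · linarith [SIb_R_ge h, SIb_R_nonneg 1]

lemma SIb_der_aff (α β t : ℝ) :
    HasDerivAt (fun t => SIb_R (α * t + β)) (smoothTransition (α * t + β) * α) t := by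
  have h : HasDerivAt (fun t => α * t + β) α t := by
    simpa using ((hasDerivAt_id t).const_mul α).add_const β
  exact (SIb_der _).comp t h

/-- The functions of one window `[b, b + 3 u]`. -/
lemma SIb_window (b : ℝ) {u : ℝ} (hu : 0 < u) : ∃ c₁ c₁' c₂ c₂' θ θ' : ℝ → ℝ,
    (∀ t, HasDerivAt c₁ (c₁' t) t) ∧ Continuous c₁' ∧ (∀ t, HasDerivAt c₂ (c₂' t) t) ∧
    Continuous c₂' ∧ (∀ t, HasDerivAt θ (θ' t) t) ∧ Continuous θ' ∧
    (∀ t, min t b ≤ c₁ t ∧ c₁ t ≤ b + 3 * u) ∧ (∀ t, b ≤ c₂ t ∧ c₂ t ≤ max t (b + 3 * u)) ∧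
    (∀ t, cos (θ t) ≠ 0 → c₁ t = t) ∧ (∀ t, sin (θ t) ≠ 0 → c₂ t = t) ∧
    (∀ t, c₁' t ^ 2 + c₂' t ^ 2 ≤ 2) ∧
    (∀ t, t ≤ b ∨ b + 3 * u ≤ t → c₁' t ^ 2 + c₂' t ^ 2 ≤ 1) ∧ ∀ t, θ' t ^ 2 ≤ 16 / u ^ 2 := by
  have hc : ∀ α β : ℝ, Continuous fun t => smoothTransition (α * t + β) := fun α β =>
    smoothTransition.continuous.comp (by fun_prop)
  have hsq : ∀ x, (1 - smoothTransition x) ^ 2 ≤ 1 := fun x => by
    nlinarith [smoothTransition.nonneg x, smoothTransition.le_one x]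
  have hu' : u * u⁻¹ = 1 := mul_inv_cancel₀ hu.ne'
  have e1 : ∀ t, u * (u⁻¹ * t + (-(u⁻¹ * b) - 2)) = t - b - 2 * u := fun t => by
    field_simp
    ring
  have e2 : ∀ t, u * (-u⁻¹ * t + (u⁻¹ * b + 1)) = b + u - t := fun t => by
    field_simp
    ring
  have e3 : ∀ t, u * (2 * u⁻¹ * t + (-(2 * u⁻¹ * b) - 2)) = 2 * (t - b - u) := fun t => by
    field_simp
    ring
  refine ⟨fun t => t - u * SIb_R (u⁻¹ * t + (-(u⁻¹ * b) - 2)),
    fun t => 1 - smoothTransition (u⁻¹ * t + (-(u⁻¹ * b) - 2)),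
    fun t => t + u * SIb_R (-u⁻¹ * t + (u⁻¹ * b + 1)),
    fun t => 1 - smoothTransition (-u⁻¹ * t + (u⁻¹ * b + 1)),
    fun t => π / 2 * (SIb_R (2 * u⁻¹ * t + (-(2 * u⁻¹ * b) - 2)) -
      SIb_R (2 * u⁻¹ * t + (-(2 * u⁻¹ * b) - 3))),
    fun t => π / 2 * (smoothTransition (2 * u⁻¹ * t + (-(2 * u⁻¹ * b) - 2)) * (2 * u⁻¹) -
      smoothTransition (2 * u⁻¹ * t + (-(2 * u⁻¹ * b) - 3)) * (2 * u⁻¹)),
    fun t => ?_, continuous_const.sub (hc _ _), fun t => ?_, continuous_const.sub (hc _ _),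
    fun t => ((SIb_der_aff _ _ t).sub (SIb_der_aff _ _ t)).const_mul _,
    continuous_const.mul (((hc _ _).mul continuous_const).sub ((hc _ _).mul continuous_const)),
    fun t => ?_, fun t => ?_, fun t ht => ?_, fun t ht => ?_, fun t => ?_, fun t ht => ?_,
    fun t => ?_⟩
  · refine ((hasDerivAt_id t).sub ((SIb_der_aff u⁻¹ (-(u⁻¹ * b) - 2) t).const_mul u)).congr_deriv ?_
    rw [mul_left_comm, hu', mul_one]
  · refine ((hasDerivAt_id t).add ((SIb_der_aff (-u⁻¹) (u⁻¹ * b + 1) t).const_mul u)).congr_deriv ?_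
    rw [mul_left_comm, mul_neg, hu']
    ring
  · beta_reduce
    have h1 := e1 t
    generalize u⁻¹ * t + (-(u⁻¹ * b) - 2) = s at h1 ⊢
    refine ⟨?_, by nlinarith [SIb_le_R s]⟩
    rcases le_total s 0 with h | h
    · rw [SIb_R_zero h, mul_zero, sub_zero]
      exact min_le_left _ _
    · refine (min_le_right _ _).trans ?_
      nlinarith [SIb_R_le h]
  · beta_reduce
    have h1 := e2 t
    generalize -u⁻¹ * t + (u⁻¹ * b + 1) = s at h1 ⊢
    refine ⟨by nlinarith [SIb_le_R s], ?_⟩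
    rcases le_total s 0 with h | h
    · rw [SIb_R_zero h, mul_zero, add_zero]
      exact le_max_left _ _
    · refine le_trans ?_ (le_max_right _ _)
      nlinarith [SIb_R_le h]
  · beta_reduce
    have h1 := e1 t
    have h3 := e3 t
    have h4 : 2 * u⁻¹ * t + (-(2 * u⁻¹ * b) - 3) = 2 * u⁻¹ * t + (-(2 * u⁻¹ * b) - 2) - 1 := by ring
    simp only [h4] at ht
    generalize 2 * u⁻¹ * t + (-(2 * u⁻¹ * b) - 2) = s' at h3 ht
    generalize u⁻¹ * t + (-(u⁻¹ * b) - 2) = s at h1 ⊢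
    have h5 : s ≤ 0 := by
      by_contra h6
      have h7 : 2 ≤ s' := by nlinarith
      rw [SIb_R_ge (s := s') (by linarith), SIb_R_ge (s := s' - 1) (by linarith)] at ht
      exact ht (by rw [show π / 2 * (SIb_R 1 + (s' - 1) - (SIb_R 1 + (s' - 1 - 1))) = π / 2 by ring,
        cos_pi_div_two])
    rw [SIb_R_zero h5, mul_zero, sub_zero]
  · beta_reduce
    have h1 := e2 t
    have h3 := e3 t
    have h4 : 2 * u⁻¹ * t + (-(2 * u⁻¹ * b) - 3) = 2 * u⁻¹ * t + (-(2 * u⁻¹ * b) - 2) - 1 := by ring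
    simp only [h4] at ht
    generalize 2 * u⁻¹ * t + (-(2 * u⁻¹ * b) - 2) = s' at h3 ht
    generalize -u⁻¹ * t + (u⁻¹ * b + 1) = s at h1 ⊢
    have h5 : s ≤ 0 := by
      by_contra h6
      have h7 : s' ≤ 0 := by nlinarith
      rw [SIb_R_zero h7, SIb_R_zero (s := s' - 1) (by linarith)] at ht
      exact ht (by simp)
    rw [SIb_R_zero h5, mul_zero, add_zero]
  · linarith [hsq (u⁻¹ * t + (-(u⁻¹ * b) - 2)), hsq (-u⁻¹ * t + (u⁻¹ * b + 1))]
  · beta_reduce
    have h1 := e1 t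
    have h2 := e2 t
    generalize u⁻¹ * t + (-(u⁻¹ * b) - 2) = s at h1 ⊢
    generalize -u⁻¹ * t + (u⁻¹ * b + 1) = s' at h2 ⊢
    rcases ht with ht | ht
    · rw [smoothTransition.one_of_one_le (x := s') (by nlinarith)]
      linarith [hsq s]
    · rw [smoothTransition.one_of_one_le (x := s) (by nlinarith)]
      linarith [hsq s']
  · beta_reduce
    generalize 2 * u⁻¹ * t + (-(2 * u⁻¹ * b) - 2) = s
    generalize 2 * u⁻¹ * t + (-(2 * u⁻¹ * b) - 3) = s'
    have h1 : (smoothTransition s - smoothTransition s') ^ 2 ≤ 1 := by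
      nlinarith [smoothTransition.nonneg s, smoothTransition.le_one s, smoothTransition.nonneg s',
        smoothTransition.le_one s']
    have h2 : π ^ 2 ≤ 16 := by nlinarith [pi_pos, pi_le_four]
    calc (π / 2 * (smoothTransition s * (2 * u⁻¹) - smoothTransition s' * (2 * u⁻¹))) ^ 2
        = π ^ 2 * (smoothTransition s - smoothTransition s') ^ 2 / u ^ 2 := by
          field_simp
      _ ≤ 16 / u ^ 2 := by
          refine div_le_div_of_nonneg_right ?_ (sq_nonneg u)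
          nlinarith [sq_nonneg (smoothTransition s - smoothTransition s')]

lemma SIb_dom {d : ℕ} {L : ℝ} {ι : Type} (s : Finset ι) {f f' : ι → Tor d → ℝ}
    (hf : ∀ i, C1 L (f i)) (hf' : ∀ i, C1 L (f' i)) {g h : Tor d → ℝ} (hg : C1 L g) (hh : C1 L h)
    {a b : ℝ} (H : ∀ r x, ∑ i ∈ s, (pd L r (f i) x ^ 2 + pd L r (f' i) x ^ 2) ≤
      a * pd L r g x ^ 2 + b * pd L r h x ^ 2) :
    ∑ i ∈ s, (Gr L (f i) + Gr L (f' i)) ≤ a * Gr L g + b * Gr L h := by
  unfold Gr
  simp only [← Finset.sum_add_distrib, Finset.mul_sum]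
  rw [Finset.sum_comm]
  refine Finset.sum_le_sum fun r _ => ?_
  have i1 := (STc_int hg r).const_mul a
  have i2 := (STc_int hh r).const_mul b
  have i3 : ∀ i, Integrable fun x => ‖pd L r (f i) x‖ ^ 2 + ‖pd L r (f' i) x‖ ^ 2 :=
    fun i => (STc_int (hf i) r).add (STc_int (hf' i) r)
  rw [← integral_const_mul, ← integral_const_mul, ← integral_add i1 i2,
    Finset.sum_congr rfl fun i _ => (integral_add (STc_int (hf i) r) (STc_int (hf' i) r)).symm,
    ← integral_finsetSum s fun i _ => i3 i]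
  refine integral_mono (integrable_finsetSum s fun i _ => i3 i) (i1.add i2) fun x => ?_
  simpa only [Real.norm_eq_abs, sq_abs] using H r x

/-- A partition of a function into two pieces, with clipped versions. -/
theorem two_piece (d M : ℕ) (hM : 0 < M) : ∃ K : ℝ, 0 < K ∧
    ∀ (L a w : ℝ) (g χ : Tor d → ℝ), 0 < w → C1 L g → C1 L χ → (∀ x, |χ x| ≤ 1) →
    ∃ g₁ g₂ χ₁ χ₂ : Tor d → ℝ, C1 L g₁ ∧ C1 L g₂ ∧ C1 L χ₁ ∧ C1 L χ₂ ∧
      (∀ x, χ₁ x ^ 2 + χ₂ x ^ 2 = χ x ^ 2) ∧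
      (∀ x, min (g x) a ≤ g₁ x ∧ g₁ x ≤ a + w) ∧ (∀ x, a ≤ g₂ x ∧ g₂ x ≤ max (g x) (a + w)) ∧
      (∀ x, χ₁ x ≠ 0 → g₁ x = g x) ∧ (∀ x, χ₂ x ≠ 0 → g₂ x = g x) ∧
      Gr L g₁ + Gr L g₂ ≤ (1 + 2 / M) * Gr L g ∧
      Gr L χ₁ + Gr L χ₂ ≤ Gr L χ + K / w ^ 2 * Gr L g := by
  have hM' : (0 : ℝ) < M := Nat.cast_pos.2 hM
  refine ⟨144 * M ^ 2, by positivity, fun L a w g χ hw hg hχ h1 => ?_⟩
  obtain ⟨u, hu, hwu⟩ : ∃ u : ℝ, 0 < u ∧ w = M * (3 * u) :=
    ⟨w / (3 * M), by positivity, by field_simp⟩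
  choose c₁ c₁' c₂ c₂' θ θ' d₁ k₁ d₂ k₂ d₃ k₃ b₁ b₂ z₁ z₂ s₂ s₁ sθ using
    fun j : ℕ => SIb_window (a + j * (3 * u)) hu
  have G₁ := fun j => hg.comp isOpen_univ (fun _ => Set.mem_univ _) (fun t _ => d₁ j t)
    (k₁ j).continuousOn
  have G₂ := fun j => hg.comp isOpen_univ (fun _ => Set.mem_univ _) (fun t _ => d₂ j t)
    (k₂ j).continuousOn
  have hsum : ∀ t, ∑ j ∈ Finset.range M, (c₁' j t ^ 2 + c₂' j t ^ 2) ≤ M + 1 := by
    intro t
    have h2 : ∀ j ∈ Finset.range M, c₁' j t ^ 2 + c₂' j t ^ 2 ≤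
        1 + if j = ⌊(t - a) / (3 * u)⌋₊ then 1 else 0 := by
      intro j _
      split_ifs with h
      · linarith [s₂ j t]
      · rw [add_zero]
        refine s₁ j t ?_
        by_contra hc
        push Not at hc
        have h3 : (j : ℝ) ≤ (t - a) / (3 * u) := by
          rw [le_div_iff₀ (by positivity)]
          linarith [hc.1]
        have h4 : (t - a) / (3 * u) < j + 1 := by
          rw [div_lt_iff₀ (by positivity)]
          linarith [hc.2]
        exact h ((Nat.floor_eq_iff ((Nat.cast_nonneg j).trans h3)).2 ⟨h3, h4⟩).symm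
    refine (Finset.sum_le_sum h2).trans ?_
    rw [Finset.sum_add_distrib, Finset.sum_ite_eq']
    split_ifs <;> simp
  have h5 := SIb_dom (Finset.range M) (fun j => (G₁ j).1) (fun j => (G₂ j).1) hg hg
    (a := M + 1) (b := 0) fun r x => by
      simp only [(G₁ _).2, (G₂ _).2, mul_pow, ← add_mul, ← Finset.sum_mul, add_zero]
      exact mul_le_mul_of_nonneg_right (hsum _) (sq_nonneg _)
  obtain ⟨j, hj, h6⟩ := Finset.exists_le_of_sum_le (s := Finset.range M)
    (g := fun _ => (1 + 2 / M) * Gr L g) ⟨0, Finset.mem_range.2 hM⟩ (h5.trans (by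
      rw [Finset.sum_const, Finset.card_range, nsmul_eq_mul, zero_mul, add_zero, ← mul_assoc]
      refine mul_le_mul_of_nonneg_right ?_ (Gr_nonneg g)
      rw [mul_add, mul_div_cancel₀ _ hM'.ne']
      linarith))
  have hj1 : (j : ℝ) + 1 ≤ M := by exact_mod_cast Finset.mem_range.1 hj
  have hj0 : 0 ≤ (j : ℝ) * (3 * u) := by positivity
  have hj2 : a + j * (3 * u) + 3 * u ≤ a + w := by nlinarith
  have hθ : Continuous (θ j) := continuous_iff_continuousAt.2 fun t => (d₃ j t).continuousAt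
  have Gc := hg.comp isOpen_univ (fun _ => Set.mem_univ _) (fun t _ => (d₃ j t).cos)
    (((continuous_sin.comp hθ).neg.mul (k₃ j)).continuousOn)
  have Gs := hg.comp isOpen_univ (fun _ => Set.mem_univ _) (fun t _ => (d₃ j t).sin)
    (((continuous_cos.comp hθ).mul (k₃ j)).continuousOn)
  refine ⟨_, _, fun x => χ x * cos (θ j (g x)), fun x => χ x * sin (θ j (g x)), (G₁ j).1, (G₂ j).1,
    hχ.mul Gc.1, hχ.mul Gs.1, fun x => ?_, fun x => ⟨?_, (b₁ j _).2.trans hj2⟩, fun x => ⟨?_, ?_⟩,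
    fun x hx => z₁ j _ (right_ne_zero_of_mul hx), fun x hx => z₂ j _ (right_ne_zero_of_mul hx),
    h6, ?_⟩
  · rw [mul_pow, mul_pow, ← mul_add, cos_sq_add_sin_sq, mul_one]
  · exact le_trans (min_le_min le_rfl (by linarith)) (b₁ j _).1
  · linarith [(b₂ j (g x)).1]
  · exact (b₂ j _).2.trans (max_le_max le_rfl hj2)
  · have h7 := SIb_dom (Finset.univ : Finset Unit) (fun _ => hχ.mul Gc.1) (fun _ => hχ.mul Gs.1)
      hχ hg (a := 1) (b := 144 * M ^ 2 / w ^ 2) fun r x => by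
        rw [Fintype.sum_unique, pd_mul hχ Gc.1, pd_mul hχ Gs.1, Gc.2, Gs.2]
        have e : (144 * M ^ 2 / w ^ 2 : ℝ) = 16 / u ^ 2 := by
          rw [hwu]
          field_simp
          norm_num
        have h8 : χ x ^ 2 ≤ 1 := by
          rw [← sq_abs]
          exact pow_le_one₀ (abs_nonneg _) (h1 x)
        have h9 : χ x ^ 2 * θ' j (g x) ^ 2 ≤ 16 / u ^ 2 := by
          nlinarith [sθ j (g x), sq_nonneg (θ' j (g x))]
        have h10 := mul_le_mul_of_nonneg_right h9 (sq_nonneg (pd L r g x))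
        have h11 := cos_sq_add_sin_sq (θ j (g x))
        rw [e]
        refine le_trans (le_of_eq ?_) (add_le_add_right h10 _)
        linear_combination (pd L r χ x ^ 2 + χ x ^ 2 * θ' j (g x) ^ 2 * pd L r g x ^ 2) * h11
    simpa using h7

end Pool.Agent.Lib.MP_ae5e3b_mp.Sh
end
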