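import Pool.Agent.Lib.MP_ae5e3b_mp.SHc
import Pool.Agent.Lib.MP_ae5e3b_mp.SIb
import Pool.Agent.Lib.MP_ae5e3b_mp.SJb
import Pool.Agent.Lib.MP_ae5e3b_mp.SOa

-- part Pool.Agent.Lib.MP_ae5e3b_mp.SAmA
section

open MeasureTheory Matrix Real
open scoped ComplexConjugate ComplexOrder

set_option linter.unusedSectionVars false

namespace Pool.Agent.Lib.MP_ae5e3b_mp.Sh

section Gen
variable {n : Type} [Fintype n] [DecidableEq n]

lemma SAmA_vn_dg {w : n → ℝ} {y : n → ℂ} {c : ℝ} (hc : 0 ≤ c) (h : ∀ i, y i ≠ 0 → |w i| ≤ c) :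
    vn (dg w *ᵥ y) ≤ c * vn y := by
  refine SMa_le_of_sq (mul_nonneg hc (vn_nonneg y)) ?_
  rw [mul_pow, vn_sq, vn_sq, Finset.mul_sum]
  refine Finset.sum_le_sum fun i _ => ?_
  rw [dg_mulVec, norm_mul, mul_pow, Complex.norm_real, Real.norm_eq_abs]
  by_cases hy : y i = 0
  · simp [hy]
  · exact mul_le_mul_of_nonneg_right (pow_le_pow_left₀ (abs_nonneg _) (h i hy) 2) (by positivity)

lemma SAmA_rtr (G N : Matrix n n ℂ) : rtr (G * (N * Nᴴ)) =
    ∑ p, (star (N *ᵥ Pi.single p 1) ⬝ᵥ (G *ᵥ (N *ᵥ Pi.single p 1))).re := by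
  rw [← Matrix.mul_assoc, rtr_comm]
  unfold rtr
  rw [Matrix.trace, Complex.re_sum]
  refine Finset.sum_congr rfl fun p _ => ?_
  congr 1
  simp [Matrix.mul_apply, dotProduct, Matrix.mulVec, Pi.single_apply]

lemma SAmA_vn_zero : vn (0 : n → ℂ) = 0 := by simp [vn]

end Gen

variable {d : ℕ} {L : ℝ}

/-- The wave packet of a mode. -/
noncomputable def SAmA_chi (L : ℝ) (D : Tor d → ℂ) (p : Ix d L) : Ix d L → ℂ :=
  mulM L D *ᵥ Pi.single p 1

/-- The wave packet with the cutoff. -/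
noncomputable def SAmA_psi (L : ℝ) (D : Tor d → ℂ) (p : Ix d L) : Ix d L → ℂ :=
  Ph d L *ᵥ SAmA_chi L D p

section Packets
variable {q : ℝ} {D : Tor d → ℂ}

lemma SAmA_phi_ne {p : Fin d → ℝ} (h : phiS p ≠ 0) : ‖p‖ < 11 := by
  by_contra h1
  exact h (phiS_eq_zero (not_lt.1 h1))

lemma SAmA_pair (hL : Big L) (hq1 : q ≤ 1) (hD : TP L q D) (u : Tor d → ℝ) (f : ℝ → ℝ) :
    ∫ x, ‖D x‖ ^ 2 * rhoF L u f x = (L ^ d)⁻¹ *
      ∑ p, (star (SAmA_psi L D p) ⬝ᵥ (fc f (ham L u) *ᵥ SAmA_psi L D p)).re := by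
  have hc : Continuous fun x => ‖D x‖ ^ 2 := hD.cont.norm.pow 2
  rw [rhoF_pair u f hc]
  congr 1
  have e1 := mulM_mul_left hL hD (Complex.continuous_conj.comp hD.cont)
    (m := fun i => phiS (mom i)) (fun i hi => by have := SAmA_phi_ne hi; linarith)
  have e2 : (fun x => D x * ((starRingEnd ℂ) ∘ D) x) = cx fun x => ‖D x‖ ^ 2 := by
    funext x
    simp only [Function.comp, cx]
    rw [Complex.mul_conj']
    push_cast
    rfl
  have e3 : Wop L (fun x => ‖D x‖ ^ 2) = (Ph d L * mulM L D) * (Ph d L * mulM L D)ᴴ := by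
    rw [conjTranspose_mul, Ph_conjT, mulM_conjT, ← Matrix.mul_assoc]
    unfold Wop
    rw [← e2]
    congr 1
    exact e1.symm
  rw [e3, SAmA_rtr]
  simp only [SAmA_psi, SAmA_chi, Matrix.mulVec_mulVec]

lemma SAmA_chi_apply (p i : Ix d L) : SAmA_chi L D p i = mulM L D i p := by
  simp [SAmA_chi]

lemma SAmA_near (hq0 : 0 ≤ q) (hD : TP L q D) {p i : Ix d L} (h : SAmA_chi L D p i ≠ 0) :
    ‖mom i - mom p‖ ≤ q := by
  by_contra h1
  exact h (by rw [SAmA_chi_apply]; exact mulM_band hq0 hD (not_le.1 h1))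

lemma SAmA_vn_chi_le (hD : TP L q D) (h1 : ∫ x, ‖D x‖ ^ 2 = 1) (p : Ix d L) :
    vn (SAmA_chi L D p) ≤ 1 := by
  refine SMa_le_of_sq zero_le_one ?_
  have h := vn_mulM_le hD.cont (Pi.single p (1 : ℂ) : Ix d L → ℂ)
  simp only [fn_single, norm_mul, norm_ch, mul_one, h1] at h
  simpa [SAmA_chi] using h

lemma SAmA_fn_chi (hL : Big L) (hq1 : q ≤ 1) (hD : TP L q D) {p : Ix d L} (hp : ‖mom p‖ ≤ 12)
    (x : Tor d) : fn (SAmA_chi L D p) x = D x * ch (nu p) x := by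
  unfold SAmA_chi
  rw [fn_mulM hL hD, fn_single]
  intro i hi
  have : i = p := by
    by_contra h
    exact hi (Pi.single_eq_of_ne h _)
  subst this
  linarith

lemma SAmA_vn_chi (hL : Big L) (hq1 : q ≤ 1) (hD : TP L q D) (h1 : ∫ x, ‖D x‖ ^ 2 = 1)
    {p : Ix d L} (hp : ‖mom p‖ ≤ 12) : vn (SAmA_chi L D p) ^ 2 = 1 := by
  rw [← fn_l2]
  simp only [SAmA_fn_chi hL hq1 hD hp, norm_mul, norm_ch, mul_one, h1]

lemma SAmA_psi_zero (hq0 : 0 ≤ q) (hq1 : q ≤ 1) (hD : TP L q D) {p : Ix d L}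
    (hp : 12 < ‖mom p‖) : SAmA_psi L D p = 0 := by
  funext i
  unfold SAmA_psi Ph
  rw [dg_mulVec]
  by_cases h : SAmA_chi L D p i = 0
  · simp [h]
  · have h1 := SAmA_near hq0 hD h
    have h2 : ‖mom p‖ ≤ ‖mom i‖ + ‖mom i - mom p‖ := by
      calc ‖mom p‖ = ‖mom i - (mom i - mom p)‖ := by rw [sub_sub_cancel]
        _ ≤ _ := norm_sub_le _ _
    rw [phiS_eq_zero (by linarith)]
    simp

lemma SAmA_psi_eq (hq0 : 0 ≤ q) (hq1 : q ≤ 1) (hD : TP L q D) {p : Ix d L}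
    (hp : ‖mom p‖ ≤ 9) : SAmA_psi L D p = SAmA_chi L D p := by
  funext i
  unfold SAmA_psi Ph
  rw [dg_mulVec]
  by_cases h : SAmA_chi L D p i = 0
  · simp [h]
  · have h1 := SAmA_near hq0 hD h
    have h2 : ‖mom i‖ ≤ ‖mom i - mom p‖ + ‖mom p‖ := by
      calc ‖mom i‖ = ‖(mom i - mom p) + mom p‖ := by rw [sub_add_cancel]
        _ ≤ _ := norm_add_le _ _
    rw [phiS_eq_one (by linarith)]
    simp

lemma SAmA_vn_psi_le (hD : TP L q D) (h1 : ∫ x, ‖D x‖ ^ 2 = 1) (p : Ix d L) :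
    vn (SAmA_psi L D p) ≤ 1 := by
  have h := (Ph_opB (d := d) (L := L)).2 (SAmA_chi L D p)
  have h2 := SAmA_vn_chi_le hD h1 p
  unfold SAmA_psi
  linarith

/-- The decomposition of the residual. -/
lemma SAmA_split (u : Tor d → ℝ) (hu : Continuous u) (us : ℝ) (p : Ix d L) (y : Ix d L → ℂ) :
    ham L u *ᵥ (Ph d L *ᵥ y) -
        ((epsS (mom p) - 1 + phiS (mom p) ^ 2 * us : ℝ) : ℂ) • (Ph d L *ᵥ y) =
      dg (fun i => (epsS (mom i) - epsS (mom p)) * phiS (mom i)) *ᵥ y +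
        Ph d L *ᵥ (mulM L (cx u) *ᵥ (dg (fun i => phiS (mom i) ^ 2 - phiS (mom p) ^ 2) *ᵥ y)) +
        ((phiS (mom p) ^ 2 : ℝ) : ℂ) • (Ph d L *ᵥ (mulM L (cx fun x => u x - us) *ᵥ y)) := by
  have e1 : mulM L (cx fun x => u x - us) = mulM L (cx u) - (us : ℂ) • (1 : Mat d L) := by
    rw [mulM_cx_sub hu continuous_const, ← mulM_const]
    rfl
  have e2 : dg (fun i : Ix d L => phiS (mom i) ^ 2 - phiS (mom p) ^ 2) *ᵥ y =
      Ph d L *ᵥ (Ph d L *ᵥ y) - ((phiS (mom p) ^ 2 : ℝ) : ℂ) • y := by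
    funext i
    simp only [Ph, dg_mulVec, Pi.sub_apply, Pi.smul_apply, smul_eq_mul]
    push_cast
    ring
  rw [e1, e2]
  unfold ham Wop
  rw [Matrix.add_mulVec, ← Matrix.mulVec_mulVec, ← Matrix.mulVec_mulVec, Matrix.sub_mulVec,
    Matrix.mulVec_sub, Matrix.mulVec_sub, Matrix.mulVec_sub, Matrix.mulVec_smul,
    Matrix.mulVec_smul, Matrix.smul_mulVec, Matrix.one_mulVec, Matrix.mulVec_smul]
  funext i
  simp only [Ph, dg_mulVec, Pi.sub_apply, Pi.add_apply, Pi.smul_apply, smul_eq_mul]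
  push_cast
  ring

lemma SAmA_res (hL : Big L) (hq0 : 0 ≤ q) (hq1 : q ≤ 1) (hD : TP L q D)
    (h1 : ∫ x, ‖D x‖ ^ 2 = 1) {C H δ us : ℝ} {u : Tor d → ℝ} (hC : 1 ≤ C)
    (hφ : Sy (fun i : Ix d L => phiS (mom i)) C) (hε : Sy (fun i : Ix d L => epsS (mom i) - 1) C)
    (hu : Continuous u) (hH : ∀ x, |u x| ≤ H) (hH0 : 0 ≤ H) (hδ0 : 0 ≤ δ)
    (hδ : ∫ x, ‖D x‖ ^ 2 * (u x - us) ^ 2 ≤ δ ^ 2) (p : Ix d L) :
    vn (ham L u *ᵥ SAmA_psi L D p -
        ((epsS (mom p) - 1 + phiS (mom p) ^ 2 * us : ℝ) : ℂ) • SAmA_psi L D p) ≤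
      2 * C * (q * (1 + H) + δ) := by
  have hC0 : 0 ≤ C := by linarith
  by_cases hp : 12 < ‖mom p‖
  · rw [SAmA_psi_zero hq0 hq1 hD hp]
    simp only [Matrix.mulVec_zero, smul_zero, sub_zero, SAmA_vn_zero]
    positivity
  replace hp := not_lt.1 hp
  have hχ := SAmA_vn_chi_le hD h1 p
  have hχ0 := vn_nonneg (SAmA_chi L D p)
  unfold SAmA_psi
  rw [SAmA_split u hu]
  have b1 : vn (dg (fun i => (epsS (mom i) - epsS (mom p)) * phiS (mom i)) *ᵥ SAmA_chi L D p) ≤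
      C * q := by
    refine (SAmA_vn_dg (c := C * q) (by positivity) fun i hi => ?_).trans
      (mul_le_of_le_one_right (by positivity) hχ)
    have a1 := hε.2.2 i p
    have a2 := SAmA_near hq0 hD hi
    have a3 : |epsS (mom i) - epsS (mom p)| ≤ C * q := by
      have e : epsS (mom i) - epsS (mom p) = (epsS (mom i) - 1) - (epsS (mom p) - 1) := by ring
      rw [e]
      exact a1.trans (mul_le_mul_of_nonneg_left a2 hC0)
    rw [abs_mul]
    exact (mul_le_of_le_one_right (abs_nonneg _) (abs_phiS_le _)).trans a3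
  have b2 : vn (dg (fun i => phiS (mom i) ^ 2 - phiS (mom p) ^ 2) *ᵥ SAmA_chi L D p) ≤
      2 * (C * q) := by
    refine (SAmA_vn_dg (c := 2 * (C * q)) (by positivity) fun i hi => ?_).trans
      (mul_le_of_le_one_right (by positivity) hχ)
    have a1 := hφ.2.2 i p
    have a2 := SAmA_near hq0 hD hi
    have a3 : |phiS (mom i) - phiS (mom p)| ≤ C * q :=
      a1.trans (mul_le_mul_of_nonneg_left a2 hC0)
    have a4 : |phiS (mom i) + phiS (mom p)| ≤ 2 := by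
      have := abs_phiS_le (mom i)
      have := abs_phiS_le (mom p)
      have := abs_add_le (phiS (mom i)) (phiS (mom p))
      linarith
    rw [sq_sub_sq, abs_mul]
    exact mul_le_mul a4 a3 (abs_nonneg _) (by norm_num)
  have b3 : vn (Ph d L *ᵥ (mulM L (cx u) *ᵥ
      (dg (fun i => phiS (mom i) ^ 2 - phiS (mom p) ^ 2) *ᵥ SAmA_chi L D p))) ≤
      H * (2 * (C * q)) := by
    refine ((Ph_opB (d := d) (L := L)).2 _).trans ?_
    rw [one_mul]
    exact ((mulM_opB_real hu hH).2 _).trans (mul_le_mul_of_nonneg_left b2 hH0)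
  have b4 : vn (mulM L (cx fun x => u x - us) *ᵥ SAmA_chi L D p) ≤ δ := by
    refine SMa_le_of_sq hδ0 ?_
    refine (vn_mulM_le (continuous_cx (hu.sub continuous_const)) _).trans (le_trans ?_ hδ)
    refine le_of_eq ?_
    congr 1
    funext x
    rw [SAmA_fn_chi hL hq1 hD hp, norm_mul, norm_mul, norm_ch, mul_one, mul_pow]
    simp only [cx]
    rw [Complex.norm_real, Real.norm_eq_abs, sq_abs, mul_comm]
    rfl
  have b5 : vn (((phiS (mom p) ^ 2 : ℝ) : ℂ) •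
      (Ph d L *ᵥ (mulM L (cx fun x => u x - us) *ᵥ SAmA_chi L D p))) ≤ δ := by
    rw [vn_smul, Complex.norm_real, Real.norm_eq_abs]
    have a1 : |phiS (mom p) ^ 2| ≤ 1 := by
      rw [abs_pow]
      exact pow_le_one₀ (abs_nonneg _) (abs_phiS_le _)
    refine (mul_le_of_le_one_left (vn_nonneg _) a1).trans ?_
    refine ((Ph_opB (d := d) (L := L)).2 _).trans ?_
    rw [one_mul]
    exact b4
  refine (vn_add_le _ _).trans ?_
  refine (add_le_add (vn_add_le _ _) le_rfl).trans ?_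
  have a1 : δ ≤ C * δ := le_mul_of_one_le_left hδ0 hC
  have a2 : 0 ≤ C * q := by positivity
  nlinarith

end Packets

lemma SAmA_fb_nonneg (β t : ℝ) : 0 ≤ fb β t := le_max_left _ _
lemma SAmA_fb_le (β t : ℝ) : fb β t ≤ 1 := max_le zero_le_one (min_le_left _ _)

lemma SAmA_div {x R s t : ℝ} (hx : 0 ≤ x) (hR : x ≤ R) (ht : 0 < t) (hs : t ≤ s) :
    x ^ 2 / s ^ 2 ≤ R ^ 2 / t ^ 2 := by
  gcongr

/-- Local density bounds from coherent states. -/
theorem locdens (d : ℕ) : ∃ C : ℝ, 1 ≤ C ∧ ∀ (L q H a t β δ us : ℝ) (u : Tor d → ℝ) (D : Tor d → ℂ),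
    Big L → 0 ≤ q → q ≤ 1 → Continuous u → (∀ x, |u x| ≤ H) → |us| ≤ H → TP L q D →
    ∫ x, ‖D x‖ ^ 2 = 1 → 0 ≤ δ → ∫ x, ‖D x‖ ^ 2 * (u x - us) ^ 2 ≤ δ ^ 2 → 0 < β → β < t → t ≤ 1 →
    0 ≤ a → a ≤ 1 →
    (a ≤ us → ∫ x, ‖D x‖ ^ 2 * rhoF L u (fb β) x ≤
      (L ^ d)⁻¹ * ∑ i : Ix d L, (if epsS (mom i) ≤ 1 + t - a then (1 : ℝ) else 0) +
        C * (q * (1 + H) + δ) ^ 2 / (t - β) ^ 2) ∧
    (us ≤ -a → (L ^ d)⁻¹ * ∑ i : Ix d L, (if epsS (mom i) ≤ 1 + a - t then (1 : ℝ) else 0) -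
        C * (q * (1 + H) + δ) ^ 2 / (t - β) ^ 2 ≤ ∫ x, ‖D x‖ ^ 2 * rhoF L u (fb β) x) := by
  obtain ⟨C, hC, hsy⟩ := sy_all d
  have h6 : (1 : ℝ) ≤ 6 ^ d := one_le_pow₀ (by norm_num)
  refine ⟨6 ^ d * (2 * C) ^ 2, by nlinarith, ?_⟩
  intro L q H a t β δ us u D hL hq0 hq1 hu hH hus hD h1 hδ0 hδ hβ hβt ht1 ha0 ha1
  obtain ⟨hφ, hε, -⟩ := hsy L hL
  have hH0 : 0 ≤ H := (abs_nonneg _).trans hus
  have hres := SAmA_res hL hq0 hq1 hD h1 hC hφ hε hu hH hH0 hδ0 hδ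
  have hLd : 0 < L ^ d := pow_pos hL.pos d
  have htβ : 0 < t - β := by linarith
  obtain ⟨R, hR⟩ : ∃ R, R = 2 * C * (q * (1 + H) + δ) := ⟨_, rfl⟩
  rw [← hR] at hres
  have hY : 0 ≤ R ^ 2 / (t - β) ^ 2 := by positivity
  have hcard : (L ^ d)⁻¹ * ∑ _i : Ix d L, R ^ 2 / (t - β) ^ 2 ≤
      6 ^ d * (2 * C) ^ 2 * (q * (1 + H) + δ) ^ 2 / (t - β) ^ 2 := by
    have e : 6 ^ d * (2 * C) ^ 2 * (q * (1 + H) + δ) ^ 2 / (t - β) ^ 2 =
        6 ^ d * (R ^ 2 / (t - β) ^ 2) := by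
      rw [hR]
      ring
    rw [e, Finset.sum_const, Finset.card_univ, nsmul_eq_mul, ← mul_assoc]
    refine mul_le_mul_of_nonneg_right ?_ hY
    rw [inv_mul_le_iff₀ hLd]
    exact (card_le hL).trans_eq (mul_comm _ _)
  have hherm := ham_herm L u
  rw [SAmA_pair hL hq1 hD]
  constructor
  · intro has
    refine le_trans ?_ (add_le_add le_rfl hcard)
    rw [← mul_add, ← Finset.sum_add_distrib]
    refine mul_le_mul_of_nonneg_left (Finset.sum_le_sum fun p _ => ?_) (inv_pos.2 hLd).le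
    split_ifs with hp
    · have b1 := (fc_opB' hherm zero_le_one (f := fb β) fun t => by
        rw [abs_of_nonneg (SAmA_fb_nonneg β t)]
        exact SAmA_fb_le β t).form (SAmA_psi L D p) (SAmA_psi L D p)
      have b2 := SAmA_vn_psi_le hD h1 p
      have b3 := vn_nonneg (SAmA_psi L D p)
      have b4 := (Complex.re_le_norm _).trans b1
      nlinarith
    · replace hp := not_le.1 hp
      have hE : t ≤ epsS (mom p) - 1 + phiS (mom p) ^ 2 * us := by
        by_cases h10 : ‖mom p‖ ≤ 10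
        · rw [phiS_eq_one h10]
          linarith
        · have b1 := le_epsS (t := 10) (by norm_num) (by norm_num) (not_le.1 h10).le
          have b2 : 0 ≤ phiS (mom p) ^ 2 * us := mul_nonneg (sq_nonneg _) (ha0.trans has)
          linarith
      rw [zero_add]
      refine (cheb_up hherm (SAmA_fb_le β) (fun s hs => (fb_zero hβ hs).le)
        (hβt.trans_le hE) _).trans ?_
      exact SAmA_div (vn_nonneg _) (hres p) htβ (by linarith)
  · intro has
    refine le_trans (sub_le_sub_left hcard _) ?_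
    rw [← mul_sub, ← Finset.sum_sub_distrib]
    refine mul_le_mul_of_nonneg_left (Finset.sum_le_sum fun p _ => ?_) (inv_pos.2 hLd).le
    split_ifs with hp
    · have h2 : ‖mom p‖ ≤ 2 := by
        by_contra h2
        have b1 := le_epsS (t := 2) (by norm_num) (by norm_num) (not_le.1 h2).le
        linarith
      have hE : epsS (mom p) - 1 + phiS (mom p) ^ 2 * us ≤ -t := by
        rw [phiS_eq_one (by linarith)]
        linarith
      have b1 := cheb_low hherm (β := -β) (SAmA_fb_nonneg β) (fun s hs => (fb_one hβ hs).ge)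
        (hE.trans_lt (by linarith)) (SAmA_psi L D p)
      have b2 : vn (SAmA_psi L D p) ^ 2 = 1 := by
        rw [SAmA_psi_eq hq0 hq1 hD (by linarith)]
        exact SAmA_vn_chi hL hq1 hD h1 (by linarith)
      rw [b2] at b1
      refine le_trans (sub_le_sub_left ?_ _) b1
      exact SAmA_div (vn_nonneg _) (hres p) htβ (by linarith)
    · have b1 := (fc_psd' hherm (SAmA_fb_nonneg β)).re_dotProduct_nonneg (SAmA_psi L D p)
      simp only [RCLike.re_to_complex] at b1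
      linarith

end Pool.Agent.Lib.MP_ae5e3b_mp.Sh
end

-- part Pool.Agent.Lib.MP_ae5e3b_mp.SAmB
section

open MeasureTheory Matrix Real
open scoped ComplexConjugate ComplexOrder

set_option linter.unusedSectionVars false

namespace Pool.Agent.Lib.MP_ae5e3b_mp.Sh


section Aux
variable {d : ℕ} {L q q' N H τ A : ℝ} {w h : Tor d → ℝ}

lemma SAmB_Jneg (g : Tor d → ℝ) (x : Tor d) : Jr L q (fun y => -g y) x = -Jr L q g x := by
  have := Jr_const_mul (L := L) (q := q) (-1) g x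
  simpa only [neg_mul, one_mul] using this

/-- The maximum principle. -/
lemma SAmB_max (hL : 0 < L) (hq : 2 * kap L ≤ q) (hN : 0 ≤ N) (hw : Continuous w)
    (e : ∀ x, (1 + N) * w x - N * Jr L q w x = h x) : ∃ x, (∀ y, w y ≤ w x) ∧ w x ≤ h x := by
  obtain ⟨x, -, hx⟩ := isCompact_univ.exists_isMaxOn Set.univ_nonempty hw.continuousOn
  have hx' : ∀ y, w y ≤ w x := fun y => hx (Set.mem_univ y)
  refine ⟨x, hx', ?_⟩
  have := mul_le_mul_of_nonneg_left (Jr_le hL hq hw hx' x) hN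
  linarith [e x]

lemma SAmB_neg (e : ∀ x, (1 + N) * w x - N * Jr L q w x = h x) (x : Tor d) :
    (1 + N) * -w x - N * Jr L q (fun y => -w y) x = -h x := by
  rw [SAmB_Jneg]; linarith [e x]

lemma SAmB_bd (hL : 0 < L) (hq : 2 * kap L ≤ q) (hN : 0 ≤ N) (hw : Continuous w)
    (e : ∀ x, (1 + N) * w x - N * Jr L q w x = h x) (hH : ∀ x, |h x| ≤ H) (y : Tor d) :
    |w y| ≤ H := by
  obtain ⟨x, a1, a2⟩ := SAmB_max hL hq hN hw e
  obtain ⟨x', b1, b2⟩ := SAmB_max (w := fun y => -w y) (h := fun y => -h y) hL hq hN hw.neg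
    (SAmB_neg e)
  have c1 := abs_le.1 (hH x)
  have c2 := abs_le.1 (hH x')
  exact abs_le.2 ⟨by linarith [b1 y], by linarith [a1 y]⟩

lemma SAmB_sub (hL : 0 < L) (hq : 2 * kap L ≤ q) (hN : 0 < N) (hw : Continuous w)
    (e : ∀ x, (1 + N) * w x - N * Jr L q w x = h x) (hH : ∀ x, |h x| ≤ H) (h1 : 2 * H ≤ N * τ)
    (y : Tor d) : |w y - Jr L q w y| ≤ τ := by
  have a := abs_le.1 (SAmB_bd hL hq hN.le hw e hH y)
  have b := abs_le.1 (hH y)
  have c : N * (w y - Jr L q w y) = h y - w y := by linarith [e y]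
  refine abs_le.2 ⟨?_, ?_⟩
  · refine le_of_mul_le_mul_left ?_ hN
    rw [c]; linarith
  · refine le_of_mul_le_mul_left ?_ hN
    rw [c]; linarith

/-- A point where the smoothed right side is nonnegative and the smoothed potential is large. -/
lemma SAmB_pt (hL : 0 < L) (hq : 2 * kap L ≤ q) (hq' : 2 * kap L ≤ q') (hN : 0 < N)
    (hw : Continuous w) (e : ∀ x, (1 + N) * w x - N * Jr L q w x = h x) (hH : ∀ x, |h x| ≤ H)
    (h1 : 2 * H ≤ N * τ) (h2 : d * (q * H) / q' ≤ τ) (h3 : 108 * τ ≤ A) {y : Tor d}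
    (hy : A / 2 < w y) : ∃ x, 0 ≤ Jr L q' h x ∧ A / 4 ≤ Jr L q w x := by
  have k0 := kap_pos hL
  have q0 : 0 < q := by linarith
  have H0 : 0 ≤ H := (abs_nonneg _).trans (hH y)
  have τ0 : 0 ≤ τ := by
    by_contra hn
    have : N * τ < 0 := mul_neg_of_pos_of_neg hN (not_le.1 hn)
    linarith
  have cJ := Jr_C1 hL hq w
  have s1 := SAmB_sub hL hq hN hw e hH h1
  have s2 : ∀ r x, |pd L r (Jr L q w) x| ≤ q * H := fun r x =>
    abs_pd_Jr_le hL hq hw (c := 0)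
      (fun z => by rw [sub_zero]; exact SAmB_bd hL hq hN.le hw e hH z) r x
  have s3 : ∀ x, |Jr L q' w x - w x| ≤ 13 * τ := by
    intro x
    have a1 := abs_le.1 (abs_Jr_le hL hq' (hw.sub cJ.cont) s1 x)
    have a1' : Jr L q' (w - Jr L q w) x = Jr L q' w x - Jr L q' (Jr L q w) x :=
      Jr_sub hw cJ.cont x
    rw [a1'] at a1
    have a2 := abs_Jr_sub_self hL hq' cJ s2 (by positivity) x
    have a2' : 11 * d * (q * H) / q' = 11 * (d * (q * H) / q') := by ring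
    rw [a2'] at a2
    have a2'' := abs_le.1 a2
    have a3 := abs_le.1 (s1 x)
    exact abs_le.2 ⟨by linarith, by linarith⟩
  have e' : ∀ x, (1 + N) * Jr L q' w x - N * Jr L q (Jr L q' w) x = Jr L q' h x := by
    intro x
    have : h = fun x => (1 + N) * w x - N * Jr L q w x := funext fun x => (e x).symm
    rw [this, Jr_sub (g := fun x => (1 + N) * w x) (h := fun x => N * Jr L q w x)
      (continuous_const.mul hw) (continuous_const.mul cJ.cont), Jr_const_mul,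
      Jr_const_mul, Jr_comm hL hq hq']
  obtain ⟨x, b1, b2⟩ := SAmB_max hL hq hN.le (Jr_C1 hL hq' w).cont e'
  have c1 := abs_le.1 (s3 y)
  have c2 := abs_le.1 (s3 x)
  have c3 := abs_le.1 (s1 x)
  have c4 := b1 y
  exact ⟨x, by linarith, by linarith⟩

/-- The variance of the potential in the coherent state. -/
lemma SAmB_var {D : Tor d → ℂ} (cD : Continuous D) (nD : ∫ y, ‖D y‖ ^ 2 = 1)
    {u v : Tor d → ℝ} (cu : Continuous u) (cv : Continuous v) {c : ℝ}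
    (h1 : ∀ y, |u y - v y| ≤ 2 * τ) (h2 : ∫ y, ‖D y‖ ^ 2 * (v y - c) ^ 2 ≤ 120 * τ ^ 2) :
    ∫ y, ‖D y‖ ^ 2 * (u y - c) ^ 2 ≤ (16 * τ) ^ 2 := by
  have a : ∫ y, ‖D y‖ ^ 2 * (u y - c) ^ 2 ≤
      ∫ y, (8 * τ ^ 2 * ‖D y‖ ^ 2 + 2 * (‖D y‖ ^ 2 * (v y - c) ^ 2)) := by
    refine integral_mono (cont_int (by fun_prop)) (cont_int (by fun_prop)) fun y => ?_
    have b1 : (u y - v y) ^ 2 ≤ (2 * τ) ^ 2 := by
      rw [← sq_abs]; exact pow_le_pow_left₀ (abs_nonneg _) (h1 y) 2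
    have b2 : (u y - c) ^ 2 ≤ 8 * τ ^ 2 + 2 * (v y - c) ^ 2 := by
      nlinarith [sq_nonneg (u y - v y - (v y - c))]
    have b3 := mul_le_mul_of_nonneg_left b2 (sq_nonneg ‖D y‖)
    beta_reduce
    linarith
  rw [integral_add (cont_int (by fun_prop)) (cont_int (by fun_prop)), integral_const_mul,
    integral_const_mul, nD] at a
  nlinarith [sq_nonneg τ]

lemma SAmB_pow_le (hd : 0 < d) (h0 : 0 < A) (h1 : A ≤ 1) :
    (1 + A / 8 - A / 4) ^ ((d : ℝ) / 2) ≤ 1 - A / 16 := by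
  have hd' : (1 : ℝ) ≤ d := by exact_mod_cast hd
  refine (Real.rpow_le_rpow_of_exponent_ge (by linarith) (by linarith)
    (show (1 : ℝ) / 2 ≤ d / 2 by linarith)).trans ?_
  rw [← Real.sqrt_eq_rpow]
  exact Real.sqrt_le_iff.2 ⟨by linarith, by nlinarith⟩

lemma SAmB_le_pow (hd : 0 < d) (h0 : 0 < A) (h1 : A ≤ 1) :
    1 + A / 32 ≤ (1 + A / 4 - A / 8) ^ ((d : ℝ) / 2) := by
  have hd' : (1 : ℝ) ≤ d := by exact_mod_cast hd
  refine le_trans ?_ (Real.rpow_le_rpow_of_exponent_le (by linarith)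
    (show (1 : ℝ) / 2 ≤ d / 2 by linarith))
  rw [← Real.sqrt_eq_rpow]
  exact Real.le_sqrt_of_sq_le (by nlinarith)

lemma SAmB_err {C β s x : ℝ} (hC : 1 ≤ C) (h0 : 0 < A) (hβ : β ≤ A / 16) (x0 : 0 ≤ x)
    (hx : x ≤ 17 * τ) (h : 10 ^ 7 * C * τ ^ 2 ≤ s * A ^ 3) :
    C * x ^ 2 / (A / 8 - β) ^ 2 ≤ s * A / 128 := by
  have a1 : (A / 16) ^ 2 ≤ (A / 8 - β) ^ 2 := pow_le_pow_left₀ (by positivity) (by linarith) 2
  have a2 : x ^ 2 ≤ (17 * τ) ^ 2 := pow_le_pow_left₀ x0 hx 2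
  have a3 : C * x ^ 2 ≤ C * (17 * τ) ^ 2 := mul_le_mul_of_nonneg_left a2 (by linarith)
  have a4 : 0 ≤ C * τ ^ 2 := mul_nonneg (by linarith) (sq_nonneg τ)
  refine (div_le_div₀ (mul_nonneg (by linarith) (sq_nonneg _)) a3 (by positivity) a1).trans ?_
  rw [div_le_iff₀ (by positivity)]
  have : s * A / 128 * (A / 16) ^ 2 = s * A ^ 3 / 32768 := by ring
  rw [this]
  have e : C * (17 * τ) ^ 2 = 289 * (C * τ ^ 2) := by ring
  have e' : 10 ^ 7 * C * τ ^ 2 = 10000000 * (C * τ ^ 2) := by ring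
  rw [e]
  rw [e'] at h
  linarith

/-- The choice of the parameters. -/
lemma SAmB_par {Λ a C s : ℝ} (hΛ : 1 ≤ Λ) (ha : 0 < a) (hC : 1 ≤ C) (s0 : 0 < s) (s1 : s ≤ 1)
    (H0 : 0 < H) : ∃ N A τ : ℝ, 1 ≤ N ∧ 0 < A ∧ A ≤ 1 ∧ Λ ≤ a * N ∧ A ≤ a ∧ A ^ 2 * N ≤ a ∧ 0 < τ ∧
      2 * H ≤ N * τ ∧ τ ≤ s * A / 128 ∧ 10 ^ 7 * C * τ ^ 2 ≤ s * A ^ 3 := by
  obtain ⟨c, c0, c1, c2⟩ : ∃ c : ℝ, 0 < c ∧ c ≤ s / 128 ∧ 10 ^ 7 * C * c ^ 2 ≤ s := by
    refine ⟨s / (10 ^ 7 * C), by positivity, ?_, ?_⟩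
    · exact div_le_div_of_nonneg_left s0.le (by norm_num) (by linarith)
    · have e : 10 ^ 7 * C * (s / (10 ^ 7 * C)) ^ 2 = s * (s / (10 ^ 7 * C)) := by
        field_simp
      rw [e]
      refine mul_le_of_le_one_right s0.le ?_
      rw [div_le_one (by positivity)]
      linarith
  obtain ⟨B, B0, B1, B2, B3, B4⟩ : ∃ B : ℝ, 0 < B ∧ B ≤ 1 ∧ B ≤ a ∧ B ≤ a ^ 2 / Λ ∧
      B ≤ c * a / (2 * H) :=
    ⟨min (min 1 a) (min (a ^ 2 / Λ) (c * a / (2 * H))), by positivity,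
      (min_le_left _ _).trans (min_le_left _ _), (min_le_left _ _).trans (min_le_right _ _),
      (min_le_right _ _).trans (min_le_left _ _), (min_le_right _ _).trans (min_le_right _ _)⟩
  have p2 : B ^ 2 ≤ B := pow_le_of_le_one B0.le B1 two_ne_zero
  have p4 : B ^ 4 ≤ B := pow_le_of_le_one B0.le B1 four_ne_zero
  rw [le_div_iff₀ (by linarith)] at B3 B4
  refine ⟨a / B ^ 4, B ^ 2, c * B ^ 3, ?_, by positivity, p2.trans B1, ?_, p2.trans B2, ?_,
    by positivity, ?_, ?_, ?_⟩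
  · rw [le_div_iff₀ (by positivity)]; linarith
  · rw [← mul_div_assoc, le_div_iff₀ (by positivity)]
    have : Λ * B ^ 4 ≤ Λ * B := mul_le_mul_of_nonneg_left p4 (by linarith)
    nlinarith
  · apply le_of_eq; field_simp
  · have e : a / B ^ 4 * (c * B ^ 3) = c * a / B := by field_simp
    rw [e, le_div_iff₀ B0]
    linarith
  · have a1 : B ^ 3 ≤ B ^ 2 := pow_le_pow_of_le_one B0.le B1 (by norm_num)
    calc c * B ^ 3 ≤ s / 128 * B ^ 2 := mul_le_mul c1 a1 (by positivity) (by positivity)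
      _ = s * B ^ 2 / 128 := by ring
  · calc 10 ^ 7 * C * (c * B ^ 3) ^ 2 = 10 ^ 7 * C * c ^ 2 * (B ^ 2) ^ 3 := by ring
      _ ≤ s * (B ^ 2) ^ 3 := mul_le_mul_of_nonneg_right c2 (by positivity)

end Aux

/-- The amplitude of the self-consistent potential is small. -/
theorem amp {d : ℕ} (hd : 0 < d) {Λ a : ℝ} (hΛ : 1 ≤ Λ) (ha : 0 < a) :
    ∃ N q η β₁ A : ℝ, 1 ≤ N ∧ 0 < q ∧ q ≤ 1 ∧ 0 < η ∧ 0 < β₁ ∧ β₁ ≤ 1 / 4 ∧ 0 < A ∧ Λ ≤ a * N ∧
    A ≤ a ∧ A ^ 2 * N ≤ a ∧ ∃ L₀ : ℝ, 0 < L₀ ∧ ∀ (β L : ℝ) (u0 σ' w : Tor d → ℝ), 0 < β → β ≤ β₁ →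
    L₀ ≤ L → Continuous u0 → Continuous σ' → (∀ x, |u0 x| ≤ η) → (∀ x, |σ' x - sig0 d| ≤ η) →
    SCF L Λ N q β u0 σ' w → ∀ x, |u0 x + w x| ≤ A := by
  obtain ⟨C, hC, hloc⟩ := locdens d
  have s0 := sig0_pos d
  have s1 := sig0_le d
  obtain ⟨H, hH, H0⟩ : ∃ H : ℝ, H = 2 * Λ * (6 ^ d + 2) ∧ 0 < H := ⟨_, rfl, by positivity⟩
  obtain ⟨N, A, τ, N1, A0, A1, p1, p2, p3, τ0, t1, t2, t3⟩ := SAmB_par hΛ ha hC s0 s1 H0
  have t4 : 128 * τ ≤ A := by nlinarith
  obtain ⟨q', q'0, q'1, q'2⟩ : ∃ q' : ℝ, 0 < q' ∧ q' ≤ 1 ∧ q' * (1 + (H + 1)) ≤ τ := by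
    refine ⟨τ / (1 + (H + 1)), by positivity, ?_, le_of_eq (by field_simp)⟩
    rw [div_le_one (by positivity)]; linarith
  have d0 : (0 : ℝ) < d := by exact_mod_cast hd
  obtain ⟨q, q0, q1, q2⟩ : ∃ q : ℝ, 0 < q ∧ q ≤ 1 ∧ d * (q * H) / q' ≤ τ := by
    refine ⟨min 1 (τ * q' / (d * H)), by positivity, min_le_left _ _, ?_⟩
    have := min_le_right 1 (τ * q' / (d * H))
    rw [le_div_iff₀ (by positivity)] at this
    rw [div_le_iff₀ q'0]
    linarith
  obtain ⟨L₁, L10, hL₁⟩ := CNT hd (ε := sig0 d * A / 128) (by positivity)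
  obtain ⟨L₂, -, hL₂⟩ := exists_kap_le (ε := min q q' / 2) (by positivity)
  refine ⟨N, q, τ, A / 16, A, N1, q0, q1, τ0, by positivity, by linarith, A0, p1, p2, p3,
    max L₁ L₂, lt_max_of_lt_left L10, fun β L u0 σ' w β0 β1 hL cu0 cσ bu0 bσ hs => ?_⟩
  obtain ⟨big, cnt⟩ := hL₁ L ((le_max_left _ _).trans hL)
  have hk := (hL₂ L ((le_max_right _ _).trans hL)).2
  have hq : 2 * kap L ≤ q := by linarith [min_le_left q q']
  have hq' : 2 * kap L ≤ q' := by linarith [min_le_right q q']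
  have L0 := big.pos
  have N0 : 0 < N := by linarith
  have cw : Continuous w := hs.1.c1_real.cont
  have cu : Continuous fun y => u0 y + w y := cu0.add cw
  have fok := fb_fok β0 (show β ≤ 1 / 4 by linarith)
  obtain ⟨ρ, hρ⟩ : ∃ ρ, ρ = rhoF L (fun y => u0 y + w y) (fb β) := ⟨_, rfl⟩
  have cρ : Continuous ρ := by rw [hρ]; exact (dens_C1 _).cont
  have bρ : ∀ x, 0 ≤ ρ x ∧ ρ x ≤ 6 ^ d := fun x => by
    rw [hρ]; exact rhoF_bd big _ fok.nonneg fok.le_one x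
  have e : ∀ x, (1 + N) * w x - N * Jr L q w x = 2 * Λ * (ρ x - σ' x) := by
    rw [hρ]; exact hs.2
  have bh : ∀ x, |2 * Λ * (ρ x - σ' x)| ≤ H := by
    intro x
    have a1 := abs_le.1 (bσ x)
    have a2 := bρ x
    have a3 : (0 : ℝ) < 6 ^ d := by positivity
    rw [abs_mul, abs_of_nonneg (by linarith), hH]
    exact mul_le_mul_of_nonneg_left (abs_le.2 ⟨by linarith, by linarith⟩) (by linarith)
  have bw := SAmB_bd L0 hq N0.le cw e bh
  have bv := abs_Jr_le L0 hq cw bw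
  have sw := SAmB_sub L0 hq N0 cw e bh t1
  have cJ := Jr_C1 L0 hq w
  have pv : ∀ r x, |pd L r (Jr L q w) x| ≤ q * H := fun r x =>
    abs_pd_Jr_le L0 hq cw (c := 0) (fun z => by rw [sub_zero]; exact bw z) r x
  have Jh : ∀ x, Jr L q' (fun x => 2 * Λ * (ρ x - σ' x)) x =
      2 * Λ * (Jr L q' ρ x - Jr L q' σ' x) := fun x => by
    rw [Jr_const_mul, Jr_sub cρ cσ]
  have key : ∀ x, (A / 4 ≤ Jr L q w x → Jr L q' ρ x < Jr L q' σ' x) ∧
      (Jr L q w x ≤ -(A / 4) → Jr L q' σ' x < Jr L q' ρ x) := by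
    intro x
    obtain ⟨D, tD, nD, hD, -, vD⟩ := exists_D L0 hq' x
    have v1 := vD _ _ cJ pv
    have v2 : 120 * d ^ 2 * (q * H) ^ 2 / q' ^ 2 ≤ 120 * τ ^ 2 := by
      have : (d * (q * H) / q') ^ 2 ≤ τ ^ 2 := pow_le_pow_left₀ (by positivity) q2 2
      have e2 : 120 * d ^ 2 * (q * H) ^ 2 / q' ^ 2 = 120 * (d * (q * H) / q') ^ 2 := by ring
      rw [e2]; linarith
    have v3 := SAmB_var tD.cont nD cu cJ.cont (τ := τ) (fun y => by
      have a1 := abs_le.1 (bu0 y)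
      have a2 := abs_le.1 (sw y)
      exact abs_le.2 ⟨by linarith, by linarith⟩) (v1.trans v2)
    have hl := hloc L q' (H + 1) (A / 4) (A / 8) β (16 * τ) (Jr L q w x) (fun y => u0 y + w y) D
      big q'0.le q'1 cu (fun y => by
        have a1 := abs_le.1 (bu0 y)
        have a2 := abs_le.1 (bw y)
        exact abs_le.2 ⟨by linarith, by linarith⟩) (by linarith [bv x])
      (tD.mono (by linarith)) nD (by positivity) v3 β0 (by linarith) (by linarith)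
      (by positivity) (by linarith)
    rw [← hρ, ← hD ρ cρ] at hl
    have er := SAmB_err (τ := τ) (x := q' * (1 + (H + 1)) + 16 * τ) hC A0 β1 (by positivity)
      (by linarith) t3
    have bs := abs_le.1 (abs_Jr_sub_le L0 hq' cσ bσ x)
    have sA : 0 < sig0 d * A := by positivity
    refine ⟨fun hx => ?_, fun hx => ?_⟩
    · have a1 := hl.1 hx
      have a2 := (abs_le.1 (cnt (1 + A / 8 - A / 4) (by linarith) (by linarith))).2
      have a3 := mul_le_mul_of_nonneg_left (SAmB_pow_le hd A0 A1) s0.le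
      linarith
    · have a1 := hl.2 hx
      have a2 := (abs_le.1 (cnt (1 + A / 4 - A / 8) (by linarith) (by linarith))).1
      have a3 := mul_le_mul_of_nonneg_left (SAmB_le_pow hd A0 A1) s0.le
      linarith
  intro y
  have up : w y ≤ A / 2 := by
    by_contra hn
    obtain ⟨x, a1, a2⟩ := SAmB_pt L0 hq hq' N0 cw e bh t1 q2 (by linarith) (not_le.1 hn)
    rw [Jh] at a1
    have := mul_neg_of_pos_of_neg (show 0 < 2 * Λ by linarith) (sub_neg.2 ((key x).1 a2))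
    linarith
  have lo : -w y ≤ A / 2 := by
    by_contra hn
    obtain ⟨x, a1, a2⟩ := SAmB_pt (w := fun y => -w y) (h := fun x => -(2 * Λ * (ρ x - σ' x)))
      L0 hq hq' N0 cw.neg (SAmB_neg e) (fun x => by rw [abs_neg]; exact bh x) t1 q2
      (by linarith) (not_le.1 hn)
    rw [SAmB_Jneg] at a1 a2
    rw [Jh] at a1
    have := mul_pos (show 0 < 2 * Λ by linarith) (sub_pos.2 ((key x).2 (by linarith)))
    linarith
  have := abs_le.1 (bu0 y)
  exact abs_le.2 ⟨by linarith, by linarith⟩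

end Pool.Agent.Lib.MP_ae5e3b_mp.Sh
end

-- part Pool.Agent.Lib.MP_ae5e3b_mp.SFix
section

open MeasureTheory Matrix Real
open scoped ComplexConjugate ComplexOrder

set_option linter.unusedSectionVars false

namespace Pool.Agent.Lib.MP_ae5e3b_mp.Sh

section Aux
variable {d : ℕ} {L : ℝ}

lemma SFix_l2 (s : Finset (Fin d → ℤ)) (c : (Fin d → ℤ) → ℂ) :
    ∫ x : Tor d, (∑ k ∈ s, c k * ch k x).re ^ 2 ≤ ∑ k ∈ s, ‖c k‖ ^ 2 := by
  have hc : Continuous fun x : Tor d => ∑ k ∈ s, c k * ch k x :=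
    continuous_finsetSum _ fun k _ => continuous_const.mul (continuous_ch k)
  have h1 : ∀ k, coef (fun x : Tor d => ∑ k ∈ s, c k * ch k x) k = if k ∈ s then c k else 0 := by
    intro k
    rw [coef_sum _ (g := fun l x => c l * ch l x) fun l _ => continuous_const.mul (continuous_ch l)]
    simp only [coef_const_mul, coef_ch, mul_ite, mul_one, mul_zero, Finset.sum_ite_eq]
  have h2 := (parseval_sq hc).unique
    (hasSum_sum_of_ne_finset_zero (s := s) fun k hk => by simp [h1, hk])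
  rw [Finset.sum_congr rfl fun k hk => by rw [h1, if_pos hk]] at h2
  rw [← h2]
  refine integral_mono (cont_int ((Complex.continuous_re.comp hc).pow 2))
    (cont_int (hc.norm.pow 2)) fun x => ?_
  exact sq_le_sq' (neg_le_of_abs_le (Complex.abs_re_le_norm _)) (Complex.re_le_norm _)

/-- A contraction of the real trigonometric polynomials has a fixed point. -/
lemma SFix_fix (hL : 0 < L) {Q θ : ℝ} (h0 : 0 ≤ θ) (h1 : θ < 1) {G : (Tor d → ℝ) → Tor d → ℝ}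
    (hG : ∀ w, TP L Q (cx w) → TP L Q (cx (G w)))
    (hc : ∀ w w', TP L Q (cx w) → TP L Q (cx w') →
      ∫ x, (G w x - G w' x) ^ 2 ≤ θ ^ 2 * ∫ x, (w x - w' x) ^ 2) :
    ∃ w, TP L Q (cx w) ∧ G w = w := by
  classical
  obtain ⟨s, hs⟩ := exists_band (d := d) hL Q
  obtain ⟨ex, hex⟩ : ∃ ex : EuclideanSpace ℂ s → (Fin d → ℤ) → ℂ,
      ex = fun c k => if h : k ∈ s then c ⟨k, h⟩ else 0 := ⟨_, rfl⟩
  obtain ⟨W, hW⟩ : ∃ W : EuclideanSpace ℂ s → Tor d → ℝ,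
      W = fun c x => (∑ k ∈ s, ex c k * ch k x).re := ⟨_, rfl⟩
  have hWT : ∀ c, TP L Q (cx (W c)) := fun c => by
    rw [hW]
    exact TP.re ⟨s, ex c, fun k hk => (hs k).1 hk, fun _ => rfl⟩
  have hc1 : ∀ w : Tor d → ℝ, TP L Q (cx w) → Continuous w := fun w hw => hw.c1_real.cont
  obtain ⟨T, hT⟩ : ∃ T : EuclideanSpace ℂ s → EuclideanSpace ℂ s,
      T = fun c => WithLp.toLp 2 fun k : s => coef (cx (G (W c))) k := ⟨_, rfl⟩
  have hlip : ∀ c c', dist (T c) (T c') ≤ θ * dist c c' := by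
    intro c c'
    refine (sq_le_sq₀ dist_nonneg (mul_nonneg h0 dist_nonneg)).1 ?_
    have g1 := hc1 _ (hG _ (hWT c))
    have g2 := hc1 _ (hG _ (hWT c'))
    have a1 : dist (T c) (T c') ^ 2 ≤ ∫ x, (G (W c) x - G (W c') x) ^ 2 := by
      have := bessel (cont_memLp ((continuous_cx g1).sub (continuous_cx g2))) s
      rw [EuclideanSpace.dist_sq_eq, hT]
      simp only [dist_eq_norm]
      rw [Finset.sum_coe_sort s fun k => ‖coef (cx (G (W c))) k - coef (cx (G (W c'))) k‖ ^ 2]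
      simp only [← coef_sub (continuous_cx g1) (continuous_cx g2)]
      refine this.trans_eq (integral_congr_ae (Filter.Eventually.of_forall fun x => ?_))
      simp only [cx, Pi.sub_apply, ← Complex.ofReal_sub, Complex.norm_real, Real.norm_eq_abs,
        sq_abs]
    have a2 : ∫ x, (W c x - W c' x) ^ 2 ≤ dist c c' ^ 2 := by
      have := SFix_l2 s fun k => ex c k - ex c' k
      rw [EuclideanSpace.dist_sq_eq]
      refine le_trans (le_of_eq ?_) (this.trans_eq ?_)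
      · simp only [hW, sub_mul, Finset.sum_sub_distrib, Complex.sub_re]
      · rw [← Finset.sum_coe_sort s]
        refine Finset.sum_congr rfl fun k _ => ?_
        simp only [hex, dist_eq_norm, dif_pos k.2]
    rw [mul_pow]
    exact a1.trans ((hc _ _ (hWT c) (hWT c')).trans (mul_le_mul_of_nonneg_left a2 (sq_nonneg θ)))
  have hcon : ContractingWith ⟨θ, h0⟩ T := ⟨h1, LipschitzWith.of_dist_le_mul hlip⟩
  obtain ⟨c, hfix⟩ : ∃ c, T c = c := ⟨_, hcon.fixedPoint_isFixedPt⟩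
  refine ⟨W c, hWT c, funext fun x => ?_⟩
  have e1 := (hG _ (hWT c)).repr (s := s) (fun k hk => (hs k).2 hk) x
  have e2 : ∀ k ∈ s, ex c k = coef (cx (G (W c))) k := fun k hk => by
    have := congrArg (fun c : EuclideanSpace ℂ s => c ⟨k, hk⟩) hfix
    rw [hT] at this
    rw [hex]
    simp only [dif_pos hk]
    exact this.symm
  have e3 : W c x = (∑ k ∈ s, ex c k * ch k x).re := by rw [hW]
  rw [e3, Finset.sum_congr rfl fun k hk => by rw [e2 k hk], ← e1]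
  simp [cx]

lemma SFix_mono {u v : Tor d → ℝ} (hL : Big L) (hu : Continuous u) (hv : Continuous v)
    {f : ℝ → ℝ} (hf : Antitone f) :
    ∫ x, (u x - v x) * (rhoF L u f x - rhoF L v f x) ≤ 0 := by
  have hd : Continuous fun x => u x - v x := hu.sub hv
  have c1 : ∀ w : Tor d → ℝ, Integrable fun x => (u x - v x) * rhoF L w f x := fun w =>
    cont_int (hd.mul (dens_C1 _).cont)
  simp only [mul_sub (u _ - v _)]
  rw [integral_sub (c1 u) (c1 v), rhoF_pair u f hd, rhoF_pair v f hd, ← mul_sub, ← rtr_sub,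
    ← Matrix.sub_mul, ← ham_sub hu hv]
  exact mul_nonpos_of_nonneg_of_nonpos (inv_nonneg.2 (pow_nonneg hL.pos.le d))
    (mono_tr (ham_herm L u) (ham_herm L v) hf)

lemma SFix_lip {u v : Tor d → ℝ} (hL : Big L) (hu : Continuous u) (hv : Continuous v)
    {f : ℝ → ℝ} {l : ℝ} (hf : FOK f l) :
    ∫ x, (rhoF L u f x - rhoF L v f x) ^ 2 ≤
      6 ^ d * (l * 3 ^ d) ^ 2 * ∫ x, (u x - v x) ^ 2 := by
  have hl : 0 ≤ l := zero_le_one.trans hf.one_le
  have hD : 0 < L ^ d := pow_pos hL.pos d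
  have hI : 0 ≤ ∫ x, (u x - v x) ^ 2 := integral_nonneg fun x => sq_nonneg _
  have h1 : hs (Ph d L * fc f (ham L u) * Ph d L - Ph d L * fc f (ham L v) * Ph d L) ≤
      l * 3 ^ d * √(L ^ d * ∫ x, (u x - v x) ^ 2) := by
    rw [← Matrix.sub_mul, ← Matrix.mul_sub]
    refine (Ph_opB.hs_mul_right _).trans ?_
    rw [one_mul]
    refine (Ph_opB.hs_mul_left _).trans ?_
    rw [one_mul]
    refine (hs_fc_sub (ham_herm L u) (ham_herm L v) hl hf.lip).trans ?_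
    rw [ham_sub hu hv, mul_assoc]
    exact mul_le_mul_of_nonneg_left (hs_Wop hL (hu.sub hv)) hl
  have h2 := pow_le_pow_left₀ (Real.sqrt_nonneg _) h1 2
  rw [mul_pow _ (√_), Real.sq_sqrt (mul_nonneg hD.le hI)] at h2
  simp only [rhoF, ← dens_sub]
  refine (dens_l2 hL _).trans ((mul_le_mul_of_nonneg_left h2 (by positivity)).trans_eq ?_)
  field_simp

lemma SFix_JTP {q Q : ℝ} (hL : 0 < L) (hq : 2 * kap L ≤ q) {w : Tor d → ℝ} (hw : TP L Q (cx w)) :
    TP L Q (cx (Jr L q w)) :=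
  TP.of_coef hL (Jr_TP hL hq w).cont fun k ⟨_, hk⟩ => by
    rw [coef_Jr hL hq, hw.coef_eq_zero hk, mul_zero]

lemma SFix_step {δ Φ : Tor d → ℝ} (hδ : Continuous δ) (hΦ : Continuous Φ) {K : ℝ} (hK : 1 ≤ K)
    (h1 : ∫ x, δ x ^ 2 ≤ ∫ x, Φ x * δ x) (h2 : ∫ x, Φ x ^ 2 ≤ K * ∫ x, δ x ^ 2) :
    ∫ x, (δ x - K⁻¹ * Φ x) ^ 2 ≤ (1 - K⁻¹) * ∫ x, δ x ^ 2 := by
  have hK0 : 0 < K := zero_lt_one.trans_le hK
  have i1 : Integrable fun x => δ x ^ 2 := cont_int (hδ.pow 2)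
  have i2 : Integrable fun x => 2 * K⁻¹ * (Φ x * δ x) := (cont_int (hΦ.mul hδ)).const_mul _
  have i3 : Integrable fun x => K⁻¹ ^ 2 * Φ x ^ 2 := (cont_int (hΦ.pow 2)).const_mul _
  have e : ∀ x, (δ x - K⁻¹ * Φ x) ^ 2 =
      δ x ^ 2 - 2 * K⁻¹ * (Φ x * δ x) + K⁻¹ ^ 2 * Φ x ^ 2 := fun x => by ring
  simp only [e]
  rw [integral_add (i1.sub' i2) i3, integral_sub i1 i2, integral_const_mul, integral_const_mul]
  have a1 := mul_le_mul_of_nonneg_left h1 (inv_pos.2 hK0).le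
  have a2 := mul_le_mul_of_nonneg_left h2 (sq_nonneg K⁻¹)
  have a3 : K⁻¹ ^ 2 * (K * ∫ x, δ x ^ 2) = K⁻¹ * ∫ x, δ x ^ 2 := by field_simp
  linarith

end Aux

/-- Existence of a solution of the self-consistent equation. -/
theorem exists_scf {d : ℕ} {L Λ N q β : ℝ} (hL : Big L) (hΛ : 0 ≤ Λ) (hN : 0 ≤ N)
    (hq : 2 * kap L ≤ q) (h0 : 0 < β) (h1 : β ≤ 1 / 4) {u0 σ' : Tor d → ℝ} (hu : Continuous u0)
    (hσ : TP L 32 (cx σ')) : ∃ w, SCF L Λ N q β u0 σ' w := by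
  have hf := fb_fok h0 h1
  obtain ⟨C, hC⟩ : ∃ C : ℝ, C = 6 ^ d * (1 / β * 3 ^ d) ^ 2 := ⟨_, rfl⟩
  have hC0 : 0 ≤ C := by rw [hC]; positivity
  obtain ⟨K, hK⟩ : ∃ K : ℝ, K = 3 * (1 + N) ^ 2 + 3 * N ^ 2 + 12 * Λ ^ 2 * C := ⟨_, rfl⟩
  have hK1 : 1 ≤ K := by
    rw [hK]
    nlinarith [mul_nonneg (sq_nonneg Λ) hC0]
  have hK0 : 0 < K := zero_lt_one.trans_le hK1
  have hKi : K⁻¹ ≤ 1 := inv_le_one_of_one_le₀ hK1
  obtain ⟨w, hw, hfix⟩ := SFix_fix (d := d) hL.pos (Q := 32) (θ := √(1 - K⁻¹))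
    (G := fun w x => w x - K⁻¹ * ((1 + N) * w x - N * Jr L q w x -
      2 * Λ * (rhoF L (fun y => u0 y + w y) (fb β) x - σ' x))) (Real.sqrt_nonneg _)
    (by rw [Real.sqrt_lt' zero_lt_one]; linarith [inv_pos.2 hK0])
    (fun w hw => hw.sub_real ((((hw.const_mul_real _).sub_real
      ((SFix_JTP hL.pos hq hw).const_mul_real _)).sub_real
      (((dens_TP hL _).sub_real hσ).const_mul_real _)).const_mul_real _))
    (fun w w' hw hw' => by
      have c1 := hw.c1_real.cont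
      have c2 := hw'.c1_real.cont
      have cδ : Continuous fun x => w x - w' x := c1.sub c2
      have cJ := (Jr_C1 hL.pos hq fun x => w x - w' x).cont
      have cρ : Continuous fun x => rhoF L (fun y => u0 y + w y) (fb β) x -
          rhoF L (fun y => u0 y + w' y) (fb β) x := (dens_C1 _).cont.sub (dens_C1 _).cont
      have m1 := SFix_mono hL (hu.add c1) (hu.add c2) hf.anti
      have m2 := SFix_lip hL (hu.add c1) (hu.add c2) hf
      have m3 := l2_Jr_le hL.pos hq cδ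
      have m4 := sub_Jr_pos hL.pos hq cδ
      simp only [Pi.add_apply, add_sub_add_left_eq_sub] at m1 m2
      rw [← hC] at m2
      have hJ := Jr_sub (L := L) (q := q) c1 c2
      change ∫ x, (w x - w' x) * (rhoF L (fun y => u0 y + w y) (fb β) x -
        rhoF L (fun y => u0 y + w' y) (fb β) x) ≤ 0 at m1
      change ∫ x, (rhoF L (fun y => u0 y + w y) (fb β) x -
        rhoF L (fun y => u0 y + w' y) (fb β) x) ^ 2 ≤ _ at m2
      generalize rhoF L (fun y => u0 y + w y) (fb β) = ρ at *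
      generalize rhoF L (fun y => u0 y + w' y) (fb β) = ρ' at *
      generalize Jr L q (fun x => w x - w' x) = J at *
      have i0 : Integrable fun x => (w x - w' x) ^ 2 := cont_int (cδ.pow 2)
      have key := SFix_step (Φ := fun x => (1 + N) * (w x - w' x) - N * J x - 2 * Λ * (ρ x - ρ' x))
        cδ (by fun_prop) hK1 ?_ ?_
      · rw [Real.sq_sqrt (by linarith)]
        refine le_trans (le_of_eq (integral_congr_ae (Filter.Eventually.of_forall fun x => ?_))) key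
        simp only [hJ]
        ring
      · have i1 : Integrable fun x => N * ((w x - w' x - J x) * (w x - w' x)) :=
          (cont_int ((cδ.sub cJ).mul cδ)).const_mul _
        have i2 : Integrable fun x => 2 * Λ * ((w x - w' x) * (ρ x - ρ' x)) :=
          (cont_int (cδ.mul cρ)).const_mul _
        have e : ∀ x, ((1 + N) * (w x - w' x) - N * J x - 2 * Λ * (ρ x - ρ' x)) * (w x - w' x) =
            (w x - w' x) ^ 2 + N * ((w x - w' x - J x) * (w x - w' x)) -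
              2 * Λ * ((w x - w' x) * (ρ x - ρ' x)) := fun x => by ring
        simp only [e]
        rw [integral_sub (i0.fun_add i1) i2, integral_add i0 i1, integral_const_mul, integral_const_mul]
        nlinarith [mul_nonneg hN m4, mul_nonneg hΛ (neg_nonneg.2 m1)]
      · have i1 : Integrable fun x => 3 * (1 + N) ^ 2 * (w x - w' x) ^ 2 := i0.const_mul _
        have i2 : Integrable fun x => 3 * N ^ 2 * J x ^ 2 := (cont_int (cJ.pow 2)).const_mul _
        have i3 : Integrable fun x => 12 * Λ ^ 2 * (ρ x - ρ' x) ^ 2 :=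
          (cont_int (cρ.pow 2)).const_mul _
        have b1 : ∫ x, ((1 + N) * (w x - w' x) - N * J x - 2 * Λ * (ρ x - ρ' x)) ^ 2 ≤
            ∫ x, (3 * (1 + N) ^ 2 * (w x - w' x) ^ 2 + 3 * N ^ 2 * J x ^ 2 +
              12 * Λ ^ 2 * (ρ x - ρ' x) ^ 2) := by
          refine integral_mono_of_nonneg (Filter.Eventually.of_forall fun x => sq_nonneg _)
            ((i1.add i2).add i3) (Filter.Eventually.of_forall fun x => ?_)
          have e : ∀ a b c : ℝ, (a - b - c) ^ 2 ≤ 3 * a ^ 2 + 3 * b ^ 2 + 3 * c ^ 2 :=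
            fun a b c => by nlinarith [sq_nonneg (a + b), sq_nonneg (a + c), sq_nonneg (b - c)]
          exact (e _ _ _).trans_eq (by ring)
        rw [integral_add (i1.fun_add i2) i3, integral_add i1 i2, integral_const_mul, integral_const_mul,
          integral_const_mul] at b1
        have b2 := mul_le_mul_of_nonneg_left m3 (show 0 ≤ 3 * N ^ 2 by positivity)
        have b3 := mul_le_mul_of_nonneg_left m2 (show 0 ≤ 12 * Λ ^ 2 by positivity)
        rw [hK]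
        linarith)
  refine ⟨w, hw, fun x => ?_⟩
  have := congrFun hfix x
  rw [sub_eq_self, mul_eq_zero] at this
  exact sub_eq_zero.1 (this.resolve_left (inv_pos.2 hK0).ne')

end Pool.Agent.Lib.MP_ae5e3b_mp.Sh
end
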