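import Pool.Agent.Lib.MP_ae5e3b_mp.SHc
import Pool.Agent.Lib.MP_ae5e3b_mp.SOa
import Pool.Agent.Lib.MP_ae5e3b_mp.SIb

-- part Pool.Agent.Lib.MP_ae5e3b_mp.SPtw
section

open MeasureTheory Matrix Real
open scoped ComplexConjugate ComplexOrder

set_option linter.unusedSectionVars false

namespace Pool.Agent.Lib.MP_ae5e3b_mp.Sh

section Abs
variable {n : Type} [Fintype n] [DecidableEq n] {H : Matrix n n ℂ}

/-- A function below an indicator has a form below the squared norm of the projection. -/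
lemma SPtw_form_le (hH : H.IsHermitian) {g : ℝ → ℝ} (p : ℝ → Prop) [DecidablePred p]
    (h : ∀ t, g t ≤ if p t then 1 else 0) (y : n → ℂ) :
    (star y ⬝ᵥ (fc g H *ᵥ y)).re ≤ vn (fc (fun t => if p t then 1 else 0) H *ᵥ y) ^ 2 := by
  obtain ⟨U, l, u1, u2, -, hf, -⟩ := fc_spec hH
  rw [hf, hf, SMb_form, ← mulVec_mulVec, ← mulVec_mulVec, SMb_vn u1 u2, vn_sq]
  refine Finset.sum_le_sum fun i _ => ?_
  rw [dg_mulVec, norm_mul, mul_pow]
  refine mul_le_mul_of_nonneg_right ((h _).trans (le_of_eq ?_)) (sq_nonneg _)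
  split_ifs <;> simp

/-- Splitting a vector along a coordinate projection. -/
lemma SPtw_split {E : Matrix n n ℂ} (hE : OpB E 1) (p : n → Prop) [DecidablePred p] {δ : ℝ}
    (h1 : δ ≤ 1) (hδ : OpB (E * dg fun i => if p i then 1 else 0) δ) (y : n → ℂ) :
    vn (E *ᵥ y) ^ 2 ≤ (∑ i, (if p i then 0 else 1) * ‖y i‖ ^ 2) + 3 * δ * vn y ^ 2 := by
  set y1 : n → ℂ := fun i => if p i then 0 else y i with hy1
  have e : E *ᵥ y = E *ᵥ y1 + (E * dg fun i => if p i then 1 else 0) *ᵥ y := by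
    rw [← mulVec_mulVec, ← mulVec_add]
    congr 1
    funext i
    rw [Pi.add_apply, dg_mulVec, hy1]
    by_cases hi : p i <;> simp [hi]
  have s1 : vn y1 ^ 2 = ∑ i, (if p i then 0 else 1) * ‖y i‖ ^ 2 := by
    rw [vn_sq]
    refine Finset.sum_congr rfl fun i _ => ?_
    rw [hy1]
    by_cases hi : p i <;> simp [hi]
  have s2 : vn y1 ≤ vn y := by
    refine le_of_sq_le_sq ?_ (vn_nonneg y)
    rw [s1, vn_sq]
    refine Finset.sum_le_sum fun i _ => ?_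
    by_cases hi : p i <;> simp [hi]
  have a1 := hE.2 y1
  have a2 := hδ.2 y
  have a3 : vn (E *ᵥ y) ≤ vn y1 + δ * vn y := by
    rw [e]
    exact (vn_add_le _ _).trans (by linarith)
  have d0 := hδ.nonneg
  have v0 := vn_nonneg y
  have v1 := vn_nonneg y1
  have a4 : vn (E *ᵥ y) ^ 2 ≤ (vn y1 + δ * vn y) ^ 2 := pow_le_pow_left₀ (vn_nonneg _) a3 2
  have a5 : δ * (vn y1 * vn y) ≤ δ * (vn y * vn y) :=
    mul_le_mul_of_nonneg_left (mul_le_mul_of_nonneg_right s2 v0) d0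
  have a6 : δ * (δ * (vn y * vn y)) ≤ δ * (1 * (vn y * vn y)) :=
    mul_le_mul_of_nonneg_left (mul_le_mul_of_nonneg_right h1 (mul_nonneg v0 v0)) d0
  rw [← s1]
  nlinarith

lemma SPtw_ind (hH : H.IsHermitian) (p : ℝ → Prop) [DecidablePred p] :
    OpB (fc (fun t => if p t then 1 else 0) H) 1 :=
  fc_opB' hH zero_le_one fun t => by split_ifs <;> simp

/-- Two sided bound for the occupation of a vector. -/
lemma SPtw_two {k : n → ℝ} {W : Matrix n n ℂ} (hW : W.IsHermitian) {a β t δ : ℝ} (hb : OpB W a)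
    (h0 : 0 < β) (ht : β < t) (hδ : a / (t - β) ≤ δ) (h1 : δ ≤ 1) (y : n → ℂ) :
    (star y ⬝ᵥ (fc (fb β) (dg k + W) *ᵥ y)).re ≤
      (∑ i, (if t ≤ k i then 0 else 1) * ‖y i‖ ^ 2) + 3 * δ * vn y ^ 2 ∧
    (∑ i, (if k i ≤ -t then 1 else 0) * ‖y i‖ ^ 2) - 3 * δ * vn y ^ 2 ≤
      (star y ⬝ᵥ (fc (fb β) (dg k + W) *ᵥ y)).re := by
  have hH : (dg k + W).IsHermitian := (dg_herm k).add hW
  have f0 : ∀ s, 0 ≤ fb β s := fun s => le_max_left _ _
  have f1 : ∀ s, fb β s ≤ 1 := fun s => max_le zero_le_one (min_le_left _ _)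
  constructor
  · have b1 := SPtw_form_le hH (g := fb β) (fun s => s ≤ β) (fun s => by
      split_ifs with hs
      · exact f1 s
      · exact (fb_zero h0 (not_le.1 hs).le).le) y
    have b2 : OpB (dg k - (dg k + W)) a := by
      have : dg k - (dg k + W) = -W := by abel
      rw [this]
      exact hb.neg
    have b3 := (davis_kahan (dg_herm k) hH ht b2).conjT
    rw [conjTranspose_mul, fc_conjT, fc_conjT, fc_dg] at b3
    exact b1.trans (SPtw_split (SPtw_ind hH _) (fun i => t ≤ k i) h1 (b3.mono hδ) y)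
  · have b1 := SPtw_form_le hH (g := fun s => 1 - fb β s) (fun s => -β ≤ s) (fun s => by
      split_ifs with hs
      · linarith [f0 s]
      · rw [fb_one h0 (not_le.1 hs).le, sub_self]) y
    have b2 : OpB (dg k + W - dg k) a := by
      have : dg k + W - dg k = W := by abel
      rw [this]
      exact hb
    have b3 := davis_kahan hH (dg_herm k) (s := -t) (t := -β) (by linarith) b2
    rw [fc_dg, show -β - -t = t - β by ring] at b3
    have b4 := b1.trans (SPtw_split (SPtw_ind hH _) (fun i => k i ≤ -t) h1 (b3.mono hδ) y)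
    rw [fc_sub hH, fc_const hH, sub_mulVec, dotProduct_sub, Complex.sub_re, Complex.ofReal_one,
      one_smul, one_mulVec, dot_self, Complex.ofReal_re] at b4
    have b5 : vn y ^ 2 = (∑ i, (if k i ≤ -t then 1 else 0) * ‖y i‖ ^ 2) +
        ∑ i, (if k i ≤ -t then 0 else 1) * ‖y i‖ ^ 2 := by
      rw [vn_sq, ← Finset.sum_add_distrib]
      refine Finset.sum_congr rfl fun i _ => ?_
      split_ifs <;> ring
    linarith

end Abs

lemma SPtw_t (d : ℕ) {r : ℝ} (hr : 0 < r) : ∃ t : ℝ, 0 < t ∧ t ≤ 1 / 4 ∧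
    (1 + t) ^ ((d : ℝ) / 2) ≤ 1 + r ∧ 1 - r ≤ (1 - t) ^ ((d : ℝ) / 2) := by
  have hc : ContinuousAt (fun s : ℝ => s ^ ((d : ℝ) / 2)) 1 :=
    Real.continuousAt_rpow_const 1 _ (Or.inl one_ne_zero)
  obtain ⟨e, he, h⟩ := Metric.continuousAt_iff.1 hc r hr
  refine ⟨min (e / 2) (1 / 4), by positivity, min_le_right _ _, ?_, ?_⟩
  · have h1 : dist (1 + min (e / 2) (1 / 4)) 1 < e := by
      rw [Real.dist_eq, add_sub_cancel_left, abs_of_pos (by positivity)]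
      linarith [min_le_left (e / 2) (1 / 4)]
    have h2 := h h1
    rw [Real.dist_eq, Real.one_rpow] at h2
    linarith [(abs_lt.1 h2).2]
  · have h1 : dist (1 - min (e / 2) (1 / 4)) 1 < e := by
      rw [Real.dist_eq, sub_sub_cancel_left, abs_neg, abs_of_pos (by positivity)]
      linarith [min_le_left (e / 2) (1 / 4)]
    have h2 := h h1
    rw [Real.dist_eq, Real.one_rpow] at h2
    linarith [(abs_lt.1 h2).1]

/-- The projected density as a quadratic form. -/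
lemma SPtw_rho {d : ℕ} {L : ℝ} (u : Tor d → ℝ) (f : ℝ → ℝ) (x : Tor d) :
    ∃ y : Ix d L → ℂ, (∀ i, ‖y i‖ ^ 2 = lo L 6 i) ∧
      rhoP L u f x = (L ^ d)⁻¹ * (star y ⬝ᵥ (fc f (ham L u) *ᵥ y)).re := by
  refine ⟨P6 d L *ᵥ fun i => conj (ch (nu i) x), fun i => ?_, ?_⟩
  · rw [P6, dg_mulVec, norm_mul, Complex.norm_conj, norm_ch, mul_one, Complex.norm_real,
      Real.norm_eq_abs, sq_abs]
    unfold lo
    split_ifs <;> norm_num
  · rw [rhoP, dens_eq_form, star_mulVec, P6_conjT, ← dotProduct_mulVec, mulVec_mulVec,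
      mulVec_mulVec]

/-- Pointwise closeness of the density to the free one. -/
theorem ptw {d : ℕ} (hd : 0 < d) {r : ℝ} (hr : 0 < r) : ∃ a β₁ L₀ : ℝ, 0 < a ∧ 0 < β₁ ∧ 0 < L₀ ∧
    ∀ (β L : ℝ) (u : Tor d → ℝ), 0 < β → β ≤ β₁ → L₀ ≤ L → Continuous u → (∀ x, |u x| ≤ a) →
    ∀ x, |rhoP L u (fb β) x - sig0 d| ≤ r := by
  obtain ⟨t, t0, t1, tu, tl⟩ := SPtw_t d (r := r / 3) (by positivity)
  obtain ⟨L₀, hL₀, hc⟩ := CNT hd (ε := r / 3) (by positivity)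
  obtain ⟨δ, δ0, δ1, δ2⟩ : ∃ δ : ℝ, 0 < δ ∧ δ ≤ 1 ∧ 3 * δ * 6 ^ d ≤ r / 3 := by
    refine ⟨min 1 (r / (9 * 6 ^ d)), by positivity, min_le_left _ _, ?_⟩
    have h1 : min 1 (r / (9 * 6 ^ d)) ≤ r / (9 * 6 ^ d) := min_le_right _ _
    rw [le_div_iff₀ (by positivity)] at h1
    linarith
  refine ⟨δ * t / 2, t / 2, L₀, by positivity, by positivity, hL₀, ?_⟩
  intro β L u β0 β1 hL hu ha x
  obtain ⟨hB, hcnt⟩ := hc L hL
  have hp := hB.pos
  have hD : 0 < L ^ d := by positivity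
  obtain ⟨y, hy, e⟩ := SPtw_rho (L := L) u (fb β) x
  have hδ : δ * t / 2 / (t - β) ≤ δ := by
    rw [div_le_iff₀ (by linarith)]
    nlinarith
  obtain ⟨b1, b2⟩ := SPtw_two (k := fun i : Ix d L => epsS (mom i) - 1) (W := Wop L u)
    (Wop_conjT u) (Wop_opB hu ha) β0 (by linarith : β < t) hδ δ1 y
  change (star y ⬝ᵥ (fc (fb β) (ham L u) *ᵥ y)).re ≤ _ at b1
  change _ ≤ (star y ⬝ᵥ (fc (fb β) (ham L u) *ᵥ y)).re at b2
  have lo0 : ∀ i : Ix d L, 0 ≤ lo L 6 i := fun i => by rw [← hy]; positivity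
  have lo1 : ∀ i : Ix d L, lo L 6 i ≤ 1 := fun i => (le_abs_self _).trans (abs_lo_le 6 i)
  have c0 : vn y ^ 2 ≤ 6 ^ d * L ^ d := by
    refine le_trans ?_ (card_le hB)
    rw [vn_sq]
    calc ∑ i, ‖y i‖ ^ 2 ≤ ∑ _i : Ix d L, (1 : ℝ) :=
          Finset.sum_le_sum fun i _ => by rw [hy]; exact lo1 i
      _ = _ := by simp
  have c1 : (∑ i : Ix d L, (if t ≤ epsS (mom i) - 1 then 0 else 1) * ‖y i‖ ^ 2) ≤
      ∑ i : Ix d L, (if epsS (mom i) ≤ 1 + t then (1 : ℝ) else 0) := by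
    refine Finset.sum_le_sum fun i _ => ?_
    rw [hy]
    by_cases h : t ≤ epsS (mom i) - 1
    · rw [if_pos h, zero_mul]
      split_ifs <;> norm_num
    · rw [if_neg h, if_pos (by linarith [not_le.1 h]), one_mul]
      exact lo1 i
  have c2 : (∑ i : Ix d L, (if epsS (mom i) ≤ 1 - t then (1 : ℝ) else 0)) ≤
      ∑ i : Ix d L, (if epsS (mom i) - 1 ≤ -t then 1 else 0) * ‖y i‖ ^ 2 := by
    refine Finset.sum_le_sum fun i _ => ?_
    rw [hy]
    by_cases h : epsS (mom i) ≤ 1 - t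
    · rw [if_pos h, if_pos (by linarith), one_mul, lo_of_le]
      by_contra h6
      have := le_epsS (t := 6) (by norm_num) (by norm_num) (not_le.1 h6).le
      linarith
    · rw [if_neg h]
      exact mul_nonneg (by split_ifs <;> norm_num) (lo0 i)
  have k1 := abs_le.1 (hcnt (1 + t) (by linarith) (by linarith))
  have k2 := abs_le.1 (hcnt (1 - t) (by linarith) (by linarith))
  have s0 := sig0_pos d
  have s1 := sig0_le d
  have c3 : (L ^ d)⁻¹ * (3 * δ * vn y ^ 2) ≤ r / 3 := by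
    rw [inv_mul_le_iff₀ hD]
    calc 3 * δ * vn y ^ 2 ≤ 3 * δ * (6 ^ d * L ^ d) :=
          mul_le_mul_of_nonneg_left c0 (by positivity)
      _ = L ^ d * (3 * δ * 6 ^ d) := by ring
      _ ≤ _ := mul_le_mul_of_nonneg_left δ2 hD.le
  have hi : 0 ≤ (L ^ d)⁻¹ := by positivity
  have u1 := mul_le_mul_of_nonneg_left (b1.trans (add_le_add_left c1 _)) hi
  have u2 := mul_le_mul_of_nonneg_left ((sub_le_sub_right c2 _).trans b2) hi
  have m1 := mul_le_mul_of_nonneg_left tu s0.le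
  have m2 := mul_le_mul_of_nonneg_left tl s0.le
  have m3 : sig0 d * (r / 3) ≤ r / 3 := by nlinarith
  rw [mul_add] at u1 m1
  rw [mul_sub] at u2 m2
  rw [e, abs_le]
  constructor <;> linarith [k1.2, k2.1]

end Pool.Agent.Lib.MP_ae5e3b_mp.Sh
end

-- part Pool.Agent.Lib.MP_ae5e3b_mp.SOv
section

open MeasureTheory Matrix Real
open scoped ComplexConjugate ComplexOrder

set_option linter.unusedSectionVars false

namespace Pool.Agent.Lib.MP_ae5e3b_mp.Sh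

section Gram
variable {d : ℕ} {ι : Type} [Fintype ι] [DecidableEq ι]

/-- The Gram matrix of a family, with a volume factor. -/
noncomputable def SOv_gram (D : ℝ) (w : ι → Tor d → ℂ) : Matrix ι ι ℂ :=
  fun a b => (D : ℂ) * ∫ x, conj (w a x) * w b x

lemma SOv_gram_form (D : ℝ) {w : ι → Tor d → ℂ} (hw : ∀ a, Continuous (w a)) (y z : ι → ℂ) :
    star y ⬝ᵥ (SOv_gram D w *ᵥ z) =
      (D : ℂ) * ∫ x, conj (∑ a, y a * w a x) * ∑ b, z b * w b x := by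
  have h1 : ∀ x, conj (∑ a, y a * w a x) * ∑ b, z b * w b x =
      ∑ a, ∑ b, conj (y a) * z b * (conj (w a x) * w b x) := by
    intro x
    rw [map_sum, Finset.sum_mul]
    refine Finset.sum_congr rfl fun a _ => ?_
    rw [Finset.mul_sum]
    refine Finset.sum_congr rfl fun b _ => ?_
    rw [map_mul]; ring
  have hc : ∀ a b, Continuous fun x => conj (y a) * z b * (conj (w a x) * w b x) := fun a b =>
    continuous_const.mul ((Complex.continuous_conj.comp (hw a)).mul (hw b))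
  simp_rw [h1]
  rw [integral_finsetSum _ fun a _ => cont_int (continuous_finsetSum _ fun b _ => hc a b),
    Finset.mul_sum]
  simp only [dotProduct, mulVec, SOv_gram, Pi.star_apply, Finset.mul_sum]
  refine Finset.sum_congr rfl fun a _ => ?_
  rw [integral_finsetSum _ fun b _ => cont_int (hc a b), Finset.mul_sum]
  refine Finset.sum_congr rfl fun b _ => ?_
  rw [integral_const_mul, RCLike.star_def]; ring

lemma SOv_gram_self (D : ℝ) {w : ι → Tor d → ℂ} (hw : ∀ a, Continuous (w a)) (z : ι → ℂ) :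
    star z ⬝ᵥ (SOv_gram D w *ᵥ z) = ((D * ∫ x, ‖∑ a, z a * w a x‖ ^ 2 : ℝ) : ℂ) := by
  rw [SOv_gram_form D hw]
  simp_rw [Complex.conj_mul']
  rw [Complex.ofReal_mul, ← integral_complex_ofReal]
  simp

lemma SOv_gram_herm (D : ℝ) (w : ι → Tor d → ℂ) : (SOv_gram D w).IsHermitian := by
  ext a b
  simp only [conjTranspose_apply, SOv_gram, RCLike.star_def, map_mul, Complex.conj_ofReal]
  rw [← integral_conj]
  congr 2
  ext x
  simp [mul_comm]

lemma SOv_gram_psd {D : ℝ} (hD : 0 ≤ D) {w : ι → Tor d → ℂ} (hw : ∀ a, Continuous (w a)) :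
    (SOv_gram D w).PosSemidef := by
  refine PosSemidef.of_dotProduct_mulVec_nonneg (SOv_gram_herm D w) fun z => ?_
  rw [SOv_gram_self D hw]
  exact Complex.zero_le_real.2 (mul_nonneg hD (integral_nonneg fun x => by positivity))

lemma SOv_gram_opB {D c : ℝ} (hD : 0 ≤ D) (hc : 0 ≤ c) {w : ι → Tor d → ℂ}
    (hw : ∀ a, Continuous (w a))
    (h : ∀ z : ι → ℂ, D * ∫ x, ‖∑ a, z a * w a x‖ ^ 2 ≤ c * vn z ^ 2) :
    OpB (SOv_gram D w) c := by
  refine opB_of_form hc fun y z => ?_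
  rw [SOv_gram_form D hw]
  have hF : ∀ z : ι → ℂ, Continuous fun x => ∑ a, z a * w a x := fun z =>
    continuous_finsetSum _ fun a _ => continuous_const.mul (hw a)
  have h1 : ‖∫ x, conj (∑ a, y a * w a x) * ∑ b, z b * w b x‖ ≤
      ∫ x, ‖∑ a, y a * w a x‖ * ‖∑ b, z b * w b x‖ := by
    refine (norm_integral_le_integral_norm _).trans (le_of_eq ?_)
    congr 1; ext x
    rw [norm_mul, RCLike.norm_conj]
  have h2 := (le_abs_self _).trans (cs_real (hF y).norm (hF z).norm)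
  have h3 : ∀ z : ι → ℂ, √D * √(∫ x, ‖∑ a, z a * w a x‖ ^ 2) ≤ √c * vn z := by
    intro z
    rw [← Real.sqrt_mul hD, ← Real.sqrt_sq (vn_nonneg z), ← Real.sqrt_mul hc]
    exact Real.sqrt_le_sqrt (h z)
  rw [norm_mul, Complex.norm_real, Real.norm_of_nonneg hD]
  calc D * ‖∫ x, conj (∑ a, y a * w a x) * ∑ b, z b * w b x‖
      ≤ D * (√(∫ x, ‖∑ a, y a * w a x‖ ^ 2) * √(∫ x, ‖∑ a, z a * w a x‖ ^ 2)) :=
        mul_le_mul_of_nonneg_left (h1.trans h2) hD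
    _ = (√D * √(∫ x, ‖∑ a, y a * w a x‖ ^ 2)) * (√D * √(∫ x, ‖∑ a, z a * w a x‖ ^ 2)) := by
        rw [mul_mul_mul_comm, Real.mul_self_sqrt hD]
    _ ≤ (√c * vn y) * (√c * vn z) :=
        mul_le_mul (h3 y) (h3 z) (by positivity) (mul_nonneg (Real.sqrt_nonneg _) (vn_nonneg _))
    _ = c * vn y * vn z := by
        rw [mul_mul_mul_comm, Real.mul_self_sqrt hc]; ring

lemma SOv_gram_rtr (D : ℝ) (w : ι → Tor d → ℂ) :
    rtr (SOv_gram D w) = D * ∑ a, ∫ x, ‖w a x‖ ^ 2 := by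
  unfold rtr
  simp only [trace, diag, SOv_gram, Complex.re_sum, Finset.mul_sum]
  refine Finset.sum_congr rfl fun a _ => ?_
  simp_rw [Complex.conj_mul']
  have : ∫ x, ((‖w a x‖ : ℂ)) ^ 2 = ((∫ x, ‖w a x‖ ^ 2 : ℝ) : ℂ) := by
    rw [← integral_complex_ofReal]; simp
  rw [this, ← Complex.ofReal_mul, Complex.ofReal_re]

/-- The algebra behind the Bessel bound. -/
lemma SOv_bes_alg {X : Matrix ι ι ℂ} (hX : X.IsHermitian) (h1 : OpB X 1) (c : ι → ℂ) :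
    vn ((1 - ((1 / 2 : ℝ) : ℂ) • X) *ᵥ c) ^ 2 +
      (star ((1 - ((1 / 2 : ℝ) : ℂ) • X) *ᵥ c) ⬝ᵥ
        (X *ᵥ ((1 - ((1 / 2 : ℝ) : ℂ) • X) *ᵥ c))).re ≤ vn c ^ 2 := by
  set w := X *ᵥ c with hw
  have hz : (1 - ((1 / 2 : ℝ) : ℂ) • X) *ᵥ c = c - ((1 / 2 : ℝ) : ℂ) • w := by
    rw [sub_mulVec, one_mulVec, smul_mulVec]
  have hsa : ∀ y z : ι → ℂ, star (X *ᵥ y) ⬝ᵥ z = star y ⬝ᵥ (X *ᵥ z) := by
    intro y z
    rw [star_mulVec, hX.eq, dotProduct_mulVec]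
  have e1 : star w ⬝ᵥ c = star c ⬝ᵥ w := hsa c c
  have e2 : star c ⬝ᵥ (X *ᵥ w) = star w ⬝ᵥ w := (hsa c w).symm
  have key : star (c - ((1 / 2 : ℝ) : ℂ) • w) ⬝ᵥ (c - ((1 / 2 : ℝ) : ℂ) • w) +
      star (c - ((1 / 2 : ℝ) : ℂ) • w) ⬝ᵥ (X *ᵥ (c - ((1 / 2 : ℝ) : ℂ) • w)) =
      star c ⬝ᵥ c - (3 / 4 : ℂ) * (star w ⬝ᵥ w) + (1 / 4 : ℂ) * (star w ⬝ᵥ (X *ᵥ w)) := by
    rw [mulVec_sub, mulVec_smul, ← hw, star_sub, star_smul]
    simp only [sub_dotProduct, dotProduct_sub, smul_dotProduct, dotProduct_smul, smul_eq_mul,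
      RCLike.star_def, Complex.conj_ofReal, e1, e2]
    push_cast
    ring
  rw [hz]
  have h2 := congrArg Complex.re key
  rw [dot_self, dot_self, dot_self] at h2
  have h3 : (star w ⬝ᵥ (X *ᵥ w)).re ≤ vn w ^ 2 := by
    have := (Complex.re_le_norm _).trans (h1.form w w)
    nlinarith
  have e3 : ((3 / 4 : ℂ) * ((vn w ^ 2 : ℝ) : ℂ)).re = 3 / 4 * vn w ^ 2 := by
    rw [show (3 / 4 : ℂ) = ((3 / 4 : ℝ) : ℂ) by push_cast; ring, ← Complex.ofReal_mul,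
      Complex.ofReal_re]
  have e4 : ((1 / 4 : ℂ) * (star w ⬝ᵥ (X *ᵥ w))).re = 1 / 4 * (star w ⬝ᵥ (X *ᵥ w)).re := by
    rw [show (1 / 4 : ℂ) = ((1 / 4 : ℝ) : ℂ) by push_cast; ring, Complex.re_ofReal_mul]
  rw [Complex.add_re, Complex.add_re, Complex.sub_re, e3, e4, Complex.ofReal_re,
    Complex.ofReal_re] at h2
  nlinarith [sq_nonneg (vn w)]

end Gram

section Small
variable {d : ℕ} {L e G : ℝ}

/-- Small functions: sup bound `A e`, square and gradient bounds `A e G`. -/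
structure SOv_Sm (L e G : ℝ) (g : Tor d → ℝ) (A : ℝ) : Prop where
  c1 : C1 L g
  bd : ∀ x, |g x| ≤ A * e
  l2 : ∫ x, g x ^ 2 ≤ A * e * G
  gr : Gr L g ≤ A * e * G

lemma SOv_Sm.mono {g : Tor d → ℝ} {A B : ℝ} (h : SOv_Sm L e G g A) (he : 0 ≤ e) (hG : 0 ≤ G)
    (hAB : A ≤ B) : SOv_Sm L e G g B :=
  ⟨h.c1, fun x => (h.bd x).trans (by gcongr), h.l2.trans (by gcongr), h.gr.trans (by gcongr)⟩

lemma SOv_Sm.add {g k : Tor d → ℝ} {A B : ℝ} (hg : SOv_Sm L e G g A) (hk : SOv_Sm L e G k B) :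
    SOv_Sm L e G (fun x => g x + k x) (2 * A + 2 * B) := by
  refine ⟨hg.c1.add hk.c1, fun x => ?_, ?_, ?_⟩
  · have h1 := hg.bd x
    have h2 := hk.bd x
    have h3 := abs_add_le (g x) (k x)
    have h4 := abs_nonneg (g x)
    have h5 := abs_nonneg (k x)
    linarith
  · have h1 : ∫ x, (g x + k x) ^ 2 ≤ ∫ x, (2 * g x ^ 2 + 2 * k x ^ 2) := by
      refine integral_mono (cont_int ((hg.c1.cont.add hk.c1.cont).pow 2))
        (cont_int ((continuous_const.mul (hg.c1.cont.pow 2)).add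
          (continuous_const.mul (hk.c1.cont.pow 2)))) fun x => ?_
      simp only
      nlinarith [sq_nonneg (g x - k x)]
    have c1 : Continuous fun x => 2 * g x ^ 2 := continuous_const.mul (hg.c1.cont.pow 2)
    have c2 : Continuous fun x => 2 * k x ^ 2 := continuous_const.mul (hk.c1.cont.pow 2)
    rw [integral_add (cont_int c1) (cont_int c2), integral_const_mul, integral_const_mul] at h1
    have h2 := hg.l2
    have h3 := hk.l2
    linarith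
  · have h1 := Gr_add_le hg.c1 hk.c1
    have h2 := hg.gr
    have h3 := hk.gr
    linarith

lemma SOv_Sm.sum {ι : Type} [DecidableEq ι] (s : Finset ι) {g : ι → Tor d → ℝ} {A : ℝ}
    (hA : 0 ≤ A) (he : 0 ≤ e) (hG : 0 ≤ G) (hg : ∀ r, SOv_Sm L e G (g r) A) :
    SOv_Sm L e G (fun x => ∑ r ∈ s, g r x) (4 ^ s.card * A) := by
  induction s using Finset.induction_on with
  | empty =>
    simp only [Finset.sum_empty, Finset.card_empty, pow_zero, one_mul]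
    refine ⟨C1.const 0, fun x => ?_, ?_, ?_⟩
    · rw [abs_zero]; positivity
    · simp; positivity
    · rw [Gr_const]; positivity
  | insert a s ha ih =>
    simp only [Finset.sum_insert ha, Finset.card_insert_of_notMem ha]
    refine ((hg a).add ih).mono he hG ?_
    have h1 : (1 : ℝ) ≤ 4 ^ s.card := one_le_pow₀ (by norm_num)
    rw [pow_succ]
    nlinarith

lemma SOv_Sm.mul {g ζ : Tor d → ℝ} {A : ℝ} (hg : SOv_Sm L e G g A) (hA : 1 ≤ A) (he : 0 ≤ e)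
    (he1 : e ≤ 1) (hG : 0 ≤ G) (hζ : C1 L ζ) (h1 : ∀ x, |ζ x| ≤ 1) (h2 : Gr L ζ ≤ G) :
    SOv_Sm L e G (fun x => ζ x * g x) (4 * A ^ 2) := by
  have hA2 : A ≤ A ^ 2 := by nlinarith
  have hAe : A * e ≤ A ^ 2 * e := by gcongr
  have hAe0 : 0 ≤ A * e := by positivity
  refine ⟨hζ.mul hg.c1, fun x => ?_, ?_, ?_⟩
  · rw [abs_mul]
    have h3 := hg.bd x
    have h4 : |ζ x| * |g x| ≤ 1 * |g x| := mul_le_mul_of_nonneg_right (h1 x) (abs_nonneg _)
    linarith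
  · have h3 : ∫ x, (ζ x * g x) ^ 2 ≤ ∫ x, g x ^ 2 := by
      refine integral_mono (cont_int ((hζ.cont.mul hg.c1.cont).pow 2))
        (cont_int (hg.c1.cont.pow 2)) fun x => ?_
      simp only
      have h4 : ζ x ^ 2 ≤ 1 := by
        rw [← sq_abs]; exact pow_le_one₀ (abs_nonneg _) (h1 x)
      rw [mul_pow]
      nlinarith [sq_nonneg (g x)]
    have h4 := hg.l2
    have h5 : A * e * G ≤ A ^ 2 * e * G := by gcongr
    have h6 : 0 ≤ A * e * G := by positivity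
    linarith
  · have h3 := Gr_mul_le (a := 1) (b := A * e) hζ hg.c1 (fun x => h1 x) (fun x => hg.bd x)
    have h4 := hg.gr
    have h5 : A * e * G ≤ A ^ 2 * e * G := by gcongr
    have h6 : (A * e) ^ 2 * Gr L ζ ≤ A ^ 2 * e * G := by
      have h7 : (A * e) ^ 2 ≤ A ^ 2 * e := by
        rw [mul_pow]
        have : e ^ 2 ≤ e := by nlinarith
        gcongr
      exact mul_le_mul h7 h2 (Gr_nonneg _) (by positivity)
    linarith

/-- Densities of small matrices are small. -/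
lemma SOv_Sm_dens (hL : Big L) {M : Mat d L} {a : ℝ} (ha : 0 ≤ a) (he : 0 ≤ e) (hG : 0 ≤ G)
    (h1 : OpB M (a * e)) (h2 : hs M ^ 2 ≤ a * e * (L ^ d * G)) :
    SOv_Sm L e G (dens M) ((1 + 1024 * d) * 6 ^ d * a) := by
  have hD : 0 < L ^ d := pow_pos hL.pos d
  have h3 : (L ^ d)⁻¹ * hs M ^ 2 ≤ a * e * G := by
    rw [inv_mul_le_iff₀ hD]; linarith
  have h6 : (0 : ℝ) < 6 ^ d := by positivity
  have h4 : 0 ≤ 1024 * d * 6 ^ d * a * e := by positivity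
  have h5 : 0 ≤ 6 ^ d * a * e * G := by positivity
  refine ⟨dens_C1 M, fun x => ?_, ?_, ?_⟩
  · have := abs_dens_le hL h1 x
    nlinarith
  · have h7 := dens_l2 hL M
    have h8 : 6 ^ d * ((L ^ d)⁻¹ * hs M ^ 2) ≤ 6 ^ d * (a * e * G) := by gcongr
    have h9 := mul_nonneg h4 hG
    nlinarith
  · have h7 := Gr_dens_crude hL M
    have h8 : 1024 * d * 6 ^ d * ((L ^ d)⁻¹ * hs M ^ 2) ≤ 1024 * d * 6 ^ d * (a * e * G) := by
      gcongr
    nlinarith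

/-- The squared norm of a small family is small. -/
lemma SOv_Sm_fam {ι : Type} [Fintype ι] {w : ι → Tor d → ℂ} {A : ℝ} (hA : 1 ≤ A) (he : 0 ≤ e)
    (hG : 0 ≤ G) (hw : ∀ a, C1 L (w a)) (h1 : ∀ x, ∑ a, ‖w a x‖ ^ 2 ≤ A * e)
    (h2 : ∑ a, ∫ x, ‖w a x‖ ^ 2 ≤ A * G) (h3 : ∑ a, Gr L (w a) ≤ A * G) :
    SOv_Sm L e G (fun x => ∑ a, ‖w a x‖ ^ 2) (4 * A ^ 2) := by
  have hA2 : A ≤ A ^ 2 := by nlinarith
  have hAe0 : 0 ≤ A * e := by positivity
  have hc : C1 L fun x => ∑ a, ‖w a x‖ ^ 2 := C1.sum _ fun a _ => (hw a).normsq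
  have hs0 : ∀ x, 0 ≤ ∑ a, ‖w a x‖ ^ 2 := fun x => Finset.sum_nonneg fun a _ => by positivity
  refine ⟨hc, fun x => ?_, ?_, ?_⟩
  · rw [abs_of_nonneg (hs0 x)]
    have hAe : A * e ≤ A ^ 2 * e := by gcongr
    have := h1 x
    linarith
  · have h4 : ∫ x, (∑ a, ‖w a x‖ ^ 2) ^ 2 ≤ ∫ x, A * e * ∑ a, ‖w a x‖ ^ 2 := by
      refine integral_mono (cont_int (hc.cont.pow 2))
        (cont_int (continuous_const.mul hc.cont)) fun x => ?_
      simp only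
      rw [sq]
      exact mul_le_mul_of_nonneg_right (h1 x) (hs0 x)
    have c1 : ∀ a, Continuous fun x => ‖w a x‖ ^ 2 := fun a => (hw a).cont.norm.pow 2
    rw [integral_const_mul, integral_finsetSum _ fun a _ => cont_int (c1 a)] at h4
    have h5 : A * e * ∑ a, ∫ x, ‖w a x‖ ^ 2 ≤ A * e * (A * G) := by gcongr
    have h6 : 0 ≤ A ^ 2 * e * G := by positivity
    nlinarith
  · have hp : ∀ r x, pd L r (fun x => ∑ a, ‖w a x‖ ^ 2) x ^ 2 ≤
        4 * (A * e) * ∑ a, ‖pd L r (w a) x‖ ^ 2 := by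
      intro r x
      rw [pd_sum _ fun a _ => (hw a).normsq]
      simp_rw [pd_normsq (hw _)]
      have h4 : |∑ a, 2 * (conj (w a x) * pd L r (w a) x).re| ≤
          2 * ∑ a, ‖w a x‖ * ‖pd L r (w a) x‖ := by
        rw [Finset.mul_sum]
        refine (Finset.abs_sum_le_sum_abs _ _).trans (Finset.sum_le_sum fun a _ => ?_)
        rw [abs_mul, abs_two]
        have := Complex.abs_re_le_norm (conj (w a x) * pd L r (w a) x)
        rw [norm_mul, RCLike.norm_conj] at this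
        linarith
      have h5 := Finset.sum_mul_sq_le_sq_mul_sq Finset.univ (fun a => ‖w a x‖)
        fun a => ‖pd L r (w a) x‖
      have h6 : (∑ a, ‖w a x‖ ^ 2) * ∑ a, ‖pd L r (w a) x‖ ^ 2 ≤
          A * e * ∑ a, ‖pd L r (w a) x‖ ^ 2 :=
        mul_le_mul_of_nonneg_right (h1 x) (Finset.sum_nonneg fun a _ => by positivity)
      have h7 := pow_le_pow_left₀ (abs_nonneg _) h4 2
      rw [sq_abs] at h7
      nlinarith
    have h4 : Gr L (fun x => ∑ a, ‖w a x‖ ^ 2) ≤ 4 * (A * e) * ∑ a, Gr L (w a) := by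
      rw [Gr_real]
      unfold Gr
      rw [Finset.sum_comm, Finset.mul_sum]
      refine Finset.sum_le_sum fun r _ => ?_
      have c1 : ∀ a, Continuous fun x => ‖pd L r (w a) x‖ ^ 2 := fun a => ((hw a).cpd r).norm.pow 2
      rw [← integral_finsetSum _ fun a _ => cont_int (c1 a), ← integral_const_mul]
      exact integral_mono (cont_int ((hc.cpd r).pow 2)) (cont_int (continuous_const.mul
        (continuous_finsetSum _ fun a _ => ((hw a).cpd r).norm.pow 2))) (hp r)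
    have h5 : 4 * (A * e) * ∑ a, Gr L (w a) ≤ 4 * (A * e) * (A * G) := by gcongr
    nlinarith

end Small

section Form
variable {d : ℕ} {L : ℝ} {ι : Type} [Fintype ι] {b U : Tor d → ℝ}

lemma SOv_pd_comb {w : ι → Tor d → ℂ} (hw : ∀ a, C1 L (w a)) (t : ι → ℂ) (r : Fin d)
    (x : Tor d) : pd L r (fun x => ∑ a, w a x * t a) x = ∑ a, pd L r (w a) x * t a := by
  rw [pd_sum _ fun a _ => (hw a).mul (C1.const _)]
  refine Finset.sum_congr rfl fun a _ => ?_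
  rw [pd_mul (hw a) (C1.const _), pd_const]; ring

/-- A matrix moves from one argument of the form to the other. -/
lemma SOv_Bf_swap (hb : Continuous b) (hU : Continuous U) {y w : ι → Tor d → ℂ}
    (hy : ∀ a, C1 L (y a)) (hw : ∀ a, C1 L (w a)) (T : Matrix ι ι ℂ) :
    Bf L b U y (fun a x => ∑ c, w c x * T c a) =
      Bf L b U (fun c x => ∑ a, y a x * Tᴴ a c) w := by
  set K : ι → ι → Tor d → ℝ := fun a c x => b x * ((∑ r, conj (pd L r (y a) x) * pd L r (w c) x +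
    (U x : ℂ) * (conj (y a x) * w c x)) * T c a).re with hK
  have hKc : ∀ a c, Continuous (K a c) := fun a c =>
    hb.mul (Complex.continuous_re.comp (((continuous_finsetSum _ fun r _ =>
      (Complex.continuous_conj.comp ((hy a).cpd r)).mul ((hw c).cpd r)).add
      ((Complex.continuous_ofReal.comp hU).mul
        ((Complex.continuous_conj.comp (hy a).cont).mul (hw c).cont))).mul continuous_const))
  have e1 : Bf L b U y (fun a x => ∑ c, w c x * T c a) = ∑ a, ∑ c, ∫ x, K a c x := by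
    unfold Bf
    refine Finset.sum_congr rfl fun a _ => ?_
    rw [← integral_finsetSum _ fun c _ => cont_int (hKc a c)]
    congr 1; ext x
    simp only [hK, SOv_pd_comb hw]
    rw [← Finset.mul_sum, ← Complex.re_sum]
    congr 2
    simp only [add_mul, Finset.sum_add_distrib, Finset.mul_sum, Finset.sum_mul]
    rw [Finset.sum_comm]
    congr 1
    · exact Finset.sum_congr rfl fun c _ => Finset.sum_congr rfl fun r _ => by ring
    · exact Finset.sum_congr rfl fun c _ => by ring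
  have e2 : Bf L b U (fun c x => ∑ a, y a x * Tᴴ a c) w = ∑ c, ∑ a, ∫ x, K a c x := by
    unfold Bf
    refine Finset.sum_congr rfl fun c _ => ?_
    rw [← integral_finsetSum _ fun a _ => cont_int (hKc a c)]
    congr 1; ext x
    simp only [hK, SOv_pd_comb hy]
    rw [← Finset.mul_sum, ← Complex.re_sum]
    congr 2
    simp only [add_mul, Finset.sum_add_distrib, Finset.mul_sum, Finset.sum_mul, map_sum, map_mul,
      conjTranspose_apply, RCLike.star_def, Complex.conj_conj]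
    rw [Finset.sum_comm]
    congr 1
    · exact Finset.sum_congr rfl fun a _ => Finset.sum_congr rfl fun r _ => by ring
    · exact Finset.sum_congr rfl fun a _ => by ring
  rw [e1, e2, Finset.sum_comm]

lemma SOv_abs_Bf (hb : Continuous b) (hU : Continuous U) (h1 : ∀ x, |b x| ≤ 1)
    (h2 : ∀ x, |U x| ≤ 2) {y z : ι → Tor d → ℂ} (hy : ∀ a, C1 L (y a)) (hz : ∀ a, C1 L (z a))
    {A : ℝ} (hA : 0 ≤ A) (y1 : ∑ a, Gr L (y a) ≤ A) (y2 : ∑ a, ∫ x, ‖y a x‖ ^ 2 ≤ A)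
    (z1 : ∑ a, Gr L (z a) ≤ A) (z2 : ∑ a, ∫ x, ‖z a x‖ ^ 2 ≤ A) : |Bf L b U y z| ≤ 3 * A := by
  have h3 := abs_Bf_le hb hU h1 h2 hy hz
  have h4 : ∀ s t : ℝ, s ≤ A → t ≤ A → √s * √t ≤ A := fun s t hs ht =>
    (mul_le_mul (Real.sqrt_le_sqrt hs) (Real.sqrt_le_sqrt ht) (Real.sqrt_nonneg _)
      (Real.sqrt_nonneg _)).trans (Real.mul_self_sqrt hA).le
  have h5 := h4 _ _ y1 z1
  have h6 := h4 _ _ y2 z2
  linarith

end Form

section Alg
variable {n : Type} [Fintype n] [DecidableEq n]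

lemma SOv_YY (Y : Matrix n n ℂ) {X : Matrix n n ℂ} (hX : X.IsHermitian) :
    Y * (1 - ((1 / 2 : ℝ) : ℂ) • X) * (Y * (1 - ((1 / 2 : ℝ) : ℂ) • X))ᴴ =
      Y * Yᴴ + Y * (((1 / 4 : ℝ) : ℂ) • X - 1) * X * Yᴴ := by
  rw [conjTranspose_mul, conjTranspose_sub, conjTranspose_smul, hX.eq, conjTranspose_one,
    RCLike.star_def, Complex.conj_ofReal]
  simp only [Matrix.mul_sub, Matrix.sub_mul, Matrix.mul_smul, Matrix.smul_mul, Matrix.mul_one,
    Matrix.one_mul, Matrix.mul_assoc, smul_sub, smul_smul]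
  push_cast
  module

lemma SOv_opB_half {X : Matrix n n ℂ} (h : OpB X 1) : OpB (((1 / 2 : ℝ) : ℂ) • X) 1 := by
  refine (h.smul _).mono ?_
  rw [Complex.norm_real]; norm_num

lemma SOv_opB_K {X : Matrix n n ℂ} (h : OpB X 1) : OpB (((1 / 4 : ℝ) : ℂ) • X - 1) 2 := by
  refine ((h.smul _).sub opB_one).mono ?_
  rw [Complex.norm_real]; norm_num

end Alg

section Main
variable {d : ℕ} {L ϖ : ℝ} {ξ : Fin d → Tor d → ℝ} {Y X : Mat d L}

lemma SOv_normsq_add (u w : ℂ) : ‖u + w‖ ^ 2 = ‖u‖ ^ 2 + 2 * (conj u * w).re + ‖w‖ ^ 2 := by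
  simp only [Complex.sq_norm, Complex.normSq_apply, Complex.add_re, Complex.add_im,
    Complex.mul_re, Complex.conj_re, Complex.conj_im]
  ring

lemma SOv_bes (hL : Big L) (hY : OpB Y 1) (h : VF L ϖ ξ)
    (hX : X = SOv_gram (L ^ d) fun a => Sop L ξ (orb Y a)) (h1 : OpB X 1) :
    Bes L fun a x => orb (Y * (1 - ((1 / 2 : ℝ) : ℂ) • X)) a x +
      Sop L ξ (orb (Y * (1 - ((1 / 2 : ℝ) : ℂ) • X)) a) x := by
  intro c
  set R : Mat d L := 1 - ((1 / 2 : ℝ) : ℂ) • X with hR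
  set M : Mat d L := fun b _ => c b with hM
  set a0 : Ix d L := fun _ => 0
  set F := orb (Y * R * M) a0 with hF
  have hFc : C1 L F := orb_C1 _ _
  have hSc : C1 L (Sop L ξ F) := Sop_orb_C1 h _ _
  have e1 : ∀ x, F x = ∑ a, c a * orb (Y * R) a x := by
    intro x
    rw [hF, orb_mul]
    exact Finset.sum_congr rfl fun a _ => mul_comm _ _
  have e2 : ∀ x, Sop L ξ F x = ∑ a, c a * Sop L ξ (orb (Y * R) a) x := by
    intro x
    rw [hF, Sop_orb_mul]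
    exact Finset.sum_congr rfl fun a _ => mul_comm _ _
  have e3 : ∀ x, Sop L ξ F x = ∑ a, (R *ᵥ c) a * Sop L ξ (orb Y a) x := by
    intro x
    rw [hF, Matrix.mul_assoc, Sop_orb_mul]
    exact Finset.sum_congr rfl fun a _ => mul_comm _ _
  have e4 : ∀ x, ‖∑ a, c a * (orb (Y * R) a x + Sop L ξ (orb (Y * R) a) x)‖ ^ 2 =
      ‖F x‖ ^ 2 + 2 * (conj (F x) * Sop L ξ F x).re + ‖Sop L ξ F x‖ ^ 2 := by
    intro x
    rw [← SOv_normsq_add, e2, e1, ← Finset.sum_add_distrib]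
    simp only [mul_add]
  have c1 : Continuous fun x => ‖F x‖ ^ 2 := hFc.cont.norm.pow 2
  have c2 : Continuous fun x => 2 * (conj (F x) * Sop L ξ F x).re :=
    continuous_const.mul (Complex.continuous_re.comp
      ((Complex.continuous_conj.comp hFc.cont).mul hSc.cont))
  have c3 : Continuous fun x => ‖Sop L ξ F x‖ ^ 2 := hSc.cont.norm.pow 2
  have c12 : Continuous fun x => ‖F x‖ ^ 2 + 2 * (conj (F x) * Sop L ξ F x).re := c1.add c2
  have e5 : L ^ d * ∫ x, ‖F x‖ ^ 2 = vn (Y *ᵥ (R *ᵥ c)) ^ 2 := by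
    simp_rw [e1]
    rw [orb_comb hL.pos, mulVec_mulVec]
  have e6 : L ^ d * ∫ x, ‖Sop L ξ F x‖ ^ 2 = (star (R *ᵥ c) ⬝ᵥ (X *ᵥ (R *ᵥ c))).re := by
    simp_rw [e3]
    conv_rhs => rw [hX, SOv_gram_self _ fun a => (Sop_orb_C1 h Y a).cont, Complex.ofReal_re]
  have hH : X.IsHermitian := hX ▸ SOv_gram_herm _ _
  have h2 := SOv_bes_alg hH h1 c
  have h3 : vn (Y *ᵥ (R *ᵥ c)) ^ 2 ≤ vn (R *ᵥ c) ^ 2 := by
    have := hY.2 (R *ᵥ c)
    rw [one_mul] at this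
    exact pow_le_pow_left₀ (vn_nonneg _) this 2
  simp only [e4]
  rw [integral_add (cont_int c12) (cont_int c3), integral_add (cont_int c1) (cont_int c2),
    integral_const_mul, Sop_anti h hFc, mul_zero, add_zero, mul_add, e5, e6, ← vn_sq]
  linarith

lemma SOv_dens (hL : Big L) (h : VF L ϖ ξ) {Y' N : Mat d L} (hN : Y' * Y'ᴴ = Y * Yᴴ + N)
    (x : Tor d) :
    ∑ a, ‖orb Y' a x + Sop L ξ (orb Y' a) x‖ ^ 2 =
      dens (Y * Yᴴ) x + dv L (fun r y => ξ r y * dens (Y * Yᴴ) y) x +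
      (dens N x + dv L ξ x * dens N x + ∑ r, ξ r x * dens (Complex.I • cm (Pm L r) N) x +
        ∑ a, ‖Sop L ξ (orb Y' a) x‖ ^ 2) := by
  simp only [SOv_normsq_add, Finset.sum_add_distrib]
  rw [← Finset.mul_sum, Sop_dens hL.pos h (isHermitian_mul_conjTranspose_self Y'),
    orb_normsq hL.pos, dv_mul h (dens_C1 _), dv_mul h (dens_C1 _), hN]
  have e : (dens (Y * Yᴴ + N) : Tor d → ℝ) = fun x => dens (Y * Yᴴ) x + dens N x :=
    funext fun x => dens_add _ _ x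
  simp only [e, pd_add (dens_C1 _) (dens_C1 _), pd_dens N, mul_add, Finset.sum_add_distrib]
  ring

lemma SOv_Gr_le (ξ : Fin d → Tor d → ℝ) :
    (∀ r, Gr L (ξ r) ≤ Gx L ξ) ∧ Gr L (dv L ξ) ≤ Gx L ξ := by
  have h1 : ∀ r, 0 ≤ (∫ x, ξ r x ^ 2) + Gr L (ξ r) := fun r =>
    add_nonneg (integral_nonneg fun x => sq_nonneg _) (Gr_nonneg _)
  have h2 : 0 ≤ ∫ x, dv L ξ x ^ 2 := integral_nonneg fun x => sq_nonneg _
  have h3 := Gr_nonneg (L := L) (dv L ξ)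
  have h4 := Finset.sum_nonneg fun r (_ : r ∈ Finset.univ) => h1 r
  unfold Gx
  refine ⟨fun r => ?_, by linarith⟩
  have h5 := Finset.single_le_sum (fun r (_ : r ∈ Finset.univ) => h1 r) (Finset.mem_univ r)
  have h6 : 0 ≤ ∫ x, ξ r x ^ 2 := integral_nonneg fun x => sq_nonneg _
  linarith

/-- The remainder of the density is small. -/
lemma SOv_Q (d : ℕ) {A : ℝ} (hA : 1 ≤ A) : ∃ C : ℝ, 1 ≤ C ∧ ∀ (L ϖ : ℝ) (N : Mat d L)
    (ξ : Fin d → Tor d → ℝ) (s : Tor d → ℝ), Big L → VF L ϖ ξ → ϖ ≤ 1 → OpB N (A * ϖ ^ 2) →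
    hs N ^ 2 ≤ A * ϖ ^ 2 * (L ^ d * Gx L ξ) → SOv_Sm L (ϖ ^ 2) (Gx L ξ) s A →
    SOv_Sm L (ϖ ^ 2) (Gx L ξ) (fun x => dens N x + dv L ξ x * dens N x +
      ∑ r, ξ r x * dens (Complex.I • cm (Pm L r) N) x + s x) C := by
  obtain ⟨B, hB⟩ : ∃ B : ℝ, B = (1 + 1024 * d) * 6 ^ d * (1024 * A) := ⟨_, rfl⟩
  have h6 : (1 : ℝ) ≤ 6 ^ d := one_le_pow₀ (by norm_num)
  have hd : (1 : ℝ) ≤ 1 + 1024 * d := le_add_of_nonneg_right (by positivity)
  have hB1 : 1 ≤ B := by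
    rw [hB]
    exact one_le_mul_of_one_le_of_one_le (one_le_mul_of_one_le_of_one_le hd h6) (by linarith)
  refine ⟨2 * (2 * (2 * B + 2 * (4 * B ^ 2)) + 2 * (4 ^ d * (4 * B ^ 2))) + 2 * A, ?_, ?_⟩
  · have : 0 ≤ 2 * (2 * (2 * B + 2 * (4 * B ^ 2)) + 2 * (4 ^ d * (4 * B ^ 2))) := by positivity
    linarith
  intro L ϖ N ξ s hL h hϖ h1 h2 hs'
  have h0 := h.nonneg
  have he : 0 ≤ ϖ ^ 2 := sq_nonneg _
  have he1 : ϖ ^ 2 ≤ 1 := pow_le_one₀ h0 hϖ
  have hG := Gx_nonneg (L := L) ξ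
  have hD : 0 < L ^ d := pow_pos hL.pos d
  have hAe : 0 ≤ A * ϖ ^ 2 := by positivity
  have hAG : 0 ≤ A * ϖ ^ 2 * (L ^ d * Gx L ξ) := by positivity
  have n0 : SOv_Sm L (ϖ ^ 2) (Gx L ξ) (dens N) B := by
    rw [hB]
    exact SOv_Sm_dens hL (by linarith) he hG (h1.mono (by linarith)) (by linarith)
  have n1 : ∀ r, SOv_Sm L (ϖ ^ 2) (Gx L ξ) (dens (Complex.I • cm (Pm L r) N)) B := by
    intro r
    rw [hB]
    refine SOv_Sm_dens hL (by linarith) he hG ((((Pm_opB hL r).cm h1).smul _).mono ?_) ?_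
    · rw [Complex.norm_I]; linarith
    · rw [hs_smul, Complex.norm_I, one_mul]
      have h3 := pow_le_pow_left₀ (hs_nonneg _) ((Pm_opB hL r).hs_cm_left N) 2
      linarith
  have n2 := n0.mul hB1 he he1 hG h.c1d (fun x => (h.bdd x).trans hϖ) (SOv_Gr_le ξ).2
  have n3 := SOv_Sm.sum Finset.univ (by positivity) he hG fun r =>
    (n1 r).mul hB1 he he1 hG (h.c1 r) (fun x => (h.bd r x).trans hϖ) ((SOv_Gr_le ξ).1 r)
  rw [Finset.card_univ, Fintype.card_fin] at n3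
  exact ((n0.add n2).add n3).add hs'

/-- The first term of the energy. -/
lemma SOv_en1 (hL : Big L) (hY : OpB Y 1) (hP : X.PosSemidef) (h1 : OpB X 1) {b U : Tor d → ℝ}
    (hb : Continuous b) (hU : Continuous U) (hb1 : ∀ x, |b x| ≤ 1) (hU2 : ∀ x, |U x| ≤ 2) :
    Bf L b U (orb (Y * (1 - ((1 / 2 : ℝ) : ℂ) • X))) (orb (Y * (1 - ((1 / 2 : ℝ) : ℂ) • X))) ≤
      Bf L b U (orb Y) (orb Y) + 2 * (256 * d + 2) * ((L ^ d)⁻¹ * rtr X) := by
  rw [Bf_orb hL.pos hb hU, Bf_orb hL.pos hb hU, SOv_YY Y hP.isHermitian, Matrix.mul_add, rtr_add,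
    mul_add]
  set A : Mat d L := ∑ r, Pm L r * mulM L (cx b) * Pm L r + mulM L (cx fun x => b x * U x)
  have hA : OpB A (256 * d + 2) := by
    have a1 := OpB.sum (Finset.univ : Finset (Fin d)) fun r _ =>
      ((Pm_opB hL r).mul (mulM_opB_real (L := L) hb hb1)).mul (Pm_opB hL r)
    have a2 : OpB (mulM L (cx fun x => b x * U x)) 2 := by
      have hc : Continuous fun x => b x * U x := hb.mul hU
      refine mulM_opB_real hc fun x => ?_
      rw [abs_mul]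
      have := mul_le_mul (hb1 x) (hU2 x) (abs_nonneg _) zero_le_one
      linarith
    refine (a1.add a2).mono (le_of_eq ?_)
    simp only [Finset.sum_const, Finset.card_univ, Fintype.card_fin, nsmul_eq_mul]
    ring
  set K : Mat d L := ((1 / 4 : ℝ) : ℂ) • X - 1
  have hK : OpB K 2 := SOv_opB_K h1
  have e : rtr (A * (Y * K * X * Yᴴ)) = rtr (Yᴴ * A * Y * K * X) := by
    rw [← Matrix.mul_assoc, rtr_comm]
    simp only [Matrix.mul_assoc]
  have h2 := (((hY.conjT.mul hA).mul hY).mul hK).trace_psd hP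
  have h3 := (le_abs_self _).trans ((abs_rtr_le _).trans h2)
  have hD : 0 < (L ^ d)⁻¹ := inv_pos.2 (pow_pos hL.pos d)
  have h4 := mul_le_mul_of_nonneg_left h3 hD.le
  rw [e]
  linarith

/-- The energy of the moved orbitals. -/
lemma SOv_en (h : VF L ϖ ξ) {T : Mat d L} (hT : Tᴴ = T) {b U : Tor d → ℝ}
    (hb : Continuous b) (hU : Continuous U) (hb1 : ∀ x, |b x| ≤ 1) (hU2 : ∀ x, |U x| ≤ 2)
    {A : ℝ} (hA : 0 ≤ A)
    (z1 : ∑ a, Gr L (orb (Y * T) a) ≤ A) (z2 : ∑ a, ∫ x, ‖orb (Y * T) a x‖ ^ 2 ≤ A)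
    (s1 : ∑ a, Gr L (Sop L ξ (orb Y a)) ≤ A) (s2 : ∑ a, ∫ x, ‖Sop L ξ (orb Y a) x‖ ^ 2 ≤ A)
    (t1 : ∑ a, Gr L (Sop L ξ (orb (Y * (1 - T)) a)) ≤ A)
    (t2 : ∑ a, ∫ x, ‖Sop L ξ (orb (Y * (1 - T)) a) x‖ ^ 2 ≤ A) :
    Bf L b U (fun a x => orb (Y * (1 - T)) a x + Sop L ξ (orb (Y * (1 - T)) a) x)
        (fun a x => orb (Y * (1 - T)) a x + Sop L ξ (orb (Y * (1 - T)) a) x) ≤
      Bf L b U (orb (Y * (1 - T))) (orb (Y * (1 - T))) +
        2 * Bf L b U (orb Y) (fun a => Sop L ξ (orb Y a)) + 15 * A := by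
  set Y' := Y * (1 - T) with hY'
  have e0 : Y' = Y - Y * T := by rw [hY', Matrix.mul_sub, Matrix.mul_one]
  have cy : ∀ (M : Mat d L) a, C1 L (orb M a) := orb_C1
  have cs : ∀ (M : Mat d L) a, C1 L (Sop L ξ (orb M a)) := Sop_orb_C1 h
  have cv : ∀ a, C1 L fun x => orb Y' a x + Sop L ξ (orb Y' a) x := fun a => (cy _ a).add (cs _ a)
  have e1 : Bf L b U (fun a x => orb Y' a x + Sop L ξ (orb Y' a) x)
      (fun a x => orb Y' a x + Sop L ξ (orb Y' a) x) = Bf L b U (orb Y') (orb Y') +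
      2 * Bf L b U (orb Y') (fun a => Sop L ξ (orb Y' a)) +
      Bf L b U (fun a => Sop L ξ (orb Y' a)) (fun a => Sop L ξ (orb Y' a)) := by
    rw [Bf_add_right hb hU cv (cy _) (cs _), Bf_comm b U _ (orb Y'),
      Bf_comm b U _ fun a => Sop L ξ (orb Y' a), Bf_add_right hb hU (cy _) (cy _) (cs _),
      Bf_add_right hb hU (cs _) (cy _) (cs _), Bf_comm b U (fun a => Sop L ξ (orb Y' a)) (orb Y')]
    ring
  have e2 : Bf L b U (orb Y') (fun a => Sop L ξ (orb Y' a)) =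
      Bf L b U (orb Y) (fun a => Sop L ξ (orb Y' a)) -
      Bf L b U (orb (Y * T)) (fun a => Sop L ξ (orb Y' a)) := by
    have : orb Y' = fun a x => orb Y a x - orb (Y * T) a x := by
      funext a x; rw [e0, orb_sub]
    rw [Bf_comm b U (orb Y), Bf_comm b U (orb (Y * T)), ← Bf_sub_right hb hU (cs _) (cy _) (cy _),
      ← this, Bf_comm]
  have e3 : Bf L b U (orb Y) (fun a => Sop L ξ (orb Y' a)) =
      Bf L b U (orb Y) (fun a => Sop L ξ (orb Y a)) -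
      Bf L b U (orb Y) (fun a => Sop L ξ (orb (Y * T) a)) := by
    rw [← Bf_sub_right hb hU (cy _) (cs _) (cs _)]
    congr 1
    funext a x
    rw [e0, Sop_orb_sub]
  have e4 : Bf L b U (orb Y) (fun a => Sop L ξ (orb (Y * T) a)) =
      Bf L b U (orb (Y * T)) (fun a => Sop L ξ (orb Y a)) := by
    have f1 : (fun a => Sop L ξ (orb (Y * T) a)) =
        fun a x => ∑ c, Sop L ξ (orb Y c) x * T c a := by
      funext a x; rw [Sop_orb_mul]
    have f2 : orb (Y * T) = fun c x => ∑ a, orb Y a x * Tᴴ a c := by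
      funext a x; rw [orb_mul, hT]
    rw [f1, SOv_Bf_swap hb hU (cy Y) (cs Y), f2]
  have b1 := abs_le.1 (SOv_abs_Bf hb hU hb1 hU2 (cy _) (cs _) hA z1 z2 t1 t2)
  have b2 := abs_le.1 (SOv_abs_Bf hb hU hb1 hU2 (cy _) (cs _) hA z1 z2 s1 s2)
  have b3 := abs_le.1 (SOv_abs_Bf hb hU hb1 hU2 (cs _) (cs _) hA t1 t2 t1 t2)
  rw [e1, e2, e3, e4]
  linarith [b1.1, b2.1, b3.2]

end Main

/-- The orbitals moved along a small vector field. -/
theorem ov (d : ℕ) : ∃ C ϖ₀ : ℝ, 1 ≤ C ∧ 0 < ϖ₀ ∧ ∀ (L ϖ : ℝ) (Y : Mat d L) (ξ : Fin d → Tor d → ℝ),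
    Big L → OpB Y 1 → VF L ϖ ξ → ϖ ≤ ϖ₀ →
    ∃ (v : Ix d L → Tor d → ℂ) (Q : Tor d → ℝ), (∀ a, C1 L (v a)) ∧ Bes L v ∧ C1 L Q ∧
      (∀ x, ∑ a, ‖v a x‖ ^ 2 =
        dens (Y * Yᴴ) x + dv L (fun r y => ξ r y * dens (Y * Yᴴ) y) x + Q x) ∧
      (∀ x, |Q x| ≤ C * ϖ ^ 2) ∧ ∫ x, Q x ^ 2 ≤ C * ϖ ^ 2 * Gx L ξ ∧ Gr L Q ≤ C * ϖ ^ 2 * Gx L ξ ∧
      ∀ b U : Tor d → ℝ, Continuous b → Continuous U → (∀ x, |b x| ≤ 1) → (∀ x, |U x| ≤ 2) →
        Bf L b U v v ≤ Bf L b U (orb Y) (orb Y) +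
          2 * Bf L b U (orb Y) (fun a => Sop L ξ (orb Y a)) + C * Gx L ξ := by
  obtain ⟨C0, hC0, hS⟩ := Sop_bounds d
  have hA1 : (1 : ℝ) ≤ 4 * (4 * C0) ^ 2 := by nlinarith
  obtain ⟨C1', hC1, hQ⟩ := SOv_Q d hA1
  obtain ⟨B, hB⟩ : ∃ B : ℝ, B = (256 * d + 4) * C0 := ⟨_, rfl⟩
  have hd0 : (0 : ℝ) ≤ d := Nat.cast_nonneg d
  have hB0 : 0 ≤ B := by rw [hB]; positivity
  have hB4 : 4 * C0 ≤ B := by rw [hB]; nlinarith
  have hBd : 256 * d * C0 ≤ B := by rw [hB]; nlinarith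
  have hB2 : (256 * d + 2) * C0 ≤ B := by rw [hB]; nlinarith
  refine ⟨C1' + 17 * B, 1 / C0, by linarith, by positivity, ?_⟩
  intro L ϖ Y ξ hL hY h hϖ
  have h0 := h.nonneg
  have hG := Gx_nonneg (L := L) ξ
  have hD : 0 < L ^ d := pow_pos hL.pos d
  have hϖ1 : ϖ ≤ 1 := hϖ.trans ((div_le_one (by linarith)).2 hC0)
  have he : 0 ≤ ϖ ^ 2 := sq_nonneg _
  have hδ : C0 * ϖ ^ 2 ≤ 1 := by
    have h1 : ϖ * C0 ≤ 1 := (le_div_iff₀ (by linarith)).1 hϖ
    nlinarith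
  obtain ⟨-, -, -, s2, s1, s3⟩ := hS L ϖ 1 ξ Y hL h hY
  simp only [one_pow, mul_one] at s1 s2 s3
  obtain ⟨X, hX⟩ : ∃ X : Mat d L, X = SOv_gram (L ^ d) fun a => Sop L ξ (orb Y a) := ⟨_, rfl⟩
  have hcs : ∀ a, Continuous (Sop L ξ (orb Y a)) := fun a => (Sop_orb_C1 h Y a).cont
  have hP : X.PosSemidef := hX ▸ SOv_gram_psd hD.le hcs
  have hXδ : OpB X (C0 * ϖ ^ 2) := hX ▸ SOv_gram_opB hD.le (by positivity) hcs s3
  have hX1 : OpB X 1 := hXδ.mono hδ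
  have hr : rtr X ≤ C0 * (L ^ d * Gx L ξ) := by
    rw [hX, SOv_gram_rtr]
    have := mul_le_mul_of_nonneg_left s2 hD.le
    linarith
  have hDG : 0 ≤ L ^ d * Gx L ξ := by positivity
  have hh : hs X ^ 2 ≤ C0 * ϖ ^ 2 * (C0 * (L ^ d * Gx L ξ)) :=
    (hXδ.hs_sq_psd hP).trans (mul_le_mul_of_nonneg_left hr (by positivity))
  have hh1 : hs X ^ 2 ≤ C0 * (L ^ d * Gx L ξ) :=
    hh.trans (mul_le_of_le_one_left (by positivity) hδ)
  have hY' : OpB (Y * (1 - ((1 / 2 : ℝ) : ℂ) • X)) 2 :=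
    (hY.mul (opB_one.sub (SOv_opB_half hX1))).mono (by norm_num)
  obtain ⟨-, t3, -, t2, t1, -⟩ := hS L ϖ 2 ξ _ hL h hY'
  have e4 : C0 * 2 ^ 2 = 4 * C0 := by ring
  rw [e4] at t1 t2 t3
  have hK := SOv_opB_K hX1
  have hA2 : 2 * C0 ≤ 4 * (4 * C0) ^ 2 := by nlinarith
  have hN1 : OpB (Y * (((1 / 4 : ℝ) : ℂ) • X - 1) * X * Yᴴ) (4 * (4 * C0) ^ 2 * ϖ ^ 2) := by
    refine (((hY.mul hK).mul hXδ).mul hY.conjT).mono ?_
    have := mul_le_mul_of_nonneg_right hA2 he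
    linarith
  have hN2 : hs (Y * (((1 / 4 : ℝ) : ℂ) • X - 1) * X * Yᴴ) ^ 2 ≤
      4 * (4 * C0) ^ 2 * ϖ ^ 2 * (L ^ d * Gx L ξ) := by
    have a1 := hY.conjT.hs_mul_right (Y * (((1 / 4 : ℝ) : ℂ) • X - 1) * X)
    have a2 := (hY.mul hK).hs_mul_left X
    have a3 : hs (Y * (((1 / 4 : ℝ) : ℂ) • X - 1) * X * Yᴴ) ≤ 2 * hs X := by linarith
    have a4 := pow_le_pow_left₀ (hs_nonneg _) a3 2
    have a5 : 0 ≤ C0 ^ 2 * ϖ ^ 2 * (L ^ d * Gx L ξ) := by positivity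
    linarith
  have hs' := SOv_Sm_fam (by linarith : 1 ≤ 4 * C0) he hG (Sop_orb_C1 h _) t3 t2 t1
  have hq := (hQ L ϖ _ ξ _ hL h hϖ1 hN1 hN2 hs').mono he hG
    (by linarith : C1' ≤ C1' + 17 * B)
  refine ⟨_, _, fun a => (orb_C1 _ a).add (Sop_orb_C1 h _ a), SOv_bes hL hY h hX hX1, hq.c1,
    SOv_dens hL h (SOv_YY Y hP.isHermitian), hq.bd, hq.l2, hq.gr, ?_⟩
  intro b U hb hU hb1 hU2
  have hT : (((1 / 2 : ℝ) : ℂ) • X)ᴴ = ((1 / 2 : ℝ) : ℂ) • X := by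
    rw [conjTranspose_smul, hP.isHermitian.eq, RCLike.star_def, Complex.conj_ofReal]
  have hZ : (L ^ d)⁻¹ * hs (Y * (((1 / 2 : ℝ) : ℂ) • X)) ^ 2 ≤ C0 * Gx L ξ := by
    have a1 := hY.hs_mul_left (((1 / 2 : ℝ) : ℂ) • X)
    rw [hs_smul, Complex.norm_real, Real.norm_of_nonneg (by norm_num)] at a1
    have a2 : hs (Y * (((1 / 2 : ℝ) : ℂ) • X)) ≤ hs X := by linarith [hs_nonneg X]
    have a3 := pow_le_pow_left₀ (hs_nonneg _) a2 2
    rw [inv_mul_le_iff₀ hD]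
    linarith
  have g1 : C0 * Gx L ξ ≤ B * Gx L ξ := mul_le_mul_of_nonneg_right (by linarith) hG
  have g4 : 4 * C0 * Gx L ξ ≤ B * Gx L ξ := mul_le_mul_of_nonneg_right hB4 hG
  have z1 : ∑ a, Gr L (orb (Y * (((1 / 2 : ℝ) : ℂ) • X)) a) ≤ B * Gx L ξ := by
    have a1 := sum_Gr_orb hL (Y * (((1 / 2 : ℝ) : ℂ) • X))
    have a2 := mul_le_mul_of_nonneg_left hZ (by positivity : (0 : ℝ) ≤ 256 * d)
    have a3 := mul_le_mul_of_nonneg_right hBd hG
    linarith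
  have z2 : ∑ a, ∫ x, ‖orb (Y * (((1 / 2 : ℝ) : ℂ) • X)) a x‖ ^ 2 ≤ B * Gx L ξ := by
    rw [orb_l2 hL.pos]; linarith
  have en := SOv_en h hT hb hU hb1 hU2 (mul_nonneg hB0 hG) z1 z2 (s1.trans g1) (s2.trans g1)
    (t1.trans g4) (t2.trans g4)
  have en1 := SOv_en1 hL hY hP hX1 hb hU hb1 hU2
  have a1 : (L ^ d)⁻¹ * rtr X ≤ C0 * Gx L ξ := by
    rw [inv_mul_le_iff₀ hD]; linarith
  have a2 := mul_le_mul_of_nonneg_left a1 (by positivity : (0 : ℝ) ≤ 2 * (256 * d + 2))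
  have a3 := mul_le_mul_of_nonneg_right hB2 hG
  have a4 : 0 ≤ C1' * Gx L ξ := by positivity
  linarith

end Pool.Agent.Lib.MP_ae5e3b_mp.Sh
end
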