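import Pool.Agent.Lib.MP_ae5e3b_mp.SWa
import Pool.Agent.Lib.MP_ae5e3b_mp.SOa
import Pool.Agent.Lib.MP_ae5e3b_mp.SIb
import Pool.Agent.Lib.MP_ae5e3b_mp.SCr
import Pool.Agent.Lib.MP_ae5e3b_mp.SFix
import Pool.Agent.Lib.MP_ae5e3b_mp.SOv

-- part Pool.Agent.Lib.MP_ae5e3b_mp.SWb
section

open MeasureTheory Matrix Real
open scoped ComplexConjugate ComplexOrder

set_option linter.unusedSectionVars false

namespace Pool.Agent.Lib.MP_ae5e3b_mp.Sh

lemma SWb_num {h x y c M R p q : ℝ} (h0 : 0 ≤ h) (h1 : h ≤ 1) (hx : 0 ≤ x) (hy : 0 ≤ y)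
    (hc : 0 ≤ c) (hM : 0 ≤ M) (hR : 0 ≤ R) (hp0 : 0 ≤ p) (hq0 : 0 ≤ q)
    (hp : p ≤ c * R * (h + x)) (hq : q ≤ h * c * R * (h + y)) :
    M * (p * q) ≤ 2 * M * c ^ 2 * R ^ 2 * h * (h + x ^ 2 + y ^ 2) := by
  have e1 : p * q ≤ (c * R * (h + x)) * (h * c * R * (h + y)) :=
    mul_le_mul hp hq hq0 (by positivity)
  have e2 : (h + x) * (h + y) ≤ 2 * (h + x ^ 2 + y ^ 2) := by
    nlinarith [sq_nonneg (h - x), sq_nonneg (h - y), sq_nonneg (x - y), mul_nonneg h0 (sub_nonneg.2 h1)]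
  calc M * (p * q) ≤ M * ((c * R * (h + x)) * (h * c * R * (h + y))) :=
        mul_le_mul_of_nonneg_left e1 hM
    _ = M * c ^ 2 * R ^ 2 * h * ((h + x) * (h + y)) := by ring
    _ ≤ M * c ^ 2 * R ^ 2 * h * (2 * (h + x ^ 2 + y ^ 2)) :=
        mul_le_mul_of_nonneg_left e2 (by positivity)
    _ = _ := by ring

/-- The abstract step: `A = H + h W`. -/
lemma SWb_abs {n : Type} [Fintype n] [DecidableEq n] {H W B : Matrix n n ℂ} (hH : H.IsHermitian)
    (hW : W.IsHermitian) (hB : B.IsHermitian) (bW : OpB W 1) (bB : OpB B 1)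
    {ψ ψ' ψ'' : ℝ → ℝ} {M : ℝ} (hψ : XF (fun _ => 0) M ψ ψ') (hψ' : XF (fun _ => 0) M ψ' ψ'')
    {h x y c R : ℝ} (h0 : 0 ≤ h) (h1 : h ≤ 1) (hx : 0 ≤ x) (hy : 0 ≤ y) (hR : 0 ≤ R)
    (hc : 0 ≤ c) (hn : √(Fintype.card n) ≤ c * R) (h2 : hs (cm H B) ≤ c * R * x)
    (h3 : hs (cm H W) ≤ c * R * y) :
    |rtr (B * fc ψ (H + (h : ℂ) • W)) - rtr (B * fc ψ H) - h * rtr (B * W * fc ψ' H)| ≤
      3 * M * c ^ 2 * R ^ 2 * h * (h + x ^ 2 + y ^ 2) := by
  have hM := hψ.nonneg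
  have hA : (H + (h : ℂ) • W).IsHermitian := by
    refine hH.add ?_
    rw [IsHermitian, conjTranspose_smul, hW.eq]
    simp
  have hnh : ‖(h : ℂ)‖ = h := by rw [Complex.norm_real, Real.norm_eq_abs, abs_of_nonneg h0]
  have e0 : H + (h : ℂ) • W - H = (h : ℂ) • W := by abel
  have t := trap hA hH (f := fun _ => 0) antitone_const hM hψ.der hψ'.der hψ'.osc B
  rw [e0, exS_zero, exS_zero, Real.sqrt_zero, mul_zero, add_zero] at t
  have hop : ∀ X : Matrix n n ℂ, OpB X 1 → hs X ≤ c * R := fun X hX =>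
    hX.hs_le.trans (by rw [one_mul]; exact hn)
  have p1 : hs (B * (H + (h : ℂ) • W) - H * B) ≤ c * R * (h + x) := by
    have : B * (H + (h : ℂ) • W) - H * B = (h : ℂ) • (B * W) - cm H B := by
      rw [cm, Matrix.mul_add, Matrix.mul_smul]; abel
    rw [this]
    refine (hs_sub_le _ _).trans ?_
    rw [hs_smul, hnh]
    have := mul_le_mul_of_nonneg_left (hop _ (by simpa using bB.mul bW)) h0
    linarith
  have p2 : hs ((H + (h : ℂ) • W) * ((h : ℂ) • W) - (h : ℂ) • W * H) ≤ h * c * R * (h + y) := by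
    have : (H + (h : ℂ) • W) * ((h : ℂ) • W) - (h : ℂ) • W * H =
        (h : ℂ) • ((h : ℂ) • (W * W) + cm H W) := by
      rw [cm, Matrix.add_mul, Matrix.mul_smul, Matrix.mul_smul, Matrix.smul_mul, Matrix.smul_mul,
        smul_add, smul_sub]
      abel
    rw [this, hs_smul, hnh]
    have q1 := hs_add_le ((h : ℂ) • (W * W)) (cm H W)
    rw [hs_smul, hnh] at q1
    have q2 := mul_le_mul_of_nonneg_left (hop _ (by simpa using bW.mul bW)) h0
    have q3 : hs ((h : ℂ) • (W * W) + cm H W) ≤ c * R * (h + y) := by linarith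
    calc _ ≤ h * (c * R * (h + y)) := mul_le_mul_of_nonneg_left q3 h0
      _ = _ := by ring
  have t1 := t.trans (SWb_num h0 h1 hx hy hc hM hR (hs_nonneg _) (hs_nonneg _) p1 p2)
  have p3 : ‖trace ((fc ψ' (H + (h : ℂ) • W) - fc ψ' H) * ((h : ℂ) • W * B))‖ ≤
      M * c ^ 2 * R ^ 2 * h * h := by
    refine (trace_mul_le _ _).trans ?_
    have q1 := hs_fc_sub hA hH hM hψ'.lip
    rw [e0, hs_smul, hnh] at q1
    have q2 : hs (fc ψ' (H + (h : ℂ) • W) - fc ψ' H) ≤ M * (h * (c * R)) :=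
      q1.trans (mul_le_mul_of_nonneg_left (mul_le_mul_of_nonneg_left (hop _ bW) h0) hM)
    have q3 : hs ((h : ℂ) • W * B) ≤ h * (c * R) := by
      rw [Matrix.smul_mul, hs_smul, hnh]
      exact mul_le_mul_of_nonneg_left (hop _ (by simpa using bW.mul bB)) h0
    calc _ ≤ M * (h * (c * R)) * (h * (c * R)) :=
          mul_le_mul q2 q3 (hs_nonneg _) (by positivity)
      _ = _ := by ring
  have r1 := (Complex.abs_re_le_norm _).trans t1
  have r2 := (Complex.abs_re_le_norm _).trans p3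
  have s1 : rtr (fc ψ' H * W * B) = rtr (B * W * fc ψ' H) := by
    rw [← rtr_conjT, conjTranspose_mul, conjTranspose_mul, hB.eq, hW.eq, fc_conjT, Matrix.mul_assoc]
  have s2 : rtr (fc ψ' H * B * W) = rtr (B * W * fc ψ' H) := by
    rw [Matrix.mul_assoc, rtr_comm]
  have u1 : (trace (B * (fc ψ (H + (h : ℂ) • W) - fc ψ H)) -
      (1 / 2 : ℂ) * trace (fc ψ' (H + (h : ℂ) • W) * ((h : ℂ) • W) * B) -
      (1 / 2 : ℂ) * trace (fc ψ' H * B * ((h : ℂ) • W))).re =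
      rtr (B * fc ψ (H + (h : ℂ) • W)) - rtr (B * fc ψ H) -
        1 / 2 * (h * rtr (fc ψ' (H + (h : ℂ) • W) * W * B)) -
        1 / 2 * (h * rtr (B * W * fc ψ' H)) := by
    rw [← s2, ← rtr_smul h, ← rtr_smul h, ← rtr_sub, ← Matrix.mul_sub, Matrix.mul_smul,
      Matrix.smul_mul, Matrix.mul_smul, show (1 / 2 : ℂ) = ((1 / 2 : ℝ) : ℂ) by simp,
      Complex.sub_re, Complex.sub_re, Complex.re_ofReal_mul, Complex.re_ofReal_mul]
    rfl
  have u2 : (trace ((fc ψ' (H + (h : ℂ) • W) - fc ψ' H) * ((h : ℂ) • W * B))).re =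
      h * rtr (fc ψ' (H + (h : ℂ) • W) * W * B) - h * rtr (B * W * fc ψ' H) := by
    rw [← s1, ← mul_sub, ← rtr_sub, ← rtr_smul, ← Matrix.sub_mul, ← Matrix.sub_mul,
      Matrix.smul_mul, Matrix.mul_smul, Matrix.mul_assoc]
    rfl
  rw [u1] at r1
  rw [u2] at r2
  have v : M * c ^ 2 * R ^ 2 * h * h ≤ M * c ^ 2 * R ^ 2 * h * (h + x ^ 2 + y ^ 2) :=
    mul_le_mul_of_nonneg_left (by nlinarith [sq_nonneg x, sq_nonneg y]) (by positivity)
  have v0 : 0 ≤ M * c ^ 2 * R ^ 2 * h * h := by positivity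
  rw [abs_le] at r1 r2 ⊢
  constructor <;> linarith [r1.1, r1.2, r2.1, r2.2]

variable {d : ℕ} {L : ℝ}

lemma SWb_scale {u : Tor d → ℝ} (hu : C1 L u) {a s : ℝ} (ha : ∀ x, |u x| ≤ a) (h0 : 0 ≤ s)
    (h1 : s ≤ 1) : C1 L (fun x => s * u x) ∧ (∀ x, |s * u x| ≤ a) ∧
      Gr L (fun x => s * u x) ≤ Gr L u := by
  refine ⟨hu.const_mul s, fun x => ?_, ?_⟩
  · rw [abs_mul, abs_of_nonneg h0]
    exact (mul_le_of_le_one_left (abs_nonneg _) h1).trans (ha x)
  · rw [Gr_const_mul s hu, Real.norm_eq_abs, sq_abs]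
    exact mul_le_of_le_one_left (Gr_nonneg _) (by nlinarith)

/-- One step of the homotopy, for the traces. -/
lemma SWb_wtr (d : ℕ) {ψ ψ' ψ'' : ℝ → ℝ} {M : ℝ} (hψ : XF (fun _ => 0) M ψ ψ')
    (hψ' : XF (fun _ => 0) M ψ' ψ'') : ∃ C : ℝ, 0 ≤ C ∧ ∀ (L : ℝ) (u b : Tor d → ℝ) (s h : ℝ),
    Pot L u → TP L 1 (cx b) → (∀ x, |b x| ≤ 1) → 0 ≤ s → s ≤ 1 → 0 ≤ h → h ≤ 1 →
    |wtr L (fun x => (s + h) * u x) b ψ - wtr L (fun x => s * u x) b ψ -
      h * wtr L (fun x => s * u x) (fun x => b x * u x) ψ'| ≤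
      C * h * (h + Gr L b + Gr L u) := by
  obtain ⟨C1', hC1, hsy⟩ := sy_all d
  obtain ⟨C2, hC2, hcm⟩ := hs_cm_ham_mulM d
  obtain ⟨C3, hC3, hbw⟩ := bw d
  have hM := hψ.nonneg
  refine ⟨3 * M * (3 ^ d * C1' * C2) ^ 2 + 6 * C3 * M, by positivity, ?_⟩
  intro L u b s h hp hb hb1 s0 s1 h0 h1
  have hL := hp.big
  have hD : 0 < L ^ d := pow_pos hL.pos d
  obtain ⟨k1, k2, k3⟩ := SWb_scale hp.c1 hp.bd s0 s1
  have hps : Pot L fun x => s * u x := ⟨hL, k1, k2⟩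
  have hu1 : ∀ x, |u x| ≤ 1 := fun x => (hp.bd x).trans (by norm_num)
  have h3 : (1 : ℝ) ≤ 3 ^ d := one_le_pow₀ (by norm_num)
  have hc : (3 : ℝ) ^ d ≤ 3 ^ d * C1' * C2 := by
    rw [mul_assoc]; exact le_mul_of_one_le_right (by positivity) (one_le_mul_of_one_le_of_one_le hC1 hC2)
  have hc2 : C2 ≤ 3 ^ d * C1' * C2 :=
    le_mul_of_one_le_left (by positivity) (one_le_mul_of_one_le_of_one_le h3 hC1)
  have hc3 : 3 ^ d * C1' ≤ 3 ^ d * C1' * C2 := le_mul_of_one_le_right (by positivity) hC2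
  have eA : ham L (fun x => (s + h) * u x) = ham L (fun x => s * u x) + (h : ℂ) • Wop L u := by
    rw [ham, ham, Wop_const_mul, Wop_const_mul, Complex.ofReal_add, add_smul, add_assoc]
  have t := SWb_abs (H := ham L fun x => s * u x) (W := Wop L u) (B := mulM L (cx b))
    (ham_herm _ _) (Wop_conjT u) (mulM_cx_conjT b) (Wop_opB hp.c1.cont hu1)
    (mulM_opB_real hb.c1_real.cont hb1) hψ hψ' h0 h1 (Real.sqrt_nonneg (Gr L b))
    (Real.sqrt_nonneg (Gr L u)) (Real.sqrt_nonneg (L ^ d)) (c := 3 ^ d * C1' * C2) (by positivity)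
    ((sqrt_card_le hL).trans (mul_le_mul_of_nonneg_right hc (Real.sqrt_nonneg _)))
    (by
      refine (hcm L _ b hL k1.cont (fun x => (k2 x).trans (by norm_num))
        (hb.mono (by norm_num))).2.trans ?_
      rw [Real.sqrt_mul hD.le, mul_assoc _ (√(L ^ d))]
      exact mul_le_mul_of_nonneg_right hc2 (by positivity))
    (by
      have e : cm (ham L fun x => s * u x) (Wop L u) =
          cm (dg fun i => epsS (mom i) - 1) (Wop L u) := by
        rw [ham, cm_add_left, Wop_const_mul, cm_smul_left]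
        simp [cm]
      rw [e]
      refine (hs_cm_Wop hL hp.c1 (hsy L hL).2.1).trans ?_
      rw [Real.sqrt_mul hD.le, mul_assoc _ (√(L ^ d))]
      exact mul_le_mul_of_nonneg_right hc3 (by positivity))
  rw [Real.sq_sqrt hD.le, Real.sq_sqrt (Gr_nonneg _), Real.sq_sqrt (Gr_nonneg _), ← eA] at t
  have t2 := hbw L _ u b hps hp.c1 hu1 hb hb1 ψ' (3 * M) ⟨hψ'.zero, fun t ht => hψ'.abs_le ht⟩
  have gb := Gr_nonneg (L := L) b
  have gu := Gr_nonneg (L := L) u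
  have t3 : |h * ((L ^ d)⁻¹ * rtr (mulM L (cx b) * Wop L u * fc ψ' (ham L fun x => s * u x))) -
      h * wtr L (fun x => s * u x) (fun x => b x * u x) ψ'| ≤
      6 * C3 * M * h * (h + Gr L b + Gr L u) := by
    rw [← mul_sub, abs_mul, abs_of_nonneg h0]
    calc _ ≤ h * (C3 * (3 * M) * (2 * (h + Gr L b + Gr L u))) :=
          mul_le_mul_of_nonneg_left (t2.trans (mul_le_mul_of_nonneg_left (by linarith)
            (by positivity))) h0
      _ = _ := by ring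
  have t4 : |wtr L (fun x => (s + h) * u x) b ψ - wtr L (fun x => s * u x) b ψ -
      h * ((L ^ d)⁻¹ * rtr (mulM L (cx b) * Wop L u * fc ψ' (ham L fun x => s * u x)))| ≤
      3 * M * (3 ^ d * C1' * C2) ^ 2 * h * (h + Gr L b + Gr L u) := by
    rw [wtr, wtr, mul_left_comm h, ← mul_sub, ← mul_sub, abs_mul, abs_of_pos (inv_pos.2 hD),
      inv_mul_le_iff₀ hD]
    refine t.trans (le_of_eq ?_)
    ring
  rw [abs_le] at t3 t4 ⊢
  constructor <;> linarith [t3.1, t3.2, t4.1, t4.2]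

/-- One step of the homotopy, for the classical term. -/
lemma SWb_cl {ψ ψ' ψ'' : ℝ → ℝ} {M : ℝ} (hψ : XF (fun _ => 0) M ψ ψ')
    (hψ' : XF (fun _ => 0) M ψ' ψ'') {u b : Tor d → ℝ} (hu : Continuous u) (hb : Continuous b)
    (hu1 : ∀ x, |u x| ≤ 1) (hb1 : ∀ x, |b x| ≤ 1) (s h : ℝ) :
    |(∫ x, b x * Cl d ψ ((s + h) * u x)) - (∫ x, b x * Cl d ψ (s * u x)) -
      h * ∫ x, b x * u x * Cl d ψ' (s * u x)| ≤ 2 ^ d * M * h ^ 2 := by
  have hM := hψ.nonneg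
  have c1 : Continuous ψ := continuous_iff_continuousAt.2 fun t => (hψ.der t).continuousAt
  have c2 : Continuous ψ' := continuous_iff_continuousAt.2 fun t => (hψ'.der t).continuousAt
  have i1 : Integrable fun x => b x * Cl d ψ ((s + h) * u x) :=
    cont_int (hb.mul ((Cl_cont c1).comp (continuous_const.mul hu)))
  have i2 : Integrable fun x => b x * Cl d ψ (s * u x) :=
    cont_int (hb.mul ((Cl_cont c1).comp (continuous_const.mul hu)))
  have i3 : Integrable fun x => h * (b x * u x * Cl d ψ' (s * u x)) :=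
    cont_int (continuous_const.mul ((hb.mul hu).mul ((Cl_cont c2).comp (continuous_const.mul hu))))
  have i4 : Integrable fun x => b x * Cl d ψ ((s + h) * u x) - b x * Cl d ψ (s * u x) := i1.sub i2
  rw [← integral_const_mul, ← integral_sub i1 i2, ← integral_sub i4 i3]
  refine abs_integral_le fun x => ?_
  have t := Cl_taylor (d := d) hψ.der hψ'.lip (s * u x) ((s + h) * u x)
  have e : b x * Cl d ψ ((s + h) * u x) - b x * Cl d ψ (s * u x) -
      h * (b x * u x * Cl d ψ' (s * u x)) = b x * (Cl d ψ ((s + h) * u x) - Cl d ψ (s * u x) -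
        ((s + h) * u x - s * u x) * Cl d ψ' (s * u x)) := by ring
  rw [e, abs_mul]
  refine (mul_le_of_le_one_left (abs_nonneg _) (hb1 x)).trans (t.trans ?_)
  refine mul_le_mul_of_nonneg_left ?_ (by positivity)
  have : u x ^ 2 ≤ 1 := by rw [← sq_abs]; exact pow_le_one₀ (abs_nonneg _) (hu1 x)
  calc ((s + h) * u x - s * u x) ^ 2 = h ^ 2 * u x ^ 2 := by ring
    _ ≤ h ^ 2 := mul_le_of_le_one_right (sq_nonneg h) this

/-- One step of the homotopy. -/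
lemma SWb_step {d : ℕ} (hd : 0 < d) {ψ ψ' ψ'' : ℝ → ℝ} {M : ℝ} (hψ : XF (fun _ => 0) M ψ ψ')
    (hψ' : XF (fun _ => 0) M ψ' ψ'') (h0 : Cl d ψ 0 ≠ 0) :
    ∃ A₀ C : ℝ, 0 < A₀ ∧ A₀ ≤ 1 / 4 ∧ 0 ≤ C ∧
    ∀ (L : ℝ) (u : Tor d → ℝ) (Γ S s h : ℝ), Big L → C1 L u → (∀ x, |u x| ≤ A₀) →
    Gr L u ≤ A₀ ^ 2 * Γ → Γ + kap L ≤ S → 0 ≤ s → s ≤ 1 → 0 ≤ h → h ≤ kap L →
    (∀ b, Wt L Γ b → |Dv L (fun x => s * u x) b ψ| ≤ S) →
    ∀ b, Wt L Γ b → |Dv L (fun x => (s + h) * u x) b ψ| ≤ (1 + C * h) * S := by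
  obtain ⟨A, C1', hA0, hA1, hC1, hrec⟩ := recur hd hψ h0
  obtain ⟨C2, hC2, hw⟩ := SWb_wtr d hψ hψ'
  obtain ⟨C3, hC3, hJ⟩ := Dv_J d
  have hM := hψ.nonneg
  refine ⟨A, 2 * C2 + 2 ^ d * M + C3 * M + 2 * C1' * M, hA0, hA1, by positivity, ?_⟩
  intro L u Γ S s h hL hu ha hG hS s0 s1 h0' h1 hyp b hb
  have hk := kap_pos hL.pos
  have hk1 := hL.kap_le
  have gb := Gr_nonneg (L := L) b
  have gu := Gr_nonneg (L := L) u
  have hΓ : 0 ≤ Γ := gb.trans hb.gr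
  have hA2 : A ^ 2 ≤ 1 / 16 := by nlinarith
  have hGu : Gr L u ≤ Γ / 16 := hG.trans (by nlinarith)
  have hp : Pot L u := ⟨hL, hu, fun x => (ha x).trans hA1⟩
  have hu1 : ∀ x, |u x| ≤ 1 := fun x => (hp.bd x).trans (by norm_num)
  have hb1 := hb.tp.c1_real
  obtain ⟨k1, k2, k3⟩ := SWb_scale hu ha s0 s1
  have t1 := hw L u b s h hp hb.tp hb.bd s0 s1 h0' (by linarith)
  have t2 := SWb_cl (d := d) hψ hψ' hu.cont hb1.cont hu1 hb.bd s h
  have t3 := hJ L _ _ hL k1 (hb1.mul hu) ψ' ψ'' M hψ'.der (hψ'.cont' continuous_const) hψ'.bd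
  have t4 := hrec L _ (fun _ => 0) 1 Γ S hL k1 k2 fok_zero (by linarith) (k3.trans hG)
    (by linarith) hyp _ M ψ' ψ'' (Wt.next hL hA0 hb hu ha hG) hψ'
  rw [Dv_weight_mul, Er, rhoF_zero, Gr_const, Real.sqrt_zero, mul_zero, add_zero, one_mul,
    abs_mul, abs_of_pos (by positivity), inv_mul_le_iff₀ (by positivity)] at t4
  have t5 := hyp b hb
  have g1 : Gr L (fun x => b x * u x) ≤ Γ := by
    refine (Gr_mul_le hb1 hu (a := 1) (b := A) hb.bd ha).trans ?_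
    have := hb.gr
    nlinarith
  have g2 : √(Gr L fun x => b x * u x) * √(Gr L fun x => s * u x) ≤ S := by
    calc _ ≤ √Γ * √Γ := mul_le_mul (Real.sqrt_le_sqrt g1) (Real.sqrt_le_sqrt (by linarith))
            (Real.sqrt_nonneg _) (Real.sqrt_nonneg _)
      _ = Γ := Real.mul_self_sqrt hΓ
      _ ≤ S := by linarith
  have u1 : C2 * h * (h + Gr L b + Gr L u) ≤ 2 * C2 * h * S := by
    have := hb.gr
    calc _ ≤ C2 * h * (2 * S) := mul_le_mul_of_nonneg_left (by linarith) (by positivity)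
      _ = _ := by ring
  have u2 : 2 ^ d * M * h ^ 2 ≤ 2 ^ d * M * h * S := by
    rw [pow_two, ← mul_assoc]
    exact mul_le_mul_of_nonneg_left (by linarith) (by positivity)
  have u3 := t3.trans (mul_le_mul_of_nonneg_left g2 (by positivity))
  have u4 : |Dv L (fun x => s * u x) (Jr L 1 fun y => b y * u y) ψ'| ≤ 2 * C1' * M * S := by
    refine t4.trans ?_
    have v1 : S + (Γ + Gr L fun x => s * u x) + kap L ≤ 4 * S := by linarith
    calc 2 * A * (C1' * M * (S + (Γ + Gr L fun x => s * u x) + kap L))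
        ≤ 1 / 2 * (C1' * M * (4 * S)) :=
          mul_le_mul (by linarith) (mul_le_mul_of_nonneg_left v1 (by positivity))
            (mul_nonneg (by positivity) (by have := Gr_nonneg (L := L) fun x => s * u x; linarith))
            (by norm_num)
      _ = _ := by ring
  have u5 : |h * Dv L (fun x => s * u x) (fun x => b x * u x) ψ'| ≤
      h * (C3 * M * S + 2 * C1' * M * S) := by
    rw [abs_mul, abs_of_nonneg h0']
    refine mul_le_mul_of_nonneg_left ?_ h0'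
    rw [abs_le] at u3 u4 ⊢
    constructor <;> linarith [u3.1, u3.2, u4.1, u4.2]
  have w1 := t1.trans u1
  have w2 := t2.trans u2
  simp only [Dv] at t5 u5 ⊢
  rw [mul_sub] at u5
  rw [abs_le] at w1 w2 t5 u5 ⊢
  constructor <;> linarith [w1.1, w1.2, w2.1, w2.2, t5.1, t5.2, u5.1, u5.2]

/-- The homotopy from the free Hamiltonian. -/
theorem homo {d : ℕ} (hd : 0 < d) {ψ ψ' ψ'' : ℝ → ℝ} {Mψ : ℝ} (hψ : XF (fun _ => 0) Mψ ψ ψ')
    (hψ' : XF (fun _ => 0) Mψ ψ' ψ'') (h0 : Cl d ψ 0 ≠ 0) :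
    ∃ A₀ C : ℝ, 0 < A₀ ∧ A₀ ≤ 1 / 4 ∧ 1 ≤ C ∧
    ∀ (L : ℝ) (u : Tor d → ℝ) (Γ : ℝ), Big L → C1 L u → (∀ x, |u x| ≤ A₀) →
    Gr L u ≤ A₀ ^ 2 * Γ → ∀ b, Wt L Γ b → |Dv L u b ψ| ≤ C * (Γ + kap L) := by
  obtain ⟨A, C, hA0, hA1, hC, hstep⟩ := SWb_step hd hψ hψ' h0
  obtain ⟨C0, hC0, hRS⟩ := RS hd
  have hM := hψ.nonneg
  have hK : 1 ≤ C0 * Mψ + 1 := by have : 0 ≤ C0 * Mψ := by positivity
                                  linarith
  refine ⟨A, exp C * (C0 * Mψ + 1), hA0, hA1,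
    one_le_mul_of_one_le_of_one_le (one_le_exp hC) hK, ?_⟩
  intro L u Γ hL hu ha hG b hb
  have hk := kap_pos hL.pos
  have hΓ : 0 ≤ Γ := (Gr_nonneg b).trans hb.gr
  obtain ⟨n, hn⟩ := exists_nat_ge (1 / kap L)
  have hn0 : (0 : ℝ) < n := lt_of_lt_of_le (by positivity) hn
  have hh : 1 / (n : ℝ) ≤ kap L := by
    rw [div_le_iff₀ hn0]
    rw [div_le_iff₀ hk] at hn
    linarith
  have hh0 : 0 ≤ 1 / (n : ℝ) := by positivity
  have key : ∀ k : ℕ, k ≤ n → ∀ b, Wt L Γ b → |Dv L (fun x => (k * (1 / n) : ℝ) * u x) b ψ| ≤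
      (1 + C * (1 / n)) ^ k * ((C0 * Mψ + 1) * (Γ + kap L)) := by
    intro k
    induction k with
    | zero =>
      intro _ b hb
      have c1 : Continuous ψ := continuous_iff_continuousAt.2 fun t => (hψ.der t).continuousAt
      simp only [Nat.cast_zero, zero_mul, pow_zero, one_mul]
      rw [Dv_eq continuous_const hb.tp.c1_real.cont c1, ham_zero, fc_dg]
      refine abs_integral_le fun x => ?_
      rw [dens_dg, abs_mul]
      refine (mul_le_of_le_one_left (abs_nonneg _) (hb.bd x)).trans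
        ((hRS L hL ψ Mψ hM hψ.lip hψ.zero).trans ?_)
      have : 0 ≤ C0 * Mψ := by positivity
      nlinarith
    | succ k ih =>
      intro hk1 b hb
      have hk2 : (k : ℝ) ≤ n := by exact_mod_cast (by omega : k ≤ n)
      have h1 : (1 : ℝ) ≤ (1 + C * (1 / n)) ^ k :=
        one_le_pow₀ (by have : 0 ≤ C * (1 / (n : ℝ)) := by positivity
                        linarith)
      have t := hstep L u Γ _ (k * (1 / n)) (1 / n) hL hu ha hG
        (le_mul_of_one_le_left (by positivity) hK |>.trans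
          (le_mul_of_one_le_left (by positivity) h1))
        (by positivity) (by rw [mul_one_div, div_le_one hn0]; exact hk2) hh0 hh
        (ih (by omega)) b hb
      rw [pow_succ', mul_assoc, Nat.cast_succ, add_mul (k : ℝ), one_mul]
      exact t
  have t := key n le_rfl b hb
  rw [mul_one_div_cancel hn0.ne'] at t
  simp only [one_mul] at t
  refine t.trans ?_
  rw [mul_assoc]
  refine mul_le_mul_of_nonneg_right ?_ (by positivity)
  calc (1 + C * (1 / n)) ^ n ≤ exp (C * (1 / n)) ^ n :=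
        pow_le_pow_left₀ (by positivity) (by rw [add_comm]; exact add_one_le_exp _) n
    _ = exp C := by
        rw [← exp_nat_mul]; congr 1; field_simp

/-- The weighted Weyl law with a gradient error. -/
theorem WW {d : ℕ} (hd : 0 < d) : ∃ A₀ C : ℝ, 0 < A₀ ∧ A₀ ≤ 1 / 4 ∧ 1 ≤ C ∧
    ∀ (β L : ℝ) (u b : Tor d → ℝ), 0 < β → β ≤ 1 / 4 → Big L → kap L ≤ β → C1 L u →
    (∀ x, |u x| ≤ A₀) → C1 L b → (∀ x, |b x| ≤ 1) →
    |Dv L u b (phib β)| ≤ C * (Er L (fb β) u (Gr L b) + kap L / β) := by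
  obtain ⟨ψ, ψ', ψ'', M, hψ, hψ', h0⟩ := exists_psi hd
  obtain ⟨A1, C1', hA1, hA1', hC1, hrec⟩ := recur hd hψ h0
  obtain ⟨A2, C2, hA2, -, hC2, hhom⟩ := homo hd hψ hψ' h0
  obtain ⟨C3, hC3, hJ⟩ := Dv_J d
  obtain ⟨A, hA0, hAa, hAb⟩ : ∃ A : ℝ, 0 < A ∧ A ≤ A1 ∧ A ≤ A2 :=
    ⟨min A1 A2, lt_min hA1 hA2, min_le_left _ _, min_le_right _ _⟩
  obtain ⟨T, hT1, hT⟩ : ∃ T : ℝ, 1 ≤ T ∧ A ^ 2 * T = 1 := by
    refine ⟨(A ^ 2)⁻¹, ?_, mul_inv_cancel₀ (by positivity)⟩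
    exact (one_le_inv₀ (by positivity)).2 (by nlinarith)
  refine ⟨A, C3 + C1' * (C2 * T + T + 1), hA0, hAa.trans hA1', ?_, ?_⟩
  · have : 0 ≤ C1' * (C2 * T + T + 1) := by positivity
    linarith
  intro β L u b hβ hβ1 hL hk hu ha hb hb1
  have hk0 := kap_pos hL.pos
  have hq : 2 * kap L ≤ 1 := by linarith [hL.kap_le]
  have gb := Gr_nonneg (L := L) b
  have gu := Gr_nonneg (L := L) u
  have hx := phib_xf hβ hβ1
  have hf := fb_fok hβ hβ1
  have hG : ∀ A' : ℝ, A ≤ A' → Gr L u ≤ A' ^ 2 * (Gr L b + T * Gr L u) := fun A' h => by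
    have h1 : A ^ 2 ≤ A' ^ 2 := pow_le_pow_left₀ hA0.le h 2
    calc Gr L u = A ^ 2 * T * Gr L u := by rw [hT, one_mul]
      _ ≤ A ^ 2 * (Gr L b + T * Gr L u) := by nlinarith [mul_nonneg (sq_nonneg A) gb]
      _ ≤ _ := mul_le_mul_of_nonneg_right h1 (by positivity)
  have hW : Wt L (Gr L b + T * Gr L u) (Jr L 1 b) :=
    ⟨Jr_TP hL.pos hq b, abs_Jr_le hL.pos hq hb.cont hb1,
      (Gr_Jr_le hL.pos hq hb).trans (le_add_of_nonneg_right (by positivity))⟩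
  have t1 := hJ L u b hL hu hb _ _ 1 hx.der (hx.cont' hf.cont) hx.bd
  have t2 := hrec L u (fb β) (1 / β) _ _ hL hu (fun x => (ha x).trans hAa) hf
    (by rw [one_div_mul_eq_div, div_le_one hβ]; exact hk) (hG A1 hAa) (by positivity)
    (hhom L u _ hL hu (fun x => (ha x).trans hAb) (hG A2 hAb)) _ 1 _ _ hW hx
  rw [mul_one] at t1 t2
  rw [one_div_mul_eq_div] at t2
  have k1 : kap L ≤ kap L / β := by
    rw [le_div_iff₀ hβ]; nlinarith
  have z0 : 0 ≤ √(Gr L u) * √(Gr L (rhoF L u (fb β))) := by positivity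
  have z1 : √(Gr L b) * √(Gr L u) ≤ Gr L b + Gr L u := by
    nlinarith [Real.sq_sqrt gb, Real.sq_sqrt gu, sq_nonneg (√(Gr L b) - √(Gr L u)),
      Real.sqrt_nonneg (Gr L b), Real.sqrt_nonneg (Gr L u)]
  unfold Er at t2 ⊢
  generalize √(Gr L u) * √(Gr L (rhoF L u (fb β))) = z at t2 z0 ⊢
  generalize kap L / β = κ at t2 k1 ⊢
  have hκ : 0 ≤ κ := hk0.le.trans k1
  set E := Gr L b + Gr L u + z + κ with hE
  have hE0 : 0 ≤ E := by positivity
  have y1 : C3 * (√(Gr L b) * √(Gr L u)) ≤ C3 * E :=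
    mul_le_mul_of_nonneg_left (by linarith) (by positivity)
  have y2 : Gr L b + T * Gr L u + kap L ≤ T * E := by
    have : 0 ≤ (T - 1) * (Gr L b + z + κ) := mul_nonneg (by linarith) (by positivity)
    nlinarith
  have y3 : T * Gr L u ≤ T * E := mul_le_mul_of_nonneg_left (by linarith) (by positivity)
  have y4 : C2 * (Gr L b + T * Gr L u + kap L) + (Gr L b + T * Gr L u + Gr L u + z) + κ ≤
      (C2 * T + T + 1) * E := by
    have := mul_le_mul_of_nonneg_left y2 (show 0 ≤ C2 by positivity)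
    nlinarith
  have w1 := t1.trans y1
  have w2 := t2.trans (mul_le_mul_of_nonneg_left y4 (by positivity))
  rw [abs_le] at w1 w2 ⊢
  constructor <;> linarith [w1.1, w1.2, w2.1, w2.2]

end Pool.Agent.Lib.MP_ae5e3b_mp.Sh
end

-- part Pool.Agent.Lib.MP_ae5e3b_mp.SEn
section

open MeasureTheory Matrix Real
open scoped ComplexConjugate ComplexOrder

set_option linter.unusedSectionVars false

namespace Pool.Agent.Lib.MP_ae5e3b_mp.Sh


/-- The local energy bound. -/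
theorem energy {d : ℕ} (hd : 0 < d) : ∃ A₀ C : ℝ, 0 < A₀ ∧ A₀ ≤ 1 / 4 ∧ 1 ≤ C ∧
    ∀ (β L ϖ : ℝ) (u b σ : Tor d → ℝ) (ξ : Fin d → Tor d → ℝ), 0 < β → β ≤ 1 / 4 → Big L →
    kap L ≤ β → C1 L u → (∀ x, |u x| ≤ A₀) → C1 L b → (∀ x, 0 ≤ b x) → (∀ x, b x ≤ 1) →
    Continuous σ → (∀ x, 0 ≤ σ x) → (∀ x, σ x ≤ 2 * sig0 d) → VF L ϖ ξ →
    Bf L b (fun x => u x - 1) (orb (Yf L u (fb β))) (orb (Yf L u (fb β))) +
      2 * Bf L b (fun x => u x - 1) (orb (Yf L u (fb β)))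
        (fun a => Sop L ξ (orb (Yf L u (fb β)) a)) ≤
      (∫ x, b x * (TF d (σ x) - (1 - u x) * σ x)) +
        C * (Gr L b + Gr L u + Gr L (rhoF L u (fb β)) + Gx L ξ + β + kap L / β) := by
  obtain ⟨A₀, C₁, hA₀, hA₁, hC₁, hW⟩ := WW hd
  obtain ⟨C₂, hC₂, hcr⟩ := cross d
  obtain ⟨C₃, hC₃, hey⟩ := ey d
  have h6 : (1 : ℝ) ≤ 6 ^ d := one_le_pow₀ (by norm_num)
  refine ⟨A₀, 2 * C₁ + 2 * C₂ + C₃ + 6 ^ d, hA₀, hA₁, by linarith, ?_⟩
  intro β L ϖ u b σ ξ h0 h1 hL hκ hu hub hb hb0 hb1 hσ hσ0 hσ1 hξ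
  have hp : Pot L u := ⟨hL, hu, fun x => (hub x).trans hA₁⟩
  have hb' : ∀ x, |b x| ≤ 1 := fun x => by rw [abs_of_nonneg (hb0 x)]; exact hb1 x
  have hf := fb_fok h0 h1
  have e1 := hW β L u b h0 h1 hL hκ hu hub hb hb'
  have e2 := hcr L ϖ u b ξ hp hb hb' hξ _ _ hf
  have e3 := hey L u b hp hb hb' _ _ hf
  have e4 : wtr L u b (fun t => t * fb β t) + wtr L u b (phib β) ≤ 6 ^ d * β := by
    rw [← wtr_add]
    exact wtr_le hp hb.cont hb0 hb1 h0.le fun t => mul_fb_add h0 t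
  have hφ : Continuous (phib β) :=
    continuous_iff_continuousAt.2 fun t => ((phib_xf h0 h1).der t).continuousAt
  have e5 : -∫ x, b x * Cl d (phib β) (u x) ≤ ∫ x, b x * (TF d (σ x) - (1 - u x) * σ x) := by
    rw [← integral_neg]
    have c1 := hb.cont
    have c2 := hu.cont
    have c3 : Continuous (Cl d (phib β)) := Cl_cont hφ
    have c4 : Continuous (TF d) := TF_cont
    refine integral_mono (cont_int (by fun_prop)) (cont_int (by fun_prop)) fun x => ?_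
    have := Cl_lower (v := u x) hd h0 (hσ0 x) (hσ1 x)
    have := hb0 x
    beta_reduce
    nlinarith
  have g1 := Gr_nonneg (L := L) b
  have g2 := Gr_nonneg (L := L) u
  have g3 := Gr_nonneg (L := L) (rhoF L u (fb β))
  have g4 := Gx_nonneg (L := L) ξ
  have g5 : 0 ≤ kap L / β := div_nonneg (kap_pos hL.pos).le h0.le
  have e6 : √(Gr L u) * √(Gr L (rhoF L u (fb β))) ≤ Gr L u + Gr L (rhoF L u (fb β)) := by
    nlinarith [sq_sqrt g2, sq_sqrt g3, sq_nonneg (√(Gr L u) - √(Gr L (rhoF L u (fb β)))),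
      sqrt_nonneg (Gr L u), sqrt_nonneg (Gr L (rhoF L u (fb β)))]
  unfold Dv Er at e1
  have e7 := (abs_le.1 e1).1
  have e8 := (abs_le.1 e2).2
  set S := Gr L b + Gr L u + Gr L (rhoF L u (fb β)) + Gx L ξ + β + kap L / β with hS
  have f1 : C₁ * (Gr L b + Gr L u + √(Gr L u) * √(Gr L (rhoF L u (fb β))) + kap L / β) ≤
      C₁ * (2 * S) := by gcongr; linarith
  have f2 : C₂ * (Gr L b + Gr L u + Gx L ξ) ≤ C₂ * S := by gcongr; linarith
  have f3 : C₃ * (Gr L b + Gr L u + Gr L (rhoF L u (fb β))) ≤ C₃ * S := by gcongr; linarith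
  have f4 : 6 ^ d * β ≤ 6 ^ d * S := by gcongr; linarith
  linarith

end Pool.Agent.Lib.MP_ae5e3b_mp.Sh
end

-- part Pool.Agent.Lib.MP_ae5e3b_mp.SCoA
section

open MeasureTheory Matrix Real
open scoped ComplexConjugate ComplexOrder

set_option linter.unusedSectionVars false

namespace Pool.Agent.Lib.MP_ae5e3b_mp.Sh

section Alg
variable {n : Type} [Fintype n] [DecidableEq n]

lemma SCoA_alg1 (γ U : Matrix n n ℂ) {P φ : Matrix n n ℂ} (hc : P * φ = φ * P) :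
    trace (γ * cm P (Complex.I • (φ * U * φ))) =
      -trace (U * (Complex.I • cm P (φ * γ * φ))) := by
  have e1 : trace (γ * (P * (φ * U * φ))) = trace (U * (φ * γ * φ * P)) := by
    have : γ * (P * (φ * U * φ)) = (γ * (P * φ)) * (U * φ) := by simp only [Matrix.mul_assoc]
    rw [this, trace_mul_comm, hc]
    simp only [Matrix.mul_assoc]
  have e2 : trace (γ * (φ * U * φ * P)) = trace (U * (P * (φ * γ * φ))) := by
    have : γ * (φ * U * φ * P) = (γ * φ) * (U * (φ * P)) := by simp only [Matrix.mul_assoc]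
    rw [this, trace_mul_comm, ← hc]
    simp only [Matrix.mul_assoc]
  unfold cm
  simp only [Matrix.mul_smul, Matrix.smul_mul, Matrix.mul_sub, smul_sub, trace_sub, trace_smul,
    e1, e2]
  ring

lemma SCoA_alg2 {G Q P φ U V V' M1 M2 : Matrix n n ℂ} (g1 : Q * G = G) (g2 : G * Q = G)
    (h1 : Q * φ = Q) (h2 : φ * Q = Q) (hQ : Q * P = P * Q) (hφ : P * φ = φ * P)
    (h3 : Q * V * φ = Q * V) (h4 : φ * V * Q = V * Q) (h5 : cm V P = Complex.I • V')
    (h6 : Q * V * U = Q * M1) (h7 : Q * V' * U = Q * M2) (h8 : U * V * Q = M1 * Q) :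
    trace (G * cm (V * P) (Complex.I • (φ * U * φ))) =
      -trace (M1 * (Complex.I • cm P G)) - trace (M2 * G) := by
  have h5' : V * P = P * V + Complex.I • V' := by
    rw [← h5]; unfold cm; abel
  have tq : ∀ X, trace (G * X) = trace (G * (Q * X * Q)) := by
    intro X
    have : G * (Q * X * Q) = (G * Q * X) * Q := by simp only [Matrix.mul_assoc]
    rw [this, trace_mul_comm _ Q, g2, ← Matrix.mul_assoc, g1]
  have a1 : Q * (V * P * (φ * U * φ)) * Q = Q * (P * M1 + Complex.I • M2) * Q := by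
    calc Q * (V * P * (φ * U * φ)) * Q = Q * V * (P * φ) * U * (φ * Q) := by
          simp only [Matrix.mul_assoc]
      _ = (Q * V * φ) * P * U * Q := by rw [hφ, h2]; simp only [Matrix.mul_assoc]
      _ = Q * (V * P) * U * Q := by rw [h3]; simp only [Matrix.mul_assoc]
      _ = (Q * P) * V * U * Q + Complex.I • (Q * V' * U * Q) := by
          rw [h5']
          simp only [Matrix.mul_add, Matrix.add_mul, Matrix.mul_smul, Matrix.smul_mul,
            Matrix.mul_assoc]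
      _ = P * (Q * V * U) * Q + Complex.I • (Q * V' * U * Q) := by
          rw [hQ]; simp only [Matrix.mul_assoc]
      _ = (P * Q) * M1 * Q + Complex.I • (Q * M2 * Q) := by
          rw [h6, h7]; simp only [Matrix.mul_assoc]
      _ = Q * (P * M1 + Complex.I • M2) * Q := by
          rw [← hQ]
          simp only [Matrix.mul_add, Matrix.add_mul, Matrix.mul_smul, Matrix.smul_mul,
            Matrix.mul_assoc]
  have a2 : Q * (φ * U * φ * (V * P)) * Q = Q * (M1 * P) * Q := by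
    calc Q * (φ * U * φ * (V * P)) * Q = (Q * φ) * U * (φ * V) * (P * Q) := by
          simp only [Matrix.mul_assoc]
      _ = Q * U * (φ * V * Q) * P := by rw [h1, ← hQ]; simp only [Matrix.mul_assoc]
      _ = Q * (U * V * Q) * P := by rw [h4]; simp only [Matrix.mul_assoc]
      _ = Q * M1 * (Q * P) := by rw [h8]; simp only [Matrix.mul_assoc]
      _ = Q * (M1 * P) * Q := by rw [hQ]; simp only [Matrix.mul_assoc]
  have e1 : trace (G * (V * P * (φ * U * φ))) =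
      trace (M1 * (G * P)) + Complex.I * trace (M2 * G) := by
    rw [tq, a1, ← tq, Matrix.mul_add, trace_add, Matrix.mul_smul, trace_smul, ← Matrix.mul_assoc,
      trace_mul_comm _ M1, trace_mul_comm _ M2, smul_eq_mul]
  have e2 : trace (G * (φ * U * φ * (V * P))) = trace (M1 * (P * G)) := by
    rw [tq, a2, ← tq, trace_mul_comm, Matrix.mul_assoc]
  unfold cm
  simp only [Matrix.mul_smul, Matrix.smul_mul, Matrix.mul_sub, smul_sub, trace_sub, trace_smul,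
    e1, e2, smul_eq_mul]
  linear_combination trace (M2 * G) * Complex.I_mul_I

end Alg

section Main
variable {d : ℕ} {L : ℝ} {u v : Tor d → ℝ}

lemma SCoA_Pm_Ph (r : Fin d) : Pm L r * Ph d L = Ph d L * Pm L r := by
  unfold Pm Ph
  rw [dg_mul, dg_mul]
  simp only [mul_comm]

lemma SCoA_P6_Pm (r : Fin d) : P6 d L * Pm L r = Pm L r * P6 d L := by
  unfold Pm P6
  rw [dg_mul, dg_mul]
  simp only [mul_comm]

lemma SCoA_lo_phi {i j : Ix d L} (h : ‖mom i - mom j‖ ≤ 1) :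
    lo L 6 i * phiS (mom j) = lo L 6 i := by
  by_cases h0 : lo L 6 i = 0
  · rw [h0, zero_mul]
  · have h1 := lo_ne h0
    have h2 : ‖mom j‖ ≤ ‖mom i‖ + ‖mom i - mom j‖ := by
      have := norm_sub_le (mom i) (mom i - mom j)
      rwa [sub_sub_cancel] at this
    rw [phiS_eq_one (by linarith), mul_one]

lemma SCoA_P6_Ph : P6 d L * Ph d L = P6 d L := by
  unfold P6 Ph
  rw [dg_mul]
  congr 1
  funext i
  exact SCoA_lo_phi (by simp)

lemma SCoA_Ph_P6 : Ph d L * P6 d L = P6 d L := by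
  have := congrArg conjTranspose (SCoA_P6_Ph (d := d) (L := L))
  rwa [conjTranspose_mul, Ph_conjT, P6_conjT] at this

/-- The sum rule for the momentum. -/
lemma SCoA_exP (hL : 0 < L) (hu : C1 L u) (f : ℝ → ℝ) (r : Fin d) :
    exS f (ham L u) (ham L u) (Pm L r) =
      L ^ d * -∫ x, pd L r (rhoF L u f) x * pd L r u x := by
  have hD : 0 < L ^ d := pow_pos hL d
  rw [exS_self (ham_herm L u) (Pm_herm r), cm_ham_Pm hu]
  have e : ∫ x, pd L r (rhoF L u f) x * pd L r u x = (L ^ d)⁻¹ * rtr (mulM L (cx (pd L r u)) *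
      (Complex.I • cm (Pm L r) (Ph d L * fc f (ham L u) * Ph d L))) := by
    rw [← dens_pair _ (hu.cpd r), rhoF, pd_dens]
    simp only [mul_comm]
  rw [e, mul_neg, ← mul_assoc, mul_inv_cancel₀ hD.ne', one_mul]
  unfold rtr Wop
  rw [SCoA_alg1 _ _ (SCoA_Pm_Ph r), Complex.neg_re]

/-- The double commutator in the projected state. -/
lemma SCoA_proj (hL : Big L) (hu : C1 L u) (hv : TP L 1 (cx v)) (f : ℝ → ℝ) (r : Fin d) :
    rtr (P6 d L * fc f (ham L u) * P6 d L *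
      cm (mulM L (cx v) * Pm L r) (cm (ham L u) (Pm L r))) =
      -(L ^ d * ∫ x, pd L r u x *
        (pd L r v x * rhoP L u f x + v x * pd L r (rhoP L u f) x)) := by
  have hD : 0 < L ^ d := pow_pos hL.pos d
  have hv1 : C1 L v := hv.c1_real
  have cu := hu.cpd r
  have cu' := continuous_cx cu
  have hm : ∀ i : Ix d L, lo L 6 i ≠ 0 → ‖mom i‖ + 1 ≤ 15 := fun i hi => by
    have := lo_ne hi; linarith
  set G := P6 d L * fc f (ham L u) * P6 d L with hG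
  have g1 : P6 d L * G = G := by rw [hG, ← Matrix.mul_assoc, ← Matrix.mul_assoc, P6_mul]
  have g2 : G * P6 d L = G := by rw [hG, Matrix.mul_assoc, P6_mul]
  have h3 : P6 d L * mulM L (cx v) * Ph d L = P6 d L * mulM L (cx v) :=
    dg_mulM_dg zero_le_one hv fun i j h => SCoA_lo_phi h
  have h4 : Ph d L * mulM L (cx v) * P6 d L = mulM L (cx v) * P6 d L :=
    dg_mulM_dg' zero_le_one hv fun i j h => by
      rw [mul_comm]; exact SCoA_lo_phi (by rwa [norm_sub_rev])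
  have h5 : cm (mulM L (cx v)) (Pm L r) = Complex.I • mulM L (cx (pd L r v)) := by
    rw [cm_mulM_Pm hv1.cx, pd_cx hv1]
  have h6 : P6 d L * mulM L (cx v) * mulM L (cx (pd L r u)) =
      P6 d L * mulM L (cx fun x => pd L r u x * v x) := by
    unfold P6
    rw [mulM_mul_left hL hv cu' hm]
    congr 2
    funext x
    simp only [cx]; push_cast; ring
  have h7 : P6 d L * mulM L (cx (pd L r v)) * mulM L (cx (pd L r u)) =
      P6 d L * mulM L (cx fun x => pd L r u x * pd L r v x) := by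
    unfold P6
    rw [mulM_mul_left hL (hv.pd_real r) cu' hm]
    congr 2
    funext x
    simp only [cx]; push_cast; ring
  have h8 : mulM L (cx (pd L r u)) * mulM L (cx v) * P6 d L =
      mulM L (cx fun x => pd L r u x * v x) * P6 d L := by
    unfold P6
    rw [mulM_mul_right hL hv cu' hm]
    congr 2
    funext x
    simp only [cx]; push_cast; ring
  have c1 : Continuous fun x => pd L r u x * v x := cu.mul hv1.cont
  have c2 : Continuous fun x => pd L r u x * pd L r v x := cu.mul (hv1.cpd r)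
  have c3 : Continuous fun x => pd L r u x * v x * dens (Complex.I • cm (Pm L r) G) x :=
    c1.mul (dens_C1 _).cont
  have c4 : Continuous fun x => pd L r u x * pd L r v x * dens G x := c2.mul (dens_C1 _).cont
  have e : ∫ x, pd L r u x * (pd L r v x * rhoP L u f x + v x * pd L r (rhoP L u f) x) =
      (∫ x, pd L r u x * v x * dens (Complex.I • cm (Pm L r) G) x) +
        ∫ x, pd L r u x * pd L r v x * dens G x := by
    rw [← integral_add (cont_int c3) (cont_int c4), rhoP, ← hG, pd_dens]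
    congr 1
    funext x
    ring
  rw [e, dens_pair _ c1, dens_pair _ c2, ← mul_add, ← mul_assoc, mul_inv_cancel₀ hD.ne', one_mul,
    cm_ham_Pm hu]
  unfold rtr Wop
  rw [SCoA_alg2 g1 g2 SCoA_P6_Ph SCoA_Ph_P6 (SCoA_P6_Pm r) (SCoA_Pm_Ph r) h3 h4 h5 h6 h7 h8,
    Complex.sub_re, Complex.neg_re]
  ring

/-- The cost of the projection. -/
lemma SCoA_cut (d : ℕ) : ∃ C : ℝ, 1 ≤ C ∧ ∀ (L : ℝ) (u : Tor d → ℝ), Pot L u →
    ∀ (f : ℝ → ℝ) (l : ℝ), FOK f l →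
    hs (fc f (ham L u) - P6 d L * fc f (ham L u) * P6 d L) ≤ C * √(L ^ d * Gr L u) := by
  obtain ⟨C, hC, h⟩ := hiE d
  refine ⟨2 * C, by linarith, fun L u hu f l hf => ?_⟩
  obtain ⟨h1, h2⟩ := h L u hu _ (Or.inl rfl) (hi L 6) 1 zero_le_one (abs_hi_le 6)
    fun i hi => by have := hi_ne hi; linarith
  have hH := ham_herm L u
  have hγ : OpB (fc f (ham L u)) 1 := hu.fc_opB hf.van
  have e0 : dg (hi L 6) = 1 - P6 d L := by
    rw [P6, ← dg_one, dg_sub]; rfl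
  have e1 : fc f (ham L u) - P6 d L * fc f (ham L u) * P6 d L =
      dg (hi L 6) * Ep (ham L u) * fc f (ham L u) +
        P6 d L * fc f (ham L u) * (Ep (ham L u) * dg (hi L 6)) := by
    rw [Matrix.mul_assoc (dg _), Ep_mul_fc hH hf.zero, ← Matrix.mul_assoc,
      Matrix.mul_assoc (P6 d L) _ (Ep _), fc_mul_Ep hH hf.zero, e0]
    simp only [Matrix.sub_mul, Matrix.mul_sub, Matrix.one_mul, Matrix.mul_one]
    abel
  rw [e1]
  have a1 := hγ.hs_mul_right (dg (hi L 6) * Ep (ham L u))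
  have a2 := (P6_opB.mul hγ).hs_mul_left (Ep (ham L u) * dg (hi L 6))
  have a3 := hs_add_le (dg (hi L 6) * Ep (ham L u) * fc f (ham L u))
    (P6 d L * fc f (ham L u) * (Ep (ham L u) * dg (hi L 6)))
  linarith

/-- The excitation sum of the weighted momentum. -/
lemma SCoA_exZ (d : ℕ) : ∃ C : ℝ, 1 ≤ C ∧ ∀ (L A : ℝ) (u v : Tor d → ℝ), Pot L u → 0 < A →
    TP L 1 (cx v) → (∀ x, |v x| ≤ A) → ∀ (f : ℝ → ℝ) (l : ℝ), FOK f l → ∀ r : Fin d,
    exS f (ham L u) (ham L u) (mulM L (cx v) * Pm L r) ≤ C * L ^ d *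
      (Gr L v + A ^ 2 * (Gr L u + √(Gr L u) * √(Gr L (rhoF L u f)))) := by
  obtain ⟨C, hC, h⟩ := exB0 d 16
  refine ⟨C, hC, fun L A u v hu hA hv hb f l hf r => ?_⟩
  have hv1 : C1 L v := hv.c1_real
  have h1 := h L u (fun x => A⁻¹ * v x) hu (hv.const_mul_real _) (fun x => by
    rw [abs_mul, abs_of_pos (inv_pos.2 hA), inv_mul_le_iff₀ hA, mul_one]; exact hb x) f l hf
    (fun i => mom i r) r 0 (sy_mom hu.big r) (by simp) fun i _ => (add_zero _).symm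
  have e1 : mulM L (cx v) * Pm L r =
      (A : ℂ) • (mulM L (cx fun x => A⁻¹ * v x) * dg fun i => mom i r) := by
    rw [mulM_cx_const_mul, Matrix.smul_mul, smul_smul, ← Complex.ofReal_mul,
      mul_inv_cancel₀ hA.ne', Complex.ofReal_one, one_smul, Pm]
  rw [e1, exS_smul, Complex.norm_real, Real.norm_of_nonneg hA.le]
  refine (mul_le_mul_of_nonneg_left h1 (sq_nonneg A)).trans (le_of_eq ?_)
  rw [Er, Gr_const_mul _ hv1, Real.norm_of_nonneg (inv_pos.2 hA).le]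
  field_simp
  ring

end Main

/-- The sum rule tested against a weighted momentum. -/
theorem coA (d : ℕ) : ∃ C : ℝ, 1 ≤ C ∧ ∀ (L A : ℝ) (u v : Tor d → ℝ), Pot L u → 0 < A →
    TP L 1 (cx v) → (∀ x, |v x| ≤ A) → ∀ (f : ℝ → ℝ) (l : ℝ), FOK f l → ∀ r : Fin d,
    0 ≤ -∫ x, pd L r (rhoF L u f) x * pd L r u x ∧
    |∫ x, pd L r u x * (pd L r v x * rhoP L u f x + v x * pd L r (rhoP L u f) x)| ≤
      C * √(-∫ x, pd L r (rhoF L u f) x * pd L r u x) *
        √(Gr L v + A ^ 2 * (Gr L u + √(Gr L u) * √(Gr L (rhoF L u f)))) + C * A * Gr L u := by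
  obtain ⟨C1', hC1, hcut⟩ := SCoA_cut d
  obtain ⟨C2, hC2, hex⟩ := SCoA_exZ d
  have h3 : (0 : ℝ) < 3 ^ d := by positivity
  refine ⟨C2 + 32 * 3 ^ d * C1', by nlinarith, fun L A u v hu hA hv hb f l hf r => ?_⟩
  have hL := hu.big
  have hD : 0 < L ^ d := pow_pos hL.pos d
  have hH := ham_herm L u
  have eP := SCoA_exP hL.pos hu.c1 f r
  have hP0 := exS_nonneg hH hH hf.anti (Pm L r)
  obtain ⟨X, hX⟩ : ∃ X, X = -∫ x, pd L r (rhoF L u f) x * pd L r u x := ⟨_, rfl⟩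
  obtain ⟨Y, hY⟩ : ∃ Y, Y = Gr L v + A ^ 2 * (Gr L u + √(Gr L u) * √(Gr L (rhoF L u f))) :=
    ⟨_, rfl⟩
  have hZ := hex L A u v hu hA hv hb f l hf r
  have ePr := SCoA_proj hL hu.c1 hv f r
  rw [← hX] at eP ⊢
  rw [← hY] at hZ ⊢
  generalize ∫ x, pd L r u x * (pd L r v x * rhoP L u f x + v x * pd L r (rhoP L u f) x) = J
    at ePr ⊢
  have hX0 : 0 ≤ X := by
    rw [eP] at hP0
    exact le_of_mul_le_mul_left (by rwa [mul_zero]) hD
  refine ⟨hX0, ?_⟩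
  have hG := Gr_nonneg (L := L) u
  have hcs := exS_cs hH hf.anti (Pm_herm r) (mulM L (cx v) * Pm L r)
  set K := cm (mulM L (cx v) * Pm L r) (cm (ham L u) (Pm L r)) with hK
  have b1 : √(exS f (ham L u) (ham L u) (Pm L r)) *
      √(exS f (ham L u) (ham L u) (mulM L (cx v) * Pm L r)) ≤ L ^ d * (C2 * √X * √Y) := by
    have a1 : √(exS f (ham L u) (ham L u) (mulM L (cx v) * Pm L r)) ≤ C2 * (√(L ^ d) * √Y) := by
      refine (Real.sqrt_le_sqrt hZ).trans ?_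
      rw [mul_assoc, Real.sqrt_mul (by linarith), Real.sqrt_mul hD.le]
      refine mul_le_mul_of_nonneg_right ?_ (by positivity)
      rw [Real.sqrt_le_left (by linarith)]
      nlinarith
    rw [eP, Real.sqrt_mul hD.le]
    refine (mul_le_mul_of_nonneg_left a1 (by positivity)).trans (le_of_eq ?_)
    have := Real.mul_self_sqrt hD.le
    linear_combination C2 * √X * √Y * this
  have b2 : hs K ≤ 32 * A * (3 ^ d * √(L ^ d * Gr L u)) := by
    have a1 : OpB (mulM L (cx v) * Pm L r) (A * 16) :=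
      (mulM_opB_real hv.c1_real.cont hb).mul (Pm_opB hL r)
    have a2 := a1.hs_cm_left (cm (ham L u) (Pm L r))
    have a3 : hs (cm (ham L u) (Pm L r)) ≤ 3 ^ d * √(L ^ d * Gr L u) := by
      rw [cm_ham_Pm hu.c1, hs_smul, Complex.norm_I, one_mul]
      refine (hs_Wop hL (hu.c1.cpd r)).trans ?_
      have a4 := Gr_single_le (L := L) (g := u) r
      simp only [Real.norm_eq_abs, sq_abs] at a4
      gcongr
    have a5 := mul_le_mul_of_nonneg_left a3 (by positivity : 0 ≤ 2 * (A * 16))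
    linarith
  have b3 : ‖trace ((fc f (ham L u) - P6 d L * fc f (ham L u) * P6 d L) * K)‖ ≤
      L ^ d * (32 * 3 ^ d * C1' * A * Gr L u) := by
    refine (trace_mul_le _ _).trans ((mul_le_mul (hcut L u hu f l hf) b2 (hs_nonneg _)
      (by positivity)).trans (le_of_eq ?_))
    have := Real.mul_self_sqrt (mul_nonneg hD.le hG)
    linear_combination 32 * 3 ^ d * C1' * A * this
  have b4 : L ^ d * |J| ≤ L ^ d * (C2 * √X * √Y) + L ^ d * (32 * 3 ^ d * C1' * A * Gr L u) := by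
    have a1 := (abs_rtr_le _).trans (hcs.trans b1)
    have a2 := (abs_rtr_le _).trans b3
    rw [Matrix.sub_mul, rtr_sub, ePr] at a2
    rw [← abs_of_pos hD, ← abs_mul, abs_of_pos hD, abs_le]
    rw [abs_le] at a1 a2
    constructor <;> linarith [a1.1, a1.2, a2.1, a2.2]
  rw [← mul_add] at b4
  have b5 := le_of_mul_le_mul_left b4 hD
  have b6 : 0 ≤ 32 * 3 ^ d * C1' * √X * √Y := by positivity
  have b7 : 0 ≤ C2 * A * Gr L u := by positivity
  linarith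

end Pool.Agent.Lib.MP_ae5e3b_mp.Sh
end

-- part Pool.Agent.Lib.MP_ae5e3b_mp.SCoB
section

open MeasureTheory Matrix Real
open scoped ComplexConjugate ComplexOrder

set_option linter.unusedSectionVars false

namespace Pool.Agent.Lib.MP_ae5e3b_mp.Sh


lemma SCoB_am {x y : ℝ} (hx : 0 ≤ x) (hy : 0 ≤ y) : √x * √y ≤ x / 2 + y / 2 := by
  nlinarith [sq_sqrt hx, sq_sqrt hy, sq_nonneg (√x - √y)]

lemma SCoB_fin {K y G : ℝ} (hy : 0 ≤ y) (hG : 0 ≤ G)
    (h : y ≤ K * √(y * (√G * √y)) + 5 * G + y / 4) : y ≤ 4 * (5 + K ^ 4) * G := by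
  have h0 : 0 ≤ √G * √y := by positivity
  have h1 : K * √(y * (√G * √y)) ≤ y / 4 + K ^ 2 * (√G * √y) := by
    rw [sqrt_mul hy]
    nlinarith [sq_sqrt hy, sq_sqrt h0, sq_nonneg (√y / 2 - K * √(√G * √y))]
  have h2 : K ^ 2 * (√G * √y) ≤ y / 4 + K ^ 4 * G := by
    have h3 : K ^ 4 * √G ^ 2 = K ^ 4 * G := by rw [sq_sqrt hG]
    nlinarith [sq_sqrt hy, sq_nonneg (√y / 2 - K ^ 2 * √G)]
  linarith

section
variable {d : ℕ} {L Λ N q q₀ : ℝ} {u0 σ' w ρ : Tor d → ℝ}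

lemma SCoB_rho (hΛ : 1 ≤ Λ) (h : ∀ x, (1 + N) * w x - N * Jr L q w x = 2 * Λ * (ρ x - σ' x)) :
    ρ = fun x => σ' x + (2 * Λ)⁻¹ * (w x + N * (w x - Jr L q w x)) := by
  funext x
  have := h x
  have hΛ0 : Λ ≠ 0 := by linarith
  field_simp
  linarith

lemma SCoB_one (hL : 0 < L) (hq : 2 * kap L ≤ q) (hΛ : 1 ≤ Λ) (hN : 1 ≤ N)
    (hq₀ : 24 * d * (N * q₀ ^ 2) ≤ q ^ 2) (hu : TP L q₀ (cx u0)) (hσ : C1 L σ') (hw : C1 L w)
    (h : ∀ x, (1 + N) * w x - N * Jr L q w x = 2 * Λ * (ρ x - σ' x)) :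
    2 * Λ * -GG L ρ (fun x => u0 x + w x) + Om L N q w / 2 ≤
      2 * Λ * (√(Gr L σ') * √(Gr L fun x => u0 x + w x)) + Gr L u0 := by
  have hu0 := hu.c1_real
  have hJ := hw.sub (Jr_C1 hL hq w)
  have huu := hu0.add hw
  have hq0 : 0 < q := by linarith [kap_pos hL]
  rw [SCoB_rho hΛ h, GG_add_left hσ ((hw.add (hJ.const_mul N)).const_mul _) huu,
    GG_mul_left _ (hw.add (hJ.const_mul N)), GG_add_left hw (hJ.const_mul N) huu,
    GG_mul_left _ hJ, GG_add_right hu0 hw hw, GG_add_right hu0 hw hJ, GG_self]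
  have h1 := (abs_le.1 (abs_GG_le hσ huu)).1
  have h2 := (abs_le.1 ((abs_GG_le hw hu0).trans (SCoB_am (Gr_nonneg _) (Gr_nonneg _)))).1
  have h3 := (abs_le.1 ((GG_sub_Jr_cs hL hq hw hu0).trans
    (SCoB_am (GG_sub_Jr_nonneg hL hq hw) (GG_sub_Jr_nonneg hL hq hu0)))).1
  have h4 := GG_sub_Jr_low hL hq hu
  have h5 : N * (24 * d * q₀ ^ 2 / q ^ 2 * Gr L u0) ≤ 1 * Gr L u0 := by
    rw [← mul_assoc]
    refine mul_le_mul_of_nonneg_right ?_ (Gr_nonneg _)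
    rw [← mul_div_assoc, div_le_one (by positivity)]
    linarith
  have h6 := mul_le_mul_of_nonneg_left h4 (by linarith : 0 ≤ N)
  have h7 := mul_le_mul_of_nonneg_left h3 (by linarith : 0 ≤ N)
  have h8 := mul_le_mul_of_nonneg_left h1 (by linarith : 0 ≤ 2 * Λ)
  have e : ∀ X Y : ℝ, 2 * Λ * -(X + (2 * Λ)⁻¹ * Y) = -(2 * Λ * X) - Y := by
    intro X Y
    have hΛ0 : Λ ≠ 0 := by linarith
    field_simp; ring
  rw [e]
  unfold Om
  linarith

lemma SCoB_two (hL : 0 < L) (hq : 2 * kap L ≤ q) (hΛ : 1 ≤ Λ) (hN : 1 ≤ N) (hσ : C1 L σ')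
    (hw : C1 L w) (h : ∀ x, (1 + N) * w x - N * Jr L q w x = 2 * Λ * (ρ x - σ' x)) :
    Gr L ρ ≤ 2 * Gr L σ' + N * Om L N q w / Λ ^ 2 := by
  have hJ := hw.sub (Jr_C1 hL hq w)
  rw [SCoB_rho hΛ h]
  refine (Gr_add_le hσ ((hw.add (hJ.const_mul N)).const_mul _)).trans ?_
  rw [Gr_const_mul _ (hw.add (hJ.const_mul N))]
  have h1 := Gr_add_le hw (hJ.const_mul N)
  rw [Gr_const_mul _ hJ, Real.norm_eq_abs, sq_abs] at h1
  have h2 := Gr_sub_Jr_le_GG hL hq hw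
  have h3 := mul_le_mul_of_nonneg_left h2 (sq_nonneg N)
  have h4 : 1 * Gr L w ≤ N * Gr L w := mul_le_mul_of_nonneg_right hN (Gr_nonneg _)
  have h5 : Gr L (fun x => w x + N * (w x - Jr L q w x)) ≤ 2 * (N * Om L N q w) := by
    unfold Om; nlinarith
  rw [Real.norm_eq_abs, sq_abs]
  have hΛ0 : 0 < Λ := by linarith
  calc _ ≤ 2 * Gr L σ' + 2 * ((2 * Λ)⁻¹ ^ 2 * (2 * (N * Om L N q w))) := by gcongr
    _ = _ := by field_simp

lemma SCoB_four (hL : 0 < L) (hq : 2 * kap L ≤ q) (hN : 1 ≤ N) (hu : C1 L u0) (hw : C1 L w) :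
    Gr L (fun x => u0 x + w x) ≤ 2 * GG L (Jr L q fun x => u0 x + w x) (fun x => u0 x + w x) +
      4 * Gr L u0 + 4 * (Om L N q w / N) := by
  have huu := hu.add hw
  have hv := Jr_C1 hL hq fun x => u0 x + w x
  have h1 := Gr_add_le hv ((hu.sub (Jr_C1 hL hq u0)).add (hw.sub (Jr_C1 hL hq w)))
  have e : (fun x => Jr L q (fun x => u0 x + w x) x + (u0 x - Jr L q u0 x + (w x - Jr L q w x))) =
      fun x => u0 x + w x := by
    funext x; rw [Jr_add hu.cont hw.cont]; ring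
  rw [e] at h1
  have h2 := Gr_add_le (hu.sub (Jr_C1 hL hq u0)) (hw.sub (Jr_C1 hL hq w))
  have h3 := Gr_Jr_le_GG hL hq huu
  have h4 := (Gr_sub_Jr_le_GG hL hq hu).trans (GG_sub_Jr_le hL hq hu)
  have h5 := Gr_sub_Jr_le_GG hL hq hw
  have h6 : GG L (fun x => w x - Jr L q w x) w ≤ Om L N q w / N := by
    rw [le_div_iff₀ (by linarith)]
    unfold Om
    linarith [Gr_nonneg (L := L) w]
  linarith

/-- The sum over the directions of the tested sum rule. -/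
lemma SCoB_three {u v ρP : Tor d → ℝ} {s0 r A C S : ℝ} {X : Fin d → ℝ} (hu : C1 L u) (hv : C1 L v)
    (hP : C1 L ρP) (hr : ∀ x, |ρP x - s0| ≤ r) (hA : ∀ x, |v x| ≤ A) (hC : 0 ≤ C)
    (hX : ∀ r, 0 ≤ X r)
    (h : ∀ r, |∫ x, pd L r u x * (pd L r v x * ρP x + v x * pd L r ρP x)| ≤
      C * √(X r) * √S + C * A * Gr L u) :
    s0 * GG L v u ≤ d * (C * √(∑ r, X r) * √S + C * A * Gr L u) + r * (√(Gr L v) * √(Gr L u)) +
      A * (√(Gr L u) * √(Gr L ρP)) := by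
  have h1 := abs_wGG_le hv hu (b := fun x => ρP x - s0) (hP.cont.sub continuous_const) hr
  have h2 := abs_wGG_le hu hP hv.cont hA
  have h3 : ∀ j : Fin d, s0 * ∫ x, pd L j v x * pd L j u x ≤
      (C * √(∑ r, X r) * √S + C * A * Gr L u) + |∫ x, (ρP x - s0) * (pd L j v x * pd L j u x)| +
        |∫ x, v x * (pd L j u x * pd L j ρP x)| := by
    intro j
    have c1 := hu.cpd j
    have c2 := hv.cpd j
    have c3 := hP.cpd j
    have c4 := hP.cont
    have c5 := hv.cont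
    have e : s0 * ∫ x, pd L j v x * pd L j u x =
        (∫ x, pd L j u x * (pd L j v x * ρP x + v x * pd L j ρP x)) -
          (∫ x, (ρP x - s0) * (pd L j v x * pd L j u x)) -
          ∫ x, v x * (pd L j u x * pd L j ρP x) := by
      rw [← integral_sub (cont_int (by fun_prop)) (cont_int (by fun_prop)),
        ← integral_sub (cont_int (by fun_prop)) (cont_int (by fun_prop)), ← integral_const_mul]
      congr 1; funext x; ring
    have h4 : √(X j) ≤ √(∑ r, X r) :=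
      sqrt_le_sqrt (Finset.single_le_sum (fun r _ => hX r) (Finset.mem_univ j))
    have h5 : C * √(X j) * √S ≤ C * √(∑ r, X r) * √S := by gcongr
    have h6 := (le_abs_self _).trans (h j)
    have h7 := neg_abs_le (∫ x, (ρP x - s0) * (pd L j v x * pd L j u x))
    have h8 := neg_abs_le (∫ x, v x * (pd L j u x * pd L j ρP x))
    linarith
  have h4 := Finset.sum_le_sum fun j (_ : j ∈ Finset.univ) => h3 j
  rw [Finset.sum_add_distrib, Finset.sum_add_distrib, Finset.sum_const, Finset.card_univ,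
    Fintype.card_fin, nsmul_eq_mul, ← Finset.mul_sum] at h4
  unfold GG
  linarith

end

/-- The algebra of the coercivity bound. -/
lemma SCoB_alg {b s0 D CA CL Λ N A g G0 Gs Gu0 X Ω GF GP Gv Y : ℝ} (hb : 0 < b) (hb1 : b ≤ 1 / 4)
    (hs0 : 0 < s0) (hD : 0 ≤ D) (hCA : 1 ≤ CA) (hCL : 1 ≤ CL)
    (hb2 : b * (2 / s0 * (D * CA + 5 + CL) + 24) ≤ 1 / 4) (hΛ : 1 ≤ Λ) (hN : 1 ≤ N) (hA : 0 < A)
    (hΛN : Λ ≤ b ^ 2 * N) (hAN : A ^ 2 * N ≤ b ^ 2) (hg : 0 ≤ g) (hGs : 0 ≤ Gs) (hGu : 0 ≤ Gu0)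
    (hG0 : G0 = Gs + Gu0) (hX : 0 ≤ X) (hΩ : 0 ≤ Ω) (hGF : 0 ≤ GF) (hGv : Gv ≤ g)
    (h1 : 2 * Λ * X + Ω / 2 ≤ 2 * Λ * (√Gs * √g) + Gu0) (h2 : GF ≤ 2 * Gs + N * Ω / Λ ^ 2)
    (h3 : GP ≤ 2 * GF + 2 * (CL * g))
    (h4 : s0 * Y ≤ D * (CA * √X * √(Gv + A ^ 2 * (g + √g * √GF)) + CA * A * g) + b * (√Gv * √g) +
      A * (√g * √GP)) (h5 : g ≤ 2 * Y + 4 * Gu0 + 4 * (Ω / N)) :
    g + G0 ≤ 4 * (5 + (2 / s0 * (D * CA * 2)) ^ 4) * G0 ∧ Ω ≤ 6 * Λ * (g + G0) := by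
  obtain ⟨y, hy⟩ : ∃ y, y = g + G0 := ⟨_, rfl⟩
  rw [← hy]
  have hG : 0 ≤ G0 := by linarith
  have hy0 : 0 ≤ y := by linarith
  obtain ⟨t, ht⟩ : ∃ t, t = √G0 * √y := ⟨_, rfl⟩
  have t1 : G0 ≤ t := by
    rw [ht]; nth_rewrite 1 [← mul_self_sqrt hG]; gcongr; linarith
  have t2 : √Gs * √g ≤ t := by rw [ht]; gcongr <;> linarith
  have t3 : t ≤ y := by
    rw [ht]; nth_rewrite 2 [← mul_self_sqrt hy0]; gcongr; linarith
  have t0 : 0 ≤ t := hG.trans t1
  have a1 : 2 * Λ * X + Ω / 2 ≤ 3 * Λ * t := by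
    have := mul_le_mul_of_nonneg_left t2 (by linarith : 0 ≤ 2 * Λ)
    have : 1 * t ≤ Λ * t := by gcongr
    linarith
  have a2 : X ≤ 2 * t := by
    have h : Λ * X ≤ Λ * (2 * t) := by nlinarith
    exact le_of_mul_le_mul_left h (by linarith)
  have a3 : Ω ≤ 6 * Λ * y := by
    have : 0 ≤ Λ * X := by positivity
    have : Λ * t ≤ Λ * y := by gcongr
    linarith
  refine ⟨SCoB_fin hy0 hG ?_, a3⟩
  rw [← ht]
  have hA2 : A ^ 2 ≤ b ^ 2 := (le_mul_of_one_le_right (by positivity) hN).trans hAN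
  have hAb : A ≤ b := by rwa [sq_le_sq₀ hA.le hb.le] at hA2
  have hb16 : b ^ 2 ≤ 1 / 16 := by nlinarith
  have a4 : A ^ 2 * GF ≤ 8 * b ^ 2 * y := by
    have b1 : Ω / Λ ^ 2 ≤ 6 * y := by
      rw [div_le_iff₀ (by positivity)]
      have : Λ * y ≤ Λ ^ 2 * y := by gcongr; nlinarith
      linarith
    calc A ^ 2 * GF ≤ A ^ 2 * (2 * Gs + N * Ω / Λ ^ 2) := by gcongr
      _ = 2 * (A ^ 2 * Gs) + A ^ 2 * N * (Ω / Λ ^ 2) := by ring
      _ ≤ 2 * (b ^ 2 * y) + b ^ 2 * (6 * y) := by gcongr; linarith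
      _ = _ := by ring
  have a5 : A * (√g * √GP) ≤ (4 + CL) * b * y := by
    have b1 : A ^ 2 * GP ≤ ((4 + CL) * b) ^ 2 * y := by
      have c1 : A ^ 2 * g ≤ b ^ 2 * y := by gcongr; linarith
      calc A ^ 2 * GP ≤ A ^ 2 * (2 * GF + 2 * (CL * g)) := by gcongr
        _ = 2 * (A ^ 2 * GF) + 2 * CL * (A ^ 2 * g) := by ring
        _ ≤ 2 * (8 * b ^ 2 * y) + 2 * CL * (b ^ 2 * y) := by gcongr
        _ = (16 + 2 * CL) * (b ^ 2 * y) := by ring
        _ ≤ (4 + CL) ^ 2 * (b ^ 2 * y) := by gcongr; nlinarith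
        _ = _ := by ring
    have b2 : A * √GP ≤ (4 + CL) * b * √y := by
      rw [← sqrt_sq hA.le, ← sqrt_mul (sq_nonneg _),
        ← sqrt_sq (by positivity : 0 ≤ (4 + CL) * b), ← sqrt_mul (sq_nonneg _)]
      exact sqrt_le_sqrt b1
    calc A * (√g * √GP) = √g * (A * √GP) := by ring
      _ ≤ √y * ((4 + CL) * b * √y) := by gcongr; linarith
      _ = (4 + CL) * b * (√y * √y) := by ring
      _ = _ := by rw [mul_self_sqrt hy0]
  have a6 : √X * √(Gv + A ^ 2 * (g + √g * √GF)) ≤ 2 * √(y * t) := by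
    have b1 : Gv + A ^ 2 * (g + √g * √GF) ≤ 2 * y := by
      have c1 := mul_le_mul_of_nonneg_left (SCoB_am hg hGF) (sq_nonneg A)
      have c2 : A ^ 2 * g ≤ 1 / 16 * y := by gcongr <;> linarith
      have c3 : b ^ 2 * y ≤ 1 / 16 * y := by gcongr
      linarith
    calc _ ≤ √(2 * t) * √(2 * y) := by gcongr
      _ = √(2 ^ 2 * (y * t)) := by rw [← sqrt_mul (by positivity)]; congr 1; ring
      _ = _ := by rw [sqrt_mul (by positivity), sqrt_sq (by norm_num)]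
  have a7 : √Gv * √g ≤ y := by
    calc _ ≤ √y * √y := by gcongr <;> linarith
      _ = y := mul_self_sqrt hy0
  have a8 : Ω / N ≤ 6 * (b * y) := by
    rw [div_le_iff₀ (by linarith)]
    have c1 : Λ * y ≤ b ^ 2 * N * y := by gcongr
    have c2 : b ^ 2 * (N * y) ≤ b * (N * y) := by gcongr; nlinarith
    linarith
  have a9 : s0 * Y ≤ D * CA * 2 * √(y * t) + (D * CA + 5 + CL) * (b * y) := by
    have c1 : CA * A * g ≤ CA * b * y := by gcongr; linarith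
    have c2 := mul_le_mul_of_nonneg_left a6 (by linarith : 0 ≤ CA)
    have c3 : D * (CA * √X * √(Gv + A ^ 2 * (g + √g * √GF)) + CA * A * g) ≤
        D * (CA * (2 * √(y * t)) + CA * b * y) := mul_le_mul_of_nonneg_left (by linarith) hD
    have c4 := mul_le_mul_of_nonneg_left a7 hb.le
    linarith
  have a10 : 2 * Y ≤ 2 / s0 * (D * CA * 2 * √(y * t) + (D * CA + 5 + CL) * (b * y)) := by
    rw [div_mul_eq_mul_div, le_div_iff₀ hs0]; linarith
  have a11 := mul_le_mul_of_nonneg_right hb2 hy0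
  linarith

/-- Coercivity: gradient bounds for the self-consistent potential. -/
theorem coer {d : ℕ} (hd : 0 < d) : ∃ a r C : ℝ, 0 < a ∧ 0 < r ∧ 1 ≤ C ∧
    ∀ (L Λ N A q q₀ β : ℝ) (u0 σ' w : Tor d → ℝ), Big L → 1 ≤ Λ → 1 ≤ N → 0 < A → 2 * kap L ≤ q →
    q ≤ 1 → 0 < β → β ≤ 1 / 4 → Λ ≤ a * N → A ^ 2 * N ≤ a → N * q₀ ^ 2 ≤ a * q ^ 2 →
    TP L q₀ (cx u0) → C1 L σ' → SCF L Λ N q β u0 σ' w → (∀ x, |u0 x + w x| ≤ A) →
    (∀ x, |rhoP L (fun y => u0 y + w y) (fb β) x - sig0 d| ≤ r) →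
    Gr L (fun x => u0 x + w x) ≤ C * (Gr L σ' + Gr L u0) ∧
    Om L N q w ≤ C * Λ * (Gr L σ' + Gr L u0) := by
  obtain ⟨CA, hCA, hco⟩ := coA d
  obtain ⟨CL, hCL, hloc⟩ := loc d
  have hs0 := sig0_pos d
  obtain ⟨K, hK⟩ : ∃ K : ℝ, K = 2 / sig0 d * (d * CA + 5 + CL) + 24 := ⟨_, rfl⟩
  have hK0 : 0 < K := by rw [hK]; positivity
  obtain ⟨b, hbdef⟩ : ∃ b : ℝ, b = min (1 / (24 * (d : ℝ) + 4)) (1 / (4 * K)) := ⟨_, rfl⟩
  have hb : 0 < b := by rw [hbdef]; positivity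
  have hb1 : b * (24 * d + 4) ≤ 1 := by
    rw [← le_div_iff₀ (by positivity), hbdef]; exact min_le_left _ _
  have hb2 : b * K ≤ 1 / 4 := by
    have : b ≤ 1 / (4 * K) := by rw [hbdef]; exact min_le_right _ _
    rw [le_div_iff₀ (by positivity)] at this
    linarith
  have hd0 : (0 : ℝ) ≤ b * d := by positivity
  have hb3 : b ≤ 1 / 4 := by linarith
  obtain ⟨C, hC⟩ : ∃ C, C = 4 * (5 + (2 / sig0 d * (d * CA * 2)) ^ 4) := ⟨_, rfl⟩
  have hC1 : 1 ≤ C := by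
    have : 0 ≤ (2 / sig0 d * (d * CA * 2)) ^ 4 := by positivity
    rw [hC]; linarith
  refine ⟨b ^ 2, b, 6 * C, by positivity, hb, by linarith, ?_⟩
  intro L Λ N A q q₀ β u0 σ' w hL hΛ hN hA hq hq1 hβ hβ1 hΛN hAN hNq hu0 hσ hw hub hρ
  have hL0 := hL.pos
  have hu0C := hu0.c1_real
  have hwC : C1 L w := hw.1.c1_real
  have huC := hu0C.add hwC
  have hA2 : A ^ 2 ≤ b ^ 2 := (le_mul_of_one_le_right (by positivity) hN).trans hAN
  have hAb : A ≤ b := by rwa [sq_le_sq₀ hA.le hb.le] at hA2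
  have hp : Pot L fun x => u0 x + w x := ⟨hL, huC, fun x => (hub x).trans (hAb.trans hb3)⟩
  have hf := fb_fok hβ hβ1
  have hFC : C1 L (rhoF L (fun x => u0 x + w x) (fb β)) := dens_C1 _
  have hPC : C1 L (rhoP L (fun x => u0 x + w x) (fb β)) := dens_C1 _
  have h1 := SCoB_one hL0 hq hΛ hN (by
    calc (24 * d * (N * q₀ ^ 2) : ℝ) ≤ 24 * d * (b ^ 2 * q ^ 2) := by gcongr
      _ = (24 * (b * d) * b) * q ^ 2 := by ring
      _ ≤ (1 * 1) * q ^ 2 := by gcongr <;> linarith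
      _ = _ := by ring) hu0 hσ hwC hw.2
  have h2 := SCoB_two hL0 hq hΛ hN hσ hwC hw.2
  have h5 := SCoB_four (N := N) hL0 hq hN hu0C hwC
  have hvb := abs_Jr_le hL0 hq huC.cont hub
  have hc := hco L A _ _ hp hA ((Jr_TP hL0 hq _).mono hq1) hvb _ _ hf
  have h4 := SCoB_three huC (Jr_C1 hL0 hq _) hPC hρ hvb (by linarith) (fun r => (hc r).1)
    fun r => (hc r).2
  have eX : ∑ r, -∫ x, pd L r (rhoF L (fun x => u0 x + w x) (fb β)) x *
      pd L r (fun x => u0 x + w x) x =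
      -GG L (rhoF L (fun x => u0 x + w x) (fb β)) fun x => u0 x + w x := by
    rw [Finset.sum_neg_distrib]; rfl
  have hX : 0 ≤ -GG L (rhoF L (fun x => u0 x + w x) (fb β)) fun x => u0 x + w x := by
    rw [← eX]; exact Finset.sum_nonneg fun r _ => (hc r).1
  rw [eX] at h4
  obtain ⟨-, l2, -, -⟩ := hloc L _ hp (fb β) 1 hf.van (lo L 6) (fun i => phiS (mom i))
    (abs_lo_le _) (fun i => abs_phiS_le _) (fun i hi => lo_of_le (by linarith))
    (fun i hi => phiS_eq_one (by linarith))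
    (fun x => rhoP L (fun x => u0 x + w x) (fb β) x - rhoF L (fun x => u0 x + w x) (fb β) x) rfl
  have h3 := Gr_add_le hFC (hPC.sub hFC)
  simp only [add_sub_cancel] at h3
  rw [one_pow, mul_one] at l2
  have hΩ : 0 ≤ Om L N q w :=
    add_nonneg (Gr_nonneg _) (mul_nonneg (by linarith) (GG_sub_Jr_nonneg hL0 hq hwC))
  have hG0 : 0 ≤ Gr L σ' + Gr L u0 := add_nonneg (Gr_nonneg _) (Gr_nonneg _)
  obtain ⟨r1, r2⟩ := SCoB_alg hb hb3 hs0 (Nat.cast_nonneg d) hCA hCL (hK ▸ hb2) hΛ hN hA hΛN hAN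
    (Gr_nonneg _) (Gr_nonneg _) (Gr_nonneg _) rfl hX hΩ (Gr_nonneg _) (Gr_Jr_le hL0 hq huC) h1 h2
    (GP := Gr L (rhoP L (fun x => u0 x + w x) (fb β))) (by linarith) h4 h5
  rw [← hC] at r1
  have r3 : 0 ≤ C * (Gr L σ' + Gr L u0) := by positivity
  refine ⟨by linarith, r2.trans ?_⟩
  calc _ ≤ 6 * Λ * (C * (Gr L σ' + Gr L u0)) := by gcongr
    _ = _ := by ring

/-- Everything about the self-consistent potential. -/
theorem scf_pack {d : ℕ} (hd : 0 < d) : ∃ C : ℝ, 1 ≤ C ∧ ∀ r a Λ : ℝ, 0 < r → 0 < a → 1 ≤ Λ →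
    ∃ N q q₁ η β₁ L₀ : ℝ, 1 ≤ N ∧ 0 < q ∧ q ≤ 1 ∧ 0 < q₁ ∧ q₁ ≤ q ∧ 0 < η ∧ 0 < β₁ ∧ β₁ ≤ 1 / 4 ∧
    0 < L₀ ∧ ∀ (q₀ β L : ℝ) (u0 σ' : Tor d → ℝ), 0 < q₀ → q₀ ≤ q₁ → 0 < β → β ≤ β₁ → L₀ ≤ L →
    TP L q₀ (cx u0) → TP L q₀ (cx σ') → (∀ x, |u0 x| ≤ η) → (∀ x, |σ' x - sig0 d| ≤ η) →
    Big L ∧ 2 * kap L ≤ q ∧ ∃ w, SCF L Λ N q β u0 σ' w ∧ (∀ x, |u0 x + w x| ≤ a) ∧
      (∀ x, |rhoP L (fun y => u0 y + w y) (fb β) x - sig0 d| ≤ r) ∧
      Gr L (fun x => u0 x + w x) ≤ C * (Gr L σ' + Gr L u0) ∧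
      Om L N q w ≤ C * Λ * (Gr L σ' + Gr L u0) := by
  obtain ⟨ac, rc, C, hac, hrc, hC, hco⟩ := coer hd
  refine ⟨C, hC, fun r a Λ hr ha hΛ => ?_⟩
  obtain ⟨ap, βp, Lp, hap, hβp, hLp, hpt⟩ := ptw hd (r := min r rc) (by positivity)
  obtain ⟨N, q, η, β₁, A, hN, hq, hq1, hη, hβ₁, hβ₁', hA, hΛN, hAa, hAN, La, hLa, ham⟩ :=
    amp hd hΛ (a := min (min a ac) ap) (by positivity)
  have m1 : min (min a ac) ap ≤ ac := (min_le_left _ _).trans (min_le_right _ _)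
  obtain ⟨Lk, hLk, hk⟩ := exists_kap_le (ε := q / 2) (by positivity)
  refine ⟨N, q, min q (q * √(ac / N)), η, min β₁ βp, max (max La Lp) Lk, hN, hq, hq1,
    by positivity, min_le_left _ _, hη, by positivity, (min_le_left _ _).trans hβ₁', by positivity,
    fun q₀ β L u0 σ' hq₀ hq₀1 hβ hβ1 hL hu0 hσ hub hσb => ?_⟩
  obtain ⟨hB, hk⟩ := hk L ((le_max_right _ _).trans hL)
  have hq2 : 2 * kap L ≤ q := by linarith
  have hβa : β ≤ β₁ := hβ1.trans (min_le_left _ _)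
  have hq32 : q₀ ≤ 32 := by linarith [hq₀1.trans (min_le_left _ _)]
  obtain ⟨w, hw⟩ := exists_scf (Λ := Λ) (N := N) hB (by linarith) (by linarith) hq2 hβ
    (hβa.trans hβ₁') hu0.c1_real.cont (hσ.mono hq32)
  have hu := ham β L u0 σ' w hβ hβa (((le_max_left _ _).trans (le_max_left _ _)).trans hL)
    hu0.c1_real.cont hσ.c1_real.cont hub hσb hw
  have hρ := hpt β L (fun y => u0 y + w y) hβ (hβ1.trans (min_le_right _ _))
    (((le_max_right _ _).trans (le_max_left _ _)).trans hL)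
    (hu0.c1_real.cont.add hw.1.c1_real.cont)
    fun x => (hu x).trans (hAa.trans (min_le_right _ _))
  have hN0 : 0 < N := by linarith
  have hNq : N * q₀ ^ 2 ≤ ac * q ^ 2 := by
    have h1 : q₀ ≤ q * √(ac / N) := hq₀1.trans (min_le_right _ _)
    calc N * q₀ ^ 2 ≤ N * (q * √(ac / N)) ^ 2 := by gcongr
      _ = _ := by rw [mul_pow, sq_sqrt (by positivity)]; field_simp
  obtain ⟨g1, g2⟩ := hco L Λ N A q q₀ β u0 σ' w hB hΛ hN hA hq2 hq1 hβ (hβa.trans hβ₁')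
    (hΛN.trans (by gcongr)) (hAN.trans m1) hNq hu0 hσ.c1_real hw hu
    fun x => (hρ x).trans (min_le_right _ _)
  exact ⟨hB, hq2, w, hw, fun x => (hu x).trans (hAa.trans ((min_le_left _ _).trans
    (min_le_left _ _))), fun x => (hρ x).trans (min_le_left _ _), g1, g2⟩

end Pool.Agent.Lib.MP_ae5e3b_mp.Sh
end
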