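import Pool.Agent.Lib.MP_ae5e3b_mp.Defs
import Pool.Agent.Lib.MP_ae5e3b_mp.Lattice

-- part Pool.Agent.Lib.MP_ae5e3b_mp.Weak
section

open MeasureTheory Filter Topology ComplexConjugate
open scoped ENNReal ContDiff

set_option linter.unusedSectionVars false

namespace Pool.Agent.Lib.MP_ae5e3b_mp

section L2
variable {α : Type} [MeasurableSpace α] {μ : Measure α}

lemma inner_toLp {a b : α → ℂ} (ha : MemLp a 2 μ) (hb : MemLp b 2 μ) :
    inner ℂ (ha.toLp a) (hb.toLp b) = ∫ x, conj (a x) * b x ∂μ := by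
  rw [L2.inner_def]
  apply integral_congr_ae
  filter_upwards [ha.coeFn_toLp, hb.coeFn_toLp] with x h1 h2
  rw [h1, h2]; simp [mul_comm]

lemma norm_toLp_sq {a : α → ℂ} (ha : MemLp a 2 μ) :
    ‖ha.toLp a‖ ^ 2 = ∫ x, ‖a x‖ ^ 2 ∂μ := by
  have h := inner_toLp ha ha
  rw [inner_self_eq_norm_sq_to_K] at h
  have h2 : ∫ x, conj (a x) * a x ∂μ = ((∫ x, ‖a x‖ ^ 2 ∂μ : ℝ) : ℂ) := by
    rw [← integral_complex_ofReal]
    congr 1; ext x
    rw [Complex.conj_mul']; push_cast; ring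
  rw [h2] at h
  apply Complex.ofReal_injective
  rw [← h]; simp

lemma norm_toLp_eq {a : α → ℂ} (ha : MemLp a 2 μ) :
    ‖ha.toLp a‖ = √(∫ x, ‖a x‖ ^ 2 ∂μ) := by
  rw [← norm_toLp_sq ha, Real.sqrt_sq (norm_nonneg _)]

lemma cs_L2 {a b : α → ℂ} (ha : MemLp a 2 μ) (hb : MemLp b 2 μ) :
    ‖∫ x, conj (a x) * b x ∂μ‖ ≤ √(∫ x, ‖a x‖ ^ 2 ∂μ) * √(∫ x, ‖b x‖ ^ 2 ∂μ) := by
  rw [← inner_toLp ha hb, ← norm_toLp_eq ha, ← norm_toLp_eq hb]
  exact norm_inner_le_norm _ _

lemma memLp_conj {a : α → ℂ} (ha : MemLp a 2 μ) : MemLp (fun x => conj (a x)) 2 μ := by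
  refine ha.of_le ?_ ?_
  · exact Complex.continuous_conj.comp_aestronglyMeasurable ha.1
  · simp

lemma cs_L2' {a b : α → ℂ} (ha : MemLp a 2 μ) (hb : MemLp b 2 μ) :
    ‖∫ x, a x * b x ∂μ‖ ≤ √(∫ x, ‖a x‖ ^ 2 ∂μ) * √(∫ x, ‖b x‖ ^ 2 ∂μ) := by
  have := cs_L2 (memLp_conj ha) hb
  simpa using this

lemma integrable_mul_L2 {a b : α → ℂ} (ha : MemLp a 2 μ) (hb : MemLp b 2 μ) :
    Integrable (fun x => a x * b x) μ :=
  MemLp.integrable_mul ha hb

lemma integrable_normsq {a : α → ℂ} (ha : MemLp a 2 μ) :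
    Integrable (fun x => ‖a x‖ ^ 2) μ :=
  (memLp_two_iff_integrable_sq_norm ha.1).1 ha

lemma lintegral_enorm_sq {a : α → ℂ} (ha : MemLp a 2 μ) :
    ∫⁻ x, ‖a x‖ₑ ^ 2 ∂μ = ENNReal.ofReal (∫ x, ‖a x‖ ^ 2 ∂μ) := by
  rw [ofReal_integral_eq_lintegral_ofReal (integrable_normsq ha)
    (Eventually.of_forall fun x => by positivity)]
  congr 1; ext x
  rw [ENNReal.ofReal_pow (norm_nonneg _), ofReal_norm]

/-- triangle inequality in `L^2` -/
lemma tri_L2 {a b : α → ℂ} (ha : MemLp a 2 μ) (hb : MemLp b 2 μ) :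
    √(∫ x, ‖a x + b x‖ ^ 2 ∂μ) ≤ √(∫ x, ‖a x‖ ^ 2 ∂μ) + √(∫ x, ‖b x‖ ^ 2 ∂μ) := by
  have hab : MemLp (fun x => a x + b x) 2 μ := ha.add hb
  rw [← norm_toLp_eq ha, ← norm_toLp_eq hb, ← norm_toLp_eq hab]
  have : hab.toLp _ = ha.toLp a + hb.toLp b := MemLp.toLp_add ha hb
  rw [this]; exact norm_add_le _ _

end L2

section Weak
variable {E : Type} [NormedAddCommGroup E] [NormedSpace ℝ E] [FiniteDimensional ℝ E]
  [MeasureSpace E] [BorelSpace E] [Measure.IsAddHaarMeasure (volume : Measure E)]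

lemma memLp_test {φ : E → ℝ} (hφ : Continuous φ) (hc : HasCompactSupport φ) :
    MemLp (fun x => ((φ x : ℝ) : ℂ)) 2 volume := by
  have : MemLp φ 2 volume := hφ.memLp_of_hasCompactSupport hc
  exact this.ofReal

lemma memLp_shift {u : E → ℂ} (hu : MemLp u 2 volume) (w : E) :
    MemLp (fun x => u (x + w)) 2 volume :=
  hu.comp_measurePreserving (measurePreserving_add_right volume w)

lemma hasDerivAt_shift {u : E → ℂ} (hu : MemLp u 2 volume) {φ : E → ℝ} (hφ : ContDiff ℝ ∞ φ)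
    (hc : HasCompactSupport φ) (v : E) (t₀ : ℝ) :
    HasDerivAt (fun t : ℝ => ∫ x, u x * ((φ (x - t • v) : ℝ) : ℂ))
      (-∫ x, u x * ((fderiv ℝ φ (x - t₀ • v) v : ℝ) : ℂ)) t₀ := by
  have hd : Differentiable ℝ φ := hφ.differentiable (by simp)
  have hcf : Continuous (fderiv ℝ φ) := hφ.continuous_fderiv (by simp)
  have hsf : HasCompactSupport (fderiv ℝ φ) := hc.fderiv ℝ
  obtain ⟨M, hM⟩ := hcf.bounded_above_of_compact_support hsf
  obtain ⟨R, hR⟩ := (hsf.isCompact.isBounded).subset_closedBall (0 : E)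
  set K : Set E := Metric.closedBall (0 : E) (R + (|t₀| + 1) * ‖v‖) with hK
  have hKc : IsCompact K := isCompact_closedBall _ _
  have key := hasDerivAt_integral_of_dominated_loc_of_deriv_le (μ := (volume : Measure E))
    (F := fun (t : ℝ) x => u x * ((φ (x - t • v) : ℝ) : ℂ))
    (F' := fun (t : ℝ) x => -(u x * ((fderiv ℝ φ (x - t • v) v : ℝ) : ℂ)))
    (bound := K.indicator (fun x => ‖u x‖ * (M * ‖v‖))) (x₀ := t₀) (s := Metric.ball t₀ 1)
    (Metric.ball_mem_nhds _ one_pos) ?_ ?_ ?_ ?_ ?_ ?_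
  · have := key.2
    rwa [integral_neg] at this
  · refine Eventually.of_forall fun t => hu.1.mul ?_
    exact (Complex.continuous_ofReal.comp (hφ.continuous.comp (by fun_prop))).aestronglyMeasurable
  · refine integrable_mul_L2 hu ?_
    have := memLp_shift (memLp_test hφ.continuous hc) (-(t₀ • v))
    simpa [sub_eq_add_neg] using this
  · refine (hu.1.mul ?_).neg
    refine (Complex.continuous_ofReal.comp ?_).aestronglyMeasurable
    exact (hcf.comp (by fun_prop)).clm_apply continuous_const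
  · refine Eventually.of_forall fun x t ht => ?_
    by_cases hx : x ∈ K
    · rw [Set.indicator_of_mem hx, norm_neg, norm_mul, Complex.norm_real]
      gcongr
      exact (ContinuousLinearMap.le_opNorm _ _).trans (by gcongr; exact hM _)
    · rw [Set.indicator_of_notMem hx]
      have : fderiv ℝ φ (x - t • v) = 0 := by
        by_contra h
        have h1 : x - t • v ∈ tsupport (fderiv ℝ φ) := subset_tsupport _ h
        have h2 := hR h1
        apply hx
        rw [hK, mem_closedBall_zero_iff] at *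
        have h3 : |t| ≤ |t₀| + 1 := by
          rw [Metric.mem_ball, Real.dist_eq] at ht
          have := abs_sub_abs_le_abs_sub t t₀
          linarith
        calc ‖x‖ = ‖(x - t • v) + t • v‖ := by simp
          _ ≤ ‖x - t • v‖ + ‖t • v‖ := norm_add_le _ _
          _ ≤ R + (|t₀| + 1) * ‖v‖ := by
            rw [norm_smul, Real.norm_eq_abs]; gcongr
      simp [this]
  · rw [integrable_indicator_iff hKc.measurableSet]
    refine Integrable.mul_const ?_ _
    have : IsFiniteMeasure (volume.restrict K) := isFiniteMeasure_restrict.2 hKc.measure_ne_top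
    exact ((hu.restrict K).integrable (by norm_num)).norm
  · refine Eventually.of_forall fun x t _ => ?_
    have h1 : HasDerivAt (fun t : ℝ => x - t • v) (-v) t := by
      simpa using ((hasDerivAt_id t).smul_const v).const_sub x
    have h2 := (hd (x - t • v)).hasFDerivAt.comp_hasDerivAt t h1
    have h3 := h2.ofReal_comp.const_mul (u x)
    have h4 : ((fderiv ℝ φ (x - t • v) (-v) : ℝ) : ℂ) = -((fderiv ℝ φ (x - t • v) v : ℝ) : ℂ) := by
      simp
    rw [h4, mul_neg] at h3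
    exact h3

/-- weak derivative implies the difference quotient bound -/
lemma diff_le_of_weak {u : E → ℝ} {g : E → ℂ} {v : E} (hu : MemLp u 2 volume)
    (hg : MemLp g 2 volume) (hw : IsWeakDeriv (fun x => (u x : ℂ)) g v) (h : ℝ) (hh : 0 < h) :
    ∫ x, (u (x + h • v) - u x) ^ 2 ≤ h ^ 2 * ∫ x, ‖g x‖ ^ 2 := by
  have huc : MemLp (fun x => (u x : ℂ)) 2 volume := hu.ofReal
  set G := √(∫ x, ‖g x‖ ^ 2) with hG
  have hG0 : 0 ≤ G := Real.sqrt_nonneg _
  let w : E → ℝ := fun x => u (x + h • v) - u x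
  have hw2 : MemLp w 2 volume :=
    (hu.comp_measurePreserving (measurePreserving_add_right volume (h • v))).sub hu
  have hwc : MemLp (fun x => (w x : ℂ)) 2 volume := hw2.ofReal
  -- duality bound
  have dual : ∀ φ : E → ℝ, ContDiff ℝ ∞ φ → HasCompactSupport φ →
      ‖∫ x, (w x : ℂ) * (φ x : ℂ)‖ ≤ h * (G * √(∫ x, ‖(φ x : ℂ)‖ ^ 2)) := by
    intro φ hφ hc
    have hd : Differentiable ℝ φ := hφ.differentiable (by simp)
    have hJ : ∀ t : ℝ, ‖-∫ x, (u x : ℂ) * ((fderiv ℝ φ (x - t • v) v : ℝ) : ℂ)‖ ≤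
        G * √(∫ x, ‖(φ x : ℂ)‖ ^ 2) := by
      intro t
      have hφt : ContDiff ℝ ∞ (fun x => φ (x - t • v)) := hφ.comp (by fun_prop)
      have hct : HasCompactSupport (fun x => φ (x - t • v)) :=
        hc.comp_homeomorph (Homeomorph.subRight (t • v))
      have h1 := hw _ hφt hct
      have h2 : ∀ x, fderiv ℝ (fun x => φ (x - t • v)) x = fderiv ℝ φ (x - t • v) := by
        intro x
        exact fderiv_comp_sub (t • v)
      simp only [h2] at h1
      rw [h1, neg_neg]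
      refine (cs_L2' hg (memLp_test hφt.continuous hct)).trans (le_of_eq ?_)
      congr 2
      exact integral_sub_right_eq_self (fun x => ‖(φ x : ℂ)‖ ^ 2) (t • v)
    have hmv := (convex_univ (𝕜 := ℝ) (E := ℝ)).norm_image_sub_le_of_norm_hasDerivWithin_le
      (f := fun t : ℝ => ∫ x, (u x : ℂ) * ((φ (x - t • v) : ℝ) : ℂ))
      (f' := fun t => -∫ x, (u x : ℂ) * ((fderiv ℝ φ (x - t • v) v : ℝ) : ℂ))
      (fun t _ => (hasDerivAt_shift huc hφ hc v t).hasDerivWithinAt) (fun t _ => hJ t)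
      (Set.mem_univ 0) (Set.mem_univ h)
    have e1 : ∫ x, (w x : ℂ) * (φ x : ℂ) = (∫ x, (u x : ℂ) * ((φ (x - h • v) : ℝ) : ℂ)) -
        ∫ x, (u x : ℂ) * ((φ (x - (0 : ℝ) • v) : ℝ) : ℂ) := by
      have := integral_add_right_eq_self (μ := (volume : Measure E))
        (fun x => (u x : ℂ) * ((φ (x - h • v) : ℝ) : ℂ)) (h • v)
      rw [← this, ← integral_sub]
      · congr 1; ext x; simp [w]; ring
      · simpa using integrable_mul_L2 (memLp_shift huc (h • v)) (memLp_test hφ.continuous hc)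
      · simpa using integrable_mul_L2 huc (memLp_test hφ.continuous hc)
    rw [e1]
    refine hmv.trans (le_of_eq ?_)
    rw [sub_zero, Real.norm_eq_abs, abs_of_pos hh]; ring
  set W := √(∫ x, ‖(w x : ℂ)‖ ^ 2) with hW
  have hW0 : 0 ≤ W := Real.sqrt_nonneg _
  have hWsq : W ^ 2 = ∫ x, (u (x + h • v) - u x) ^ 2 := by
    rw [hW, Real.sq_sqrt (integral_nonneg fun x => by positivity)]
    congr 1; ext x; rw [Complex.norm_real, Real.norm_eq_abs, sq_abs]
  have main : ∀ δ : ℝ, 0 < δ → W ^ 2 ≤ h * (G * (W + δ)) + W * δ := by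
    intro δ hδ
    obtain ⟨φ, hc, hφ, hle⟩ := hw2.exist_eLpNorm_sub_le (by simp) (by simp) hδ
    have hφc := memLp_test hφ.continuous hc
    have hdiff : MemLp (fun x => (w x : ℂ) - (φ x : ℂ)) 2 volume := hwc.sub hφc
    have hD : √(∫ x, ‖(w x : ℂ) - (φ x : ℂ)‖ ^ 2) ≤ δ := by
      rw [← norm_toLp_eq hdiff, Lp.norm_toLp]
      refine ENNReal.toReal_le_of_le_ofReal hδ.le (le_trans (le_of_eq ?_) hle)
      apply eLpNorm_congr_norm_ae
      refine Eventually.of_forall fun x => ?_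
      rw [← Complex.ofReal_sub, Complex.norm_real]; rfl
    have hφn : √(∫ x, ‖(φ x : ℂ)‖ ^ 2) ≤ W + δ := by
      have := tri_L2 hwc hdiff.neg
      simp only [Pi.neg_apply, norm_neg] at this
      refine le_trans (le_of_eq ?_) (this.trans (by gcongr))
      congr 2; ext x; simp
    have e2 : ((W ^ 2 : ℝ) : ℂ) = (∫ x, (w x : ℂ) * (φ x : ℂ)) +
        ∫ x, (w x : ℂ) * ((w x : ℂ) - (φ x : ℂ)) := by
      rw [← integral_add (integrable_mul_L2 hwc hφc) (integrable_mul_L2 hwc hdiff), hWsq,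
        ← integral_complex_ofReal]
      congr 1; ext x; simp [w]; ring
    have h3 := dual φ hφ hc
    have h4 := cs_L2' hwc hdiff
    calc W ^ 2 = ‖((W ^ 2 : ℝ) : ℂ)‖ := by
          rw [Complex.norm_real, Real.norm_eq_abs, abs_of_nonneg (by positivity)]
      _ ≤ ‖∫ x, (w x : ℂ) * (φ x : ℂ)‖ + ‖∫ x, (w x : ℂ) * ((w x : ℂ) - (φ x : ℂ))‖ := by
          rw [e2]; exact norm_add_le _ _
      _ ≤ h * (G * (W + δ)) + W * δ := by
          refine add_le_add (h3.trans (by gcongr)) (h4.trans (by gcongr))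
  have hWle : W ^ 2 ≤ h * G * W := by
    have : Tendsto (fun δ : ℝ => h * (G * (W + δ)) + W * δ) (𝓝[>] 0) (𝓝 (h * (G * (W + 0)) + W * 0)) := by
      apply Tendsto.mono_left _ nhdsWithin_le_nhds
      exact (by fun_prop : Continuous fun δ : ℝ => h * (G * (W + δ)) + W * δ).tendsto 0
    have h2 := ge_of_tendsto this (eventually_nhdsWithin_of_forall fun δ hδ => main δ hδ)
    nlinarith
  rw [← hWsq]
  have : W ≤ h * G := by
    rcases hW0.eq_or_lt with h0 | h0
    · rw [← h0]; positivity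
    · nlinarith
  calc W ^ 2 ≤ (h * G) ^ 2 := by gcongr
    _ = _ := by rw [mul_pow, hG, Real.sq_sqrt (integral_nonneg fun x => by positivity)]

/-- the difference quotient bound gives a weak derivative in `L^2` -/
lemma weak_of_diff_le {u : E → ℂ} {v : E} (hu : MemLp u 2 volume) {B : ℝ} (hB0 : 0 ≤ B)
    (hB : ∀ h : ℝ, 0 < h → ∫ x, ‖u (x + h • v) - u x‖ ^ 2 ≤ h ^ 2 * B) :
    ∃ g : E → ℂ, MemLp g 2 volume ∧ IsWeakDeriv u g v ∧ ∫ x, ‖g x‖ ^ 2 ≤ B := by
  let hs : ℕ → ℝ := fun n => 1 / ((n : ℝ) + 1)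
  have hspos : ∀ n, 0 < hs n := fun n => by positivity
  let D : ℕ → E → ℂ := fun n x => ((hs n)⁻¹ : ℝ) • (u (x + hs n • v) - u x)
  have hD : ∀ n, MemLp (D n) 2 volume := fun n =>
    ((memLp_shift hu (hs n • v)).sub hu).const_smul ((hs n)⁻¹ : ℝ)
  have hDn : ∀ n, ‖(hD n).toLp _‖ ≤ √B := by
    intro n
    rw [norm_toLp_eq]
    apply Real.sqrt_le_sqrt
    have : ∫ x, ‖D n x‖ ^ 2 = ((hs n)⁻¹) ^ 2 * ∫ x, ‖u (x + hs n • v) - u x‖ ^ 2 := by
      rw [← integral_const_mul]; congr 1; ext x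
      simp only [D]; rw [norm_smul, Real.norm_eq_abs, mul_pow, sq_abs]
    rw [this]
    have h1 := hB _ (hspos n)
    have h2 := hspos n
    calc _ ≤ ((hs n)⁻¹) ^ 2 * ((hs n) ^ 2 * B) := by gcongr
      _ = B := by field_simp
  let X : ℕ → WeakDual ℂ (Lp ℂ 2 (volume : Measure E)) := fun n =>
    StrongDual.toWeakDual (innerSL ℂ ((hD n).toLp _))
  have hX : ∀ n, X n ∈ WeakDual.toStrongDual ⁻¹'
      Metric.closedBall (0 : StrongDual ℂ (Lp ℂ 2 (volume : Measure E))) √B := by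
    intro n
    simp only [Set.mem_preimage, mem_closedBall_zero_iff, X]
    have : WeakDual.toStrongDual (StrongDual.toWeakDual (innerSL ℂ ((hD n).toLp _))) =
      innerSL ℂ ((hD n).toLp _) := rfl
    rw [this, innerSL_apply_norm]; exact hDn n
  obtain ⟨L, hL, hcl⟩ := (WeakDual.isCompact_closedBall (0 : StrongDual ℂ _) √B).exists_mapClusterPt
    (f := atTop) (u := X) (by
      rw [le_principal_iff]; exact mem_map.2 (Eventually.of_forall hX))
  let g0 : Lp ℂ 2 (volume : Measure E) :=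
    (InnerProductSpace.toDual ℂ _).symm (WeakDual.toStrongDual L)
  have hg0 : ‖g0‖ ≤ √B := by
    simp only [g0, LinearIsometryEquiv.norm_map]
    simpa using hL
  refine ⟨g0, Lp.memLp g0, ?_, ?_⟩
  · intro φ hφ hc
    have hφc := memLp_test hφ.continuous hc
    have hcl2 : MapClusterPt (L (hφc.toLp _)) atTop (fun n => X n (hφc.toLp _)) :=
      hcl.continuousAt_comp (f := fun T : WeakDual ℂ _ => T (hφc.toLp _))
        (WeakDual.eval_continuous _).continuousAt
    have hder := hasDerivAt_shift hu hφ hc v 0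
    have hlim : Tendsto (fun n => X n (hφc.toLp _)) atTop
        (𝓝 (conj (-∫ x, u x * ((fderiv ℝ φ (x - (0 : ℝ) • v) v : ℝ) : ℂ)))) := by
      have h1 := hder.tendsto_slope_zero_right
      have h2 : Tendsto hs atTop (𝓝[>] 0) :=
        tendsto_nhdsWithin_iff.2 ⟨tendsto_one_div_add_atTop_nhds_zero_nat,
          Eventually.of_forall hspos⟩
      have h3 := (Complex.continuous_conj.tendsto _).comp (h1.comp h2)
      refine h3.congr fun n => ?_
      have e0 : X n (hφc.toLp _) = inner ℂ ((hD n).toLp _) (hφc.toLp _) := rfl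
      rw [e0, inner_toLp]
      simp only [Function.comp]
      have := integral_add_right_eq_self (μ := (volume : Measure E))
        (fun x => u x * ((φ (x - (0 + hs n) • v) : ℝ) : ℂ)) (hs n • v)
      rw [← this, ← integral_sub, ← integral_smul, ← integral_conj]
      · congr 1; ext x; simp [D]; ring
      · simpa using integrable_mul_L2 (memLp_shift hu (hs n • v)) hφc
      · simpa using integrable_mul_L2 hu hφc
    have heq : L (hφc.toLp _) = conj (-∫ x, u x * ((fderiv ℝ φ (x - (0 : ℝ) • v) v : ℝ) : ℂ)) :=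
      eq_of_nhds_neBot (hcl2.clusterPt.mono hlim)
    have e1 : L (hφc.toLp _) = inner ℂ g0 (hφc.toLp _) := by
      simp only [g0, InnerProductSpace.toDual_symm_apply]; rfl
    have e2 : inner ℂ g0 (hφc.toLp _) = ∫ x, conj (g0 x) * (φ x : ℂ) := by
      rw [← inner_toLp (Lp.memLp g0) hφc, Lp.toLp_coeFn]
    have e3 : ∫ x, g0 x * (φ x : ℂ) = conj (∫ x, conj (g0 x) * (φ x : ℂ)) := by
      rw [← integral_conj]; simp
    rw [e3, ← e2, ← e1, heq]; simp
  · rw [← norm_toLp_sq (Lp.memLp g0), Lp.toLp_coeFn]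
    calc ‖g0‖ ^ 2 ≤ (√B) ^ 2 := by gcongr
      _ = B := Real.sq_sqrt hB0

end Weak

end Pool.Agent.Lib.MP_ae5e3b_mp
end

-- part Pool.Agent.Lib.MP_ae5e3b_mp.Slater
section

open MeasureTheory Filter Topology ComplexConjugate
open scoped ENNReal ContDiff

set_option linter.unusedSectionVars false

namespace Pool.Agent.Lib.MP_ae5e3b_mp

section Gram
variable {α : Type} [MeasurableSpace α] {μ : Measure α}

lemma memLp_sum_smul {τ : Type} (s : Finset τ) {P : τ → α → ℂ} (hP : ∀ t, MemLp (P t) 2 μ)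
    (c : τ → ℂ) : MemLp (fun y => ∑ t ∈ s, c t * P t y) 2 μ :=
  memLp_finsetSum s fun t _ => (hP t).const_mul (c t)

lemma integral_conj_sum_mul_sum {τ τ' : Type} (s : Finset τ) (s' : Finset τ') {P : τ → α → ℂ}
    {Q : τ' → α → ℂ} (hP : ∀ t, MemLp (P t) 2 μ) (hQ : ∀ t, MemLp (Q t) 2 μ)
    (c : τ → ℂ) (c' : τ' → ℂ) :
    ∫ y, conj (∑ t ∈ s, c t * P t y) * (∑ t ∈ s', c' t * Q t y) ∂μ =
      ∑ t ∈ s, ∑ t' ∈ s', conj (c t) * c' t' * ∫ y, conj (P t y) * Q t' y ∂μ := by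
  have h1 : ∀ y, conj (∑ t ∈ s, c t * P t y) * (∑ t ∈ s', c' t * Q t y) =
      ∑ t ∈ s, ∑ t' ∈ s', conj (c t) * c' t' * (conj (P t y) * Q t' y) := by
    intro y
    rw [map_sum, Finset.sum_mul_sum]
    refine Finset.sum_congr rfl fun t _ => Finset.sum_congr rfl fun t' _ => ?_
    rw [map_mul]; ring
  simp_rw [h1]
  have hi : ∀ t t', Integrable (fun y => conj (c t) * c' t' * (conj (P t y) * Q t' y)) μ :=
    fun t t' => (integrable_mul_L2 (memLp_conj (hP t)) (hQ t')).const_mul _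
  rw [integral_finsetSum _ fun t _ => integrable_finsetSum _ fun t' _ => hi t t']
  refine Finset.sum_congr rfl fun t _ => ?_
  rw [integral_finsetSum _ fun t' _ => hi t t']
  refine Finset.sum_congr rfl fun t' _ => ?_
  rw [integral_const_mul]

lemma integral_normsq_eq (a : α → ℂ) :
    ((∫ x, ‖a x‖ ^ 2 ∂μ : ℝ) : ℂ) = ∫ x, conj (a x) * a x ∂μ := by
  rw [← integral_complex_ofReal]
  congr 1; ext x
  rw [Complex.conj_mul']; push_cast; ring

lemma integral_normsq_sum {τ : Type} [DecidableEq τ] (s : Finset τ) {P : τ → α → ℂ}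
    (hP : ∀ t, MemLp (P t) 2 μ) (D : τ → ℝ)
    (hG : ∀ t ∈ s, ∀ t' ∈ s, ∫ y, conj (P t y) * P t' y ∂μ = if t = t' then (D t : ℂ) else 0)
    (c : τ → ℂ) :
    ∫ y, ‖∑ t ∈ s, c t * P t y‖ ^ 2 ∂μ = ∑ t ∈ s, ‖c t‖ ^ 2 * D t := by
  apply Complex.ofReal_injective
  rw [integral_normsq_eq, integral_conj_sum_mul_sum s s hP hP]
  push_cast
  refine Finset.sum_congr rfl fun t ht => ?_
  rw [Finset.sum_eq_single t]
  · rw [hG t ht t ht, if_pos rfl, Complex.conj_mul']
  · intro t' ht' hne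
    rw [hG t ht t' ht', if_neg (Ne.symm hne), mul_zero]
  · intro h; exact absurd ht h

end Gram

section Prod
variable {Ω : Type} [MeasureSpace Ω] [SigmaFinite (volume : Measure Ω)]

lemma memLp_prod {m : ℕ} {θ : Fin m → Ω → ℂ} (hm : ∀ j, Measurable (θ j))
    (hθ : ∀ j, MemLp (θ j) 2 volume) :
    MemLp (fun y : Fin m → Ω => ∏ j, θ j (y j)) 2 volume := by
  have hmeas : Measurable (fun y : Fin m → Ω => ∏ j, θ j (y j)) :=
    Finset.measurable_prod _ fun j _ => (hm j).comp (measurable_pi_apply j)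
  rw [memLp_two_iff_integrable_sq_norm hmeas.aestronglyMeasurable]
  simp_rw [norm_prod, ← Finset.prod_pow]
  exact Integrable.fintype_prod (f := fun j x => ‖θ j x‖ ^ 2) fun j => integrable_normsq (hθ j)

lemma integral_conj_prod {m : ℕ} (θ θ' : Fin m → Ω → ℂ) :
    ∫ y : Fin m → Ω, conj (∏ j, θ j (y j)) * ∏ j, θ' j (y j) =
      ∏ j, ∫ x, conj (θ j x) * θ' j x := by
  rw [← integral_fintype_prod_volume_eq_prod]
  congr 1; ext y
  rw [map_prod, ← Finset.prod_mul_distrib]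

end Prod

lemma sum_perm_apply {n : ℕ} (w : Fin (n + 1) → ℝ) (i : Fin (n + 1)) :
    ((n : ℝ) + 1) * ∑ σ : Equiv.Perm (Fin (n + 1)), w (σ i) =
      ((n + 1).factorial : ℝ) * ∑ j, w j := by
  have h1 : ∀ k : Fin (n + 1), ∑ σ : Equiv.Perm (Fin (n + 1)), w (σ k) =
      ∑ σ : Equiv.Perm (Fin (n + 1)), w (σ i) := by
    intro k
    refine Fintype.sum_equiv (Equiv.mulRight (Equiv.swap i k)) _ _ fun σ => ?_
    simp
  have h2 : ∑ k : Fin (n + 1), ∑ σ : Equiv.Perm (Fin (n + 1)), w (σ k) =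
      ((n + 1).factorial : ℝ) * ∑ j, w j := by
    rw [Finset.sum_comm]
    simp_rw [Equiv.sum_comp _ w]
    simp [Fintype.card_perm]
  rw [← h2]
  simp_rw [h1]
  simp

section Slater
variable {d n : ℕ} {κ α : Type} [DecidableEq κ] [Fintype α] [DecidableEq α]

theorem slater_state (φ : κ → (Fin d → ℝ) → ℂ) (hm : ∀ k, Measurable (φ k))
    (h2 : ∀ k, MemLp (φ k) 2 volume)
    (hon : ∀ k l, ∫ x, conj (φ k x) * φ l x = if k = l then 1 else 0)
    (p : α → ℝ) (hp0 : ∀ a, 0 ≤ p a) (hp1 : ∑ a, p a = 1)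
    (e : α → Fin (n + 1) → κ) (he : ∀ a, Function.Injective (e a))
    (hsep : ∀ a b (i : Fin (n + 1)), (∀ j, j ≠ i → ∃ k, e a j = e b k) → a = b) :
    ∃ Ψ : (Fin (n + 1) → Fin d → ℝ) → ℂ, MemLp Ψ 2 volume ∧ ∫ x, ‖Ψ x‖ ^ 2 = 1 ∧
      (∀ i j : Fin (n + 1), i ≠ j → ∀ x, Ψ (x ∘ Equiv.swap i j) = -Ψ x) ∧
      (∀ x, ((n : ℝ) + 1) * ∫ y : Fin n → Fin d → ℝ, ‖Ψ (Fin.cons x y)‖ ^ 2 =
        ∑ a, p a * ∑ j, ‖φ (e a j) x‖ ^ 2) ∧
      ∀ (i : Fin (n + 1)) (w : Fin d → ℝ),
        ((n : ℝ) + 1) * ∫ x, ‖Ψ (x + Pi.single i w) - Ψ x‖ ^ 2 =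
          ∑ a, p a * ∑ j, ∫ x, ‖φ (e a j) (x + w) - φ (e a j) x‖ ^ 2 := by
  classical
  let τ := α × Equiv.Perm (Fin (n + 1))
  let c : τ → ℂ := fun t => ((√(p t.1 / (n + 1).factorial) : ℝ) : ℂ) *
    ((Equiv.Perm.sign t.2 : ℤ) : ℂ)
  let I : τ → Fin (n + 1) → κ := fun t j => e t.1 (t.2 j)
  have hc : ∀ t, ‖c t‖ ^ 2 = p t.1 / (n + 1).factorial := by
    intro t
    have : ‖((Equiv.Perm.sign t.2 : ℤ) : ℂ)‖ = 1 := by
      rcases Int.units_eq_one_or (Equiv.Perm.sign t.2) with h | h <;> simp [h]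
    simp only [c]
    rw [norm_mul, this, mul_one, Complex.norm_real, Real.norm_eq_abs, sq_abs,
      Real.sq_sqrt (div_nonneg (hp0 _) (by positivity))]
  have hI : ∀ (s t : τ) (i : Fin (n + 1)), (∀ j, j ≠ i → I s j = I t j) → s = t := by
    rintro ⟨a, σ⟩ ⟨b, ρ⟩ i h
    simp only [I] at h
    have hab : a = b := by
      refine hsep a b (σ i) fun j hj => ⟨ρ (σ.symm j), ?_⟩
      have := h (σ.symm j) (fun h' => hj (by rw [← h']; simp))
      simpa using this
    subst hab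
    have h' : ∀ j, j ≠ i → σ j = ρ j := fun j hj => he a (h j hj)
    have : σ = ρ := by
      ext j
      by_cases hj : j = i
      · subst hj
        obtain ⟨k, hk⟩ := ρ.surjective (σ j)
        by_cases hkj : k = j
        · rw [← hk, hkj]
        · exact absurd (σ.injective ((h' k hkj).trans hk)) hkj
      · rw [h' j hj]
    rw [this]
  have hsum : ∀ (w : κ → ℝ) (i : Fin (n + 1)),
      ((n : ℝ) + 1) * ∑ t : τ, p t.1 / (n + 1).factorial * w (I t i) =
        ∑ a, p a * ∑ j, w (e a j) := by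
    intro w i
    rw [Fintype.sum_prod_type, Finset.mul_sum]
    refine Finset.sum_congr rfl fun a _ => ?_
    simp only [I]
    rw [← Finset.mul_sum]
    have := sum_perm_apply (fun j => w (e a j)) i
    have hf : ((n + 1).factorial : ℝ) ≠ 0 := by positivity
    calc _ = p a / (n + 1).factorial * (((n : ℝ) + 1) *
          ∑ σ : Equiv.Perm (Fin (n + 1)), w (e a (σ i))) := by ring
      _ = _ := by rw [this]; field_simp
  -- a general slot formula
  have slot : ∀ (ψ : κ → (Fin d → ℝ) → ℂ), (∀ k, Measurable (ψ k)) →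
      (∀ k, MemLp (ψ k) 2 volume) → ∀ i : Fin (n + 1),
      ((n : ℝ) + 1) * ∫ x : Fin (n + 1) → Fin d → ℝ,
        ‖∑ t : τ, c t * ∏ j, (if j = i then ψ (I t j) else φ (I t j)) (x j)‖ ^ 2 =
        ∑ a, p a * ∑ j, ∫ x, ‖ψ (e a j) x‖ ^ 2 := by
    intro ψ hψm hψ2 i
    rw [integral_normsq_sum Finset.univ (D := fun t => ∫ x, ‖ψ (I t i) x‖ ^ 2)]
    · simp_rw [hc]
      exact hsum (fun k => ∫ x, ‖ψ k x‖ ^ 2) i
    · intro t
      refine memLp_prod (θ := fun j => if j = i then ψ (I t j) else φ (I t j)) ?_ ?_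
      · intro j; split_ifs; exacts [hψm _, hm _]
      · intro j; split_ifs; exacts [hψ2 _, h2 _]
    · intro s _ t _
      rw [integral_conj_prod (fun j => if j = i then ψ (I s j) else φ (I s j))
        (fun j => if j = i then ψ (I t j) else φ (I t j))]
      split_ifs with hst
      · subst hst
        rw [Finset.prod_eq_single i]
        · simp only [if_true]; rw [integral_normsq_eq]
        · intro j _ hj
          simp only [if_neg hj]; rw [hon, if_pos rfl]
        · simp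
      · by_contra hne
        apply hst
        refine hI s t i fun j hj => ?_
        by_contra hj'
        apply hne
        refine Finset.prod_eq_zero (Finset.mem_univ j) ?_
        simp only [if_neg hj]; rw [hon, if_neg hj']
  have hnorm : ∀ k, ∫ x, ‖φ k x‖ ^ 2 = 1 := by
    intro k
    apply Complex.ofReal_injective
    rw [integral_normsq_eq, hon, if_pos rfl]; simp
  refine ⟨fun x => ∑ t : τ, c t * ∏ j, φ (I t j) (x j), ?_, ?_, ?_, ?_, ?_⟩
  · exact memLp_sum_smul _ (fun t => memLp_prod (fun j => hm _) (fun j => h2 _)) c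
  · have := slot φ hm h2 0
    simp only [ite_self, hnorm] at this
    simp only [Finset.sum_const, Finset.card_univ, Fintype.card_fin, nsmul_eq_mul, mul_one] at this
    rw [← Finset.sum_mul, hp1] at this
    have h0 : ((n : ℝ) + 1) ≠ 0 := by positivity
    push_cast at this
    exact mul_left_cancel₀ h0 (by rw [this]; ring)
  · intro i j hij x
    rw [← Finset.sum_neg_distrib]
    refine Fintype.sum_equiv
      (Equiv.prodCongr (Equiv.refl α) (Equiv.mulRight (Equiv.swap i j))) _ _ ?_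
    rintro ⟨a, σ⟩
    simp only [c, I, Equiv.prodCongr_apply, Prod.map, Equiv.coe_refl, id, Equiv.coe_mulRight,
      Equiv.Perm.sign_mul, Equiv.Perm.sign_swap hij, Function.comp]
    have : ∏ k, φ (e a (σ k)) (x (Equiv.swap i j k)) =
        ∏ k, φ (e a ((σ * Equiv.swap i j) k)) (x k) := by
      refine Fintype.prod_equiv (Equiv.swap i j) _ _ fun k => ?_
      simp
    rw [this]; push_cast; ring
  · intro x
    have e1 : ∀ y : Fin n → Fin d → ℝ,
        ∑ t : τ, c t * ∏ j, φ (I t j) ((Fin.cons x y : Fin (n + 1) → Fin d → ℝ) j) =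
        ∑ t : τ, (c t * φ (I t 0) x) * ∏ j : Fin n, φ (I t j.succ) (y j) := by
      intro y
      refine Finset.sum_congr rfl fun t _ => ?_
      rw [Fin.prod_univ_succ]; simp [mul_assoc]
    simp_rw [e1]
    rw [integral_normsq_sum Finset.univ (D := fun _ => 1)]
    · simp_rw [norm_mul, mul_pow, hc, mul_one]
      exact hsum (fun k => ‖φ k x‖ ^ 2) 0
    · intro t
      exact memLp_prod (θ := fun j => φ (I t j.succ)) (fun j => hm _) (fun j => h2 _)
    · intro s _ t _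
      rw [integral_conj_prod (fun j : Fin n => φ (I s j.succ)) (fun j => φ (I t j.succ))]
      split_ifs with hst
      · subst hst; simp [hon]
      · by_contra hne
        apply hst
        refine hI s t 0 fun j hj => ?_
        obtain ⟨j, rfl⟩ := Fin.exists_succ_eq.2 hj
        by_contra hj'
        apply hne
        refine Finset.prod_eq_zero (Finset.mem_univ j) ?_
        rw [hon, if_neg hj']
  · intro i w
    rw [← slot (fun k x => φ k (x + w) - φ k x)
      (fun k => ((hm k).comp (measurable_add_const w)).sub (hm k))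
      (fun k => (memLp_shift (h2 k) w).sub (h2 k)) i]
    congr 2; ext x
    congr 2
    rw [← Finset.sum_sub_distrib]
    refine Finset.sum_congr rfl fun t _ => ?_
    rw [← mul_sub]
    congr 1
    rw [← Finset.mul_prod_erase _ _ (Finset.mem_univ i),
      ← Finset.mul_prod_erase _ _ (Finset.mem_univ i),
      ← Finset.mul_prod_erase _ _ (Finset.mem_univ i)]
    have e2 : ∏ j ∈ Finset.univ.erase i, φ (I t j) ((x + Pi.single i w : Fin (n + 1) → Fin d → ℝ) j) =
        ∏ j ∈ Finset.univ.erase i, φ (I t j) (x j) := by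
      refine Finset.prod_congr rfl fun j hj => ?_
      have := Finset.ne_of_mem_erase hj
      simp [Pi.single_eq_of_ne this]
    have e3 : ∏ j ∈ Finset.univ.erase i,
        (if j = i then (fun x => φ (I t j) (x + w) - φ (I t j) x) else φ (I t j)) (x j) =
        ∏ j ∈ Finset.univ.erase i, φ (I t j) (x j) := by
      refine Finset.prod_congr rfl fun j hj => ?_
      rw [if_neg (Finset.ne_of_mem_erase hj)]
    rw [e2, e3]; simp; ring

end Slater

end Pool.Agent.Lib.MP_ae5e3b_mp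
end

-- part Pool.Agent.Lib.MP_ae5e3b_mp.Sector
section

open MeasureTheory Filter Topology ComplexConjugate
open scoped ENNReal ContDiff

set_option linter.unusedSectionVars false

namespace Pool.Agent.Lib.MP_ae5e3b_mp

section Dual
variable {α : Type} [MeasurableSpace α] {μ : Measure α} {ι : Type} [Fintype ι]

lemma conj_sum_integral {v : ι → α → ℂ} (v2 : ∀ i, MemLp (v i) 2 μ) {χ : α → ℂ}
    (hχ : MemLp χ 2 μ) (c : ι → ℂ) :
    ∫ x, conj (∑ i, c i * v i x) * χ x ∂μ = ∑ i, conj (c i) * ∫ x, conj (v i x) * χ x ∂μ := by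
  have := integral_conj_sum_mul_sum (μ := μ) Finset.univ (Finset.univ : Finset Unit)
    (P := v) (Q := fun _ => χ) v2 (fun _ => hχ) c (fun _ => 1)
  simpa using this

lemma le_of_le_sqrt_mul {S a b : ℝ} (hS : 0 ≤ S) (ha : 0 ≤ a) (hb : 0 ≤ b)
    (h : S ≤ √(a * S) * √b) : S ≤ a * b := by
  have h1 : S ^ 2 ≤ (√(a * S) * √b) ^ 2 := by gcongr
  rw [mul_pow, Real.sq_sqrt (by positivity), Real.sq_sqrt hb] at h1
  rcases hS.eq_or_lt with h0 | h0
  · rw [← h0]; positivity
  · nlinarith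

lemma dual_of_primal {v : ι → α → ℂ} (v2 : ∀ i, MemLp (v i) 2 μ) {θ : ℝ} (hθ : 0 ≤ θ)
    (hp : ∀ c : ι → ℂ, ∫ x, ‖∑ i, c i * v i x‖ ^ 2 ∂μ ≤ θ * ∑ i, ‖c i‖ ^ 2) {χ : α → ℂ}
    (hχ : MemLp χ 2 μ) :
    ∑ i, ‖∫ x, conj (v i x) * χ x ∂μ‖ ^ 2 ≤ θ * ∫ x, ‖χ x‖ ^ 2 ∂μ := by
  set a : ι → ℂ := fun i => ∫ x, conj (v i x) * χ x ∂μ with ha
  refine le_of_le_sqrt_mul (by positivity) hθ (integral_nonneg fun x => by positivity) ?_
  have h1 := cs_L2 (memLp_sum_smul Finset.univ v2 a) hχ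
  rw [conj_sum_integral v2 hχ] at h1
  have h2 : ∑ i, conj (a i) * a i = ((∑ i, ‖a i‖ ^ 2 : ℝ) : ℂ) := by
    push_cast; simp_rw [Complex.conj_mul']
  rw [h2, Complex.norm_real, Real.norm_eq_abs, abs_of_nonneg (by positivity)] at h1
  refine h1.trans ?_
  gcongr
  exact hp a

lemma primal_of_dual {v : ι → α → ℂ} (v2 : ∀ i, MemLp (v i) 2 μ) {θ : ℝ} (hθ : 0 ≤ θ)
    (hd : ∀ χ : α → ℂ, MemLp χ 2 μ →
      ∑ i, ‖∫ x, conj (v i x) * χ x ∂μ‖ ^ 2 ≤ θ * ∫ x, ‖χ x‖ ^ 2 ∂μ) (c : ι → ℂ) :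
    ∫ x, ‖∑ i, c i * v i x‖ ^ 2 ∂μ ≤ θ * ∑ i, ‖c i‖ ^ 2 := by
  have hχ := memLp_sum_smul Finset.univ v2 c
  set S := ∫ x, ‖∑ i, c i * v i x‖ ^ 2 ∂μ with hS
  have hS0 : 0 ≤ S := integral_nonneg fun x => by positivity
  refine le_of_le_sqrt_mul hS0 hθ (by positivity) ?_
  have h1 := conj_sum_integral v2 hχ c
  rw [← integral_normsq_eq, ← hS] at h1
  have h2 := hd _ hχ
  rw [← hS] at h2
  calc S = ‖(S : ℂ)‖ := by rw [Complex.norm_real, Real.norm_eq_abs, abs_of_nonneg hS0]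
    _ ≤ ∑ i, ‖∫ x, conj (v i x) * ∑ i, c i * v i x ∂μ‖ * ‖c i‖ := by
        rw [h1]
        refine (norm_sum_le _ _).trans (le_of_eq ?_)
        refine Finset.sum_congr rfl fun i _ => ?_
        rw [norm_mul, mul_comm]; simp
    _ ≤ √(∑ i, ‖∫ x, conj (v i x) * ∑ i, c i * v i x ∂μ‖ ^ 2) * √(∑ i, ‖c i‖ ^ 2) :=
        Real.sum_mul_le_sqrt_mul_sqrt _ _ _
    _ ≤ _ := by gcongr

end Dual

/-- `e^{i t}` -/
noncomputable def ex (t : ℝ) : ℂ := Complex.exp (t * Complex.I)

lemma norm_ex (t : ℝ) : ‖ex t‖ = 1 := Complex.norm_exp_ofReal_mul_I t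

lemma continuous_ex : Continuous ex := by unfold ex; fun_prop

lemma conj_ex (t : ℝ) : conj (ex t) = ex (-t) := by
  unfold ex; rw [← Complex.exp_conj]; simp

lemma ex_add (s t : ℝ) : ex (s + t) = ex s * ex t := by
  unfold ex; rw [← Complex.exp_add]; congr 1; push_cast; ring

lemma orb_diff (b b' t t' : ℝ) :
    ‖(b' : ℂ) * ex t' - (b : ℂ) * ex t‖ ^ 2 ≤ (b' - b) ^ 2 + (b' ^ 2 + b ^ 2) / 2 * (t' - t) ^ 2 := by
  have e : ‖(b' : ℂ) * ex t' - (b : ℂ) * ex t‖ ^ 2 =
      (b' - b) ^ 2 + 2 * (b' * b) * (1 - Real.cos (t' - t)) := by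
    rw [← Complex.normSq_eq_norm_sq, Complex.normSq_apply]
    simp only [ex, Complex.sub_re, Complex.sub_im, Complex.mul_re, Complex.mul_im,
      Complex.ofReal_re, Complex.ofReal_im, Complex.exp_ofReal_mul_I_re,
      Complex.exp_ofReal_mul_I_im, Real.cos_sub]
    have h1 := Real.sin_sq_add_cos_sq t
    have h2 := Real.sin_sq_add_cos_sq t'
    linear_combination (b' ^ 2) * h2 + (b ^ 2) * h1
  rw [e]
  have h1 := Real.one_sub_sq_div_two_le_cos (x := t' - t)
  have h2 := Real.cos_le_one (t' - t)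
  have h3 : b' * b ≤ (b' ^ 2 + b ^ 2) / 2 := by nlinarith [sq_nonneg (b' - b)]
  have h4 : 0 ≤ (b' ^ 2 + b ^ 2) / 2 := by positivity
  nlinarith

variable {d : ℕ}

lemma memLp_orb {b θ : (Fin d → ℝ) → ℝ} (b2 : MemLp b 2 volume) (θm : Measurable θ) :
    MemLp (fun x => (b x : ℂ) * ex (θ x)) 2 volume := by
  have h : MemLp (fun x => (b x : ℂ)) 2 volume := b2.ofReal
  refine h.of_le (h.1.mul (continuous_ex.measurable.comp θm).aestronglyMeasurable) ?_
  exact Eventually.of_forall fun x => by rw [norm_mul, norm_ex, mul_one]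

lemma orb_energy {b θ : (Fin d → ℝ) → ℝ} (b2 : MemLp b 2 volume) (θm : Measurable θ)
    (y : Fin d → ℝ) {Λ : ℝ} (hΛ : ∀ x, |θ (x + y) - θ x| ≤ Λ) :
    ∫ x, ‖(b (x + y) : ℂ) * ex (θ (x + y)) - (b x : ℂ) * ex (θ x)‖ ^ 2 ≤
      (∫ x, (b (x + y) - b x) ^ 2) + Λ ^ 2 * ∫ x, b x ^ 2 := by
  have o2 := memLp_orb b2 θm
  have bs : MemLp (fun x => b (x + y)) 2 volume :=
    b2.comp_measurePreserving (measurePreserving_add_right volume y)
  have i1 : Integrable fun x => (b (x + y) - b x) ^ 2 := (bs.sub b2).integrable_sq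
  have i2 : Integrable fun x => (b (x + y) ^ 2 + b x ^ 2) / 2 * Λ ^ 2 :=
    ((bs.integrable_sq.add b2.integrable_sq).div_const 2).mul_const _
  calc _ ≤ ∫ x, ((b (x + y) - b x) ^ 2 + (b (x + y) ^ 2 + b x ^ 2) / 2 * Λ ^ 2) := by
        refine integral_mono (integrable_normsq ((memLp_shift o2 y).sub o2)) (i1.add i2)
          fun x => (orb_diff _ _ _ _).trans ?_
        have : (θ (x + y) - θ x) ^ 2 ≤ Λ ^ 2 := by
          rw [← sq_abs]; have := hΛ x; gcongr
        gcongr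
    _ = _ := by
        rw [integral_add i1 i2, integral_mul_const, integral_div,
          integral_add bs.integrable_sq b2.integrable_sq,
          integral_add_right_eq_self (fun x => b x ^ 2) y]
        ring

/-- A finite family of orbitals with a localized Bessel bound, given density and energy, and
orthogonal to the label orbitals. -/
def Fam (θ : ℝ) (lab : ℕ → (Fin d → ℝ) → ℂ) (w ρ : (Fin d → ℝ) → ℝ) (En : Fin d → ℝ → ℝ) :
    Prop :=
  ∃ (ι : Type) (_ : Fintype ι) (v : ι → (Fin d → ℝ) → ℂ),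
    (∀ i, Measurable (v i)) ∧ (∀ i, MemLp (v i) 2 volume) ∧
    (∀ χ : (Fin d → ℝ) → ℂ, MemLp χ 2 volume → Integrable (fun x => w x * ‖χ x‖ ^ 2) ∧
      ∑ i, ‖∫ x, conj (v i x) * χ x‖ ^ 2 ≤ θ * ∫ x, w x * ‖χ x‖ ^ 2) ∧
    (∀ x, ∑ i, ‖v i x‖ ^ 2 = ρ x) ∧
    (∀ r (h : ℝ), 0 < h →
      ∑ i, ∫ x, ‖v i (x + h • Pi.single r (1 : ℝ)) - v i x‖ ^ 2 ≤ En r h) ∧
    ∀ a i, ∫ x, conj (lab a x) * v i x = 0

variable {θ : ℝ} {lab : ℕ → (Fin d → ℝ) → ℂ}

lemma Fam.zero : Fam θ lab (fun _ => 0) (fun _ => 0) (fun _ _ => 0) :=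
  ⟨Empty, inferInstance, fun i => i.elim, fun i => i.elim, fun i => i.elim,
    fun _ _ => by simp, by simp, by simp, fun _ i => i.elim⟩

lemma Fam.add {w ρ w' ρ' : (Fin d → ℝ) → ℝ} {En En' : Fin d → ℝ → ℝ}
    (h : Fam θ lab w ρ En) (h' : Fam θ lab w' ρ' En') :
    Fam θ lab (fun x => w x + w' x) (fun x => ρ x + ρ' x) (fun r h => En r h + En' r h) := by
  obtain ⟨ι, _, v, a1, a2, a3, a4, a5, a6⟩ := h
  obtain ⟨ι', _, v', b1, b2, b3, b4, b5, b6⟩ := h'
  refine ⟨ι ⊕ ι', inferInstance, Sum.elim v v', ?_, ?_, ?_, ?_, ?_, ?_⟩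
  · rintro (i | i); exacts [a1 i, b1 i]
  · rintro (i | i); exacts [a2 i, b2 i]
  · intro χ hχ
    obtain ⟨c1, c2⟩ := a3 χ hχ
    obtain ⟨d1, d2⟩ := b3 χ hχ
    simp_rw [add_mul]
    refine ⟨c1.add d1, ?_⟩
    rw [integral_add c1 d1, Fintype.sum_sum_type]
    simp only [Sum.elim_inl, Sum.elim_inr]
    linarith
  · intro x; rw [Fintype.sum_sum_type]; simp [a4, b4]
  · intro r h hh
    rw [Fintype.sum_sum_type]
    simp only [Sum.elim_inl, Sum.elim_inr]
    exact add_le_add (a5 r h hh) (b5 r h hh)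
  · rintro a (i | i); exacts [a6 a i, b6 a i]

lemma Fam.sum {S : Type} (s : Finset S) {w ρ : S → (Fin d → ℝ) → ℝ} {En : S → Fin d → ℝ → ℝ}
    (h : ∀ j ∈ s, Fam θ lab (w j) (ρ j) (En j)) :
    Fam θ lab (fun x => ∑ j ∈ s, w j x) (fun x => ∑ j ∈ s, ρ j x)
      (fun r h => ∑ j ∈ s, En j r h) := by
  classical
  induction s using Finset.induction_on with
  | empty => simpa using Fam.zero
  | insert j s hj ih =>
    simp only [Finset.sum_insert hj]
    exact (h j (Finset.mem_insert_self _ _)).add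
      (ih fun i hi => h i (Finset.mem_insert_of_mem hi))

lemma memLp_mul_bdd {u A : (Fin d → ℝ) → ℝ} (u2 : MemLp u 2 volume) (Am : Measurable A)
    (A1 : ∀ x, |A x| ≤ 1) : MemLp (fun x => u x * A x) 2 volume := by
  refine u2.of_le (u2.1.mul Am.aestronglyMeasurable) (Eventually.of_forall fun x => ?_)
  rw [norm_mul]
  exact mul_le_of_le_one_right (norm_nonneg _) (A1 x)

lemma Fam.sector (hθ : 0 ≤ θ) {T : Type} [Fintype T] {u A : (Fin d → ℝ) → ℝ}
    (um : Measurable u) (u2 : MemLp u 2 volume) (Am : Measurable A) (A1 : ∀ x, |A x| ≤ 1)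
    (c : ℝ) (ph : T → (Fin d → ℝ) → ℝ) (phm : ∀ k, Measurable (ph k))
    {U : Set (Fin d → ℝ)} (Um : MeasurableSet U) (hU : ∀ x, A x ≠ 0 → x ∈ U)
    (bes : ∀ cf : T → ℂ, c ^ 2 * ∫ x in U, u x ^ 2 * ‖∑ k, cf k * ex (ph k x)‖ ^ 2 ≤
      θ * ∑ k, ‖cf k‖ ^ 2)
    (Λ : T → Fin d → ℝ)
    (hΛ : ∀ k r (h : ℝ), 0 < h → ∀ x, |ph k (x + h • Pi.single r (1 : ℝ)) - ph k x| ≤ h * Λ k r)
    (horth : ∀ a k, ∫ x, conj (lab a x) * (((u x * A x : ℝ) : ℂ) * ex (ph k x)) = 0) :
    Fam θ lab (fun x => A x ^ 2) (fun x => c ^ 2 * Fintype.card T * (u x * A x) ^ 2)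
      (fun r h => c ^ 2 * Fintype.card T *
        (∫ x, (u (x + h • Pi.single r (1 : ℝ)) * A (x + h • Pi.single r (1 : ℝ)) - u x * A x) ^ 2) +
        h ^ 2 * (c ^ 2 * (∑ k, Λ k r ^ 2) * ∫ x, (u x * A x) ^ 2)) := by
  have b2 : MemLp (fun x => c * (u x * A x)) 2 volume := (memLp_mul_bdd u2 Am A1).const_mul c
  have bm : Measurable (fun x => c * (u x * A x)) := (um.mul Am).const_mul c
  refine ⟨T, inferInstance, fun k x => ((c * (u x * A x) : ℝ) : ℂ) * ex (ph k x), ?_, ?_, ?_, ?_,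
    ?_, ?_⟩
  · intro k
    exact (Complex.measurable_ofReal.comp bm).mul (continuous_ex.measurable.comp (phm k))
  · intro k; exact memLp_orb b2 (phm k)
  · intro χ hχ
    have hAχ : MemLp (fun x => (A x : ℂ) * χ x) 2 volume := by
      refine hχ.of_le ((Complex.measurable_ofReal.comp Am).aestronglyMeasurable.mul hχ.1)
        (Eventually.of_forall fun x => ?_)
      rw [norm_mul, Complex.norm_real]
      exact mul_le_of_le_one_left (norm_nonneg _) (A1 x)
    have e1 : ∀ x, ‖(A x : ℂ) * χ x‖ ^ 2 = A x ^ 2 * ‖χ x‖ ^ 2 := by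
      intro x; rw [norm_mul, mul_pow, Complex.norm_real, Real.norm_eq_abs, sq_abs]
    refine ⟨by simpa only [e1] using integrable_normsq hAχ, ?_⟩
    let E : T → (Fin d → ℝ) → ℂ := fun k =>
      U.indicator fun x => ((c * u x : ℝ) : ℂ) * ex (ph k x)
    have E2 : ∀ k, MemLp (E k) 2 volume := fun k =>
      (memLp_orb (u2.const_mul c) (phm k)).indicator Um
    have := dual_of_primal E2 hθ (fun cf => ?_) hAχ
    · simp only [e1] at this
      refine le_trans (le_of_eq ?_) this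
      refine Finset.sum_congr rfl fun k _ => ?_
      congr 3; ext x
      by_cases hA : A x = 0
      · simp [hA]
      · simp only [E, Set.indicator_of_mem (hU x hA), map_mul, Complex.conj_ofReal]
        push_cast; ring
    · refine le_trans (le_of_eq ?_) (bes cf)
      rw [← integral_indicator Um, ← integral_const_mul]
      congr 1; ext x
      by_cases hx : x ∈ U
      · simp only [E, Set.indicator_of_mem hx]
        have : ∑ k, cf k * (((c * u x : ℝ) : ℂ) * ex (ph k x)) =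
            ((c * u x : ℝ) : ℂ) * ∑ k, cf k * ex (ph k x) := by
          rw [Finset.mul_sum]; exact Finset.sum_congr rfl fun k _ => by ring
        rw [this, norm_mul, mul_pow, Complex.norm_real, Real.norm_eq_abs, sq_abs]; ring
      · simp [E, Set.indicator_of_notMem hx]
  · intro x
    simp only [norm_mul, norm_ex, mul_one, Complex.norm_real, Real.norm_eq_abs, mul_pow, sq_abs,
      Finset.sum_const, Finset.card_univ, nsmul_eq_mul]
    ring
  · intro r h hh
    calc _ ≤ ∑ k, ((∫ x, (c * (u (x + h • Pi.single r (1 : ℝ)) *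
            A (x + h • Pi.single r (1 : ℝ))) - c * (u x * A x)) ^ 2) +
            (h * Λ k r) ^ 2 * ∫ x, (c * (u x * A x)) ^ 2) :=
          Finset.sum_le_sum fun k _ => orb_energy b2 (phm k) _ (hΛ k r h hh)
      _ = _ := by
          simp_rw [← mul_sub, mul_pow c, integral_const_mul]
          rw [Finset.sum_add_distrib, Finset.sum_const, Finset.card_univ, nsmul_eq_mul,
            ← Finset.sum_mul]
          simp_rw [mul_pow h]
          rw [← Finset.mul_sum]; ring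
  · intro a k
    have : ∀ x, conj (lab a x) * (((c * (u x * A x) : ℝ) : ℂ) * ex (ph k x)) =
        (c : ℂ) * (conj (lab a x) * (((u x * A x : ℝ) : ℂ) * ex (ph k x))) := by
      intro x; push_cast; ring
    simp_rw [this]
    rw [integral_const_mul, horth, mul_zero]

end Pool.Agent.Lib.MP_ae5e3b_mp
end

-- part Pool.Agent.Lib.MP_ae5e3b_mp.SDefs
section

open MeasureTheory Matrix Real
open scoped ComplexConjugate

namespace Pool.Agent.Lib.MP_ae5e3b_mp.Sh

section Mat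
variable {n : Type} [Fintype n] [DecidableEq n]

/-- Euclidean norm of a vector. -/
noncomputable def vn (y : n → ℂ) : ℝ := √(∑ i, ‖y i‖ ^ 2)

/-- Hilbert-Schmidt norm. -/
noncomputable def hs (M : Matrix n n ℂ) : ℝ := √(∑ i, ∑ j, ‖M i j‖ ^ 2)

/-- Operator norm bound. -/
def OpB (M : Matrix n n ℂ) (c : ℝ) : Prop := 0 ≤ c ∧ ∀ y, vn (M *ᵥ y) ≤ c * vn y

/-- Commutator. -/
def cm (A B : Matrix n n ℂ) : Matrix n n ℂ := A * B - B * A

/-- Functional calculus of a Hermitian matrix. -/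
noncomputable def fc (f : ℝ → ℝ) (H : Matrix n n ℂ) : Matrix n n ℂ := cfc f H

/-- Real diagonal matrix. -/
noncomputable def dg (m : n → ℝ) : Matrix n n ℂ := diagonal fun i => (m i : ℂ)

/-- Real part of the trace. -/
noncomputable def rtr (M : Matrix n n ℂ) : ℝ := (trace M).re

/-- Lower bound in the sense of quadratic forms. -/
def LB (H : Matrix n n ℂ) (a : ℝ) : Prop := ∀ y, a * vn y ^ 2 ≤ (star y ⬝ᵥ (H *ᵥ y)).re

/-- The excitation sum: in eigenbases of `A` (eigenvalues `a`) and `H` (eigenvalues `b`) it is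
the sum of `(f a - f b) (b - a) |Z b a|^2`. -/
noncomputable def exS (f : ℝ → ℝ) (A H Z : Matrix n n ℂ) : ℝ :=
  rtr (fc f A * Zᴴ * (H * Z - Z * A)) + rtr (fc f H * Z * (A * Zᴴ - Zᴴ * H))

/-- The spectral projection below one half. -/
noncomputable def Ep (H : Matrix n n ℂ) : Matrix n n ℂ := fc (fun t => if t < 1 / 2 then 1 else 0) H

end Mat

/-- Occupation functions. -/
structure FOK (f : ℝ → ℝ) (l : ℝ) : Prop where
  anti : Antitone f
  nonneg : ∀ t, 0 ≤ f t
  le_one : ∀ t, f t ≤ 1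
  zero : ∀ t, 1 / 2 ≤ t → f t = 0
  one_le : 1 ≤ l
  lip : ∀ s t, |f s - f t| ≤ l * |s - t|

/-- The class of test functions `g` with derivative `g'`. -/
structure XF (f : ℝ → ℝ) (M : ℝ) (g g' : ℝ → ℝ) : Prop where
  der : ∀ t, HasDerivAt g (g' t) t
  zero : ∀ t, 1 / 2 ≤ t → g t = 0
  aff : ∀ t, t ≤ -1 / 2 → g' t = g' (-1 / 2)
  bd : ∀ t, |g' t| ≤ M
  osc : ∀ s t, |g' s - g' t| ≤ M * (|s - t| + |f s - f t|)

/-- The smeared Fermi function. -/
noncomputable def fb (β t : ℝ) : ℝ := max 0 (min 1 ((β - t) / (2 * β)))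

/-- The smeared negative part; its derivative is `- fb β`. -/
noncomputable def phib (β t : ℝ) : ℝ :=
  if t ≤ -β then -t else if t ≤ β then (β - t) ^ 2 / (4 * β) else 0

/-- The density of the free Fermi gas with Fermi momentum one. -/
noncomputable def sig0 (d : ℕ) : ℝ := omega d / (2 * π) ^ d

/-- The phase space integral of `g (p^2 - 1 + v)`. -/
noncomputable def Cl (d : ℕ) (g : ℝ → ℝ) (v : ℝ) : ℝ :=
  d * sig0 d * ∫ t in (0 : ℝ)..2, g (t ^ 2 - 1 + v) * t ^ (d - 1)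

/-- The Thomas-Fermi energy density. -/
noncomputable def TF (d : ℕ) (s : ℝ) : ℝ :=
  sig0 d * (d / (d + 2)) * (s / sig0 d) ^ (1 + 2 / (d : ℝ))

/-- Its derivative. -/
noncomputable def TFp (d : ℕ) (s : ℝ) : ℝ := (s / sig0 d) ^ (2 / (d : ℝ))

/-- The torus; its physical side length is a parameter `L`, integrals are averages. -/
abbrev Tor (d : ℕ) : Type := Fin d → UnitAddCircle

/-- The spacing of the momentum lattice. -/
noncomputable def kap (L : ℝ) : ℝ := 2 * π / L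

/-- Large tori: `kap L ≤ 1 / 2`. -/
def Big (L : ℝ) : Prop := 4 * π ≤ L

variable {d : ℕ}

/-- Motion by the physical length `t` in the direction `r`. -/
noncomputable def mv (L : ℝ) (r : Fin d) (x : Tor d) (t : ℝ) : Tor d :=
  x + Pi.single r ((t / L : ℝ) : UnitAddCircle)

section PD
variable {E : Type} [NormedAddCommGroup E] [NormedSpace ℝ E]

/-- Physical directional derivative. -/
noncomputable def pd (L : ℝ) (r : Fin d) (g : Tor d → E) (x : Tor d) : E :=
  deriv (fun t => g (mv L r x t)) 0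

/-- Continuously differentiable functions on the torus. -/
structure C1 (L : ℝ) (g : Tor d → E) : Prop where
  cont : Continuous g
  diff : ∀ r x, DifferentiableAt ℝ (fun t => g (mv L r x t)) 0
  cpd : ∀ r, Continuous (pd L r g)

/-- Averaged squared gradient. -/
noncomputable def Gr (L : ℝ) (g : Tor d → E) : ℝ := ∑ r, ∫ x, ‖pd L r g x‖ ^ 2

end PD

/-- Averaged product of gradients. -/
noncomputable def GG (L : ℝ) (g h : Tor d → ℝ) : ℝ := ∑ r, ∫ x, pd L r g x * pd L r h x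

/-- Characters of the torus. -/
noncomputable def ch (k : Fin d → ℤ) (x : Tor d) : ℂ := UnitAddTorus.mFourier k x

/-- Fourier coefficients. -/
noncomputable def coef (g : Tor d → ℂ) (k : Fin d → ℤ) : ℂ := ∫ x, conj (ch k x) * g x

/-- Trigonometric polynomials with physical frequencies in the cube of radius `Q`. -/
def TP (L Q : ℝ) (g : Tor d → ℂ) : Prop :=
  ∃ (s : Finset (Fin d → ℤ)) (c : (Fin d → ℤ) → ℂ),
    (∀ k ∈ s, ∀ r, |kap L * k r| ≤ Q) ∧ ∀ x, g x = ∑ k ∈ s, c k * ch k x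

/-- A real function seen as a complex one. -/
def cx (g : Tor d → ℝ) : Tor d → ℂ := fun x => (g x : ℂ)

/-- The cube of integer points of radius `M`. -/
noncomputable def bx (d M : ℕ) : Finset (Fin d → ℤ) :=
  Fintype.piFinset fun _ => Finset.Icc (-(M : ℤ)) M

/-- The tent function. -/
noncomputable def tent (M : ℕ) (k : ℤ) : ℝ := max 0 ((M : ℝ) - |(k : ℝ)|)

/-- Its normalised autocorrelation. -/
noncomputable def mult1 (M : ℕ) (k : ℤ) : ℝ :=
  (∑ j ∈ Finset.Icc (-(M : ℤ)) M, tent M j * tent M (j - k)) /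
    ∑ j ∈ Finset.Icc (-(M : ℤ)) M, tent M j ^ 2

/-- The multiplier of the Jackson type kernel. -/
noncomputable def mult (M : ℕ) (k : Fin d → ℤ) : ℝ := ∏ r, mult1 M (k r)

/-- The order of the kernel of band `q`. -/
noncomputable def Mq (L q : ℝ) : ℕ := ⌊q / (2 * kap L)⌋₊

/-- Convolution with the Jackson type kernel of band `q`. -/
noncomputable def Jr (L q : ℝ) (g : Tor d → ℝ) (x : Tor d) : ℝ :=
  (∑ k ∈ bx d (2 * Mq L q), (mult (Mq L q) k : ℂ) * coef (cx g) k * ch k x).re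

/-- Radius of the box of modes. -/
noncomputable def Rad (L : ℝ) : ℕ := ⌈15 / kap L⌉₊

/-- The modes. -/
abbrev Ix (d : ℕ) (L : ℝ) : Type := Fin d → Fin (2 * Rad L + 1)

/-- Matrices on the modes. -/
abbrev Mat (d : ℕ) (L : ℝ) : Type := Matrix (Ix d L) (Ix d L) ℂ

/-- The integer vector of a mode. -/
noncomputable def nu {L : ℝ} (i : Ix d L) : Fin d → ℤ := fun r => ((i r : ℕ) : ℤ) - Rad L

/-- The momentum of a mode. -/
noncomputable def mom {L : ℝ} (i : Ix d L) : Fin d → ℝ := fun r => kap L * nu i r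

/-- The momentum shifted by one lattice step in the direction `j`. -/
noncomputable def momS {L : ℝ} (j : Fin d) (i : Ix d L) : Fin d → ℝ :=
  mom i + Pi.single j (kap L)

/-- The compression of a multiplication operator. -/
noncomputable def mulM (L : ℝ) (g : Tor d → ℂ) : Mat d L := fun i j => coef g (nu i - nu j)

/-- The function with given coefficients. -/
noncomputable def fn {L : ℝ} (y : Ix d L → ℂ) (x : Tor d) : ℂ := ∑ i, y i * ch (nu i) x

/-- The density of a matrix. -/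
noncomputable def dens {L : ℝ} (Y : Mat d L) (x : Tor d) : ℝ :=
  (L ^ d)⁻¹ * (∑ i, ∑ j, Y i j * ch (nu i) x * conj (ch (nu j) x)).re

/-- Indicator of the modes with momentum in the cube of radius `t`. -/
noncomputable def lo (L t : ℝ) (i : Ix d L) : ℝ := if ‖mom i‖ ≤ t then 1 else 0

/-- Indicator of the other modes. -/
noncomputable def hi (L t : ℝ) (i : Ix d L) : ℝ := 1 - lo L t i

/-- Lipschitz cutoff: zero on the cube of radius `t`, one outside the cube of radius `t + 1`. -/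
noncomputable def sc (L t : ℝ) (i : Ix d L) : ℝ := max 0 (min 1 (‖mom i‖ - t))

/-- Bounded Lipschitz symbols on the modes (sup norm on momenta). -/
def Sy {L : ℝ} (m : Ix d L → ℝ) (c : ℝ) : Prop :=
  0 ≤ c ∧ (∀ i, |m i| ≤ c) ∧ ∀ i j, |m i - m j| ≤ c * ‖mom i - mom j‖

/-- Smooth cutoff, one on `[-a, a]` and zero outside `(-a-1, a+1)`. -/
noncomputable def cut (a t : ℝ) : ℝ := smoothTransition (a + 1 - t) * smoothTransition (a + 1 + t)

/-- The momentum cutoff of the potential. -/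
noncomputable def phiS (p : Fin d → ℝ) : ℝ := ∏ r, cut 10 (p r)

/-- The kinetic symbol. -/
noncomputable def epsS (p : Fin d → ℝ) : ℝ :=
  ∑ r, (p r ^ 2 * cut 12 (p r) + 169 * (1 - cut 12 (p r)))

/-- The momentum component with a cutoff. -/
noncomputable def piS (j : Fin d) (p : Fin d → ℝ) : ℝ := p j * ∏ r, cut 11 (p r)

/-- The cutoff matrix. -/
noncomputable def Ph (d : ℕ) (L : ℝ) : Mat d L := dg fun i => phiS (mom i)

/-- The momentum matrix. -/
noncomputable def Pm (L : ℝ) (r : Fin d) : Mat d L := dg fun i => mom i r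

/-- The projection on the cube of radius six. -/
noncomputable def P6 (d : ℕ) (L : ℝ) : Mat d L := dg (lo L 6)

/-- The potential with cutoffs. -/
noncomputable def Wop (L : ℝ) (u : Tor d → ℝ) : Mat d L := Ph d L * mulM L (cx u) * Ph d L

/-- The Hamiltonian `p^2 - 1 + u` with cutoffs. -/
noncomputable def ham (L : ℝ) (u : Tor d → ℝ) : Mat d L :=
  dg (fun i => epsS (mom i) - 1) + Wop L u

/-- The Hamiltonian with shifted momenta. -/
noncomputable def hamS (L : ℝ) (j : Fin d) (u : Tor d → ℝ) : Mat d L :=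
  dg (fun i => epsS (momS j i) - 1) +
    dg (fun i => phiS (momS j i)) * mulM L (cx u) * dg (fun i => phiS (momS j i))

/-- The density conjugate to the potential. -/
noncomputable def rhoF (L : ℝ) (u : Tor d → ℝ) (f : ℝ → ℝ) : Tor d → ℝ :=
  dens (Ph d L * fc f (ham L u) * Ph d L)

/-- The density of the projected state. -/
noncomputable def rhoP (L : ℝ) (u : Tor d → ℝ) (f : ℝ → ℝ) : Tor d → ℝ :=
  dens (P6 d L * fc f (ham L u) * P6 d L)

/-- The matrix whose columns are the orbitals of the projected state. -/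
noncomputable def Yf (L : ℝ) (u : Tor d → ℝ) (f : ℝ → ℝ) : Mat d L :=
  P6 d L * fc (fun t => √(f t)) (ham L u)

/-- The same with the orbital energies as weights. -/
noncomputable def Zf (L : ℝ) (u : Tor d → ℝ) (f : ℝ → ℝ) : Mat d L :=
  P6 d L * fc (fun t => t * √(f t)) (ham L u)

/-- The test matrix of the momentum shift identity. -/
noncomputable def Xs (L : ℝ) (j : Fin d) (b : Tor d → ℝ) : Mat d L :=
  dg (fun i => piS j (momS j i)) * mulM L (cx b)

/-- The standard error term. -/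
noncomputable def Er (L : ℝ) (f : ℝ → ℝ) (u : Tor d → ℝ) (Γ : ℝ) : ℝ :=
  Γ + Gr L u + √(Gr L u) * √(Gr L (rhoF L u f))

/-- Weighted trace per volume. -/
noncomputable def wtr (L : ℝ) (u b : Tor d → ℝ) (g : ℝ → ℝ) : ℝ :=
  (L ^ d)⁻¹ * rtr (mulM L (cx b) * fc g (ham L u))

/-- Weighted trace minus its semiclassical value. -/
noncomputable def Dv (L : ℝ) (u b : Tor d → ℝ) (g : ℝ → ℝ) : ℝ :=
  wtr L u b g - ∫ x, b x * Cl d g (u x)

/-- Small continuously differentiable potentials on a large torus. -/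
structure Pot (L : ℝ) (u : Tor d → ℝ) : Prop where
  big : Big L
  c1 : C1 L u
  bd : ∀ x, |u x| ≤ 1 / 4

/-- Functions vanishing above one half and bounded by `c` above `-2`. -/
structure Van (g : ℝ → ℝ) (c : ℝ) : Prop where
  zero : ∀ t, 1 / 2 ≤ t → g t = 0
  bd : ∀ t, -2 ≤ t → |g t| ≤ c

/-- The class of weights. -/
structure Wt (L Γ : ℝ) (b : Tor d → ℝ) : Prop where
  tp : TP L 1 (cx b)
  bd : ∀ x, |b x| ≤ 1
  gr : Gr L b ≤ Γ

/-- The self-consistent equation for the penalty potential. -/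
def SCF (L Λ N q β : ℝ) (u0 σ' w : Tor d → ℝ) : Prop :=
  TP L 32 (cx w) ∧ ∀ x, (1 + N) * w x - N * Jr L q w x =
    2 * Λ * (rhoF L (fun y => u0 y + w y) (fb β) x - σ' x)

/-- The penalised Dirichlet form of the penalty potential. -/
noncomputable def Om (L N q : ℝ) (w : Tor d → ℝ) : ℝ :=
  Gr L w + N * GG L (fun x => w x - Jr L q w x) w

/-- The orbitals given by the columns of a matrix. -/
noncomputable def orb {L : ℝ} (Y : Mat d L) (a : Ix d L) (x : Tor d) : ℂ :=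
  ((√(L ^ d))⁻¹ : ℝ) * fn (fun i => Y i a) x

/-- The divergence of a vector field. -/
noncomputable def dv (L : ℝ) (ξ : Fin d → Tor d → ℝ) (x : Tor d) : ℝ := ∑ r, pd L r (ξ r) x

/-- The antisymmetric first order operator of a vector field. -/
noncomputable def Sop (L : ℝ) (ξ : Fin d → Tor d → ℝ) (y : Tor d → ℂ) (x : Tor d) : ℂ :=
  ∑ r, (ξ r x : ℂ) * pd L r y x + ((dv L ξ x / 2 : ℝ) : ℂ) * y x

/-- The quadratic size of a vector field. -/
noncomputable def Gx (L : ℝ) (ξ : Fin d → Tor d → ℝ) : ℝ :=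
  ∑ r, ((∫ x, ξ r x ^ 2) + Gr L (ξ r)) + (∫ x, dv L ξ x ^ 2) + Gr L (dv L ξ)

/-- Vector fields with the regularity and the size needed. -/
structure VF (L ϖ : ℝ) (ξ : Fin d → Tor d → ℝ) : Prop where
  c1 : ∀ r, C1 L (ξ r)
  c1d : C1 L (dv L ξ)
  bd : ∀ r x, |ξ r x| ≤ ϖ
  bdd : ∀ x, |dv L ξ x| ≤ ϖ

/-- The weighted energy form of two families. -/
noncomputable def Bf {ι : Type} [Fintype ι] (L : ℝ) (b U : Tor d → ℝ) (y z : ι → Tor d → ℂ) : ℝ :=
  ∑ a, ∫ x, b x * (∑ r, conj (pd L r (y a) x) * pd L r (z a) x + (U x : ℂ) * (conj (y a x) * z a x)).re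

/-- The Bessel inequality with constant one for the physical scalar product. -/
def Bes {ι : Type} [Fintype ι] (L : ℝ) (v : ι → Tor d → ℂ) : Prop :=
  ∀ c : ι → ℂ, L ^ d * ∫ x, ‖∑ a, c a * v a x‖ ^ 2 ≤ ∑ a, ‖c a‖ ^ 2

/-- A finite family of orbitals on the torus with a localized Bessel bound, a given density and
an energy per volume at most `E`. -/
def TFam (L : ℝ) (w ρ : Tor d → ℝ) (E : ℝ) : Prop :=
  ∃ (ι : Type) (_ : Fintype ι) (v : ι → Tor d → ℂ), (∀ i, C1 L (v i)) ∧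
    (∀ φ : Tor d → ℂ, MemLp φ 2 volume →
      ∑ i, ‖((L ^ d : ℝ) : ℂ) * ∫ x, conj (v i x) * φ x‖ ^ 2 ≤ L ^ d * ∫ x, w x * ‖φ x‖ ^ 2) ∧
    (∀ x, ∑ i, ‖v i x‖ ^ 2 = ρ x) ∧ ∑ i, Gr L (v i) ≤ E

/-- The local upper bound for densities close to the level `sig0 d * k ^ d`. -/
def PS (d : ℕ) (η C₁ C₂ e k : ℝ) : Prop :=
  ∀ ε : ℝ, 0 < ε → ∃ L₀ : ℝ, 0 < L₀ ∧ ∀ L : ℝ, L₀ ≤ L → ∀ σ χ : Tor d → ℝ, C1 L σ → C1 L χ →
    (∀ x, |σ x - sig0 d * k ^ d| ≤ η * (sig0 d * k ^ d)) → (∀ x, |χ x| ≤ 1) →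
    TFam L (fun x => χ x ^ 2) (fun x => χ x ^ 2 * σ x)
      ((1 + e) * (∫ x, χ x ^ 2 * TF d (σ x)) + C₁ / k ^ d * Gr L σ + C₂ * k ^ d * Gr L χ + ε)

/-- The projection of the whole space on the torus of side `L`. -/
noncomputable def prj (L : ℝ) (y : Fin d → ℝ) : Tor d := fun r => ((y r / L : ℝ) : UnitAddCircle)

/-- A family on the whole space without labels, with energies `h^2 E r`. -/
def RFam (θ : ℝ) (w ρ : (Fin d → ℝ) → ℝ) (E : Fin d → ℝ) : Prop :=
  (∀ r, 0 ≤ E r) ∧ Fam θ (fun _ _ => 0) w ρ fun r h => h ^ 2 * E r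

/-- Difference quotient bounds. -/
def DQ (u : (Fin d → ℝ) → ℝ) (B : Fin d → ℝ) : Prop :=
  ∀ r (h : ℝ), 0 < h → ∫ x, (u (x + h • Pi.single r (1 : ℝ)) - u x) ^ 2 ≤ h ^ 2 * B r

/-- The Dirichlet integral of a differentiable function on the whole space. -/
noncomputable def GrR (u : (Fin d → ℝ) → ℝ) : ℝ :=
  ∑ r, ∫ x, (fderiv ℝ u x (Pi.single r 1)) ^ 2

end Pool.Agent.Lib.MP_ae5e3b_mp.Sh
end
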