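import Pool.Agent.Lib.MP_ae5e3b_mp.SJb
import Pool.Agent.Lib.MP_ae5e3b_mp.SSz
import Pool.Agent.Lib.MP_ae5e3b_mp.SIb

-- part Pool.Agent.Lib.MP_ae5e3b_mp.SXi
section

open MeasureTheory Matrix Real
open scoped ComplexConjugate ComplexOrder

set_option linter.unusedSectionVars false

namespace Pool.Agent.Lib.MP_ae5e3b_mp.Sh

section Aux
variable {d : ℕ} {L q : ℝ}

/-- A real function given by a finite sum of characters. -/
def SXi_Rep (s : Finset (Fin d → ℤ)) (c : (Fin d → ℤ) → ℂ) (g : Tor d → ℝ) : Prop :=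
  ∀ x, (g x : ℂ) = ∑ k ∈ s, c k * ch k x

lemma SXi_ch_at_zero (k : Fin d → ℤ) : ch k (0 : Tor d) = 1 := by
  simp [ch, UnitAddTorus.mFourier]

lemma SXi_ch_single (k : Fin d → ℤ) (r : Fin d) (y : Tor 1) :
    ch k (Pi.single r (y 0) : Tor d) = ch (fun _ : Fin 1 => k r) y := by
  simp only [ch, UnitAddTorus.mFourier, ContinuousMap.coe_mk, Fin.prod_univ_one]
  rw [Finset.prod_eq_single r]
  · simp
  · intro j _ hj
    simp [Pi.single_eq_of_ne hj]
  · simp

lemma SXi_cont_sum {e : ℕ} {ι : Type} (s : Finset ι) (b : ι → ℂ) (n : ι → Fin e → ℤ) :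
    Continuous fun y : Tor e => ∑ i ∈ s, b i * ch (n i) y :=
  continuous_finsetSum _ fun _ _ => continuous_const.mul (continuous_ch _)

lemma SXi_coef_sum {e : ℕ} {ι : Type} (s : Finset ι) (b : ι → ℂ) (n : ι → Fin e → ℤ)
    (l : Fin e → ℤ) :
    coef (fun y : Tor e => ∑ i ∈ s, b i * ch (n i) y) l =
      ∑ i ∈ s, b i * if l = n i then 1 else 0 := by
  rw [coef_sum s (g := fun i y => b i * ch (n i) y)
    (fun i _ => continuous_const.mul (continuous_ch _))]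
  refine Finset.sum_congr rfl fun i _ => ?_
  rw [coef_const_mul, coef_ch]

lemma SXi_cont_of_cx {e : ℕ} {w : Tor e → ℝ} (h : Continuous (cx w)) : Continuous w := by
  have : w = fun y => (cx w y).re := by
    funext y
    simp [cx]
  rw [this]
  exact Complex.continuous_re.comp h

/-- The smoothing acts on finite sums of characters as a multiplier. -/
lemma SXi_Jr_sum {e : ℕ} {ι : Type} (hL : 0 < L) (hq : 2 * kap L ≤ q) (s : Finset ι) (b : ι → ℂ)
    (n : ι → Fin e → ℤ) {w : Tor e → ℝ} (hw : ∀ y, (w y : ℂ) = ∑ i ∈ s, b i * ch (n i) y)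
    (y : Tor e) :
    (Jr L q w y : ℂ) = ∑ i ∈ s, ((mult (Mq L q) (n i) : ℂ) * b i) * ch (n i) y := by
  have h1 : cx w = fun y => ∑ i ∈ s, b i * ch (n i) y := funext hw
  have h2 : cx (Jr L q w) = fun y => ∑ i ∈ s, ((mult (Mq L q) (n i) : ℂ) * b i) * ch (n i) y := by
    refine eq_of_coef (Jr_TP hL hq w).cont (SXi_cont_sum s _ n) fun l => ?_
    rw [coef_Jr hL hq, h1, SXi_coef_sum, SXi_coef_sum, Finset.mul_sum]
    refine Finset.sum_congr rfl fun i _ => ?_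
    split_ifs with h
    · rw [h]; ring
    · simp
  exact congrFun h2 y

lemma SXi_mult_one (M : ℕ) (k : ℤ) : mult M (fun _ : Fin 1 => k) = mult1 M k := by
  simp [mult]

lemma SXi_slice {s : Finset (Fin d → ℤ)} {c : (Fin d → ℤ) → ℂ} {g : Tor d → ℝ}
    (hg : SXi_Rep s c g) (r : Fin d) (x : Tor d) (y : Tor 1) :
    (g (x + Pi.single r (y 0)) : ℂ) =
      ∑ k ∈ s, (c k * ch k x) * ch (fun _ : Fin 1 => k r) y := by
  rw [hg]
  refine Finset.sum_congr rfl fun k _ => ?_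
  rw [ch_add_right, SXi_ch_single, mul_assoc]

/-- One variable smoothing keeps sup bounds. -/
lemma SXi_avg (hL : 0 < L) (hq : 2 * kap L ≤ q) {s : Finset (Fin d → ℤ)}
    {c : (Fin d → ℤ) → ℂ} {g : Tor d → ℝ} (hg : SXi_Rep s c g) {a c₀ : ℝ}
    (ha : ∀ x, |g x - c₀| ≤ a) (r : Fin d) :
    ∃ g' : Tor d → ℝ, SXi_Rep s (fun k => (mult1 (Mq L q) (k r) : ℂ) * c k) g' ∧
      ∀ x, |g' x - c₀| ≤ a := by
  refine ⟨fun x => Jr L q (fun y : Tor 1 => g (x + Pi.single r (y 0))) 0, fun x => ?_,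
    fun x => ?_⟩
  · rw [SXi_Jr_sum hL hq s (fun k => c k * ch k x) (fun k _ => k r) (SXi_slice hg r x) 0]
    refine Finset.sum_congr rfl fun k _ => ?_
    rw [SXi_mult_one, SXi_ch_at_zero]
    ring
  · refine abs_Jr_sub_le hL hq (SXi_cont_of_cx ?_) (fun y => ha _) 0
    have : cx (fun y : Tor 1 => g (x + Pi.single r (y 0))) =
        fun y => ∑ k ∈ s, (c k * ch k x) * ch (fun _ : Fin 1 => k r) y :=
      funext (SXi_slice hg r x)
    rw [this]
    exact SXi_cont_sum s _ _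

lemma SXi_avgs (hL : 0 < L) (hq : 2 * kap L ≤ q) {s : Finset (Fin d → ℤ)}
    {c : (Fin d → ℤ) → ℂ} {g : Tor d → ℝ} (hg : SXi_Rep s c g) {a c₀ : ℝ}
    (ha : ∀ x, |g x - c₀| ≤ a) (t : Finset (Fin d)) :
    ∃ g' : Tor d → ℝ, SXi_Rep s (fun k => ((∏ j ∈ t, mult1 (Mq L q) (k j) : ℝ) : ℂ) * c k) g' ∧
      ∀ x, |g' x - c₀| ≤ a := by
  classical
  induction t using Finset.induction_on with
  | empty => exact ⟨g, fun x => by simpa using hg x, ha⟩
  | insert j t hj ih =>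
    obtain ⟨g₁, h1, h2⟩ := ih
    obtain ⟨g₂, h3, h4⟩ := SXi_avg hL hq h1 h2 j
    refine ⟨g₂, fun x => ?_, h4⟩
    rw [h3 x]
    refine Finset.sum_congr rfl fun k _ => ?_
    simp only [Finset.prod_insert hj]
    push_cast
    ring

lemma SXi_C1_sum {e : ℕ} {ι : Type} (s : Finset ι) (b : ι → ℂ) (n : ι → Fin e → ℤ) :
    C1 L fun y : Tor e => ∑ i ∈ s, b i * ch (n i) y :=
  C1.sum s (g := fun i y => b i * ch (n i) y) fun i _ => C1.const_mul (b i) (C1.ch (n i))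

lemma SXi_pd_sum {e : ℕ} {ι : Type} (s : Finset ι) (b : ι → ℂ) (n : ι → Fin e → ℤ) (r : Fin e)
    (y : Tor e) :
    pd L r (fun y : Tor e => ∑ i ∈ s, b i * ch (n i) y) y =
      ∑ i ∈ s, (Complex.I * ((kap L * n i r : ℝ) : ℂ) * b i) * ch (n i) y := by
  rw [pd_sum s (g := fun i y => b i * ch (n i) y) (fun i _ => C1.const_mul (b i) (C1.ch (n i)))]
  refine Finset.sum_congr rfl fun i _ => ?_
  rw [pd_const_mul (b i) (C1.ch (n i)), pd_ch]
  ring

/-- The one variable primitive of `g - J g`. -/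
lemma SXi_prim (hL : 0 < L) (hq : 2 * kap L ≤ q) {s : Finset (Fin d → ℤ)}
    {c : (Fin d → ℤ) → ℂ} {g : Tor d → ℝ} (hg : SXi_Rep s c g) {a c₀ : ℝ}
    (ha : ∀ x, |g x - c₀| ≤ a) (r : Fin d) :
    ∃ X : Tor d → ℝ, SXi_Rep s (fun k => ((1 - mult1 (Mq L q) (k r) : ℝ) : ℂ) /
        (Complex.I * ((kap L * k r : ℝ) : ℂ)) * c k) X ∧ ∀ x, |X x| ≤ 22 * a / q := by
  classical
  have hκ := kap_pos hL
  have ha0 : 0 ≤ a := (abs_nonneg _).trans (ha 0)
  have key : ∀ x : Tor d, ∃ z : ℝ, (z : ℂ) = ∑ k ∈ s, ((1 - mult1 (Mq L q) (k r) : ℝ) : ℂ) /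
        (Complex.I * ((kap L * k r : ℝ) : ℂ)) * c k * ch k x ∧ |z| ≤ 22 * a / q := by
    intro x
    -- the primitive along the line through `x`
    obtain ⟨β, hβ⟩ : ∃ β : (Fin d → ℤ) → ℂ,
        β = fun k => c k * ch k x / (Complex.I * ((kap L * k r : ℝ) : ℂ)) := ⟨_, rfl⟩
    obtain ⟨b, hb⟩ : ∃ b : (Fin d → ℤ) × Bool → ℂ,
        b = fun p => if p.2 then β p.1 else -β p.1 := ⟨_, rfl⟩
    obtain ⟨n, hn⟩ : ∃ n : (Fin d → ℤ) × Bool → Fin 1 → ℤ,
        n = fun p _ => if p.2 then 0 else p.1 r := ⟨_, rfl⟩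
    obtain ⟨V, hV⟩ : ∃ V : Tor 1 → ℂ,
        V = fun y => ∑ p ∈ s ×ˢ (Finset.univ : Finset Bool), b p * ch (n p) y := ⟨_, rfl⟩
    have hVc : C1 L V := by rw [hV]; exact SXi_C1_sum _ _ _
    have hV0 : V 0 = 0 := by
      rw [hV]
      simp only [SXi_ch_at_zero, mul_one, Finset.sum_product, hb]
      simp
    obtain ⟨w, hw⟩ : ∃ w : Tor 1 → ℝ, w = fun y => g (x + Pi.single r (y 0)) := ⟨_, rfl⟩
    have hwr : ∀ y, (w y : ℂ) = ∑ k ∈ s, (c k * ch k x) * ch (fun _ : Fin 1 => k r) y := by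
      intro y; rw [hw]; exact SXi_slice hg r x y
    have hwc : Continuous w := by
      refine SXi_cont_of_cx ?_
      have : cx w = fun y => ∑ k ∈ s, (c k * ch k x) * ch (fun _ : Fin 1 => k r) y := funext hwr
      rw [this]
      exact SXi_cont_sum s _ _
    have hwa : ∀ y, |w y - c₀| ≤ a := by intro y; rw [hw]; exact ha _
    have hmean : ((∫ y, w y : ℝ) : ℂ) = ∑ k ∈ s, (c k * ch k x) * if k r = 0 then 1 else 0 := by
      have h1 : ((∫ y, w y : ℝ) : ℂ) = coef (cx w) 0 := by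
        rw [coef_zero_eq, ← integral_complex_ofReal]
        rfl
      have h2 : cx w = fun y => ∑ k ∈ s, (c k * ch k x) * ch (fun _ : Fin 1 => k r) y :=
        funext hwr
      rw [h1, h2, SXi_coef_sum]
      refine Finset.sum_congr rfl fun k _ => ?_
      congr 1
      by_cases hk : k r = 0
      · have : (0 : Fin 1 → ℤ) = fun _ => k r := by funext i; simp [hk]
        rw [if_pos this, if_pos hk]
      · have : ¬ (0 : Fin 1 → ℤ) = fun _ => k r := fun h => hk (congrFun h 0).symm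
        rw [if_neg this, if_neg hk]
    have hma : |(∫ y, w y) - c₀| ≤ a := by
      have h1 : (∫ y, w y) - c₀ = ∫ y, (w y - c₀) := by
        rw [integral_sub (cont_int hwc) (integrable_const _)]
        simp
      rw [h1]
      exact abs_integral_le hwa
    have hpd : ∀ i y, pd L i V y = (((∫ y, w y) - w y : ℝ) : ℂ) := by
      intro i y
      rw [hV, SXi_pd_sum, Complex.ofReal_sub, hmean, hwr y, ← Finset.sum_sub_distrib,
        Finset.sum_product]
      refine Finset.sum_congr rfl fun k _ => ?_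
      rw [Fintype.sum_bool]
      simp only [hb, hn, hβ, if_true, Bool.false_eq_true, if_false]
      by_cases hk : k r = 0
      · have : (fun _ : Fin 1 => k r) = 0 := by funext i; simp [hk]
        rw [this, ch_zero]
        simp [hk]
      · have h0 : Complex.I * ((kap L * k r : ℝ) : ℂ) ≠ 0 := by
          refine mul_ne_zero Complex.I_ne_zero ?_
          exact_mod_cast mul_ne_zero hκ.ne' (Int.cast_ne_zero.mpr hk)
        rw [if_neg hk]
        simp only [Int.cast_zero, mul_zero, Complex.ofReal_zero, zero_mul, zero_add, zero_sub]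
        field_simp
    have him : ∀ y, (V y).im = 0 := by
      intro y
      have h1 : C1 L fun y => (-Complex.I * V y).re := C1.re (C1.const_mul (-Complex.I) hVc)
      have h2 : ∀ i y, ‖pd L i (fun y => (-Complex.I * V y).re) y‖ ≤ 0 := by
        intro i y
        rw [pd_re (C1.const_mul (-Complex.I) hVc), pd_const_mul _ hVc, hpd]
        simp
      have h3 := C1.lip_dist hL h1 h2 0 y
      simp only [zero_mul, norm_le_zero_iff, hV0] at h3
      simpa using h3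
    have hvr : ∀ y, (((V y).re : ℝ) : ℂ) =
        ∑ p ∈ s ×ˢ (Finset.univ : Finset Bool), b p * ch (n p) y := by
      intro y
      have : (((V y).re : ℝ) : ℂ) = V y := by
        apply Complex.ext <;> simp [him y]
      rw [this, hV]
    refine ⟨Jr L q (fun y => (V y).re) 0, ?_, ?_⟩
    · rw [SXi_Jr_sum hL hq _ b n hvr 0, Finset.sum_product]
      refine Finset.sum_congr rfl fun k _ => ?_
      rw [Fintype.sum_bool]
      simp only [hb, hn, hβ, if_true, Bool.false_eq_true, if_false, SXi_ch_at_zero,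
        SXi_mult_one, mult1_zero (Mq_pos hL hq)]
      push_cast
      ring
    · have h1 := abs_Jr_sub_self hL hq (C1.re hVc) (M := 2 * a) (fun i y => by
        rw [pd_re hVc, hpd, Complex.ofReal_re]
        have h2 := hwa y
        rw [abs_le] at h2 hma ⊢
        constructor <;> linarith [h2.1, h2.2, hma.1, hma.2]) (by linarith) 0
      simp only [hV0, Complex.zero_re, sub_zero, Nat.cast_one, mul_one] at h1
      calc _ ≤ 11 * (2 * a) / q := h1
        _ = 22 * a / q := by ring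
  choose X hX1 hX2 using key
  exact ⟨X, hX1, hX2⟩

lemma SXi_one_sub (hL : 0 < L) (hq : 2 * kap L ≤ q) (k : ℤ) :
    1 - mult1 (Mq L q) k ≤ 24 / q ^ 2 * (kap L * k) ^ 2 := by
  have := one_sub_mult hL hq (fun _ : Fin 1 => k)
  simpa [SXi_mult_one] using this

lemma SXi_mu_bounds (hL : 0 < L) (hq : 2 * kap L ≤ q) (k : ℤ) {p : ℝ} (hp0 : 0 ≤ p) (hp1 : p ≤ 1) :
    ‖((1 - mult1 (Mq L q) k : ℝ) : ℂ) / (Complex.I * ((kap L * k : ℝ) : ℂ)) * (p : ℂ)‖ ^ 2 ≤
        576 / q ^ 4 * (kap L * k) ^ 2 ∧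
      ‖((1 - mult1 (Mq L q) k : ℝ) : ℂ) / (Complex.I * ((kap L * k : ℝ) : ℂ)) * (p : ℂ)‖ ^ 2 ≤
        576 / q ^ 2 := by
  have hκ := kap_pos hL
  have hq0 : 0 < q := by linarith
  have h1 := SXi_one_sub hL hq k
  have h2 := mult1_le_one (Mq_pos hL hq) k
  have h3 := mult1_nonneg (Mq L q) k
  obtain ⟨m, hm⟩ : ∃ m, m = 1 - mult1 (Mq L q) k := ⟨_, rfl⟩
  obtain ⟨t, ht⟩ : ∃ t : ℝ, t = kap L * k := ⟨_, rfl⟩
  rw [← hm, ← ht]
  rw [← hm, ← ht] at h1
  have hm0 : 0 ≤ m := by linarith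
  have hm1 : m ≤ 1 := by linarith
  have hn : ‖(m : ℂ) / (Complex.I * (t : ℂ)) * (p : ℂ)‖ ^ 2 = m ^ 2 / t ^ 2 * p ^ 2 := by
    rw [norm_mul, norm_div, norm_mul, Complex.norm_I, one_mul, Complex.norm_real,
      Complex.norm_real, Complex.norm_real, Real.norm_eq_abs, Real.norm_eq_abs, Real.norm_eq_abs,
      mul_pow, div_pow, sq_abs, sq_abs, sq_abs]
  rw [hn]
  have hp2 : p ^ 2 ≤ 1 := by nlinarith
  have h4 : m ^ 2 / t ^ 2 * p ^ 2 ≤ m ^ 2 / t ^ 2 :=
    mul_le_of_le_one_right (by positivity) hp2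
  by_cases ht0 : t = 0
  · rw [ht0]
    constructor
    · simp
    · simp only [ne_eq, OfNat.ofNat_ne_zero, not_false_eq_true, zero_pow, div_zero, zero_mul]
      positivity
  · have ht2 : 0 < t ^ 2 := by positivity
    have h5 : m ^ 2 ≤ (24 / q ^ 2 * t ^ 2) ^ 2 := pow_le_pow_left₀ hm0 h1 2
    have h6 : m ^ 2 ≤ 24 / q ^ 2 * t ^ 2 := by nlinarith
    constructor
    · refine h4.trans ?_
      rw [div_le_iff₀ ht2]
      refine h5.trans (le_of_eq ?_)
      field_simp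
      norm_num
    · refine h4.trans ?_
      rw [div_le_iff₀ ht2]
      refine h6.trans ?_
      gcongr
      norm_num

end Aux

/-- A vector field with divergence `g - J g`. -/
theorem exists_Xi (d : ℕ) : ∃ C : ℝ, 0 < C ∧ ∀ (L q T : ℝ) (g : Tor d → ℝ) (a c : ℝ), 0 < L →
    2 * kap L ≤ q → TP L T (cx g) → (∀ x, |g x - c| ≤ a) →
    ∃ Ξ : Fin d → Tor d → ℝ, (∀ r, TP L T (cx (Ξ r))) ∧
      (∀ x, dv L Ξ x = g x - Jr L q g x) ∧ (∀ r x, |Ξ r x| ≤ C * a / q) ∧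
      (∀ r, ∫ x, Ξ r x ^ 2 ≤ C / q ^ 4 * Gr L g) ∧ ∀ r, Gr L (Ξ r) ≤ C / q ^ 2 * Gr L g := by
  classical
  refine ⟨576, by norm_num, fun L q T g a c hL hq hg ha => ?_⟩
  have hκ := kap_pos hL
  have hq0 : 0 < q := by linarith
  have ha0 : 0 ≤ a := (abs_nonneg _).trans (ha 0)
  have hM := Mq_pos hL hq
  obtain ⟨s, hs⟩ := exists_band (d := d) hL T
  have hrep : SXi_Rep s (coef (cx g)) g := fun x => hg.repr (fun k hk => (hs k).2 hk) x
  obtain ⟨μ, hμ⟩ : ∃ μ : Fin d → (Fin d → ℤ) → ℂ, μ = fun r k =>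
      ((1 - mult1 (Mq L q) (k r) : ℝ) : ℂ) / (Complex.I * ((kap L * k r : ℝ) : ℂ)) *
        ((∏ j ∈ Finset.univ with j < r, mult1 (Mq L q) (k j) : ℝ) : ℂ) := ⟨_, rfl⟩
  have key : ∀ r : Fin d, ∃ X : Tor d → ℝ, SXi_Rep s (fun k => μ r k * coef (cx g) k) X ∧
      ∀ x, |X x| ≤ 22 * a / q := by
    intro r
    obtain ⟨g₁, h1, h2⟩ := SXi_avgs hL hq hrep ha (Finset.univ.filter fun j => j < r)
    obtain ⟨X, h3, h4⟩ := SXi_prim hL hq h1 h2 r
    refine ⟨X, fun x => ?_, h4⟩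
    rw [h3 x]
    refine Finset.sum_congr rfl fun k _ => ?_
    rw [hμ]
    ring
  choose Ξ hΞ hΞa using key
  have hcx : ∀ r, cx (Ξ r) = fun x => ∑ k ∈ s, (μ r k * coef (cx g) k) * ch k x :=
    fun r => funext (hΞ r)
  have hTP : ∀ r, TP L T (cx (Ξ r)) := fun r =>
    ⟨s, fun k => μ r k * coef (cx g) k, fun k hk => (hs k).1 hk, fun x => hΞ r x⟩
  have hcoef : ∀ r l, coef (cx (Ξ r)) l = μ r l * coef (cx g) l := by
    intro r l
    rw [hcx r, SXi_coef_sum s (fun k => μ r k * coef (cx g) k) (fun k => k) l]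
    by_cases hl : l ∈ s
    · rw [Finset.sum_eq_single l]
      · simp
      · intro k _ hk
        rw [if_neg (Ne.symm hk), mul_zero]
      · intro h; exact absurd hl h
    · have h0 : coef (cx g) l = 0 := by
        have : ¬ ∀ r, |kap L * l r| ≤ T := fun h => hl ((hs l).2 h)
        push Not at this
        obtain ⟨r, hr⟩ := this
        exact hg.coef_eq_zero hr
      rw [h0, mul_zero]
      refine Finset.sum_eq_zero fun k hk => ?_
      rw [if_neg (fun h : l = k => hl (h ▸ hk)), mul_zero]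
  have hμb : ∀ r l, ‖μ r l‖ ^ 2 ≤ 576 / q ^ 4 * (kap L * l r) ^ 2 ∧ ‖μ r l‖ ^ 2 ≤ 576 / q ^ 2 := by
    intro r l
    rw [hμ]
    exact SXi_mu_bounds hL hq (l r) (Finset.prod_nonneg fun j _ => mult1_nonneg _ _)
      (Finset.prod_le_one (fun j _ => mult1_nonneg _ _) fun j _ => mult1_le_one hM _)
  have hG := Gr_parseval hg.c1
  rw [Gr_cx hg.c1_real] at hG
  refine ⟨Ξ, hTP, fun x => ?_, fun r x => ?_, fun r => ?_, fun r => ?_⟩
  · have h1 : ∀ r, ((pd L r (Ξ r) x : ℝ) : ℂ) =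
        ∑ k ∈ s, (Complex.I * ((kap L * k r : ℝ) : ℂ) * (μ r k * coef (cx g) k)) * ch k x := by
      intro r
      have := congrFun (pd_cx (hTP r).c1_real r) x
      rw [hcx r, SXi_pd_sum s (fun k => μ r k * coef (cx g) k) (fun k => k) r x] at this
      exact this.symm
    have h2 := SXi_Jr_sum hL hq s (coef (cx g)) (fun k => k) hrep x
    have h3 : ((dv L Ξ x : ℝ) : ℂ) = ((g x - Jr L q g x : ℝ) : ℂ) := by
      rw [dv, Complex.ofReal_sum, Complex.ofReal_sub, h2, hrep x, ← Finset.sum_sub_distrib]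
      simp only [h1]
      rw [Finset.sum_comm]
      refine Finset.sum_congr rfl fun k _ => ?_
      have h4 : ∀ r, Complex.I * ((kap L * k r : ℝ) : ℂ) * μ r k =
          (((1 - mult1 (Mq L q) (k r)) *
            ∏ j ∈ Finset.univ with j < r, (1 - (1 - mult1 (Mq L q) (k j))) : ℝ) : ℂ) := by
        intro r
        simp only [sub_sub_cancel, hμ]
        by_cases hk : k r = 0
        · simp [hk, mult1_zero hM]
        · have h0 : Complex.I * ((kap L * k r : ℝ) : ℂ) ≠ 0 := by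
            refine mul_ne_zero Complex.I_ne_zero ?_
            exact_mod_cast mul_ne_zero hκ.ne' (Int.cast_ne_zero.mpr hk)
          rw [Complex.ofReal_mul (1 - mult1 (Mq L q) (k r))]
          field_simp
      have h5 := Finset.prod_one_sub_ordered Finset.univ fun r => 1 - mult1 (Mq L q) (k r)
      have h6 : ∑ r, (1 - mult1 (Mq L q) (k r)) *
          ∏ j ∈ Finset.univ with j < r, (1 - (1 - mult1 (Mq L q) (k j))) =
          1 - mult (Mq L q) k := by
        simp only [sub_sub_cancel] at h5 ⊢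
        rw [mult, h5]
        ring
      calc ∑ r, Complex.I * ((kap L * k r : ℝ) : ℂ) * (μ r k * coef (cx g) k) * ch k x
          = (∑ r, Complex.I * ((kap L * k r : ℝ) : ℂ) * μ r k) * (coef (cx g) k * ch k x) := by
            rw [Finset.sum_mul]
            refine Finset.sum_congr rfl fun r _ => ?_
            ring
        _ = ((1 - mult (Mq L q) k : ℝ) : ℂ) * (coef (cx g) k * ch k x) := by
            simp only [h4]
            rw [← Complex.ofReal_sum, h6]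
        _ = _ := by
            push_cast
            ring
    exact_mod_cast h3
  · refine (hΞa r x).trans ?_
    gcongr
    norm_num
  · have h1 := parseval_sq (hTP r).cont
    have h2 : ∫ x, Ξ r x ^ 2 = ∫ x, ‖cx (Ξ r) x‖ ^ 2 := by
      congr 1
      funext x
      simp [cx]
    rw [h2]
    refine hasSum_le (fun l => ?_) h1 (hG.mul_left (576 / q ^ 4))
    rw [hcoef, norm_mul, mul_pow, ← mul_assoc]
    refine mul_le_mul_of_nonneg_right ((hμb r l).1.trans ?_) (by positivity)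
    refine mul_le_mul_of_nonneg_left ?_ (by positivity)
    exact Finset.single_le_sum (f := fun r => (kap L * l r) ^ 2) (fun j _ => by positivity)
      (Finset.mem_univ r)
  · have h1 := Gr_parseval (hTP r).c1
    rw [Gr_cx (hTP r).c1_real] at h1
    refine hasSum_le (fun l => ?_) h1 (hG.mul_left (576 / q ^ 2))
    rw [hcoef, norm_mul, mul_pow]
    have h2 : 0 ≤ ∑ r, (kap L * l r) ^ 2 := Finset.sum_nonneg fun j _ => by positivity
    calc (∑ r, (kap L * l r) ^ 2) * (‖μ r l‖ ^ 2 * ‖coef (cx g) l‖ ^ 2)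
        = ‖μ r l‖ ^ 2 * ((∑ r, (kap L * l r) ^ 2) * ‖coef (cx g) l‖ ^ 2) := by ring
      _ ≤ _ := mul_le_mul_of_nonneg_right (hμb r l).2 (by positivity)

end Pool.Agent.Lib.MP_ae5e3b_mp.Sh
end

-- part Pool.Agent.Lib.MP_ae5e3b_mp.SVf
section

open MeasureTheory Matrix Real
open scoped ComplexConjugate ComplexOrder

set_option linter.unusedSectionVars false

namespace Pool.Agent.Lib.MP_ae5e3b_mp.Sh

variable {d : ℕ} {L : ℝ}

/-- Multipliers bounded together with their gradient. -/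
def SVf_M (L : ℝ) (b : Tor d → ℝ) (K : ℝ) : Prop :=
  C1 L b ∧ 0 ≤ K ∧ (∀ x, |b x| ≤ K) ∧ ∀ r x, |pd L r b x| ≤ K

/-- The squared Sobolev norm. -/
noncomputable def SVf_N (L : ℝ) (h : Tor d → ℝ) : ℝ := (∫ x, h x ^ 2) + Gr L h

lemma SVf_M_mul {b b' : Tor d → ℝ} {K K' : ℝ} (h : SVf_M L b K) (h' : SVf_M L b' K') :
    SVf_M L (fun x => b x * b' x) (2 * K * K') := by
  obtain ⟨c1, k0, h1, h2⟩ := h
  obtain ⟨c1', k0', h1', h2'⟩ := h'
  have hp := mul_nonneg k0 k0'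
  refine ⟨c1.mul c1', by positivity, fun x => ?_, fun r x => ?_⟩
  · rw [abs_mul]
    have := mul_le_mul (h1 x) (h1' x) (abs_nonneg _) k0
    linarith
  · rw [pd_mul c1 c1']
    refine (abs_add_le _ _).trans ?_
    rw [abs_mul, abs_mul]
    have e1 := mul_le_mul (h2 r x) (h1' x) (abs_nonneg _) k0
    have e2 := mul_le_mul (h1 x) (h2' r x) (abs_nonneg _) k0
    linarith

lemma SVf_M_neg {b : Tor d → ℝ} {K : ℝ} (h : SVf_M L b K) : SVf_M L (fun x => -b x) K :=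
  ⟨h.1.neg, h.2.1, fun x => by rw [abs_neg]; exact h.2.2.1 x,
    fun r x => by rw [pd_neg, abs_neg]; exact h.2.2.2 r x⟩

lemma SVf_M_mono {b : Tor d → ℝ} {K K' : ℝ} (h : SVf_M L b K) (hK : K ≤ K') : SVf_M L b K' :=
  ⟨h.1, h.2.1.trans hK, fun x => (h.2.2.1 x).trans hK, fun r x => (h.2.2.2 r x).trans hK⟩

lemma SVf_M_dens (hL : Big L) {Y : Mat d L} {c : ℝ} (hY : OpB Y c) :
    SVf_M L (dens Y) (32 * 6 ^ d * c) := by
  have h0 := hY.nonneg
  have hp : 0 ≤ 6 ^ d * c := by positivity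
  exact ⟨dens_C1 Y, by positivity, fun x => (abs_dens_le hL hY x).trans (by linarith),
    fun r x => abs_pd_dens_le hL hY r x⟩

/-- The inverse density and its derivatives are multipliers. -/
lemma SVf_inv (d : ℕ) : ∃ K : ℝ, 0 ≤ K ∧ ∀ (L : ℝ) (Y : Mat d L), Big L → OpB Y 1 →
    (∀ x, sig0 d / 2 ≤ dens Y x) → SVf_M L (fun x => (dens Y x)⁻¹) K ∧
      ∀ r, SVf_M L (pd L r fun x => (dens Y x)⁻¹) K := by
  have hs := sig0_pos d
  obtain ⟨k, hk⟩ : ∃ k : ℝ, k = 2 / sig0 d := ⟨_, rfl⟩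
  have k0 : 0 < k := by rw [hk]; positivity
  obtain ⟨A, hA⟩ : ∃ A : ℝ, A = 32 * 6 ^ d := ⟨_, rfl⟩
  have A0 : 0 < A := by rw [hA]; positivity
  obtain ⟨K1, hK1⟩ : ∃ K1 : ℝ, K1 = k + A * k ^ 2 := ⟨_, rfl⟩
  have K10 : 0 < K1 := by rw [hK1]; positivity
  refine ⟨K1 + 2 * (2 * (A * 32) * K1) * K1, by positivity, fun L Y hL hY hρ => ?_⟩
  have hpos : ∀ x, 0 < dens Y x := fun x => lt_of_lt_of_le (by positivity) (hρ x)
  obtain ⟨c1, hd⟩ := (dens_C1 Y).inv fun x => (hpos x).ne'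
  have hb : ∀ x, |(dens Y x)⁻¹| ≤ k := by
    intro x
    rw [abs_of_pos (inv_pos.2 (hpos x)), hk, ← inv_div]
    exact inv_anti₀ (by positivity) (hρ x)
  have he : ∀ r, (pd L r fun x => (dens Y x)⁻¹) =
      fun x => -(pd L r (dens Y) x * (dens Y x)⁻¹ * (dens Y x)⁻¹) := by
    intro r
    funext x
    rw [hd]
    have := (hpos x).ne'
    field_simp
  have m1 : SVf_M L (fun x => (dens Y x)⁻¹) K1 := by
    refine ⟨c1, K10.le, fun x => (hb x).trans (by rw [hK1]; nlinarith), fun r x => ?_⟩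
    rw [he, abs_neg, abs_mul, abs_mul]
    have e1 : |pd L r (dens Y) x| ≤ A := by
      have := abs_pd_dens_le hL hY r x
      rwa [mul_one, ← hA] at this
    have e2 := hb x
    calc |pd L r (dens Y) x| * |(dens Y x)⁻¹| * |(dens Y x)⁻¹| ≤ A * k * k := by gcongr
      _ ≤ K1 := by rw [hK1]; nlinarith
  refine ⟨SVf_M_mono m1 (le_add_of_nonneg_right (by positivity)), fun r => ?_⟩
  have hY' : OpB (Complex.I • cm (Pm L r) Y) 32 :=
    (((Pm_opB hL r).cm hY).smul Complex.I).mono (by simp; norm_num)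
  have m2 := SVf_M_dens hL hY'
  rw [← pd_dens, ← hA] at m2
  rw [he]
  exact SVf_M_mono (SVf_M_neg (SVf_M_mul (SVf_M_mul m2 m1) m1)) (le_add_of_nonneg_left K10.le)

lemma SVf_int {h : Tor d → ℝ} (hh : C1 L h) : Integrable fun x => h x ^ 2 :=
  cont_int (hh.cont.pow 2)

lemma SVf_N_nonneg (h : Tor d → ℝ) : 0 ≤ SVf_N L h :=
  add_nonneg (integral_nonneg fun _ => sq_nonneg _) (Gr_nonneg h)

lemma SVf_N_mul {b h : Tor d → ℝ} {K : ℝ} (hb : SVf_M L b K) (hh : C1 L h) :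
    SVf_N L (fun x => b x * h x) ≤ (3 + 2 * d) * K ^ 2 * SVf_N L h := by
  obtain ⟨c1, k0, h1, h2⟩ := hb
  have i0 : 0 ≤ ∫ x, h x ^ 2 := integral_nonneg fun _ => sq_nonneg _
  have g0 := Gr_nonneg (L := L) h
  have e1 : ∫ x, (b x * h x) ^ 2 ≤ K ^ 2 * ∫ x, h x ^ 2 := by
    rw [← integral_const_mul]
    refine integral_mono (SVf_int (c1.mul hh)) ((SVf_int hh).const_mul _) fun x => ?_
    have := sq_le_sq' (abs_le.1 (h1 x)).1 (abs_le.1 (h1 x)).2
    simp only [mul_pow]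
    gcongr
  have e2 : Gr L (fun x => b x * h x) ≤
      ∑ r : Fin d, (2 * K ^ 2 * (∫ x, h x ^ 2) + 2 * K ^ 2 * ∫ x, pd L r h x ^ 2) := by
    rw [Gr_real]
    refine Finset.sum_le_sum fun r _ => ?_
    have i2 : Integrable fun x => pd L r h x ^ 2 := cont_int ((hh.cpd r).pow 2)
    rw [← integral_const_mul, ← integral_const_mul,
      ← integral_add ((SVf_int hh).const_mul _) (i2.const_mul _)]
    refine integral_mono (cont_int (((c1.mul hh).cpd r).pow 2))
      (((SVf_int hh).const_mul _).add (i2.const_mul _)) fun x => ?_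
    simp only
    rw [pd_mul c1 hh]
    have a1 := sq_le_sq' (abs_le.1 (h1 x)).1 (abs_le.1 (h1 x)).2
    have a2 := sq_le_sq' (abs_le.1 (h2 r x)).1 (abs_le.1 (h2 r x)).2
    have a3 := mul_le_mul_of_nonneg_right a1 (sq_nonneg (pd L r h x))
    have a4 := mul_le_mul_of_nonneg_right a2 (sq_nonneg (h x))
    nlinarith [sq_nonneg (pd L r b x * h x - b x * pd L r h x)]
  rw [Finset.sum_add_distrib, Finset.sum_const, ← Finset.mul_sum, ← Gr_real, Finset.card_univ,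
    Fintype.card_fin, nsmul_eq_mul] at e2
  have p1 : 0 ≤ K ^ 2 * ∫ x, h x ^ 2 := by positivity
  have p2 : 0 ≤ K ^ 2 * Gr L h := by positivity
  have p3 : 0 ≤ (d : ℝ) * (K ^ 2 * Gr L h) := by positivity
  unfold SVf_N
  nlinarith

lemma SVf_N_add {g h : Tor d → ℝ} (hg : C1 L g) (hh : C1 L h) :
    SVf_N L (fun x => g x + h x) ≤ 2 * SVf_N L g + 2 * SVf_N L h := by
  have e1 : ∫ x, (g x + h x) ^ 2 ≤ 2 * (∫ x, g x ^ 2) + 2 * ∫ x, h x ^ 2 := by
    rw [← integral_const_mul, ← integral_const_mul,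
      ← integral_add ((SVf_int hg).const_mul _) ((SVf_int hh).const_mul _)]
    refine integral_mono (SVf_int (hg.add hh))
      (((SVf_int hg).const_mul _).add ((SVf_int hh).const_mul _)) fun x => ?_
    simp only
    nlinarith [sq_nonneg (g x - h x)]
  have e2 := Gr_add_le hg hh
  unfold SVf_N
  linarith

lemma SVf_N_sum {ι : Type} (s : Finset ι) {h : ι → Tor d → ℝ} (hh : ∀ a, C1 L (h a)) {B : ℝ}
    (hB0 : 0 ≤ B) (hB : ∀ a, SVf_N L (h a) ≤ B) :
    SVf_N L (fun x => ∑ a ∈ s, h a x) ≤ 4 ^ s.card * B := by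
  classical
  induction s using Finset.induction_on with
  | empty => simpa [SVf_N, Gr_const] using hB0
  | insert a s ha ih =>
    simp only [Finset.sum_insert ha, Finset.card_insert_of_notMem ha]
    have h1 := SVf_N_add (hh a) (C1.sum s fun a _ => hh a)
    have h2 : (1 : ℝ) ≤ 4 ^ s.card := one_le_pow₀ (by norm_num)
    have h3 := mul_le_mul_of_nonneg_right h2 hB0
    have h4 := hB a
    rw [pow_succ]
    nlinarith

lemma SVf_N_smul (c : ℝ) {h : Tor d → ℝ} (hh : C1 L h) :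
    SVf_N L (fun x => c * h x) = c ^ 2 * SVf_N L h := by
  unfold SVf_N
  rw [Gr_const_mul c hh, Real.norm_eq_abs, sq_abs, mul_add, ← integral_const_mul]
  simp only [mul_pow]

/-- The vector field that transports the high frequencies of the density. -/
theorem exists_vf (d : ℕ) : ∃ C : ℝ, 1 ≤ C ∧ ∀ (L q T a c lam : ℝ) (g : Tor d → ℝ) (Y : Mat d L),
    Big L → 2 * kap L ≤ q → q ≤ 1 → TP L T (cx g) → (∀ x, |g x - c| ≤ a) → 0 ≤ lam → OpB Y 1 →
    (∀ x, sig0 d / 2 ≤ dens Y x) →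
    ∃ ξ : Fin d → Tor d → ℝ, VF L (C * lam * a / q) ξ ∧ Gx L ξ ≤ C * lam ^ 2 / q ^ 4 * Gr L g ∧
      ∀ x, dv L (fun r y => ξ r y * dens Y y) x = lam * (g x - Jr L q g x) := by
  obtain ⟨C0, hC0, hXi⟩ := exists_Xi d
  obtain ⟨K, hK, hinv⟩ := SVf_inv d
  obtain ⟨M, hM⟩ : ∃ M : ℝ, M = (3 + 2 * d) * K ^ 2 := ⟨_, rfl⟩
  have M0 : 0 ≤ M := by rw [hM]; positivity
  obtain ⟨C1', hC1⟩ : ∃ C1' : ℝ, C1' = K * C0 + d * (K * C0) + 2 * K := ⟨_, rfl⟩
  have C10 : 0 ≤ C1' := by rw [hC1]; positivity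
  obtain ⟨C2, hC2⟩ : ∃ C2 : ℝ,
      C2 = d * (M * (2 * C0)) + 2 * (4 ^ d * (M * (2 * C0))) + 2 * (M * 25) := ⟨_, rfl⟩
  have C20 : 0 ≤ C2 := by rw [hC2]; positivity
  refine ⟨1 + C1' + C2, by linarith, ?_⟩
  intro L q T a c lam g Y hL hq hq1 hg hga hlam hY hρ
  have hL0 := hL.pos
  have q0 : 0 < q := lt_of_lt_of_le (by have := kap_pos hL0; positivity) hq
  have a0 : 0 ≤ a := (abs_nonneg _).trans (hga 0)
  obtain ⟨Ξ, x1, x2, x3, x4, x5⟩ := hXi L q T g a c hL0 hq hg hga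
  obtain ⟨m1, m2⟩ := hinv L Y hL hY hρ
  obtain ⟨w, hw⟩ : ∃ w : Tor d → ℝ, w = fun x => (dens Y x)⁻¹ := ⟨_, rfl⟩
  rw [← hw] at m1 m2
  have hw1 : ∀ x, w x * dens Y x = 1 := by
    intro x
    have : 0 < dens Y x := lt_of_lt_of_le (by have := sig0_pos d; positivity) (hρ x)
    rw [hw]
    exact inv_mul_cancel₀ this.ne'
  have cg : C1 L g := hg.c1_real
  have cΞ : ∀ r, C1 L (Ξ r) := fun r => (x1 r).c1_real
  have cj : C1 L fun x => g x - Jr L q g x := SJb_subC1 hL0 hq cg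
  have G0 := Gr_nonneg (L := L) g
  have hdv : dv L (fun r x => lam * (w x * Ξ r x)) = fun x =>
      lam * (∑ r, pd L r w x * Ξ r x + w x * (g x - Jr L q g x)) := by
    funext x
    rw [← x2 x]
    unfold dv
    rw [Finset.mul_sum, ← Finset.sum_add_distrib, Finset.mul_sum]
    refine Finset.sum_congr rfl fun r _ => ?_
    rw [pd_const_mul lam (m1.1.mul (cΞ r)), pd_mul m1.1 (cΞ r)]
  have cs : C1 L fun x => ∑ r, pd L r w x * Ξ r x := C1.sum _ fun r _ => (m2 r).1.mul (cΞ r)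
  have aq : a ≤ a / q := by rw [le_div_iff₀ q0]; nlinarith
  have aq0 : 0 ≤ a / q := by positivity
  have bΞ : ∀ (b : Tor d → ℝ), SVf_M L b K → ∀ r x, |b x * Ξ r x| ≤ K * C0 * (a / q) := by
    intro b hb r x
    rw [abs_mul, mul_assoc, ← mul_div_assoc]
    exact mul_le_mul (hb.2.2.1 x) (x3 r x) (abs_nonneg _) hK
  have fin : ∀ z : ℝ, |z| ≤ C1' * (a / q) → |lam * z| ≤ (1 + C1' + C2) * lam * a / q := by
    intro z hz
    rw [abs_mul, abs_of_nonneg hlam, mul_div_assoc, mul_comm _ lam, mul_assoc]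
    refine mul_le_mul_of_nonneg_left (hz.trans ?_) hlam
    gcongr
    linarith
  have q24 : 1 / q ^ 2 ≤ 1 / q ^ 4 :=
    one_div_le_one_div_of_le (by positivity) (pow_le_pow_of_le_one q0.le hq1 (by norm_num))
  have q04 : 1 ≤ 1 / q ^ 4 := by
    rw [le_div_iff₀ (by positivity), one_mul]
    exact pow_le_one₀ q0.le hq1
  obtain ⟨H, hH⟩ : ∃ H : ℝ, H = 1 / q ^ 4 * Gr L g := ⟨_, rfl⟩
  have H0 : 0 ≤ H := by rw [hH]; positivity
  have H2 : 1 / q ^ 2 * Gr L g ≤ H := by rw [hH]; gcongr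
  have H1 : Gr L g ≤ H := by rw [hH]; nlinarith
  have nΞ : ∀ r, SVf_N L (Ξ r) ≤ 2 * C0 * H := by
    intro r
    have e1 : C0 / q ^ 4 * Gr L g = C0 * H := by rw [hH]; ring
    have e2 : C0 / q ^ 2 * Gr L g = C0 * (1 / q ^ 2 * Gr L g) := by ring
    have e3 := mul_le_mul_of_nonneg_left H2 hC0.le
    have := x4 r
    have := x5 r
    unfold SVf_N
    linarith
  have nj : SVf_N L (fun x => g x - Jr L q g x) ≤ 25 * H := by
    have e1 := l2_sub_Jr hL0 hq cg
    have e2 := (Gr_sub_Jr_le_GG hL0 hq cg).trans (GG_sub_Jr_le hL0 hq cg)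
    have e3 : 24 / q ^ 2 * Gr L g = 24 * (1 / q ^ 2 * Gr L g) := by ring
    unfold SVf_N
    linarith
  have nb : ∀ (b : Tor d → ℝ), SVf_M L b K → ∀ r,
      SVf_N L (fun x => b x * Ξ r x) ≤ M * (2 * C0) * H := by
    intro b hb r
    have e1 := SVf_N_mul hb (cΞ r)
    rw [← hM] at e1
    have e2 := mul_le_mul_of_nonneg_left (nΞ r) M0
    linarith
  refine ⟨fun r x => lam * (w x * Ξ r x), ⟨fun r => (m1.1.mul (cΞ r)).const_mul lam, ?_,
    fun r x => fin _ ((bΞ w m1 r x).trans ?_), fun x => ?_⟩, ?_, fun x => ?_⟩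
  · rw [hdv]
    exact (cs.add (m1.1.mul cj)).const_mul lam
  · refine mul_le_mul_of_nonneg_right ?_ aq0
    rw [hC1]
    have : 0 ≤ d * (K * C0) := by positivity
    linarith
  · rw [hdv]
    refine fin _ ((abs_add_le _ _).trans ?_)
    have e1 : |∑ r, pd L r w x * Ξ r x| ≤ d * (K * C0 * (a / q)) := by
      refine (Finset.abs_sum_le_sum_abs _ _).trans
        ((Finset.sum_le_sum fun r _ => bΞ _ (m2 r) r x).trans ?_)
      simp
    have e2 : |g x - Jr L q g x| ≤ 2 * (a / q) := by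
      have h1 := hga x
      have h2 := abs_Jr_sub_le hL0 hq cg.cont hga x
      have h3 := abs_sub_le (g x) c (Jr L q g x)
      rw [abs_sub_comm c] at h3
      linarith
    have e3 : |w x * (g x - Jr L q g x)| ≤ K * (2 * (a / q)) := by
      rw [abs_mul]
      exact mul_le_mul (m1.2.2.1 x) e2 (abs_nonneg _) hK
    have e4 : 0 ≤ K * C0 * (a / q) := by positivity
    rw [hC1]
    linarith
  · have e0 : Gx L (fun r x => lam * (w x * Ξ r x)) =
        ∑ r, SVf_N L (fun x => lam * (w x * Ξ r x)) +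
          SVf_N L (dv L fun r x => lam * (w x * Ξ r x)) := by
      unfold Gx SVf_N
      ring
    have e1 : ∑ r, SVf_N L (fun x => lam * (w x * Ξ r x)) ≤
        d * (lam ^ 2 * (M * (2 * C0) * H)) := by
      refine (Finset.sum_le_sum (g := fun _ => lam ^ 2 * (M * (2 * C0) * H)) fun r _ => ?_).trans
        (by simp)
      rw [SVf_N_smul lam (m1.1.mul (cΞ r))]
      exact mul_le_mul_of_nonneg_left (nb w m1 r) (sq_nonneg _)
    have e2 := SVf_N_sum Finset.univ (fun r => (m2 r).1.mul (cΞ r)) (by positivity)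
      fun r => nb _ (m2 r) r
    rw [Finset.card_univ, Fintype.card_fin] at e2
    have e3 := SVf_N_mul m1 cj
    rw [← hM] at e3
    have e4 := mul_le_mul_of_nonneg_left nj M0
    have e5 := SVf_N_add cs (m1.1.mul cj)
    have e6 : SVf_N L (fun x => ∑ r, pd L r w x * Ξ r x + w x * (g x - Jr L q g x)) ≤
        (2 * (4 ^ d * (M * (2 * C0))) + 2 * (M * 25)) * H := by linarith
    have e7 := mul_le_mul_of_nonneg_left e6 (sq_nonneg lam)
    have e8 : (1 + C1' + C2) * lam ^ 2 / q ^ 4 * Gr L g = (1 + C1' + C2) * (lam ^ 2 * H) := by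
      rw [hH]; ring
    have e9 : 0 ≤ (1 + C1') * (lam ^ 2 * H) := by positivity
    rw [e0, hdv, SVf_N_smul lam (cs.add (m1.1.mul cj)), e8, hC2]
    linarith
  · have e : (fun r y => lam * (w y * Ξ r y) * dens Y y) = fun r y => lam * Ξ r y := by
      funext r y
      linear_combination (lam * Ξ r y) * hw1 y
    rw [e, ← x2 x]
    unfold dv
    rw [Finset.mul_sum]
    exact Finset.sum_congr rfl fun r _ => pd_const_mul lam (cΞ r) r x

end Pool.Agent.Lib.MP_ae5e3b_mp.Sh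
end

-- part Pool.Agent.Lib.MP_ae5e3b_mp.SIa
section

open MeasureTheory Matrix Real
open scoped ComplexConjugate ComplexOrder

set_option linter.unusedSectionVars false

namespace Pool.Agent.Lib.MP_ae5e3b_mp.Sh

variable {d : ℕ} {L : ℝ} {w w' ρ ρ' : Tor d → ℝ} {E E' : ℝ}

lemma SIa_int {φ : Tor d → ℂ} (hφ : MemLp φ 2 volume) (hw : Continuous w) :
    Integrable fun x => w x * ‖φ x‖ ^ 2 := by
  obtain ⟨M, hM⟩ := isCompact_univ.exists_bound_of_continuousOn hw.continuousOn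
  have h1 : Integrable fun x => ‖φ x‖ ^ 2 := (memLp_two_iff_integrable_sq_norm hφ.1).1 hφ
  exact h1.bdd_mul hw.aestronglyMeasurable
    (Filter.Eventually.of_forall fun x => hM x (Set.mem_univ x))

lemma SIa_pair (c : ℝ) (v φ : Tor d → ℂ) :
    ∫ x, conj ((c : ℂ) * v x) * φ x = (c : ℂ) * ∫ x, conj (v x) * φ x := by
  rw [← integral_const_mul]
  congr 1
  funext x
  rw [map_mul, Complex.conj_ofReal, mul_assoc]

lemma SIa_nsq {c : ℝ} (hc : 0 ≤ c) (z : ℂ) : ‖((√c : ℝ) : ℂ) * z‖ ^ 2 = c * ‖z‖ ^ 2 := by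
  rw [norm_mul, mul_pow, Complex.norm_real, Real.norm_eq_abs, sq_abs, Real.sq_sqrt hc]

lemma SIa_cont {ι : Type} [Fintype ι] {v : ι → Tor d → ℂ} (hv : ∀ a, C1 L (v a)) :
    Continuous fun x => ∑ r, ∑ a, ‖pd L r (v a) x‖ ^ 2 :=
  continuous_finsetSum _ fun r _ => continuous_finsetSum _ fun a _ => ((hv a).cpd r).norm.pow 2

lemma SIa_Gr_sum {ι : Type} [Fintype ι] {v : ι → Tor d → ℂ} (hv : ∀ a, C1 L (v a)) :
    ∑ a, Gr L (v a) = ∫ x, ∑ r, ∑ a, ‖pd L r (v a) x‖ ^ 2 := by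
  unfold Gr
  rw [Finset.sum_comm, integral_finsetSum (f := fun r x => ∑ a, ‖pd L r (v a) x‖ ^ 2) _ fun r _ =>
    cont_int (continuous_finsetSum _ fun a _ => ((hv a).cpd r).norm.pow 2)]
  exact Finset.sum_congr rfl fun r _ => (integral_finsetSum _ fun a _ => STc_int (hv a) r).symm

lemma SIa_Gr_real {g : Tor d → ℝ} (hg : C1 L g) : Gr L g = ∫ x, ∑ r, pd L r g x ^ 2 := by
  rw [Gr_real, integral_finsetSum (f := fun r x => pd L r g x ^ 2) _ fun r _ =>
    cont_int ((hg.cpd r).pow 2)]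

lemma SIa_re (z : ℂ) : (conj z * z).re = ‖z‖ ^ 2 := by
  rw [Complex.conj_mul', ← Complex.ofReal_pow, Complex.ofReal_re]

lemma SIa_Bf {ι : Type} [Fintype ι] {v : ι → Tor d → ℂ} (hv : ∀ a, C1 L (v a)) {b U : Tor d → ℝ}
    (hb : Continuous b) (hU : Continuous U) :
    Bf L b U v v =
      ∫ x, b x * (∑ r, ∑ a, ‖pd L r (v a) x‖ ^ 2 + U x * ∑ a, ‖v a x‖ ^ 2) := by
  unfold Bf
  have e : ∀ a x, (∑ r, conj (pd L r (v a) x) * pd L r (v a) x +
      (U x : ℂ) * (conj (v a x) * v a x)).re =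
      ∑ r, ‖pd L r (v a) x‖ ^ 2 + U x * ‖v a x‖ ^ 2 := by
    intro a x
    rw [Complex.add_re, Complex.re_sum, Complex.re_ofReal_mul, SIa_re]
    simp only [SIa_re]
  simp only [e]
  rw [← integral_finsetSum
    (f := fun a x => b x * (∑ r, ‖pd L r (v a) x‖ ^ 2 + U x * ‖v a x‖ ^ 2)) _ fun a _ => cont_int (hb.mul
    ((continuous_finsetSum _ fun r _ => ((hv a).cpd r).norm.pow 2).add
      (hU.mul ((hv a).cont.norm.pow 2))))]
  congr 1
  funext x
  rw [← Finset.mul_sum, Finset.sum_add_distrib, ← Finset.mul_sum, Finset.sum_comm]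

lemma TFam.mono (h : TFam L w ρ E) (hE : E ≤ E') : TFam L w ρ E' := by
  obtain ⟨ι, _, v, h1, h2, h3, h4⟩ := h
  exact ⟨ι, inferInstance, v, h1, h2, h3, h4.trans hE⟩

lemma TFam.congr (h : TFam L w ρ E) (hw : ∀ x, w x = w' x) (hρ : ∀ x, ρ x = ρ' x) :
    TFam L w' ρ' E := by
  obtain rfl : w = w' := funext hw
  obtain rfl : ρ = ρ' := funext hρ
  exact h

lemma TFam.add (hw : Continuous w) (hw' : Continuous w') (h : TFam L w ρ E) (h' : TFam L w' ρ' E') :
    TFam L (fun x => w x + w' x) (fun x => ρ x + ρ' x) (E + E') := by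
  obtain ⟨ι, _, v, h1, h2, h3, h4⟩ := h
  obtain ⟨ι', _, v', h1', h2', h3', h4'⟩ := h'
  refine ⟨ι ⊕ ι', inferInstance, Sum.elim v v', ?_, fun φ hφ => ?_, fun x => ?_, ?_⟩
  · rintro (i | i)
    · exact h1 i
    · exact h1' i
  · simp only [Fintype.sum_sum_type, Sum.elim_inl, Sum.elim_inr, add_mul]
    rw [integral_add (SIa_int hφ hw) (SIa_int hφ hw'), mul_add]
    exact add_le_add (h2 φ hφ) (h2' φ hφ)
  · simp only [Fintype.sum_sum_type, Sum.elim_inl, Sum.elim_inr, h3, h3']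
  · simp only [Fintype.sum_sum_type, Sum.elim_inl, Sum.elim_inr]
    exact add_le_add h4 h4'

lemma TFam.smul {c : ℝ} (hc : 0 ≤ c) (h : TFam L w ρ E) :
    TFam L (fun x => c * w x) (fun x => c * ρ x) (c * E) := by
  obtain ⟨ι, _, v, h1, h2, h3, h4⟩ := h
  refine ⟨ι, inferInstance, fun i x => ((√c : ℝ) : ℂ) * v i x, fun i => (h1 i).const_mul _,
    fun φ hφ => ?_, fun x => ?_, ?_⟩
  · simp only [SIa_pair, mul_left_comm ((L ^ d : ℝ) : ℂ), SIa_nsq hc, mul_assoc c]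
    rw [← Finset.mul_sum, integral_const_mul, mul_left_comm]
    exact mul_le_mul_of_nonneg_left (h2 φ hφ) hc
  · simp only [SIa_nsq hc]
    rw [← Finset.mul_sum, h3]
  · simp only [Gr_const_mul _ (h1 _), Complex.norm_real, Real.norm_eq_abs, sq_abs, Real.sq_sqrt hc]
    rw [← Finset.mul_sum]
    exact mul_le_mul_of_nonneg_left h4 hc

lemma TFam.scale {k : ℝ} (hk : 0 < k) (hL : 0 < L) (h : TFam (k * L) w ρ E) :
    TFam L w (fun x => k ^ d * ρ x) (k ^ (d + 2) * E) := by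
  have _hL := hL
  obtain ⟨ι, _, v, h1, h2, h3, h4⟩ := h
  have hK : 0 < k ^ d := pow_pos hk d
  have h1' : ∀ i, C1 L (v i) := fun i => by
    have := (h1 i).scale (inv_pos.2 hk)
    rwa [← mul_assoc, inv_mul_cancel₀ hk.ne', one_mul] at this
  refine ⟨ι, inferInstance, fun i x => ((√(k ^ d) : ℝ) : ℂ) * v i x, fun i => (h1' i).const_mul _,
    fun φ hφ => ?_, fun x => ?_, ?_⟩
  · have h5 := h2 φ hφ
    have e : ∀ z : ℂ, ‖(((k * L) ^ d : ℝ) : ℂ) * z‖ ^ 2 =
        k ^ d * (k ^ d * ‖((L ^ d : ℝ) : ℂ) * z‖ ^ 2) := by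
      intro z
      rw [mul_pow, Complex.ofReal_mul, mul_assoc, norm_mul, mul_pow, Complex.norm_real,
        Real.norm_eq_abs, sq_abs]
      ring
    simp only [e] at h5
    rw [← Finset.mul_sum, mul_pow, mul_assoc] at h5
    simp only [SIa_pair, mul_left_comm ((L ^ d : ℝ) : ℂ), SIa_nsq hK.le]
    exact le_of_mul_le_mul_left h5 hK
  · simp only [SIa_nsq hK.le]
    rw [← Finset.mul_sum, h3]
  · simp only [Gr_const_mul _ (h1' _), Complex.norm_real, Real.norm_eq_abs, sq_abs,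
      Real.sq_sqrt hK.le]
    simp only [Gr_scale hk (h1' _)] at h4
    rw [← Finset.sum_div, div_le_iff₀ (pow_pos hk 2)] at h4
    rw [← Finset.mul_sum, pow_add, mul_assoc, mul_comm (k ^ 2)]
    exact mul_le_mul_of_nonneg_left h4 hK.le

lemma Bf_pot {ι : Type} [Fintype ι] {v : ι → Tor d → ℂ} (hv : ∀ a, C1 L (v a)) {b U : Tor d → ℝ}
    (hb : Continuous b) (hU : Continuous U) (hρ : ∀ x, ∑ a, ‖v a x‖ ^ 2 = ρ x) :
    Bf L b (fun _ => 0) v v = Bf L b U v v - ∫ x, b x * (U x * ρ x) := by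
  have hρc : Continuous ρ := by
    obtain rfl : (fun x => ∑ a, ‖v a x‖ ^ 2) = ρ := funext hρ
    exact continuous_finsetSum _ fun a _ => (hv a).cont.norm.pow 2
  rw [SIa_Bf hv hb hU, SIa_Bf hv hb continuous_const]
  simp only [hρ, zero_mul, add_zero, mul_add]
  have i1 : Integrable fun x => b x * ∑ r, ∑ a, ‖pd L r (v a) x‖ ^ 2 :=
    cont_int (hb.mul (SIa_cont hv))
  have i2 : Integrable fun x => b x * (U x * ρ x) := cont_int (hb.mul (hU.mul hρc))
  rw [integral_add i1 i2]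
  ring

lemma SIa_expand (s t : ℝ) (z y : ℂ) :
    ‖(s : ℂ) * z + (t : ℂ) * y‖ ^ 2 =
      s ^ 2 * ‖z‖ ^ 2 + t ^ 2 * ‖y‖ ^ 2 + s * t * (2 * (conj z * y).re) := by
  simp only [Complex.sq_norm, Complex.normSq_apply, Complex.add_re, Complex.add_im,
    Complex.mul_re, Complex.mul_im, Complex.ofReal_re, Complex.ofReal_im, Complex.conj_re,
    Complex.conj_im]
  ring

/-- Localisation of a family with the Bessel inequality. -/
lemma TFam.of_bes {ι : Type} [Fintype ι] (hL : 0 < L) {v : ι → Tor d → ℂ} (hv : ∀ a, C1 L (v a))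
    (hB : Bes L v) (hρ : ∀ x, ∑ a, ‖v a x‖ ^ 2 = ρ x) {c : ℝ} (hc : ∀ x, ρ x ≤ c) {χ : Tor d → ℝ}
    (hχ : C1 L χ) (h1 : ∀ x, |χ x| ≤ 1) :
    TFam L (fun x => χ x ^ 2) (fun x => χ x ^ 2 * ρ x)
      (Bf L (fun x => χ x ^ 2) (fun _ => 0) v v + (c + 1) * Gr L χ + Gr L ρ) := by
  have hD : 0 < L ^ d := pow_pos hL d
  obtain rfl : (fun x => ∑ a, ‖v a x‖ ^ 2) = ρ := funext hρ
  have hρ1 : C1 L fun x => ∑ a, ‖v a x‖ ^ 2 := C1.sum _ fun a _ => (hv a).normsq
  have hv' : ∀ a, C1 L fun x => cx χ x * v a x := fun a => hχ.cx.mul (hv a)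
  refine ⟨ι, inferInstance, fun a x => cx χ x * v a x, hv', fun φ hφ => ?_, fun x => ?_, ?_⟩
  · have hφ' : MemLp (fun x => cx χ x * φ x) 2 volume := by
      refine hφ.of_le ((continuous_cx hχ.cont).aestronglyMeasurable.mul hφ.1)
        (Filter.Eventually.of_forall fun x => ?_)
      rw [norm_mul, cx, Complex.norm_real, Real.norm_eq_abs]
      exact mul_le_of_le_one_left (norm_nonneg _) (h1 x)
    have h2 := dual_of_primal (μ := (volume : Measure (Tor d))) (v := v) (θ := (L ^ d)⁻¹)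
      (fun a => cont_memLp (hv a).cont) (inv_pos.2 hD).le
      (fun c => by rw [le_inv_mul_iff₀ hD]; exact hB c) hφ'
    have e1 : ∀ a x, conj (cx χ x * v a x) * φ x = conj (v a x) * (cx χ x * φ x) := by
      intro a x
      rw [map_mul, cx, Complex.conj_ofReal]
      ring
    have e2 : ∀ x, ‖cx χ x * φ x‖ ^ 2 = χ x ^ 2 * ‖φ x‖ ^ 2 := by
      intro x
      rw [norm_mul, mul_pow, cx, Complex.norm_real, Real.norm_eq_abs, sq_abs]
    simp only [e2] at h2
    simp only [e1, norm_mul, mul_pow, Complex.norm_real, Real.norm_eq_abs, sq_abs]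
    rw [← Finset.mul_sum, sq, mul_assoc]
    rw [le_inv_mul_iff₀ hD] at h2
    exact mul_le_mul_of_nonneg_left h2 hD.le
  · simp only [norm_mul, mul_pow, cx, Complex.norm_real, Real.norm_eq_abs, sq_abs]
    rw [← Finset.mul_sum]
  · have c1 : Continuous fun x => χ x ^ 2 := hχ.cont.pow 2
    have c2 : Continuous fun x => ∑ r, pd L r χ x ^ 2 :=
      continuous_finsetSum _ fun r _ => (hχ.cpd r).pow 2
    have c3 : Continuous fun x => ∑ r, pd L r (fun x => ∑ a, ‖v a x‖ ^ 2) x ^ 2 :=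
      continuous_finsetSum _ fun r _ => (hρ1.cpd r).pow 2
    have i1 : Integrable fun x => χ x ^ 2 * ∑ r, ∑ a, ‖pd L r (v a) x‖ ^ 2 :=
      cont_int (c1.mul (SIa_cont hv))
    have i2 := (cont_int c2).const_mul (c + 1)
    have i3 := cont_int c3
    have i4 : Integrable fun x => χ x ^ 2 * ∑ r, ∑ a, ‖pd L r (v a) x‖ ^ 2 +
        (c + 1) * ∑ r, pd L r χ x ^ 2 := i1.add i2
    rw [SIa_Gr_sum hv', SIa_Bf hv c1 continuous_const, SIa_Gr_real hχ, SIa_Gr_real hρ1,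
      ← integral_const_mul]
    simp only [zero_mul, add_zero]
    rw [← integral_add i1 i2, ← integral_add i4 i3]
    refine integral_mono (cont_int (SIa_cont hv')) (i4.add i3) fun x => ?_
    simp only [Finset.mul_sum _ _ (c + 1), Finset.mul_sum Finset.univ
      (fun r => ∑ a, ‖pd L r (v a) x‖ ^ 2), ← Finset.sum_add_distrib]
    refine Finset.sum_le_sum fun r _ => ?_
    have e : ∀ a, ‖pd L r (fun x => cx χ x * v a x) x‖ ^ 2 =
        pd L r χ x ^ 2 * ‖v a x‖ ^ 2 + χ x ^ 2 * ‖pd L r (v a) x‖ ^ 2 +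
          pd L r χ x * χ x * (2 * (conj (v a x) * pd L r (v a) x).re) := by
      intro a
      rw [pd_mul hχ.cx (hv a), pd_cx hχ]
      exact SIa_expand _ _ _ _
    have e' : pd L r (fun x => ∑ a, ‖v a x‖ ^ 2) x =
        ∑ a, 2 * (conj (v a x) * pd L r (v a) x).re := by
      rw [pd_sum _ fun a _ => (hv a).normsq]
      exact Finset.sum_congr rfl fun a _ => pd_normsq (hv a) r x
    simp only [e, Finset.sum_add_distrib, ← Finset.mul_sum _ _ (pd L r χ x ^ 2),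
      ← Finset.mul_sum _ _ (χ x ^ 2), ← Finset.mul_sum _ _ (pd L r χ x * χ x)]
    rw [← e']
    generalize pd L r (fun x => ∑ a, ‖v a x‖ ^ 2) x = q
    have h3 := mul_le_mul_of_nonneg_left (hc x) (sq_nonneg (pd L r χ x))
    have h4 : χ x ^ 2 ≤ 1 := (sq_le_one_iff_abs_le_one _).2 (h1 x)
    have h5 := mul_le_mul_of_nonneg_left h4 (sq_nonneg q)
    nlinarith [sq_nonneg (pd L r χ x - χ x * q), sq_nonneg (pd L r χ x), sq_nonneg q]

lemma SIa_nonneg {η s t : ℝ} (hη : η ≤ 1) (hs : 0 < s) (h : |t - s| ≤ η * s) : 0 ≤ t := by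
  have h1 := (abs_le.1 h).1
  nlinarith

lemma PS.mono {η C₁ C₂ e k C₁' C₂' e' : ℝ} (hk : 0 < k) (hη : η ≤ 1) (h : PS d η C₁ C₂ e k)
    (h1 : C₁ ≤ C₁') (h2 : C₂ ≤ C₂') (h3 : e ≤ e') : PS d η C₁' C₂' e' k := by
  intro ε hε
  obtain ⟨L₀, h0, H⟩ := h ε hε
  refine ⟨L₀, h0, fun L hL σ χ hσ hχ hb h1' => (H L hL σ χ hσ hχ hb h1').mono ?_⟩
  have hK : 0 < k ^ d := pow_pos hk d
  have g1 : 0 ≤ ∫ x, χ x ^ 2 * TF d (σ x) := integral_nonneg fun x =>
    mul_nonneg (sq_nonneg _) (TF_nonneg (SIa_nonneg hη (mul_pos (sig0_pos d) hK) (hb x)))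
  have g2 := Gr_nonneg (L := L) σ
  have g3 := Gr_nonneg (L := L) χ
  gcongr

lemma PS.scale (hd : 0 < d) {η C₁ C₂ e k : ℝ} (hη : η ≤ 1) (hk : 0 < k) (h : PS d η C₁ C₂ e 1) :
    PS d η C₁ C₂ e k := by
  intro ε hε
  have hK : 0 < k ^ d := pow_pos hk d
  obtain ⟨L₀, h0, H⟩ := h (ε / k ^ (d + 2)) (by positivity)
  refine ⟨L₀ / k, by positivity, fun L hL σ χ hσ hχ hb h1 => ?_⟩
  have hL0 : 0 < L := lt_of_lt_of_le (by positivity) hL
  have hL' : L₀ ≤ k * L := by rwa [div_le_iff₀ hk, mul_comm] at hL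
  have hσ0 : ∀ x, 0 ≤ σ x := fun x => SIa_nonneg hη (mul_pos (sig0_pos d) hK) (hb x)
  have hσ' : C1 L fun x => (k ^ d)⁻¹ * σ x := hσ.const_mul _
  have hb' : ∀ x, |(k ^ d)⁻¹ * σ x - sig0 d * 1 ^ d| ≤ η * (sig0 d * 1 ^ d) := by
    intro x
    have e : (k ^ d)⁻¹ * σ x - sig0 d * 1 ^ d = (k ^ d)⁻¹ * (σ x - sig0 d * k ^ d) := by
      rw [one_pow]; field_simp
    rw [e, abs_mul, abs_of_pos (inv_pos.2 hK), inv_mul_le_iff₀ hK, one_pow]
    refine (hb x).trans (le_of_eq ?_)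
    ring
  have H1 := (H (k * L) hL' _ χ (hσ'.scale hk) (hχ.scale hk) hb' h1).scale hk hL0
  refine (H1.congr (fun _ => rfl) fun x => ?_).mono (le_of_eq ?_)
  · field_simp
  · have e1 : ∫ x, χ x ^ 2 * TF d (σ x) =
        k ^ (d + 2) * ∫ x, χ x ^ 2 * TF d ((k ^ d)⁻¹ * σ x) := by
      rw [← integral_const_mul]
      congr 1
      funext x
      rw [mul_left_comm, ← TF_scale hd hk (mul_nonneg (inv_pos.2 hK).le (hσ0 x)), ← mul_assoc,
        mul_inv_cancel₀ hK.ne', one_mul]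
    rw [e1, Gr_scale hk hσ', Gr_scale hk hχ, Gr_const_mul _ hσ, Real.norm_eq_abs, sq_abs, one_pow,
      pow_add]
    field_simp

lemma SIa_wave {p a a' : ℝ} (hp : |p| ≤ 16) {z : ℂ} (hz : ‖z‖ = 1) :
    ‖(a' : ℂ) * z + (a : ℂ) * (Complex.I * (p : ℂ) * z)‖ ^ 2 ≤ a' ^ 2 + 256 * a ^ 2 := by
  have e : (a' : ℂ) * z + (a : ℂ) * (Complex.I * (p : ℂ) * z) =
      ((a' : ℂ) + ((a * p : ℝ) : ℂ) * Complex.I) * z := by
    push_cast; ring
  rw [e, norm_mul, hz, mul_one, Complex.sq_norm, Complex.normSq_add_mul_I]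
  have h1 : p ^ 2 ≤ 16 ^ 2 := by
    rw [← sq_abs p]; exact pow_le_pow_left₀ (abs_nonneg _) hp 2
  nlinarith [sq_nonneg a]

/-- The starting point of the iteration: plane waves times an amplitude. -/
theorem ps_base (hd : 0 < d) : ∃ C e : ℝ, 0 < C ∧ 0 < e ∧ ∀ η : ℝ, η ≤ 1 / 2 → PS d η C C e 1 := by
  obtain ⟨T, hT1, hT, -⟩ := TF_bounds hd
  have s0 := sig0_pos d
  have s1 := sig0_le d
  have hd' : (0 : ℝ) < d := Nat.cast_pos.2 hd
  refine ⟨(sig0 d)⁻¹ + 3, 512 * d * T, by positivity, by positivity, fun η hη ε hε =>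
    ⟨4 * π, by positivity, fun L hL σ χ hσ hχ hb h1 => ?_⟩⟩
  have hL' : Big L := hL
  have hp := hL'.pos
  have hD : 0 < L ^ d := pow_pos hp d
  have hlo : ∀ x, sig0 d / 2 ≤ σ x := fun x => by
    have := (abs_le.1 (hb x)).1
    rw [one_pow, mul_one] at this
    nlinarith
  have hhi : ∀ x, σ x ≤ 2 * sig0 d := fun x => by
    have := (abs_le.1 (hb x)).2
    rw [one_pow, mul_one] at this
    nlinarith
  have hpos : ∀ x, 0 < σ x := fun x => lt_of_lt_of_le (by positivity) (hlo x)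
  obtain ⟨N, hN⟩ : ∃ N : ℝ, N = Fintype.card (Ix d L) := ⟨_, rfl⟩
  have hNl : 2 * sig0 d * L ^ d ≤ N := hN ▸ le_card hd hL'
  have hN0 : 0 < N := lt_of_lt_of_le (by positivity) hNl
  obtain ⟨ha, ha'⟩ := hσ.comp (F := fun t => √(N⁻¹ * t)) (F' := fun t => N⁻¹ / (2 * √(N⁻¹ * t)))
    (s := Set.Ioi 0) isOpen_Ioi hpos
    (fun t ht => by
      have ht' : 0 < t := ht
      simpa using ((hasDerivAt_id t).const_mul N⁻¹).sqrt (by positivity))
    (continuousOn_const.div (by fun_prop) fun t ht => by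
      have ht' : 0 < t := ht
      positivity)
  obtain ⟨a, hadef⟩ : ∃ a : Tor d → ℝ, a = fun x => √(N⁻¹ * σ x) := ⟨_, rfl⟩
  rw [← hadef] at ha ha'
  have ha2 : ∀ x, a x ^ 2 = N⁻¹ * σ x := fun x => by
    rw [hadef]; exact Real.sq_sqrt (mul_pos (inv_pos.2 hN0) (hpos x)).le
  have ha3 : ∀ r x, N * pd L r a x ^ 2 ≤ (sig0 d)⁻¹ * pd L r σ x ^ 2 := by
    intro r x
    have h2 := hpos x
    rw [ha', mul_pow, div_pow, mul_pow, Real.sq_sqrt (by positivity), ← mul_assoc]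
    refine mul_le_mul_of_nonneg_right ?_ (sq_nonneg _)
    have e : N * (N⁻¹ ^ 2 / (2 ^ 2 * (N⁻¹ * σ x))) = (4 * σ x)⁻¹ := by
      field_simp; norm_num
    rw [e]
    exact inv_anti₀ s0 (by linarith [hlo x])
  have hv : ∀ i : Ix d L, C1 L fun x => cx a x * ch (nu i) x := fun i => ha.cx.mul (C1.ch _)
  have hB : Bes L fun (i : Ix d L) x => cx a x * ch (nu i) x := by
    intro c
    have e : ∀ x, ‖∑ i, c i * (cx a x * ch (nu i) x)‖ ^ 2 = a x ^ 2 * ‖fn c x‖ ^ 2 := by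
      intro x
      simp only [mul_left_comm (c _)]
      rw [← Finset.mul_sum, norm_mul, mul_pow, cx, Complex.norm_real, Real.norm_eq_abs, sq_abs, fn]
    have e2 : ∑ i, ‖c i‖ ^ 2 = ∫ x, ‖fn c x‖ ^ 2 := by
      rw [fn_l2, vn, Real.sq_sqrt (by positivity)]
    simp only [e]
    rw [e2, ← integral_const_mul]
    refine integral_mono_of_nonneg (Filter.Eventually.of_forall fun x => by positivity)
      (cont_int ((fn_cont c).norm.pow 2)) (Filter.Eventually.of_forall fun x => ?_)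
    have h2 : L ^ d * a x ^ 2 ≤ 1 := by
      rw [ha2, mul_left_comm, inv_mul_le_iff₀ hN0, mul_one]
      nlinarith [hhi x]
    simp only [← mul_assoc]
    exact mul_le_of_le_one_left (sq_nonneg _) h2
  have hρ : ∀ x, ∑ i : Ix d L, ‖cx a x * ch (nu i) x‖ ^ 2 = σ x := by
    intro x
    simp only [norm_mul, norm_ch, mul_one, cx, Complex.norm_real, Real.norm_eq_abs, sq_abs, ha2,
      Finset.sum_const, Finset.card_univ, nsmul_eq_mul, ← hN]
    field_simp
  refine (TFam.of_bes hp hv hB hρ (c := 2) (fun x => by linarith [hhi x]) hχ h1).mono ?_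
  have c1 : Continuous fun x => χ x ^ 2 := hχ.cont.pow 2
  have c2 : Continuous fun x => χ x ^ 2 * TF d (σ x) := c1.mul (TF_cont.comp hσ.cont)
  have c3 : Continuous fun x => ∑ r, pd L r σ x ^ 2 :=
    continuous_finsetSum _ fun r _ => (hσ.cpd r).pow 2
  have key : Bf L (fun x => χ x ^ 2) (fun _ => 0) (fun (i : Ix d L) x => cx a x * ch (nu i) x)
      (fun i x => cx a x * ch (nu i) x) ≤
      512 * d * T * (∫ x, χ x ^ 2 * TF d (σ x)) + (sig0 d)⁻¹ * Gr L σ := by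
    have i1 := (cont_int c2).const_mul (512 * d * T)
    have i2 := (cont_int c3).const_mul (sig0 d)⁻¹
    rw [SIa_Bf hv c1 continuous_const, SIa_Gr_real hσ, ← integral_const_mul, ← integral_const_mul,
      ← integral_add i1 i2]
    simp only [zero_mul, add_zero]
    refine integral_mono (cont_int (c1.mul (SIa_cont hv))) (i1.add i2) fun x => ?_
    have h2 : ∀ r, ∑ i : Ix d L, ‖pd L r (fun x => cx a x * ch (nu i) x) x‖ ^ 2 ≤
        (sig0 d)⁻¹ * pd L r σ x ^ 2 + 512 := by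
      intro r
      have h3 : ∀ i : Ix d L, ‖pd L r (fun x => cx a x * ch (nu i) x) x‖ ^ 2 ≤
          pd L r a x ^ 2 + 256 * a x ^ 2 := by
        intro i
        rw [pd_mul ha.cx (C1.ch _), pd_cx ha, pd_ch]
        exact SIa_wave (abs_mom_le hL' i r) (norm_ch _ _)
      refine (Finset.sum_le_sum fun i _ => h3 i).trans ?_
      rw [Finset.sum_const, Finset.card_univ, nsmul_eq_mul, ← hN, mul_add, ha2]
      have e : N * (256 * (N⁻¹ * σ x)) = 256 * σ x := by field_simp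
      rw [e]
      linarith [ha3 r x, hhi x]
    have h4 : ∑ r, ∑ i : Ix d L, ‖pd L r (fun x => cx a x * ch (nu i) x) x‖ ^ 2 ≤
        (sig0 d)⁻¹ * ∑ r, pd L r σ x ^ 2 + 512 * d := by
      refine (Finset.sum_le_sum fun r _ => h2 r).trans (le_of_eq ?_)
      rw [Finset.sum_add_distrib, ← Finset.mul_sum, Finset.sum_const, Finset.card_univ,
        Fintype.card_fin, nsmul_eq_mul, mul_comm (d : ℝ)]
    have h5 : χ x ^ 2 ≤ 1 := (sq_le_one_iff_abs_le_one _).2 (h1 x)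
    have h6 : 0 ≤ (sig0 d)⁻¹ * ∑ r, pd L r σ x ^ 2 := by positivity
    have h7 := mul_le_mul_of_nonneg_left h4 (sq_nonneg (χ x))
    have h8 := mul_le_of_le_one_left h6 h5
    have h9 := mul_le_mul_of_nonneg_left (hT _ (hlo x))
      (by positivity : 0 ≤ χ x ^ 2 * (512 * (d : ℝ)))
    refine h7.trans ?_
    rw [mul_add]
    linarith
  have g1 : 0 ≤ ∫ x, χ x ^ 2 * TF d (σ x) := integral_nonneg fun x =>
    mul_nonneg (sq_nonneg _) (TF_nonneg (hpos x).le)
  have g2 := Gr_nonneg (L := L) σ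
  have g3 := mul_nonneg (inv_pos.2 s0).le (Gr_nonneg (L := L) χ)
  rw [one_pow, div_one, mul_one]
  linarith

end Pool.Agent.Lib.MP_ae5e3b_mp.Sh
end
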