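import Pool.Agent.Lib.MP_ae5e3b_mp.SFm
import Pool.Agent.Lib.MP_ae5e3b_mp.SDefs

open MeasureTheory Matrix Real
open scoped ComplexConjugate ComplexOrder

set_option linter.unusedSectionVars false

namespace Pool.Agent.Lib.MP_ae5e3b_mp.Sh

open Filter Topology
open scoped ContDiff Convolution

section Aux
variable {E : Type} [NormedAddCommGroup E] [NormedSpace ℝ E] [FiniteDimensional ℝ E]
  [MeasureSpace E] [BorelSpace E] [Measure.IsAddHaarMeasure (volume : Measure E)]

/-- Jensen's inequality with a density. -/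
lemma SMp_jensen {ρ : E → ℝ} (ρm : Measurable ρ) (ρ0 : ∀ y, 0 ≤ ρ y) (ρi : Integrable ρ)
    (ρ1 : ∫ y, ρ y = 1) {F : ℝ → ℝ} {s : Set ℝ} (hF : ConvexOn ℝ s F) (hc : ContinuousOn F s)
    (hs : IsClosed s) {f : E → ℝ} (hf : ∀ y, f y ∈ s) (hi : Integrable fun y => ρ y * f y)
    (hi2 : Integrable fun y => ρ y * F (f y)) :
    F (∫ y, ρ y * f y) ≤ ∫ y, ρ y * F (f y) := by
  let ρ' : E → NNReal := fun y => (ρ y).toNNReal
  have ρ'm : Measurable ρ' := ρm.real_toNNReal
  have hρ' : ∀ y, (ρ' y : ℝ) = ρ y := fun y => Real.coe_toNNReal _ (ρ0 y)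
  let μ : Measure E := volume.withDensity fun y => (ρ' y : ENNReal)
  have hμ : IsProbabilityMeasure μ := by
    constructor
    simp only [μ]
    rw [withDensity_apply _ MeasurableSet.univ, Measure.restrict_univ]
    have := ofReal_integral_eq_lintegral_ofReal ρi (Eventually.of_forall ρ0)
    rw [ρ1, ENNReal.ofReal_one] at this
    rw [this]; rfl
  have e1 : ∀ g : E → ℝ, ∫ y, g y ∂μ = ∫ y, ρ y * g y := by
    intro g
    simp only [μ]
    rw [integral_withDensity_eq_integral_smul ρ'm]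
    congr 1; ext y; rw [NNReal.smul_def, hρ', smul_eq_mul]
  have e2 : ∀ g : E → ℝ, (Integrable fun y => ρ y * g y) → Integrable g μ := by
    intro g hg
    simp only [μ]
    rw [integrable_withDensity_iff_integrable_smul ρ'm]
    refine hg.congr (Eventually.of_forall fun y => ?_)
    simp only
    rw [NNReal.smul_def, hρ', smul_eq_mul]
  have := hF.map_integral_le (μ := μ) hc hs (Eventually.of_forall hf) (e2 f hi)
    (e2 (F ∘ f) hi2)
  rw [e1, e1] at this
  exact this

/-- Jensen's inequality and Fubini's theorem. -/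
lemma SMp_jf {ρ : E → ℝ} (ρm : Measurable ρ) (ρ0 : ∀ y, 0 ≤ ρ y) (ρi : Integrable ρ)
    (ρ1 : ∫ y, ρ y = 1) {F : ℝ → ℝ} {s : Set ℝ} (hF : ConvexOn ℝ s F) (hc : ContinuousOn F s)
    (hs : IsClosed s) (Fm : Measurable F) (F0 : ∀ t, 0 ≤ F t) {f : E → E → ℝ}
    (fm : Measurable (Function.uncurry f)) (hf : ∀ x y, f x y ∈ s)
    (hi : ∀ x, Integrable fun y => ρ y * f x y) (hi2 : ∀ y, Integrable fun x => F (f x y))
    {A : ℝ} (hA : ∀ y, ρ y ≠ 0 → ∫ x, F (f x y) ≤ A) :
    ∫ x, F (∫ y, ρ y * f x y) ≤ A := by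
  let H : E × E → ℝ := fun p => ρ p.2 * F (f p.1 p.2)
  have Hm : Measurable H := (ρm.comp measurable_snd).mul (Fm.comp fm)
  have hb : ∀ y, ∫ x, H (x, y) ≤ ρ y * A := by
    intro y
    simp only [H]
    rw [integral_const_mul]
    by_cases h : ρ y = 0
    · simp [h]
    · exact mul_le_mul_of_nonneg_left (hA y h) (ρ0 y)
  have H0 : ∀ p, 0 ≤ H p := fun p => mul_nonneg (ρ0 _) (F0 _)
  have Hi : Integrable H (volume.prod volume) := by
    rw [integrable_prod_iff' Hm.aestronglyMeasurable]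
    refine ⟨Eventually.of_forall fun y => (hi2 y).const_mul (ρ y), ?_⟩
    refine Integrable.mono' (ρi.mul_const A) ?_ (Eventually.of_forall fun y => ?_)
    · exact (Hm.stronglyMeasurable.norm.integral_prod_left').aestronglyMeasurable
    · rw [Real.norm_of_nonneg (integral_nonneg fun x => norm_nonneg _)]
      refine le_trans (le_of_eq ?_) (hb y)
      congr 1; ext x; exact Real.norm_of_nonneg (H0 _)
  calc ∫ x, F (∫ y, ρ y * f x y) ≤ ∫ x, ∫ y, H (x, y) := by
        refine integral_mono_of_nonneg (Eventually.of_forall fun x => F0 _)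
          Hi.integral_prod_left ?_
        filter_upwards [Hi.prod_right_ae] with x hx
        exact SMp_jensen ρm ρ0 ρi ρ1 hF hc hs (hf x) (hi x) hx
    _ = ∫ y, ∫ x, H (x, y) := integral_integral_swap (f := fun x y => H (x, y)) Hi
    _ ≤ ∫ y, ρ y * A := integral_mono Hi.integral_prod_right (ρi.mul_const A) hb
    _ = A := by rw [integral_mul_const, ρ1, one_mul]

/-- Continuity of translations in `L^2`. -/
lemma SMp_trans {G : E → ℂ} (hG : MemLp G 2 volume) {η : ℝ} (hη : 0 < η) :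
    ∃ δ : ℝ, 0 < δ ∧ ∀ y : E, ‖y‖ < δ → ∫ x, ‖G (x - y) - G x‖ ^ 2 ≤ η := by
  let T : E → C(E, E) := fun y => ⟨fun x => x - y, by fun_prop⟩
  have hT : Continuous T := by
    refine ContinuousMap.continuous_of_continuous_uncurry T ?_
    exact continuous_snd.sub continuous_fst
  have hm : ∀ y, MeasurePreserving (T y) volume volume := fun y =>
    measurePreserving_sub_right volume y
  have hc : Continuous fun y => Lp.compMeasurePreserving (T y) (hm y) (hG.toLp G) :=
    Continuous.compMeasurePreservingLp continuous_const hT hm (by simp)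
  have h0 := Metric.continuous_iff.1 hc 0 (√η) (Real.sqrt_pos.2 hη)
  obtain ⟨δ, hδ, h1⟩ := h0
  refine ⟨δ, hδ, fun y hy => ?_⟩
  have h2 := h1 y (by simpa using hy)
  have hy2 : MemLp (fun x => G (x - y)) 2 volume := hG.comp_measurePreserving (hm y)
  have hd : MemLp (fun x => G (x - y) - G x) 2 volume := hy2.sub hG
  have e : hd.toLp _ = Lp.compMeasurePreserving (T y) (hm y) (hG.toLp G) -
      Lp.compMeasurePreserving (T 0) (hm 0) (hG.toLp G) := by
    rw [Lp.toLp_compMeasurePreserving, Lp.toLp_compMeasurePreserving, ← MemLp.toLp_sub]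
    apply MemLp.toLp_congr
    refine Eventually.of_forall fun x => ?_
    simp [T]
  rw [← norm_toLp_sq hd, e, ← dist_eq_norm]
  calc _ ≤ (√η) ^ 2 := by gcongr
    _ = η := Real.sq_sqrt hη.le

lemma SMp_weak_shift {u g : E → ℂ} {v : E} (hw : IsWeakDeriv u g v) (y : E) :
    IsWeakDeriv (fun x => u (x - y)) (fun x => g (x - y)) v := by
  intro φ hφ hc
  have hφt : ContDiff ℝ ∞ (fun x => φ (x + y)) := hφ.comp (by fun_prop)
  have hct : HasCompactSupport (fun x => φ (x + y)) :=
    hc.comp_homeomorph (Homeomorph.addRight y)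
  have h1 := hw _ hφt hct
  have h2 : ∀ x, fderiv ℝ (fun x => φ (x + y)) x = fderiv ℝ φ (x + y) := fun x =>
    fderiv_comp_add_right y
  simp only [h2] at h1
  have e1 := integral_add_right_eq_self (μ := (volume : Measure E))
    (fun x => u (x - y) * ((fderiv ℝ φ x v : ℝ) : ℂ)) y
  have e2 := integral_add_right_eq_self (μ := (volume : Measure E))
    (fun x => g (x - y) * ((φ x : ℝ) : ℂ)) y
  simp only [add_sub_cancel_right] at e1 e2
  rw [← e1, ← e2]; exact h1

lemma SMp_test_der {φ : E → ℝ} (hφ : ContDiff ℝ ∞ φ) (hc : HasCompactSupport φ) (v : E) :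
    MemLp (fun x => ((fderiv ℝ φ x v : ℝ) : ℂ)) 2 volume := by
  refine memLp_test ((hφ.continuous_fderiv (by simp)).clm_apply continuous_const) ?_
  exact hc.fderiv_apply ℝ v

lemma SMp_weak_sub {u g u' g' : E → ℂ} {v : E} (hu : MemLp u 2 volume) (hg : MemLp g 2 volume)
    (hu' : MemLp u' 2 volume) (hg' : MemLp g' 2 volume) (hw : IsWeakDeriv u g v)
    (hw' : IsWeakDeriv u' g' v) :
    IsWeakDeriv (fun x => u x - u' x) (fun x => g x - g' x) v := by
  intro φ hφ hc
  have a1 := integrable_mul_L2 hu (SMp_test_der hφ hc v)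
  have a2 := integrable_mul_L2 hu' (SMp_test_der hφ hc v)
  have a3 := integrable_mul_L2 hg (memLp_test hφ.continuous hc)
  have a4 := integrable_mul_L2 hg' (memLp_test hφ.continuous hc)
  simp only [sub_mul]
  rw [integral_sub a1 a2, integral_sub a3 a4, hw φ hφ hc, hw' φ hφ hc]; ring

lemma SMp_weak_mul {u g : E → ℂ} {v : E} (hu : MemLp u 2 volume) (hg : MemLp g 2 volume)
    (hw : IsWeakDeriv u g v) {χ : E → ℝ} (hχ : ContDiff ℝ ∞ χ) :
    IsWeakDeriv (fun x => (χ x : ℂ) * u x)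
      (fun x => (χ x : ℂ) * g x + ((fderiv ℝ χ x v : ℝ) : ℂ) * u x) v := by
  intro φ hφ hc
  have hp : ContDiff ℝ ∞ fun x => χ x * φ x := hχ.mul hφ
  have hpc : HasCompactSupport fun x => χ x * φ x := hc.mul_left
  have h1 := hw _ hp hpc
  have hd : ∀ x, fderiv ℝ (fun x => χ x * φ x) x v =
      χ x * fderiv ℝ φ x v + φ x * fderiv ℝ χ x v := by
    intro x
    rw [fderiv_fun_mul (hχ.differentiable (by simp) x) (hφ.differentiable (by simp) x)]
    simp
  simp only [hd] at h1
  have c1 : Continuous fun x => fderiv ℝ φ x v :=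
    (hφ.continuous_fderiv (by simp)).clm_apply continuous_const
  have c2 : Continuous fun x => fderiv ℝ χ x v :=
    (hχ.continuous_fderiv (by simp)).clm_apply continuous_const
  have a1 := integrable_mul_L2 hu (memLp_test (hχ.continuous.mul c1)
    (hc.fderiv_apply ℝ v).mul_left)
  have a2 := integrable_mul_L2 hu (memLp_test (hφ.continuous.mul c2) hc.mul_right)
  have a3 := integrable_mul_L2 hg (memLp_test hp.continuous hpc)
  simp only [Pi.mul_apply] at a1 a2
  have e1 : ∫ x, u x * ((χ x * fderiv ℝ φ x v + φ x * fderiv ℝ χ x v : ℝ) : ℂ) =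
      (∫ x, u x * ((χ x * fderiv ℝ φ x v : ℝ) : ℂ)) +
        ∫ x, u x * ((φ x * fderiv ℝ χ x v : ℝ) : ℂ) := by
    rw [← integral_add a1 a2]; congr 1; ext x; push_cast; ring
  have e2 : ∫ x, ((χ x : ℂ) * g x + ((fderiv ℝ χ x v : ℝ) : ℂ) * u x) * ((φ x : ℝ) : ℂ) =
      (∫ x, g x * ((χ x * φ x : ℝ) : ℂ)) + ∫ x, u x * ((φ x * fderiv ℝ χ x v : ℝ) : ℂ) := by
    rw [← integral_add a3 a2]; congr 1; ext x; push_cast; ring
  have e3 : ∫ x, (χ x : ℂ) * u x * ((fderiv ℝ φ x v : ℝ) : ℂ) =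
      ∫ x, u x * ((χ x * fderiv ℝ φ x v : ℝ) : ℂ) := by
    congr 1; ext x; push_cast; ring
  rw [e2, e3]
  rw [e1] at h1
  linear_combination h1

/-- Cutoff functions with a small gradient. -/
lemma SMp_cut {ι : Type} [Finite ι] {G : ι → E → ℂ} (hG : ∀ i, MemLp (G i) 2 volume) {η : ℝ}
    (hη : 0 < η) :
    ∃ χ : E → ℝ, ContDiff ℝ ∞ χ ∧ HasCompactSupport χ ∧ (∀ x, 0 ≤ χ x) ∧ (∀ x, χ x ≤ 1) ∧
      (∀ x, ‖fderiv ℝ χ x‖ ≤ η) ∧ ∀ i, ∫ x, ‖((χ x - 1 : ℝ) : ℂ) * G i x‖ ^ 2 ≤ η := by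
  let b : ContDiffBump (0 : E) := ⟨1, 2, one_pos, one_lt_two⟩
  have hb : ContDiff ℝ ∞ b := b.contDiff
  have hbd : Differentiable ℝ b := hb.differentiable (by simp)
  obtain ⟨M, hM⟩ := (hb.continuous_fderiv (by simp)).bounded_above_of_compact_support
    (b.hasCompactSupport.fderiv ℝ)
  let c : ℕ → ℝ := fun n => 1 / ((n : ℝ) + 1)
  have cpos : ∀ n, 0 < c n := fun n => by positivity
  have ct : Tendsto c atTop (𝓝 0) := tendsto_one_div_add_atTop_nhds_zero_nat
  let χ : ℕ → E → ℝ := fun n x => b (c n • x)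
  have χc : ∀ n, ContDiff ℝ ∞ (χ n) := fun n => hb.comp (by fun_prop)
  have t1 : ∀ i, Tendsto (fun n => ∫ x, ‖((χ n x - 1 : ℝ) : ℂ) * G i x‖ ^ 2) atTop
      (𝓝 (∫ _x : E, (0 : ℝ))) := by
    intro i
    refine tendsto_integral_of_dominated_convergence (fun x => ‖G i x‖ ^ 2) (fun n => ?_)
      (integrable_normsq (hG i)) (fun n => Eventually.of_forall fun x => ?_)
      (Eventually.of_forall fun x => ?_)
    · refine (AEStronglyMeasurable.norm (AEStronglyMeasurable.mul ?_ (hG i).1)).pow 2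
      exact (Complex.continuous_ofReal.comp ((χc n).continuous.sub
        continuous_const)).aestronglyMeasurable
    · rw [Real.norm_of_nonneg (by positivity), norm_mul, Complex.norm_real]
      have h1 : ‖χ n x - 1‖ ≤ 1 := by
        rw [Real.norm_eq_abs, abs_le]
        have := b.nonneg (x := c n • x)
        have := b.le_one (x := c n • x)
        simp only [χ]; constructor <;> linarith
      have h2 : ‖χ n x - 1‖ * ‖G i x‖ ≤ ‖G i x‖ := mul_le_of_le_one_left (norm_nonneg _) h1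
      gcongr
    · have h1 : Tendsto (fun n => c n • x) atTop (𝓝 ((0 : ℝ) • x)) := ct.smul_const x
      rw [zero_smul] at h1
      have h2 : ∀ᶠ n in atTop, c n • x ∈ Metric.closedBall (0 : E) 1 :=
        h1 (Metric.closedBall_mem_nhds _ one_pos)
      refine tendsto_const_nhds.congr' ?_
      filter_upwards [h2] with n hn
      have : χ n x = 1 := b.one_of_mem_closedBall hn
      simp [this]
  have t2 : ∀ᶠ n in atTop, ∀ i, ∫ x, ‖((χ n x - 1 : ℝ) : ℂ) * G i x‖ ^ 2 ≤ η := by
    rw [eventually_all]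
    intro i
    have := t1 i
    rw [integral_zero] at this
    exact this.eventually (ge_mem_nhds hη)
  have t3 : ∀ᶠ n in atTop, M * c n ≤ η := by
    have : Tendsto (fun n => M * c n) atTop (𝓝 (M * 0)) := ct.const_mul M
    rw [mul_zero] at this
    exact this.eventually (ge_mem_nhds hη)
  obtain ⟨n, hn2, hn3⟩ := (t2.and t3).exists
  refine ⟨χ n, χc n, ?_, fun x => b.nonneg, fun x => b.le_one, fun x => ?_, hn2⟩
  · exact b.hasCompactSupport.comp_homeomorph
      (Homeomorph.smulOfNeZero (c n) (cpos n).ne')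
  · have h1 : HasFDerivAt (fun x : E => c n • x) (c n • ContinuousLinearMap.id ℝ E) x :=
      (hasFDerivAt_id x).const_smul (c n)
    have h2 := (hbd (c n • x)).hasFDerivAt.comp x h1
    have h3 : fderiv ℝ (χ n) x = (fderiv ℝ b (c n • x)).comp (c n • ContinuousLinearMap.id ℝ E) :=
      h2.fderiv
    rw [h3]
    refine (ContinuousLinearMap.opNorm_comp_le _ _).trans (le_trans ?_ hn3)
    have h4 : ‖c n • ContinuousLinearMap.id ℝ E‖ ≤ c n := by
      rw [norm_smul, Real.norm_of_nonneg (cpos n).le]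
      exact mul_le_of_le_one_right (cpos n).le ContinuousLinearMap.norm_id_le
    exact mul_le_mul (hM _) h4 (norm_nonneg _) ((norm_nonneg _).trans (hM 0))

lemma SMp_mul_bd {a : E → ℝ} {G : E → ℂ} (ha : Continuous a) {c : ℝ} (hc : ∀ x, |a x| ≤ c)
    (hG : MemLp G 2 volume) : MemLp (fun x => (a x : ℂ) * G x) 2 volume := by
  refine (hG.const_mul (c : ℂ)).of_le ?_ (Eventually.of_forall fun x => ?_)
  · exact (Complex.continuous_ofReal.comp ha).aestronglyMeasurable.mul hG.1
  · rw [norm_mul, norm_mul, Complex.norm_real, Complex.norm_real, Real.norm_eq_abs,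
      Real.norm_eq_abs]
    exact mul_le_mul_of_nonneg_right ((hc x).trans (le_abs_self c)) (norm_nonneg _)

lemma SMp_int_ker {ρ w : E → ℝ} (ρc : Continuous ρ) (ρs : HasCompactSupport ρ)
    (hw : MemLp w 2 volume) (x : E) : Integrable fun y => ρ y * w (x - y) := by
  have h1 : MemLp ρ 2 volume := ρc.memLp_of_hasCompactSupport ρs
  have h2 : MemLp (fun y => w (x - y)) 2 volume :=
    hw.comp_measurePreserving (Measure.measurePreserving_sub_left volume x)
  exact MemLp.integrable_mul h1 h2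

/-- The mollifier estimate in `L^2`. -/
lemma SMp_l2 {ρ w : E → ℝ} (ρc : Continuous ρ) (ρs : HasCompactSupport ρ) (ρ0 : ∀ y, 0 ≤ ρ y)
    (ρ1 : ∫ y, ρ y = 1) (wm : Measurable w) (hw : MemLp w 2 volume) {A : ℝ}
    (hA : ∀ y, ρ y ≠ 0 → ∫ x, (w (x - y) - w x) ^ 2 ≤ A) :
    ∫ x, ((∫ y, ρ y * w (x - y)) - w x) ^ 2 ≤ A := by
  have ρi : Integrable ρ := ρc.integrable_of_hasCompactSupport ρs
  have hi : ∀ x, Integrable fun y => ρ y * (w (x - y) - w x) := by
    intro x
    simp only [mul_sub]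
    exact (SMp_int_ker ρc ρs hw x).sub (ρi.mul_const _)
  have := SMp_jf (F := fun t => t ^ 2) (s := Set.univ) ρc.measurable ρ0 ρi ρ1
    (Even.convexOn_pow even_two) (by fun_prop) isClosed_univ (by fun_prop)
    (fun t => sq_nonneg t) (f := fun x y => w (x - y) - w x)
    ((wm.comp (measurable_fst.sub measurable_snd)).sub (wm.comp measurable_fst))
    (fun _ _ => Set.mem_univ _) hi (fun y => ?_) hA
  · refine le_trans (le_of_eq ?_) this
    congr 1; ext x
    simp only [mul_sub]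
    rw [integral_sub (SMp_int_ker ρc ρs hw x) (ρi.mul_const _), integral_mul_const, ρ1, one_mul]
  · exact ((hw.comp_measurePreserving (measurePreserving_sub_right volume y)).sub hw).integrable_sq

lemma SMp_sq_add {a b : E → ℝ} (ha : MemLp a 2 volume) (hb : MemLp b 2 volume) :
    ∫ x, (a x + b x) ^ 2 ≤ 2 * (∫ x, a x ^ 2) + 2 * ∫ x, b x ^ 2 := by
  rw [← integral_const_mul, ← integral_const_mul,
    ← integral_add (ha.integrable_sq.const_mul 2) (hb.integrable_sq.const_mul 2)]
  refine integral_mono (ha.add hb).integrable_sq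
    ((ha.integrable_sq.const_mul 2).add (hb.integrable_sq.const_mul 2)) fun x => ?_
  simp only
  nlinarith [sq_nonneg (a x - b x)]

lemma SMp_normsq_add {a b : E → ℂ} (ha : MemLp a 2 volume) (hb : MemLp b 2 volume) :
    ∫ x, ‖a x + b x‖ ^ 2 ≤ 2 * (∫ x, ‖a x‖ ^ 2) + 2 * ∫ x, ‖b x‖ ^ 2 := by
  rw [← integral_const_mul, ← integral_const_mul,
    ← integral_add ((integrable_normsq ha).const_mul 2) ((integrable_normsq hb).const_mul 2)]
  refine integral_mono (integrable_normsq (ha.add hb))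
    (((integrable_normsq ha).const_mul 2).add ((integrable_normsq hb).const_mul 2)) fun x => ?_
  simp only
  have h1 := norm_add_le (a x) (b x)
  have h2 : ‖a x + b x‖ ^ 2 ≤ (‖a x‖ + ‖b x‖) ^ 2 := by gcongr
  nlinarith [sq_nonneg (‖a x‖ - ‖b x‖)]

end Aux

variable {d : ℕ}

/-- Smooth approximation in the Dirichlet norm. -/
theorem moll (hd : 0 < d) {u : (Fin d → ℝ) → ℝ} {B : Fin d → ℝ} (um : Measurable u)
    (u0 : ∀ x, 0 ≤ u x) (u2 : MemLp u 2 volume) (B0 : ∀ r, 0 ≤ B r) (hB : DQ u B)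
    (hD : Integrable fun x => (u x ^ 2) ^ (1 + 2 / (d : ℝ))) {ε : ℝ} (hε : 0 < ε) :
    ∃ g : (Fin d → ℝ) → ℝ, ContDiff ℝ 1 g ∧ HasCompactSupport g ∧ (∀ x, 0 ≤ g x) ∧
      ∫ x, (g x - u x) ^ 2 ≤ ε ∧ DQ (fun x => g x - u x) (fun _ => ε) ∧
      ∫ x, (g x ^ 2) ^ (1 + 2 / (d : ℝ)) ≤ (∫ x, (u x ^ 2) ^ (1 + 2 / (d : ℝ))) + ε := by
  have uc : MemLp (fun x => (u x : ℂ)) 2 volume := u2.ofReal
  have hnorm : ∀ t : ℝ, ‖(t : ℂ)‖ ^ 2 = t ^ 2 := fun t => by
    rw [Complex.norm_real, Real.norm_eq_abs, sq_abs]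
  -- weak derivatives
  have hG : ∀ r : Fin d, ∃ g : (Fin d → ℝ) → ℂ, MemLp g 2 volume ∧
      IsWeakDeriv (fun x => (u x : ℂ)) g (Pi.single r (1 : ℝ)) ∧ ∫ x, ‖g x‖ ^ 2 ≤ B r := by
    intro r
    refine weak_of_diff_le uc (B0 r) fun h hh => le_trans (le_of_eq ?_) (hB r h hh)
    congr 1; ext x; rw [← Complex.ofReal_sub, hnorm]
  choose G G2 Gw _ using hG
  set U := ∫ x, u x ^ 2 with hU
  have U0 : 0 ≤ U := integral_nonneg fun x => sq_nonneg _
  -- the cutoff
  obtain ⟨η, hη, η1, η2⟩ : ∃ η : ℝ, 0 < η ∧ η ≤ 1 ∧ η * (8 + 4 * U) ≤ ε := by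
    refine ⟨min 1 (ε / (8 + 4 * U)), by positivity, min_le_left _ _, ?_⟩
    calc _ ≤ ε / (8 + 4 * U) * (8 + 4 * U) := by gcongr; exact min_le_right _ _
      _ = ε := by field_simp
  let G' : Option (Fin d) → (Fin d → ℝ) → ℂ := fun o => o.elim (fun x => (u x : ℂ)) G
  have G'2 : ∀ o, MemLp (G' o) 2 volume := fun o => by
    cases o with
    | none => exact uc
    | some r => exact G2 r
  obtain ⟨χ, χs, χc, χ0, χ1, χd, χG⟩ := SMp_cut G'2 hη
  have χabs : ∀ x, |χ x| ≤ 1 := fun x => abs_le.2 ⟨by linarith [χ0 x], χ1 x⟩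
  have χabs' : ∀ x, |χ x - 1| ≤ 1 := fun x => abs_le.2 ⟨by linarith [χ0 x], by linarith [χ1 x]⟩
  have dc : ∀ r : Fin d, Continuous fun x => fderiv ℝ χ x (Pi.single r (1 : ℝ)) := fun r =>
    (χs.continuous_fderiv (by simp)).clm_apply continuous_const
  have db : ∀ (r : Fin d) x, |fderiv ℝ χ x (Pi.single r (1 : ℝ))| ≤ η := by
    intro r x
    rw [← Real.norm_eq_abs]
    refine (ContinuousLinearMap.le_opNorm _ _).trans ?_
    rw [Pi.norm_single, norm_one, mul_one]; exact χd x
  let w : (Fin d → ℝ) → ℝ := fun x => χ x * u x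
  have wm : Measurable w := χs.continuous.measurable.mul um
  have w0 : ∀ x, 0 ≤ w x := fun x => mul_nonneg (χ0 x) (u0 x)
  have wu : ∀ x, w x ≤ u x := fun x => mul_le_of_le_one_left (u0 x) (χ1 x)
  have w2 : MemLp w 2 volume := by
    refine u2.of_le wm.aestronglyMeasurable (Eventually.of_forall fun x => ?_)
    rw [Real.norm_of_nonneg (w0 x), Real.norm_of_nonneg (u0 x)]; exact wu x
  have wc : MemLp (fun x => (w x : ℂ)) 2 volume := w2.ofReal
  have ws : HasCompactSupport w := χc.mul_right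
  let H : Fin d → (Fin d → ℝ) → ℂ := fun r x =>
    (χ x : ℂ) * G r x + ((fderiv ℝ χ x (Pi.single r (1 : ℝ)) : ℝ) : ℂ) * (u x : ℂ)
  have H2 : ∀ r, MemLp (H r) 2 volume := fun r =>
    (SMp_mul_bd χs.continuous χabs (G2 r)).add (SMp_mul_bd (dc r) (db r) uc)
  have Hw : ∀ r, IsWeakDeriv (fun x => (w x : ℂ)) (H r) (Pi.single r (1 : ℝ)) := by
    intro r
    have := SMp_weak_mul uc (G2 r) (Gw r) χs
    simpa only [w, Complex.ofReal_mul] using this
  -- the cutoff error
  have c1 : ∫ x, (w x - u x) ^ 2 ≤ η := by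
    refine le_trans (le_of_eq ?_) (χG none)
    congr 1; ext x
    simp only [G', Option.elim, w]
    rw [← Complex.ofReal_mul, hnorm]; ring
  have c2 : DQ (fun x => w x - u x) fun _ => η * (2 + 2 * U) := by
    intro r h hh
    have h1 : IsWeakDeriv (fun x => ((w x - u x : ℝ) : ℂ)) (fun x => H r x - G r x)
        (Pi.single r (1 : ℝ)) := by
      have := SMp_weak_sub wc (H2 r) uc (G2 r) (Hw r) (Gw r)
      simpa only [Complex.ofReal_sub] using this
    refine (diff_le_of_weak (w2.sub u2) ((H2 r).sub (G2 r)) h1 h hh).trans ?_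
    gcongr
    have a1 := SMp_mul_bd (χs.continuous.sub continuous_const) χabs' (G2 r)
    have a2 := SMp_mul_bd (dc r) (db r) uc
    have a3 := SMp_normsq_add a1 a2
    have a4 : ∫ x, ‖((fderiv ℝ χ x (Pi.single r (1 : ℝ)) : ℝ) : ℂ) * (u x : ℂ)‖ ^ 2 ≤ η * U := by
      rw [hU, ← integral_const_mul]
      refine integral_mono (integrable_normsq a2) (u2.integrable_sq.const_mul η) fun x => ?_
      simp only
      rw [← Complex.ofReal_mul, hnorm, mul_pow]
      have := db r x
      have h3 : (fderiv ℝ χ x (Pi.single r (1 : ℝ))) ^ 2 ≤ η := by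
        rw [← sq_abs]
        calc _ ≤ η ^ 2 := by gcongr
          _ ≤ η := by nlinarith
      gcongr
    have a5 := χG (some r)
    simp only [G', Option.elim] at a5
    simp only [Pi.sub_apply] at a3
    calc _ = ∫ x, ‖((χ x - 1 : ℝ) : ℂ) * G r x +
          ((fderiv ℝ χ x (Pi.single r (1 : ℝ)) : ℝ) : ℂ) * (u x : ℂ)‖ ^ 2 := by
          congr 1; ext x; congr 2; simp only [H, Pi.sub_apply]; push_cast; ring
      _ ≤ η * (2 + 2 * U) := a3.trans (by nlinarith)
  -- the mollifier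
  let H' : Option (Fin d) → (Fin d → ℝ) → ℂ := fun o => o.elim (fun x => (w x : ℂ)) H
  have H'2 : ∀ o, MemLp (H' o) 2 volume := fun o => by
    cases o with
    | none => exact wc
    | some r => exact H2 r
  have ht : ∀ o, ∀ᶠ y in 𝓝 (0 : Fin d → ℝ), ∫ x, ‖H' o (x - y) - H' o x‖ ^ 2 ≤ η := by
    intro o
    obtain ⟨δ, hδ, h⟩ := SMp_trans (H'2 o) hη
    filter_upwards [Metric.ball_mem_nhds (0 : Fin d → ℝ) hδ] with y hy
    exact h y (by simpa using hy)
  obtain ⟨δ, hδ, hT⟩ := Metric.eventually_nhds_iff.1 (eventually_all.2 ht)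
  let b : ContDiffBump (0 : Fin d → ℝ) := ⟨δ / 2, δ, by positivity, by linarith⟩
  let ρ : (Fin d → ℝ) → ℝ := b.normed volume
  have ρc : Continuous ρ := b.continuous_normed
  have ρs : HasCompactSupport ρ := b.hasCompactSupport_normed
  have ρ0 : ∀ y, 0 ≤ ρ y := b.nonneg_normed
  have ρ1 : ∫ y, ρ y = 1 := b.integral_normed
  have ρi : Integrable ρ := b.integrable_normed
  have ρδ : ∀ y, ρ y ≠ 0 → ∀ o, ∫ x, ‖H' o (x - y) - H' o x‖ ^ 2 ≤ η := by
    intro y hy
    have : y ∈ Function.support (b.normed volume) := hy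
    rw [b.support_normed_eq] at this
    exact hT this
  let g : (Fin d → ℝ) → ℝ := fun x => ∫ y, ρ y * w (x - y)
  have gconv : g = ρ ⋆[ContinuousLinearMap.lsmul ℝ ℝ, volume] w := rfl
  have gs : ContDiff ℝ 1 g := by
    rw [gconv]
    exact ρs.contDiff_convolution_left _ (b.contDiff_normed (n := 1))
      (w2.locallyIntegrable (by norm_num))
  have gc : HasCompactSupport g := by
    rw [gconv]; exact ρs.convolution _ ws
  have g0 : ∀ x, 0 ≤ g x := fun x => integral_nonneg fun y => mul_nonneg (ρ0 y) (w0 _)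
  have g2 : MemLp g 2 volume := gs.continuous.memLp_of_hasCompactSupport gc
  have m1 : ∫ x, (g x - w x) ^ 2 ≤ η := by
    refine SMp_l2 ρc ρs ρ0 ρ1 wm w2 fun y hy => le_trans (le_of_eq ?_) (ρδ y hy none)
    congr 1; ext x
    simp only [H', Option.elim]
    rw [← Complex.ofReal_sub, hnorm]
  have m2 : DQ (fun x => g x - w x) fun _ => η := by
    intro r h hh
    let v : Fin d → ℝ := h • Pi.single r (1 : ℝ)
    let f : (Fin d → ℝ) → ℝ := fun x => w (x + v) - w x
    have wv : MemLp (fun x => w (x + v)) 2 volume :=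
      w2.comp_measurePreserving (measurePreserving_add_right volume v)
    have fm : Measurable f := (wm.comp (measurable_add_const v)).sub wm
    have f2 : MemLp f 2 volume := wv.sub w2
    have key := SMp_l2 ρc ρs ρ0 ρ1 fm f2 (A := h ^ 2 * η) fun y hy => ?_
    · refine le_trans (le_of_eq ?_) key
      congr 1; ext x
      have e : ∫ y, ρ y * f (x - y) = g (x + v) - g x := by
        simp only [f, g, mul_sub]
        rw [integral_sub (SMp_int_ker ρc ρs wv x) (SMp_int_ker ρc ρs w2 x)]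
        congr 2; ext y; rw [sub_add_eq_add_sub]
      rw [e]; simp only [f, v]; ring
    · have wy : MemLp (fun x => w (x - y)) 2 volume :=
        w2.comp_measurePreserving (measurePreserving_sub_right volume y)
      have Hy : MemLp (fun x => H r (x - y)) 2 volume :=
        (H2 r).comp_measurePreserving (measurePreserving_sub_right volume y)
      have h1 : IsWeakDeriv (fun x => ((w (x - y) - w x : ℝ) : ℂ))
          (fun x => H r (x - y) - H r x) (Pi.single r (1 : ℝ)) := by
        have wyc : MemLp (fun x => ((w (x - y) : ℝ) : ℂ)) 2 volume := wy.ofReal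
        have := SMp_weak_sub wyc Hy wc (H2 r) (SMp_weak_shift (Hw r) y) (Hw r)
        simpa only [Complex.ofReal_sub] using this
      have h2 := diff_le_of_weak (wy.sub w2) (Hy.sub (H2 r)) h1 h hh
      have h3 := ρδ y hy (some r)
      simp only [H', Option.elim] at h3
      refine le_trans (le_of_eq ?_) (h2.trans ?_)
      · congr 1; ext x
        simp only [f, v, Pi.sub_apply]
        rw [sub_add_eq_add_sub]; ring
      · gcongr; exact h3
  have hp : (1 : ℝ) ≤ 1 + 2 / (d : ℝ) := le_add_of_nonneg_right (by positivity)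
  refine ⟨g, gs, gc, g0, ?_, ?_, ?_⟩
  · have := SMp_sq_add (g2.sub w2) (w2.sub u2)
    simp only [Pi.sub_apply, sub_add_sub_cancel] at this
    nlinarith
  · have := DQ.add (g2.sub w2) (w2.sub u2) m2 c2
    simp only [Pi.sub_apply, sub_add_sub_cancel] at this
    exact this.mono fun r => by nlinarith
  · set p : ℝ := 1 + 2 / (d : ℝ) with hpd
    have F0 : ∀ t : ℝ, 0 ≤ (t ^ 2) ^ p := fun t => Real.rpow_nonneg (sq_nonneg t) _
    have Fc : Continuous fun t : ℝ => (t ^ 2) ^ p :=
      (continuous_pow 2).rpow_const fun t => Or.inr (by linarith)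
    have Fx : ConvexOn ℝ (Set.Ici 0) fun t : ℝ => (t ^ 2) ^ p := by
      refine (convexOn_rpow (p := 2 * p) (by linarith)).congr fun t ht => ?_
      simp only
      rw [Real.rpow_mul ht, Real.rpow_two]
    have wle : ∀ x, (w x ^ 2) ^ p ≤ (u x ^ 2) ^ p := fun x => by
      have := w0 x; have := wu x
      gcongr
    have wi : Integrable fun x => (w x ^ 2) ^ p := by
      refine hD.mono' (Fc.measurable.comp wm).aestronglyMeasurable
        (Eventually.of_forall fun x => ?_)
      rw [Real.norm_of_nonneg (F0 _)]; exact wle x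
    have key := SMp_jf ρc.measurable ρ0 ρi ρ1 Fx Fc.continuousOn isClosed_Ici Fc.measurable F0
      (f := fun x y => w (x - y)) (wm.comp (measurable_fst.sub measurable_snd))
      (fun x y => w0 _) (SMp_int_ker ρc ρs w2) (fun y => wi.comp_sub_right y)
      (A := ∫ x, (u x ^ 2) ^ p) fun y _ => ?_
    · exact key.trans (by linarith)
    · rw [integral_sub_right_eq_self (fun x => (w x ^ 2) ^ p) y]
      exact integral_mono wi hD wle

end Pool.Agent.Lib.MP_ae5e3b_mp.Sh
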