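import Mathlib

-- part Pool.Agent.Lib.MP_ae5e3b_mp.Levels
section

open Real

namespace Pool.Agent.Lib.MP_ae5e3b_mp

noncomputable def bump (t : ℝ) : ℝ := cos (π / 2 * max (-1) (min t 1))

noncomputable def ramp (t : ℝ) : ℝ := sin (π / 2 * max 0 (min t 1)) ^ 2

lemma bump_sq (t : ℝ) : bump t ^ 2 = ramp (t + 1) - ramp t := by
  unfold bump ramp
  rcases le_total t (-1) with h1 | h1
  · rw [min_eq_left (by linarith), max_eq_left h1, min_eq_left (by linarith),
      max_eq_left (by linarith), max_eq_left (by linarith)]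
    simp
  rcases le_total t 0 with h2 | h2
  · rw [min_eq_left (by linarith), max_eq_right h1, min_eq_left (by linarith),
      max_eq_right (by linarith), max_eq_left h2]
    have : π / 2 * (t + 1) = π / 2 * t + π / 2 := by ring
    rw [this, sin_add_pi_div_two]; simp
  rcases le_total t 1 with h3 | h3
  · rw [min_eq_left h3, max_eq_right h1, min_eq_right (by linarith),
      max_eq_right (by linarith), max_eq_right h2]
    simp [cos_sq']
  · rw [min_eq_right h3, min_eq_right (by linarith), max_eq_right (by linarith),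
      max_eq_right (by linarith)]
    simp

lemma bump_ne {t : ℝ} (h : bump t ≠ 0) : -1 < t ∧ t < 1 := by
  unfold bump at h
  constructor
  · by_contra h1
    push Not at h1
    rw [min_eq_left (by linarith), max_eq_left h1] at h
    simp at h
  · by_contra h1
    push Not at h1
    rw [min_eq_right h1, max_eq_right (by linarith)] at h
    simp at h

lemma abs_min_sub_min_le_abs_left (s t b : ℝ) : |min s b - min t b| ≤ |s - t| := by
  simpa using abs_min_sub_min_le_max s b t b

lemma abs_clamp_sub (a b s t : ℝ) : |max a (min s b) - max a (min t b)| ≤ |s - t| := by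
  rw [max_comm a, max_comm a]
  exact (abs_max_sub_max_le_abs _ _ _).trans (abs_min_sub_min_le_abs_left _ _ _)

lemma bump_lip (s t : ℝ) : |bump s - bump t| ≤ 2 * |s - t| := by
  unfold bump
  refine (abs_cos_sub_cos_le _ _).trans ?_
  rw [← mul_sub, abs_mul, abs_of_pos (by positivity : 0 < π / 2)]
  have := abs_clamp_sub (-1) 1 s t
  have h := pi_le_four
  have h0 := abs_nonneg (max (-1) (min s 1) - max (-1) (min t 1))
  nlinarith

lemma bump_count (J : ℕ) {s : ℝ} (hs : 0 ≤ s) :
    ∑ j ∈ Finset.range J, (if bump (s - j) ≠ 0 then (1 : ℝ) else 0) ≤ 2 := by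
  rw [← Finset.sum_filter]
  simp only [Finset.sum_const, nsmul_eq_mul, mul_one]
  have : (Finset.range J).filter (fun j : ℕ => bump (s - j) ≠ 0) ⊆ {⌊s⌋₊, ⌊s⌋₊ + 1} := by
    intro j hj
    have h := bump_ne (Finset.mem_filter.1 hj).2
    have a := Nat.floor_le hs
    have b := Nat.lt_floor_add_one s
    have c1 : (⌊s⌋₊ : ℝ) < j + 1 := by linarith
    have c2 : (j : ℝ) < ⌊s⌋₊ + 2 := by linarith
    have d1 : ⌊s⌋₊ < j + 1 := by exact_mod_cast c1
    have d2 : j < ⌊s⌋₊ + 2 := by exact_mod_cast c2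
    simp only [Finset.mem_insert, Finset.mem_singleton]; omega
  have h2 := (Finset.card_le_card this).trans (Finset.card_le_two)
  exact_mod_cast h2

lemma bump_sum_lip (J : ℕ) {s t : ℝ} (hs : 0 ≤ s) (ht : 0 ≤ t) :
    ∑ j ∈ Finset.range J, (bump (s - j) - bump (t - j)) ^ 2 ≤ 16 * (s - t) ^ 2 := by
  have h : ∀ j : ℕ, (bump (s - j) - bump (t - j)) ^ 2 ≤ 4 * (s - t) ^ 2 *
      ((if bump (s - j) ≠ 0 then (1 : ℝ) else 0) + (if bump (t - j) ≠ 0 then (1 : ℝ) else 0)) := by
    intro j
    have h1 := bump_lip (s - j) (t - j)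
    have h2 : (bump (s - j) - bump (t - j)) ^ 2 ≤ 4 * (s - t) ^ 2 := by
      rw [← sq_abs, ← sq_abs (s - t)]
      have e : s - j - (t - j) = s - t := by ring
      rw [e] at h1
      have := abs_nonneg (bump (s - j) - bump (t - j))
      nlinarith
    have h3 := sq_nonneg (s - t)
    by_cases a : bump (s - j) ≠ 0 <;> by_cases b : bump (t - j) ≠ 0
    · simp only [if_pos a, if_pos b]; linarith
    · simp only [if_pos a, if_neg b]; linarith
    · simp only [if_neg a, if_pos b]; linarith
    · push Not at a b; simp [a, b]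
  refine (Finset.sum_le_sum fun j _ => h j).trans ?_
  rw [← Finset.mul_sum, Finset.sum_add_distrib]
  have := bump_count J hs
  have := bump_count J ht
  nlinarith [sq_nonneg (s - t)]

theorem exists_levels {q : ℝ} (hq : 1 < q) : ∃ C : ℝ, 0 ≤ C ∧ ∀ (u0 : ℝ), 0 < u0 → ∀ J : ℕ,
    ∃ a : ℕ → ℝ → ℝ, (∀ j, Continuous (a j)) ∧
      (∀ u, ∑ j ∈ Finset.range (J + 2), a j u ^ 2 = 1) ∧
      (∀ j u, j ≤ J → a j u ≠ 0 → u ≤ u0 * q ^ (j + 1)) ∧
      (∀ j u, a (j + 1) u ≠ 0 → u0 * q ^ j ≤ u) ∧
      ∀ u u', 0 ≤ u → 0 ≤ u' →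
        ∑ j ∈ Finset.range (J + 2), (u' * a j u' - u * a j u) ^ 2 ≤ C * (u' - u) ^ 2 := by
  have hl : 0 < log q := log_pos hq
  refine ⟨2 + 32 / log q ^ 2, by positivity, fun u0 hu0 J => ?_⟩
  let s : ℝ → ℝ := fun u => min (log (max u u0 / u0) / log q) (J + 1)
  have hmax : ∀ u, 0 < max u u0 := fun u => lt_max_of_lt_right hu0
  have s0 : ∀ u, 0 ≤ s u := fun u => le_min (div_nonneg (log_nonneg (by
    rw [le_div_iff₀ hu0, one_mul]; exact le_max_right _ _)) hl.le) (by positivity)
  have s1 : ∀ u, s u ≤ J + 1 := fun u => min_le_right _ _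
  have sc : Continuous s := by
    refine Continuous.min (Continuous.div_const (Continuous.log (by fun_prop) fun u => ?_) _)
      continuous_const
    exact (div_pos (hmax u) hu0).ne'
  have hsum : ∀ u, ∑ j ∈ Finset.range (J + 2), bump (s u - j) ^ 2 = 1 := by
    intro u
    simp_rw [bump_sq]
    have := Finset.sum_range_sub' (fun j : ℕ => ramp (s u - j + 1)) (J + 2)
    have e : ∀ j : ℕ, ramp (s u - ((j + 1 : ℕ) : ℝ) + 1) = ramp (s u - j) := by
      intro j; congr 1; push_cast; ring
    simp only [e] at this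
    rw [this]
    have a := s0 u
    have b := s1 u
    unfold ramp
    rw [min_eq_right (by simpa using a), min_eq_left (by push_cast; linarith),
      max_eq_right zero_le_one, max_eq_left (by push_cast; linarith)]
    simp
  have slip : ∀ u u', 0 ≤ u → u ≤ u' → u * |s u' - s u| ≤ (u' - u) / log q := by
    intro u u' hu huu
    have h1 : |s u' - s u| ≤ |log (max u' u0 / u0) / log q - log (max u u0 / u0) / log q| :=
      abs_min_sub_min_le_abs_left _ _ _
    have hm : max u u0 ≤ max u' u0 := max_le_max huu le_rfl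
    have h2 : log (max u' u0 / u0) - log (max u u0 / u0) = log (max u' u0 / max u u0) := by
      rw [log_div (hmax u').ne' hu0.ne', log_div (hmax u).ne' hu0.ne',
        log_div (hmax u').ne' (hmax u).ne']; ring
    have h3 : 0 ≤ log (max u' u0 / max u u0) := log_nonneg (by
      rw [le_div_iff₀ (hmax u), one_mul]; exact hm)
    have h4 := log_le_sub_one_of_pos (div_pos (hmax u') (hmax u))
    rw [← sub_div, h2, abs_of_nonneg (div_nonneg h3 hl.le)] at h1
    have h5 : max u' u0 - max u u0 ≤ u' - u := by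
      have := abs_max_sub_max_le_abs u' u u0
      rw [abs_of_nonneg (by linarith), abs_of_nonneg (by linarith)] at this
      exact this
    have h6 : u * log (max u' u0 / max u u0) ≤ u' - u := by
      calc _ ≤ max u u0 * log (max u' u0 / max u u0) := by gcongr; exact le_max_left _ _
        _ ≤ max u u0 * (max u' u0 / max u u0 - 1) := by have := hmax u; gcongr
        _ = max u' u0 - max u u0 := by field_simp [(hmax u).ne']
        _ ≤ _ := h5
    calc _ ≤ u * (log (max u' u0 / max u u0) / log q) := by gcongr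
      _ = u * log (max u' u0 / max u u0) / log q := by ring
      _ ≤ _ := by gcongr
  have main : ∀ u u', 0 ≤ u → u ≤ u' → ∑ j ∈ Finset.range (J + 2),
      (u' * bump (s u' - j) - u * bump (s u - j)) ^ 2 ≤ (2 + 32 / log q ^ 2) * (u' - u) ^ 2 := by
    intro u u' hu huu
    have h1 : ∀ j : ℕ, (u' * bump (s u' - j) - u * bump (s u - j)) ^ 2 ≤
        2 * (u' - u) ^ 2 * bump (s u' - j) ^ 2 +
        2 * u ^ 2 * (bump (s u' - j) - bump (s u - j)) ^ 2 := by
      intro j
      nlinarith [sq_nonneg ((u' - u) * bump (s u' - j) - u * (bump (s u' - j) - bump (s u - j)))]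
    refine (Finset.sum_le_sum fun j _ => h1 j).trans ?_
    rw [Finset.sum_add_distrib, ← Finset.mul_sum, ← Finset.mul_sum, hsum]
    have h2 := bump_sum_lip (J + 2) (s0 u') (s0 u)
    have h3 := slip u u' hu huu
    have h4 : u ^ 2 * (s u' - s u) ^ 2 ≤ (u' - u) ^ 2 / log q ^ 2 := by
      rw [← sq_abs (s u' - s u), ← mul_pow, ← div_pow]
      gcongr
    calc _ ≤ 2 * (u' - u) ^ 2 * 1 + 2 * u ^ 2 * (16 * (s u' - s u) ^ 2) := by gcongr
      _ = 2 * (u' - u) ^ 2 + 32 * (u ^ 2 * (s u' - s u) ^ 2) := by ring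
      _ ≤ 2 * (u' - u) ^ 2 + 32 * ((u' - u) ^ 2 / log q ^ 2) := by gcongr
      _ = _ := by ring
  refine ⟨fun j u => bump (s u - j), fun j => ?_, hsum, ?_, ?_, ?_⟩
  · unfold bump; fun_prop
  · intro j u hj h
    have h1 := (bump_ne h).2
    have hj' : (j : ℝ) ≤ J := by exact_mod_cast hj
    have h2 : log (max u u0 / u0) / log q < j + 1 := by
      by_contra h3
      push Not at h3
      have : (j : ℝ) + 1 ≤ s u := le_min h3 (by linarith)
      linarith
    rw [div_lt_iff₀ hl] at h2
    have h3 : log (max u u0 / u0) < log (q ^ (j + 1)) := by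
      rw [log_pow]; push_cast; exact h2
    rw [log_lt_log_iff (div_pos (hmax u) hu0) (by positivity), div_lt_iff₀ hu0] at h3
    have := le_max_left u u0
    linarith
  · intro j u h
    have h1 := (bump_ne h).1
    have h2 : (j : ℝ) < log (max u u0 / u0) / log q := by
      have : s u ≤ log (max u u0 / u0) / log q := min_le_left _ _
      push_cast at h1
      linarith
    rw [lt_div_iff₀ hl] at h2
    have h3 : log (q ^ j) < log (max u u0 / u0) := by rw [log_pow]; exact h2
    rw [log_lt_log_iff (by positivity) (div_pos (hmax u) hu0), lt_div_iff₀ hu0] at h3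
    have h4 : 1 ≤ q ^ j := one_le_pow₀ hq.le
    rcases le_total u u0 with h5 | h5
    · rw [max_eq_right h5] at h3; nlinarith
    · rw [max_eq_left h5] at h3; linarith
  · intro u u' hu hu'
    rcases le_total u u' with h | h
    · exact main u u' hu h
    · have := main u' u hu' h
      calc _ = ∑ j ∈ Finset.range (J + 2),
            (u * bump (s u - j) - u' * bump (s u' - j)) ^ 2 :=
            Finset.sum_congr rfl fun j _ => by ring
        _ ≤ _ := this
        _ = _ := by ring

end Pool.Agent.Lib.MP_ae5e3b_mp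
end

-- part Pool.Agent.Lib.MP_ae5e3b_mp.Sampling
section

open MeasureTheory

namespace Pool.Agent.Lib.MP_ae5e3b_mp

/-- two interleaved partial sums -/
noncomputable def bseq (m : ℕ → ℝ) : ℕ → ℝ
  | 0 => 0
  | 1 => 0
  | (j + 2) => bseq m j + m j

lemma bseq_step {m : ℕ → ℝ} (h0 : ∀ j, 0 ≤ m j) (hmono : Monotone m) (j : ℕ) :
    0 ≤ bseq m (j + 1) - bseq m j ∧ bseq m (j + 1) - bseq m j ≤ m j := by
  induction j with
  | zero => simp [bseq, h0 0]
  | succ j ih =>
    have : bseq m (j + 1 + 1) = bseq m j + m j := rfl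
    have h := hmono (Nat.le_succ j)
    rw [this]; constructor <;> linarith [ih.1, ih.2]

lemma bseq_add (m : ℕ → ℝ) (R : ℕ) :
    bseq m R + bseq m (R + 1) = ∑ j ∈ Finset.range R, m j := by
  induction R with
  | zero => simp [bseq]
  | succ R ih =>
    have : bseq m (R + 1 + 1) = bseq m R + m R := rfl
    rw [this, Finset.sum_range_succ, ← ih]; ring

lemma bseq_le {m : ℕ → ℝ} {c : ℝ} (h1 : ∀ j, m j ≤ c) (j i : ℕ) :
    bseq m (j + 2 * i) ≤ bseq m j + i * c := by
  induction i with
  | zero => simp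
  | succ i ih =>
    have : bseq m (j + 2 * (i + 1)) = bseq m (j + 2 * i) + m (j + 2 * i) := rfl
    rw [this]; push_cast; linarith [h1 (j + 2 * i)]

noncomputable def kfl (m : ℕ → ℝ) (j : ℕ) (t : ℝ) : ℤ := ⌊bseq m j + t⌋

lemma kfl_ind {m : ℕ → ℝ} (h0 : ∀ j, 0 ≤ m j) (h1 : ∀ j, m j < 1) (j : ℕ) (t : ℝ) :
    kfl m (j + 2) t - kfl m j t = if kfl m j t < kfl m (j + 2) t then 1 else 0 := by
  have e : bseq m (j + 2) = bseq m j + m j := rfl
  have a1 : kfl m j t ≤ kfl m (j + 2) t := Int.floor_le_floor (by rw [e]; linarith [h0 j])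
  have a2 : kfl m (j + 2) t ≤ kfl m j t + 1 := by
    unfold kfl
    rw [← Int.floor_add_one]
    exact Int.floor_le_floor (by rw [e]; linarith [h1 j])
  split_ifs <;> omega

lemma kfl_mono {m : ℕ → ℝ} (h0 : ∀ j, 0 ≤ m j) (hmono : Monotone m) (j : ℕ) (t : ℝ) :
    kfl m j t ≤ kfl m (j + 1) t :=
  Int.floor_le_floor (by linarith [(bseq_step h0 hmono j).1])

lemma kfl_zero (m : ℕ → ℝ) {t : ℝ} (ht : t ∈ Set.Ico (0 : ℝ) 1) : kfl m 0 t = 0 := by
  simp only [kfl, bseq, zero_add]; exact Int.floor_eq_zero_iff.2 ht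

lemma kfl_one (m : ℕ → ℝ) {t : ℝ} (ht : t ∈ Set.Ico (0 : ℝ) 1) : kfl m 1 t = 0 := by
  simp only [kfl, bseq, zero_add]; exact Int.floor_eq_zero_iff.2 ht

lemma conflict {m : ℕ → ℝ} {η : ℝ} (hη : 0 < η) (h0 : ∀ j, 0 ≤ m j) (h1 : ∀ j, m j ≤ 1 - η)
    (hmono : Monotone m) {R X Y : ℕ} (hY : Y < R) (hXY : X ≠ Y) {t t' : ℝ}
    (ht : t ∈ Set.Ico (0 : ℝ) 1) (ht' : t' ∈ Set.Ico (0 : ℝ) 1) (htt : t' ≤ t)
    (hd : ∀ j < R, (if kfl m j t < kfl m (j + 2) t then (1 : ℤ) else 0) -
      (if kfl m j t' < kfl m (j + 2) t' then 1 else 0) =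
      (if j = X then 1 else 0) - (if j = Y then 1 else 0)) :
    X < Y ∧ ((Y : ℝ) - X) * η < 2 := by
  have h1' : ∀ j, m j < 1 := fun j => by linarith [h1 j]
  have hδ : ∀ j, j ≤ R + 1 → kfl m j t - kfl m j t' =
      (if X + 2 ≤ j ∧ j % 2 = X % 2 then 1 else 0) -
      (if Y + 2 ≤ j ∧ j % 2 = Y % 2 then 1 else 0) := by
    intro j
    induction j using Nat.strong_induction_on with
    | _ j ih =>
      intro hj
      match j, ih, hj with
      | 0, _, _ => rw [kfl_zero m ht, kfl_zero m ht']; simp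
      | 1, _, _ => rw [kfl_one m ht, kfl_one m ht']; simp
      | (j + 2), ih, hj =>
        have a1 := ih j (by omega) (by omega)
        have a2 := hd j (by omega)
        rw [← kfl_ind h0 h1', ← kfl_ind h0 h1'] at a2
        split_ifs at a1 a2 ⊢ <;> omega
  have hpos : ∀ j, kfl m j t' ≤ kfl m j t := fun j => Int.floor_le_floor (by linarith)
  have b1 := hδ (Y + 2) (by omega)
  have b2 := hpos (Y + 2)
  have hXlt : X < Y ∧ Y % 2 = X % 2 := by
    split_ifs at b1 <;> omega
  obtain ⟨s, hs⟩ : ∃ s, Y = X + 2 * s := ⟨(Y - X) / 2, by omega⟩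
  have grow : ∀ i, i ≤ s → kfl m (X + 1) t' + i ≤ kfl m (X + 1 + 2 * i) t' := by
    intro i
    induction i with
    | zero => simp
    | succ i ih =>
      intro hi
      have c1 := ih (by omega)
      have c2 := hδ (X + 1 + 2 * i + 1) (by omega)
      have c3 := hδ (X + 1 + 2 * i + 1 + 1) (by omega)
      have c4 := kfl_mono h0 hmono (X + 1 + 2 * i) t'
      have c5 := kfl_mono h0 hmono (X + 1 + 2 * i + 1) t
      have e : X + 1 + 2 * (i + 1) = X + 1 + 2 * i + 1 + 1 := by ring
      rw [e]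
      push_cast
      split_ifs at c2 c3 <;> omega
  refine ⟨hXlt.1, ?_⟩
  have g1 := grow s le_rfl
  have g2 := bseq_le h1 (X + 1) s
  have g3 : (kfl m (X + 1 + 2 * s) t' : ℝ) ≤ bseq m (X + 1 + 2 * s) + t' := Int.floor_le _
  have g4 : bseq m (X + 1) + t' < kfl m (X + 1) t' + 1 := Int.lt_floor_add_one _
  have g5 : (kfl m (X + 1) t' : ℝ) + s ≤ kfl m (X + 1 + 2 * s) t' := by exact_mod_cast g1
  rw [hs]; push_cast
  nlinarith

lemma integral_floor_sub (a b : ℝ) :
    ∫ t in Set.Ico (0 : ℝ) 1, ((⌊a + t⌋ : ℝ) - (⌊b + t⌋ : ℝ)) = a - b := by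
  have hper : Function.Periodic (Int.fract : ℝ → ℝ) 1 := fun x => Int.fract_add_one x
  have hint : ∀ c : ℝ, IntervalIntegrable (fun t => Int.fract (c + t)) volume 0 1 := by
    intro c
    refine (intervalIntegrable_const (c := (1 : ℝ))).mono_fun' ?_ ?_
    · exact (measurable_fract.comp (measurable_const_add c)).aestronglyMeasurable
    · refine Filter.Eventually.of_forall fun t => ?_
      have := Int.fract_nonneg (c + t)
      simp only [Real.norm_eq_abs, abs_of_nonneg this]
      exact (Int.fract_lt_one _).le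
  have hval : ∀ c : ℝ, ∫ t in (0 : ℝ)..1, Int.fract (c + t) = ∫ t in (0 : ℝ)..1, Int.fract t := by
    intro c
    rw [intervalIntegral.integral_comp_add_left (fun t => Int.fract t) c]
    have := hper.intervalIntegral_add_eq c 0
    simpa using this
  rw [integral_Ico_eq_integral_Ioc, ← intervalIntegral.integral_of_le zero_le_one]
  have : ∀ t : ℝ, ((⌊a + t⌋ : ℝ) - (⌊b + t⌋ : ℝ)) =
      (a - b) - (Int.fract (a + t) - Int.fract (b + t)) := by
    intro t; simp only [Int.fract]; ring
  simp_rw [this]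
  rw [intervalIntegral.integral_sub intervalIntegrable_const ((hint a).sub (hint b)),
    intervalIntegral.integral_sub (hint a) (hint b), hval, hval]
  simp

theorem sampling {η : ℝ} (hη : 0 < η) {Q : ℕ} (hQ : 2 ≤ Q * η) {κ : Type} [Fintype κ]
    [DecidableEq κ] (m : κ → ℝ) (h0 : ∀ l, 0 ≤ m l) (h1 : ∀ l, m l ≤ 1 - η) (hη1 : η ≤ 1)
    (M : ℕ) (hM : ∑ l, m l = M) :
    ∃ (p : Finset κ → ℝ) (col : Finset κ → ℕ), (∀ S, 0 ≤ p S) ∧ ∑ S, p S = 1 ∧
      (∀ l, ∑ S, p S * (if l ∈ S then 1 else 0) = m l) ∧ (∀ S, col S < Q) ∧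
      (∀ S, p S ≠ 0 → M ≤ S.card + 1 ∧ S.card ≤ M + 1) ∧
      ∀ S S', p S ≠ 0 → p S' ≠ 0 → S.card = S'.card → col S = col S' →
        (S \ S').card ≤ 1 → S = S' := by
  classical
  have hQ0 : 0 < Q := by
    rcases Nat.eq_zero_or_pos Q with h | h
    · subst h; norm_num at hQ
    · exact h
  set R := Fintype.card κ with hR
  let e0 : Fin R ≃ κ := (Fintype.equivFin κ).symm
  let σ : Fin R ≃ κ := (Tuple.sort (m ∘ e0)).trans e0
  have hσ : Monotone (m ∘ σ) := Tuple.monotone_sort (m ∘ e0)
  let m' : ℕ → ℝ := fun j => if h : j < R then m (σ ⟨j, h⟩) else 1 - η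
  have m0 : ∀ j, 0 ≤ m' j := fun j => by
    simp only [m']; split_ifs; exacts [h0 _, by linarith]
  have m1 : ∀ j, m' j ≤ 1 - η := fun j => by
    simp only [m']; split_ifs; exacts [h1 _, le_rfl]
  have m1' : ∀ j, m' j < 1 := fun j => by linarith [m1 j]
  have mmono : Monotone m' := by
    intro i j hij
    simp only [m']
    split_ifs with hi hj hj
    · exact hσ (show (⟨i, hi⟩ : Fin R) ≤ ⟨j, hj⟩ from hij)
    · exact h1 _
    · omega
    · exact le_rfl
  let idx : κ → ℕ := fun l => (σ.symm l : ℕ)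
  have idx_lt : ∀ l, idx l < R := fun l => (σ.symm l).2
  have idx_inj : Function.Injective idx := fun a b h => σ.symm.injective (Fin.ext h)
  have m_idx : ∀ l, m' (idx l) = m l := fun l => by
    simp only [m', idx]; rw [dif_pos (σ.symm l).2]; simp
  have sum_idx : ∀ {β : Type} [AddCommMonoid β] (F : ℕ → β),
      ∑ l, F (idx l) = ∑ j ∈ Finset.range R, F j := by
    intro β _ F
    rw [← Fin.sum_univ_eq_sum_range]
    exact Equiv.sum_comp σ.symm (fun j : Fin R => F j)
  let S : ℝ → Finset κ := fun t =>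
    Finset.univ.filter fun l => kfl m' (idx l) t < kfl m' (idx l + 2) t
  have kmeas : ∀ j, Measurable (kfl m' j) := fun j =>
    Int.measurable_floor.comp (measurable_const_add _)
  have Smeas : ∀ T, MeasurableSet {t | S t = T} := by
    intro T
    have : {t | S t = T} = ⋂ l, {t | kfl m' (idx l) t < kfl m' (idx l + 2) t ↔ l ∈ T} := by
      ext t; simp [S, Finset.ext_iff]
    rw [this]
    refine MeasurableSet.iInter fun l => ?_
    by_cases hl : l ∈ T
    · simpa [hl] using measurableSet_lt (kmeas _) (kmeas _)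
    · simpa [hl] using measurableSet_le (kmeas _) (kmeas _)
  let p : Finset κ → ℝ := fun T => ∫ t in Set.Ico (0 : ℝ) 1, if S t = T then 1 else 0
  have pint : ∀ T, Integrable (fun t => if S t = T then (1 : ℝ) else 0)
      (volume.restrict (Set.Ico (0 : ℝ) 1)) := by
    intro T
    have := (integrable_const (μ := volume.restrict (Set.Ico (0 : ℝ) 1)) (1 : ℝ)).indicator
      (Smeas T)
    refine this.congr (Filter.Eventually.of_forall fun t => ?_)
    simp [Set.indicator_apply]
  have psum : ∀ g : Finset κ → ℝ, ∑ T, p T * g T = ∫ t in Set.Ico (0 : ℝ) 1, g (S t) := by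
    intro g
    simp only [p]
    simp_rw [← integral_mul_const]
    rw [← integral_finsetSum _ fun T _ => (pint T).mul_const _]
    congr 1; ext t; simp
  have pex : ∀ T, p T ≠ 0 → ∃ t ∈ Set.Ico (0 : ℝ) 1, S t = T := by
    intro T hT
    by_contra h
    push Not at h
    apply hT
    simp only [p]
    rw [setIntegral_congr_fun measurableSet_Ico (g := fun _ => (0 : ℝ))]
    · simp
    · intro t ht; simp [h t ht]
  refine ⟨p, fun T => (∑ l ∈ T, idx l) % Q, ?_, ?_, ?_, ?_, ?_, ?_⟩
  · intro T; exact integral_nonneg fun t => by dsimp only; split_ifs <;> norm_num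
  · have := psum fun _ => 1
    simpa using this
  · intro l
    rw [psum fun T => if l ∈ T then 1 else 0, ← m_idx l]
    have e : m' (idx l) = bseq m' (idx l + 2) - bseq m' (idx l) := by
      simp [bseq]
    rw [e, ← integral_floor_sub]
    congr 1; ext t
    have := kfl_ind m0 m1' (idx l) t
    have h2 : ((kfl m' (idx l + 2) t - kfl m' (idx l) t : ℤ) : ℝ) =
      ((if kfl m' (idx l) t < kfl m' (idx l + 2) t then 1 else 0 : ℤ) : ℝ) := by rw [this]
    push_cast at h2
    simp only [S, Finset.mem_filter, Finset.mem_univ, true_and]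
    exact h2.symm
  · intro T; exact Nat.mod_lt _ hQ0
  · intro T hT
    obtain ⟨t, ht, rfl⟩ := pex T hT
    have c1 : ((S t).card : ℤ) = kfl m' R t + kfl m' (R + 1) t := by
      simp only [S]
      rw [Finset.card_filter]
      push_cast
      rw [sum_idx (fun j => if kfl m' j t < kfl m' (j + 2) t then (1 : ℤ) else 0)]
      simp_rw [← kfl_ind m0 m1']
      have : ∀ r : ℕ, ∑ j ∈ Finset.range r, (kfl m' (j + 2) t - kfl m' j t) =
          kfl m' r t + kfl m' (r + 1) t := by
        intro r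
        induction r with
        | zero => simp [kfl_zero m' ht, kfl_one m' ht]
        | succ r ih => rw [Finset.sum_range_succ, ih]; ring
      exact this R
    have c2 : bseq m' R + bseq m' (R + 1) = M := by
      rw [bseq_add, ← sum_idx m', ← hM]; simp [m_idx]
    have c3 : (kfl m' R t : ℝ) ≤ bseq m' R + t := Int.floor_le _
    have c4 : (kfl m' (R + 1) t : ℝ) ≤ bseq m' (R + 1) + t := Int.floor_le _
    have c5 : bseq m' R + t < kfl m' R t + 1 := Int.lt_floor_add_one _
    have c6 : bseq m' (R + 1) + t < kfl m' (R + 1) t + 1 := Int.lt_floor_add_one _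
    have c7 : ((S t).card : ℝ) = kfl m' R t + kfl m' (R + 1) t := by exact_mod_cast c1
    have c8 : ((S t).card : ℝ) < M + 2 := by linarith [ht.2]
    have c9 : (M : ℝ) < (S t).card + 2 := by linarith [ht.1]
    have c10 : (S t).card < M + 2 := by exact_mod_cast c8
    have c11 : M < (S t).card + 2 := by exact_mod_cast c9
    omega
  · intro T T' hT hT' hcard hcol hle
    by_contra hne
    obtain ⟨t, ht, rfl⟩ := pex T hT
    obtain ⟨t', ht', rfl⟩ := pex T' hT'
    have hc2 : (S t' \ S t).card = (S t \ S t').card := by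
      rw [Finset.card_sdiff_comm hcard.symm]
    have hc1 : (S t \ S t').card = 1 := by
      by_contra h
      have h0' : (S t \ S t').card = 0 := by omega
      rw [Finset.card_eq_zero, Finset.sdiff_eq_empty_iff_subset] at h0'
      exact hne (Finset.eq_of_subset_of_card_le h0' hcard.ge)
    obtain ⟨x, hx⟩ := Finset.card_eq_one.1 hc1
    obtain ⟨y, hy⟩ := Finset.card_eq_one.1 (hc2.trans hc1)
    have hxm : ∀ l, l = x ↔ l ∈ S t ∧ l ∉ S t' := fun l => by
      rw [← Finset.mem_sdiff, hx, Finset.mem_singleton]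
    have hym : ∀ l, l = y ↔ l ∈ S t' ∧ l ∉ S t := fun l => by
      rw [← Finset.mem_sdiff, hy, Finset.mem_singleton]
    have hxy : x ≠ y := fun h => ((hym x).1 h).2 ((hxm x).1 rfl).1
    have hd : ∀ j < R, (if kfl m' j t < kfl m' (j + 2) t then (1 : ℤ) else 0) -
        (if kfl m' j t' < kfl m' (j + 2) t' then 1 else 0) =
        (if j = idx x then 1 else 0) - (if j = idx y then 1 else 0) := by
      intro j hj
      obtain ⟨l, rfl⟩ : ∃ l, idx l = j := ⟨σ ⟨j, hj⟩, by simp [idx]⟩
      have e1 : kfl m' (idx l) t < kfl m' (idx l + 2) t ↔ l ∈ S t := by simp [S]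
      have e2 : kfl m' (idx l) t' < kfl m' (idx l + 2) t' ↔ l ∈ S t' := by simp [S]
      simp only [e1, e2, idx_inj.eq_iff, hxm, hym]
      by_cases a : l ∈ S t <;> by_cases b : l ∈ S t' <;> simp [a, b]
    have s1 : ∑ l ∈ S t, idx l = ∑ l ∈ S t ∩ S t', idx l + idx x := by
      rw [← Finset.sum_inter_add_sum_sdiff (S t) (S t'), hx]; simp
    have s2 : ∑ l ∈ S t', idx l = ∑ l ∈ S t ∩ S t', idx l + idx y := by
      rw [← Finset.sum_inter_add_sum_sdiff (S t') (S t), hy, Finset.inter_comm]; simp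
    simp only [s1, s2] at hcol
    have hmod : idx x ≡ idx y [MOD Q] := Nat.ModEq.add_left_cancel' _ hcol
    have fin : ∀ X Y : ℕ, X ≡ Y [MOD Q] → X < Y → ((Y : ℝ) - X) * η < 2 → False := by
      intro X Y hm hlt hr
      have hdvd := (Nat.modEq_iff_dvd' hlt.le).1 hm
      have hle := Nat.le_of_dvd (by omega) hdvd
      have : (Q : ℝ) ≤ (Y : ℝ) - X := by
        rw [← Nat.cast_sub hlt.le]; exact_mod_cast hle
      nlinarith
    rcases le_total t' t with htt | htt
    · obtain ⟨a1, a2⟩ := conflict hη m0 m1 mmono (idx_lt y) (idx_inj.ne hxy) ht ht' htt hd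
      exact fin _ _ hmod a1 a2
    · obtain ⟨a1, a2⟩ := conflict hη m0 m1 mmono (idx_lt x) (idx_inj.ne hxy.symm) ht' ht htt
        (fun j hj => by linarith [hd j hj])
      exact fin _ _ hmod.symm a1 a2

end Pool.Agent.Lib.MP_ae5e3b_mp
end
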