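import Pool.Agent.Lib.MP_ae5e3b_mp.SDefs
import Pool.Agent.Lib.MP_ae5e3b_mp.Sampling

-- part Pool.Agent.Lib.MP_ae5e3b_mp.Assemble
section

open MeasureTheory Filter Topology ComplexConjugate
open scoped ENNReal ContDiff

set_option linter.unusedSectionVars false

namespace Pool.Agent.Lib.MP_ae5e3b_mp

section Diag
variable {α : Type} [MeasurableSpace α] {μ : Measure α}

lemma diag_family {ι : Type} [Fintype ι] [DecidableEq ι] (v : ι → α → ℂ)
    (v2 : ∀ i, MemLp (v i) 2 μ) :
    ∃ (U : ι → ι → ℂ) (lam : ι → ℝ),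
      (∀ z : ι → ℂ, ∑ l, ‖∑ j, U j l * z j‖ ^ 2 = ∑ j, ‖z j‖ ^ 2) ∧
      (∀ l, ∑ j, ‖U j l‖ ^ 2 = 1) ∧
      ∀ l l', ∫ x, conj (∑ j, U j l * v j x) * (∑ j, U j l' * v j x) ∂μ =
        if l = l' then (lam l : ℂ) else 0 := by
  let G : Matrix ι ι ℂ := Matrix.of fun i j => ∫ x, conj (v i x) * v j x ∂μ
  have hG : G.IsHermitian := by
    ext i j
    simp only [G, Matrix.conjTranspose_apply, Matrix.of_apply, RCLike.star_def]
    rw [← integral_conj]
    congr 1; ext x; simp [mul_comm]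
  let U : Matrix ι ι ℂ := hG.eigenvectorUnitary
  have hU1 : star U * U = 1 := Unitary.coe_star_mul_self hG.eigenvectorUnitary
  have hU2 : U * star U = 1 := Unitary.coe_mul_star_self hG.eigenvectorUnitary
  have hD : star U * G * U = Matrix.diagonal (RCLike.ofReal ∘ hG.eigenvalues) := by
    have := hG.conjStarAlgAut_star_eigenvectorUnitary
    rw [Unitary.conjStarAlgAut_star_apply] at this
    exact this
  refine ⟨fun j l => U j l, hG.eigenvalues, ?_, ?_, ?_⟩
  · intro z
    apply Complex.ofReal_injective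
    push_cast
    simp_rw [← Complex.conj_mul']
    have : ∀ l, conj (∑ j, U j l * z j) * ∑ j, U j l * z j =
        ∑ i, ∑ j, conj (z i) * z j * (U j l * conj (U i l)) := by
      intro l
      rw [map_sum, Finset.sum_mul_sum]
      refine Finset.sum_congr rfl fun i _ => Finset.sum_congr rfl fun j _ => ?_
      rw [map_mul]; ring
    simp_rw [this]
    rw [Finset.sum_comm]
    refine Finset.sum_congr rfl fun i _ => ?_
    rw [Finset.sum_comm]
    simp_rw [← Finset.mul_sum]
    have h3 : ∀ j, ∑ l, U j l * conj (U i l) = if j = i then 1 else 0 := by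
      intro j
      have := congrFun (congrFun hU2 j) i
      simpa [Matrix.mul_apply, Matrix.one_apply] using this
    simp [h3]
  · intro l
    apply Complex.ofReal_injective
    push_cast
    simp_rw [← Complex.conj_mul']
    have := congrFun (congrFun hU1 l) l
    simpa [Matrix.mul_apply, Matrix.one_apply] using this
  · intro l l'
    rw [integral_conj_sum_mul_sum _ _ v2 v2]
    have := congrFun (congrFun hD l) l'
    simp only [Matrix.mul_apply, Matrix.diagonal_apply, Matrix.star_apply, RCLike.star_def,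
      Function.comp, G, Matrix.of_apply] at this
    have e : (if l = l' then (hG.eigenvalues l : ℂ) else 0) =
      (if l = l' then RCLike.ofReal (hG.eigenvalues l) else 0) := rfl
    rw [e, ← this, Finset.sum_comm]
    refine Finset.sum_congr rfl fun j _ => ?_
    rw [Finset.sum_mul]
    refine Finset.sum_congr rfl fun i _ => ?_
    ring

end Diag

lemma kinetic_le {d n : ℕ} {Ψ : (Fin (n + 1) → Fin d → ℝ) → ℂ} (h2 : MemLp Ψ 2 volume)
    (B : Fin d → ℝ) (hB0 : ∀ r, 0 ≤ B r)
    (hB : ∀ (i : Fin (n + 1)) (r : Fin d) (h : ℝ), 0 < h → ((n : ℝ) + 1) *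
      ∫ x, ‖Ψ (x + Pi.single i (h • Pi.single r (1 : ℝ))) - Ψ x‖ ^ 2 ≤ h ^ 2 * B r) :
    kinetic Ψ ≤ ENNReal.ofReal (∑ r, B r) := by
  have hN : (0 : ℝ) < (n : ℝ) + 1 := by positivity
  have : ∀ p : Fin (n + 1) × Fin d, ∃ g : (Fin (n + 1) → Fin d → ℝ) → ℂ, MemLp g 2 volume ∧
      IsWeakDeriv Ψ g (Pi.single p.1 (Pi.single p.2 (1 : ℝ))) ∧
      ∫ x, ‖g x‖ ^ 2 ≤ B p.2 / ((n : ℝ) + 1) := by
    intro p
    refine weak_of_diff_le h2 (div_nonneg (hB0 _) hN.le) fun h hh => ?_
    have h1 := hB p.1 p.2 h hh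
    rw [Pi.single_smul'] at h1
    rw [← mul_div_assoc, le_div_iff₀ hN, mul_comm]
    exact h1
  choose g hg using this
  unfold kinetic dirichlet
  refine (iInf₂_le g fun p => ⟨(hg p).1, (hg p).2.1⟩).trans ?_
  calc _ ≤ ∑ p : Fin (n + 1) × Fin d, ENNReal.ofReal (B p.2 / ((n : ℝ) + 1)) := by
        refine Finset.sum_le_sum fun p _ => ?_
        rw [lintegral_enorm_sq (hg p).1]
        exact ENNReal.ofReal_le_ofReal (hg p).2.2
    _ = _ := by
        rw [← ENNReal.ofReal_sum_of_nonneg fun p _ => div_nonneg (hB0 _) hN.le]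
        congr 1
        rw [Fintype.sum_prod_type]
        simp only [Finset.sum_const, Finset.card_univ, Fintype.card_fin, nsmul_eq_mul]
        rw [← Finset.sum_div]; push_cast; field_simp

theorem assemble {d n : ℕ} {ι : Type} [Fintype ι] [DecidableEq ι] {η : ℝ} (hη : 0 < η)
    (hη1 : η ≤ 1) {Q : ℕ} (hQ : 2 ≤ Q * η) (hn : 3 ≤ n)
    (v : ι → (Fin d → ℝ) → ℂ) (vm : ∀ i, Measurable (v i)) (v2 : ∀ i, MemLp (v i) 2 volume)
    (bessel : ∀ c : ι → ℂ, ∫ x, ‖∑ i, c i * v i x‖ ^ 2 ≤ (1 - η) * ∑ i, ‖c i‖ ^ 2)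
    (lab : ℕ → (Fin d → ℝ) → ℂ) (lm : ∀ a, Measurable (lab a))
    (l2 : ∀ a, MemLp (lab a) 2 volume)
    (lon : ∀ a b, ∫ x, conj (lab a x) * lab b x = if a = b then 1 else 0)
    (lv : ∀ a i, ∫ x, conj (lab a x) * v i x = 0)
    (σ : (Fin d → ℝ) → ℝ) (hσ : ∀ a x, ‖lab a x‖ ^ 2 = σ x)
    (ρ : (Fin d → ℝ) → ℝ) (hρ : ∀ x, ∑ i, ‖v i x‖ ^ 2 + 3 * σ x = ρ x)
    (hint : ∫ x, ρ x = (n : ℝ) + 1)
    (Ev El : Fin d → ℝ) (hEv0 : ∀ r, 0 ≤ Ev r) (hEl0 : ∀ r, 0 ≤ El r)
    (hEv : ∀ r (h : ℝ), 0 < h →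
      ∑ i, ∫ x, ‖v i (x + h • Pi.single r (1 : ℝ)) - v i x‖ ^ 2 ≤ h ^ 2 * Ev r)
    (hEl : ∀ a < 12 * Q, ∀ r (h : ℝ), 0 < h →
      ∫ x, ‖lab a (x + h • Pi.single r (1 : ℝ)) - lab a x‖ ^ 2 ≤ h ^ 2 * El r) :
    ∃ Ψ : (Fin (n + 1) → Fin d → ℝ) → ℂ, IsState Ψ ∧ (∀ᵐ x, density Ψ x = ρ x) ∧
      kinetic Ψ ≤ ENNReal.ofReal (∑ r, (Ev r + 4 * El r)) := by
  classical
  obtain ⟨U, lam, hU1, hU2, hU3⟩ := diag_family v v2
  let w : ι → (Fin d → ℝ) → ℂ := fun l x => ∑ j, U j l * v j x
  have wm : ∀ l, Measurable (w l) := fun l =>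
    Finset.measurable_sum _ fun j _ => (vm j).const_mul _
  have w2 : ∀ l, MemLp (w l) 2 volume := fun l => memLp_sum_smul _ v2 _
  have wl : ∀ l, ∫ x, ‖w l x‖ ^ 2 = lam l := by
    intro l
    apply Complex.ofReal_injective
    rw [integral_normsq_eq, hU3, if_pos rfl]
  have lam0 : ∀ l, 0 ≤ lam l := fun l => by
    rw [← wl]; exact integral_nonneg fun x => by positivity
  have lam1 : ∀ l, lam l ≤ 1 - η := fun l => by
    have := bessel fun j => U j l
    rw [hU2, mul_one] at this
    rw [← wl]; exact this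
  have σint : ∫ x, σ x = 1 := by
    apply Complex.ofReal_injective
    simp_rw [← hσ 0]
    rw [integral_normsq_eq, lon]; simp
  have σi : Integrable σ := by
    have := integrable_normsq (l2 0)
    simpa [hσ] using this
  have lamsum : ∑ l, lam l = ((n - 2 : ℕ) : ℝ) := by
    simp_rw [← wl]
    rw [← integral_finsetSum _ fun l _ => integrable_normsq (w2 l)]
    have e1 : ∀ x, ∑ l, ‖w l x‖ ^ 2 = ∑ i, ‖v i x‖ ^ 2 := fun x => hU1 fun j => v j x
    simp_rw [e1]
    have e2 : ∫ x, ρ x = (∫ x, ∑ i, ‖v i x‖ ^ 2) + 3 * ∫ x, σ x := by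
      simp_rw [← hρ]
      rw [integral_add (integrable_finsetSum _ fun l _ => integrable_normsq (v2 l))
        (σi.const_mul 3), integral_const_mul]
    rw [hint, σint] at e2
    rw [Nat.cast_sub (by omega)]; push_cast; linarith
  let κ₀ := {l : ι // 0 < lam l}
  have sumκ : ∀ F : ι → ℝ, (∀ l, lam l = 0 → F l = 0) → ∑ l : κ₀, F l.1 = ∑ l, F l := by
    intro F hF
    rw [← Finset.sum_subtype (Finset.univ.filter fun l => 0 < lam l)
        (p := fun l => 0 < lam l) (by simp) F]
    refine Finset.sum_filter_of_ne fun l _ hl => ?_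
    exact lt_of_le_of_ne (lam0 l) fun h => hl (hF l h.symm)
  obtain ⟨p, col, p0, p1, pm, hcol, hcard, hsep⟩ := sampling hη hQ (fun l : κ₀ => lam l.1)
    (fun l => lam0 _) (fun l => lam1 _) hη1 (n - 2)
    (by rw [sumκ lam fun _ h => h, lamsum])
  let φ : κ₀ ⊕ ℕ → (Fin d → ℝ) → ℂ := fun k => match k with
    | .inl l => fun x => (((√(lam l.1))⁻¹ : ℝ) : ℂ) * w l.1 x
    | .inr a => lab a
  have φm : ∀ k, Measurable (φ k) := by
    rintro (l | a)
    · exact (wm _).const_mul _
    · exact lm a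
  have φ2 : ∀ k, MemLp (φ k) 2 volume := by
    rintro (l | a)
    · exact (w2 _).const_mul _
    · exact l2 a
  have lw : ∀ a l, ∫ x, conj (lab a x) * w l x = 0 := by
    intro a l
    have := integral_conj_sum_mul_sum (μ := volume) (Finset.univ : Finset Unit) Finset.univ
      (P := fun _ => lab a) (Q := v) (fun _ => l2 a) v2 (fun _ => 1) (fun j => U j l)
    simpa [lv] using this
  have φon : ∀ k l, ∫ x, conj (φ k x) * φ l x = if k = l then 1 else 0 := by
    rintro (l | a) (l' | b)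
    · simp only [φ]
      have : ∀ x, conj ((((√(lam l.1))⁻¹ : ℝ) : ℂ) * w l.1 x) *
          ((((√(lam l'.1))⁻¹ : ℝ) : ℂ) * w l'.1 x) =
          ((((√(lam l.1))⁻¹ : ℝ) : ℂ) * (((√(lam l'.1))⁻¹ : ℝ) : ℂ)) *
          (conj (w l.1 x) * w l'.1 x) := by
        intro x; rw [map_mul, Complex.conj_ofReal]; ring
      simp_rw [this]
      rw [integral_const_mul, hU3]
      by_cases h : l = l'
      · subst h
        rw [if_pos rfl, if_pos rfl]
        have h1 := l.2
        have h2 : √(lam l.1) * √(lam l.1) = lam l.1 := Real.mul_self_sqrt h1.le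
        have h3 : √(lam l.1) ≠ 0 := (Real.sqrt_pos.2 h1).ne'
        have : (√(lam l.1))⁻¹ * (√(lam l.1))⁻¹ * lam l.1 = 1 := by
          field_simp; nlinarith
        exact_mod_cast this
      · rw [if_neg (fun h' => h (Subtype.ext h')), if_neg (by simpa using h), mul_zero]
    · simp only [φ]
      have : ∀ x, conj ((((√(lam l.1))⁻¹ : ℝ) : ℂ) * w l.1 x) * lab b x =
          (((√(lam l.1))⁻¹ : ℝ) : ℂ) * conj (conj (lab b x) * w l.1 x) := by
        intro x; rw [map_mul, Complex.conj_ofReal]; simp; ring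
      simp_rw [this]
      rw [integral_const_mul, integral_conj, lw]; simp
    · simp only [φ]
      have : ∀ x, conj (lab a x) * ((((√(lam l'.1))⁻¹ : ℝ) : ℂ) * w l'.1 x) =
          (((√(lam l'.1))⁻¹ : ℝ) : ℂ) * (conj (lab a x) * w l'.1 x) := by
        intro x; ring
      simp_rw [this]
      rw [integral_const_mul, lw]; simp
    · simp only [φ]; rw [lon]; simp
  let A := {S : Finset κ₀ // p S ≠ 0}
  let blk : Finset κ₀ → ℕ := fun S => (S.card + 3 - n) * Q + col S
  let labs : Finset κ₀ → Finset ℕ := fun S =>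
    Finset.Ico (4 * blk S) (4 * blk S + (n + 1 - S.card))
  let T : Finset κ₀ → Finset (κ₀ ⊕ ℕ) := fun S => S.disjSum (labs S)
  have hT : ∀ a : A, (T a.1).card = n + 1 := by
    intro a
    have := hcard a.1 a.2
    simp only [T, labs, Finset.card_disjSum, Nat.card_Ico]
    omega
  let e : A → Fin (n + 1) → κ₀ ⊕ ℕ := fun a j => ((Finset.equivFinOfCardEq (hT a)).symm j).1
  have e_inj : ∀ a, Function.Injective (e a) := fun a i j h =>
    (Finset.equivFinOfCardEq (hT a)).symm.injective (Subtype.ext h)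
  have e_mem : ∀ a j, e a j ∈ T a.1 := fun a j => ((Finset.equivFinOfCardEq (hT a)).symm j).2
  have e_surj : ∀ a k, k ∈ T a.1 → ∃ j, e a j = k := fun a k hk =>
    ⟨Finset.equivFinOfCardEq (hT a) ⟨k, hk⟩, by simp [e]⟩
  have e_sum : ∀ (a : A) (F : κ₀ ⊕ ℕ → ℝ), ∑ j, F (e a j) =
      ∑ l ∈ a.1, F (.inl l) + ∑ b ∈ labs a.1, F (.inr b) := by
    intro a F
    rw [← Finset.sum_disjSum, ← Finset.sum_coe_sort (T a.1) F]
    exact Equiv.sum_comp (Finset.equivFinOfCardEq (hT a)).symm (fun k : T a.1 => F k.1)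
  have sumA : ∀ F : Finset κ₀ → ℝ, ∑ a : A, p a.1 * F a.1 = ∑ S, p S * F S := by
    intro F
    rw [← Finset.sum_subtype (Finset.univ.filter fun S => p S ≠ 0)
        (p := fun S => p S ≠ 0) (by simp) (fun S => p S * F S)]
    refine Finset.sum_filter_of_ne fun S _ hS => ?_
    exact fun h => hS (by rw [h, zero_mul])
  have sumS : ∀ F : κ₀ → ℝ, ∑ S, p S * ∑ l ∈ S, F l = ∑ l, lam l.1 * F l := by
    intro F
    simp_rw [← pm, Finset.sum_mul]
    rw [Finset.sum_comm]
    refine Finset.sum_congr rfl fun S _ => ?_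
    rw [Finset.mul_sum]
    simp
  have hsep' : ∀ (a b : A) (i : Fin (n + 1)), (∀ j, j ≠ i → ∃ k, e a j = e b k) → a = b := by
    intro a b i h
    have key : ∀ k ∈ T a.1, k ≠ e a i → k ∈ T b.1 := by
      intro k hk hne
      obtain ⟨j, rfl⟩ := e_surj a k hk
      obtain ⟨k', hk'⟩ := h j (fun h' => hne (by rw [h']))
      rw [hk']; exact e_mem b k'
    have ca := hcard a.1 a.2
    have cb := hcard b.1 b.2
    have hblk : blk a.1 = blk b.1 := by
      have m1 : (Sum.inr (4 * blk a.1) : κ₀ ⊕ ℕ) ∈ T a.1 := by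
        simp only [T, labs, Finset.inr_mem_disjSum, Finset.mem_Ico]; omega
      have m2 : (Sum.inr (4 * blk a.1 + 1) : κ₀ ⊕ ℕ) ∈ T a.1 := by
        simp only [T, labs, Finset.inr_mem_disjSum, Finset.mem_Ico]; omega
      by_cases h1 : (Sum.inr (4 * blk a.1) : κ₀ ⊕ ℕ) = e a i
      · have h2 : (Sum.inr (4 * blk a.1 + 1) : κ₀ ⊕ ℕ) ≠ e a i := by
          rw [← h1]; simp
        have := key _ m2 h2
        simp only [T, labs, Finset.inr_mem_disjSum, Finset.mem_Ico] at this
        omega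
      · have := key _ m1 h1
        simp only [T, labs, Finset.inr_mem_disjSum, Finset.mem_Ico] at this
        omega
    have hc1 := hcol a.1
    have hc2 := hcol b.1
    have hQ0 : 0 < Q := by omega
    have hb1 : a.1.card + 3 - n = b.1.card + 3 - n := by
      have := congrArg (· / Q) hblk
      simp only [blk] at this
      rwa [mul_comm _ Q, mul_comm _ Q, Nat.mul_add_div hQ0, Nat.mul_add_div hQ0,
        Nat.div_eq_of_lt hc1, Nat.div_eq_of_lt hc2, add_zero, add_zero] at this
    have hb2 : col a.1 = col b.1 := by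
      simp only [blk, hb1] at hblk; omega
    refine Subtype.ext (hsep _ _ a.2 b.2 (by omega) hb2 ?_)
    rw [Finset.card_le_one]
    intro x hx y hy
    rw [Finset.mem_sdiff] at hx hy
    have hx' : (Sum.inl x : κ₀ ⊕ ℕ) = e a i := by
      by_contra hne
      have := key _ (by simpa [T] using hx.1) hne
      exact hx.2 (by simpa [T] using this)
    have hy' : (Sum.inl y : κ₀ ⊕ ℕ) = e a i := by
      by_contra hne
      have := key _ (by simpa [T] using hy.1) hne
      exact hy.2 (by simpa [T] using this)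
    exact Sum.inl_injective (hx'.trans hy'.symm)
  obtain ⟨Ψ, s1, s2, s3, s4, s5⟩ := slater_state φ φm φ2 φon (fun a : A => p a.1)
    (fun a => p0 _) (by simpa using (sumA fun _ => 1).trans (by simpa using p1)) e e_inj hsep'
  have φsq : ∀ (l : κ₀) (z : ℂ), lam l.1 * ‖(((√(lam l.1))⁻¹ : ℝ) : ℂ) * z‖ ^ 2 = ‖z‖ ^ 2 := by
    intro l z
    have h1 := l.2
    rw [norm_mul, mul_pow, Complex.norm_real, Real.norm_eq_abs, sq_abs, inv_pow,
      Real.sq_sqrt h1.le]
    field_simp
  refine ⟨Ψ, ⟨s1, s2, fun i j hij => Eventually.of_forall (s3 i j hij)⟩, ?_, ?_⟩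
  · have hz : ∀ᵐ x, ∀ l, lam l = 0 → w l x = 0 := by
      rw [ae_all_iff]
      intro l
      by_cases hl : lam l = 0
      · have h1 := wl l
        rw [hl, integral_eq_zero_iff_of_nonneg (fun x => by positivity)
          (integrable_normsq (w2 l))] at h1
        filter_upwards [h1] with x hx _
        simpa using hx
      · exact Eventually.of_forall fun x h => absurd h hl
    filter_upwards [hz] with x hx
    unfold density
    rw [s4 x]
    simp_rw [e_sum _ fun k => ‖φ k x‖ ^ 2]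
    have e1 : ∀ a : A, ∑ b ∈ labs a.1, ‖φ (.inr b) x‖ ^ 2 =
        (((n : ℝ) + 1) - ∑ l ∈ a.1, (1 : ℝ)) * σ x := by
      intro a
      have := hcard a.1 a.2
      simp only [φ, hσ, labs, Finset.sum_const, Nat.card_Ico, nsmul_eq_mul, mul_one]
      rw [Nat.add_sub_cancel_left, Nat.cast_sub (by omega)]; push_cast; ring
    simp_rw [e1]
    rw [sumA fun S => ∑ l ∈ S, ‖φ (.inl l) x‖ ^ 2 + (((n : ℝ) + 1) - ∑ l ∈ S, (1 : ℝ)) * σ x]
    have e2 : ∀ S : Finset κ₀, p S * (∑ l ∈ S, ‖φ (.inl l) x‖ ^ 2 +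
        (((n : ℝ) + 1) - ∑ l ∈ S, (1 : ℝ)) * σ x) = p S * ∑ l ∈ S, ‖φ (.inl l) x‖ ^ 2 +
        (p S * (((n : ℝ) + 1) * σ x) - (p S * ∑ l ∈ S, (1 : ℝ)) * σ x) := fun S => by ring
    simp_rw [e2]
    rw [Finset.sum_add_distrib, Finset.sum_sub_distrib, ← Finset.sum_mul, ← Finset.sum_mul,
      sumS, sumS, p1]
    simp only [φ, φsq, mul_one]
    rw [sumκ lam fun _ h => h, lamsum, sumκ (fun l => ‖w l x‖ ^ 2) fun l h => by simp [hx l h],
      hU1 fun j => v j x, ← hρ, Nat.cast_sub (by omega)]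
    push_cast; ring
  · refine kinetic_le s1 _ (fun r => by have := hEv0 r; have := hEl0 r; positivity)
      fun i r h hh => ?_
    rw [s5]
    set y : Fin d → ℝ := h • Pi.single r (1 : ℝ) with hy
    simp_rw [e_sum _ fun k => ∫ x, ‖φ k (x + y) - φ k x‖ ^ 2]
    have e1 : ∀ a : A, ∑ b ∈ labs a.1, ∫ x, ‖φ (.inr b) (x + y) - φ (.inr b) x‖ ^ 2 ≤
        4 * (h ^ 2 * El r) := by
      intro a
      have ca := hcard a.1 a.2
      have hc1 := hcol a.1
      calc _ ≤ ∑ b ∈ labs a.1, h ^ 2 * El r := by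
            refine Finset.sum_le_sum fun b hb => hEl b ?_ r h hh
            simp only [labs, blk, Finset.mem_Ico] at hb
            have : (a.1.card + 3 - n) * Q ≤ 2 * Q := Nat.mul_le_mul_right _ (by omega)
            omega
        _ ≤ _ := by
            rw [Finset.sum_const, nsmul_eq_mul]
            have h4 : (labs a.1).card ≤ 4 := by
              simp only [labs, Nat.card_Ico]; omega
            have h5 : ((labs a.1).card : ℝ) ≤ 4 := by exact_mod_cast h4
            have := hEl0 r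
            gcongr
    calc _ ≤ ∑ a : A, p a.1 * (∑ l ∈ a.1, (∫ x, ‖φ (.inl l) (x + y) - φ (.inl l) x‖ ^ 2) +
            4 * (h ^ 2 * El r)) := by
          refine Finset.sum_le_sum fun a _ => ?_
          have := p0 a.1
          gcongr
          exact e1 a
      _ = ∑ l : κ₀, lam l.1 * (∫ x, ‖φ (.inl l) (x + y) - φ (.inl l) x‖ ^ 2) +
            4 * (h ^ 2 * El r) := by
          rw [sumA fun S => ∑ l ∈ S, (∫ x, ‖φ (.inl l) (x + y) - φ (.inl l) x‖ ^ 2) +
            4 * (h ^ 2 * El r)]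
          simp_rw [mul_add]
          rw [Finset.sum_add_distrib, sumS, ← Finset.sum_mul, p1, one_mul]
      _ ≤ h ^ 2 * Ev r + 4 * (h ^ 2 * El r) := by
          gcongr
          refine le_trans ?_ (hEv r h hh)
          have e2 : ∀ l : κ₀, lam l.1 * (∫ x, ‖φ (.inl l) (x + y) - φ (.inl l) x‖ ^ 2) =
              ∫ x, ‖w l.1 (x + y) - w l.1 x‖ ^ 2 := by
            intro l
            rw [← integral_const_mul]
            congr 1; ext x
            simp only [φ]
            rw [← mul_sub, φsq]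
          simp_rw [e2]
          have e3 : ∑ l : κ₀, ∫ x, ‖w l.1 (x + y) - w l.1 x‖ ^ 2 ≤
              ∑ l, ∫ x, ‖w l (x + y) - w l x‖ ^ 2 := by
            rw [← Finset.sum_subtype (Finset.univ.filter fun l => 0 < lam l)
              (p := fun l => 0 < lam l) (by simp) fun l => ∫ x, ‖w l (x + y) - w l x‖ ^ 2]
            exact Finset.sum_le_sum_of_subset_of_nonneg (Finset.filter_subset _ _)
              fun l _ _ => integral_nonneg fun x => by positivity
          refine e3.trans (le_of_eq ?_)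
          rw [← hy, ← integral_finsetSum (f := fun l x => ‖w l (x + y) - w l x‖ ^ 2) _ fun l _ =>
              integrable_normsq ((memLp_shift (w2 l) y).sub (w2 l)),
            ← integral_finsetSum (f := fun l x => ‖v l (x + y) - v l x‖ ^ 2) _ fun l _ =>
              integrable_normsq ((memLp_shift (v2 l) y).sub (v2 l))]
          congr 1; ext x
          rw [← hU1 fun j => v j (x + y) - v j x]
          refine Finset.sum_congr rfl fun l _ => ?_
          simp only [w, mul_sub, Finset.sum_sub_distrib]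
      _ = _ := by ring

end Pool.Agent.Lib.MP_ae5e3b_mp
end

-- part Pool.Agent.Lib.MP_ae5e3b_mp.CDF
section

open MeasureTheory Filter Topology ComplexConjugate ProbabilityTheory
open scoped ENNReal ContDiff

set_option linter.unusedSectionVars false

namespace Pool.Agent.Lib.MP_ae5e3b_mp

lemma map_cdf_eq (ν : Measure ℝ) [IsProbabilityMeasure ν] (hc : Continuous (cdf ν)) :
    ν.map (cdf ν) = volume.restrict (Set.Icc (0 : ℝ) 1) := by
  have hm : Measurable (cdf ν) := hc.measurable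
  have : IsProbabilityMeasure (ν.map (cdf ν)) := Measure.isProbabilityMeasure_map hm.aemeasurable
  refine Measure.ext_of_Iic _ _ fun y => ?_
  rw [Measure.map_apply hm measurableSet_Iic, Measure.restrict_apply measurableSet_Iic]
  rcases lt_or_ge y 0 with hy | hy
  · have e1 : cdf ν ⁻¹' Set.Iic y = ∅ := by
      ext s; simpa using lt_of_lt_of_le hy (cdf_nonneg ν s)
    have e2 : Set.Iic y ∩ Set.Icc (0 : ℝ) 1 = ∅ := by
      ext s; simp only [Set.mem_inter_iff, Set.mem_Iic, Set.mem_Icc, Set.mem_empty_iff_false,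
        iff_false, not_and]
      intro h1 h2; linarith
    rw [e1, e2]; simp
  rcases le_or_gt 1 y with hy1 | hy1
  · have e1 : cdf ν ⁻¹' Set.Iic y = Set.univ := by
      ext s; simpa using (cdf_le_one ν s).trans hy1
    have e2 : Set.Iic y ∩ Set.Icc (0 : ℝ) 1 = Set.Icc 0 1 := by
      ext s; simp only [Set.mem_inter_iff, Set.mem_Iic, Set.mem_Icc]
      constructor
      · exact fun h => h.2
      · exact fun h => ⟨h.2.trans hy1, h⟩
    rw [e1, e2]; simp
  have e2 : Set.Iic y ∩ Set.Icc (0 : ℝ) 1 = Set.Icc 0 y := by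
    ext s; simp only [Set.mem_inter_iff, Set.mem_Iic, Set.mem_Icc]
    constructor
    · exact fun h => ⟨h.2.1, h.1⟩
    · exact fun h => ⟨h.2, h.1, h.2.trans hy1.le⟩
  rw [e2, Real.volume_Icc, sub_zero]
  set S := cdf ν ⁻¹' Set.Iic y with hS
  rcases S.eq_empty_or_nonempty with h | h
  · rw [h]
    have : y ≤ 0 := by
      refine ge_of_tendsto (tendsto_cdf_atBot ν) (Eventually.of_forall fun s => ?_)
      have : s ∉ S := by rw [h]; simp
      simp only [hS, Set.mem_preimage, Set.mem_Iic, not_le] at this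
      exact this.le
    simp [this]
  · have hb : BddAbove S := by
      obtain ⟨b, hb⟩ := ((tendsto_cdf_atTop ν).eventually (lt_mem_nhds hy1)).exists_forall_of_atTop
      refine ⟨b, fun s hs => ?_⟩
      by_contra hlt
      have := hb s (not_le.1 hlt).le
      simp only [hS, Set.mem_preimage, Set.mem_Iic] at hs
      linarith
    have hcl : IsClosed S := isClosed_Iic.preimage hc
    have ha : sSup S ∈ S := hcl.csSup_mem h hb
    have e1 : S = Set.Iic (sSup S) := by
      ext s
      constructor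
      · exact fun hs => le_csSup hb hs
      · intro hs
        exact le_trans ((monotone_cdf ν) hs) ha
    have e3 : cdf ν (sSup S) = y := by
      refine le_antisymm ha ?_
      have h1 : Tendsto (cdf ν) (𝓝[>] (sSup S)) (𝓝 (cdf ν (sSup S))) :=
        (hc.tendsto _).mono_left nhdsWithin_le_nhds
      refine ge_of_tendsto h1 (eventually_nhdsWithin_of_forall fun s hs => ?_)
      have : s ∉ S := fun h' => absurd (le_csSup hb h') (not_le.2 hs)
      simp only [hS, Set.mem_preimage, Set.mem_Iic, not_le] at this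
      exact this.le
    rw [e1, ← ofReal_cdf, e3]

theorem exists_cdf {d : ℕ} (r0 : Fin d) {u : (Fin d → ℝ) → ℝ} (um : Measurable u)
    (u2 : MemLp u 2 volume) (u1 : ∫ x, u x ^ 2 = 1) {K : ℝ} (hK0 : 0 ≤ K)
    (hK : ∀ h : ℝ, 0 < h →
      ∫ x, (u (x + h • Pi.single r0 (1 : ℝ)) - u x) ^ 2 ≤ h ^ 2 * K ^ 2) :
    ∃ F : ℝ → ℝ, Monotone F ∧ Continuous F ∧ (∀ s, 0 ≤ F s) ∧ (∀ s, F s ≤ 1) ∧ 0 < K ∧
      (∀ s h, 0 < h → √(F (s + h)) ≤ √(F s) + h * K) ∧
      (∀ G : ℝ → ℂ, Measurable G →
        ∫ x, ((u x ^ 2 : ℝ) : ℂ) * G (F (x r0)) = ∫ y in Set.Icc (0 : ℝ) 1, G y) := by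
  have ui : Integrable (fun x => u x ^ 2) := u2.integrable_sq
  let μ : Measure (Fin d → ℝ) := volume.withDensity fun x => ENNReal.ofReal (u x ^ 2)
  have hμ : IsProbabilityMeasure μ := ⟨by
    rw [withDensity_apply _ MeasurableSet.univ, Measure.restrict_univ,
      ← ofReal_integral_eq_lintegral_ofReal ui (Eventually.of_forall fun x => by positivity), u1]
    simp⟩
  have pm : Measurable fun x : Fin d → ℝ => x r0 := measurable_pi_apply r0
  let ν : Measure ℝ := μ.map fun x => x r0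
  have hν : IsProbabilityMeasure ν := Measure.isProbabilityMeasure_map pm.aemeasurable
  have hF : ∀ s, cdf ν s = ∫ x, ‖(Set.indicator {x : Fin d → ℝ | x r0 ≤ s}
      (fun x => (u x : ℂ)) x)‖ ^ 2 := by
    intro s
    have ms : MeasurableSet {x : Fin d → ℝ | x r0 ≤ s} := measurableSet_le pm measurable_const
    rw [cdf_eq_real, measureReal_def, Measure.map_apply pm measurableSet_Iic,
      withDensity_apply _ (pm measurableSet_Iic),
      ← ofReal_integral_eq_lintegral_ofReal ui.integrableOn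
        (Eventually.of_forall fun x => by positivity),
      ENNReal.toReal_ofReal (integral_nonneg fun x => by positivity),
      ← integral_indicator (pm measurableSet_Iic)]
    congr 1; ext x
    by_cases hx : x r0 ≤ s <;> simp [Set.indicator, hx]
  have uc : MemLp (fun x => (u x : ℂ)) 2 volume := u2.ofReal
  have lip : ∀ s h, 0 < h → √(cdf ν (s + h)) ≤ √(cdf ν s) + h * K := by
    intro s h hh
    have ms : MeasurableSet {x : Fin d → ℝ | x r0 ≤ s} := measurableSet_le pm measurable_const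
    set y : Fin d → ℝ := h • Pi.single r0 (1 : ℝ) with hy
    have a2 : MemLp (Set.indicator {x : Fin d → ℝ | x r0 ≤ s} (fun x => (u x : ℂ))) 2 volume :=
      uc.indicator ms
    have b0 : MemLp (fun x => (u (x + y) : ℂ) - (u x : ℂ)) 2 volume := (memLp_shift uc y).sub uc
    have b2 := b0.indicator ms
    have tri := tri_L2 a2 b2
    have e1 : cdf ν (s + h) = ∫ x, ‖Set.indicator {x : Fin d → ℝ | x r0 ≤ s}
        (fun x => (u x : ℂ)) x + Set.indicator {x : Fin d → ℝ | x r0 ≤ s}
        (fun x => (u (x + y) : ℂ) - (u x : ℂ)) x‖ ^ 2 := by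
      rw [hF, ← integral_add_right_eq_self _ y]
      congr 1; ext x
      by_cases hx : x r0 ≤ s <;> simp [Set.indicator, hx, hy]
    rw [e1, hF]
    refine tri.trans (add_le_add le_rfl ?_)
    rw [← Real.sqrt_sq (by positivity : 0 ≤ h * K), mul_pow]
    refine Real.sqrt_le_sqrt (le_trans ?_ (hK h hh))
    refine integral_mono (integrable_normsq b2) ?_ fun x => ?_
    · have := integrable_normsq b0
      refine this.congr (Eventually.of_forall fun x => ?_)
      simp only
      rw [← Complex.ofReal_sub, Complex.norm_real, Real.norm_eq_abs, sq_abs]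
    · by_cases hx : x r0 ≤ s
      · simp only [Set.indicator, Set.mem_ofPred_eq, hx, if_true]
        rw [← Complex.ofReal_sub, Complex.norm_real, Real.norm_eq_abs, sq_abs]
      · simp only [Set.indicator, Set.mem_ofPred_eq, hx, if_false]
        simpa using sq_nonneg _
  have lip2 : LipschitzWith K.toNNReal fun s => √(cdf ν s) := by
    refine LipschitzWith.of_le_add_mul' _ fun a b => ?_
    rcases le_or_gt a b with hab | hab
    · have : √(cdf ν a) ≤ √(cdf ν b) := Real.sqrt_le_sqrt (monotone_cdf ν hab)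
      have : 0 ≤ K * dist a b := by positivity
      linarith
    · have := lip b (a - b) (by linarith)
      rw [Real.dist_eq, abs_of_pos (by linarith)]
      simp only [add_sub_cancel] at this
      linarith
  have hc : Continuous (cdf ν) := by
    have : (cdf ν : ℝ → ℝ) = fun s => (√(cdf ν s)) ^ 2 := by
      ext s; rw [Real.sq_sqrt (cdf_nonneg ν s)]
    rw [this]; exact lip2.continuous.pow 2
  refine ⟨cdf ν, monotone_cdf ν, hc, cdf_nonneg ν, cdf_le_one ν, ?_, lip, ?_⟩
  · refine lt_of_le_of_ne hK0 fun h0 => ?_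
    have hconst : ∀ a b, cdf ν a = cdf ν b := by
      intro a b
      have := lip2.dist_le_mul a b
      rw [← h0] at this
      simp only [Real.toNNReal_zero, NNReal.coe_zero, zero_mul, dist_le_zero] at this
      rw [← Real.sq_sqrt (cdf_nonneg ν a), this, Real.sq_sqrt (cdf_nonneg ν b)]
    have e : (cdf ν : ℝ → ℝ) = fun _ => cdf ν 0 := funext fun a => hconst a 0
    have t1 := tendsto_cdf_atTop ν
    have t2 := tendsto_cdf_atBot ν
    rw [e] at t1 t2
    have := (tendsto_const_nhds_iff.1 t1).symm.trans (tendsto_const_nhds_iff.1 t2)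
    norm_num at this
  · intro G hG
    have e : ∫ s, G (cdf ν s) ∂ν = ∫ x, G (cdf ν (x r0)) ∂μ :=
      integral_map pm.aemeasurable (hG.comp hc.measurable).aestronglyMeasurable
    rw [← map_cdf_eq ν hc, integral_map hc.measurable.aemeasurable hG.aestronglyMeasurable, e]
    simp only [μ]
    rw [integral_withDensity_eq_integral_toReal_smul (by fun_prop) (by simp)]
    congr 1; ext x
    rw [ENNReal.toReal_ofReal (by positivity)]; simp

end Pool.Agent.Lib.MP_ae5e3b_mp
end

-- part Pool.Agent.Lib.MP_ae5e3b_mp.SSam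
section

open MeasureTheory Matrix Real
open scoped ComplexConjugate ComplexOrder

set_option linter.unusedSectionVars false

namespace Pool.Agent.Lib.MP_ae5e3b_mp.Sh


/-- Sampling of subsets with prescribed marginals at most one half and arbitrary total mass. -/
lemma SSam_half (κ : Type) [Fintype κ] [DecidableEq κ] (m : κ → ℝ) (h0 : ∀ l, 0 ≤ m l)
    (h1 : ∀ l, m l ≤ 1 / 2) :
    ∃ (α : Type) (_ : Fintype α) (p : α → ℝ) (T : α → Finset κ) (col : α → ℕ), (∀ a, 0 ≤ p a) ∧
      ∑ a, p a = 1 ∧ (∀ l, ∑ a, p a * (if l ∈ T a then 1 else 0) = m l) ∧ (∀ a, col a < 48) ∧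
      (∀ a, ∀ l ∈ T a, m l ≠ 0) ∧
      (∀ a, ⌈∑ l, m l⌉₊ ≤ (T a).card + 3 ∧ (T a).card ≤ ⌈∑ l, m l⌉₊ + 1) ∧
      ∀ a b, col a = col b → (T a \ T b).card ≤ 1 → a = b := by
  classical
  obtain ⟨s, hs⟩ : ∃ s, s = ∑ l, m l := ⟨_, rfl⟩
  rw [← hs]
  have s0 : 0 ≤ s := hs ▸ Finset.sum_nonneg fun l _ => h0 l
  have c1 : s ≤ ⌈s⌉₊ := Nat.le_ceil s
  have c2 : (⌈s⌉₊ : ℝ) < s + 1 := Nat.ceil_lt_add_one s0
  let m' : κ ⊕ Fin 2 → ℝ := Sum.elim m fun _ => (⌈s⌉₊ - s) / 2
  obtain ⟨p, col, p0, p1, pm, hcol, hcard, hsep⟩ := sampling (η := 1 / 2) (by norm_num) (Q := 4)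
    (by norm_num) m' (by
      rintro (l | l)
      · exact h0 l
      · simp only [m', Sum.elim_inr]; linarith) (by
      rintro (l | l)
      · simp only [m', Sum.elim_inl]; linarith [h1 l]
      · simp only [m', Sum.elim_inr]; linarith) (by norm_num) ⌈s⌉₊ (by
      rw [Fintype.sum_sum_type]
      simp only [m', Sum.elim_inl, Sum.elim_inr, ← hs, Finset.sum_const, Finset.card_univ,
        Fintype.card_fin, nsmul_eq_mul]
      push_cast; ring)
  have sumA : ∀ F : Finset (κ ⊕ Fin 2) → ℝ,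
      ∑ a : {S : Finset (κ ⊕ Fin 2) // p S ≠ 0}, p a.1 * F a.1 = ∑ S, p S * F S := by
    intro F
    rw [← Finset.sum_subtype (Finset.univ.filter fun S => p S ≠ 0)
        (p := fun S => p S ≠ 0) (by simp) (fun S => p S * F S)]
    refine Finset.sum_filter_of_ne fun S _ hS => ?_
    exact fun h => hS (by rw [h, zero_mul])
  have hr : ∀ S : Finset (κ ⊕ Fin 2), S.toRight.card ≤ 2 := fun S =>
    (Finset.card_le_univ _).trans (by simp)
  let b : Finset (κ ⊕ Fin 2) → Fin 2 → ℕ := fun S i => if Sum.inr i ∈ S then 1 else 0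
  have b1 : ∀ S i, b S i ≤ 1 := fun S i => by
    simp only [b]; split_ifs <;> omega
  refine ⟨{S : Finset (κ ⊕ Fin 2) // p S ≠ 0}, inferInstance, fun a => p a.1,
    fun a => a.1.toLeft,
    fun a => col a.1 + 4 * ((a.1.card + 1 - ⌈s⌉₊) + 3 * (b a.1 0 + 2 * b a.1 1)),
    fun a => p0 _, by simpa using (sumA fun _ => 1).trans (by simpa using p1), ?_, ?_, ?_, ?_, ?_⟩
  · intro l
    simp only [Finset.mem_toLeft]
    exact (sumA fun S => if Sum.inl l ∈ S then 1 else 0).trans (pm (.inl l))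
  · intro a
    have := hcol a.1
    have := hcard a.1 a.2
    have := b1 a.1 0
    have := b1 a.1 1
    show col a.1 + 4 * ((a.1.card + 1 - ⌈s⌉₊) + 3 * (b a.1 0 + 2 * b a.1 1)) < 48
    omega
  · intro a l hl hm
    have e := pm (.inl l)
    simp only [m', Sum.elim_inl, hm] at e
    rw [Finset.sum_eq_zero_iff_of_nonneg fun S _ => mul_nonneg (p0 S) (by split_ifs <;> norm_num)]
      at e
    have := e a.1 (Finset.mem_univ _)
    rw [if_pos (Finset.mem_toLeft.1 hl), mul_one] at this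
    exact a.2 this
  · intro a
    have := hcard a.1 a.2
    have := hr a.1
    have := Finset.card_toLeft_add_card_toRight (u := a.1)
    show ⌈s⌉₊ ≤ a.1.toLeft.card + 3 ∧ a.1.toLeft.card ≤ ⌈s⌉₊ + 1
    omega
  · intro a a' h hc
    have h : col a.1 + 4 * ((a.1.card + 1 - ⌈s⌉₊) + 3 * (b a.1 0 + 2 * b a.1 1)) =
        col a'.1 + 4 * ((a'.1.card + 1 - ⌈s⌉₊) + 3 * (b a'.1 0 + 2 * b a'.1 1)) := h
    have := hcol a.1
    have := hcard a.1 a.2
    have := b1 a.1 0
    have := b1 a.1 1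
    have := hcol a'.1
    have := hcard a'.1 a'.2
    have := b1 a'.1 0
    have := b1 a'.1 1
    have e0 : b a.1 0 = b a'.1 0 := by omega
    have e1 : b a.1 1 = b a'.1 1 := by omega
    have eb : ∀ i, Sum.inr i ∈ a.1 → Sum.inr i ∈ a'.1 := by
      have : ∀ i, b a.1 i = b a'.1 i := Fin.forall_fin_two.2 ⟨e0, e1⟩
      intro i hi
      have := this i
      simp only [b, if_pos hi] at this
      by_contra hn
      rw [if_neg hn] at this
      omega
    refine Subtype.ext (hsep _ _ a.2 a'.2 (by omega) (by omega) (le_trans ?_ hc))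
    rw [← Finset.card_map (Function.Embedding.inl : κ ↪ κ ⊕ Fin 2)]
    refine Finset.card_le_card ?_
    rintro (l | i) hx
    · rw [Finset.mem_sdiff] at hx
      exact Finset.mem_map.2 ⟨l, Finset.mem_sdiff.2 ⟨Finset.mem_toLeft.2 hx.1,
        fun h => hx.2 (Finset.mem_toLeft.1 h)⟩, rfl⟩
    · rw [Finset.mem_sdiff] at hx
      exact absurd (eb i hx.1) hx.2

/-- Sampling of subsets with prescribed marginals in the closed unit interval. -/
theorem sampling2 : ∃ Q : ℕ, ∀ (κ : Type) [Fintype κ] [DecidableEq κ] (m : κ → ℝ), (∀ l, 0 ≤ m l) →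
    (∀ l, m l ≤ 1) → ∀ M : ℕ, ∑ l, m l = M →
    ∃ (α : Type) (_ : Fintype α) (p : α → ℝ) (T : α → Finset κ) (col : α → ℕ), (∀ a, 0 ≤ p a) ∧
      ∑ a, p a = 1 ∧ (∀ l, ∑ a, p a * (if l ∈ T a then 1 else 0) = m l) ∧ (∀ a, col a < Q) ∧
      (∀ a, M ≤ (T a).card + 4 ∧ (T a).card ≤ M + 4) ∧
      ∀ a b, col a = col b → (T a \ T b).card ≤ 1 → a = b := by
  refine ⟨48 * 48, fun κ _ _ m h0 h1 M hM => ?_⟩
  classical
  let m1 : κ → ℝ := fun l => if m l ≤ 1 / 2 then m l else 0
  let m2 : κ → ℝ := fun l => if m l ≤ 1 / 2 then 0 else 1 - m l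
  have a0 : ∀ l, 0 ≤ m1 l := fun l => by
    simp only [m1]; split_ifs
    · exact h0 l
    · exact le_rfl
  have b0 : ∀ l, 0 ≤ m2 l := fun l => by
    simp only [m2]; split_ifs
    · exact le_rfl
    · linarith [h1 l]
  obtain ⟨α, _, p, T, col, p0, p1, pm, hcol, hsup, hcard, hsep⟩ := SSam_half κ m1 a0 fun l => by
    simp only [m1]; split_ifs with h
    · exact h
    · norm_num
  obtain ⟨β, _, q, R, cl, q0, q1, qm, hcl, hsuq, hcarq, hseq⟩ := SSam_half κ m2 b0 fun l => by
    simp only [m2]; split_ifs with h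
    · norm_num
    · linarith
  let H : Finset κ := Finset.univ.filter fun l => ¬ m l ≤ 1 / 2
  have mH : ∀ l, l ∈ H ↔ ¬ m l ≤ 1 / 2 := fun l => by simp only [H, Finset.mem_filter,
    Finset.mem_univ, true_and]
  have tH : ∀ a, ∀ l ∈ T a, l ∉ H := fun a l hl h => by
    have := hsup a l hl
    simp only [m1, if_neg ((mH l).1 h)] at this
    exact this rfl
  have rH : ∀ b, R b ⊆ H := fun b l hl => by
    have := hsuq b l hl
    rw [mH]
    intro h
    simp only [m2, if_pos h] at this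
    exact this rfl
  have key : ⌈∑ l, m1 l⌉₊ + H.card = M + ⌈∑ l, m2 l⌉₊ := by
    have e : ∑ l, m1 l + H.card = M + ∑ l, m2 l := by
      have : (H.card : ℝ) = ∑ l, if m l ≤ 1 / 2 then (0 : ℝ) else 1 := by
        rw [Finset.sum_ite]; simp [H]
      rw [this, ← hM, ← Finset.sum_add_distrib, ← Finset.sum_add_distrib]
      refine Finset.sum_congr rfl fun l _ => ?_
      simp only [m1, m2]; split_ifs <;> ring
    rw [← Nat.ceil_add_natCast (Finset.sum_nonneg fun l _ => a0 l), e, add_comm,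
      Nat.ceil_add_natCast (Finset.sum_nonneg fun l _ => b0 l), add_comm]
  refine ⟨α × β, inferInstance, fun x => p x.1 * q x.2, fun x => T x.1 ∪ (H \ R x.2),
    fun x => col x.1 + 48 * cl x.2, fun x => mul_nonneg (p0 _) (q0 _), ?_, ?_, ?_, ?_, ?_⟩
  · rw [Fintype.sum_prod_type, ← Finset.sum_mul_sum, p1, q1, one_mul]
  · intro l
    rw [Fintype.sum_prod_type]
    by_cases h : m l ≤ 1 / 2
    · have hH : l ∉ H := fun h' => (mH l).1 h' h
      have : ∀ (a : α) (b : β), p a * q b * (if l ∈ T a ∪ (H \ R b) then (1 : ℝ) else 0) =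
          (p a * (if l ∈ T a then (1 : ℝ) else 0)) * q b := by
        intro a b
        simp only [Finset.mem_union, Finset.mem_sdiff, hH, false_and, or_false]
        ring
      simp only [this]
      rw [← Finset.sum_mul_sum, pm, q1, mul_one]
      simp only [m1, if_pos h]
    · have hH : l ∈ H := (mH l).2 h
      have : ∀ (a : α) (b : β), p a * q b * (if l ∈ T a ∪ (H \ R b) then (1 : ℝ) else 0) =
          p a * (q b - q b * (if l ∈ R b then (1 : ℝ) else 0)) := by
        intro a b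
        have : l ∉ T a := fun h' => tH a l h' hH
        simp only [Finset.mem_union, Finset.mem_sdiff, hH, true_and, this, false_or]
        by_cases hr : l ∈ R b <;> simp [hr]
      simp only [this]
      rw [← Finset.sum_mul_sum, p1, one_mul, Finset.sum_sub_distrib, qm, q1]
      simp only [m2, if_neg h]
      ring
  · rintro ⟨a, b⟩
    have := hcol a
    have := hcl b
    show col a + 48 * cl b < 48 * 48
    omega
  · rintro ⟨a, b⟩
    have := hcard a
    have := hcarq b
    have e1 : (T a ∪ (H \ R b)).card = (T a).card + (H \ R b).card :=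
      Finset.card_union_of_disjoint (Finset.disjoint_left.2 fun l hl h =>
        tH a l hl (Finset.mem_sdiff.1 h).1)
    have e2 := Finset.card_sdiff_add_card_eq_card (rH b)
    show M ≤ (T a ∪ (H \ R b)).card + 4 ∧ (T a ∪ (H \ R b)).card ≤ M + 4
    omega
  · rintro ⟨a, b⟩ ⟨a', b'⟩ h hc
    have h : col a + 48 * cl b = col a' + 48 * cl b' := h
    have := hcol a
    have := hcol a'
    have hc : ((T a ∪ (H \ R b)) \ (T a' ∪ (H \ R b'))).card ≤ 1 := hc
    refine Prod.ext (hsep a a' (by omega) (le_trans (Finset.card_le_card ?_) hc))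
      (hseq b' b (by omega) (le_trans (Finset.card_le_card ?_) hc)).symm
    · intro l hl
      rw [Finset.mem_sdiff] at hl
      have := tH a l hl.1
      simp [hl.1, hl.2, this]
    · intro l hl
      rw [Finset.mem_sdiff] at hl
      have h3 := rH b' hl.1
      have : l ∉ T a' := fun h' => tH a' l h' h3
      simp [hl.1, hl.2, this, h3]

/-- A pure state from a family with Bessel constant one. -/
theorem assemble2 : ∃ A : ℕ, ∀ (d n : ℕ) (ι : Type) [Fintype ι], 5 ≤ n →
    ∀ (v : ι → (Fin d → ℝ) → ℂ), (∀ i, Measurable (v i)) → (∀ i, MemLp (v i) 2 volume) →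
    (∀ c : ι → ℂ, ∫ x, ‖∑ i, c i * v i x‖ ^ 2 ≤ ∑ i, ‖c i‖ ^ 2) →
    ∀ lab : ℕ → (Fin d → ℝ) → ℂ, (∀ a, Measurable (lab a)) → (∀ a, MemLp (lab a) 2 volume) →
    (∀ a b, ∫ x, conj (lab a x) * lab b x = if a = b then 1 else 0) →
    (∀ a i, ∫ x, conj (lab a x) * v i x = 0) →
    ∀ σ : (Fin d → ℝ) → ℝ, (∀ a x, ‖lab a x‖ ^ 2 = σ x) →
    ∀ ρ : (Fin d → ℝ) → ℝ, (∀ x, ∑ i, ‖v i x‖ ^ 2 + 6 * σ x = ρ x) → ∫ x, ρ x = (n : ℝ) + 1 →
    ∀ Ev El : Fin d → ℝ, (∀ r, 0 ≤ Ev r) → (∀ r, 0 ≤ El r) →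
    (∀ r (h : ℝ), 0 < h →
      ∑ i, ∫ x, ‖v i (x + h • Pi.single r (1 : ℝ)) - v i x‖ ^ 2 ≤ h ^ 2 * Ev r) →
    (∀ a < A, ∀ r (h : ℝ), 0 < h →
      ∫ x, ‖lab a (x + h • Pi.single r (1 : ℝ)) - lab a x‖ ^ 2 ≤ h ^ 2 * El r) →
    ∃ Ψ : (Fin (n + 1) → Fin d → ℝ) → ℂ, IsState Ψ ∧ (∀ᵐ x, density Ψ x = ρ x) ∧
      kinetic Ψ ≤ ENNReal.ofReal (∑ r, (Ev r + 10 * El r)) := by
  obtain ⟨Q, hQ⟩ := sampling2
  refine ⟨10 * Q, fun d n ι _ hn v vm v2 bessel lab lm l2 lon lv σ hσ ρ hρ hint Ev El hEv0 hEl0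
    hEv hEl => ?_⟩
  classical
  obtain ⟨U, lam, hU1, hU2, hU3⟩ := diag_family v v2
  let w : ι → (Fin d → ℝ) → ℂ := fun l x => ∑ j, U j l * v j x
  have wm : ∀ l, Measurable (w l) := fun l =>
    Finset.measurable_sum _ fun j _ => (vm j).const_mul _
  have w2 : ∀ l, MemLp (w l) 2 volume := fun l => memLp_sum_smul _ v2 _
  have wl : ∀ l, ∫ x, ‖w l x‖ ^ 2 = lam l := by
    intro l
    apply Complex.ofReal_injective
    rw [integral_normsq_eq, hU3, if_pos rfl]
  have lam0 : ∀ l, 0 ≤ lam l := fun l => by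
    rw [← wl]; exact integral_nonneg fun x => by positivity
  have lam1 : ∀ l, lam l ≤ 1 := fun l => by
    have := bessel fun j => U j l
    rw [hU2] at this
    rw [← wl]; exact this
  have σint : ∫ x, σ x = 1 := by
    apply Complex.ofReal_injective
    simp_rw [← hσ 0]
    rw [integral_normsq_eq, lon]; simp
  have σi : Integrable σ := by
    have := integrable_normsq (l2 0)
    simpa [hσ] using this
  have lamsum : ∑ l, lam l = ((n - 5 : ℕ) : ℝ) := by
    simp_rw [← wl]
    rw [← integral_finsetSum _ fun l _ => integrable_normsq (w2 l)]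
    have e1 : ∀ x, ∑ l, ‖w l x‖ ^ 2 = ∑ i, ‖v i x‖ ^ 2 := fun x => hU1 fun j => v j x
    simp_rw [e1]
    have e2 : ∫ x, ρ x = (∫ x, ∑ i, ‖v i x‖ ^ 2) + 6 * ∫ x, σ x := by
      simp_rw [← hρ]
      rw [integral_add (integrable_finsetSum _ fun l _ => integrable_normsq (v2 l))
        (σi.const_mul 6), integral_const_mul]
    rw [hint, σint] at e2
    rw [Nat.cast_sub (by omega)]; push_cast; linarith
  let κ₀ := {l : ι // 0 < lam l}
  have sumκ : ∀ F : ι → ℝ, (∀ l, lam l = 0 → F l = 0) → ∑ l : κ₀, F l.1 = ∑ l, F l := by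
    intro F hF
    rw [← Finset.sum_subtype (Finset.univ.filter fun l => 0 < lam l)
        (p := fun l => 0 < lam l) (by simp) F]
    refine Finset.sum_filter_of_ne fun l _ hl => ?_
    exact lt_of_le_of_ne (lam0 l) fun h => hl (hF l h.symm)
  obtain ⟨A, _, p, S, col, p0, p1, pm, hcol, hcard, hsep⟩ := hQ κ₀ (fun l : κ₀ => lam l.1)
    (fun l => lam0 _) (fun l => lam1 _) (n - 5)
    (by rw [sumκ lam fun _ h => h, lamsum])
  let φ : κ₀ ⊕ ℕ → (Fin d → ℝ) → ℂ := fun k => match k with
    | .inl l => fun x => (((√(lam l.1))⁻¹ : ℝ) : ℂ) * w l.1 x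
    | .inr a => lab a
  have φm : ∀ k, Measurable (φ k) := by
    rintro (l | a)
    · exact (wm _).const_mul _
    · exact lm a
  have φ2 : ∀ k, MemLp (φ k) 2 volume := by
    rintro (l | a)
    · exact (w2 _).const_mul _
    · exact l2 a
  have lw : ∀ a l, ∫ x, conj (lab a x) * w l x = 0 := by
    intro a l
    have := integral_conj_sum_mul_sum (μ := volume) (Finset.univ : Finset Unit) Finset.univ
      (P := fun _ => lab a) (Q := v) (fun _ => l2 a) v2 (fun _ => 1) (fun j => U j l)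
    simpa [lv] using this
  have φon : ∀ k l, ∫ x, conj (φ k x) * φ l x = if k = l then 1 else 0 := by
    rintro (l | a) (l' | b)
    · simp only [φ]
      have : ∀ x, conj ((((√(lam l.1))⁻¹ : ℝ) : ℂ) * w l.1 x) *
          ((((√(lam l'.1))⁻¹ : ℝ) : ℂ) * w l'.1 x) =
          ((((√(lam l.1))⁻¹ : ℝ) : ℂ) * (((√(lam l'.1))⁻¹ : ℝ) : ℂ)) *
          (conj (w l.1 x) * w l'.1 x) := by
        intro x; rw [map_mul, Complex.conj_ofReal]; ring
      simp_rw [this]
      rw [integral_const_mul, hU3]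
      by_cases h : l = l'
      · subst h
        rw [if_pos rfl, if_pos rfl]
        have h1 := l.2
        have h2 : √(lam l.1) * √(lam l.1) = lam l.1 := Real.mul_self_sqrt h1.le
        have h3 : √(lam l.1) ≠ 0 := (Real.sqrt_pos.2 h1).ne'
        have : (√(lam l.1))⁻¹ * (√(lam l.1))⁻¹ * lam l.1 = 1 := by
          field_simp; nlinarith
        exact_mod_cast this
      · rw [if_neg (fun h' => h (Subtype.ext h')), if_neg (by simpa using h), mul_zero]
    · simp only [φ]
      have : ∀ x, conj ((((√(lam l.1))⁻¹ : ℝ) : ℂ) * w l.1 x) * lab b x =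
          (((√(lam l.1))⁻¹ : ℝ) : ℂ) * conj (conj (lab b x) * w l.1 x) := by
        intro x; rw [map_mul, Complex.conj_ofReal]; simp; ring
      simp_rw [this]
      rw [integral_const_mul, integral_conj, lw]; simp
    · simp only [φ]
      have : ∀ x, conj (lab a x) * ((((√(lam l'.1))⁻¹ : ℝ) : ℂ) * w l'.1 x) =
          (((√(lam l'.1))⁻¹ : ℝ) : ℂ) * (conj (lab a x) * w l'.1 x) := by
        intro x; ring
      simp_rw [this]
      rw [integral_const_mul, lw]; simp
    · simp only [φ]; rw [lon]; simp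
  let labs : A → Finset ℕ := fun a =>
    Finset.Ico (10 * col a) (10 * col a + (n + 1 - (S a).card))
  let T : A → Finset (κ₀ ⊕ ℕ) := fun a => (S a).disjSum (labs a)
  have hT : ∀ a : A, (T a).card = n + 1 := by
    intro a
    have := hcard a
    simp only [T, labs, Finset.card_disjSum, Nat.card_Ico]
    omega
  let e : A → Fin (n + 1) → κ₀ ⊕ ℕ := fun a j => ((Finset.equivFinOfCardEq (hT a)).symm j).1
  have e_inj : ∀ a, Function.Injective (e a) := fun a i j h =>
    (Finset.equivFinOfCardEq (hT a)).symm.injective (Subtype.ext h)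
  have e_mem : ∀ a j, e a j ∈ T a := fun a j => ((Finset.equivFinOfCardEq (hT a)).symm j).2
  have e_surj : ∀ a k, k ∈ T a → ∃ j, e a j = k := fun a k hk =>
    ⟨Finset.equivFinOfCardEq (hT a) ⟨k, hk⟩, by simp [e]⟩
  have e_sum : ∀ (a : A) (F : κ₀ ⊕ ℕ → ℝ), ∑ j, F (e a j) =
      ∑ l ∈ S a, F (.inl l) + ∑ b ∈ labs a, F (.inr b) := by
    intro a F
    rw [← Finset.sum_disjSum, ← Finset.sum_coe_sort (T a) F]
    exact Equiv.sum_comp (Finset.equivFinOfCardEq (hT a)).symm (fun k : T a => F k.1)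
  have sumS : ∀ F : κ₀ → ℝ, ∑ a, p a * ∑ l ∈ S a, F l = ∑ l, lam l.1 * F l := by
    intro F
    simp_rw [← pm, Finset.sum_mul]
    rw [Finset.sum_comm]
    refine Finset.sum_congr rfl fun a _ => ?_
    rw [Finset.mul_sum]
    simp
  have hsep' : ∀ (a b : A) (i : Fin (n + 1)), (∀ j, j ≠ i → ∃ k, e a j = e b k) → a = b := by
    intro a b i h
    have key : ∀ k ∈ T a, k ≠ e a i → k ∈ T b := by
      intro k hk hne
      obtain ⟨j, rfl⟩ := e_surj a k hk
      obtain ⟨k', hk'⟩ := h j (fun h' => hne (by rw [h']))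
      rw [hk']; exact e_mem b k'
    have ca := hcard a
    have cb := hcard b
    have hblk : col a = col b := by
      have m1 : (Sum.inr (10 * col a) : κ₀ ⊕ ℕ) ∈ T a := by
        simp only [T, labs, Finset.inr_mem_disjSum, Finset.mem_Ico]; omega
      have m2 : (Sum.inr (10 * col a + 1) : κ₀ ⊕ ℕ) ∈ T a := by
        simp only [T, labs, Finset.inr_mem_disjSum, Finset.mem_Ico]; omega
      by_cases h1 : (Sum.inr (10 * col a) : κ₀ ⊕ ℕ) = e a i
      · have h2 : (Sum.inr (10 * col a + 1) : κ₀ ⊕ ℕ) ≠ e a i := by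
          rw [← h1]; simp
        have := key _ m2 h2
        simp only [T, labs, Finset.inr_mem_disjSum, Finset.mem_Ico] at this
        omega
      · have := key _ m1 h1
        simp only [T, labs, Finset.inr_mem_disjSum, Finset.mem_Ico] at this
        omega
    refine hsep _ _ hblk ?_
    rw [Finset.card_le_one]
    intro x hx y hy
    rw [Finset.mem_sdiff] at hx hy
    have hx' : (Sum.inl x : κ₀ ⊕ ℕ) = e a i := by
      by_contra hne
      have := key _ (by simpa [T] using hx.1) hne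
      exact hx.2 (by simpa [T] using this)
    have hy' : (Sum.inl y : κ₀ ⊕ ℕ) = e a i := by
      by_contra hne
      have := key _ (by simpa [T] using hy.1) hne
      exact hy.2 (by simpa [T] using this)
    exact Sum.inl_injective (hx'.trans hy'.symm)
  obtain ⟨Ψ, s1, s2, s3, s4, s5⟩ := slater_state φ φm φ2 φon p p0 p1 e e_inj hsep'
  have φsq : ∀ (l : κ₀) (z : ℂ), lam l.1 * ‖(((√(lam l.1))⁻¹ : ℝ) : ℂ) * z‖ ^ 2 = ‖z‖ ^ 2 := by
    intro l z
    have h1 := l.2
    rw [norm_mul, mul_pow, Complex.norm_real, Real.norm_eq_abs, sq_abs, inv_pow,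
      Real.sq_sqrt h1.le]
    field_simp
  refine ⟨Ψ, ⟨s1, s2, fun i j hij => Filter.Eventually.of_forall (s3 i j hij)⟩, ?_, ?_⟩
  · have hz : ∀ᵐ x, ∀ l, lam l = 0 → w l x = 0 := by
      rw [ae_all_iff]
      intro l
      by_cases hl : lam l = 0
      · have h1 := wl l
        rw [hl, integral_eq_zero_iff_of_nonneg (fun x => by positivity)
          (integrable_normsq (w2 l))] at h1
        filter_upwards [h1] with x hx _
        simpa using hx
      · exact Filter.Eventually.of_forall fun x h => absurd h hl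
    filter_upwards [hz] with x hx
    unfold density
    rw [s4 x]
    simp_rw [e_sum _ fun k => ‖φ k x‖ ^ 2]
    have e1 : ∀ a : A, ∑ b ∈ labs a, ‖φ (.inr b) x‖ ^ 2 =
        (((n : ℝ) + 1) - ∑ l ∈ S a, (1 : ℝ)) * σ x := by
      intro a
      have := hcard a
      simp only [φ, hσ, labs, Finset.sum_const, Nat.card_Ico, nsmul_eq_mul, mul_one]
      rw [Nat.add_sub_cancel_left, Nat.cast_sub (by omega)]; push_cast; ring
    simp_rw [e1]
    have e2 : ∀ a : A, p a * (∑ l ∈ S a, ‖φ (.inl l) x‖ ^ 2 +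
        (((n : ℝ) + 1) - ∑ l ∈ S a, (1 : ℝ)) * σ x) = p a * ∑ l ∈ S a, ‖φ (.inl l) x‖ ^ 2 +
        (p a * (((n : ℝ) + 1) * σ x) - (p a * ∑ l ∈ S a, (1 : ℝ)) * σ x) := fun a => by ring
    simp_rw [e2]
    rw [Finset.sum_add_distrib, Finset.sum_sub_distrib, ← Finset.sum_mul, ← Finset.sum_mul,
      sumS, sumS, p1]
    simp only [φ, φsq, mul_one]
    rw [sumκ lam fun _ h => h, lamsum, sumκ (fun l => ‖w l x‖ ^ 2) fun l h => by simp [hx l h],
      hU1 fun j => v j x, ← hρ, Nat.cast_sub (by omega)]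
    push_cast; ring
  · refine kinetic_le s1 _ (fun r => by have := hEv0 r; have := hEl0 r; positivity)
      fun i r h hh => ?_
    rw [s5]
    set y : Fin d → ℝ := h • Pi.single r (1 : ℝ) with hy
    simp_rw [e_sum _ fun k => ∫ x, ‖φ k (x + y) - φ k x‖ ^ 2]
    have e1 : ∀ a : A, ∑ b ∈ labs a, ∫ x, ‖φ (.inr b) (x + y) - φ (.inr b) x‖ ^ 2 ≤
        10 * (h ^ 2 * El r) := by
      intro a
      have ca := hcard a
      have hc1 := hcol a
      calc _ ≤ ∑ b ∈ labs a, h ^ 2 * El r := by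
            refine Finset.sum_le_sum fun b hb => hEl b ?_ r h hh
            simp only [labs, Finset.mem_Ico] at hb
            omega
        _ ≤ _ := by
            rw [Finset.sum_const, nsmul_eq_mul]
            have h4 : (labs a).card ≤ 10 := by
              simp only [labs, Nat.card_Ico]; omega
            have h5 : ((labs a).card : ℝ) ≤ 10 := by exact_mod_cast h4
            have := hEl0 r
            gcongr
    calc _ ≤ ∑ a : A, p a * (∑ l ∈ S a, (∫ x, ‖φ (.inl l) (x + y) - φ (.inl l) x‖ ^ 2) +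
            10 * (h ^ 2 * El r)) := by
          refine Finset.sum_le_sum fun a _ => ?_
          have := p0 a
          gcongr
          exact e1 a
      _ = ∑ l : κ₀, lam l.1 * (∫ x, ‖φ (.inl l) (x + y) - φ (.inl l) x‖ ^ 2) +
            10 * (h ^ 2 * El r) := by
          simp_rw [mul_add]
          rw [Finset.sum_add_distrib, sumS, ← Finset.sum_mul, p1, one_mul]
      _ ≤ h ^ 2 * Ev r + 10 * (h ^ 2 * El r) := by
          gcongr
          refine le_trans ?_ (hEv r h hh)
          have e2 : ∀ l : κ₀, lam l.1 * (∫ x, ‖φ (.inl l) (x + y) - φ (.inl l) x‖ ^ 2) =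
              ∫ x, ‖w l.1 (x + y) - w l.1 x‖ ^ 2 := by
            intro l
            rw [← integral_const_mul]
            congr 1; ext x
            simp only [φ]
            rw [← mul_sub, φsq]
          simp_rw [e2]
          have e3 : ∑ l : κ₀, ∫ x, ‖w l.1 (x + y) - w l.1 x‖ ^ 2 ≤
              ∑ l, ∫ x, ‖w l (x + y) - w l x‖ ^ 2 := by
            rw [← Finset.sum_subtype (Finset.univ.filter fun l => 0 < lam l)
              (p := fun l => 0 < lam l) (by simp) fun l => ∫ x, ‖w l (x + y) - w l x‖ ^ 2]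
            exact Finset.sum_le_sum_of_subset_of_nonneg (Finset.filter_subset _ _)
              fun l _ _ => integral_nonneg fun x => by positivity
          refine e3.trans (le_of_eq ?_)
          rw [← hy, ← integral_finsetSum (f := fun l x => ‖w l (x + y) - w l x‖ ^ 2) _ fun l _ =>
              integrable_normsq ((memLp_shift (w2 l) y).sub (w2 l)),
            ← integral_finsetSum (f := fun l x => ‖v l (x + y) - v l x‖ ^ 2) _ fun l _ =>
              integrable_normsq ((memLp_shift (v2 l) y).sub (v2 l))]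
          congr 1; ext x
          rw [← hU1 fun j => v j (x + y) - v j x]
          refine Finset.sum_congr rfl fun l _ => ?_
          simp only [w, mul_sub, Finset.sum_sub_distrib]
      _ = _ := by ring

end Pool.Agent.Lib.MP_ae5e3b_mp.Sh
end
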