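import Pool.Agent.Lib.MP_ae5e3b_mp.SFm
import Pool.Agent.Lib.MP_ae5e3b_mp.SSam
import Pool.Agent.Lib.MP_ae5e3b_mp.Lattice

-- part Pool.Agent.Lib.MP_ae5e3b_mp.Main
section

open MeasureTheory Filter Topology ComplexConjugate Real
open scoped ENNReal ContDiff

set_option linter.unusedSectionVars false

namespace Pool.Agent.Lib.MP_ae5e3b_mp

noncomputable def ang {d : ℕ} (L : ℝ) (x : Fin d → ℝ) : ℝ :=
  π / 2 * max 0 (min (4 * ‖x‖ / L - 1) 1)

lemma ang_cont {d : ℕ} (L : ℝ) : Continuous (ang (d := d) L) := by unfold ang; fun_prop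

lemma ang_shift {d : ℕ} {L : ℝ} (hL : 0 < L) (x : Fin d → ℝ) (r : Fin d) {h : ℝ} (hh : 0 < h) :
    |ang L (x + h • Pi.single r (1 : ℝ)) - ang L x| ≤ h * (8 / L) := by
  unfold ang
  rw [← mul_sub, abs_mul, abs_of_pos (by positivity : 0 < π / 2)]
  have h1 := abs_clamp_sub 0 1 (4 * ‖x + h • Pi.single r (1 : ℝ)‖ / L - 1) (4 * ‖x‖ / L - 1)
  have h2 : |‖x + h • Pi.single r (1 : ℝ)‖ - ‖x‖| ≤ h := by
    refine (abs_norm_sub_norm_le _ _).trans (le_of_eq ?_)
    rw [add_sub_cancel_left, norm_smul, Pi.norm_single]; simp [abs_of_pos hh]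
  have h3 : |4 * ‖x + h • Pi.single r (1 : ℝ)‖ / L - 1 - (4 * ‖x‖ / L - 1)| ≤ 4 / L * h := by
    have : 4 * ‖x + h • Pi.single r (1 : ℝ)‖ / L - 1 - (4 * ‖x‖ / L - 1) =
      4 / L * (‖x + h • Pi.single r (1 : ℝ)‖ - ‖x‖) := by ring
    rw [this, abs_mul, abs_of_pos (by positivity)]
    gcongr
  have h4 : π / 2 ≤ 2 := by linarith [pi_le_four]
  calc _ ≤ 2 * (4 / L * h) := by gcongr; exact h1.trans h3
    _ = _ := by ring

lemma cos_ang_ne {d : ℕ} {L : ℝ} (hL : 0 < L) {x : Fin d → ℝ} (h : cos (ang L x) ≠ 0) :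
    ‖x‖ ≤ L / 2 := by
  by_contra h1
  push Not at h1
  apply h
  unfold ang
  rw [min_eq_right (by rw [le_sub_iff_add_le, le_div_iff₀ hL]; linarith), max_eq_right zero_le_one]
  simp

lemma sin_ang_ne {d : ℕ} {L : ℝ} (hL : 0 < L) {x : Fin d → ℝ} (h : sin (ang L x) ≠ 0) :
    L / 4 ≤ ‖x‖ := by
  by_contra h1
  push Not at h1
  apply h
  unfold ang
  rw [max_eq_left (min_le_of_left_le (by rw [sub_nonpos, div_le_one hL]; linarith))]
  simp

lemma prod_lip {a a' b b' s t : ℝ} (ha : |a| ≤ 1) (hb : |b'| ≤ 1) (h1 : |a' - a| ≤ s)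
    (h2 : |b' - b| ≤ t) : |a' * b' - a * b| ≤ s + t := by
  have : a' * b' - a * b = (a' - a) * b' + a * (b' - b) := by ring
  rw [this]
  refine (abs_add_le _ _).trans ?_
  rw [abs_mul, abs_mul]
  have := abs_nonneg (a' - a)
  have := abs_nonneg (b' - b)
  nlinarith

lemma tail_small {d : ℕ} {u : (Fin d → ℝ) → ℝ} (u2 : MemLp u 2 volume) (g : (Fin d → ℝ) → ℝ)
    (gm : Measurable g) {t : ℕ → ℝ} (ht : Monotone t) (ht' : Tendsto t atTop atTop) {ε : ℝ}
    (hε : 0 < ε) : ∀ᶠ j in atTop, ∀ A : (Fin d → ℝ) → ℝ, (∀ x, |A x| ≤ 1) →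
      (∀ x, A x ≠ 0 → t j ≤ g x) → ∫ x, (u x * A x) ^ 2 ≤ ε := by
  have hm : ∀ j, MeasurableSet {x | t j ≤ g x} := fun j => measurableSet_le measurable_const gm
  have h1 := tendsto_setIntegral_of_antitone (μ := volume) (f := fun x => u x ^ 2) hm
    (fun i j hij x hx => (ht hij).trans hx) ⟨0, u2.integrable_sq.integrableOn⟩
  have h2 : ⋂ j, {x | t j ≤ g x} = ∅ := by
    ext x
    simp only [Set.mem_iInter, Set.mem_ofPred_eq, Set.mem_empty_iff_false, iff_false, not_forall,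
      not_le]
    exact (ht'.eventually (eventually_gt_atTop (g x))).exists
  rw [h2, Measure.restrict_empty, integral_zero_measure] at h1
  filter_upwards [h1.eventually (gt_mem_nhds hε)] with j hj A A1 hA
  refine le_trans ?_ hj.le
  rw [← integral_indicator (hm j)]
  refine integral_mono_of_nonneg (Eventually.of_forall fun x => sq_nonneg _)
    (u2.integrable_sq.indicator (hm j)) (Eventually.of_forall fun x => ?_)
  by_cases hx : A x = 0
  · simp only [hx, mul_zero]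
    rw [zero_pow two_ne_zero]
    exact Set.indicator_nonneg (fun _ _ => sq_nonneg _) _
  · have : A x ^ 2 ≤ 1 := by rw [sq_le_one_iff_abs_le_one]; exact A1 _
    simp only
    rw [Set.indicator_of_mem (show x ∈ {x | t j ≤ g x} from hA x hx), mul_pow]
    exact mul_le_of_le_one_right (sq_nonneg _) this

lemma Kcl_eq (d : ℕ) : Kcl d = 4 * π ^ 2 * (d / (d + 2)) * omega d ^ (-2 / (d : ℝ)) := by
  unfold Kcl omega; ring

lemma Kcl_pos {d : ℕ} (hd : 0 < d) : 0 < Kcl d := by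
  rw [Kcl_eq]
  have := omega_pos d
  have : (0 : ℝ) < d := by exact_mod_cast hd
  positivity

lemma level_bound {d : ℕ} (hd : 0 < d) {q N u0 E u : ℝ} (hq : 1 < q) (hN : 0 < N) (hu0 : 0 < u0)
    (hE : (N * u0 ^ 2 * q ^ 4) ^ (2 / (d : ℝ)) = E) (j : ℕ)
    (h : ∀ i, j = i + 1 → u0 * q ^ i ≤ u) :
    (N * u0 ^ 2 * q ^ (2 * j + 4)) ^ (2 / (d : ℝ)) * u ^ 2 ≤
      q ^ 12 * N ^ (2 / (d : ℝ)) * (u ^ 2) ^ (1 + 2 / (d : ℝ)) + E * u ^ 2 := by
  have hq0 : 0 < q := by linarith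
  have hd1 : (1 : ℝ) ≤ d := by exact_mod_cast hd
  have hE0 : 0 ≤ E := by rw [← hE]; positivity
  cases j with
  | zero =>
    simp only [mul_zero, zero_add]
    rw [hE]
    exact le_add_of_nonneg_left (by positivity)
  | succ j =>
    have h1 := h j rfl
    have h2 : N * u0 ^ 2 * q ^ (2 * (j + 1) + 4) ≤ q ^ 6 * (N * u ^ 2) := by
      calc _ = q ^ 6 * (N * (u0 * q ^ j) ^ 2) := by ring
        _ ≤ _ := by gcongr
    have h3 : (q ^ 6) ^ (2 / (d : ℝ)) ≤ q ^ 12 := by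
      calc _ ≤ (q ^ 6) ^ (2 : ℝ) := by
            refine rpow_le_rpow_of_exponent_le (one_le_pow₀ hq.le) ?_
            exact div_le_self (by norm_num) hd1
        _ = _ := by rw [rpow_two]; ring
    calc _ ≤ (q ^ 6 * (N * u ^ 2)) ^ (2 / (d : ℝ)) * u ^ 2 := by gcongr
      _ = (q ^ 6) ^ (2 / (d : ℝ)) * N ^ (2 / (d : ℝ)) * (u ^ 2) ^ (1 + 2 / (d : ℝ)) := by
          rw [mul_rpow (by positivity) (by positivity), mul_rpow (by positivity) (by positivity),
            rpow_add_of_nonneg (by positivity) (by norm_num) (by positivity), rpow_one]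
          ring
      _ ≤ q ^ 12 * N ^ (2 / (d : ℝ)) * (u ^ 2) ^ (1 + 2 / (d : ℝ)) := by gcongr
      _ ≤ _ := le_add_of_nonneg_right (by positivity)

set_option maxHeartbeats 4000000 in
theorem main_large {d : ℕ} (hd : 0 < d) {q : ℝ} (hq : 1 < q) (hq2 : q ≤ 2) :
    ∃ C : ℝ, 0 ≤ C ∧ ∀ (c : Ctx d) (n : ℕ), 5 ≤ n → 0 < ∑ r, c.B r →
      Integrable (fun x => (c.u x ^ 2) ^ (1 + 2 / (d : ℝ))) →
      ∃ Ψ : (Fin (n + 1) → Fin d → ℝ) → ℂ, IsState Ψ ∧
        (∀ᵐ x, density Ψ x = ((n : ℝ) + 1) * c.u x ^ 2) ∧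
        kinetic Ψ ≤ ENNReal.ofReal (q ^ 13 * Kcl d * ((n : ℝ) + 1) ^ (1 + 2 / (d : ℝ)) *
          (∫ x, (c.u x ^ 2) ^ (1 + 2 / (d : ℝ))) + C * ((n : ℝ) + 1) * ∑ r, c.B r) := by
  classical
  have hq0 : 0 < q := by linarith
  obtain ⟨Cq, hCq, hlev⟩ := exists_levels hq
  obtain ⟨η, hη⟩ : ∃ η, η = 1 - 1 / q := ⟨_, rfl⟩
  have hη0 : 0 < η := by rw [hη, sub_pos, div_lt_one hq0]; exact hq
  have hθ : 1 / 2 ≤ 1 / q := by gcongr
  obtain ⟨Q, hQ⟩ : ∃ Q : ℕ, 2 ≤ Q * η :=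
    ⟨⌈2 / η⌉₊, by rw [← div_le_iff₀ hη0]; exact Nat.le_ceil _⟩
  refine ⟨2 * Cq + 2500000 + (2052 + 8192 * ((12 * Q : ℕ) : ℝ) ^ 2), by positivity,
    fun c n hn hBt hD => ?_⟩
  set N : ℝ := (n : ℝ) + 1 with hN
  clear_value N
  have hN6 : 6 ≤ N := by
    have : (5 : ℝ) ≤ n := by exact_mod_cast hn
    linarith
  have hN0 : 0 < N := by linarith
  set Bt := ∑ r, c.B r with hBtdef
  clear_value Bt
  set D := ∫ x, (c.u x ^ 2) ^ (1 + 2 / (d : ℝ)) with hDdef
  have hD0 : 0 ≤ D := integral_nonneg fun x => by positivity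
  clear_value D
  have hK := Kcl_pos hd
  have hd' : (0 : ℝ) < d := by exact_mod_cast hd
  have hd1 : (1 : ℝ) ≤ d := by exact_mod_cast hd
  have ho := omega_pos d
  obtain ⟨τ, hτdef⟩ : ∃ τ, τ = 6 / N := ⟨_, rfl⟩
  have hτ : 0 < τ := by rw [hτdef]; positivity
  have hτ1 : τ ≤ 1 := by rw [hτdef]; exact (div_le_one hN0).2 hN6
  obtain ⟨u0, hu0def⟩ : ∃ u0, u0 = √((Bt / (q * Kcl d)) ^ ((d : ℝ) / 2) / (N * q ^ 4)) :=
    ⟨_, rfl⟩
  have hu0 : 0 < u0 := by rw [hu0def]; exact sqrt_pos.2 (by positivity)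
  have hu0' : (N * u0 ^ 2 * q ^ 4) ^ (2 / (d : ℝ)) = Bt / (q * Kcl d) := by
    rw [hu0def, sq_sqrt (by positivity)]
    have : N * ((Bt / (q * Kcl d)) ^ ((d : ℝ) / 2) / (N * q ^ 4)) * q ^ 4 =
      (Bt / (q * Kcl d)) ^ ((d : ℝ) / 2) := by field_simp
    rw [this, ← rpow_mul (by positivity)]
    have : (d : ℝ) / 2 * (2 / d) = 1 := by field_simp
    rw [this, rpow_one]
  obtain ⟨J, hJ⟩ := (tail_small c.u2 c.u c.um (t := fun j => u0 * q ^ j)
    (fun i j hij => by dsimp only; gcongr; exact hq.le)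
    ((tendsto_pow_atTop_atTop_of_one_lt hq).const_mul_atTop hu0)
    (by positivity : 0 < 1 / N ^ 2)).exists
  obtain ⟨a, ac, a1, a2, a3, a4⟩ := hlev u0 hu0 J
  have abd : ∀ j ∈ Finset.range (J + 2), ∀ t, |a j t| ≤ 1 := by
    intro j hj t
    rw [← sq_le_one_iff_abs_le_one, ← a1 t]
    exact Finset.single_le_sum (f := fun j => a j t ^ 2) (fun _ _ => sq_nonneg _) hj
  let p : ℕ → ℝ := fun j => (N * u0 ^ 2 * q ^ (2 * j + 4) / omega d) ^ ((d : ℝ)⁻¹)
  have p0 : ∀ j, 0 < p j := fun j => by simp only [p]; positivity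
  have pd : ∀ j, omega d * p j ^ d = N * u0 ^ 2 * q ^ (2 * j + 4) := by
    intro j
    simp only [p]
    rw [rpow_inv_natCast_pow (by positivity) hd.ne']; field_simp
  have p2 : ∀ j, 4 * π ^ 2 * (d / (d + 2) * p j ^ 2) =
      Kcl d * (N * u0 ^ 2 * q ^ (2 * j + 4)) ^ (2 / (d : ℝ)) := by
    intro j
    simp only [p]
    rw [Kcl_eq, ← rpow_natCast (_ ^ ((d : ℝ)⁻¹)) 2, ← rpow_mul (by positivity),
      div_rpow (by positivity) ho.le, neg_div, rpow_neg ho.le]
    have : (d : ℝ)⁻¹ * ((2 : ℕ) : ℝ) = 2 / d := by push_cast; field_simp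
    rw [this]; field_simp
  have ev1 : ∀ᶠ L : ℕ in atTop, ∀ j ∈ Finset.range (J + 1), ∃ K : Finset (Fin d → ℤ),
      omega d * p j ^ d * (L : ℝ) ^ d ≤ q * K.card ∧
      ∑ k ∈ K, ∑ r, ((k r : ℝ) / L) ^ 2 ≤ q * (d / (d + 2) * p j ^ 2) * K.card :=
    (Finset.eventually_all _).2 fun j _ => fermi_ball hd (p0 j) hq
  have ev2 := tail_small c.u2 (fun x => ‖x‖) measurable_norm (t := fun j : ℕ => (j : ℝ) / 4)
    (fun i j hij => by dsimp only; gcongr)
    (tendsto_natCast_atTop_atTop.atTop_div_const (by norm_num)) (by positivity : 0 < 1 / N ^ 2)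
  have ev3 : ∀ᶠ L : ℕ in atTop, (d : ℝ) * (8 / (L : ℝ)) ^ 2 < Bt := by
    have : Tendsto (fun L : ℕ => (d : ℝ) * (8 / (L : ℝ)) ^ 2) atTop (𝓝 ((d : ℝ) * 0 ^ 2)) :=
      ((tendsto_const_div_atTop_nhds_zero_nat 8).pow 2).const_mul _
    exact this.eventually (gt_mem_nhds (by simpa using hBt))
  obtain ⟨L, ⟨⟨hL1, hL2⟩, hL3⟩, hL4⟩ := (((ev1.and ev2).and ev3).and (eventually_gt_atTop 0)).exists
  have hL : (0 : ℝ) < L := by exact_mod_cast hL4
  choose! K hK1 hK2 using hL1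
  have Kpos : ∀ j ∈ Finset.range (J + 1), 0 < (K j).card := by
    intro j hj
    have h1 := hK1 j hj
    have h2 : 0 < omega d * p j ^ d * (L : ℝ) ^ d := by have := p0 j; positivity
    have h3 : (0 : ℝ) < (K j).card := by
      by_contra h
      have : q * ((K j).card : ℝ) ≤ 0 := mul_nonpos_of_nonneg_of_nonpos hq0.le (not_lt.1 h)
      linarith
    exact_mod_cast h3
  let κ : (Fin d → ℝ) → ℝ := fun x => cos (ang L x)
  let κ' : (Fin d → ℝ) → ℝ := fun x => sin (ang L x)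
  have κm : Measurable κ := (continuous_cos.comp (ang_cont _)).measurable
  have κm' : Measurable κ' := (continuous_sin.comp (ang_cont _)).measurable
  let A : ℕ → (Fin d → ℝ) → ℝ := fun j x => a j (c.u x) * κ x
  have Am : ∀ j, Measurable (A j) := fun j => ((ac j).measurable.comp c.um).mul κm
  have A1 : ∀ j ∈ Finset.range (J + 2), ∀ x, |A j x| ≤ 1 := fun j hj x => by
    simp only [A]; rw [abs_mul]
    exact mul_le_one₀ (abd j hj _) (abs_nonneg _) (abs_cos_le_one _)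
  have g1 : ∀ (B : (Fin d → ℝ) → ℝ), (∀ x, |B x| ≤ 1) → ∀ x, |B x * gamf (c.zeta τ x)| ≤ 1 :=
    fun B hB x => by rw [abs_mul]; exact mul_le_one₀ (hB x) (abs_nonneg _) (abs_sin_le_one _)
  have FL := Fam.sum (Finset.range (J + 1)) fun j hj => c.famL (θ := 1 / q) (by positivity) τ hN0.le
    hL (K j) (Kpos j hj) (M := u0 * q ^ (j + 1)) (by
      have h1 := hK1 j hj
      rw [pd] at h1
      have : N * (u0 * q ^ (j + 1)) ^ 2 * (L : ℝ) ^ d =
        1 / q ^ 2 * (N * u0 ^ 2 * q ^ (2 * j + 4) * (L : ℝ) ^ d) := by field_simp; ring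
      rw [this]
      calc _ ≤ 1 / q ^ 2 * (q * (K j).card) := by gcongr
        _ = _ := by field_simp) (Am j)
      (A1 j (Finset.mem_range.2 (by have := Finset.mem_range.1 hj; omega)))
      (fun x hx => ⟨cos_ang_ne hL (right_ne_zero_of_mul hx),
        a2 j _ (by have := Finset.mem_range.1 hj; omega) (left_ne_zero_of_mul hx)⟩)
  have FT := c.famH hθ τ (N := n + 1) (Nat.succ_pos n) (Am (J + 1))
    (A1 _ (Finset.self_mem_range_succ _)) (by
      push_cast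
      rw [← hN]
      exact hJ _ (g1 _ (A1 _ (Finset.self_mem_range_succ _))) fun x hx =>
        a3 J _ (left_ne_zero_of_mul (left_ne_zero_of_mul hx)))
  have FO := c.famH hθ τ (N := n + 1) (Nat.succ_pos n) κm' (fun _ => abs_sin_le_one _) (by
      push_cast
      rw [← hN]
      exact hL2 _ (g1 _ fun _ => abs_sin_le_one _) fun x hx =>
        sin_ang_ne hL (left_ne_zero_of_mul hx))
  have FB := c.famT hθ hN6
  rw [← hτdef] at FB
  obtain ⟨ι, _, v, vm, v2, vb, vρ, vE, vo⟩ := ((FL.add FT).add FO).add FB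
  have wsum : ∀ x, ∑ j ∈ Finset.range (J + 1), (A j x * gamf (c.zeta τ x)) ^ 2 +
      (A (J + 1) x * gamf (c.zeta τ x)) ^ 2 + (κ' x * gamf (c.zeta τ x)) ^ 2 =
      gamf (c.zeta τ x) ^ 2 := by
    intro x
    rw [← Finset.sum_range_succ (fun j => (A j x * gamf (c.zeta τ x)) ^ 2)]
    simp only [A, mul_pow]
    rw [← Finset.sum_mul, ← Finset.sum_mul, a1, one_mul, ← add_mul]
    simp only [κ, κ', cos_sq_add_sin_sq, one_mul]
  let m : ℕ → ℝ := fun j => ∫ x, (c.u x * (A j x * gamf (c.zeta τ x))) ^ 2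
  have m0 : ∀ j, 0 ≤ m j := fun j => integral_nonneg fun x => sq_nonneg _
  let P : Fin d → ℝ := fun r => ∑ j ∈ Finset.range (J + 1),
    N / (K j).card * (4 * π ^ 2 * ∑ k ∈ K j, ((k r : ℝ) / L) ^ 2) * m j
  have P0 : ∀ r, 0 ≤ P r := fun r => Finset.sum_nonneg fun j _ => by have := m0 j; positivity
  have hη1 : η ≤ 1 := by rw [hη]; linarith [one_div_pos.2 hq0]
  have hbes : ∀ χ : (Fin d → ℝ) → ℂ, MemLp χ 2 volume →
      ∑ i, ‖∫ x, conj (v i x) * χ x‖ ^ 2 ≤ (1 - η) * ∫ x, ‖χ x‖ ^ 2 := by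
    intro χ hχ
    obtain ⟨b1, b2⟩ := vb χ hχ
    refine b2.trans ?_
    rw [hη, sub_sub_cancel]
    refine mul_le_mul_of_nonneg_left (integral_mono b1 (integrable_normsq hχ) fun x => ?_)
      (by positivity)
    refine mul_le_of_le_one_left (by positivity) ?_
    beta_reduce
    rw [wsum]
    nlinarith [lam_bet_gam (c.zeta τ x), sq_nonneg (lamf (c.zeta τ x))]
  have hρ : ∀ x, ∑ i, ‖v i x‖ ^ 2 + 3 * (2 / τ * (c.u x * lamf (c.zeta τ x)) ^ 2) =
      N * c.u x ^ 2 := by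
    intro x
    rw [vρ]
    have h1 := wsum x
    have h2 := lam_bet_gam (c.zeta τ x)
    have h3 : 3 * (2 / τ) = N := by rw [hτdef]; field_simp; norm_num
    simp only [mul_pow (c.u x)]
    rw [← Finset.mul_sum, ← Finset.mul_sum]
    push_cast
    rw [← hN, ← mul_assoc 3, h3]
    linear_combination (N * c.u x ^ 2) * h1 + (N * c.u x ^ 2) * h2
  have hEv : ∀ r (h : ℝ), 0 < h →
      ∑ i, ∫ x, ‖v i (x + h • Pi.single r (1 : ℝ)) - v i x‖ ^ 2 ≤
        h ^ 2 * (N * (8 * (8 / L) ^ 2 + (2 * Cq + 2404098) * c.B r) + P r) := by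
    intro r h hh
    refine (vE r h hh).trans ?_
    have e1 := c.amp_bound hτ (Finset.range (J + 2)) a (fun j => (ac j).measurable)
      (fun t => (a1 t).le) hCq a4 (Y := fun x => κ x * gamf (c.zeta τ x))
      (κm.mul (c.gam_m τ)) (g1 _ fun _ => abs_cos_le_one _) r hh (b := 8 / L) fun x =>
      prod_lip (abs_cos_le_one _) (abs_sin_le_one _)
        ((abs_cos_sub_cos_le _ _).trans (ang_shift hL x r hh)) (gamf_lip _ _)
    have e2 := c.amp_bound1 hτ (Y := fun x => κ' x * gamf (c.zeta τ x))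
      (κm'.mul (c.gam_m τ)) (g1 _ fun _ => abs_sin_le_one _) r hh (b := 8 / L) fun x =>
      prod_lip (abs_sin_le_one _) (abs_sin_le_one _)
        ((abs_sin_sub_sin_le _ _).trans (ang_shift hL x r hh)) (gamf_lip _ _)
    rw [Finset.sum_range_succ] at e1
    simp only [← mul_assoc (a _ _)] at e1
    beta_reduce
    rw [Finset.sum_add_distrib, ← Finset.mul_sum, ← Finset.mul_sum]
    push_cast
    rw [← hN]
    have f1 := mul_le_mul_of_nonneg_left e1 hN0.le
    have f2 := mul_le_mul_of_nonneg_left e2 hN0.le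
    simp only [A, P, m] at f1 f2 ⊢
    linarith
  have hint : ∫ x, N * c.u x ^ 2 = (n : ℝ) + 1 := by
    rw [integral_const_mul, c.u1, mul_one, hN]
  have hEv0 : ∀ r, 0 ≤ N * (8 * (8 / (L : ℝ)) ^ 2 + (2 * Cq + 2404098) * c.B r) + P r := fun r =>
    add_nonneg (by have := c.B0 r; positivity) (P0 r)
  have hEl0 : ∀ r, 0 ≤ (2052 + 8192 * ((12 * Q : ℕ) : ℝ) ^ 2) * c.B r / τ := fun r =>
    div_nonneg (mul_nonneg (add_nonneg (by norm_num) (mul_nonneg (by norm_num) (sq_nonneg _)))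
      (c.B0 r)) hτ.le
  have hEl : ∀ a < 12 * Q, ∀ r (h : ℝ), 0 < h →
      ∫ x, ‖c.lab τ a (x + h • Pi.single r (1 : ℝ)) - c.lab τ a x‖ ^ 2 ≤
        h ^ 2 * ((2052 + 8192 * ((12 * Q : ℕ) : ℝ) ^ 2) * c.B r / τ) :=
    fun a ha r h hh => c.lab_energy hτ ha r hh
  have hn3 : 3 ≤ n := by omega
  have hbes' := primal_of_dual v2 (by linarith) hbes
  obtain ⟨Ψ, s1, s2, s3⟩ := assemble (n := n) hη0 hη1 hQ hn3 v vm v2 hbes'
    (c.lab τ) (c.lab_m τ) (c.lab_memLp τ) (c.lab_on hτ hτ1) vo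
    (fun x => 2 / τ * (c.u x * lamf (c.zeta τ x)) ^ 2) (c.lab_normsq hτ)
    (fun x => N * c.u x ^ 2) hρ hint _ _ hEv0 hEl0 hEv hEl
  refine ⟨Ψ, s1, s2, s3.trans (ENNReal.ofReal_le_ofReal ?_)⟩
  -- the phase energy
  have hP : ∑ r, P r ≤ q ^ 13 * Kcl d * N ^ (1 + 2 / (d : ℝ)) * D + N * Bt := by
    have e1 : ∑ r, P r ≤ ∑ j ∈ Finset.range (J + 1),
        N * q * Kcl d * ((N * u0 ^ 2 * q ^ (2 * j + 4)) ^ (2 / (d : ℝ)) * m j) := by
      simp only [P]
      rw [Finset.sum_comm]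
      refine Finset.sum_le_sum fun j hj => ?_
      rw [← Finset.sum_mul, ← Finset.mul_sum, ← Finset.mul_sum, Finset.sum_comm]
      have h1 := hK2 j hj
      have h2 : (0 : ℝ) < (K j).card := by exact_mod_cast Kpos j hj
      have h3 := m0 j
      calc _ ≤ N / (K j).card * (4 * π ^ 2 * (q * (d / (d + 2) * p j ^ 2) * (K j).card)) * m j := by
            gcongr
        _ = N * q * (4 * π ^ 2 * (d / (d + 2) * p j ^ 2)) * m j := by field_simp
        _ = _ := by rw [p2]; ring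
    have mi : ∀ j ∈ Finset.range (J + 1),
        Integrable fun x => (c.u x * (A j x * gamf (c.zeta τ x))) ^ 2 := fun j hj =>
      (memLp_mul_bdd c.u2 ((Am j).mul (c.gam_m τ)) (g1 _ (A1 j
        (Finset.mem_range.2 (by have := Finset.mem_range.1 hj; omega))))).integrable_sq
    have e2 : ∑ j ∈ Finset.range (J + 1),
        (N * u0 ^ 2 * q ^ (2 * j + 4)) ^ (2 / (d : ℝ)) * m j ≤
        q ^ 12 * N ^ (2 / (d : ℝ)) * D + Bt / (q * Kcl d) := by
      simp only [m]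
      simp_rw [← integral_const_mul]
      rw [← integral_finsetSum _ fun j hj => (mi j hj).const_mul _]
      calc _ ≤ ∫ x, (q ^ 12 * N ^ (2 / (d : ℝ)) * (c.u x ^ 2) ^ (1 + 2 / (d : ℝ)) +
            Bt / (q * Kcl d) * c.u x ^ 2) := by
            refine integral_mono (integrable_finsetSum _ fun j hj => (mi j hj).const_mul _)
              ((hD.const_mul _).add (c.u2.integrable_sq.const_mul _)) fun x => ?_
            set R := q ^ 12 * N ^ (2 / (d : ℝ)) * (c.u x ^ 2) ^ (1 + 2 / (d : ℝ)) +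
              Bt / (q * Kcl d) * c.u x ^ 2 with hR
            have hR0 : 0 ≤ R := by positivity
            have key : ∀ j ∈ Finset.range (J + 1),
                (N * u0 ^ 2 * q ^ (2 * j + 4)) ^ (2 / (d : ℝ)) *
                (c.u x * (A j x * gamf (c.zeta τ x))) ^ 2 ≤
                R * (A j x * gamf (c.zeta τ x)) ^ 2 := by
              intro j _
              rw [mul_pow (c.u x), ← mul_assoc]
              by_cases h0 : a j (c.u x) = 0
              · simp [A, h0]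
              refine mul_le_mul_of_nonneg_right ?_ (sq_nonneg _)
              exact level_bound hd hq hN0 hu0 hu0' j fun i hi => a3 i _ (hi ▸ h0)
            refine (Finset.sum_le_sum key).trans ?_
            rw [← Finset.mul_sum]
            refine mul_le_of_le_one_right hR0 ?_
            have h1 := wsum x
            have h2 : gamf (c.zeta τ x) ^ 2 ≤ 1 := sin_sq_le_one _
            nlinarith [sq_nonneg (A (J + 1) x * gamf (c.zeta τ x)),
              sq_nonneg (κ' x * gamf (c.zeta τ x))]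
        _ = _ := by
            rw [integral_add (hD.const_mul _) (c.u2.integrable_sq.const_mul _), integral_const_mul,
              integral_const_mul, c.u1, mul_one, ← hDdef]
    refine e1.trans ?_
    rw [← Finset.mul_sum]
    calc _ ≤ N * q * Kcl d * (q ^ 12 * N ^ (2 / (d : ℝ)) * D + Bt / (q * Kcl d)) := by gcongr
      _ = _ := by rw [rpow_add hN0, rpow_one]; field_simp
  have e3 : ∑ r, (N * (8 * (8 / (L : ℝ)) ^ 2 + (2 * Cq + 2404098) * c.B r) + P r +
      4 * ((2052 + 8192 * ((12 * Q : ℕ) : ℝ) ^ 2) * c.B r / τ)) =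
      N * (8 * (d * (8 / (L : ℝ)) ^ 2) + (2 * Cq + 2404098) * Bt) + ∑ r, P r +
      2 / 3 * N * ((2052 + 8192 * ((12 * Q : ℕ) : ℝ) ^ 2) * Bt) := by
    rw [Finset.sum_add_distrib, Finset.sum_add_distrib, ← Finset.mul_sum, Finset.sum_add_distrib,
      ← Finset.mul_sum, ← Finset.mul_sum, ← Finset.mul_sum, ← Finset.sum_div, ← Finset.mul_sum,
      hτdef, ← hBtdef]
    simp only [Finset.sum_const, Finset.card_univ, Fintype.card_fin, nsmul_eq_mul]
    field_simp; ring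
  rw [e3]
  have h5 : 0 ≤ N * ((2052 + 8192 * ((12 * Q : ℕ) : ℝ) ^ 2) * Bt) := by positivity
  have h6 : N * (d * (8 / (L : ℝ)) ^ 2) ≤ N * Bt := by gcongr
  have h7 : 0 ≤ N * Bt := by positivity
  nlinarith

end Pool.Agent.Lib.MP_ae5e3b_mp
end

-- part Pool.Agent.Lib.MP_ae5e3b_mp.SCru
section

open MeasureTheory Matrix Real
open scoped ComplexConjugate ComplexOrder

set_option linter.unusedSectionVars false

namespace Pool.Agent.Lib.MP_ae5e3b_mp.Sh

variable {d : ℕ}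

open Filter Topology in
lemma SCru_famH (c : Ctx d) {N : ℝ} (hN : 0 < N) {K : ℕ} (hK : N ≤ K) {A : (Fin d → ℝ) → ℝ}
    (Am : Measurable A) (A1 : ∀ x, |A x| ≤ 1)
    (mass : ∫ x, (c.u x * A x) ^ 2 ≤ 1 / (K : ℝ) ^ 2) :
    Fam 1 (fun _ _ => 0) (fun x => A x ^ 2) (fun x => N * (c.u x * A x) ^ 2)
      (fun r h => N * (∫ x, (c.u (x + h • Pi.single r (1 : ℝ)) *
        A (x + h • Pi.single r (1 : ℝ)) - c.u x * A x) ^ 2) + h ^ 2 * (256 * N * c.B r)) := by
  have hK0 : (0 : ℝ) < K := hN.trans_le hK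
  have hc : √(N / K) ^ 2 = N / K := sq_sqrt (by positivity)
  refine (Fam.sector (T := Fin K) (A := A) zero_le_one c.um c.u2 Am A1 √(N / K)
    (fun k x => 2 * π * (k : ℕ) * c.F (x c.r0))
    (fun k => c.Fm.const_mul _) MeasurableSet.univ (fun _ _ => Set.mem_univ _) ?_
    (fun k r => 16 * (k : ℕ) * √(c.B r))
    (fun k r h hh x => c.phase_F k r hh x) (fun a k => by simp)).mono ?_ ?_
  · intro cf
    have b := bessel_1d (fun k : Fin K => ((k : ℕ) : ℤ))
      (fun k l h => Fin.ext (by simpa using h)) 0 one_pos cf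
    simp only [zero_add, div_one, one_mul, Int.cast_natCast] at b
    have gc : Continuous fun y : ℝ => ‖∑ k : Fin K, cf k * ex (2 * π * (k : ℕ) * y)‖ ^ 2 := by
      have := continuous_ex
      fun_prop
    rw [Measure.restrict_univ, c.push_real _ gc.measurable, b, hc]
    have : N / K ≤ 1 := (div_le_one hK0).2 hK
    gcongr
  · intro x; rw [hc]; simp only [Fintype.card_fin]; field_simp
  · intro r h hh
    have hB := c.B0 r
    have h3 : ∑ k : Fin K, (16 * (k : ℕ) * √(c.B r)) ^ 2 ≤ K * ((16 * K) ^ 2 * c.B r) := by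
      calc _ ≤ ∑ k : Fin K, ((16 * K) ^ 2 * c.B r) := by
            refine Finset.sum_le_sum fun k _ => ?_
            rw [mul_pow _ √_, sq_sqrt (by positivity)]
            have : ((k : ℕ) : ℝ) ≤ K := by exact_mod_cast k.2.le
            gcongr
        _ = _ := by simp
    rw [hc, Fintype.card_fin]
    refine add_le_add (le_of_eq (by congr 1; field_simp)) ?_
    calc _ ≤ h ^ 2 * (N / K * (K * ((16 * K) ^ 2 * c.B r)) * (1 / (K : ℝ) ^ 2)) := by
          gcongr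
      _ = _ := by field_simp; ring

open Filter Topology in
lemma SCru_famL (c : Ctx d) {N : ℝ} (hN : 0 ≤ N) {L : ℝ} (hL : 0 < L)
    (K : Finset (Fin d → ℤ)) (hK : 0 < K.card) {M : ℝ}
    (hM : N * M ^ 2 * L ^ d ≤ K.card) {A : (Fin d → ℝ) → ℝ}
    (Am : Measurable A) (A1 : ∀ x, |A x| ≤ 1) (hA : ∀ x, A x ≠ 0 → ‖x‖ ≤ L / 2 ∧ c.u x ≤ M) :
    Fam 1 (fun _ _ => 0) (fun x => A x ^ 2) (fun x => N * (c.u x * A x) ^ 2)
      (fun r h => N * (∫ x, (c.u (x + h • Pi.single r (1 : ℝ)) *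
        A (x + h • Pi.single r (1 : ℝ)) - c.u x * A x) ^ 2) +
        h ^ 2 * (N / K.card * (4 * π ^ 2 * ∑ k ∈ K, ((k r : ℝ) / L) ^ 2) *
          ∫ x, (c.u x * A x) ^ 2)) := by
  have hK' : (0 : ℝ) < K.card := by exact_mod_cast hK
  have hc : √(N / K.card) ^ 2 = N / K.card := sq_sqrt (by positivity)
  let Q : Set (Fin d → ℝ) := Set.univ.pi fun _ : Fin d => Set.Icc (-(L / 2)) (-(L / 2) + L)
  have Qm : MeasurableSet Q := MeasurableSet.univ_pi fun _ => measurableSet_Icc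
  have Um : MeasurableSet (Q ∩ {x | c.u x ≤ M}) := Qm.inter (measurableSet_le c.um measurable_const)
  refine (Fam.sector (T := K) (A := A) zero_le_one c.um c.u2 Am A1 √(N / K.card)
    (fun k x => ∑ r, 2 * π * (k.1 r : ℝ) * x r / L)
    (fun k => by fun_prop) Um ?_ ?_
    (fun k r => 2 * π * |(k.1 r : ℝ) / L|)
    ?_ (fun a k => by simp)).mono ?_ ?_
  · intro x hx
    obtain ⟨h1, h2⟩ := hA x hx
    refine ⟨fun r _ => ?_, h2⟩
    have := abs_le.1 ((norm_le_pi_norm x r).trans h1)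
    constructor <;> linarith [this.1, this.2]
  · intro cf
    have b := bessel_cube (fun k : K => k.1) Subtype.val_injective (-(L / 2)) hL cf
    let g : (Fin d → ℝ) → ℝ := fun x =>
      ‖∑ k : K, cf k * ex (∑ r, 2 * π * (k.1 r : ℝ) * x r / L)‖ ^ 2
    have gc : Continuous g := by
      have := continuous_ex
      simp only [g]; fun_prop
    have gi : IntegrableOn g Q := gc.continuousOn.integrableOn_compact
      (isCompact_univ_pi fun _ => isCompact_Icc)
    have e1 : ∫ x in Q ∩ {x | c.u x ≤ M}, c.u x ^ 2 * g x ≤ M ^ 2 * ∫ x in Q, g x := by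
      rw [← integral_const_mul]
      calc _ ≤ ∫ x in Q ∩ {x | c.u x ≤ M}, M ^ 2 * g x := by
            refine integral_mono_of_nonneg (Eventually.of_forall fun x => by
              simp only [g]; positivity) ((gi.mono_set Set.inter_subset_left).const_mul _) ?_
            filter_upwards [ae_restrict_mem Um] with x hx
            have h0 := c.u0 x
            have h1 : c.u x ≤ M := hx.2
            have : 0 ≤ g x := by simp only [g]; positivity
            gcongr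
        _ ≤ _ := setIntegral_mono_set (gi.const_mul _)
            (Eventually.of_forall fun x => by simp only [g]; positivity)
            (LE.le.eventuallyLE Set.inter_subset_left)
    have e3 : 0 ≤ ∑ k, ‖cf k‖ ^ 2 := by positivity
    rw [hc]
    calc _ ≤ N / K.card * (M ^ 2 * (L ^ d * ∑ k, ‖cf k‖ ^ 2)) := by
          gcongr; exact e1.trans (le_of_eq (by rw [← b]))
      _ = (N * M ^ 2 * L ^ d) / K.card * ∑ k, ‖cf k‖ ^ 2 := by ring
      _ ≤ _ := by gcongr; rwa [div_le_one hK']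
  · intro k r h hh x
    rw [← Finset.sum_sub_distrib, Finset.sum_eq_single r]
    · simp only [Pi.add_apply, Pi.smul_apply, Pi.single_eq_same, smul_eq_mul, mul_one]
      have : 2 * π * (k.1 r : ℝ) * (x r + h) / L - 2 * π * (k.1 r : ℝ) * x r / L =
        (h * (2 * π)) * ((k.1 r : ℝ) / L) := by ring
      rw [this, abs_mul, abs_of_pos (by positivity), mul_assoc]
    · intro r' _ hr'
      simp [Pi.single_eq_of_ne hr']
    · simp
  · intro x; rw [hc]; simp only [Fintype.card_coe]; field_simp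
  · intro r h hh
    rw [hc, Fintype.card_coe]
    refine le_of_eq ?_
    congr 1
    · field_simp
    · congr 3
      rw [Finset.mul_sum, ← Finset.sum_coe_sort K]
      refine Finset.sum_congr rfl fun k _ => ?_
      rw [mul_pow, sq_abs]; ring

open Filter Topology in
lemma SCru_phase (hd : 0 < d) {q : ℝ} (hq : 1 < q) (c : Ctx d) {N Bt u0 : ℝ} (hN0 : 0 < N)
    (hBt : 0 < Bt) (hu0 : 0 < u0)
    (hu0' : (N * u0 ^ 2 * q ^ 4) ^ (2 / (d : ℝ)) = Bt / (q * Kcl d))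
    (hD : Integrable (fun x => (c.u x ^ 2) ^ (1 + 2 / (d : ℝ)))) (J : ℕ)
    (A : ℕ → (Fin d → ℝ) → ℝ) (Am : ∀ j, Measurable (A j))
    (A1 : ∀ j ∈ Finset.range (J + 1), ∀ x, |A j x| ≤ 1)
    (As : ∀ x, ∑ j ∈ Finset.range (J + 1), A j x ^ 2 ≤ 1)
    (Al : ∀ j x, A (j + 1) x ≠ 0 → u0 * q ^ j ≤ c.u x) :
    ∑ j ∈ Finset.range (J + 1),
      (N * u0 ^ 2 * q ^ (2 * j + 4)) ^ (2 / (d : ℝ)) * ∫ x, (c.u x * A j x) ^ 2 ≤
      q ^ 12 * N ^ (2 / (d : ℝ)) * (∫ x, (c.u x ^ 2) ^ (1 + 2 / (d : ℝ))) + Bt / (q * Kcl d) := by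
  have hq0 : 0 < q := by linarith
  have hK := Kcl_pos hd
  have mi : ∀ j ∈ Finset.range (J + 1), Integrable fun x => (c.u x * A j x) ^ 2 := fun j hj =>
    (memLp_mul_bdd c.u2 (Am j) (A1 j hj)).integrable_sq
  simp_rw [← integral_const_mul]
  rw [← integral_finsetSum _ fun j hj => (mi j hj).const_mul _]
  calc _ ≤ ∫ x, (q ^ 12 * N ^ (2 / (d : ℝ)) * (c.u x ^ 2) ^ (1 + 2 / (d : ℝ)) +
        Bt / (q * Kcl d) * c.u x ^ 2) := by
        refine integral_mono (integrable_finsetSum _ fun j hj => (mi j hj).const_mul _)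
          ((hD.const_mul _).add (c.u2.integrable_sq.const_mul _)) fun x => ?_
        set R := q ^ 12 * N ^ (2 / (d : ℝ)) * (c.u x ^ 2) ^ (1 + 2 / (d : ℝ)) +
          Bt / (q * Kcl d) * c.u x ^ 2 with hR
        have hR0 : 0 ≤ R := by positivity
        have key : ∀ j ∈ Finset.range (J + 1),
            (N * u0 ^ 2 * q ^ (2 * j + 4)) ^ (2 / (d : ℝ)) * (c.u x * A j x) ^ 2 ≤
            R * A j x ^ 2 := by
          intro j _
          rw [mul_pow (c.u x), ← mul_assoc]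
          by_cases h0 : A j x = 0
          · simp [h0]
          refine mul_le_mul_of_nonneg_right ?_ (sq_nonneg _)
          exact level_bound hd hq hN0 hu0 hu0' j fun i hi => Al i _ (hi ▸ h0)
        refine (Finset.sum_le_sum key).trans ?_
        rw [← Finset.mul_sum]
        exact mul_le_of_le_one_right hR0 (As x)
    _ = _ := by
        rw [integral_add (hD.const_mul _) (c.u2.integrable_sq.const_mul _),
          integral_const_mul (Bt / (q * Kcl d)), c.u1, mul_one]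

open Filter Topology in
lemma SCru_ctx (hd : 0 < d) {q : ℝ} (hq : 1 < q) :
    ∃ C : ℝ, 0 < C ∧ ∀ (c : Ctx d) (N : ℝ), 0 < N → 0 < ∑ r, c.B r →
      Integrable (fun x => (c.u x ^ 2) ^ (1 + 2 / (d : ℝ))) →
      ∃ E : Fin d → ℝ, (∀ r, 0 ≤ E r) ∧
        Fam 1 (fun _ _ => 0) (fun _ => 1) (fun x => N * c.u x ^ 2) (fun r h => h ^ 2 * E r) ∧
        ∑ r, E r ≤ q ^ 13 * Kcl d * N ^ (1 + 2 / (d : ℝ)) *
          (∫ x, (c.u x ^ 2) ^ (1 + 2 / (d : ℝ))) + C * N * ∑ r, c.B r := by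
  classical
  have hq0 : 0 < q := by linarith
  obtain ⟨Cq, hCq, hlev⟩ := exists_levels hq
  refine ⟨2 * Cq + 2571, by positivity, fun c N hN0 hBt hD => ?_⟩
  set Bt := ∑ r, c.B r with hBtdef
  clear_value Bt
  set D := ∫ x, (c.u x ^ 2) ^ (1 + 2 / (d : ℝ)) with hDdef
  have hD0 : 0 ≤ D := integral_nonneg fun x => by positivity
  clear_value D
  have hK := Kcl_pos hd
  have hd' : (0 : ℝ) < d := by exact_mod_cast hd
  have hd1 : (1 : ℝ) ≤ d := by exact_mod_cast hd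
  have ho := omega_pos d
  obtain ⟨KN, hKN⟩ : ∃ KN : ℕ, N ≤ KN := ⟨_, Nat.le_ceil N⟩
  have hKN0 : (0 : ℝ) < KN := hN0.trans_le hKN
  obtain ⟨u0, hu0def⟩ : ∃ u0, u0 = √((Bt / (q * Kcl d)) ^ ((d : ℝ) / 2) / (N * q ^ 4)) :=
    ⟨_, rfl⟩
  have hu0 : 0 < u0 := by rw [hu0def]; exact sqrt_pos.2 (by positivity)
  have hu0' : (N * u0 ^ 2 * q ^ 4) ^ (2 / (d : ℝ)) = Bt / (q * Kcl d) := by
    rw [hu0def, sq_sqrt (by positivity)]
    have : N * ((Bt / (q * Kcl d)) ^ ((d : ℝ) / 2) / (N * q ^ 4)) * q ^ 4 =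
      (Bt / (q * Kcl d)) ^ ((d : ℝ) / 2) := by field_simp
    rw [this, ← rpow_mul (by positivity)]
    have : (d : ℝ) / 2 * (2 / d) = 1 := by field_simp
    rw [this, rpow_one]
  obtain ⟨J, hJ⟩ := (tail_small c.u2 c.u c.um (t := fun j => u0 * q ^ j)
    (fun i j hij => by dsimp only; gcongr; exact hq.le)
    ((tendsto_pow_atTop_atTop_of_one_lt hq).const_mul_atTop hu0)
    (by positivity : 0 < 1 / (KN : ℝ) ^ 2)).exists
  obtain ⟨a, ac, a1, a2, a3, a4⟩ := hlev u0 hu0 J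
  have abd : ∀ j ∈ Finset.range (J + 2), ∀ t, |a j t| ≤ 1 := by
    intro j hj t
    rw [← sq_le_one_iff_abs_le_one, ← a1 t]
    exact Finset.single_le_sum (f := fun j => a j t ^ 2) (fun _ _ => sq_nonneg _) hj
  let p : ℕ → ℝ := fun j => (N * u0 ^ 2 * q ^ (2 * j + 4) / omega d) ^ ((d : ℝ)⁻¹)
  have p0 : ∀ j, 0 < p j := fun j => by simp only [p]; positivity
  have pd : ∀ j, omega d * p j ^ d = N * u0 ^ 2 * q ^ (2 * j + 4) := by
    intro j
    simp only [p]
    rw [rpow_inv_natCast_pow (by positivity) hd.ne']; field_simp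
  have p2 : ∀ j, 4 * π ^ 2 * (d / (d + 2) * p j ^ 2) =
      Kcl d * (N * u0 ^ 2 * q ^ (2 * j + 4)) ^ (2 / (d : ℝ)) := by
    intro j
    simp only [p]
    rw [Kcl_eq, ← rpow_natCast (_ ^ ((d : ℝ)⁻¹)) 2, ← rpow_mul (by positivity),
      div_rpow (by positivity) ho.le, neg_div, rpow_neg ho.le]
    have : (d : ℝ)⁻¹ * ((2 : ℕ) : ℝ) = 2 / d := by push_cast; field_simp
    rw [this]; field_simp
  have ev1 : ∀ᶠ L : ℕ in atTop, ∀ j ∈ Finset.range (J + 1), ∃ K : Finset (Fin d → ℤ),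
      omega d * p j ^ d * (L : ℝ) ^ d ≤ q * K.card ∧
      ∑ k ∈ K, ∑ r, ((k r : ℝ) / L) ^ 2 ≤ q * (d / (d + 2) * p j ^ 2) * K.card :=
    (Finset.eventually_all _).2 fun j _ => fermi_ball hd (p0 j) hq
  have ev2 := tail_small c.u2 (fun x => ‖x‖) measurable_norm (t := fun j : ℕ => (j : ℝ) / 4)
    (fun i j hij => by dsimp only; gcongr)
    (tendsto_natCast_atTop_atTop.atTop_div_const (by norm_num))
    (by positivity : 0 < 1 / (KN : ℝ) ^ 2)
  have ev3 : ∀ᶠ L : ℕ in atTop, (d : ℝ) * (8 / (L : ℝ)) ^ 2 < Bt := by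
    have : Tendsto (fun L : ℕ => (d : ℝ) * (8 / (L : ℝ)) ^ 2) atTop (𝓝 ((d : ℝ) * 0 ^ 2)) :=
      ((tendsto_const_div_atTop_nhds_zero_nat 8).pow 2).const_mul _
    exact this.eventually (gt_mem_nhds (by simpa using hBt))
  obtain ⟨L, ⟨⟨hL1, hL2⟩, hL3⟩, hL4⟩ := (((ev1.and ev2).and ev3).and (eventually_gt_atTop 0)).exists
  have hL : (0 : ℝ) < L := by exact_mod_cast hL4
  choose! K hK1 hK2 using hL1
  have Kpos : ∀ j ∈ Finset.range (J + 1), 0 < (K j).card := by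
    intro j hj
    have h1 := hK1 j hj
    have h2 : 0 < omega d * p j ^ d * (L : ℝ) ^ d := by have := p0 j; positivity
    have h3 : (0 : ℝ) < (K j).card := by
      by_contra h
      have : q * ((K j).card : ℝ) ≤ 0 := mul_nonpos_of_nonneg_of_nonpos hq0.le (not_lt.1 h)
      linarith
    exact_mod_cast h3
  let κ : (Fin d → ℝ) → ℝ := fun x => cos (ang L x)
  let κ' : (Fin d → ℝ) → ℝ := fun x => sin (ang L x)
  have κm : Measurable κ := (continuous_cos.comp (ang_cont _)).measurable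
  have κm' : Measurable κ' := (continuous_sin.comp (ang_cont _)).measurable
  let A : ℕ → (Fin d → ℝ) → ℝ := fun j x => a j (c.u x) * κ x
  have Am : ∀ j, Measurable (A j) := fun j => ((ac j).measurable.comp c.um).mul κm
  have A1 : ∀ j ∈ Finset.range (J + 2), ∀ x, |A j x| ≤ 1 := fun j hj x => by
    simp only [A]; rw [abs_mul]
    exact mul_le_one₀ (abd j hj _) (abs_nonneg _) (abs_cos_le_one _)
  have A1' : ∀ j ∈ Finset.range (J + 1), ∀ x, |A j x| ≤ 1 := fun j hj =>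
    A1 j (Finset.mem_range.2 (by have := Finset.mem_range.1 hj; omega))
  have FL := Fam.sum (Finset.range (J + 1)) fun j hj => SCru_famL c hN0.le
    hL (K j) (Kpos j hj) (M := u0 * q ^ (j + 1)) (by
      have h1 := hK1 j hj
      rw [pd] at h1
      have : N * (u0 * q ^ (j + 1)) ^ 2 * (L : ℝ) ^ d =
        1 / q ^ 2 * (N * u0 ^ 2 * q ^ (2 * j + 4) * (L : ℝ) ^ d) := by field_simp; ring
      rw [this]
      calc _ ≤ 1 / q ^ 2 * (q * (K j).card) := by gcongr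
        _ = (K j).card / q := by field_simp
        _ ≤ _ := div_le_self (Nat.cast_nonneg _) hq.le) (Am j) (A1' j hj)
      (fun x hx => ⟨cos_ang_ne hL (right_ne_zero_of_mul hx),
        a2 j _ (by have := Finset.mem_range.1 hj; omega) (left_ne_zero_of_mul hx)⟩)
  have FT := SCru_famH c hN0 hKN (Am (J + 1)) (A1 _ (Finset.self_mem_range_succ _))
    (hJ _ (A1 _ (Finset.self_mem_range_succ _)) fun x hx => a3 J _ (left_ne_zero_of_mul hx))
  have FO := SCru_famH c hN0 hKN κm' (fun _ => abs_sin_le_one _)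
    (hL2 _ (fun _ => abs_sin_le_one _) fun x hx => sin_ang_ne hL hx)
  have wsum : ∀ x, ∑ j ∈ Finset.range (J + 1), A j x ^ 2 + A (J + 1) x ^ 2 + κ' x ^ 2 = 1 := by
    intro x
    rw [← Finset.sum_range_succ (fun j => A j x ^ 2)]
    simp only [A, mul_pow]
    rw [← Finset.sum_mul, a1, one_mul]
    simp only [κ, κ', cos_sq_add_sin_sq]
  have FA := (FL.add FT).add FO
  have ew : (fun x => ∑ j ∈ Finset.range (J + 1), A j x ^ 2 + A (J + 1) x ^ 2 + κ' x ^ 2) =
      fun _ => (1 : ℝ) := funext wsum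
  rw [ew] at FA
  let m : ℕ → ℝ := fun j => ∫ x, (c.u x * A j x) ^ 2
  have m0 : ∀ j, 0 ≤ m j := fun j => integral_nonneg fun x => sq_nonneg _
  let P : Fin d → ℝ := fun r => ∑ j ∈ Finset.range (J + 1),
    N / (K j).card * (4 * π ^ 2 * ∑ k ∈ K j, ((k r : ℝ) / L) ^ 2) * m j
  have P0 : ∀ r, 0 ≤ P r := fun r => Finset.sum_nonneg fun j _ => by have := m0 j; positivity
  refine ⟨fun r => N * (8 * (8 / L) ^ 2 + (2 * Cq + 2562) * c.B r) + P r, fun r =>
    add_nonneg (by have := c.B0 r; positivity) (P0 r), FA.mono ?_ ?_, ?_⟩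
  · intro x
    have h1 := wsum x
    simp only [mul_pow (c.u x)]
    rw [← Finset.mul_sum, ← Finset.mul_sum]
    linear_combination (N * c.u x ^ 2) * h1
  · intro r h hh
    have e1 := c.amp_bound one_pos (Finset.range (J + 2)) a (fun j => (ac j).measurable)
      (fun t => (a1 t).le) hCq a4 (Y := κ) κm (fun _ => abs_cos_le_one _) r hh (b := 8 / L)
      fun x => ((abs_cos_sub_cos_le _ _).trans (ang_shift hL x r hh)).trans
        (le_add_of_nonneg_right (by positivity))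
    have e2 := c.amp_bound1 one_pos (Y := κ') κm' (fun _ => abs_sin_le_one _) r hh (b := 8 / L)
      fun x => ((abs_sin_sub_sin_le _ _).trans (ang_shift hL x r hh)).trans
        (le_add_of_nonneg_right (by positivity))
    rw [Finset.sum_range_succ] at e1
    rw [Finset.sum_add_distrib, ← Finset.mul_sum, ← Finset.mul_sum]
    have f1 := mul_le_mul_of_nonneg_left e1 hN0.le
    have f2 := mul_le_mul_of_nonneg_left e2 hN0.le
    simp only [A, P, m] at f1 f2 ⊢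
    linarith
  · have hP : ∑ r, P r ≤ q ^ 13 * Kcl d * N ^ (1 + 2 / (d : ℝ)) * D + N * Bt := by
      have e1 : ∑ r, P r ≤ ∑ j ∈ Finset.range (J + 1),
          N * q * Kcl d * ((N * u0 ^ 2 * q ^ (2 * j + 4)) ^ (2 / (d : ℝ)) * m j) := by
        simp only [P]
        rw [Finset.sum_comm]
        refine Finset.sum_le_sum fun j hj => ?_
        rw [← Finset.sum_mul, ← Finset.mul_sum, ← Finset.mul_sum, Finset.sum_comm]
        have h1 := hK2 j hj
        have h2 : (0 : ℝ) < (K j).card := by exact_mod_cast Kpos j hj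
        have h3 := m0 j
        calc _ ≤ N / (K j).card * (4 * π ^ 2 * (q * (d / (d + 2) * p j ^ 2) * (K j).card)) *
              m j := by gcongr
          _ = N * q * (4 * π ^ 2 * (d / (d + 2) * p j ^ 2)) * m j := by field_simp
          _ = _ := by rw [p2]; ring
      have e2 := SCru_phase hd hq c hN0 hBt hu0 hu0' hD J A Am A1'
        (fun x => by nlinarith [wsum x, sq_nonneg (A (J + 1) x), sq_nonneg (κ' x)])
        (fun j x hx => a3 j _ (left_ne_zero_of_mul hx))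
      rw [← hDdef] at e2
      refine e1.trans ?_
      rw [← Finset.mul_sum]
      calc _ ≤ N * q * Kcl d * (q ^ 12 * N ^ (2 / (d : ℝ)) * D + Bt / (q * Kcl d)) := by gcongr
        _ = _ := by rw [rpow_add hN0, rpow_one]; field_simp
    have e3 : ∑ r, (N * (8 * (8 / (L : ℝ)) ^ 2 + (2 * Cq + 2562) * c.B r) + P r) =
        N * (8 * (d * (8 / (L : ℝ)) ^ 2) + (2 * Cq + 2562) * Bt) + ∑ r, P r := by
      rw [Finset.sum_add_distrib, ← Finset.mul_sum, Finset.sum_add_distrib, ← Finset.mul_sum,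
        ← Finset.mul_sum, ← hBtdef]
      simp
    rw [e3]
    have e4 := mul_le_mul_of_nonneg_left hL3.le hN0.le
    nlinarith

/-- A crude Thomas-Fermi type family for an arbitrary density and a small Bessel constant. -/
theorem crude (hd : 0 < d) : ∃ C : ℝ, 0 < C ∧ ∀ (θ : ℝ) (y : (Fin d → ℝ) → ℝ) (B : Fin d → ℝ),
    0 < θ → Measurable y → (∀ x, 0 ≤ y x) → MemLp y 2 volume → 0 < ∫ x, y x ^ 2 →
    (∀ r, 0 ≤ B r) → DQ y B → Integrable (fun x => (y x ^ 2) ^ (1 + 2 / (d : ℝ))) →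
    ∃ E : Fin d → ℝ, RFam 1 (fun _ => θ) (fun x => y x ^ 2) E ∧
      ∑ r, E r ≤ C * θ ^ (-2 / (d : ℝ)) * (∫ x, (y x ^ 2) ^ (1 + 2 / (d : ℝ))) + C * ∑ r, B r := by
  obtain ⟨C, hC, H⟩ := SCru_ctx hd (q := 2) one_lt_two
  have hK := Kcl_pos hd
  refine ⟨2 ^ 13 * Kcl d + C, by positivity, fun θ y B hθ ym y0 y2 hY B0 hB hD => ?_⟩
  set Y := ∫ x, y x ^ 2 with hYdef
  clear_value Y
  have hs : √Y ^ 2 = Y := sq_sqrt hY.le
  have hs0 : 0 < √Y := sqrt_pos.2 hY
  let u : (Fin d → ℝ) → ℝ := fun x => y x / √Y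
  have um : Measurable u := ym.div_const _
  have u2 : MemLp u 2 volume := by
    have := y2.mul_const (√Y)⁻¹
    simpa only [u, div_eq_mul_inv] using this
  have usq : ∀ x, u x ^ 2 = y x ^ 2 / Y := fun x => by simp only [u]; rw [div_pow, hs]
  have u1 : ∫ x, u x ^ 2 = 1 := by
    simp_rw [usq]; rw [integral_div, ← hYdef, div_self hY.ne']
  have hB' : ∀ r (h : ℝ), 0 < h →
      ∫ x, (u (x + h • Pi.single r (1 : ℝ)) - u x) ^ 2 ≤ h ^ 2 * (B r / Y) := by
    intro r h hh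
    simp only [u]
    simp_rw [← sub_div, div_pow, hs]
    rw [integral_div, ← mul_div_assoc]
    have := hB r h hh
    gcongr
  have B0' : ∀ r, 0 ≤ B r / Y := fun r => div_nonneg (B0 r) hY.le
  let r0 : Fin d := ⟨0, hd⟩
  obtain ⟨F, F1, F2, F3, F4, F5, F6, F7⟩ := exists_cdf r0 um u2 u1 (sqrt_nonneg (B r0 / Y))
    fun h hh => by rw [sq_sqrt (B0' r0)]; exact hB' r0 h hh
  let c : Ctx d := ⟨r0, u, fun r => B r / Y, F, um, fun x => div_nonneg (y0 x) hs0.le, u2, u1, B0',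
    hB', F1, F2, F3, F4, F6, F7⟩
  have hBt : 0 < ∑ r, B r / Y :=
    (sqrt_pos.1 F5).trans_le (Finset.single_le_sum (f := fun r => B r / Y) (fun r _ => B0' r)
      (Finset.mem_univ r0))
  have upow : ∀ x, (u x ^ 2) ^ (1 + 2 / (d : ℝ)) =
      (y x ^ 2) ^ (1 + 2 / (d : ℝ)) / Y ^ (1 + 2 / (d : ℝ)) := fun x => by
    rw [usq, div_rpow (sq_nonneg _) hY.le]
  have hD' : Integrable fun x => (u x ^ 2) ^ (1 + 2 / (d : ℝ)) := by
    simp_rw [upow]; exact hD.div_const _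
  obtain ⟨E, E0, FE, hE⟩ := H c (Y / θ) (by positivity) hBt hD'
  refine ⟨fun r => θ * E r, ⟨fun r => mul_nonneg hθ.le (E0 r), ?_⟩, ?_⟩
  · have := Fam_smul hθ.le FE
    simp only [mul_one] at this
    refine this.mono (fun x => ?_) fun r h _ => le_of_eq (by ring)
    change θ * (Y / θ * u x ^ 2) = _
    rw [usq]; field_simp
  · rw [← Finset.mul_sum]
    have hI : 0 ≤ ∫ x, (y x ^ 2) ^ (1 + 2 / (d : ℝ)) := integral_nonneg fun x => by positivity
    have hS : 0 ≤ ∑ r, B r := Finset.sum_nonneg fun r _ => B0 r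
    change ∑ r, E r ≤ 2 ^ 13 * Kcl d * (Y / θ) ^ (1 + 2 / (d : ℝ)) *
      (∫ x, (u x ^ 2) ^ (1 + 2 / (d : ℝ))) + C * (Y / θ) * ∑ r, B r / Y at hE
    simp_rw [upow] at hE
    rw [integral_div, ← Finset.sum_div, div_rpow hY.le hθ.le] at hE
    set I := ∫ x, (y x ^ 2) ^ (1 + 2 / (d : ℝ))
    have hp : 0 < Y ^ (1 + 2 / (d : ℝ)) := rpow_pos_of_pos hY _
    have ht : 0 < θ ^ (-2 / (d : ℝ)) := rpow_pos_of_pos hθ _
    have e1 : θ ^ (1 + 2 / (d : ℝ)) = θ / θ ^ (-2 / (d : ℝ)) := by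
      rw [neg_div, rpow_neg hθ.le, rpow_add hθ, rpow_one, div_inv_eq_mul]
    rw [e1] at hE
    calc θ * ∑ r, E r ≤ θ * (2 ^ 13 * Kcl d * (Y ^ (1 + 2 / (d : ℝ)) / (θ / θ ^ (-2 / (d : ℝ)))) *
          (I / Y ^ (1 + 2 / (d : ℝ))) + C * (Y / θ) * ((∑ r, B r) / Y)) := by gcongr
      _ = 2 ^ 13 * Kcl d * θ ^ (-2 / (d : ℝ)) * I + C * ∑ r, B r := by field_simp
      _ ≤ _ := by
          have h1 : 0 ≤ C * θ ^ (-2 / (d : ℝ)) * I := by positivity
          have h2 : 0 ≤ 2 ^ 13 * Kcl d * ∑ r, B r := by positivity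
          nlinarith

end Pool.Agent.Lib.MP_ae5e3b_mp.Sh
end

-- part Pool.Agent.Lib.MP_ae5e3b_mp.Small
section

open MeasureTheory Filter Topology ComplexConjugate Real
open scoped ENNReal ContDiff

namespace Pool.Agent.Lib.MP_ae5e3b_mp

/-- The Harriman determinant: a crude bound, used for few particles. -/
theorem main_small {d : ℕ} (c : Ctx d) (n : ℕ) :
    ∃ Ψ : (Fin (n + 1) → Fin d → ℝ) → ℂ, IsState Ψ ∧
      (∀ᵐ x, density Ψ x = ((n : ℝ) + 1) * c.u x ^ 2) ∧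
      kinetic Ψ ≤ ENNReal.ofReal ((1 + 256 * (n : ℝ) ^ 2) * ((n : ℝ) + 1) * ∑ r, c.B r) := by
  classical
  have Fm : Measurable fun x : Fin d → ℝ => c.F (x c.r0) :=
    c.Fcont.measurable.comp (measurable_pi_apply _)
  let φ : ℕ → (Fin d → ℝ) → ℂ := fun k x => (c.u x : ℂ) * ex (2 * π * k * c.F (x c.r0))
  have φm : ∀ k, Measurable (φ k) := fun k =>
    (Complex.measurable_ofReal.comp c.um).mul (continuous_ex.measurable.comp (Fm.const_mul _))
  have φ2 : ∀ k, MemLp (φ k) 2 volume := fun k => memLp_orb c.u2 (Fm.const_mul _)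
  have φo : ∀ k l, ∫ x, conj (φ k x) * φ l x = if k = l then 1 else 0 := by
    intro k l
    have h := c.push (fun y => ex (2 * π * (((l : ℤ) - k : ℤ) : ℝ) * y))
      (continuous_ex.comp (by fun_prop)).measurable
    rw [integral_ex01] at h
    have e : (if (l : ℤ) - k = 0 then (1 : ℂ) else 0) = if k = l then 1 else 0 := by
      by_cases hkl : k = l
      · simp [hkl]
      · rw [if_neg hkl, if_neg (by omega)]
    rw [← e, ← h]
    congr 1; ext x
    simp only [φ, map_mul, Complex.conj_ofReal, conj_ex]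
    have : 2 * π * (((l : ℤ) - k : ℤ) : ℝ) * c.F (x c.r0) =
      -(2 * π * k * c.F (x c.r0)) + 2 * π * l * c.F (x c.r0) := by push_cast; ring
    rw [this, ex_add]; push_cast; ring
  obtain ⟨Ψ, s1, s2, s3, s4, s5⟩ := slater_state (α := Unit) (n := n) φ φm φ2 φo (fun _ => 1)
    (fun _ => zero_le_one) (by simp) (fun _ j => (j : ℕ)) (fun _ => Fin.val_injective)
    (fun _ _ _ _ => rfl)
  refine ⟨Ψ, ⟨s1, s2, fun i j hij => Eventually.of_forall (s3 i j hij)⟩,
    Eventually.of_forall fun x => ?_, ?_⟩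
  · unfold density
    rw [s4]
    simp [φ, norm_ex]
  · rw [Finset.mul_sum]
    refine kinetic_le s1 _ (fun r => by have := c.B0 r; positivity) fun i r h hh => ?_
    rw [s5]
    simp only [Finset.univ_unique, Finset.sum_singleton, one_mul]
    have hB := c.B0 r
    calc _ ≤ ∑ j : Fin (n + 1), h ^ 2 * ((1 + 256 * (n : ℝ) ^ 2) * c.B r) := by
          refine Finset.sum_le_sum fun j _ => ?_
          refine (orb_energy c.u2 (Fm.const_mul _) _ (c.phase_F j r hh)).trans ?_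
          have h1 := c.hB r h hh
          have hj : ((j : ℕ) : ℝ) ≤ n := by exact_mod_cast Nat.lt_succ_iff.1 j.2
          have h2 : (h * (16 * ((j : ℕ) : ℝ) * √(c.B r))) ^ 2 ≤ h ^ 2 * (256 * n ^ 2 * c.B r) := by
            rw [mul_pow, mul_pow, mul_pow, sq_sqrt hB]
            gcongr
            norm_num
          rw [c.u1]
          linarith
      _ = _ := by
          simp only [Finset.sum_const, Finset.card_univ, Fintype.card_fin, nsmul_eq_mul]
          push_cast; ring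

/-- The bound for every particle number. -/
theorem main_all {d : ℕ} (hd : 0 < d) {ε : ℝ} (hε : 0 < ε) :
    ∃ C : ℝ, 0 < C ∧ ∀ (c : Ctx d) (n : ℕ), 0 < ∑ r, c.B r →
      Integrable (fun x => (c.u x ^ 2) ^ (1 + 2 / (d : ℝ))) →
      ∃ Ψ : (Fin (n + 1) → Fin d → ℝ) → ℂ, IsState Ψ ∧
        (∀ᵐ x, density Ψ x = ((n : ℝ) + 1) * c.u x ^ 2) ∧
        kinetic Ψ ≤ ENNReal.ofReal ((1 + ε) * Kcl d * ((n : ℝ) + 1) ^ (1 + 2 / (d : ℝ)) *
          (∫ x, (c.u x ^ 2) ^ (1 + 2 / (d : ℝ))) + C * ((n : ℝ) + 1) * ∑ r, c.B r) := by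
  obtain ⟨q, hq, hq2, hq3⟩ : ∃ q : ℝ, 1 < q ∧ q ≤ 2 ∧ q ^ 13 ≤ 1 + ε := by
    have h1 : Tendsto (fun q : ℝ => q ^ 13) (𝓝[>] 1) (𝓝 (1 ^ 13)) :=
      ((continuous_pow 13).tendsto 1).mono_left nhdsWithin_le_nhds
    have h2 : ∀ᶠ q : ℝ in 𝓝[>] 1, q ^ 13 < 1 + ε := h1.eventually (gt_mem_nhds (by simpa using hε))
    have h3 : ∀ᶠ q : ℝ in 𝓝[>] 1, q < 2 :=
      nhdsWithin_le_nhds (gt_mem_nhds (by norm_num : (1 : ℝ) < 2))
    obtain ⟨q, ⟨a1, a2⟩, a3⟩ := ((h2.and h3).and self_mem_nhdsWithin).exists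
    exact ⟨q, a3, a2.le, a1.le⟩
  obtain ⟨C, hC, h⟩ := main_large hd hq hq2
  refine ⟨C + 5000, by positivity, fun c n hB hD => ?_⟩
  have hK := Kcl_pos hd
  have hD0 : 0 ≤ ∫ x, (c.u x ^ 2) ^ (1 + 2 / (d : ℝ)) := integral_nonneg fun x => by positivity
  rcases le_or_gt 5 n with hn | hn
  · obtain ⟨Ψ, s1, s2, s3⟩ := h c n hn hB hD
    refine ⟨Ψ, s1, s2, s3.trans (ENNReal.ofReal_le_ofReal ?_)⟩
    gcongr
    linarith
  · obtain ⟨Ψ, s1, s2, s3⟩ := main_small c n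
    refine ⟨Ψ, s1, s2, s3.trans (ENNReal.ofReal_le_ofReal ?_)⟩
    have h4 : (n : ℝ) ≤ 4 := by exact_mod_cast Nat.lt_succ_iff.1 hn
    have h5 : 1 + 256 * (n : ℝ) ^ 2 ≤ C + 5000 := by nlinarith [Nat.cast_nonneg (α := ℝ) n]
    refine le_add_of_nonneg_of_le (by positivity) ?_
    gcongr

end Pool.Agent.Lib.MP_ae5e3b_mp
end

-- part Pool.Agent.Lib.MP_ae5e3b_mp.SPur
section

open MeasureTheory Matrix Real
open scoped ComplexConjugate ComplexOrder

set_option linter.unusedSectionVars false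

namespace Pool.Agent.Lib.MP_ae5e3b_mp.Sh

/-- The tail family with Bessel constant one. -/
lemma SPur_famT {d : ℕ} (c : Ctx d) {N : ℝ} (hN : 12 ≤ N) :
    Fam 1 (c.lab (12 / N)) (fun x => betf (c.zeta (12 / N) x) ^ 2)
      (fun x => N * (c.u x * betf (c.zeta (12 / N) x)) ^ 2)
      (fun r h => h ^ 2 * (2400000 * N * c.B r)) := by
  set τ := 12 / N with hτdef
  have hN0 : 0 < N := by linarith
  have hτ : 0 < τ := by positivity
  have hτ1 : τ ≤ 1 := (div_le_one hN0).2 hN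
  have hc : √(N / 24) ^ 2 = N / 24 := sq_sqrt (by positivity)
  have Um : MeasurableSet {x : Fin d → ℝ | c.F (x c.r0) < 2 * τ} :=
    measurableSet_lt c.Fm measurable_const
  refine (Fam.sector (T := Fin 24) (by linarith) c.um c.u2 (c.bet_m τ)
    (fun _ => abs_cos_le_one _) √(N / 24) (fun k x => 4 * π * (k : ℕ) * c.zeta τ x)
    (fun k => (c.zeta_m τ).const_mul _) Um ?_ ?_ (fun k r => 16 * (k : ℕ) * √(8 * c.B r / τ))
    (fun k r h hh x => c.phase_zeta hτ k r hh x) (fun a k => c.lab_bet hτ hτ1 a k)).mono ?_ ?_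
  · intro x hx
    by_contra h
    exact hx (by rw [c.zeta_two hτ (not_lt.1 h), betf_two])
  · intro cf
    let g : ℝ → ℝ := fun y => ‖∑ k : Fin 24, cf k *
      ex (2 * π * ((4 * (k : ℕ) : ℤ) : ℝ) * y / (2 * τ))‖ ^ 2
    have gc : Continuous g := by
      have := continuous_ex
      simp only [g]; fun_prop
    have b := bessel_1d (fun k : Fin 24 => (4 * (k : ℕ) : ℤ))
      (fun k l h => Fin.ext (by simpa using h)) 0 (by positivity : 0 < 2 * τ) cf
    have e1 : ∫ x in {x : Fin d → ℝ | c.F (x c.r0) < 2 * τ},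
        c.u x ^ 2 * ‖∑ k : Fin 24, cf k * ex (4 * π * (k : ℕ) * c.zeta τ x)‖ ^ 2 =
        ∫ y in Set.Icc (0 : ℝ) 1, (Set.Iio (2 * τ)).indicator g y := by
      rw [← c.push_real _ (gc.measurable.indicator measurableSet_Iio), ← integral_indicator Um]
      congr 1; ext x
      by_cases hx : c.F (x c.r0) < 2 * τ
      · simp only [Set.indicator, Set.mem_ofPred_eq, hx, if_true, Set.mem_Iio, g]
        congr 3
        refine Finset.sum_congr rfl fun k _ => ?_
        congr 2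
        unfold Ctx.zeta
        rw [min_eq_left hx.le]; push_cast; field_simp
      · simp [Set.indicator, hx]
    rw [e1, hc, integral_indicator measurableSet_Iio,
      Measure.restrict_restrict measurableSet_Iio]
    have e2 : ∫ y in Set.Iio (2 * τ) ∩ Set.Icc 0 1, g y ≤ ∫ y in Set.Icc 0 (0 + 2 * τ), g y := by
      refine setIntegral_mono_set gc.integrableOn_Icc
        (Filter.Eventually.of_forall fun y => by simp only [g]; positivity) ?_
      refine LE.le.eventuallyLE fun y hy => ⟨hy.2.1, ?_⟩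
      rw [zero_add]; exact le_of_lt hy.1
    calc _ ≤ N / 24 * (2 * τ * ∑ k, ‖cf k‖ ^ 2) := by
          gcongr; exact e2.trans (le_of_eq b)
      _ = 1 * ∑ k, ‖cf k‖ ^ 2 := by rw [hτdef]; field_simp; ring
  · intro x; rw [hc]; simp
  · intro r h hh
    have hB := c.B0 r
    have h1 := c.amp_bound1 hτ (c.bet_m τ) (fun _ => abs_cos_le_one _) r hh (b := 0)
      (fun x => by simpa using betf_lip _ _)
    have h2 := c.tail_mass hτ (g := betf) (fun _ => abs_cos_le_one _) betf_two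
    have h3 : ∑ k : Fin 24, (16 * (k : ℕ) * √(8 * c.B r / τ)) ^ 2 ≤
        24 * ((16 * 24) ^ 2 * (8 * c.B r / τ)) := by
      calc _ ≤ ∑ k : Fin 24, ((16 * 24) ^ 2 * (8 * c.B r / τ)) := by
            refine Finset.sum_le_sum fun k _ => ?_
            rw [mul_pow _ √_, sq_sqrt (by positivity)]
            have : ((k : ℕ) : ℝ) ≤ 24 := by exact_mod_cast k.2.le
            gcongr
        _ = _ := by simp
    rw [hc, Fintype.card_fin]
    calc _ ≤ N / 24 * (24 : ℕ) * (h ^ 2 * (4 * 0 ^ 2 + 1026 * c.B r)) +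
          h ^ 2 * (N / 24 * (24 * ((16 * 24) ^ 2 * (8 * c.B r / τ))) * (2 * τ)) := by gcongr
      _ = h ^ 2 * (2360322 * N * c.B r) := by push_cast; field_simp; ring
      _ ≤ _ := by gcongr; norm_num

lemma SPur_gam_nonpos (z : ℝ) : gamf z ≤ 0 := by
  unfold gamf
  have h1 : 1 ≤ max 1 (min z (3 / 2 : ℝ)) := le_max_left _ _
  have h2 : max 1 (min z (3 / 2 : ℝ)) ≤ 3 / 2 := max_le (by norm_num) (min_le_right _ _)
  generalize max 1 (min z (3 / 2 : ℝ)) = t at h1 h2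
  have e : π * t = π * (t - 1) + π := by ring
  rw [e, sin_add_pi, neg_nonpos]
  have := pi_pos
  exact sin_nonneg_of_nonneg_of_le_pi (mul_nonneg this.le (by linarith)) (by nlinarith)

/-- The given family cut off from the label region. -/
lemma SPur_famG {d : ℕ} (c : Ctx d) {N τ : ℝ} (hN : 0 ≤ N) (hτ : 0 < τ) {E : Fin d → ℝ}
    (h : RFam 1 (fun _ => 1) (fun x => N * c.u x ^ 2) E) :
    Fam 1 (c.lab τ) (fun x => gamf (c.zeta τ x) ^ 2)
      (fun x => N * (c.u x * gamf (c.zeta τ x)) ^ 2)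
      (fun r h => h ^ 2 * (E r + 1026 * N * c.B r)) := by
  obtain ⟨hE, hF⟩ := h
  have hs : √N ^ 2 = N := sq_sqrt hN
  have F0 : Fam 1 (fun _ _ => 0) (fun _ => 1) (fun x => (√N * c.u x) ^ 2)
      (fun r h => h ^ 2 * E r) :=
    hF.mono (fun x => by rw [mul_pow, hs]) fun _ _ _ => le_rfl
  have F1 := Fam_mul (lab := c.lab τ) (m := fun x => √N * c.u x)
    (a := fun x => -gamf (c.zeta τ x)) zero_le_one (c.um.const_mul _)
    (fun x => mul_nonneg (sqrt_nonneg _) (c.u0 x)) (c.gam_m τ).neg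
    (fun x => neg_nonneg.2 (SPur_gam_nonpos _))
    (fun x => (neg_le_abs _).trans (abs_sin_le_one _)) F0
    (fun n x => by
      have h : ((lamf (c.zeta τ x) : ℝ) : ℂ) * (gamf (c.zeta τ x) : ℝ) = 0 := by
        exact_mod_cast lam_gam _
      simp only [Ctx.lab]
      push_cast
      linear_combination (-((√(2 / τ) : ℝ) : ℂ) * c.u x * ex (4 * π * n * c.zeta τ x)) * h)
    (fun r t _ => mul_nonneg (sq_nonneg _) (hE r))
  simp only [neg_sq] at F1
  refine F1.mono (fun x => ?_) fun r h hh => ?_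
  · rw [neg_mul, neg_sq, mul_pow, mul_pow, hs]; ring
  · have h1 := c.amp_bound1 hτ (c.gam_m τ) (fun _ => abs_sin_le_one _) r hh (b := 0)
      (fun x => by simpa using gamf_lip _ _)
    have e : ∀ x, (-gamf (c.zeta τ (x + h • Pi.single r (1 : ℝ))) *
        (√N * c.u (x + h • Pi.single r (1 : ℝ))) - -gamf (c.zeta τ x) * (√N * c.u x)) ^ 2 =
        N * (c.u (x + h • Pi.single r (1 : ℝ)) * gamf (c.zeta τ (x + h • Pi.single r (1 : ℝ))) -
          c.u x * gamf (c.zeta τ x)) ^ 2 := by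
      intro x
      generalize c.u (x + h • Pi.single r (1 : ℝ)) = p
      generalize gamf (c.zeta τ (x + h • Pi.single r (1 : ℝ))) = q
      generalize c.u x = p'
      generalize gamf (c.zeta τ x) = q'
      linear_combination (p * q - p' * q') ^ 2 * hs
    simp only [e]
    rw [integral_const_mul]
    have := mul_le_mul_of_nonneg_left h1 hN
    linarith

/-- From a one-body density matrix to a pure state. -/
theorem purify (d : ℕ) : ∃ C : ℝ, 0 < C ∧ ∀ (c : Ctx d) (n : ℕ) (E : Fin d → ℝ),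
    RFam 1 (fun _ => 1) (fun x => ((n : ℝ) + 1) * c.u x ^ 2) E →
    ∃ Ψ : (Fin (n + 1) → Fin d → ℝ) → ℂ, IsState Ψ ∧
      (∀ᵐ x, density Ψ x = ((n : ℝ) + 1) * c.u x ^ 2) ∧
      kinetic Ψ ≤ ENNReal.ofReal (∑ r, E r + C * ((n : ℝ) + 1) * ∑ r, c.B r) := by
  classical
  obtain ⟨A, hA⟩ := assemble2
  obtain ⟨K, hK⟩ : ∃ K : ℝ, K = 2052 + 8192 * (A : ℝ) ^ 2 := ⟨_, rfl⟩
  have hK0 : 0 ≤ K := by rw [hK]; positivity
  refine ⟨2500000 + K, by positivity, fun c n E hE => ?_⟩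
  have hBt : 0 ≤ ∑ r, c.B r := Finset.sum_nonneg fun r _ => c.B0 r
  have hEt : 0 ≤ ∑ r, E r := Finset.sum_nonneg fun r _ => hE.1 r
  rcases lt_or_ge n 11 with hn | hn
  · obtain ⟨Ψ, s1, s2, s3⟩ := main_small c n
    refine ⟨Ψ, s1, s2, s3.trans (ENNReal.ofReal_le_ofReal ?_)⟩
    have h1 : (n : ℝ) ≤ 11 := by exact_mod_cast hn.le
    have h2 : 1 + 256 * (n : ℝ) ^ 2 ≤ 2500000 + K := by
      have : (n : ℝ) ^ 2 ≤ 11 ^ 2 := by gcongr
      linarith
    calc _ ≤ (2500000 + K) * ((n : ℝ) + 1) * ∑ r, c.B r := by gcongr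
      _ ≤ _ := le_add_of_nonneg_left hEt
  obtain ⟨N, hN⟩ : ∃ N : ℝ, N = (n : ℝ) + 1 := ⟨_, rfl⟩
  rw [← hN] at hE ⊢
  have hN12 : 12 ≤ N := by
    have : (11 : ℝ) ≤ n := by exact_mod_cast hn
    linarith
  have hN0 : 0 < N := by linarith
  obtain ⟨τ, hτdef⟩ : ∃ τ, τ = 12 / N := ⟨_, rfl⟩
  have hτ : 0 < τ := by rw [hτdef]; positivity
  have hτ1 : τ ≤ 1 := by rw [hτdef]; exact (div_le_one hN0).2 hN12
  have FG := SPur_famG c hN0.le hτ hE
  have FB := SPur_famT c hN12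
  rw [← hτdef] at FB
  obtain ⟨ι, _, v, vm, v2, vb, vρ, vE, vo⟩ := FG.add FB
  have hbes : ∀ χ : (Fin d → ℝ) → ℂ, MemLp χ 2 volume →
      ∑ i, ‖∫ x, conj (v i x) * χ x‖ ^ 2 ≤ 1 * ∫ x, ‖χ x‖ ^ 2 := by
    intro χ hχ
    obtain ⟨b1, b2⟩ := vb χ hχ
    refine b2.trans ?_
    refine mul_le_mul_of_nonneg_left (integral_mono b1 (integrable_normsq hχ) fun x => ?_)
      zero_le_one
    refine mul_le_of_le_one_left (by positivity) ?_
    beta_reduce
    nlinarith [lam_bet_gam (c.zeta τ x), sq_nonneg (lamf (c.zeta τ x))]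
  have hρ : ∀ x, ∑ i, ‖v i x‖ ^ 2 + 6 * (2 / τ * (c.u x * lamf (c.zeta τ x)) ^ 2) =
      N * c.u x ^ 2 := by
    intro x
    rw [vρ]
    have h2 := lam_bet_gam (c.zeta τ x)
    have h3 : 6 * (2 / τ) = N := by rw [hτdef]; field_simp; norm_num
    rw [← mul_assoc 6, h3]
    linear_combination (N * c.u x ^ 2) * h2
  have hEv : ∀ r (h : ℝ), 0 < h →
      ∑ i, ∫ x, ‖v i (x + h • Pi.single r (1 : ℝ)) - v i x‖ ^ 2 ≤
        h ^ 2 * (E r + 2401026 * N * c.B r) := by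
    intro r h hh
    refine (vE r h hh).trans (le_of_eq ?_)
    ring
  have hint : ∫ x, N * c.u x ^ 2 = (n : ℝ) + 1 := by
    rw [integral_const_mul, c.u1, mul_one, hN]
  have hEv0 : ∀ r, 0 ≤ E r + 2401026 * N * c.B r := fun r =>
    add_nonneg (hE.1 r) (by have := c.B0 r; positivity)
  have hEl0 : ∀ r, 0 ≤ K * c.B r / τ := fun r => by have := c.B0 r; positivity
  have hEl : ∀ a < A, ∀ r (h : ℝ), 0 < h →
      ∫ x, ‖c.lab τ a (x + h • Pi.single r (1 : ℝ)) - c.lab τ a x‖ ^ 2 ≤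
        h ^ 2 * (K * c.B r / τ) :=
    fun a ha r h hh => hK ▸ c.lab_energy hτ ha r hh
  have hbes' : ∀ cf : ι → ℂ, ∫ x, ‖∑ i, cf i * v i x‖ ^ 2 ≤ ∑ i, ‖cf i‖ ^ 2 := fun cf => by
    simpa only [one_mul] using primal_of_dual v2 zero_le_one hbes cf
  obtain ⟨Ψ, s1, s2, s3⟩ := hA d n ι (by omega) v vm v2 hbes'
    (c.lab τ) (c.lab_m τ) (c.lab_memLp τ) (c.lab_on hτ hτ1) vo
    (fun x => 2 / τ * (c.u x * lamf (c.zeta τ x)) ^ 2) (c.lab_normsq hτ)
    (fun x => N * c.u x ^ 2) hρ hint _ _ hEv0 hEl0 hEv hEl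
  refine ⟨Ψ, s1, s2, s3.trans (ENNReal.ofReal_le_ofReal ?_)⟩
  have e : ∑ r, (E r + 2401026 * N * c.B r + 10 * (K * c.B r / τ)) =
      ∑ r, E r + (2401026 + 5 / 6 * K) * N * ∑ r, c.B r := by
    rw [Finset.mul_sum, ← Finset.sum_add_distrib]
    refine Finset.sum_congr rfl fun r _ => ?_
    rw [hτdef]; field_simp; ring
  rw [e]
  have : 2401026 + 5 / 6 * K ≤ 2500000 + K := by linarith
  gcongr

end Pool.Agent.Lib.MP_ae5e3b_mp.Sh
end
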