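import Pool.Agent.Lib.MP_ae5e3b_mp.SDefs
import Pool.Agent.Lib.MP_ae5e3b_mp.Sampling

-- part Pool.Agent.Lib.MP_ae5e3b_mp.SMo
section

open MeasureTheory Matrix Real
open scoped ComplexConjugate ComplexOrder

set_option linter.unusedSectionVars false
set_option linter.unusedVariables false

namespace Pool.Agent.Lib.MP_ae5e3b_mp.Sh

variable {d : ℕ}

lemma GrR_nonneg (g : (Fin d → ℝ) → ℝ) : 0 ≤ GrR g :=
  Finset.sum_nonneg fun _ _ => integral_nonneg fun _ => sq_nonneg _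

lemma SMo_cs {a : ℝ → ℝ} (ha : Continuous a) {h : ℝ} (hh : 0 < h) :
    (∫ t in (0 : ℝ)..h, a t) ^ 2 ≤ h * ∫ t in (0 : ℝ)..h, a t ^ 2 := by
  obtain ⟨I, hI⟩ : ∃ I, I = ∫ t in (0 : ℝ)..h, a t := ⟨_, rfl⟩
  obtain ⟨J, hJ⟩ : ∃ J, J = ∫ t in (0 : ℝ)..h, a t ^ 2 := ⟨_, rfl⟩
  have h0 : 0 ≤ ∫ t in (0 : ℝ)..h, (h * a t - I) ^ 2 :=
    intervalIntegral.integral_nonneg hh.le fun t _ => sq_nonneg _
  have e : ∀ t, (h * a t - I) ^ 2 = h ^ 2 * a t ^ 2 - 2 * h * I * a t + I ^ 2 := fun t => by ring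
  simp_rw [e] at h0
  rw [intervalIntegral.integral_add (Continuous.intervalIntegrable (by fun_prop) _ _)
      (Continuous.intervalIntegrable (by fun_prop) _ _),
    intervalIntegral.integral_sub (Continuous.intervalIntegrable (by fun_prop) _ _)
      (Continuous.intervalIntegrable (by fun_prop) _ _),
    intervalIntegral.integral_const_mul, intervalIntegral.integral_const_mul,
    intervalIntegral.integral_const, ← hI, ← hJ] at h0
  rw [← hI, ← hJ]
  simp only [sub_zero, smul_eq_mul] at h0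
  have : 0 ≤ h * (h * J - I ^ 2) := by nlinarith
  have := nonneg_of_mul_nonneg_right this hh
  linarith

/-- Difference quotients of a differentiable function with compact support. -/
lemma diff_le_fderiv {E : Type} [NormedAddCommGroup E] [NormedSpace ℝ E] [CompleteSpace E]
    {g : (Fin d → ℝ) → E} (r : Fin d) {g' : (Fin d → ℝ) → E} (hc : Continuous g)
    (hc' : Continuous g') (hs : HasCompactSupport g) (hs' : HasCompactSupport g')
    (hd : ∀ y, HasDerivAt (fun t : ℝ => g (y + t • Pi.single r (1 : ℝ))) (g' y) 0)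
    (h : ℝ) (hh : 0 < h) :
    ∫ x, ‖g (x + h • Pi.single r (1 : ℝ)) - g x‖ ^ 2 ≤ h ^ 2 * ∫ x, ‖g' x‖ ^ 2 := by
  obtain ⟨e, he⟩ : ∃ e : Fin d → ℝ, e = Pi.single r (1 : ℝ) := ⟨_, rfl⟩
  rw [← he] at hd ⊢
  have hd' : ∀ x (t : ℝ), HasDerivAt (fun t : ℝ => g (x + t • e)) (g' (x + t • e)) t := by
    intro x t
    have h1 := hd (x + t • e)
    have h2 : HasDerivAt (fun s : ℝ => g (x + t • e + s • e)) (g' (x + t • e)) (t - t) := by
      rw [sub_self]; exact h1
    have h3 := h2.comp_sub_const t t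
    refine h3.congr_of_eventuallyEq (Filter.Eventually.of_forall fun s => ?_)
    show g (x + s • e) = g (x + t • e + (s - t) • e)
    rw [add_assoc, ← add_smul, add_sub_cancel]
  have pt : ∀ x, ‖g (x + h • e) - g x‖ ^ 2 ≤ h * ∫ t in Set.Ioc 0 h, ‖g' (x + t • e)‖ ^ 2 := by
    intro x
    have c1 : Continuous fun t : ℝ => g' (x + t • e) := by fun_prop
    have h1 := intervalIntegral.integral_eq_sub_of_hasDerivAt (a := 0) (b := h)
      (fun t _ => hd' x t) (c1.intervalIntegrable _ _)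
    rw [zero_smul, add_zero] at h1
    rw [← h1, ← intervalIntegral.integral_of_le hh.le]
    refine le_trans ?_ (SMo_cs c1.norm hh)
    exact pow_le_pow_left₀ (norm_nonneg _) (intervalIntegral.norm_integral_le_integral_norm hh.le) 2
  have G0 : Integrable fun x => ‖g' x‖ ^ 2 := by
    have g2 : MemLp g' 2 volume := hc'.memLp_of_hasCompactSupport hs'
    exact (memLp_two_iff_integrable_sq_norm g2.1).1 g2
  have Gs : ∀ t : ℝ, ∫ x, ‖g' (x + t • e)‖ ^ 2 = ∫ x, ‖g' x‖ ^ 2 := fun t =>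
    integral_add_right_eq_self (fun x => ‖g' x‖ ^ 2) (t • e)
  have GI : Integrable (Function.uncurry fun (x : Fin d → ℝ) (t : ℝ) => ‖g' (x + t • e)‖ ^ 2)
      (volume.prod (volume.restrict (Set.Ioc 0 h))) := by
    have cc : Continuous (Function.uncurry fun (x : Fin d → ℝ) (t : ℝ) => ‖g' (x + t • e)‖ ^ 2) := by
      unfold Function.uncurry
      fun_prop
    rw [integrable_prod_iff' cc.aestronglyMeasurable]
    refine ⟨Filter.Eventually.of_forall fun t => G0.comp_add_right (t • e), ?_⟩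
    have : ∀ t : ℝ, ∫ x, ‖Function.uncurry (fun (x : Fin d → ℝ) (t : ℝ) => ‖g' (x + t • e)‖ ^ 2)
        (x, t)‖ = ∫ x, ‖g' x‖ ^ 2 := by
      intro t
      rw [← Gs t]
      congr 1; ext x
      simp [Function.uncurry]
    simp_rw [this]
    exact integrable_const _
  calc _ ≤ ∫ x, h * ∫ t in Set.Ioc 0 h, ‖g' (x + t • e)‖ ^ 2 :=
        integral_mono_of_nonneg (Filter.Eventually.of_forall fun x => sq_nonneg _)
          (GI.integral_prod_left.const_mul h) (Filter.Eventually.of_forall pt)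
    _ = _ := by
        rw [integral_const_mul, integral_integral_swap GI]
        simp_rw [Gs]
        rw [integral_const]
        simp only [MeasurableSet.univ, measureReal_restrict_apply, Set.univ_inter, smul_eq_mul]
        rw [Real.volume_real_Ioc_of_le hh.le]
        ring

lemma SMo_deriv {g : (Fin d → ℝ) → ℝ} (hg : ContDiff ℝ 1 g) (e y : Fin d → ℝ) :
    HasDerivAt (fun t : ℝ => g (y + t • e)) (fderiv ℝ g y e) 0 := by
  have h1 : HasDerivAt (fun t : ℝ => y + t • e) e 0 := by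
    simpa using ((hasDerivAt_id (0 : ℝ)).smul_const e).const_add y
  have h2 : HasFDerivAt g (fderiv ℝ g y) (y + (0 : ℝ) • e) := by
    rw [zero_smul, add_zero]
    exact (hg.differentiable one_ne_zero y).hasFDerivAt
  exact h2.comp_hasDerivAt (0 : ℝ) h1

lemma SMo_cont {g : (Fin d → ℝ) → ℝ} (hg : ContDiff ℝ 1 g) (e : Fin d → ℝ) :
    Continuous fun y => fderiv ℝ g y e :=
  (hg.continuous_fderiv one_ne_zero).clm_apply continuous_const

lemma SMo_supp {g : (Fin d → ℝ) → ℝ} (hs : HasCompactSupport g) (e : Fin d → ℝ) :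
    HasCompactSupport fun y => fderiv ℝ g y e :=
  (hs.fderiv (𝕜 := ℝ)).comp_left (g := fun L : (Fin d → ℝ) →L[ℝ] ℝ => L e) (by simp)

lemma DQ_of_contDiff {g : (Fin d → ℝ) → ℝ} (hg : ContDiff ℝ 1 g) (hs : HasCompactSupport g) :
    DQ g fun r => ∫ x, (fderiv ℝ g x (Pi.single r 1)) ^ 2 := by
  intro r h hh
  have := diff_le_fderiv r hg.continuous (SMo_cont hg (Pi.single r 1)) hs (SMo_supp hs _)
    (SMo_deriv hg _) h hh
  simpa only [Real.norm_eq_abs, sq_abs] using this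

lemma SMo_int {g : (Fin d → ℝ) → ℝ} (hg : MemLp g 2 volume) (w : Fin d → ℝ) :
    Integrable fun x => (g (x + w) - g x) ^ 2 :=
  MemLp.integrable_sq ((hg.comp_measurePreserving (measurePreserving_add_right volume w)).sub hg)

lemma GrR_le_of_DQ {g : (Fin d → ℝ) → ℝ} (hg : ContDiff ℝ 1 g) (hs : HasCompactSupport g)
    {B : Fin d → ℝ} (h : DQ g B) : GrR g ≤ ∑ r, B r := by
  refine Finset.sum_le_sum fun r _ => ?_
  have hr := h r
  obtain ⟨e, he⟩ : ∃ e : Fin d → ℝ, e = Pi.single r (1 : ℝ) := ⟨_, rfl⟩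
  rw [← he] at hr ⊢
  have gc := hg.continuous
  have g2 : MemLp g 2 volume := gc.memLp_of_hasCompactSupport hs
  have B0 : 0 ≤ B r := by
    have h1 := hr 1 one_pos
    rw [one_pow, one_mul] at h1
    exact (integral_nonneg fun x => sq_nonneg _).trans h1
  let s : ℕ → ℝ := fun n => 1 / ((n : ℝ) + 1)
  have s0 : ∀ n, 0 < s n := fun n => by positivity
  have st : Filter.Tendsto s Filter.atTop (nhdsWithin 0 {0}ᶜ) :=
    tendsto_nhdsWithin_iff.2 ⟨tendsto_one_div_add_atTop_nhds_zero_nat,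
      Filter.Eventually.of_forall fun n => (s0 n).ne'⟩
  let f : ℕ → (Fin d → ℝ) → ℝ := fun n x => (s n ^ 2)⁻¹ * (g (x + s n • e) - g x) ^ 2
  have fi : ∀ n, Integrable (f n) := fun n => (SMo_int g2 _).const_mul _
  have f0 : ∀ n x, 0 ≤ f n x := fun n x => by positivity
  have fB : ∀ n, ∫ x, f n x ≤ B r := fun n => by
    simp only [f]
    rw [integral_const_mul, inv_mul_le_iff₀ (pow_pos (s0 n) 2)]
    exact hr _ (s0 n)
  have ft : ∀ x, Filter.Tendsto (fun n => ENNReal.ofReal (f n x)) Filter.atTop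
      (nhds (ENNReal.ofReal ((fderiv ℝ g x e) ^ 2))) := by
    intro x
    refine ENNReal.tendsto_ofReal ?_
    have h1 := ((SMo_deriv hg e x).tendsto_slope_zero.comp st).pow 2
    refine h1.congr fun n => ?_
    simp only [Function.comp, zero_add, zero_smul, add_zero, smul_eq_mul, f]
    ring
  have I0 : Integrable fun x => (fderiv ℝ g x e) ^ 2 :=
    MemLp.integrable_sq ((SMo_cont hg e).memLp_of_hasCompactSupport (SMo_supp hs e))
  rw [← ENNReal.ofReal_le_ofReal_iff B0, ofReal_integral_eq_lintegral_ofReal I0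
    (Filter.Eventually.of_forall fun x => sq_nonneg _)]
  calc _ = ∫⁻ x, Filter.liminf (fun n => ENNReal.ofReal (f n x)) Filter.atTop := by
        congr 1; ext x; exact (ft x).liminf_eq.symm
    _ ≤ Filter.liminf (fun n => ∫⁻ x, ENNReal.ofReal (f n x)) Filter.atTop :=
        lintegral_liminf_le fun n => by
          have : Continuous (f n) := by simp only [f]; fun_prop
          exact this.measurable.ennreal_ofReal
    _ ≤ _ := by
        refine Filter.liminf_le_of_frequently_le' (Filter.Frequently.of_forall fun n => ?_)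
        rw [← ofReal_integral_eq_lintegral_ofReal (fi n) (Filter.Eventually.of_forall (f0 n))]
        exact ENNReal.ofReal_le_ofReal (fB n)

lemma DQ.add {g h : (Fin d → ℝ) → ℝ} (hg : MemLp g 2 volume) (hh : MemLp h 2 volume)
    {B B' : Fin d → ℝ} (h1 : DQ g B) (h2 : DQ h B') :
    DQ (fun x => g x + h x) fun r => 2 * B r + 2 * B' r := by
  intro r t ht
  have a := h1 r t ht
  have b := h2 r t ht
  obtain ⟨w, hw⟩ : ∃ w : Fin d → ℝ, w = t • Pi.single r (1 : ℝ) := ⟨_, rfl⟩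
  rw [← hw] at a b ⊢
  calc _ ≤ ∫ x, (2 * (g (x + w) - g x) ^ 2 + 2 * (h (x + w) - h x) ^ 2) :=
        integral_mono_of_nonneg (Filter.Eventually.of_forall fun x => sq_nonneg _)
          (((SMo_int hg w).const_mul 2).add ((SMo_int hh w).const_mul 2))
          (Filter.Eventually.of_forall fun x => by
            show (g (x + w) + h (x + w) - (g x + h x)) ^ 2 ≤
              2 * (g (x + w) - g x) ^ 2 + 2 * (h (x + w) - h x) ^ 2
            nlinarith [sq_nonneg (g (x + w) - g x - (h (x + w) - h x))])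
    _ ≤ _ := by
        rw [integral_add ((SMo_int hg w).const_mul 2) ((SMo_int hh w).const_mul 2),
          integral_const_mul, integral_const_mul]
        show _ ≤ t ^ 2 * (2 * B r + 2 * B' r)
        linarith

lemma DQ.neg {g : (Fin d → ℝ) → ℝ} {B : Fin d → ℝ} (h1 : DQ g B) : DQ (fun x => -g x) B := by
  intro r t ht
  refine le_trans (le_of_eq ?_) (h1 r t ht)
  congr 1; ext x; ring

lemma DQ.mono {g : (Fin d → ℝ) → ℝ} {B B' : Fin d → ℝ} (h1 : DQ g B) (h : ∀ r, B r ≤ B' r) :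
    DQ g B' := fun r t ht =>
  (h1 r t ht).trans (mul_le_mul_of_nonneg_left (h r) (sq_nonneg _))

end Pool.Agent.Lib.MP_ae5e3b_mp.Sh
end

-- part Pool.Agent.Lib.MP_ae5e3b_mp.Trig
section

open MeasureTheory Filter Topology ComplexConjugate Real
open scoped ENNReal ContDiff

set_option linter.unusedSectionVars false

namespace Pool.Agent.Lib.MP_ae5e3b_mp

lemma integral_ex (a : ℝ) {P : ℝ} (hP : 0 < P) (m : ℤ) :
    ∫ y in Set.Icc a (a + P), ex (2 * π * m * y / P) = if m = 0 then (P : ℂ) else 0 := by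
  rw [integral_Icc_eq_integral_Ioc, ← intervalIntegral.integral_of_le (by linarith)]
  split_ifs with hm
  · subst hm; simp [ex]
  · have hc : (2 * π * m / P * Complex.I : ℂ) ≠ 0 := by
      have : (m : ℂ) ≠ 0 := by exact_mod_cast hm
      have : (π : ℂ) ≠ 0 := by exact_mod_cast pi_ne_zero
      have : (P : ℂ) ≠ 0 := by exact_mod_cast hP.ne'
      simp [*]
    have e : ∀ y : ℝ, ex (2 * π * m * y / P) = Complex.exp ((2 * π * m / P * Complex.I) * y) := by
      intro y; unfold ex; congr 1; push_cast; ring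
    simp_rw [e]
    rw [integral_exp_mul_complex hc]
    have hP' : (P : ℂ) ≠ 0 := by exact_mod_cast hP.ne'
    have : (2 * π * m / P * Complex.I : ℂ) * ((a + P : ℝ) : ℂ) =
        (2 * π * m / P * Complex.I) * a + m * (2 * π * Complex.I) := by
      push_cast; field_simp
    rw [this, Complex.exp_add, Complex.exp_int_mul_two_pi_mul_I]; simp

lemma memLp_ex {α : Type} [MeasurableSpace α] {μ : Measure α} [IsFiniteMeasure μ] {θ : α → ℝ}
    (θm : Measurable θ) : MemLp (fun x => ex (θ x)) 2 μ :=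
  MemLp.of_bound (continuous_ex.measurable.comp θm).aestronglyMeasurable 1
    (Eventually.of_forall fun _ => (norm_ex _).le)

lemma bessel_1d {T : Type} [Fintype T] (m : T → ℤ) (hm : Function.Injective m) (a : ℝ) {P : ℝ}
    (hP : 0 < P) (c : T → ℂ) :
    ∫ y in Set.Icc a (a + P), ‖∑ k, c k * ex (2 * π * m k * y / P)‖ ^ 2 = P * ∑ k, ‖c k‖ ^ 2 := by
  classical
  rw [integral_normsq_sum Finset.univ (D := fun _ => P), Finset.mul_sum]
  · exact Finset.sum_congr rfl fun k _ => mul_comm _ _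
  · intro k; exact memLp_ex (by fun_prop)
  · intro k _ l _
    have : ∀ y : ℝ, conj (ex (2 * π * m k * y / P)) * ex (2 * π * m l * y / P) =
        ex (2 * π * ((m l - m k : ℤ) : ℝ) * y / P) := by
      intro y; rw [conj_ex, ← ex_add]; congr 1; push_cast; ring
    simp_rw [this]
    rw [integral_ex a hP]
    simp only [sub_eq_zero, hm.eq_iff, eq_comm]

lemma ex_sum {ι : Type} (s : Finset ι) (t : ι → ℝ) : ex (∑ r ∈ s, t r) = ∏ r ∈ s, ex (t r) := by
  unfold ex; rw [← Complex.exp_sum]; congr 1; push_cast; rw [Finset.sum_mul]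

lemma bessel_cube {d : ℕ} {T : Type} [Fintype T] (m : T → Fin d → ℤ) (hm : Function.Injective m)
    (a : ℝ) {P : ℝ} (hP : 0 < P) (c : T → ℂ) :
    ∫ x in Set.univ.pi fun _ : Fin d => Set.Icc a (a + P),
      ‖∑ k, c k * ex (∑ r, 2 * π * m k r * x r / P)‖ ^ 2 = P ^ d * ∑ k, ‖c k‖ ^ 2 := by
  classical
  have hfin : IsFiniteMeasure ((volume : Measure (Fin d → ℝ)).restrict
      (Set.univ.pi fun _ : Fin d => Set.Icc a (a + P))) :=
    isFiniteMeasure_restrict.2 (isCompact_univ_pi fun _ => isCompact_Icc).measure_ne_top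
  rw [integral_normsq_sum Finset.univ (D := fun _ => P ^ d), Finset.mul_sum]
  · exact Finset.sum_congr rfl fun k _ => mul_comm _ _
  · intro k; exact memLp_ex (by fun_prop)
  · intro k _ l _
    have : ∀ x : Fin d → ℝ, conj (ex (∑ r, 2 * π * m k r * x r / P)) *
        ex (∑ r, 2 * π * m l r * x r / P) =
        ∏ r, ex (2 * π * ((m l r - m k r : ℤ) : ℝ) * x r / P) := by
      intro y; rw [conj_ex, ← ex_add, ← ex_sum, ← Finset.sum_neg_distrib,
        ← Finset.sum_add_distrib]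
      congr 1
      refine Finset.sum_congr rfl fun r _ => ?_
      push_cast; ring
    simp_rw [this]
    rw [volume_pi, Measure.restrict_pi_pi, integral_fintype_prod_eq_prod
      (fun r (y : ℝ) => ex (2 * π * ((m l r - m k r : ℤ) : ℝ) * y / P))]
    simp_rw [integral_ex a hP]
    split_ifs with h
    · subst h; simp
    · have : ∃ r, m l r - m k r ≠ 0 := by
        by_contra h'
        push Not at h'
        exact h (hm (funext fun r => by linarith [h' r]))
      obtain ⟨r, hr⟩ := this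
      exact Finset.prod_eq_zero (Finset.mem_univ r) (if_neg hr)

lemma integral_ex01 (m : ℤ) :
    ∫ y in Set.Icc (0 : ℝ) 1, ex (2 * π * m * y) = if m = 0 then 1 else 0 := by
  have := integral_ex 0 one_pos m
  simpa using this

lemma integrable_ex01 (c : ℝ) : IntegrableOn (fun y => ex (c * y)) (Set.Icc (0 : ℝ) 1) :=
  (continuous_ex.comp (by fun_prop)).integrableOn_Icc

lemma integral_sin_sq_ex (m : ℤ) :
    ∫ z in Set.Icc (0 : ℝ) 1, ((sin (π * z) * sin (π * z) : ℝ) : ℂ) * ex (4 * π * m * z) =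
      if m = 0 then 1 / 2 else 0 := by
  have e : ∀ z : ℝ, ((sin (π * z) * sin (π * z) : ℝ) : ℂ) * ex (4 * π * m * z) =
      (1 / 2) * ex (2 * π * ((2 * m : ℤ) : ℝ) * z) - (1 / 4) * ex (2 * π * ((2 * m + 1 : ℤ) : ℝ) * z)
        - (1 / 4) * ex (2 * π * ((2 * m - 1 : ℤ) : ℝ) * z) := by
    intro z
    have a1 : 2 * π * ((2 * m : ℤ) : ℝ) * z = 4 * π * m * z := by push_cast; ring
    have a2 : 2 * π * ((2 * m + 1 : ℤ) : ℝ) * z = 4 * π * m * z + (π * z + π * z) := by
      push_cast; ring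
    have a3 : 2 * π * ((2 * m - 1 : ℤ) : ℝ) * z = 4 * π * m * z + (-(π * z) + -(π * z)) := by
      push_cast; ring
    rw [a1, a2, a3, ex_add, ex_add, ex_add, ex_add]
    have b1 : ex (π * z) = cos (π * z) + sin (π * z) * Complex.I := by
      unfold ex; rw [Complex.exp_mul_I]; simp
    have b2 : ex (-(π * z)) = cos (π * z) - sin (π * z) * Complex.I := by
      unfold ex; rw [Complex.exp_mul_I]; simp; ring
    have b3 : ((sin (π * z) : ℝ) : ℂ) ^ 2 + ((cos (π * z) : ℝ) : ℂ) ^ 2 = 1 := by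
      exact_mod_cast sin_sq_add_cos_sq (π * z)
    rw [b1, b2, Complex.ofReal_mul]
    linear_combination (ex (4 * π * m * z) / 2) * b3 +
      (ex (4 * π * m * z) * ((sin (π * z) : ℝ) : ℂ) ^ 2 / 2) * Complex.I_mul_I
  simp_rw [e]
  rw [integral_sub, integral_sub, integral_const_mul, integral_const_mul, integral_const_mul,
    integral_ex01, integral_ex01, integral_ex01, if_neg (by omega : ¬ 2 * m + 1 = 0),
    if_neg (by omega : ¬ 2 * m - 1 = 0)]
  · by_cases hm : m = 0 <;> simp [hm]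
  · exact (integrable_ex01 _).const_mul _
  · exact (integrable_ex01 _).const_mul _
  · exact ((integrable_ex01 _).const_mul _).sub ((integrable_ex01 _).const_mul _)
  · exact (integrable_ex01 _).const_mul _

lemma integral_sin_cos_ex (m : ℤ) :
    ∫ z in Set.Icc (0 : ℝ) 1, ((sin (π * z) * cos (π * z) : ℝ) : ℂ) * ex (4 * π * m * z) = 0 := by
  have e : ∀ z : ℝ, ((sin (π * z) * cos (π * z) : ℝ) : ℂ) * ex (4 * π * m * z) =
      (-Complex.I / 4) * ex (2 * π * ((2 * m + 1 : ℤ) : ℝ) * z)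
        + (Complex.I / 4) * ex (2 * π * ((2 * m - 1 : ℤ) : ℝ) * z) := by
    intro z
    have a2 : 2 * π * ((2 * m + 1 : ℤ) : ℝ) * z = 4 * π * m * z + (π * z + π * z) := by
      push_cast; ring
    have a3 : 2 * π * ((2 * m - 1 : ℤ) : ℝ) * z = 4 * π * m * z + (-(π * z) + -(π * z)) := by
      push_cast; ring
    rw [a2, a3, ex_add, ex_add, ex_add, ex_add]
    have b1 : ex (π * z) = cos (π * z) + sin (π * z) * Complex.I := by
      unfold ex; rw [Complex.exp_mul_I]; simp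
    have b2 : ex (-(π * z)) = cos (π * z) - sin (π * z) * Complex.I := by
      unfold ex; rw [Complex.exp_mul_I]; simp; ring
    rw [b1, b2, Complex.ofReal_mul]
    linear_combination (ex (4 * π * m * z) * ((sin (π * z) : ℝ) : ℂ) * ((cos (π * z) : ℝ) : ℂ)) *
      Complex.I_mul_I
  simp_rw [e]
  rw [integral_add, integral_const_mul, integral_const_mul,
    integral_ex01, integral_ex01, if_neg (by omega : ¬ 2 * m + 1 = 0),
    if_neg (by omega : ¬ 2 * m - 1 = 0)]
  · simp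
  · exact (integrable_ex01 _).const_mul _
  · exact (integrable_ex01 _).const_mul _

lemma integral_rescale {τ : ℝ} (hτ : 0 < τ) (hτ1 : τ ≤ 1) (g g0 : ℝ → ℂ)
    (h1 : ∀ z, 1 ≤ z → g z = 0) (h0 : ∀ z, z ≤ 1 → g z = g0 z) :
    ∫ y in Set.Icc (0 : ℝ) 1, g (min y (2 * τ) / τ) = τ * ∫ z in Set.Icc (0 : ℝ) 1, g0 z := by
  rw [setIntegral_eq_of_subset_of_forall_sdiff_eq_zero measurableSet_Icc
    (Set.Icc_subset_Icc_right hτ1 : Set.Icc 0 τ ⊆ Set.Icc 0 1)]
  · rw [setIntegral_congr_fun measurableSet_Icc (g := fun y => g0 (y / τ))]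
    · rw [integral_Icc_eq_integral_Ioc, ← intervalIntegral.integral_of_le hτ.le,
        intervalIntegral.integral_comp_div _ hτ.ne', zero_div, div_self hτ.ne',
        integral_Icc_eq_integral_Ioc, ← intervalIntegral.integral_of_le zero_le_one]
      simp
    · intro y hy
      dsimp only
      rw [min_eq_left (by linarith [hy.2]), h0 _ ((div_le_one hτ).2 hy.2)]
  · intro y hy
    apply h1
    rw [le_div_iff₀ hτ, one_mul]
    have : τ < y := by
      by_contra h
      exact hy.2 ⟨hy.1.1, not_lt.1 h⟩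
    exact le_min this.le (by linarith)

end Pool.Agent.Lib.MP_ae5e3b_mp
end

-- part Pool.Agent.Lib.MP_ae5e3b_mp.Tail
section

open MeasureTheory Filter Topology ComplexConjugate Real
open scoped ENNReal ContDiff

set_option linter.unusedSectionVars false

namespace Pool.Agent.Lib.MP_ae5e3b_mp

structure Ctx (d : ℕ) where
  r0 : Fin d
  u : (Fin d → ℝ) → ℝ
  B : Fin d → ℝ
  F : ℝ → ℝ
  um : Measurable u
  u0 : ∀ x, 0 ≤ u x
  u2 : MemLp u 2 volume
  u1 : ∫ x, u x ^ 2 = 1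
  B0 : ∀ r, 0 ≤ B r
  hB : ∀ r (h : ℝ), 0 < h → ∫ x, (u (x + h • Pi.single r (1 : ℝ)) - u x) ^ 2 ≤ h ^ 2 * B r
  Fmono : Monotone F
  Fcont : Continuous F
  F0 : ∀ s, 0 ≤ F s
  F1 : ∀ s, F s ≤ 1
  Flip : ∀ s h, 0 < h → √(F (s + h)) ≤ √(F s) + h * √(B r0)
  push : ∀ G : ℝ → ℂ, Measurable G →
    ∫ x, ((u x ^ 2 : ℝ) : ℂ) * G (F (x r0)) = ∫ y in Set.Icc (0 : ℝ) 1, G y

namespace Ctx
variable {d : ℕ} (c : Ctx d)

lemma push_real (G : ℝ → ℝ) (hG : Measurable G) :
    ∫ x, c.u x ^ 2 * G (c.F (x c.r0)) = ∫ y in Set.Icc (0 : ℝ) 1, G y := by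
  apply Complex.ofReal_injective
  rw [← integral_complex_ofReal, ← integral_complex_ofReal,
    ← c.push (fun y => (G y : ℂ)) (Complex.measurable_ofReal.comp hG)]
  congr 1; ext x; push_cast; ring

lemma Fm : Measurable fun x : Fin d → ℝ => c.F (x c.r0) :=
  c.Fcont.measurable.comp (measurable_pi_apply _)

lemma min_shift {m : ℝ} (hm : 0 ≤ m) (x : Fin d → ℝ) (r : Fin d) {h : ℝ} (hh : 0 < h) :
    |min (c.F ((x + h • Pi.single r (1 : ℝ) : Fin d → ℝ) c.r0)) m - min (c.F (x c.r0)) m| ≤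
      h * (2 * √m * √(c.B r)) := by
  by_cases hr : r = c.r0
  · subst hr
    simp only [Pi.add_apply, Pi.smul_apply, Pi.single_eq_same, smul_eq_mul, mul_one]
    set s := x c.r0
    have h1 := c.Flip s h hh
    have h2 : c.F s ≤ c.F (s + h) := c.Fmono (by linarith)
    have e : ∀ t, min (c.F t) m = (min √(c.F t) √m) ^ 2 := by
      intro t
      rcases le_total (c.F t) m with h | h
      · rw [min_eq_left h, min_eq_left (sqrt_le_sqrt h), sq_sqrt (c.F0 t)]
      · rw [min_eq_right h, min_eq_right (sqrt_le_sqrt h), sq_sqrt hm]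
    rw [abs_of_nonneg (by linarith [min_le_min_right m h2]), e, e]
    have h3 := abs_min_sub_min_le_abs_left √(c.F (s + h)) √(c.F s) √m
    have h4 : √(c.F s) ≤ √(c.F (s + h)) := sqrt_le_sqrt h2
    rw [abs_of_nonneg (by linarith [min_le_min_right √m h4]), abs_of_nonneg (by linarith)] at h3
    have h5 := min_le_right √(c.F (s + h)) √m
    have h6 := min_le_right √(c.F s) √m
    have h7 := min_le_min_right √m h4
    have h8 : 0 ≤ h * √(c.B c.r0) := by positivity
    have h9 : 0 ≤ min √(c.F s) √m := le_min (sqrt_nonneg _) (sqrt_nonneg _)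
    nlinarith
  · have : (x + h • Pi.single r (1 : ℝ) : Fin d → ℝ) c.r0 = x c.r0 := by
      simp [Pi.single_eq_of_ne (Ne.symm hr)]
    rw [this, sub_self, abs_zero]; positivity

lemma F_shift (x : Fin d → ℝ) (r : Fin d) {h : ℝ} (hh : 0 < h) :
    |c.F ((x + h • Pi.single r (1 : ℝ) : Fin d → ℝ) c.r0) - c.F (x c.r0)| ≤
      h * (2 * √(c.B r)) := by
  have := c.min_shift zero_le_one x r hh
  rw [min_eq_left (c.F1 _), min_eq_left (c.F1 _)] at this
  simpa using this

noncomputable def zeta (τ : ℝ) (x : Fin d → ℝ) : ℝ := min (c.F (x c.r0)) (2 * τ) / τ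

lemma zeta_m (τ : ℝ) : Measurable (c.zeta τ) := (c.Fm.min measurable_const).div_const _

lemma zeta_shift {τ : ℝ} (hτ : 0 < τ) (x : Fin d → ℝ) (r : Fin d) {h : ℝ} (hh : 0 < h) :
    |c.zeta τ (x + h • Pi.single r (1 : ℝ)) - c.zeta τ x| ≤ h * √(8 * c.B r / τ) := by
  unfold zeta
  rw [← sub_div, abs_div, abs_of_pos hτ, div_le_iff₀ hτ]
  refine (c.min_shift (by positivity) x r hh).trans (le_of_eq ?_)
  rw [mul_assoc h]
  congr 1
  have := c.B0 r
  rw [← sqrt_sq (by positivity : 0 ≤ 2 * √(2 * τ) * √(c.B r)),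
    ← sqrt_sq (by positivity : 0 ≤ √(8 * c.B r / τ) * τ)]
  congr 1
  rw [mul_pow, mul_pow, mul_pow, sq_sqrt (by positivity), sq_sqrt this, sq_sqrt (by positivity)]
  field_simp; ring

lemma zeta_two {τ : ℝ} (hτ : 0 < τ) {x : Fin d → ℝ} (hx : 2 * τ ≤ c.F (x c.r0)) :
    c.zeta τ x = 2 := by
  unfold zeta; rw [min_eq_right hx]; field_simp

lemma zeta_shift_eq {τ : ℝ} {x : Fin d → ℝ} (hx : 2 * τ ≤ c.F (x c.r0)) (r : Fin d) {h : ℝ}
    (hh : 0 < h) : c.zeta τ (x + h • Pi.single r (1 : ℝ)) = c.zeta τ x := by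
  unfold zeta
  rw [min_eq_right hx, min_eq_right (hx.trans (c.Fmono ?_))]
  simp only [Pi.add_apply, Pi.smul_apply, smul_eq_mul, le_add_iff_nonneg_right]
  refine mul_nonneg hh.le ?_
  rw [Pi.single_apply]; split_ifs <;> norm_num

lemma tail_bound {τ : ℝ} (hτ : 0 < τ) {H : (Fin d → ℝ) → ℝ} {M : ℝ} (hM : 0 ≤ M)
    (H0 : ∀ x, 0 ≤ H x) (H1 : ∀ x, H x ≤ M * c.u x ^ 2)
    (H2 : ∀ x, 2 * τ ≤ c.F (x c.r0) → H x = 0) : ∫ x, H x ≤ M * (2 * τ) := by
  let G : ℝ → ℝ := Set.indicator (Set.Iio (2 * τ)) fun _ => 1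
  have Gm : Measurable G := measurable_const.indicator measurableSet_Iio
  have G1 : ∀ y, |G y| ≤ 1 := fun y => by
    simp only [G, Set.indicator]; split_ifs <;> simp
  have hi : Integrable fun x => c.u x ^ 2 * G (c.F (x c.r0)) :=
    c.u2.integrable_sq.mul_bdd (Gm.comp c.Fm).aestronglyMeasurable
      (Eventually.of_forall fun x => G1 _)
  calc _ ≤ ∫ x, M * (c.u x ^ 2 * G (c.F (x c.r0))) := by
        refine integral_mono_of_nonneg (Eventually.of_forall H0) (hi.const_mul M)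
          (Eventually.of_forall fun x => ?_)
        by_cases hx : 2 * τ ≤ c.F (x c.r0)
        · simp [H2 x hx, G, not_lt.2 hx]
        · simpa [G, Set.indicator, not_le.1 hx] using H1 x
    _ = M * ∫ y in Set.Icc (0 : ℝ) 1, G y := by rw [integral_const_mul, c.push_real G Gm]
    _ ≤ _ := by
        gcongr
        simp only [G]
        rw [integral_indicator measurableSet_Iio, Measure.restrict_restrict measurableSet_Iio]
        simp only [integral_const, MeasurableSet.univ, measureReal_restrict_apply, Set.univ_inter,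
          smul_eq_mul, mul_one]
        calc _ ≤ volume.real (Set.Icc 0 (2 * τ)) :=
              measureReal_mono (fun y hy => ⟨hy.2.1, le_of_lt hy.1⟩)
                isCompact_Icc.measure_ne_top
          _ = _ := by rw [volume_real_Icc_of_le (by positivity), sub_zero]

/-- energy of a cut-off function -/
lemma cut_bound {τ : ℝ} (hτ : 0 < τ) {Y : (Fin d → ℝ) → ℝ} (r : Fin d) {h : ℝ} (hh : 0 < h)
    {a : ℝ} (hY : ∀ x, |Y (x + h • Pi.single r (1 : ℝ)) - Y x| ≤
      h * a + 4 * |c.zeta τ (x + h • Pi.single r (1 : ℝ)) - c.zeta τ x|) :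
    ∫ x, c.u x ^ 2 * (Y (x + h • Pi.single r (1 : ℝ)) - Y x) ^ 2 ≤
      h ^ 2 * (2 * a ^ 2 + 512 * c.B r) := by
  have hB := c.B0 r
  let H : (Fin d → ℝ) → ℝ := fun x =>
    c.u x ^ 2 * (c.zeta τ (x + h • Pi.single r (1 : ℝ)) - c.zeta τ x) ^ 2
  have zb : ∀ x, (c.zeta τ (x + h • Pi.single r (1 : ℝ)) - c.zeta τ x) ^ 2 ≤
      h ^ 2 * (8 * c.B r / τ) := by
    intro x
    rw [← sq_abs, ← sq_sqrt (by positivity : 0 ≤ 8 * c.B r / τ), ← mul_pow]
    have := c.zeta_shift hτ x r hh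
    gcongr
  have Hi : Integrable H :=
    c.u2.integrable_sq.mul_bdd (c := h ^ 2 * (8 * c.B r / τ))
      ((((c.zeta_m τ).comp (measurable_add_const _)).sub (c.zeta_m τ)).pow_const 2).aestronglyMeasurable
      (Eventually.of_forall fun x => by
        rw [Real.norm_eq_abs, abs_of_nonneg (sq_nonneg _)]; exact zb x)
  have Hb : ∫ x, H x ≤ h ^ 2 * (8 * c.B r / τ) * (2 * τ) :=
    c.tail_bound hτ (by positivity) (fun x => by positivity)
      (fun x => by simp only [H]; rw [mul_comm]; gcongr; exact zb x)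
      (fun x hx => by simp only [H]; rw [c.zeta_shift_eq hx r hh]; simp)
  calc _ ≤ ∫ x, (2 * (h * a) ^ 2 * c.u x ^ 2 + 32 * H x) := by
        refine integral_mono_of_nonneg (Eventually.of_forall fun x => by positivity)
          ((c.u2.integrable_sq.const_mul _).add (Hi.const_mul _)) (Eventually.of_forall fun x => ?_)
        have h1 := hY x
        have h2 : (Y (x + h • Pi.single r (1 : ℝ)) - Y x) ^ 2 ≤ (h * a +
            4 * |c.zeta τ (x + h • Pi.single r (1 : ℝ)) - c.zeta τ x|) ^ 2 := by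
          rw [← sq_abs]; gcongr
        have h3 : (Y (x + h • Pi.single r (1 : ℝ)) - Y x) ^ 2 ≤ 2 * (h * a) ^ 2 +
            32 * (c.zeta τ (x + h • Pi.single r (1 : ℝ)) - c.zeta τ x) ^ 2 := by
          generalize c.zeta τ (x + h • Pi.single r (1 : ℝ)) - c.zeta τ x = z at h2 ⊢
          rw [← sq_abs z]
          nlinarith [sq_nonneg (h * a - 4 * |z|)]
        simp only [H]
        nlinarith [sq_nonneg (c.u x)]
    _ = 2 * (h * a) ^ 2 + 32 * ∫ x, H x := by
        rw [integral_add (c.u2.integrable_sq.const_mul _) (Hi.const_mul _), integral_const_mul,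
          integral_const_mul, c.u1, mul_one]
    _ ≤ 2 * (h * a) ^ 2 + 32 * (h ^ 2 * (8 * c.B r / τ) * (2 * τ)) := by gcongr
    _ = _ := by field_simp; ring

/-- energy of a family of amplitudes -/
lemma amp_bound {τ : ℝ} (hτ : 0 < τ) {S : Type} (s : Finset S) (a : S → ℝ → ℝ)
    (am : ∀ j, Measurable (a j)) (a1 : ∀ t, ∑ j ∈ s, a j t ^ 2 ≤ 1) {C : ℝ} (hC : 0 ≤ C)
    (aC : ∀ t t', 0 ≤ t → 0 ≤ t' → ∑ j ∈ s, (t' * a j t' - t * a j t) ^ 2 ≤ C * (t' - t) ^ 2)
    {Y : (Fin d → ℝ) → ℝ} (Ym : Measurable Y) (Y1 : ∀ x, |Y x| ≤ 1) (r : Fin d) {h : ℝ}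
    (hh : 0 < h) {b : ℝ} (hY : ∀ x, |Y (x + h • Pi.single r (1 : ℝ)) - Y x| ≤
      h * b + 4 * |c.zeta τ (x + h • Pi.single r (1 : ℝ)) - c.zeta τ x|) :
    ∑ j ∈ s, ∫ x, (c.u (x + h • Pi.single r (1 : ℝ)) *
      (a j (c.u (x + h • Pi.single r (1 : ℝ))) * Y (x + h • Pi.single r (1 : ℝ))) -
        c.u x * (a j (c.u x) * Y x)) ^ 2 ≤ h ^ 2 * (4 * b ^ 2 + (2 * C + 1024) * c.B r) := by
  set y : Fin d → ℝ := h • Pi.single r (1 : ℝ) with hy
  have m2 : ∀ j ∈ s, MemLp (fun x => c.u x * (a j (c.u x) * Y x)) 2 volume := by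
    intro j hj
    refine memLp_mul_bdd c.u2 (((am j).comp c.um).mul Ym) fun x => ?_
    have h1 : a j (c.u x) ^ 2 ≤ 1 := (Finset.single_le_sum (f := fun j => a j (c.u x) ^ 2)
      (fun _ _ => sq_nonneg _) hj).trans (a1 _)
    rw [abs_mul]
    exact mul_le_one₀ (by rwa [← sq_le_one_iff_abs_le_one]) (abs_nonneg _) (Y1 x)
  have us : MemLp (fun x => c.u (x + y)) 2 volume :=
    c.u2.comp_measurePreserving (measurePreserving_add_right volume y)
  have i1 : Integrable fun x => (c.u (x + y) - c.u x) ^ 2 := (us.sub c.u2).integrable_sq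
  have i2 : Integrable fun x => c.u x ^ 2 * (Y (x + y) - Y x) ^ 2 :=
    c.u2.integrable_sq.mul_bdd (c := 4)
      (((Ym.comp (measurable_add_const _)).sub Ym).pow_const 2).aestronglyMeasurable
      (Eventually.of_forall fun x => by
        rw [Real.norm_eq_abs, abs_of_nonneg (sq_nonneg _)]
        have h1 := abs_le.1 (Y1 x)
        have h2 := abs_le.1 (Y1 (x + y))
        nlinarith)
  rw [← integral_finsetSum (f := fun j x => (c.u (x + y) * (a j (c.u (x + y)) * Y (x + y)) -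
        c.u x * (a j (c.u x) * Y x)) ^ 2) _ fun j hj =>
      (((m2 j hj).comp_measurePreserving (measurePreserving_add_right volume y)).sub
        (m2 j hj)).integrable_sq]
  calc _ ≤ ∫ x, (2 * C * (c.u (x + y) - c.u x) ^ 2 + 2 * (c.u x ^ 2 * (Y (x + y) - Y x) ^ 2)) := by
        refine integral_mono_of_nonneg (Eventually.of_forall fun x =>
          Finset.sum_nonneg fun j _ => sq_nonneg _) ((i1.const_mul _).add (i2.const_mul _))
          (Eventually.of_forall fun x => ?_)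
        have h1 : ∀ j ∈ s, (c.u (x + y) * (a j (c.u (x + y)) * Y (x + y)) -
            c.u x * (a j (c.u x) * Y x)) ^ 2 ≤
            2 * (c.u (x + y) * a j (c.u (x + y)) - c.u x * a j (c.u x)) ^ 2 +
            2 * (c.u x ^ 2 * (Y (x + y) - Y x) ^ 2) * a j (c.u x) ^ 2 := by
          intro j _
          have hy1 : Y (x + y) ^ 2 ≤ 1 := by rw [sq_le_one_iff_abs_le_one]; exact Y1 _
          set X' := c.u (x + y) * a j (c.u (x + y))
          have e : c.u (x + y) * (a j (c.u (x + y)) * Y (x + y)) - c.u x * (a j (c.u x) * Y x) =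
              (X' - c.u x * a j (c.u x)) * Y (x + y) + c.u x * a j (c.u x) * (Y (x + y) - Y x) := by
            simp only [X']; ring
          rw [e]
          nlinarith [sq_nonneg ((X' - c.u x * a j (c.u x)) * Y (x + y) -
            c.u x * a j (c.u x) * (Y (x + y) - Y x)), sq_nonneg (X' - c.u x * a j (c.u x))]
        refine (Finset.sum_le_sum h1).trans ?_
        rw [Finset.sum_add_distrib, ← Finset.mul_sum, ← Finset.mul_sum]
        have h2 := aC _ _ (c.u0 x) (c.u0 (x + y))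
        have h3 := a1 (c.u x)
        have h4 : 0 ≤ c.u x ^ 2 * (Y (x + y) - Y x) ^ 2 := by positivity
        nlinarith
    _ = 2 * C * (∫ x, (c.u (x + y) - c.u x) ^ 2) +
          2 * ∫ x, c.u x ^ 2 * (Y (x + y) - Y x) ^ 2 := by
        rw [integral_add (i1.const_mul _) (i2.const_mul _), integral_const_mul, integral_const_mul]
    _ ≤ 2 * C * (h ^ 2 * c.B r) + 2 * (h ^ 2 * (2 * b ^ 2 + 512 * c.B r)) := by
        gcongr
        · exact c.hB r h hh
        · exact c.cut_bound hτ r hh hY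
    _ = _ := by ring

lemma amp_bound1 {τ : ℝ} (hτ : 0 < τ)
    {Y : (Fin d → ℝ) → ℝ} (Ym : Measurable Y) (Y1 : ∀ x, |Y x| ≤ 1) (r : Fin d) {h : ℝ}
    (hh : 0 < h) {b : ℝ} (hY : ∀ x, |Y (x + h • Pi.single r (1 : ℝ)) - Y x| ≤
      h * b + 4 * |c.zeta τ (x + h • Pi.single r (1 : ℝ)) - c.zeta τ x|) :
    ∫ x, (c.u (x + h • Pi.single r (1 : ℝ)) * Y (x + h • Pi.single r (1 : ℝ)) -
        c.u x * Y x) ^ 2 ≤ h ^ 2 * (4 * b ^ 2 + 1026 * c.B r) := by
  have := c.amp_bound hτ (Finset.univ : Finset Unit) (fun _ _ => 1) (fun _ => measurable_const)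
    (by simp) zero_le_one (by simp) Ym Y1 r hh hY
  simp only [Finset.univ_unique, Finset.sum_singleton, one_mul] at this
  convert this using 3
  norm_num

end Ctx

/-- the three angular cut-offs in the tail variable -/
noncomputable def lamf (z : ℝ) : ℝ := sin (π * min z 1)
noncomputable def betf (z : ℝ) : ℝ := cos (π * min z (3 / 2))
noncomputable def gamf (z : ℝ) : ℝ := sin (π * max 1 (min z (3 / 2)))

lemma lamf_cont : Continuous lamf := by unfold lamf; fun_prop
lemma betf_cont : Continuous betf := by unfold betf; fun_prop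
lemma gamf_cont : Continuous gamf := by unfold gamf; fun_prop

lemma pi_mul_lip {a b s : ℝ} (h : |a - b| ≤ s) : |π * a - π * b| ≤ 4 * s := by
  rw [← mul_sub, abs_mul, abs_of_pos pi_pos]
  have := pi_le_four
  have := abs_nonneg (a - b)
  have := pi_pos
  nlinarith

lemma lamf_lip (s t : ℝ) : |lamf s - lamf t| ≤ 4 * |s - t| :=
  (abs_sin_sub_sin_le _ _).trans (pi_mul_lip (abs_min_sub_min_le_abs_left _ _ _))
lemma betf_lip (s t : ℝ) : |betf s - betf t| ≤ 4 * |s - t| :=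
  (abs_cos_sub_cos_le _ _).trans (pi_mul_lip (abs_min_sub_min_le_abs_left _ _ _))
lemma gamf_lip (s t : ℝ) : |gamf s - gamf t| ≤ 4 * |s - t| :=
  (abs_sin_sub_sin_le _ _).trans (pi_mul_lip (abs_clamp_sub _ _ _ _))

lemma cos_three_half : cos (π * (3 / 2)) = 0 := by
  have : π * (3 / 2) = π / 2 + π := by ring
  rw [this, cos_add_pi]; simp

lemma lamf_of_ge {z : ℝ} (h : 1 ≤ z) : lamf z = 0 := by simp [lamf, min_eq_right h]
lemma lamf_of_le {z : ℝ} (h : z ≤ 1) : lamf z = sin (π * z) := by simp [lamf, min_eq_left h]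
lemma betf_of_le {z : ℝ} (h : z ≤ 1) : betf z = cos (π * z) := by
  unfold betf; rw [min_eq_left (by linarith)]
lemma betf_two : betf 2 = 0 := by
  unfold betf; rw [min_eq_right (by norm_num), cos_three_half]

lemma lam_gam (z : ℝ) : lamf z * gamf z = 0 := by
  rcases le_total z 1 with h | h
  · unfold gamf; rw [min_eq_left (by linarith), max_eq_left h]; simp
  · rw [lamf_of_ge h, zero_mul]

lemma lam_bet_gam (z : ℝ) : lamf z ^ 2 + betf z ^ 2 + gamf z ^ 2 = 1 := by
  rcases le_total z 1 with h | h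
  · rw [lamf_of_le h, betf_of_le h]
    unfold gamf; rw [min_eq_left (by linarith), max_eq_left h]; simp
  · rw [lamf_of_ge h]
    unfold betf gamf
    rw [max_eq_right (le_min h (by norm_num))]; simp

end Pool.Agent.Lib.MP_ae5e3b_mp
end

-- part Pool.Agent.Lib.MP_ae5e3b_mp.Families
section

open MeasureTheory Filter Topology ComplexConjugate Real
open scoped ENNReal ContDiff

set_option linter.unusedSectionVars false

namespace Pool.Agent.Lib.MP_ae5e3b_mp

lemma Fam.mono {d : ℕ} {θ : ℝ} {lab : ℕ → (Fin d → ℝ) → ℂ} {w ρ ρ' : (Fin d → ℝ) → ℝ}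
    {En En' : Fin d → ℝ → ℝ} (h : Fam θ lab w ρ En) (hρ : ∀ x, ρ x = ρ' x)
    (hE : ∀ r h, 0 < h → En r h ≤ En' r h) : Fam θ lab w ρ' En' := by
  obtain ⟨ι, _, v, a1, a2, a3, a4, a5, a6⟩ := h
  exact ⟨ι, inferInstance, v, a1, a2, a3, fun x => (a4 x).trans (hρ x),
    fun r h hh => (a5 r h hh).trans (hE r h hh), a6⟩

namespace Ctx
variable {d : ℕ} (c : Ctx d)

noncomputable def lab (τ : ℝ) (a : ℕ) (x : Fin d → ℝ) : ℂ :=
  ((√(2 / τ) * (c.u x * lamf (c.zeta τ x)) : ℝ) : ℂ) * ex (4 * π * a * c.zeta τ x)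

lemma lam_m (τ : ℝ) : Measurable fun x => lamf (c.zeta τ x) :=
  lamf_cont.measurable.comp (c.zeta_m τ)
lemma bet_m (τ : ℝ) : Measurable fun x => betf (c.zeta τ x) :=
  betf_cont.measurable.comp (c.zeta_m τ)
lemma gam_m (τ : ℝ) : Measurable fun x => gamf (c.zeta τ x) :=
  gamf_cont.measurable.comp (c.zeta_m τ)

lemma lab_m (τ : ℝ) (a : ℕ) : Measurable (c.lab τ a) :=
  (Complex.measurable_ofReal.comp ((c.um.mul (c.lam_m τ)).const_mul _)).mul
    (continuous_ex.measurable.comp ((c.zeta_m τ).const_mul _))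

lemma lam_memLp (τ : ℝ) : MemLp (fun x => √(2 / τ) * (c.u x * lamf (c.zeta τ x))) 2 volume :=
  (memLp_mul_bdd c.u2 (c.lam_m τ) fun _ => abs_sin_le_one _).const_mul _

lemma lab_memLp (τ : ℝ) (a : ℕ) : MemLp (c.lab τ a) 2 volume :=
  memLp_orb (c.lam_memLp τ) ((c.zeta_m τ).const_mul _)

lemma push_zeta {τ : ℝ} (hτ : 0 < τ) (hτ1 : τ ≤ 1) (g g0 : ℝ → ℂ) (hg : Continuous g)
    (h1 : ∀ z, 1 ≤ z → g z = 0) (h0 : ∀ z, z ≤ 1 → g z = g0 z) :
    ∫ x, ((c.u x ^ 2 : ℝ) : ℂ) * g (c.zeta τ x) = τ * ∫ z in Set.Icc (0 : ℝ) 1, g0 z := by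
  rw [← integral_rescale hτ hτ1 g g0 h1 h0]
  exact c.push (fun y => g (min y (2 * τ) / τ)) (hg.measurable.comp (by fun_prop))

lemma lab_on {τ : ℝ} (hτ : 0 < τ) (hτ1 : τ ≤ 1) (a b : ℕ) :
    ∫ x, conj (c.lab τ a x) * c.lab τ b x = if a = b then 1 else 0 := by
  have h := c.push_zeta hτ hτ1
    (fun z => ((lamf z * lamf z : ℝ) : ℂ) * ex (4 * π * (((b : ℤ) - a : ℤ) : ℝ) * z))
    (fun z => ((sin (π * z) * sin (π * z) : ℝ) : ℂ) * ex (4 * π * (((b : ℤ) - a : ℤ) : ℝ) * z))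
    ((Complex.continuous_ofReal.comp (lamf_cont.mul lamf_cont)).mul
      (continuous_ex.comp (by fun_prop)))
    (fun z hz => by simp [lamf_of_ge hz]) (fun z hz => by simp only [lamf_of_le hz])
  rw [integral_sin_sq_ex] at h
  have e : ∀ x, conj (c.lab τ a x) * c.lab τ b x = ((2 / τ : ℝ) : ℂ) * (((c.u x ^ 2 : ℝ) : ℂ) *
      (((lamf (c.zeta τ x) * lamf (c.zeta τ x) : ℝ) : ℂ) *
        ex (4 * π * (((b : ℤ) - a : ℤ) : ℝ) * c.zeta τ x))) := by
    intro x
    have e1 : ex (4 * π * (((b : ℤ) - a : ℤ) : ℝ) * c.zeta τ x) =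
        ex (-(4 * π * a * c.zeta τ x)) * ex (4 * π * b * c.zeta τ x) := by
      rw [← ex_add]; congr 1; push_cast; ring
    have e2 : ((2 / τ : ℝ) : ℂ) = (√(2 / τ) : ℝ) * (√(2 / τ) : ℝ) := by
      rw [← Complex.ofReal_mul, mul_self_sqrt (by positivity)]
    rw [e1, e2]
    simp only [lab, map_mul, conj_ex, Complex.conj_ofReal]
    push_cast; ring
  simp_rw [e]
  rw [integral_const_mul, h]
  have hτ' : (τ : ℂ) ≠ 0 := by exact_mod_cast hτ.ne'
  by_cases hab : a = b
  · subst hab; simp; field_simp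
  · rw [if_neg hab, if_neg (by omega)]; simp

lemma lab_bet {τ : ℝ} (hτ : 0 < τ) (hτ1 : τ ≤ 1) (a b : ℕ) :
    ∫ x, conj (c.lab τ a x) * (((c.u x * betf (c.zeta τ x) : ℝ) : ℂ) *
      ex (4 * π * b * c.zeta τ x)) = 0 := by
  have h := c.push_zeta hτ hτ1
    (fun z => ((lamf z * betf z : ℝ) : ℂ) * ex (4 * π * (((b : ℤ) - a : ℤ) : ℝ) * z))
    (fun z => ((sin (π * z) * cos (π * z) : ℝ) : ℂ) * ex (4 * π * (((b : ℤ) - a : ℤ) : ℝ) * z))
    ((Complex.continuous_ofReal.comp (lamf_cont.mul betf_cont)).mul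
      (continuous_ex.comp (by fun_prop)))
    (fun z hz => by simp [lamf_of_ge hz]) (fun z hz => by simp only [lamf_of_le hz, betf_of_le hz])
  rw [integral_sin_cos_ex] at h
  have e : ∀ x, conj (c.lab τ a x) * (((c.u x * betf (c.zeta τ x) : ℝ) : ℂ) *
      ex (4 * π * b * c.zeta τ x)) = ((√(2 / τ) : ℝ) : ℂ) * (((c.u x ^ 2 : ℝ) : ℂ) *
      (((lamf (c.zeta τ x) * betf (c.zeta τ x) : ℝ) : ℂ) *
        ex (4 * π * (((b : ℤ) - a : ℤ) : ℝ) * c.zeta τ x))) := by
    intro x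
    have e1 : ex (4 * π * (((b : ℤ) - a : ℤ) : ℝ) * c.zeta τ x) =
        ex (-(4 * π * a * c.zeta τ x)) * ex (4 * π * b * c.zeta τ x) := by
      rw [← ex_add]; congr 1; push_cast; ring
    rw [e1]
    simp only [lab, map_mul, conj_ex, Complex.conj_ofReal]
    push_cast; ring
  simp_rw [e]
  rw [integral_const_mul, h]; simp

lemma lab_gam (τ : ℝ) (a : ℕ) (A : (Fin d → ℝ) → ℝ) (ph : (Fin d → ℝ) → ℝ) :
    ∫ x, conj (c.lab τ a x) * (((c.u x * (A x * gamf (c.zeta τ x)) : ℝ) : ℂ) * ex (ph x)) = 0 := by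
  have : ∀ x, conj (c.lab τ a x) * (((c.u x * (A x * gamf (c.zeta τ x)) : ℝ) : ℂ) * ex (ph x))
      = 0 := by
    intro x
    have h : ((lamf (c.zeta τ x) : ℝ) : ℂ) * (gamf (c.zeta τ x) : ℝ) = 0 := by
      exact_mod_cast lam_gam _
    simp only [lab, map_mul, Complex.conj_ofReal]
    push_cast
    linear_combination (((√(2 / τ) : ℝ) : ℂ) * c.u x * conj (ex (4 * π * a * c.zeta τ x)) *
      c.u x * A x * ex (ph x)) * h
  simp only [this, integral_zero]

lemma lab_normsq {τ : ℝ} (hτ : 0 < τ) (a : ℕ) (x : Fin d → ℝ) :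
    ‖c.lab τ a x‖ ^ 2 = 2 / τ * (c.u x * lamf (c.zeta τ x)) ^ 2 := by
  simp only [lab]
  rw [norm_mul, norm_ex, mul_one, Complex.norm_real, Real.norm_eq_abs, sq_abs, mul_pow,
    sq_sqrt (by positivity)]

lemma phase_zeta {τ : ℝ} (hτ : 0 < τ) (a : ℕ) (r : Fin d) {h : ℝ} (hh : 0 < h) (x : Fin d → ℝ) :
    |4 * π * a * c.zeta τ (x + h • Pi.single r (1 : ℝ)) - 4 * π * a * c.zeta τ x| ≤
      h * (16 * a * √(8 * c.B r / τ)) := by
  rw [← mul_sub, abs_mul, abs_of_nonneg (by positivity)]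
  have h1 := c.zeta_shift hτ x r hh
  have h2 := pi_le_four
  calc _ ≤ 4 * 4 * a * (h * √(8 * c.B r / τ)) := by gcongr
    _ = _ := by ring

lemma tail_mass {τ : ℝ} (hτ : 0 < τ) {g : ℝ → ℝ} (g1 : ∀ z, |g z| ≤ 1) (g2 : g 2 = 0) :
    ∫ x, (c.u x * g (c.zeta τ x)) ^ 2 ≤ 2 * τ := by
  have := c.tail_bound hτ (H := fun x => (c.u x * g (c.zeta τ x)) ^ 2) zero_le_one
    (fun x => sq_nonneg _) (fun x => ?_) (fun x hx => ?_)
  · simpa using this
  · have : g (c.zeta τ x) ^ 2 ≤ 1 := by rw [sq_le_one_iff_abs_le_one]; exact g1 _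
    rw [mul_pow, one_mul]
    exact mul_le_of_le_one_right (sq_nonneg _) this
  · simp [c.zeta_two hτ hx, g2]

lemma lab_energy {τ : ℝ} (hτ : 0 < τ) {A : ℕ} {a : ℕ} (ha : a < A) (r : Fin d) {h : ℝ}
    (hh : 0 < h) :
    ∫ x, ‖c.lab τ a (x + h • Pi.single r (1 : ℝ)) - c.lab τ a x‖ ^ 2 ≤
      h ^ 2 * ((2052 + 8192 * A ^ 2) * c.B r / τ) := by
  have hB := c.B0 r
  refine (orb_energy (c.lam_memLp τ) ((c.zeta_m τ).const_mul _) _
    (c.phase_zeta hτ a r hh)).trans ?_
  have h1 := c.amp_bound1 hτ (c.lam_m τ) (fun _ => abs_sin_le_one _) r hh (b := 0)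
    (fun x => by simpa using lamf_lip _ _)
  have h2 := c.tail_mass hτ (g := lamf) (fun _ => abs_sin_le_one _) (lamf_of_ge (by norm_num))
  simp_rw [← mul_sub, mul_pow √(2 / τ), integral_const_mul, sq_sqrt (by positivity : 0 ≤ 2 / τ)]
  have ha' : (a : ℝ) ≤ A := by exact_mod_cast ha.le
  calc _ ≤ 2 / τ * (h ^ 2 * (4 * 0 ^ 2 + 1026 * c.B r)) +
        (h * (16 * A * √(8 * c.B r / τ))) ^ 2 * (2 / τ * (2 * τ)) := by gcongr
    _ = _ := by
        rw [mul_pow h, mul_pow _ √_, sq_sqrt (by positivity)]; field_simp; ring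

lemma famT {θ : ℝ} (hθ : 1 / 2 ≤ θ) {N : ℝ} (hN : 6 ≤ N) :
    Fam θ (c.lab (6 / N)) (fun x => betf (c.zeta (6 / N) x) ^ 2)
      (fun x => N * (c.u x * betf (c.zeta (6 / N) x)) ^ 2)
      (fun r h => h ^ 2 * (2400000 * N * c.B r)) := by
  set τ := 6 / N with hτdef
  have hN0 : 0 < N := by linarith
  have hτ : 0 < τ := by positivity
  have hτ1 : τ ≤ 1 := (div_le_one hN0).2 hN
  have hc : √(N / 24) ^ 2 = N / 24 := sq_sqrt (by positivity)
  have Um : MeasurableSet {x : Fin d → ℝ | c.F (x c.r0) < 2 * τ} :=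
    measurableSet_lt c.Fm measurable_const
  refine (Fam.sector (T := Fin 24) (by linarith) c.um c.u2 (c.bet_m τ)
    (fun _ => abs_cos_le_one _) √(N / 24) (fun k x => 4 * π * (k : ℕ) * c.zeta τ x)
    (fun k => (c.zeta_m τ).const_mul _) Um ?_ ?_ (fun k r => 16 * (k : ℕ) * √(8 * c.B r / τ))
    (fun k r h hh x => c.phase_zeta hτ k r hh x) (fun a k => c.lab_bet hτ hτ1 a k)).mono ?_ ?_
  · intro x hx
    by_contra h
    exact hx (by rw [c.zeta_two hτ (not_lt.1 h), betf_two])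
  · intro cf
    let g : ℝ → ℝ := fun y => ‖∑ k : Fin 24, cf k *
      ex (2 * π * ((4 * (k : ℕ) : ℤ) : ℝ) * y / (2 * τ))‖ ^ 2
    have gc : Continuous g := by
      have := continuous_ex
      simp only [g]; fun_prop
    have b := bessel_1d (fun k : Fin 24 => (4 * (k : ℕ) : ℤ))
      (fun k l h => Fin.ext (by simpa using h)) 0 (by positivity : 0 < 2 * τ) cf
    have e1 : ∫ x in {x : Fin d → ℝ | c.F (x c.r0) < 2 * τ},
        c.u x ^ 2 * ‖∑ k : Fin 24, cf k * ex (4 * π * (k : ℕ) * c.zeta τ x)‖ ^ 2 =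
        ∫ y in Set.Icc (0 : ℝ) 1, (Set.Iio (2 * τ)).indicator g y := by
      rw [← c.push_real _ (gc.measurable.indicator measurableSet_Iio), ← integral_indicator Um]
      congr 1; ext x
      by_cases hx : c.F (x c.r0) < 2 * τ
      · simp only [Set.indicator, Set.mem_ofPred_eq, hx, if_true, Set.mem_Iio, g]
        congr 3
        refine Finset.sum_congr rfl fun k _ => ?_
        congr 2
        unfold zeta
        rw [min_eq_left hx.le]; push_cast; field_simp
      · simp [Set.indicator, hx]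
    rw [e1, hc, integral_indicator measurableSet_Iio,
      Measure.restrict_restrict measurableSet_Iio]
    have e2 : ∫ y in Set.Iio (2 * τ) ∩ Set.Icc 0 1, g y ≤ ∫ y in Set.Icc 0 (0 + 2 * τ), g y := by
      refine setIntegral_mono_set gc.integrableOn_Icc
        (Eventually.of_forall fun y => by simp only [g]; positivity) ?_
      refine LE.le.eventuallyLE fun y hy => ⟨hy.2.1, ?_⟩
      rw [zero_add]; exact le_of_lt hy.1
    have e3 : 0 ≤ ∑ k, ‖cf k‖ ^ 2 := by positivity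
    calc _ ≤ N / 24 * (2 * τ * ∑ k, ‖cf k‖ ^ 2) := by
          gcongr; exact e2.trans (le_of_eq b)
      _ = 1 / 2 * ∑ k, ‖cf k‖ ^ 2 := by rw [hτdef]; field_simp; ring
      _ ≤ _ := by gcongr
  · intro x; rw [hc]; simp
  · intro r h hh
    have hB := c.B0 r
    have h1 := c.amp_bound1 hτ (c.bet_m τ) (fun _ => abs_cos_le_one _) r hh (b := 0)
      (fun x => by simpa using betf_lip _ _)
    have h2 := c.tail_mass hτ (g := betf) (fun _ => abs_cos_le_one _) betf_two
    have h3 : ∑ k : Fin 24, (16 * (k : ℕ) * √(8 * c.B r / τ)) ^ 2 ≤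
        24 * ((16 * 24) ^ 2 * (8 * c.B r / τ)) := by
      calc _ ≤ ∑ k : Fin 24, ((16 * 24) ^ 2 * (8 * c.B r / τ)) := by
            refine Finset.sum_le_sum fun k _ => ?_
            rw [mul_pow _ √_, sq_sqrt (by positivity)]
            have : ((k : ℕ) : ℝ) ≤ 24 := by exact_mod_cast k.2.le
            gcongr
        _ = _ := by simp
    rw [hc, Fintype.card_fin]
    calc _ ≤ N / 24 * (24 : ℕ) * (h ^ 2 * (4 * 0 ^ 2 + 1026 * c.B r)) +
          h ^ 2 * (N / 24 * (24 * ((16 * 24) ^ 2 * (8 * c.B r / τ))) * (2 * τ)) := by gcongr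
      _ = h ^ 2 * (2360322 * N * c.B r) := by push_cast; field_simp; ring
      _ ≤ _ := by gcongr; norm_num

lemma phase_F (k : ℕ) (r : Fin d) {h : ℝ} (hh : 0 < h) (x : Fin d → ℝ) :
    |2 * π * k * c.F ((x + h • Pi.single r (1 : ℝ) : Fin d → ℝ) c.r0) -
      2 * π * k * c.F (x c.r0)| ≤ h * (16 * k * √(c.B r)) := by
  rw [← mul_sub, abs_mul, abs_of_nonneg (by positivity)]
  have h1 := c.F_shift x r hh
  have h2 := pi_le_four
  calc _ ≤ 2 * 4 * k * (h * (2 * √(c.B r))) := by gcongr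
    _ = _ := by ring

lemma famH {θ : ℝ} (hθ : 1 / 2 ≤ θ) (τ : ℝ) {N : ℕ} (hN : 0 < N) {A : (Fin d → ℝ) → ℝ}
    (Am : Measurable A) (A1 : ∀ x, |A x| ≤ 1)
    (mass : ∫ x, (c.u x * (A x * gamf (c.zeta τ x))) ^ 2 ≤ 1 / (N : ℝ) ^ 2) :
    Fam θ (c.lab τ) (fun x => (A x * gamf (c.zeta τ x)) ^ 2)
      (fun x => N * (c.u x * (A x * gamf (c.zeta τ x))) ^ 2)
      (fun r h => N * (∫ x, (c.u (x + h • Pi.single r (1 : ℝ)) *
        (A (x + h • Pi.single r (1 : ℝ)) * gamf (c.zeta τ (x + h • Pi.single r (1 : ℝ)))) -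
          c.u x * (A x * gamf (c.zeta τ x))) ^ 2) + h ^ 2 * (1024 * N * c.B r)) := by
  have hc : √(1 / 2) ^ 2 = (1 / 2 : ℝ) := sq_sqrt (by positivity)
  refine (Fam.sector (T := Fin (2 * N)) (A := fun x => A x * gamf (c.zeta τ x)) (by linarith) c.um c.u2 (Am.mul (c.gam_m τ))
    (fun x => ?_) √(1 / 2) (fun k x => 2 * π * (k : ℕ) * c.F (x c.r0))
    (fun k => c.Fm.const_mul _) MeasurableSet.univ (fun _ _ => Set.mem_univ _) ?_
    (fun k r => 16 * (k : ℕ) * √(c.B r))
    (fun k r h hh x => c.phase_F k r hh x) (fun a k => c.lab_gam τ a A _)).mono ?_ ?_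
  · rw [abs_mul]; exact mul_le_one₀ (A1 x) (abs_nonneg _) (abs_sin_le_one _)
  · intro cf
    have b := bessel_1d (fun k : Fin (2 * N) => ((k : ℕ) : ℤ))
      (fun k l h => Fin.ext (by simpa using h)) 0 one_pos cf
    simp only [zero_add, div_one, one_mul, Int.cast_natCast] at b
    have gc : Continuous fun y : ℝ => ‖∑ k : Fin (2 * N), cf k * ex (2 * π * (k : ℕ) * y)‖ ^ 2 := by
      have := continuous_ex
      fun_prop
    rw [Measure.restrict_univ, c.push_real _ gc.measurable, b, hc]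
    gcongr
  · intro x; rw [hc]; simp only [Fintype.card_fin]; push_cast; ring
  · intro r h hh
    have hB := c.B0 r
    have hN' : (0 : ℝ) < N := by exact_mod_cast hN
    have h3 : ∑ k : Fin (2 * N), (16 * (k : ℕ) * √(c.B r)) ^ 2 ≤
        2 * N * ((16 * (2 * N)) ^ 2 * c.B r) := by
      calc _ ≤ ∑ k : Fin (2 * N), ((16 * (2 * N)) ^ 2 * c.B r) := by
            refine Finset.sum_le_sum fun k _ => ?_
            rw [mul_pow _ √_, sq_sqrt (by positivity)]
            have : ((k : ℕ) : ℝ) ≤ 2 * N := by exact_mod_cast k.2.le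
            gcongr
        _ = _ := by simp
    rw [hc, Fintype.card_fin]
    refine add_le_add (le_of_eq (by congr 1; push_cast; ring)) ?_
    calc _ ≤ h ^ 2 * (1 / 2 * (2 * N * ((16 * (2 * N)) ^ 2 * c.B r)) * (1 / (N : ℝ) ^ 2)) := by
          gcongr
      _ = _ := by field_simp; ring

lemma famL {θ : ℝ} (hθ : 0 ≤ θ) (τ : ℝ) {N : ℝ} (hN : 0 ≤ N) {L : ℝ} (hL : 0 < L)
    (K : Finset (Fin d → ℤ)) (hK : 0 < K.card) {M : ℝ}
    (hM : N * M ^ 2 * L ^ d ≤ θ * K.card) {A : (Fin d → ℝ) → ℝ}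
    (Am : Measurable A) (A1 : ∀ x, |A x| ≤ 1) (hA : ∀ x, A x ≠ 0 → ‖x‖ ≤ L / 2 ∧ c.u x ≤ M) :
    Fam θ (c.lab τ) (fun x => (A x * gamf (c.zeta τ x)) ^ 2)
      (fun x => N * (c.u x * (A x * gamf (c.zeta τ x))) ^ 2)
      (fun r h => N * (∫ x, (c.u (x + h • Pi.single r (1 : ℝ)) *
        (A (x + h • Pi.single r (1 : ℝ)) * gamf (c.zeta τ (x + h • Pi.single r (1 : ℝ)))) -
          c.u x * (A x * gamf (c.zeta τ x))) ^ 2) +
        h ^ 2 * (N / K.card * (4 * π ^ 2 * ∑ k ∈ K, ((k r : ℝ) / L) ^ 2) *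
          ∫ x, (c.u x * (A x * gamf (c.zeta τ x))) ^ 2)) := by
  have hK' : (0 : ℝ) < K.card := by exact_mod_cast hK
  have hc : √(N / K.card) ^ 2 = N / K.card := sq_sqrt (by positivity)
  let Q : Set (Fin d → ℝ) := Set.univ.pi fun _ : Fin d => Set.Icc (-(L / 2)) (-(L / 2) + L)
  have Qm : MeasurableSet Q := MeasurableSet.univ_pi fun _ => measurableSet_Icc
  have Um : MeasurableSet (Q ∩ {x | c.u x ≤ M}) := Qm.inter (measurableSet_le c.um measurable_const)
  refine (Fam.sector (T := K) (A := fun x => A x * gamf (c.zeta τ x)) hθ c.um c.u2 (Am.mul (c.gam_m τ))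
    (fun x => ?_) √(N / K.card) (fun k x => ∑ r, 2 * π * (k.1 r : ℝ) * x r / L)
    (fun k => by fun_prop) Um ?_ ?_
    (fun k r => 2 * π * |(k.1 r : ℝ) / L|)
    ?_ (fun a k => c.lab_gam τ a A _)).mono ?_ ?_
  · rw [abs_mul]; exact mul_le_one₀ (A1 x) (abs_nonneg _) (abs_sin_le_one _)
  · intro x hx
    obtain ⟨h1, h2⟩ := hA x (left_ne_zero_of_mul hx)
    refine ⟨fun r _ => ?_, h2⟩
    have := abs_le.1 ((norm_le_pi_norm x r).trans h1)
    constructor <;> linarith [this.1, this.2]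
  · intro cf
    have b := bessel_cube (fun k : K => k.1) Subtype.val_injective (-(L / 2)) hL cf
    let g : (Fin d → ℝ) → ℝ := fun x =>
      ‖∑ k : K, cf k * ex (∑ r, 2 * π * (k.1 r : ℝ) * x r / L)‖ ^ 2
    have gc : Continuous g := by
      have := continuous_ex
      simp only [g]; fun_prop
    have gi : IntegrableOn g Q := gc.continuousOn.integrableOn_compact
      (isCompact_univ_pi fun _ => isCompact_Icc)
    have e1 : ∫ x in Q ∩ {x | c.u x ≤ M}, c.u x ^ 2 * g x ≤ M ^ 2 * ∫ x in Q, g x := by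
      rw [← integral_const_mul]
      calc _ ≤ ∫ x in Q ∩ {x | c.u x ≤ M}, M ^ 2 * g x := by
            refine integral_mono_of_nonneg (Eventually.of_forall fun x => by
              simp only [g]; positivity) ((gi.mono_set Set.inter_subset_left).const_mul _) ?_
            filter_upwards [ae_restrict_mem Um] with x hx
            have h0 := c.u0 x
            have h1 : c.u x ≤ M := hx.2
            have : 0 ≤ g x := by simp only [g]; positivity
            gcongr
        _ ≤ _ := setIntegral_mono_set (gi.const_mul _)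
            (Eventually.of_forall fun x => by simp only [g]; positivity)
            (LE.le.eventuallyLE Set.inter_subset_left)
    have e3 : 0 ≤ ∑ k, ‖cf k‖ ^ 2 := by positivity
    rw [hc]
    calc _ ≤ N / K.card * (M ^ 2 * (L ^ d * ∑ k, ‖cf k‖ ^ 2)) := by
          gcongr; exact e1.trans (le_of_eq (by rw [← b]))
      _ = (N * M ^ 2 * L ^ d) / K.card * ∑ k, ‖cf k‖ ^ 2 := by ring
      _ ≤ _ := by gcongr; rwa [div_le_iff₀ hK']
  · intro k r h hh x
    rw [← Finset.sum_sub_distrib, Finset.sum_eq_single r]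
    · simp only [Pi.add_apply, Pi.smul_apply, Pi.single_eq_same, smul_eq_mul, mul_one]
      have : 2 * π * (k.1 r : ℝ) * (x r + h) / L - 2 * π * (k.1 r : ℝ) * x r / L =
        (h * (2 * π)) * ((k.1 r : ℝ) / L) := by ring
      rw [this, abs_mul, abs_of_pos (by positivity), mul_assoc]
    · intro r' _ hr'
      simp [Pi.single_eq_of_ne hr']
    · simp
  · intro x; rw [hc]; simp only [Fintype.card_coe]; field_simp
  · intro r h hh
    rw [hc, Fintype.card_coe]
    refine le_of_eq ?_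
    congr 1
    · field_simp
    · congr 3
      rw [Finset.mul_sum, ← Finset.sum_coe_sort K]
      refine Finset.sum_congr rfl fun k _ => ?_
      rw [mul_pow, sq_abs]; ring

end Ctx

end Pool.Agent.Lib.MP_ae5e3b_mp
end

-- part Pool.Agent.Lib.MP_ae5e3b_mp.SFm
section

open MeasureTheory Matrix Real
open scoped ComplexConjugate ComplexOrder

set_option linter.unusedSectionVars false

namespace Pool.Agent.Lib.MP_ae5e3b_mp.Sh

variable {d : ℕ}

variable {θ θ' : ℝ} {w w' ρ : (Fin d → ℝ) → ℝ} {lab : ℕ → (Fin d → ℝ) → ℂ} {En : Fin d → ℝ → ℝ}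

lemma SFm_int {E : Type} [NormedAddCommGroup E] {χ : (Fin d → ℝ) → E} (h : MemLp χ 2 volume) :
    Integrable fun x => ‖χ x‖ ^ 2 := (memLp_two_iff_integrable_sq_norm h.1).1 h

lemma SFm_shift {E : Type} [NormedAddCommGroup E] {χ : (Fin d → ℝ) → E} (h : MemLp χ 2 volume)
    (y : Fin d → ℝ) : MemLp (fun x => χ (x + y) - χ x) 2 volume :=
  (h.comp_measurePreserving (measurePreserving_add_right volume y)).sub h

lemma SFm_mul {a : (Fin d → ℝ) → ℝ} (am : Measurable a) (a0 : ∀ x, 0 ≤ a x) (a1 : ∀ x, a x ≤ 1)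
    {χ : (Fin d → ℝ) → ℂ} (h : MemLp χ 2 volume) : MemLp (fun x => (a x : ℂ) * χ x) 2 volume := by
  refine h.of_le ((Complex.measurable_ofReal.comp am).aestronglyMeasurable.mul h.1)
    (Filter.Eventually.of_forall fun x => ?_)
  rw [norm_mul, Complex.norm_real, Real.norm_eq_abs, abs_of_nonneg (a0 x)]
  exact mul_le_of_le_one_left (norm_nonneg _) (a1 x)

lemma SFm_pt (a b : ℝ) (z u : ℂ) :
    ‖(a : ℂ) * z - (b : ℂ) * u‖ ^ 2 =
      (a - b) * (a * ‖z‖ ^ 2 - b * ‖u‖ ^ 2) + a * b * ‖z - u‖ ^ 2 := by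
  simp only [← Complex.normSq_eq_norm_sq, Complex.normSq_apply, Complex.sub_re, Complex.sub_im,
    Complex.mul_re, Complex.mul_im, Complex.ofReal_re, Complex.ofReal_im]
  ring

/-- Enlarging the weight to a constant. -/
lemma Fam_const (hθ : 0 ≤ θ) (h : Fam θ lab w ρ En) (hw : ∀ x, θ * w x ≤ θ') :
    Fam θ' lab (fun _ => 1) ρ En := by
  have _h := hθ
  obtain ⟨ι, _, v, a1, a2, a3, a4, a5, a6⟩ := h
  refine ⟨ι, inferInstance, v, a1, a2, fun χ hχ => ⟨?_, ?_⟩, a4, a5, a6⟩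
  · exact (SFm_int hχ).const_mul 1
  · obtain ⟨b1, b2⟩ := a3 χ hχ
    refine b2.trans ?_
    rw [← integral_const_mul, ← integral_const_mul]
    refine integral_mono (b1.const_mul θ) (((SFm_int hχ).const_mul 1).const_mul θ') fun x => ?_
    have h1 := mul_le_mul_of_nonneg_right (hw x) (sq_nonneg ‖χ x‖)
    simp only
    linarith
lemma Fam_smul {c : ℝ} (hc : 0 ≤ c) (h : Fam θ lab w ρ En) :
    Fam θ lab (fun x => c * w x) (fun x => c * ρ x) fun r t => c * En r t := by
  obtain ⟨ι, _, v, a1, a2, a3, a4, a5, a6⟩ := h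
  have hn : ∀ z : ℂ, ‖((√c : ℝ) : ℂ) * z‖ ^ 2 = c * ‖z‖ ^ 2 := by
    intro z
    rw [norm_mul, mul_pow, Complex.norm_real, Real.norm_eq_abs, sq_abs, Real.sq_sqrt hc]
  refine ⟨ι, inferInstance, fun i x => ((√c : ℝ) : ℂ) * v i x, fun i => (a1 i).const_mul _,
    fun i => (a2 i).const_mul _, fun χ hχ => ⟨?_, ?_⟩, fun x => ?_, fun r t ht => ?_,
    fun n i => ?_⟩
  · simpa only [mul_assoc] using (a3 χ hχ).1.const_mul c
  · have e : ∀ i, ∫ x, conj (((√c : ℝ) : ℂ) * v i x) * χ x =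
        ((√c : ℝ) : ℂ) * ∫ x, conj (v i x) * χ x := by
      intro i
      simp only [map_mul, Complex.conj_ofReal, mul_assoc, integral_const_mul]
    simp only [e, hn, ← Finset.mul_sum, mul_assoc, integral_const_mul]
    have h1 := mul_le_mul_of_nonneg_left (a3 χ hχ).2 hc
    linarith
  · simp only [hn, ← Finset.mul_sum, a4]
  · simp only [← mul_sub, hn, integral_const_mul, ← Finset.mul_sum]
    exact mul_le_mul_of_nonneg_left (a5 r t ht) hc
  · simp only [mul_left_comm _ ((√c : ℝ) : ℂ), integral_const_mul, a6, mul_zero]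
/-- Multiplication of a family by an amplitude of constant sign. -/
lemma Fam_mul {m a : (Fin d → ℝ) → ℝ} (hθ : 0 ≤ θ) (mm : Measurable m) (m0 : ∀ x, 0 ≤ m x)
    (am : Measurable a) (a0 : ∀ x, 0 ≤ a x) (a1 : ∀ x, a x ≤ 1)
    (h : Fam θ (fun _ _ => 0) (fun _ => 1) (fun x => m x ^ 2) En)
    (hl : ∀ n x, lab n x * (a x : ℂ) = 0) (hE : ∀ r t, 0 < t → 0 ≤ En r t) :
    Fam θ lab (fun x => a x ^ 2) (fun x => (a x * m x) ^ 2) fun r t => En r t +
      ∫ x, (a (x + t • Pi.single r (1 : ℝ)) * m (x + t • Pi.single r (1 : ℝ)) - a x * m x) ^ 2 := by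
  have _h1 := hθ
  have _h2 := hE
  obtain ⟨ι, _, v, b1, b2, b3, b4, b5, _⟩ := h
  have hn : ∀ x (z : ℂ), ‖(a x : ℂ) * z‖ ^ 2 = a x ^ 2 * ‖z‖ ^ 2 := by
    intro x z
    rw [norm_mul, mul_pow, Complex.norm_real, Real.norm_eq_abs, sq_abs]
  have hm2 : MemLp m 2 volume := by
    rw [memLp_two_iff_integrable_sq mm.aestronglyMeasurable]
    simp only [← b4]
    exact integrable_finsetSum _ fun i _ => SFm_int (b2 i)
  have ham : MemLp (fun x => a x * m x) 2 volume := by
    refine hm2.of_le (am.mul mm).aestronglyMeasurable (Filter.Eventually.of_forall fun x => ?_)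
    rw [Real.norm_eq_abs, Real.norm_eq_abs, abs_of_nonneg (mul_nonneg (a0 x) (m0 x)),
      abs_of_nonneg (m0 x)]
    exact mul_le_of_le_one_left (m0 x) (a1 x)
  refine ⟨ι, inferInstance, fun i x => (a x : ℂ) * v i x,
    fun i => (Complex.measurable_ofReal.comp am).mul (b1 i), fun i => SFm_mul am a0 a1 (b2 i),
    fun χ hχ => ⟨?_, ?_⟩, fun x => ?_, fun r t ht => ?_, fun n i => ?_⟩
  · simpa only [hn] using SFm_int (SFm_mul am a0 a1 hχ)
  · have h1 := (b3 _ (SFm_mul am a0 a1 hχ)).2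
    simp only [hn, one_mul] at h1
    refine le_of_eq_of_le ?_ h1
    refine Finset.sum_congr rfl fun i _ => ?_
    congr 3
    funext x
    rw [map_mul, Complex.conj_ofReal]
    ring
  · simp only [hn, ← Finset.mul_sum, b4, mul_pow]
  · set y : Fin d → ℝ := t • Pi.single r (1 : ℝ) with hy
    have i1 : ∀ i, Integrable fun x => ‖(a (x + y) : ℂ) * v i (x + y) - (a x : ℂ) * v i x‖ ^ 2 :=
      fun i => SFm_int (SFm_shift (SFm_mul am a0 a1 (b2 i)) y)
    have i2 : ∀ i, Integrable fun x => ‖v i (x + y) - v i x‖ ^ 2 :=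
      fun i => SFm_int (SFm_shift (b2 i) y)
    have i3 : Integrable fun x => (a (x + y) * m (x + y) - a x * m x) ^ 2 := by
      simpa only [Real.norm_eq_abs, sq_abs] using SFm_int (SFm_shift ham y)
    have i4 : Integrable fun x => ∑ i, ‖v i (x + y) - v i x‖ ^ 2 :=
      integrable_finsetSum _ fun i _ => i2 i
    refine le_trans ?_ (add_le_add_left (b5 r t ht) _)
    rw [← integral_finsetSum _ fun i _ => i1 i, ← integral_finsetSum _ fun i _ => i2 i,
      ← integral_add i4 i3]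
    refine integral_mono (integrable_finsetSum _ fun i _ => i1 i) (i4.add i3) fun x => ?_
    simp only [SFm_pt, Finset.sum_add_distrib, ← Finset.mul_sum, Finset.sum_sub_distrib, b4]
    have h0 : 0 ≤ ∑ i, ‖v i (x + y) - v i x‖ ^ 2 := Finset.sum_nonneg fun i _ => sq_nonneg _
    have h1 : a (x + y) * a x ≤ 1 := mul_le_one₀ (a1 _) (a0 _) (a1 _)
    have h2 := mul_le_mul_of_nonneg_right h1 h0
    have h3 := mul_nonneg (mul_nonneg (a0 (x + y)) (a0 x)) (sq_nonneg (m (x + y) - m x))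
    nlinarith
  · have e : ∀ x, conj (lab n x) * ((a x : ℂ) * v i x) = 0 := by
      intro x
      have h1 := congrArg conj (hl n x)
      rw [map_mul, Complex.conj_ofReal, map_zero] at h1
      rw [← mul_assoc, h1, zero_mul]
    simp only [e, integral_zero]
lemma RFam.add {E E' : Fin d → ℝ} {ρ' : (Fin d → ℝ) → ℝ} (h : RFam θ w ρ E) (h' : RFam θ w' ρ' E') :
    RFam θ (fun x => w x + w' x) (fun x => ρ x + ρ' x) fun r => E r + E' r :=
  ⟨fun r => add_nonneg (h.1 r) (h'.1 r),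
    (h.2.add h'.2).mono (fun _ => rfl) fun _ _ _ => (mul_add _ _ _).ge⟩
lemma RFam.sum {S : Type} (s : Finset S) {w ρ : S → (Fin d → ℝ) → ℝ} {E : S → Fin d → ℝ}
    (h : ∀ j ∈ s, RFam θ (w j) (ρ j) (E j)) :
    RFam θ (fun x => ∑ j ∈ s, w j x) (fun x => ∑ j ∈ s, ρ j x) fun r => ∑ j ∈ s, E j r :=
  ⟨fun r => Finset.sum_nonneg fun j hj => (h j hj).1 r,
    (Fam.sum s fun j hj => (h j hj).2).mono (fun _ => rfl) fun _ _ _ => (Finset.mul_sum _ _ _).ge⟩
lemma RFam.congr {E : Fin d → ℝ} {ρ' : (Fin d → ℝ) → ℝ} (h : RFam θ w ρ E) (e : ∀ x, ρ x = ρ' x) :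
    RFam θ w ρ' E := ⟨h.1, h.2.mono e fun _ _ _ => le_rfl⟩
lemma RFam.const {E : Fin d → ℝ} (hθ : 0 ≤ θ) (h : RFam θ w ρ E) (hw : ∀ x, θ * w x ≤ θ') :
    RFam θ' (fun _ => 1) ρ E := ⟨h.1, Fam_const hθ h.2 hw⟩

end Pool.Agent.Lib.MP_ae5e3b_mp.Sh
end
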