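import Pool.Agent.Lib.MP_ae5e3b_mp.SCa

open MeasureTheory Matrix Real
open scoped ComplexConjugate ComplexOrder

set_option linter.unusedSectionVars false

namespace Pool.Agent.Lib.MP_ae5e3b_mp.Sh

variable {d : ℕ}

/-- The translate of the basic cube with index `m`, seen on the torus of side `n * L₁`. -/
noncomputable def cell (L₁ : ℝ) (n : ℕ) (m : Fin d → Fin n) (y : Fin d → ℝ) : Tor d :=
  prj (n * L₁) fun r => y r + L₁ * (m r : ℕ)

/-- The basic cube. -/
def cube (d : ℕ) (L₁ : ℝ) : Set (Fin d → ℝ) := Set.univ.pi fun _ => Set.Ico (-(L₁ / 2)) (L₁ / 2)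

lemma measurableSet_cube (L₁ : ℝ) : MeasurableSet (cube d L₁) :=
  MeasurableSet.univ_pi fun _ => measurableSet_Ico

lemma STr1_cont_prj (L : ℝ) : Continuous (prj L : (Fin d → ℝ) → Tor d) := by
  unfold prj
  refine continuous_pi fun r => ?_
  have h : Continuous fun y : Fin d → ℝ => y r / L := by fun_prop
  exact (AddCircle.continuous_mk' (1 : ℝ)).comp h

lemma continuous_cell (L₁ : ℝ) (n : ℕ) (m : Fin d → Fin n) : Continuous (cell L₁ n m) := by
  unfold cell
  exact (STr1_cont_prj _).comp (continuous_pi fun r => (continuous_apply r).add continuous_const)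

lemma STr1_prj_mv (L : ℝ) (z : Fin d → ℝ) (r : Fin d) (t : ℝ) :
    mv L r (prj L z) t = prj L (z + t • Pi.single r (1 : ℝ)) := by
  funext s
  simp only [mv, prj, Pi.add_apply, Pi.smul_apply, smul_eq_mul]
  by_cases h : s = r
  · subst h
    simp only [Pi.single_eq_same, mul_one, add_div]
    rfl
  · simp only [Pi.single_eq_of_ne h, mul_zero, add_zero]

lemma cell_mv (L₁ : ℝ) (n : ℕ) (m : Fin d → Fin n) (y : Fin d → ℝ) (r : Fin d) (t : ℝ) :
    mv (n * L₁) r (cell L₁ n m y) t = cell L₁ n m (y + t • Pi.single r (1 : ℝ)) := by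
  unfold cell
  rw [STr1_prj_mv]
  congr 1
  funext s
  simp only [Pi.add_apply]
  ring

/-- The one dimensional cell map. -/
noncomputable def STr1_c (L₁ : ℝ) (n : ℕ) (k : ℕ) (y : ℝ) : UnitAddCircle :=
  (((y + L₁ * k) / (n * L₁) : ℝ) : UnitAddCircle)

lemma STr1_cont_c (L₁ : ℝ) (n k : ℕ) : Continuous (STr1_c L₁ n k) :=
  (AddCircle.continuous_mk' (1 : ℝ)).comp ((continuous_id.add continuous_const).div_const _)

lemma STr1_floor {L₁ : ℝ} (hL : 0 < L₁) {y : ℝ} (hy : y ∈ Set.Ico (-(L₁ / 2)) (L₁ / 2)) (k : ℤ) :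
    ⌊(y + L₁ * k) / L₁ + 1 / 2⌋ = k := by
  rw [Int.floor_eq_iff]
  have h1 : (y + L₁ * k) / L₁ = y / L₁ + k := by field_simp
  have h2 : -(1 / 2) ≤ y / L₁ := by rw [le_div_iff₀ hL]; linarith [hy.1]
  have h3 : y / L₁ < 1 / 2 := by rw [div_lt_iff₀ hL]; linarith [hy.2]
  constructor <;> linarith

lemma STr1_sub_mem {L₁ : ℝ} (hL : 0 < L₁) (z : ℝ) :
    z - L₁ * ⌊z / L₁ + 1 / 2⌋ ∈ Set.Ico (-(L₁ / 2)) (L₁ / 2) := by
  have h1 := Int.floor_le (z / L₁ + 1 / 2)
  have h2 := Int.lt_floor_add_one (z / L₁ + 1 / 2)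
  have h3 : z = L₁ * (z / L₁) := by field_simp
  constructor <;> nlinarith

lemma STr1_cell1 {L₁ : ℝ} (hL : 0 < L₁) {n : ℕ} (hn : 0 < n) :
    ∃ (idx : UnitAddCircle → Fin n) (pos : UnitAddCircle → ℝ), Measurable idx ∧ Measurable pos ∧
      (∀ x, pos x ∈ Set.Ico (-(L₁ / 2)) (L₁ / 2) ∧ STr1_c L₁ n (idx x) (pos x) = x) ∧
      ∀ (m : Fin n) y, y ∈ Set.Ico (-(L₁ / 2)) (L₁ / 2) →
        idx (STr1_c L₁ n m y) = m ∧ pos (STr1_c L₁ n m y) = y := by
  have hn' : (0 : ℝ) < n := by exact_mod_cast hn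
  set a : ℝ := -(1 / (2 * n)) with ha
  let z : UnitAddCircle → ℝ := fun x => n * L₁ * (AddCircle.equivIco 1 a x : ℝ)
  have hz : Measurable z := by
    refine measurable_const.mul (measurable_subtype_coe.comp ?_)
    exact (AddCircle.measurableEquivIco 1 a).measurable
  let k : UnitAddCircle → ℤ := fun x => ⌊z x / L₁ + 1 / 2⌋
  have hk : Measurable k := Int.measurable_floor.comp ((hz.div_const _).add_const _)
  let φ : ℤ → Fin n := fun j => if h : j.toNat < n then ⟨j.toNat, h⟩ else ⟨0, hn⟩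
  have hφ : ∀ j : ℤ, 0 ≤ j → j < n → ((φ j : ℕ) : ℤ) = j := by
    intro j h0 h1
    have h : j.toNat < n := by omega
    simp only [φ, dif_pos h]
    omega
  have hna : (n : ℝ) * a = -(1 / 2) := by rw [ha]; field_simp
  have hkb : ∀ x, 0 ≤ k x ∧ k x < n := by
    intro x
    have h1 := (AddCircle.equivIco 1 a x).2
    have h2 : z x / L₁ = n * (AddCircle.equivIco 1 a x : ℝ) := by simp only [z]; field_simp
    constructor
    · rw [Int.floor_nonneg, h2]
      nlinarith [h1.1]
    · rw [Int.floor_lt, h2]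
      push_cast
      nlinarith [h1.2]
  refine ⟨fun x => φ (k x), fun x => z x - L₁ * k x, (measurable_from_top (f := φ)).comp hk,
    hz.sub (measurable_const.mul ((measurable_from_top (f := fun j : ℤ => (j : ℝ))).comp hk)),
    fun x => ⟨STr1_sub_mem hL _, ?_⟩, fun m y hy => ?_⟩
  · have h1 : (((φ (k x) : ℕ) : ℝ)) = (k x : ℝ) := by
      exact_mod_cast hφ _ (hkb x).1 (hkb x).2
    unfold STr1_c
    rw [h1]
    have h2 : (z x - L₁ * k x + L₁ * k x) / (n * L₁) = (AddCircle.equivIco 1 a x : ℝ) := by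
      simp only [z]; field_simp; ring
    rw [h2]
    exact (AddCircle.equivIco 1 a).symm_apply_apply x
  · have hm : ((m : ℕ) : ℝ) + 1 ≤ n := by exact_mod_cast m.2
    have hm0 : (0 : ℝ) ≤ (m : ℕ) := by positivity
    have hmem : (y + L₁ * (m : ℕ)) / (n * L₁) ∈ Set.Ico a (a + 1) := by
      constructor
      · rw [le_div_iff₀ (by positivity)]
        have : a * (n * L₁) = -(L₁ / 2) := by rw [← mul_assoc, mul_comm a, hna]; ring
        nlinarith [hy.1]
      · rw [div_lt_iff₀ (by positivity)]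
        have : (a + 1) * (n * L₁) = -(L₁ / 2) + n * L₁ := by
          rw [add_mul, ← mul_assoc, mul_comm a, hna]; ring
        nlinarith [hy.2]
    have h1 : z (STr1_c L₁ n m y) = y + L₁ * (m : ℕ) := by
      simp only [z, STr1_c]
      rw [AddCircle.equivIco_coe_eq hmem]
      field_simp
    have h2 : k (STr1_c L₁ n m y) = ((m : ℕ) : ℤ) := by
      simp only [k]
      rw [h1]
      exact_mod_cast STr1_floor hL hy ((m : ℕ) : ℤ)
    constructor
    · apply Fin.ext
      have := hφ ((m : ℕ) : ℤ) (by positivity) (by exact_mod_cast m.2)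
      simp only [h2]
      exact_mod_cast this
    · simp only [h1, h2]
      push_cast
      ring

/-- Every point of the torus lies in exactly one cell. -/
lemma exists_cell {L₁ : ℝ} (hL : 0 < L₁) {n : ℕ} (hn : 0 < n) :
    ∃ (idx : Tor d → Fin d → Fin n) (pos : Tor d → Fin d → ℝ), Measurable idx ∧ Measurable pos ∧
      (∀ x, pos x ∈ cube d L₁ ∧ cell L₁ n (idx x) (pos x) = x) ∧
      ∀ m y, y ∈ cube d L₁ → idx (cell L₁ n m y) = m ∧ pos (cell L₁ n m y) = y := by
  obtain ⟨i, p, hi, hp, h1, h2⟩ := STr1_cell1 hL hn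
  refine ⟨fun x r => i (x r), fun x r => p (x r),
    measurable_pi_lambda _ fun r => hi.comp (measurable_pi_apply r),
    measurable_pi_lambda _ fun r => hp.comp (measurable_pi_apply r),
    fun x => ⟨fun r _ => (h1 (x r)).1, funext fun r => (h1 (x r)).2⟩,
    fun m y hy => ⟨funext fun r => (h2 (m r) (y r) (hy r trivial)).1,
      funext fun r => (h2 (m r) (y r) (hy r trivial)).2⟩⟩

lemma STr1_split (T : Set ℝ) (hT : MeasurableSet T) (a : ℝ) {h : ℝ} (hh : 0 ≤ h) (n : ℕ) :
    ∑ k ∈ Finset.range n, volume (T ∩ Set.Ico (a + k * h) (a + (k + 1) * h)) =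
      volume (T ∩ Set.Ico a (a + n * h)) := by
  induction n with
  | zero => simp
  | succ n ih =>
    rw [Finset.sum_range_succ, ih, ← measure_union _ (hT.inter measurableSet_Ico),
      ← Set.inter_union_distrib_left, Set.Ico_union_Ico_eq_Ico]
    · push_cast; rfl
    · have : (0 : ℝ) ≤ n * h := by positivity
      linarith
    · nlinarith
    · refine Set.disjoint_left.2 fun x hx hx' => ?_
      exact absurd hx.2.2 (not_lt.2 hx'.2.1)

lemma STr1_vol1 {L₁ : ℝ} (hL : 0 < L₁) {n : ℕ} (hn : 0 < n) (s : Set UnitAddCircle)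
    (hs : MeasurableSet s) :
    ∑ k : Fin n, volume (STr1_c L₁ n k ⁻¹' s ∩ Set.Ico (-(L₁ / 2)) (L₁ / 2)) =
      ENNReal.ofReal (n * L₁) * volume s := by
  have hn' : (0 : ℝ) < n := by exact_mod_cast hn
  set a : ℝ := -(1 / (2 * n)) with ha
  set T : Set ℝ := ((↑) : ℝ → UnitAddCircle) ⁻¹' s with hTd
  have hT : MeasurableSet T := (AddCircle.continuous_mk' (1 : ℝ)).measurable hs
  have h1 : volume s = volume (T ∩ Set.Ico a (a + n * (1 / n))) := by
    have h := (UnitAddCircle.measurePreserving_mk a).measure_preimage hs.nullMeasurableSet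
    rw [← h, Measure.restrict_apply hT, mul_one_div_cancel hn'.ne']
    exact measure_congr ((ae_eq_refl _).inter Ico_ae_eq_Ioc.symm)
  rw [h1, ← STr1_split T hT a (by positivity) n, Finset.mul_sum,
    ← Fin.sum_univ_eq_sum_range (fun k => ENNReal.ofReal (n * L₁) *
      volume (T ∩ Set.Ico (a + k * (1 / n)) (a + (k + 1) * (1 / n)))) n]
  refine Finset.sum_congr rfl fun k _ => ?_
  have hpos : 0 < n * L₁ := by positivity
  have h2 : STr1_c L₁ n k ⁻¹' s ∩ Set.Ico (-(L₁ / 2)) (L₁ / 2) =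
      (fun y => y + L₁ * (k : ℕ)) ⁻¹' ((fun y => y * (n * L₁)⁻¹) ⁻¹'
        (T ∩ Set.Ico (a + (k : ℕ) * (1 / n)) (a + ((k : ℕ) + 1) * (1 / n)))) := by
    ext y
    simp only [Set.mem_inter_iff, Set.mem_preimage, Set.mem_Ico, hTd, STr1_c, ← div_eq_mul_inv]
    have e1 : (a + (k : ℕ) * (1 / n)) * (n * L₁) = -(L₁ / 2) + L₁ * (k : ℕ) := by
      rw [ha]; field_simp
    have e2 : (a + ((k : ℕ) + 1) * (1 / n)) * (n * L₁) = L₁ / 2 + L₁ * (k : ℕ) := by
      rw [ha]; field_simp; ring
    rw [le_div_iff₀ hpos, div_lt_iff₀ hpos, e1, e2]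
    simp only [add_le_add_iff_right, add_lt_add_iff_right]
  rw [h2, measure_preimage_add_right, Real.volume_preimage_mul_right (inv_ne_zero hpos.ne'),
    inv_inv, abs_of_pos hpos]

lemma STr1_vol {L₁ : ℝ} (hL : 0 < L₁) {n : ℕ} (hn : 0 < n) :
    (volume : Measure (Tor d)) = (ENNReal.ofReal ((n * L₁) ^ d))⁻¹ •
      ∑ m : Fin d → Fin n, Measure.map (cell L₁ n m) (volume.restrict (cube d L₁)) := by
  have hn' : (0 : ℝ) < n := by exact_mod_cast hn
  have hpos : 0 < n * L₁ := by positivity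
  refine Measure.pi_eq fun s hs => ?_
  rw [Measure.smul_apply, Measure.finsetSum_apply]
  have h1 : ∀ m : Fin d → Fin n,
      Measure.map (cell L₁ n m) (volume.restrict (cube d L₁)) (Set.univ.pi s) =
        ∏ r, volume (STr1_c L₁ n (m r) ⁻¹' s r ∩ Set.Ico (-(L₁ / 2)) (L₁ / 2)) := by
    intro m
    have hms : MeasurableSet (Set.univ.pi s) := MeasurableSet.univ_pi hs
    rw [Measure.map_apply (continuous_cell L₁ n m).measurable hms,
      Measure.restrict_apply ((continuous_cell L₁ n m).measurable hms), ← volume_pi_pi]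
    congr 1
    ext y
    simp only [Set.mem_inter_iff, Set.mem_preimage, Set.mem_pi, Set.mem_univ, true_imp_iff, cube,
      forall_and]
    rfl
  simp only [h1]
  rw [← Fintype.piFinset_univ, ← Finset.prod_univ_sum (fun _ => Finset.univ)
    (fun r (k : Fin n) => volume (STr1_c L₁ n k ⁻¹' s r ∩ Set.Ico (-(L₁ / 2)) (L₁ / 2)))]
  simp only [fun r => STr1_vol1 hL hn (s r) (hs r)]
  rw [Finset.prod_mul_distrib, Finset.prod_const, Finset.card_univ, Fintype.card_fin,
    ← ENNReal.ofReal_pow hpos.le, smul_eq_mul, ← mul_assoc, ENNReal.inv_mul_cancel, one_mul]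
  · exact (ENNReal.ofReal_pos.2 (by positivity)).ne'
  · exact ENNReal.ofReal_ne_top

/-- Integrals over the torus, cell by cell. -/
lemma integral_cells {E : Type} [NormedAddCommGroup E] [NormedSpace ℝ E] {L₁ : ℝ} (hL : 0 < L₁)
    {n : ℕ} (hn : 0 < n) {F : Tor d → E} (hF : Integrable F) :
    (∀ m : Fin d → Fin n, IntegrableOn (fun y => F (cell L₁ n m y)) (cube d L₁)) ∧
    ((n * L₁) ^ d : ℝ) • ∫ x, F x = ∑ m : Fin d → Fin n, ∫ y in cube d L₁, F (cell L₁ n m y) := by
  have hn' : (0 : ℝ) < n := by exact_mod_cast hn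
  have hpos : 0 < (n * L₁) ^ d := by positivity
  have h0 : (ENNReal.ofReal ((n * L₁) ^ d))⁻¹ ≠ 0 := ENNReal.inv_ne_zero.2 ENNReal.ofReal_ne_top
  have ht : (ENNReal.ofReal ((n * L₁) ^ d))⁻¹ ≠ ⊤ :=
    ENNReal.inv_ne_top.2 (ENNReal.ofReal_pos.2 hpos).ne'
  have h1 := hF
  rw [STr1_vol hL hn, integrable_smul_measure h0 ht, integrable_finsetSum_measure] at h1
  constructor
  · intro m
    have h2 := h1 m (Finset.mem_univ m)
    exact (integrable_map_measure h2.1 (continuous_cell L₁ n m).measurable.aemeasurable).1 h2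
  · conv_lhs => rw [STr1_vol hL hn]
    rw [integral_smul_measure, integral_finsetSum_measure h1, ENNReal.toReal_inv,
      ENNReal.toReal_ofReal hpos.le, smul_smul, mul_inv_cancel₀ hpos.ne', one_smul]
    refine Finset.sum_congr rfl fun m hm => ?_
    exact integral_map (continuous_cell L₁ n m).measurable.aemeasurable (h1 m hm).1

/-- Conversely, integrability on the torus from integrability on the cells. -/
lemma integrable_of_cells {E : Type} [NormedAddCommGroup E] {L₁ : ℝ} (hL : 0 < L₁)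
    {n : ℕ} (hn : 0 < n) {F : Tor d → E} (hm : AEStronglyMeasurable F volume)
    (hF : ∀ m : Fin d → Fin n, IntegrableOn (fun y => F (cell L₁ n m y)) (cube d L₁)) :
    Integrable F := by
  have hn' : (0 : ℝ) < n := by exact_mod_cast hn
  have hpos : 0 < (n * L₁) ^ d := by positivity
  have h0 : (ENNReal.ofReal ((n * L₁) ^ d))⁻¹ ≠ 0 := ENNReal.inv_ne_zero.2 ENNReal.ofReal_ne_top
  have ht : (ENNReal.ofReal ((n * L₁) ^ d))⁻¹ ≠ ⊤ :=
    ENNReal.inv_ne_top.2 (ENNReal.ofReal_pos.2 hpos).ne'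
  rw [STr1_vol hL hn] at hm
  rw [STr1_vol hL hn, integrable_smul_measure h0 ht, integrable_finsetSum_measure]
  intro m hmm
  have h2 : AEStronglyMeasurable F (Measure.map (cell L₁ n m) (volume.restrict (cube d L₁))) := by
    refine hm.mono_ac ?_
    refine Measure.AbsolutelyContinuous.trans ?_ (Measure.absolutelyContinuous_smul h0)
    exact Measure.absolutelyContinuous_of_le
      (Finset.single_le_sum (f := fun m : Fin d → Fin n =>
        Measure.map (cell L₁ n m) (volume.restrict (cube d L₁)))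
        (fun _ _ => Measure.zero_le _) hmm)
  exact (integrable_map_measure h2 (continuous_cell L₁ n m).measurable.aemeasurable).2 (hF m)

lemma STr1_quot {L : ℝ} (hL : 0 < L) : IsOpenQuotientMap (prj L : (Fin d → ℝ) → Tor d) := by
  have h1 : IsOpenQuotientMap fun y : ℝ => ((y / L : ℝ) : UnitAddCircle) := by
    have h2 : IsOpenQuotientMap ((↑) : ℝ → UnitAddCircle) := QuotientAddGroup.isOpenQuotientMap_mk
    have h3 := (Homeomorph.mulRight₀ L⁻¹ (inv_ne_zero hL.ne')).isOpenQuotientMap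
    have h4 := h2.comp h3
    convert h4 using 1
    funext y
    simp [div_eq_mul_inv]
  exact IsOpenQuotientMap.piMap fun _ : Fin d => h1

lemma STr1_prj_eq {L : ℝ} (hL : 0 < L) {z z' : Fin d → ℝ} (h : prj L z = prj L z') :
    ∃ k : Fin d → ℤ, z' = z + fun r => L * k r := by
  have h1 : ∀ r, ∃ k : ℤ, z' r = z r + L * k := by
    intro r
    have h2 : ((z r / L : ℝ) : UnitAddCircle) = ((z' r / L : ℝ) : UnitAddCircle) := congrFun h r
    obtain ⟨k, hk⟩ := AddSubgroup.mem_zmultiples_iff.1 (QuotientAddGroup.eq.1 h2)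
    refine ⟨k, ?_⟩
    rw [zsmul_eq_mul, mul_one] at hk
    rw [hk]
    field_simp
    ring
  choose k hk using h1
  exact ⟨k, funext hk⟩

/-- Descent of a periodic continuous function to the torus. -/
lemma STr1_desc {L : ℝ} (hL : 0 < L) {F : (Fin d → ℝ) → ℝ} (hF : Continuous F)
    (hp : ∀ (k : Fin d → ℤ) z, F (z + fun r => L * k r) = F z) :
    ∃ G : Tor d → ℝ, Continuous G ∧ ∀ z, G (prj L z) = F z := by
  have hq := STr1_quot (d := d) hL
  have h1 : ∀ z, F (Function.surjInv hq.surjective (prj L z)) = F z := by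
    intro z
    obtain ⟨k, hk⟩ := STr1_prj_eq hL (Function.surjInv_eq hq.surjective (prj L z)).symm
    rw [hk, hp]
  refine ⟨fun x => F (Function.surjInv hq.surjective x), ?_, h1⟩
  rw [hq.isQuotientMap.continuous_iff]
  convert hF using 1
  funext z
  exact h1 z

/-- Reduction to the basic cube. -/
noncomputable def STr1_red (L₁ : ℝ) (z : Fin d → ℝ) : Fin d → ℝ :=
  fun r => z r - L₁ * ⌊z r / L₁ + 1 / 2⌋

lemma STr1_red_add {L₁ : ℝ} (hL : 0 < L₁) (z : Fin d → ℝ) (k : Fin d → ℤ) :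
    STr1_red L₁ (z + fun r => L₁ * k r) = STr1_red L₁ z := by
  funext r
  simp only [STr1_red, Pi.add_apply]
  have h : (z r + L₁ * k r) / L₁ + 1 / 2 = z r / L₁ + 1 / 2 + k r := by field_simp; ring
  rw [h, Int.floor_add_intCast]
  push_cast
  ring

lemma STr1_red_cube {L₁ : ℝ} (hL : 0 < L₁) {y : Fin d → ℝ} (hy : y ∈ cube d L₁) :
    STr1_red L₁ y = y := by
  funext r
  have h := STr1_floor hL (hy r trivial) 0
  simp only [Int.cast_zero, mul_zero, add_zero] at h
  simp only [STr1_red, h, Int.cast_zero, mul_zero, sub_zero]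

/-- Near a point of the basic cube the periodised function agrees with the function. -/
lemma STr1_local {L₁ R c : ℝ} (hL : 0 < L₁) (hR : R < L₁ / 2)
    {g : (Fin d → ℝ) → ℝ} (hc : ∀ y, R ≤ ‖y‖ → g y = c) {y : Fin d → ℝ} (hy : y ∈ cube d L₁) :
    (fun z => g (STr1_red L₁ z)) =ᶠ[nhds y] g := by
  by_cases h : ∀ r, -(L₁ / 2) < y r
  · have h1 : ∀ᶠ z in nhds y, ∀ r, -(L₁ / 2) < z r ∧ z r < L₁ / 2 := by
      rw [Filter.eventually_all]
      intro r
      exact ((continuous_apply r).continuousAt.eventually (lt_mem_nhds (h r))).and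
        ((continuous_apply r).continuousAt.eventually (gt_mem_nhds (hy r trivial).2))
    filter_upwards [h1] with z hz
    rw [STr1_red_cube hL fun r _ => ⟨(hz r).1.le, (hz r).2⟩]
  · push Not at h
    obtain ⟨r, hr⟩ := h
    have h0 : y r = -(L₁ / 2) := le_antisymm hr (hy r trivial).1
    have hR' : max R 0 < L₁ / 2 := max_lt hR (by linarith)
    have hR1 := le_max_left R 0
    have hR2 := le_max_right R 0
    have h1 : ∀ᶠ z in nhds y, -L₁ + max R 0 < z r ∧ z r < -max R 0 :=
      ((continuous_apply r).continuousAt.eventually (lt_mem_nhds (by linarith))).and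
        ((continuous_apply r).continuousAt.eventually (gt_mem_nhds (by linarith)))
    filter_upwards [h1] with z hz
    have h2 : g z = c := by
      refine hc z (le_trans ?_ (norm_le_pi_norm z r))
      rw [Real.norm_eq_abs]
      linarith [neg_le_abs (z r), hz.2]
    rw [h2]
    refine hc _ (le_trans ?_ (norm_le_pi_norm _ r))
    rw [Real.norm_eq_abs]
    by_cases h3 : -(L₁ / 2) ≤ z r
    · have h4 := STr1_floor hL (y := z r) ⟨h3, by linarith [hz.2]⟩ 0
      simp only [Int.cast_zero, mul_zero, add_zero] at h4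
      simp only [STr1_red, h4, Int.cast_zero, mul_zero, sub_zero]
      linarith [neg_le_abs (z r), hz.2]
    · push Not at h3
      have h4 := STr1_floor hL (y := z r + L₁) ⟨by linarith [hz.1], by linarith⟩ (-1)
      have h5 : z r + L₁ + L₁ * ((-1 : ℤ) : ℝ) = z r := by push_cast; ring
      rw [h5] at h4
      simp only [STr1_red, h4]
      push_cast
      linarith [le_abs_self (z r - L₁ * -1), hz.1]

/-- Periodisation of a function that is constant outside a smaller cube. -/
theorem periodize {L₁ R c : ℝ} (hL : 0 < L₁) (hR : R < L₁ / 2) {n : ℕ} (hn : 0 < n)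
    {g : (Fin d → ℝ) → ℝ} (hg : ContDiff ℝ 1 g) (hc : ∀ y, R ≤ ‖y‖ → g y = c) :
    ∃ G : Tor d → ℝ, C1 (n * L₁) G ∧ ∀ m y, y ∈ cube d L₁ → G (cell L₁ n m y) = g y ∧
      ∀ r, pd (n * L₁) r G (cell L₁ n m y) = fderiv ℝ g y (Pi.single r 1) := by
  have hn' : (0 : ℝ) < n := by exact_mod_cast hn
  have hpos : 0 < n * L₁ := by positivity
  set F : (Fin d → ℝ) → ℝ := fun z => g (STr1_red L₁ z) with hFd
  have hper : ∀ (k : Fin d → ℤ) z, F (z + fun r => L₁ * k r) = F z := by
    intro k z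
    simp only [hFd, STr1_red_add hL]
  have hper' : ∀ (k : Fin d → ℤ) z, fderiv ℝ F (z + fun r => L₁ * k r) = fderiv ℝ F z := by
    intro k z
    rw [← fderiv_comp_add_right]
    congr 1
    funext w
    exact hper k w
  have hF : ContDiff ℝ 1 F := by
    rw [contDiff_iff_contDiffAt]
    intro z
    let k : Fin d → ℤ := fun r => -⌊z r / L₁ + 1 / 2⌋
    have hy : (z + fun r => L₁ * k r) ∈ cube d L₁ := by
      intro r _
      have := STr1_sub_mem hL (z r)
      simp only [Pi.add_apply, k]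
      push_cast
      rwa [mul_neg, ← sub_eq_add_neg]
    have h1 : ContDiffAt ℝ 1 F (z + fun r => L₁ * k r) :=
      hg.contDiffAt.congr_of_eventuallyEq (STr1_local hL hR hc hy)
    have h2 : ContDiffAt ℝ 1 (fun w => F (w + fun r => L₁ * k r)) z :=
      ContDiffAt.comp (g := F) z h1 (contDiffAt_id.add contDiffAt_const)
    simpa only [hper] using h2
  have hcast : ∀ k : Fin d → ℤ, (fun r => (n * L₁) * (k r : ℝ)) =
      fun r => L₁ * (((n * k r : ℤ)) : ℝ) := by
    intro k
    funext r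
    push_cast
    ring
  obtain ⟨G, hG, hGF⟩ := STr1_desc hpos hF.continuous fun k z => by rw [hcast, hper]
  have hD : ∀ r : Fin d, ∃ G' : Tor d → ℝ, Continuous G' ∧
      ∀ z, G' (prj (n * L₁) z) = fderiv ℝ F z (Pi.single r 1) := by
    intro r
    refine STr1_desc hpos ((hF.continuous_fderiv one_ne_zero).clm_apply continuous_const)
      fun k z => ?_
    rw [hcast, hper']
  choose G' hG' hGF' using hD
  have hder : ∀ r x, HasDerivAt (fun s => G (mv (n * L₁) r x s)) (G' r x) 0 := by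
    intro r x
    obtain ⟨z, rfl⟩ := (STr1_quot (d := d) hpos).surjective x
    simp only [STr1_prj_mv, hGF, hGF']
    have h1 : HasDerivAt (fun s : ℝ => z + s • (Pi.single r (1 : ℝ) : Fin d → ℝ))
        (Pi.single r (1 : ℝ)) 0 := by
      simpa using ((hasDerivAt_id (0 : ℝ)).smul_const (Pi.single r (1 : ℝ) : Fin d → ℝ)).const_add z
    have h2 : HasFDerivAt F (fderiv ℝ F z) (z + (0 : ℝ) • (Pi.single r (1 : ℝ) : Fin d → ℝ)) := by
      rw [zero_smul, add_zero]
      exact (hF.differentiable one_ne_zero z).hasFDerivAt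
    exact HasFDerivAt.comp_hasDerivAt (l := F) (0 : ℝ) h2 h1
  obtain ⟨hC, hpd⟩ := C1.of_hasDerivAt hG hG' hder
  refine ⟨G, hC, fun m y hy => ?_⟩
  have he : (fun r => y r + L₁ * (m r : ℕ)) = y + fun r => L₁ * ((((m r : ℕ) : ℤ)) : ℝ) := by
    funext r
    simp
  constructor
  · unfold cell
    rw [hGF, he, hper]
    simp only [hFd, STr1_red_cube hL hy]
  · intro r
    unfold cell
    rw [hpd, hGF', he, hper', (STr1_local hL hR hc hy).fderiv_eq]

end Pool.Agent.Lib.MP_ae5e3b_mp.Sh
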