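import Pool.Agent.Lib.MP_ae5e3b_mp.SJb
import Pool.Agent.Lib.MP_ae5e3b_mp.STr1
import Pool.Agent.Lib.MP_ae5e3b_mp.SFm
import Pool.Agent.Lib.MP_ae5e3b_mp.SIb

-- part Pool.Agent.Lib.MP_ae5e3b_mp.SGrad
section

open MeasureTheory Matrix Real
open scoped ComplexConjugate ComplexOrder

set_option linter.unusedSectionVars false

namespace Pool.Agent.Lib.MP_ae5e3b_mp.Sh

section Aux
variable {d : ℕ} {L : ℝ}

lemma SGrad_young {a b t : ℝ} (ha : 0 ≤ a) (hb : 0 ≤ b) (ht : 0 < t) :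
    √a * √b ≤ t * a + b / (4 * t) := by
  have h1 := Real.sq_sqrt ha
  have h2 := Real.sq_sqrt hb
  generalize √a = x at *
  generalize √b = y at *
  rw [← h1, ← h2]
  have : t * x ^ 2 + y ^ 2 / (4 * t) - x * y = (2 * t * x - y) ^ 2 / (4 * t) := by
    field_simp; ring
  have h3 : 0 ≤ (2 * t * x - y) ^ 2 / (4 * t) := by positivity
  linarith

lemma SGrad_mono {a b a' b' : ℝ} (ha : a ≤ a') (hb : b ≤ b') : √a * √b ≤ √a' * √b' :=
  mul_le_mul (Real.sqrt_le_sqrt ha) (Real.sqrt_le_sqrt hb) (Real.sqrt_nonneg _)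
    (Real.sqrt_nonneg _)

lemma SGrad_low (hL : Big L) {σ n : Tor d → ℝ} {c η K : ℝ} (hσ : C1 L σ) (hn : C1 L n)
    (hc : ∀ x, |σ x - c| ≤ η)
    (hb : ∀ (b : Tor d → ℝ), TP L 2 (cx b) → (∀ x, |b x| ≤ η) → |∫ x, b x * n x| ≤ K) :
    |GG L (Jr L 1 (Jr L 1 σ)) n| ≤ d * K := by
  have hp := hL.pos
  have h1 : 2 * kap L ≤ 1 := by linarith [hL.kap_le]
  have hJ : C1 L (Jr L 1 σ) := Jr_C1 hp h1 σ
  have key : ∀ r : Fin d, |∫ x, pd L r (Jr L 1 (Jr L 1 σ)) x * pd L r n x| ≤ K := by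
    intro r
    have e : pd L r (Jr L 1 (Jr L 1 σ)) = Jr L 1 (pd L r (Jr L 1 σ)) := pd_Jr hp h1 hJ r
    have hh : C1 L (Jr L 1 (pd L r (Jr L 1 σ))) := Jr_C1 hp h1 _
    have bp := by_parts hh hn r
    have hs : ∀ y, |pd L r (Jr L 1 σ) y - 0| ≤ η := fun y => by
      have := abs_pd_Jr_le hp h1 hσ.cont hc r y
      simpa using this
    have hs2 : ∀ x, |pd L r (Jr L 1 (pd L r (Jr L 1 σ))) x| ≤ η := fun x => by
      have := abs_pd_Jr_le hp h1 (hJ.cpd r) hs r x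
      simpa using this
    have ht : TP L 2 (cx (pd L r (Jr L 1 (pd L r (Jr L 1 σ))))) :=
      ((Jr_TP hp h1 _).pd_real r).mono (by norm_num)
    have := hb _ ht hs2
    rw [bp, abs_neg] at this
    rw [e]; exact this
  unfold GG
  calc |∑ r : Fin d, ∫ x, pd L r (Jr L 1 (Jr L 1 σ)) x * pd L r n x|
      ≤ ∑ r : Fin d, |∫ x, pd L r (Jr L 1 (Jr L 1 σ)) x * pd L r n x| :=
        Finset.abs_sum_le_sum_abs _ _
    _ ≤ ∑ _r : Fin d, K := Finset.sum_le_sum fun r _ => key r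
    _ = d * K := by simp

lemma SGrad_first (hL : Big L) {σ n : Tor d → ℝ} {c η K : ℝ} (hσ : C1 L σ) (hn : C1 L n)
    (hc : ∀ x, |σ x - c| ≤ η)
    (hb : ∀ (b : Tor d → ℝ), TP L 2 (cx b) → (∀ x, |b x| ≤ η) → |∫ x, b x * n x| ≤ K) :
    -(d * K) - 2 * (√(GG L (fun x => σ x - Jr L 1 σ x) σ) * √(Gr L n)) ≤ GG L σ n := by
  have hp := hL.pos
  have h1 : 2 * kap L ≤ 1 := by linarith [hL.kap_le]
  have hJ : C1 L (Jr L 1 σ) := Jr_C1 hp h1 σ
  have hJJ : C1 L (Jr L 1 (Jr L 1 σ)) := Jr_C1 hp h1 _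
  have hs : C1 L fun x => σ x - Jr L 1 σ x := hσ.sub hJ
  have hlow := SGrad_low hL hσ hn hc hb
  have e1 : GG L (fun x => σ x - Jr L 1 σ x) n = GG L σ n - GG L (Jr L 1 σ) n :=
    GG_sub_left hσ hJ hn
  have e2 : GG L (Jr L 1 fun x => σ x - Jr L 1 σ x) n =
      GG L (Jr L 1 σ) n - GG L (Jr L 1 (Jr L 1 σ)) n := by
    rw [← GG_sub_left hJ hJJ hn]
    congr 1
    funext x
    exact Jr_sub hσ.cont hJ.cont x
  have b0 := Gr_sub_Jr_le_GG hp h1 hσ
  have b1 := (abs_GG_le hs hn).trans (SGrad_mono b0 le_rfl)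
  have b2 := (abs_GG_le (Jr_C1 hp h1 fun x => σ x - Jr L 1 σ x) hn).trans
    (SGrad_mono ((Gr_Jr_le hp h1 hs).trans b0) le_rfl)
  rw [e1] at b1
  rw [e2] at b2
  have a1 := abs_le.1 b1
  have a2 := abs_le.1 b2
  have a3 := abs_le.1 hlow
  linarith [a1.1, a2.1, a3.1]

lemma SGrad_Om (hp : 0 < L) {N q : ℝ} (hq : 2 * kap L ≤ q) (hN : 1 ≤ N) {w : Tor d → ℝ}
    (hw : C1 L w) {K : ℝ} (hO : Om L N q w ≤ K) :
    Gr L w ≤ K ∧ N * GG L (fun x => w x - Jr L q w x) w ≤ K := by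
  have h1 := GG_sub_Jr_nonneg hp hq hw
  have h2 : 0 ≤ Gr L w := Gr_nonneg w
  have h3 : 0 ≤ N * GG L (fun x => w x - Jr L q w x) w := mul_nonneg (by linarith) h1
  unfold Om at hO
  constructor <;> linarith

lemma SGrad_eq {N q q₀ Λ : ℝ} (hΛ : 2 ≤ Λ) {σ w ρF : Tor d → ℝ}
    (he : ∀ x, (1 + N) * w x - N * Jr L q w x = 2 * Λ * (ρF x - Jr L q₀ σ x)) :
    (fun x => ρF x - Jr L q₀ σ x) =
      fun x => (2 * Λ)⁻¹ * (w x + N * (w x - Jr L q w x)) := by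
  funext x
  have := he x
  have h : (2 * Λ) ≠ 0 := by positivity
  field_simp
  linarith

lemma SGrad_second (hp : 0 < L) {N q q₀ Λ C₁ : ℝ} (hq : 2 * kap L ≤ q) (hN : 1 ≤ N)
    (hΛ : 2 ≤ Λ) (hC : 2500 * C₁ ≤ Λ) {σ w ρF : Tor d → ℝ} (hσ : C1 L σ) (hw : C1 L w)
    (he : ∀ x, (1 + N) * w x - N * Jr L q w x = 2 * Λ * (ρF x - Jr L q₀ σ x))
    (hO : Om L N q w ≤ C₁ * Λ * Gr L σ) :
    -(Gr L σ / 100) - (N * GG L (fun x => σ x - Jr L q σ x) σ + Gr L σ) / 200 ≤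
      GG L σ fun x => ρF x - Jr L q₀ σ x := by
  obtain ⟨h1, h2⟩ := SGrad_Om hp hq hN hw hO
  have hs : C1 L fun x => w x - Jr L q w x := hw.sub (Jr_C1 hp hq w)
  have hG : 0 ≤ Gr L σ := Gr_nonneg σ
  have hX := GG_sub_Jr_nonneg hp hq hσ
  have hY := GG_sub_Jr_nonneg hp hq hw
  rw [SGrad_eq hΛ he, GG_mul_right _ _ (hw.add (hs.const_mul N)),
    GG_add_right hw (hs.const_mul N) hσ, GG_mul_right _ _ hs, ← GG_sub_Jr_sa hp hq hσ hw]
  have b1 := abs_GG_le hσ hw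
  have b2 := GG_sub_Jr_cs hp hq hσ hw
  have hK : C₁ * Λ * Gr L σ ≤ (Λ / 50) ^ 2 * Gr L σ := by
    apply mul_le_mul_of_nonneg_right _ hG
    nlinarith
  have hsq : √((Λ / 50) ^ 2 * Gr L σ) = Λ / 50 * √(Gr L σ) := by
    rw [Real.sqrt_mul (by positivity), Real.sqrt_sq (by positivity)]
  have c1 : √(Gr L σ) * √(Gr L w) ≤ Λ / 50 * Gr L σ := by
    refine (SGrad_mono le_rfl (h1.trans hK)).trans ?_
    rw [hsq]
    have := Real.mul_self_sqrt hG
    nlinarith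
  generalize GG L (fun x => σ x - Jr L q σ x) σ = X at *
  generalize GG L (fun x => w x - Jr L q w x) w = Y at *
  have c2 : N * (√X * √Y) ≤ Λ / 50 * ((N * X + Gr L σ) / 2) := by
    have e : N * (√X * √Y) = √(N * X) * √(N * Y) := by
      rw [Real.sqrt_mul (by linarith), Real.sqrt_mul (by linarith)]
      have := Real.mul_self_sqrt (show (0 : ℝ) ≤ N by linarith)
      calc N * (√X * √Y) = (√N * √N) * (√X * √Y) := by rw [this]
        _ = _ := by ring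
    rw [e]
    refine (SGrad_mono le_rfl (h2.trans hK)).trans ?_
    rw [hsq]
    have := SGrad_young (show 0 ≤ N * X by positivity) hG (show (0 : ℝ) < 1 / 2 by norm_num)
    have h50 : 0 ≤ Λ / 50 := by positivity
    calc √(N * X) * (Λ / 50 * √(Gr L σ)) = Λ / 50 * (√(N * X) * √(Gr L σ)) := by ring
      _ ≤ _ := mul_le_mul_of_nonneg_left (by linarith) h50
  have a1 := (abs_le.1 b1).1
  have a2 := (abs_le.1 b2).1
  have a3 := mul_le_mul_of_nonneg_left a2 (show (0 : ℝ) ≤ N by linarith)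
  have hpos : 0 < 2 * Λ := by positivity
  rw [le_inv_mul_iff₀ hpos]
  nlinarith

lemma SGrad_fourth (hp : 0 < L) {q₀ T : ℝ} (hq : 2 * kap L ≤ q₀) (hT : 2 * kap L ≤ T)
    {σ : Tor d → ℝ} (hσ : C1 L σ) :
    GG L (fun x => σ x - Jr L q₀ σ x) σ - √(Gr L σ) * √(Gr L fun x => σ x - Jr L T σ x) ≤
      GG L σ fun x => Jr L T σ x - Jr L q₀ (Jr L T σ) x := by
  have hg : C1 L (Jr L T σ) := Jr_C1 hp hT σ
  have hs : C1 L fun x => σ x - Jr L q₀ σ x := hσ.sub (Jr_C1 hp hq σ)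
  rw [← GG_sub_Jr_sa hp hq hσ hg]
  have e := GG_sub_right hσ hg hs
  have b := (abs_GG_le hs (hσ.sub hg)).trans
    (SGrad_mono ((Gr_sub_Jr_le_GG hp hq hσ).trans (GG_sub_Jr_le hp hq hσ)) le_rfl)
  rw [e] at b
  linarith [(abs_le.1 b).2]

lemma SGrad_split (hp : 0 < L) {q₀ lam : ℝ} (hq : 2 * kap L ≤ q₀) {σ ρF ρP s Q : Tor d → ℝ}
    (hσ : C1 L σ) (hF : C1 L ρF) (hP : C1 L ρP) (hs : C1 L s) (hQ : C1 L Q) :
    GG L σ (fun x => ρP x + lam * s x + Q x) =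
      GG L σ (fun x => ρP x - ρF x) + GG L σ (fun x => ρF x - Jr L q₀ σ x) +
        (Gr L σ - GG L (fun x => σ x - Jr L q₀ σ x) σ) + lam * GG L σ s + GG L σ Q := by
  have hJ : C1 L (Jr L q₀ σ) := Jr_C1 hp hq σ
  rw [GG_add_right (hP.add (hs.const_mul lam)) hQ hσ, GG_add_right hP (hs.const_mul lam) hσ,
    GG_mul_right _ _ hs, GG_sub_right hP hF hσ, GG_sub_right hF hJ hσ, GG_sub_left hσ hJ hσ,
    GG_self, GG_comm (Jr L q₀ σ) σ]
  ring

lemma SGrad_F (hp : 0 < L) {N q q₀ Λ C₁ : ℝ} (hq : 2 * kap L ≤ q) (hq₀ : 2 * kap L ≤ q₀)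
    (hN : 1 ≤ N) (hΛ : 2 ≤ Λ) (hC : 0 < C₁) {σ w ρF : Tor d → ℝ} (hσ : C1 L σ) (hw : C1 L w)
    (hF : C1 L ρF)
    (he : ∀ x, (1 + N) * w x - N * Jr L q w x = 2 * Λ * (ρF x - Jr L q₀ σ x))
    (hO : Om L N q w ≤ C₁ * Λ * Gr L σ) : Gr L ρF ≤ (2 + C₁ * (1 + N)) * Gr L σ := by
  obtain ⟨h1, h2⟩ := SGrad_Om hp hq hN hw hO
  have hs : C1 L fun x => w x - Jr L q w x := hw.sub (Jr_C1 hp hq w)
  have hJ : C1 L (Jr L q₀ σ) := Jr_C1 hp hq₀ σ
  have hG : 0 ≤ Gr L σ := Gr_nonneg σ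
  have e : ρF = fun x => (ρF x - Jr L q₀ σ x) + Jr L q₀ σ x := by funext x; ring
  have b1 : Gr L ρF ≤ 2 * Gr L (fun x => ρF x - Jr L q₀ σ x) + 2 * Gr L (Jr L q₀ σ) := by
    conv_lhs => rw [e]
    exact Gr_add_le (hF.sub hJ) hJ
  have b2 := Gr_Jr_le hp hq₀ hσ
  have b3 := Gr_add_le hw (hs.const_mul N)
  have b4 := Gr_sub_Jr_le_GG hp hq hw
  rw [SGrad_eq hΛ he, Gr_const_mul _ (hw.add (hs.const_mul N))] at b1
  rw [Gr_const_mul _ hs] at b3
  have hN0 : 0 ≤ N := by linarith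
  rw [Real.norm_of_nonneg hN0] at b3
  rw [Real.norm_of_nonneg (by positivity)] at b1
  have b5 : N ^ 2 * Gr L (fun x => w x - Jr L q w x) ≤ N * (C₁ * Λ * Gr L σ) := by
    calc N ^ 2 * Gr L (fun x => w x - Jr L q w x)
        ≤ N ^ 2 * GG L (fun x => w x - Jr L q w x) w := by gcongr
      _ = N * (N * GG L (fun x => w x - Jr L q w x) w) := by ring
      _ ≤ _ := by gcongr
  have b6 : Gr L (fun x => w x + N * (w x - Jr L q w x)) ≤
      2 * Λ * (C₁ * (1 + N) * Gr L σ) := by nlinarith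
  have b7 : (2 * Λ)⁻¹ ^ 2 * Gr L (fun x => w x + N * (w x - Jr L q w x)) ≤
      C₁ * (1 + N) * Gr L σ / 2 := by
    have hZ : 0 ≤ C₁ * (1 + N) * Gr L σ := by positivity
    generalize C₁ * (1 + N) * Gr L σ = Z at *
    calc _ ≤ (2 * Λ)⁻¹ ^ 2 * (2 * Λ * Z) := by gcongr
      _ = Z / (2 * Λ) := by field_simp
      _ ≤ Z / 2 := by gcongr; linarith
  linarith

lemma SGrad_l2 (hp : 0 < L) {N q q₀ Λ lam : ℝ} (hq : 2 * kap L ≤ q) (hq₀ : 2 * kap L ≤ q₀)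
    (hΛ : 2 ≤ Λ) {σ w ρF ρP g Q : Tor d → ℝ} (hσ : C1 L σ) (hw : C1 L w)
    (hF : C1 L ρF) (hP : C1 L ρP) (hg : C1 L g) (hQ : C1 L Q) :
    ∫ x, (Λ * (ρP x + lam * (g x - Jr L q₀ g x) + Q x - σ x - (ρF x - Jr L q₀ σ x)) ^ 2 +
        N ^ 2 * (w x - Jr L q w x) ^ 2 / Λ) ≤
      4 * Λ * ((∫ x, (ρP x - ρF x) ^ 2) + lam ^ 2 * (24 / q₀ ^ 2 * Gr L g) + (∫ x, Q x ^ 2) +
        24 / q₀ ^ 2 * Gr L σ) + N ^ 2 / Λ * (24 / q ^ 2 * Gr L w) := by
  have c1 : Continuous fun x => ρP x - ρF x := hP.cont.sub hF.cont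
  have c2 : Continuous fun x => g x - Jr L q₀ g x := hg.cont.sub (Jr_C1 hp hq₀ g).cont
  have c3 : Continuous fun x => σ x - Jr L q₀ σ x := hσ.cont.sub (Jr_C1 hp hq₀ σ).cont
  have c4 : Continuous fun x => w x - Jr L q w x := hw.cont.sub (Jr_C1 hp hq w).cont
  have c5 := hQ.cont
  have i1 : Integrable fun x => (ρP x - ρF x) ^ 2 := cont_int (c1.pow 2)
  have i2 : Integrable fun x => lam ^ 2 * (g x - Jr L q₀ g x) ^ 2 :=
    (cont_int (c2.pow 2)).const_mul (lam ^ 2)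
  have i3 : Integrable fun x => (σ x - Jr L q₀ σ x) ^ 2 := cont_int (c3.pow 2)
  have i4 : Integrable fun x => N ^ 2 / Λ * (w x - Jr L q w x) ^ 2 :=
    (cont_int (c4.pow 2)).const_mul (N ^ 2 / Λ)
  have i5 : Integrable fun x => Q x ^ 2 := cont_int (c5.pow 2)
  have j1 : Integrable fun x => (ρP x - ρF x) ^ 2 + lam ^ 2 * (g x - Jr L q₀ g x) ^ 2 :=
    i1.add i2
  have j2 : Integrable fun x => (ρP x - ρF x) ^ 2 + lam ^ 2 * (g x - Jr L q₀ g x) ^ 2 +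
      Q x ^ 2 := j1.add i5
  have j3 : Integrable fun x => 4 * Λ * ((ρP x - ρF x) ^ 2 + lam ^ 2 * (g x - Jr L q₀ g x) ^ 2 +
      Q x ^ 2 + (σ x - Jr L q₀ σ x) ^ 2) := (j2.add i3).const_mul _
  have b2 := l2_sub_Jr hp hq₀ hg
  have b3 := l2_sub_Jr hp hq₀ hσ
  have b4 := l2_sub_Jr hp hq hw
  have hΛ0 : 0 < Λ := by linarith
  calc _ ≤ ∫ x, (4 * Λ * ((ρP x - ρF x) ^ 2 + lam ^ 2 * (g x - Jr L q₀ g x) ^ 2 + Q x ^ 2 +
        (σ x - Jr L q₀ σ x) ^ 2) + N ^ 2 / Λ * (w x - Jr L q w x) ^ 2) := by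
        refine integral_mono_of_nonneg (Filter.Eventually.of_forall fun x => by positivity)
          (j3.add i4)
          (Filter.Eventually.of_forall fun x => ?_)
        have e : ρP x + lam * (g x - Jr L q₀ g x) + Q x - σ x - (ρF x - Jr L q₀ σ x) =
            (ρP x - ρF x) + lam * (g x - Jr L q₀ g x) + Q x - (σ x - Jr L q₀ σ x) := by ring
        simp only [e]
        generalize ρP x - ρF x = a
        generalize g x - Jr L q₀ g x = b
        generalize σ x - Jr L q₀ σ x = c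
        generalize Q x = z
        have h : (a + lam * b + z - c) ^ 2 ≤ 4 * (a ^ 2 + lam ^ 2 * b ^ 2 + z ^ 2 + c ^ 2) := by
          rw [← mul_pow]
          generalize lam * b = b'
          nlinarith [sq_nonneg (a - b'), sq_nonneg (a - z), sq_nonneg (a + c),
            sq_nonneg (b' - z), sq_nonneg (b' + c), sq_nonneg (z + c)]
        have h' := mul_le_mul_of_nonneg_left h hΛ0.le
        have e2 : N ^ 2 * (w x - Jr L q w x) ^ 2 / Λ = N ^ 2 / Λ * (w x - Jr L q w x) ^ 2 := by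
          ring
        rw [e2]
        linarith
    _ = 4 * Λ * ((∫ x, (ρP x - ρF x) ^ 2) + lam ^ 2 * (∫ x, (g x - Jr L q₀ g x) ^ 2) +
        (∫ x, Q x ^ 2) + ∫ x, (σ x - Jr L q₀ σ x) ^ 2) +
        N ^ 2 / Λ * ∫ x, (w x - Jr L q w x) ^ 2 := by
        rw [integral_add j3 i4, integral_const_mul, integral_const_mul, integral_add j2 i3,
          integral_add j1 i5, integral_add i1 i2, integral_const_mul]
    _ ≤ _ := by gcongr

end Aux

/-- The gradient of the new density is aligned with the gradient of the target. -/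
theorem grad (d : ℕ) {C₁ : ℝ} (hC : 0 < C₁) : ∃ Λ : ℝ, 2 ≤ Λ ∧ ∀ N q : ℝ, 1 ≤ N → 0 < q → q ≤ 1 →
    ∃ q₁ : ℝ, 0 < q₁ ∧ ∀ q₀ : ℝ, 0 < q₀ → q₀ ≤ q₁ → ∃ lam η C₂ : ℝ, 1 ≤ lam ∧ 0 < η ∧ 0 < C₂ ∧
    ∀ (L T c : ℝ) (σ w ρF ρP Q ρ' : Tor d → ℝ), Big L → 2 * kap L ≤ q₀ → 2 * kap L ≤ q →
    2 * kap L ≤ T → C1 L σ → C1 L w → C1 L ρF → C1 L ρP → C1 L Q → (∀ x, |σ x - c| ≤ η) →
    (∀ x, (1 + N) * w x - N * Jr L q w x = 2 * Λ * (ρF x - Jr L q₀ σ x)) →
    Om L N q w ≤ C₁ * Λ * Gr L σ → ∫ x, (ρP x - ρF x) ^ 2 ≤ C₁ * Gr L σ →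
    Gr L (fun x => ρP x - ρF x) ≤ C₁ * Gr L σ →
    (∀ (b : Tor d → ℝ) (a : ℝ), TP L 2 (cx b) → (∀ x, |b x| ≤ a) →
      |∫ x, b x * (ρP x - ρF x)| ≤ C₁ * a * Gr L σ) →
    Gr L Q ≤ η * Gr L σ → ∫ x, Q x ^ 2 ≤ η * Gr L σ →
    (ρ' = fun x => ρP x + lam * (Jr L T σ x - Jr L q₀ (Jr L T σ) x) + Q x) →
    9 / 10 * Gr L σ - C₂ * Gr L (fun x => σ x - Jr L T σ x) ≤ GG L σ ρ' ∧
    Gr L ρ' ≤ C₂ * Gr L σ ∧ Gr L ρF ≤ C₂ * Gr L σ ∧
    ∫ x, (Λ * (ρ' x - σ x - (ρF x - Jr L q₀ σ x)) ^ 2 + N ^ 2 * (w x - Jr L q w x) ^ 2 / Λ) ≤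
      C₂ * Gr L σ := by
  obtain ⟨Λ, hΛ, hΛC⟩ : ∃ Λ : ℝ, 2 ≤ Λ ∧ 2500 * C₁ ≤ Λ :=
    ⟨max 2 (2500 * C₁), le_max_left _ _, le_max_right _ _⟩
  refine ⟨Λ, hΛ, fun N q hN hq hq1 => ?_⟩
  have hd : (0 : ℝ) ≤ d := Nat.cast_nonneg d
  obtain ⟨A, hA1, hA2, hA3⟩ : ∃ A : ℝ, 1 ≤ A ∧ 24 * d * N ≤ A ∧ 240000 * d * C₁ ≤ A := by
    have h1 : 0 ≤ 24 * d * N := by positivity
    have h2 : 0 ≤ 240000 * d * C₁ := by positivity
    exact ⟨1 + 24 * d * N + 240000 * d * C₁, by linarith, by linarith, by linarith⟩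
  refine ⟨q / A, by positivity, fun q₀ hq₀ hq₀1 => ?_⟩
  have hqA : A * q₀ ≤ q := by rwa [le_div_iff₀' (by linarith)] at hq₀1
  have hqA2 : A * q₀ ^ 2 ≤ q ^ 2 := by
    have h1 : q₀ ≤ q := by nlinarith
    calc A * q₀ ^ 2 = A * q₀ * q₀ := by ring
      _ ≤ q * q := by gcongr
      _ = q ^ 2 := by ring
  have s1 : N * (24 * d * q₀ ^ 2 / q ^ 2) ≤ 1 := by
    rw [← mul_div_assoc, div_le_one (by positivity)]
    nlinarith [sq_nonneg q₀]
  have s2 : 100 * C₁ * (24 * d * q₀ ^ 2 / 1 ^ 2) ≤ 1 / 100 := by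
    have h1 : q ^ 2 ≤ 1 := by nlinarith
    nlinarith [sq_nonneg q₀]
  obtain ⟨η, hη, hη1, hη2⟩ : ∃ η : ℝ, 0 < η ∧ η ≤ 1 / 10000 ∧ d * C₁ * η ≤ 1 / 100 := by
    have h1 : 0 ≤ d * C₁ := by positivity
    refine ⟨1 / (10000 + 100 * (d * C₁)), by positivity, ?_, ?_⟩
    · gcongr; linarith
    · rw [mul_one_div, div_le_iff₀ (by positivity)]; linarith
  obtain ⟨lam, hlam⟩ : ∃ lam : ℝ, lam = 1 + N + 100 * C₁ := ⟨_, rfl⟩
  have hlam1 : 1 ≤ lam := by linarith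
  obtain ⟨C₂, hC₂, k1, k2, k3, k4⟩ : ∃ C₂ : ℝ, 0 < C₂ ∧ 25 * lam ^ 2 ≤ C₂ ∧
      8 * C₁ + 8 * (2 + C₁ * (1 + N)) + 4 * lam ^ 2 + 2 * η ≤ C₂ ∧ 2 + C₁ * (1 + N) ≤ C₂ ∧
      4 * Λ * (C₁ + lam ^ 2 * (24 / q₀ ^ 2) + η + 24 / q₀ ^ 2) + N ^ 2 * (24 / q ^ 2) * C₁ ≤ C₂ := by
    have h1 : 0 ≤ 25 * lam ^ 2 := by positivity
    have h2 : 0 ≤ 8 * C₁ + 8 * (2 + C₁ * (1 + N)) + 4 * lam ^ 2 + 2 * η := by positivity
    have h3 : 0 < 2 + C₁ * (1 + N) := by positivity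
    have h4 : 0 ≤ 4 * Λ * (C₁ + lam ^ 2 * (24 / q₀ ^ 2) + η + 24 / q₀ ^ 2) +
        N ^ 2 * (24 / q ^ 2) * C₁ := by positivity
    exact ⟨_ + _ + _ + _, add_pos_of_nonneg_of_pos (add_nonneg (add_nonneg h1 h2) h4) h3,
      by linarith, by linarith, by linarith, by linarith⟩
  refine ⟨lam, η, C₂, hlam1, hη, hC₂, ?_⟩
  intro L T c σ w ρF ρP Q ρ' hL hk₀ hk hT hσ hw hF hP hQ hc he hO hn2 hnG hb hQG hQ2 hρ
  subst hρ
  have hp := hL.pos
  have h1 : 2 * kap L ≤ 1 := by linarith [hL.kap_le]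
  have hG : 0 ≤ Gr L σ := Gr_nonneg σ
  have hg : C1 L (Jr L T σ) := Jr_C1 hp hT σ
  have hs : C1 L fun x => Jr L T σ x - Jr L q₀ (Jr L T σ) x := hg.sub (Jr_C1 hp hk₀ _)
  have hn : C1 L fun x => ρP x - ρF x := hP.sub hF
  have hgG : Gr L (Jr L T σ) ≤ Gr L σ := Gr_Jr_le hp hT hσ
  have hFG := SGrad_F hp hk hk₀ hN hΛ hC hσ hw hF he hO
  refine ⟨?_, ?_, hFG.trans (by gcongr), ?_⟩
  · rw [SGrad_split hp hk₀ hσ hF hP hs hQ]
    have t1 := SGrad_first hL hσ hn hc fun b => hb b η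
    have t2 := SGrad_second hp hk hN hΛ hΛC hσ hw he hO
    have t4 := mul_le_mul_of_nonneg_left (SGrad_fourth hp hk₀ hT hσ)
      (show 0 ≤ lam by linarith)
    have t5 := (abs_le.1 ((abs_GG_le hσ hQ).trans (SGrad_mono le_rfl hQG))).1
    have x1 := GG_sub_Jr_cmp hp h1 hk₀ hσ
    have xq := GG_sub_Jr_cmp hp hk hk₀ hσ
    have p0 := GG_sub_Jr_nonneg hp hk₀ hσ
    have p1 := GG_sub_Jr_nonneg hp h1 hσ
    have hE : 0 ≤ Gr L (fun x => σ x - Jr L T σ x) := Gr_nonneg _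
    have u1 := SGrad_mono (le_refl (GG L (fun x => σ x - Jr L 1 σ x) σ)) hnG
    generalize GG L (fun x => σ x - Jr L q₀ σ x) σ = X₀ at *
    generalize GG L (fun x => σ x - Jr L 1 σ x) σ = X₁ at *
    generalize GG L (fun x => σ x - Jr L q σ x) σ = Xq at *
    generalize Gr L (fun x => σ x - Jr L T σ x) = E at *
    generalize Gr L σ = G at *
    have v1 := SGrad_young p1 (show 0 ≤ C₁ * G by positivity)
      (show 0 < 50 * C₁ by positivity)
    have v1' : C₁ * G / (4 * (50 * C₁)) = G / 200 := by field_simp; ring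
    have v4 := SGrad_young hG hE (show 0 < 1 / (100 * lam) by positivity)
    have v4' : lam * (√G * √E) ≤ G / 100 + 25 * lam ^ 2 * E := by
      calc lam * (√G * √E) ≤ lam * (1 / (100 * lam) * G + E / (4 * (1 / (100 * lam)))) := by
            gcongr
        _ = _ := by field_simp; ring
    have v5 := SGrad_young hG (show 0 ≤ η * G by positivity) (show (0 : ℝ) < 1 / 200 by norm_num)
    have v5' : η * G ≤ 1 / 10000 * G := by gcongr
    have w1 := mul_le_mul_of_nonneg_left x1 (show 0 ≤ 100 * C₁ by positivity)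
    have wq := mul_le_mul_of_nonneg_left xq (show 0 ≤ N by linarith)
    have w1' := mul_le_mul_of_nonneg_right s2 hG
    have wq' := mul_le_mul_of_nonneg_right s1 hG
    have w3 := mul_le_mul_of_nonneg_right hη2 hG
    have w4 := mul_le_mul_of_nonneg_right k1 hE
    have w5 : 0 ≤ N * X₀ := by positivity
    have w6 : lam * X₀ = X₀ + N * X₀ + 100 * C₁ * X₀ := by rw [hlam]; ring
    rw [v1'] at v1
    have v5'' : η * G / (4 * (1 / 200)) = 50 * (η * G) := by ring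
    rw [v5''] at v5
    generalize 24 * d * q₀ ^ 2 / 1 ^ 2 = a at *
    generalize 24 * d * q₀ ^ 2 / q ^ 2 = b at *
    have y1 : -(G / 100) - 100 * C₁ * X₀ - G / 50 ≤ GG L σ fun x => ρP x - ρF x := by
      linarith
    have y2 : -(G / 50) - N * X₀ / 200 ≤ GG L σ fun x => ρF x - Jr L q₀ σ x := by linarith
    have y4 : lam * X₀ - G / 100 - C₂ * E ≤
        lam * GG L σ fun x => Jr L T σ x - Jr L q₀ (Jr L T σ) x := by linarith
    have y5 : -(G / 100) ≤ GG L σ Q := by linarith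
    linarith
  · have b1 := Gr_add_le (hP.add (hs.const_mul lam)) hQ
    have b2 := Gr_add_le hP (hs.const_mul lam)
    have b3 := Gr_add_le hn hF
    have e : (fun x => ρP x - ρF x + ρF x) = ρP := by funext x; ring
    rw [e] at b3
    rw [Gr_const_mul _ hs, Real.norm_of_nonneg (by linarith)] at b2
    have b4 := ((Gr_sub_Jr_le_GG hp hk₀ hg).trans (GG_sub_Jr_le hp hk₀ hg)).trans hgG
    have b5 := mul_le_mul_of_nonneg_left b4 (sq_nonneg lam)
    have b6 := mul_le_mul_of_nonneg_right k2 hG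
    linarith
  · refine (SGrad_l2 hp hk hk₀ hΛ hσ hw hF hP hg hQ).trans ?_
    have hwG := (SGrad_Om hp hk hN hw hO).1
    have hΛ0 : 0 < Λ := by linarith
    calc _ ≤ 4 * Λ * (C₁ * Gr L σ + lam ^ 2 * (24 / q₀ ^ 2 * Gr L σ) + η * Gr L σ +
          24 / q₀ ^ 2 * Gr L σ) + N ^ 2 / Λ * (24 / q ^ 2 * (C₁ * Λ * Gr L σ)) := by gcongr
      _ = (4 * Λ * (C₁ + lam ^ 2 * (24 / q₀ ^ 2) + η + 24 / q₀ ^ 2) +
          N ^ 2 * (24 / q ^ 2) * C₁) * Gr L σ := by field_simp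
      _ ≤ _ := by gcongr

end Pool.Agent.Lib.MP_ae5e3b_mp.Sh
end

-- part Pool.Agent.Lib.MP_ae5e3b_mp.STr2
section

open MeasureTheory Matrix Real
open scoped ComplexConjugate ComplexOrder

set_option linter.unusedSectionVars false

namespace Pool.Agent.Lib.MP_ae5e3b_mp.Sh

variable {d : ℕ}

lemma STr2_mem_cube {L₁ : ℝ} (hL : 0 < L₁) {y : Fin d → ℝ} (hy : ‖y‖ < L₁ / 2) :
    y ∈ cube d L₁ := by
  intro r _
  have h := (pi_norm_lt_iff (half_pos hL)).1 hy r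
  rw [Real.norm_eq_abs, abs_lt] at h
  exact ⟨h.1.le, h.2⟩

lemma STr2_not_mem {L₁ : ℝ} (hL : 0 < L₁) {y : Fin d → ℝ} (hy : y ∉ cube d L₁) :
    L₁ / 2 ≤ ‖y‖ := not_lt.1 fun h => hy (STr2_mem_cube hL h)

/-- The cutoff to the open cube. -/
noncomputable def STr2_cut {E : Type} [Zero E] (L₁ : ℝ) (F : (Fin d → ℝ) → E) (y : Fin d → ℝ) :
    E := if ‖y‖ < L₁ / 2 then F y else 0

section Cut
variable {E : Type} [NormedAddCommGroup E] {L₁ R : ℝ} {F : (Fin d → ℝ) → E}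

lemma STr2_cut_in {y : Fin d → ℝ} (hy : ‖y‖ < L₁ / 2) : STr2_cut L₁ F =ᶠ[nhds y] F := by
  filter_upwards [(isOpen_lt continuous_norm continuous_const).mem_nhds hy] with z hz
  exact if_pos hz

lemma STr2_cut_out (hF : ∀ y, ‖y‖ < L₁ / 2 → R < ‖y‖ → F y = 0) {y : Fin d → ℝ}
    (hy : R < ‖y‖) : STr2_cut L₁ F =ᶠ[nhds y] fun _ => 0 := by
  filter_upwards [(isOpen_lt continuous_const continuous_norm).mem_nhds hy] with z hz
  unfold STr2_cut
  split_ifs with h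
  · exact hF z h hz
  · rfl

lemma STr2_cut_cont (hR : R < L₁ / 2) (hc : Continuous F)
    (hF : ∀ y, ‖y‖ < L₁ / 2 → R < ‖y‖ → F y = 0) : Continuous (STr2_cut L₁ F) := by
  refine continuous_iff_continuousAt.2 fun y => ?_
  rcases lt_or_ge ‖y‖ (L₁ / 2) with h | h
  · exact hc.continuousAt.congr (STr2_cut_in h).symm
  · exact continuousAt_const.congr (STr2_cut_out hF (hR.trans_le h)).symm

lemma STr2_cut_supp : HasCompactSupport (STr2_cut L₁ F) := by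
  refine HasCompactSupport.intro (isCompact_closedBall 0 (L₁ / 2)) fun y hy => if_neg fun h => ?_
  exact hy (mem_closedBall_zero_iff.2 h.le)

end Cut

lemma STr2_line (y : Fin d → ℝ) (r : Fin d) :
    Filter.Tendsto (fun t : ℝ => y + t • Pi.single r (1 : ℝ)) (nhds 0) (nhds y) := by
  have : Continuous fun t : ℝ => y + t • (Pi.single r (1 : ℝ) : Fin d → ℝ) := by fun_prop
  simpa using this.tendsto 0

/-- A function carried by one cell. -/
lemma STr2_single {E : Type} [NormedAddCommGroup E] [NormedSpace ℝ E] {L₁ : ℝ} (hL : 0 < L₁)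
    {n : ℕ} (hn : 0 < n) {F : Tor d → E} (hF : Integrable F) (m : Fin d → Fin n)
    {f : (Fin d → ℝ) → E} (h0 : ∀ m' y, m' ≠ m → y ∈ cube d L₁ → F (cell L₁ n m' y) = 0)
    (h1 : ∀ y, y ∈ cube d L₁ → F (cell L₁ n m y) = f y) (h2 : ∀ y, y ∉ cube d L₁ → f y = 0) :
    ((n * L₁) ^ d : ℝ) • ∫ x, F x = ∫ y, f y := by
  rw [(integral_cells hL hn hF).2, Finset.sum_eq_single m]
  · rw [setIntegral_congr_fun (measurableSet_cube L₁) h1]
    exact setIntegral_eq_integral_of_forall_compl_eq_zero h2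
  · intro m' _ hm
    exact setIntegral_eq_zero_of_forall_eq_zero fun y hy => h0 m' y hm hy
  · intro hm
    exact absurd (Finset.mem_univ m) hm

/-- A function that is the same on all cells. -/
lemma STr2_per {L₁ : ℝ} (hL : 0 < L₁) {n : ℕ} (hn : 0 < n) {F : Tor d → ℝ} (hF : Continuous F)
    {f : (Fin d → ℝ) → ℝ} (h1 : ∀ m y, y ∈ cube d L₁ → F (cell L₁ n m y) = f y)
    (h2 : ∀ y, y ∉ cube d L₁ → f y = 0) : L₁ ^ d * ∫ x, F x = ∫ y, f y := by
  have h := (integral_cells hL hn (cont_int hF)).2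
  have e : ∀ m : Fin d → Fin n, ∫ y in cube d L₁, F (cell L₁ n m y) = ∫ y, f y := fun m => by
    rw [setIntegral_congr_fun (measurableSet_cube L₁) (h1 m)]
    exact setIntegral_eq_integral_of_forall_compl_eq_zero h2
  simp only [e, Finset.sum_const, Finset.card_univ, Fintype.card_pi, Fintype.card_fin,
    Finset.prod_const, nsmul_eq_mul, smul_eq_mul, Nat.cast_pow, mul_pow] at h
  have hn' : (0 : ℝ) < (n : ℝ) ^ d := pow_pos (Nat.cast_pos.2 hn) d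
  rw [mul_assoc] at h
  exact mul_left_cancel₀ hn'.ne' h

lemma STr2_Gr {L₁ R c : ℝ} (hL : 0 < L₁) (hR : R < L₁ / 2) {n : ℕ} (hn : 0 < n)
    {g : (Fin d → ℝ) → ℝ} (hc : ∀ y, R ≤ ‖y‖ → g y = c) {G : Tor d → ℝ} (hG : C1 (n * L₁) G)
    (h : ∀ m y, y ∈ cube d L₁ →
      ∀ r, pd (n * L₁) r G (cell L₁ n m y) = fderiv ℝ g y (Pi.single r 1)) :
    L₁ ^ d * Gr (n * L₁) G = GrR g := by
  rw [Gr_real, GrR, Finset.mul_sum]
  refine Finset.sum_congr rfl fun r _ => ?_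
  refine STr2_per (F := fun x => pd (n * L₁) r G x ^ 2) hL hn ((hG.cpd r).pow 2)
    (fun m y hy => by simp only [h m y hy r]) fun y hy => ?_
  have : g =ᶠ[nhds y] fun _ => c := by
    filter_upwards [(isOpen_lt continuous_const continuous_norm).mem_nhds
      (hR.trans_le (STr2_not_mem hL hy))] with z hz
    exact hc z (le_of_lt hz)
  rw [this.fderiv_eq]
  simp

/-- The localized Bessel bound for one unfolded copy. -/
lemma STr2_bessel {L₁ R : ℝ} (hL : 0 < L₁) (hR : R < L₁ / 2) {n : ℕ} (hn : 0 < n)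
    {w : Tor d → ℝ} {w₀ : (Fin d → ℝ) → ℝ} (hw : Continuous w) (hw₀ : Continuous w₀)
    (h1 : ∀ m y, y ∈ cube d L₁ → w (cell L₁ n m y) = w₀ y) (h2 : ∀ y, R ≤ ‖y‖ → w₀ y = 0)
    {ι : Type} [Fintype ι] {v : ι → Tor d → ℂ} (hv : ∀ i, Continuous (v i))
    (hb : ∀ φ : Tor d → ℂ, MemLp φ 2 volume →
      ∑ i, ‖(((n * L₁) ^ d : ℝ) : ℂ) * ∫ x, conj (v i x) * φ x‖ ^ 2 ≤
        (n * L₁) ^ d * ∫ x, w x * ‖φ x‖ ^ 2)
    (m : Fin d → Fin n) (h3 : ∀ i y, y ∈ cube d L₁ → R ≤ ‖y‖ → v i (cell L₁ n m y) = 0)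
    (φ : (Fin d → ℝ) → ℂ) (hφ : MemLp φ 2 volume) :
    Integrable (fun x => w₀ x * ‖φ x‖ ^ 2) ∧
      ∑ i, ‖∫ x, conj (STr2_cut L₁ (fun y => v i (cell L₁ n m y)) x) * φ x‖ ^ 2 ≤
        1 * ∫ x, w₀ x * ‖φ x‖ ^ 2 := by
  classical
  have hs : HasCompactSupport w₀ :=
    HasCompactSupport.intro (isCompact_closedBall 0 R) fun y hy =>
      h2 y (le_of_lt (not_le.1 fun h => hy (mem_closedBall_zero_iff.2 h)))
  obtain ⟨C, hC⟩ := hw₀.bounded_above_of_compact_support hs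
  refine ⟨((memLp_two_iff_integrable_sq_norm hφ.1).1 hφ).bdd_mul hw₀.aestronglyMeasurable
    (Filter.Eventually.of_forall hC), ?_⟩
  obtain ⟨ψ, hψm, hψ⟩ : ∃ ψ : (Fin d → ℝ) → ℂ, Measurable ψ ∧ φ =ᵐ[volume] ψ :=
    ⟨hφ.1.mk φ, hφ.1.stronglyMeasurable_mk.measurable, hφ.1.ae_eq_mk⟩
  have hψ2 : MemLp ψ 2 volume := hφ.ae_eq hψ
  have e1 : ∀ i, ∫ x, conj (STr2_cut L₁ (fun y => v i (cell L₁ n m y)) x) * φ x =
      ∫ x, conj (STr2_cut L₁ (fun y => v i (cell L₁ n m y)) x) * ψ x := fun i =>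
    integral_congr_ae (by filter_upwards [hψ] with x hx; rw [hx])
  have e2 : ∫ x, w₀ x * ‖φ x‖ ^ 2 = ∫ x, w₀ x * ‖ψ x‖ ^ 2 :=
    integral_congr_ae (by filter_upwards [hψ] with x hx; rw [hx])
  simp only [e1, e2, one_mul]
  obtain ⟨idx, pos, hi, hp, -, hc⟩ := exists_cell (d := d) hL hn
  obtain ⟨T, hT⟩ : ∃ T : Tor d → ℂ, T = fun x => if idx x = m then ψ (pos x) else 0 := ⟨_, rfl⟩
  have hTm : Measurable T := by
    rw [hT]
    exact Measurable.ite (hi (measurableSet_singleton m)) (hψm.comp hp) measurable_const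
  have t0 : ∀ m' y, m' ≠ m → y ∈ cube d L₁ → T (cell L₁ n m' y) = 0 := fun m' y hm hy => by
    rw [hT]
    exact if_neg (by rw [(hc m' y hy).1]; exact hm)
  have t1 : ∀ y, y ∈ cube d L₁ → T (cell L₁ n m y) = ψ y := fun y hy => by
    rw [hT]
    exact (if_pos (hc m y hy).1).trans (by rw [(hc m y hy).2])
  have hT2 : Integrable fun x => ‖T x‖ ^ 2 := by
    refine integrable_of_cells hL hn (hTm.norm.pow_const 2).aestronglyMeasurable fun m' => ?_
    by_cases hm : m' = m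
    · subst hm
      exact (((memLp_two_iff_integrable_sq_norm hψ2.1).1 hψ2).integrableOn).congr_fun
        (fun y hy => by simp only [t1 y hy]) (measurableSet_cube L₁)
    · exact (integrableOn_zero (ε' := ℝ)).congr_fun
        (fun y hy => by simp [t0 m' y hm hy]) (measurableSet_cube L₁)
  have hTL : MemLp T 2 volume := (memLp_two_iff_integrable_sq_norm hTm.aestronglyMeasurable).2 hT2
  have key := hb T hTL
  obtain ⟨C', hC'⟩ := (isCompact_range hw).isBounded.exists_norm_le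
  have r1 : ((n * L₁) ^ d : ℝ) • ∫ x, w x * ‖T x‖ ^ 2 = ∫ x, w₀ x * ‖ψ x‖ ^ 2 :=
    STr2_single hL hn (hT2.bdd_mul hw.aestronglyMeasurable
      (Filter.Eventually.of_forall fun x => hC' _ ⟨x, rfl⟩)) m
      (fun m' y hm hy => by simp [t0 m' y hm hy]) (fun y hy => by rw [h1 m y hy, t1 y hy])
      fun y hy => by rw [h2 y (hR.le.trans (STr2_not_mem hL hy)), zero_mul]
  have r2 : ∀ i, ((n * L₁) ^ d : ℝ) • ∫ x, conj (v i x) * T x =
      ∫ x, conj (STr2_cut L₁ (fun y => v i (cell L₁ n m y)) x) * ψ x := fun i => by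
    refine STr2_single (F := fun x => conj (v i x) * T x) hL hn
      ((cont_memLp (Complex.continuous_conj.comp (hv i))).integrable_mul hTL) m
      (fun m' y hm hy => by simp [t0 m' y hm hy]) (fun y hy => ?_) fun y hy => ?_
    · simp only [t1 y hy]
      unfold STr2_cut
      split_ifs with h
      · rfl
      · rw [h3 i y hy (hR.le.trans (not_lt.1 h))]
    · unfold STr2_cut
      rw [if_neg (not_lt.2 (STr2_not_mem hL hy))]
      simp
  rw [← r1, smul_eq_mul]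
  simp only [← r2, Complex.real_smul]
  exact key

/-- The best of the copies of a periodic family, unfolded to the whole space. -/
theorem unfold_fam {L₁ R E : ℝ} (hL : 0 < L₁) (hR : R < L₁ / 2) {n : ℕ} (hn : 0 < n)
    {w ρ : Tor d → ℝ} {w₀ ρ₀ : (Fin d → ℝ) → ℝ} (hw : Continuous w) (hw₀ : Continuous w₀)
    (h1 : ∀ m y, y ∈ cube d L₁ → w (cell L₁ n m y) = w₀ y ∧ ρ (cell L₁ n m y) = ρ₀ y)
    (h2 : ∀ y, R ≤ ‖y‖ → w₀ y = 0 ∧ ρ₀ y = 0) (h : TFam (n * L₁) w ρ E) :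
    ∃ E' : Fin d → ℝ, RFam 1 w₀ ρ₀ E' ∧ ∑ r, E' r ≤ L₁ ^ d * E := by
  obtain ⟨ι, _, v, hv, hb, hρ, hE⟩ := h
  have z0 : ∀ m i y, y ∈ cube d L₁ → R ≤ ‖y‖ → v i (cell L₁ n m y) = 0 := by
    intro m i y hy hR'
    have h0 := hρ (cell L₁ n m y)
    rw [(h1 m y hy).2, (h2 y hR').2,
      Finset.sum_eq_zero_iff_of_nonneg fun _ _ => sq_nonneg _] at h0
    simpa using h0 i (Finset.mem_univ i)
  have z1 : ∀ m i y, ‖y‖ < L₁ / 2 → R < ‖y‖ → v i (cell L₁ n m y) = 0 :=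
    fun m i y hy hR' => z0 m i y (STr2_mem_cube hL hy) hR'.le
  have dd : ∀ m i r y, HasDerivAt (fun t : ℝ => v i (cell L₁ n m (y + t • Pi.single r (1 : ℝ))))
      (pd (n * L₁) r (v i) (cell L₁ n m y)) 0 := by
    intro m i r y
    have := ((hv i).diff r (cell L₁ n m y)).hasDerivAt
    simpa only [cell_mv, pd] using this
  have z2 : ∀ m i r y, ‖y‖ < L₁ / 2 → R < ‖y‖ → pd (n * L₁) r (v i) (cell L₁ n m y) = 0 := by
    intro m i r y hy hR'
    have e := (STr2_line y r).eventually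
      ((STr2_cut_in (F := fun y => v i (cell L₁ n m y)) hy).symm.trans
        (STr2_cut_out (z1 m i) hR'))
    exact (dd m i r y).unique ((hasDerivAt_const (0 : ℝ) (0 : ℂ)).congr_of_eventuallyEq e)
  have c1 : ∀ m i, Continuous (STr2_cut L₁ fun y => v i (cell L₁ n m y)) := fun m i =>
    STr2_cut_cont hR ((hv i).cont.comp (continuous_cell L₁ n m)) (z1 m i)
  have c2 : ∀ m i r, Continuous (STr2_cut L₁ fun y => pd (n * L₁) r (v i) (cell L₁ n m y)) :=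
    fun m i r => STr2_cut_cont hR (((hv i).cpd r).comp (continuous_cell L₁ n m)) (z2 m i r)
  have dc : ∀ m i r y, HasDerivAt
      (fun t : ℝ => STr2_cut L₁ (fun y => v i (cell L₁ n m y)) (y + t • Pi.single r (1 : ℝ)))
      (STr2_cut L₁ (fun y => pd (n * L₁) r (v i) (cell L₁ n m y)) y) 0 := by
    intro m i r y
    rcases lt_or_ge ‖y‖ (L₁ / 2) with hy | hy
    · rw [(STr2_cut_in hy).self_of_nhds]
      exact (dd m i r y).congr_of_eventuallyEq ((STr2_line y r).eventually (STr2_cut_in hy))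
    · rw [(STr2_cut_out (z2 m i r) (hR.trans_le hy)).self_of_nhds]
      exact (hasDerivAt_const (0 : ℝ) (0 : ℂ)).congr_of_eventuallyEq
        ((STr2_line y r).eventually (STr2_cut_out (z1 m i) (hR.trans_le hy)))
  obtain ⟨E', hE'⟩ : ∃ E' : (Fin d → Fin n) → Fin d → ℝ, E' = fun m r =>
      ∑ i, ∫ y, ‖STr2_cut L₁ (fun y => pd (n * L₁) r (v i) (cell L₁ n m y)) y‖ ^ 2 := ⟨_, rfl⟩
  have tot : ∑ m, ∑ r, E' m r ≤ ∑ _m : Fin d → Fin n, L₁ ^ d * E := by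
    have a1 : ∀ i r, ∑ m : Fin d → Fin n,
        ∫ y, ‖STr2_cut L₁ (fun y => pd (n * L₁) r (v i) (cell L₁ n m y)) y‖ ^ 2 ≤
        (n * L₁) ^ d * ∫ x, ‖pd (n * L₁) r (v i) x‖ ^ 2 := by
      intro i r
      obtain ⟨b1, b2⟩ := integral_cells hL hn (cont_int (((hv i).cpd r).norm.pow 2))
      rw [smul_eq_mul] at b2
      refine le_trans (Finset.sum_le_sum fun m _ => ?_) b2.ge
      rw [← setIntegral_eq_integral_of_forall_compl_eq_zero (s := cube d L₁) fun y hy => by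
        unfold STr2_cut
        rw [if_neg (not_lt.2 (STr2_not_mem hL hy))]
        simp]
      refine integral_mono_of_nonneg (Filter.Eventually.of_forall fun y => sq_nonneg _) (b1 m)
        (Filter.Eventually.of_forall fun y => ?_)
      show ‖STr2_cut L₁ _ y‖ ^ 2 ≤ ‖pd (n * L₁) r (v i) (cell L₁ n m y)‖ ^ 2
      unfold STr2_cut
      split_ifs
      · exact le_rfl
      · simp
    have a2 : ∑ m, ∑ r, E' m r = ∑ i, ∑ r, ∑ m : Fin d → Fin n,
        ∫ y, ‖STr2_cut L₁ (fun y => pd (n * L₁) r (v i) (cell L₁ n m y)) y‖ ^ 2 := by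
      rw [hE', Finset.sum_comm]
      simp only [Finset.sum_comm (s := (Finset.univ : Finset (Fin d → Fin n)))]
      exact Finset.sum_comm
    have hp : (0 : ℝ) ≤ (n * L₁) ^ d := by positivity
    calc _ = _ := a2
      _ ≤ ∑ i, ∑ r, (n * L₁) ^ d * ∫ x, ‖pd (n * L₁) r (v i) x‖ ^ 2 :=
        Finset.sum_le_sum fun i _ => Finset.sum_le_sum fun r _ => a1 i r
      _ = (n * L₁) ^ d * ∑ i, Gr (n * L₁) (v i) := by
        simp only [Gr, Finset.mul_sum]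
      _ ≤ (n * L₁) ^ d * E := mul_le_mul_of_nonneg_left hE hp
      _ = _ := by
        simp only [Finset.sum_const, Finset.card_univ, Fintype.card_pi, Fintype.card_fin,
          Finset.prod_const, nsmul_eq_mul, Nat.cast_pow, mul_pow, mul_assoc]
  obtain ⟨m, -, hm⟩ := Finset.exists_le_of_sum_le ⟨fun _ => ⟨0, hn⟩, Finset.mem_univ _⟩ tot
  refine ⟨E' m, ⟨fun r => ?_, ι, inferInstance,
    fun i => STr2_cut L₁ fun y => v i (cell L₁ n m y), fun i => (c1 m i).measurable,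
    fun i => (c1 m i).memLp_of_hasCompactSupport STr2_cut_supp,
    STr2_bessel hL hR hn hw hw₀ (fun m y hy => (h1 m y hy).1) (fun y hy => (h2 y hy).1)
      (fun i => (hv i).cont) hb m (z0 m), fun y => ?_, fun r t ht => ?_,
    fun a i => by simp⟩, hm⟩
  · rw [hE']
    exact Finset.sum_nonneg fun i _ => integral_nonneg fun y => sq_nonneg _
  · by_cases hy : ‖y‖ < L₁ / 2
    · simp only [STr2_cut, if_pos hy]
      rw [hρ, (h1 m y (STr2_mem_cube hL hy)).2]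
    · simp only [STr2_cut, if_neg hy]
      rw [(h2 y (hR.le.trans (not_lt.1 hy))).2]
      simp
  · rw [hE']
    simp only [Finset.mul_sum]
    exact Finset.sum_le_sum fun i _ =>
      diff_le_fderiv r (c1 m i) (c2 m i r) STr2_cut_supp STr2_cut_supp (dc m i r) t ht

/-- The local bound on the whole space. -/
theorem transfer {η C₁ C₂ e k : ℝ} (h : PS d η C₁ C₂ e k)
    {σ χ : (Fin d → ℝ) → ℝ} (hσ : ContDiff ℝ 1 σ) (hχ : ContDiff ℝ 1 χ) {R c : ℝ}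
    (hc : ∀ y, R ≤ ‖y‖ → σ y = c ∧ χ y = 0)
    (hl : ∀ y, |σ y - sig0 d * k ^ d| ≤ η * (sig0 d * k ^ d)) (h1 : ∀ y, |χ y| ≤ 1) {ε : ℝ}
    (hε : 0 < ε) : ∃ E : Fin d → ℝ, RFam 1 (fun y => χ y ^ 2) (fun y => χ y ^ 2 * σ y) E ∧
      ∑ r, E r ≤ (1 + e) * (∫ y, χ y ^ 2 * TF d (σ y)) + C₁ / k ^ d * GrR σ +
        C₂ * k ^ d * GrR χ + ε := by
  obtain ⟨L₁, hL, hR⟩ : ∃ L₁ : ℝ, 0 < L₁ ∧ R < L₁ / 2 :=
    ⟨2 * max R 0 + 2, by positivity, by linarith [le_max_left R 0]⟩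
  have hp : 0 < L₁ ^ d := pow_pos hL d
  obtain ⟨L₀, h0, hP⟩ := h (ε / L₁ ^ d) (div_pos hε hp)
  obtain ⟨n, hn⟩ := exists_nat_ge (L₀ / L₁)
  have hn0 : 0 < n := Nat.cast_pos.1 ((div_pos h0 hL).trans_le hn)
  obtain ⟨S, hS, hS'⟩ := periodize hL hR hn0 hσ fun y hy => (hc y hy).1
  obtain ⟨X, hX, hX'⟩ := periodize hL hR hn0 hχ fun y hy => (hc y hy).2
  obtain ⟨idx, pos, -, -, hi, -⟩ := exists_cell (d := d) hL hn0
  have hT := hP (n * L₁) ((div_le_iff₀ hL).1 hn) S X hS hX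
    (fun x => by rw [← (hi x).2, (hS' _ _ (hi x).1).1]; exact hl _)
    (fun x => by rw [← (hi x).2, (hX' _ _ (hi x).1).1]; exact h1 _)
  obtain ⟨E, hE, hE'⟩ := unfold_fam hL hR hn0 (w := fun x => X x ^ 2) (w₀ := fun y => χ y ^ 2)
    (ρ₀ := fun y => χ y ^ 2 * σ y) (hX.cont.pow 2) (hχ.continuous.pow 2)
    (fun m y hy => by simp only [(hS' m y hy).1, (hX' m y hy).1, and_self])
    (fun y hy => by simp [(hc y hy).2]) hT
  refine ⟨E, hE, hE'.trans_eq ?_⟩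
  have e1 : L₁ ^ d * ∫ x, X x ^ 2 * TF d (S x) = ∫ y, χ y ^ 2 * TF d (σ y) :=
    STr2_per (F := fun x => X x ^ 2 * TF d (S x)) hL hn0
      ((hX.cont.pow 2).mul (TF_cont.comp hS.cont))
      (fun m y hy => by simp only [(hS' m y hy).1, (hX' m y hy).1])
      fun y hy => by simp [(hc y (hR.le.trans (STr2_not_mem hL hy))).2]
  rw [← e1, ← STr2_Gr hL hR hn0 (fun y hy => (hc y hy).1) hS fun m y hy => (hS' m y hy).2,
    ← STr2_Gr hL hR hn0 (fun y hy => (hc y hy).2) hX fun m y hy => (hX' m y hy).2]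
  have : L₁ ^ d * (ε / L₁ ^ d) = ε := mul_div_cancel₀ ε hp.ne'
  linear_combination this

end Pool.Agent.Lib.MP_ae5e3b_mp.Sh
end

-- part Pool.Agent.Lib.MP_ae5e3b_mp.SSm
section

open MeasureTheory Matrix Real
open scoped ComplexConjugate ComplexOrder

set_option linter.unusedSectionVars false

namespace Pool.Agent.Lib.MP_ae5e3b_mp.Sh

variable {d : ℕ}

lemma SSm_deriv_right {f : ℝ → ℝ} {β c : ℝ} (h : ∀ z, β ≤ z → f z = c) {z : ℝ} (hz : β < z) :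
    deriv f z = 0 := by
  have : f =ᶠ[nhds z] fun _ => c := by
    filter_upwards [Ioi_mem_nhds hz] with y hy using h y (le_of_lt hy)
  rw [this.deriv_eq]; simp

lemma SSm_deriv_left {f : ℝ → ℝ} {α c : ℝ} (h : ∀ z, z ≤ α → f z = c) {z : ℝ} (hz : z < α) :
    deriv f z = 0 := by
  have : f =ᶠ[nhds z] fun _ => c := by
    filter_upwards [Iio_mem_nhds hz] with y hy using h y (le_of_lt hy)
  rw [this.deriv_eq]; simp

lemma SSm_deriv_bd {f : ℝ → ℝ} (hf : ContDiff ℝ 1 f) {β c : ℝ} (h : ∀ z, β ≤ z → f z = c) :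
    ∃ M : ℝ, 0 ≤ M ∧ ∀ z, 0 ≤ z → deriv f z ^ 2 ≤ M := by
  have hc : Continuous fun z => deriv f z ^ 2 := (hf.continuous_deriv le_rfl).pow 2
  obtain ⟨M, hM⟩ := (isCompact_Icc (a := (0 : ℝ)) (b := β)).bddAbove_image hc.continuousOn
  refine ⟨max M 0, le_max_right _ _, fun z hz => ?_⟩
  by_cases hb : z ≤ β
  · exact (hM ⟨z, ⟨hz, hb⟩, rfl⟩).trans (le_max_left _ _)
  · rw [SSm_deriv_right h (not_le.1 hb)]; simp

/-- Bounded overlap along a geometric sequence of levels. -/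
lemma SSm_overlap {F : ℝ → ℝ} {q α β M : ℝ} (hq : 1 < q) (hα : 0 < α) (hβ : 0 < β) (hM : 0 ≤ M)
    (h1 : ∀ z, 0 ≤ z → F z ≤ M) (h2 : ∀ z, z < α ∨ β < z → F z ≤ 0) :
    ∃ K : ℝ, 0 < K ∧ ∀ y : ℝ, 0 ≤ y → ∀ J : ℕ, ∑ j ∈ Finset.range J, F (y / q ^ (j + 1)) ≤ K := by
  have hq0 : 0 < q := by linarith
  have hq1 : 0 < q - 1 := by linarith
  obtain ⟨K, hK0, hK⟩ : ∃ K : ℝ, 0 ≤ K ∧ M = K * ((q - 1) * α) :=
    ⟨M / ((q - 1) * α), by positivity, by field_simp⟩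
  have key : ∀ z, 0 ≤ z → F z ≤ K * (min (q * z) (q * β) - min z (q * β)) := by
    intro z hz
    have hz' : z ≤ q * z := by nlinarith
    by_cases hc : z < α ∨ β < z
    · exact (h2 z hc).trans (mul_nonneg hK0 (sub_nonneg.2 (min_le_min hz' le_rfl)))
    · push Not at hc
      have e1 : q * z ≤ q * β := mul_le_mul_of_nonneg_left hc.2 hq0.le
      rw [min_eq_left e1, min_eq_left (hz'.trans e1)]
      refine (h1 z hz).trans ?_
      rw [hK]
      refine mul_le_mul_of_nonneg_left ?_ hK0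
      nlinarith [hc.1]
  refine ⟨K * (q * β) + 1, by positivity, fun y hy J => ?_⟩
  have e : ∀ j : ℕ, q * (y / q ^ (j + 1)) = y / q ^ j := by
    intro j; field_simp; ring
  calc ∑ j ∈ Finset.range J, F (y / q ^ (j + 1))
      ≤ ∑ j ∈ Finset.range J, K * (min (y / q ^ j) (q * β) - min (y / q ^ (j + 1)) (q * β)) := by
        refine Finset.sum_le_sum fun j _ => ?_
        have := key (y / q ^ (j + 1)) (by positivity)
        rwa [e] at this
    _ = K * (min (y / q ^ 0) (q * β) - min (y / q ^ J) (q * β)) := by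
        rw [← Finset.mul_sum, Finset.sum_range_sub' (fun j => min (y / q ^ j) (q * β))]
    _ ≤ K * (q * β) + 1 := by
        have a1 : min (y / q ^ 0) (q * β) ≤ q * β := min_le_right _ _
        have a2 : 0 ≤ min (y / q ^ J) (q * β) := le_min (by positivity) (by positivity)
        have : K * (min (y / q ^ 0) (q * β) - min (y / q ^ J) (q * β)) ≤ K * (q * β) :=
          mul_le_mul_of_nonneg_left (by linarith) hK0
        linarith

/-- A smooth step and its complementary amplitude. -/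
lemma SSm_step {q : ℝ} (hq : 1 < q) : ∃ P Q : ℝ → ℝ, ContDiff ℝ 1 P ∧ ContDiff ℝ 1 Q ∧
    (∀ z, P z ^ 2 + Q z ^ 2 = 1) ∧ (∀ z, 0 ≤ P z) ∧ (∀ z, P z ≤ 1) ∧ (∀ z, z ≤ 1 → P z = 0) ∧
    ∀ z, q ≤ z → P z = 1 ∧ Q z = 0 := by
  have hq1 : 0 < q - 1 := by linarith
  have hθ : ContDiff ℝ 1 fun z : ℝ => π / 2 * smoothTransition ((z - 1) / (q - 1)) :=
    contDiff_const.mul ((smoothTransition.contDiff (n := 1)).comp
      ((contDiff_id.sub contDiff_const).div_const _))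
  refine ⟨fun z => sin (π / 2 * smoothTransition ((z - 1) / (q - 1))),
    fun z => cos (π / 2 * smoothTransition ((z - 1) / (q - 1))), hθ.sin, hθ.cos,
    fun z => sin_sq_add_cos_sq _, fun z => ?_, fun z => sin_le_one _, fun z hz => ?_,
    fun z hz => ?_⟩
  · have a := smoothTransition.nonneg ((z - 1) / (q - 1))
    have b := smoothTransition.le_one ((z - 1) / (q - 1))
    have := pi_pos
    exact sin_nonneg_of_nonneg_of_le_pi (by positivity) (by nlinarith)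
  · have : (z - 1) / (q - 1) ≤ 0 := div_nonpos_of_nonpos_of_nonneg (by linarith) hq1.le
    simp only [smoothTransition.zero_of_nonpos this, mul_zero, sin_zero]
  · have : 1 ≤ (z - 1) / (q - 1) := by rw [le_div_iff₀ hq1]; linarith
    simp only [smoothTransition.one_of_one_le this, mul_one, sin_pi_div_two, cos_pi_div_two,
      and_self]

/-- The profiles of the level partition: step, amplitude and clipped density. -/
lemma SSm_prof {η : ℝ} (h0 : 0 < η) (h1 : η ≤ 1 / 4) : ∃ (q : ℝ) (P A S : ℝ → ℝ), 1 < q ∧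
    ContDiff ℝ 1 P ∧ ContDiff ℝ 1 A ∧ ContDiff ℝ 1 S ∧ (∀ z, 0 ≤ P z) ∧ (∀ z, P z ≤ 1) ∧
    (∀ z, z ≤ 1 → P z = 0) ∧ (∀ z, q ≤ z → P z = 1) ∧
    (∀ z, A z ^ 2 = P (q * z) ^ 2 - P z ^ 2) ∧ (∀ z, |S z - 1| ≤ η) ∧
    (∀ z, A z = 0 ∨ S z = z ^ 2) ∧ (∀ z, z ≤ 1 / q ^ 2 → A z = 0 ∧ S z = 1) ∧
    ∀ z, q ^ 2 ≤ z → A z = 0 ∧ S z = 1 := by
  obtain ⟨q, hq, hq4⟩ : ∃ q : ℝ, 1 < q ∧ q ^ 4 ≤ 1 + η := by
    refine ⟨1 + η / 10, by linarith, ?_⟩
    have a : (1 + η / 10) ^ 2 ≤ 1 + η / 4 := by nlinarith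
    have b : (1 + η / 10) ^ 4 = ((1 + η / 10) ^ 2) ^ 2 := by ring
    have c : ((1 + η / 10) ^ 2) ^ 2 ≤ (1 + η / 4) ^ 2 := pow_le_pow_left₀ (by positivity) a 2
    rw [b]; nlinarith
  have hq0 : 0 < q := by linarith
  have hqq : q ≤ q ^ 2 := by nlinarith
  obtain ⟨P, Q, cP, cQ, hPQ, P0, P1, Pl, Pr⟩ := SSm_step hq
  have cm : ∀ c : ℝ, ContDiff ℝ 1 fun z => P (c * z) := fun c =>
    cP.comp (contDiff_const.mul contDiff_id)
  refine ⟨q, P, fun z => P (q * z) * Q z,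
    fun z => 1 + (z ^ 2 - 1) * (P (q ^ 2 * z) * (1 - P (q⁻¹ * z))), hq, cP, (cm q).mul cQ,
    contDiff_const.add (((contDiff_id.pow 2).sub contDiff_const).mul
      ((cm _).mul (contDiff_const.sub (cm _)))), P0, P1, Pl, fun z hz => (Pr z hz).1,
    fun z => ?_, fun z => ?_, fun z => ?_, fun z hz => ?_, fun z hz => ?_⟩
  · have e : Q z ^ 2 = 1 - P z ^ 2 := by linarith [hPQ z]
    rw [mul_pow, e]
    rcases le_total z 1 with hz | hz
    · rw [Pl z hz]; ring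
    · rw [(Pr (q * z) (by nlinarith)).1]; ring
  · simp only [add_sub_cancel_left]
    by_cases a : q ^ 2 * z ≤ 1
    · rw [Pl _ a]; simp [h0.le]
    by_cases b : q ≤ q⁻¹ * z
    · rw [(Pr _ b).1]; simp [h0.le]
    push Not at a b
    have z0 : 0 < z := by
      by_contra hn
      have : q ^ 2 * z ≤ 0 := mul_nonpos_of_nonneg_of_nonpos (by positivity) (not_lt.1 hn)
      linarith
    have b' : z < q ^ 2 := by
      rw [inv_mul_lt_iff₀ hq0] at b; nlinarith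
    have u1 : z ^ 2 ≤ 1 + η := by
      have : z ^ 2 ≤ (q ^ 2) ^ 2 := pow_le_pow_left₀ z0.le b'.le 2
      nlinarith
    have u2 : 1 - η ≤ z ^ 2 := by
      have t1 : 1 ≤ (q ^ 2 * z) ^ 2 := one_le_pow₀ a.le
      have t2 : (q ^ 2 * z) ^ 2 = q ^ 4 * z ^ 2 := by ring
      have t3 : q ^ 4 * z ^ 2 ≤ (1 + η) * z ^ 2 := mul_le_mul_of_nonneg_right hq4 (sq_nonneg z)
      by_contra hn
      have t4 : (1 + η) * z ^ 2 ≤ (1 + η) * (1 - η) :=
        mul_le_mul_of_nonneg_left (not_le.1 hn).le (by linarith)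
      nlinarith
    have w0 : 0 ≤ P (q ^ 2 * z) * (1 - P (q⁻¹ * z)) := mul_nonneg (P0 _) (sub_nonneg.2 (P1 _))
    have w1 : P (q ^ 2 * z) * (1 - P (q⁻¹ * z)) ≤ 1 :=
      mul_le_one₀ (P1 _) (sub_nonneg.2 (P1 _)) (by linarith [P0 (q⁻¹ * z)])
    rw [abs_mul, abs_of_nonneg w0]
    have : |z ^ 2 - 1| ≤ η := abs_le.2 ⟨by linarith, by linarith⟩
    calc |z ^ 2 - 1| * (P (q ^ 2 * z) * (1 - P (q⁻¹ * z))) ≤ η * 1 :=
          mul_le_mul this w1 w0 h0.le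
      _ = η := mul_one _
  · by_cases a : q * z ≤ 1
    · left; simp only [Pl _ a, zero_mul]
    by_cases b : q ≤ z
    · left; simp only [(Pr _ b).2, mul_zero]
    push Not at a b
    right
    have a' : q ≤ q ^ 2 * z := by nlinarith
    have b' : q⁻¹ * z ≤ 1 := by
      rw [inv_mul_le_iff₀ hq0]; linarith
    simp only [(Pr _ a').1, Pl _ b']; ring
  · have a : q ^ 2 * z ≤ 1 := by
      rw [le_div_iff₀ (by positivity)] at hz; linarith
    have b : q * z ≤ 1 := by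
      rcases le_total z 0 with h | h
      · nlinarith
      · nlinarith
    simp only [Pl _ a, Pl _ b]; simp
  · have b : q ≤ q⁻¹ * z := by
      rw [le_inv_mul_iff₀ hq0]; nlinarith
    simp only [(Pr _ b).1, (Pr z (hqq.trans hz)).2]; simp

section U
variable {u : (Fin d → ℝ) → ℝ}

lemma SSm_contDiff {f : ℝ → ℝ} (hf : ContDiff ℝ 1 f) (hu : ContDiff ℝ 1 u) (c τ : ℝ) :
    ContDiff ℝ 1 fun y => c * f (u y / τ) :=
  contDiff_const.mul (hf.comp (hu.div_const τ))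

lemma SSm_fderiv {f : ℝ → ℝ} (hf : ContDiff ℝ 1 f) (hu : ContDiff ℝ 1 u) (c τ : ℝ)
    (x v : Fin d → ℝ) : fderiv ℝ (fun y => c * f (u y / τ)) x v =
      c / τ * deriv f (u x / τ) * fderiv ℝ u x v := by
  have h1 : HasFDerivAt u (fderiv ℝ u x) x := (hu.differentiable one_ne_zero x).hasFDerivAt
  have h2 : HasFDerivAt (fun y => u y / τ) (τ⁻¹ • fderiv ℝ u x) x := by
    have := h1.const_mul τ⁻¹
    refine this.congr_of_eventuallyEq (Filter.Eventually.of_forall fun y => ?_)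
    simp only [div_eq_inv_mul]
  have h3 : HasDerivAt f (deriv f (u x / τ)) (u x / τ) :=
    (hf.differentiable one_ne_zero _).hasDerivAt
  have h4 := (h3.comp_hasFDerivAt x h2).const_mul c
  have h5 : fderiv ℝ (fun y => c * f (u y / τ)) x =
      c • deriv f (u x / τ) • τ⁻¹ • fderiv ℝ u x := h4.fderiv
  rw [h5]
  simp only [_root_.smul_apply, smul_eq_mul]
  ring

lemma SSm_cont_pd (hu : ContDiff ℝ 1 u) (v : Fin d → ℝ) : Continuous fun x => fderiv ℝ u x v :=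
  (hu.continuous_fderiv one_ne_zero).clm_apply continuous_const

lemma SSm_int {G w : (Fin d → ℝ) → ℝ} (hG : Continuous G) (hw : Continuous w)
    (hs : HasCompactSupport w) : Integrable fun x => G x * w x :=
  (hG.mul hw).integrable_of_hasCompactSupport hs.mul_left

lemma SSm_supp_pd (hs : HasCompactSupport u) (v : Fin d → ℝ) :
    HasCompactSupport fun x => (fderiv ℝ u x v) ^ 2 :=
  (hs.fderiv ℝ).comp_left (g := fun L : (Fin d → ℝ) →L[ℝ] ℝ => (L v) ^ 2) (by simp)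

lemma SSm_int_pd (hu : ContDiff ℝ 1 u) (hs : HasCompactSupport u) {G : ℝ → ℝ}
    (hG : Continuous G) (τ : ℝ) (v : Fin d → ℝ) :
    Integrable fun x => G (u x / τ) * (fderiv ℝ u x v) ^ 2 :=
  SSm_int (hG.comp (hu.continuous.div_const τ)) ((SSm_cont_pd hu v).pow 2) (SSm_supp_pd hs v)

lemma SSm_TF_zero (hd : 0 < d) : TF d 0 = 0 := by
  have : (0 : ℝ) < 1 + 2 / (d : ℝ) := by positivity
  simp only [TF, zero_div, Real.zero_rpow this.ne', mul_zero]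

lemma SSm_supp_TF (hd : 0 < d) (hs : HasCompactSupport u) :
    HasCompactSupport fun x => TF d (u x ^ 2) :=
  hs.comp_left (g := fun t : ℝ => TF d (t ^ 2)) (by simp [SSm_TF_zero hd])

lemma SSm_sig0_pos (d : ℕ) : 0 < sig0 d := by
  have := omega_pos d
  have := pi_pos
  unfold sig0; positivity

lemma SSm_GrR {f : ℝ → ℝ} (hf : ContDiff ℝ 1 f) (hu : ContDiff ℝ 1 u) (c τ : ℝ) :
    GrR (fun y => c * f (u y / τ)) =
      (c / τ) ^ 2 * ∑ r, ∫ x, deriv f (u x / τ) ^ 2 * (fderiv ℝ u x (Pi.single r 1)) ^ 2 := by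
  unfold GrR
  rw [Finset.mul_sum]
  refine Finset.sum_congr rfl fun r _ => ?_
  rw [← integral_const_mul]
  refine integral_congr_ae (Filter.Eventually.of_forall fun x => ?_)
  simp only [SSm_fderiv hf hu]
  ring

/-- The family of one level. -/
lemma SSm_level (hd : 0 < d) {η C₁ C₂ e : ℝ} (h : ∀ k, 0 < k → PS d η C₁ C₂ e k)
    (hu : ContDiff ℝ 1 u) (hs : HasCompactSupport u) {A S : ℝ → ℝ} (cA : ContDiff ℝ 1 A)
    (cS : ContDiff ℝ 1 S) (A1 : ∀ z, |A z| ≤ 1) (A0 : A 0 = 0) (S1 : ∀ z, |S z - 1| ≤ η)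
    (AS : ∀ z, A z = 0 ∨ S z = z ^ 2) {τ ε : ℝ} (hτ : 0 < τ) (hε : 0 < ε) :
    ∃ E : Fin d → ℝ, RFam 1 (fun y => A (u y / τ) ^ 2) (fun y => A (u y / τ) ^ 2 * u y ^ 2) E ∧
      ∑ r, E r ≤ (1 + e) * (∫ y, A (u y / τ) ^ 2 * TF d (u y ^ 2)) +
        ∑ r, (∫ x, (C₁ * sig0 d * deriv S (u x / τ) ^ 2 + C₂ / sig0 d * deriv A (u x / τ) ^ 2) *
          (fderiv ℝ u x (Pi.single r 1)) ^ 2) + ε := by
  have s0 := SSm_sig0_pos d
  obtain ⟨k, hk, hkd⟩ : ∃ k : ℝ, 0 < k ∧ k ^ d = τ ^ 2 / sig0 d :=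
    ⟨(τ ^ 2 / sig0 d) ^ ((d : ℝ)⁻¹), by positivity,
      Real.rpow_inv_natCast_pow (by positivity) hd.ne'⟩
  have hT : sig0 d * k ^ d = τ ^ 2 := by rw [hkd]; field_simp
  obtain ⟨R, hR⟩ : ∃ R : ℝ, ∀ y, R ≤ ‖y‖ → u y = 0 := by
    obtain ⟨R, hR⟩ := hs.isCompact.isBounded.subset_ball (0 : Fin d → ℝ)
    refine ⟨R, fun y hy => ?_⟩
    by_contra hn
    have := hR (subset_tsupport u hn)
    rw [mem_ball_zero_iff] at this
    linarith
  obtain ⟨E, hE, hb⟩ := transfer (h k hk) (σ := fun y => τ ^ 2 * S (u y / τ))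
    (χ := fun y => 1 * A (u y / τ)) (SSm_contDiff cS hu _ _) (SSm_contDiff cA hu _ _) (R := R)
    (c := τ ^ 2 * S 0) (fun y hy => by simp only [hR y hy, zero_div, A0, mul_zero, and_self])
    (fun y => by
      rw [hT, ← mul_sub_one, abs_mul, abs_of_nonneg (sq_nonneg τ), mul_comm]
      exact mul_le_mul_of_nonneg_right (S1 _) (sq_nonneg τ))
    (fun y => by rw [one_mul]; exact A1 _) hε
  rw [SSm_GrR cS hu, SSm_GrR cA hu] at hb
  simp only [one_mul] at hE hb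
  have e1 : ∀ y, A (u y / τ) ^ 2 * (τ ^ 2 * S (u y / τ)) = A (u y / τ) ^ 2 * u y ^ 2 := by
    intro y
    rcases AS (u y / τ) with a | a
    · rw [a]; ring
    · rw [a]; field_simp
  have e2 : ∀ y, A (u y / τ) ^ 2 * TF d (τ ^ 2 * S (u y / τ)) =
      A (u y / τ) ^ 2 * TF d (u y ^ 2) := by
    intro y
    rcases AS (u y / τ) with a | a
    · rw [a]; ring
    · rw [a]; congr 2; field_simp
  refine ⟨E, hE.congr e1, hb.trans (le_of_eq ?_)⟩
  simp only [e2]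
  have iS := fun r : Fin d => SSm_int_pd hu hs (G := fun z => deriv S z ^ 2)
    ((cS.continuous_deriv le_rfl).pow 2) τ (Pi.single r 1)
  have iA := fun r : Fin d => SSm_int_pd hu hs (G := fun z => deriv A z ^ 2)
    ((cA.continuous_deriv le_rfl).pow 2) τ (Pi.single r 1)
  have e3 : ∀ r : Fin d, (∫ x, (C₁ * sig0 d * deriv S (u x / τ) ^ 2 +
      C₂ / sig0 d * deriv A (u x / τ) ^ 2) * (fderiv ℝ u x (Pi.single r 1)) ^ 2) =
      C₁ * sig0 d * (∫ x, deriv S (u x / τ) ^ 2 * (fderiv ℝ u x (Pi.single r 1)) ^ 2) +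
      C₂ / sig0 d * ∫ x, deriv A (u x / τ) ^ 2 * (fderiv ℝ u x (Pi.single r 1)) ^ 2 := by
    intro r
    rw [← integral_const_mul, ← integral_const_mul,
      ← integral_add ((iS r).const_mul _) ((iA r).const_mul _)]
    refine integral_congr_ae (Filter.Eventually.of_forall fun x => ?_)
    simp only
    ring
  simp only [e3]
  rw [Finset.sum_add_distrib, ← Finset.mul_sum, ← Finset.mul_sum, hkd]
  field_simp
  ring

/-- The contribution of the lowest level tends to zero. -/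
lemma SSm_small (hu : Continuous u) (u0 : ∀ x, 0 ≤ u x) {G : ℝ → ℝ} (hG : Continuous G)
    {M β : ℝ} (hβ : 0 < β) (G1 : ∀ z, 0 ≤ z → |G z| ≤ M) (G0 : ∀ z, β < z → G z = 0)
    {w : (Fin d → ℝ) → ℝ} (hw : Continuous w) (hi : Integrable w) (w0 : ∀ x, u x = 0 → w x = 0)
    {ε : ℝ} (hε : 0 < ε) : ∀ᶠ τ in nhdsWithin (0 : ℝ) (Set.Ioi 0), ∫ x, G (u x / τ) * w x ≤ ε := by
  have key : Filter.Tendsto (fun τ : ℝ => ∫ x, G (u x / τ) * w x) (nhdsWithin 0 (Set.Ioi 0))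
      (nhds (∫ _ : Fin d → ℝ, (0 : ℝ))) := by
    refine tendsto_integral_filter_of_dominated_convergence (fun x => M * ‖w x‖) ?_ ?_
      (hi.norm.const_mul M) (Filter.Eventually.of_forall fun x => ?_)
    · exact Filter.Eventually.of_forall fun τ =>
        ((hG.comp (hu.div_const τ)).mul hw).aestronglyMeasurable
    · filter_upwards [self_mem_nhdsWithin] with τ hτ
      refine Filter.Eventually.of_forall fun x => ?_
      rw [norm_mul]
      exact mul_le_mul_of_nonneg_right (G1 _ (div_nonneg (u0 x) (le_of_lt hτ))) (norm_nonneg _)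
    · rcases (u0 x).eq_or_lt with a | a
      · simp only [w0 x a.symm, mul_zero]; exact tendsto_const_nhds
      · refine tendsto_const_nhds.congr' ?_
        filter_upwards [Ioo_mem_nhdsGT (div_pos a hβ)] with τ hτ
        rw [G0 _ ?_, zero_mul]
        rw [lt_div_iff₀ hτ.1]
        have := hτ.2
        rw [lt_div_iff₀ hβ] at this
        linarith
  rw [integral_zero] at key
  exact key.eventually (Iic_mem_nhds hε)

/-- Removal of the lowest level. -/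
lemma SSm_cut (hu : ContDiff ℝ 1 u) (hs : HasCompactSupport u) (u0 : ∀ x, 0 ≤ u x)
    {P : ℝ → ℝ} {q : ℝ} (hq : 0 < q) (cP : ContDiff ℝ 1 P) (P0 : ∀ z, 0 ≤ P z)
    (P1 : ∀ z, P z ≤ 1) (Pr : ∀ z, q ≤ z → P z = 1) {ε : ℝ} (hε : 0 < ε) :
    ∃ τ : ℝ, 0 < τ ∧ ∫ x, (u x * P (u x / τ) - u x) ^ 2 ≤ ε ∧
      DQ (fun x => u x * P (u x / τ) - u x) (fun _ => ε) := by
  have cg : ContDiff ℝ 1 fun z : ℝ => z * (P z - 1) := contDiff_id.mul (cP.sub contDiff_const)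
  have gr : ∀ z : ℝ, q ≤ z → z * (P z - 1) = 0 := fun z hz => by rw [Pr z hz]; ring
  obtain ⟨M, M0, hM⟩ := SSm_deriv_bd cg gr
  have hu2 : HasCompactSupport fun x => u x ^ 2 := hs.comp_left (g := fun t : ℝ => t ^ 2) (by simp)
  have s1 := SSm_small hu.continuous u0 (G := fun z => (P z - 1) ^ 2)
    ((cP.continuous.sub continuous_const).pow 2) (M := 1) hq
    (fun z _ => by
      rw [abs_of_nonneg (sq_nonneg _)]; nlinarith [P0 z, P1 z])
    (fun z hz => by rw [Pr z hz.le]; ring) (w := fun x => u x ^ 2) (hu.continuous.pow 2)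
    ((hu.continuous.pow 2).integrable_of_hasCompactSupport hu2)
    (fun x hx => by rw [hx]; ring) hε
  have s2 : ∀ r : Fin d, ∀ᶠ τ in nhdsWithin (0 : ℝ) (Set.Ioi 0),
      ∫ x, deriv (fun z : ℝ => z * (P z - 1)) (u x / τ) ^ 2 *
        (fderiv ℝ u x (Pi.single r 1)) ^ 2 ≤ ε := fun r =>
    SSm_small hu.continuous u0 (G := fun z => deriv (fun z : ℝ => z * (P z - 1)) z ^ 2)
      ((cg.continuous_deriv le_rfl).pow 2) (M := M) hq
      (fun z hz => by rw [abs_of_nonneg (sq_nonneg _)]; exact hM z hz)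
      (fun z hz => by rw [SSm_deriv_right gr hz]; ring)
      (w := fun x => (fderiv ℝ u x (Pi.single r 1)) ^ 2) ((SSm_cont_pd hu _).pow 2)
      (((SSm_cont_pd hu _).pow 2).integrable_of_hasCompactSupport (SSm_supp_pd hs _))
      (fun x hx => by
        have : IsLocalMin u x := Filter.Eventually.of_forall fun y => by rw [hx]; exact u0 y
        rw [this.fderiv_eq_zero]; simp) hε
  obtain ⟨τ, ⟨a1, a2⟩, hτ⟩ :=
    ((s1.and (Filter.eventually_all.2 s2)).and self_mem_nhdsWithin).exists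
  have hτ : 0 < τ := hτ
  have e : ∀ x, u x * P (u x / τ) - u x = τ * (u x / τ * (P (u x / τ) - 1)) := by
    intro x; field_simp
  refine ⟨τ, hτ, le_of_eq_of_le ?_ a1, ?_⟩
  · refine integral_congr_ae (Filter.Eventually.of_forall fun x => ?_)
    simp only
    ring
  · simp only [e]
    have hc := SSm_contDiff cg hu τ τ
    have hsp : HasCompactSupport fun x => τ * (u x / τ * (P (u x / τ) - 1)) :=
      hs.comp_left (g := fun t : ℝ => τ * (t / τ * (P (t / τ) - 1))) (by simp)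
    refine (DQ_of_contDiff hc hsp).mono fun r => le_of_eq_of_le ?_ (a2 r)
    refine integral_congr_ae (Filter.Eventually.of_forall fun x => ?_)
    simp only [SSm_fderiv cg hu τ τ x]
    rw [div_self hτ.ne']
    ring

end U

/-- The sharp bound for a smooth amplitude, with the lowest level removed. -/
theorem smooth (hd : 0 < d) {η C₁ C₂ : ℝ} (h0 : 0 < η) (h1 : η ≤ 1 / 4) (hC₁ : 0 < C₁)
    (hC₂ : 0 < C₂) : ∃ C : ℝ, 0 < C ∧ ∀ e : ℝ, 0 ≤ e → (∀ k, 0 < k → PS d η C₁ C₂ e k) →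
    ∀ u : (Fin d → ℝ) → ℝ, ContDiff ℝ 1 u → HasCompactSupport u → (∀ x, 0 ≤ u x) →
    ∀ ε : ℝ, 0 < ε → ∃ (s : (Fin d → ℝ) → ℝ) (E : Fin d → ℝ), Continuous s ∧ (∀ x, 0 ≤ s x) ∧
      (∀ x, s x ≤ u x) ∧ ∫ x, (s x - u x) ^ 2 ≤ ε ∧ DQ (fun x => s x - u x) (fun _ => ε) ∧
      RFam 1 (fun _ => 1) (fun x => s x ^ 2) E ∧
      ∑ r, E r ≤ (1 + e) * (∫ x, TF d (u x ^ 2)) + C * GrR u + ε := by
  obtain ⟨q, P, A, S, hq, cP, cA, cS, P0, P1, Pl, Pr, hA, S1, AS, hl, hr⟩ := SSm_prof h0 h1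
  have hq0 : 0 < q := by linarith
  have s0 := SSm_sig0_pos d
  have P2 : ∀ z, P z ^ 2 ≤ 1 := fun z => pow_le_one₀ (P0 z) (P1 z)
  have A1 : ∀ z, |A z| ≤ 1 := fun z => by
    rw [← sq_le_one_iff_abs_le_one, hA]
    linarith [P2 (q * z), sq_nonneg (P z)]
  have A0 : A 0 = 0 := (hl 0 (by positivity)).1
  obtain ⟨MA, MA0, hMA⟩ := SSm_deriv_bd cA fun z hz => (hr z hz).1
  obtain ⟨MS, MS0, hMS⟩ := SSm_deriv_bd cS fun z hz => (hr z hz).2
  obtain ⟨F, hF⟩ : ∃ F : ℝ → ℝ,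
      F = fun z => C₁ * sig0 d * deriv S z ^ 2 + C₂ / sig0 d * deriv A z ^ 2 := ⟨_, rfl⟩
  have cF : Continuous F := by
    rw [hF]
    exact (continuous_const.mul ((cS.continuous_deriv le_rfl).pow 2)).add
      (continuous_const.mul ((cA.continuous_deriv le_rfl).pow 2))
  obtain ⟨K, K0, hK⟩ := SSm_overlap (F := F) (α := 1 / q ^ 2) (β := q ^ 2)
    (M := C₁ * sig0 d * MS + C₂ / sig0 d * MA) hq (by positivity) (by positivity) (by positivity)
    (fun z hz => by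
      rw [hF]
      exact add_le_add (mul_le_mul_of_nonneg_left (hMS z hz) (by positivity))
        (mul_le_mul_of_nonneg_left (hMA z hz) (by positivity)))
    (fun z hz => by
      rw [hF]
      rcases hz with hz | hz
      · simp only [SSm_deriv_left (fun z hz => (hl z hz).1) hz,
          SSm_deriv_left (fun z hz => (hl z hz).2) hz]
        simp
      · simp only [SSm_deriv_right (fun z hz => (hr z hz).1) hz,
          SSm_deriv_right (fun z hz => (hr z hz).2) hz]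
        simp)
  refine ⟨K, K0, fun e he hPS u hu hs u0 ε hε => ?_⟩
  obtain ⟨τ, hτ, c1, c2⟩ := SSm_cut hu hs u0 hq0 cP P0 P1 Pr hε
  obtain ⟨J, hJ⟩ : ∃ J : ℕ, ∀ x, u x / τ / q ^ J ≤ 1 := by
    obtain ⟨B, hB⟩ := hu.continuous.bddAbove_range_of_hasCompactSupport hs
    obtain ⟨J, hJ⟩ := pow_unbounded_of_one_lt (B / τ) hq
    refine ⟨J, fun x => ?_⟩
    rw [div_le_one (by positivity)]
    exact (div_le_div_of_nonneg_right (hB ⟨x, rfl⟩) hτ.le).trans hJ.le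
  have hε' : 0 < ε / (J + 1) := by positivity
  choose E hE hb using fun j : ℕ => SSm_level hd hPS hu hs cA cS A1 A0 S1 AS
    (τ := τ * q ^ (j + 1)) (by positivity) hε'
  have tel : ∀ x, ∑ j ∈ Finset.range J, A (u x / (τ * q ^ (j + 1))) ^ 2 = P (u x / τ) ^ 2 := by
    intro x
    have e1 : ∀ j : ℕ, A (u x / (τ * q ^ (j + 1))) ^ 2 =
        P (u x / τ / q ^ j) ^ 2 - P (u x / τ / q ^ (j + 1)) ^ 2 := by
      intro j
      rw [hA]
      congr 3
      · field_simp; ring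
      · field_simp
    simp only [e1]
    rw [Finset.sum_range_sub' (fun j => P (u x / τ / q ^ j) ^ 2), Pl _ (hJ x)]
    simp
  have hsum := RFam.sum (Finset.range J) fun j _ => hE j
  refine ⟨fun x => u x * P (u x / τ), fun r => ∑ j ∈ Finset.range J, E j r,
    hu.continuous.mul (cP.continuous.comp (hu.continuous.div_const τ)),
    fun x => mul_nonneg (u0 x) (P0 _), fun x => mul_le_of_le_one_right (u0 x) (P1 _), c1, c2,
    (hsum.const zero_le_one fun x => ?_).congr fun x => ?_, ?_⟩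
  · rw [tel, one_mul]; exact P2 _
  · rw [← Finset.sum_mul, tel]; ring
  have cT : Continuous fun x => TF d (u x ^ 2) := TF_cont.comp (hu.continuous.pow 2)
  have sT := SSm_supp_TF hd hs
  have b1 : ∑ j ∈ Finset.range J, (∫ y, A (u y / (τ * q ^ (j + 1))) ^ 2 * TF d (u y ^ 2)) ≤
      ∫ x, TF d (u x ^ 2) := by
    have i1 : ∀ j : ℕ, Integrable fun y => A (u y / (τ * q ^ (j + 1))) ^ 2 * TF d (u y ^ 2) :=
      fun j => SSm_int ((cA.continuous.comp (hu.continuous.div_const _)).pow 2) cT sT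
    rw [← integral_finsetSum _ fun j _ => i1 j]
    refine integral_mono (integrable_finsetSum _ fun j _ => i1 j)
      (cT.integrable_of_hasCompactSupport sT) fun x => ?_
    simp only
    rw [← Finset.sum_mul, tel]
    exact mul_le_of_le_one_left (TF_nonneg (sq_nonneg _)) (P2 _)
  have b2 : ∀ r : Fin d, ∑ j ∈ Finset.range J,
      (∫ x, F (u x / (τ * q ^ (j + 1))) * (fderiv ℝ u x (Pi.single r 1)) ^ 2) ≤
      K * ∫ x, (fderiv ℝ u x (Pi.single r 1)) ^ 2 := by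
    intro r
    have i1 := fun j : ℕ => SSm_int_pd hu hs cF (τ * q ^ (j + 1)) (Pi.single r 1)
    rw [← integral_finsetSum _ fun j _ => i1 j, ← integral_const_mul]
    refine integral_mono (integrable_finsetSum _ fun j _ => i1 j)
      ((((SSm_cont_pd hu _).pow 2).integrable_of_hasCompactSupport (SSm_supp_pd hs _)).const_mul K)
      fun x => ?_
    simp only
    rw [← Finset.sum_mul]
    refine mul_le_mul_of_nonneg_right ?_ (sq_nonneg _)
    simp only [← div_div]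
    exact hK _ (div_nonneg (u0 x) hτ.le) J
  have b3 : ∑ _j ∈ Finset.range J, ε / (J + 1) ≤ ε := by
    rw [Finset.sum_const, Finset.card_range, nsmul_eq_mul, mul_div_assoc',
      div_le_iff₀ (by positivity)]
    nlinarith
  have hb' : ∀ j : ℕ, ∑ r, E j r ≤
      (1 + e) * (∫ y, A (u y / (τ * q ^ (j + 1))) ^ 2 * TF d (u y ^ 2)) +
      ∑ r, (∫ x, F (u x / (τ * q ^ (j + 1))) * (fderiv ℝ u x (Pi.single r 1)) ^ 2) +
      ε / (J + 1) := fun j => by rw [hF]; exact hb j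
  rw [Finset.sum_comm]
  refine (Finset.sum_le_sum fun j _ => hb' j).trans ?_
  rw [Finset.sum_add_distrib, Finset.sum_add_distrib, ← Finset.mul_sum, Finset.sum_comm]
  refine add_le_add (add_le_add (mul_le_mul_of_nonneg_left b1 (by linarith)) ?_) b3
  unfold GrR
  rw [Finset.mul_sum]
  exact Finset.sum_le_sum fun r _ => b2 r

end Pool.Agent.Lib.MP_ae5e3b_mp.Sh
end
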