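import Pool.Agent.Lib.MP_ae5e3b_mp.SCoB
import Pool.Agent.Lib.MP_ae5e3b_mp.SOv
import Pool.Agent.Lib.MP_ae5e3b_mp.SIa
import Pool.Agent.Lib.MP_ae5e3b_mp.SSm
import Pool.Agent.Lib.MP_ae5e3b_mp.SIb
import Pool.Agent.Lib.MP_ae5e3b_mp.SMp
import Pool.Agent.Lib.MP_ae5e3b_mp.SPur

-- part Pool.Agent.Lib.MP_ae5e3b_mp.SThm
section

open MeasureTheory Matrix Real
open scoped ComplexConjugate ComplexOrder

set_option linter.unusedSectionVars false

namespace Pool.Agent.Lib.MP_ae5e3b_mp.Sh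


lemma SThm_small (K : ℝ) {c : ℝ} (hc : 0 < c) : ∀ᶠ t in nhdsWithin (0 : ℝ) (Set.Ioi 0), K * t ≤ c := by
  have h : Filter.Tendsto (fun t : ℝ => K * t) (nhdsWithin (0 : ℝ) (Set.Ioi 0)) (nhds (K * 0)) :=
    ((continuous_const.mul continuous_id).tendsto 0).mono_left nhdsWithin_le_nhds
  rw [mul_zero] at h
  exact (h.eventually (gt_mem_nhds hc)).mono fun t ht => ht.le

lemma SThm_pt {Λ N e z y a p u : ℝ} (hΛ : 2 ≤ Λ) (hu : 1 - u = p + a - (2 * Λ * (e - z) - N * y)) :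
    (1 - u) * e ≤ p * e - e ^ 2 + (Λ * z ^ 2 + N ^ 2 * y ^ 2 / Λ) + a ^ 2 := by
  have hΛ0 : 0 < Λ := by linarith
  have h1 : N * y * e ≤ Λ / 4 * e ^ 2 + N ^ 2 * y ^ 2 / Λ := by
    have : Λ / 4 * e ^ 2 + N ^ 2 * y ^ 2 / Λ - N * y * e = (Λ * e / 2 - N * y) ^ 2 / Λ := by
      field_simp; ring
    have h2 : 0 ≤ (Λ * e / 2 - N * y) ^ 2 / Λ := by positivity
    linarith
  have h2 : 2 * Λ * z * e ≤ Λ * e ^ 2 + Λ * z ^ 2 := by nlinarith [sq_nonneg (e - z)]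
  have h3 : a * e ≤ e ^ 2 / 4 + a ^ 2 := by nlinarith [sq_nonneg (e / 2 - a)]
  have h4 : 2 * e ^ 2 ≤ Λ * e ^ 2 := by nlinarith [sq_nonneg e]
  rw [hu]
  nlinarith

lemma SThm_int {d : ℕ} {Λ N : ℝ} (hΛ : 2 ≤ Λ) {χ σ ρ' ρF w σ' u0 Jw u : Tor d → ℝ}
    (c1 : Continuous χ) (c2 : Continuous σ) (c3 : Continuous ρ') (c4 : Continuous ρF)
    (c5 : Continuous w) (c6 : Continuous σ') (c7 : Continuous u0) (c8 : Continuous Jw)
    (c9 : Continuous u) (hχ : ∀ x, χ x ^ 2 ≤ 1) (hu : ∀ x, u x = u0 x + w x)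
    (hw : ∀ x, (1 + N) * w x - N * Jw x = 2 * Λ * (ρF x - σ' x)) :
    (∫ x, χ x ^ 2 * (TF d (σ x) - (1 - u x) * σ x)) - ∫ x, χ x ^ 2 * ((u x - 1) * ρ' x) ≤
      (∫ x, χ x ^ 2 * (TF d (σ x) + TFp d (σ x) * (ρ' x - σ x) - (ρ' x - σ x) ^ 2)) +
      (∫ x, (Λ * (ρ' x - σ x - (ρF x - σ' x)) ^ 2 + N ^ 2 * (w x - Jw x) ^ 2 / Λ)) +
      ∫ x, (1 - TFp d (σ x) - u0 x) ^ 2 := by
  have c10 : Continuous (TF d) := TF_cont
  have c11 : Continuous (TFp d) := TFp_cont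
  rw [← integral_sub (cont_int (by fun_prop)) (cont_int (by fun_prop)),
    ← integral_add (cont_int (by fun_prop)) (cont_int (by fun_prop)),
    ← integral_add (cont_int (by fun_prop)) (cont_int (by fun_prop))]
  refine integral_mono (cont_int (by fun_prop)) (cont_int (by fun_prop)) fun x => ?_
  have h1 := SThm_pt (N := N) (e := ρ' x - σ x) (z := ρ' x - σ x - (ρF x - σ' x)) (y := w x - Jw x)
    (a := 1 - TFp d (σ x) - u0 x) (p := TFp d (σ x)) (u := u x) hΛ (by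
      have := hw x
      rw [hu x]; linarith)
  have h2 : 0 ≤ Λ * (ρ' x - σ x - (ρF x - σ' x)) ^ 2 + N ^ 2 * (w x - Jw x) ^ 2 / Λ := by
    have : 0 < Λ := by linarith
    positivity
  have h3 := sq_nonneg (1 - TFp d (σ x) - u0 x)
  have h4 := mul_le_mul_of_nonneg_left h1 (sq_nonneg (χ x))
  have h5 := mul_le_of_le_one_left h2 (hχ x)
  have h6 := mul_le_of_le_one_left h3 (hχ x)
  beta_reduce
  linarith

/-- The basic step: a family whose density overshoots in the right direction. -/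
theorem thmA {d : ℕ} (hd : 0 < d) {r : ℝ} (hr : 0 < r) : ∃ C η₀ : ℝ, 1 ≤ C ∧ 0 < η₀ ∧
    ∀ ε : ℝ, 0 < ε → ∃ L₀ : ℝ, 0 < L₀ ∧ ∀ L : ℝ, L₀ ≤ L → ∀ σ χ : Tor d → ℝ, C1 L σ → C1 L χ →
    (∀ x, |σ x - sig0 d| ≤ η₀ * sig0 d) → (∀ x, |χ x| ≤ 1) →
    ∃ ρ' : Tor d → ℝ, C1 L ρ' ∧ (∀ x, |ρ' x - σ x| ≤ r) ∧ 9 / 10 * Gr L σ - ε ≤ GG L σ ρ' ∧
      Gr L ρ' ≤ C * Gr L σ ∧
      TFam L (fun x => χ x ^ 2) (fun x => χ x ^ 2 * ρ' x)
        ((∫ x, χ x ^ 2 * (TF d (σ x) + TFp d (σ x) * (ρ' x - σ x) - (ρ' x - σ x) ^ 2)) +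
          C * (Gr L σ + Gr L χ) + ε) := by
  obtain ⟨CT, hCT, -, T2, -, T4⟩ := TF_bounds hd
  obtain ⟨A₀, CE, hA₀, hA₁, hCE, hen⟩ := energy hd
  obtain ⟨CP, hCP, hpack⟩ := scf_pack hd
  obtain ⟨CL, hCL, hloc⟩ := loc d
  obtain ⟨CO, ϖ₀, hCO, hϖ₀, hov⟩ := ov d
  obtain ⟨CV, hCV, hvf⟩ := exists_vf d
  have hs0 := sig0_pos d
  have hs1 := sig0_le d
  obtain ⟨Cu, hCu⟩ : ∃ Cu, Cu = CP * (1 + CT) := ⟨_, rfl⟩
  have hCu1 : 1 ≤ Cu := by rw [hCu]; exact one_le_mul_of_one_le_of_one_le hCP (by linarith)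
  obtain ⟨Λ, hΛ, hgrad⟩ := grad d (C₁ := CL * Cu) (by positivity)
  obtain ⟨N, q, q₁, η₁, β₁, L₁, hN, hq0, hq1, hq₁, hq₁q, hη₁, hβ₁, hβ₁', hL₁, hpack⟩ :=
    hpack (min (r / 4) (sig0 d / 2)) A₀ Λ (by positivity) hA₀ (by linarith)
  obtain ⟨q₂, hq₂, hgrad⟩ := hgrad N q hN hq0 hq1
  obtain ⟨q₀, hq₀def⟩ : ∃ q₀, q₀ = min q₁ q₂ := ⟨_, rfl⟩
  have hq₀ : 0 < q₀ := by rw [hq₀def]; positivity
  have hq₀1 : q₀ ≤ q₁ := by rw [hq₀def]; exact min_le_left _ _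
  obtain ⟨lam, ηg, C₂, hlam, hηg, hC₂, hgrad⟩ :=
    hgrad q₀ hq₀ (by rw [hq₀def]; exact min_le_right _ _)
  obtain ⟨Kx, hKx⟩ : ∃ Kx, Kx = CV * lam ^ 2 / q₀ ^ 4 := ⟨_, rfl⟩
  have hKx0 : 0 ≤ Kx := by rw [hKx]; positivity
  obtain ⟨η, ⟨⟨⟨⟨⟨⟨⟨⟨⟨a1, a2⟩, a3⟩, a4⟩, a5⟩, a6⟩, a7⟩, a8⟩, a9⟩, a10⟩, hη⟩ :=
    (((((((((((SThm_small 1 (by norm_num : (0 : ℝ) < 1 / 2)).and (SThm_small CT hη₁)).and
      (SThm_small 1 hηg)).and (SThm_small (CV * lam / q₀) hϖ₀)).and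
      (SThm_small (CV * lam / q₀) one_pos)).and (SThm_small (CO * Kx * (CV * lam / q₀)) hηg)).and
      (SThm_small (CO * (CV * lam / q₀)) (by positivity : 0 < r / 4))).and
      (SThm_small 1 (by positivity : 0 < r / 4))).and
      (SThm_small (2 * lam) (by positivity : 0 < r / 4))).and (SThm_small 1 hη₁)).and
      self_mem_nhdsWithin).exists
  have hη : 0 < η := hη
  rw [one_mul] at a1 a3 a8 a10
  obtain ⟨ϖ, hϖ⟩ : ∃ ϖ, ϖ = CV * lam * η / q₀ := ⟨_, rfl⟩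
  have eϖ : CV * lam / q₀ * η = ϖ := by rw [hϖ]; ring
  have hϖ0 : 0 ≤ ϖ := by rw [hϖ]; positivity
  rw [eϖ] at a4 a5
  rw [mul_assoc, eϖ] at a6 a7
  have hϖ2 : ϖ ^ 2 ≤ ϖ := by rw [sq]; exact mul_le_of_le_one_left hϖ0 a5
  obtain ⟨Ca, hCa⟩ : ∃ Ca, Ca = 2 * C₂ + CO * Kx + CE * (Cu + C₂ + Kx) + 24 / q₀ ^ 2 * CT :=
    ⟨_, rfl⟩
  have hCa0 : C₂ ≤ Ca := by
    have : 0 ≤ CO * Kx + CE * (Cu + C₂ + Kx) + 24 / q₀ ^ 2 * CT := by positivity
    rw [hCa]; linarith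
  refine ⟨Ca + (r + 3) + 4 * CE, η, by linarith, hη, fun ε hε => ?_⟩
  obtain ⟨β, hβdef⟩ : ∃ β, β = min β₁ (ε / (2 * CE)) := ⟨_, rfl⟩
  have hβ : 0 < β := by rw [hβdef]; positivity
  have hβ1 : β ≤ β₁ := by rw [hβdef]; exact min_le_left _ _
  have hβ2 : β ≤ ε / (2 * CE) := by rw [hβdef]; exact min_le_right _ _
  obtain ⟨L₂, hL₂, hk⟩ := exists_kap_le
    (ε := min (min β (β * (ε / (2 * CE)))) (q₀ / 2)) (by positivity)
  refine ⟨max L₁ L₂, by positivity, fun L hL σ χ hσ hχ hσb hχb => ?_⟩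
  obtain ⟨-, hk⟩ := hk L ((le_max_right _ _).trans hL)
  have k1 : kap L ≤ β := hk.trans ((min_le_left _ _).trans (min_le_left _ _))
  have k2 : kap L / β ≤ ε / (2 * CE) := by
    rw [div_le_iff₀ hβ, mul_comm]
    exact hk.trans ((min_le_left _ _).trans (min_le_right _ _))
  have k3 : 2 * kap L ≤ q₀ := by linarith [hk.trans (min_le_right _ _)]
  have hσ1 : ∀ x, |σ x - sig0 d| ≤ η := fun x => (hσb x).trans (mul_le_of_le_one_right hη.le hs1)
  have hηs : η * sig0 d ≤ 1 / 2 * sig0 d := mul_le_mul_of_nonneg_right a1 hs0.le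
  have hσl : ∀ x, sig0 d / 2 ≤ σ x := fun x => by
    have := (abs_le.1 (hσb x)).1
    linarith
  have hσu : ∀ x, σ x ≤ 2 * sig0 d := fun x => by
    have := (abs_le.1 (hσb x)).2
    linarith
  obtain ⟨hus, hGus⟩ := T4 L σ hσ hσl hσu
  set us : Tor d → ℝ := fun x => 1 - TFp d (σ x) with husdef
  have husb : ∀ x, |us x| ≤ η₁ := fun x =>
    (T2 _ (hσl x) (hσu x)).2.2.trans ((by have := hσ1 x; gcongr : _ ≤ CT * η).trans a2)
  have hL0 : 0 < L := hL₁.trans_le ((le_max_left _ _).trans hL)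
  obtain ⟨hB, kq, w, hw, hua, hρP, hGu, hOm⟩ := hpack q₀ β L (Jr L q₀ us) (Jr L q₀ σ) hq₀ hq₀1 hβ hβ1
    ((le_max_left _ _).trans hL) (Jr_TP hL0 k3 _) (Jr_TP hL0 k3 _)
    (abs_Jr_le hL0 k3 hus.cont husb)
    (abs_Jr_sub_le hL0 k3 hσ.cont fun x => (hσ1 x).trans a10)
  set u : Tor d → ℝ := fun y => Jr L q₀ us y + w y with hudef
  have hwC : C1 L w := hw.1.c1_real
  have huC : C1 L u := (Jr_C1 hL0 k3 _).add hwC
  have hp : Pot L u := ⟨hB, huC, fun x => (hua x).trans hA₁⟩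
  have hβ4 : β ≤ 1 / 4 := hβ1.trans hβ₁'
  have hf := fb_fok hβ hβ4
  set G := Gr L σ with hG
  have hG0 : 0 ≤ G := Gr_nonneg _
  have hG1 : Gr L (Jr L q₀ σ) + Gr L (Jr L q₀ us) ≤ (1 + CT) * G := by
    have := Gr_Jr_le hL0 k3 hσ
    have := Gr_Jr_le hL0 k3 hus
    linarith
  have hGu' : Gr L u ≤ Cu * G := hGu.trans (by rw [hCu, mul_assoc]; gcongr)
  have hOm' : Om L N q w ≤ CL * Cu * Λ * G := by
    have h1 : CP * Λ * (Gr L (Jr L q₀ σ) + Gr L (Jr L q₀ us)) ≤ CP * Λ * ((1 + CT) * G) := by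
      gcongr
    have h2 : 1 * (Cu * Λ * G) ≤ CL * (Cu * Λ * G) := by gcongr
    have h3 : CP * Λ * ((1 + CT) * G) = Cu * Λ * G := by rw [hCu]; ring
    linarith
  obtain ⟨T, kT, hT⟩ := Jr_approx hL0 hσ (ε := ε / C₂) (by positivity)
  set g := Jr L T σ with hg
  have hgb : ∀ x, |g x - sig0 d| ≤ η := abs_Jr_sub_le hL0 kT hσ.cont hσ1
  have hgC : C1 L g := Jr_C1 hL0 kT _
  have hY := Yf_opB (L := L) u hf
  have eY : dens (Yf L u (fb β) * (Yf L u (fb β))ᴴ) = rhoP L u (fb β) := by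
    rw [Yf_mul u hf]; rfl
  have hρP1 : ∀ x, |rhoP L u (fb β) x - sig0 d| ≤ r / 4 := fun x => (hρP x).trans (min_le_left _ _)
  obtain ⟨ξ, hξ, hGx, hdv⟩ := hvf L q₀ T η (sig0 d) lam g (Yf L u (fb β) * (Yf L u (fb β))ᴴ) hB k3
    (hq₀1.trans (hq₁q.trans hq1)) (Jr_TP hL0 kT _) hgb (by linarith)
    (by simpa using hY.mul hY.conjT) (fun x => by
      have := (abs_le.1 ((hρP x).trans (min_le_right _ _))).1
      rw [eY]; linarith)
  rw [← hϖ] at hξ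
  rw [← hKx] at hGx
  have hGx' : Gx L ξ ≤ Kx * G := hGx.trans (by have := Gr_Jr_le hL0 kT hσ; gcongr)
  have hGx0 := Gx_nonneg (L := L) ξ
  obtain ⟨v, Q, hv, hBes, hQ, hden, hQb, hQ2, hQG, hBf⟩ := hov L ϖ _ ξ hB hY hξ a4
  simp only [hdv] at hden
  rw [eY] at hden
  have hQη : CO * ϖ ^ 2 * Gx L ξ ≤ ηg * G := by
    calc _ ≤ CO * ϖ * (Kx * G) := by gcongr
      _ = CO * Kx * ϖ * G := by ring
      _ ≤ _ := by gcongr
  obtain ⟨l1, l2, l3, -⟩ := hloc L u hp (fb β) 1 hf.van (lo L 6) (fun i => phiS (mom i))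
    (abs_lo_le _) (fun i => abs_phiS_le _) (fun i hi => lo_of_le (by linarith))
    (fun i hi => phiS_eq_one (by linarith))
    (fun x => rhoP L u (fb β) x - rhoF L u (fb β) x) rfl
  have hCG : CL * 1 ^ 2 * Gr L u ≤ CL * Cu * G := by
    rw [one_pow, mul_one, mul_assoc]; gcongr
  set ρ' : Tor d → ℝ := fun x => rhoP L u (fb β) x + lam * (g x - Jr L q₀ g x) + Q x with hρ'
  have hPC : C1 L (rhoP L u (fb β)) := dens_C1 _
  have hFC : C1 L (rhoF L u (fb β)) := dens_C1 _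
  obtain ⟨g1, g2, g3, g4⟩ := hgrad L T (sig0 d) σ w (rhoF L u (fb β)) (rhoP L u (fb β)) Q ρ' hB k3 kq
    kT hσ hwC hFC hPC hQ (fun x => (hσ1 x).trans a3) hw.2 hOm' (l1.trans hCG) (l2.trans hCG)
    (fun b a hb ha => (l3 b a hb ha).trans (by
      have ha0 : 0 ≤ a := (abs_nonneg _).trans (ha 0)
      calc _ ≤ CL * 1 * a * (Cu * G) := by gcongr
        _ = _ := by ring))
    (hQG.trans hQη) (hQ2.trans hQη) rfl
  have hρC : C1 L ρ' := (hPC.add ((hgC.sub (Jr_C1 hL0 k3 _)).const_mul lam)).add hQ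
  have hρr : ∀ x, |ρ' x - σ x| ≤ r := by
    intro x
    have h1 := abs_le.1 (hρP1 x)
    have h2 := abs_le.1 (hσ1 x)
    have h3 := abs_le.1 (hgb x)
    have h4 := abs_le.1 (abs_Jr_sub_le hL0 k3 hgC.cont hgb x)
    have h5 := abs_le.1 ((hQb x).trans ((by gcongr : CO * ϖ ^ 2 ≤ CO * ϖ).trans a7))
    have h6 : lam * (g x - Jr L q₀ g x) ≤ lam * (2 * η) := by gcongr; linarith
    have h7 : lam * (-(2 * η)) ≤ lam * (g x - Jr L q₀ g x) := by gcongr; linarith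
    simp only [hρ']
    rw [abs_le]; constructor <;> linarith
  refine ⟨ρ', hρC, hρr, ?_, g2.trans (by gcongr; linarith), ?_⟩
  · have : C₂ * Gr L (fun x => σ x - g x) ≤ ε := by
      rw [le_div_iff₀ hC₂] at hT; linarith
    linarith
  have hχ2 : C1 L fun x => χ x ^ 2 := by simpa only [sq] using hχ.mul hχ
  have hχ21 : ∀ x, χ x ^ 2 ≤ 1 := fun x => by rw [sq_le_one_iff_abs_le_one]; exact hχb x
  have hGχ := Gr_nonneg (L := L) χ
  have hGχ2 : Gr L (fun x => χ x ^ 2) ≤ 4 * Gr L χ := by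
    have := Gr_mul_le hχ hχ (a := 1) (b := 1) hχb hχb
    simp only [sq]; linarith
  refine (TFam.of_bes hL0 hv hBes hden (c := r + 2) (fun x => ?_) hχ hχb).mono ?_
  · have := (abs_le.1 (hρr x)).2
    have := hσu x
    change ρ' x ≤ _
    linarith
  have huc := huC.cont
  have hU : Continuous fun x => u x - 1 := by fun_prop
  rw [Bf_pot hv hχ2.cont hU hden]
  have b1 := hBf (fun x => χ x ^ 2) (fun x => u x - 1) hχ2.cont hU
    (fun x => by rw [abs_of_nonneg (sq_nonneg _)]; exact hχ21 x)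
    (fun x => by have := abs_le.1 (hp.bd x); rw [abs_le]; constructor <;> linarith)
  have b2 := hen β L ϖ u (fun x => χ x ^ 2) σ ξ hβ hβ4 hB k1 huC hua hχ2 (fun x => sq_nonneg _) hχ21
    hσ.cont (fun x => by linarith [hσl x]) hσu hξ
  have b3 := l2_sub_Jr hL0 k3 hus
  have b4 := SThm_int (N := N) hΛ hχ.cont hσ.cont hρC.cont hFC.cont hwC.cont (Jr_C1 hL0 k3 σ).cont
    (Jr_C1 hL0 k3 us).cont (Jr_C1 hL0 kq w).cont huc hχ21 (fun _ => rfl) hw.2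
  have b5 : CE * (Gr L (fun x => χ x ^ 2) + Gr L u + Gr L (rhoF L u (fb β)) + Gx L ξ + β +
      kap L / β) ≤ CE * (4 * Gr L χ + Cu * G + C₂ * G + Kx * G + ε / (2 * CE) + ε / (2 * CE)) := by
    gcongr
  have b6 : CE * (4 * Gr L χ + Cu * G + C₂ * G + Kx * G + ε / (2 * CE) + ε / (2 * CE)) =
      4 * CE * Gr L χ + CE * (Cu + C₂ + Kx) * G + ε := by field_simp; ring
  have b7 : CO * Gx L ξ ≤ CO * (Kx * G) := by gcongr
  have b8 : 24 / q₀ ^ 2 * Gr L us ≤ 24 / q₀ ^ 2 * (CT * G) := by gcongr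
  have b9 : Ca * G = 2 * C₂ * G + CO * (Kx * G) + CE * (Cu + C₂ + Kx) * G +
      24 / q₀ ^ 2 * (CT * G) := by rw [hCa]; ring
  have b10 : 0 ≤ Ca * Gr L χ := mul_nonneg (by linarith) hGχ
  have b11 : 0 ≤ (r + 3 + 4 * CE) * G := by positivity
  change ∫ x, (1 - TFp d (σ x) - Jr L q₀ us x) ^ 2 ≤ _ at b3
  change _ + _ + Gr L ρ' ≤ _
  change _ - (∫ x, χ x ^ 2 * ((u x - 1) * ρ' x)) + _ + _ ≤ _
  linarith

end Pool.Agent.Lib.MP_ae5e3b_mp.Sh
end

-- part Pool.Agent.Lib.MP_ae5e3b_mp.SIc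
section

open MeasureTheory Matrix Real
open scoped ComplexConjugate ComplexOrder

set_option linter.unusedSectionVars false

namespace Pool.Agent.Lib.MP_ae5e3b_mp.Sh


lemma SIc_pt {C s r e t p x tm : ℝ} (hC : 1 ≤ C) (hs0 : 0 < s) (hCs : C * s ≤ 1)
    (hr1 : r ≤ 1) (hr : C ^ 2 * r ≤ 1 / 4) (he : 0 ≤ e) (ht : 1 ≤ C * t) (hp0 : 0 ≤ p) (hp : p ≤ C)
    (hx : |x| ≤ r) (htm : tm ≤ t + p * (-(s * x)) + C * (-(s * x)) ^ 2) :
    s * (t + p * x - x ^ 2) + (1 + e) * tm ≤ (1 + s + (1 + s / 2) * e) * t := by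
  have hr0 : 0 ≤ r := (abs_nonneg _).trans hx
  have hx2 : x ^ 2 ≤ r := by
    have h1 : x ^ 2 ≤ r ^ 2 := by rw [← sq_abs]; gcongr
    nlinarith
  have h1 : C * (s * x) ^ 2 ≤ s * x ^ 2 := by
    have : C * (s * x) ^ 2 = (C * s) * (s * x ^ 2) := by ring
    rw [this]; exact mul_le_of_le_one_left (by positivity) hCs
  have h2 : p * (-(s * x)) ≤ s * (C * r) := by
    have h3 : -x ≤ r := (neg_le_abs x).trans hx
    have : p * (-(s * x)) = s * (p * -x) := by ring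
    rw [this]
    refine mul_le_mul_of_nonneg_left ?_ hs0.le
    calc p * -x ≤ p * r := by gcongr
      _ ≤ C * r := by gcongr
  have h3 : s * x ^ 2 ≤ s * (C * r) := by
    refine mul_le_mul_of_nonneg_left (hx2.trans ?_) hs0.le
    exact le_mul_of_one_le_left hr0 hC
  have h4 : C * r ≤ t / 4 := by
    have ht0 : 0 ≤ t := by by_contra h; push Not at h; nlinarith
    calc C * r ≤ C * r * (C * t) := le_mul_of_one_le_right (by positivity) ht
      _ = C ^ 2 * r * t := by ring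
      _ ≤ 1 / 4 * t := by gcongr
      _ = t / 4 := by ring
  have h5 : s * (C * r) ≤ s * (t / 4) := by gcongr
  have h6 : tm ≤ (1 + s / 2) * t := by
    rw [neg_sq] at htm
    linarith
  have h7 := mul_le_mul_of_nonneg_left h6 he
  rw [neg_sq] at htm
  nlinarith

lemma SIc_int {d : ℕ} {C s r e : ℝ} (hC : 1 ≤ C) (hs0 : 0 < s) (hCs : C * s ≤ 1)
    (hr1 : r ≤ 1) (hr : C ^ 2 * r ≤ 1 / 4) (he : 0 ≤ e) {χ χ₁ χ₂ σ ρ g₁ g₂ : Tor d → ℝ}
    (c1 : Continuous χ) (c2 : Continuous χ₁) (c3 : Continuous χ₂) (c4 : Continuous σ)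
    (c5 : Continuous ρ) (c6 : Continuous g₁) (c7 : Continuous g₂)
    (hχ : ∀ x, χ₁ x ^ 2 + χ₂ x ^ 2 = χ x ^ 2)
    (h1 : ∀ x, χ₁ x ≠ 0 → g₁ x = (1 + s) * σ x + -s * ρ x)
    (h2 : ∀ x, χ₂ x ≠ 0 → g₂ x = (1 + s) * σ x + -s * ρ x)
    (ht : ∀ x, 1 ≤ C * TF d (σ x)) (hp : ∀ x, 0 ≤ TFp d (σ x) ∧ TFp d (σ x) ≤ C)
    (hx : ∀ x, |ρ x - σ x| ≤ r)
    (htm : ∀ x, TF d ((1 + s) * σ x + -s * ρ x) ≤ TF d (σ x) +
      TFp d (σ x) * ((1 + s) * σ x + -s * ρ x - σ x) + C * ((1 + s) * σ x + -s * ρ x - σ x) ^ 2) :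
    s * (∫ x, χ x ^ 2 * (TF d (σ x) + TFp d (σ x) * (ρ x - σ x) - (ρ x - σ x) ^ 2)) +
      ((1 + e) * (∫ x, χ₁ x ^ 2 * TF d (g₁ x)) + (1 + e) * ∫ x, χ₂ x ^ 2 * TF d (g₂ x)) ≤
      (1 + s + (1 + s / 2) * e) * ∫ x, χ x ^ 2 * TF d (σ x) := by
  have c10 : Continuous (TF d) := TF_cont
  have c11 : Continuous (TFp d) := TFp_cont
  simp only [← integral_const_mul]
  rw [← integral_add (cont_int (by fun_prop)) (cont_int (by fun_prop)),
    ← integral_add (cont_int (by fun_prop)) (cont_int (by fun_prop))]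
  refine integral_mono (cont_int (by fun_prop)) (cont_int (by fun_prop)) fun x => ?_
  have e1 : χ₁ x ^ 2 * TF d (g₁ x) = χ₁ x ^ 2 * TF d ((1 + s) * σ x + -s * ρ x) := by
    by_cases h : χ₁ x = 0
    · simp [h]
    · rw [h1 x h]
  have e2 : χ₂ x ^ 2 * TF d (g₂ x) = χ₂ x ^ 2 * TF d ((1 + s) * σ x + -s * ρ x) := by
    by_cases h : χ₂ x = 0
    · simp [h]
    · rw [h2 x h]
  have h3 := SIc_pt hC hs0 hCs hr1 hr he (ht x) (hp x).1 (hp x).2 (hx x)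
    (tm := TF d ((1 + s) * σ x + -s * ρ x)) (by
      have := htm x
      have e : (1 + s) * σ x + -s * ρ x - σ x = -(s * (ρ x - σ x)) := by ring
      rwa [e] at this)
  have h4 := mul_le_mul_of_nonneg_left h3 (sq_nonneg (χ x))
  beta_reduce
  rw [e1, e2]
  have h5 := hχ x
  calc _ = χ x ^ 2 * (s * (TF d (σ x) + TFp d (σ x) * (ρ x - σ x) - (ρ x - σ x) ^ 2) +
        (1 + e) * TF d ((1 + s) * σ x + -s * ρ x)) := by rw [← h5]; ring
    _ ≤ _ := h4.trans (le_of_eq (by ring))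

/-- The bookkeeping of the gradient terms. -/
lemma SIc_book {s η CA C₁ C₂ K m G Gχ Gm G1 G2 X1 X2 ε : ℝ} (hs0 : 0 < s) (hs1 : s ≤ 1 / 10)
    (hη0 : 0 < η) (hη : η ≤ s / 4) (hCA : 0 ≤ CA) (hC₁ : 0 < C₁) (hC₂ : 2 * CA ≤ C₂) (hK : 0 ≤ K)
    (hm : m ≤ s / 10) (hC : s * CA + 4 * C₂ * K ≤ 2 / 5 * s * C₁) (hG : 0 ≤ G) (hGχ : 0 ≤ Gχ)
    (hε : 0 ≤ ε) (hGm0 : 0 ≤ Gm) (hGm : Gm ≤ (1 + 3 / 10 * s) * G + ε) (hG1 : 0 ≤ G1) (hG2 : 0 ≤ G2)
    (hX1 : 0 ≤ X1) (hX2 : 0 ≤ X2) (h1 : G1 + G2 ≤ (1 + m) * Gm) (h2 : X1 + X2 ≤ Gχ + K * Gm) :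
    s * (CA * (G + Gχ)) + (C₁ / (1 - 7 / 20 * η) * G1 + C₂ * (1 - 7 / 20 * η) * X1 +
      (C₁ / (1 + 7 / 20 * η) * G2 + C₂ * (1 + 7 / 20 * η) * X2)) ≤
      (1 + s) * (C₁ * G + C₂ * Gχ) + (2 * C₁ + 2 * C₂ * K) * ε := by
  have hC₂0 : 0 ≤ C₂ := by linarith
  have a1 : C₁ / (1 - 7 / 20 * η) ≤ C₁ * (1 + s / 10) := by
    rw [div_le_iff₀ (by linarith), mul_assoc]
    refine le_mul_of_one_le_right hC₁.le ?_
    nlinarith
  have a2 : C₁ / (1 + 7 / 20 * η) ≤ C₁ * (1 + s / 10) :=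
    (div_le_self hC₁.le (by linarith)).trans (le_mul_of_one_le_right hC₁.le (by linarith))
  have a3 : C₁ / (1 - 7 / 20 * η) * G1 + C₁ / (1 + 7 / 20 * η) * G2 ≤
      C₁ * ((1 + 3 / 5 * s) * G + 2 * ε) := by
    have b1 : (1 + s / 10) * (1 + s / 10) ≤ 1 + 21 / 100 * s := by nlinarith
    have b2 : (1 + 21 / 100 * s) * (1 + 3 / 10 * s) ≤ 1 + 3 / 5 * s := by nlinarith
    calc _ ≤ C₁ * (1 + s / 10) * G1 + C₁ * (1 + s / 10) * G2 := by gcongr
      _ = C₁ * ((1 + s / 10) * (G1 + G2)) := by ring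
      _ ≤ C₁ * ((1 + s / 10) * ((1 + s / 10) * Gm)) := by
          gcongr; exact h1.trans (by gcongr)
      _ = C₁ * ((1 + s / 10) * (1 + s / 10) * Gm) := by ring
      _ ≤ C₁ * ((1 + 21 / 100 * s) * ((1 + 3 / 10 * s) * G + ε)) := by gcongr
      _ = C₁ * ((1 + 21 / 100 * s) * (1 + 3 / 10 * s) * G + (1 + 21 / 100 * s) * ε) := by ring
      _ ≤ _ := by gcongr; linarith
  have a4 : C₂ * (1 - 7 / 20 * η) * X1 + C₂ * (1 + 7 / 20 * η) * X2 ≤
      C₂ * ((1 + s / 10) * Gχ + K * (4 * G + 2 * ε)) := by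
    have b1 : (1 + 3 / 10 * s) * G ≤ 2 * G := by gcongr; linarith
    calc _ ≤ C₂ * (1 + s / 10) * X1 + C₂ * (1 + s / 10) * X2 := by gcongr <;> linarith
      _ = C₂ * ((1 + s / 10) * (X1 + X2)) := by ring
      _ ≤ C₂ * ((1 + s / 10) * (Gχ + K * (2 * G + ε))) := by
          have b2 : X1 + X2 ≤ Gχ + K * (2 * G + ε) := h2.trans (by gcongr; linarith)
          exact mul_le_mul_of_nonneg_left (mul_le_mul_of_nonneg_left b2 (by linarith)) hC₂0
      _ = C₂ * ((1 + s / 10) * Gχ + (1 + s / 10) * (K * (2 * G + ε))) := by ring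
      _ ≤ C₂ * ((1 + s / 10) * Gχ + 2 * (K * (2 * G + ε))) := by gcongr; linarith
      _ = _ := by ring
  have a5 := mul_le_mul_of_nonneg_right hC hG
  have a6 : s * CA * Gχ ≤ s * (C₂ / 2) * Gχ := by gcongr; linarith
  have a7 : 0 ≤ s * C₂ * Gχ := by positivity
  nlinarith

lemma SIc_lin {s CA G X Y ε : ℝ} (hs : 0 < s) (hs1 : s ≤ 1 / 10) (hsb : CA * s ≤ 1 / 10) (hG : 0 ≤ G)
    (hε : 0 ≤ ε) (hX : 9 / 10 * G - ε ≤ X) (hY : Y ≤ CA * G) :
    (1 + s) ^ 2 * G + 2 * (1 + s) * -s * X + (-s) ^ 2 * Y ≤ (1 + 3 / 10 * s) * G + ε := by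
  have j1 : 2 * (1 + s) * s * (9 / 10 * G - ε) ≤ 2 * (1 + s) * s * X := by gcongr
  have j2 : s ^ 2 * Y ≤ s ^ 2 * (CA * G) := by gcongr
  have j3 : s * (CA * s) * G ≤ s * (1 / 10) * G := by gcongr
  have j4 : 2 * (1 + s) * s * ε ≤ 1 * ε := by gcongr; nlinarith
  have j5 : 0 ≤ s ^ 2 * G := by positivity
  nlinarith

/-- One step of the iteration. -/
theorem ps_step {d : ℕ} (hd : 0 < d) (C₀ : ℝ) : ∃ η C₁ C₂ θ : ℝ, 0 < η ∧ η ≤ 1 / 4 ∧ C₀ ≤ C₁ ∧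
    C₀ ≤ C₂ ∧ 0 < C₁ ∧ 0 < C₂ ∧ 0 < θ ∧ θ < 1 ∧
    ∀ e : ℝ, 0 < e → (∀ k, 0 < k → PS d η C₁ C₂ e k) → PS d η C₁ C₂ (θ * e) 1 := by
  obtain ⟨CT, hCT, T1, T2, T3, -⟩ := TF_bounds hd
  have hs0 := sig0_pos d
  have hs1 := sig0_le d
  obtain ⟨r, hrdef⟩ : ∃ r, r = min (sig0 d / 20) (1 / (4 * CT ^ 2)) := ⟨_, rfl⟩
  have hr : 0 < r := by rw [hrdef]; positivity
  have hr1 : r ≤ sig0 d / 20 := by rw [hrdef]; exact min_le_left _ _
  have hr2 : CT ^ 2 * r ≤ 1 / 4 := by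
    have : r ≤ 1 / (4 * CT ^ 2) := by rw [hrdef]; exact min_le_right _ _
    rw [le_div_iff₀ (by positivity)] at this
    linarith
  obtain ⟨CA, η₀, hCA, hη₀, hA⟩ := thmA hd hr
  obtain ⟨s, hsdef⟩ : ∃ s, s = min (min (1 / CT) (1 / (10 * CA))) (4 * η₀) := ⟨_, rfl⟩
  have hs : 0 < s := by rw [hsdef]; positivity
  have hsa : CT * s ≤ 1 := by
    have : s ≤ 1 / CT := by rw [hsdef]; exact (min_le_left _ _).trans (min_le_left _ _)
    rw [le_div_iff₀ (by positivity)] at this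
    linarith
  have hsb : CA * s ≤ 1 / 10 := by
    have : s ≤ 1 / (10 * CA) := by rw [hsdef]; exact (min_le_left _ _).trans (min_le_right _ _)
    rw [le_div_iff₀ (by positivity)] at this
    linarith
  have hsc : s ≤ 4 * η₀ := by rw [hsdef]; exact min_le_right _ _
  have hsd : s ≤ 1 / 10 := (le_mul_of_one_le_left hs.le hCA).trans hsb
  obtain ⟨η, hηdef⟩ : ∃ η, η = 5 * s * r / sig0 d := ⟨_, rfl⟩
  have hη : 0 < η := by rw [hηdef]; positivity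
  have hηs : η * sig0 d = 5 * (s * r) := by rw [hηdef]; field_simp
  have hη1 : η ≤ s / 4 := by
    rw [hηdef, div_le_iff₀ hs0]
    have := mul_le_mul_of_nonneg_left hr1 hs.le
    linarith
  obtain ⟨M, hM⟩ := exists_nat_ge (20 / s)
  have hM0 : (0 : ℝ) < M := lt_of_lt_of_le (by positivity) hM
  have hM1 : 2 / (M : ℝ) ≤ s / 10 := by
    rw [div_le_iff₀ hs] at hM
    rw [div_le_iff₀ hM0]; linarith
  obtain ⟨K, hK, hpiece⟩ := two_piece d M (by exact_mod_cast hM0)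
  obtain ⟨K', hK'⟩ : ∃ K', K' = K / (sig0 d * η) ^ 2 := ⟨_, rfl⟩
  have hK'0 : 0 ≤ K' := by rw [hK']; positivity
  obtain ⟨C₂, hC₂⟩ : ∃ C₂, C₂ = max C₀ (2 * CA) := ⟨_, rfl⟩
  have hC₂a : 2 * CA ≤ C₂ := by rw [hC₂]; exact le_max_right _ _
  have hC₂0 : 0 < C₂ := by linarith
  obtain ⟨C₁, hC₁⟩ : ∃ C₁, C₁ = max C₀ ((s * CA + 4 * C₂ * K') / (2 / 5 * s)) := ⟨_, rfl⟩
  have hC₁a : (s * CA + 4 * C₂ * K') / (2 / 5 * s) ≤ C₁ := by rw [hC₁]; exact le_max_right _ _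
  have hC₁0 : 0 < C₁ := lt_of_lt_of_le (by positivity) hC₁a
  rw [div_le_iff₀ (by positivity)] at hC₁a
  refine ⟨η, C₁, C₂, (1 + s / 2) / (1 + s), hη, by linarith, by rw [hC₁]; exact le_max_left _ _,
    by rw [hC₂]; exact le_max_left _ _, hC₁0, hC₂0, by positivity,
    by rw [div_lt_one (by positivity)]; linarith, fun e he H ε hε => ?_⟩
  obtain ⟨ε₁, hε₁def⟩ : ∃ ε₁, ε₁ = ε / (3 + (2 * C₁ + 2 * C₂ * K')) := ⟨_, rfl⟩
  have hε₁ : 0 < ε₁ := by rw [hε₁def]; positivity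
  have hε₂ : (3 + (2 * C₁ + 2 * C₂ * K')) * ε₁ = ε := by rw [hε₁def]; field_simp
  have hp1 : 0 < 1 - 7 / 20 * η := by linarith
  have hp2 : 0 < 1 + 7 / 20 * η := by linarith
  obtain ⟨L₀, hL₀, hA⟩ := hA ε₁ hε₁
  obtain ⟨L₁, hL₁, H1⟩ := H ((1 - 7 / 20 * η) ^ ((d : ℝ)⁻¹)) (by positivity) ε₁ hε₁
  obtain ⟨L₂, hL₂, H2⟩ := H ((1 + 7 / 20 * η) ^ ((d : ℝ)⁻¹)) (by positivity) ε₁ hε₁
  rw [rpow_inv_natCast_pow hp1.le hd.ne'] at H1
  rw [rpow_inv_natCast_pow hp2.le hd.ne'] at H2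
  refine ⟨max L₀ (max L₁ L₂), by positivity, fun L hL σ χ hσ hχ hσb hχb => ?_⟩
  simp only [one_pow, mul_one, div_one] at hσb ⊢
  obtain ⟨ρ, hρ, hρb, hGG, hGρ, FA⟩ := hA L ((le_max_left _ _).trans hL) σ χ hσ hχ
    (fun x => (hσb x).trans (by gcongr; linarith)) hχb
  have hm : C1 L fun x => (1 + s) * σ x + -s * ρ x := (hσ.const_mul _).add (hρ.const_mul _)
  have hmb : ∀ x, sig0 d - 6 / 5 * (η * sig0 d) ≤ (1 + s) * σ x + -s * ρ x ∧
      (1 + s) * σ x + -s * ρ x ≤ sig0 d + 6 / 5 * (η * sig0 d) := by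
    intro x
    have h1 := abs_le.1 (hσb x)
    have h2 := abs_le.1 (hρb x)
    have h3 := mul_le_mul_of_nonneg_left h2.1 hs.le
    have h4 := mul_le_mul_of_nonneg_left h2.2 hs.le
    constructor <;> linarith
  have hηs1 : η * sig0 d ≤ 1 / 40 * sig0 d := by gcongr; linarith
  have hηs2 : η * (η * sig0 d) ≤ 1 / 40 * (η * sig0 d) := by gcongr; linarith
  have hηs3 : 0 ≤ η * (η * sig0 d) := by positivity
  have hηs4 : 0 ≤ η * sig0 d := by positivity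
  obtain ⟨g₁, g₂, χ₁, χ₂, c1, c2, c3, c4, p1, p2, p3, p4, p5, p6, p7⟩ :=
    hpiece L (sig0 d - η * sig0 d / 2) (sig0 d * η) _ χ (by positivity) hm hχ hχb
  have hχ21 : ∀ x, χ x ^ 2 ≤ 1 := fun x => by rw [sq_le_one_iff_abs_le_one]; exact hχb x
  have F1 := H1 L (((le_max_left _ _).trans (le_max_right _ _)).trans hL) g₁ χ₁ c1 c3
    (fun x => by
      have h1 := p2 x
      have h2 : sig0 d - 6 / 5 * (η * sig0 d) ≤ g₁ x :=
        (le_min (hmb x).1 (by linarith)).trans h1.1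
      rw [abs_le]; constructor <;> linarith [h1.2])
    (fun x => by
      rw [← sq_le_one_iff_abs_le_one]; linarith [p1 x, hχ21 x, sq_nonneg (χ₂ x)])
  have F2 := H2 L (((le_max_right _ _).trans (le_max_right _ _)).trans hL) g₂ χ₂ c2 c4
    (fun x => by
      have h1 := p3 x
      have h2 : g₂ x ≤ sig0 d + 6 / 5 * (η * sig0 d) :=
        h1.2.trans (max_le (hmb x).2 (by linarith))
      rw [abs_le]; constructor <;> linarith [h1.1])
    (fun x => by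
      rw [← sq_le_one_iff_abs_le_one]; linarith [p1 x, hχ21 x, sq_nonneg (χ₁ x)])
  have d1 := hχ.cont
  have d2 := c3.cont
  have d3 := c4.cont
  have hs' : 0 < 1 + s := by positivity
  have F := (TFam.smul (c := s / (1 + s)) (by positivity) FA).add (by fun_prop) (by fun_prop)
    (TFam.smul (c := 1 / (1 + s)) (by positivity) (F1.add (by fun_prop) (by fun_prop) F2))
  refine (F.congr (fun x => ?_) fun x => ?_).mono ?_
  · rw [p1]; field_simp; ring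
  · have e1 : χ₁ x ^ 2 * g₁ x = χ₁ x ^ 2 * ((1 + s) * σ x + -s * ρ x) := by
      by_cases h : χ₁ x = 0
      · simp [h]
      · rw [p4 x h]
    have e2 : χ₂ x ^ 2 * g₂ x = χ₂ x ^ 2 * ((1 + s) * σ x + -s * ρ x) := by
      by_cases h : χ₂ x = 0
      · simp [h]
      · rw [p5 x h]
    rw [e1, e2, ← add_mul, p1]; field_simp; ring
  have hσl : ∀ x, sig0 d / 2 ≤ σ x := fun x => by linarith [(abs_le.1 (hσb x)).1]
  have hσu : ∀ x, σ x ≤ 2 * sig0 d := fun x => by linarith [(abs_le.1 (hσb x)).2]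
  have i1 := SIc_int hCT hs hsa (by linarith) hr2 he.le d1 d2 d3 hσ.cont hρ.cont
    c1.cont c2.cont p1 p4 p5 (fun x => T1 _ (hσl x))
    (fun x => ⟨(T2 _ (hσl x) (hσu x)).1, (T2 _ (hσl x) (hσu x)).2.1⟩) hρb
    fun x => T3 _ _ (hσl x) (hσu x) (by linarith [(hmb x).1]) (by linarith [(hmb x).2])
  have hG0 := Gr_nonneg (L := L) σ
  have i2 : Gr L (fun x => (1 + s) * σ x + -s * ρ x) ≤ (1 + 3 / 10 * s) * Gr L σ + ε₁ := by
    rw [Gr_lin hσ hρ]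
    exact SIc_lin hs hsd hsb hG0 hε₁.le hGG hGρ
  rw [← hK'] at p7
  have i3 := SIc_book hs hsd hη hη1 (by linarith) hC₁0 hC₂a hK'0 hM1 (by linarith) hG0
    (Gr_nonneg χ) hε₁.le (Gr_nonneg _) i2 (Gr_nonneg g₁) (Gr_nonneg g₂) (Gr_nonneg χ₁)
    (Gr_nonneg χ₂) p6 p7
  have i4 : s * ε₁ ≤ 1 * ε₁ := by gcongr; linarith
  have i5 : 0 ≤ s * ε := by positivity
  rw [← mul_le_mul_iff_right₀ hs']
  have e1 : ∀ X Y : ℝ, (1 + s) * (s / (1 + s) * X + 1 / (1 + s) * Y) = s * X + Y := by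
    intro X Y; field_simp
  have e2 : ∀ I X Y Z : ℝ, (1 + s) * ((1 + (1 + s / 2) / (1 + s) * e) * I + X + Y + Z) =
      (1 + s + (1 + s / 2) * e) * I + (1 + s) * (X + Y + Z) := by
    intro I X Y Z; field_simp; ring
  rw [e1, e2]
  linarith

/-- The sharp local bound. -/
theorem ps_all {d : ℕ} (hd : 0 < d) : ∃ η C₁ C₂ : ℝ, 0 < η ∧ η ≤ 1 / 4 ∧ 0 < C₁ ∧ 0 < C₂ ∧
    ∀ e : ℝ, 0 < e → ∀ k, 0 < k → PS d η C₁ C₂ e k := by
  obtain ⟨C₀, e₀, hC₀, he₀, hb⟩ := ps_base hd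
  obtain ⟨η, C₁, C₂, θ, hη, hη1, h1, h2, h3, h4, hθ, hθ1, hst⟩ := ps_step hd C₀
  refine ⟨η, C₁, C₂, hη, hη1, h3, h4, fun e he k hk => ?_⟩
  have key : ∀ n : ℕ, PS d η C₁ C₂ (θ ^ n * e₀) 1 := by
    intro n
    induction n with
    | zero => simpa using (hb η (by linarith)).mono one_pos (by linarith) h1 h2 le_rfl
    | succ n ih =>
      have := hst _ (by positivity) fun k hk => ih.scale hd (by linarith) hk
      rwa [← mul_assoc, ← pow_succ'] at this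
  obtain ⟨n, hn⟩ := exists_pow_lt_of_lt_one (by positivity : 0 < e / e₀) hθ1
  rw [lt_div_iff₀ he₀] at hn
  exact ((key n).mono one_pos (by linarith) le_rfl le_rfl hn.le).scale hd (by linarith) hk

end Pool.Agent.Lib.MP_ae5e3b_mp.Sh
end

-- part Pool.Agent.Lib.MP_ae5e3b_mp.SMix
section

open MeasureTheory Matrix Real
open scoped ComplexConjugate ComplexOrder

set_option linter.unusedSectionVars false

namespace Pool.Agent.Lib.MP_ae5e3b_mp.Sh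

variable {d : ℕ}

lemma SMix_shift {f : (Fin d → ℝ) → ℝ} (hf : MemLp f 2 volume) (v : Fin d → ℝ) :
    Integrable fun x => (f (x + v) - f x) ^ 2 := by
  have h1 : MemLp (fun x => f (x + v)) 2 volume :=
    hf.comp_measurePreserving (measurePreserving_add_right volume v)
  exact (h1.sub hf).integrable_sq

lemma SMix_DQ {g f₁ f₂ : (Fin d → ℝ) → ℝ} {B₁ B₂ : Fin d → ℝ} {α β : ℝ} (hα : 0 ≤ α) (hβ : 0 ≤ β)
    (m₁ : MemLp f₁ 2 volume) (m₂ : MemLp f₂ 2 volume) (h₁ : DQ f₁ B₁) (h₂ : DQ f₂ B₂)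
    (h : ∀ x y, (g y - g x) ^ 2 ≤ α * (f₁ y - f₁ x) ^ 2 + β * (f₂ y - f₂ x) ^ 2) :
    DQ g fun r => α * B₁ r + β * B₂ r := by
  intro r t ht
  have i₁ := SMix_shift m₁ (t • Pi.single r (1 : ℝ))
  have i₂ := SMix_shift m₂ (t • Pi.single r (1 : ℝ))
  have a₁ := h₁ r t ht
  have a₂ := h₂ r t ht
  calc ∫ x, (g (x + t • Pi.single r (1 : ℝ)) - g x) ^ 2
      ≤ ∫ x, (α * (f₁ (x + t • Pi.single r (1 : ℝ)) - f₁ x) ^ 2 +
          β * (f₂ (x + t • Pi.single r (1 : ℝ)) - f₂ x) ^ 2) :=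
        integral_mono_of_nonneg (Filter.Eventually.of_forall fun x => sq_nonneg _)
          ((i₁.const_mul α).add (i₂.const_mul β)) (Filter.Eventually.of_forall fun x => h x _)
    _ = α * (∫ x, (f₁ (x + t • Pi.single r (1 : ℝ)) - f₁ x) ^ 2) +
          β * ∫ x, (f₂ (x + t • Pi.single r (1 : ℝ)) - f₂ x) ^ 2 := by
        rw [integral_add (i₁.const_mul α) (i₂.const_mul β), integral_const_mul, integral_const_mul]
    _ ≤ α * (t ^ 2 * B₁ r) + β * (t ^ 2 * B₂ r) := by gcongr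
    _ = t ^ 2 * (α * B₁ r + β * B₂ r) := by ring

/-- The increments of the remainder amplitude. -/
lemma SMix_incr {ε u n u' n' : ℝ} (h0 : 0 < ε) (h1 : ε ≤ 1) (n0 : 0 ≤ n) (nu : n ≤ u)
    (n0' : 0 ≤ n') (nu' : n' ≤ u') :
    (√(u' ^ 2 - (1 - ε) * (u' - n') ^ 2) - √(u ^ 2 - (1 - ε) * (u - n) ^ 2)) ^ 2 ≤
      2 * (u' - u) ^ 2 + 2 / ε * (n' - n) ^ 2 := by
  have key : ∀ u n : ℝ, 0 ≤ n → n ≤ u → 0 ≤ u ^ 2 - (1 - ε) * (u - n) ^ 2 ∧
      u - (1 - ε) * (u - n) ≤ √(u ^ 2 - (1 - ε) * (u - n) ^ 2) ∧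
      √ε * (u - n) ≤ √(u ^ 2 - (1 - ε) * (u - n) ^ 2) := by
    intro u n a b
    have hm : 0 ≤ u - n := by linarith
    have hu : 0 ≤ u := by linarith
    have e1 : (u - n) ^ 2 ≤ u ^ 2 := by nlinarith
    have e2 : 0 ≤ (1 - ε) := by linarith
    refine ⟨by nlinarith [sq_nonneg (u - n)], Real.le_sqrt_of_sq_le ?_, Real.le_sqrt_of_sq_le ?_⟩
    · have : 0 ≤ (1 - ε) * ((u - n) * (2 * u - (2 - ε) * (u - n))) := by
        apply mul_nonneg e2 (mul_nonneg hm _)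
        nlinarith
      nlinarith
    · rw [mul_pow, Real.sq_sqrt h0.le]
      nlinarith
  obtain ⟨k1, k2, k3⟩ := key u n n0 nu
  obtain ⟨k1', k2', k3'⟩ := key u' n' n0' nu'
  have s1 := Real.sq_sqrt k1
  have s1' := Real.sq_sqrt k1'
  have y0 := Real.sqrt_nonneg (u ^ 2 - (1 - ε) * (u - n) ^ 2)
  have y0' := Real.sqrt_nonneg (u' ^ 2 - (1 - ε) * (u' - n') ^ 2)
  generalize √(u ^ 2 - (1 - ε) * (u - n) ^ 2) = y at *
  generalize √(u' ^ 2 - (1 - ε) * (u' - n') ^ 2) = y' at *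
  have hs : 0 < √ε := Real.sqrt_pos.2 h0
  have hs2 : √ε ^ 2 = ε := Real.sq_sqrt h0.le
  have e2 : 0 ≤ 1 - ε := by linarith
  have hm : 0 ≤ u - n := by linarith
  have hm' : 0 ≤ u' - n' := by linarith
  have main : |y' - y| ≤ |u' - u| + |n' - n| / √ε := by
    rcases eq_or_lt_of_le (add_nonneg y0 y0') with h | h
    · have a : y = 0 := by linarith
      have b : y' = 0 := by linarith
      rw [a, b, sub_zero, abs_zero]
      positivity
    · have id : (y' - y) * (y + y') =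
          (u' - u) * ((u - (1 - ε) * (u - n)) + (u' - (1 - ε) * (u' - n'))) +
            (n' - n) * ((1 - ε) * ((u - n) + (u' - n'))) := by nlinarith
      have z0 : 0 ≤ (u - (1 - ε) * (u - n)) + (u' - (1 - ε) * (u' - n')) := by nlinarith
      have z1 : 0 ≤ (1 - ε) * ((u - n) + (u' - n')) := by positivity
      have z2 : (1 - ε) * ((u - n) + (u' - n')) ≤ (y + y') / √ε := by
        rw [le_div_iff₀ hs]
        have : 0 ≤ ε * (√ε * ((u - n) + (u' - n'))) := by positivity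
        nlinarith
      have b : |y' - y| * (y + y') ≤ (|u' - u| + |n' - n| / √ε) * (y + y') := by
        calc |y' - y| * (y + y') = |(y' - y) * (y + y')| := by rw [abs_mul, abs_of_pos h]
          _ ≤ |u' - u| * ((u - (1 - ε) * (u - n)) + (u' - (1 - ε) * (u' - n'))) +
              |n' - n| * ((1 - ε) * ((u - n) + (u' - n'))) := by
            rw [id]
            refine (abs_add_le _ _).trans ?_
            rw [abs_mul, abs_mul, abs_of_nonneg z0, abs_of_nonneg z1]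
          _ ≤ |u' - u| * (y + y') + |n' - n| * ((y + y') / √ε) := by
            gcongr
          _ = (|u' - u| + |n' - n| / √ε) * (y + y') := by ring
      exact le_of_mul_le_mul_right b h
  have e3 : (|n' - n| / √ε) ^ 2 = (n' - n) ^ 2 / ε := by rw [div_pow, sq_abs, hs2]
  have e4 : (y' - y) ^ 2 ≤ (|u' - u| + |n' - n| / √ε) ^ 2 := by
    rw [← sq_abs (y' - y)]
    exact pow_le_pow_left₀ (abs_nonneg _) main 2
  have e5 : 2 / ε * (n' - n) ^ 2 = 2 * ((n' - n) ^ 2 / ε) := by ring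
  rw [e5, ← e3, ← sq_abs (u' - u)]
  nlinarith [sq_nonneg (|u' - u| - |n' - n| / √ε)]

lemma SMix_pow {p a b : ℝ} (hp : 0 ≤ p) (ha : 0 ≤ a) (hb : 0 ≤ b) :
    (a + b) ^ p ≤ 2 ^ p * (a ^ p + b ^ p) := by
  have pa : 0 ≤ a ^ p := Real.rpow_nonneg ha p
  have pb : 0 ≤ b ^ p := Real.rpow_nonneg hb p
  have p2 : (0 : ℝ) ≤ 2 ^ p := Real.rpow_nonneg zero_le_two p
  rcases le_total a b with h | h
  · calc (a + b) ^ p ≤ (2 * b) ^ p := Real.rpow_le_rpow (by linarith) (by linarith) hp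
      _ = 2 ^ p * b ^ p := Real.mul_rpow zero_le_two hb
      _ ≤ 2 ^ p * (a ^ p + b ^ p) := by gcongr; linarith
  · calc (a + b) ^ p ≤ (2 * a) ^ p := Real.rpow_le_rpow (by linarith) (by linarith) hp
      _ = 2 ^ p * a ^ p := Real.mul_rpow zero_le_two ha
      _ ≤ 2 ^ p * (a ^ p + b ^ p) := by gcongr; linarith

lemma SMix_tail {u F : (Fin d → ℝ) → ℝ} (um : Measurable u) (hF : Integrable F) {τ : ℝ}
    (hτ : 0 < τ) : ∃ K : ℝ, 1 ≤ K ∧ ∫ x, {x | K < u x}.indicator F x ≤ τ := by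
  have hm : ∀ k : ℕ, MeasurableSet {x | ((k : ℝ) + 1) < u x} := fun k =>
    measurableSet_lt measurable_const um
  have lim : Filter.Tendsto (fun k : ℕ => ∫ x, {x | ((k : ℝ) + 1) < u x}.indicator F x)
      Filter.atTop (nhds (∫ _x : Fin d → ℝ, (0 : ℝ))) := by
    refine tendsto_integral_of_dominated_convergence (fun x => ‖F x‖)
      (fun k => (hF.indicator (hm k)).aestronglyMeasurable) hF.norm
      (fun k => Filter.Eventually.of_forall fun x => norm_indicator_le_norm_self _ _)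
      (Filter.Eventually.of_forall fun x => ?_)
    obtain ⟨N, hN⟩ := exists_nat_ge (u x)
    refine tendsto_const_nhds.congr' ?_
    filter_upwards [Filter.eventually_ge_atTop N] with k hk
    have : (N : ℝ) ≤ k := by exact_mod_cast hk
    rw [Set.indicator_of_notMem]
    simp only [Set.mem_ofPred_eq, not_lt]
    linarith
  rw [integral_zero] at lim
  obtain ⟨k, hk⟩ := (lim.eventually (gt_mem_nhds hτ)).exists
  exact ⟨(k : ℝ) + 1, by linarith [Nat.cast_nonneg (α := ℝ) k], hk.le⟩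

/-- Uniform smallness of the mixed term. -/
lemma SMix_small {u : (Fin d → ℝ) → ℝ} {p : ℝ} (hp : 1 ≤ p) (um : Measurable u)
    (u0 : ∀ x, 0 ≤ u x) (u2 : MemLp u 2 volume) (hD : Integrable fun x => (u x ^ 2) ^ p) {τ : ℝ}
    (hτ : 0 < τ) : ∃ δ : ℝ, 0 < δ ∧ ∀ n : (Fin d → ℝ) → ℝ, MemLp n 2 volume → (∀ x, 0 ≤ n x) →
      (∀ x, n x ≤ u x) → ∫ x, n x ^ 2 ≤ δ → ∫ x, (n x * u x) ^ p ≤ τ := by
  obtain ⟨K, K1, hK⟩ := SMix_tail um hD (show 0 < τ / 3 by positivity)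
  have hm : MeasurableSet {x | K < u x} := measurableSet_lt measurable_const um
  obtain ⟨M, hM⟩ : ∃ M : ℝ, M = (K ^ 2) ^ (p - 1) := ⟨_, rfl⟩
  have M0 : 0 < M := by rw [hM]; positivity
  obtain ⟨N, hN⟩ : ∃ N : ℝ, N = ∫ x, u x ^ 2 := ⟨_, rfl⟩
  have N0 : 0 ≤ N := by rw [hN]; exact integral_nonneg fun x => sq_nonneg _
  obtain ⟨l, hl⟩ : ∃ l : ℝ, l = τ / 3 / (M * (N + 1)) := ⟨_, rfl⟩
  have l0 : 0 < l := by rw [hl]; positivity
  refine ⟨τ / 3 * l / M, by positivity, fun n n2 n0 nu hn => ?_⟩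
  have pt : ∀ x, (n x * u x) ^ p ≤ M / l * n x ^ 2 + M * l * u x ^ 2 +
      {x | K < u x}.indicator (fun x => (u x ^ 2) ^ p) x := by
    intro x
    have a0 := n0 x
    have a1 := nu x
    have a2 := u0 x
    have t1 : 0 ≤ M / l * n x ^ 2 := by positivity
    have t2 : 0 ≤ M * l * u x ^ 2 := by positivity
    by_cases hx : K < u x
    · rw [Set.indicator_of_mem (show x ∈ {x | K < u x} from hx)]
      have : (n x * u x) ^ p ≤ (u x ^ 2) ^ p :=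
        Real.rpow_le_rpow (by positivity) (by nlinarith) (by linarith)
      linarith
    · rw [Set.indicator_of_notMem (show x ∉ {x | K < u x} from hx), add_zero]
      have hx' : u x ≤ K := not_lt.1 hx
      have e : (n x * u x) ^ p = (n x * u x) ^ (p - 1) * (n x * u x) := by
        have := Real.rpow_add_one' (x := n x * u x) (y := p - 1) (by positivity)
          (by linarith)
        rw [← this]; congr 1; ring
      have b : (n x * u x) ^ (p - 1) ≤ M := by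
        rw [hM]
        exact Real.rpow_le_rpow (by positivity) (by nlinarith) (by linarith)
      have c : n x * u x ≤ n x ^ 2 / l + l * u x ^ 2 := by
        have : n x ^ 2 / l + l * u x ^ 2 - n x * u x =
            ((n x - l * u x) ^ 2 + l * (n x * u x)) / l := by field_simp; ring
        have : 0 ≤ ((n x - l * u x) ^ 2 + l * (n x * u x)) / l := by positivity
        linarith
      calc (n x * u x) ^ p ≤ M * (n x * u x) := by rw [e]; gcongr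
        _ ≤ M * (n x ^ 2 / l + l * u x ^ 2) := by gcongr
        _ = M / l * n x ^ 2 + M * l * u x ^ 2 := by ring
  have i1 := n2.integrable_sq.const_mul (M / l)
  have i2 := u2.integrable_sq.const_mul (M * l)
  have i3 := hD.indicator hm
  have i12 : Integrable fun x => M / l * n x ^ 2 + M * l * u x ^ 2 := i1.add i2
  calc ∫ x, (n x * u x) ^ p ≤ ∫ x, (M / l * n x ^ 2 + M * l * u x ^ 2 +
        {x | K < u x}.indicator (fun x => (u x ^ 2) ^ p) x) :=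
        integral_mono_of_nonneg (Filter.Eventually.of_forall fun x =>
          Real.rpow_nonneg (mul_nonneg (n0 x) (u0 x)) p) ((i1.add i2).add i3)
          (Filter.Eventually.of_forall pt)
    _ = M / l * (∫ x, n x ^ 2) + M * l * N +
        ∫ x, {x | K < u x}.indicator (fun x => (u x ^ 2) ^ p) x := by
        rw [integral_add i12 i3, integral_add i1 i2, integral_const_mul,
          integral_const_mul, hN]
    _ ≤ M / l * (τ / 3 * l / M) + M * l * (N + 1) + τ / 3 := by gcongr; linarith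
    _ = τ := by
        have e1 : M / l * (τ / 3 * l / M) = τ / 3 := by field_simp
        have e2 : M * l * (N + 1) = τ / 3 := by rw [hl]; field_simp
        rw [e1, e2]; ring

/-- The main part of the family: the amplitude `min u s`. -/
lemma SMix_main {u s : (Fin d → ℝ) → ℝ} {E B : Fin d → ℝ} {ε : ℝ} (h0 : 0 < ε) (h1 : ε ≤ 1)
    (um : Measurable u) (u0 : ∀ x, 0 ≤ u x) (sm : Measurable s) (s0 : ∀ x, 0 ≤ s x)
    (B0 : ∀ r, 0 ≤ B r) (hs : RFam 1 (fun _ => 1) (fun x => s x ^ 2) E)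
    (hB : DQ (fun x => u x - max (u x - s x) 0) B) :
    ∃ w : (Fin d → ℝ) → ℝ, (∀ x, w x ≤ 1 - ε) ∧
      RFam 1 w (fun x => (1 - ε) * (u x - max (u x - s x) 0) ^ 2) fun r => E r + B r := by
  obtain ⟨m, hm⟩ : ∃ m : (Fin d → ℝ) → ℝ, m = fun x => u x - max (u x - s x) 0 := ⟨_, rfl⟩
  have mm : Measurable m := by rw [hm]; fun_prop
  have m0 : ∀ x, 0 ≤ m x := by
    intro x; rw [hm]; simp only
    have := u0 x; have := s0 x
    rcases le_total (u x - s x) 0 with h | h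
    · rw [max_eq_right h]; linarith
    · rw [max_eq_left h]; linarith
  have ms : ∀ x, m x ≤ s x := by
    intro x; rw [hm]; simp only
    linarith [le_max_left (u x - s x) 0]
  have e : ∀ x, m x / s x * s x = m x := by
    intro x
    rcases eq_or_lt_of_le (s0 x) with h | h
    · have : m x = 0 := le_antisymm (by linarith [ms x]) (m0 x)
      rw [this]; simp
    · exact div_mul_cancel₀ _ h.ne'
  have a0 : ∀ x, 0 ≤ m x / s x := fun x => div_nonneg (m0 x) (s0 x)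
  have a1 : ∀ x, m x / s x ≤ 1 := fun x => div_le_one_of_le₀ (ms x) (s0 x)
  have F1 := Fam_mul (θ := 1) (lab := fun _ _ => 0) (m := s) (a := fun x => m x / s x) zero_le_one
    sm s0 (mm.div sm) a0 a1 hs.2 (fun _ _ => zero_mul _)
    (fun r t _ => mul_nonneg (sq_nonneg t) (hs.1 r))
  have F2 := Fam_smul (c := 1 - ε) (by linarith) F1
  refine ⟨fun x => (1 - ε) * (m x / s x) ^ 2, fun x => ?_, fun r => add_nonneg (hs.1 r) (B0 r), ?_⟩
  · have : (m x / s x) ^ 2 ≤ 1 := pow_le_one₀ (a0 x) (a1 x)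
    nlinarith
  · refine F2.mono (fun x => ?_) fun r t ht => ?_
    · rw [e, hm]
    · simp only [e]
      rw [← hm] at hB
      have b1 := hB r t ht
      have b2 : 0 ≤ t ^ 2 * E r := mul_nonneg (sq_nonneg t) (hs.1 r)
      have b3 : 0 ≤ ∫ x, (m (x + t • Pi.single r (1 : ℝ)) - m x) ^ 2 :=
        integral_nonneg fun x => sq_nonneg _
      nlinarith

/-- The remainder of the family. -/
lemma SMix_rest {u n : (Fin d → ℝ) → ℝ} {B : Fin d → ℝ} {ε δ τ p : ℝ} (hp : 1 ≤ p) (h0 : 0 < ε)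
    (h1 : ε ≤ 1) (um : Measurable u) (u2 : MemLp u 2 volume) (upos : 0 < ∫ x, u x ^ 2)
    (nm : Measurable n) (n0 : ∀ x, 0 ≤ n x) (nu : ∀ x, n x ≤ u x) (hB : DQ u B)
    (hn : DQ n fun _ => δ) (hD : Integrable fun x => (u x ^ 2) ^ p)
    (hτ : ∫ x, (n x * u x) ^ p ≤ τ) :
    ∃ y : (Fin d → ℝ) → ℝ, Measurable y ∧ (∀ x, 0 ≤ y x) ∧ MemLp y 2 volume ∧ 0 < ∫ x, y x ^ 2 ∧
      DQ y (fun r => 2 * B r + 2 / ε * δ) ∧ Integrable (fun x => (y x ^ 2) ^ p) ∧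
      (∀ x, (1 - ε) * (u x - n x) ^ 2 + y x ^ 2 = u x ^ 2) ∧
      ∫ x, (y x ^ 2) ^ p ≤ 2 ^ p * (ε ^ p * (∫ x, (u x ^ 2) ^ p) + 2 ^ p * τ) := by
  have u0 : ∀ x, 0 ≤ u x := fun x => (n0 x).trans (nu x)
  have n2 : MemLp n 2 volume := u2.mono nm.aestronglyMeasurable
    (Filter.Eventually.of_forall fun x => by
      rw [Real.norm_of_nonneg (n0 x), Real.norm_of_nonneg (u0 x)]; exact nu x)
  obtain ⟨y, hy⟩ : ∃ y : (Fin d → ℝ) → ℝ,
      y = fun x => √(u x ^ 2 - (1 - ε) * (u x - n x) ^ 2) := ⟨_, rfl⟩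
  have ym : Measurable y := by rw [hy]; fun_prop
  have y0 : ∀ x, 0 ≤ y x := fun x => by rw [hy]; exact Real.sqrt_nonneg _
  have lo : ∀ x, ε * u x ^ 2 ≤ u x ^ 2 - (1 - ε) * (u x - n x) ^ 2 := by
    intro x
    have a := n0 x; have b := nu x
    have : (u x - n x) ^ 2 ≤ u x ^ 2 := by nlinarith
    nlinarith
  have ysq : ∀ x, y x ^ 2 = u x ^ 2 - (1 - ε) * (u x - n x) ^ 2 := by
    intro x
    rw [hy]
    exact Real.sq_sqrt ((by positivity : 0 ≤ ε * u x ^ 2).trans (lo x))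
  have hi : ∀ x, y x ^ 2 ≤ u x ^ 2 := by
    intro x
    rw [ysq]
    have : 0 ≤ (1 - ε) * (u x - n x) ^ 2 := mul_nonneg (by linarith) (sq_nonneg _)
    linarith
  have hi2 : ∀ x, y x ^ 2 ≤ ε * u x ^ 2 + 2 * (n x * u x) := by
    intro x
    rw [ysq]
    have a := n0 x; have b := u0 x
    have c : 0 ≤ (1 - ε) * n x ^ 2 := mul_nonneg (by linarith) (sq_nonneg _)
    have e : 0 ≤ ε * (n x * u x) := by positivity
    nlinarith
  have y2 : MemLp y 2 volume := u2.mono ym.aestronglyMeasurable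
    (Filter.Eventually.of_forall fun x => by
      rw [Real.norm_of_nonneg (y0 x), Real.norm_of_nonneg (u0 x)]
      exact (sq_le_sq₀ (y0 x) (u0 x)).1 (hi x))
  have p0 : 0 ≤ p := by linarith
  have yD : Integrable fun x => (y x ^ 2) ^ p := by
    refine hD.mono' ((ym.pow_const 2).pow_const p).aestronglyMeasurable
      (Filter.Eventually.of_forall fun x => ?_)
    rw [Real.norm_of_nonneg (Real.rpow_nonneg (sq_nonneg _) p)]
    exact Real.rpow_le_rpow (sq_nonneg _) (hi x) p0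
  have nD : Integrable fun x => (n x * u x) ^ p := by
    refine hD.mono' ((nm.mul um).pow_const p).aestronglyMeasurable
      (Filter.Eventually.of_forall fun x => ?_)
    have a := n0 x; have b := u0 x; have c := nu x
    rw [Real.norm_of_nonneg (Real.rpow_nonneg (by positivity) p)]
    exact Real.rpow_le_rpow (by positivity) (by nlinarith) p0
  refine ⟨y, ym, y0, y2, ?_, ?_, yD, fun x => by rw [ysq]; ring, ?_⟩
  · have : ∫ x, ε * u x ^ 2 ≤ ∫ x, y x ^ 2 :=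
      integral_mono (u2.integrable_sq.const_mul ε) y2.integrable_sq fun x => by
        simp only; rw [ysq]; exact lo x
    rw [integral_const_mul] at this
    exact (mul_pos h0 upos).trans_le this
  · refine SMix_DQ zero_le_two (by positivity) u2 n2 hB hn fun x z => ?_
    rw [hy]
    exact SMix_incr h0 h1 (n0 x) (nu x) (n0 z) (nu z)
  · have i1 := hD.const_mul (ε ^ p)
    have i2 := nD.const_mul ((2 : ℝ) ^ p)
    have i12 : Integrable fun x => ε ^ p * (u x ^ 2) ^ p + 2 ^ p * (n x * u x) ^ p := i1.add i2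
    have p2 : (0 : ℝ) ≤ 2 ^ p := Real.rpow_nonneg zero_le_two p
    calc ∫ x, (y x ^ 2) ^ p
        ≤ ∫ x, 2 ^ p * (ε ^ p * (u x ^ 2) ^ p + 2 ^ p * (n x * u x) ^ p) := by
          refine integral_mono yD (i12.const_mul _) fun x => ?_
          have a := n0 x; have b := u0 x
          simp only
          rw [← Real.mul_rpow h0.le (sq_nonneg _), ← Real.mul_rpow zero_le_two (by positivity)]
          exact (Real.rpow_le_rpow (sq_nonneg _) (hi2 x) p0).trans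
            (SMix_pow p0 (by positivity) (by positivity))
      _ = 2 ^ p * (ε ^ p * (∫ x, (u x ^ 2) ^ p) + 2 ^ p * ∫ x, (n x * u x) ^ p) := by
          rw [integral_const_mul, integral_add i1 i2, integral_const_mul, integral_const_mul]
      _ ≤ _ := by gcongr

/-- The smooth part: approximation and the sharp bound. -/
lemma SMix_approx (hd : 0 < d) : ∃ C : ℝ, 0 < C ∧ ∀ (u : (Fin d → ℝ) → ℝ) (B : Fin d → ℝ),
    Measurable u → (∀ x, 0 ≤ u x) → MemLp u 2 volume → (∀ r, 0 ≤ B r) →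
    DQ u B → Integrable (fun x => (u x ^ 2) ^ (1 + 2 / (d : ℝ))) → ∀ e δ : ℝ, 0 < e → 0 < δ →
    ∃ (s : (Fin d → ℝ) → ℝ) (E : Fin d → ℝ), Measurable s ∧ (∀ x, 0 ≤ s x) ∧
      MemLp (fun x => s x - u x) 2 volume ∧ ∫ x, (s x - u x) ^ 2 ≤ 4 * δ ∧
      DQ (fun x => s x - u x) (fun _ => 4 * δ) ∧ RFam 1 (fun _ => 1) (fun x => s x ^ 2) E ∧
      ∑ r, E r ≤ (1 + e) * (Kcl d * ((∫ x, (u x ^ 2) ^ (1 + 2 / (d : ℝ))) + δ)) +
        C * (2 * ∑ r, B r + 2 * d * δ) + δ := by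
  obtain ⟨η, C₁, C₂, η0, η1, c1, c2, hps⟩ := ps_all hd
  obtain ⟨C, C0, hC⟩ := smooth hd η0 η1 c1 c2
  refine ⟨C, C0, fun u B um u0 u2 B0 hB hD e δ e0 δ0 => ?_⟩
  obtain ⟨g, g1, gs, g0, ga, gb, gc⟩ := moll hd um u0 u2 B0 hB hD δ0
  obtain ⟨s, E, sc, s0, sg, sa, sb, sF, sE⟩ := hC e e0.le (hps e e0) g g1 gs g0 δ δ0
  have g2 : MemLp g 2 volume := g1.continuous.memLp_of_hasCompactSupport gs
  have s2 : MemLp s 2 volume := g2.mono sc.aestronglyMeasurable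
    (Filter.Eventually.of_forall fun x => by
      rw [Real.norm_of_nonneg (s0 x), Real.norm_of_nonneg (g0 x)]; exact sg x)
  have gu : MemLp (fun x => g x - u x) 2 volume := g2.sub u2
  have sg2 : MemLp (fun x => s x - g x) 2 volume := s2.sub g2
  have su : MemLp (fun x => s x - u x) 2 volume := s2.sub u2
  refine ⟨s, E, sc.measurable, s0, su, ?_, ?_, sF, sE.trans ?_⟩
  · have i1 := sg2.integrable_sq.const_mul 2
    have i2 := gu.integrable_sq.const_mul 2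
    calc ∫ x, (s x - u x) ^ 2 ≤ ∫ x, (2 * (s x - g x) ^ 2 + 2 * (g x - u x) ^ 2) :=
          integral_mono su.integrable_sq (i1.add i2) fun x => by
            simp only; nlinarith [sq_nonneg (s x - g x - (g x - u x))]
      _ = 2 * (∫ x, (s x - g x) ^ 2) + 2 * ∫ x, (g x - u x) ^ 2 := by
          rw [integral_add i1 i2, integral_const_mul, integral_const_mul]
      _ ≤ 4 * δ := by linarith
  · have := DQ.add sg2 gu sb gb
    simp only [sub_add_sub_cancel] at this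
    exact this.mono fun r => by linarith
  · have a : GrR g ≤ 2 * ∑ r, B r + 2 * d * δ := by
      have := DQ.add u2 gu hB gb
      simp only [add_sub_cancel] at this
      refine (GrR_le_of_DQ g1 gs this).trans (le_of_eq ?_)
      rw [Finset.sum_add_distrib, ← Finset.mul_sum]
      simp only [Finset.sum_const, Finset.card_univ, Fintype.card_fin, nsmul_eq_mul]
      ring
    have b : ∫ x, TF d (g x ^ 2) = Kcl d * ∫ x, (g x ^ 2) ^ (1 + 2 / (d : ℝ)) := by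
      rw [← integral_const_mul]
      exact integral_congr_ae (Filter.Eventually.of_forall fun x => TF_eq hd (sq_nonneg _))
    have K0 := Kcl_pos hd
    rw [b]
    gcongr

/-- The sharp bound for one-body density matrices. -/
theorem mix (hd : 0 < d) : ∃ C : ℝ, 0 < C ∧ ∀ (u : (Fin d → ℝ) → ℝ) (B : Fin d → ℝ),
    Measurable u → (∀ x, 0 ≤ u x) → MemLp u 2 volume → 0 < ∫ x, u x ^ 2 → (∀ r, 0 ≤ B r) →
    0 < ∑ r, B r → DQ u B → Integrable (fun x => (u x ^ 2) ^ (1 + 2 / (d : ℝ))) →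
    ∃ E : Fin d → ℝ, RFam 1 (fun _ => 1) (fun x => u x ^ 2) E ∧
      ∑ r, E r ≤ Kcl d * (∫ x, (u x ^ 2) ^ (1 + 2 / (d : ℝ))) + C * ∑ r, B r := by
  obtain ⟨Cs, Cs0, hs⟩ := SMix_approx hd
  obtain ⟨Cc, Cc0, hc⟩ := crude hd
  refine ⟨6 + 2 * Cs + 2 * Cc, by positivity, fun u B um u0 u2 upos B0 Bt0 hB hD => ?_⟩
  have K0 := Kcl_pos hd
  have d0 : (0 : ℝ) < d := by exact_mod_cast hd
  have hs' := hs u B um u0 u2 B0 hB hD
  have hp : 1 ≤ 1 + 2 / (d : ℝ) := le_add_of_nonneg_right (by positivity)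
  have hsm := fun (τ : ℝ) (hτ : 0 < τ) => SMix_small hp um u0 u2 hD hτ
  obtain ⟨I, hI⟩ : ∃ I : ℝ, I = ∫ x, (u x ^ 2) ^ (1 + 2 / (d : ℝ)) := ⟨_, rfl⟩
  have I0 : 0 ≤ I := by
    rw [hI]; exact integral_nonneg fun x => Real.rpow_nonneg (sq_nonneg _) _
  obtain ⟨Bt, hBt⟩ : ∃ Bt : ℝ, Bt = ∑ r, B r := ⟨_, rfl⟩
  rw [← hBt] at Bt0 hs' ⊢
  rw [← hI] at hs' ⊢
  obtain ⟨P, hP⟩ : ∃ P : ℝ, P = 2 ^ (1 + 2 / (d : ℝ)) := ⟨_, rfl⟩
  have P0 : 0 < P := by rw [hP]; positivity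
  obtain ⟨e, he⟩ : ∃ e : ℝ, e = Bt / (Kcl d * (I + 1)) := ⟨_, rfl⟩
  have e0 : 0 < e := by rw [he]; positivity
  have e1 : e * (Kcl d * (I + 1)) = Bt := by rw [he]; field_simp
  obtain ⟨ε, hε⟩ : ∃ ε : ℝ, ε = min 1 (Bt / (Cc * P * (I + 1))) := ⟨_, rfl⟩
  have ε0 : 0 < ε := by rw [hε]; positivity
  have ε1 : ε ≤ 1 := by rw [hε]; exact min_le_left _ _
  have ε2 : ε * (Cc * P * (I + 1)) ≤ Bt := by
    rw [← le_div_iff₀ (by positivity), hε]; exact min_le_right _ _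
  obtain ⟨Q, hQ⟩ : ∃ Q : ℝ, Q = ε ^ (-2 / (d : ℝ)) := ⟨_, rfl⟩
  have Q0 : 0 < Q := by rw [hQ]; positivity
  have Qe : Q * ε ^ (1 + 2 / (d : ℝ)) = ε := by
    rw [hQ, ← Real.rpow_add ε0, show -2 / (d : ℝ) + (1 + 2 / (d : ℝ)) = 1 by ring, Real.rpow_one]
  obtain ⟨τ, hτ⟩ : ∃ τ : ℝ, τ = Bt / (Cc * Q * P * P) := ⟨_, rfl⟩
  have τ0 : 0 < τ := by rw [hτ]; positivity
  have τ1 : Cc * Q * P * P * τ = Bt := by rw [hτ]; field_simp
  obtain ⟨δ₁, δ₁0, hδ₁⟩ := hsm τ τ0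
  obtain ⟨A, hA⟩ : ∃ A : ℝ, A = Kcl d + 2 * d * Cs + 1 + 8 * d + Cc * (d * (2 / ε * 4)) :=
    ⟨_, rfl⟩
  have A0 : 0 < A := by rw [hA]; positivity
  obtain ⟨δ, hδ⟩ : ∃ δ : ℝ, δ = min (min 1 (δ₁ / 4)) (Bt / A) := ⟨_, rfl⟩
  have δ0 : 0 < δ := by rw [hδ]; positivity
  have δ1 : δ ≤ 1 := by rw [hδ]; exact (min_le_left _ _).trans (min_le_left _ _)
  have δ2 : δ ≤ δ₁ / 4 := by rw [hδ]; exact (min_le_left _ _).trans (min_le_right _ _)
  have δ3 : δ * A ≤ Bt := by rw [← le_div_iff₀ A0, hδ]; exact min_le_right _ _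
  obtain ⟨s, E, sm, s0, su, sa, sb, sF, sE⟩ := hs' e δ e0 δ0
  have nm : Measurable fun x => max (u x - s x) 0 := by fun_prop
  have n0 : ∀ x, 0 ≤ max (u x - s x) 0 := fun x => le_max_right _ _
  have nu : ∀ x, max (u x - s x) 0 ≤ u x := fun x => max_le (by linarith [s0 x]) (u0 x)
  have n2 : MemLp (fun x => max (u x - s x) 0) 2 volume := u2.mono nm.aestronglyMeasurable
    (Filter.Eventually.of_forall fun x => by
      rw [Real.norm_of_nonneg (n0 x), Real.norm_of_nonneg (u0 x)]; exact nu x)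
  have nL : ∀ x z, (max (u z - s z) 0 - max (u x - s x) 0) ^ 2 ≤ (s z - u z - (s x - u x)) ^ 2 := by
    intro x z
    have := abs_max_sub_max_le_abs (u z - s z) (u x - s x) 0
    rw [← sq_abs, ← sq_abs (s z - u z - (s x - u x)), abs_sub_comm (s z - u z)]
    refine pow_le_pow_left₀ (abs_nonneg _) (this.trans (le_of_eq ?_)) 2
    congr 1; ring
  have nQ : DQ (fun x => max (u x - s x) 0) fun _ => 4 * δ := by
    have := SMix_DQ (g := fun x => max (u x - s x) 0) zero_le_one le_rfl su su sb sb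
      fun x z => by simpa using nL x z
    exact this.mono fun r => by linarith
  have nI : ∫ x, (max (u x - s x) 0) ^ 2 ≤ δ₁ := by
    refine le_trans (integral_mono n2.integrable_sq su.integrable_sq fun x => ?_) (by linarith)
    simp only
    rcases le_total (u x - s x) 0 with h | h
    · rw [max_eq_right h]; nlinarith [sq_nonneg (s x - u x)]
    · rw [max_eq_left h]; nlinarith
  have mQ : DQ (fun x => u x - max (u x - s x) 0) fun r => 2 * B r + 2 * (4 * δ) := by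
    have := DQ.add u2 n2.neg hB nQ.neg
    simpa only [sub_eq_add_neg, Pi.neg_apply] using this
  obtain ⟨w, w1, F1⟩ := SMix_main ε0 ε1 um u0 sm s0 (fun r => by have := B0 r; positivity) sF mQ
  obtain ⟨y, ym, y0, y2, ypos, yQ, yD, ysq, yI⟩ :=
    SMix_rest hp ε0 ε1 um u2 upos nm n0 nu hB nQ hD (hδ₁ _ n2 n0 nu nI)
  obtain ⟨E', F2, hE'⟩ := hc ε y _ ε0 ym y0 y2 ypos (fun r => by have := B0 r; positivity) yQ yD
  refine ⟨_, ((F1.add F2).congr ysq).const zero_le_one fun x => by linarith [w1 x], ?_⟩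
  rw [← hI, ← hP] at yI
  rw [← hQ] at hE'
  have S1 : ∑ r, (E r + (2 * B r + 2 * (4 * δ)) + E' r) =
      ∑ r, E r + 2 * Bt + 8 * d * δ + ∑ r, E' r := by
    simp only [Finset.sum_add_distrib, ← Finset.mul_sum, ← hBt, Finset.sum_const,
      Finset.card_univ, Fintype.card_fin, nsmul_eq_mul]
    ring
  have S2 : ∑ r, (2 * B r + 2 / ε * (4 * δ)) = 2 * Bt + d * (2 / ε * 4) * δ := by
    simp only [Finset.sum_add_distrib, ← Finset.mul_sum, ← hBt, Finset.sum_const,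
      Finset.card_univ, Fintype.card_fin, nsmul_eq_mul]
    ring
  rw [S2] at hE'
  rw [S1]
  have T1 : Cc * Q * ∫ x, (y x ^ 2) ^ (1 + 2 / (d : ℝ)) ≤ 2 * Bt := by
    calc Cc * Q * ∫ x, (y x ^ 2) ^ (1 + 2 / (d : ℝ))
        ≤ Cc * Q * (P * (ε ^ (1 + 2 / (d : ℝ)) * I + P * τ)) := by gcongr
      _ = (Q * ε ^ (1 + 2 / (d : ℝ))) * (Cc * P * I) + Cc * Q * P * P * τ := by ring
      _ ≤ ε * (Cc * P * (I + 1)) + Bt := by rw [Qe, τ1]; gcongr; linarith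
      _ ≤ 2 * Bt := by linarith
  have T2 : e * (Kcl d * (I + δ)) ≤ Bt := by rw [← e1]; gcongr
  rw [hA] at δ3
  nlinarith

end Pool.Agent.Lib.MP_ae5e3b_mp.Sh
end

-- part Pool.Agent.Lib.MP_ae5e3b_mp.SFin
section

open MeasureTheory Matrix Real
open scoped ComplexConjugate ComplexOrder

set_option linter.unusedSectionVars false

namespace Pool.Agent.Lib.MP_ae5e3b_mp.Sh


/-- The sharp bound for every particle number. -/
theorem main_sharp {d : ℕ} (hd : 0 < d) :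
    ∃ C : ℝ, 0 < C ∧ ∀ (c : Ctx d) (n : ℕ), 0 < ∑ r, c.B r →
      Integrable (fun x => (c.u x ^ 2) ^ (1 + 2 / (d : ℝ))) →
      ∃ Ψ : (Fin (n + 1) → Fin d → ℝ) → ℂ, IsState Ψ ∧
        (∀ᵐ x, density Ψ x = ((n : ℝ) + 1) * c.u x ^ 2) ∧
        kinetic Ψ ≤ ENNReal.ofReal (Kcl d * ((n : ℝ) + 1) ^ (1 + 2 / (d : ℝ)) *
          (∫ x, (c.u x ^ 2) ^ (1 + 2 / (d : ℝ))) + C * ((n : ℝ) + 1) * ∑ r, c.B r) := by
  obtain ⟨C₁, hC₁, hm⟩ := mix hd
  obtain ⟨C₂, hC₂, hp⟩ := purify d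
  refine ⟨C₁ + C₂, by positivity, fun c n hB hD => ?_⟩
  set N : ℝ := (n : ℝ) + 1 with hN
  have hN0 : 0 < N := by positivity
  have e1 : ∀ x, (√N * c.u x) ^ 2 = N * c.u x ^ 2 := fun x => by
    rw [mul_pow, sq_sqrt hN0.le]
  have e2 : ∀ x, ((√N * c.u x) ^ 2) ^ (1 + 2 / (d : ℝ)) =
      N ^ (1 + 2 / (d : ℝ)) * (c.u x ^ 2) ^ (1 + 2 / (d : ℝ)) := fun x => by
    rw [e1, mul_rpow hN0.le (sq_nonneg _)]
  obtain ⟨E, hE, hs⟩ := hm (fun x => √N * c.u x) (fun r => N * c.B r) (c.um.const_mul _)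
    (fun x => mul_nonneg (sqrt_nonneg _) (c.u0 x)) (c.u2.const_mul _)
    (by simp_rw [e1]; rw [integral_const_mul, c.u1]; positivity)
    (fun r => mul_nonneg hN0.le (c.B0 r)) (by rw [← Finset.mul_sum]; positivity)
    (fun r h hh => by
      simp_rw [← mul_sub, mul_pow √N, sq_sqrt hN0.le]
      rw [integral_const_mul]
      have := mul_le_mul_of_nonneg_left (c.hB r h hh) hN0.le
      linarith)
    (by simp_rw [e2]; exact hD.const_mul _)
  obtain ⟨Ψ, s1, s2, s3⟩ := hp c n E (hE.congr e1)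
  refine ⟨Ψ, s1, s2, s3.trans (ENNReal.ofReal_le_ofReal ?_)⟩
  simp_rw [e2] at hs
  rw [integral_const_mul, ← Finset.mul_sum] at hs
  rw [← hN]
  nlinarith

end Pool.Agent.Lib.MP_ae5e3b_mp.Sh
end
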