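import Pool.Agent.Lib.MP_ae5e3b_mp.SCr
import Pool.Agent.Lib.MP_ae5e3b_mp.SHc
import Pool.Agent.Lib.MP_ae5e3b_mp.SIb

-- part Pool.Agent.Lib.MP_ae5e3b_mp.SId1
section

open MeasureTheory Matrix Real
open scoped ComplexConjugate ComplexOrder

set_option linter.unusedSectionVars false

namespace Pool.Agent.Lib.MP_ae5e3b_mp.Sh

section Shift
variable {d : ℕ} {L : ℝ}

/-- The cyclic rotation of one coordinate of the modes. -/
noncomputable def SId1_rot (L : ℝ) (j : Fin d) : Ix d L ≃ Ix d L :=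
  Equiv.piCongrRight fun r => if r = j then finRotate (2 * Rad L + 1) else Equiv.refl _

lemma SId1_rot_ne (j : Fin d) (i : Ix d L) {r : Fin d} (h : r ≠ j) : SId1_rot L j i r = i r := by
  simp [SId1_rot, Equiv.piCongrRight, h]

lemma SId1_rot_self (j : Fin d) (i : Ix d L) :
    SId1_rot L j i j = finRotate (2 * Rad L + 1) (i j) := by
  simp [SId1_rot, Equiv.piCongrRight]

lemma SId1_rad (hL : Big L) : 15 ≤ kap L * Rad L := by
  have hk := kap_pos hL.pos
  have h : 15 / kap L ≤ (Rad L : ℝ) := Nat.le_ceil _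
  rw [div_le_iff₀ hk] at h
  linarith

lemma SId1_nu_rot (j : Fin d) {i : Ix d L} (h : i j ≠ Fin.last _) :
    nu (SId1_rot L j i) = nu i + Pi.single j 1 := by
  funext r
  by_cases hr : r = j
  · subst hr
    simp only [nu, SId1_rot_self, coe_finRotate_of_ne_last h, Pi.add_apply, Pi.single_eq_same]
    push_cast
    ring
  · simp [nu, SId1_rot_ne j i hr, hr]

lemma SId1_mom_rot (j : Fin d) {i : Ix d L} (h : i j ≠ Fin.last _) :
    mom (SId1_rot L j i) = momS j i := by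
  funext r
  simp only [mom, momS, SId1_nu_rot j h, Pi.add_apply]
  by_cases hr : r = j
  · subst hr
    simp only [Pi.single_eq_same]
    push_cast
    ring
  · simp [hr]

lemma SId1_mom_rot_ne (j : Fin d) (i : Ix d L) {r : Fin d} (hr : r ≠ j) :
    mom (SId1_rot L j i) r = momS j i r := by
  simp [mom, momS, nu, SId1_rot_ne j i hr, hr]

lemma SId1_last_mom (hL : Big L) (j : Fin d) {i : Ix d L} (h : i j = Fin.last _) :
    15 ≤ mom i j := by
  have := SId1_rad hL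
  simp only [mom, nu, h, Fin.val_last]
  push_cast
  linarith

lemma SId1_last_momS (hL : Big L) (j : Fin d) {i : Ix d L} (h : i j = Fin.last _) :
    15 ≤ momS j i j := by
  have := SId1_last_mom hL j h
  have hk := kap_pos hL.pos
  simp only [momS, Pi.add_apply, Pi.single_eq_same]
  linarith

lemma SId1_last_rot (hL : Big L) (j : Fin d) {i : Ix d L} (h : i j = Fin.last _) :
    mom (SId1_rot L j i) j ≤ -15 := by
  have := SId1_rad hL
  simp only [mom, nu, SId1_rot_self, h, finRotate_last, Fin.val_zero]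
  push_cast
  linarith

lemma SId1_le_norm (p : Fin d → ℝ) (j : Fin d) : |p j| ≤ ‖p‖ := by
  simpa using norm_le_pi_norm p j

lemma SId1_norm_mom (hL : Big L) (j : Fin d) {i : Ix d L} (h : i j = Fin.last _) :
    15 ≤ ‖mom i‖ :=
  ((SId1_last_mom hL j h).trans (le_abs_self _)).trans (SId1_le_norm _ j)

lemma SId1_norm_momS (hL : Big L) (j : Fin d) {i : Ix d L} (h : i j = Fin.last _) :
    15 ≤ ‖momS j i‖ :=
  ((SId1_last_momS hL j h).trans (le_abs_self _)).trans (SId1_le_norm _ j)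

lemma SId1_norm_rot (hL : Big L) (j : Fin d) {i : Ix d L} (h : i j = Fin.last _) :
    15 ≤ ‖mom (SId1_rot L j i)‖ := by
  have h1 := SId1_last_rot hL j h
  have h2 := neg_le_abs (mom (SId1_rot L j i) j)
  have h3 := SId1_le_norm (mom (SId1_rot L j i)) j
  linarith

lemma SId1_phi_rot (hL : Big L) (j : Fin d) (i : Ix d L) :
    phiS (mom (SId1_rot L j i)) = phiS (momS j i) := by
  by_cases h : i j = Fin.last _
  · rw [phiS_eq_zero (by linarith [SId1_norm_rot hL j h]),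
      phiS_eq_zero (by linarith [SId1_norm_momS hL j h])]
  · rw [SId1_mom_rot j h]

lemma SId1_pi_rot (hL : Big L) (j : Fin d) (i : Ix d L) :
    piS j (mom (SId1_rot L j i)) = piS j (momS j i) := by
  by_cases h : i j = Fin.last _
  · rw [piS_eq_zero j (by linarith [SId1_norm_rot hL j h]),
      piS_eq_zero j (by linarith [SId1_norm_momS hL j h])]
  · rw [SId1_mom_rot j h]

lemma SId1_eps_rot (hL : Big L) (j : Fin d) (i : Ix d L) :
    epsS (mom (SId1_rot L j i)) = epsS (momS j i) := by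
  by_cases h : i j = Fin.last _
  · unfold epsS
    refine Finset.sum_congr rfl fun r _ => ?_
    by_cases hr : r = j
    · subst hr
      have h1 := SId1_last_rot hL r h
      have h2 := neg_le_abs (mom (SId1_rot L r i) r)
      have h3 := SId1_last_momS hL r h
      have h4 := le_abs_self (momS r i r)
      rw [cut_eq_zero (a := 12) (t := mom (SId1_rot L r i) r) (by linarith),
        cut_eq_zero (a := 12) (t := momS r i r) (by linarith)]
      ring
    · rw [SId1_mom_rot_ne j i hr]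
  · rw [SId1_mom_rot j h]

lemma SId1_mulM_rot (j : Fin d) (g : Tor d → ℂ) {i i' : Ix d L} (h : i j ≠ Fin.last _)
    (h' : i' j ≠ Fin.last _) :
    mulM L g (SId1_rot L j i) (SId1_rot L j i') = mulM L g i i' := by
  simp only [mulM, SId1_nu_rot j h, SId1_nu_rot j h', add_sub_add_right_eq_sub]

lemma SId1_dg_sub (m : Ix d L → ℝ) (e : Ix d L ≃ Ix d L) :
    (dg m).submatrix e e = dg fun i => m (e i) := by
  unfold dg
  rw [submatrix_diagonal_equiv]
  rfl

lemma SId1_far {p q : Fin d → ℝ} (hp : ‖p‖ < 13) (hq : 15 ≤ ‖q‖) : 1 < ‖p - q‖ := by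
  have := norm_sub_norm_le q p
  rw [norm_sub_rev] at this
  linarith

end Shift

/-- The cyclic shift of the modes. -/
theorem exists_shift {d : ℕ} {L : ℝ} (hL : Big L) (j : Fin d) : ∃ e : Ix d L ≃ Ix d L,
    (∀ u : Tor d → ℝ, hamS L j u = (ham L u).submatrix e e) ∧
    ∀ b : Tor d → ℝ, TP L 1 (cx b) →
      Xs L j b = (dg (fun i => piS j (mom i)) * mulM L (cx b)).submatrix e e := by
  refine ⟨SId1_rot L j, fun u => ?_, fun b hb => ?_⟩
  · unfold hamS ham
    rw [submatrix_add]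
    simp only [Pi.add_apply]
    rw [SId1_dg_sub]
    simp only [SId1_eps_rot hL]
    congr 1
    ext i i'
    simp only [submatrix_apply, Wop, Ph, mul_dg_apply, dg_mul_apply, SId1_phi_rot hL]
    by_cases h : i j = Fin.last _
    · rw [phiS_eq_zero (p := momS j i) (by linarith [SId1_norm_momS hL j h])]
      simp
    by_cases h' : i' j = Fin.last _
    · rw [phiS_eq_zero (p := momS j i') (by linarith [SId1_norm_momS hL j h'])]
      simp
    rw [SId1_mulM_rot j _ h h']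
  · ext i i'
    simp only [Xs, submatrix_apply, dg_mul_apply, SId1_pi_rot hL]
    by_cases h0 : 12 ≤ ‖momS j i‖
    · rw [piS_eq_zero j h0]
      simp
    have h : i j ≠ Fin.last _ := fun h => h0 (by linarith [SId1_norm_momS hL j h])
    by_cases h' : i' j = Fin.last _
    · have h1 := le_norm_momS hL j i
      rw [mulM_band zero_le_one hb (SId1_far (by linarith) (SId1_norm_mom hL j h')),
        mulM_band zero_le_one hb
          (SId1_far (by rw [SId1_mom_rot j h]; linarith) (SId1_norm_rot hL j h'))]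
    rw [SId1_mulM_rot j _ h h']

section Gen
variable {n : Type} [Fintype n] [DecidableEq n]

/-- Moving a factor that is small on `E` across a bounded matrix. -/
lemma SId1_move {R Y E : Matrix n n ℂ} {t t' : ℝ} (hY : OpB Y 1) (hE : OpB E 1)
    (hc : hs (cm R Y) ≤ t) (h1 : hs (R * E) ≤ t') (h2 : hs (E * R) ≤ t') :
    hs (R * Y * E) ≤ t + t' ∧ hs (E * (R * Y)) ≤ t' ∧ hs (Y * R * E) ≤ t' ∧
      hs (E * (Y * R)) ≤ t + t' := by
  have a1 : hs (E * (R * Y)) ≤ t' := by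
    have := hY.hs_mul_right (E * R)
    rw [← Matrix.mul_assoc]
    linarith
  have a2 : hs (Y * R * E) ≤ t' := by
    have := hY.hs_mul_left (R * E)
    rw [Matrix.mul_assoc]
    linarith
  refine ⟨?_, a1, a2, ?_⟩
  · have e : R * Y * E = cm R Y * E + Y * R * E := by
      simp only [cm, Matrix.sub_mul]
      abel
    have := hE.hs_mul_right (cm R Y)
    rw [e]
    linarith [hs_add_le (cm R Y * E) (Y * R * E)]
  · have e : E * (Y * R) = E * (R * Y) - E * cm R Y := by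
      simp only [cm, Matrix.mul_sub]
      abel
    have := hE.hs_mul_left (cm R Y)
    rw [e]
    linarith [hs_sub_le (E * (R * Y)) (E * cm R Y)]

lemma SId1_cm_self (U : Matrix n n ℂ) : hs (cm U U) = 0 := by
  simp [cm, hs_zero]

lemma SId1_cm_dg (m m' : n → ℝ) : hs (cm (dg m) (dg m')) = 0 := by
  rw [cm_dg_dg, hs_zero]

lemma SId1_sqrt {a b K T k : ℝ} (hK : 0 ≤ K) (hT : 0 ≤ T) (hk : 0 ≤ k) (ha : a ≤ K * T)
    (hb : b ≤ k ^ 2 * (K * T)) : √a * √b ≤ k * (K * T) := by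
  have hKT := mul_nonneg hK hT
  have h1 : √a ≤ √(K * T) := sqrt_le_sqrt ha
  have h2 : √b ≤ k * √(K * T) := by
    refine (sqrt_le_sqrt hb).trans_eq ?_
    rw [sqrt_mul (sq_nonneg k), sqrt_sq hk]
  calc √a * √b ≤ √(K * T) * (k * √(K * T)) :=
        mul_le_mul h1 h2 (sqrt_nonneg _) (sqrt_nonneg _)
    _ = k * (√(K * T) * √(K * T)) := by ring
    _ = k * (K * T) := by rw [mul_self_sqrt hKT]

lemma SId1_trace_sub (A B : Matrix n n ℂ) (e : n ≃ n) :
    trace (A.submatrix e e * B.submatrix e e) = trace (A * B) := by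
  rw [submatrix_mul_equiv]
  simp only [trace, diag_apply, submatrix_apply]
  exact e.sum_comp fun i => (A * B) i i

end Gen

section Est
variable {d : ℕ} {L : ℝ} {u b : Tor d → ℝ}

lemma SId1_U (hu : Pot L u) : OpB (mulM L (cx u)) 1 :=
  mulM_opB_real hu.c1.cont fun x => (hu.bd x).trans (by norm_num)

/-- The Hamiltonian almost commutes with the potential. -/
lemma SId1_cm_U (hu : Pot L u) {c : ℝ} (h1 : Sy (fun i : Ix d L => phiS (mom i)) c)
    (h2 : Sy (fun i : Ix d L => epsS (mom i) - 1) c) :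
    hs (cm (ham L u) (mulM L (cx u))) ≤ 3 * (3 ^ d * c * √(L ^ d * Gr L u)) := by
  have hU := SId1_U hu
  have a1 := hs_cm_sy_real hu.big hu.c1 h1
  have a2 := hs_cm_sy_real hu.big hu.c1 h2
  have hP : OpB (Ph d L) 1 := Ph_opB
  have a3 : hs (cm (mulM L (cx u)) (Ph d L)) ≤ 3 ^ d * c * √(L ^ d * Gr L u) := by
    rw [hs_cm_swap]
    exact a1
  have a4 := hs_cm_mul (R := mulM L (cx u)) hP hU
  have a5 := hs_cm_mul (R := mulM L (cx u)) (hP.mul hU) hP
  rw [SId1_cm_self] at a4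
  unfold ham
  rw [cm_add_left]
  refine (hs_add_le _ _).trans ?_
  rw [hs_cm_swap (Wop L u)]
  unfold Wop
  linarith

/-- The commutator of the Hamiltonian with a dressed potential. -/
lemma SId1_cm_dressed (hu : Pot L u) {c : ℝ} (hc : 1 ≤ c)
    (h1 : Sy (fun i : Ix d L => phiS (mom i)) c) (h2 : Sy (fun i : Ix d L => epsS (mom i) - 1) c)
    {m m' : Ix d L → ℝ} (hm : Sy m c) (hm' : Sy m' c) :
    hs (cm (ham L u) (dg m * mulM L (cx u) * dg m')) ≤
      5 * c ^ 2 * (3 ^ d * c * √(L ^ d * Gr L u)) := by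
  have hU := SId1_U hu
  have a0 := SId1_cm_U hu h1 h2
  have a1 := hs_cm_ham hu.big hu.c1 hm
  have a2 := hs_cm_ham hu.big hu.c1 hm'
  rw [hs_cm_swap] at a1 a2
  have a4 := hs_cm_mul (R := ham L u) hm.opB hU
  have a5 := hs_cm_mul (R := ham L u) (hm.opB.mul hU) hm'.opB
  have hs0 : 0 ≤ 3 ^ d * c * √(L ^ d * Gr L u) := by positivity
  generalize 3 ^ d * c * √(L ^ d * Gr L u) = s at *
  have b1 : hs (cm (ham L u) (dg m * mulM L (cx u))) ≤ s + c * (3 * s) := by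
    have := mul_le_mul_of_nonneg_left a0 (by linarith : 0 ≤ c)
    linarith
  have b2 := mul_le_mul_of_nonneg_left b1 (by linarith : 0 ≤ c)
  have b3 := mul_le_mul_of_nonneg_left a2 (by linarith : 0 ≤ c)
  have b4 : c * s ≤ c ^ 2 * s := mul_le_mul_of_nonneg_right (by nlinarith) hs0
  nlinarith

lemma SId1_r_supp (hL : Big L) (j : Fin d) (i : Ix d L)
    (h : (phiS (momS j i) - phiS (mom i)) / kap L ≠ 0) : 3 ≤ ‖mom i‖ := by
  by_contra h'
  apply h
  have := norm_momS_le hL j i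
  rw [phiS_eq_one (p := momS j i) (by linarith), phiS_eq_one (p := mom i) (by linarith)]
  simp

lemma SId1_Er_mono {f : ℝ → ℝ} {Γ Γ' : ℝ} (h : Γ ≤ Γ') : Er L f u Γ ≤ Er L f u Γ' := by
  unfold Er
  linarith

lemma SId1_le_Er (f : ℝ → ℝ) (Γ : ℝ) : Γ + Gr L u ≤ Er L f u Γ := by
  unfold Er
  have : 0 ≤ √(Gr L u) * √(Gr L (rhoF L u f)) := by positivity
  linarith

end Est

/-- The first factor of the trapezoid error. -/
lemma SId1_hs1 (d : ℕ) : ∃ C : ℝ, 1 ≤ C ∧ ∀ (L : ℝ) (u b : Tor d → ℝ), Pot L u →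
    TP L 1 (cx b) → (∀ x, |b x| ≤ 1) → ∀ j : Fin d,
    hs (Xs L j b * hamS L j u - ham L u * Xs L j b) ≤
      C * (√(L ^ d * Gr L u) + √(L ^ d * Gr L b) + kap L * √(L ^ d)) := by
  obtain ⟨c, hc, hsy⟩ := sy_all d
  obtain ⟨C1, hC1, hop⟩ := ham_opB d
  obtain ⟨C2, hC2, hcm⟩ := hs_cm_ham_mulM d
  have h3 : (1 : ℝ) ≤ 3 ^ d := one_le_pow₀ (by norm_num)
  have k1 : 1 ≤ 3 ^ d * c := one_le_mul_of_one_le_of_one_le h3 hc
  have k2 : 1 ≤ 3 ^ d * c * C1 := one_le_mul_of_one_le_of_one_le k1 hC1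
  have k3 : 1 ≤ 3 ^ d * c * C1 * C2 := one_le_mul_of_one_le_of_one_le k2 hC2
  refine ⟨3 ^ d * c * C1 * C2, k3, fun L u b hu hb hb1 j => ?_⟩
  obtain ⟨-, -, hj⟩ := hsy L hu.big
  obtain ⟨-, -, -, hpi, -⟩ := hj j
  obtain ⟨-, hj'⟩ := hop L u hu
  obtain ⟨-, hD⟩ := hj' j
  have hk := kap_pos hu.big.pos
  have hB : OpB (mulM L (cx b)) 1 := mulM_opB_real hb.c1_real.cont hb1
  have hX : OpB (Xs L j b) (c * 1) := hpi.opB.mul hB
  have e : Xs L j b * hamS L j u - ham L u * Xs L j b =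
      Xs L j b * (hamS L j u - ham L u) - cm (ham L u) (Xs L j b) := by
    simp only [cm, Matrix.mul_sub]
    abel
  have a1 := (hX.mul hD).hs_le
  have a2 := sqrt_card_le (d := d) hu.big
  have a3 : hs (Xs L j b * (hamS L j u - ham L u)) ≤ 3 ^ d * c * C1 * (kap L * √(L ^ d)) := by
    refine a1.trans ((mul_le_mul_of_nonneg_left a2 (by positivity)).trans_eq (by ring))
  have a4 := hs_cm_mul (R := ham L u) hpi.opB hB
  have a5 := hs_cm_ham hu.big hu.c1 hpi
  rw [hs_cm_swap] at a5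
  have a6 := (hcm L u b hu.big hu.c1.cont (fun x => (hu.bd x).trans (by norm_num))
    (hb.mono (by norm_num))).2
  have a7 := mul_le_mul_of_nonneg_left a6 (by linarith : 0 ≤ c)
  rw [e]
  refine (hs_sub_le _ _).trans ?_
  have a8 : hs (cm (ham L u) (Xs L j b)) ≤
      3 ^ d * c * √(L ^ d * Gr L u) + c * C2 * √(L ^ d * Gr L b) := by
    unfold Xs
    linarith
  have p1 : 0 ≤ √(L ^ d * Gr L u) := sqrt_nonneg _
  have p2 : 0 ≤ √(L ^ d * Gr L b) := sqrt_nonneg _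
  have p3 : 0 ≤ kap L * √(L ^ d) := by positivity
  have q1 : 3 ^ d * c ≤ 3 ^ d * c * C1 * C2 := by
    have : 1 ≤ C1 * C2 := one_le_mul_of_one_le_of_one_le hC1 hC2
    nlinarith
  have q2 : c * C2 ≤ 3 ^ d * c * C1 * C2 := by
    have : 1 ≤ 3 ^ d * C1 := one_le_mul_of_one_le_of_one_le h3 hC1
    have h : 0 ≤ c * C2 := by positivity
    nlinarith
  have q3 : 3 ^ d * c * C1 ≤ 3 ^ d * c * C1 * C2 := by nlinarith
  have r1 := mul_le_mul_of_nonneg_right q1 p1
  have r2 := mul_le_mul_of_nonneg_right q2 p2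
  have r3 := mul_le_mul_of_nonneg_right q3 p3
  linarith

/-- The second factor of the trapezoid error. -/
lemma SId1_hs2 (d : ℕ) : ∃ C : ℝ, 1 ≤ C ∧ ∀ (L : ℝ) (u : Tor d → ℝ), Pot L u → ∀ j : Fin d,
    hs (hamS L j u * (hamS L j u - ham L u) - (hamS L j u - ham L u) * ham L u) ≤
      C * kap L * (√(L ^ d * Gr L u) + kap L * √(L ^ d)) := by
  obtain ⟨c, hc, hsy⟩ := sy_all d
  obtain ⟨C1, hC1, hop⟩ := ham_opB d
  have h3 : (1 : ℝ) ≤ 3 ^ d := one_le_pow₀ (by norm_num)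
  have k1 : 1 ≤ 3 ^ d * c := one_le_mul_of_one_le_of_one_le h3 hc
  have k2 : 1 ≤ c ^ 2 := one_le_pow₀ hc
  have k3 : 1 ≤ C1 ^ 2 := one_le_pow₀ hC1
  have k4 : 0 ≤ c ^ 2 * (3 ^ d * c) := by positivity
  have k5 : 0 ≤ C1 ^ 2 * 3 ^ d := by positivity
  refine ⟨3 ^ d * c + 10 * (c ^ 2 * (3 ^ d * c)) + C1 ^ 2 * 3 ^ d, by linarith,
    fun L u hu j => ?_⟩
  obtain ⟨hphi, heps, hj⟩ := hsy L hu.big
  obtain ⟨-, hphiS, -, -, hr, hme, -⟩ := hj j
  obtain ⟨-, hj'⟩ := hop L u hu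
  obtain ⟨-, hD⟩ := hj' j
  have hk := kap_pos hu.big.pos
  have e : hamS L j u * (hamS L j u - ham L u) - (hamS L j u - ham L u) * ham L u =
      (hamS L j u - ham L u) * (hamS L j u - ham L u) + cm (ham L u) (hamS L j u - ham L u) := by
    simp only [cm, Matrix.mul_sub, Matrix.sub_mul]
    abel
  have a1 := (hD.mul hD).hs_le
  have a2 := sqrt_card_le (d := d) hu.big
  have a3 : hs ((hamS L j u - ham L u) * (hamS L j u - ham L u)) ≤
      kap L * (C1 ^ 2 * 3 ^ d * (kap L * √(L ^ d))) := by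
    refine a1.trans ((mul_le_mul_of_nonneg_left a2 (by positivity)).trans_eq (by ring))
  have a4 := hs_cm_ham hu.big hu.c1 hme
  rw [hs_cm_swap] at a4
  have a5 := SId1_cm_dressed hu hc hphi heps hr hphiS
  have a6 := SId1_cm_dressed hu hc hphi heps hphi hr
  have a7 : hs (cm (ham L u) (hamS L j u - ham L u)) ≤
      kap L * ((3 ^ d * c + 10 * (c ^ 2 * (3 ^ d * c))) * √(L ^ d * Gr L u)) := by
    rw [hamS_sub hu.big.pos, cm_smul_right, hs_smul, Complex.norm_real, Real.norm_of_nonneg hk.le,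
      cm_add_right, cm_add_right]
    refine mul_le_mul_of_nonneg_left ?_ hk.le
    refine (hs_add_le _ _).trans ?_
    refine (add_le_add (hs_add_le _ _) le_rfl).trans ?_
    unfold Ph
    linarith
  rw [e]
  refine (hs_add_le _ _).trans ?_
  have p1 : 0 ≤ √(L ^ d * Gr L u) := sqrt_nonneg _
  have p3 : 0 ≤ kap L * √(L ^ d) := by positivity
  refine (add_le_add a3 a7).trans ?_
  rw [← mul_add, mul_comm _ (kap L), mul_assoc (kap L)]
  refine mul_le_mul_of_nonneg_left ?_ hk.le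
  have r1 := mul_nonneg k5 p1
  have r2 := mul_nonneg k4 p3
  have r3 := mul_nonneg (by linarith : 0 ≤ 3 ^ d * c) p3
  nlinarith

/-- The excitation sum of the test matrix. -/
lemma SId1_exX (d : ℕ) : ∃ C : ℝ, 1 ≤ C ∧ ∀ (L : ℝ) (u b : Tor d → ℝ), Pot L u →
    TP L 1 (cx b) → (∀ x, |b x| ≤ 1) → ∀ (f : ℝ → ℝ) (l : ℝ), FOK f l → l * kap L ≤ 1 →
    ∀ j : Fin d, exS f (hamS L j u) (ham L u) (Xs L j b) ≤
      C * (L ^ d * (Er L f u (Gr L b) + l * kap L)) := by
  obtain ⟨c, hc, hsy⟩ := sy_all d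
  obtain ⟨C1, hC1, hop⟩ := ham_opB d
  obtain ⟨C3, hC3, hex⟩ := exB1 d c
  have k1 : 0 ≤ C1 * (3 ^ d * c) ^ 2 := by positivity
  refine ⟨2 * C3 + 8 * (C1 * (3 ^ d * c) ^ 2), by linarith, fun L u b hu hb hb1 f l hf hl j => ?_⟩
  obtain ⟨-, -, hj⟩ := hsy L hu.big
  obtain ⟨-, -, -, hpi, -⟩ := hj j
  obtain ⟨hH, hj'⟩ := hop L u hu
  obtain ⟨hA, -⟩ := hj' j
  have hk := kap_pos hu.big.pos
  have hk2 := hu.big.kap_le
  have hDp : 0 < L ^ d := pow_pos hu.big.pos d
  have e : Xs L j b = mulM L (cx b) * dg (fun i => piS j (momS j i)) +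
      cm (dg fun i => piS j (momS j i)) (mulM L (cx b)) := by
    simp only [Xs, cm]
    abel
  have a1 := hex L u b hu hb hb1 f l hf hl _ j j (kap L) hpi (by rw [abs_of_pos hk]; linarith)
    fun i hi => piS_shift hu.big j hi
  have a2 := exS_crude (hamS_herm L j u) (ham_herm L u) hf hA hH
    (cm (dg fun i => piS j (momS j i)) (mulM L (cx b)))
  have a3 := hs_cm_sy_real hu.big hb.c1_real hpi
  have a4 := (Ep_opB (hamS_herm L j u)).hs_mul_right
    (cm (dg fun i => piS j (momS j i)) (mulM L (cx b)))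
  have a5 := (Ep_opB (ham_herm L u)).hs_mul_left
    (cm (dg fun i => piS j (momS j i)) (mulM L (cx b)))
  rw [one_mul] at a4 a5
  have hG := Gr_nonneg (L := L) b
  have hsq : (3 ^ d * c * √(L ^ d * Gr L b)) ^ 2 = (3 ^ d * c) ^ 2 * (L ^ d * Gr L b) := by
    rw [mul_pow, sq_sqrt (by positivity)]
  have a6 := pow_le_pow_left₀ (hs_nonneg _) (a4.trans a3) 2
  have a7 := pow_le_pow_left₀ (hs_nonneg _) (a5.trans a3) 2
  rw [hsq] at a6 a7
  have a8 := mul_le_mul_of_nonneg_left (add_le_add a6 a7) (by linarith : 0 ≤ 2 * C1)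
  have b1 : Gr L b ≤ Er L f u (Gr L b) + l * kap L := by
    have := SId1_le_Er (L := L) (u := u) f (Gr L b)
    have := Gr_nonneg (L := L) u
    have : 0 ≤ l * kap L := mul_nonneg (by linarith [hf.one_le]) hk.le
    linarith
  have b2 := mul_le_mul_of_nonneg_left (mul_le_mul_of_nonneg_left b1 hDp.le) k1
  have a9 := exS_add_le (hamS_herm L j u) (ham_herm L u) hf.anti
    (mulM L (cx b) * dg fun i => piS j (momS j i))
    (cm (dg fun i => piS j (momS j i)) (mulM L (cx b)))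
  rw [e]
  nlinarith

/-- The excitation sum of the shift of the Hamiltonian. -/
lemma SId1_exD (d : ℕ) : ∃ C : ℝ, 1 ≤ C ∧ ∀ (L : ℝ) (u : Tor d → ℝ), Pot L u →
    ∀ (f : ℝ → ℝ) (l : ℝ), FOK f l → l * kap L ≤ 1 →
    ∀ j : Fin d, exS f (hamS L j u) (ham L u) (hamS L j u - ham L u) ≤
      kap L ^ 2 * (C * (L ^ d * (Er L f u 0 + l * kap L))) := by
  obtain ⟨c, hc, hsy⟩ := sy_all d
  obtain ⟨C1, hC1, hop⟩ := ham_opB d
  obtain ⟨C3, hC3, hex⟩ := exB1 d c
  obtain ⟨C4, hC4, hhi⟩ := hiE d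
  have k1 : 0 ≤ C1 * (3 ^ d * c + 2 * (C4 * c)) ^ 2 := by positivity
  refine ⟨8 * C3 + 8 * (C1 * (3 ^ d * c + 2 * (C4 * c)) ^ 2), by linarith,
    fun L u hu f l hf hl j => ?_⟩
  obtain ⟨hphi, heps, hj⟩ := hsy L hu.big
  obtain ⟨-, hphiS, -, -, hr, hme, -⟩ := hj j
  obtain ⟨hH, hj'⟩ := hop L u hu
  obtain ⟨hA, -⟩ := hj' j
  have hk := kap_pos hu.big.pos
  have hk2 := hu.big.kap_le
  have hDp : 0 < L ^ d := pow_pos hu.big.pos d
  have hAh := hamS_herm L j u
  have hHh := ham_herm L u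
  have hU := SId1_U hu
  -- the diagonal part
  have hm2 : Sy (fun i : Ix d L => 1 / 2 * ((epsS (momS j i) - epsS (mom i)) / kap L)) c :=
    (hme.const_mul (1 / 2)).mono (by rw [abs_of_pos (by norm_num)]; linarith)
  have a1 := hex L u (fun _ => 1) hu (TP.const zero_le_one _) (fun _ => by simp) f l hf hl _ j j
    (kap L / 2) hm2 (by rw [abs_of_pos (by linarith)]; linarith)
    fun i hi => by rw [epsS_shift hu.big j (by linarith)]; ring
  have e1 : mulM L (cx fun _ : Tor d => (1 : ℝ)) = 1 := by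
    have := mulM_const (d := d) (L := L) 1
    rw [one_smul] at this
    rw [← this]
    congr 1
  rw [e1, Matrix.one_mul, Gr_const, ← dg_smul, exS_smul] at a1
  have e2 : ‖((1 / 2 : ℝ) : ℂ)‖ ^ 2 = 1 / 4 := by
    rw [Complex.norm_real, Real.norm_of_nonneg (by norm_num)]
    norm_num
  rw [e2] at a1
  -- the dressed potentials
  have hPS : OpB (dg fun i : Ix d L => phiS (momS j i)) 1 :=
    opB_dg zero_le_one fun i => abs_phiS_le _
  have hP : OpB (Ph d L) 1 := Ph_opB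
  have c0 := hs_cm_sy_real hu.big hu.c1 hr
  have hY1 : OpB (mulM L (cx u) * dg fun i : Ix d L => phiS (momS j i)) 1 := by
    simpa using hU.mul hPS
  have hY2 : OpB (Ph d L * mulM L (cx u)) 1 := by simpa using hP.mul hU
  have c1 := hs_cm_mul (R := dg fun i : Ix d L => (phiS (momS j i) - phiS (mom i)) / kap L) hU hPS
  have c2 := hs_cm_mul (R := dg fun i : Ix d L => (phiS (momS j i) - phiS (mom i)) / kap L) hP hU
  rw [SId1_cm_dg] at c1
  have e3 : hs (cm (dg fun i : Ix d L => (phiS (momS j i) - phiS (mom i)) / kap L) (Ph d L)) = 0 :=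
    SId1_cm_dg _ _
  rw [e3] at c2
  simp only [one_mul, mul_zero, add_zero, zero_add] at c1 c2
  obtain ⟨dA1, dA2⟩ := hhi L u hu _ (Or.inr ⟨j, rfl⟩) _ c hr.1 hr.2.1 (SId1_r_supp hu.big j)
  obtain ⟨dH1, dH2⟩ := hhi L u hu _ (Or.inl rfl) _ c hr.1 hr.2.1 (SId1_r_supp hu.big j)
  obtain ⟨m1, -, -, -⟩ := SId1_move hY1 (Ep_opB hAh) (c1.trans c0) dA1 dA2
  obtain ⟨-, m2, -, -⟩ := SId1_move hY1 (Ep_opB hHh) (c1.trans c0) dH1 dH2
  obtain ⟨-, -, m3, -⟩ := SId1_move hY2 (Ep_opB hAh) (c2.trans c0) dA1 dA2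
  obtain ⟨-, -, -, m4⟩ := SId1_move hY2 (Ep_opB hHh) (c2.trans c0) dH1 dH2
  rw [hamS_sub hu.big.pos, exS_smul, Complex.norm_real, Real.norm_of_nonneg hk.le, add_assoc,
    Matrix.mul_assoc (dg fun i : Ix d L => (phiS (momS j i) - phiS (mom i)) / kap L)]
  refine mul_le_mul_of_nonneg_left ?_ (sq_nonneg _)
  generalize (dg fun i : Ix d L => (phiS (momS j i) - phiS (mom i)) / kap L) *
    (mulM L (cx u) * dg fun i : Ix d L => phiS (momS j i)) = Z1 at *
  generalize Ph d L * mulM L (cx u) *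
    (dg fun i : Ix d L => (phiS (momS j i) - phiS (mom i)) / kap L) = Z2 at *
  have a2 := exS_crude hAh hHh hf hA hH (Z1 + Z2)
  have a4 : hs ((Z1 + Z2) * Ep (hamS L j u)) ≤
      (3 ^ d * c + 2 * (C4 * c)) * √(L ^ d * Gr L u) := by
    rw [Matrix.add_mul]
    linarith [hs_add_le (Z1 * Ep (hamS L j u)) (Z2 * Ep (hamS L j u))]
  have a5 : hs (Ep (ham L u) * (Z1 + Z2)) ≤
      (3 ^ d * c + 2 * (C4 * c)) * √(L ^ d * Gr L u) := by
    rw [Matrix.mul_add]
    linarith [hs_add_le (Ep (ham L u) * Z1) (Ep (ham L u) * Z2)]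
  have hG := Gr_nonneg (L := L) u
  have hsq : ((3 ^ d * c + 2 * (C4 * c)) * √(L ^ d * Gr L u)) ^ 2 =
      (3 ^ d * c + 2 * (C4 * c)) ^ 2 * (L ^ d * Gr L u) := by
    rw [mul_pow, sq_sqrt (by positivity)]
  have a6 := pow_le_pow_left₀ (hs_nonneg _) a4 2
  have a7 := pow_le_pow_left₀ (hs_nonneg _) a5 2
  rw [hsq] at a6 a7
  have a8 := mul_le_mul_of_nonneg_left (add_le_add a6 a7) (by linarith : 0 ≤ 2 * C1)
  have b1 : Gr L u ≤ Er L f u 0 + l * kap L := by
    have := SId1_le_Er (L := L) (u := u) f 0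
    have : 0 ≤ l * kap L := mul_nonneg (by linarith [hf.one_le]) hk.le
    linarith
  have b2 := mul_le_mul_of_nonneg_left (mul_le_mul_of_nonneg_left b1 hDp.le) k1
  have a9 := exS_add_le hAh hHh hf.anti
    (dg fun i : Ix d L => (epsS (momS j i) - epsS (mom i)) / kap L) (Z1 + Z2)
  nlinarith

/-- The shift identity with the trapezoid error. -/
theorem id1 (d : ℕ) : ∃ C : ℝ, 1 ≤ C ∧ ∀ (L : ℝ) (u b : Tor d → ℝ), Pot L u →
    TP L 1 (cx b) → (∀ x, |b x| ≤ 1) → ∀ (f : ℝ → ℝ) (l : ℝ), FOK f l → l * kap L ≤ 1 →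
    ∀ (M : ℝ) (Φ g g' : ℝ → ℝ), XF f M g g' → (∀ t, HasDerivAt Φ (g t) t) → ∀ j : Fin d,
    |rtr (dg (fun i => piS j (momS j i) - piS j (mom i)) * mulM L (cx b) * fc Φ (ham L u)) +
        1 / 2 * rtr (fc g (hamS L j u) * (hamS L j u - ham L u) * Xs L j b) +
        1 / 2 * rtr (fc g (ham L u) * Xs L j b * (hamS L j u - ham L u))| ≤
      C * M * kap L * L ^ d * (Er L f u (Gr L b) + l * kap L) := by
  obtain ⟨K1, hK1, h1⟩ := SId1_hs1 d
  obtain ⟨K2, hK2, h2⟩ := SId1_hs2 d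
  obtain ⟨K3, hK3, h3⟩ := SId1_exX d
  obtain ⟨K4, hK4, h4⟩ := SId1_exD d
  have k1 : 0 ≤ K1 * K2 := by positivity
  refine ⟨3 * (K1 * K2) + (K3 + K4), by linarith,
    fun L u b hu hb hb1 f l hf hl M Φ g g' hX hΦ j => ?_⟩
  have hM : 0 ≤ M := (abs_nonneg _).trans (hX.bd 0)
  have hk := kap_pos hu.big.pos
  have hk2 := hu.big.kap_le
  have hDp : 0 < L ^ d := pow_pos hu.big.pos d
  have hGu := Gr_nonneg (L := L) u
  have hGb := Gr_nonneg (L := L) b
  have hEr := SId1_le_Er (L := L) (u := u) f (Gr L b)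
  have hlk : kap L ^ 2 ≤ l * kap L := by nlinarith [hf.one_le]
  have hT : 0 ≤ Er L f u (Gr L b) + l * kap L := by nlinarith
  have ht := trap (hamS_herm L j u) (ham_herm L u) hf.anti hM hΦ hX.der hX.osc (Xs L j b)
  obtain ⟨e, he1, he2⟩ := exists_shift hu.big j
  have tr1 : trace (Xs L j b * fc Φ (hamS L j u)) =
      trace (dg (fun i => piS j (mom i)) * mulM L (cx b) * fc Φ (ham L u)) := by
    rw [he2 b hb, he1 u, fc_submatrix (ham_herm L u), SId1_trace_sub]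
  have tr2 : trace (Xs L j b * (fc Φ (hamS L j u) - fc Φ (ham L u))) =
      -trace (dg (fun i => piS j (momS j i) - piS j (mom i)) * mulM L (cx b) * fc Φ (ham L u)) := by
    rw [Matrix.mul_sub, trace_sub, tr1, ← dg_sub, Matrix.sub_mul, Matrix.sub_mul, trace_sub]
    unfold Xs
    ring
  rw [tr2] at ht
  have hre := (Complex.abs_re_le_norm _).trans ht
  have e2 : (-trace (dg (fun i => piS j (momS j i) - piS j (mom i)) * mulM L (cx b) *
        fc Φ (ham L u)) -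
      (1 / 2 : ℂ) * trace (fc g (hamS L j u) * (hamS L j u - ham L u) * Xs L j b) -
      (1 / 2 : ℂ) * trace (fc g (ham L u) * Xs L j b * (hamS L j u - ham L u))).re =
      -(rtr (dg (fun i => piS j (momS j i) - piS j (mom i)) * mulM L (cx b) * fc Φ (ham L u)) +
        1 / 2 * rtr (fc g (hamS L j u) * (hamS L j u - ham L u) * Xs L j b) +
        1 / 2 * rtr (fc g (ham L u) * Xs L j b * (hamS L j u - ham L u))) := by
    unfold rtr
    have : (1 / 2 : ℂ) = ((1 / 2 : ℝ) : ℂ) := by push_cast; rfl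
    rw [this]
    simp only [Complex.sub_re, Complex.neg_re, Complex.re_ofReal_mul]
    ring
  rw [e2, abs_neg] at hre
  refine hre.trans ?_
  have b1 := h1 L u b hu hb hb1 j
  have b2 := h2 L u hu j
  have b3 := h3 L u b hu hb hb1 f l hf hl j
  have b4 := h4 L u hu f l hf hl j
  have hDT : 0 ≤ L ^ d * (Er L f u (Gr L b) + l * kap L) := mul_nonneg hDp.le hT
  have b5 : L ^ d * (Er L f u 0 + l * kap L) ≤ L ^ d * (Er L f u (Gr L b) + l * kap L) :=
    mul_le_mul_of_nonneg_left (by linarith [SId1_Er_mono (L := L) (u := u) (f := f) hGb]) hDp.le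
  have c1 : √(exS f (hamS L j u) (ham L u) (Xs L j b)) *
      √(exS f (hamS L j u) (ham L u) (hamS L j u - ham L u)) ≤
      kap L * ((K3 + K4) * (L ^ d * (Er L f u (Gr L b) + l * kap L))) := by
    refine SId1_sqrt (by linarith) hDT hk.le (b3.trans ?_) (b4.trans ?_)
    · exact mul_le_mul_of_nonneg_right (by linarith) hDT
    · refine mul_le_mul_of_nonneg_left ?_ (sq_nonneg _)
      exact (mul_le_mul_of_nonneg_left b5 (by linarith)).trans
        (mul_le_mul_of_nonneg_right (by linarith) hDT)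
  have s1 : √(L ^ d * Gr L u) ^ 2 = L ^ d * Gr L u := sq_sqrt (by positivity)
  have s2 : √(L ^ d * Gr L b) ^ 2 = L ^ d * Gr L b := sq_sqrt (by positivity)
  have s3 : (kap L * √(L ^ d)) ^ 2 = L ^ d * kap L ^ 2 := by
    rw [mul_pow, sq_sqrt hDp.le]
    ring
  have p1 : 0 ≤ √(L ^ d * Gr L u) := sqrt_nonneg _
  have p2 : 0 ≤ √(L ^ d * Gr L b) := sqrt_nonneg _
  have p3 : 0 ≤ kap L * √(L ^ d) := by positivity
  have s4 : L ^ d * (Gr L b + Gr L u + kap L ^ 2) ≤ L ^ d * (Er L f u (Gr L b) + l * kap L) :=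
    mul_le_mul_of_nonneg_left (by linarith) hDp.le
  have c2 : (√(L ^ d * Gr L u) + √(L ^ d * Gr L b) + kap L * √(L ^ d)) *
      (√(L ^ d * Gr L u) + kap L * √(L ^ d)) ≤
      3 * (L ^ d * (Er L f u (Gr L b) + l * kap L)) := by
    generalize √(L ^ d * Gr L u) = x at *
    generalize √(L ^ d * Gr L b) = y at *
    generalize kap L * √(L ^ d) = z at *
    nlinarith [sq_nonneg (x - y), sq_nonneg (y - z), sq_nonneg (x - z), mul_nonneg p1 p2,
      mul_nonneg p2 p3]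
  have c3 : hs (Xs L j b * hamS L j u - ham L u * Xs L j b) *
      hs (hamS L j u * (hamS L j u - ham L u) - (hamS L j u - ham L u) * ham L u) ≤
      kap L * (3 * (K1 * K2) * (L ^ d * (Er L f u (Gr L b) + l * kap L))) := by
    refine (mul_le_mul b1 b2 (hs_nonneg _) (by positivity)).trans ?_
    have := mul_le_mul_of_nonneg_left c2 (mul_nonneg hk.le k1)
    linarith
  refine (mul_le_mul_of_nonneg_left (add_le_add c3 c1) hM).trans_eq ?_
  ring

end Pool.Agent.Lib.MP_ae5e3b_mp.Sh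
end

-- part Pool.Agent.Lib.MP_ae5e3b_mp.SId3
section

open MeasureTheory Matrix Real
open scoped ComplexConjugate ComplexOrder

set_option linter.unusedSectionVars false

namespace Pool.Agent.Lib.MP_ae5e3b_mp.Sh

lemma SId3_sum {d : ℕ} (L : ℝ) (u : Tor d → ℝ) :
    ∑ j, Pm L j * Pm L j = ham L u + 1 - Wop L u +
      dg fun i : Ix d L => ∑ r, mom i r ^ 2 - epsS (mom i) := by
  have e1 : ham L u + 1 - Wop L u = dg fun i : Ix d L => epsS (mom i) - 1 + 1 := by
    rw [← dg_add, dg_one]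
    unfold ham
    abel
  rw [e1, dg_add]
  unfold Pm
  simp only [dg_mul]
  rw [dg_sum]
  congr 1
  funext i
  simp only [sq]
  ring

lemma SId3_split {d : ℕ} (L : ℝ) (u b : Tor d → ℝ) (g : ℝ → ℝ) :
    ∑ j, rtr (mulM L (cx b) * Pm L j * Pm L j * fc g (ham L u)) =
      rtr (mulM L (cx b) * fc (fun t => (t + 1) * g t) (ham L u)) -
        rtr (mulM L (cx b) * Wop L u * fc g (ham L u)) +
        rtr (fc g (ham L u) * mulM L (cx b) *
          dg fun i : Ix d L => ∑ r, mom i r ^ 2 - epsS (mom i)) := by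
  have hH := ham_herm L u
  have e1 : fc (fun t => (t + 1) * g t) (ham L u) = ham L u * fc g (ham L u) + fc g (ham L u) := by
    rw [self_mul_fc hH, ← fc_add hH]
    congr 1
    funext t
    ring
  have e2 : ∑ j, mulM L (cx b) * Pm L j * Pm L j * fc g (ham L u) =
      mulM L (cx b) * (∑ j, Pm L j * Pm L j) * fc g (ham L u) := by
    rw [Finset.mul_sum, Finset.sum_mul]
    exact Finset.sum_congr rfl fun j _ => by rw [Matrix.mul_assoc (mulM L (cx b))]
  rw [← rtr_sum, e2, SId3_sum L u, e1, Matrix.mul_assoc (fc g (ham L u)),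
    rtr_comm (fc g (ham L u)), ← rtr_sub, ← rtr_add]
  congr 1
  generalize (dg fun i : Ix d L => ∑ r, mom i r ^ 2 - epsS (mom i)) = R
  generalize fc g (ham L u) = G
  generalize ham L u = H
  generalize Wop L u = W
  generalize mulM L (cx b) = B
  noncomm_ring

lemma SId3_R_bd {d : ℕ} {L : ℝ} (hL : Big L) (i : Ix d L) :
    |∑ r, mom i r ^ 2 - epsS (mom i)| ≤ 425 * d := by
  have h1 : ∑ r, mom i r ^ 2 ≤ 256 * d := by
    have : ∑ r, mom i r ^ 2 ≤ ∑ _r : Fin d, (256 : ℝ) :=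
      Finset.sum_le_sum fun r _ => by
        have := abs_mom_le hL i r
        nlinarith [abs_nonneg (mom i r), sq_abs (mom i r)]
    simpa [mul_comm] using this
  have h2 : 0 ≤ ∑ r, mom i r ^ 2 := Finset.sum_nonneg fun r _ => sq_nonneg _
  have h3 := epsS_nonneg (mom i)
  have h4 := epsS_le (mom i)
  have h5 : (0 : ℝ) ≤ d := Nat.cast_nonneg d
  exact abs_le.2 ⟨by linarith, by linarith⟩

lemma SId3_R_supp {d : ℕ} {L : ℝ} (i : Ix d L) (h : ∑ r, mom i r ^ 2 - epsS (mom i) ≠ 0) :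
    4 ≤ ‖mom i‖ := by
  by_contra hc
  exact h (by rw [epsS_eq (by linarith [not_le.1 hc]), sub_self])

lemma SId3_num {D a b k : ℝ} (hD : 0 < D) (ha : 0 ≤ a) (hb : 0 ≤ b) (hk : 0 ≤ k) :
    √(D * a) * (k * 1 * √(D * b) + 1 * √(D * a)) ≤ (k + 1) * (D * (b + a)) := by
  have s1 : √(D * a) ^ 2 = D * a := sq_sqrt (by positivity)
  have s2 : √(D * b) ^ 2 = D * b := sq_sqrt (by positivity)
  have p1 : 0 ≤ D * a := by positivity
  have p2 : 0 ≤ D * b := by positivity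
  generalize √(D * a) = x at *
  generalize √(D * b) = y at *
  have h : x * y ≤ D * b + D * a := by nlinarith [sq_nonneg (x - y)]
  have := mul_le_mul_of_nonneg_left h hk
  nlinarith

theorem id3 (d : ℕ) : ∃ C : ℝ, 1 ≤ C ∧ ∀ (L : ℝ) (u b : Tor d → ℝ), Pot L u →
    TP L 1 (cx b) → (∀ x, |b x| ≤ 1) → ∀ (g : ℝ → ℝ) (M : ℝ), Van g M →
    |(L ^ d)⁻¹ * ∑ j, rtr (mulM L (cx b) * Pm L j * Pm L j * fc g (ham L u)) -
        wtr L u b (fun t => (t + 1) * g t) + wtr L u (fun x => b x * u x) g| ≤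
      C * M * (Gr L b + Gr L u) := by
  obtain ⟨K1, hK1, h1⟩ := bw d
  obtain ⟨K2, hK2, h2⟩ := sand d
  have k2 : 0 ≤ K2 * (425 * d) * (3 ^ d + 1) := by positivity
  refine ⟨2 * K1 + K2 * (425 * d) * (3 ^ d + 1), by linarith, fun L u b hu hb hb1 g M hg => ?_⟩
  have hM := hg.nonneg
  have hDp : 0 < L ^ d := pow_pos hu.big.pos d
  have hGu := Gr_nonneg (L := L) u
  have hGb := Gr_nonneg (L := L) b
  have a1 := h1 L u u b hu hu.c1 (fun x => (hu.bd x).trans (by norm_num)) hb hb1 g M hg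
  have a2 := (h2 L u hu g M hg (fun i : Ix d L => ∑ r, mom i r ^ 2 - epsS (mom i)) (425 * d)
    (by positivity) (SId3_R_bd hu.big) SId3_R_supp (mulM L (cx b)) 1
    (mulM_opB_real hb.c1_real.cont hb1)).2
  have a3 := hs_cm_sy_real hu.big hb.c1_real (sy_sc (L := L) (d := d) 3)
  have a4 := SId3_num hDp hGu hGb (by positivity : (0 : ℝ) ≤ 3 ^ d)
  have a5 : |rtr (fc g (ham L u) * mulM L (cx b) *
      dg fun i : Ix d L => ∑ r, mom i r ^ 2 - epsS (mom i))| ≤
      K2 * (425 * d) * (3 ^ d + 1) * M * (Gr L b + Gr L u) * L ^ d := by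
    refine (abs_rtr_le _).trans (a2.trans ?_)
    have c0 : 0 ≤ K2 * M * (425 * d) := by positivity
    have c1 := mul_le_mul_of_nonneg_left (add_le_add_left a3 (1 * √(L ^ d * Gr L u)))
      (mul_nonneg c0 (sqrt_nonneg (L ^ d * Gr L u)))
    have c2 := mul_le_mul_of_nonneg_left a4 c0
    linarith
  rw [SId3_split]
  have e : wtr L u b (fun t => (t + 1) * g t) =
      (L ^ d)⁻¹ * rtr (mulM L (cx b) * fc (fun t => (t + 1) * g t) (ham L u)) := rfl
  rw [e]
  generalize rtr (mulM L (cx b) * fc (fun t => (t + 1) * g t) (ham L u)) = x at *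
  generalize rtr (mulM L (cx b) * Wop L u * fc g (ham L u)) = y at *
  generalize rtr (fc g (ham L u) * mulM L (cx b) *
      dg fun i : Ix d L => ∑ r, mom i r ^ 2 - epsS (mom i)) = z at *
  generalize wtr L u (fun x => b x * u x) g = w at *
  have a6 : |(L ^ d)⁻¹ * z| ≤ K2 * (425 * d) * (3 ^ d + 1) * M * (Gr L b + Gr L u) := by
    rw [abs_mul, abs_of_pos (inv_pos.2 hDp), inv_mul_le_iff₀ hDp]
    linarith
  have a7 : K1 * M * (Gr L b + Gr L u + Gr L u) ≤ 2 * K1 * M * (Gr L b + Gr L u) := by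
    have : 0 ≤ K1 * M * Gr L b := by positivity
    linarith
  have e2 : (L ^ d)⁻¹ * (x - y + z) - (L ^ d)⁻¹ * x + w =
      (L ^ d)⁻¹ * z - ((L ^ d)⁻¹ * y - w) := by ring
  rw [e2]
  refine (abs_sub _ _).trans ?_
  linarith

lemma SId3_lip {g g' : ℝ → ℝ} {M : ℝ} (hd : ∀ t, HasDerivAt g (g' t) t)
    (hb : ∀ t, -2 ≤ t → |g' t| ≤ M) {s t : ℝ} (hs : -2 ≤ s) (ht : -2 ≤ t) :
    |g s - g t| ≤ M * |s - t| :=
  (convex_Ici (-2 : ℝ)).norm_image_sub_le_of_norm_hasDerivWithin_le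
    (fun x _ => (hd x).hasDerivWithinAt) (fun x hx => hb x hx) ht hs

lemma SId3_van {g g' : ℝ → ℝ} {M c : ℝ} (hd : ∀ t, HasDerivAt g (g' t) t)
    (hb : ∀ t, -2 ≤ t → |g' t| ≤ M) (h0 : ∀ t, 1 / 2 ≤ t → g t = 0) (hc : 5 / 2 * M ≤ c) :
    Van g c := by
  have hM : 0 ≤ M := (abs_nonneg _).trans (hb 0 (by norm_num))
  refine ⟨h0, fun t ht => ?_⟩
  rcases le_total (1 / 2) t with h | h
  · rw [h0 t h, abs_zero]
    linarith
  · have h1 := SId3_lip hd hb ht (by norm_num : (-2 : ℝ) ≤ 1 / 2)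
    rw [h0 _ le_rfl, sub_zero, abs_of_nonpos (sub_nonpos.2 h)] at h1
    nlinarith

/-- The quantum counterpart of `Cl_ode`. -/
theorem ident (d : ℕ) : ∃ C : ℝ, 1 ≤ C ∧ ∀ (L : ℝ) (u b : Tor d → ℝ), Pot L u →
    TP L 1 (cx b) → (∀ x, |b x| ≤ 1) → ∀ (f : ℝ → ℝ) (l : ℝ), FOK f l → l * kap L ≤ 1 →
    ∀ (M : ℝ) (Φ g g' : ℝ → ℝ), XF f M g g' → (∀ t, HasDerivAt Φ (g t) t) →
    (∀ t, 1 / 2 ≤ t → Φ t = 0) →
    |d * wtr L u b Φ + 2 * wtr L u b (fun t => (t + 1) * g t) -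
        2 * wtr L u (fun x => b x * u x) g| ≤ C * M * (Er L f u (Gr L b) + l * kap L) := by
  obtain ⟨K1, hK1, h1⟩ := id1 d
  obtain ⟨K2, hK2, h2⟩ := id2a d
  obtain ⟨K3, hK3, h3⟩ := id2b d
  obtain ⟨K4, hK4, h4⟩ := id3 d
  have k0 : 0 ≤ d * (K1 + 8 * K2 + 3 * K3) := by positivity
  refine ⟨d * (K1 + 8 * K2 + 3 * K3) + 6 * K4, by linarith,
    fun L u b hu hb hb1 f l hf hl M Φ g g' hX hΦ hΦ0 => ?_⟩
  have hM : 0 ≤ M := (abs_nonneg _).trans (hX.bd 0)
  have hk := kap_pos hu.big.pos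
  have hDp : 0 < L ^ d := pow_pos hu.big.pos d
  have hEr := SId1_le_Er (L := L) (u := u) f (Gr L b)
  have hlk : kap L ≤ l * kap L := by nlinarith [hf.one_le]
  have vg0 : Van g (5 / 2 * M) := SId3_van hX.der (fun t _ => hX.bd t) hX.zero le_rfl
  have vg : Van g (3 * M) := SId3_van hX.der (fun t _ => hX.bd t) hX.zero (by linarith)
  have vΦ : Van Φ (8 * M) := SId3_van hΦ vg0.bd hΦ0 (by linarith)
  have lg : ∀ s t, |g s - g t| ≤ 3 * M * |s - t| := fun s t => by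
    have : |g s - g t| ≤ M * |s - t| :=
      convex_univ.norm_image_sub_le_of_norm_hasDerivWithin_le
        (fun x _ => (hX.der x).hasDerivWithinAt) (fun x _ => hX.bd x) (Set.mem_univ t)
        (Set.mem_univ s)
    nlinarith [abs_nonneg (s - t)]
  have t1 : Gr L b + Gr L u ≤ Er L f u (Gr L b) + l * kap L := by linarith
  have t2 : Gr L b + Gr L u + kap L ≤ Er L f u (Gr L b) + l * kap L := by linarith
  have key : ∀ j : Fin d, |wtr L u b Φ +
      2 * ((L ^ d)⁻¹ * rtr (mulM L (cx b) * Pm L j * Pm L j * fc g (ham L u)))| ≤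
      (K1 + 8 * K2 + 3 * K3) * M * (Er L f u (Gr L b) + l * kap L) := fun j => by
    have a1 := h1 L u b hu hb hb1 f l hf hl M Φ g g' hX hΦ j
    have a2 := h2 L u b hu hb hb1 Φ _ vΦ j
    have a3 := h3 L u b hu hb hb1 g _ vg lg j
    have e : wtr L u b Φ = (L ^ d)⁻¹ * rtr (mulM L (cx b) * fc Φ (ham L u)) := rfl
    rw [e]
    generalize rtr (dg (fun i => piS j (momS j i) - piS j (mom i)) * mulM L (cx b) *
      fc Φ (ham L u)) = x at *
    generalize rtr (fc g (hamS L j u) * (hamS L j u - ham L u) * Xs L j b) = y at *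
    generalize rtr (fc g (ham L u) * Xs L j b * (hamS L j u - ham L u)) = z at *
    generalize rtr (mulM L (cx b) * fc Φ (ham L u)) = p at *
    generalize rtr (mulM L (cx b) * Pm L j * Pm L j * fc g (ham L u)) = q at *
    have b2 := a2.trans (mul_le_mul_of_nonneg_left t1 (by positivity))
    have b3 := a3.trans (mul_le_mul_of_nonneg_left t2 (by positivity))
    generalize Er L f u (Gr L b) + l * kap L = T at *
    have hkD : 0 < kap L * L ^ d := mul_pos hk hDp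
    have e2 : (L ^ d)⁻¹ * p + 2 * ((L ^ d)⁻¹ * q) = (kap L * L ^ d)⁻¹ *
        (x + 1 / 2 * y + 1 / 2 * z - (x - kap L * p) -
          (1 / 2 * y + 1 / 2 * z - 2 * kap L * q)) := by
      field_simp
      ring
    rw [e2, abs_mul, abs_of_pos (inv_pos.2 hkD), inv_mul_le_iff₀ hkD]
    refine (abs_sub _ _).trans ?_
    have := abs_sub (x + 1 / 2 * y + 1 / 2 * z) (x - kap L * p)
    linarith
  have s1 := (Finset.abs_sum_le_sum_abs _ Finset.univ).trans
    (Finset.sum_le_sum fun j _ => key j)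
  rw [Finset.sum_add_distrib, ← Finset.mul_sum, ← Finset.mul_sum] at s1
  simp only [Finset.sum_const, Finset.card_univ, Fintype.card_fin, nsmul_eq_mul] at s1
  have s2 := (h4 L u b hu hb hb1 g _ vg).trans (mul_le_mul_of_nonneg_left t1 (by positivity))
  generalize (L ^ d)⁻¹ * ∑ j, rtr (mulM L (cx b) * Pm L j * Pm L j * fc g (ham L u)) = S at *
  generalize wtr L u b Φ = x at *
  generalize wtr L u b (fun t => (t + 1) * g t) = y at *
  generalize wtr L u (fun x => b x * u x) g = z at *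
  have e3 : d * x + 2 * y - 2 * z = d * x + 2 * S - 2 * (S - y + z) := by ring
  rw [e3]
  refine (abs_sub _ _).trans ?_
  rw [abs_mul, abs_two]
  linarith

end Pool.Agent.Lib.MP_ae5e3b_mp.Sh
end

-- part Pool.Agent.Lib.MP_ae5e3b_mp.SWa
section

open MeasureTheory Matrix Real
open scoped ComplexConjugate ComplexOrder

set_option linter.unusedSectionVars false

namespace Pool.Agent.Lib.MP_ae5e3b_mp.Sh

variable {d : ℕ}

/-- The algebraic decomposition of the defect along a solution of the differential equation. -/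
lemma SWa_dec (hd : 0 < d) {L : ℝ} {u b : Tor d → ℝ} (hu : Continuous u) (hb : Continuous b)
    (h1 : ∀ x, |u x| ≤ 1) {φ ψ Φ g : ℝ → ℝ} {c : ℝ} (hψ : Continuous ψ) (hg : Continuous g)
    (hΦ : ∀ t, HasDerivAt Φ (g t) t) (h0 : ∀ t, 1 / 2 ≤ t → Φ t = 0)
    (he : ∀ t, φ t = c * ψ t + d * Φ t + 2 * ((t + 1) * g t)) :
    Dv L u b φ = c * Dv L u b ψ +
      (d * wtr L u b Φ + 2 * wtr L u b (fun t => (t + 1) * g t) -
        2 * wtr L u (fun x => b x * u x) g) + 2 * Dv L u (fun x => b x * u x) g := by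
  have hφ : φ = fun t => (c * ψ t + d * Φ t) + 2 * ((t + 1) * g t) := funext he
  have hΦc : Continuous Φ := continuous_iff_continuousAt.2 fun t => (hΦ t).continuousAt
  have hgg : Continuous fun t : ℝ => (t + 1) * g t := by fun_prop
  have hw : wtr L u b φ =
      c * wtr L u b ψ + d * wtr L u b Φ + 2 * wtr L u b (fun t => (t + 1) * g t) := by
    rw [hφ, wtr_add u b (fun t => c * ψ t + d * Φ t), wtr_add u b (fun t => c * ψ t),
      wtr_const_mul, wtr_const_mul, wtr_const_mul]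
  have hc : ∀ x, b x * Cl d φ (u x) =
      c * (b x * Cl d ψ (u x)) + 2 * (b x * u x * Cl d g (u x)) := by
    intro x
    have e1 : Cl d φ (u x) =
        c * Cl d ψ (u x) + d * Cl d Φ (u x) + 2 * Cl d (fun t => (t + 1) * g t) (u x) := by
      rw [hφ, Cl_add (g := fun t => c * ψ t + d * Φ t) (by fun_prop) (by fun_prop),
        Cl_add (g := fun t => c * ψ t) (by fun_prop) (by fun_prop), Cl_const_mul, Cl_const_mul,
        Cl_const_mul]
    have e2 := Cl_ode hd hΦ hg h0 (h1 x)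
    rw [e1]
    linear_combination b x * e2
  have i1 : Integrable fun x => b x * Cl d ψ (u x) := cont_int (hb.mul ((Cl_cont hψ).comp hu))
  have i2 : Integrable fun x => b x * u x * Cl d g (u x) :=
    cont_int ((hb.mul hu).mul ((Cl_cont hg).comp hu))
  have hi : ∫ x, b x * Cl d φ (u x) =
      c * (∫ x, b x * Cl d ψ (u x)) + 2 * ∫ x, b x * u x * Cl d g (u x) := by
    simp only [hc]
    rw [integral_add (i1.const_mul c) (i2.const_mul 2), integral_const_mul, integral_const_mul]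
  unfold Dv
  rw [hw, hi]
  ring

lemma SWa_er {L : ℝ} (f : ℝ → ℝ) (u : Tor d → ℝ) (Γ : ℝ) : Γ + Gr L u ≤ Er L f u Γ := by
  unfold Er
  have := mul_nonneg (Real.sqrt_nonneg (Gr L u)) (Real.sqrt_nonneg (Gr L (rhoF L u f)))
  linarith

lemma SWa_sq {L Γ : ℝ} {u b : Tor d → ℝ} (hu : C1 L u) (hb : C1 L b) (h1 : ∀ x, |b x| ≤ 1)
    (h2 : ∀ x, |u x| ≤ 1) (hΓ : Gr L b ≤ Γ) :
    √(Gr L fun x => b x * u x) * √(Gr L u) ≤ 2 * (Γ + Gr L u) := by
  have h3 := Gr_mul_le (𝕜 := ℝ) hb hu (a := 1) (b := 1) h1 h2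
  have h4 := Gr_nonneg (L := L) u
  have h5 := Gr_nonneg (L := L) b
  have h6 := Gr_nonneg (L := L) fun x => b x * u x
  have h7 := Real.sq_sqrt h4
  have h8 := Real.sq_sqrt h6
  nlinarith [sq_nonneg (√(Gr L fun x => b x * u x) - √(Gr L u))]

/-- One step of the recursion. -/
lemma SWa_step (hd : 0 < d) {ψ ψ' : ℝ → ℝ} {Mψ : ℝ} (hψ : XF (fun _ => 0) Mψ ψ ψ')
    (h0 : Cl d ψ 0 ≠ 0) : ∃ C K : ℝ, 1 ≤ C ∧ 1 ≤ K ∧
    ∀ (A L : ℝ) (u : Tor d → ℝ) (f : ℝ → ℝ) (l Γ S : ℝ), 0 < A → A ≤ 1 / 4 → Big L → C1 L u →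
    (∀ x, |u x| ≤ A) → FOK f l → l * kap L ≤ 1 → Gr L u ≤ A ^ 2 * Γ → 0 ≤ S →
    (∀ b, Wt L Γ b → |Dv L u b ψ| ≤ S) →
    ∀ (b : Tor d → ℝ) (M : ℝ) (φ φ' : ℝ → ℝ), Wt L Γ b → XF f M φ φ' →
    ∃ (b' : Tor d → ℝ) (g g' : ℝ → ℝ), Wt L Γ b' ∧ XF f (C * M) g g' ∧
      |Dv L u b φ| ≤ K * M * (S + Er L f u Γ + l * kap L) + 4 * A * |Dv L u b' g| := by
  obtain ⟨C₁, hC₁, H₁⟩ := ode hd hψ h0
  obtain ⟨C₂, hC₂, H₂⟩ := ident d
  obtain ⟨C₃, hC₃, H₃⟩ := Dv_J d
  refine ⟨C₁, C₁ * (1 + C₂ + 4 * C₃), hC₁, by nlinarith, ?_⟩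
  intro A L u f l Γ S hA hA4 hL hu ha hf hl hG hS hψS b M φ φ' hb hφ
  obtain ⟨c, Φ, g, g', hc, hΦ, hΦ0, hg, he⟩ := H₁ f l M φ φ' hf hφ
  have hM := hφ.nonneg
  have hp : Pot L u := ⟨hL, hu, fun x => (ha x).trans hA4⟩
  have hu1 : ∀ x, |u x| ≤ 1 := fun x => (ha x).trans (by linarith)
  have hbc : C1 L b := hb.tp.c1_real
  have hψc : Continuous ψ := continuous_iff_continuousAt.2 fun t => (hψ.der t).continuousAt
  have hgc : Continuous g := continuous_iff_continuousAt.2 fun t => (hg.der t).continuousAt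
  refine ⟨_, g, g', hb.next hL hA hu ha hG, hg, ?_⟩
  have e1 := SWa_dec (L := L) hd hu.cont hbc.cont hu1 hψc hgc hΦ hΦ0 he
  have e2 := H₂ L u b hp hb.tp hb.bd f l hf hl (C₁ * M) Φ g g' hg hΦ hΦ0
  have e3 := H₃ L u (fun x => b x * u x) hL hu (hbc.mul hu) g g' (C₁ * M) hg.der
    (hg.cont' hf.cont) hg.bd
  have e4 := SWa_sq hu hbc hb.bd hu1 hb.gr
  have e5 := SWa_er (L := L) f u Γ
  have e6 : Er L f u (Gr L b) ≤ Er L f u Γ := by
    unfold Er
    linarith [hb.gr]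
  have e7 := hψS b hb
  have hL0 : 0 < L := lt_of_lt_of_le (by positivity) hL
  have hk : 0 ≤ l * kap L := mul_nonneg (by linarith [hf.one_le]) (kap_pos hL0).le
  have hE : 0 ≤ Er L f u Γ := by linarith [Gr_nonneg (L := L) u, Gr_nonneg (L := L) b, hb.gr]
  rw [Dv_weight_mul, abs_mul, abs_of_pos (inv_pos.2 (by linarith : (0 : ℝ) < 2 * A))]
  have e8 : 4 * A * ((2 * A)⁻¹ * |Dv L u (Jr L 1 fun y => b y * u y) g|) =
      2 * |Dv L u (Jr L 1 fun y => b y * u y) g| := by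
    field_simp
    ring
  rw [e8, e1]
  set N := C₁ * M with hN
  have hN0 : 0 ≤ N := mul_nonneg (by linarith) hM
  set E := Er L f u Γ
  set k := l * kap L
  set X := d * wtr L u b Φ + 2 * wtr L u b (fun t => (t + 1) * g t) -
    2 * wtr L u (fun x => b x * u x) g
  set Y := Dv L u (fun x => b x * u x) g
  set Z := Dv L u (Jr L 1 fun y => b y * u y) g
  have b1 : |c * Dv L u b ψ| ≤ N * S := by
    rw [abs_mul]
    exact mul_le_mul hc e7 (abs_nonneg _) hN0
  have b2 : |X| ≤ C₂ * N * (E + k) :=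
    e2.trans (mul_le_mul_of_nonneg_left (by linarith) (mul_nonneg (by linarith) hN0))
  have b3 : |Y - Z| ≤ C₃ * N * (2 * E) :=
    e3.trans (mul_le_mul_of_nonneg_left (by linarith) (mul_nonneg (by linarith) hN0))
  have b4 : |Y| ≤ |Y - Z| + |Z| := by simpa using abs_add_le (Y - Z) Z
  have b5 : |c * Dv L u b ψ + X + 2 * Y| ≤ |c * Dv L u b ψ| + |X| + 2 * |Y| := by
    refine (abs_add_three _ _ _).trans ?_
    rw [abs_mul 2 Y, abs_two]
  have b6 : C₁ * (1 + C₂ + 4 * C₃) * M * (S + E + k) = (1 + C₂ + 4 * C₃) * N * (S + E + k) := by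
    rw [hN]; ring
  have p1 := mul_nonneg hN0 hS
  have p2 := mul_nonneg hN0 hE
  have p3 := mul_nonneg hN0 hk
  have q1 := mul_nonneg (by linarith : 0 ≤ C₂) p1
  have q2 := mul_nonneg (by linarith : 0 ≤ C₃) p1
  have q3 := mul_nonneg (by linarith : 0 ≤ C₃) p3
  rw [b6]
  nlinarith

/-- The recursion: all test functions are controlled by the reference function. -/
theorem recur {d : ℕ} (hd : 0 < d) {ψ ψ' : ℝ → ℝ} {Mψ : ℝ} (hψ : XF (fun _ => 0) Mψ ψ ψ')
    (h0 : Cl d ψ 0 ≠ 0) : ∃ A₀ C : ℝ, 0 < A₀ ∧ A₀ ≤ 1 / 4 ∧ 1 ≤ C ∧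
    ∀ (L : ℝ) (u : Tor d → ℝ) (f : ℝ → ℝ) (l Γ S : ℝ), Big L → C1 L u → (∀ x, |u x| ≤ A₀) →
    FOK f l → l * kap L ≤ 1 → Gr L u ≤ A₀ ^ 2 * Γ → 0 ≤ S →
    (∀ b, Wt L Γ b → |Dv L u b ψ| ≤ S) →
    ∀ (b : Tor d → ℝ) (M : ℝ) (g g' : ℝ → ℝ), Wt L Γ b → XF f M g g' →
    |Dv L u b g| ≤ C * M * (S + Er L f u Γ + l * kap L) := by
  obtain ⟨C, K, hC, hK, H⟩ := SWa_step hd hψ h0
  have hA : 0 < 1 / (8 * C) := by positivity
  have hA4 : 1 / (8 * C) ≤ 1 / 4 := one_div_le_one_div_of_le (by norm_num) (by linarith)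
  refine ⟨1 / (8 * C), 2 * K, hA, hA4, by linarith, ?_⟩
  intro L u f l Γ S hL hu ha hf hl hG hS hψS
  have hp : Pot L u := ⟨hL, hu, fun x => (ha x).trans hA4⟩
  have hL0 : 0 < L := lt_of_lt_of_le (by positivity) hL
  have hk : 0 ≤ l * kap L := mul_nonneg (by linarith [hf.one_le]) (kap_pos hL0).le
  set T := S + Er L f u Γ + l * kap L with hT
  have key : ∀ (n : ℕ) (b : Tor d → ℝ) (M : ℝ) (g g' : ℝ → ℝ), Wt L Γ b → XF f M g g' →
      |Dv L u b g| ≤ 2 * K * M * T + 6 * 6 ^ d * M * (1 / 2) ^ n := by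
    intro n
    induction n with
    | zero =>
      intro b M g g' hb hg
      have h1 := abs_Dv_le hp hb.tp.c1_real.cont hb.bd fun t ht => hg.abs_le ht
      have hT0 : 0 ≤ T := by
        linarith [Gr_nonneg (L := L) u, Gr_nonneg (L := L) b, hb.gr, SWa_er (L := L) f u Γ]
      have h2 := mul_nonneg (mul_nonneg (by linarith : 0 ≤ 2 * K) hg.nonneg) hT0
      rw [pow_zero]
      linarith
    | succ n ih =>
      intro b M g g' hb hg
      obtain ⟨b', h, h', hb', hh, h1⟩ :=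
        H _ L u f l Γ S hA hA4 hL hu ha hf hl hG hS hψS b M g g' hb hg
      have h2 := mul_le_mul_of_nonneg_left (ih b' _ h h' hb' hh)
        (by positivity : 0 ≤ 4 * (1 / (8 * C)))
      have h3 : 4 * (1 / (8 * C)) * (2 * K * (C * M) * T + 6 * 6 ^ d * (C * M) * (1 / 2) ^ n) =
          K * M * T + 6 * 6 ^ d * M * (1 / 2) ^ (n + 1) := by
        field_simp
        ring
      linarith
  intro b M g g' hb hg
  have h1 : Filter.Tendsto (fun n : ℕ => 2 * K * M * T + 6 * 6 ^ d * M * (1 / 2 : ℝ) ^ n)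
      Filter.atTop (nhds (2 * K * M * T + 6 * 6 ^ d * M * 0)) :=
    tendsto_const_nhds.add ((tendsto_pow_atTop_nhds_zero_of_lt_one (by norm_num)
      (by norm_num)).const_mul _)
  simpa using ge_of_tendsto' h1 fun n => key n b M g g' hb hg

end Pool.Agent.Lib.MP_ae5e3b_mp.Sh
end
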