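import Pool.Agent.Lib.MP_ae5e3b_mp.Two

open MeasureTheory Filter Topology ComplexConjugate Set Metric Real
open scoped ENNReal

namespace Pool.Agent.Lib.MP_ae5e3b_mp.Three

open Two

/-- The test polynomial divided by its variable. -/
def tp (y : ℝ) : ℝ := -2 + 45 * y - 85 * y ^ 2 + 75 * y ^ 3 - 25 * y ^ 4

/-- An antiderivative of the square of `tp`. -/
noncomputable def tq (y : ℝ) : ℝ :=
  4 * y ^ 1 - 90 * y ^ 2 + 2365 / 3 * y ^ 3 - 3975 / 2 * y ^ 4 + 2815 * y ^ 5 - 2500 * y ^ 6 +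
    9875 / 7 * y ^ 7 - 1875 / 4 * y ^ 8 + 625 / 9 * y ^ 9

lemma tq_deriv (y : ℝ) : HasDerivAt tq (tp y ^ 2) y := by
  have h := fun (n : ℕ) (c : ℝ) => (hasDerivAt_pow n y).const_mul c
  have := ((((((((h 1 4).fun_sub (h 2 90)).fun_add (h 3 (2365 / 3))).fun_sub
    (h 4 (3975 / 2))).fun_add (h 5 2815)).fun_sub (h 6 2500)).fun_add (h 7 (9875 / 7))).fun_sub
    (h 8 (1875 / 4))).fun_add (h 9 (625 / 9))
  refine this.congr_deriv ?_
  simp only [tp, Nat.cast_ofNat, Nat.cast_one, Nat.add_one_sub_one]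
  norm_num
  ring

lemma radial3 {A C : ℝ} (hA : 0 < A) (hC : 0 < C) :
    Integrable (fun z : ℂ => (C / (A * ‖z‖ ^ 2 + C) * tp (C / (A * ‖z‖ ^ 2 + C))) ^ 2) ∧
      ∫ z : ℂ, (C / (A * ‖z‖ ^ 2 + C) * tp (C / (A * ‖z‖ ^ 2 + C))) ^ 2 =
        π * (C / A) * (10393 / 252) := by
  have hd : ∀ y ∈ Ici (0 : ℝ), HasDerivAt (fun y : ℝ => -(C / (2 * A)) * tq (C / (A * y ^ 2 + C)))
      (y * (C / (A * y ^ 2 + C) * tp (C / (A * y ^ 2 + C))) ^ 2) y := by
    intro y _
    have h0 : A * y ^ 2 + C ≠ 0 := by positivity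
    have h1 := (hasDerivAt_const y C).fun_div (((hasDerivAt_pow 2 y).const_mul A).add_const C) h0
    have := ((tq_deriv _).comp y h1).const_mul (-(C / (2 * A)))
    refine this.congr_deriv ?_
    simp only [Nat.cast_ofNat, Nat.add_one_sub_one, pow_one]
    generalize tp (C / (A * y ^ 2 + C)) = t
    field_simp
    ring
  have hp : ∀ y ∈ Ioi (0 : ℝ), 0 ≤ y * (C / (A * y ^ 2 + C) * tp (C / (A * y ^ 2 + C))) ^ 2 :=
    fun y hy => mul_nonneg (le_of_lt hy) (sq_nonneg _)
  have tc : Continuous tq := by unfold tq; fun_prop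
  have hl : Tendsto (fun y : ℝ => -(C / (2 * A)) * tq (C / (A * y ^ 2 + C))) atTop
      (𝓝 (-(C / (2 * A)) * tq 0)) :=
    ((tc.tendsto 0).comp (tendsto_const_nhds.div_atTop (tendsto_atTop_add_const_right _ C
      ((tendsto_pow_atTop two_ne_zero).const_mul_atTop hA)))).const_mul _
  constructor
  · rw [integrable_fun_norm_addHaar volume
      (f := fun y => (C / (A * y ^ 2 + C) * tp (C / (A * y ^ 2 + C))) ^ 2)]
    simpa using integrableOn_Ioi_deriv_of_nonneg' hd hp hl
  · rw [integral_fun_norm_addHaar volume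
      (fun y => (C / (A * y ^ 2 + C) * tp (C / (A * y ^ 2 + C))) ^ 2)]
    have := integral_Ioi_of_hasDerivAt_of_nonneg' hd hp hl
    simp only [Complex.finrank_real_complex, Nat.add_one_sub_one, pow_one, smul_eq_mul, this,
      Measure.real, Complex.volume_ball]
    have e1 : C / (A * 0 ^ 2 + C) = 1 := by
      rw [zero_pow two_ne_zero, mul_zero, zero_add, div_self hC.ne']
    have e2 : tq 1 = 10393 / 252 := by norm_num [tq]
    have e3 : tq 0 = 0 := by norm_num [tq]
    rw [e1, e2, e3]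
    simp
    field_simp

/-- The planar estimate for a balanced density. -/
lemma plane {b : Fin 3 → ℝ} {A C : ℝ} (hb : b 0 ^ 2 + b 1 ^ 2 + b 2 ^ 2 < 1)
    (hA : A = b 0 ^ 2 + b 1 ^ 2 + (1 - b 2) ^ 2)
    (hC : C = (1 - (b 0 ^ 2 + b 1 ^ 2 + b 2 ^ 2)) ^ 2 / A) {σ : (Fin 2 → ℝ) → ℝ}
    (σ0 : ∀ y, 0 ≤ σ y) (σi : Integrable σ) (σ1 : ∫ y, σ y = 1)
    (σ2 : Integrable fun y => σ y ^ 2) (hy : ∫ y, σ y * (C / q b y) = 1 / 2) :
    A / C ≤ 4 * π * (10393 / 252 / 49) * ∫ y, σ y ^ 2 := by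
  set D := 1 - (b 0 ^ 2 + b 1 ^ 2 + b 2 ^ 2) with hD
  have D0 : 0 < D := by linarith
  have A0 : 0 < A := by
    have : 0 < 1 - b 2 := by nlinarith [sq_nonneg (b 0), sq_nonneg (b 1)]
    rw [hA]
    positivity
  have C0 : 0 < C := by rw [hC]; positivity
  obtain ⟨h1, h2⟩ := radial3 A0 C0
  let a : Fin 2 → ℝ := ![2 * b 0 / A, 2 * b 1 / A]
  have mp := Complex.volume_preserving_equiv_pi.symm
  have e : ∀ x, q b x = A * ‖Complex.measurableEquivPi.symm (x + a)‖ ^ 2 + C := by
    intro x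
    rw [hC, Complex.measurableEquivPi_symm_apply, Complex.sq_norm, Complex.normSq_add_mul_I]
    simp only [Pi.add_apply, a, Matrix.cons_val]
    field_simp
    simp only [hA, hD, q, p1, p2, r1, r2]
    ring
  have ki : Integrable fun x => (C / q b x * tp (C / q b x)) ^ 2 := by
    simp only [e]
    exact (mp.comp (measurePreserving_add_right volume a)).integrable_comp_of_integrable h1
  have ke : ∫ x, (C / q b x * tp (C / q b x)) ^ 2 = π * (C / A) * (10393 / 252) := by
    simp only [e]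
    rw [integral_add_right_eq_self (fun x => (C / (A * ‖Complex.measurableEquivPi.symm x‖ ^ 2 +
      C) * tp (C / (A * ‖Complex.measurableEquivPi.symm x‖ ^ 2 + C))) ^ 2) a,
      mp.integral_comp' (fun z => (C / (A * ‖z‖ ^ 2 + C) * tp (C / (A * ‖z‖ ^ 2 + C))) ^ 2), h2]
  have qC : ∀ x, C ≤ q b x := fun x => by rw [e]; exact le_add_of_nonneg_left (by positivity)
  have y1 : ∀ x, C / q b x ≤ 1 := fun x => (div_le_one (C0.trans_le (qC x))).2 (qC x)
  have yi : Integrable fun y => σ y * (C / q b y) :=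
    σi.mul_bdd (c := 1) (measurable_const.div
      (cont_q.comp (Continuous.prodMk_right b)).measurable).aestronglyMeasurable
      (Eventually.of_forall fun x => by
        rw [Real.norm_of_nonneg (div_nonneg C0.le (C0.le.trans (qC x)))]; exact y1 x)
  set z := π * (C / A) * (10393 / 252) with hz
  have z0 : 0 < z := by positivity
  have h3 : ∫ y, (4 * z / 7 * 9 * (σ y * (C / q b y)) - 4 * z / 7 * σ y) ≤
      ∫ y, ((2 * z / 7) ^ 2 * σ y ^ 2 + (C / q b y * tp (C / q b y)) ^ 2) := by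
    refine integral_mono ((yi.const_mul _).sub (σi.const_mul _)) ((σ2.const_mul _).add ki)
      fun x => ?_
    have h4 := y1 x
    have h5 := σ0 x
    generalize C / q b x = y at h4 ⊢
    have h6 : 0 ≤ 4 * z / 7 * σ x * ((1 - y) * (1 - 5 * y + 5 * y ^ 2) ^ 2) :=
      mul_nonneg (by positivity) (mul_nonneg (sub_nonneg.2 h4) (sq_nonneg _))
    have h7 := sq_nonneg (2 * z / 7 * σ x - y * tp y)
    have h8 : y * tp y = (1 - y) * (1 - 5 * y + 5 * y ^ 2) ^ 2 - 1 + 9 * y := by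
      unfold tp; ring
    rw [h8] at h7 ⊢
    linear_combination h6 + h7
  rw [integral_sub (yi.const_mul _) (σi.const_mul _), integral_add (σ2.const_mul _) ki,
    integral_const_mul, integral_const_mul, integral_const_mul, hy, σ1, ke] at h3
  have h9 : 1 ≤ 4 / 49 * z * ∫ y, σ y ^ 2 := by
    refine le_of_mul_le_mul_left ?_ z0
    linarith
  rw [div_le_iff₀ C0]
  have h10 := mul_le_mul_of_nonneg_left h9 A0.le
  rw [hz] at h10
  have h11 : A * (4 / 49 * (π * (C / A) * (10393 / 252)) * ∫ y, σ y ^ 2) =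
      (4 * π * (10393 / 252 / 49) * ∫ y, σ y ^ 2) * C := by
    field_simp
  linarith

/-- Three-dimensional Euclidean space. -/
abbrev E3 := EuclideanSpace ℝ (Fin 3)

lemma polar {f : E3 → ℝ≥0∞} (hf : Measurable f) :
    ∫⁻ h, f h = ∫⁻ n : sphere (0 : E3) 1, (∫⁻ r in Ioi (0 : ℝ),
      ENNReal.ofReal (r ^ 2) * f (r • (n : E3))) ∂(volume : Measure E3).toSphere := by
  have mp := (volume : Measure E3).measurePreserving_homeomorphUnitSphereProd
  have gm : Measurable fun z : sphere (0 : E3) 1 × Ioi (0 : ℝ) => f ((z.2 : ℝ) • (z.1 : E3)) :=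
    hf.comp (by fun_prop)
  have h1 := mp.lintegral_comp gm
  have h2 : ∀ a : ({0}ᶜ : Set E3), ((homeomorphUnitSphereProd E3 a).2 : ℝ) •
      ((homeomorphUnitSphereProd E3 a).1 : E3) = a := by
    intro a
    have ha : ‖(a : E3)‖ ≠ 0 := norm_ne_zero_iff.2 a.2
    simp [smul_smul, ha]
  simp only [h2] at h1
  rw [lintegral_subtype_comap (measurableSet_singleton _).compl f, restrict_compl_singleton] at h1
  rw [h1, lintegral_prod _ gm.aemeasurable]
  refine lintegral_congr fun n => ?_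
  have gn : Measurable fun y : Ioi (0 : ℝ) => f ((y : ℝ) • (n : E3)) := hf.comp (by fun_prop)
  rw [Measure.volumeIoiPow, lintegral_withDensity_eq_lintegral_mul _ (by fun_prop) gn,
    ← lintegral_subtype_comap measurableSet_Ioi]
  simp

lemma sphere_mass : (volume : Measure E3).toSphere univ = ENNReal.ofReal (4 * π) := by
  rw [Measure.toSphere_apply_univ, EuclideanSpace.volume_ball_fin_three,
    finrank_euclideanSpace_fin, ← ENNReal.ofReal_natCast, ENNReal.ofReal_one, one_pow, one_mul,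
    ← ENNReal.ofReal_mul (by positivity)]
  congr 1
  push_cast
  ring

/-- The remainder weight. -/
noncomputable def W (s r : ℝ) : ℝ := s ^ 6 / 2 * max (1 / r - (1.19 * s) ^ 2 * r) 0 ^ 2

lemma W_nonneg (s r : ℝ) : 0 ≤ W s r := by unfold W; positivity

lemma W_meas {α : Type} [MeasurableSpace α] {f g : α → ℝ} (hf : Measurable f)
    (hg : Measurable g) : Measurable fun a => ENNReal.ofReal (W (f a) (g a)) := by
  unfold W
  fun_prop

lemma ptw {s t r : ℝ} (hs : 0 ≤ s) (ht : 0 ≤ t) (hr : 0 ≤ r) :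
    s ^ 3 * t ^ 3 * (1 / r ^ 2) ≤
      1.19 ^ 2 * (s ^ 5 * t ^ 3) + 1.19 ^ 2 * (s ^ 3 * t ^ 5) + W s r + W t r := by
  rcases hr.eq_or_lt with rfl | hr
  · have := W_nonneg s 0
    have := W_nonneg t 0
    simp only [zero_pow two_ne_zero, div_zero, mul_zero]
    positivity
  unfold W
  set p := max (1 / r - (1.19 * s) ^ 2 * r) 0
  set q := max (1 / r - (1.19 * t) ^ 2 * r) 0
  have p0 : 0 ≤ p := le_max_right _ _
  have q0 : 0 ≤ q := le_max_right _ _
  have p1 : 1 / r - (1.19 * s) ^ 2 * r ≤ p := le_max_left _ _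
  have q1 : 1 / r - (1.19 * t) ^ 2 * r ≤ q := le_max_left _ _
  have e : 1 / r ^ 2 = 1 / r * (1 / r) := by field_simp
  have e1 : 1 / r * r = 1 := by field_simp
  have r0 : 0 < 1 / r := by positivity
  have key : 1 / r ^ 2 - (1.19 * s) ^ 2 - (1.19 * t) ^ 2 ≤ p * q := by
    rw [e]
    have a0 : 0 ≤ (1.19 * s) ^ 2 := sq_nonneg _
    have b0 : 0 ≤ (1.19 * t) ^ 2 := sq_nonneg _
    clear_value p q
    generalize 1 / r = v at *
    generalize (1.19 * s) ^ 2 = a at *
    generalize (1.19 * t) ^ 2 = b at *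
    rcases le_total (v - a * r) 0 with h | h
    · have := mul_le_mul_of_nonneg_left h r0.le
      have := mul_nonneg p0 q0
      have h3 : v * (v - a * r) = v * v - a := by linear_combination (-a) * e1
      linarith
    · have h1 := mul_le_mul_of_nonneg_right p1 q0
      have h2 := mul_le_mul_of_nonneg_left q1 h
      have h3 : (v - a * r) * (v - b * r) = v * v - a - b + a * b * (r * r) := by
        linear_combination (-(a + b)) * e1
      have h4 := mul_nonneg (mul_nonneg a0 b0) (mul_self_nonneg r)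
      linarith
  have h1 := mul_le_mul_of_nonneg_left key (by positivity : 0 ≤ s ^ 3 * t ^ 3)
  have h2 := sq_nonneg (s ^ 3 * p - t ^ 3 * q)
  linear_combination h1 + h2 / 2

lemma W_int {s : ℝ} (hs : 0 ≤ s) : ∫⁻ h : E3, ENNReal.ofReal (W s ‖h‖) =
    ENNReal.ofReal (16 * π / (15 * 1.19)) * ENNReal.ofReal (s ^ 5) := by
  rcases hs.eq_or_lt with rfl | hs
  · simp [W]
  rw [polar (W_meas (f := fun _ => s) measurable_const measurable_norm)]
  obtain ⟨c, hc⟩ : ∃ c : ℝ, c = 1.19 * s := ⟨_, rfl⟩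
  have c0 : 0 < c := by rw [hc]; positivity
  have h1 : ∀ n : sphere (0 : E3) 1, ∫⁻ r in Ioi (0 : ℝ), ENNReal.ofReal (r ^ 2) *
      ENNReal.ofReal (W s ‖r • (n : E3)‖) = ENNReal.ofReal (s ^ 6 / 2 * (8 / (15 * c))) := by
    intro n
    have h2 : ∀ r ∈ Ioi (0 : ℝ), ENNReal.ofReal (r ^ 2) * ENNReal.ofReal (W s ‖r • (n : E3)‖) =
        (Ioc 0 (1 / c)).indicator
          (fun r => ENNReal.ofReal (s ^ 6 / 2 * (1 - c ^ 2 * r ^ 2) ^ 2)) r := by
      intro r hr
      have r0 : 0 < r := hr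
      rw [norm_smul, mem_sphere_zero_iff_norm.1 n.2, mul_one, Real.norm_of_nonneg r0.le,
        ← ENNReal.ofReal_mul (sq_nonneg _), W, ← hc]
      have e : 1 / r - c ^ 2 * r = (1 - c * r) * ((1 + c * r) / r) := by
        field_simp
        ring
      have e0 : 0 ≤ (1 + c * r) / r := by positivity
      by_cases h : r ≤ 1 / c
      · rw [indicator_of_mem (show r ∈ Ioc 0 (1 / c) from ⟨r0, h⟩)]
        rw [le_div_iff₀' c0] at h
        rw [max_eq_left (e ▸ mul_nonneg (sub_nonneg.2 h) e0)]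
        congr 1
        field_simp
      · rw [indicator_of_notMem fun h' => h h'.2]
        rw [not_le, div_lt_iff₀' c0] at h
        rw [max_eq_right (e ▸ mul_nonpos_of_nonpos_of_nonneg (sub_nonpos.2 h.le) e0)]
        simp
    have hd : ∀ r ∈ uIcc 0 (1 / c), HasDerivAt
        (fun r : ℝ => s ^ 6 / 2 * (r ^ 1 - 2 * c ^ 2 / 3 * r ^ 3 + c ^ 4 / 5 * r ^ 5))
        (s ^ 6 / 2 * (1 - c ^ 2 * r ^ 2) ^ 2) r := by
      intro r _
      refine ((((hasDerivAt_pow 1 r).fun_sub ((hasDerivAt_pow 3 r).const_mul _)).fun_add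
        ((hasDerivAt_pow 5 r).const_mul _)).const_mul _).congr_deriv ?_
      norm_num
      left
      ring
    have ct : Continuous fun r : ℝ => s ^ 6 / 2 * (1 - c ^ 2 * r ^ 2) ^ 2 := by fun_prop
    rw [setLIntegral_congr_fun measurableSet_Ioi h2, lintegral_indicator measurableSet_Ioc,
      Measure.restrict_restrict measurableSet_Ioc, inter_eq_left.2 Ioc_subset_Ioi_self,
      ← ofReal_integral_eq_lintegral_ofReal ct.integrableOn_Ioc
        (Eventually.of_forall fun r => by positivity),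
      ← intervalIntegral.integral_of_le (by positivity),
      intervalIntegral.integral_eq_sub_of_hasDerivAt hd (ct.intervalIntegrable _ _)]
    congr 1
    field_simp
    ring
  simp only [h1, lintegral_const, sphere_mass]
  rw [← ENNReal.ofReal_mul (by positivity), ← ENNReal.ofReal_mul (by positivity)]
  congr 1
  rw [hc]
  field_simp
  ring

lemma pair {m : E3 → ℝ} (mm : Measurable m) (m0 : ∀ x, 0 ≤ m x)
    (m1 : ∫⁻ x, ENNReal.ofReal (m x ^ 3) = 1) :
    ∫⁻ h : E3, (∫⁻ x, ENNReal.ofReal (m x ^ 3) * ENNReal.ofReal (m (x + h) ^ 3)) *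
      ENNReal.ofReal (1 / ‖h‖ ^ 2) ≤
      ENNReal.ofReal 2 * (ENNReal.ofReal (1.19 ^ 2) + ENNReal.ofReal (16 * π / (15 * 1.19))) *
        ∫⁻ x, ENNReal.ofReal (m x ^ 5) := by
  set I := ∫⁻ x, ENNReal.ofReal (m x ^ 5) with hI
  have wm : Measurable fun z : E3 × E3 => ENNReal.ofReal (W (m z.2) ‖z.1‖) :=
    W_meas (f := fun z : E3 × E3 => m z.2) (mm.comp measurable_snd) measurable_fst.norm
  have wl : Measurable fun h : E3 => ∫⁻ x, ENNReal.ofReal (W (m x) ‖h‖) :=
    wm.lintegral_prod_right'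
  have t1 : ∀ j k : ℕ, ∫⁻ h : E3, ∫⁻ x, ENNReal.ofReal (m x ^ j) * ENNReal.ofReal (m (x + h) ^ k) =
      (∫⁻ x, ENNReal.ofReal (m x ^ j)) * ∫⁻ x, ENNReal.ofReal (m x ^ k) := by
    intro j k
    rw [lintegral_lintegral_swap (Measurable.aemeasurable (by fun_prop)),
      ← lintegral_mul_const _ (by fun_prop)]
    refine lintegral_congr fun x => ?_
    rw [lintegral_const_mul _ (by fun_prop),
      lintegral_add_left_eq_self (fun y => ENNReal.ofReal (m y ^ k)) x]
  have t3 : ∫⁻ h : E3, ∫⁻ x, ENNReal.ofReal (W (m x) ‖h‖) =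
      ENNReal.ofReal (16 * π / (15 * 1.19)) * I := by
    rw [lintegral_lintegral_swap (by exact wm.aemeasurable), hI,
      ← lintegral_const_mul _ (by fun_prop)]
    exact lintegral_congr fun x => W_int (m0 x)
  calc _ ≤ ∫⁻ h : E3, (ENNReal.ofReal (1.19 ^ 2) *
        (∫⁻ x, ENNReal.ofReal (m x ^ 5) * ENNReal.ofReal (m (x + h) ^ 3)) +
        ENNReal.ofReal (1.19 ^ 2) *
        (∫⁻ x, ENNReal.ofReal (m x ^ 3) * ENNReal.ofReal (m (x + h) ^ 5)) +
        (∫⁻ x, ENNReal.ofReal (W (m x) ‖h‖)) + ∫⁻ x, ENNReal.ofReal (W (m x) ‖h‖)) := by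
        refine lintegral_mono fun h => ?_
        have w1 : Measurable fun x => ENNReal.ofReal (W (m x) ‖h‖) :=
          W_meas (g := fun _ => ‖h‖) mm measurable_const
        have f1 : ∀ j k : ℕ, Measurable fun x =>
            ENNReal.ofReal (m x ^ j) * ENNReal.ofReal (m (x + h) ^ k) := fun j k => by fun_prop
        have e := lintegral_add_right_eq_self (μ := volume)
          (fun x => ENNReal.ofReal (W (m x) ‖h‖)) h
        refine le_trans ?_ (add_le_add_right e.le _)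
        rw [← lintegral_mul_const _ (f1 3 3), ← lintegral_const_mul _ (f1 5 3),
          ← lintegral_const_mul _ (f1 3 5), ← lintegral_add_left ((f1 5 3).const_mul _),
          ← lintegral_add_right _ w1,
          ← lintegral_add_left
            (by exact (((f1 5 3).const_mul _).add ((f1 3 5).const_mul _)).add w1)]
        refine lintegral_mono fun x => ?_
        have s0 := m0 x
        have t0 := m0 (x + h)
        have u0 := W_nonneg (m x) ‖h‖
        have v0 := W_nonneg (m (x + h)) ‖h‖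
        rw [← ENNReal.ofReal_mul (by positivity), ← ENNReal.ofReal_mul (by positivity),
          ← ENNReal.ofReal_mul (by positivity), ← ENNReal.ofReal_mul (by positivity),
          ← ENNReal.ofReal_mul (by positivity), ← ENNReal.ofReal_mul (by positivity),
          ← ENNReal.ofReal_add (by positivity) (by positivity),
          ← ENNReal.ofReal_add (by positivity) u0, ← ENNReal.ofReal_add (by positivity) v0]
        exact ENNReal.ofReal_le_ofReal (ptw s0 t0 (norm_nonneg _))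
    _ = _ := by
        rw [lintegral_add_right _ wl, lintegral_add_right _ wl,
          lintegral_add_left (by fun_prop), lintegral_const_mul _ (by fun_prop),
          lintegral_const_mul _ (by fun_prop), t1, t1, t3, m1, ← hI,
          ENNReal.ofReal_ofNat]
        ring

lemma direction {F : E3 → ℝ≥0∞} (Fm : Measurable F) :
    ∃ n : E3, ‖n‖ = 1 ∧ ENNReal.ofReal (2 * π) * ∫⁻ x, F x * ∫⁻ t : ℝ, F (x + t • n) ≤
      ∫⁻ h : E3, (∫⁻ x, F x * F (x + h)) * ENNReal.ofReal (1 / ‖h‖ ^ 2) := by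
  set G : E3 → ℝ≥0∞ := fun h => ∫⁻ x, F x * F (x + h) with hG
  have Gm : Measurable G := by rw [hG]; fun_prop
  have Ge : ∀ h, G (-h) = G h := by
    intro h
    simp only [hG]
    rw [← lintegral_add_right_eq_self _ h]
    refine lintegral_congr fun x => ?_
    rw [add_neg_cancel_right, mul_comm]
  have jm : Measurable fun n : sphere (0 : E3) 1 => ∫⁻ r in Ioi (0 : ℝ), G (r • (n : E3)) := by
    fun_prop
  obtain ⟨n, hn⟩ := exists_le_laverage (volume : Measure E3).toSphere_ne_zero jm.aemeasurable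
  refine ⟨n, mem_sphere_zero_iff_norm.1 n.2, ?_⟩
  have h1 : ∫⁻ h : E3, G h * ENNReal.ofReal (1 / ‖h‖ ^ 2) = ∫⁻ n : sphere (0 : E3) 1,
      (∫⁻ r in Ioi (0 : ℝ), G (r • (n : E3))) ∂(volume : Measure E3).toSphere := by
    rw [polar (by fun_prop)]
    refine lintegral_congr fun n => setLIntegral_congr_fun measurableSet_Ioi fun r hr => ?_
    have r0 : 0 < r := hr
    rw [norm_smul, mem_sphere_zero_iff_norm.1 n.2, mul_one, Real.norm_of_nonneg r0.le,
      mul_left_comm, ← ENNReal.ofReal_mul (sq_nonneg _), mul_one_div_cancel (by positivity),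
      ENNReal.ofReal_one, mul_one]
  have h2 : ∫⁻ x, F x * ∫⁻ t : ℝ, F (x + t • (n : E3)) = ∫⁻ t : ℝ, G (t • (n : E3)) := by
    rw [hG, lintegral_lintegral_swap (Measurable.aemeasurable (by fun_prop))]
    exact lintegral_congr fun x => (lintegral_const_mul _ (by fun_prop)).symm
  have h3 : ∫⁻ t : ℝ, G (t • (n : E3)) = 2 * ∫⁻ r in Ioi (0 : ℝ), G (r • (n : E3)) := by
    rw [← lintegral_add_compl _ (measurableSet_Ioi (a := (0 : ℝ))), two_mul, compl_Ioi,
      ← restrict_Iio_eq_restrict_Iic]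
    congr 1
    rw [← (Measure.measurePreserving_neg (volume : Measure ℝ)).setLIntegral_comp_preimage
      measurableSet_Iio (by fun_prop)]
    simp only [neg_smul, Ge, neg_preimage, neg_Iio, neg_zero]
  have h4 : ENNReal.ofReal (4 * π) ≠ 0 := by
    rw [Ne, ENNReal.ofReal_eq_zero, not_le]; positivity
  rw [laverage_eq, sphere_mass, ENNReal.le_div_iff_mul_le (Or.inl h4)
    (Or.inl ENNReal.ofReal_ne_top)] at hn
  rw [h2, h3, h1, ← mul_assoc, mul_comm]
  refine le_trans (le_of_eq ?_) hn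
  congr 1
  rw [← ENNReal.ofReal_ofNat 2, ← ENNReal.ofReal_mul (by positivity)]
  congr 1
  ring

lemma slice {n : E3} (hn : ‖n‖ = 1) :
    ∃ (T : ℝ × (Fin 2 → ℝ) ≃ᵐ E3) (P : (Fin 3 → ℝ) →L[ℝ] (Fin 2 → ℝ)),
      MeasurePreserving T (volume.prod volume) volume ∧
      (∀ t s y, T (t, y) + s • n = T (t + s, y)) ∧ (∀ z, P (T z).ofLp = z.2) ∧
      ∑ r, (P (Pi.single r 1) 0 ^ 2 + P (Pi.single r 1) 1 ^ 2) = 2 := by
  obtain ⟨b, hb⟩ := Orthonormal.exists_orthonormalBasis_extension_of_card_eq (𝕜 := ℝ)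
    (ι := Fin 3) (E := E3) (by simp) (v := fun _ => n) (s := {0})
    (orthonormal_subsingleton_iff.2 fun _ => hn)
  have b0 : b 0 = n := hb 0 rfl
  let T : ℝ × (Fin 2 → ℝ) ≃ᵐ E3 :=
    ((MeasurableEquiv.piFinSuccAbove (fun _ : Fin 3 => ℝ) 0).symm.trans
      (MeasurableEquiv.toLp 2 (Fin 3 → ℝ))).trans b.repr.symm.toHomeomorph.toMeasurableEquiv
  have hT : ∀ t y, T (t, y) = b.repr.symm (WithLp.toLp 2 ![t, y 0, y 1]) := by
    intro t y
    change b.repr.symm (WithLp.toLp 2 (Fin.insertNth 0 t y)) = _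
    congr 2
    ext i
    fin_cases i <;> rfl
  let P : (Fin 3 → ℝ) →L[ℝ] (Fin 2 → ℝ) := ContinuousLinearMap.pi fun i =>
    (innerSL ℝ (b i.succ)).comp
      (PiLp.continuousLinearEquiv 2 ℝ fun _ : Fin 3 => ℝ).symm.toContinuousLinearMap
  have hP : ∀ x i, P x i = b.repr (WithLp.toLp 2 x) i.succ := by
    intro x i
    rw [b.repr_apply_apply]
    rfl
  refine ⟨T, P, ?_, fun t s y => ?_, fun z => ?_, ?_⟩
  · exact b.measurePreserving_repr_symm.comp ((PiLp.volume_preserving_toLp (Fin 3)).comp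
      (volume_preserving_piFinSuccAbove (fun _ : Fin 3 => ℝ) 0).symm)
  · rw [hT, hT, ← b0, ← b.repr_symm_single, ← map_smul, ← map_add]
    congr 1
    ext i
    fin_cases i <;> simp
  · ext i
    rw [hP, ← Prod.mk.eta (p := z), hT, WithLp.toLp_ofLp, LinearIsometryEquiv.apply_symm_apply]
    fin_cases i <;> rfl
  · have h : ∀ j, ∑ r : Fin 3, b.repr (WithLp.toLp 2 (Pi.single r 1)) j ^ 2 = 1 := by
      intro j
      have h1 := EuclideanSpace.real_norm_sq_eq (b j)
      rw [b.norm_eq_one, one_pow] at h1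
      refine (Finset.sum_congr rfl fun r _ => ?_).trans h1.symm
      rw [b.repr_apply_apply, PiLp.inner_apply]
      simp [Pi.single_apply]
    simp only [hP, Finset.sum_add_distrib, h]
    norm_num

/-- A planar marginal whose square integral is controlled. -/
theorem marginal {u : (Fin 3 → ℝ) → ℝ} (um : Measurable u) (wi : Integrable fun x => u x ^ 2)
    (u1 : ∫ x, u x ^ 2 = 1) {I : ℝ} (I0 : 0 ≤ I)
    (hI : ∫⁻ x, ENNReal.ofReal ((u x ^ 2) ^ (5 / 3 : ℝ)) = ENNReal.ofReal I) :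
    ∃ (P : (Fin 3 → ℝ) →L[ℝ] (Fin 2 → ℝ)) (σ : (Fin 2 → ℝ) → ℝ),
      ∑ r, (P (Pi.single r 1) 0 ^ 2 + P (Pi.single r 1) 1 ^ 2) = 2 ∧ (∀ y, 0 ≤ σ y) ∧
      Integrable σ ∧ (Integrable fun y => σ y ^ 2) ∧
      (∀ g : (Fin 2 → ℝ) → ℝ, Measurable g → (∀ y, ‖g y‖ ≤ 1) →
        ∫ x, u x ^ 2 * g (P x) = ∫ y, σ y * g y) ∧
      2 * π * ∫ y, σ y ^ 2 ≤ 2 * (1.19 ^ 2 + 16 * π / (15 * 1.19)) * I := by
  have mo := PiLp.volume_preserving_ofLp (Fin 3)
  obtain ⟨m, mm, m0, m3, m5⟩ : ∃ m : E3 → ℝ, Measurable m ∧ (∀ x, 0 ≤ m x) ∧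
      (∀ x, m x ^ 3 = u x.ofLp ^ 2) ∧ ∀ x, m x ^ 5 = (u x.ofLp ^ 2) ^ (5 / 3 : ℝ) := by
    refine ⟨fun x => (u x.ofLp ^ 2) ^ (1 / 3 : ℝ),
      ((um.comp mo.measurable).pow_const 2).pow_const _,
      fun x => rpow_nonneg (sq_nonneg _) _, fun x => ?_, fun x => ?_⟩
    · rw [← rpow_natCast _ 3, ← rpow_mul (sq_nonneg _)]
      norm_num
    · rw [← rpow_natCast _ 5, ← rpow_mul (sq_nonneg _)]
      norm_num
  have m1 : ∫⁻ x, ENNReal.ofReal (m x ^ 3) = 1 := by
    simp only [m3]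
    rw [mo.lintegral_comp (um.pow_const 2).ennreal_ofReal,
      ← ofReal_integral_eq_lintegral_ofReal wi (Eventually.of_forall fun x => sq_nonneg _), u1,
      ENNReal.ofReal_one]
  have mI : ∫⁻ x, ENNReal.ofReal (m x ^ 5) = ENNReal.ofReal I := by
    simp only [m5]
    rw [mo.lintegral_comp ((um.pow_const 2).pow_const _).ennreal_ofReal, hI]
  have Fm : Measurable fun x => ENNReal.ofReal (m x ^ 3) := (mm.pow_const 3).ennreal_ofReal
  obtain ⟨n, hn, h1⟩ := direction Fm
  replace h1 := h1.trans (pair mm m0 m1)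
  obtain ⟨T, P, Tm, Ta, TP, hP⟩ := slice hn
  have wT : Integrable (fun z => m (T z) ^ 3) (volume.prod volume) := by
    simp only [m3]
    exact (mo.comp Tm).integrable_comp_of_integrable wi
  have σi : Integrable fun y => ∫ t, m (T (t, y)) ^ 3 := wT.integral_prod_right
  have σ0 : ∀ y, 0 ≤ ∫ t, m (T (t, y)) ^ 3 := fun y =>
    integral_nonneg fun t => pow_nonneg (m0 _) 3
  have key : ∫⁻ y, ENNReal.ofReal ((∫ t, m (T (t, y)) ^ 3) ^ 2) ≤
      ∫⁻ x, ENNReal.ofReal (m x ^ 3) * ∫⁻ t : ℝ, ENNReal.ofReal (m (x + t • n) ^ 3) := by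
    have Hm : Measurable fun x : E3 =>
        ENNReal.ofReal (m x ^ 3) * ∫⁻ t : ℝ, ENNReal.ofReal (m (x + t • n) ^ 3) :=
      Fm.mul (Measurable.lintegral_prod_right' (f := fun z : E3 × ℝ =>
        ENNReal.ofReal (m (z.1 + z.2 • n) ^ 3)) (Fm.comp (by fun_prop)))
    rw [← Tm.lintegral_comp Hm, lintegral_prod_symm' _ (by exact Hm.comp T.measurable)]
    refine lintegral_mono fun y => ?_
    have h2 : ∀ s : ℝ, ∫⁻ t : ℝ, ENNReal.ofReal (m (T (s, y) + t • n) ^ 3) =
        ∫⁻ t : ℝ, ENNReal.ofReal (m (T (t, y)) ^ 3) := by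
      intro s
      simp only [Ta]
      exact lintegral_add_left_eq_self (fun t => ENNReal.ofReal (m (T (t, y)) ^ 3)) s
    have h3 : ENNReal.ofReal (∫ t, m (T (t, y)) ^ 3) ≤
        ∫⁻ t : ℝ, ENNReal.ofReal (m (T (t, y)) ^ 3) := by
      rw [← Real.enorm_eq_ofReal (σ0 y)]
      refine (enorm_integral_le_lintegral_enorm _).trans (le_of_eq (lintegral_congr fun t => ?_))
      exact Real.enorm_eq_ofReal (pow_nonneg (m0 _) 3)
    have h4 : Measurable fun t : ℝ => ENNReal.ofReal (m (T (t, y)) ^ 3) :=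
      Fm.comp (T.measurable.comp measurable_prodMk_right)
    simp only [h2]
    rw [lintegral_mul_const _ h4, sq, ENNReal.ofReal_mul (σ0 y)]
    exact mul_le_mul' h3 h3
  have h5 := (mul_le_mul_right key _).trans h1
  rw [mI, ← ENNReal.ofReal_add (by positivity) (by positivity),
    ← ENNReal.ofReal_mul (by positivity), ← ENNReal.ofReal_mul (by positivity)] at h5
  have σ2 : Integrable fun y => (∫ t, m (T (t, y)) ^ 3) ^ 2 := by
    refine (lintegral_ofReal_ne_top_iff_integrable (σi.aestronglyMeasurable.pow 2)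
      (Eventually.of_forall fun x => sq_nonneg _)).1 fun h => ?_
    simp only [Pi.pow_apply] at h
    rw [h, ENNReal.mul_top (by rw [Ne, ENNReal.ofReal_eq_zero, not_le]; positivity)] at h5
    exact ENNReal.ofReal_ne_top (top_le_iff.1 h5)
  refine ⟨P, _, hP, σ0, σi, σ2, fun g gm g1 => ?_, ?_⟩
  · have mS : MeasurePreserving (T.trans (MeasurableEquiv.toLp 2 (Fin 3 → ℝ)).symm)
        (volume.prod volume) volume := mo.comp Tm
    rw [← mS.integral_comp' fun x => u x ^ 2 * g (P x)]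
    change ∫ z, u (T z).ofLp ^ 2 * g (P (T z).ofLp) ∂(volume.prod volume) = _
    simp only [TP, ← m3]
    have h6 : Integrable (fun z => m (T z) ^ 3 * g z.2) (volume.prod volume) :=
      wT.mul_bdd (gm.comp measurable_snd).aestronglyMeasurable
        (Eventually.of_forall fun z => g1 z.2)
    rw [integral_prod_symm _ h6]
    simp only [integral_mul_const]
  · rwa [← ofReal_integral_eq_lintegral_ofReal σ2 (Eventually.of_forall fun x => sq_nonneg _),
      ← ENNReal.ofReal_mul (by positivity), ENNReal.ofReal_le_ofReal_iff (by positivity)] at h5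

/-- A two-particle Slater determinant with density `2 u ^ 2` and controlled kinetic energy. -/
theorem two_state {u : (Fin 3 → ℝ) → ℝ} (um : Measurable u) (u0 : ∀ x, 0 ≤ u x)
    (u2 : MemLp u 2 volume) (u1 : ∫ x, u x ^ 2 = 1) (B : Fin 3 → ℝ) (B0 : ∀ r, 0 ≤ B r)
    (hB : ∀ r (h : ℝ), 0 < h →
      ∫ x, (u (x + h • Pi.single r (1 : ℝ)) - u x) ^ 2 ≤ h ^ 2 * B r)
    (P : (Fin 3 → ℝ) →L[ℝ] (Fin 2 → ℝ))
    (hP : ∑ r, (P (Pi.single r 1) 0 ^ 2 + P (Pi.single r 1) 1 ^ 2) = 2)
    {σ : (Fin 2 → ℝ) → ℝ} (σ0 : ∀ y, 0 ≤ σ y) (σi : Integrable σ)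
    (σ2 : Integrable fun y => σ y ^ 2)
    (hσ : ∀ g : (Fin 2 → ℝ) → ℝ, Measurable g → (∀ y, ‖g y‖ ≤ 1) →
      ∫ x, u x ^ 2 * g (P x) = ∫ y, σ y * g y) :
    ∃ Ψ : (Fin (1 + 1) → Fin 3 → ℝ) → ℂ, IsState Ψ ∧ (∀ x, density Ψ x = 2 * u x ^ 2) ∧
      kinetic Ψ ≤
        ENNReal.ofReal (8 * π * (10393 / 252 / 49) * (∫ y, σ y ^ 2) + 2 * ∑ r, B r) := by
  have wi := u2.integrable_sq
  have Pm : Measurable P := P.continuous.measurable
  have σ1 : ∫ y, σ y = 1 := by
    simpa [u1] using (hσ (fun _ => 1) measurable_const fun _ => by simp).symm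
  obtain ⟨b, hb, hK'⟩ := balance σi σ1
  have qm' : Measurable (q b) := (cont_q.comp (Continuous.prodMk_right b)).measurable
  have Km : ∀ i, Measurable fun y => K b y i / q b y := fun i =>
    ((cont_K i).comp (Continuous.prodMk_right b)).measurable.div qm'
  have hK : ∀ i, ∫ x, u x ^ 2 * (K b (P x) i / q b (P x)) = 0 := fun i =>
    (hσ _ (Km i) fun y => ratio_le b y i).trans (hK' i)
  have iK : ∀ i, Integrable fun x => u x ^ 2 * (K b (P x) i / q b (P x)) := fun i =>
    wi.mul_bdd ((Km i).comp Pm).aestronglyMeasurable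
      (Eventually.of_forall fun x => ratio_le b (P x) i)
  set D := 1 - (b 0 ^ 2 + b 1 ^ 2 + b 2 ^ 2) with hDd
  set A := b 0 ^ 2 + b 1 ^ 2 + (1 - b 2) ^ 2 with hA
  have D0 : 0 < D := by linarith
  have A0 : 0 < A := by
    have : 0 < 1 - b 2 := by nlinarith [sq_nonneg (b 0), sq_nonneg (b 1)]
    positivity
  have hAq : ∀ x, D ^ 2 ≤ A * q b x := by
    intro x
    have : A * q b x = (A * x 0 + 2 * b 0) ^ 2 + (A * x 1 + 2 * b 1) ^ 2 + D ^ 2 := by
      simp only [hA, hDd, q, p1, p2, r1, r2]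
      ring
    rw [this]
    exact le_add_of_nonneg_left (by positivity)
  have q0 : ∀ x, 0 < q b x := fun x =>
    (mul_pos_iff_of_pos_left A0).1 ((pow_pos D0 2).trans_le (hAq x))
  have qm : Measurable fun x => q b (P x) := qm'.comp Pm
  obtain ⟨a, am, a0, has⟩ : ∃ a : (Fin 3 → ℝ) → ℝ, Measurable a ∧ (∀ x, 0 ≤ a x) ∧
      ∀ x, a x * √(q b (P x)) = √2 * u x :=
    ⟨fun x => √2 * u x / √(q b (P x)), (um.const_mul _).div qm.sqrt,
      fun x => div_nonneg (mul_nonneg (sqrt_nonneg _) (u0 x)) (sqrt_nonneg _),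
      fun x => div_mul_cancel₀ _ (sqrt_pos.2 (q0 (P x))).ne'⟩
  have s2 : √2 ^ 2 = (2 : ℝ) := sq_sqrt zero_le_two
  have hu : ∀ x, u x ^ 2 = a x ^ 2 * q b (P x) / 2 := by
    intro x
    have h := congrArg (· ^ 2) (has x)
    simp only [mul_pow, s2, sq_sqrt (q0 (P x)).le] at h
    linarith
  have hw : ∀ x i, u x ^ 2 * (K b (P x) i / q b (P x)) = a x ^ 2 * K b (P x) i / 2 := by
    intro x i
    have := (q0 (P x)).ne'
    rw [hu]
    field_simp
  have av : ∀ {E : Type} [NormedAddCommGroup E] [NormedSpace ℝ E] [CompleteSpace E] (δ : E)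
      (s : Fin 3 → E),
      ∫ x, ((a x ^ 2 * q b (P x) / 2) • δ + ∑ i, (a x ^ 2 * K b (P x) i / 2) • s i) = δ := by
    intro E _ _ _ δ s
    simp only [← hw, ← hu]
    rw [integral_add (wi.smul_const _)
      (integrable_finsetSum _ fun i _ => (iK i).smul_const _),
      integral_finsetSum _ fun i _ => (iK i).smul_const _]
    simp only [integral_smul_const, u1, hK, one_smul, zero_smul, Finset.sum_const_zero, add_zero]
  let φ : Fin 2 → (Fin 3 → ℝ) → ℂ :=
    ![fun x => ((a x * p1 b (P x) : ℝ) : ℂ) + ((a x * p2 b (P x) : ℝ) : ℂ) * Complex.I,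
      fun x => ((a x * r1 b (P x) : ℝ) : ℂ) + ((a x * r2 b (P x) : ℝ) : ℂ) * Complex.I]
  have φm : ∀ k, Measurable (φ k) := by
    intro k
    match k with
    | 0 => simp only [φ, p1, p2, Matrix.cons_val]; fun_prop
    | 1 => simp only [φ, r1, r2, Matrix.cons_val]; fun_prop
  have φn : ∀ x, ∑ k, ‖φ k x‖ ^ 2 = 2 * u x ^ 2 := by
    intro x
    simp only [Fin.sum_univ_two, φ, Matrix.cons_val, Complex.sq_norm, Complex.normSq_add_mul_I,
      hu, q]
    ring
  have φ2 : ∀ k, MemLp (φ k) 2 volume := by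
    intro k
    refine (memLp_two_iff_integrable_sq_norm (φm k).aestronglyMeasurable).2
      ((wi.const_mul 2).mono' ((φm k).norm.pow_const 2).aestronglyMeasurable
        (Eventually.of_forall fun x => ?_))
    rw [← φn, Real.norm_of_nonneg (sq_nonneg _)]
    exact Finset.single_le_sum (f := fun k => ‖φ k x‖ ^ 2) (fun _ _ => sq_nonneg _)
      (Finset.mem_univ k)
  have φon : ∀ k l, ∫ x, conj (φ k x) * φ l x = if k = l then 1 else 0 := by
    intro k l
    match k, l with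
    | 0, 0 =>
      rw [if_pos rfl, ← av (1 : ℂ) ![0, 0, 1]]
      refine integral_congr_ae (Eventually.of_forall fun x => Complex.ext ?_ ?_) <;>
        simp [φ, Fin.sum_univ_three, K, q, -Complex.ofReal_pow] <;> ring
    | 0, 1 =>
      rw [if_neg (by decide), ← av (0 : ℂ) ![1, Complex.I, 0]]
      refine integral_congr_ae (Eventually.of_forall fun x => Complex.ext ?_ ?_) <;>
        simp [φ, Fin.sum_univ_three, K, q, -Complex.ofReal_pow] <;> ring
    | 1, 0 =>
      rw [if_neg (by decide), ← av (0 : ℂ) ![1, -Complex.I, 0]]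
      refine integral_congr_ae (Eventually.of_forall fun x => Complex.ext ?_ ?_) <;>
        simp [φ, Fin.sum_univ_three, K, q, -Complex.ofReal_pow] <;> ring
    | 1, 1 =>
      rw [if_pos rfl, ← av (1 : ℂ) ![0, 0, -1]]
      refine integral_congr_ae (Eventually.of_forall fun x => Complex.ext ?_ ?_) <;>
        simp [φ, Fin.sum_univ_three, K, q, -Complex.ofReal_pow] <;> ring
  have ai : Integrable fun x => a x ^ 2 := by
    refine (wi.const_mul (2 * A / D ^ 2)).mono' (am.pow_const 2).aestronglyMeasurable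
      (Eventually.of_forall fun x => ?_)
    rw [Real.norm_of_nonneg (sq_nonneg _), div_mul_eq_mul_div, le_div_iff₀ (pow_pos D0 2), hu]
    have := mul_le_mul_of_nonneg_left (hAq (P x)) (sq_nonneg (a x))
    linarith
  have ae : (∫ x, a x ^ 2) * D ^ 2 = A := by
    rw [← integral_mul_const,
      ← av A ![-2 * (1 - b 2) * b 0, -2 * (1 - b 2) * b 1, (1 - b 2) ^ 2 - b 0 ^ 2 - b 1 ^ 2]]
    refine integral_congr_ae (Eventually.of_forall fun x => ?_)
    simp only [Fin.sum_univ_three, Matrix.cons_val, smul_eq_mul, hA, hDd, K, q, p1, p2, r1, r2]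
    ring
  have am0 : 0 ≤ ∫ x, a x ^ 2 := integral_nonneg fun x => sq_nonneg _
  have amgm : A * ∫ x, a x ^ 2 ≤ 4 * π * (10393 / 252 / 49) * ∫ y, σ y ^ 2 := by
    have h1 : ∫ y, σ y * (D ^ 2 / A / q b y) = 1 / 2 := by
      rw [← hσ (fun y => D ^ 2 / A / q b y) (measurable_const.div qm') fun y => by
        rw [Real.norm_of_nonneg (div_nonneg (by positivity) (q0 y).le), div_le_one (q0 y),
          div_le_iff₀' A0]
        exact hAq y]
      have h2 : ∀ x, u x ^ 2 * (D ^ 2 / A / q b (P x)) = a x ^ 2 * (D ^ 2 / A / 2) := by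
        intro x
        have := (q0 (P x)).ne'
        rw [hu]
        field_simp
      simp only [h2]
      rw [integral_mul_const, eq_div_of_mul_eq (pow_pos D0 2).ne' ae]
      field_simp
    refine le_trans (le_of_eq ?_) (plane hb hA rfl σ0 σi σ1 σ2 h1)
    rw [eq_div_of_mul_eq (pow_pos D0 2).ne' ae, ← hDd]
    field_simp
  obtain ⟨Ψ, Ψ2, Ψ1, Ψa, Ψd, Ψe⟩ := slater_state (n := 1) φ φm φ2 φon (fun _ : Unit => 1)
    (fun _ => zero_le_one) (by simp) (fun _ j => j) (fun _ => Function.injective_id)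
    fun _ _ _ _ => rfl
  refine ⟨Ψ, ⟨Ψ2, Ψ1, fun i j hij => Eventually.of_forall (Ψa i j hij)⟩, fun x => ?_, ?_⟩
  · unfold density
    rw [Ψd, ← φn]
    simp
  · refine (kin_le Ψ2 (fun r => 2 * B r +
        (P (Pi.single r 1) 0 ^ 2 + P (Pi.single r 1) 1 ^ 2) * (A * ∫ x, a x ^ 2))
      (fun r => by have := B0 r; positivity) fun i r h hh => ?_).trans
      (ENNReal.ofReal_le_ofReal ?_)
    · rw [Ψe]
      have hw2 : P (h • Pi.single r (1 : ℝ)) 0 ^ 2 + P (h • Pi.single r (1 : ℝ)) 1 ^ 2 =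
          h ^ 2 * (P (Pi.single r 1) 0 ^ 2 + P (Pi.single r 1) 1 ^ 2) := by
        simp only [map_smul, Pi.smul_apply, smul_eq_mul]
        ring
      have hB' := hB r h hh
      generalize P (Pi.single r 1) 0 ^ 2 + P (Pi.single r 1) 1 ^ 2 = ρ at hw2 ⊢
      generalize (h • Pi.single r (1 : ℝ) : Fin 3 → ℝ) = w at hw2 hB'
      have di : ∀ k, Integrable fun x => ‖φ k (x + w) - φ k x‖ ^ 2 := fun k =>
        integrable_normsq ((memLp_shift (φ2 k) w).sub (φ2 k))
      have i1 : Integrable fun x => (u (x + w) - u x) ^ 2 :=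
        ((u2.comp_measurePreserving (measurePreserving_add_right volume w)).sub u2).integrable_sq
      have i2 : Integrable fun x => a (x + w) ^ 2 := ai.comp_add_right w
      have i3 : Integrable fun x => a (x + w) ^ 2 + a x ^ 2 := i2.add ai
      have h1 : ∫ x, ∑ k, ‖φ k (x + w) - φ k x‖ ^ 2 ≤
          ∫ x, (2 * (u (x + w) - u x) ^ 2 +
            A * (h ^ 2 * ρ) / 2 * (a (x + w) ^ 2 + a x ^ 2)) := by
        refine integral_mono (integrable_finsetSum _ fun k _ => di k)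
          ((i1.const_mul _).add (i3.const_mul _)) fun x => ?_
        have c := chord (s := √(q b (P x))) (s' := √(q b (P (x + w)))) (a0 x) (a0 (x + w))
          (sq_sqrt (q0 (P x)).le) (sq_sqrt (q0 (P (x + w))).le)
        rw [has, has, ← mul_sub, mul_pow, s2] at c
        have e1 : (p1 b (P (x + w)) - p1 b (P x)) ^ 2 + (p2 b (P (x + w)) - p2 b (P x)) ^ 2 +
            (r1 b (P (x + w)) - r1 b (P x)) ^ 2 + (r2 b (P (x + w)) - r2 b (P x)) ^ 2 =
            A * (h ^ 2 * ρ) := by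
          simp only [← hw2, hA, p1, p2, r1, r2, map_add, Pi.add_apply]
          ring
        rw [e1] at c
        simp [φ, Complex.sq_norm, Complex.normSq_apply, -map_add]
        linarith
      rw [integral_finsetSum _ fun k _ => di k,
        integral_add (i1.const_mul _) (i3.const_mul _), integral_const_mul,
        integral_const_mul, integral_add i2 ai,
        integral_add_right_eq_self (fun x => a x ^ 2) w] at h1
      simp only [Finset.univ_unique, Finset.sum_singleton, one_mul]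
      linarith
    · rw [Finset.sum_add_distrib, ← Finset.sum_mul, hP, ← Finset.mul_sum]
      linarith


lemma const_le : (2 : ℝ) ^ (-5 / 3 : ℝ) * (4 * (10393 / 252 / 49) *
    (2 * (1.19 ^ 2 + 16 * π / (15 * 1.19)))) ≤ Kcl 3 := by
  have p1 := pi_gt_d4
  have p2 := pi_lt_d4
  have c1 : (2 : ℝ) ^ (-5 / 3 : ℝ) ≤ 0.315 := by
    refine le_of_pow_le_pow_left₀ three_ne_zero (by norm_num) ?_
    rw [← rpow_natCast _ 3, ← rpow_mul zero_le_two]
    norm_num
  have c3 : 0.384 ≤ (π * 4 / 3) ^ (-2 / ((3 : ℕ) : ℝ)) := by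
    refine le_of_pow_le_pow_left₀ three_ne_zero (by positivity) ?_
    rw [← rpow_natCast (_ ^ _) 3, ← rpow_mul (by positivity)]
    have : -2 / ((3 : ℕ) : ℝ) * ((3 : ℕ) : ℝ) = -((2 : ℕ) : ℝ) := by norm_num
    rw [this, rpow_neg (by positivity), rpow_natCast, le_inv_comm₀ (by norm_num) (by positivity)]
    nlinarith
  have c4 : 4 * (10393 / 252 / 49) * (2 * (1.19 ^ 2 + 16 * π / (15 * 1.19))) ≤ 28.5 := by
    norm_num at p2 ⊢
    linarith
  have c5 : (23.664 : ℝ) ≤ 4 * π ^ 2 * ((3 : ℕ) : ℝ) / (((3 : ℕ) : ℝ) + 2) := by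
    push_cast
    nlinarith
  unfold Kcl
  rw [Measure.real, EuclideanSpace.volume_ball_fin_three, ENNReal.ofReal_one, one_pow, one_mul,
    ENNReal.toReal_ofReal (by positivity)]
  have h1 := mul_le_mul c1 c4 (by positivity) (by norm_num)
  have h2 := mul_le_mul c5 c3 (by norm_num) (by positivity)
  linarith

end Pool.Agent.Lib.MP_ae5e3b_mp.Three
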