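import Pool.Agent.Lib.MP_ae5e3b_mp.SDefs
import Pool.Agent.Shared.Brouwer.Basic

open MeasureTheory Filter Topology ComplexConjugate Set Metric Real
open scoped ENNReal

namespace Pool.Agent.Lib.MP_ae5e3b_mp.Two

/-- Real part of the first component of the vector `(1 + b·σ) (1, x 0 + i x 1)`. -/
def p1 (b : Fin 3 → ℝ) (x : Fin 2 → ℝ) : ℝ := 1 + b 2 + b 0 * x 0 + b 1 * x 1

/-- Imaginary part of the first component. -/
def p2 (b : Fin 3 → ℝ) (x : Fin 2 → ℝ) : ℝ := b 0 * x 1 - b 1 * x 0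

/-- Real part of the second component. -/
def r1 (b : Fin 3 → ℝ) (x : Fin 2 → ℝ) : ℝ := b 0 + (1 - b 2) * x 0

/-- Imaginary part of the second component. -/
def r2 (b : Fin 3 → ℝ) (x : Fin 2 → ℝ) : ℝ := b 1 + (1 - b 2) * x 1

/-- Squared length of the vector. -/
def q (b : Fin 3 → ℝ) (x : Fin 2 → ℝ) : ℝ := p1 b x ^ 2 + p2 b x ^ 2 + r1 b x ^ 2 + r2 b x ^ 2

/-- The Hopf image of the vector. -/
def K (b : Fin 3 → ℝ) (x : Fin 2 → ℝ) : Fin 3 → ℝ :=
  ![2 * (p1 b x * r1 b x + p2 b x * r2 b x), 2 * (p1 b x * r2 b x - p2 b x * r1 b x),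
    p1 b x ^ 2 + p2 b x ^ 2 - r1 b x ^ 2 - r2 b x ^ 2]

lemma K_sq (b : Fin 3 → ℝ) (x : Fin 2 → ℝ) :
    K b x 0 ^ 2 + K b x 1 ^ 2 + K b x 2 ^ 2 = q b x ^ 2 := by
  simp only [K, q, Matrix.cons_val]
  ring

lemma ratio_le (b : Fin 3 → ℝ) (x : Fin 2 → ℝ) (i : Fin 3) : ‖K b x i / q b x‖ ≤ 1 := by
  rw [norm_div]
  refine div_le_one_of_le₀ ?_ (norm_nonneg _)
  rw [Real.norm_eq_abs, Real.norm_eq_abs, ← sq_le_sq, ← K_sq]
  have h0 := sq_nonneg (K b x 0)
  have h1 := sq_nonneg (K b x 1)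
  have h2 := sq_nonneg (K b x 2)
  match i with
  | 0 => linarith
  | 1 => linarith
  | 2 => linarith

lemma K_sphere {b : Fin 3 → ℝ} (hb : b 0 ^ 2 + b 1 ^ 2 + b 2 ^ 2 = 1) (x : Fin 2 → ℝ)
    (i : Fin 3) : K b x i = b i * q b x := by
  match i with
  | 0 =>
    simp only [K, q, p1, p2, r1, r2, Matrix.cons_val]
    linear_combination (-(b 0 * (1 + x 0 ^ 2 + x 1 ^ 2) + 2 * x 0)) * hb
  | 1 =>
    simp only [K, q, p1, p2, r1, r2, Matrix.cons_val]
    linear_combination (-(b 1 * (1 + x 0 ^ 2 + x 1 ^ 2) + 2 * x 1)) * hb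
  | 2 =>
    simp only [K, q, p1, p2, r1, r2, Matrix.cons_val]
    linear_combination (-(b 2 * (1 + x 0 ^ 2 + x 1 ^ 2) + (1 - x 0 ^ 2 - x 1 ^ 2))) * hb

lemma q_ne (b : Fin 3 → ℝ) : ∀ᵐ x : Fin 2 → ℝ, q b x ≠ 0 := by
  have key : ∀ x, q b x = 0 → p1 b x = 0 ∧ r1 b x = 0 ∧ r2 b x = 0 := by
    intro x hx
    unfold q at hx
    have h1 := sq_nonneg (p1 b x)
    have h2 := sq_nonneg (p2 b x)
    have h3 := sq_nonneg (r1 b x)
    have h4 := sq_nonneg (r2 b x)
    exact ⟨pow_eq_zero_iff two_ne_zero |>.1 (by linarith),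
      pow_eq_zero_iff two_ne_zero |>.1 (by linarith),
      pow_eq_zero_iff two_ne_zero |>.1 (by linarith)⟩
  rw [ae_iff]
  refine Set.Subsingleton.measure_zero (fun x hx y hy => ?_) _
  obtain ⟨a1, a2, a3⟩ := key x (not_not.1 hx)
  obtain ⟨-, c2, c3⟩ := key y (not_not.1 hy)
  unfold p1 at a1
  unfold r1 at a2 c2
  unfold r2 at a3 c3
  have hc : 1 - b 2 ≠ 0 := by
    intro h
    rw [h] at a2 a3
    have e0 : b 0 = 0 := by linarith
    have e1 : b 1 = 0 := by linarith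
    rw [e0, e1] at a1
    linarith
  ext i
  match i with
  | 0 => exact mul_left_cancel₀ hc (by linarith)
  | 1 => exact mul_left_cancel₀ hc (by linarith)

lemma cont_q : Continuous fun z : (Fin 3 → ℝ) × (Fin 2 → ℝ) => q z.1 z.2 := by
  unfold q p1 p2 r1 r2
  fun_prop

lemma cont_K (i : Fin 3) : Continuous fun z : (Fin 3 → ℝ) × (Fin 2 → ℝ) => K z.1 z.2 i := by
  match i with
  | 0 => simp only [K, p1, p2, r1, r2, Matrix.cons_val]; fun_prop
  | 1 => simp only [K, p1, p2, r1, r2, Matrix.cons_val]; fun_prop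
  | 2 => simp only [K, p1, p2, r1, r2, Matrix.cons_val]; fun_prop

lemma int_K {w : (Fin 2 → ℝ) → ℝ} (wi : Integrable w) (b : Fin 3 → ℝ) (i : Fin 3) :
    Integrable fun x => w x * (K b x i / q b x) :=
  wi.mul_bdd (((cont_K i).comp (Continuous.prodMk_right b)).measurable.div
    (cont_q.comp (Continuous.prodMk_right b)).measurable).aestronglyMeasurable
    (Eventually.of_forall fun x => ratio_le b x i)

/-- Conformal balancing. -/
lemma balance {w : (Fin 2 → ℝ) → ℝ} (wi : Integrable w) (w1 : ∫ x, w x = 1) :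
    ∃ b : Fin 3 → ℝ, b 0 ^ 2 + b 1 ^ 2 + b 2 ^ 2 < 1 ∧
      ∀ i, ∫ x, w x * (K b x i / q b x) = 0 := by
  let H : EuclideanSpace ℝ (Fin 3) → EuclideanSpace ℝ (Fin 3) := fun b =>
    WithLp.toLp 2 fun i => ∫ x, w x * (K b.ofLp x i / q b.ofLp x)
  have Hc : Continuous H := by
    refine (PiLp.continuous_toLp 2 _).comp ((continuous_pi fun i => ?_ :
      Continuous fun (b : Fin 3 → ℝ) (i : Fin 3) => ∫ x, w x * (K b x i / q b x)).comp
        (PiLp.continuous_ofLp 2 _))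
    refine continuous_iff_continuousAt.2 fun b₀ => ?_
    refine continuousAt_of_dominated (bound := fun x => ‖w x‖)
      (Eventually.of_forall fun b => (int_K wi b i).1)
      (Eventually.of_forall fun b => Eventually.of_forall fun x => ?_) wi.norm ?_
    · rw [norm_mul]
      exact mul_le_of_le_one_right (norm_nonneg _) (ratio_le b x i)
    · filter_upwards [q_ne b₀] with x hx
      exact continuousAt_const.mul
        (((cont_K i).comp (Continuous.prodMk_left x)).continuousAt.div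
          (cont_q.comp (Continuous.prodMk_left x)).continuousAt hx)
  have hn : ∀ b : EuclideanSpace ℝ (Fin 3), ‖b‖ ^ 2 = b 0 ^ 2 + b 1 ^ 2 + b 2 ^ 2 := by
    intro b
    rw [EuclideanSpace.real_norm_sq_eq, Fin.sum_univ_three]
  have Hs : ∀ b, ‖b‖ = 1 → H b = b := by
    intro b hb
    ext i
    have : ∀ᵐ x, w x * (K b.ofLp x i / q b.ofLp x) = w x * b i := by
      filter_upwards [q_ne b.ofLp] with x hx
      rw [K_sphere (by rw [← hn, hb, one_pow]), mul_div_cancel_right₀ _ hx]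
    change ∫ x, w x * (K b.ofLp x i / q b.ofLp x) = b i
    rw [integral_congr_ae this, integral_mul_const, w1, one_mul]
  by_contra hne
  have H0 : ∀ b ∈ closedBall (0 : EuclideanSpace ℝ (Fin 3)) 1, ‖H b‖ ≠ 0 := by
    intro b hb h0
    rcases (mem_closedBall_zero_iff.1 hb).eq_or_lt with h | h
    · rw [Hs b h, h] at h0
      exact one_ne_zero h0
    · refine hne ⟨b.ofLp, ?_, fun i => ?_⟩
      · rw [← hn]
        nlinarith [norm_nonneg b]
      · exact congrArg (fun v : EuclideanSpace ℝ (Fin 3) => v i) (norm_eq_zero.1 h0)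
  have H1 : ∀ b ∈ closedBall (0 : EuclideanSpace ℝ (Fin 3)) 1, ‖-(‖H b‖⁻¹ • H b)‖ = 1 := by
    intro b hb
    rw [norm_neg, norm_smul, norm_inv, norm_norm, inv_mul_cancel₀ (H0 b hb)]
  obtain ⟨b, hb, hfix⟩ := Pool.Agent.Shared.Brouwer.brouwer one_pos (fun b => -(‖H b‖⁻¹ • H b))
    ((Hc.continuousOn.norm.inv₀ H0).smul Hc.continuousOn).neg
    fun b hb => mem_closedBall_zero_iff.2 (H1 b hb).le
  have h1 : ‖b‖ = 1 := by rw [← H1 b hb, hfix]
  rw [Hs b h1, h1, inv_one, one_smul] at hfix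
  have h2 : (2 : ℝ) • b = 0 := by
    rw [two_smul]
    exact add_eq_zero_iff_neg_eq.2 hfix
  have h3 := congrArg norm h2
  rw [norm_smul, h1, norm_zero] at h3
  norm_num at h3

lemma radial {A C : ℝ} (hA : 0 < A) (hC : 0 < C) :
    Integrable (fun z : ℂ => (1 / (A * ‖z‖ ^ 2 + C)) ^ 2) ∧
      ∫ z : ℂ, (1 / (A * ‖z‖ ^ 2 + C)) ^ 2 = π / (A * C) := by
  have hd : ∀ y ∈ Ici (0 : ℝ), HasDerivAt (fun y : ℝ => -(2 * A * (A * y ^ 2 + C))⁻¹)
      (y * (1 / (A * y ^ 2 + C)) ^ 2) y := by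
    intro y _
    have h0 : A * y ^ 2 + C ≠ 0 := by positivity
    have := (((((hasDerivAt_pow 2 y).const_mul A).add_const C).const_mul (2 * A)).fun_inv
      (by positivity)).fun_neg
    refine this.congr_deriv ?_
    simp only [Nat.cast_ofNat, Nat.add_one_sub_one, pow_one]
    field_simp
  have hp : ∀ y ∈ Ioi (0 : ℝ), 0 ≤ y * (1 / (A * y ^ 2 + C)) ^ 2 := fun y hy =>
    mul_nonneg (le_of_lt hy) (sq_nonneg _)
  have hl : Tendsto (fun y : ℝ => -(2 * A * (A * y ^ 2 + C))⁻¹) atTop (𝓝 (-0)) :=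
    (tendsto_inv_atTop_zero.comp ((tendsto_atTop_add_const_right _ C
      ((tendsto_pow_atTop two_ne_zero).const_mul_atTop hA)).const_mul_atTop
        (by positivity : 0 < 2 * A))).neg
  constructor
  · rw [integrable_fun_norm_addHaar volume (f := fun y => (1 / (A * y ^ 2 + C)) ^ 2)]
    simpa using integrableOn_Ioi_deriv_of_nonneg' hd hp hl
  · rw [integral_fun_norm_addHaar volume (fun y => (1 / (A * y ^ 2 + C)) ^ 2)]
    have := integral_Ioi_of_hasDerivAt_of_nonneg' hd hp hl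
    simp only [Complex.finrank_real_complex, Nat.add_one_sub_one, pow_one, smul_eq_mul, this,
      Measure.real, Complex.volume_ball]
    simp
    field_simp

lemma int_q {b : Fin 3 → ℝ} (hb : b 0 ^ 2 + b 1 ^ 2 + b 2 ^ 2 < 1) :
    Integrable (fun x => (1 / q b x) ^ 2) ∧
      ∫ x, (1 / q b x) ^ 2 = π / (1 - (b 0 ^ 2 + b 1 ^ 2 + b 2 ^ 2)) ^ 2 := by
  set D := 1 - (b 0 ^ 2 + b 1 ^ 2 + b 2 ^ 2) with hD
  set A := b 0 ^ 2 + b 1 ^ 2 + (1 - b 2) ^ 2 with hA
  have D0 : 0 < D := by linarith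
  have A0 : 0 < A := by
    have : 0 < 1 - b 2 := by nlinarith [sq_nonneg (b 0), sq_nonneg (b 1)]
    positivity
  obtain ⟨h1, h2⟩ := radial A0 (by positivity : 0 < D ^ 2 / A)
  let a : Fin 2 → ℝ := ![2 * b 0 / A, 2 * b 1 / A]
  have mp := Complex.volume_preserving_equiv_pi.symm
  have e : ∀ x, q b x = A * ‖Complex.measurableEquivPi.symm (x + a)‖ ^ 2 + D ^ 2 / A := by
    intro x
    rw [Complex.measurableEquivPi_symm_apply, Complex.sq_norm, Complex.normSq_add_mul_I]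
    simp only [Pi.add_apply, a, Matrix.cons_val]
    field_simp
    simp only [hA, hD, q, p1, p2, r1, r2]
    ring
  simp only [e]
  refine ⟨(mp.comp (measurePreserving_add_right volume a)).integrable_comp_of_integrable h1, ?_⟩
  rw [integral_add_right_eq_self (fun x => (1 / (A * ‖Complex.measurableEquivPi.symm x‖ ^ 2 +
    D ^ 2 / A)) ^ 2) a, mp.integral_comp' (fun z => (1 / (A * ‖z‖ ^ 2 + D ^ 2 / A)) ^ 2), h2]
  field_simp

lemma chord {a a' s s' x1 x2 x3 x4 y1 y2 y3 y4 : ℝ} (ha : 0 ≤ a) (ha' : 0 ≤ a')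
    (hs : s ^ 2 = x1 ^ 2 + x2 ^ 2 + x3 ^ 2 + x4 ^ 2)
    (hs' : s' ^ 2 = y1 ^ 2 + y2 ^ 2 + y3 ^ 2 + y4 ^ 2) :
    (a' * y1 - a * x1) ^ 2 + (a' * y2 - a * x2) ^ 2 +
      ((a' * y3 - a * x3) ^ 2 + (a' * y4 - a * x4) ^ 2) ≤ (a' * s' - a * s) ^ 2 +
      ((y1 - x1) ^ 2 + (y2 - x2) ^ 2 + (y3 - x3) ^ 2 + (y4 - x4) ^ 2) * ((a' ^ 2 + a ^ 2) / 2) := by
  have h1 := mul_nonneg (mul_nonneg ha ha') (sq_nonneg (s - s'))
  have h2 : 0 ≤ ((y1 - x1) ^ 2 + (y2 - x2) ^ 2 + (y3 - x3) ^ 2 + (y4 - x4) ^ 2) *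
    (a - a') ^ 2 / 2 := by positivity
  linear_combination h1 + h2 + (a * a' - a' ^ 2) * hs' + (a * a' - a ^ 2) * hs

/-- Difference quotient bounds in every slot bound the kinetic energy. -/
lemma kin_le {d n : ℕ} {Ψ : (Fin (n + 1) → Fin d → ℝ) → ℂ} (h2 : MemLp Ψ 2 volume)
    (B : Fin d → ℝ) (hB0 : ∀ r, 0 ≤ B r)
    (hB : ∀ (i : Fin (n + 1)) (r : Fin d) (h : ℝ), 0 < h → ((n : ℝ) + 1) *
      ∫ x, ‖Ψ (x + Pi.single i (h • Pi.single r (1 : ℝ))) - Ψ x‖ ^ 2 ≤ h ^ 2 * B r) :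
    kinetic Ψ ≤ ENNReal.ofReal (∑ r, B r) := by
  have hN : (0 : ℝ) < (n : ℝ) + 1 := by positivity
  have : ∀ p : Fin (n + 1) × Fin d, ∃ g : (Fin (n + 1) → Fin d → ℝ) → ℂ, MemLp g 2 volume ∧
      IsWeakDeriv Ψ g (Pi.single p.1 (Pi.single p.2 (1 : ℝ))) ∧
      ∫ x, ‖g x‖ ^ 2 ≤ B p.2 / ((n : ℝ) + 1) := by
    intro p
    refine weak_of_diff_le h2 (div_nonneg (hB0 _) hN.le) fun h hh => ?_
    have h1 := hB p.1 p.2 h hh
    rw [Pi.single_smul'] at h1
    rw [← mul_div_assoc, le_div_iff₀ hN, mul_comm]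
    exact h1
  choose g hg using this
  unfold kinetic dirichlet
  refine (iInf₂_le g fun p => ⟨(hg p).1, (hg p).2.1⟩).trans ?_
  calc _ ≤ ∑ p : Fin (n + 1) × Fin d, ENNReal.ofReal (B p.2 / ((n : ℝ) + 1)) := by
        refine Finset.sum_le_sum fun p _ => ?_
        rw [lintegral_enorm_sq (hg p).1]
        exact ENNReal.ofReal_le_ofReal (hg p).2.2
    _ = _ := by
        rw [← ENNReal.ofReal_sum_of_nonneg fun p _ => div_nonneg (hB0 _) hN.le]
        congr 1
        rw [Fintype.sum_prod_type]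
        simp only [Finset.sum_const, Finset.card_univ, Fintype.card_fin, nsmul_eq_mul]
        rw [← Finset.sum_div]; push_cast; field_simp

/-- A two-particle Slater determinant with density `2 u ^ 2` and controlled kinetic energy. -/
theorem two_state {u : (Fin 2 → ℝ) → ℝ} (um : Measurable u) (u0 : ∀ x, 0 ≤ u x)
    (u2 : MemLp u 2 volume) (u1 : ∫ x, u x ^ 2 = 1) (B : Fin 2 → ℝ) (B0 : ∀ r, 0 ≤ B r)
    (hB : ∀ r (h : ℝ), 0 < h →
      ∫ x, (u (x + h • Pi.single r (1 : ℝ)) - u x) ^ 2 ≤ h ^ 2 * B r)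
    (hD : Integrable fun x => (u x ^ 2) ^ 2) :
    ∃ Ψ : (Fin (1 + 1) → Fin 2 → ℝ) → ℂ, IsState Ψ ∧ (∀ x, density Ψ x = 2 * u x ^ 2) ∧
      kinetic Ψ ≤ ENNReal.ofReal (8 * π * (∫ x, (u x ^ 2) ^ 2) + 2 * ∑ r, B r) := by
  have wi := u2.integrable_sq
  obtain ⟨b, hb, hK⟩ := balance wi u1
  obtain ⟨iq, eq⟩ := int_q hb
  set D := 1 - (b 0 ^ 2 + b 1 ^ 2 + b 2 ^ 2) with hDd
  set A := b 0 ^ 2 + b 1 ^ 2 + (1 - b 2) ^ 2 with hA
  have D0 : 0 < D := by linarith
  have A0 : 0 < A := by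
    have : 0 < 1 - b 2 := by nlinarith [sq_nonneg (b 0), sq_nonneg (b 1)]
    positivity
  have hAq : ∀ x, D ^ 2 ≤ A * q b x := by
    intro x
    have : A * q b x = (A * x 0 + 2 * b 0) ^ 2 + (A * x 1 + 2 * b 1) ^ 2 + D ^ 2 := by
      simp only [hA, hDd, q, p1, p2, r1, r2]
      ring
    rw [this]
    exact le_add_of_nonneg_left (by positivity)
  have q0 : ∀ x, 0 < q b x := fun x =>
    (mul_pos_iff_of_pos_left A0).1 ((pow_pos D0 2).trans_le (hAq x))
  have qm : Measurable (q b) := (cont_q.comp (Continuous.prodMk_right b)).measurable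
  obtain ⟨a, am, a0, has⟩ : ∃ a : (Fin 2 → ℝ) → ℝ, Measurable a ∧ (∀ x, 0 ≤ a x) ∧
      ∀ x, a x * √(q b x) = √2 * u x :=
    ⟨fun x => √2 * u x / √(q b x), (um.const_mul _).div qm.sqrt,
      fun x => div_nonneg (mul_nonneg (sqrt_nonneg _) (u0 x)) (sqrt_nonneg _),
      fun x => div_mul_cancel₀ _ (sqrt_pos.2 (q0 x)).ne'⟩
  have s2 : √2 ^ 2 = (2 : ℝ) := sq_sqrt zero_le_two
  have hu : ∀ x, u x ^ 2 = a x ^ 2 * q b x / 2 := by
    intro x
    have h := congrArg (· ^ 2) (has x)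
    simp only [mul_pow, s2, sq_sqrt (q0 x).le] at h
    linarith
  have hw : ∀ x i, u x ^ 2 * (K b x i / q b x) = a x ^ 2 * K b x i / 2 := by
    intro x i
    have := (q0 x).ne'
    rw [hu]
    field_simp
  have av : ∀ {E : Type} [NormedAddCommGroup E] [NormedSpace ℝ E] [CompleteSpace E] (δ : E)
      (s : Fin 3 → E),
      ∫ x, ((a x ^ 2 * q b x / 2) • δ + ∑ i, (a x ^ 2 * K b x i / 2) • s i) = δ := by
    intro E _ _ _ δ s
    simp only [← hw, ← hu]
    rw [integral_add (wi.smul_const _)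
      (integrable_finsetSum _ fun i _ => (int_K wi b i).smul_const _),
      integral_finsetSum _ fun i _ => (int_K wi b i).smul_const _]
    simp only [integral_smul_const, u1, hK, one_smul, zero_smul, Finset.sum_const_zero, add_zero]
  let φ : Fin 2 → (Fin 2 → ℝ) → ℂ :=
    ![fun x => ((a x * p1 b x : ℝ) : ℂ) + ((a x * p2 b x : ℝ) : ℂ) * Complex.I,
      fun x => ((a x * r1 b x : ℝ) : ℂ) + ((a x * r2 b x : ℝ) : ℂ) * Complex.I]
  have φm : ∀ k, Measurable (φ k) := by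
    intro k
    match k with
    | 0 => simp only [φ, p1, p2, Matrix.cons_val]; fun_prop
    | 1 => simp only [φ, r1, r2, Matrix.cons_val]; fun_prop
  have φn : ∀ x, ∑ k, ‖φ k x‖ ^ 2 = 2 * u x ^ 2 := by
    intro x
    simp only [Fin.sum_univ_two, φ, Matrix.cons_val, Complex.sq_norm, Complex.normSq_add_mul_I,
      hu, q]
    ring
  have φ2 : ∀ k, MemLp (φ k) 2 volume := by
    intro k
    refine (memLp_two_iff_integrable_sq_norm (φm k).aestronglyMeasurable).2
      ((wi.const_mul 2).mono' ((φm k).norm.pow_const 2).aestronglyMeasurable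
        (Eventually.of_forall fun x => ?_))
    rw [← φn, Real.norm_of_nonneg (sq_nonneg _)]
    exact Finset.single_le_sum (f := fun k => ‖φ k x‖ ^ 2) (fun _ _ => sq_nonneg _)
      (Finset.mem_univ k)
  have φon : ∀ k l, ∫ x, conj (φ k x) * φ l x = if k = l then 1 else 0 := by
    intro k l
    match k, l with
    | 0, 0 =>
      rw [if_pos rfl, ← av (1 : ℂ) ![0, 0, 1]]
      refine integral_congr_ae (Eventually.of_forall fun x => Complex.ext ?_ ?_) <;>
        simp [φ, Fin.sum_univ_three, K, q, -Complex.ofReal_pow] <;> ring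
    | 0, 1 =>
      rw [if_neg (by decide), ← av (0 : ℂ) ![1, Complex.I, 0]]
      refine integral_congr_ae (Eventually.of_forall fun x => Complex.ext ?_ ?_) <;>
        simp [φ, Fin.sum_univ_three, K, q, -Complex.ofReal_pow] <;> ring
    | 1, 0 =>
      rw [if_neg (by decide), ← av (0 : ℂ) ![1, -Complex.I, 0]]
      refine integral_congr_ae (Eventually.of_forall fun x => Complex.ext ?_ ?_) <;>
        simp [φ, Fin.sum_univ_three, K, q, -Complex.ofReal_pow] <;> ring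
    | 1, 1 =>
      rw [if_pos rfl, ← av (1 : ℂ) ![0, 0, -1]]
      refine integral_congr_ae (Eventually.of_forall fun x => Complex.ext ?_ ?_) <;>
        simp [φ, Fin.sum_univ_three, K, q, -Complex.ofReal_pow] <;> ring
  have ai : Integrable fun x => a x ^ 2 := by
    refine (wi.const_mul (2 * A / D ^ 2)).mono' (am.pow_const 2).aestronglyMeasurable
      (Eventually.of_forall fun x => ?_)
    rw [Real.norm_of_nonneg (sq_nonneg _), div_mul_eq_mul_div, le_div_iff₀ (pow_pos D0 2), hu]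
    have := mul_le_mul_of_nonneg_left (hAq x) (sq_nonneg (a x))
    linarith
  have ae : (∫ x, a x ^ 2) * D ^ 2 = A := by
    rw [← integral_mul_const,
      ← av A ![-2 * (1 - b 2) * b 0, -2 * (1 - b 2) * b 1, (1 - b 2) ^ 2 - b 0 ^ 2 - b 1 ^ 2]]
    refine integral_congr_ae (Eventually.of_forall fun x => ?_)
    simp only [Fin.sum_univ_three, Matrix.cons_val, smul_eq_mul, hA, hDd, K, q, p1, p2, r1, r2]
    ring
  have am0 : 0 ≤ ∫ x, a x ^ 2 := integral_nonneg fun x => sq_nonneg _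
  have amgm : A * ∫ x, a x ^ 2 ≤ 4 * π * ∫ x, (u x ^ 2) ^ 2 := by
    have h1 : ∫ x, 2 * π * A * a x ^ 2 ≤
        ∫ x, (4 * π ^ 2 * (u x ^ 2) ^ 2 + A ^ 2 * (1 / q b x) ^ 2) := by
      refine integral_mono (ai.const_mul _) ((hD.const_mul _).add (iq.const_mul _)) fun x => ?_
      have h2 : a x ^ 2 = 2 * u x ^ 2 * (1 / q b x) := by
        have := (q0 x).ne'
        rw [hu]
        field_simp
      simp only [h2]
      nlinarith [sq_nonneg (2 * π * u x ^ 2 - A * (1 / q b x))]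
    rw [integral_add (hD.const_mul _) (iq.const_mul _), integral_const_mul, integral_const_mul,
      integral_const_mul, eq] at h1
    have h3 : A ^ 2 * (π / D ^ 2) = π * (A * ∫ x, a x ^ 2) := by
      rw [eq_div_of_mul_eq (pow_pos D0 2).ne' ae]
      ring
    rw [h3] at h1
    refine le_of_mul_le_mul_left ?_ pi_pos
    linarith
  obtain ⟨Ψ, Ψ2, Ψ1, Ψa, Ψd, Ψe⟩ := slater_state (n := 1) φ φm φ2 φon (fun _ : Unit => 1)
    (fun _ => zero_le_one) (by simp) (fun _ j => j) (fun _ => Function.injective_id)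
    fun _ _ _ _ => rfl
  refine ⟨Ψ, ⟨Ψ2, Ψ1, fun i j hij => Eventually.of_forall (Ψa i j hij)⟩, fun x => ?_, ?_⟩
  · unfold density
    rw [Ψd, ← φn]
    simp
  · refine (kin_le Ψ2 (fun r => 2 * B r + A * ∫ x, a x ^ 2)
      (fun r => by have := B0 r; positivity) fun i r h hh => ?_).trans
      (ENNReal.ofReal_le_ofReal ?_)
    · rw [Ψe]
      have hw2 : (h • Pi.single r (1 : ℝ) : Fin 2 → ℝ) 0 ^ 2 +
          (h • Pi.single r (1 : ℝ) : Fin 2 → ℝ) 1 ^ 2 = h ^ 2 := by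
        match r with
        | 0 => simp
        | 1 => simp
      have hB' := hB r h hh
      generalize (h • Pi.single r (1 : ℝ) : Fin 2 → ℝ) = w at hw2 hB'
      have di : ∀ k, Integrable fun x => ‖φ k (x + w) - φ k x‖ ^ 2 := fun k =>
        integrable_normsq ((memLp_shift (φ2 k) w).sub (φ2 k))
      have i1 : Integrable fun x => (u (x + w) - u x) ^ 2 :=
        ((u2.comp_measurePreserving (measurePreserving_add_right volume w)).sub u2).integrable_sq
      have i2 : Integrable fun x => a (x + w) ^ 2 := ai.comp_add_right w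
      have i3 : Integrable fun x => a (x + w) ^ 2 + a x ^ 2 := i2.add ai
      have h1 : ∫ x, ∑ k, ‖φ k (x + w) - φ k x‖ ^ 2 ≤
          ∫ x, (2 * (u (x + w) - u x) ^ 2 + A * h ^ 2 / 2 * (a (x + w) ^ 2 + a x ^ 2)) := by
        refine integral_mono (integrable_finsetSum _ fun k _ => di k)
          ((i1.const_mul _).add (i3.const_mul _)) fun x => ?_
        have c := chord (s := √(q b x)) (s' := √(q b (x + w))) (a0 x) (a0 (x + w))
          (sq_sqrt (q0 x).le) (sq_sqrt (q0 (x + w)).le)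
        rw [has, has, ← mul_sub, mul_pow, s2] at c
        have e1 : (p1 b (x + w) - p1 b x) ^ 2 + (p2 b (x + w) - p2 b x) ^ 2 +
            (r1 b (x + w) - r1 b x) ^ 2 + (r2 b (x + w) - r2 b x) ^ 2 = A * h ^ 2 := by
          simp only [← hw2, hA, p1, p2, r1, r2, Pi.add_apply]
          ring
        rw [e1] at c
        simp [φ, Complex.sq_norm, Complex.normSq_apply]
        linarith
      rw [integral_finsetSum _ fun k _ => di k,
        integral_add (i1.const_mul _) (i3.const_mul _), integral_const_mul,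
        integral_const_mul, integral_add i2 ai,
        integral_add_right_eq_self (fun x => a x ^ 2) w] at h1
      simp only [Finset.univ_unique, Finset.sum_singleton, one_mul]
      linarith
    · simp only [Fin.sum_univ_two]
      linarith

end Pool.Agent.Lib.MP_ae5e3b_mp.Two
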